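import Pool.Agent.H69.AgDefs

namespace Pool.Agent.H69.Ag
open Set

section general
variable {G : Type} [Group G]

def ball (S : Finset G) (n : ℕ) : Set G :=
  {g | ∃ l : List G, l.length ≤ n ∧ (∀ s ∈ l, s ∈ S ∨ s⁻¹ ∈ S) ∧ l.prod = g}

theorem ball_mono (S : Finset G) {m n : ℕ} (h : m ≤ n) : ball S m ⊆ ball S n :=
  fun _ ⟨l, h1, h2⟩ => ⟨l, h1.trans h, h2⟩

theorem ball_mul {S : Finset G} {m n : ℕ} {g h : G} (hg : g ∈ ball S m) (hh : h ∈ ball S n) :
    g * h ∈ ball S (m + n) := by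
  obtain ⟨l, h1, h2, rfl⟩ := hg
  obtain ⟨l', h1', h2', rfl⟩ := hh
  refine ⟨l ++ l', by simp; omega, fun s hs => ?_, by simp⟩
  rcases List.mem_append.1 hs with h | h
  · exact h2 s h
  · exact h2' s h

theorem ball_inv {S : Finset G} {m : ℕ} {g : G} (hg : g ∈ ball S m) : g⁻¹ ∈ ball S m := by
  obtain ⟨l, h1, h2, rfl⟩ := hg
  refine ⟨(l.map (·⁻¹)).reverse, by simpa using h1, fun s hs => ?_, by
    rw [List.prod_inv_reverse]⟩
  simp only [List.mem_reverse, List.mem_map] at hs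
  obtain ⟨t, ht, rfl⟩ := hs
  simpa [or_comm] using h2 t ht

theorem one_mem_ball (S : Finset G) (n : ℕ) : (1 : G) ∈ ball S n := ⟨[], by simp, by simp, rfl⟩

theorem mem_ball_one {S : Finset G} {s : G} (hs : s ∈ S) : s ∈ ball S 1 :=
  ⟨[s], by simp, by simp [hs], by simp⟩

theorem ball_zpow {S : Finset G} {s : G} (hs : s ∈ S) (k : ℤ) : s ^ k ∈ ball S k.natAbs := by
  have hn : ∀ n : ℕ, s ^ n ∈ ball S n := by
    intro n
    induction n with
    | zero => simpa using one_mem_ball S 0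
    | succ n ih => rw [pow_succ]; exact ball_mul ih (mem_ball_one hs)
  obtain ⟨n, rfl | rfl⟩ := Int.eq_nat_or_neg k
  · simpa using hn n
  · simpa using ball_inv (hn n)

theorem exists_ball {S : Finset G} (hS : Subgroup.closure (S : Set G) = ⊤) (g : G) :
    ∃ n, g ∈ ball S n := by
  have : g ∈ Subgroup.closure (S : Set G) := by rw [hS]; trivial
  induction this using Subgroup.closure_induction with
  | mem x hx => exact ⟨1, mem_ball_one hx⟩
  | one => exact ⟨0, one_mem_ball S 0⟩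
  | mul x y _ _ hx hy =>
    obtain ⟨m, hm⟩ := hx
    obtain ⟨n, hn⟩ := hy
    exact ⟨_, ball_mul hm hn⟩
  | inv x _ hx =>
    obtain ⟨m, hm⟩ := hx
    exact ⟨_, ball_inv hm⟩

theorem wl_le_iff {S : Finset G} (hS : Subgroup.closure (S : Set G) = ⊤) (g : G) (n : ℕ) :
    wl S g ≤ n ↔ g ∈ ball S n := by
  constructor
  · intro h
    obtain ⟨m, l, -, h2⟩ := exists_ball hS g
    have : wl S g ∈ {n | ∃ l : List G, l.length = n ∧ (∀ s ∈ l, s ∈ S ∨ s⁻¹ ∈ S) ∧ l.prod = g} :=
      Nat.sInf_mem ⟨_, l, rfl, h2⟩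
    obtain ⟨l', h1', h2'⟩ := this
    exact ⟨l', h1'.le.trans h, h2'⟩
  · rintro ⟨l, h1, h2⟩
    exact le_trans (Nat.sInf_le (m := l.length) ⟨l, rfl, h2⟩) h1

theorem ball_finite (S : Finset G) (n : ℕ) : (ball S n).Finite := by
  classical
  induction n with
  | zero =>
    refine (Set.finite_singleton 1).subset ?_
    rintro g ⟨l, h1, -, rfl⟩
    have : l = [] := List.length_eq_zero_iff.1 (by omega)
    simp [this]
  | succ n ih =>
    have hT : {s : G | s ∈ S ∨ s⁻¹ ∈ S}.Finite :=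
      (S.finite_toSet.union (S.finite_toSet.preimage inv_injective.injOn)).subset fun s hs => hs
    refine (ih.union (Set.Finite.image2 (· * ·) hT ih)).subset ?_
    rintro g ⟨l, h1, h2, rfl⟩
    cases l with
    | nil => exact Or.inl (one_mem_ball S n)
    | cons s l =>
      right
      refine ⟨s, h2 s (by simp), l.prod, ⟨l, by simpa using h1, fun t ht => h2 t (by simp [ht]), rfl⟩,
        by simp⟩

theorem ball_cmp (S : Finset G) {T : Finset G} (hT : Subgroup.closure (T : Set G) = ⊤) :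
    ∃ C : ℕ, 1 ≤ C ∧ ∀ n, ball S n ⊆ ball T (C * n) := by
  choose f hf using exists_ball hT
  refine ⟨S.sup f + 1, by omega, fun n => ?_⟩
  have h1 : ∀ s, (s ∈ S ∨ s⁻¹ ∈ S) → s ∈ ball T (S.sup f + 1) := by
    intro s hs
    rcases hs with hs | hs
    · exact ball_mono T ((Finset.le_sup hs).trans (Nat.le_succ _)) (hf s)
    · simpa using ball_inv (ball_mono T ((Finset.le_sup hs).trans (Nat.le_succ _)) (hf s⁻¹))
  rintro g ⟨l, hl, h2, rfl⟩
  refine ball_mono T (Nat.mul_le_mul_left _ hl) ?_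
  clear hl
  induction l with
  | nil => exact one_mem_ball _ _
  | cons s l ih =>
    rw [List.prod_cons, List.length_cons, mul_add, mul_one, add_comm]
    exact ball_mul (h1 s (h2 s (by simp))) (ih fun t ht => h2 t (by simp [ht]))

/-- orbit count of a ball -/
noncomputable def beta (S : Finset G) (n : ℕ) : ℕ :=
  Set.ncard ((fun g => MulAction.orbit (MulAut G) g) '' ball S n)

theorem alpha_eq {S : Finset G} (hS : Subgroup.closure (S : Set G) = ⊤) (n : ℕ) :
    alpha S n = beta S n := by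
  unfold alpha beta
  congr 1
  ext O
  constructor
  · rintro ⟨⟨g, rfl⟩, h, h1, h2⟩
    exact ⟨h, (wl_le_iff hS _ _).1 h2, MulAction.orbit_eq_iff.2 h1⟩
  · rintro ⟨g, hg, rfl⟩
    exact ⟨⟨g, rfl⟩, g, MulAction.mem_orbit_self g, (wl_le_iff hS _ _).2 hg⟩

theorem beta_le {S T : Finset G} {m n : ℕ} (h : ball S m ⊆ ball T n) : beta S m ≤ beta T n :=
  Set.ncard_le_ncard (Set.image_mono h) ((ball_finite T n).image _)

end general

/-! The group -/

@[ext] structure Hs where
  x : ℤ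
  y : ℤ
  z : ℤ
  e : ℤˣ

instance : Mul Hs := ⟨fun g h => ⟨g.x + h.x, g.y * h.e + h.y, g.z * h.e + h.z + g.x * h.y, g.e * h.e⟩⟩
instance : One Hs := ⟨⟨0, 0, 0, 1⟩⟩
instance : Inv Hs := ⟨fun g => ⟨-g.x, -g.y * g.e, g.x * g.y * g.e - g.z * g.e, g.e⟩⟩

@[simp] theorem mul_x (g h : Hs) : (g * h).x = g.x + h.x := rfl
@[simp] theorem mul_y (g h : Hs) : (g * h).y = g.y * h.e + h.y := rfl
@[simp] theorem mul_z (g h : Hs) : (g * h).z = g.z * h.e + h.z + g.x * h.y := rfl
@[simp] theorem mul_e (g h : Hs) : (g * h).e = g.e * h.e := rfl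
@[simp] theorem one_x : (1 : Hs).x = 0 := rfl
@[simp] theorem one_y : (1 : Hs).y = 0 := rfl
@[simp] theorem one_z : (1 : Hs).z = 0 := rfl
@[simp] theorem one_e : (1 : Hs).e = 1 := rfl
@[simp] theorem inv_x (g : Hs) : (g⁻¹).x = -g.x := rfl
@[simp] theorem inv_y (g : Hs) : (g⁻¹).y = -g.y * g.e := rfl
@[simp] theorem inv_z (g : Hs) : (g⁻¹).z = g.x * g.y * g.e - g.z * g.e := rfl
@[simp] theorem inv_e (g : Hs) : (g⁻¹).e = g.e := rfl

instance : Group Hs where
  mul_assoc a b c := by ext <;> simp <;> ring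
  one_mul a := by ext <;> simp
  mul_one a := by ext <;> simp
  inv_mul_cancel a := by
    rcases Int.units_eq_one_or a.e with h | h <;> ext <;> simp [h]

def ga : Hs := ⟨1, 0, 0, 1⟩
def gb : Hs := ⟨0, 1, 0, 1⟩
def gc : Hs := ⟨0, 0, 1, 1⟩
def gt : Hs := ⟨0, 0, 0, -1⟩

theorem zpow_eq (x y z : ℤ) (h : x * y = 0) (n : ℤ) :
    (⟨x, y, z, 1⟩ : Hs) ^ n = ⟨n * x, n * y, n * z, 1⟩ := by
  induction n using Int.induction_on with
  | zero => ext <;> simp
  | succ n ih =>
    rw [zpow_add_one, ih]; ext <;> simp <;> try ring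
    linear_combination (n : ℤ) * h
  | pred n ih =>
    rw [zpow_sub_one, ih]; ext <;> simp <;> try ring
    linear_combination (1 + (n : ℤ)) * h

theorem nf (x y z : ℤ) : (⟨x, y, z, 1⟩ : Hs) = gb ^ y * ga ^ x * gc ^ z := by
  rw [ga, gb, gc, zpow_eq _ _ _ (by simp), zpow_eq _ _ _ (by simp), zpow_eq _ _ _ (by simp)]
  ext <;> simp

open Classical in
noncomputable def T : Finset Hs := {ga, gb, gc, gt}

theorem nf_ball (x y z : ℤ) :
    (⟨x, y, z, 1⟩ : Hs) ∈ ball T (y.natAbs + x.natAbs + z.natAbs) := by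
  rw [nf]
  exact ball_mul (ball_mul (ball_zpow (by simp [T]) _) (ball_zpow (by simp [T]) _))
    (ball_zpow (by simp [T]) _)

theorem T_gen : Subgroup.closure (T : Set Hs) = ⊤ := by
  rw [eq_top_iff]
  rintro ⟨x, y, z, e⟩ -
  have h1 : ∀ x y z : ℤ, (⟨x, y, z, 1⟩ : Hs) ∈ Subgroup.closure (T : Set Hs) := by
    intro x y z
    rw [nf]
    refine mul_mem (mul_mem (zpow_mem ?_ _) (zpow_mem ?_ _)) (zpow_mem ?_ _) <;>
      exact Subgroup.subset_closure (by simp [T])
  rcases Int.units_eq_one_or e with rfl | rfl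
  · exact h1 _ _ _
  · have : (⟨x, y, z, -1⟩ : Hs) = gt * ⟨x, y, z, 1⟩ := by ext <;> simp [gt]
    rw [this]
    exact mul_mem (Subgroup.subset_closure (by simp [T])) (h1 _ _ _)

theorem ball_bound {n : ℕ} {g : Hs} (hg : g ∈ ball T n) :
    |g.x| ≤ n ∧ |g.y| ≤ n ∧ |g.z| ≤ (n : ℤ) ^ 2 := by
  obtain ⟨l, hl, h2, rfl⟩ := hg
  have : |l.prod.x| ≤ l.length ∧ |l.prod.y| ≤ l.length ∧ |l.prod.z| ≤ (l.length : ℤ) ^ 2 := by
    clear hl
    induction l with
    | nil => simp
    | cons s l ih =>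
      obtain ⟨i1, i2, i3⟩ := ih fun t ht => h2 t (by simp [ht])
      have hs : |s.x| ≤ 1 ∧ |s.y| ≤ 1 ∧ |s.z| ≤ 1 := by
        rcases h2 s (by simp) with h | h
        · simp only [T, Finset.mem_insert, Finset.mem_singleton] at h
          rcases h with rfl | rfl | rfl | rfl <;> simp [ga, gb, gc, gt]
        · simp only [T, Finset.mem_insert, Finset.mem_singleton, inv_eq_iff_eq_inv] at h
          rcases h with rfl | rfl | rfl | rfl <;> simp [ga, gb, gc, gt]
      obtain ⟨s1, s2, s3⟩ := hs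
      have he : |((l.prod.e : ℤˣ) : ℤ)| = 1 := by
        rcases Int.units_eq_one_or l.prod.e with h | h <;> simp [h]
      simp only [List.prod_cons, mul_x, mul_y, mul_z, List.length_cons]
      push_cast
      refine ⟨(abs_add_le _ _).trans (by linarith), (abs_add_le _ _).trans ?_, ?_⟩
      · rw [abs_mul, he]; linarith
      · refine (abs_add_le _ _).trans ?_
        have a1 := abs_add_le (s.z * l.prod.e) l.prod.z
        rw [abs_mul, he] at a1
        have a2 : |s.x * l.prod.y| ≤ l.length := by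
          rw [abs_mul]
          calc |s.x| * |l.prod.y| ≤ 1 * l.length := by gcongr
            _ = _ := one_mul _
        have : (0 : ℤ) ≤ l.length := by positivity
        nlinarith
  have hl' : (l.length : ℤ) ≤ n := by exact_mod_cast hl
  have : (0 : ℤ) ≤ l.length := by positivity
  refine ⟨by linarith, by linarith, ?_⟩
  nlinarith

/-! automorphisms -/

theorem sq_comm_iff (w : Hs) : (∀ g : Hs, w * (g * g) = g * g * w) ↔ ∃ k, w = ⟨0, 0, k, 1⟩ := by
  constructor
  · intro h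
    have h1 := congrArg Hs.z (h ga)
    have h2 := congrArg Hs.y (h gb)
    have h3 := congrArg Hs.z (h gb)
    simp [ga, gb] at h1 h2 h3
    refine ⟨w.z, ?_⟩
    ext
    · simpa using h3
    · simpa using h1
    · rfl
    · simp only [Units.val_one]; linarith
  · rintro ⟨k, rfl⟩ g
    rcases Int.units_eq_one_or g.e with h | h <;> ext <;> simp [h] <;> ring

theorem aut_c (φ : MulAut Hs) : ∃ k, φ gc = ⟨0, 0, k, 1⟩ := by
  rw [← sq_comm_iff]
  intro g
  obtain ⟨g, rfl⟩ := φ.surjective g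
  rw [← map_mul, ← map_mul, ← map_mul, (sq_comm_iff gc).2 ⟨1, rfl⟩]

theorem aut_form (φ : MulAut Hs) : ∃ s t p q : ℤ, s * s = 1 ∧ t * t = 1 ∧ ∀ x y z : ℤ,
    φ ⟨x, y, z, 1⟩ = ⟨s * x, t * y, s * t * z + p * x + q * y, 1⟩ := by
  obtain ⟨k, hk⟩ := aut_c φ
  obtain ⟨k', hk'⟩ := aut_c φ.symm
  have hkk : k' * k = 1 := by
    have h1 : φ (φ.symm gc) = gc := φ.apply_symm_apply gc
    have h2 : (⟨0, 0, k', 1⟩ : Hs) = gc ^ k' := by rw [gc, zpow_eq _ _ _ (by simp)]; simp
    rw [hk', h2, map_zpow, hk, zpow_eq _ _ _ (by simp)] at h1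
    simpa [gc] using congrArg Hs.z h1
  have hk0 : k ≠ 0 := by rintro rfl; simp at hkk
  have he : ∀ g : Hs, g * gc = gc * g → (φ g).e = 1 := by
    intro g hg
    have := congrArg (fun w => (φ w).z) hg
    simp only [map_mul, hk, mul_z] at this
    rcases Int.units_eq_one_or (φ g).e with h | h
    · exact h
    · simp [h] at this; omega
  have ea := he ga (by ext <;> simp [ga, gc])
  have eb := he gb (by ext <;> simp [gb, gc])
  have et : (φ gt).e = -1 := by
    rcases Int.units_eq_one_or (φ gt).e with h | h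
    · exfalso
      have : φ (gt * gc) = φ (gc * gt) := by
        rw [map_mul, map_mul, hk]; ext <;> simp [h]; ring
      have := congrArg Hs.z (φ.injective this)
      simp [gt, gc] at this
    · exact h
  have r1 : gt * ga = ga * gt := by ext <;> simp [ga, gt]
  have r2 : gb * gt * gb = gt := by ext <;> simp [gb, gt]
  have r3 : ga * gb = gb * ga * gc := by ext <;> simp [ga, gb, gc]
  have s1 := congrArg (fun w => (φ w).y) r1
  have s2 := congrArg (fun w => (φ w).x) r2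
  have s3 := congrArg (fun w => (φ w).z) r3
  simp only [map_mul, mul_x, mul_y, mul_z, ea, eb, et, hk] at s1 s2 s3
  simp at s1 s2 s3
  have ya : (φ ga).y = 0 := by omega
  have xb : (φ gb).x = 0 := by omega
  have hk2 : k = (φ ga).x * (φ gb).y := by rw [ya] at s3; linarith
  have fa : φ ga = ⟨(φ ga).x, 0, (φ ga).z, 1⟩ := by ext <;> simp [ya, ea]
  have fb : φ gb = ⟨0, (φ gb).y, (φ gb).z, 1⟩ := by ext <;> simp [xb, eb]
  generalize (φ ga).x = s at *
  generalize (φ gb).y = t at *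
  have u1 : s = 1 ∨ s = -1 := Int.eq_one_or_neg_one_of_mul_eq_one (v := k' * t) (by
    rw [← hkk, hk2]; ring)
  have u2 : t = 1 ∨ t = -1 := Int.eq_one_or_neg_one_of_mul_eq_one (v := k' * s) (by
    rw [← hkk, hk2]; ring)
  refine ⟨s, t, (φ ga).z, (φ gb).z, by rcases u1 with h | h <;> simp [h],
    by rcases u2 with h | h <;> simp [h], fun x y z => ?_⟩
  rw [nf, map_mul, map_mul, map_zpow, map_zpow, map_zpow, hk]
  conv_lhs => rw [fa, fb]
  rw [zpow_eq _ _ _ (by simp), zpow_eq _ _ _ (by simp), zpow_eq _ _ _ (by simp), hk2]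
  ext <;> simp <;> ring

end Pool.Agent.H69.Ag
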