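import Pool.Agent.H69.Ag1

namespace Pool.Agent.H69.Ag
open Finset

/-- coprime pairs in `[1,m]²` -/
def cop (m : ℕ) : Finset (ℕ × ℕ) := (Icc 1 m ×ˢ Icc 1 m).filter fun p => Nat.Coprime p.1 p.2

theorem sum_sq (m : ℕ) (hm : 2 ≤ m) : ∑ k ∈ Icc 2 m, (1 : ℝ) / (k : ℝ) ^ 2 ≤ 3 / 4 - 1 / m := by
  induction m, hm using Nat.le_induction with
  | base => norm_num
  | succ m hm ih =>
    rw [Finset.sum_Icc_succ_top (by omega)]
    have : (2 : ℝ) ≤ m := by exact_mod_cast hm
    have h2 : (1 : ℝ) / ((m + 1 : ℕ) : ℝ) ^ 2 ≤ 1 / m - 1 / ((m + 1 : ℕ) : ℝ) := by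
      push_cast
      rw [div_sub_div _ _ (by positivity) (by positivity), div_le_div_iff₀ (by positivity)
        (by positivity)]
      nlinarith
    linarith

theorem cop_card (m : ℕ) : (m : ℝ) ^ 2 / 4 ≤ (cop m).card := by
  rcases Nat.lt_or_ge m 2 with hm | hm
  · interval_cases m
    · simp
    · have : (cop 1).card = 1 := by decide
      rw [this]; norm_num
  have h1 : (Icc 1 m ×ˢ Icc 1 m).filter (fun p => ¬ Nat.Coprime p.1 p.2) ⊆
      (Icc 2 m).biUnion fun k => (Icc 1 (m / k) ×ˢ Icc 1 (m / k)).image fun p => (k * p.1, k * p.2) := by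
    rintro ⟨x, y⟩ h
    simp only [Finset.mem_filter, Finset.mem_product, Finset.mem_Icc] at h
    obtain ⟨⟨⟨x1, x2⟩, y1, y2⟩, h⟩ := h
    have g0 : 0 < Nat.gcd x y := Nat.gcd_pos_of_pos_left _ x1
    have g1 : Nat.gcd x y ≠ 1 := h
    have g2 : Nat.gcd x y ≤ x := Nat.gcd_le_left _ x1
    obtain ⟨u, hu⟩ := Nat.gcd_dvd_left x y
    obtain ⟨v, hv⟩ := Nat.gcd_dvd_right x y
    generalize Nat.gcd x y = d at *
    simp only [Finset.mem_biUnion, Finset.mem_image, Finset.mem_product, Finset.mem_Icc]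
    refine ⟨d, ⟨by omega, by omega⟩, (u, v), ⟨⟨?_, ?_⟩, ?_, ?_⟩, by rw [← hu, ← hv]⟩
    · rcases Nat.eq_zero_or_pos u with h | h
      · subst h; omega
      · exact h
    · rw [Nat.le_div_iff_mul_le g0]; dsimp only; rw [mul_comm]; omega
    · rcases Nat.eq_zero_or_pos v with h | h
      · subst h; omega
      · exact h
    · rw [Nat.le_div_iff_mul_le g0]; dsimp only; rw [mul_comm]; omega
  have h2 : (((Icc 1 m ×ˢ Icc 1 m).filter (fun p => ¬ Nat.Coprime p.1 p.2)).card : ℝ) ≤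
      ∑ k ∈ Icc 2 m, (m : ℝ) ^ 2 * (1 / (k : ℝ) ^ 2) := by
    have := (Finset.card_le_card h1).trans Finset.card_biUnion_le
    have h3 : (((Icc 1 m ×ˢ Icc 1 m).filter (fun p => ¬ Nat.Coprime p.1 p.2)).card : ℝ) ≤
        ∑ k ∈ Icc 2 m, (((Icc 1 (m / k) ×ˢ Icc 1 (m / k)).image
          fun p : ℕ × ℕ => (k * p.1, k * p.2)).card : ℝ) := by exact_mod_cast this
    refine h3.trans (Finset.sum_le_sum fun k hk => ?_)
    have h4 : (((Icc 1 (m / k) ×ˢ Icc 1 (m / k)).image
          fun p : ℕ × ℕ => (k * p.1, k * p.2)).card : ℝ) ≤ ((m / k : ℕ) : ℝ) ^ 2 := by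
      have := Finset.card_image_le (s := Icc 1 (m / k) ×ˢ Icc 1 (m / k))
        (f := fun p : ℕ × ℕ => (k * p.1, k * p.2))
      simp only [Finset.card_product, Nat.card_Icc, add_tsub_cancel_right] at this
      rw [sq]; exact_mod_cast this
    refine h4.trans ?_
    have := Nat.cast_div_le (α := ℝ) (m := m) (n := k)
    calc ((m / k : ℕ) : ℝ) ^ 2 ≤ ((m : ℝ) / k) ^ 2 := by gcongr
      _ = _ := by rw [div_pow]; ring
  rw [← Finset.mul_sum] at h2
  have h5 := sum_sq m hm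
  have h6 := Finset.card_filter_add_card_filter_not (s := Icc 1 m ×ˢ Icc 1 m)
    (fun p : ℕ × ℕ => Nat.Coprime p.1 p.2)
  simp only [Finset.card_product, Nat.card_Icc, add_tsub_cancel_right] at h6
  have h7 : ((cop m).card : ℝ) + (((Icc 1 m ×ˢ Icc 1 m).filter
      (fun p => ¬ Nat.Coprime p.1 p.2)).card : ℝ) = m * m := by exact_mod_cast h6
  have h8 : (0 : ℝ) ≤ 1 / m := by positivity
  have h9 : (m : ℝ) ^ 2 * ∑ k ∈ Icc 2 m, (1 : ℝ) / (k : ℝ) ^ 2 ≤ (m : ℝ) ^ 2 * (3 / 4) := by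
    gcongr; linarith
  nlinarith

theorem harm_eq (n : ℕ) : ((harmonic n : ℚ) : ℝ) = ∑ d ∈ Icc 1 n, (1 : ℝ) / d := by
  rw [harmonic_eq_sum_Icc]; push_cast; simp

theorem lower (n : ℕ) : (n : ℝ) ^ 2 / 16 * (harmonic n : ℚ) ≤ beta T (3 * n) := by
  classical
  let I : Finset (Σ _ : ℕ, (ℕ × ℕ) × ℕ) := (Icc 1 n).sigma fun d => cop (n / d) ×ˢ range d
  let f : (Σ _ : ℕ, (ℕ × ℕ) × ℕ) → Hs := fun p => ⟨p.1 * p.2.1.1, p.1 * p.2.1.2, p.2.2, 1⟩
  have memI : ∀ p ∈ I, 1 ≤ p.1 ∧ 1 ≤ p.2.1.1 ∧ 1 ≤ p.2.1.2 ∧ p.1 * p.2.1.1 ≤ n ∧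
      p.1 * p.2.1.2 ≤ n ∧ Nat.Coprime p.2.1.1 p.2.1.2 ∧ p.2.2 < p.1 ∧ p.1 ≤ n := by
    rintro ⟨d, ⟨u, v⟩, z⟩ hp
    simp only [I, cop, Finset.mem_sigma, Finset.mem_Icc, Finset.mem_product, Finset.mem_filter,
      Finset.mem_range] at hp
    obtain ⟨⟨d1, d2⟩, ⟨⟨⟨u1, u2⟩, v1, v2⟩, hc⟩, hz⟩ := hp
    rw [Nat.le_div_iff_mul_le d1] at u2 v2
    refine ⟨d1, u1, v1, by rwa [mul_comm], by rwa [mul_comm], hc, hz, d2⟩
  have h1 : I.card ≤ beta T (3 * n) := by
    rw [← Set.ncard_coe_finset]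
    refine Set.ncard_le_ncard_of_injOn (fun p => MulAction.orbit (MulAut Hs) (f p)) ?_ ?_
      ((ball_finite _ _).image _)
    · intro p hp
      obtain ⟨a1, a2, a3, a4, a5, a6, a7, a8⟩ := memI p hp
      refine ⟨f p, ball_mono T ?_ (nf_ball _ _ _), rfl⟩
      rw [← Nat.cast_mul, ← Nat.cast_mul]
      simp only [Int.natAbs_natCast]; omega
    · rintro ⟨d, ⟨u, v⟩, z⟩ hp ⟨d', ⟨u', v'⟩, z'⟩ hq h
      obtain ⟨a1, a2, a3, -, -, a6, a7, -⟩ := memI _ hp
      obtain ⟨b1, b2, b3, -, -, b6, b7, -⟩ := memI _ hq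
      dsimp only at a1 a2 a3 a6 a7 b1 b2 b3 b6 b7
      obtain ⟨φ, hφ⟩ := MulAction.orbit_eq_iff.1 h
      obtain ⟨s, t, p, q, hs, ht, hf⟩ := aut_form φ
      simp only [f, MulAut.smul_def, hf, Hs.mk.injEq, and_true] at hφ
      obtain ⟨e1, e2, e3⟩ := hφ
      have p1 : (0 : ℤ) < d * u := by positivity
      have p2 : (0 : ℤ) < d * v := by positivity
      have p3 : (0 : ℤ) < d' * u' := by positivity
      have p4 : (0 : ℤ) < d' * v' := by positivity
      have s1 : s = 1 := by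
        rcases Int.eq_one_or_neg_one_of_mul_eq_one hs with h | h
        · exact h
        · subst h; linarith
      have t1 : t = 1 := by
        rcases Int.eq_one_or_neg_one_of_mul_eq_one ht with h | h
        · exact h
        · subst h; linarith
      subst s1 t1
      simp only [one_mul] at e1 e2 e3
      have f1 : d' * u' = d * u := by exact_mod_cast e1
      have f2 : d' * v' = d * v := by exact_mod_cast e2
      have hd : d' = d := by
        have := Nat.gcd_mul_left d' u' v'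
        rw [f1, f2, Nat.gcd_mul_left, a6, b6] at this
        simpa using this.symm
      subst hd
      have hu : u' = u := Nat.eq_of_mul_eq_mul_left a1 f1
      have hv : v' = v := Nat.eq_of_mul_eq_mul_left a1 f2
      subst hu hv
      have hz : z' = z := by
        have h0 : (d' : ℤ) ∣ z - z' := ⟨p * u' + q * v', by rw [← e3]; ring⟩
        have := Int.eq_zero_of_abs_lt_dvd h0 (by rw [abs_lt]; omega)
        omega
      subst hz; rfl
  have h2 : (n : ℝ) ^ 2 / 16 * (harmonic n : ℚ) ≤ I.card := by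
    rw [harm_eq, Finset.mul_sum]
    simp only [I, Finset.card_sigma, Finset.card_product, Finset.card_range]
    push_cast
    refine Finset.sum_le_sum fun d hd => ?_
    rw [Finset.mem_Icc] at hd
    have hd0 : (0 : ℝ) < d := by exact_mod_cast hd.1
    have c1 := cop_card (n / d)
    have c2 : (n : ℝ) ≤ 2 * d * ((n / d : ℕ) : ℝ) := by
      have : n ≤ 2 * d * (n / d) := by
        have a := Nat.div_add_mod n d
        have b := Nat.mod_lt n hd.1
        have c : 1 ≤ n / d := (Nat.le_div_iff_mul_le hd.1).2 (by omega)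
        nlinarith
      exact_mod_cast this
    have c3 : (n : ℝ) ^ 2 ≤ (2 * d * ((n / d : ℕ) : ℝ)) ^ 2 := by gcongr
    calc (n : ℝ) ^ 2 / 16 * (1 / d) ≤ (2 * d * ((n / d : ℕ) : ℝ)) ^ 2 / 16 * (1 / d) := by gcongr
      _ = ((n / d : ℕ) : ℝ) ^ 2 / 4 * d := by field_simp; ring
      _ ≤ _ := by gcongr
  exact h2.trans (by exact_mod_cast h1)

theorem conj_orbit (g h : Hs) : MulAction.orbit (MulAut Hs) (g * h * g⁻¹) =
    MulAction.orbit (MulAut Hs) h :=
  MulAction.orbit_eq_iff.2 ⟨MulAut.conj g, rfl⟩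

theorem upper (n : ℕ) : (beta T n : ℝ) ≤ 9 * (n : ℝ) ^ 2 * (harmonic n : ℚ) + (2 * n ^ 2 + 1) +
    (2 * n + 1) ^ 2 * 2 := by
  classical
  let I1 : Finset (Σ _ : ℕ, (ℤ × ℤ) × ℕ) := (Icc 1 n).sigma fun d =>
    (Icc (-((n / d : ℕ) : ℤ)) (n / d : ℕ) ×ˢ Icc (-((n / d : ℕ) : ℤ)) (n / d : ℕ)) ×ˢ range d
  let f1 : (Σ _ : ℕ, (ℤ × ℤ) × ℕ) → Hs := fun p => ⟨p.1 * p.2.1.1, p.1 * p.2.1.2, p.2.2, 1⟩
  let I2 : Finset ℤ := Icc (-((n : ℤ) ^ 2)) ((n : ℤ) ^ 2)
  let f2 : ℤ → Hs := fun z => ⟨0, 0, z, 1⟩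
  let I3 : Finset ((ℤ × ℤ) × ℕ) := (Icc (-(n : ℤ)) n ×ˢ Icc (-(n : ℤ)) n) ×ˢ range 2
  let f3 : (ℤ × ℤ) × ℕ → Hs := fun p => ⟨p.1.1, p.1.2, p.2, -1⟩
  let U : Finset Hs := I1.image f1 ∪ I2.image f2 ∪ I3.image f3
  have h1 : beta T n ≤ U.card := by
    refine le_trans ?_ (Finset.card_image_le (f := fun g => MulAction.orbit (MulAut Hs) g))
    rw [← Set.ncard_coe_finset]
    refine Set.ncard_le_ncard ?_ (Finset.finite_toSet _)
    rintro _ ⟨⟨x, y, z, e⟩, hg, rfl⟩
    obtain ⟨b1, b2, b3⟩ := ball_bound hg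
    dsimp only at b1 b2 b3
    simp only [Finset.coe_image, Set.mem_image, Finset.mem_coe]
    rcases Int.units_eq_one_or e with rfl | rfl
    · by_cases h0 : Int.gcd x y = 0
      · obtain ⟨rfl, rfl⟩ := Int.gcd_eq_zero_iff.1 h0
        refine ⟨_, ?_, rfl⟩
        simp only [U, Finset.mem_union, Finset.mem_image]
        exact Or.inl (Or.inr ⟨z, by simpa [I2, abs_le] using b3, rfl⟩)
      · have hb := Int.gcd_eq_gcd_ab x y
        obtain ⟨u, hu⟩ := Int.gcd_dvd_left x y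
        obtain ⟨v, hv⟩ := Int.gcd_dvd_right x y
        have hle : Int.gcd x y ≤ n := by
          by_cases hx : x = 0
          · have hy : y ≠ 0 := fun hy => h0 (by simp [hx, hy])
            have := Int.gcd_le_natAbs_right x hy
            have : (y.natAbs : ℤ) ≤ n := by rwa [Int.natCast_natAbs]
            omega
          · have := Int.gcd_le_natAbs_left y hx
            have : (x.natAbs : ℤ) ≤ n := by rwa [Int.natCast_natAbs]
            omega
        generalize Int.gcd x y = d at *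
        have hd : (0 : ℤ) < d := by omega
        have bd : ∀ w : ℤ, |(d : ℤ) * w| ≤ n → -((n / d : ℕ) : ℤ) ≤ w ∧ w ≤ (n / d : ℕ) := by
          intro w hw
          rw [← abs_le, ← Int.natCast_natAbs, Nat.cast_le, Nat.le_div_iff_mul_le (by omega)]
          rw [← Int.natCast_natAbs, Nat.cast_le, Int.natAbs_mul] at hw
          simpa [mul_comm] using hw
        refine ⟨f1 ⟨d, (u, v), (z % d).toNat⟩, ?_, ?_⟩
        · simp only [U, Finset.mem_union, Finset.mem_image]
          refine Or.inl (Or.inl ⟨_, ?_, rfl⟩)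
          simp only [I1, Finset.mem_sigma, Finset.mem_Icc, Finset.mem_product, Finset.mem_range]
          refine ⟨⟨by omega, hle⟩, ⟨bd u (hu ▸ b1), bd v (hv ▸ b2)⟩, ?_⟩
          have := Int.emod_lt_of_pos z hd
          have := Int.emod_nonneg z hd.ne'
          omega
        · rw [← conj_orbit ⟨-(z / d) * Int.gcdB x y, (z / d) * Int.gcdA x y, 0, 1⟩ ⟨x, y, z, 1⟩]
          congr 1
          have := Int.emod_nonneg z hd.ne'
          have e1 := Int.emod_add_mul_ediv z d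
          ext
          · simp [f1, ← hu]
          · simp [f1, ← hv]
          · simp only [f1, Int.toNat_of_nonneg this, mul_z, mul_x, inv_z, inv_y, inv_e,
              Units.val_one]
            linear_combination e1 - (z / d) * hb
          · simp [f1]
    · refine ⟨f3 ((x, y), (z % 2).toNat), ?_, ?_⟩
      · simp only [U, Finset.mem_union, Finset.mem_image]
        refine Or.inr ⟨_, ?_, rfl⟩
        simp only [I3, Finset.mem_Icc, Finset.mem_product, Finset.mem_range]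
        exact ⟨⟨abs_le.1 b1, abs_le.1 b2⟩, by omega⟩
      · rw [← conj_orbit ⟨0, 0, z / 2, 1⟩ ⟨x, y, z, -1⟩]
        congr 1
        ext
        · simp [f3]
        · simp [f3]
        · simp [f3]; omega
        · simp [f3]
  have h2 : U.card ≤ I1.card + I2.card + I3.card :=
    (Finset.card_union_le _ _).trans (add_le_add ((Finset.card_union_le _ _).trans
      (add_le_add Finset.card_image_le Finset.card_image_le)) Finset.card_image_le)
  have icc : ∀ m : ℕ, (Icc (-(m : ℤ)) m).card = 2 * m + 1 := by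
    intro m; rw [Int.card_Icc]; omega
  have c2 : I2.card = 2 * n ^ 2 + 1 := by
    have := icc (n ^ 2); push_cast at this; exact this
  have c3 : I3.card = (2 * n + 1) ^ 2 * 2 := by
    simp only [I3, Finset.card_product, icc, Finset.card_range]; ring
  have c1 : (I1.card : ℝ) ≤ 9 * (n : ℝ) ^ 2 * (harmonic n : ℚ) := by
    rw [harm_eq, Finset.mul_sum]
    simp only [I1, Finset.card_sigma, Finset.card_product, Finset.card_range, icc]
    push_cast
    refine Finset.sum_le_sum fun d hd => ?_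
    rw [Finset.mem_Icc] at hd
    have hd0 : (0 : ℝ) < d := by exact_mod_cast hd.1
    have c : 1 ≤ n / d := (Nat.le_div_iff_mul_le hd.1).2 (by omega)
    have c' : (1 : ℝ) ≤ ((n / d : ℕ) : ℝ) := by exact_mod_cast c
    have := Nat.cast_div_le (α := ℝ) (m := n) (n := d)
    have a : 2 * ((n / d : ℕ) : ℝ) + 1 ≤ 3 * ((n : ℝ) / d) := by linarith
    calc (2 * ((n / d : ℕ) : ℝ) + 1) * (2 * ((n / d : ℕ) : ℝ) + 1) * d
        ≤ (3 * ((n : ℝ) / d)) * (3 * ((n : ℝ) / d)) * d := by gcongr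
      _ = _ := by field_simp; ring
  have h3 : (beta T n : ℝ) ≤ I1.card + I2.card + I3.card := by exact_mod_cast h1.trans h2
  rw [c2, c3] at h3
  push_cast at h3
  linarith

theorem lowerN (n : ℕ) : n ^ 2 * Nat.log 2 n ≤ 32 * beta T (3 * n) := by
  have h1 := lower n
  have h2 := log_add_one_le_harmonic n
  have h3 : (Nat.log 2 n : ℝ) ≤ 2 * Real.log ((n + 1 : ℕ) : ℝ) := by
    have a : 2 ^ Nat.log 2 n ≤ n + 1 := by
      rcases Nat.eq_zero_or_pos n with rfl | h
      · simp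
      · exact (Nat.pow_log_le_self 2 h.ne').trans (Nat.le_succ n)
    have b : ((2 : ℝ)) ^ Nat.log 2 n ≤ ((n + 1 : ℕ) : ℝ) := by exact_mod_cast a
    have c := Real.log_le_log (by positivity) b
    rw [Real.log_pow] at c
    have d := Real.log_two_gt_d9
    have : (0 : ℝ) ≤ Nat.log 2 n := by positivity
    nlinarith
  have : (n : ℝ) ^ 2 * Nat.log 2 n ≤ 32 * beta T (3 * n) := by
    have : (0 : ℝ) ≤ (n : ℝ) ^ 2 := by positivity
    nlinarith
  exact_mod_cast this

theorem upperN (n : ℕ) (hn : 1 ≤ n) : beta T n ≤ 39 * (n ^ 2 * (Nat.log 2 n + 1)) := by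
  have h1 := upper n
  have h2 := harmonic_le_one_add_log n
  have hn' : (1 : ℝ) ≤ n := by exact_mod_cast hn
  have h3 : Real.log n ≤ Nat.log 2 n + 1 := by
    have a : n < 2 ^ (Nat.log 2 n + 1) := Nat.lt_pow_succ_log_self (by norm_num) n
    have b : (n : ℝ) ≤ (2 : ℝ) ^ (Nat.log 2 n + 1) := by exact_mod_cast a.le
    have c := Real.log_le_log (by positivity) b
    rw [Real.log_pow] at c
    have d := Real.log_two_lt_d9
    have : (0 : ℝ) ≤ Nat.log 2 n := by positivity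
    push_cast at c
    nlinarith
  have : (beta T n : ℝ) ≤ 39 * (n ^ 2 * (Nat.log 2 n + 1)) := by
    have a : (0 : ℝ) ≤ Nat.log 2 n := by positivity
    have b : (0 : ℝ) ≤ (n : ℝ) ^ 2 := by positivity
    have c : 9 * (n : ℝ) ^ 2 * (harmonic n : ℚ) ≤ 9 * (n : ℝ) ^ 2 * (Nat.log 2 n + 2) := by
      gcongr; linarith
    nlinarith [mul_nonneg a b]
  exact_mod_cast this

theorem log_mul_le (a b : ℕ) : Nat.log 2 (a * b) ≤ Nat.log 2 a + Nat.log 2 b + 1 := by
  rcases Nat.eq_zero_or_pos (a * b) with h | h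
  · simp [h]
  have h1 : a < 2 ^ (Nat.log 2 a + 1) := Nat.lt_pow_succ_log_self (by norm_num) a
  have h2 : b < 2 ^ (Nat.log 2 b + 1) := Nat.lt_pow_succ_log_self (by norm_num) b
  have : a * b < 2 ^ (Nat.log 2 a + Nat.log 2 b + 2) := by
    calc a * b < 2 ^ (Nat.log 2 a + 1) * 2 ^ (Nat.log 2 b + 1) := Nat.mul_lt_mul'' h1 h2
      _ = _ := by ring
  have := (Nat.log_lt_iff_lt_pow (by norm_num) h.ne').2 this
  omega

theorem main (S : Finset Hs) (hS : Subgroup.closure (S : Set Hs) = ⊤) :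
    Sim (alpha S) (fun n => n ^ 2 * Nat.log 2 n) ∧ Dom (alpha S) (fun n => n ^ 3) ∧
      ∀ k : ℕ, ¬ Sim (alpha S) (fun n => n ^ k) := by
  obtain ⟨C, hC, h1⟩ := ball_cmp S T_gen
  obtain ⟨D, hD, h2⟩ := ball_cmp T hS
  have lo : ∀ n, n ^ 2 * Nat.log 2 n ≤ 32 * alpha S (D * (3 * n)) := fun n =>
    (lowerN n).trans (by rw [alpha_eq hS]; exact Nat.mul_le_mul_left _ (beta_le (h2 _)))
  have mono : ∀ m n, m ≤ n → alpha S m ≤ alpha S n := fun m n h => by
    rw [alpha_eq hS, alpha_eq hS]; exact beta_le (ball_mono S h)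
  have up : ∀ n m, C * n ≤ m → 1 ≤ m → alpha S n ≤ 39 * (m ^ 2 * (Nat.log 2 m + 1)) :=
    fun n m h hm => by
      rw [alpha_eq hS]
      exact (beta_le ((h1 n).trans (ball_mono T h))).trans (upperN m hm)
  have lg : ∀ m, 2 ≤ m → 1 ≤ Nat.log 2 m := fun m hm => Nat.log_pos (by norm_num) hm
  refine ⟨⟨⟨C + 78, by omega, fun n => ?_⟩, ⟨3 * D + 32, by omega, fun n => ?_⟩⟩,
    ⟨C + 78, by omega, fun n => ?_⟩, fun k hk => ?_⟩
  · have a := up n ((C + 78) * n + (C + 78)) (by nlinarith) (by omega)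
    have b := lg ((C + 78) * n + (C + 78)) (by omega)
    dsimp only
    generalize (C + 78) * n + (C + 78) = m at *
    generalize Nat.log 2 m = L at *
    have : m ^ 2 * (L + 1) ≤ 2 * (m ^ 2 * L) := by nlinarith [Nat.zero_le (m ^ 2)]
    nlinarith [Nat.zero_le (m ^ 2 * L)]
  · have a := lo n
    have b := mono (D * (3 * n)) ((3 * D + 32) * n + (3 * D + 32)) (by nlinarith)
    dsimp only
    nlinarith [Nat.zero_le (alpha S ((3 * D + 32) * n + (3 * D + 32)))]
  · have a := up n ((C + 78) * n + (C + 78)) (by nlinarith) (by omega)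
    have b : Nat.log 2 ((C + 78) * n + (C + 78)) < (C + 78) * n + (C + 78) :=
      Nat.log_lt_self 2 (by omega)
    dsimp only
    generalize (C + 78) * n + (C + 78) = m at *
    generalize Nat.log 2 m = L at *
    have : m ^ 2 * (L + 1) ≤ m ^ 3 := by nlinarith [Nat.zero_le (m ^ 2)]
    nlinarith [Nat.zero_le (m ^ 3)]
  · obtain ⟨⟨c, hc, k1⟩, ⟨c', hc', k2⟩⟩ := hk
    dsimp only at k1 k2
    rcases Nat.lt_or_ge k 3 with hk | hk
    · have key : ∀ n, 1 ≤ n → Nat.log 2 n ≤ 32 * (c * (c * (3 * D) + c) ^ 2 + c) := by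
        intro n hn
        have a := lo n
        have b := k1 (D * (3 * n))
        have e1 : c * (D * (3 * n)) + c ≤ (c * (3 * D) + c) * n := by nlinarith
        have e2 : (c * (D * (3 * n)) + c) ^ k ≤ ((c * (3 * D) + c) * n) ^ 2 :=
          (Nat.pow_le_pow_right (by omega) (by omega : k ≤ 2)).trans (Nat.pow_le_pow_left e1 2)
        have e3 : 1 ≤ n ^ 2 := Nat.one_le_pow _ _ hn
        have e4 : alpha S (D * (3 * n)) ≤ n ^ 2 * (c * (c * (3 * D) + c) ^ 2 + c) := by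
          have := Nat.mul_le_mul_left c e2
          rw [mul_pow] at this
          nlinarith
        refine Nat.le_of_mul_le_mul_left (c := n ^ 2) ?_ e3
        nlinarith
      have := key (2 ^ (32 * (c * (c * (3 * D) + c) ^ 2 + c) + 1)) (Nat.one_le_two_pow)
      rw [Nat.log_pow (by norm_num)] at this
      omega
    · set A := C * (2 * c') with hA
      have hA1 : 1 ≤ A := by nlinarith
      have key : ∀ n, 1 ≤ n → n ≤ (c' * (39 * (A ^ 2 * (Nat.log 2 A + 2))) + c') * (Nat.log 2 n + 1) := by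
        intro n hn
        have a := k2 n
        have b := up (c' * n + c') (A * n) (by rw [hA]; nlinarith [Nat.mul_le_mul_left (C * c') hn])
          (by nlinarith)
        have e1 := log_mul_le A n
        have e2 : n ^ 3 ≤ n ^ k := Nat.pow_le_pow_right hn hk
        have e3 : 1 ≤ n ^ 2 := Nat.one_le_pow _ _ hn
        generalize Nat.log 2 (A * n) = L1 at *
        generalize Nat.log 2 A = L2 at *
        generalize Nat.log 2 n = L at *
        have e4 : L1 + 1 ≤ (L2 + 2) * (L + 1) := by nlinarith [Nat.zero_le (L2 * L)]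
        have e5 : alpha S (c' * n + c') ≤ 39 * ((A * n) ^ 2 * ((L2 + 2) * (L + 1))) :=
          b.trans (by gcongr)
        have e6 := Nat.mul_le_mul_left c' e5
        have e7 : c' ≤ n ^ 2 * (c' * (L + 1)) := by nlinarith [Nat.zero_le (c' * L)]
        refine Nat.le_of_mul_le_mul_left (c := n ^ 2) ?_ e3
        calc n ^ 2 * n = n ^ 3 := by ring
          _ ≤ c' * (39 * ((A * n) ^ 2 * ((L2 + 2) * (L + 1)))) + n ^ 2 * (c' * (L + 1)) := by omega
          _ = _ := by ring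
      generalize c' * (39 * (A ^ 2 * (Nat.log 2 A + 2))) + c' = K at key
      have := key (2 ^ (2 * K + 2)) Nat.one_le_two_pow
      rw [Nat.log_pow (by norm_num)] at this
      have h3 : K + 1 < 2 ^ (K + 1) := Nat.lt_two_pow_self
      have h4 : 2 ^ (2 * K + 2) = 2 ^ (K + 1) * 2 ^ (K + 1) := by ring
      have h5 : 2 * K + 2 ≤ 2 ^ (K + 1) := by
        have : K + 1 ≤ 2 ^ K := Nat.lt_two_pow_self
        rw [pow_succ]; omega
      nlinarith

end Pool.Agent.H69.Ag
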