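import Mathlib

namespace Pool.Agent.H69.Ag

/-- word length of `g` over `S ∪ S⁻¹` -/
noncomputable def wl {G : Type} [Group G] (S : Finset G) (g : G) : ℕ :=
  sInf {n | ∃ l : List G, l.length = n ∧ (∀ s ∈ l, s ∈ S ∨ s⁻¹ ∈ S) ∧ l.prod = g}

/-- automorphic growth: the number of `Aut(G)`-orbits containing an element of length `≤ n` -/
noncomputable def alpha {G : Type} [Group G] (S : Finset G) (n : ℕ) : ℕ :=
  Set.ncard {O : Set G | (∃ g, O = MulAction.orbit (MulAut G) g) ∧ ∃ h ∈ O, wl S h ≤ n}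

/-- `f ≼ g` -/
def Dom (f g : ℕ → ℕ) : Prop := ∃ c : ℕ, 1 ≤ c ∧ ∀ n, f n ≤ c * g (c * n + c) + c

/-- `f ∼ g` -/
def Sim (f g : ℕ → ℕ) : Prop := Dom f g ∧ Dom g f

end Pool.Agent.H69.Ag
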