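import Pool.Agent.H69.AtDefs

set_option autoImplicit false

namespace Pool.Agent.H69.At

open Finset

noncomputable def nm (x : ℤ) : ℝ := ‖(x : ℚ_[2])‖

lemma nm_mul (x y : ℤ) : nm (x * y) = nm x * nm y := by simp [nm]

lemma nm_pos {x : ℤ} (hx : x ≠ 0) : 0 < nm x := by
  unfold nm
  rw [norm_pos_iff]
  exact_mod_cast hx

lemma nm_dvd {x y : ℤ} (h : nm x = nm y) (j : ℕ) (hx : (2 : ℤ) ^ j ∣ x) : (2 : ℤ) ^ j ∣ y := by
  have h1 := (Padic.norm_int_le_pow_iff_dvd (p := 2) x j).2 (by exact_mod_cast hx)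
  have h2 := (Padic.norm_int_le_pow_iff_dvd (p := 2) y j).1 (by
    have h' : ‖(x : ℚ_[2])‖ = ‖(y : ℚ_[2])‖ := h
    rw [← h']; exact h1)
  exact_mod_cast h2

lemma nm_odd {x : ℤ} (hx : Odd x) : nm x = 1 := by
  refine le_antisymm (Padic.norm_int_le_one x) (not_lt.1 fun h => ?_)
  have := (Padic.norm_intCast_lt_one_iff (p := 2)).1 h
  exact (Int.not_even_iff_odd.2 hx) (even_iff_two_dvd.2 (by exact_mod_cast this))

lemma branch {x y : ℚ_[2]} (h : ‖x‖ = ‖y‖) (hy : y ≠ 0) : ‖x - y‖ < ‖y‖ := by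
  have hy' : 0 < ‖y‖ := norm_pos_iff.2 hy
  have h1 : ‖x / y‖ = 1 := by rw [norm_div, h, div_self hy'.ne']
  let u : ℤ_[2] := ⟨x / y, h1.le⟩
  have hu : ‖u‖ = 1 := h1
  have h0 : PadicInt.toZMod u ≠ 0 := by
    intro h0
    have : u ∈ IsLocalRing.maximalIdeal ℤ_[2] := by
      rw [← PadicInt.ker_toZMod]; exact h0
    rw [IsLocalRing.mem_maximalIdeal, PadicInt.mem_nonunits] at this
    linarith
  have h2 : PadicInt.toZMod u = 1 := by
    generalize PadicInt.toZMod u = z at h0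
    revert z
    decide
  have h3 : u - 1 ∈ IsLocalRing.maximalIdeal ℤ_[2] := by
    rw [← PadicInt.ker_toZMod, RingHom.mem_ker, map_sub, h2, map_one, sub_self]
  rw [IsLocalRing.mem_maximalIdeal, PadicInt.mem_nonunits] at h3
  have h4 : ‖x / y - 1‖ < 1 := h3
  have : x - y = (x / y - 1) * y := by field_simp
  rw [this, norm_mul]
  nlinarith

lemma approx (t : ℚ_[2]) (ht : ‖t‖ ≤ 1) (c M : ℤ) (hM : Odd M) {r : ℝ} (hr : 0 < r) :
    ∃ c' : ℤ, ‖(c' : ℚ_[2]) - t‖ < r ∧ M ∣ c - c' := by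
  have hM1 : ‖(M : ℚ_[2])‖ = 1 := nm_odd hM
  have hM0 : (M : ℚ_[2]) ≠ 0 := by
    intro h; rw [h] at hM1; simp at hM1
  have h1 : ‖(t - c) / M‖ ≤ 1 := by
    rw [norm_div, hM1, div_one, sub_eq_add_neg]
    refine (Padic.nonarchimedean _ _).trans (max_le ht ?_)
    rw [norm_neg]; exact Padic.norm_int_le_one c
  obtain ⟨s, hs⟩ := Metric.denseRange_iff.1 (PadicInt.denseRange_intCast (p := 2))
    ⟨(t - c) / M, h1⟩ r hr
  refine ⟨c + M * s, ?_, ⟨-s, by ring⟩⟩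
  have h2 : ‖(t - c) / M - (s : ℚ_[2])‖ < r := by
    rw [dist_eq_norm] at hs
    exact hs
  have : ((c + M * s : ℤ) : ℚ_[2]) - t = -(M * ((t - c) / M - s)) := by
    push_cast; field_simp; ring
  rw [this, norm_neg, norm_mul, hM1, one_mul]
  exact h2

variable {γ : Type} [Fintype γ]

def E (K M : ℕ) (a b : γ → ℤ) : Prop :=
  (∀ l : γ → ℤ, (∀ i, |l i| ≤ K) → nm (∑ i, l i * a i) = nm (∑ i, l i * b i)) ∧
    ∀ i, (M : ℤ) ∣ a i - b i

lemma E.mono {K M K' M' : ℕ} {a b : γ → ℤ} (h : E K M a b) (hK : K' ≤ K) (hM : M' ∣ M) :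
    E K' M' a b :=
  ⟨fun l hl => h.1 l fun i => (hl i).trans (by exact_mod_cast hK),
    fun i => (Int.natCast_dvd_natCast.2 hM).trans (h.2 i)⟩

lemma E.symm {K M : ℕ} {a b : γ → ℤ} (h : E K M a b) : E K M b a :=
  ⟨fun l hl => (h.1 l hl).symm, fun i => dvd_sub_comm.1 (h.2 i)⟩

lemma exists_W (K : ℕ) : ∃ W : ℕ, Odd W ∧ ∀ w : ℤ, Odd w → |w| ≤ K → w ∣ W := by
  refine ⟨∏ i ∈ range (K + 1), (2 * i + 1), ?_, ?_⟩
  · exact Finset.prod_induction _ Odd (fun _ _ => Odd.mul) odd_one fun i _ => odd_two_mul_add_one i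
  · intro w hw hK
    obtain ⟨i, hi⟩ := Int.natAbs_odd.2 hw
    rw [← Int.natAbs_dvd, Int.natCast_dvd_natCast, hi]
    refine Finset.dvd_prod_of_mem (fun i => 2 * i + 1) (mem_range.2 ?_)
    have : (w.natAbs : ℤ) ≤ K := by rwa [Int.natCast_natAbs]
    omega

lemma ext_lemma {K M W : ℕ} (hK : 1 ≤ K) (hM : Odd M)
    (hW : ∀ w : ℤ, Odd w → |w| ≤ K → w ∣ W) {a b : γ → ℤ} (h : E (2 * K ^ 2) (M * W) a b)
    (c : ℤ) : ∃ c' : ℤ, (∀ (l0 : ℤ) (l : γ → ℤ), |l0| ≤ K → (∀ i, |l i| ≤ K) →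
      nm (l0 * c + ∑ i, l i * a i) = nm (l0 * c' + ∑ i, l i * b i)) ∧ (M : ℤ) ∣ c - c' := by
  classical
  have hK' : (1 : ℤ) ≤ K := by exact_mod_cast hK
  have h1 : ∀ l : γ → ℤ, (∀ i, |l i| ≤ K) → nm (∑ i, l i * a i) = nm (∑ i, l i * b i) :=
    fun l hl => h.1 l fun i => (hl i).trans (by push_cast; nlinarith)
  have h2 : ∀ (l0 m0 : ℤ) (l m : γ → ℤ), |l0| ≤ K → |m0| ≤ K → (∀ i, |l i| ≤ K) →
      (∀ i, |m i| ≤ K) → nm (l0 * ∑ i, m i * a i - m0 * ∑ i, l i * a i)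
        = nm (l0 * ∑ i, m i * b i - m0 * ∑ i, l i * b i) := by
    intro l0 m0 l m hl0 hm0 hl hm
    have := h.1 (fun i => l0 * m i - m0 * l i) (fun i => by
      refine (abs_sub _ _).trans ?_
      rw [abs_mul, abs_mul]
      have e1 := mul_le_mul hl0 (hm i) (abs_nonneg _) (by positivity)
      have e2 := mul_le_mul hm0 (hl i) (abs_nonneg _) (by positivity)
      push_cast; nlinarith)
    simpa only [sub_mul, Finset.sum_sub_distrib, mul_assoc, ← Finset.mul_sum] using this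
  by_cases hz : ∃ (l0 : ℤ) (l : γ → ℤ), l0 ≠ 0 ∧ |l0| ≤ K ∧ (∀ i, |l i| ≤ K) ∧
      l0 * c + ∑ i, l i * a i = 0
  · obtain ⟨l0, l, hl0, hl0K, hl, hz⟩ := hz
    obtain ⟨e, w, hw, hew⟩ : ∃ (e : ℕ) (w : ℤ), Odd w ∧ l0 = 2 ^ e * w := by
      obtain ⟨e, w, hw, hew⟩ := Nat.exists_eq_two_pow_mul_odd (Int.natAbs_ne_zero.2 hl0)
      rcases Int.natAbs_eq l0 with h' | h'
      · exact ⟨e, w, by exact_mod_cast hw, by rw [h', hew]; push_cast; ring⟩
      · exact ⟨e, -w, Odd.neg (by exact_mod_cast hw), by rw [h', hew]; push_cast; ring⟩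
    have hwK : |w| ≤ K := by
      refine le_trans ?_ hl0K
      rw [hew, abs_mul]
      exact le_mul_of_one_le_left (abs_nonneg _) (by rw [abs_pow]; exact one_le_pow₀ (by norm_num))
    obtain ⟨W1, hW1⟩ := hW w hw hwK
    have hd : ((M * W : ℕ) : ℤ) ∣ ∑ i, l i * a i - ∑ i, l i * b i := by
      rw [← Finset.sum_sub_distrib]
      exact Finset.dvd_sum fun i _ => by rw [← mul_sub]; exact Dvd.dvd.mul_left (h.2 i) _
    have ha : ∑ i, l i * a i = -(l0 * c) := by linarith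
    have hco : IsCoprime ((2 : ℤ) ^ e) w :=
      IsCoprime.pow_left (Int.isCoprime_two_left.2 hw)
    have d1 : (2 : ℤ) ^ e ∣ ∑ i, l i * b i :=
      nm_dvd (h1 l hl) e (by rw [ha, hew]; exact ⟨-(w * c), by ring⟩)
    have d2 : w ∣ ∑ i, l i * b i := by
      have d3 : w ∣ ∑ i, l i * a i := by rw [ha, hew]; exact ⟨-(2 ^ e * c), by ring⟩
      have d4 : w ∣ ∑ i, l i * a i - ∑ i, l i * b i := by
        refine Dvd.dvd.trans ?_ hd
        push_cast; rw [hW1]; exact ⟨M * W1, by ring⟩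
      have := dvd_sub d3 d4
      simpa using this
    obtain ⟨s, hs⟩ := hco.mul_dvd d1 d2
    rw [← hew] at hs
    refine ⟨-s, ?_, ?_⟩
    · intro m0 m hm0 hm
      have := h2 l0 m0 l m hl0K hm0 hl hm
      rw [ha, hs] at this
      have e1 : l0 * ∑ i, m i * a i - m0 * -(l0 * c) = l0 * (m0 * c + ∑ i, m i * a i) := by ring
      have e2 : l0 * ∑ i, m i * b i - m0 * (l0 * s) = l0 * (m0 * -s + ∑ i, m i * b i) := by ring
      rw [e1, e2, nm_mul, nm_mul] at this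
      exact mul_left_cancel₀ (nm_pos hl0).ne' this
    · rw [ha, hs] at hd
      have hw0 : w ≠ 0 := by rintro rfl; simp at hw
      have d5 : w * M ∣ w * (2 ^ e * (c - -s)) := by
        have e3 : w * (2 ^ e * (c - -s)) = -(-(l0 * c) - l0 * s) := by rw [hew]; ring
        rw [e3, dvd_neg]
        refine Dvd.dvd.trans ?_ hd
        push_cast; rw [hW1]; exact ⟨W1, by ring⟩
      have d6 := (mul_dvd_mul_iff_left hw0).1 d5
      have hco2 : IsCoprime (M : ℤ) ((2 : ℤ) ^ e) :=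
        (IsCoprime.pow_left (Int.isCoprime_two_left.2 (by exact_mod_cast hM))).symm
      exact hco2.dvd_of_dvd_mul_left d6
  · push Not at hz
    let P : ℤ × (γ → ℤ) → ℚ_[2] := fun p => -((∑ i, p.2 i * a i : ℤ) : ℚ_[2]) / p.1
    let Q : ℤ × (γ → ℤ) → ℚ_[2] := fun p => -((∑ i, p.2 i * b i : ℤ) : ℚ_[2]) / p.1
    let S : Finset (ℤ × (γ → ℤ)) :=
      ((Finset.Icc (-(K : ℤ)) K).erase 0) ×ˢ Fintype.piFinset fun _ => Finset.Icc (-(K : ℤ)) K
    have memS : ∀ p, p ∈ S ↔ p.1 ≠ 0 ∧ |p.1| ≤ K ∧ ∀ i, |p.2 i| ≤ K := by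
      intro p
      simp only [S, mem_product, mem_erase, Finset.mem_Icc, Fintype.mem_piFinset, abs_le, and_assoc]
    have h10 : ((1 : ℤ), (0 : γ → ℤ)) ∈ S := (memS _).2 ⟨one_ne_zero, by simpa using hK', by simp⟩
    have fa : ∀ p ∈ S, nm (p.1 * c + ∑ i, p.2 i * a i) = nm p.1 * ‖(c : ℚ_[2]) - P p‖ := by
      intro p hp
      have : (p.1 : ℚ_[2]) ≠ 0 := by exact_mod_cast ((memS p).1 hp).1
      unfold nm
      rw [← norm_mul]
      congr 1
      simp only [P]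
      push_cast
      field_simp
      ring
    have fb : ∀ p ∈ S, ∀ c' : ℤ,
        nm (p.1 * c' + ∑ i, p.2 i * b i) = nm p.1 * ‖(c' : ℚ_[2]) - Q p‖ := by
      intro p hp c'
      have : (p.1 : ℚ_[2]) ≠ 0 := by exact_mod_cast ((memS p).1 hp).1
      unfold nm
      rw [← norm_mul]
      congr 1
      simp only [Q]
      push_cast
      field_simp
      ring
    have fpq : ∀ p ∈ S, ∀ p' ∈ S, ‖P p - P p'‖ = ‖Q p - Q p'‖ := by
      intro p hp p' hp'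
      obtain ⟨a1, a2, a3⟩ := (memS p).1 hp
      obtain ⟨b1, b2, b3⟩ := (memS p').1 hp'
      have x1 : (p.1 : ℚ_[2]) ≠ 0 := by exact_mod_cast a1
      have x2 : (p'.1 : ℚ_[2]) ≠ 0 := by exact_mod_cast b1
      have := h2 p.1 p'.1 p.2 p'.2 a2 b2 a3 b3
      have e1 : P p - P p' = ((p.1 * ∑ i, p'.2 i * a i - p'.1 * ∑ i, p.2 i * a i : ℤ) : ℚ_[2])
          / (p.1 * p'.1) := by
        simp only [P]; rw [Int.cast_sub, Int.cast_mul, Int.cast_mul]; field_simp; ring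
      have e2 : Q p - Q p' = ((p.1 * ∑ i, p'.2 i * b i - p'.1 * ∑ i, p.2 i * b i : ℤ) : ℚ_[2])
          / (p.1 * p'.1) := by
        simp only [Q]; rw [Int.cast_sub, Int.cast_mul, Int.cast_mul]; field_simp; ring
      rw [e1, e2, norm_div, norm_div]
      congr 1
    obtain ⟨p, hp, hmin⟩ := Finset.exists_min_image S (fun p => ‖(c : ℚ_[2]) - P p‖) ⟨_, h10⟩
    have hne : ∀ p ∈ S, (c : ℚ_[2]) - P p ≠ 0 := by
      intro p hp h0
      obtain ⟨a1, a2, a3⟩ := (memS p).1 hp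
      have := fa p hp
      rw [h0, norm_zero, mul_zero] at this
      exact (nm_pos (hz _ _ a1 a2 a3)).ne' this
    have hr : 0 < ‖(c : ℚ_[2]) - P p‖ := norm_pos_iff.2 (hne p hp)
    have P0 : P (1, 0) = 0 := by simp [P]
    have Q0 : Q (1, 0) = 0 := by simp [Q]
    have hc1 : ‖(c : ℚ_[2])‖ ≤ 1 := Padic.norm_int_le_one c
    have hr1 : ‖(c : ℚ_[2]) - P p‖ ≤ 1 := by
      have := hmin _ h10
      simp only [P0, sub_zero] at this
      exact this.trans hc1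
    have hq1 : ‖Q p‖ ≤ 1 := by
      have := fpq p hp _ h10
      rw [P0, Q0, sub_zero, sub_zero] at this
      rw [← this]
      have e : P p = (c : ℚ_[2]) + -((c : ℚ_[2]) - P p) := by ring
      rw [e]
      exact (Padic.nonarchimedean _ _).trans (max_le hc1 (by rwa [norm_neg]))
    obtain ⟨c', hc', hMc⟩ := approx (Q p + (c - P p))
      ((Padic.nonarchimedean _ _).trans (max_le hq1 hr1)) c M (by exact_mod_cast hM) hr
    have hcq : ‖(c' : ℚ_[2]) - Q p‖ = ‖(c : ℚ_[2]) - P p‖ := by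
      have e : (c' : ℚ_[2]) - Q p = (c' - (Q p + (c - P p))) + (c - P p) := by ring
      rw [e, Padic.add_eq_max_of_ne hc'.ne, max_eq_right hc'.le]
    refine ⟨c', ?_, hMc⟩
    intro m0 m hm0 hm
    by_cases h0 : m0 = 0
    · simpa [h0] using h1 m hm
    have hp' : (m0, m) ∈ S := (memS _).2 ⟨h0, hm0, hm⟩
    rw [fa _ hp', fb _ hp']
    congr 1
    have e1 : (c' : ℚ_[2]) - Q (m0, m) = (c' - Q p) + (Q p - Q (m0, m)) := by ring
    have e2 : P p - P (m0, m) = (c - P (m0, m)) + -(c - P p) := by ring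
    have e3 := fpq p hp _ hp'
    rcases (hmin _ hp').lt_or_eq with hlt | heq
    · have e4 : ‖P p - P (m0, m)‖ = ‖(c : ℚ_[2]) - P (m0, m)‖ := by
        rw [e2, Padic.add_eq_max_of_ne (by rw [norm_neg]; exact hlt.ne'), norm_neg,
          max_eq_left hlt.le]
      rw [e1, Padic.add_eq_max_of_ne (by rw [hcq, ← e3, e4]; exact hlt.ne), hcq, ← e3, e4,
        max_eq_right hlt.le]
    · have e4 : ‖P p - P (m0, m)‖ < ‖(c : ℚ_[2]) - P p‖ := by
        rw [e2, ← sub_eq_add_neg]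
        exact branch heq.symm (hne p hp)
      rw [e1, Padic.add_eq_max_of_ne (by rw [hcq, ← e3]; exact e4.ne'), hcq, ← e3,
        max_eq_left e4.le, heq]

end Pool.Agent.H69.At
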