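import Pool.Agent.H69.At1

set_option autoImplicit false

namespace Pool.Agent.H69.At

open Finset FirstOrder FirstOrder.Language

/-- integers of even 2-adic valuation -/
def X0 : Set ℤ := {n | n ≠ 0 ∧ Even (padicValInt 2 n)}

lemma X0_of_nm {x y : ℤ} (h : nm x = nm y) (hx : x ∈ X0) : y ∈ X0 := by
  have hy : y ≠ 0 := by
    rintro rfl
    have := nm_pos hx.1
    rw [h] at this
    simp [nm] at this
  refine ⟨hy, ?_⟩
  have e : padicValInt 2 y = padicValInt 2 x := by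
    apply le_antisymm
    · have := nm_dvd h.symm _ (by exact_mod_cast padicValInt_dvd (p := 2) y)
      exact ((padicValInt_dvd_iff (p := 2) _ x).1 (by exact_mod_cast this)).resolve_left hx.1
    · have := nm_dvd h _ (by exact_mod_cast padicValInt_dvd (p := 2) x)
      exact ((padicValInt_dvd_iff (p := 2) _ y).1 (by exact_mod_cast this)).resolve_left hy
  rw [e]; exact hx.2

lemma nm_zero_iff {x y : ℤ} (h : nm x = nm y) : x = 0 ↔ y = 0 := by
  constructor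
  · rintro rfl
    by_contra hy
    have := nm_pos hy
    rw [← h] at this
    simp [nm] at this
  · rintro rfl
    by_contra hx
    have := nm_pos hx
    rw [h] at this
    simp [nm] at this

lemma term_lin (X : Set ℤ) {γ : Type} [Fintype γ] (t : L1.Term γ) :
    ∃ l : γ → ℤ, ∀ a : γ → ℤ, @Term.realize L1 ℤ (S1 X) γ a t = ∑ i, l i * a i := by
  classical
  letI := S1 X
  induction t with
  | var i => exact ⟨Pi.single i 1, fun a => by simp [Pi.single_apply]⟩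
  | func f ts ih =>
    cases f with
    | add =>
      obtain ⟨l0, h0⟩ := ih 0
      obtain ⟨l1, h1⟩ := ih 1
      refine ⟨l0 + l1, fun a => ?_⟩
      simp only [Pi.add_apply, add_mul, Finset.sum_add_distrib, ← h0, ← h1]
      rfl

lemma bound {γ : Type} [Fintype γ] (l : γ → ℤ) : ∃ K : ℕ, ∀ i, |l i| ≤ K := by
  refine ⟨∑ i, (l i).natAbs, fun i => ?_⟩
  rw [← Int.natCast_natAbs]
  exact_mod_cast Finset.single_le_sum (f := fun i => (l i).natAbs) (fun _ _ => Nat.zero_le _)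
    (mem_univ i)

lemma E_snoc {β : Type} [Fintype β] {n K M W : ℕ} (hK : 1 ≤ K) (hM : Odd M)
    (hW : ∀ w : ℤ, Odd w → |w| ≤ K → w ∣ W) {v v' : β → ℤ} {xs xs' : Fin n → ℤ}
    (h : E (2 * K ^ 2) (M * W) (Sum.elim v xs) (Sum.elim v' xs')) (c : ℤ) :
    ∃ c' : ℤ, E K M (Sum.elim v (Fin.snoc xs c : Fin (n + 1) → ℤ))
      (Sum.elim v' (Fin.snoc xs' c' : Fin (n + 1) → ℤ)) := by
  obtain ⟨c', h1, h2⟩ := ext_lemma hK hM hW h c
  refine ⟨c', fun l hl => ?_, ?_⟩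
  · have := h1 (l (Sum.inr (Fin.last n))) (Sum.elim (fun i => l (Sum.inl i))
      (fun j => l (Sum.inr j.castSucc))) (hl _) (by rintro (i | j) <;> exact hl _)
    simp only [Fintype.sum_sum_type, Sum.elim_inl, Sum.elim_inr, Fin.sum_univ_castSucc,
      Fin.snoc_castSucc, Fin.snoc_last] at this ⊢
    convert this using 2 <;> ring
  · rintro (i | j)
    · exact Dvd.dvd.trans (by push_cast; exact Dvd.intro _ rfl) (h.2 (Sum.inl i))
    · refine Fin.lastCases ?_ (fun j => ?_) j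
      · simpa using h2
      · have := Dvd.dvd.trans (show (M : ℤ) ∣ ((M * W : ℕ) : ℤ) by push_cast; exact Dvd.intro _ rfl)
          (h.2 (Sum.inr j))
        simpa using this

theorem ef {β : Type} [Fintype β] {n : ℕ} (φ : L1.BoundedFormula β n) :
    ∃ K M : ℕ, Odd M ∧ ∀ (v v' : β → ℤ) (xs xs' : Fin n → ℤ),
      E K M (Sum.elim v xs) (Sum.elim v' xs') →
      (@BoundedFormula.Realize L1 ℤ (S1 X0) β n φ v xs ↔
        @BoundedFormula.Realize L1 ℤ (S1 X0) β n φ v' xs') := by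
  letI := S1 X0
  induction φ with
  | falsum => exact ⟨0, 1, odd_one, fun _ _ _ _ _ => Iff.rfl⟩
  | equal t1 t2 =>
    obtain ⟨l1, h1⟩ := term_lin X0 t1
    obtain ⟨l2, h2⟩ := term_lin X0 t2
    obtain ⟨K, hK⟩ := bound (l1 - l2)
    refine ⟨K, 1, odd_one, fun v v' xs xs' h => ?_⟩
    have := nm_zero_iff (h.1 _ hK)
    simp only [Pi.sub_apply, sub_mul, Finset.sum_sub_distrib, sub_eq_zero, ← h1, ← h2] at this
    exact this
  | rel r ts =>
    cases r with
    | mem =>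
      obtain ⟨l, h1⟩ := term_lin X0 (ts 0)
      obtain ⟨K, hK⟩ := bound l
      refine ⟨K, 1, odd_one, fun v v' xs xs' h => ?_⟩
      have := h.1 _ hK
      rw [← h1, ← h1] at this
      exact ⟨X0_of_nm this, X0_of_nm this.symm⟩
  | imp f1 f2 ih1 ih2 =>
    obtain ⟨K1, M1, o1, h1⟩ := ih1
    obtain ⟨K2, M2, o2, h2⟩ := ih2
    refine ⟨max K1 K2, M1 * M2, o1.mul o2, fun v v' xs xs' h => ?_⟩
    simp only [BoundedFormula.realize_imp]
    rw [h1 _ _ _ _ (h.mono (le_max_left _ _) (Dvd.intro _ rfl)),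
      h2 _ _ _ _ (h.mono (le_max_right _ _) (Dvd.intro_left _ rfl))]
  | all f ih =>
    obtain ⟨K, M, o, h1⟩ := ih
    obtain ⟨W, oW, hW⟩ := exists_W (K + 1)
    refine ⟨2 * (K + 1) ^ 2, M * W, o.mul oW, fun v v' xs xs' h => ?_⟩
    simp only [BoundedFormula.realize_all]
    constructor
    · intro H c
      obtain ⟨c', hc⟩ := E_snoc (Nat.le_add_left 1 K) o hW h.symm c
      exact (h1 _ _ _ _ (hc.mono (Nat.le_succ K) dvd_rfl)).2 (H c')
    · intro H c
      obtain ⟨c', hc⟩ := E_snoc (Nat.le_add_left 1 K) o hW h c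
      exact (h1 _ _ _ _ (hc.mono (Nat.le_succ K) dvd_rfl)).2 (H c')

lemma nm_big {s t : ℤ} {m : ℕ} (hs : s ≠ 0) (hm : |s| < 2 ^ m) : nm (s + t * 2 ^ m) = nm s := by
  have h1 : ¬ (2 : ℤ) ^ m ∣ s := fun h => by
    have := Int.le_of_dvd (abs_pos.2 hs) ((dvd_abs _ _).2 h)
    linarith
  have h2 : ‖((t * 2 ^ m : ℤ) : ℚ_[2])‖ < ‖(s : ℚ_[2])‖ := by
    have a1 := (Padic.norm_int_le_pow_iff_dvd (p := 2) (t * 2 ^ m) m).2
      (by push_cast; exact Dvd.intro_left _ rfl)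
    have a2 := (Padic.norm_int_le_pow_iff_dvd (p := 2) s m).not.2 (by exact_mod_cast h1)
    exact a1.trans_lt (not_le.1 a2)
  unfold nm
  rw [Int.cast_add, Padic.add_eq_max_of_ne h2.ne', max_eq_left h2.le]

theorem key {n : ℕ} {s : Set (Fin n → ℤ)} (hs : Def1 X0 s) :
    ∃ m u : ℕ, 0 < u ∧ ((fun _ => (2 : ℤ) ^ m) ∈ s ↔ (fun _ => (2 * u + 1) * (2 : ℤ) ^ m) ∈ s) := by
  classical
  letI := S1 X0
  obtain ⟨A0, -, hA⟩ := Set.definable_iff_finitely_definable.1 hs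
  obtain ⟨φ, rfl⟩ := Set.definable_iff_exists_formula_sum.1 hA
  obtain ⟨K, M, o, h⟩ := ef φ
  obtain ⟨m, hm⟩ := pow_unbounded_of_one_lt (K * ∑ i : (A0 : Set ℤ), |(i : ℤ)|)
    (show (1 : ℤ) < 2 by norm_num)
  refine ⟨m, M, o.pos, h _ _ _ _ ⟨fun l hl => ?_, ?_⟩⟩
  · simp only [Fintype.sum_sum_type, Sum.elim_inl, Sum.elim_inr, Finset.univ_eq_empty,
      Finset.sum_empty, add_zero, ← Finset.sum_mul]
    set S := ∑ i : (A0 : Set ℤ), l (Sum.inl (Sum.inl i)) * (i : ℤ) with hS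
    set T := ∑ j : Fin n, l (Sum.inl (Sum.inr j))
    by_cases h0 : S = 0
    · rw [h0, zero_add, zero_add, nm_mul, nm_mul T, nm_mul, nm_odd (odd_two_mul_add_one _),
        one_mul]
    · have hb : |S| < 2 ^ m := by
        refine lt_of_le_of_lt ?_ hm
        rw [hS, Finset.mul_sum]
        refine (Finset.abs_sum_le_sum_abs _ _).trans (Finset.sum_le_sum fun i _ => ?_)
        rw [abs_mul]
        exact mul_le_mul_of_nonneg_right (hl _) (abs_nonneg _)
      rw [← mul_assoc, nm_big h0 hb, nm_big h0 hb]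
  · rintro ((i | j) | j)
    · simp
    · exact ⟨-(2 * 2 ^ m), by simp only [Sum.elim_inl, Sum.elim_inr]; ring⟩
    · exact j.elim0

lemma not_pow {m u j : ℕ} (hu : 0 < u) : (2 * u + 1) * (2 : ℤ) ^ m ≠ 2 ^ j := by
  intro h
  have h1 : (2 * u + 1) * 2 ^ m = 2 ^ j := by exact_mod_cast h
  have h2 : 2 * u + 1 ∣ 2 ^ j := ⟨_, h1.symm⟩
  have h3 : Nat.Coprime (2 * u + 1) (2 ^ j) :=
    Nat.Coprime.pow_right _ (Nat.coprime_two_right.2 (odd_two_mul_add_one u))
  have := Nat.Coprime.eq_one_of_dvd h3 h2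
  omega

lemma mem_X0 (e : ℕ) {w : ℤ} (hw : Odd w) : 2 ^ e * w ∈ X0 ↔ Even e := by
  have hw0 : w ≠ 0 := by rintro rfl; simp at hw
  have h1 : padicValInt 2 (2 ^ e * w) = e := by
    rw [padicValInt.mul (by positivity) hw0, padicValInt.eq_zero_of_not_dvd (z := w) (by
      intro h; exact (Int.not_even_iff_odd.2 hw) (even_iff_two_dvd.2 (by exact_mod_cast h)))]
    have : padicValInt 2 (((2 ^ e : ℕ) : ℤ)) = e := by
      rw [padicValInt.of_nat, padicValNat.prime_pow]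
    simpa using this
  simp only [X0, Set.mem_setOf_eq, h1]
  exact ⟨fun h => h.2, fun h => ⟨by positivity, h⟩⟩

theorem not_stable : ¬ Stable X0 := by
  intro h
  letI := S1 X0
  let x : L1.Term (Fin 1 ⊕ Fin 1) := Term.var (Sum.inl 0)
  let y : L1.Term (Fin 1 ⊕ Fin 1) := Term.var (Sum.inr 0)
  let ad : L1.Functions 2 := Fn.add
  let me : L1.Relations 1 := R1.mem
  refine h 1 1 (me.formula₁ (ad.apply₂ x (ad.apply₂ y y))) fun N =>
    ⟨fun i _ => 2 ^ (2 * i.val), fun j _ => 2 ^ (2 * j.val), fun i j => ?_⟩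
  rw [Formula.realize_rel₁]
  change ((2 : ℤ) ^ (2 * i.val) + (2 ^ (2 * j.val) + 2 ^ (2 * j.val))) ∈ X0 ↔ _
  rcases le_or_gt i j with hij | hij
  · obtain ⟨d, hd⟩ := Nat.exists_eq_add_of_le (show i.val ≤ j.val from hij)
    have : (2 : ℤ) ^ (2 * i.val) + (2 ^ (2 * j.val) + 2 ^ (2 * j.val))
        = 2 ^ (2 * i.val) * (2 * 2 ^ (2 * d) + 1) := by rw [hd]; ring
    rw [this, mem_X0 _ (odd_two_mul_add_one _)]
    simp [hij]
  · obtain ⟨d, hd⟩ := Nat.exists_eq_add_of_lt (show j.val < i.val from hij)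
    have : (2 : ℤ) ^ (2 * i.val) + (2 ^ (2 * j.val) + 2 ^ (2 * j.val))
        = 2 ^ (2 * j.val + 1) * (2 * 2 ^ (2 * d) + 1) := by rw [hd]; ring
    rw [this, mem_X0 _ (odd_two_mul_add_one _)]
    simp [hij, Nat.even_add_one]

theorem not_same : ¬ ∀ (n : ℕ) (s : Set (Fin n → ℤ)), Def1 X0 s ↔ Def2 2 s := by
  intro h
  have h2 : Def2 2 {v : Fin 1 → ℤ | ∃ j : ℕ, v 0 = 2 ^ j} := by
    letI := S2 2
    let me : L2.Relations 1 := R2.mem
    refine Set.definable_iff_exists_formula_sum.2 ⟨me.formula₁ (Term.var (Sum.inr 0)), ?_⟩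
    ext v
    simp only [Set.mem_setOf_eq, Formula.realize_rel₁]
    rfl
  obtain ⟨m, u, hu, H⟩ := key ((h _ _).2 h2)
  obtain ⟨j, hj⟩ := H.1 ⟨m, rfl⟩
  exact not_pow hu hj

theorem not_V : ¬ Def1 X0 {v : Fin 2 → ℤ | v 1 = V 2 (v 0)} := by
  intro h
  obtain ⟨m, u, hu, H⟩ := key h
  have h1 : (2 : ℤ) ^ m = V 2 (2 ^ m) := by
    unfold V
    rw [if_neg (by positivity)]
    push_cast
    rw [multiplicity_pow_self_of_prime Int.prime_two]
  have h2 : (2 * u + 1) * (2 : ℤ) ^ m = V 2 ((2 * u + 1) * 2 ^ m) := H.1 h1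
  unfold V at h2
  rw [if_neg (by positivity)] at h2
  exact not_pow hu (by exact_mod_cast h2)

end Pool.Agent.H69.At
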