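import Pool.Agent.H69.At2

set_option autoImplicit false

namespace Pool.Agent.H69.At

/-- states: 0 start, 1 after the sign, 2 even, 3 odd, 4 dead -/
def stp (s : Fin 5) (c : Option (Fin 2)) : Fin 5 :=
  match s, c with
  | 0, none => 1
  | 0, some 1 => 2
  | 1, some 1 => 2
  | 2, some 0 => 3
  | 2, some 1 => 2
  | 3, some 0 => 2
  | 3, some 1 => 2
  | _, _ => 4

def aut : DFA (Option (Fin 2)) (Fin 5) := ⟨stp, 0, {2}⟩

lemma X0_natAbs {x y : ℤ} (h : x.natAbs = y.natAbs) : x ∈ X0 ↔ y ∈ X0 := by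
  simp only [X0, Set.mem_setOf_eq, padicValInt, h, ← Int.natAbs_ne_zero]

lemma X0_odd {x : ℤ} (h : Odd x) : x ∈ X0 := by
  have := (mem_X0 0 h).2 (by simp)
  simpa using this

lemma X0_two {x : ℤ} (hx : x ≠ 0) : 2 * x ∈ X0 ↔ x ∉ X0 := by
  have h1 : padicValInt 2 (2 * x) = padicValInt 2 x + 1 := by
    rw [padicValInt.mul two_ne_zero hx, add_comm]
    congr 1
    exact_mod_cast padicValInt.self (p := 2) (by norm_num)
  simp only [X0, Set.mem_setOf_eq, h1, Nat.even_add_one]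
  simp [hx]

lemma word_step {n n' : ℤ} (d : Fin 2) (hn : n ≠ 0) (hs : n' < 0 ↔ n < 0)
    (ha : n'.natAbs = d.val + 2 * n.natAbs) : word 2 n' = word 2 n ++ [some d] := by
  unfold word
  have h0 : n.natAbs ≠ 0 := Int.natAbs_ne_zero.2 hn
  rw [ha, Nat.digits_add 2 (by norm_num) _ _ d.2 (Or.inr h0)]
  simp only [hs, List.reverse_cons, List.map_append, List.map_cons, List.map_nil,
    List.append_assoc]
  congr 4
  exact Fin.ext (Nat.mod_eq_of_lt d.2)

lemma word_one : word 2 1 = [some 1] := by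
  simp [word]

lemma word_neg_one : word 2 (-1) = [none, some 1] := by
  simp [word]

lemma step_mem {n n' : ℤ} (d : Fin 2) (hn : n ≠ 0) (ha : n'.natAbs = d.val + 2 * n.natAbs) :
    n' ∈ X0 ↔ (d = 1 ∨ n ∉ X0) := by
  have hd : d = 0 ∨ d = 1 := by omega
  rcases hd with rfl | rfl
  · rw [X0_natAbs (y := 2 * n) (by rw [ha, Int.natAbs_mul]; simp), X0_two hn]
    simp
  · have : Odd n' := Int.natAbs_odd.1 (by rw [ha]; exact ⟨n.natAbs, by simp [add_comm]⟩)
    simp [X0_odd this]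

lemma exists_step {n : ℤ} (d : Fin 2) (hn : n ≠ 0) :
    ∃ n' : ℤ, n' ≠ 0 ∧ (n' < 0 ↔ n < 0) ∧ n'.natAbs = d.val + 2 * n.natAbs := by
  rcases lt_or_gt_of_ne hn with h | h
  · exact ⟨2 * n - d.val, by omega, by omega, by omega⟩
  · exact ⟨2 * n + d.val, by omega, by omega, by omega⟩

open Classical in
lemma eval_word : ∀ (N : ℕ) (n : ℤ), n.natAbs = N → n ≠ 0 →
    aut.eval (word 2 n) = if n ∈ X0 then 2 else 3 := by
  intro N
  induction N using Nat.strong_induction_on with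
  | _ N ih =>
    intro n hN hn
    by_cases h1 : n = 1
    · subst h1
      rw [word_one, if_pos (X0_odd odd_one)]; rfl
    by_cases h2 : n = -1
    · subst h2
      rw [word_neg_one, if_pos (X0_odd odd_neg_one)]; rfl
    obtain ⟨n0, d, a1, a2, a3⟩ : ∃ (n0 : ℤ) (d : Fin 2), n0 ≠ 0 ∧ (n < 0 ↔ n0 < 0) ∧
        n.natAbs = d.val + 2 * n0.natAbs := by
      rcases lt_or_gt_of_ne hn with h | h
      · exact ⟨-((-n) / 2), ⟨n.natAbs % 2, Nat.mod_lt _ two_pos⟩, by omega, by omega,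
          by simp only; omega⟩
      · exact ⟨n / 2, ⟨n.natAbs % 2, Nat.mod_lt _ two_pos⟩, by omega, by omega,
          by simp only; omega⟩
    rw [word_step d a1 a2 a3, DFA.eval_append_singleton, ih n0.natAbs (by omega) n0 rfl a1]
    simp only [step_mem d a1 a3]
    have hd : d = 0 ∨ d = 1 := by omega
    by_cases h : n0 ∈ X0 <;> rcases hd with rfl | rfl <;> simp [h] <;> rfl

lemma inv_word (w : List (Option (Fin 2))) :
    (aut.eval w = 0 → w = []) ∧ (aut.eval w = 1 → w = [none]) ∧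
      ((aut.eval w = 2 ∨ aut.eval w = 3) → ∃ n : ℤ, n ≠ 0 ∧ word 2 n = w) := by
  induction w using List.reverseRecOn with
  | nil => exact ⟨fun _ => rfl, fun h => absurd h (by decide), fun h => absurd h (by decide)⟩
  | append_singleton w c ih =>
    rw [DFA.eval_append_singleton]
    obtain ⟨i0, i1, i2⟩ := ih
    have t0 : ∀ (s : Fin 5) (c : Option (Fin 2)), stp s c ≠ 0 := by decide
    have t1 : ∀ (s : Fin 5) (c : Option (Fin 2)), stp s c = 1 → s = 0 ∧ c = none := by decide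
    have t2 : ∀ (s : Fin 5) (c : Option (Fin 2)), (stp s c = 2 ∨ stp s c = 3) →
        (s = 0 ∧ c = some 1) ∨ (s = 1 ∧ c = some 1) ∨ ((s = 2 ∨ s = 3) ∧ ∃ d, c = some d) := by
      decide
    refine ⟨fun h => absurd h (t0 _ _), fun h => ?_, fun h => ?_⟩
    · obtain ⟨a, b⟩ := t1 _ _ h
      rw [i0 a, b]; rfl
    · rcases t2 _ _ h with ⟨a, b⟩ | ⟨a, b⟩ | ⟨a, d, b⟩
      · exact ⟨1, one_ne_zero, by rw [i0 a, b, word_one]; rfl⟩
      · exact ⟨-1, by norm_num, by rw [i1 a, b, word_neg_one]; rfl⟩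
      · obtain ⟨n, hn, rfl⟩ := i2 a
        obtain ⟨n', c1, c2, c3⟩ := exists_step d hn
        exact ⟨n', c1, by rw [word_step d hn c2 c3, b]⟩

theorem recog : Recog 2 X0 := by
  refine ⟨Fin 5, inferInstance, aut, ?_⟩
  ext w
  rw [DFA.mem_accepts]
  change aut.eval w = 2 ↔ ∃ n ∈ X0, word 2 n = w
  constructor
  · intro h
    obtain ⟨n, hn, rfl⟩ := (inv_word w).2.2 (Or.inl h)
    refine ⟨n, ?_, rfl⟩
    by_contra hc
    rw [eval_word _ n rfl hn, if_neg hc] at h
    exact absurd h (by decide)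
  · rintro ⟨n, hn, rfl⟩
    rw [eval_word _ n rfl hn.1, if_pos hn]

end Pool.Agent.H69.At
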