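import Mathlib

set_option autoImplicit false

namespace Pool.Agent.H69.At

open FirstOrder

/-- one binary function symbol (addition) -/
inductive Fn : ℕ → Type
  | add : Fn 2

/-- one unary relation symbol -/
inductive R1 : ℕ → Type
  | mem : R1 1

/-- a unary relation symbol and a binary relation symbol -/
inductive R2 : ℕ → Type
  | mem : R2 1
  | lt : R2 2

/-- the language of `(ℤ, +, X)` -/
def L1 : FirstOrder.Language := ⟨Fn, R1⟩

/-- the language of `(ℤ, <, +, k^ℕ)` -/
def L2 : FirstOrder.Language := ⟨Fn, R2⟩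

/-- the structure `(ℤ, +, X)` -/
@[reducible] def S1 (X : Set ℤ) : L1.Structure ℤ where
  funMap := fun {n} f v => match n, f, v with
    | _, Fn.add, v => v 0 + v 1
  RelMap := fun {n} r v => match n, r, v with
    | _, R1.mem, v => v 0 ∈ X

/-- the structure `(ℤ, <, +, k^ℕ)` -/
@[reducible] def S2 (k : ℕ) : L2.Structure ℤ where
  funMap := fun {n} f v => match n, f, v with
    | _, Fn.add, v => v 0 + v 1
  RelMap := fun {n} r v => match n, r, v with
    | _, R2.mem, v => ∃ j : ℕ, v 0 = (k : ℤ) ^ j
    | _, R2.lt, v => v 0 < v 1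

/-- definable with parameters in `(ℤ, +, X)` -/
def Def1 (X : Set ℤ) {n : ℕ} (s : Set (Fin n → ℤ)) : Prop :=
  letI := S1 X
  Set.Definable Set.univ L1 s

/-- definable with parameters in `(ℤ, <, +, k^ℕ)` -/
def Def2 (k : ℕ) {n : ℕ} (s : Set (Fin n → ℤ)) : Prop :=
  letI := S2 k
  Set.Definable Set.univ L2 s

/-- `(ℤ, +, X)` is stable: no formula has the order property -/
def Stable (X : Set ℤ) : Prop :=
  letI := S1 X
  ∀ (n m : ℕ) (φ : L1.Formula (Fin n ⊕ Fin m)), ¬ ∀ N : ℕ,
    ∃ (a : Fin N → Fin n → ℤ) (b : Fin N → Fin m → ℤ),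
      ∀ i j, φ.Realize (Sum.elim (a i) (b j)) ↔ i ≤ j

/-- the largest power of `k` dividing `n`, with value `1` at `0` -/
noncomputable def V (k : ℕ) (n : ℤ) : ℤ :=
  if n = 0 then 1 else (k : ℤ) ^ multiplicity (k : ℤ) n

/-- base `k` expansion of `|n|`, most significant digit first, preceded by the sign symbol
`none` when `n < 0` -/
def word (k : ℕ) [NeZero k] (n : ℤ) : List (Option (Fin k)) :=
  (if n < 0 then [none] else []) ++
    (Nat.digits k n.natAbs).reverse.map fun d => some (Fin.ofNat k d)

/-- the words of the elements of `X` form the language accepted by a finite automaton -/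
def Recog (k : ℕ) [NeZero k] (X : Set ℤ) : Prop :=
  _root_.Language.IsRegular (T := Option (Fin k)) (word k '' X)

end Pool.Agent.H69.At
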