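import Mathlib

set_option autoImplicit false

namespace Pool.Agent.H69.AutGr

/-- The ball of radius `n` for the word length with respect to `S` and its inverses. -/
def ball {G : Type} [Group G] (S : Finset G) (n : ℕ) : Set G :=
  {g : G | ∃ l : List G, l.length ≤ n ∧ (∀ x ∈ l, x ∈ S ∨ x⁻¹ ∈ S) ∧ l.prod = g}

/-- The orbit of `g` under the automorphism group. -/
def autOrbit {G : Type} [Group G] (g : G) : Set G := {h | ∃ φ : G ≃* G, φ g = h}

/-- The number of automorphic orbits meeting the ball of radius `n`. -/
noncomputable def autGrowth {G : Type} [Group G] (S : Finset G) (n : ℕ) : ℕ :=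
  (autOrbit '' ball S n).ncard

/-- The comparison of growth functions. -/
def Prec (f g : ℕ → ℕ) : Prop := ∃ c : ℕ, 1 ≤ c ∧ ∀ n, f n ≤ c * g (c * n + c) + c

end Pool.Agent.H69.AutGr
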