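import Mathlib

namespace Pool.Agent.H69.Banach

open Filter Topology

theorem int_lim (a : ℕ → ℝ) (ha : ∀ n, ∃ k : ℤ, a n = k) (L : ℝ) (h : Tendsto a atTop (𝓝 L)) :
    ∃ k : ℤ, L = k ∧ ∀ᶠ n in atTop, a n = L := by
  have h1 : ∀ᶠ n in atTop, |a n - L| < 1 / 2 := by
    have := (Metric.tendsto_nhds.1 h) (1 / 2) (by norm_num)
    simpa [Real.dist_eq] using this
  obtain ⟨N, hN⟩ := eventually_atTop.1 h1
  obtain ⟨k, hk⟩ := ha N
  have h2 : ∀ n ≥ N, a n = k := by
    intro n hn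
    obtain ⟨j, hj⟩ := ha n
    have e1 := hN n hn
    have e2 := hN N le_rfl
    rw [hj] at e1 ⊢
    rw [hk] at e2
    have e3 : |(j : ℝ) - k| < 1 := by
      rw [abs_lt] at *
      constructor <;> linarith [e1.1, e1.2, e2.1, e2.2]
    have e4 : |j - k| < 1 := by exact_mod_cast e3
    have : j = k := by
      rw [abs_lt] at e4
      omega
    rw [this]
  have h3 : Tendsto a atTop (𝓝 (k : ℝ)) :=
    tendsto_const_nhds.congr' (eventually_atTop.2 ⟨N, fun n hn => (h2 n hn).symm⟩)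
  have h4 : L = k := tendsto_nhds_unique h h3
  exact ⟨k, h4, eventually_atTop.2 ⟨N, fun n hn => by rw [h4]; exact h2 n hn⟩⟩

section core

variable {H : Type*} [Group H]

theorem hom_one {φ : H → ℤ} (h : ∀ x y, φ (x * y) = φ x + φ y) : φ 1 = 0 := by
  have := h 1 1
  simp at this
  exact this

theorem hom_inv {φ : H → ℤ} (h : ∀ x y, φ (x * y) = φ x + φ y) (x : H) : φ x⁻¹ = - φ x := by
  have := h x x⁻¹
  rw [mul_inv_cancel, hom_one h] at this
  omega

theorem hom_pow {φ : H → ℤ} (h : ∀ x y, φ (x * y) = φ x + φ y) (x : H) (n : ℕ) :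
    φ (x ^ n) = n * φ x := by
  induction n with
  | zero => simp [hom_one h]
  | succ n ih => rw [pow_succ, h, ih]; push_cast; ring

theorem hom_zpow {φ : H → ℤ} (h : ∀ x y, φ (x * y) = φ x + φ y) (x : H) (n : ℤ) :
    φ (x ^ n) = n * φ x := by
  cases n with
  | ofNat n => simp [hom_pow h]
  | negSucc n => rw [zpow_negSucc, hom_inv h, hom_pow h, Int.negSucc_eq]; push_cast; ring

theorem lemA (N : H → ℤ) (Φ : Set (H → ℤ)) (hΦ : ∀ φ ∈ Φ, ∀ x y, φ (x * y) = φ x + φ y)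
    (hc : ∀ T : Set H, T.Finite → ∃ F : Set H, F.Finite ∧
      ∀ z ∉ F, ∃ φ ∈ Φ, ∀ y ∈ T, N (z * y) - N z = φ y)
    (T : Set H) (hT : T.Finite) (hsymm : ∀ s ∈ T, s⁻¹ ∈ T) (hgen : Subgroup.closure T = ⊤) :
    ∃ F : Set H, F.Finite ∧ ∃ M : ℤ, ∃ φ : H → H → ℤ, ∀ z ∉ F, φ z ∈ Φ ∧ N z - φ z z ≤ M ∧
      ∀ s ∈ T, z * s ∉ F → φ (z * s) = φ z ∧ N (z * s) - φ (z * s) (z * s) = N z - φ z z := by
  classical
  obtain ⟨F0, hF0, h0⟩ := hc (T ∪ Set.image2 (· * ·) T T) (hT.union (hT.image2 _ hT))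
  have h1 : ∀ z, ∃ φ : H → ℤ, z ∉ F0 → φ ∈ Φ ∧
      ∀ y ∈ (T ∪ Set.image2 (· * ·) T T), N (z * y) - N z = φ y := by
    intro z
    by_cases hz : z ∈ F0
    · exact ⟨0, fun h => absurd hz h⟩
    · obtain ⟨φ, h1, h2⟩ := h0 z hz
      exact ⟨φ, fun _ => ⟨h1, h2⟩⟩
  choose φ hφ using h1
  have step : ∀ z ∉ F0, ∀ s ∈ T, z * s ∉ F0 →
      φ (z * s) = φ z ∧ N (z * s) - φ (z * s) (z * s) = N z - φ z z := by
    intro z hz s hs hzs
    obtain ⟨a1, a2⟩ := hφ z hz
    obtain ⟨b1, b2⟩ := hφ _ hzs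
    have e : φ (z * s) = φ z := by
      funext y
      have hy : y ∈ Subgroup.closure T := by rw [hgen]; trivial
      induction hy using Subgroup.closure_induction with
      | mem y hy =>
        have c1 := b2 y (Or.inl hy)
        have c2 := a2 (s * y) (Or.inr ⟨s, hs, y, hy, rfl⟩)
        have c3 := a2 s (Or.inl hs)
        rw [hΦ _ a1] at c2
        rw [mul_assoc] at c1
        omega
      | one => rw [hom_one (hΦ _ a1), hom_one (hΦ _ b1)]
      | mul x y _ _ hx hy => rw [hΦ _ a1, hΦ _ b1, hx, hy]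
      | inv x _ hx => rw [hom_inv (hΦ _ a1), hom_inv (hΦ _ b1), hx]
    refine ⟨e, ?_⟩
    rw [e, hΦ _ a1]
    have c3 := a2 s (Or.inl hs)
    omega
  let F : Set H := insert 1 F0
  have hF : F.Finite := hF0.insert 1
  have hFT : (Set.image2 (· * ·) F T).Finite := hF.image2 _ hT
  obtain ⟨M, hM⟩ := (hFT.image (fun z => N z - φ z z)).bddAbove
  have hM' : ∀ x ∈ F, ∀ s ∈ T, N (x * s) - φ (x * s) (x * s) ≤ M := fun x hx s hs =>
    hM ⟨x * s, ⟨x, hx, s, hs, rfl⟩, rfl⟩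
  have hnot : ∀ z, z ∉ F → z ∉ F0 := fun z hz h => hz (Set.mem_insert_of_mem _ h)
  have bound : ∀ z, z ∉ F → N z - φ z z ≤ M := by
    intro z
    have hy : z ∈ Subgroup.closure T := by rw [hgen]; trivial
    have key : ∀ x, ∀ s ∈ T, (x ∉ F → N x - φ x x ≤ M) →
        (x * s ∉ F → N (x * s) - φ (x * s) (x * s) ≤ M) := by
      intro x s hs ih hxs
      by_cases hx : x ∈ F
      · exact hM' x hx s hs
      · rw [(step x (hnot _ hx) s hs (hnot _ hxs)).2]
        exact ih hx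
    induction hy using Subgroup.closure_induction_right with
    | one => intro h; exact absurd (Set.mem_insert _ _) h
    | mul_right x _ s hs ih => exact key x s hs ih
    | mul_inv_cancel x _ s hs ih => exact key x s⁻¹ (hsymm s hs) ih
  refine ⟨F, hF, M, φ, fun z hz => ⟨(hφ z (hnot z hz)).1, bound z hz, fun s hs hzs => ?_⟩⟩
  exact step z (hnot z hz) s hs (hnot _ hzs)

theorem path (N : H → ℤ) (F T : Set H) (φ : H → H → ℤ)
    (h : ∀ z ∉ F, ∀ s ∈ T, z * s ∉ F →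
      φ (z * s) = φ z ∧ N (z * s) - φ (z * s) (z * s) = N z - φ z z)
    (x s : H) (hs : s ∈ T) (m : ℕ) (hm : ∀ j ≤ m, x * s ^ j ∉ F) :
    φ (x * s ^ m) = φ x ∧ N (x * s ^ m) - φ (x * s ^ m) (x * s ^ m) = N x - φ x x := by
  induction m with
  | zero => simp
  | succ m ih =>
    obtain ⟨i1, i2⟩ := ih (fun j hj => hm j (by omega))
    have := h (x * s ^ m) (hm m (by omega)) s hs (by
      have := hm (m + 1) le_rfl
      rwa [pow_succ, ← mul_assoc] at this)
    rw [pow_succ, ← mul_assoc]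
    exact ⟨this.1.trans i1, this.2.trans i2⟩

theorem core [Group.FG H] (N : H → ℤ) (hN0 : ∀ z, 0 ≤ N z) (hN : ∀ r, {z | N z ≤ r}.Finite)
    (Φ : Set (H → ℤ)) (hΦ : ∀ φ ∈ Φ, ∀ x y, φ (x * y) = φ x + φ y)
    (hc : ∀ T : Set H, T.Finite → ∃ F : Set H, F.Finite ∧
      ∀ z ∉ F, ∃ φ ∈ Φ, ∀ y ∈ T, N (z * y) - N z = φ y) :
    ∃ z : H, (Subgroup.zpowers z).FiniteIndex := by
  classical
  obtain ⟨S, hS, hSf⟩ := Group.fg_iff.1 (inferInstance : Group.FG H)
  have gen : ∀ U : Set H, U.Finite → ∃ T : Set H, T.Finite ∧ (∀ s ∈ T, s⁻¹ ∈ T) ∧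
      Subgroup.closure T = ⊤ ∧ U ⊆ T := by
    intro U hU
    refine ⟨(S ∪ U) ∪ (S ∪ U)⁻¹, (hSf.union hU).union (hSf.union hU).inv, ?_, ?_, ?_⟩
    · rintro s (hs | hs)
      · right; simpa using hs
      · left; simpa using hs
    · rw [eq_top_iff, ← hS]
      exact Subgroup.closure_mono (fun x hx => Or.inl (Or.inl hx))
    · exact fun x hx => Or.inl (Or.inr hx)
  -- the common kernel is finite
  have hK : {z : H | ∀ φ ∈ Φ, φ z = 0}.Finite := by
    obtain ⟨T, hT, hs, hg, -⟩ := gen ∅ Set.finite_empty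
    obtain ⟨F, hF, M, φ, h⟩ := lemA N Φ hΦ hc T hT hs hg
    refine (hF.union (hN M)).subset (fun z hz => ?_)
    by_cases hzF : z ∈ F
    · exact Or.inl hzF
    · right
      obtain ⟨a1, a2, -⟩ := h z hzF
      have := hz _ a1
      simp only [Set.mem_setOf_eq]
      omega
  by_cases hfin : ∀ z : H, ∀ φ ∈ Φ, φ z = 0
  · have : Finite H := Set.finite_univ_iff.1 (hK.subset (fun z _ => hfin z))
    exact ⟨1, inferInstance⟩
  push Not at hfin
  obtain ⟨z, φ0, hφ0, hz⟩ := hfin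
  have a0 := hΦ _ hφ0
  by_cases hker : ∀ w : H, φ0 w = 0 → ∀ φ ∈ Φ, φ w = 0
  · have hk : {w : H | φ0 w = 0}.Finite := hK.subset (fun w hw => hker w hw)
    have hfib : ∀ r : ℤ, {w : H | φ0 w = r}.Finite := by
      intro r
      by_cases hr : ∃ w, φ0 w = r
      · obtain ⟨w0, hw0⟩ := hr
        refine (hk.image (fun k => k * w0)).subset (fun w hw => ⟨w * w0⁻¹, ?_, by simp⟩)
        simp only [Set.mem_setOf_eq] at hw ⊢
        rw [a0, hom_inv a0]
        omega
      · push Not at hr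
        convert Set.finite_empty
        ext w
        simp [hr w]
    have hA : (⋃ r ∈ Set.Ico (0 : ℤ) |φ0 z|, {w : H | φ0 w = r}).Finite :=
      (Set.finite_Ico _ _).biUnion (fun r _ => hfib r)
    refine ⟨z, ?_⟩
    have : Finite (H ⧸ Subgroup.zpowers z) := by
      rw [← Set.finite_univ_iff]
      refine (hA.image (fun w => (QuotientGroup.mk w : H ⧸ Subgroup.zpowers z))).subset ?_
      intro q _
      obtain ⟨h, rfl⟩ := QuotientGroup.mk_surjective q
      refine ⟨h * z ^ (-(φ0 h / φ0 z)), ?_, ?_⟩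
      · simp only [Set.mem_iUnion, Set.mem_setOf_eq]
        refine ⟨φ0 h % φ0 z, ⟨Int.emod_nonneg _ hz, Int.emod_lt_abs _ hz⟩, ?_⟩
        rw [a0, hom_zpow a0, Int.emod_def]
        ring
      · simp only
        rw [QuotientGroup.eq]
        simp
    exact Subgroup.finiteIndex_of_finite_quotient
  exfalso
  push Not at hker
  obtain ⟨w, hw0, φ1, hφ1, hw1⟩ := hker
  have a1 := hΦ _ hφ1
  obtain ⟨T, hT, hs, hg, hU⟩ := gen {z, w} (Set.toFinite _)
  have hzT : z ∈ T := hU (by simp)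
  have hwT : w ∈ T := hU (by simp)
  obtain ⟨F, hF, M, φ, h⟩ := lemA N Φ hΦ hc T hT hs hg
  obtain ⟨B0, hB0⟩ := (hF.image (fun x => |φ0 x|)).bddAbove
  obtain ⟨B1, hB1⟩ := (hF.image (fun x => |φ1 x|)).bddAbove
  have n0 : ∀ x, B0 < |φ0 x| → x ∉ F := fun x hx hxF => by
    have := hB0 ⟨x, hxF, rfl⟩
    simp only at this
    omega
  have n1 : ∀ x, B1 < |φ1 x| → x ∉ F := fun x hx hxF => by
    have := hB1 ⟨x, hxF, rfl⟩
    simp only at this
    omega
  have hz1 : 1 ≤ |φ0 z| := Int.one_le_abs hz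
  have hw2 : 1 ≤ |φ1 w| := Int.one_le_abs hw1
  have hst := fun z hz => (h z hz).2.2
  have big : ∀ n : ℕ, B0 < n → N (z ^ n) ≤ 2 * M := by
    intro n hn
    have hn' : B0 < |(n : ℤ) * φ0 z| := by
      rw [abs_mul, Nat.abs_cast]
      nlinarith
    obtain ⟨m, hm⟩ : ∃ m : ℕ, B1 + n * |φ1 z| < m := ⟨(B1 + n * |φ1 z|).toNat + 1, by omega⟩
    have p1 := path N F T φ hst (z ^ n) w hwT m (fun j _ => n0 _ (by
      rw [a0, hom_pow a0, hom_pow a0, hw0]; simpa using hn'))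
    have p2 := path N F T φ hst (z ^ n * w ^ m) z⁻¹ (hs _ hzT) (2 * n) (fun j hj => n1 _ (by
      rw [a1, a1, hom_pow a1, hom_pow a1, hom_pow a1, hom_inv a1]
      have e1 : |((n : ℤ) - j) * φ1 z| ≤ n * |φ1 z| := by
        rw [abs_mul]
        apply mul_le_mul_of_nonneg_right _ (abs_nonneg _)
        rw [abs_le]
        constructor <;> omega
      have e2 : (m : ℤ) ≤ |(m : ℤ) * φ1 w| := by
        rw [abs_mul, Nat.abs_cast]
        nlinarith
      have e3 : |(m : ℤ) * φ1 w| ≤ |(n : ℤ) * φ1 z + m * φ1 w + j * -φ1 z| +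
          |((n : ℤ) - j) * φ1 z| := by
        have : (m : ℤ) * φ1 w = ((n : ℤ) * φ1 z + m * φ1 w + j * -φ1 z) -
          ((n : ℤ) - j) * φ1 z := by ring
        conv_lhs => rw [this]
        exact abs_sub _ _
      omega))
    have p3 := path N F T φ hst (z ^ n * w ^ m * z⁻¹ ^ (2 * n)) w⁻¹ (hs _ hwT) m
      (fun j _ => n0 _ (by
        rw [a0, a0, a0, hom_pow a0, hom_pow a0, hom_pow a0, hom_pow a0, hom_inv a0, hom_inv a0,
          hw0]
        have : (n : ℤ) * φ0 z + m * 0 + ((2 * n : ℕ) : ℤ) * -φ0 z + j * -0 = -(n * φ0 z) := by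
          push_cast; ring
        rw [this, abs_neg]
        exact hn'))
    have hzn : z ^ n ∉ F := n0 _ (by rw [hom_pow a0]; exact hn')
    obtain ⟨b1, b2, -⟩ := h _ hzn
    have a2 := hΦ _ b1
    have q1 := p3.1.trans (p2.1.trans p1.1)
    have q2 := p3.2.trans (p2.2.trans p1.2)
    rw [q1, a2, a2, a2, hom_pow a2, hom_pow a2, hom_pow a2, hom_pow a2, hom_inv a2,
      hom_inv a2] at q2
    rw [hom_pow a2] at b2
    have q3 := hN0 (z ^ n * w ^ m * z⁻¹ ^ (2 * n) * w⁻¹ ^ m)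
    push_cast at q2
    linarith
  have inj : Function.Injective (fun n : ℕ => z ^ n) := by
    intro n m hnm
    have := congrArg φ0 hnm
    simp only [hom_pow a0] at this
    exact_mod_cast mul_right_cancel₀ hz this
  have hinf : ((fun n : ℕ => z ^ n) '' {n | B0.toNat < n}).Infinite :=
    (Set.Ioi_infinite B0.toNat).image inj.injOn
  refine hinf ((hN (2 * M)).subset ?_)
  rintro _ ⟨n, hn, rfl⟩
  exact big n (by simp only [Set.mem_setOf_eq] at hn; omega)

end core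

section main

variable {G : Type*} [Group G] [MetricSpace G]

def bd (G : Type*) [Group G] [MetricSpace G] : Set (G → ℝ) :=
  {f : G → ℝ | ∃ x : ℕ → G, Tendsto (fun n => dist (x n) 1) atTop atTop ∧
    ∀ y, Tendsto (fun n => dist (x n) y - dist (x n) 1) atTop (𝓝 (f y))}

theorem act_mem (hinv : ∀ g x y : G, dist (g * x) (g * y) = dist x y) (g : G) (f : G → ℝ)
    (hf : f ∈ bd G) : (fun y => f (g⁻¹ * y) - f g⁻¹) ∈ bd G := by
  obtain ⟨x, hx1, hx2⟩ := hf
  have e : ∀ n y, dist (g * x n) y = dist (x n) (g⁻¹ * y) := by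
    intro n y
    rw [← hinv g (x n) (g⁻¹ * y)]
    simp
  refine ⟨fun n => g * x n, ?_, fun y => ?_⟩
  · refine tendsto_atTop_mono (f := fun n => dist (x n) 1 + -dist g⁻¹ 1) (fun n => ?_)
      (tendsto_atTop_add_const_right _ _ hx1)
    simp only [e, mul_one]
    have := dist_triangle (x n) g⁻¹ 1
    linarith
  · have := (hx2 (g⁻¹ * y)).sub (hx2 g⁻¹)
    refine this.congr (fun n => ?_)
    simp only [e, mul_one]
    ring

theorem bd_one (f : G → ℝ) (hf : f ∈ bd G) : f 1 = 0 := by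
  obtain ⟨x, -, hx2⟩ := hf
  have := hx2 1
  simp only [sub_self] at this
  exact tendsto_nhds_unique this tendsto_const_nhds

theorem compact_step (hint : ∀ x y : G, ∃ n : ℤ, dist x y = n)
    (hprop : ∀ (x : G) (r : ℝ), (Metric.closedBall x r).Finite) (T : Set G) (hT : T.Finite) :
    ∃ F : Set G, F.Finite ∧ ∀ x ∉ F, ∃ f ∈ bd G, ∀ y ∈ T, dist x y - dist x 1 = f y := by
  by_contra hcon
  push Not at hcon
  have h1 : ∀ n : ℕ, ∃ x, x ∉ Metric.closedBall (1 : G) n ∧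
      ∀ f ∈ bd G, ∃ y ∈ T, dist x y - dist x 1 ≠ f y := fun n => hcon _ (hprop 1 n)
  choose x hx1 hx2 using h1
  have hcount : Countable G := by
    rw [← Set.countable_univ_iff]
    have : (Set.univ : Set G) = ⋃ n : ℕ, Metric.closedBall (1 : G) n :=
      (Metric.iUnion_closedBall_nat 1).symm
    rw [this]
    exact Set.countable_iUnion (fun n => (hprop 1 n).countable)
  have hK : IsCompact (Set.pi Set.univ (fun y : G => Set.Icc (-dist y 1) (dist y 1))) :=
    isCompact_univ_pi (fun y => isCompact_Icc)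
  obtain ⟨f, -, ψ, hψ, hlim⟩ := hK.tendsto_subseq
    (x := fun n y => dist (x n) y - dist (x n) 1) (fun n y _ => by
      have := abs_dist_sub_le y 1 (x n)
      rw [dist_comm y (x n), dist_comm 1 (x n), abs_le] at this
      exact this)
  have hlim' : ∀ y, Tendsto (fun n => dist (x (ψ n)) y - dist (x (ψ n)) 1) atTop (𝓝 (f y)) :=
    fun y => tendsto_pi_nhds.1 hlim y
  have hf : f ∈ bd G := by
    refine ⟨fun n => x (ψ n), ?_, hlim'⟩
    refine tendsto_atTop_mono (f := fun n => ((ψ n : ℕ) : ℝ)) (fun n => ?_)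
      (tendsto_natCast_atTop_atTop.comp hψ.tendsto_atTop)
    have := hx1 (ψ n)
    rw [Metric.mem_closedBall, not_le] at this
    exact this.le
  have hev : ∀ᶠ n in atTop, ∀ y ∈ T, dist (x (ψ n)) y - dist (x (ψ n)) 1 = f y := by
    rw [eventually_all_finite hT]
    intro y _
    refine (int_lim _ (fun n => ?_) _ (hlim' y)).choose_spec.2
    obtain ⟨a, ha⟩ := hint (x (ψ n)) y
    obtain ⟨b, hb⟩ := hint (x (ψ n)) 1
    exact ⟨a - b, by rw [ha, hb]; push_cast; rfl⟩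
  obtain ⟨n, hn⟩ := hev.exists
  obtain ⟨y, hy, hne⟩ := hx2 (ψ n) f hf
  exact hne (hn y hy)

theorem bd_int (hint : ∀ x y : G, ∃ n : ℤ, dist x y = n) (f : G → ℝ) (hf : f ∈ bd G) (y : G) :
    ∃ k : ℤ, f y = k := by
  obtain ⟨x, -, hx2⟩ := hf
  obtain ⟨k, hk, -⟩ := int_lim _ (fun n => by
    obtain ⟨a, ha⟩ := hint (x n) y
    obtain ⟨b, hb⟩ := hint (x n) 1
    exact ⟨a - b, by rw [ha, hb]; push_cast; rfl⟩) _ (hx2 y)
  exact ⟨k, hk⟩

theorem main [Group.FG G] (hint : ∀ x y : G, ∃ n : ℤ, dist x y = n)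
    (hinv : ∀ g x y : G, dist (g * x) (g * y) = dist x y)
    (hprop : ∀ (x : G) (r : ℝ), (Metric.closedBall x r).Finite)
    (hfin : (bd G).Finite) : ∃ C : Subgroup G, IsCyclic C ∧ C.FiniteIndex := by
  classical
  haveI : Finite (bd G) := hfin
  letI : MulAction G (bd G) :=
    { smul := fun g f => ⟨fun y => f.1 (g⁻¹ * y) - f.1 g⁻¹, act_mem hinv g f.1 f.2⟩
      one_smul := fun f => by
        apply Subtype.ext
        funext y
        change f.1 (1⁻¹ * y) - f.1 1⁻¹ = f.1 y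
        simp [bd_one f.1 f.2]
      mul_smul := fun g h f => by
        apply Subtype.ext
        funext y
        change f.1 ((g * h)⁻¹ * y) - f.1 (g * h)⁻¹ =
          (f.1 (h⁻¹ * (g⁻¹ * y)) - f.1 h⁻¹) - (f.1 (h⁻¹ * g⁻¹) - f.1 h⁻¹)
        simp [mul_assoc] }
  let H : Subgroup G := (MulAction.toPermHom G (bd G)).ker
  haveI hHi : H.FiniteIndex := Subgroup.finiteIndex_ker _
  have hadd : ∀ f ∈ bd G, ∀ h ∈ H, ∀ y, f (h * y) = f h + f y := by
    intro f hf h hh y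
    have h1 : h⁻¹ ∈ H := H.inv_mem hh
    rw [MonoidHom.mem_ker] at h1
    have h2 : h⁻¹ • (⟨f, hf⟩ : bd G) = ⟨f, hf⟩ := by
      have := congrArg (fun p : Equiv.Perm (bd G) => p ⟨f, hf⟩) h1
      simpa using this
    have h3 : f (h⁻¹⁻¹ * y) - f h⁻¹⁻¹ = f y := congrFun (congrArg Subtype.val h2) y
    rw [inv_inv] at h3
    linarith
  haveI : Group.FG H := Subgroup.fg_of_index_ne_zero H
  choose D hD using hint
  obtain ⟨z, hz⟩ := core (H := H) (fun z => D 1 z.1) (fun z => by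
      have : (0 : ℝ) ≤ D 1 z.1 := by rw [← hD]; exact dist_nonneg
      exact_mod_cast this)
    (fun r => by
      refine ((hprop 1 r).preimage Subtype.val_injective.injOn).subset (fun z hz => ?_)
      simp only [Set.mem_setOf_eq] at hz
      rw [Set.mem_preimage, Metric.mem_closedBall, dist_comm, hD]
      exact_mod_cast hz)
    {φ | ∃ f ∈ bd G, ∀ h : H, f h.1 = φ h}
    (by
      rintro φ ⟨f, hf, e⟩ x y
      have := hadd f hf x.1 x.2 y.1
      rw [e x, e y, ← Subgroup.coe_mul, e] at this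
      exact_mod_cast this)
    (by
      intro T hT
      obtain ⟨F, hF, h⟩ := compact_step (fun x y => ⟨D x y, hD x y⟩) hprop _
        (hT.image Subtype.val)
      refine ⟨(fun z : H => z.1⁻¹) ⁻¹' F, hF.preimage (fun a _ b _ hab => ?_), fun z hz => ?_⟩
      · exact Subtype.ext (inv_injective hab)
      · obtain ⟨f, hf, e⟩ := h _ hz
        choose k hk using bd_int (fun x y => ⟨D x y, hD x y⟩) f hf
        refine ⟨fun h => k h.1, ⟨f, hf, fun h => hk _⟩, fun y hy => ?_⟩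
        have e1 := e y.1 ⟨y, hy, rfl⟩
        rw [← hinv z.1 z.1⁻¹ y.1, ← hinv z.1 z.1⁻¹ 1, mul_inv_cancel, mul_one, hD, hD, hk] at e1
        exact_mod_cast e1)
  refine ⟨(Subgroup.zpowers z).map H.subtype, ?_, ?_⟩
  · rw [MonoidHom.map_zpowers]
    infer_instance
  · constructor
    rw [Subgroup.index_map_subtype]
    exact mul_ne_zero hz.index_ne_zero hHi.index_ne_zero

end main

end Pool.Agent.H69.Banach
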