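import Mathlib

namespace Pool.Agent.H69.Bd

open Filter Topology Set

theorem swap_ex {W Y : Type} [TopologicalSpace W] [CompactSpace W] [TopologicalSpace Y] [T2Space Y]
    {i j : W → Y} (ci : Continuous i) (cj : Continuous j) (ii : i.Injective) (ij : j.Injective)
    (oi : IsOpen (range i)) (oj : IsOpen (range j)) (hd : ∀ a b, i a ≠ j b) :
    ∃ c : Y ≃ₜ Y, c * c = 1 ∧ (∀ a, c (i a) = j a) ∧ ∀ y, y ∉ range i → y ∉ range j → c y = y := by
  classical
  let f : Y → Y := fun y => if h : ∃ a, i a = y then j h.choose else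
    if h : ∃ a, j a = y then i h.choose else y
  have f1 : ∀ a, f (i a) = j a := fun a => by
    have h : ∃ b, i b = i a := ⟨a, rfl⟩
    simp only [f, dif_pos h, ii h.choose_spec]
  have f2 : ∀ a, f (j a) = i a := fun a => by
    have h : ∃ b, j b = j a := ⟨a, rfl⟩
    have h' : ¬ ∃ b, i b = j a := fun ⟨b, e⟩ => hd _ _ e
    simp only [f, dif_neg h', dif_pos h, ij h.choose_spec]
  have f3 : ∀ y, y ∉ range i → y ∉ range j → f y = y := fun y a b => by
    simp only [f, dif_neg (show ¬ ∃ a, i a = y from a), dif_neg (show ¬ ∃ a, j a = y from b)]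
  have inv : f.Involutive := fun y => by
    by_cases a : y ∈ range i
    · obtain ⟨a, rfl⟩ := a
      rw [f1, f2]
    by_cases b : y ∈ range j
    · obtain ⟨a, rfl⟩ := b
      rw [f2, f1]
    rw [f3 y a b, f3 y a b]
  have ei : IsOpenEmbedding i := ⟨(ci.isClosedEmbedding ii).isEmbedding, oi⟩
  have ej : IsOpenEmbedding j := ⟨(cj.isClosedEmbedding ij).isEmbedding, oj⟩
  have cf : Continuous f := continuous_iff_continuousAt.2 fun y => by
    by_cases a : y ∈ range i
    · obtain ⟨a, rfl⟩ := a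
      rw [← ei.continuousAt_iff, show f ∘ i = j from funext f1]
      exact cj.continuousAt
    by_cases b : y ∈ range j
    · obtain ⟨a, rfl⟩ := b
      rw [← ej.continuousAt_iff, show f ∘ j = i from funext f2]
      exact ci.continuousAt
    refine continuousAt_id.congr ?_
    filter_upwards [(isCompact_range ci).isClosed.isOpen_compl.mem_nhds a,
      (isCompact_range cj).isClosed.isOpen_compl.mem_nhds b] with z p q using (f3 z p q).symm
  exact ⟨⟨inv.toPerm, cf, cf⟩, Homeomorph.ext inv, f1, f3⟩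

abbrev L := Fin 4
abbrev Om := ℕ → Fin 3
abbrev Z := L × Om
abbrev Y := Z × Z

def cons (i : Fin 3) (ω : Om) : Om := fun n => Nat.casesOn n i ω
def tl (ω : Om) : Om := fun n => ω (n + 1)

@[simp] theorem cons_zero (i : Fin 3) (ω : Om) : cons i ω 0 = i := rfl
@[simp] theorem tl_cons (i : Fin 3) (ω : Om) : tl (cons i ω) = ω := rfl
@[simp] theorem cons_tl (ω : Om) : cons (ω 0) (tl ω) = ω := funext fun n => by cases n <;> rfl

@[fun_prop] theorem cons_cont {α : Type} [TopologicalSpace α] {f : α → Fin 3} {g : α → Om}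
    (hf : Continuous f) (hg : Continuous g) : Continuous fun a => cons (f a) (g a) :=
  continuous_pi fun n => by
    cases n with
    | zero => exact hf
    | succ n => exact (continuous_apply n).comp hg

@[fun_prop] theorem tl_cont : Continuous tl := continuous_pi fun n => continuous_apply (n + 1)

def d : Fin 3 → L := ![3, 0, 1]
def k : L → Fin 3 := ![1, 2, 0, 0]

def gf (s : L) (z : Z) : Z :=
  if z.1 = s + 2 then (z.1 + d (z.2 0), tl z.2) else (s, cons (k (z.1 - s)) z.2)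

theorem gf_inv (s : L) (z : Z) : gf (s + 2) (gf s z) = z := by
  obtain ⟨t, ω⟩ := z
  by_cases h : t = s + 2
  · have a : ∀ (s : L) (i : Fin 3), s + 2 + d i ≠ s + 2 + 2 := by decide
    have b : ∀ (s : L) (i : Fin 3), k (s + 2 + d i - (s + 2)) = i := by decide
    subst h
    simp only [gf, if_true, if_neg (a s _), b, cons_tl]
  · have a : ∀ s : L, s = s + 2 + 2 := by decide
    have b : ∀ s t : L, t ≠ s + 2 → s + d (k (t - s)) = t := by decide
    simp only [gf, if_neg h, if_pos (a s), cons_zero, tl_cons, b s t h]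

theorem gf_cont (s : L) : Continuous (gf s) := by
  have a : Continuous fun z : Z => z.1 + d (z.2 0) :=
    (continuous_of_discreteTopology (f := fun p : L × Fin 3 => p.1 + d p.2)).comp
      (f := fun z : Z => (z.1, z.2 0)) (by fun_prop)
  have b : Continuous fun z : Z => k (z.1 - s) :=
    (continuous_of_discreteTopology (f := fun p : L => k (p - s))).comp continuous_fst
  refine Continuous.if ?_ (by fun_prop) (by fun_prop)
  have : IsClopen {z : Z | z.1 = s + 2} := (isClopen_discrete {s + 2}).preimage continuous_fst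
  simp [this.frontier_eq]

def g (s : L) : Z ≃ₜ Z where
  toFun := gf s
  invFun := gf (s + 2)
  left_inv := gf_inv s
  right_inv z := by
    have a : ∀ s : L, s + 2 + 2 = s := by decide
    simpa only [a] using gf_inv (s + 2) z
  continuous_toFun := gf_cont s
  continuous_invFun := gf_cont _

theorem g_inv (s : L) : (g s)⁻¹ = g (s + 2) := Homeomorph.ext fun _ => rfl

theorem g_app {s : L} {z : Z} (h : z.1 ≠ s + 2) : g s z = (s, cons (k (z.1 - s)) z.2) := if_neg h

def PP (a : Z ≃ₜ Z) (s r : L) : Prop := ∀ z, z.1 ≠ r → (a z).1 = s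

theorem g_pp (s : L) : PP (g s) s (s + 2) := fun _ h => by rw [g_app h]

def Ag (n : ℕ) (z z' : Z) : Prop := z.1 = z'.1 ∧ ∀ i < n, z.2 i = z'.2 i

theorem push {H : Subgroup (Z ≃ₜ Z)} (hH : ∀ s, g s ∈ H) (n : ℕ) (z : Z) :
    ∃ a ∈ H, ∃ r, ∀ z', z'.1 ≠ r → Ag n (a z') z := by
  induction n generalizing z with
  | zero => exact ⟨_, hH z.1, _, fun z' h => ⟨g_pp _ _ h, by simp⟩⟩
  | succ n ih =>
    obtain ⟨a, ha, r, h⟩ := ih (z.1 + d (z.2 0), tl z.2)
    refine ⟨_, mul_mem (hH z.1) ha, r, fun z' hz => ?_⟩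
    obtain ⟨h1, h2⟩ := h z' hz
    have p : ∀ (s : L) (i : Fin 3), s + d i ≠ s + 2 := by decide
    have q : ∀ (s : L) (i : Fin 3), k (s + d i - s) = i := by decide
    rw [Homeomorph.mul_apply, g_app (h1 ▸ p _ _), h1, q]
    refine ⟨rfl, fun i hi => ?_⟩
    cases i with
    | zero => rfl
    | succ i => exact h2 i (by omega)

theorem conv {H : Subgroup (Z ≃ₜ Z)} (hH : ∀ s, g s ∈ H) (ζ z₀ : Z) :
    ∃ γ : ℕ → Z ≃ₜ Z, (∀ n, γ n ∈ H) ∧ ∀ z, z ≠ ζ → Tendsto (fun n => γ n z) atTop (𝓝 z₀) := by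
  have : ∀ n, ∃ γ ∈ H, ∀ z, ¬ Ag n z ζ → Ag n (γ z) z₀ := by
    intro n
    obtain ⟨a, ha, r, h⟩ := push hH n ζ
    obtain ⟨a', ha', r', h'⟩ := push hH n z₀
    obtain ⟨s, s1, s2⟩ := (by decide : ∀ r r' : L, ∃ s, r ≠ s + 2 ∧ s ≠ r') r r'
    refine ⟨_, mul_mem ha' (mul_mem (hH s) (inv_mem ha)), fun z hz => h' _ ?_⟩
    have : (a⁻¹ z).1 = r := by
      by_contra e
      exact hz (by simpa using h _ e)
    exact (g_pp s (a⁻¹ z) (this ▸ s1)).trans_ne s2
  choose γ h1 h2 using this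
  refine ⟨γ, h1, fun z hz => ?_⟩
  have ev : ∀ᶠ n in atTop, Ag n (γ n z) z₀ := by
    by_cases e : z.1 = ζ.1
    · obtain ⟨i, hi⟩ := Function.ne_iff.1 fun e' => hz (Prod.ext e e')
      filter_upwards [eventually_gt_atTop i] with n hn using h2 n z fun a => hi (a.2 i hn)
    · exact Eventually.of_forall fun n => h2 n z fun a => e a.1
  refine Tendsto.prodMk_nhds (tendsto_const_nhds.congr' (ev.mono fun n h => h.1.symm))
    (tendsto_pi_nhds.2 fun i => tendsto_const_nhds.congr' ?_)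
  filter_upwards [ev, eventually_gt_atTop i] with n h hn using (h.2 i hn).symm

instance : Uncountable Z := by
  have : Uncountable Om := by
    rw [← Cardinal.aleph0_lt_mk_iff]
    simp only [Cardinal.mk_pi, Cardinal.mk_fintype, Fintype.card_fin, Cardinal.prod_const,
      Cardinal.lift_id, Cardinal.mk_nat, Cardinal.lift_natCast]
    exact (Cardinal.cantor _).trans_le (Cardinal.power_le_power_right (by norm_num))
  infer_instance

abbrev P := Fin 5
abbrev W := P × P × Om × Om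

def A : P → L × L := ![(1, 0), (2, 1), (3, 2), (0, 3), (0, 0)]
def B : P → L × L := ![(0, 1), (1, 2), (2, 3), (3, 0), (1, 1)]
def e1 : P → Fin 3 := ![0, 0, 0, 1, 1]
def e2 : P → Fin 3 := ![0, 1, 2, 0, 1]
def j (p : P) (ω : Om) : Om := cons (e1 p) (cons (e2 p) ω)
def i0 (w : W) : Y := (((A w.1).1, j w.2.1 w.2.2.1), ((A w.1).2, w.2.2.2))
def i1 (w : W) : Y := (((B w.2.1).1, w.2.2.1), ((B w.2.1).2, j w.1 w.2.2.2))

theorem j_inj {p q : P} {ω ω' : Om} (h : j p ω = j q ω') : p = q ∧ ω = ω' :=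
  ⟨(by decide : ∀ p q, e1 p = e1 q → e2 p = e2 q → p = q) p q (congrFun h 0) (congrFun h 1),
    congrArg (fun x => tl (tl x)) h⟩

theorem j_sur {q : P} {ω : Om} (a : ω 0 = e1 q) (b : ω 1 = e2 q) : j q (tl (tl ω)) = ω := by
  rw [j, ← a, ← b]
  exact (congrArg _ (cons_tl (tl ω))).trans (cons_tl ω)

theorem i0_inj : i0.Injective := by
  rintro ⟨p, q, ω, η⟩ ⟨p', q', ω', η'⟩ h
  simp only [i0, Prod.mk.injEq] at h ⊢
  exact ⟨(by decide : A.Injective) (Prod.ext h.1.1 h.2.1), (j_inj h.1.2).1, (j_inj h.1.2).2, h.2.2⟩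

theorem i1_inj : i1.Injective := by
  rintro ⟨p, q, ω, η⟩ ⟨p', q', ω', η'⟩ h
  simp only [i1, Prod.mk.injEq] at h ⊢
  exact ⟨(j_inj h.2.2).1, (by decide : B.Injective) (Prod.ext h.1.1 h.2.1), h.1.2, (j_inj h.2.2).2⟩

theorem i01 (a b : W) : i0 a ≠ i1 b := fun h =>
  (by decide : ∀ p q, A p ≠ B q) a.1 b.2.1
    (Prod.ext (congrArg (fun y : Y => y.1.1) h) (congrArg (fun y : Y => y.2.1) h))

theorem c_ex : ∃ c : Y ≃ₜ Y, c * c = 1 ∧ (∀ a, c (i0 a) = i1 a) ∧
    ∀ y, y ∉ range i0 → y ∉ range i1 → c y = y := by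
  have cA : Continuous A := continuous_of_discreteTopology
  have cB : Continuous B := continuous_of_discreteTopology
  have c1 : Continuous e1 := continuous_of_discreteTopology
  have c2 : Continuous e2 := continuous_of_discreteTopology
  refine swap_ex (by unfold i0 j; fun_prop) (by unfold i1 j; fun_prop) i0_inj i1_inj ?_ ?_ i01
  · convert (isOpen_discrete {x : (L × L) × Fin 3 × Fin 3 | ∃ p q, A p = x.1 ∧ x.2.1 = e1 q ∧
      x.2.2 = e2 q}).preimage (f := fun y : Y => ((y.1.1, y.2.1), y.1.2 0, y.1.2 1)) (by fun_prop)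
    ext y
    refine ⟨?_, fun ⟨p, q, a, b, c⟩ => ⟨(p, q, tl (tl y.1.2), y.2.2), ?_⟩⟩
    · rintro ⟨w, rfl⟩
      exact ⟨w.1, w.2.1, rfl, rfl, rfl⟩
    · simp only [i0, a, j_sur b c]
  · convert (isOpen_discrete {x : (L × L) × Fin 3 × Fin 3 | ∃ p q, B q = x.1 ∧ x.2.1 = e1 p ∧
      x.2.2 = e2 p}).preimage (f := fun y : Y => ((y.1.1, y.2.1), y.2.2 0, y.2.2 1)) (by fun_prop)
    ext y
    refine ⟨?_, fun ⟨p, q, a, b, c⟩ => ⟨(p, q, y.1.2, tl (tl y.2.2)), ?_⟩⟩
    · rintro ⟨w, rfl⟩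
      exact ⟨w.1, w.2.1, rfl, rfl, rfl⟩
    · simp only [i1, a, j_sur b c]

end Pool.Agent.H69.Bd
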