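import Pool.Agent.H69.Bd1

namespace Pool.Agent.H69.Bd

open Filter Topology Set MeasureTheory

noncomputable def c : Y ≃ₜ Y := c_ex.choose

theorem c_mul : c * c = 1 := c_ex.choose_spec.1
theorem c_i0 (a : W) : c (i0 a) = i1 a := c_ex.choose_spec.2.1 a
theorem c_fix {y : Y} (a : y ∉ range i0) (b : y ∉ range i1) : c y = y := c_ex.choose_spec.2.2 y a b
@[simp] theorem c_c (y : Y) : c (c y) = y := congrArg (fun f : Y ≃ₜ Y => f y) c_mul
theorem c_inv : c⁻¹ = c := inv_eq_of_mul_eq_one_right c_mul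

noncomputable def cc (σ : Bool) : Y ≃ₜ Y := if σ then c else 1

@[simp] theorem cc_cc (σ : Bool) (y : Y) : cc σ (cc σ y) = y := by cases σ <;> simp [cc]
theorem cc_not (σ : Bool) (y : Y) : cc σ (c y) = cc (!σ) y := by cases σ <;> simp [cc]

def D : (Z ≃ₜ Z) →* (Y ≃ₜ Y) where
  toFun a := a.prodCongr a
  map_one' := rfl
  map_mul' _ _ := rfl

theorem D_app (a : Z ≃ₜ Z) (y : Y) : D a y = (a y.1, a y.2) := rfl

abbrev G := FreeGroup (Fin 4)

def sd : Fin 4 → Bool := ![false, false, true, true]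
def gn : Fin 4 → L := ![0, 1, 0, 1]
def lt (x : Fin 4 × Bool) : L := if x.2 then gn x.1 else gn x.1 + 2

noncomputable def Φ : G →* (Y ≃ₜ Y) := FreeGroup.lift fun i => cc (sd i) * D (g (gn i)) * cc (sd i)

theorem Φ_one (x : Fin 4 × Bool) : Φ (FreeGroup.mk [x]) = cc (sd x.1) * D (g (lt x)) * cc (sd x.1) := by
  obtain ⟨i, _ | _⟩ := x
  · have : (cc (sd i))⁻¹ = cc (sd i) := inv_eq_of_mul_eq_one_right (Homeomorph.ext (cc_cc _))
    simp [Φ, lt, ← g_inv, this, mul_assoc]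
  · simp [Φ, lt]

theorem Φ_cons (x : Fin 4 × Bool) (l : List (Fin 4 × Bool)) (y : Y) :
    Φ (FreeGroup.mk (x :: l)) y = cc (sd x.1) (D (g (lt x)) (cc (sd x.1) (Φ (FreeGroup.mk l) y))) := by
  rw [← List.singleton_append, ← FreeGroup.mul_mk, map_mul, Φ_one]
  rfl

theorem jump {a : Z ≃ₜ Z} {s r : L} (h : PP a s r) (q : P) (ω : Om) :
    ∃ ω₁, ∀ p ω', ∃ p' η, c (i0 (p, s.castSucc, ω₁, ω')) = D a (i0 (p', q, ω, η)) := by
  have a1 : ∀ r : L, A r.castSucc = (r + 1, r) := by decide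
  have a2 : ∀ r : L, B r.castSucc = (r, r + 1) := by decide
  have a3 : ∀ r : L, r + 1 ≠ r := by decide
  refine ⟨(a (r + 1, j q ω)).2, fun p ω' => ⟨r.castSucc, (a.symm (s + 1, j p ω')).2, ?_⟩⟩
  have e : (a.symm (s + 1, j p ω')).1 = r := by
    by_contra e
    exact a3 s (by simpa using h _ e)
  rw [c_i0, D_app]
  simp only [i0, i1, a1, a2]
  congr 1
  · exact Prod.ext (h _ (a3 r)).symm rfl
  · rw [← e, Prod.mk.eta, a.apply_symm_apply]

theorem pong (l : List (Fin 4 × Bool)) : ∀ x, FreeGroup.IsReduced (x :: l) → ∃ σ a r q ω,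
    PP a (lt x) r ∧ ∀ p ω', ∃ p' η, cc (sd x.1) (D a (i0 (p, q, ω, ω'))) =
      Φ (FreeGroup.mk (x :: l)) (cc σ (i0 (p', 4, 0, η))) := by
  induction l with
  | nil =>
    refine fun x _ => ⟨sd x.1, _, _, 4, 0, g_pp _, fun p ω' => ⟨p, ω', ?_⟩⟩
    rw [Φ_cons, ← FreeGroup.one_eq_mk, map_one, Homeomorph.one_apply, cc_cc]
  | cons y l ih =>
    intro x hx
    rw [FreeGroup.isReduced_cons_cons] at hx
    obtain ⟨σ, a, r, q, ω, h1, h2⟩ := ih y hx.2
    by_cases e : sd x.1 = sd y.1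
    · have : lt y ≠ lt x + 2 := (by decide : ∀ x y : Fin 4 × Bool, (x.1 = y.1 → x.2 = y.2) →
        sd x.1 = sd y.1 → lt y ≠ lt x + 2) x y hx.1 e
      refine ⟨σ, g (lt x) * a, r, q, ω, fun z hz => g_pp _ (a z) ((h1 z hz).trans_ne this),
        fun p ω' => ?_⟩
      obtain ⟨p', η, h⟩ := h2 p ω'
      refine ⟨p', η, ?_⟩
      rw [Φ_cons, ← h, e, cc_cc, map_mul, Homeomorph.mul_apply]
    · obtain ⟨ω₁, h⟩ := jump h1 q ω
      refine ⟨σ, _, _, (lt y).castSucc, ω₁, g_pp _, fun p ω' => ?_⟩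
      obtain ⟨p₁, η₁, h3⟩ := h p ω'
      obtain ⟨p', η, h⟩ := h2 p₁ η₁
      refine ⟨p', η, ?_⟩
      rw [Φ_cons, ← h, ← h3, cc_not, ← Bool.eq_not.2 e, cc_cc]

def XS : Set Y := ⋂₀ {M | IsClosed M ∧ (∀ z, (z, z) ∈ M) ∧ (∀ s, MapsTo (D (g s)) M M) ∧
  MapsTo c M M}

theorem XS_closed : IsClosed XS := isClosed_sInter fun _ h => h.1
theorem XS_diag (z : Z) : (z, z) ∈ XS := fun _ h => h.2.1 z
theorem XS_c : MapsTo c XS XS := fun _ hy M h => h.2.2.2 (hy M h)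
theorem XS_cc (σ : Bool) : MapsTo (cc σ) XS XS := by
  cases σ
  exacts [fun _ h => h, XS_c]

theorem XS_Φ (w : G) : MapsTo (Φ w) XS XS := by
  rw [← FreeGroup.mk_toWord (x := w)]
  induction w.toWord with
  | nil => rw [← FreeGroup.one_eq_mk, map_one]; exact fun _ h => h
  | cons x l ih =>
    intro y hy
    rw [Φ_cons]
    exact XS_cc _ fun M h => h.2.2.1 _ (XS_cc _ (ih hy) M h)

theorem faith {w : G} (h : ∀ y ∈ XS, Φ w y = y) : w = 1 := by
  by_contra hw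
  obtain ⟨x, l, e⟩ := List.exists_cons_of_ne_nil (FreeGroup.toWord_eq_nil_iff.not.2 hw)
  obtain ⟨σ, a, r, q, ω, h1, h2⟩ := pong l x (e ▸ FreeGroup.isReduced_toWord)
  obtain ⟨ω₁, h3⟩ := jump h1 q ω
  obtain ⟨p₁, η₁, h4⟩ := h3 4 (j (lt x).castSucc ω₁)
  obtain ⟨p', η, h5⟩ := h2 p₁ η₁
  have m : i0 (4, (lt x).castSucc, ω₁, j (lt x).castSucc ω₁) ∈ XS := XS_diag _
  rw [← h4, ← e, FreeGroup.mk_toWord, ← h _ (XS_cc _ (XS_c m)), EmbeddingLike.apply_eq_iff_eq,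
    cc_not] at h5
  by_cases f : (!sd x.1) = σ
  · rw [f, EmbeddingLike.apply_eq_iff_eq] at h5
    exact (Fin.castSucc_lt_last _).ne (congrArg (fun w : W => w.2.1) (i0_inj h5))
  · rw [Bool.eq_not.2 (Ne.symm f), ← cc_not (!sd x.1), EmbeddingLike.apply_eq_iff_eq, c_i0] at h5
    exact i01 _ _ h5

noncomputable def La : Subgroup (Z ≃ₜ Z) :=
  (Φ.range ⊓ Φ.range.comap (MulAut.conj c).toMonoidHom).comap D

theorem La_g (s : L) : g s ∈ La := by
  obtain ⟨x, a, b⟩ := (by decide : ∀ s : L, ∃ x, sd x.1 = false ∧ lt x = s) s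
  obtain ⟨y, a', b'⟩ := (by decide : ∀ s : L, ∃ x, sd x.1 = true ∧ lt x = s) s
  exact ⟨⟨FreeGroup.mk [x], by simp [Φ_one, a, b, cc]⟩,
    ⟨FreeGroup.mk [y], by simp [Φ_one, a', b', cc, c_inv]⟩⟩

theorem dl {M : Set Y} (hM : IsClosed M) {y : Y} (hy : y ∈ M) (h : ∀ a ∈ La, MapsTo (D a) M M)
    (z : Z) : (z, z) ∈ M := by
  obtain ⟨ζ, hζ⟩ := (Set.toFinite {y.1, y.2}).exists_notMem
  obtain ⟨γ, h1, h2⟩ := conv La_g ζ z
  exact hM.mem_of_tendsto ((h2 y.1 fun e => hζ (by simp [e])).prodMk_nhds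
    (h2 y.2 fun e => hζ (by simp [e]))) (Eventually.of_forall fun n => h _ (h1 n) hy)

theorem mini (x : Y) : XS ⊆ closure (range fun w : G => Φ w x) := by
  set M := closure (range fun w : G => Φ w x)
  have hM : ∀ f ∈ Φ.range, MapsTo f M M := by
    rintro _ ⟨w, rfl⟩
    refine MapsTo.closure ?_ (Φ w).continuous
    rintro _ ⟨v, rfl⟩
    exact ⟨w * v, by simp⟩
  have hx : x ∈ M := subset_closure ⟨1, by simp⟩
  have h1 : ∀ a ∈ La, MapsTo (D a) M M := fun a ha => hM _ ha.1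
  have h2 : ∀ a ∈ La, MapsTo (D a) (c ⁻¹' M) (c ⁻¹' M) := fun a ha y hy => by
    have := hM _ (Subgroup.mem_comap.1 ha.2) hy
    simpa [c_inv] using this
  have cl : IsClosed (c ⁻¹' M) := isClosed_closure.preimage c.continuous
  intro y hy
  exact (hy (M ∩ c ⁻¹' M) ⟨isClosed_closure.inter cl, fun z => ⟨dl isClosed_closure hx h1 z,
    dl cl (y := c x) (by simpa using hx) h2 z⟩, fun s => (h1 _ (La_g s)).inter_inter (h2 _ (La_g s)),
    fun z hz => ⟨hz.2, by simpa using hz.1⟩⟩).1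

abbrev X : Type := XS

instance : CompactSpace X := isCompact_iff_compactSpace.1 XS_closed.isCompact

noncomputable instance : MulAction G X where
  smul w x := ⟨Φ w x, XS_Φ w x.2⟩
  one_smul x := Subtype.ext (show Φ 1 x = x by simp)
  mul_smul v w x := Subtype.ext (show Φ (v * w) x = Φ v (Φ w x) by simp)

theorem smul_val (w : G) (x : X) : (w • x).1 = Φ w x := rfl

instance : ContinuousConstSMul G X :=
  ⟨fun w => ((Φ w).continuous.comp continuous_subtype_val).subtype_mk _⟩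

theorem prox (μ : Measure X) [SFinite μ] (z : Z) : ∃ w : ℕ → G,
    ∀ᵐ x ∂μ, Tendsto (fun n => w n • x) atTop (𝓝 ⟨(z, z), XS_diag z⟩) := by
  have a := Measure.countable_meas_level_set_pos (μ := μ) (g := fun x : X => x.1.1) (by fun_prop)
  have b := Measure.countable_meas_level_set_pos (μ := μ) (g := fun x : X => x.1.2) (by fun_prop)
  obtain ⟨ζ, hζ⟩ : ∃ ζ, ζ ∉ _ := by
    by_contra e
    push Not at e
    exact not_countable_univ ((a.union b).mono fun ζ _ => e ζ)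
  simp only [mem_union, mem_ofPred_eq, not_or, not_lt, nonpos_iff_eq_zero] at hζ
  obtain ⟨γ, h1, h2⟩ := conv La_g ζ z
  choose w hw using fun n => (h1 n).1
  refine ⟨w, ?_⟩
  filter_upwards [measure_eq_zero_iff_ae_notMem.1 hζ.1, measure_eq_zero_iff_ae_notMem.1 hζ.2]
    with x p q
  refine tendsto_subtype_rng.2 ?_
  simp only [smul_val, hw]
  exact (h2 _ p).prodMk_nhds (h2 _ q)

theorem fixes {x : X} (a : x.1.1.1 = 3) (b : x.1.2.1 = 3) :
    FreeGroup.mk [((2 : Fin 4), true), (0, false)] • x = x := by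
  have key : ∀ y : Y, y.1.1 = y.2.1 → 2 ≤ y.1.1 → c y = y := fun y p q => by
    refine c_fix ?_ ?_ <;> rintro ⟨w, rfl⟩
    · exact (by decide : ∀ p, (A p).1 = (A p).2 → ¬ 2 ≤ (A p).1) _ p q
    · exact (by decide : ∀ p, (B p).1 = (B p).2 → ¬ 2 ≤ (B p).1) _ p q
  have p : (g 2 x.1.1).1 = 2 := g_pp 2 _ (by rw [a]; decide)
  have q : (g 2 x.1.2).1 = 2 := g_pp 2 _ (by rw [b]; decide)
  apply Subtype.ext
  rw [smul_val, Φ_cons, Φ_one]
  change c (D (g 0) (c (D (g (0 + 2)) x.1))) = x.1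
  rw [key (D (g (0 + 2)) x.1) (p.trans q.symm) p.ge, ← g_inv, ← Homeomorph.mul_apply (D _),
    ← map_mul, mul_inv_cancel, map_one, Homeomorph.one_apply, key _ (a.trans b.symm) (by rw [a]; decide)]

end Pool.Agent.H69.Bd
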