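import Pool.Agent.H69.BooDefs

set_option autoImplicit false

namespace Pool.Agent.H69.Boo

open unitInterval Set Filter Topology

def Dy (c : ℝ) : Prop := ∃ (k : ℤ) (n : ℕ), c = k / 2 ^ n

lemma Dy.add {a b : ℝ} (ha : Dy a) (hb : Dy b) : Dy (a + b) := by
  obtain ⟨k, n, rfl⟩ := ha
  obtain ⟨l, m, rfl⟩ := hb
  refine ⟨k * 2 ^ m + l * 2 ^ n, n + m, ?_⟩
  push_cast
  field_simp
  ring

lemma Dy.half {a : ℝ} (ha : Dy a) : Dy (a / 2) := by
  obtain ⟨k, n, rfl⟩ := ha
  refine ⟨k, n + 1, ?_⟩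
  field_simp
  ring

lemma exists_dy {x y : ℝ} (h : x < y) : ∃ c, Dy c ∧ x < c ∧ c < y := by
  obtain ⟨n, hn⟩ := pow_unbounded_of_one_lt (y - x)⁻¹ (show (1 : ℝ) < 2 by norm_num)
  have h2 : (0 : ℝ) < 2 ^ n := by positivity
  refine ⟨(⌊x * 2 ^ n⌋ + 1 : ℤ) / 2 ^ n, ⟨_, n, rfl⟩, ?_, ?_⟩
  · rw [lt_div_iff₀ h2]; push_cast; exact Int.lt_floor_add_one _
  · rw [div_lt_iff₀ h2]; push_cast
    have h3 := Int.floor_le (x * 2 ^ n)
    have h4 : 1 < (y - x) * 2 ^ n := by
      rw [inv_lt_iff_one_lt_mul₀' (sub_pos.2 h)] at hn; exact hn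
    nlinarith

noncomputable def phi (a b t : ℝ) : ℝ :=
  max t (min (min (2 * t - a) (t + (b - a) / 4)) ((t + b) / 2))

lemma phi_mono (a b : ℝ) : StrictMono (phi a b) := fun s t h =>
  max_lt_max h (min_lt_min (min_lt_min (by linarith) (by linarith)) (by linarith))

lemma phi_cont (a b : ℝ) : Continuous (phi a b) := by unfold phi; fun_prop

lemma phi_lo {a b t : ℝ} (h : t ≤ a) : phi a b t = t :=
  max_eq_left ((min_le_left _ _).trans ((min_le_left _ _).trans (by linarith)))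

lemma phi_hi {a b t : ℝ} (h : b ≤ t) : phi a b t = t :=
  max_eq_left ((min_le_right _ _).trans (by linarith))

lemma phi_1 {a b t : ℝ} (h1 : a ≤ t) (h2 : t ≤ a + (b - a) / 4) : phi a b t = 2 * t - a := by
  unfold phi
  rw [min_eq_left (a := 2 * t - a) (by linarith), min_eq_left (by linarith),
    max_eq_right (by linarith)]

lemma phi_2 {a b t : ℝ} (h1 : a + (b - a) / 4 ≤ t) (h2 : t ≤ (a + b) / 2) :
    phi a b t = t + (b - a) / 4 := by
  unfold phi
  rw [min_eq_right (a := 2 * t - a) (by linarith), min_eq_left (by linarith),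
    max_eq_right (by linarith)]

lemma phi_3 {a b t : ℝ} (h1 : (a + b) / 2 ≤ t) (h2 : t ≤ b) : phi a b t = (t + b) / 2 := by
  unfold phi
  rw [min_eq_right (le_min (by linarith) (by linarith)), max_eq_right (by linarith)]

lemma phi_gt {a b t : ℝ} (h1 : a < t) (h2 : t < b) : t < phi a b t :=
  lt_max_of_lt_right (lt_min (lt_min (by linarith) (by linarith)) (by linarith))

lemma exists_bump {a b : ℝ} (ha : Dy a) (hb : Dy b) (h0 : 0 ≤ a) (hab : a < b) (h1 : b ≤ 1) :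
    ∃ g : I ≃ₜ I, IsF g ∧ ∀ x : I, (g x : ℝ) = phi a b x := by
  have e0 : phi a b 0 = 0 := phi_lo h0
  have e1 : phi a b 1 = 1 := phi_hi h1
  let f : I → I := fun x => ⟨phi a b x, e0 ▸ (phi_mono a b).monotone x.2.1,
    e1 ▸ (phi_mono a b).monotone x.2.2⟩
  have hf : StrictMono f := fun x y h => phi_mono a b h
  have hs : Function.Surjective f := by
    intro y
    have := intermediate_value_Icc (zero_le_one' ℝ) (phi_cont a b).continuousOn
    rw [e0, e1] at this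
    obtain ⟨x, hx, hxy⟩ := this y.2
    exact ⟨⟨x, hx⟩, Subtype.ext hxy⟩
  refine ⟨(hf.orderIsoOfSurjective f hs).toHomeomorph, ⟨hf, {a, a + (b - a) / 4, (a + b) / 2, b},
    ?_, ?_⟩, fun x => rfl⟩
  · intro c hc
    simp only [Finset.mem_insert, Finset.mem_singleton] at hc
    rcases hc with rfl | rfl | rfl | rfl
    · exact ha
    · have := (ha.add (ha.add hb).half).half
      have e : (a + (a + b) / 2) / 2 = a + (b - a) / 4 := by ring
      rwa [e] at this
    · exact (ha.add hb).half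
    · exact hb
  · intro p q hpq
    change ∃ (k : ℤ) (m : ℝ), ∀ x : I, p ≤ x → x ≤ q → phi a b x = 2 ^ k * x + m
    have c1 := hpq a (by simp)
    have c2 := hpq (a + (b - a) / 4) (by simp)
    have c3 := hpq ((a + b) / 2) (by simp)
    have c4 := hpq b (by simp)
    simp only [mem_Ioo, not_and_or, not_lt] at c1 c2 c3 c4
    rcases c1 with c1 | c1
    · rcases c2 with c2 | c2
      · rcases c3 with c3 | c3
        · rcases c4 with c4 | c4
          · exact ⟨0, 0, fun x h _ => by rw [phi_hi (c4.trans h)]; simp⟩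
          · exact ⟨-1, b / 2, fun x h h' => by
              rw [phi_3 (c3.trans h) (h'.trans c4)]; simp; ring⟩
        · exact ⟨0, (b - a) / 4, fun x h h' => by rw [phi_2 (c2.trans h) (h'.trans c3)]; simp⟩
      · exact ⟨1, -a, fun x h h' => by rw [phi_1 (c1.trans h) (h'.trans c2)]; simp; ring⟩
    · exact ⟨0, 0, fun x _ h' => by rw [phi_lo (h'.trans c1)]; simp⟩

/-- germ at the endpoint `p` -/
def Gm (p : ℝ) (f : I → I) (k : ℤ) : Prop :=
  ∃ ε : ℝ, 0 < ε ∧ ∀ x : I, |x - p| ≤ ε → (f x : ℝ) - p = 2 ^ k * (x - p)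

lemma Gm.comp {p : ℝ} {f g : I → I} {k l : ℤ} (hf : Gm p f k) (hg : Gm p g l) :
    Gm p (fun x => f (g x)) (k + l) := by
  obtain ⟨ε, hε, h1⟩ := hf
  obtain ⟨δ, hδ, h2⟩ := hg
  have hl : (0 : ℝ) < 2 ^ l := by positivity
  refine ⟨min δ (ε / 2 ^ l), by positivity, fun x hx => ?_⟩
  have a1 := h2 x (hx.trans (min_le_left _ _))
  have a2 : |(g x : ℝ) - p| ≤ ε := by
    rw [a1, abs_mul, abs_of_pos hl, ← le_div_iff₀' hl]
    exact hx.trans (min_le_right _ _)
  rw [h1 _ a2, a1, zpow_add₀ two_ne_zero, mul_assoc]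

lemma Gm.inv {p : ℝ} {f g : I → I} {k : ℤ} (hf : Gm p f k) (hg : Continuous g)
    (hp : ∃ x : I, (x : ℝ) = p) (hfg : ∀ x, f (g x) = x) (hgf : ∀ x, g (f x) = x) :
    Gm p g (-k) := by
  obtain ⟨ε, hε, h1⟩ := hf
  obtain ⟨x0, rfl⟩ := hp
  have e0 : f x0 = x0 := by
    have := h1 x0 (by simpa using hε.le)
    rw [sub_self, mul_zero, sub_eq_zero] at this
    exact Subtype.ext this
  have e1 : g x0 = x0 := by rw [← e0, hgf, e0]
  obtain ⟨δ, hδ, h2⟩ := Metric.continuousAt_iff.1 (hg.continuousAt (x := x0)) ε hε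
  refine ⟨δ / 2, by positivity, fun x hx => ?_⟩
  have a1 : dist x x0 < δ := by
    rw [Subtype.dist_eq, Real.dist_eq]; linarith
  have a2 := h2 a1
  rw [e1, Subtype.dist_eq, Real.dist_eq] at a2
  have a3 := h1 _ a2.le
  rw [hfg] at a3
  rw [a3, zpow_neg]
  field_simp

lemma fix0 {g : I ≃ₜ I} (h : StrictMono g) : g 0 = 0 := by
  obtain ⟨y, hy⟩ := g.surjective 0
  exact le_antisymm ((h.monotone (unitInterval.nonneg' (t := y))).trans hy.le) unitInterval.nonneg'

lemma fix1 {g : I ≃ₜ I} (h : StrictMono g) : g 1 = 1 := by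
  obtain ⟨y, hy⟩ := g.surjective 1
  exact le_antisymm unitInterval.le_one' (hy.ge.trans (h.monotone (unitInterval.le_one' (t := y))))

lemma gap (B : Finset ℝ) (p : ℝ) : ∃ ε : ℝ, 0 < ε ∧ ∀ c ∈ B, c ≠ p → ε ≤ |c - p| := by
  classical
  induction B using Finset.induction_on with
  | empty => exact ⟨1, one_pos, by simp⟩
  | insert a s _ ih =>
    obtain ⟨ε, hε, h⟩ := ih
    by_cases ha : a = p
    · refine ⟨ε, hε, fun c hc hcp => ?_⟩
      rcases Finset.mem_insert.1 hc with rfl | hc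
      · exact absurd ha hcp
      · exact h c hc hcp
    · refine ⟨min ε |a - p|, lt_min hε (abs_pos.2 (sub_ne_zero.2 ha)), fun c hc hcp => ?_⟩
      rcases Finset.mem_insert.1 hc with rfl | hc
      · exact min_le_right _ _
      · exact (min_le_left _ _).trans (h c hc hcp)

lemma IsF.germ {g : I ≃ₜ I} (h : IsF g) : (∃ k, Gm 0 g k) ∧ ∃ k, Gm 1 g k := by
  obtain ⟨hm, B, -, hB⟩ := h
  constructor
  · obtain ⟨ε, hε, he⟩ := gap B 0
    obtain ⟨k, m, hk⟩ := hB 0 ε fun c hc hc' => by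
      have := he c hc hc'.1.ne'
      rw [sub_zero, abs_of_pos hc'.1] at this
      linarith [hc'.2]
    have h0 := hk 0 le_rfl hε.le
    rw [fix0 hm] at h0
    simp only [Icc.coe_zero, mul_zero, zero_add] at h0
    refine ⟨k, ε, hε, fun x hx => ?_⟩
    rw [sub_zero] at hx
    rw [hk x x.2.1 ((le_abs_self _).trans hx), ← h0]
    ring
  · obtain ⟨ε, hε, he⟩ := gap B 1
    obtain ⟨k, m, hk⟩ := hB (1 - ε) 1 fun c hc hc' => by
      have := he c hc hc'.2.ne
      rw [abs_of_neg (by linarith [hc'.2])] at this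
      linarith [hc'.1]
    have h0 := hk 1 (by simp [hε.le]) le_rfl
    rw [fix1 hm] at h0
    simp only [Icc.coe_one, mul_one] at h0
    refine ⟨k, ε, hε, fun x hx => ?_⟩
    rw [hk x (by linarith [neg_abs_le ((x : ℝ) - 1)]) x.2.2]
    linarith

lemma mem_F {g : I ≃ₜ I} (hg : g ∈ F) : StrictMono g ∧ (∃ k, Gm 0 g k) ∧ ∃ k, Gm 1 g k := by
  induction hg using Subgroup.closure_induction with
  | mem x hx => exact ⟨hx.1, hx.germ⟩
  | one => exact ⟨strictMono_id, ⟨0, 1, one_pos, fun x _ => by simp⟩,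
      ⟨0, 1, one_pos, fun x _ => by simp⟩⟩
  | mul x y _ _ hx hy =>
    obtain ⟨a1, ⟨k, a2⟩, k', a3⟩ := hx
    obtain ⟨b1, ⟨l, b2⟩, l', b3⟩ := hy
    exact ⟨a1.comp b1, ⟨_, a2.comp b2⟩, _, a3.comp b3⟩
  | inv x _ hx =>
    obtain ⟨a1, ⟨k, a2⟩, k', a3⟩ := hx
    refine ⟨fun s t h => ?_, ⟨_, a2.inv x.symm.continuous ⟨0, rfl⟩ x.apply_symm_apply
      x.symm_apply_apply⟩, _, a3.inv x.symm.continuous ⟨1, rfl⟩ x.apply_symm_apply
      x.symm_apply_apply⟩
    apply a1.lt_iff_lt.1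
    change x (x.symm s) < x (x.symm t)
    simpa using h

end Pool.Agent.H69.Boo
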