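import Pool.Agent.H69.Boo1

set_option autoImplicit false

namespace Pool.Agent.H69.Boo

open unitInterval Set Filter Topology

def ap (g : F) (x : I) : I := g.1 x

lemma ap_mul (g h : F) (x : I) : ap (g * h) x = ap g (ap h x) := rfl
@[simp] lemma ap_one (x : I) : ap 1 x = x := rfl
@[simp] lemma ap_inv_ap (g : F) (x : I) : ap g⁻¹ (ap g x) = x := by rw [← ap_mul]; simp
@[simp] lemma ap_ap_inv (g : F) (x : I) : ap g (ap g⁻¹ x) = x := by rw [← ap_mul]; simp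
lemma ap_ext {g h : F} (e : ∀ x, ap g x = ap h x) : g = h := Subtype.ext (Homeomorph.ext e)
lemma ap_mono (g : F) : StrictMono (ap g) := (mem_F g.2).1
lemma ap_cont (g : F) : Continuous (ap g) := g.1.continuous
lemma ap_zero (g : F) : ap g 0 = 0 := fix0 (ap_mono g)
lemma ap_top (g : F) : ap g 1 = 1 := fix1 (ap_mono g)

def Sp (U : Set I) : Subgroup F where
  carrier := {g | ∀ x, x ∉ U → ap g x = x}
  one_mem' := fun _ _ => rfl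
  mul_mem' := fun {a b} ha hb x hx => by rw [ap_mul, hb x hx, ha x hx]
  inv_mem' := fun {a} ha x hx => by
    conv_lhs => rw [← ha x hx]
    exact ap_inv_ap a x

lemma Sp_mem {U : Set I} {g : F} (hg : g ∈ Sp U) {x : I} (hx : x ∈ U) : ap g x ∈ U := by
  by_contra h
  have := (ap_mono g).injective (hg _ h)
  exact h (by rwa [this])

lemma Sp_mono {U V : Set I} (h : U ⊆ V) : Sp U ≤ Sp V := fun _ hg x hx => hg x fun h' => hx (h h')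

lemma Sp_comm {U V : Set I} (h : Disjoint U V) {g k : F} (hg : g ∈ Sp U) (hk : k ∈ Sp V) :
    Commute g k := by
  refine ap_ext fun x => ?_
  rw [ap_mul, ap_mul]
  by_cases h1 : x ∈ U
  · rw [hk x (disjoint_left.1 h h1), hk _ (disjoint_left.1 h (Sp_mem hg h1))]
  · rw [hg x h1]
    by_cases h2 : x ∈ V
    · exact hg _ (disjoint_right.1 h (Sp_mem hk h2))
    · rw [hk x h2, hg x h1]

lemma Sp_conj {U V : Set I} {g : F} (hg : g ∈ Sp U) (k : F) (h : ∀ x ∈ U, ap k x ∈ V) :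
    k * g * k⁻¹ ∈ Sp V := by
  intro x hx
  rw [ap_mul, ap_mul, hg _ fun h' => hx (by simpa using h _ h'), ap_ap_inv]

lemma conj_agree {J : Set I} {e g θ : F} (hθ : θ ∈ Sp J) (h : ∀ y ∈ J, ap e y = ap g y) :
    e * θ * e⁻¹ = g * θ * g⁻¹ := by
  have h1 : g⁻¹ * e ∈ Sp Jᶜ := fun x hx => by
    rw [ap_mul, h x (not_not.1 hx), ap_inv_ap]
  have h2 := (Sp_comm disjoint_compl_right hθ h1).eq
  calc e * θ * e⁻¹ = g * (g⁻¹ * e * θ) * e⁻¹ := by group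
    _ = _ := by rw [← h2]; group

lemma map_Ioo (k : F) {a b x : I} (hx : x ∈ Ioo a b) : ap k x ∈ Ioo (ap k a) (ap k b) :=
  ⟨ap_mono k hx.1, ap_mono k hx.2⟩

lemma disj {a b c d : I} (h : b ≤ c) : Disjoint (Ioo a b) (Ioo c d) :=
  disjoint_left.2 fun _ h1 h2 => absurd (h1.2.trans_le h) (not_lt.2 h2.1.le)

variable {D : Subgroup F}

lemma eta (hD : Boomerang D) {δ : F} (hδ : δ ∈ D) (γ : F) :
    ∃ n : ℕ, 1 ≤ n ∧ δ⁻¹ * (γ ^ n)⁻¹ * δ * γ ^ n ∈ D := by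
  obtain ⟨n, hn, h, -⟩ := hD γ {δ} ∅ (by simpa using hδ) (by simp)
  obtain ⟨d, hd, e⟩ := h δ (by simp)
  refine ⟨n, hn, ?_⟩
  have : δ⁻¹ * (γ ^ n)⁻¹ * δ * γ ^ n = δ⁻¹ * d := by
    rw [mul_assoc, mul_assoc, mul_right_inj]
    conv_lhs => rw [e]
    group
  rw [this]
  exact D.mul_mem (D.inv_mem hδ) hd

lemma two (hD : Boomerang D) {δ : F} (hδ : δ ∈ D) {x0 : I} (hx : x0 < ap δ x0) {γ1 γ2 : F}
    (h1 : γ1 ∈ Sp (Ioo x0 (ap δ x0))) (h2 : γ2 ∈ Sp (Ioo x0 (ap δ x0))) :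
    ∃ n : ℕ, 1 ≤ n ∧ ∃ e1 ∈ D, ∃ e2 ∈ D, ∀ y ∈ Ioo x0 (ap δ x0),
      ap e1 y = ap (γ1 ^ n) y ∧ ap e2 y = ap (γ2 ^ n) y := by
  set x1 := ap δ x0 with hx1
  set x2 := ap δ x1 with hx2
  set x3 := ap δ x2 with hx3
  have l12 : x1 < x2 := ap_mono δ hx
  have l23 : x2 < x3 := ap_mono δ l12
  have m2 : ∀ y ∈ Ioo x0 x1, ap (δ * δ) y ∈ Ioo x2 x3 := fun y hy => map_Ioo δ (map_Ioo δ hy)
  have h2' : δ * δ * γ2 * (δ * δ)⁻¹ ∈ Sp (Ioo x2 x3) := Sp_conj h2 _ m2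
  have hc := Sp_comm (disj l12.le) h1 h2'
  obtain ⟨n, hn, hη⟩ := eta hD hδ (γ1 * (δ * δ * γ2 * (δ * δ)⁻¹))
  rw [hc.mul_pow, conj_pow] at hη
  have p1 := (Sp _).pow_mem h1 n
  have p2 := (Sp _).pow_mem h2 n
  have p2' : δ * δ * γ2 ^ n * (δ * δ)⁻¹ ∈ Sp (Ioo x2 x3) := Sp_conj p2 _ m2
  set g := γ1 ^ n * (δ * δ * γ2 ^ n * (δ * δ)⁻¹) with hg
  have hgi : g⁻¹ ∈ Sp (Ioo x0 x1 ∪ Ioo x2 x3) := (Sp _).inv_mem
    ((Sp _).mul_mem (Sp_mono subset_union_left p1) (Sp_mono subset_union_right p2'))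
  refine ⟨n, hn, _, hη, (δ * δ)⁻¹ * (δ⁻¹ * g⁻¹ * δ * g) * (δ * δ),
    D.mul_mem (D.mul_mem (D.inv_mem (D.mul_mem hδ hδ)) hη) (D.mul_mem hδ hδ), fun y hy => ⟨?_, ?_⟩⟩
  · have a1 : ap g y = ap (γ1 ^ n) y := by
      rw [hg, ap_mul, p2' y (disjoint_left.1 (disj l12.le) hy)]
    have a2 := map_Ioo δ (Sp_mem p1 hy)
    rw [ap_mul, ap_mul, ap_mul, a1, hgi _ ?_, ap_inv_ap]
    rintro (h | h)
    · exact absurd (h.2.trans a2.1) (lt_irrefl _)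
    · exact absurd (a2.2.trans h.1) (lt_irrefl _)
  · have a0 := m2 _ (Sp_mem p2 hy)
    have a1 : ap g (ap (δ * δ) y) = ap (δ * δ) (ap (γ2 ^ n) y) := by
      rw [hg, ap_mul, ap_mul, ap_mul, ap_inv_ap, p1 _ (disjoint_right.1 (disj l12.le) a0)]
    have a2 := map_Ioo δ a0
    rw [ap_mul, ap_mul (δ * δ)⁻¹, ap_mul _ g, a1, ap_mul _ δ, ap_mul δ⁻¹, hgi _ ?_, ap_inv_ap,
      ap_inv_ap]
    rintro (h | h)
    · exact absurd ((h.2.trans (l12.trans l23)).trans a2.1) (lt_irrefl _)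
    · exact absurd (h.2.trans a2.1) (lt_irrefl _)

lemma comm_pow (hD : Boomerang D) {δ : F} (hδ : δ ∈ D) {x0 : I} (hx : x0 < ap δ x0) {γ1 γ2 : F}
    (h1 : γ1 ∈ Sp (Ioo x0 (ap δ x0))) (h2 : γ2 ∈ Sp (Ioo x0 (ap δ x0))) :
    ∃ n m : ℕ, 1 ≤ n ∧ 1 ≤ m ∧ γ1 ^ n * γ2 ^ m * (γ1 ^ n)⁻¹ * (γ2 ^ m)⁻¹ ∈ D := by
  obtain ⟨n, hn, e1⟩ := eta hD hδ γ1
  obtain ⟨m, hm, e2⟩ := eta hD (D.inv_mem hδ) γ2
  refine ⟨n, m, hn, hm, ?_⟩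
  have p1 := (Sp _).pow_mem h1 n
  have p2 := (Sp _).pow_mem h2 m
  set a := γ1 ^ n
  set b := γ2 ^ m
  have u1 : δ⁻¹ * a⁻¹ * δ⁻¹⁻¹ ∈ Sp (Ioo (ap δ⁻¹ x0) x0) :=
    Sp_conj ((Sp _).inv_mem p1) _ fun y hy => by simpa using map_Ioo δ⁻¹ hy
  have u2 : δ * b⁻¹ * δ⁻¹ ∈ Sp (Ioo (ap δ x0) (ap δ (ap δ x0))) :=
    Sp_conj ((Sp _).inv_mem p2) _ fun y hy => map_Ioo δ hy
  rw [inv_inv] at u1 e2
  set u := δ⁻¹ * a⁻¹ * δ
  set v := δ * b⁻¹ * δ⁻¹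
  have c1 := Sp_comm (disj le_rfl) u1 p1
  have c2 := Sp_comm (disj le_rfl) u1 p2
  have c3 := Sp_comm (disj hx.le) u1 u2
  have c4 := Sp_comm (disj le_rfl) p1 u2
  have c5 := Sp_comm (disj le_rfl) p2 u2
  have := D.mul_mem (D.mul_mem (D.mul_mem e1 e2) (D.inv_mem e1)) (D.inv_mem e2)
  have k1 : u * (a * v * b * a⁻¹) = (a * v * b * a⁻¹) * u :=
    (((c1.mul_right c3).mul_right c2).mul_right c1.inv_right).eq
  have k2 : (a * b * a⁻¹ * b⁻¹) * v = v * (a * b * a⁻¹ * b⁻¹) :=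
    (((c4.mul_left c5).mul_left c4.inv_left).mul_left c5.inv_left).eq
  have e : u * a * (v * b) * (u * a)⁻¹ * (v * b)⁻¹ = a * b * a⁻¹ * b⁻¹ := by
    calc u * a * (v * b) * (u * a)⁻¹ * (v * b)⁻¹
        = (u * (a * v * b * a⁻¹)) * u⁻¹ * b⁻¹ * v⁻¹ := by group
      _ = (a * v) * b * a⁻¹ * b⁻¹ * v⁻¹ := by rw [k1]; group
      _ = (v * (a * b * a⁻¹ * b⁻¹)) * v⁻¹ := by rw [c4.eq]; group
      _ = _ := by rw [← k2]; group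
  rwa [e] at this

lemma bump {a b : I} (ha : Dy a) (hb : Dy b) (hab : a < b) :
    ∃ g : F, g ∈ Sp (Ioo a b) ∧ (∀ x ∈ Ioo a b, x < ap g x) ∧
      ∀ x : I, (ap g x : ℝ) = phi a b x := by
  obtain ⟨g, hg, h⟩ := exists_bump ha hb a.2.1 hab b.2.2
  refine ⟨⟨g, Subgroup.subset_closure hg⟩, fun x hx => Subtype.ext ?_, fun x hx => ?_, h⟩
  · change (g x : ℝ) = x
    rw [h]
    simp only [mem_Ioo, not_and_or, not_lt] at hx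
    rcases hx with hx | hx
    · exact phi_lo hx
    · exact phi_hi hx
  · change (x : ℝ) < g x
    rw [h]
    exact phi_gt hx.1 hx.2

lemma exists_dy' {x y : I} (h : x < y) : ∃ c : I, Dy c ∧ x < c ∧ c < y := by
  obtain ⟨c, h1, h2, h3⟩ := exists_dy (show (x : ℝ) < y from h)
  exact ⟨⟨c, x.2.1.trans h2.le, h3.le.trans y.2.2⟩, h1, h2, h3⟩

lemma up_pow {g : F} {a b : I} (hg : g ∈ Sp (Ioo a b)) (hu : ∀ x ∈ Ioo a b, x < ap g x)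
    (n : ℕ) (x : I) : x ≤ ap (g ^ n) x := by
  induction n with
  | zero => simp
  | succ n ih =>
    rw [pow_succ', ap_mul]
    refine ih.trans ?_
    by_cases h : ap (g ^ n) x ∈ Ioo a b
    · exact (hu _ h).le
    · exact (hg _ h).ge

lemma up_pow' {g : F} {a b : I} (hg : g ∈ Sp (Ioo a b)) (hu : ∀ x ∈ Ioo a b, x < ap g x)
    {n : ℕ} (hn : 1 ≤ n) {x : I} (hx : x ∈ Ioo a b) : x < ap (g ^ n) x := by
  obtain ⟨m, rfl⟩ := Nat.exists_eq_add_of_le' hn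
  rw [pow_succ, ap_mul]
  exact (hu x hx).trans_le (up_pow hg hu m _)

lemma exists_up {θ : F} (h : θ ≠ 1) : ∃ x, x < ap θ x ∨ x < ap θ⁻¹ x := by
  by_contra hc
  push Not at hc
  refine h (ap_ext fun x => le_antisymm (hc x).1 ?_)
  have := (ap_mono θ).monotone (hc x).2
  simpa using this

/-- a nontrivial boomerang subgroup contains all commutators of elements supported in some
interval -/
theorem local_comm (hD : Boomerang D) {δ : F} (hδ : δ ∈ D) {x0 : I} (hx : x0 < ap δ x0) :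
    ∃ r s : I, r < s ∧ ∀ g ∈ Sp (Ioo r s), ∀ h ∈ Sp (Ioo r s), h * g * h⁻¹ * g⁻¹ ∈ D := by
  obtain ⟨p, dp, p1, p2⟩ := exists_dy' hx
  obtain ⟨q, dq, q1, q2⟩ := exists_dy' p2
  obtain ⟨β, b1, b2, -⟩ := bump dp dq q1
  obtain ⟨r0, -, r1, r2⟩ := exists_dy' q1
  have hr : r0 < ap β r0 := b2 r0 ⟨r1, r2⟩
  have hrq : ap β r0 < q := (Sp_mem b1 ⟨r1, r2⟩).2
  have sU : Ioo p q ⊆ Ioo x0 (ap δ x0) := Ioo_subset_Ioo p1.le q2.le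
  have sJ : Ioo r0 (ap β r0) ⊆ Ioo x0 (ap δ x0) :=
    Ioo_subset_Ioo (p1.trans r1).le (hrq.trans q2).le
  have A : ∀ g ∈ Sp (Ioo r0 (ap β r0)), ∀ θ ∈ D, θ ∈ Sp (Ioo r0 (ap β r0)) →
      g * θ * g⁻¹ ∈ D := by
    intro g hg θ hθ hθ'
    obtain ⟨n, hn, e1, he1, e2, he2, H⟩ := two hD hδ hx (Sp_mono sU b1)
      ((Sp _).mul_mem (Sp_mono sU b1) (Sp_mono sJ hg))
    have k1 : ∀ (m : ℕ) (y : I), ap β r0 ≤ y → ap ((β * g) ^ m) y = ap (β ^ m) y := by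
      intro m
      induction m with
      | zero => intro y _; rfl
      | succ m ih =>
        intro y hy
        rw [pow_succ, pow_succ, ap_mul, ap_mul, ap_mul, hg y (fun h => absurd h.2 (not_lt.2 hy)),
          ih _ (hy.trans (by simpa using up_pow b1 b2 1 y))]
    have k2 : ∀ y ∈ Ioo r0 (ap β r0), ap ((β * g) ^ n) y = ap (β ^ n) (ap g y) := by
      intro y hy
      obtain ⟨m, rfl⟩ := Nat.exists_eq_add_of_le' hn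
      rw [pow_succ, pow_succ, ap_mul, ap_mul, ap_mul, k1 _ _ (ap_mono β (Sp_mem hg hy).1).le]
    rw [← conj_agree (e := e1⁻¹ * e2) hθ' fun y hy => ?_]
    · exact D.mul_mem (D.mul_mem (D.mul_mem (D.inv_mem he1) he2) hθ)
        (D.inv_mem (D.mul_mem (D.inv_mem he1) he2))
    · rw [ap_mul, (H y (sJ hy)).2, k2 y hy, ← (H _ (sJ (Sp_mem hg hy))).1, ap_inv_ap]
  obtain ⟨a, da, a1, a2⟩ := exists_dy' hr
  obtain ⟨b, db, a3, a4⟩ := exists_dy' a2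
  obtain ⟨c, dc, a5, a6⟩ := exists_dy' a4
  obtain ⟨d, dd, a7, a8⟩ := exists_dy' a6
  obtain ⟨γ1, g1, g2, -⟩ := bump da dc (a3.trans a5)
  obtain ⟨γ2, g3, g4, -⟩ := bump db dd (a5.trans a7)
  have s1 : Ioo a c ⊆ Ioo r0 (ap β r0) := Ioo_subset_Ioo a1.le a6.le
  have s2 : Ioo b d ⊆ Ioo r0 (ap β r0) := Ioo_subset_Ioo (a1.trans a3).le a8.le
  obtain ⟨n, m, hn, hm, hθ⟩ := comm_pow hD hδ hx (Sp_mono (s1.trans sJ) g1)
    (Sp_mono (s2.trans sJ) g3)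
  have q1' := (Sp _).pow_mem (Sp_mono s1 g1) n
  have q2' := (Sp _).pow_mem (Sp_mono s2 g3) m
  have hθS : γ1 ^ n * γ2 ^ m * (γ1 ^ n)⁻¹ * (γ2 ^ m)⁻¹ ∈ Sp (Ioo r0 (ap β r0)) :=
    (Sp _).mul_mem ((Sp _).mul_mem ((Sp _).mul_mem q1' q2') ((Sp _).inv_mem q1'))
      ((Sp _).inv_mem q2')
  have hne : γ1 ^ n * γ2 ^ m * (γ1 ^ n)⁻¹ * (γ2 ^ m)⁻¹ ≠ 1 := by
    intro h
    have e : γ1 ^ n * γ2 ^ m = γ2 ^ m * γ1 ^ n := by
      rw [mul_inv_eq_one, mul_inv_eq_iff_eq_mul] at h; exact h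
    have e1 := congrArg (fun g => ap g b) e
    simp only [ap_mul] at e1
    rw [(Sp _).pow_mem g3 m b (fun h => lt_irrefl _ h.1)] at e1
    have f1 := up_pow' g1 g2 hn (x := b) ⟨a3, a5⟩
    have f2 := (Sp_mem ((Sp _).pow_mem g1 n) (x := b) ⟨a3, a5⟩).2
    exact absurd e1 (up_pow' g3 g4 hm ⟨f1, f2.trans a7⟩).ne
  have B : ∀ θ ∈ D, θ ∈ Sp (Ioo r0 (ap β r0)) → ∀ x, x < ap θ x →
      ∀ g ∈ Sp (Ioo x (ap θ x)), ∀ h ∈ Sp (Ioo x (ap θ x)), h * g * h⁻¹ * g⁻¹ ∈ D := by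
    intro θ hθ hθ' x hx g hg h hh
    have xJ : x ∈ Ioo r0 (ap β r0) := by
      by_contra hc
      exact absurd (hθ' x hc) hx.ne'
    have s3 : Ioo x (ap θ x) ⊆ Ioo r0 (ap β r0) := Ioo_subset_Ioo xJ.1.le (Sp_mem hθ' xJ).2.le
    have gJ := Sp_mono s3 hg
    have κ1 : g * θ * g⁻¹ * θ⁻¹ ∈ D := D.mul_mem (A g gJ θ hθ hθ') (D.inv_mem hθ)
    have κ2 : g * θ * g⁻¹ * θ⁻¹ ∈ Sp (Ioo r0 (ap β r0)) :=
      (Sp _).mul_mem ((Sp _).mul_mem ((Sp _).mul_mem gJ hθ') ((Sp _).inv_mem gJ))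
        ((Sp _).inv_mem hθ')
    have κ3 := D.mul_mem (A h (Sp_mono s3 hh) _ κ1 κ2) (D.inv_mem κ1)
    have v1 : θ * g⁻¹ * θ⁻¹ ∈ Sp (Ioo (ap θ x) (ap θ (ap θ x))) :=
      Sp_conj ((Sp _).inv_mem hg) _ fun y hy => map_Ioo θ hy
    have c1 := (Sp_comm (disj le_rfl) hh v1).inv_left.eq
    have e : h * (g * θ * g⁻¹ * θ⁻¹) * h⁻¹ * (g * θ * g⁻¹ * θ⁻¹)⁻¹ = h * g * h⁻¹ * g⁻¹ := by
      calc h * (g * θ * g⁻¹ * θ⁻¹) * h⁻¹ * (g * θ * g⁻¹ * θ⁻¹)⁻¹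
          = h * g * ((θ * g⁻¹ * θ⁻¹) * h⁻¹) * (θ * g⁻¹ * θ⁻¹)⁻¹ * g⁻¹ := by group
        _ = _ := by rw [← c1]; group
    rwa [e] at κ3
  obtain ⟨x, hx | hx⟩ := exists_up hne
  · exact ⟨x, _, hx, B _ hθ hθS x hx⟩
  · exact ⟨x, _, hx, B _ (D.inv_mem hθ) ((Sp _).inv_mem hθS) x hx⟩

end Pool.Agent.H69.Boo
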