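import Pool.Agent.H69.Boo2

set_option autoImplicit false

namespace Pool.Agent.H69.Boo

open unitInterval Set Filter Topology

lemma pow_iter (g : F) (n : ℕ) (x : I) : ap (g ^ n) x = (ap g)^[n] x := by
  induction n with
  | zero => rfl
  | succ n ih => rw [pow_succ', ap_mul, ih, Function.iterate_succ_apply']

lemma escape_up {g : F} {y r : I} (h : ∀ z, y ≤ z → z ≤ r → z < ap g z) :
    ∃ n : ℕ, r < ap (g ^ n) y := by
  by_contra hc
  push Not at hc
  simp only [pow_iter] at hc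
  have hm : Monotone fun n => (ap g)^[n] y :=
    (ap_mono g).monotone.monotone_iterate_of_le_map (h y le_rfl (hc 0)).le
  have ht := tendsto_atTop_iSup hm
  have hf := isFixedPt_of_tendsto_iterate ht (ap_cont g).continuousAt
  exact (h _ (le_iSup (fun n => (ap g)^[n] y) 0) (iSup_le hc)).ne' hf

lemma escape_down {g : F} {y r : I} (h : ∀ z, r ≤ z → z ≤ y → ap g z < z) :
    ∃ n : ℕ, ap (g ^ n) y < r := by
  by_contra hc
  push Not at hc
  simp only [pow_iter] at hc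
  have hm : Antitone fun n => (ap g)^[n] y :=
    (ap_mono g).monotone.antitone_iterate_of_map_le (h y (hc 0) le_rfl).le
  have ht := tendsto_atTop_iInf hm
  have hf := isFixedPt_of_tendsto_iterate ht (ap_cont g).continuousAt
  exact (h _ (le_iInf hc) (iInf_le (fun n => (ap g)^[n] y) 0)).ne hf

lemma dy0 : Dy ((0 : I) : ℝ) := ⟨0, 0, by simp⟩
lemma dy1 : Dy ((1 : I) : ℝ) := ⟨1, 0, by simp⟩

lemma shrink {r s u v : I} (hrs : r < s) (hu : 0 < u) (hv : v < 1) :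
    ∃ γ : F, ∀ n : ℕ, 1 ≤ n → ∀ y ∈ Ioo u v, ap (γ ^ n) y ∈ Ioo r s := by
  obtain ⟨c, dc, c1, c2⟩ := exists_dy' hrs
  have c0 : 0 < c := lt_of_le_of_lt unitInterval.nonneg' c1
  have c3 : c < 1 := lt_of_lt_of_le c2 unitInterval.le_one'
  obtain ⟨β, b1, b2, -⟩ := bump dy0 dc c0
  obtain ⟨β', b3, b4, -⟩ := bump dc dy1 c3
  have b3' := (Sp _).inv_mem b3
  have lo : ∀ z, z ≤ c → ap (β * β'⁻¹) z = ap β z := fun z hz => by
    rw [ap_mul, b3' z fun h => absurd h.1 (not_lt.2 hz)]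
  have fc : ap (β * β'⁻¹) c = c := by rw [lo c le_rfl, b1 c fun h => lt_irrefl _ h.2]
  have up : ∀ z, 0 < z → z < c → z < ap (β * β'⁻¹) z := fun z h1 h2 => by
    rw [lo z h2.le]; exact b2 z ⟨h1, h2⟩
  have dn : ∀ z, c < z → z < 1 → ap (β * β'⁻¹) z < z := fun z h1 h2 => by
    have k := Sp_mem b3' (x := z) ⟨h1, h2⟩
    rw [ap_mul, b1 _ fun h => absurd (h.2.trans k.1) (lt_irrefl _)]
    simpa using b4 _ k
  set α := β * β'⁻¹
  have st1 : ∀ z, r < z → r < ap α z := fun z hz => by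
    rcases lt_or_ge z c with h | h
    · exact hz.trans (up z (lt_of_le_of_lt unitInterval.nonneg' hz) h)
    · exact c1.trans_le (fc.ge.trans ((ap_mono α).monotone h))
  have st2 : ∀ z, z < s → ap α z < s := fun z hz => by
    rcases lt_or_ge c z with h | h
    · exact (dn z h (lt_of_lt_of_le hz unitInterval.le_one')).trans hz
    · exact (((ap_mono α).monotone h).trans fc.le).trans_lt c2
  have it1 : ∀ (m : ℕ) z, r < z → r < ap (α ^ m) z := by
    intro m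
    induction m with
    | zero => exact fun z hz => hz
    | succ m ih => exact fun z hz => by rw [pow_succ', ap_mul]; exact st1 _ (ih z hz)
  have it2 : ∀ (m : ℕ) z, z < s → ap (α ^ m) z < s := by
    intro m
    induction m with
    | zero => exact fun z hz => hz
    | succ m ih => exact fun z hz => by rw [pow_succ', ap_mul]; exact st2 _ (ih z hz)
  obtain ⟨n1, h1⟩ := escape_up (g := α) (y := u) (r := r) fun z a b =>
    up z (hu.trans_le a) (b.trans_lt c1)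
  obtain ⟨n2, h2⟩ := escape_down (g := α) (y := v) (r := s) fun z a b =>
    dn z (c2.trans_le a) (b.trans_lt hv)
  refine ⟨α ^ (n1 + n2), fun n hn y hy => ?_⟩
  obtain ⟨m, rfl⟩ := Nat.exists_eq_add_of_le' hn
  rw [← pow_mul]
  constructor
  · rw [show (n1 + n2) * (m + 1) = ((n1 + n2) * m + n2) + n1 by ring, pow_add, ap_mul]
    exact it1 _ _ (h1.trans (ap_mono _ hy.1))
  · rw [show (n1 + n2) * (m + 1) = ((n1 + n2) * m + n1) + n2 by ring, pow_add, ap_mul]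
    exact it2 _ _ ((ap_mono _ hy.2).trans h2)

/-- compactly supported elements -/
def Cs : Subgroup F where
  carrier := {g | ∃ u v : I, 0 < u ∧ v < 1 ∧ g ∈ Sp (Ioo u v)}
  one_mem' := ⟨1, 0, one_pos, one_pos, (Sp _).one_mem⟩
  mul_mem' := by
    rintro a b ⟨u, v, h1, h2, h3⟩ ⟨u', v', h4, h5, h6⟩
    exact ⟨min u u', max v v', lt_min h1 h4, max_lt h2 h5, (Sp _).mul_mem
      (Sp_mono (Ioo_subset_Ioo (min_le_left _ _) (le_max_left _ _)) h3)
      (Sp_mono (Ioo_subset_Ioo (min_le_right _ _) (le_max_right _ _)) h6)⟩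
  inv_mem' := by
    rintro a ⟨u, v, h1, h2, h3⟩
    exact ⟨u, v, h1, h2, (Sp _).inv_mem h3⟩

instance : Cs.Normal := ⟨by
  rintro g ⟨u, v, h1, h2, h3⟩ f
  refine ⟨ap f u, ap f v, ?_, ?_, Sp_conj h3 f fun y hy => map_Ioo f hy⟩
  · simpa [ap_zero] using ap_mono f h1
  · simpa [ap_top] using ap_mono f h2⟩

variable {D : Subgroup F}

theorem comm_Cs (hD : Boomerang D) (hne : D ≠ ⊥) {g h : F} (hg : g ∈ Cs) (hh : h ∈ Cs) :
    h * g * h⁻¹ * g⁻¹ ∈ D := by
  obtain ⟨⟨δ, hδ⟩, hδ1⟩ := (Subgroup.ne_bot_iff_exists_ne_one.1 hne)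
  have hδ2 : δ ≠ 1 := fun e => hδ1 (Subtype.ext e)
  obtain ⟨r, s, hrs, H⟩ : ∃ r s : I, r < s ∧ ∀ g ∈ Sp (Ioo r s), ∀ h ∈ Sp (Ioo r s),
      h * g * h⁻¹ * g⁻¹ ∈ D := by
    obtain ⟨x, hx | hx⟩ := exists_up hδ2
    · exact local_comm hD hδ hx
    · exact local_comm hD (D.inv_mem hδ) hx
  obtain ⟨u, v, h1, h2, h3⟩ := hg
  obtain ⟨u', v', h4, h5, h6⟩ := hh
  obtain ⟨γ, hγ⟩ := shrink hrs (lt_min h1 h4) (max_lt h2 h5)
  by_contra hc
  obtain ⟨n, hn, -, hB⟩ := hD γ⁻¹ ∅ {h * g * h⁻¹ * g⁻¹} (by simp) (by simpa using hc)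
  refine hB _ (Finset.mem_singleton_self _) ⟨_, H _ (Sp_conj h3 (γ ^ n) fun y hy => hγ n hn y
    (Ioo_subset_Ioo (min_le_left _ _) (le_max_left _ _) hy)) _ (Sp_conj h6 (γ ^ n) fun y hy =>
    hγ n hn y (Ioo_subset_Ioo (min_le_right _ _) (le_max_right _ _) hy)), ?_⟩
  rw [inv_pow]
  group

lemma Gm.zpow {p : ℝ} (hp : ∃ x : I, (x : ℝ) = p) {g : F} {k : ℤ} (h : Gm p (ap g) k) (n : ℤ) :
    Gm p (ap (g ^ n)) (n * k) := by
  have hn : ∀ m : ℕ, Gm p (ap (g ^ m)) (m * k) := by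
    intro m
    induction m with
    | zero => exact ⟨1, one_pos, fun x _ => by simp⟩
    | succ m ih =>
      have := ih.comp h
      rw [pow_succ]
      push_cast
      rw [add_mul, one_mul]
      exact this
  obtain ⟨m, rfl | rfl⟩ := Int.eq_nat_or_neg n
  · simpa using hn m
  · rw [zpow_neg, zpow_natCast, neg_mul]
    exact (hn m).inv (ap_cont _) hp (ap_ap_inv _) (ap_inv_ap _)

lemma mem_Cs {g : F} (h0 : Gm 0 (ap g) 0) (h1 : Gm 1 (ap g) 0) : g ∈ Cs := by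
  obtain ⟨ε, hε, a⟩ := h0
  obtain ⟨δ, hδ, b⟩ := h1
  refine ⟨⟨min ε 1, by positivity, min_le_right _ _⟩,
    ⟨1 - min δ 1, by linarith [min_le_right δ 1], by
      have : 0 < min δ 1 := by positivity
      linarith⟩, ?_, ?_, fun x hx => Subtype.ext ?_⟩
  · change (0 : ℝ) < min ε 1
    positivity
  · change 1 - min δ 1 < (1 : ℝ)
    have : 0 < min δ 1 := by positivity
    linarith
  · simp only [mem_Ioo, not_and_or, not_lt] at hx
    rcases hx with hx | hx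
    · have hx' : (x : ℝ) ≤ min ε 1 := hx
      have := a x (by rw [sub_zero, abs_of_nonneg x.2.1]; exact hx'.trans (min_le_left _ _))
      simpa using this
    · have hx' : 1 - min δ 1 ≤ (x : ℝ) := hx
      have := b x (by
        rw [abs_of_nonpos (by linarith [x.2.2])]; linarith [min_le_left δ 1])
      simpa using this

lemma ends {c0 c1 : I} (d0 : Dy c0) (d1 : Dy c1) (h0 : 0 < c0) (h01 : c0 ≤ c1) (h1 : c1 < 1) :
    ∃ x y : F, x ∈ Sp (Ioo 0 c0) ∧ y ∈ Sp (Ioo c1 1) ∧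
      ∀ f : F, ∃ i j : ℤ, x ^ i * y ^ j * f ∈ Cs := by
  obtain ⟨x, x1, -, x2⟩ := bump dy0 d0 h0
  obtain ⟨y, y1, -, y2⟩ := bump d1 dy1 h1
  have h0' : (0 : ℝ) < c0 := h0
  have h1' : (c1 : ℝ) < 1 := h1
  have h01' : (c0 : ℝ) ≤ c1 := h01
  have gx0 : Gm 0 (ap x) 1 := ⟨c0 / 4, by positivity, fun t ht => by
    rw [sub_zero, abs_of_nonneg t.2.1] at ht
    rw [x2, phi_1 (by simpa using t.2.1) (by simpa using ht)]; simp⟩
  have gx1 : Gm 1 (ap x) 0 := ⟨1 - c1, by linarith, fun t ht => by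
    rw [x2, phi_hi (by linarith [neg_abs_le ((t : ℝ) - 1)])]; simp⟩
  have gy0 : Gm 0 (ap y) 0 := ⟨c0, h0', fun t ht => by
    rw [y2, phi_lo (by linarith [le_abs_self ((t : ℝ) - 0)])]; simp⟩
  have gy1 : Gm 1 (ap y) (-1) := ⟨(1 - c1) / 2, by linarith, fun t ht => by
    rw [y2, phi_3 (by simp only [Icc.coe_one]; linarith [neg_abs_le ((t : ℝ) - 1)])
      (by simpa using t.2.2)]
    simp only [Icc.coe_one, zpow_neg, zpow_one]; ring⟩
  refine ⟨x, y, x1, y1, fun f => ?_⟩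
  obtain ⟨-, ⟨k, hk⟩, l, hl⟩ := mem_F f.2
  refine ⟨-k, l, mem_Cs ?_ ?_⟩
  · have := ((gx0.zpow ⟨0, rfl⟩ (-k)).comp (gy0.zpow ⟨0, rfl⟩ l)).comp hk
    simpa using! this
  · have := ((gx1.zpow ⟨1, rfl⟩ (-k)).comp (gy1.zpow ⟨1, rfl⟩ l)).comp hl
    simpa using! this

lemma conj_Cs (f : F) {g : F} (hg : g ∈ Cs) : ∃ f' ∈ Cs, f * g * f⁻¹ = f' * g * f'⁻¹ := by
  obtain ⟨u, v, h1, h2, h3⟩ := Subgroup.Normal.conj_mem inferInstance g hg f
  obtain ⟨c0, d0, a1, a2⟩ := exists_dy' (lt_min h1 (show (0 : I) < 1 from one_pos))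
  obtain ⟨c1, d1, a3, a4⟩ := exists_dy' (max_lt h2 (a2.trans_le (min_le_right _ _)))
  obtain ⟨x, y, x1, y1, H⟩ := ends d0 d1 a1 ((le_max_right _ _).trans a3.le) a4
  obtain ⟨i, j, hij⟩ := H f
  refine ⟨_, hij, ?_⟩
  have c1 := Sp_comm (disj (a2.le.trans (min_le_left _ _))) ((Sp _).zpow_mem x1 i) h3
  have c2 := Sp_comm (disj ((le_max_left _ _).trans a3.le)) h3 ((Sp _).zpow_mem y1 j)
  have c3 := (c1.mul_left c2.symm).eq
  calc f * g * f⁻¹ = (f * g * f⁻¹) * (x ^ i * y ^ j) * (x ^ i * y ^ j)⁻¹ := by group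
    _ = _ := by rw [← c3]; group

theorem main (hD : Boomerang D) : D.Normal := by
  by_cases hne : D = ⊥
  · rw [hne]; infer_instance
  have hK : ⁅Cs, Cs⁆ ≤ D := Subgroup.commutator_le.2 fun h hh g hg => comm_Cs hD hne hg hh
  let π := QuotientGroup.mk' ⁅Cs, Cs⁆
  have cen : ∀ f : F, ∀ g ∈ Cs, Commute (π f) (π g) := by
    intro f g hg
    obtain ⟨f', hf', e⟩ := conj_Cs f hg
    have h1 : π (f' * g * f'⁻¹ * g⁻¹) = 1 :=
      (QuotientGroup.eq_one_iff _).2 (Subgroup.commutator_mem_commutator hf' hg)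
    rw [← e, map_mul, map_mul, map_mul, map_inv, map_inv, mul_inv_eq_one,
      mul_inv_eq_iff_eq_mul] at h1
    exact h1
  obtain ⟨c, dc, c0, c1⟩ := exists_dy' (show (0 : I) < 1 from one_pos)
  obtain ⟨x, y, x1, y1, H⟩ := ends dc dc c0 le_rfl c1
  have hxy := Sp_comm (disj le_rfl) x1 y1
  have ab : ∀ a b : F, Commute (π a) (π b) := by
    intro a b
    obtain ⟨i, j, h1⟩ := H a
    obtain ⟨k, l, h2⟩ := H b
    have ea : a = (x ^ i * y ^ j)⁻¹ * (x ^ i * y ^ j * a) := by group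
    have eb : b = (x ^ k * y ^ l)⁻¹ * (x ^ k * y ^ l * b) := by group
    have c3 : Commute (x ^ i * y ^ j)⁻¹ (x ^ k * y ^ l)⁻¹ :=
      ((((Commute.refl x).zpow_zpow i k).mul_right (hxy.zpow_zpow i l)).mul_left
        ((hxy.symm.zpow_zpow j k).mul_right ((Commute.refl y).zpow_zpow j l))).inv_inv
    rw [ea, map_mul]
    refine Commute.mul_left ?_ (cen _ _ h1).symm
    rw [eb, map_mul]
    exact (c3.map π).mul_right (cen _ _ h2)
  refine ⟨fun d hd f => ?_⟩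
  have h1 : f * d * f⁻¹ * d⁻¹ ∈ ⁅Cs, Cs⁆ := by
    rw [← QuotientGroup.eq_one_iff]
    change π _ = 1
    rw [map_mul, map_mul, map_mul, map_inv, map_inv, (ab f d).eq]
    group
  have := D.mul_mem (hK h1) hd
  simpa using this

end Pool.Agent.H69.Boo
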