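import Mathlib

set_option autoImplicit false

namespace Pool.Agent.H69.Boo

open unitInterval

/-- `g` is increasing and piecewise linear with finitely many breakpoints, all dyadic, and all
slopes integer powers of two -/
def IsF (g : I ≃ₜ I) : Prop :=
  StrictMono g ∧ ∃ B : Finset ℝ, (∀ c ∈ B, ∃ (k : ℤ) (n : ℕ), c = k / 2 ^ n) ∧
    ∀ a b : ℝ, (∀ c ∈ B, c ∉ Set.Ioo a b) →
      ∃ (k : ℤ) (m : ℝ), ∀ x : I, a ≤ x → x ≤ b → (g x : ℝ) = 2 ^ k * x + m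

/-- Thompson's group `F`, inside the group of self-homeomorphisms of `[0,1]` -/
def F : Subgroup (I ≃ₜ I) := Subgroup.closure {g | IsF g}

/-- every element of `G` is a recurrent direction for `D` -/
def Boomerang {G : Type} [Group G] (D : Subgroup G) : Prop :=
  ∀ (γ : G) (A B : Finset G), (∀ a ∈ A, a ∈ D) → (∀ b ∈ B, b ∉ D) →
    ∃ n : ℕ, 1 ≤ n ∧ (∀ a ∈ A, ∃ d ∈ D, a = γ ^ n * d * (γ ^ n)⁻¹) ∧
      ∀ b ∈ B, ¬ ∃ d ∈ D, b = γ ^ n * d * (γ ^ n)⁻¹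

end Pool.Agent.H69.Boo
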