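import Mathlib

namespace Pool.Agent.H69.CB

variable {V V' : Type*}

/-- A ray: an injective sequence of consecutively adjacent vertices. -/
def IsRay (Γ : SimpleGraph V) (r : ℕ → V) : Prop :=
  Function.Injective r ∧ ∀ n, Γ.Adj (r n) (r (n + 1))

/-- Two rays belong to the same end: no finite vertex set separates their tails. -/
def SameEnd (Γ : SimpleGraph V) (r s : ℕ → V) : Prop :=
  ∀ K : Set V, K.Finite → ∃ N, ∀ n ≥ N, ∃ w : Γ.Walk (r n) (s n), ∀ v ∈ w.support, v ∉ K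

/-- `F` and its complement are connected and no end can be reached from both. -/
def CConnected (Γ : SimpleGraph V) (F : Set V) : Prop :=
  (Γ.induce F).Connected ∧ (Γ.induce Fᶜ).Connected ∧
    ¬ ∃ r s : ℕ → V, IsRay Γ r ∧ IsRay Γ s ∧ (∀ n, r n ∈ F) ∧ (∀ n, s n ∈ Fᶜ) ∧ SameEnd Γ r s

/-- The `r`-neighbourhood of a vertex set. -/
def nbhd (Γ : SimpleGraph V) (r : ℕ) (K : Set V) : Set V := {x | ∃ k ∈ K, Γ.dist x k ≤ r}

/-- Property `CB_r`. -/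
def CBr (Γ : SimpleGraph V) (r : ℕ) : Prop :=
  ∀ F : Set V, CConnected Γ F → (Γ.induce (nbhd Γ (r + 1) F \ F)).Connected

/-- The graph has connected boundaries. -/
def ConnectedBoundaries (Γ : SimpleGraph V) : Prop := ∃ r, CBr Γ r

/-- Bi-Lipschitz equivalence of the graph metrics. -/
def BiLipschitz (Γ : SimpleGraph V) (Γ' : SimpleGraph V') : Prop :=
  ∃ (f : V ≃ V') (L : ℝ), 1 ≤ L ∧ ∀ x y,
    (Γ.dist x y : ℝ) / L ≤ Γ'.dist (f x) (f y) ∧ (Γ'.dist (f x) (f y) : ℝ) ≤ L * Γ.dist x y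

/-- Quasi-isometry of the graph metrics. -/
def QuasiIsometric (Γ : SimpleGraph V) (Γ' : SimpleGraph V') : Prop :=
  ∃ (f : V → V') (L C : ℝ), 1 ≤ L ∧ 0 ≤ C ∧
    (∀ x y, (Γ.dist x y : ℝ) / L - C ≤ Γ'.dist (f x) (f y) ∧
      (Γ'.dist (f x) (f y) : ℝ) ≤ L * Γ.dist x y + C) ∧
    ∀ y, ∃ x, (Γ'.dist y (f x) : ℝ) ≤ C

end Pool.Agent.H69.CB
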