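import Mathlib
import Pool.Agent.H69.CBDefs

namespace Pool.Agent.H69.CB

open Filter

variable {V V' : Type*} {Γ : SimpleGraph V}

def R (Γ : SimpleGraph V) (S : Set V) (x y : V) : Prop :=
  Relation.ReflTransGen (fun a b => Γ.Adj a b ∧ a ∈ S ∧ b ∈ S) x y

theorem R.rfl {S : Set V} {x : V} : R Γ S x x := Relation.ReflTransGen.refl

theorem R.trans {S : Set V} {x y z : V} (h : R Γ S x y) (h' : R Γ S y z) : R Γ S x z :=
  Relation.ReflTransGen.trans h h'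

theorem R.single {S : Set V} {x y : V} (h : Γ.Adj x y) (hx : x ∈ S) (hy : y ∈ S) : R Γ S x y :=
  Relation.ReflTransGen.single ⟨h, hx, hy⟩

theorem R.ind {S : Set V} {x y : V} (h : R Γ S x y) (P : V → Prop) (hx : P x)
    (hs : ∀ a b, Γ.Adj a b → a ∈ S → b ∈ S → P a → P b) : P y := by
  induction h with
  | refl => exact hx
  | tail _ h ih => exact hs _ _ h.1 h.2.1 h.2.2 ih

theorem R.symm {S : Set V} {x y : V} (h : R Γ S x y) : R Γ S y x :=
  h.ind (fun y => R Γ S y x) R.rfl (fun _ _ h ha hb ih => (R.single h.symm hb ha).trans ih)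

theorem R.mono {S T : Set V} {x y : V} (h : R Γ S x y) (hST : S ⊆ T) : R Γ T x y :=
  h.ind (fun y => R Γ T x y) R.rfl (fun _ _ h ha hb ih => ih.trans (R.single h (hST ha) (hST hb)))

theorem R.mem {S : Set V} {x y : V} (h : R Γ S x y) (hx : x ∈ S) : y ∈ S :=
  h.ind (· ∈ S) hx (fun _ _ _ _ hb _ => hb)

/-- a chain from `x` stays in the component of `x` -/
theorem R.comp {S : Set V} {x y : V} (h : R Γ S x y) : R Γ {z | R Γ S x z} x y :=
  h.ind (fun y => R Γ S x y ∧ R Γ {z | R Γ S x z} x y) ⟨R.rfl, R.rfl⟩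
    (fun _ _ h ha hb ih => ⟨ih.1.trans (R.single h ha hb),
      ih.2.trans (R.single h ih.1 (ih.1.trans (R.single h ha hb)))⟩) |>.2

theorem R.walk {S : Set V} {x y : V} (h : R Γ S x y) (hx : x ∈ S) :
    ∃ w : Γ.Walk x y, ∀ v ∈ w.support, v ∈ S :=
  h.ind (fun y => ∃ w : Γ.Walk x y, ∀ v ∈ w.support, v ∈ S) ⟨.nil, by simpa using hx⟩
    (fun _ _ h _ hb ⟨w, hw⟩ => ⟨w.concat h, by
      intro v hv
      simp only [SimpleGraph.Walk.support_concat, List.concat_eq_append, List.mem_append,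
        List.mem_singleton] at hv
      rcases hv with hv | rfl
      · exact hw v hv
      · exact hb⟩)

theorem R.ofInduce {S : Set V} {T : Set S} {x y : S} (h : R (Γ.induce S) T x y) :
    R Γ (Subtype.val '' T) x.1 y.1 :=
  h.ind (fun y => R Γ (Subtype.val '' T) x.1 y.1) R.rfl
    (fun a b h ha hb ih => ih.trans (R.single h ⟨a, ha, Eq.refl _⟩ ⟨b, hb, Eq.refl _⟩))

theorem reach {x y : V} (h : Γ.Reachable x y) : R Γ Set.univ x y := by
  rw [SimpleGraph.reachable_iff_reflTransGen] at h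
  induction h with
  | refl => exact R.rfl
  | tail _ h ih => exact ih.trans (R.single h trivial trivial)

def Con (Γ : SimpleGraph V) (S : Set V) : Prop := S.Nonempty ∧ ∀ x ∈ S, ∀ y ∈ S, R Γ S x y

theorem con_iff {S : Set V} : (Γ.induce S).Connected ↔ Con Γ S := by
  constructor
  · intro h
    refine ⟨Set.nonempty_coe_sort.1 h.nonempty, fun x hx y hy => ?_⟩
    exact (reach (h.preconnected ⟨x, hx⟩ ⟨y, hy⟩)).ofInduce.mono (by simp)
  · rintro ⟨h1, h2⟩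
    haveI := h1.coe_sort
    refine ⟨fun x y => ?_⟩
    have := (h2 x x.2 y y.2).ind (fun z => ∀ hz : z ∈ S, (Γ.induce S).Reachable x ⟨z, hz⟩)
      (fun _ => SimpleGraph.Reachable.refl _)
      (fun a b h ha hb ih _ => (ih ha).trans (SimpleGraph.Adj.reachable h))
    exact this y.2

theorem con_of {S : Set V} (x : V) (hx : x ∈ S) (h : ∀ y ∈ S, R Γ S x y) : Con Γ S :=
  ⟨⟨x, hx⟩, fun a ha b hb => (h a ha).symm.trans (h b hb)⟩

theorem con_comp (S : Set V) (x : V) : Con Γ {z | R Γ S x z} :=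
  con_of x R.rfl (fun _ hy => R.comp hy)

theorem step (hc : Γ.Connected) {x y : V} {n : ℕ} (h : Γ.dist x y = n + 1) :
    ∃ z, Γ.Adj x z ∧ Γ.dist z y = n := by
  obtain ⟨p, hp⟩ := hc.exists_walk_length_eq_dist x y
  cases p with
  | nil => simp at h
  | @cons _ z _ a p =>
    refine ⟨_, a, le_antisymm ?_ ?_⟩
    · have := SimpleGraph.dist_le p
      simp only [SimpleGraph.Walk.length_cons] at hp
      omega
    · have := hc.dist_triangle (u := x) (w := y) (v := z)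
      rw [SimpleGraph.dist_eq_one_iff_adj.2 a] at this
      omega

theorem tri (hc : Γ.Connected) (x y z : V) : Γ.dist x z ≤ Γ.dist x y + Γ.dist y z :=
  hc.dist_triangle

theorem d1 {x y : V} (h : Γ.Adj x y) : Γ.dist x y = 1 := SimpleGraph.dist_eq_one_iff_adj.2 h

theorem d0 (hc : Γ.Connected) {x y : V} (h : Γ.dist x y = 0) : x = y := hc.dist_eq_zero_iff.1 h

theorem ball_fin (hc : Γ.Connected) (hl : ∀ v, (Γ.neighborSet v).Finite) (y : V) (n : ℕ) :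
    {x | Γ.dist x y ≤ n}.Finite := by
  induction n with
  | zero => exact (Set.finite_singleton y).subset (fun x hx => d0 hc (by simpa using hx))
  | succ n ih =>
    refine (ih.union (ih.biUnion (fun z _ => hl z))).subset (fun x hx => ?_)
    by_cases h : Γ.dist x y ≤ n
    · exact Or.inl h
    · obtain ⟨z, h1, h2⟩ := step hc (x := x) (y := y) (n := n) (by simp at hx; omega)
      exact Or.inr (Set.mem_biUnion (show z ∈ {x | Γ.dist x y ≤ n} from h2.le) h1.symm)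

/-- endpoints of boundary edges -/
def bd (Γ : SimpleGraph V) (X : Set V) : Set V := {u | ∃ v, Γ.Adj u v ∧ ¬ (u ∈ X ↔ v ∈ X)}

theorem cross (hc : Γ.Connected) (X : Set V) (n : ℕ) : ∀ x y, Γ.dist x y ≤ n →
    ¬ (x ∈ X ↔ y ∈ X) → ∃ u ∈ bd Γ X, Γ.dist x u ≤ n := by
  induction n with
  | zero =>
    intro x y h h'
    rw [d0 hc (Nat.le_zero.1 h)] at h'
    simp at h'
  | succ n ih =>
    intro x y h h'
    by_cases h1 : Γ.dist x y ≤ n
    · obtain ⟨u, a, b⟩ := ih x y h1 h'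
      exact ⟨u, a, by omega⟩
    obtain ⟨z, a1, a2⟩ := step hc (x := x) (y := y) (n := n) (by omega)
    by_cases h2 : x ∈ X ↔ z ∈ X
    · obtain ⟨u, a, b⟩ := ih z y a2.le (by tauto)
      have := tri hc x z u
      rw [d1 a1] at this
      exact ⟨u, a, by omega⟩
    · exact ⟨x, ⟨z, a1, h2⟩, by simp⟩

theorem toF (hc : Γ.Connected) (F : Set V) (n : ℕ) : ∀ z, z ∈ nbhd Γ (n + 1) F \ F →
    ∃ v u, v ∉ F ∧ u ∈ F ∧ Γ.Adj v u ∧ Γ.dist z v ≤ n ∧ R Γ (nbhd Γ (n + 1) F \ F) z v := by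
  induction n with
  | zero =>
    rintro z ⟨⟨f, h1, h2⟩, h3⟩
    have : Γ.dist z f ≠ 0 := fun h => h3 (d0 hc h ▸ h1)
    exact ⟨z, f, h3, h1, SimpleGraph.dist_eq_one_iff_adj.1 (by omega), by simp, R.rfl⟩
  | succ n ih =>
    rintro z ⟨⟨f, h1, h2⟩, h3⟩
    have hm : nbhd Γ (n + 1) F \ F ⊆ nbhd Γ (n + 1 + 1) F \ F := by
      rintro x ⟨⟨k, a, b⟩, c⟩
      exact ⟨⟨k, a, by omega⟩, c⟩
    by_cases h : Γ.dist z f ≤ n + 1
    · obtain ⟨v, u, a1, a2, a3, a4, a5⟩ := ih z ⟨⟨f, h1, h⟩, h3⟩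
      exact ⟨v, u, a1, a2, a3, by omega, a5.mono hm⟩
    obtain ⟨w, b1, b2⟩ := step hc (x := z) (y := f) (n := n + 1) (by omega)
    by_cases hw : w ∈ F
    · exact ⟨z, w, h3, hw, b1, by simp, R.rfl⟩
    · obtain ⟨v, u, a1, a2, a3, a4, a5⟩ := ih w ⟨⟨f, h1, b2.le⟩, hw⟩
      have := tri hc z w v
      rw [d1 b1] at this
      exact ⟨v, u, a1, a2, a3, by omega, (R.single (S := nbhd Γ (n + 1 + 1) F \ F) b1 ⟨⟨f, h1, h2⟩, h3⟩
        (hm ⟨⟨f, h1, b2.le⟩, hw⟩)).trans (a5.mono hm)⟩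

def Far (Γ : SimpleGraph V) (l : ℕ) (B A : Set V) : Prop :=
  ∀ u ∈ B, ∀ v ∈ B, u ∈ A → v ∉ A → l < Γ.dist u v

def Close (Γ : SimpleGraph V) (l : ℕ) : Prop :=
  ∀ F, Con Γ F → Con Γ Fᶜ → (bd Γ F).Finite → ∀ A, Far Γ l (bd Γ F) A →
    ∀ u ∈ bd Γ F, ∀ v ∈ bd Γ F, u ∈ A → v ∈ A

theorem cconn_of_fin {F : Set V} (h1 : Con Γ F) (h2 : Con Γ Fᶜ) (h3 : (bd Γ F).Finite) :
    CConnected Γ F := by
  refine ⟨con_iff.2 h1, con_iff.2 h2, ?_⟩
  rintro ⟨r, s, -, -, a1, a2, a3⟩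
  obtain ⟨N, hN⟩ := a3 _ h3
  obtain ⟨w, hw⟩ := hN N le_rfl
  have : ∀ (x y : V) (w : Γ.Walk x y), (∀ v ∈ w.support, v ∉ bd Γ F) → x ∈ F → y ∈ F := by
    intro x y w
    induction w with
    | nil => exact fun _ h => h
    | cons a p ih =>
      intro h hx
      refine ih (fun v hv => h v (by simp [hv])) ?_
      by_contra hc
      exact h _ (SimpleGraph.Walk.start_mem_support _) ⟨_, a, by tauto⟩
  exact a2 N (this _ _ w hw (a1 N))

theorem close_of_cb (hc : Γ.Connected) {r : ℕ} (h : CBr Γ r) : Close Γ (2 * r + 1) := by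
  intro F h1 h2 h3 A hA
  have hW := con_iff.1 (h F (cconn_of_fin h1 h2 h3))
  have out : ∀ u ∈ bd Γ F, ∃ v ∈ bd Γ F, v ∈ nbhd Γ (r + 1) F \ F ∧ (u ∈ A ↔ v ∈ A) := by
    rintro u ⟨v, a1, a2⟩
    by_cases hu : u ∈ F
    · have hv : v ∈ bd Γ F := ⟨u, a1.symm, by tauto⟩
      refine ⟨v, hv, ⟨⟨u, hu, by rw [d1 a1.symm]; omega⟩, by tauto⟩, ?_⟩
      have e1 := hA u ⟨v, a1, a2⟩ v hv
      have e2 := hA v hv u ⟨v, a1, a2⟩
      rw [d1 a1] at e1
      rw [d1 a1.symm] at e2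
      by_cases p : u ∈ A <;> by_cases q : v ∈ A
      · tauto
      · have := e1 p q; omega
      · have := e2 q p; omega
      · tauto
    · exact ⟨u, ⟨v, a1, a2⟩, ⟨⟨v, by tauto, by rw [d1 a1]; omega⟩, hu⟩, Iff.rfl⟩
  intro u hu v hv huA
  obtain ⟨u', a1, a2, a3⟩ := out u hu
  obtain ⟨v', b1, b2, b3⟩ := out v hv
  rw [b3]
  obtain ⟨e, c1, c2, c3⟩ := (hW.2 u' a2 v' b2).ind
    (fun z => ∃ e ∈ bd Γ F, e ∈ A ∧ Γ.dist z e ≤ r) ⟨u', a1, a3.1 huA, by simp⟩ (by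
      rintro a b hab - hb ⟨e, c1, c2, c3⟩
      obtain ⟨p, q, d1', d2, d3, d4, -⟩ := toF hc F r b hb
      have hp : p ∈ bd Γ F := ⟨q, d3, by tauto⟩
      refine ⟨p, hp, ?_, d4⟩
      by_contra hn
      have e1 := hA e c1 p hp c2 hn
      have e2 := tri hc e a p
      have e3 := tri hc a b p
      rw [d1 hab] at e3
      rw [SimpleGraph.dist_comm] at c3
      omega)
  by_contra hn
  have e1 := hA e c1 v' b1 c2 hn
  rw [SimpleGraph.dist_comm] at c3
  omega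

theorem compl_comp (hc : Γ.Connected) {K : Set V} (hK : Con Γ K) {v : V} (hv : v ∉ K) :
    Con Γ {z | R Γ Kᶜ v z}ᶜ := by
  obtain ⟨k, hk⟩ := hK.1
  have hsub : K ⊆ {z | R Γ Kᶜ v z}ᶜ := fun x hx h => (R.mem h hv) hx
  refine con_of k (hsub hk) (fun y hy => ?_)
  have := (reach (hc.preconnected k y)).ind
    (fun z => z ∈ {z | R Γ Kᶜ v z}ᶜ → R Γ {z | R Γ Kᶜ v z}ᶜ k z) (fun _ => R.rfl) (by
      intro a b hab _ _ ih hb
      by_cases ha : a ∈ {z | R Γ Kᶜ v z}ᶜ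
      · exact (ih ha).trans (R.single hab ha hb)
      · have ha' : R Γ Kᶜ v a := not_not.1 ha
        have : b ∈ K := by
          by_contra hbK
          exact hb (ha'.trans (R.single hab (ha'.mem hv) hbK))
        exact (hK.2 k hk b this).mono hsub)
  exact this hy

theorem ray (hc : Γ.Connected) (hl : ∀ v, (Γ.neighborSet v).Finite) {I : Type*}
    (U : Ultrafilter I) (a : I → V) (ha : ∀ x, ∀ᶠ i in U, a i ≠ x) :
    ∃ r : ℕ → V, IsRay Γ r ∧ ∀ K : Set V, K.Finite → ∃ N, ∀ n ≥ N, r n ∉ K ∧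
      ∀ᶠ i in U, R Γ Kᶜ (r n) (a i) := by
  obtain ⟨o⟩ := hc.nonempty
  let Q : ℕ → V → Prop := fun n x => Γ.dist o x = n ∧
    ∀ᶠ i in U, Γ.dist o (a i) = n + Γ.dist x (a i)
  have hs : ∀ n x, Q n x → ∃ z, Γ.Adj x z ∧ Q (n + 1) z := by
    rintro n x ⟨h1, h2⟩
    have : ∀ᶠ i in U, ∃ z ∈ Γ.neighborSet x, Γ.dist o (a i) = n + 1 + Γ.dist z (a i) := by
      filter_upwards [h2, ha x] with i b1 b2
      obtain ⟨z, c1, c2⟩ := step hc (x := x) (y := a i) (n := Γ.dist x (a i) - 1) (by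
        have : Γ.dist x (a i) ≠ 0 := fun h => b2 (d0 hc h).symm
        omega)
      have : Γ.dist x (a i) ≠ 0 := fun h => b2 (d0 hc h).symm
      exact ⟨z, c1, by omega⟩
    obtain ⟨z, c1, c2⟩ := (Ultrafilter.eventually_exists_mem_iff (hl x)).1 this
    refine ⟨z, c1, ?_, c2⟩
    obtain ⟨i, hi⟩ := c2.exists
    have e1 := tri hc o z (a i)
    have e2 := tri hc o x z
    rw [d1 c1] at e2
    omega
  choose! f hf1 hf2 using hs
  let r : ℕ → V := fun n => Nat.rec o f n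
  have hr : ∀ n, Q n (r n) := by
    intro n
    induction n with
    | zero => exact ⟨by simp [r], by simp [r]⟩
    | succ n ih => exact hf2 n _ ih
  have geo : ∀ (y : V) (N m : ℕ) (x : V), Γ.dist x y = m → N ≤ Γ.dist o x →
      Γ.dist o y = Γ.dist o x + m → R Γ {z | N ≤ Γ.dist o z} x y := by
    intro y N m
    induction m with
    | zero => intro x h _ _; rw [d0 hc h]; exact R.rfl
    | succ m ih =>
      intro x h1 h2 h3
      obtain ⟨z, c1, c2⟩ := step hc h1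
      have e1 := tri hc o z y
      have e2 := tri hc o x z
      rw [d1 c1] at e2
      exact (R.single c1 h2 (show N ≤ Γ.dist o z by omega)).trans (ih z c2 (by omega) (by omega))
  refine ⟨r, ⟨fun n m e => by rw [← (hr n).1, e, (hr m).1], fun n => hf1 n _ (hr n)⟩,
    fun K hK => ?_⟩
  obtain ⟨M, hM⟩ := (hK.image (Γ.dist o)).bddAbove
  have hKM : {z | M + 1 ≤ Γ.dist o z} ⊆ Kᶜ := fun z hz hzK => by
    have := hM ⟨z, hzK, rfl⟩
    simp only [Set.mem_ofPred_eq] at hz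
    omega
  refine ⟨M + 1, fun n hn => ⟨hKM (show M + 1 ≤ _ by rw [(hr n).1]; exact hn), ?_⟩⟩
  filter_upwards [(hr n).2] with i hi
  exact (geo _ _ _ _ rfl (by rw [(hr n).1]; exact hn) (by rw [(hr n).1]; exact hi)).mono hKM

theorem ray' (hl : ∀ v, (Γ.neighborSet v).Finite) {F : Set V} (hc : (Γ.induce F).Connected)
    {I : Type*} (U : Ultrafilter I) (a : I → V) (haF : ∀ i, a i ∈ F)
    (ha : ∀ x, ∀ᶠ i in U, a i ≠ x) :
    ∃ r : ℕ → V, IsRay Γ r ∧ (∀ n, r n ∈ F) ∧ ∀ K : Set V, K.Finite → ∃ N, ∀ n ≥ N, r n ∉ K ∧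
      ∀ᶠ i in U, R Γ Kᶜ (r n) (a i) := by
  obtain ⟨r, ⟨h1, h2⟩, h3⟩ := ray hc (fun v => ((hl v.1).preimage
    Subtype.val_injective.injOn).subset (fun w hw => hw)) U (fun i => ⟨a i, haF i⟩)
    (fun x => (ha x.1).mono (fun i hi e => hi (congrArg Subtype.val e)))
  refine ⟨fun n => (r n).1, ⟨Subtype.val_injective.comp h1, h2⟩, fun n => (r n).2, fun K hK => ?_⟩
  obtain ⟨N, hN⟩ := h3 _ (hK.preimage Subtype.val_injective.injOn)
  refine ⟨N, fun n hn => ⟨(hN n hn).1, (hN n hn).2.mono (fun i hi => hi.ofInduce.mono ?_)⟩⟩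
  rintro _ ⟨x, hx, rfl⟩
  exact hx

theorem fin_of_cconn (hl : ∀ v, (Γ.neighborSet v).Finite) {F : Set V} (h : CConnected Γ F) :
    (bd Γ F).Finite := by
  obtain ⟨h1, h2, h3⟩ := h
  let E : Set (V × V) := {p | Γ.Adj p.1 p.2 ∧ p.1 ∈ F ∧ p.2 ∉ F}
  by_cases hE : E.Finite
  · refine ((hE.image Prod.fst).union (hE.image Prod.snd)).subset ?_
    rintro u ⟨v, a1, a2⟩
    by_cases hu : u ∈ F
    · exact Or.inl ⟨(u, v), ⟨a1, hu, by tauto⟩, rfl⟩
    · exact Or.inr ⟨(v, u), ⟨a1.symm, by tauto, hu⟩, rfl⟩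
  exfalso
  haveI : Infinite E := Set.infinite_coe_iff.2 hE
  let U := hyperfilter E
  have ev : ∀ x, (∀ᶠ i : E in U, i.1.1 ≠ x) ∧ (∀ᶠ i : E in U, i.1.2 ≠ x) := by
    intro x
    constructor
    · refine Set.Finite.compl_mem_hyperfilter (s := {i : E | i.1.1 = x}) ?_
      refine (((Set.finite_singleton x).prod (hl x)).preimage Subtype.val_injective.injOn).subset ?_
      rintro ⟨⟨u, v⟩, h⟩ rfl
      exact ⟨rfl, h.1⟩
    · refine Set.Finite.compl_mem_hyperfilter (s := {i : E | i.1.2 = x}) ?_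
      refine (((hl x).prod (Set.finite_singleton x)).preimage Subtype.val_injective.injOn).subset ?_
      rintro ⟨⟨u, v⟩, h⟩ rfl
      exact ⟨h.1.symm, rfl⟩
  obtain ⟨r, a1, a2, a3⟩ := ray' hl h1 U (fun i => i.1.1) (fun i => i.2.2.1) (fun x => (ev x).1)
  obtain ⟨s, b1, b2, b3⟩ := ray' hl h2 U (fun i => i.1.2) (fun i => i.2.2.2) (fun x => (ev x).2)
  refine h3 ⟨r, s, a1, b1, a2, b2, fun K hK => ?_⟩
  obtain ⟨N, hN⟩ := a3 K hK
  obtain ⟨M, hM⟩ := b3 K hK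
  refine ⟨max N M, fun n hn => ?_⟩
  obtain ⟨c1, c2⟩ := hN n (le_of_max_le_left hn)
  obtain ⟨e1, e2⟩ := hM n (le_of_max_le_right hn)
  obtain ⟨i, f1, f2⟩ := (c2.and e2).exists
  exact (f1.trans ((R.single i.2.1 (f1.mem c1) (f2.mem e1)).trans f2.symm)).walk c1

theorem cb_of_close (hc : Γ.Connected) (hl : ∀ v, (Γ.neighborSet v).Finite) {l0 l : ℕ}
    (h : Close Γ l0) (hl0 : l0 < l) : CBr Γ (l + 1) := by
  intro F hF
  have hfin := fin_of_cconn hl hF
  have h1 := con_iff.1 hF.1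
  have h2 := con_iff.1 hF.2.1
  obtain ⟨f0, hf0⟩ := h1.1
  obtain ⟨g0, hg0⟩ := h2.1
  have hm : nbhd Γ (l + 1) F \ F ⊆ nbhd Γ (l + 1 + 1) F \ F := by
    rintro x ⟨⟨k, a, b⟩, c⟩
    exact ⟨⟨k, a, by omega⟩, c⟩
  obtain ⟨v1, u1, a1, a2, a3, -, -⟩ := toF hc F (Γ.dist g0 f0) g0 ⟨⟨f0, hf0, by omega⟩, hg0⟩
  have hv1 : v1 ∈ nbhd Γ (l + 1) F \ F := ⟨⟨u1, a2, by rw [d1 a3]; omega⟩, a1⟩
  rw [con_iff]
  refine con_of v1 (hm hv1) (fun y hy => ?_)
  obtain ⟨v2, u2, b1, b2, b3, -, b5⟩ := toF hc F (l + 1) y hy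
  refine R.trans ?_ b5.symm
  by_contra hn
  set W := nbhd Γ (l + 1 + 1) F \ F with hW
  let D : Set V := {z | R Γ W v1 z ∧ z ∈ nbhd Γ (l + 1) F \ F}
  have hK : Con Γ (F ∪ D) := by
    refine con_of f0 (Or.inl hf0) ?_
    rintro z (hz | hz)
    · exact (h1.2 f0 hf0 z hz).mono Set.subset_union_left
    · obtain ⟨v, u, c1, c2, c3, -, c5⟩ := toF hc F l z hz.2
      have c6 : R Γ D z v := c5.comp.mono (fun w hw =>
        ⟨hz.1.trans (R.mono hw hm), R.mem hw hz.2⟩)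
      exact (((h1.2 f0 hf0 u c2).mono Set.subset_union_left).trans
        (R.single c3.symm (Or.inl c2) (Or.inr (c6.mem hz)))).trans
        (c6.symm.mono Set.subset_union_right)
  have hv2 : v2 ∉ F ∪ D := by
    rintro (h | h)
    · exact b1 h
    · exact hn h.1
  set E : Set V := {z | R Γ (F ∪ D)ᶜ v2 z} with hE
  have hEK : ∀ z ∈ E, z ∉ F ∪ D := fun z hz => R.mem hz hv2
  have hstep : ∀ a b, Γ.Adj a b → a ∈ E → b ∉ E → b ∈ F ∪ D := by
    intro a b hab ha hb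
    by_contra hbK
    exact hb (R.trans ha (R.single hab (hEK a ha) hbK))
  have hnear : ∀ z ∈ D, ∃ u ∈ bd Γ F, Γ.dist z u ≤ l := by
    intro z hz
    obtain ⟨v, u, c1, c2, c3, c4, -⟩ := toF hc F l z hz.2
    exact ⟨v, ⟨u, c3, by tauto⟩, c4⟩
  have hEfin : (bd Γ E).Finite := by
    refine (hfin.biUnion (fun u _ => ball_fin hc hl u (l + 1))).subset ?_
    have key : ∀ a b, Γ.Adj a b → a ∈ E → b ∉ E → ∃ u ∈ bd Γ F, Γ.dist b u ≤ l := by
      intro a b hab ha hb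
      rcases hstep a b hab ha hb with h | h
      · exact ⟨b, ⟨a, hab.symm, by have := hEK a ha; simp at this; tauto⟩, by simp⟩
      · exact hnear b h
    rintro a ⟨b, hab, hne⟩
    by_cases ha : a ∈ E
    · obtain ⟨u, c1, c2⟩ := key a b hab ha (by tauto)
      have := tri hc a b u
      rw [d1 hab] at this
      exact Set.mem_biUnion c1 (show Γ.dist a u ≤ l + 1 by omega)
    · obtain ⟨u, c1, c2⟩ := key b a hab.symm (by tauto) ha
      exact Set.mem_biUnion c1 (show Γ.dist a u ≤ l + 1 by omega)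
  have ty : ∀ a b, Γ.Adj a b → a ∈ E → b ∈ D → a ∉ nbhd Γ l F ∧ b ∉ nbhd Γ l F := by
    intro a b hab ha hb
    have e1 : a ∉ nbhd Γ (l + 1) F := by
      intro hh
      have e2 : a ∉ F := fun h => hEK a ha (Or.inl h)
      exact hEK a ha (Or.inr ⟨hb.1.trans (R.single hab.symm (hm hb.2) (hm ⟨hh, e2⟩)), hh, e2⟩)
    constructor
    · rintro ⟨k, c1, c2⟩
      exact e1 ⟨k, c1, by omega⟩
    · rintro ⟨k, c1, c2⟩
      have := tri hc a b k
      rw [d1 hab] at this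
      exact e1 ⟨k, c1, by omega⟩
  have hfar : Far Γ l0 (bd Γ E) (nbhd Γ l F)ᶜ := by
    intro u _ v hv hu hv'
    have hv'' : v ∈ nbhd Γ l F := not_not.1 hv'
    have : v ∈ nbhd Γ 1 F := by
      obtain ⟨b, hab, hne⟩ := hv
      by_cases ha : v ∈ E
      · rcases hstep v b hab ha (by tauto) with h | h
        · exact ⟨b, h, (d1 hab).le⟩
        · exact absurd hv'' (ty v b hab ha h).1
      · rcases hstep b v hab.symm (by tauto) ha with h | h
        · exact ⟨v, h, by simp⟩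
        · exact absurd hv'' (ty b v hab.symm (by tauto) h).2
    obtain ⟨k, c1, c2⟩ := this
    by_contra hh
    have := tri hc u v k
    exact hu ⟨k, c1, by omega⟩
  have hv1D : v1 ∈ D := ⟨R.rfl, hv1⟩
  have ex : ∃ a b, Γ.Adj a b ∧ a ∈ E ∧ b ∈ D := by
    by_contra hh
    have := (h2.2 v2 b1 v1 a1).ind (· ∈ E) R.rfl (by
      intro a b hab _ hb ha
      by_contra hbE
      rcases hstep a b hab ha hbE with h | h
      · exact hb h
      · exact hh ⟨a, b, hab, ha, h⟩)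
    exact hEK _ this (Or.inr hv1D)
  obtain ⟨a, b, c1, c2, c3⟩ := ex
  have hbE : b ∉ E := fun h => hEK b h (Or.inr c3)
  have hv2E : v2 ∈ E := R.rfl
  have hu2E : u2 ∉ E := fun h => hEK u2 h (Or.inl b2)
  exact h E (con_comp _ _) (compl_comp hc hK hv2) hEfin _ hfar a ⟨b, c1, by tauto⟩ v2
    ⟨u2, b3, by tauto⟩ (ty a b c1 c2 c3).1 ⟨u2, b2, by rw [d1 b3]; omega⟩

def Cut (Γ : SimpleGraph V) (l : ℕ) : Prop :=
  ∀ X, (bd Γ X).Finite → ∀ A, Far Γ l (bd Γ X) A → ∃ Z : Set V, ∀ u v, Γ.Adj u v →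
    (¬ (u ∈ Z ↔ v ∈ Z) ↔ (¬ (u ∈ X ↔ v ∈ X) ∧ u ∈ A))

theorem cut_of_close (hc : Γ.Connected) {l : ℕ} (h : Close Γ l) : Cut Γ l := by
  have key : ∀ n, ∀ X, (bd Γ X).Finite →
      {p : V × V | Γ.Adj p.1 p.2 ∧ ¬ (p.1 ∈ X ↔ p.2 ∈ X)}.ncard ≤ n → ∀ A, Far Γ l (bd Γ X) A →
      ∃ Z : Set V, ∀ u v, Γ.Adj u v →
        (¬ (u ∈ Z ↔ v ∈ Z) ↔ (¬ (u ∈ X ↔ v ∈ X) ∧ u ∈ A)) := by
    intro n
    induction n using Nat.strong_induction_on with
    | _ n ih =>
    intro X hX hn A hA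
    have hfin : {p : V × V | Γ.Adj p.1 p.2 ∧ ¬ (p.1 ∈ X ↔ p.2 ∈ X)}.Finite :=
      (hX.prod hX).subset (fun p hp => ⟨⟨p.2, hp⟩, ⟨p.1, hp.1.symm, by have := hp.2; tauto⟩⟩)
    by_cases h0 : ∃ u v, Γ.Adj u v ∧ u ∈ X ∧ v ∉ X
    swap
    · refine ⟨∅, fun u v huv => ?_⟩
      have e1 : ¬ (u ∈ X ∧ v ∉ X) := fun h => h0 ⟨u, v, huv, h⟩
      have e2 : ¬ (v ∈ X ∧ u ∉ X) := fun h => h0 ⟨v, u, huv.symm, h⟩
      simp only [Set.mem_empty_iff_false]
      tauto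
    obtain ⟨u0, v0, a1, a2, a3⟩ := h0
    set K : Set V := {z | R Γ X u0 z} with hK
    have hKX : ∀ z ∈ K, z ∈ X := fun z hz => R.mem hz a2
    have hv0 : v0 ∉ K := fun h => a3 (hKX _ h)
    set D : Set V := {z | R Γ Kᶜ v0 z} with hD
    have hDK : ∀ z ∈ D, z ∉ K := fun z hz => R.mem hz hv0
    have e1 : ∀ a b, Γ.Adj a b → a ∈ D → b ∉ D → a ∉ X ∧ b ∈ X := by
      intro a b hab ha hb
      have : b ∈ K := by
        by_contra hbK
        exact hb (R.trans ha (R.single hab (hDK a ha) hbK))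
      exact ⟨fun haX => hDK a ha (R.trans this (R.single hab.symm (hKX b this) haX)), hKX b this⟩
    have e2 : ∀ a b, Γ.Adj a b → ¬ (a ∈ D ↔ b ∈ D) → ¬ (a ∈ X ↔ b ∈ X) := by
      intro a b hab hne
      have := e1 a b hab
      have := e1 b a hab.symm
      tauto
    have sub1 : bd Γ D ⊆ bd Γ X := fun a ⟨b, h1, h2⟩ => ⟨b, h1, e2 a b h1 h2⟩
    let X' : Set V := {z | ¬ (z ∈ X ↔ z ∈ D)}
    have e3 : ∀ a b, Γ.Adj a b → (¬ (a ∈ X' ↔ b ∈ X') ↔
        (¬ (a ∈ X ↔ b ∈ X) ∧ (a ∈ D ↔ b ∈ D))) := by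
      intro a b hab
      have := e2 a b hab
      simp only [X', Set.mem_ofPred_eq]
      tauto
    have sub2 : bd Γ X' ⊆ bd Γ X := fun a ⟨b, h1, h2⟩ => ⟨b, h1, ((e3 a b h1).1 h2).1⟩
    have hu0 : u0 ∉ D := fun h => hDK _ h R.rfl
    have hv0D : v0 ∈ D := R.rfl
    have lt : {p : V × V | Γ.Adj p.1 p.2 ∧ ¬ (p.1 ∈ X' ↔ p.2 ∈ X')}.ncard <
        {p : V × V | Γ.Adj p.1 p.2 ∧ ¬ (p.1 ∈ X ↔ p.2 ∈ X)}.ncard := by
      refine Set.ncard_lt_ncard ⟨fun p hp => ⟨hp.1, ((e3 _ _ hp.1).1 hp.2).1⟩, fun hh => ?_⟩ hfin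
      have := hh (show (u0, v0) ∈ _ from ⟨a1, by tauto⟩)
      have := ((e3 _ _ a1).1 this.2).2
      tauto
    obtain ⟨Z, hZ⟩ := ih _ (lt_of_lt_of_le lt hn) X' (hX.subset sub2) le_rfl A
      (fun u hu v hv => hA u (sub2 hu) v (sub2 hv))
    have cl := h D (con_comp _ _) (compl_comp hc (con_comp X u0) hv0) (hX.subset sub1) A
      (fun u hu v hv => hA u (sub1 hu) v (sub1 hv))
    have hb0 : u0 ∈ bd Γ D := ⟨v0, a1, by tauto⟩
    refine ⟨{z | ¬ (z ∈ Z ↔ (z ∈ D ∧ u0 ∈ A))}, fun u v huv => ?_⟩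
    have f1 := hZ u v huv
    have f2 := e3 u v huv
    have f3 := e2 u v huv
    have f4 : ¬ (u ∈ D ↔ v ∈ D) → (u ∈ A ↔ u0 ∈ A) := fun hh =>
      ⟨cl u ⟨v, huv, hh⟩ u0 hb0, cl u0 hb0 u ⟨v, huv, hh⟩⟩
    rw [f2] at f1
    simp only [Set.mem_ofPred_eq]
    generalize (u ∈ Z) = p1 at *
    generalize (v ∈ Z) = p2 at *
    generalize (u ∈ D) = p3 at *
    generalize (v ∈ D) = p4 at *
    generalize (u ∈ X) = p5 at *
    generalize (v ∈ X) = p6 at *
    generalize (u ∈ A) = p7 at *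
    generalize (u0 ∈ A) = p8 at *
    clear * - f1 f3 f4
    tauto
  exact fun X hX A hA => key _ X hX le_rfl A hA

theorem close_transfer {Γ' : SimpleGraph V'} (hc : Γ.Connected) (hc' : Γ'.Connected)
    (hl : ∀ v, (Γ.neighborSet v).Finite) (p : V → V') (q : V' → V) (K : ℕ)
    (h1 : ∀ x y, Γ'.dist (p x) (p y) ≤ K * Γ.dist x y + K)
    (h2 : ∀ x y, Γ.dist x y ≤ K * Γ'.dist (p x) (p y) + K)
    (h3 : ∀ y, Γ'.dist y (p (q y)) ≤ K) {l : ℕ} (h : Cut Γ l) : ∃ l', Close Γ' l' := by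
  set K1 := K * (2 * K + 1) + K with hK1
  set ρ := 4 * K + K * K1 with hρ
  refine ⟨2 * ρ + 2 + K * l + 5 * K, fun F c1 c2 c3 A hA => ?_⟩
  let X : Set V := p ⁻¹' F
  have near : ∀ x ∈ bd Γ X, ∃ u ∈ bd Γ' F, Γ'.dist (p x) u ≤ 2 * K := by
    rintro x ⟨x', a1, a2⟩
    refine cross hc' F _ (p x) (p x') ?_ a2
    have := h1 x x'
    rw [d1 a1] at this
    omega
  have hX : (bd Γ X).Finite := by
    refine (c3.biUnion (fun u _ => ball_fin hc hl (q u) (K * (3 * K) + K))).subset (fun x hx => ?_)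
    obtain ⟨u, a1, a2⟩ := near x hx
    refine Set.mem_biUnion a1 (show Γ.dist x (q u) ≤ _ from (h2 _ _).trans ?_)
    have := tri hc' (p x) u (p (q u))
    have := h3 u
    gcongr
    omega
  let B : Set V := {x | ∃ u ∈ bd Γ' F, u ∈ A ∧ Γ'.dist (p x) u ≤ 2 * K}
  have near' : ∀ x ∈ bd Γ X, x ∉ B → ∃ u ∈ bd Γ' F, u ∉ A ∧ Γ'.dist (p x) u ≤ 2 * K := by
    intro x hx hB
    obtain ⟨u, a1, a2⟩ := near x hx
    exact ⟨u, a1, fun h => hB ⟨u, a1, h, a2⟩, a2⟩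
  obtain ⟨Z, hZ⟩ := h X hX B (by
    rintro x - x' hx' ⟨u, a1, a2, a3⟩ hB
    obtain ⟨u', b1, b2, b3⟩ := near' x' hx' hB
    by_contra hh
    have e1 := hA u a1 u' b1 a2 b2
    have e2 := h1 x x'
    have e3 := tri hc' u (p x) u'
    have e4 := tri hc' (p x) (p x') u'
    have e5 : K * Γ.dist x x' ≤ K * l := Nat.mul_le_mul_left _ (by omega)
    rw [SimpleGraph.dist_comm] at a3
    omega)
  have qadj : ∀ y y', Γ'.Adj y y' → Γ.dist (q y) (q y') ≤ K1 := by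
    intro y y' hy
    refine (h2 _ _).trans ?_
    have e1 := tri hc' (p (q y)) y (p (q y'))
    have e2 := tri hc' y y' (p (q y'))
    have e3 := h3 y
    have e4 := h3 y'
    rw [d1 hy] at e2
    rw [SimpleGraph.dist_comm] at e3
    rw [hK1]
    gcongr
    omega
  have back : ∀ y x u, Γ.dist (q y) x ≤ K1 → Γ'.dist (p x) u ≤ 2 * K → Γ'.dist y u ≤ ρ := by
    intro y x u a1 a2
    have e1 := tri hc' y (p (q y)) u
    have e2 := tri hc' (p (q y)) (p x) u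
    have e3 := h3 y
    have e4 := h1 (q y) x
    have e5 : K * Γ.dist (q y) x ≤ K * K1 := Nat.mul_le_mul_left _ a1
    omega
  let ε : V' → Prop := fun y => (∃ u ∈ bd Γ' F, u ∈ A ∧ Γ'.dist y u ≤ K) ∧
    ¬ (y ∈ F ↔ p (q y) ∈ F)
  let Z' : Set V' := {y | ¬ (q y ∈ Z ↔ ε y)}
  have case1 : ∀ y y', Γ'.Adj y y' → (∀ u ∈ bd Γ' F, u ∈ A → ρ + 1 < Γ'.dist y u) →
      (y ∈ Z' ↔ y' ∈ Z') := by
    intro y y' hy hh
    have e1 : ¬ ε y := by
      rintro ⟨⟨u, a1, a2, a3⟩, -⟩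
      have := hh u a1 a2
      omega
    have e2 : ¬ ε y' := by
      rintro ⟨⟨u, a1, a2, a3⟩, -⟩
      have := hh u a1 a2
      have e := tri hc' y y' u
      rw [d1 hy] at e
      omega
    have e3 : q y ∈ Z ↔ q y' ∈ Z := by
      by_contra hn
      obtain ⟨x, ⟨x', a1, a2⟩, a3⟩ := cross hc Z _ _ _ (qadj y y' hy) hn
      obtain ⟨-, u, b1, b2, b3⟩ := (hZ x x' a1).1 a2
      have := hh u b1 b2
      have := back y x u a3 b3
      omega
    simp only [Z', Set.mem_ofPred_eq, e1, e2, e3]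
  have case2 : ∀ y y', Γ'.Adj y y' → (∀ u ∈ bd Γ' F, u ∉ A → ρ + 1 < Γ'.dist y u) →
      ((y ∈ Z' ↔ y' ∈ Z') ↔ (y ∈ F ↔ y' ∈ F)) := by
    intro y y' hy hh
    have e0 : ∀ z, Γ'.dist y z ≤ 1 → (ε z ↔ ¬ (z ∈ F ↔ p (q z) ∈ F)) := by
      intro z hz
      refine ⟨fun h => h.2, fun h => ⟨?_, h⟩⟩
      obtain ⟨u, a1, a2⟩ := cross hc' F _ _ _ (h3 z) h
      refine ⟨u, a1, ?_, a2⟩
      by_contra hn
      have := hh u a1 hn
      have e := tri hc' y z u
      omega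
    have e1 := e0 y (by simp)
    have e2 := e0 y' (d1 hy).le
    have e3 : (q y ∈ Z ↔ p (q y) ∈ F) ↔ (q y' ∈ Z ↔ p (q y') ∈ F) := by
      by_contra hn
      obtain ⟨x, ⟨x', a1, a2⟩, a3⟩ := cross hc {x | x ∈ Z ↔ x ∈ X} _ _ _ (qadj y y' hy) hn
      have f := hZ x x' a1
      simp only [Set.mem_ofPred_eq] at a2
      have f1 : ¬ (x ∈ X ↔ x' ∈ X) ∧ x ∉ B := by
        generalize (x ∈ Z) = p1 at *
        generalize (x' ∈ Z) = p2 at *
        generalize (x ∈ X) = p3 at *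
        generalize (x' ∈ X) = p4 at *
        generalize (x ∈ B) = p5 at *
        clear * - f a2
        tauto
      obtain ⟨u, b1, b2, b3⟩ := near' x ⟨x', a1, f1.1⟩ f1.2
      have := hh u b1 b2
      have := back y x u a3 b3
      omega
    simp only [Z', Set.mem_ofPred_eq]
    rw [e1, e2]
    generalize (q y ∈ Z) = p1 at *
    generalize (q y' ∈ Z) = p2 at *
    generalize (p (q y) ∈ F) = p3 at *
    generalize (p (q y') ∈ F) = p4 at *
    generalize (y ∈ F) = p5 at *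
    generalize (y' ∈ F) = p6 at *
    clear * - e3
    tauto
  have dich : ∀ y, (∀ u ∈ bd Γ' F, u ∈ A → ρ + 1 < Γ'.dist y u) ∨
      (∀ u ∈ bd Γ' F, u ∉ A → ρ + 1 < Γ'.dist y u) := by
    intro y
    by_contra hn
    push Not at hn
    obtain ⟨⟨u, a1, a2, a3⟩, ⟨v, b1, b2, b3⟩⟩ := hn
    have e1 := hA u a1 v b1 a2 b2
    have e2 := tri hc' u y v
    rw [SimpleGraph.dist_comm] at a3
    omega
  have same : ∀ y y', Γ'.Adj y y' → (y ∈ F ↔ y' ∈ F) → (y ∈ Z' ↔ y' ∈ Z') := by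
    intro y y' hy hh
    rcases dich y with d | d
    · exact case1 y y' hy d
    · exact (case2 y y' hy d).2 hh
  have const : ∀ y y', (y ∈ F ↔ y' ∈ F) → (y ∈ Z' ↔ y' ∈ Z') := by
    intro y y' hh
    by_cases hy : y ∈ F
    · exact (c1.2 y hy y' (hh.1 hy)).ind (fun z => y ∈ Z' ↔ z ∈ Z') Iff.rfl
        (fun a b hab ha hb ih => ih.trans (same a b hab (by tauto)))
    · exact (c2.2 y hy y' (fun h => hy (hh.2 h))).ind (fun z => y ∈ Z' ↔ z ∈ Z') Iff.rfl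
        (fun a b hab ha hb ih => ih.trans (same a b hab (by
          have : a ∉ F := ha
          have : b ∉ F := hb
          tauto)))
  rintro u ⟨u', a1, a2⟩ v ⟨v', b1, b2⟩ huA
  by_contra hvA
  have e1 : ¬ (u ∈ Z' ↔ u' ∈ Z') := by
    rcases dich u with d | d
    · have := d u ⟨u', a1, a2⟩ huA
      simp at this
    · rw [case2 u u' a1 d]
      exact a2
  have e2 : (v ∈ Z' ↔ v' ∈ Z') := by
    rcases dich v with d | d
    · exact case1 v v' b1 d
    · have := d v ⟨v', b1, b2⟩ hvA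
      simp at this
  by_cases hh : u ∈ F ↔ v ∈ F
  · have f1 := const u v hh
    have f2 := const u' v' (by tauto)
    tauto
  · have f1 := const u v' (by tauto)
    have f2 := const u' v (by tauto)
    tauto

theorem qi_inv {Γ' : SimpleGraph V'} (hc : Γ.Connected) (hc' : Γ'.Connected)
    (hl : ∀ v, (Γ.neighborSet v).Finite) (hl' : ∀ v, (Γ'.neighborSet v).Finite)
    (hq : QuasiIsometric Γ Γ') (h : ConnectedBoundaries Γ) : ConnectedBoundaries Γ' := by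
  obtain ⟨r, hr⟩ := h
  obtain ⟨p, L, C, h1, h2, h3, h4⟩ := hq
  choose q hq using h4
  obtain ⟨K, hK⟩ := exists_nat_ge (L + C + L * C)
  have hLC : 0 ≤ L * C := by positivity
  obtain ⟨l', hl''⟩ := close_transfer hc hc' hl p q K (fun x y => by
      have := (h3 x y).2
      have e : (L * Γ.dist x y : ℝ) ≤ K * Γ.dist x y := by gcongr; linarith
      exact_mod_cast (show (Γ'.dist (p x) (p y) : ℝ) ≤ K * Γ.dist x y + K by linarith))
    (fun x y => by
      have := (h3 x y).1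
      rw [sub_le_iff_le_add, div_le_iff₀ (by linarith)] at this
      have e : (L * Γ'.dist (p x) (p y) : ℝ) ≤ K * Γ'.dist (p x) (p y) := by gcongr; linarith
      exact_mod_cast (show (Γ.dist x y : ℝ) ≤ K * Γ'.dist (p x) (p y) + K by linarith))
    (fun y => by exact_mod_cast (show (Γ'.dist y (p (q y)) : ℝ) ≤ K by linarith [hq y]))
    (cut_of_close hc (close_of_cb hc hr))
  exact ⟨_, cb_of_close hc' hl' hl'' (Nat.lt_succ_self _)⟩

theorem bl_qi {Γ' : SimpleGraph V'} (h : BiLipschitz Γ Γ') : QuasiIsometric Γ Γ' := by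
  obtain ⟨f, L, h1, h2⟩ := h
  exact ⟨f, L, 0, h1, le_rfl, fun x y => by simpa using h2 x y, fun y => ⟨f.symm y, by simp⟩⟩

section cayley

variable {G : Type*} [Group G]

theorem cay_conn {S : Set G} (hS : Subgroup.closure S = ⊤) :
    (SimpleGraph.mulCayley S).Connected := by
  have : ∀ g : G, (SimpleGraph.mulCayley S).Reachable 1 g := by
    intro g
    have hg : g ∈ Subgroup.closure S := by rw [hS]; trivial
    induction hg using Subgroup.closure_induction_right with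
    | one => rfl
    | mul_right x _ s hs ih =>
      by_cases e : x = x * s
      · rwa [← e]
      · exact ih.trans (SimpleGraph.Adj.reachable
          ((SimpleGraph.mulCayley_adj' _ _ _).2 ⟨e, s, hs, Or.inl rfl⟩))
    | mul_inv_cancel x _ s hs ih =>
      by_cases e : x = x * s⁻¹
      · rwa [← e]
      · exact ih.trans (SimpleGraph.Adj.reachable
          ((SimpleGraph.mulCayley_adj' _ _ _).2 ⟨e, s, hs, Or.inr (by simp)⟩))
  exact ⟨fun x y => (this x).symm.trans (this y)⟩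

theorem cay_fin {S : Set G} (hS : S.Finite) (v : G) :
    ((SimpleGraph.mulCayley S).neighborSet v).Finite := by
  refine ((hS.image (v * ·)).union (hS.image (v * ·⁻¹))).subset (fun w hw => ?_)
  obtain ⟨-, s, hs, h | h⟩ := (SimpleGraph.mulCayley_adj' _ _ _).1 hw
  · exact Or.inl ⟨s, hs, h⟩
  · exact Or.inr ⟨s, hs, by simp [h]⟩

theorem cay_inv {S : Set G} (hS : Subgroup.closure S = ⊤) (g : G) (n : ℕ) : ∀ x y,
    (SimpleGraph.mulCayley S).dist x y = n →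
      (SimpleGraph.mulCayley S).dist (g * x) (g * y) ≤ n := by
  induction n with
  | zero => intro x y h; rw [d0 (cay_conn hS) h]; simp
  | succ n ih =>
    intro x y h
    obtain ⟨z, a1, a2⟩ := step (cay_conn hS) h
    have e1 := tri (cay_conn hS) (g * x) (g * z) (g * y)
    rw [d1 (SimpleGraph.mulCayley_adj_mul_iff_right.2 a1)] at e1
    have := ih z y a2
    omega

theorem cay_lip {S T : Set G} (hS : Subgroup.closure S = ⊤) (hT : Subgroup.closure T = ⊤)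
    (hSf : S.Finite) : ∃ L : ℕ, ∀ x y,
      (SimpleGraph.mulCayley T).dist x y ≤ L * (SimpleGraph.mulCayley S).dist x y := by
  obtain ⟨L, hL⟩ := (hSf.image ((SimpleGraph.mulCayley T).dist 1)).bddAbove
  have e : ∀ x, ∀ s ∈ S, (SimpleGraph.mulCayley T).dist x (x * s) ≤ L := by
    intro x s hs
    have := cay_inv hT x _ 1 s rfl
    rw [mul_one] at this
    exact this.trans (hL ⟨s, hs, rfl⟩)
  refine ⟨L, fun x y => ?_⟩
  generalize hn : (SimpleGraph.mulCayley S).dist x y = n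
  induction n generalizing x with
  | zero => rw [d0 (cay_conn hS) hn]; simp
  | succ n ih =>
    obtain ⟨z, a1, a2⟩ := step (cay_conn hS) hn
    have e1 := tri (cay_conn hT) x z y
    have e2 := ih z a2
    have e3 : (SimpleGraph.mulCayley T).dist x z ≤ L := by
      obtain ⟨-, s, hs, rfl | rfl⟩ := (SimpleGraph.mulCayley_adj' _ _ _).1 a1
      · exact e _ s hs
      · rw [SimpleGraph.dist_comm]
        exact e _ s hs
    rw [Nat.mul_succ]
    omega

theorem cay_bl {S T : Set G} (hS : Subgroup.closure S = ⊤) (hT : Subgroup.closure T = ⊤)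
    (hSf : S.Finite) (hTf : T.Finite) :
    BiLipschitz (SimpleGraph.mulCayley S) (SimpleGraph.mulCayley T) := by
  obtain ⟨L, hL⟩ := cay_lip hS hT hSf
  obtain ⟨M, hM⟩ := cay_lip hT hS hTf
  refine ⟨Equiv.refl G, (L + M + 1 : ℕ), by exact_mod_cast Nat.le_add_left 1 _, fun x y => ?_⟩
  rw [div_le_iff₀ (by positivity)]
  have := hL x y
  have := hM x y
  constructor
  · exact_mod_cast (by simp only [Equiv.refl_apply]; nlinarith)
  · exact_mod_cast (by simp only [Equiv.refl_apply]; nlinarith)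

end cayley

end Pool.Agent.H69.CB
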