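import Mathlib

namespace Pool.Agent.H69.FreeTree

open FreeGroup hiding norm norm_mul_le norm_eq_zero norm_one

abbrev nm {α : Type*} [DecidableEq α] (g : FreeGroup α) : ℕ := FreeGroup.norm g

variable {α : Type*} [DecidableEq α]

theorem nm_mul_le (x y : FreeGroup α) : nm (x * y) ≤ nm x + nm y := FreeGroup.norm_mul_le x y

theorem nm_eq_zero {x : FreeGroup α} : nm x = 0 ↔ x = 1 := FreeGroup.norm_eq_zero

theorem nm_inv {x : FreeGroup α} : nm x⁻¹ = nm x := FreeGroup.norm_inv_eq

def lt (x : α × Bool) : FreeGroup α := mk [x]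

omit [DecidableEq α] in
theorem lt_inv (x : α × Bool) : (lt x)⁻¹ = lt (x.1, !x.2) := by
  simp [lt, inv_mk, invRev]

theorem nm_lt (x : α × Bool) : nm (lt x) = 1 := by
  simp [lt, nm, FreeGroup.norm]

theorem toWord_lt_mul (u : α × Bool) (y : FreeGroup α) :
    toWord (lt u * y) = reduce (u :: toWord y) := by
  rw [toWord_mul]
  simp [lt]

theorem key (u : α × Bool) (y : FreeGroup α) :
    ((toWord y).head? = some u ∧ nm ((lt u)⁻¹ * y) + 1 = nm y) ∨
      ((toWord y).head? ≠ some u ∧ nm ((lt u)⁻¹ * y) = nm y + 1) := by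
  rw [lt_inv]
  unfold nm FreeGroup.norm
  rw [toWord_lt_mul, reduce.cons, reduce_toWord]
  rcases toWord y with _ | ⟨hd, tl⟩
  · right; simp
  · by_cases h : hd = u
    · left
      subst h
      simp
    · right
      have : ¬ (u.1 = hd.1 ∧ (!u.2) = !hd.2) := by
        rintro ⟨h1, h2⟩
        exact h (Prod.ext h1.symm (by simpa using h2.symm))
      simp only [this, if_false]
      simp [h]

theorem uniq {u u' : α × Bool} {y : FreeGroup α} (h : nm ((lt u)⁻¹ * y) < nm y)
    (h' : nm ((lt u')⁻¹ * y) < nm y) : u = u' := by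
  rcases key u y with ⟨a, _⟩ | ⟨_, b⟩
  · rcases key u' y with ⟨c, _⟩ | ⟨_, d⟩
    · rw [a] at c
      exact Option.some.inj c
    · omega
  · omega

theorem first {y : FreeGroup α} (h : y ≠ 1) : ∃ u, nm ((lt u)⁻¹ * y) + 1 = nm y := by
  rcases hw : toWord y with _ | ⟨hd, tl⟩
  · exact absurd (toWord_eq_nil_iff.1 hw) h
  · rcases key hd y with ⟨_, b⟩ | ⟨a, _⟩
    · exact ⟨hd, b⟩
    · simp [hw] at a

theorem pm (u : α × Bool) (y : FreeGroup α) :
    nm (lt u * y) + 1 = nm y ∨ nm (lt u * y) = nm y + 1 := by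
  have := key (u.1, !u.2) y
  rw [lt_inv] at this
  simp only [Bool.not_not] at this
  tauto

theorem tri (x y : FreeGroup α) : nm y ≤ nm x + nm (x⁻¹ * y) := by
  simpa using nm_mul_le x (x⁻¹ * y)

/-- `p` lies on the geodesic from `1` to `g`. -/
def On (p g : FreeGroup α) : Prop := nm p + nm (p⁻¹ * g) = nm g

theorem on_one (g : FreeGroup α) : On 1 g := by simp [On]

theorem on_self (g : FreeGroup α) : On g g := by simp [On]

theorem On.rev {p g : FreeGroup α} (h : On p g) : On (g⁻¹ * p) g⁻¹ := by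
  unfold On at *
  have e1 : nm (g⁻¹ * p) = nm (p⁻¹ * g) := by rw [← nm_inv]; simp
  have e2 : (g⁻¹ * p)⁻¹ * g⁻¹ = p⁻¹ := by group
  rw [e1, e2, nm_inv, nm_inv]
  omega

theorem On.trans {p q g : FreeGroup α} (h : On p q) (h' : On q g) : On p g := by
  unfold On at *
  have e1 := tri p g
  have e2 := nm_mul_le (p⁻¹ * q) (q⁻¹ * g)
  rw [show p⁻¹ * q * (q⁻¹ * g) = p⁻¹ * g by group] at e2
  omega

theorem step {u : α × Bool} {p g : FreeGroup α} (h : On p (lt u * g)) :
    p = 1 ∨ On ((lt u)⁻¹ * p) g := by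
  by_cases hp : p = 1
  · exact Or.inl hp
  right
  unfold On at *
  have e0 : ((lt u)⁻¹ * p)⁻¹ * g = p⁻¹ * (lt u * g) := by group
  have e1 := tri ((lt u)⁻¹ * p) g
  rw [e0] at e1 ⊢
  rcases pm u g with a | a
  · have := nm_mul_le (lt u)⁻¹ p
    rw [nm_inv, nm_lt] at this
    omega
  · obtain ⟨v, hv⟩ := first hp
    have e2 := nm_mul_le ((lt v)⁻¹ * p) (p⁻¹ * (lt u * g))
    rw [show (lt v)⁻¹ * p * (p⁻¹ * (lt u * g)) = (lt v)⁻¹ * (lt u * g) by group] at e2
    have : v = u := uniq (y := lt u * g) (by omega) (by simp; omega)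
    subst this
    omega

theorem split {p h : FreeGroup α} (g : FreeGroup α) (hp : On p (g * h)) :
    On p g ∨ On (g⁻¹ * p) h := by
  induction hn : nm g generalizing g p with
  | zero =>
    rw [nm_eq_zero] at hn
    subst hn
    right
    simpa using hp
  | succ n ih =>
    obtain ⟨u, hu⟩ := first (y := g) (by rintro rfl; simp at hn)
    have e : g * h = lt u * ((lt u)⁻¹ * g * h) := by group
    rw [e] at hp
    rcases step hp with rfl | a
    · exact Or.inl (on_one _)
    · rcases ih ((lt u)⁻¹ * g) a (by omega) with b | b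
      · left
        unfold On at *
        rw [show ((lt u)⁻¹ * p)⁻¹ * ((lt u)⁻¹ * g) = p⁻¹ * g by group] at b
        have e1 := tri p g
        have e2 := tri (lt u) p
        rw [nm_lt] at e2
        omega
      · right
        rwa [show ((lt u)⁻¹ * g)⁻¹ * ((lt u)⁻¹ * p) = g⁻¹ * p by group] at b

theorem On.comp {p q y : FreeGroup α} (hp : On p y) (hq : On q y) (h : nm p ≤ nm q) :
    On p q := by
  induction hn : nm p generalizing p q y with
  | zero =>
    rw [nm_eq_zero] at hn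
    subst hn
    exact on_one _
  | succ n ih =>
    obtain ⟨u, hu⟩ := first (y := p) (by rintro rfl; simp at hn)
    obtain ⟨v, hv⟩ := first (y := q) (by rintro rfl; rw [hn] at h; simp at h)
    have e1 := nm_mul_le ((lt u)⁻¹ * p) (p⁻¹ * y)
    have e2 := nm_mul_le ((lt v)⁻¹ * q) (q⁻¹ * y)
    rw [show (lt u)⁻¹ * p * (p⁻¹ * y) = (lt u)⁻¹ * y by group] at e1
    rw [show (lt v)⁻¹ * q * (q⁻¹ * y) = (lt v)⁻¹ * y by group] at e2
    unfold On at hp hq
    have : u = v := uniq (y := y) (by omega) (by omega)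
    subst this
    have e3 := tri (lt u) y
    rw [nm_lt] at e3
    have := ih (p := (lt u)⁻¹ * p) (q := (lt u)⁻¹ * q) (y := (lt u)⁻¹ * y)
      (by
        unfold On
        rw [show ((lt u)⁻¹ * p)⁻¹ * ((lt u)⁻¹ * y) = p⁻¹ * y by group]
        omega)
      (by
        unfold On
        rw [show ((lt u)⁻¹ * q)⁻¹ * ((lt u)⁻¹ * y) = q⁻¹ * y by group]
        omega) (by omega) (by omega)
    unfold On at *
    rw [show ((lt u)⁻¹ * p)⁻¹ * ((lt u)⁻¹ * q) = p⁻¹ * q by group] at this
    omega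

theorem On.eq {p q y : FreeGroup α} (hp : On p y) (hq : On q y) (h : nm p = nm q) :
    p = q := by
  have := hp.comp hq h.le
  unfold On at this
  have e : nm (p⁻¹ * q) = 0 := by omega
  rw [nm_eq_zero] at e
  exact inv_mul_eq_one.1 e

theorem on_finite (g : FreeGroup α) : {p | On p g}.Finite := by
  refine Set.Finite.of_finite_image (f := nm) ((Set.finite_Iic (nm g)).subset ?_) ?_
  · rintro _ ⟨p, hp, rfl⟩
    unfold On at hp
    simp only [Set.mem_ofPred_eq] at hp
    simp only [Set.mem_Iic]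
    omega
  · exact fun p hp q hq h => On.eq hp hq h

theorem next {v x : FreeGroup α} (h : On v x) (hne : v ≠ x) :
    ∃ u, On (v * lt u) x ∧ nm (v * lt u) = nm v + 1 := by
  obtain ⟨u, hu⟩ := first (y := v⁻¹ * x) (fun e => hne (inv_mul_eq_one.1 e))
  refine ⟨u, ?_⟩
  unfold On at *
  have e1 := nm_mul_le v (lt u)
  rw [nm_lt] at e1
  have e2 := tri (v * lt u) x
  rw [show (v * lt u)⁻¹ * x = (lt u)⁻¹ * (v⁻¹ * x) by group] at e2 ⊢
  omega

/-- centroid of a finite set in the tree -/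
theorem centroid (Z : Finset (FreeGroup α)) (hZ : Z.Nonempty) :
    ∃ v, (∃ z ∈ Z, On v z) ∧ ∀ x, ∃ Y ⊆ Z, Z.card ≤ 2 * Y.card ∧
      ∀ z ∈ Y, On (z⁻¹ * v) (z⁻¹ * x) := by
  classical
  let A : Set (FreeGroup α) := {p | Z.card < 2 * (Z.filter (fun z => On p z)).card}
  have hA : ∀ p ∈ A, ∃ z ∈ Z, On p z := by
    intro p hp
    have : (Z.filter (fun z => On p z)).Nonempty := by
      rw [← Finset.card_pos]
      simp only [A, Set.mem_ofPred_eq] at hp
      omega
    obtain ⟨z, hz⟩ := this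
    exact ⟨z, (Finset.mem_filter.1 hz).1, (Finset.mem_filter.1 hz).2⟩
  have hAf : A.Finite := by
    refine (Z.finite_toSet.biUnion (fun z _ => on_finite z)).subset (fun p hp => ?_)
    obtain ⟨z, h1, h2⟩ := hA p hp
    exact Set.mem_biUnion h1 h2
  have h1 : (1 : FreeGroup α) ∈ A := by
    simp only [A, Set.mem_ofPred_eq, on_one, Finset.filter_true]
    have := hZ.card_pos
    omega
  obtain ⟨v, hv, hmax⟩ := hAf.exists_maximalFor nm A ⟨1, h1⟩
  have aux : ∀ w x z : FreeGroup α, On w x → ¬ On w z → On (z⁻¹ * w) (z⁻¹ * x) := by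
    intro w x z a b
    rw [show x = z * (z⁻¹ * x) by group] at a
    exact (split z a).resolve_left b
  refine ⟨v, hA v hv, fun x => ?_⟩
  by_cases hvx : On v x
  · by_cases he : v = x
    · exact ⟨Z, le_rfl, by omega, fun z _ => he ▸ on_self _⟩
    obtain ⟨u, a1, a2⟩ := next hvx he
    have hn : v * lt u ∉ A := fun h => by
      have := hmax h (by omega)
      omega
    refine ⟨Z.filter (fun z => ¬ On (v * lt u) z), Finset.filter_subset _ _, ?_, ?_⟩
    · have := Finset.card_filter_add_card_filter_not (s := Z) (fun z => On (v * lt u) z)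
      simp only [A, Set.mem_ofPred_eq] at hn
      omega
    · intro z hz
      have b := (Finset.mem_filter.1 hz).2
      by_cases c : On v z
      · refine On.trans ?_ (aux _ _ _ a1 b)
        have d := pm (u.1, !u.2) (v⁻¹ * z)
        rw [← lt_inv] at d
        unfold On at *
        have e1 : nm (z⁻¹ * v) = nm (v⁻¹ * z) := by rw [← nm_inv]; simp
        have e2 : nm (z⁻¹ * (v * lt u)) = nm ((lt u)⁻¹ * (v⁻¹ * z)) := by
          rw [← nm_inv]; simp [mul_assoc]
        rw [show (v * lt u)⁻¹ * z = (lt u)⁻¹ * (v⁻¹ * z) by group] at b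
        rw [show (z⁻¹ * v)⁻¹ * (z⁻¹ * (v * lt u)) = lt u by group, nm_lt, e1, e2]
        omega
      · exact aux _ _ _ hvx c
  · refine ⟨Z.filter (fun z => On v z), Finset.filter_subset _ _, le_of_lt hv, fun z hz => ?_⟩
    have := (aux v z x (Finset.mem_filter.1 hz).2 hvx).rev
    rwa [show (x⁻¹ * z)⁻¹ * (x⁻¹ * v) = z⁻¹ * v by group,
      show (x⁻¹ * z)⁻¹ = z⁻¹ * x by group] at this

theorem ball_finite [Finite α] (n : ℕ) : {g : FreeGroup α | nm g ≤ n}.Finite :=
  Set.Finite.of_finite_image (f := toWord)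
    ((List.finite_length_le (α × Bool) n).subset (by rintro _ ⟨g, hg, rfl⟩; exact hg))
    toWord_injective.injOn

end Pool.Agent.H69.FreeTree
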