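import Mathlib
import Pool.Agent.H69.FreeTree

namespace Pool.Agent.H69.Coam

open Pool.Agent.H69.FreeTree Filter
open scoped Pointwise

abbrev G := FreeGroup Bool

def a : G := FreeGroup.of true
def b : G := FreeGroup.of false

def H : Subgroup G := Subgroup.closure (Set.range (fun n : ℕ => a ^ n * b * (a ^ n)⁻¹))

def gen (n : ℕ) : H := ⟨a ^ n * b * (a ^ n)⁻¹, Subgroup.subset_closure ⟨n, rfl⟩⟩

abbrev Om := (ℤ → H) × ℤ

def mulAt (h : H) : Equiv.Perm Om where
  toFun p := (Function.update p.1 0 (h * p.1 0), p.2)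
  invFun p := (Function.update p.1 0 (h⁻¹ * p.1 0), p.2)
  left_inv p := by simp
  right_inv p := by simp

def shift : Equiv.Perm Om where
  toFun p := (fun i => p.1 (i - 1), p.2 + 1)
  invFun p := (fun i => p.1 (i + 1), p.2 - 1)
  left_inv p := by simp
  right_inv p := by simp

def rho (n : ℤ) : Equiv.Perm Om := if n < 0 then shift else mulAt (gen n.toNat)

def th : G →* Equiv.Perm (ℤ × Om) :=
  FreeGroup.lift (fun x => if x then Equiv.prodCongr (Equiv.subRight 1) (Equiv.refl _)
    else Equiv.prodCongrRight rho)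

theorem th_a (n : ℤ) (w : Om) : th a (n, w) = (n - 1, w) := by simp [th, a]

theorem th_b (n : ℤ) (w : Om) : th b (n, w) = (n, rho n w) := by simp [th, b]

theorem th_pow (k : ℕ) (n : ℤ) (w : Om) : th (a ^ k) (n, w) = (n - k, w) := by
  induction k generalizing n with
  | zero => simp
  | succ k ih =>
    rw [pow_succ, map_mul, Equiv.Perm.mul_apply, th_a, ih]
    congr 1
    push_cast
    ring

theorem th_inv {g : G} {p q : ℤ × Om} (h : th g p = q) : th g⁻¹ q = p := by
  rw [← h, map_inv]
  simp

theorem th_H (h : G) (hh : h ∈ H) : ∀ w : Om, th h (0, w) = (0, mulAt ⟨h, hh⟩ w) := by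
  induction hh using Subgroup.closure_induction with
  | mem x hx =>
    obtain ⟨n, rfl⟩ := hx
    intro w
    have e : th (a ^ n)⁻¹ (0, w) = ((n : ℤ), w) := th_inv (by rw [th_pow]; simp)
    rw [map_mul, map_mul, Equiv.Perm.mul_apply, Equiv.Perm.mul_apply, e, th_b, th_pow]
    have : ¬ ((n : ℤ) < 0) := by omega
    simp [rho, gen, this]
  | one =>
    intro w
    have : (⟨1, H.one_mem⟩ : H) = 1 := rfl
    simp [mulAt, this]
  | mul x y hx hy ix iy =>
    intro w
    rw [map_mul, Equiv.Perm.mul_apply, iy, ix]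
    have : (⟨x * y, H.mul_mem hx hy⟩ : H) = ⟨x, hx⟩ * ⟨y, hy⟩ := rfl
    simp [mulAt, this, mul_assoc]
  | inv x hx ix =>
    intro w
    apply th_inv
    rw [ix]
    have : (⟨x⁻¹, H.inv_mem hx⟩ : H) = ⟨x, hx⟩⁻¹ := rfl
    simp [mulAt, this]

def t : G := a⁻¹ * b * a

theorem th_t (w : Om) : th t (0, w) = (0, shift w) := by
  rw [t, map_mul, map_mul, Equiv.Perm.mul_apply, Equiv.Perm.mul_apply, th_a, th_b]
  apply th_inv
  rw [th_a]
  simp [rho]

abbrev M := Monoid.Coprod H (Multiplicative ℕ)

def emb : M →* G := Monoid.Coprod.lift H.subtype (powersHom G t)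

def dec : ℕ → (ℤ → H) → M
  | 0, f => Monoid.Coprod.inl (f 0)
  | c + 1, f => Monoid.Coprod.inl (f 0) * Monoid.Coprod.inr (Multiplicative.ofAdd 1) *
      dec c (fun i => f (i + 1))

theorem dec_congr (c : ℕ) (f g : ℤ → H) (h : ∀ i, 0 ≤ i → f i = g i) : dec c f = dec c g := by
  induction c generalizing f g with
  | zero => simp [dec, h]
  | succ c ih =>
    simp only [dec]
    rw [h 0 le_rfl, ih _ (fun i => g (i + 1)) (fun i hi => h _ (by omega))]

theorem emb_spec (x : M) : ∃ (f : ℤ → H) (c : ℕ), th (emb x) (0, (1, 0)) = (0, (f, (c : ℤ))) ∧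
    (∀ i, i < 0 → f i = 1) ∧ dec c f = x := by
  induction x using Monoid.Coprod.induction_on' with
  | one => exact ⟨1, 0, by simp, by simp, by simp [dec]⟩
  | inl_mul h x ih =>
    obtain ⟨f, c, h1, h2, h3⟩ := ih
    refine ⟨Function.update f 0 (h * f 0), c, ?_, ?_, ?_⟩
    · rw [map_mul, map_mul, Equiv.Perm.mul_apply, h1]
      have : emb (Monoid.Coprod.inl h) = h.1 := by simp [emb]
      rw [this, th_H _ h.2]
      rfl
    · intro i hi
      rw [Function.update_of_ne (by omega), h2 i hi]
    · rw [← h3]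
      cases c with
      | zero => simp [dec]
      | succ c =>
        simp only [dec, Function.update_self, map_mul, mul_assoc]
        rw [dec_congr c _ (fun i => f (i + 1))
          (fun i hi => by rw [Function.update_of_ne (by omega)])]
  | inr_mul n x ih =>
    induction n using Multiplicative.rec with
    | ofAdd n =>
    induction n with
    | zero => simpa using ih
    | succ n ihn =>
      obtain ⟨f, c, h1, h2, h3⟩ := ihn
      have e : (Monoid.Coprod.inr (Multiplicative.ofAdd (n + 1)) : M) * x =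
          Monoid.Coprod.inr (Multiplicative.ofAdd 1) *
            (Monoid.Coprod.inr (Multiplicative.ofAdd n) * x) := by
        rw [← mul_assoc, ← map_mul, ← ofAdd_add, add_comm]
      refine ⟨fun i => f (i - 1), c + 1, ?_, fun i hi => h2 _ (by omega), ?_⟩
      · rw [e, map_mul, map_mul, Equiv.Perm.mul_apply, h1]
        have : emb (Monoid.Coprod.inr (Multiplicative.ofAdd 1)) = t := by simp [emb]
        rw [this, th_t]
        rfl
      · rw [e, ← h3]
        simp [dec, h2]

theorem emb_inj : Function.Injective emb := by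
  intro x y e
  obtain ⟨f, c, h1, -, h3⟩ := emb_spec x
  obtain ⟨g, d, k1, -, k3⟩ := emb_spec y
  rw [e, k1] at h1
  simp only [Prod.mk.injEq, true_and, Nat.cast_inj] at h1
  rw [← h3, ← k3, h1.1, h1.2]

theorem H_ne : H ≠ ⊥ := by
  intro h
  have : b ∈ H := by simpa [gen] using (gen 0).2
  rw [h, Subgroup.mem_bot] at this
  simp [b] at this

abbrev Wd := List (Bool × Bool)

def h1 (x : Bool × Bool) : ℤ := if x.1 then (if x.2 then 1 else -1) else 0

def ht (w : Wd) : ℤ := (w.map h1).sum

theorem ht_abs (w : Wd) : -(w.length : ℤ) ≤ ht w ∧ ht w ≤ w.length := by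
  induction w with
  | nil => simp [ht]
  | cons x w ih =>
    simp only [ht, List.map_cons, List.sum_cons, List.length_cons, h1] at ih ⊢
    split_ifs <;> omega

theorem conj_mem (w : Wd) (m : ℤ) (hm : (w.length : ℤ) ≤ m) :
    a ^ m * FreeGroup.mk w * a ^ (-(m + ht w)) ∈ H := by
  induction w generalizing m with
  | nil =>
    have : (FreeGroup.mk [] : G) = 1 := rfl
    simp [ht, this]
  | cons x w ih =>
    simp only [List.length_cons] at hm
    have e1 : (FreeGroup.mk (x :: w) : G) = lt x * FreeGroup.mk w := by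
      rw [lt, FreeGroup.mul_mk]; rfl
    have e2 : ht (x :: w) = h1 x + ht w := by simp [ht]
    have i := ih (m + h1 x) (by unfold h1; split_ifs <;> omega)
    have e3 : a ^ m * FreeGroup.mk (x :: w) * a ^ (-(m + ht (x :: w))) =
        (a ^ m * lt x * a ^ (-(m + h1 x))) *
          (a ^ (m + h1 x) * FreeGroup.mk w * a ^ (-(m + h1 x + ht w))) := by
      rw [e1, e2]
      group
    rw [e3]
    refine H.mul_mem ?_ i
    obtain ⟨n, rfl⟩ := Int.eq_ofNat_of_zero_le (show 0 ≤ m by omega)
    have ea : lt (true, true) = a := rfl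
    have eb : lt (false, true) = b := rfl
    have ea' : lt (true, false) = a⁻¹ := by rw [← ea, lt_inv]; rfl
    have eb' : lt (false, false) = b⁻¹ := by rw [← eb, lt_inv]; rfl
    have g1 := (gen n).2
    have g2 := H.inv_mem g1
    obtain ⟨_ | _, _ | _⟩ := x
    · convert g2 using 1
      simp [eb', gen, h1, mul_assoc]
    · convert g1 using 1
      simp [eb, gen, h1, mul_assoc]
    · convert H.one_mem using 1
      simp only [ea', h1]
      group
      simp
    · convert H.one_mem using 1
      simp only [ea, h1]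
      group
      simp

def Good (w : Wd) : Prop :=
  FreeGroup.IsReduced w ∧ w.head? = some (false, true) ∧ w.getLast? = some (false, true)

theorem Good.append {u w : Wd} (hu : Good u) (hw : Good w) : Good (u ++ w) := by
  obtain ⟨a1, a2, a3⟩ := hu
  obtain ⟨b1, b2, b3⟩ := hw
  refine ⟨?_, by simp [List.head?_append, a2], by simp [List.getLast?_append, b3]⟩
  unfold FreeGroup.IsReduced at *
  rw [List.isChain_append]
  refine ⟨a1, b1, ?_⟩
  simp [a3, b2]

theorem red_flatten (l : List Wd) (h : ∀ w ∈ l, Good w) : l = [] ∨ Good l.flatten := by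
  induction l with
  | nil => simp
  | cons w l ih =>
    right
    rcases ih (fun u hu => h u (by simp [hu])) with rfl | i
    · simpa using h w (by simp)
    · exact (h w (by simp)).append i

def sg (x : Bool × Bool) : Bool × Bool := (x.1, xor x.1 x.2)

theorem sg_inj : Function.Injective sg := by decide

theorem Good.sg {w : Wd} (hw : Good w) : Good (w.map sg) := by
  obtain ⟨a1, a2, a3⟩ := hw
  refine ⟨?_, by simp [a2, Coam.sg], by simp [a3, Coam.sg]⟩
  unfold FreeGroup.IsReduced at *
  rw [List.isChain_map]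
  refine a1.imp ?_
  decide

theorem ht_sg (w : Wd) : ht (w.map sg) = - ht w := by
  induction w with
  | nil => simp [ht]
  | cons x w ih =>
    have : h1 (sg x) = - h1 x := by revert x; decide
    simp only [ht, List.map_cons, List.sum_cons] at ih ⊢
    omega

def pad (w : Wd) : Wd :=
  [(false, true), (true, decide (w.head? ≠ some (true, false)))] ++
    (w ++ [(true, decide (w.getLast? ≠ some (true, false))), (false, true)])

theorem pad_len (w : Wd) : (pad w).length = w.length + 4 := by simp [pad]

theorem pad_inj : Function.Injective pad := by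
  intro u w e
  have := congrArg List.length e
  rw [pad_len, pad_len] at this
  exact (List.append_inj (List.append_inj e rfl).2 (by omega)).1

theorem pad_good (w : Wd) (hw : FreeGroup.IsReduced w) : Good (pad w) := by
  refine ⟨?_, by simp [pad], by rw [pad, ← List.append_assoc, List.getLast?_append]; simp⟩
  unfold FreeGroup.IsReduced pad at *
  rw [List.isChain_append, List.isChain_append]
  refine ⟨by simp, ⟨hw, by simp, ?_⟩, ?_⟩
  · intro x hx y hy
    simp only [List.head?_cons, Option.mem_def, Option.some.injEq] at hy hx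
    subst hy
    rw [hx]
    revert x
    simp
  · intro x hx y hy
    simp only [List.getLast?_cons_cons, List.getLast?_singleton, Option.mem_def,
      Option.some.injEq] at hy hx
    subst hx
    rcases w with _ | ⟨z, w⟩
    · simp at hy
      subst hy
      simp
    · simp at hy
      subst hy
      revert z
      simp

theorem flatten_inj (j : ℕ) : ∀ l l' : List Wd, l.length = l'.length → (∀ w ∈ l, w.length = j) →
    (∀ w ∈ l', w.length = j) → l.flatten = l'.flatten → l = l'
  | [], [], _, _, _, _ => rfl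
  | [], _ :: _, h, _, _, _ => by simp at h
  | _ :: _, [], h, _, _, _ => by simp at h
  | u :: l, w :: l', h, h1, h2, e => by
    have := List.append_inj e ((h1 u (by simp)).trans (h2 w (by simp)).symm)
    rw [this.1, flatten_inj j l l' (by simpa using h) (fun x hx => h1 x (by simp [hx]))
      (fun x hx => h2 x (by simp [hx])) this.2]

noncomputable def bG (n : ℕ) : ℕ := {g : G | nm g ≤ n}.ncard

noncomputable def bH (n : ℕ) : ℕ := {g : G | g ∈ H ∧ nm g ≤ n}.ncard

theorem flatten_mem (j : ℕ) (l : List Wd) (h : ∀ w ∈ l, w.length = j ∧ ht w = 0) :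
    a ^ j * FreeGroup.mk l.flatten * (a ^ j)⁻¹ ∈ H := by
  induction l with
  | nil =>
    have : (FreeGroup.mk [] : G) = 1 := rfl
    simp [this]
  | cons w l ih =>
    have i := ih (fun u hu => h u (by simp [hu]))
    have k := conj_mem w j (by rw [(h w (by simp)).1])
    rw [(h w (by simp)).2] at k
    convert H.mul_mem k i using 1
    rw [List.flatten_cons, ← FreeGroup.mul_mk, add_zero, zpow_neg, zpow_natCast]
    group

theorem blocks (A : Finset Wd) (j : ℕ) (c : ℤ) (hA : ∀ w ∈ A, Good w ∧ w.length = j ∧ ht w = c)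
    (m n : ℕ) (hn : 2 * j * (m + 2) ≤ n) : A.card ^ (2 * m) ≤ bH n := by
  let blk : A × A → Wd := fun p => p.1.1 ++ p.2.1.map sg
  have b1 : ∀ p, Good (blk p) := fun p => (hA _ p.1.2).1.append (hA _ p.2.2).1.sg
  have b2 : ∀ p, (blk p).length = 2 * j := fun p => by
    simp [blk, (hA _ p.1.2).2.1, (hA _ p.2.2).2.1, two_mul]
  have b3 : ∀ p, ht (blk p) = 0 := fun p => by
    have e : ht (blk p) = ht p.1.1 + ht (p.2.1.map sg) := by simp [blk, ht]
    rw [e, ht_sg, (hA _ p.1.2).2.2, (hA _ p.2.2).2.2]
    simp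
  have b4 : Function.Injective blk := by
    intro p q e
    have := List.append_inj e ((hA _ p.1.2).2.1.trans (hA _ q.1.2).2.1.symm)
    exact Prod.ext (Subtype.ext this.1) (Subtype.ext (sg_inj.list_map this.2))
  have red : ∀ l : List (A × A), FreeGroup.IsReduced (l.map blk).flatten := by
    intro l
    rcases red_flatten (l.map blk) (List.forall_mem_map.2 (fun p _ => b1 p)) with h | h
    · rw [h]; simp
    · exact h.1
  have hfin : {g : G | g ∈ H ∧ nm g ≤ n}.Finite := (ball_finite n).subset (fun _ h => h.2)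
  let f : List.Vector (A × A) m → {g : G | g ∈ H ∧ nm g ≤ n} := fun v =>
    ⟨a ^ (2 * j) * FreeGroup.mk (v.1.map blk).flatten * (a ^ (2 * j))⁻¹,
      flatten_mem _ _ (List.forall_mem_map.2 (fun p _ => ⟨b2 p, b3 p⟩)), by
        have e1 := nm_mul_le (a ^ (2 * j) * FreeGroup.mk (v.1.map blk).flatten) (a ^ (2 * j))⁻¹
        have e2 := nm_mul_le (a ^ (2 * j)) (FreeGroup.mk (v.1.map blk).flatten)
        have e3 : nm (a ^ (2 * j)) = 2 * j := FreeGroup.norm_of_pow _ _
        have e4 : nm (FreeGroup.mk (v.1.map blk).flatten) ≤ (v.1.map blk).flatten.length :=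
          FreeGroup.norm_mk_le
        have e5 : (v.1.map blk).flatten.length = m * (2 * j) := by
          rw [List.length_flatten, List.map_map,
            show List.length ∘ blk = fun _ => 2 * j from funext b2]
          simp [v.2]
        rw [nm_inv] at e1
        nlinarith⟩
  have hf : Function.Injective f := by
    intro v w e
    have e1 : (FreeGroup.mk (v.1.map blk).flatten : G) = FreeGroup.mk (w.1.map blk).flatten := by
      simpa [f] using e
    have e2 := FreeGroup.reduce.sound e1
    rw [(red _).reduce_eq, (red _).reduce_eq] at e2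
    have e3 := flatten_inj (2 * j) _ _ (by simp [v.2, w.2])
      (List.forall_mem_map.2 (fun p _ => b2 p)) (List.forall_mem_map.2 (fun p _ => b2 p)) e2
    exact Subtype.ext (b4.list_map e3)
  haveI : Finite {g : G | g ∈ H ∧ nm g ≤ n} := hfin
  have := Nat.card_le_card_of_injective f hf
  rw [Nat.card_eq_fintype_card, card_vector, Fintype.card_prod, Fintype.card_coe,
    Nat.card_coe_set_eq, ← sq, ← pow_mul] at this
  exact this

theorem keyineq (k : ℕ) : ∃ α : ℕ, bG k ≤ (k + 5) * (2 * k + 9) * α ∧
    ∀ m, α ^ (2 * m) ≤ bH (2 * (k + 4) * (m + 2)) := by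
  classical
  let B := (ball_finite (α := Bool) k).toFinset.image (pad ∘ FreeGroup.toWord)
  have cB : B.card = bG k := by
    rw [Finset.card_image_of_injective _ (pad_inj.comp FreeGroup.toWord_injective), bG,
      Set.ncard_eq_toFinset_card _ (ball_finite k)]
  have hB : ∀ w ∈ B, Good w ∧ w.length ≤ k + 4 := by
    intro w hw
    obtain ⟨g, hg, rfl⟩ := Finset.mem_image.1 hw
    refine ⟨pad_good _ FreeGroup.isReduced_toWord, ?_⟩
    rw [Function.comp, pad_len]
    have : nm g ≤ k := by simpa using hg
    exact Nat.add_le_add_right this 4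
  let I := Finset.range (k + 5) ×ˢ Finset.Icc (-(k + 4 : ℤ)) (k + 4)
  have cI : I.card = (k + 5) * (2 * k + 9) := by
    simp only [I, Finset.card_product, Finset.card_range, Int.card_Icc]
    congr 1
    omega
  obtain ⟨p, hp, hmax⟩ := Finset.exists_max_image I
    (fun p => (B.filter (fun w => (w.length, ht w) = p)).card) ⟨(0, 0), by simp [I]; omega⟩
  refine ⟨(B.filter (fun w => (w.length, ht w) = p)).card, ?_, fun m => ?_⟩
  · rw [← cB, ← cI, mul_comm]
    refine Finset.card_le_mul_card_image_of_maps_to (f := fun w => (w.length, ht w))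
      (fun w hw => ?_) _ hmax
    have := (hB w hw).2
    have := ht_abs w
    simp only [I, Finset.mem_product, Finset.mem_range, Finset.mem_Icc]
    omega
  · refine blocks _ p.1 p.2 (fun w hw => ?_) m _ ?_
    · rw [Finset.mem_filter] at hw
      exact ⟨(hB w hw.1).1, by rw [← hw.2], by rw [← hw.2]⟩
    · have := (Finset.mem_product.1 hp).1
      rw [Finset.mem_range] at this
      gcongr
      omega

theorem bG_le (n : ℕ) : bG n ≤ bG 1 ^ n := by
  classical
  induction n with
  | zero =>
    have : {g : G | nm g ≤ 0} = {1} := by ext g; simp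
    simp [bG, this]
  | succ n ih =>
    have : {g : G | nm g ≤ n + 1} ⊆ {g : G | nm g ≤ 1} * {g : G | nm g ≤ n} := by
      intro g hg
      by_cases h : g = 1
      · exact ⟨1, by simp, 1, by simp, by simp [h]⟩
      · obtain ⟨u, hu⟩ := first h
        refine ⟨lt u, (nm_lt u).le, (lt u)⁻¹ * g, ?_, by simp⟩
        simp only [Set.mem_ofPred_eq] at hg ⊢
        omega
    refine (Set.ncard_le_ncard this ((ball_finite 1).mul (ball_finite n))).trans ?_
    refine Set.natCard_mul_le.trans ?_
    rw [pow_succ']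
    exact Nat.mul_le_mul_left _ ih

theorem bH_le (n : ℕ) : bH n ≤ bG n := Set.ncard_le_ncard (fun _ h => h.2) (ball_finite n)

theorem main : ¬ limsup (fun n : ℕ => (bH n : ℝ) ^ ((1 : ℝ) / (n : ℝ))) atTop <
    limsup (fun n : ℕ => (bG n : ℝ) ^ ((1 : ℝ) / (n : ℝ))) atTop := by
  intro h
  obtain ⟨μ, h1, h2⟩ := exists_between h
  obtain ⟨ν, h3, h4⟩ := exists_between h2
  have root : ∀ (x n : ℕ), 0 < n → ((x : ℝ) ^ ((1 : ℝ) / (n : ℝ))) ^ n = x := fun x n hn => by
    rw [one_div, Real.rpow_inv_natCast_pow (by positivity) (by omega)]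
  have e1 : ∀ᶠ n : ℕ in atTop, (bH n : ℝ) ^ ((1 : ℝ) / (n : ℝ)) < μ := by
    refine eventually_lt_of_limsup_lt h1 ⟨bG 1, ?_⟩
    rw [eventually_map]
    filter_upwards [eventually_gt_atTop 0] with n hn
    refine le_of_pow_le_pow_left₀ hn.ne' (by positivity) ?_
    rw [root _ _ hn]
    exact_mod_cast (bH_le n).trans (bG_le n)
  have hμ : 0 < μ := by
    obtain ⟨n, hn⟩ := e1.exists
    exact lt_of_le_of_lt (by positivity) hn
  have e2 : ∃ᶠ n : ℕ in atTop, ν < (bG n : ℝ) ^ ((1 : ℝ) / (n : ℝ)) :=
    frequently_lt_of_lt_limsup (isCoboundedUnder_le_of_le (x := 0) _ (fun n => by positivity)) h4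
  have e3 : ∀ᶠ n : ℕ in atTop, (bH n : ℝ) ≤ μ ^ n := by
    filter_upwards [e1, eventually_gt_atTop 0] with n a1 a2
    rw [← root _ _ a2]
    exact pow_le_pow_left₀ (by positivity) a1.le _
  obtain ⟨N0, hN0⟩ := eventually_atTop.1 e3
  have hr : 1 < ν / μ := by rwa [one_lt_div hμ]
  have e4 := (tendsto_pow_const_div_const_pow_of_one_lt 2 hr).eventually
    (gt_mem_nhds (show (0 : ℝ) < 1 / (66 * μ ^ 4) by positivity))
  obtain ⟨k, a1, a2, a3⟩ := (e2.and_eventually (e4.and (eventually_gt_atTop 0))).exists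
  have hν : 0 < ν := hμ.trans h3
  have a4 : ν ^ k ≤ bG k := by
    rw [← root _ _ a3]
    exact pow_le_pow_left₀ hν.le a1.le _
  obtain ⟨α, b1, b2⟩ := keyineq k
  have b3 : (α : ℝ) ≤ μ ^ (k + 4) := by
    by_contra hc
    rw [not_le] at hc
    have hp : 0 < μ ^ (k + 4) := by positivity
    have c1 : 1 < ((α : ℝ) / μ ^ (k + 4)) ^ 2 := one_lt_pow₀ (by rwa [one_lt_div hp]) (by norm_num)
    obtain ⟨m, c2, c3⟩ := (((tendsto_pow_atTop_atTop_of_one_lt c1).eventually_gt_atTop
      ((μ ^ (k + 4)) ^ 4)).and (eventually_ge_atTop N0)).exists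
    have c4 := hN0 (2 * (k + 4) * (m + 2)) (by nlinarith)
    have c5 : (α : ℝ) ^ (2 * m) ≤ bH (2 * (k + 4) * (m + 2)) := by exact_mod_cast b2 m
    rw [← pow_mul _ 2 m, div_pow, lt_div_iff₀ (by positivity)] at c2
    have c6 : (μ ^ (k + 4)) ^ 4 * (μ ^ (k + 4)) ^ (2 * m) = μ ^ (2 * (k + 4) * (m + 2)) := by
      ring
    linarith
  have b4 : (bG k : ℝ) ≤ 66 * k ^ 2 * α := by
    have : (k + 5) * (2 * k + 9) ≤ 66 * k ^ 2 := by nlinarith
    exact_mod_cast b1.trans (Nat.mul_le_mul_right _ this)
  rw [div_lt_div_iff₀ (by positivity) (by positivity), div_pow, one_mul,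
    lt_div_iff₀ (by positivity)] at a2
  have b5 : 66 * (k : ℝ) ^ 2 * α ≤ 66 * k ^ 2 * μ ^ (k + 4) := by gcongr
  have b6 : (k : ℝ) ^ 2 * (66 * μ ^ 4) * μ ^ k = 66 * k ^ 2 * μ ^ (k + 4) := by ring
  linarith

def S : Finset G := {a, b}

theorem S_gen : Subgroup.closure (S : Set G) = ⊤ := by
  rw [← FreeGroup.closure_range_of]
  congr 1
  ext x
  simp [S, a, b, eq_comm, or_comm]

theorem ball_iff (g : G) (n : ℕ) : (∃ l : List G, l.length ≤ n ∧
    (∀ x ∈ l, x ∈ S ∨ x⁻¹ ∈ S) ∧ l.prod = g) ↔ nm g ≤ n := by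
  constructor
  · rintro ⟨l, h1, h2, rfl⟩
    refine le_trans ?_ h1
    clear h1
    induction l with
    | nil => simp
    | cons x l ih =>
      have i := ih (fun y hy => h2 y (by simp [hy]))
      have e := nm_mul_le x l.prod
      have k : ∀ y ∈ S, nm y = 1 := by
        intro y hy
        simp only [S, Finset.mem_insert, Finset.mem_singleton] at hy
        rcases hy with rfl | rfl <;> exact FreeGroup.norm_of _
      have : nm x = 1 := by
        rcases h2 x (by simp) with h | h
        · exact k _ h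
        · rw [← nm_inv]; exact k _ h
      rw [List.prod_cons, List.length_cons]
      omega
  · intro h
    induction n generalizing g with
    | zero => exact ⟨[], by simp, by simp, by simpa [eq_comm] using h⟩
    | succ n ih =>
      by_cases h0 : g = 1
      · exact ⟨[], by simp, by simp, by simp [h0]⟩
      obtain ⟨u, hu⟩ := first h0
      obtain ⟨l, a1, a2, a3⟩ := ih ((lt u)⁻¹ * g) (by omega)
      refine ⟨lt u :: l, by simpa using a1, ?_, by simp [a3]⟩
      intro x hx
      rcases List.mem_cons.1 hx with rfl | hx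
      · rw [lt_inv]
        obtain ⟨_ | _, _ | _⟩ := u
        · exact Or.inr (Finset.mem_insert_of_mem (Finset.mem_singleton_self _))
        · exact Or.inl (Finset.mem_insert_of_mem (Finset.mem_singleton_self _))
        · exact Or.inr (Finset.mem_insert_self _ _)
        · exact Or.inl (Finset.mem_insert_self _ _)
      · exact a2 x hx

end Pool.Agent.H69.Coam
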