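import Mathlib

namespace Pool.Agent.H69.Cond

/-- Quasi-isometry of the graph metrics. -/
def QuasiIsometric {V V' : Type*} (Γ : SimpleGraph V) (Γ' : SimpleGraph V') : Prop :=
  ∃ (f : V → V') (L C : ℝ), 1 ≤ L ∧ 0 ≤ C ∧
    (∀ x y, (Γ.dist x y : ℝ) / L - C ≤ Γ'.dist (f x) (f y) ∧
      (Γ'.dist (f x) (f y) : ℝ) ≤ L * Γ.dist x y + C) ∧
    ∀ y, ∃ x, (Γ'.dist y (f x) : ℝ) ≤ C

/-- The isomorphism class of `G` in the space of `n`-generated marked groups: the normal
subgroups `N` of the free group `F_n` with `F_n / N` isomorphic to `G`. -/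
def isoClass (G : Type*) [Group G] (n : ℕ) : Set (Subgroup (FreeGroup (Fin n))) :=
  {N | ∃ _ : N.Normal, Nonempty (FreeGroup (Fin n) ⧸ N ≃* G)}

/-- `G` is condensed: no point `N` of its isomorphism class is isolated in it, i.e. every basic
neighbourhood of `N` in the product topology (the subgroups with the same trace as `N` on a
finite set `B`) contains another point of the class. -/
def Condensed (G : Type*) [Group G] : Prop :=
  ∀ n, 1 ≤ n → ∀ N ∈ isoClass G n, ∀ B : Finset (FreeGroup (Fin n)),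
    ∃ N' ∈ isoClass G n, N' ≠ N ∧ ∀ w ∈ B, (w ∈ N' ↔ w ∈ N)

end Pool.Agent.H69.Cond
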