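import Mathlib
import Pool.Agent.H69.CondDefs
import Pool.Agent.H69.CB

namespace Pool.Agent.H69.Cond

open LaurentPolynomial Filter

theorem mem_isoClass {G : Type*} [Group G] {n : ℕ} {N : Subgroup (FreeGroup (Fin n))} :
    N ∈ isoClass G n ↔ ∃ φ : FreeGroup (Fin n) →* G, Function.Surjective φ ∧ φ.ker = N := by
  constructor
  · rintro ⟨_, ⟨e⟩⟩
    refine ⟨e.toMonoidHom.comp (QuotientGroup.mk' N), e.surjective.comp
      (QuotientGroup.mk'_surjective N), ?_⟩
    ext w
    simp
  · rintro ⟨φ, h, rfl⟩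
    exact ⟨inferInstance, ⟨QuotientGroup.quotientKerEquivOfSurjective φ h⟩⟩

theorem hopf {G : Type*} [Group G] {n : ℕ} (φ : FreeGroup (Fin n) →* G)
    (hφ : Function.Surjective φ)
    (rf : ∀ g : G, g ≠ 1 → ∃ (Q : Type) (_ : Group Q) (_ : Finite Q) (ρ : G →* Q), ρ g ≠ 1)
    (σ : G →* G) (hσ : Function.Surjective σ) : Function.Injective σ := by
  rw [injective_iff_map_eq_one]
  intro g hg
  by_contra hne
  obtain ⟨Q, _, _, ρ, hρ⟩ := rf g hne
  have : Finite (G →* Q) := Finite.of_injective (fun ρ (i : Fin n) => ρ (φ (FreeGroup.of i)))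
    (fun a b h => (MonoidHom.cancel_right hφ).1 (FreeGroup.ext_hom _ _ (congrFun h)))
  obtain ⟨ρ', h⟩ := Finite.injective_iff_surjective.1
    (show Function.Injective (fun ρ : G →* Q => ρ.comp σ) from
      fun a b h => (MonoidHom.cancel_right hσ).1 h) ρ
  apply hρ
  rw [← h]
  simp [hg]

abbrev F := ZMod 2
abbrev R := LaurentPolynomial F

theorem Rind {P : R → Prop} (h0 : P 0) (hT : ∀ n, P (T n)) (ha : ∀ p q, P p → P q → P (p + q))
    (f : R) : P f := by
  induction f using LaurentPolynomial.induction_on' with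
  | add p q hp hq => exact ha p q hp hq
  | C_mul_T n a =>
    have : a = 0 ∨ a = 1 := by revert a; decide
    rcases this with rfl | rfl
    · simpa using h0
    · simpa using hT n

theorem TT (k : ℤ) : (T k : R) * T (-k) = 1 := by rw [← T_add]; simp

theorem two (f : R) : f + f = 0 := by
  induction f using Rind with
  | h0 => simp
  | hT n =>
    have : (C (1 + 1 : F) : R) = 0 := by rw [show (1 + 1 : F) = 0 from rfl, map_zero]
    rw [map_add, map_one] at this
    linear_combination T n * this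
  | ha p q hp hq => linear_combination hp + hq

@[ext] structure Gp (l : R →+ F) where
  x : R
  y : R
  z : F
  k : ℤ

variable {l m : R →+ F}

noncomputable instance : Mul (Gp l) :=
  ⟨fun g h => ⟨h.x + g.x * T h.k, g.y + T g.k * h.y, g.z + h.z + l (g.x * h.y), g.k + h.k⟩⟩
noncomputable instance : One (Gp l) := ⟨⟨0, 0, 0, 0⟩⟩
noncomputable instance : Inv (Gp l) :=
  ⟨fun g => ⟨-(g.x * T (-g.k)), -(T (-g.k) * g.y), -g.z + l (g.x * T (-g.k) * g.y), -g.k⟩⟩

@[simp] theorem mul_x (g h : Gp l) : (g * h).x = h.x + g.x * T h.k := rfl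
@[simp] theorem mul_y (g h : Gp l) : (g * h).y = g.y + T g.k * h.y := rfl
@[simp] theorem mul_z (g h : Gp l) : (g * h).z = g.z + h.z + l (g.x * h.y) := rfl
@[simp] theorem mul_k (g h : Gp l) : (g * h).k = g.k + h.k := rfl
@[simp] theorem one_x : (1 : Gp l).x = 0 := rfl
@[simp] theorem one_y : (1 : Gp l).y = 0 := rfl
@[simp] theorem one_z : (1 : Gp l).z = 0 := rfl
@[simp] theorem one_k : (1 : Gp l).k = 0 := rfl
@[simp] theorem inv_x (g : Gp l) : (g⁻¹).x = -(g.x * T (-g.k)) := rfl
@[simp] theorem inv_y (g : Gp l) : (g⁻¹).y = -(T (-g.k) * g.y) := rfl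
@[simp] theorem inv_z (g : Gp l) : (g⁻¹).z = -g.z + l (g.x * T (-g.k) * g.y) := rfl
@[simp] theorem inv_k (g : Gp l) : (g⁻¹).k = -g.k := rfl

noncomputable instance : Group (Gp l) := Group.ofLeftAxioms
  (fun a b c => by
    refine Gp.ext ?_ ?_ ?_ ?_
    · simp only [mul_x, mul_k, T_add]; ring
    · simp only [mul_y, mul_k, T_add]; ring
    · simp only [mul_x, mul_y, mul_z, add_mul, mul_add, map_add, mul_assoc]; ring
    · simp only [mul_k]; ring)
  (fun a => by refine Gp.ext ?_ ?_ ?_ ?_ <;> simp)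
  (fun a => by
    have := TT a.k
    refine Gp.ext ?_ ?_ ?_ ?_
    · simp only [mul_x, inv_x, one_x]; linear_combination (-a.x) * this
    · simp
    · simp only [mul_z, inv_z, inv_x, one_z, neg_mul, map_neg]; ring
    · simp)

noncomputable def gen (l : R →+ F) : Fin 4 → Gp l :=
  ![⟨1, 0, 0, 0⟩, ⟨0, 1, 0, 0⟩, ⟨0, 0, 1, 0⟩, ⟨0, 0, 0, 1⟩]

theorem t_zpow (j : ℤ) : gen l 3 ^ j = ⟨0, 0, 0, j⟩ := by
  let th : Multiplicative ℤ →* Gp l := MonoidHom.mk' (fun k => ⟨0, 0, 0, k.toAdd⟩)
    (fun a b => by refine Gp.ext ?_ ?_ ?_ ?_ <;> simp)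
  have : gen l 3 = th (Multiplicative.ofAdd 1) := rfl
  rw [this, ← map_zpow]
  simp [th]

theorem gen_top (K : Subgroup (Gp l)) (h : ∀ i, gen l i ∈ K) (g : Gp l) : g ∈ K := by
  have ht : ∀ j, (⟨0, 0, 0, j⟩ : Gp l) ∈ K := fun j => t_zpow (l := l) j ▸ K.zpow_mem (h 3) j
  have hx : ∀ x, (⟨x, 0, 0, 0⟩ : Gp l) ∈ K := by
    intro x
    induction x using Rind with
    | h0 => exact K.one_mem
    | hT n =>
      convert K.mul_mem (K.mul_mem (ht (-n)) (h 0)) (ht n) using 1
      refine Gp.ext ?_ ?_ ?_ ?_ <;> simp [gen]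
    | ha p q hp hq =>
      convert K.mul_mem hq hp using 1
      refine Gp.ext ?_ ?_ ?_ ?_ <;> simp
  have hy : ∀ x, (⟨0, x, 0, 0⟩ : Gp l) ∈ K := by
    intro x
    induction x using Rind with
    | h0 => exact K.one_mem
    | hT n =>
      convert K.mul_mem (K.mul_mem (ht n) (h 1)) (ht (-n)) using 1
      refine Gp.ext ?_ ?_ ?_ ?_ <;> simp [gen]
    | ha p q hp hq =>
      convert K.mul_mem hp hq using 1
      refine Gp.ext ?_ ?_ ?_ ?_ <;> simp
  have hz : ∀ z, (⟨0, 0, z, 0⟩ : Gp l) ∈ K := by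
    intro z
    have : z = 0 ∨ z = 1 := by revert z; decide
    rcases this with rfl | rfl
    · exact K.one_mem
    · exact h 2
  convert K.mul_mem (K.mul_mem (K.mul_mem (hy g.y) (hz g.z)) (ht g.k)) (hx g.x) using 1
  refine Gp.ext ?_ ?_ ?_ ?_ <;> simp

theorem gen_closure : Subgroup.closure (Set.range (gen l)) = ⊤ :=
  eq_top_iff.2 (fun g _ => gen_top _ (fun i => Subgroup.subset_closure (Set.mem_range_self i)) g)

def cast (m : R →+ F) (g : Gp l) : Gp m := ⟨g.x, g.y, g.z, g.k⟩

section qi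

open SimpleGraph CB

theorem lip : ∀ (n : ℕ) (g h : Gp l), (mulCayley (Set.range (gen l))).dist g h = n →
    (mulCayley (Set.range (gen m))).dist (cast m g) (cast m h) ≤ 2 * n := by
  have cl := cay_conn (gen_closure (l := l))
  have cm := cay_conn (gen_closure (l := m))
  have one : ∀ (g : Gp m) i, (mulCayley (Set.range (gen m))).dist g (g * gen m i) ≤ 1 := by
    intro g i
    by_cases e : g = g * gen m i
    · rw [← e]; simp
    · exact (d1 ((mulCayley_adj' _ _ _).2 ⟨e, _, Set.mem_range_self i, Or.inl rfl⟩)).le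
  have e : ∀ (g : Gp l) i,
      (mulCayley (Set.range (gen m))).dist (cast m g) (cast m (g * gen l i)) ≤ 2 := by
    intro g i
    have hxy : (gen l i).x = (gen m i).x ∧ (gen l i).y = (gen m i).y ∧ (gen l i).z = (gen m i).z
      ∧ (gen l i).k = (gen m i).k := by fin_cases i <;> simp [gen]
    have : ∀ a b : F, a = b ∨ a = b + 1 := by decide
    rcases this (l (g.x * (gen m i).y)) (m (g.x * (gen m i).y)) with h | h
    · have : cast m (g * gen l i) = cast m g * gen m i := by
        refine Gp.ext ?_ ?_ ?_ ?_ <;> simp [cast, hxy, h]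
      rw [this]
      exact (one _ i).trans (by norm_num)
    · have : cast m (g * gen l i) = cast m g * gen m i * gen m 2 := by
        have e2 : gen m 2 = ⟨0, 0, 1, 0⟩ := rfl
        refine Gp.ext ?_ ?_ ?_ ?_ <;> simp [cast, hxy, h, e2, add_assoc]
      rw [this]
      have a := one (cast m g) i
      have b := one (cast m g * gen m i) 2
      have := tri cm (cast m g) (cast m g * gen m i) (cast m g * gen m i * gen m 2)
      omega
  intro n
  induction n with
  | zero => intro g h hn; rw [d0 cl hn]; simp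
  | succ n ih =>
    intro g h hn
    obtain ⟨z, a1, a2⟩ := step cl hn
    have e1 := tri cm (cast m g) (cast m z) (cast m h)
    have e2 := ih z h a2
    have e3 : (mulCayley (Set.range (gen m))).dist (cast m g) (cast m z) ≤ 2 := by
      obtain ⟨-, s, ⟨i, rfl⟩, rfl | rfl⟩ := (mulCayley_adj' _ _ _).1 a1
      · exact e _ i
      · rw [SimpleGraph.dist_comm]
        exact e _ i
    omega

theorem qi : QuasiIsometric (mulCayley (Set.range (gen l))) (mulCayley (Set.range (gen m))) := by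
  refine ⟨cast m, 2, 0, by norm_num, le_rfl, fun g h => ⟨?_, ?_⟩, fun y => ⟨cast l y, ?_⟩⟩
  · have := lip (l := m) (m := l) _ (cast m g) (cast m h) rfl
    rw [sub_zero, div_le_iff₀ (by norm_num), mul_comm]
    exact_mod_cast this
  · rw [add_zero]
    exact_mod_cast lip _ g h rfl
  · have : cast m (cast l y) = y := rfl
    simp [this]

end qi

section notcond

theorem sep (y : R) (hy : y ≠ 0) :
    ∃ (A : Type) (_ : CommRing A) (_ : Finite A) (ev : R →+* A), ev y ≠ 0 := by
  obtain ⟨n, f, hf⟩ := exists_T_pow y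
  have hf0 : f ≠ 0 := by
    rintro rfl
    apply hy
    have := TT n
    rw [map_zero] at hf
    linear_combination (-y) * this - T (-n) * hf
  let p : Polynomial F := Polynomial.X * f + 1
  have hd : p.natDegree = f.natDegree + 1 := by
    rw [Polynomial.natDegree_add_eq_left_of_natDegree_lt, Polynomial.natDegree_X_mul hf0]
    rw [Polynomial.natDegree_X_mul hf0]
    simp
  have hp0 : p ≠ 0 := by intro h; rw [h] at hd; simp at hd
  haveI : Nontrivial (AdjoinRoot p) := AdjoinRoot.nontrivial p (by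
    rw [Polynomial.degree_eq_natDegree hp0, hd]
    exact_mod_cast Nat.succ_ne_zero f.natDegree)
  haveI : Module.Finite F (AdjoinRoot p) := (AdjoinRoot.powerBasis hp0).finite
  have e : AdjoinRoot.root p * -(Polynomial.eval₂ (AdjoinRoot.of p) (AdjoinRoot.root p) f) = 1 := by
    have := AdjoinRoot.eval₂_root p
    simp only [p, Polynomial.eval₂_add, Polynomial.eval₂_mul, Polynomial.eval₂_X,
      Polynomial.eval₂_one] at this
    linear_combination -this
  let u : (AdjoinRoot p)ˣ := Units.mkOfMulEqOne _ _ e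
  refine ⟨AdjoinRoot p, inferInstance, Module.finite_of_finite F,
    LaurentPolynomial.eval₂ (AdjoinRoot.of p) u, fun h => ?_⟩
  have := congrArg (LaurentPolynomial.eval₂ (AdjoinRoot.of p) u) hf
  rw [map_mul, h, zero_mul, eval₂_toLaurent] at this
  have e2 : (u : AdjoinRoot p) = AdjoinRoot.root p := rfl
  rw [e2] at this
  rw [this] at e
  simp at e

theorem rf (g : Gp 0) (hg : g ≠ 1) :
    ∃ (Q : Type) (_ : Group Q) (_ : Finite Q) (ρ : Gp 0 →* Q), ρ g ≠ 1 := by
  by_cases hz : g.z = 0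
  swap
  · exact ⟨Multiplicative F, inferInstance, inferInstance,
      MonoidHom.mk' (fun g => Multiplicative.ofAdd g.z) (fun a b => by simp), by simpa using hz⟩
  by_cases hk : g.k = 0
  swap
  · refine ⟨Multiplicative (ZMod (g.k.natAbs + 1)), inferInstance, inferInstance,
      MonoidHom.mk' (fun g => Multiplicative.ofAdd g.k) (fun a b => by simp), ?_⟩
    simp only [MonoidHom.mk'_apply, ne_eq, ofAdd_eq_one, ZMod.intCast_zmod_eq_zero_iff_dvd]
    intro h
    have := Int.natAbs_le_of_dvd_ne_zero h hk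
    omega
  by_cases hy : g.y = 0
  swap
  · obtain ⟨A, _, _, ev, h⟩ := sep g.y hy
    letI : MulAction (Gp 0) A :=
      { smul := fun g v => ev (T g.k) * v + ev g.y
        one_smul := fun v => by change ev (T 0) * v + ev 0 = v; simp
        mul_smul := fun g h v => by
          change ev (T (g * h).k) * v + ev (g * h).y =
            ev (T g.k) * (ev (T h.k) * v + ev h.y) + ev g.y
          simp only [mul_k, mul_y, T_add, map_add, map_mul]
          ring }
    refine ⟨Equiv.Perm A, inferInstance, inferInstance, MulAction.toPermHom _ A, fun e => h ?_⟩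
    have : ev (T g.k) * 0 + ev g.y = 0 := congrArg (fun p : Equiv.Perm A => p 0) e
    simpa using this
  have hx : g.x ≠ 0 := fun hx => hg (Gp.ext hx hy hz hk)
  obtain ⟨A, _, _, ev, h⟩ := sep g.x hx
  letI : MulAction (Gp 0) A :=
    { smul := fun g v => ev (T (-g.k)) * (v + ev g.x)
      one_smul := fun v => by change ev (T (-0)) * (v + ev 0) = v; simp
      mul_smul := fun g h v => by
        change ev (T (-(g * h).k)) * (v + ev (g * h).x) =
          ev (T (-g.k)) * (ev (T (-h.k)) * (v + ev h.x) + ev g.x)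
        have := congrArg ev (TT h.k)
        simp only [mul_k, mul_x, neg_add, T_add, map_add, map_mul, map_one] at this ⊢
        linear_combination ev (T (-g.k)) * ev g.x * this }
  refine ⟨Equiv.Perm A, inferInstance, inferInstance, MulAction.toPermHom _ A, fun e => h ?_⟩
  have : ev (T (-g.k)) * (0 + ev g.x) = 0 := congrArg (fun p : Equiv.Perm A => p 0) e
  simpa [hk] using this

noncomputable def io (e : ℤ) : R →+* R := LaurentPolynomial.eval₂ C (unitOfInvertible (T e))

theorem io_T (e j : ℤ) : io e (T j) = T (e * j) := by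
  rw [io, eval₂_T]
  let th : Multiplicative ℤ →* Rˣ := MonoidHom.mk' (fun k => unitOfInvertible (T k.toAdd))
    (fun a b => Units.ext (T_add _ _))
  have : unitOfInvertible (T e : R) = th (Multiplicative.ofAdd e) := rfl
  rw [this, ← map_zpow]
  simp [th, mul_comm]

noncomputable def aug : R →+* F := LaurentPolynomial.eval₂ (RingHom.id F) 1

theorem aug_T (j : ℤ) : aug (T j) = 1 := by simp [aug]

theorem k_zpow (τ : Gp l) (j : ℤ) : (τ ^ j).k = τ.k * j := by
  let th : Gp l →* Multiplicative ℤ := MonoidHom.mk' (fun g => Multiplicative.ofAdd g.k)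
    (fun a b => by simp)
  have := map_zpow th τ j
  have := congrArg Multiplicative.toAdd this
  simpa [th, mul_comm] using this

theorem univ (p : Fin 4 → Gp 0) (h0 : (p 0).k = 0) (h1 : (p 1).k = 0) (h2 : (p 2).k = 0)
    (h3 : Commute (p 2) (p 3)) : ∃ σ : Gp 0 →* Gp 0, ∀ i, σ (gen 0 i) = p i := by
  set e := (p 3).k with he
  have hc : ∀ j : ℤ, (p 2).x * T (e * j) = (p 2).x ∧ T (e * j) * (p 2).y = (p 2).y := by
    intro j
    have := (h3.zpow_right j).eq
    have a := congrArg Gp.x this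
    have b := congrArg Gp.y this
    simp only [mul_x, mul_y, h2, T_zero, k_zpow, ← he] at a b
    exact ⟨by linear_combination a, by linear_combination -b⟩
  let nn : Gp 0 → Gp 0 := fun g =>
    ⟨(p 0).x * io e (g.x * T (-g.k)) + (p 1).x * io (-e) g.y + (p 2).x * C g.z,
     (p 0).y * io (-e) (g.x * T (-g.k)) + (p 1).y * io e g.y + (p 2).y * C g.z,
     (p 0).z * aug g.x + (p 1).z * aug g.y + (p 2).z * g.z, 0⟩
  have key : ∀ g h : Gp 0, nn (g * h) * p 3 ^ g.k = nn g * p 3 ^ g.k * nn h := by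
    intro g h
    have t1 := TT (e * g.k)
    have t2 := congrArg (io e) (TT h.k)
    have t3 := congrArg (io (-e)) (TT h.k)
    have t4 := (hc g.k).1
    have t5 := (hc g.k).2
    refine Gp.ext ?_ ?_ ?_ ?_
    · simp only [nn, mul_x, mul_y, mul_z, mul_k, mul_add, Int.neg_add, T_add, map_add, map_mul,
        io_T, k_zpow,
        ← he, T_zero, AddMonoidHom.zero_apply, add_zero, mul_neg, neg_mul, neg_neg,
        map_one] at t2 t3 ⊢
      linear_combination (p 0).x * io e g.x * T (-(e * g.k)) * T (e * g.k) * t2 +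
        ((p 0).x * io e h.x * T (-(e * h.k)) + (p 1).x * io (-e) h.y) * t1 + C h.z * t4
    · simp only [nn, mul_x, mul_y, mul_z, mul_k, mul_add, Int.neg_add, T_add, map_add, map_mul,
        io_T, k_zpow,
        ← he, T_zero, AddMonoidHom.zero_apply, add_zero, mul_neg, neg_mul, neg_neg, zero_add,
        map_one] at t2 t3 ⊢
      linear_combination (p 0).y * io (-e) g.x * T (e * g.k) * t3 - C h.z * t5
    · simp only [nn, mul_x, mul_y, mul_z, mul_k, map_add, map_mul, aug_T,
        AddMonoidHom.zero_apply]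
      ring
    · simp [nn]
  refine ⟨MonoidHom.mk' (fun g => nn g * p 3 ^ g.k) (fun g h => ?_), fun i => ?_⟩
  · rw [mul_k, zpow_add, ← mul_assoc, key, mul_assoc (nn g * _)]
  · have g0 : gen 0 0 = ⟨1, 0, 0, 0⟩ := rfl
    have g1 : gen 0 1 = ⟨0, 1, 0, 0⟩ := rfl
    have g2 : gen 0 2 = ⟨0, 0, 1, 0⟩ := rfl
    have g3 : gen 0 3 = ⟨0, 0, 0, 1⟩ := rfl
    have : i = 0 ∨ i = 1 ∨ i = 2 ∨ i = 3 := by omega
    rw [MonoidHom.mk'_apply]
    rcases this with rfl | rfl | rfl | rfl
    · rw [g0, zpow_zero, mul_one]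
      refine Gp.ext ?_ ?_ ?_ h0.symm <;>
        simp only [nn, neg_zero, T_zero, mul_one, map_one, map_zero, mul_zero, add_zero]
    · rw [g1, zpow_zero, mul_one]
      refine Gp.ext ?_ ?_ ?_ h1.symm <;>
        simp only [nn, neg_zero, T_zero, mul_one, map_one, map_zero, mul_zero, add_zero, zero_add]
    · rw [g2, zpow_zero, mul_one]
      refine Gp.ext ?_ ?_ ?_ h2.symm <;>
        simp only [nn, neg_zero, T_zero, mul_one, map_one, map_zero, mul_zero, add_zero, zero_add]
    · rw [g3, zpow_one]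
      have : nn ⟨0, 0, 0, 1⟩ = 1 := by
        refine Gp.ext ?_ ?_ ?_ rfl <;>
          simp only [nn, map_zero, mul_zero, add_zero, zero_mul, one_x, one_y, one_z]
      rw [this, one_mul]

theorem not_cond : ¬ Condensed (Gp 0) := by
  intro h
  let φ : FreeGroup (Fin 4) →* Gp 0 := FreeGroup.lift (gen 0)
  have hφ : Function.Surjective φ :=
    FreeGroup.lift_surjective_iff_closure_range_eq_top.2 gen_closure
  let o : Fin 4 → FreeGroup (Fin 4) := FreeGroup.of
  obtain ⟨N', h1, h2, h3⟩ := h 4 (by norm_num) _ (mem_isoClass.2 ⟨φ, hφ, rfl⟩)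
    {o 0 * o 0, o 1 * o 1, o 2 * o 2, o 2 * o 3 * (o 3 * o 2)⁻¹}
  obtain ⟨ψ, a1, rfl⟩ := mem_isoClass.1 h1
  have t1 := two 1
  have t2 : (1 + 1 : F) = 0 := rfl
  have sq : ∀ i, o i * o i ∈ ψ.ker → (ψ (o i)).k = 0 := by
    intro i hi
    have := congrArg Gp.k (MonoidHom.mem_ker.1 hi)
    simp at this
    omega
  obtain ⟨σ, hσ⟩ := univ (fun i => ψ (o i))
    (sq _ ((h3 _ (by simp)).2 (by
      rw [MonoidHom.mem_ker]; refine Gp.ext ?_ ?_ ?_ ?_ <;> simp [φ, o, gen, t1])))
    (sq _ ((h3 _ (by simp)).2 (by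
      rw [MonoidHom.mem_ker]; refine Gp.ext ?_ ?_ ?_ ?_ <;> simp [φ, o, gen, t1])))
    (sq _ ((h3 _ (by simp)).2 (by
      rw [MonoidHom.mem_ker]; refine Gp.ext ?_ ?_ ?_ ?_ <;> simp [φ, o, gen] <;> rfl)))
    (by
      have : o 2 * o 3 * (o 3 * o 2)⁻¹ ∈ ψ.ker := (h3 _ (by simp)).2 (by
        rw [MonoidHom.mem_ker]; refine Gp.ext ?_ ?_ ?_ ?_ <;> simp [φ, o, gen] <;> rfl)
      rw [MonoidHom.mem_ker, map_mul, map_inv, mul_inv_eq_one, map_mul, map_mul] at this
      exact this)
  have e : σ.comp φ = ψ := FreeGroup.ext_hom _ _ (fun i => by simp [φ, hσ, o])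
  have hs : Function.Surjective σ := Function.Surjective.of_comp (g := φ) (by
    rw [← MonoidHom.coe_comp, e]; exact a1)
  have hi := hopf φ hφ rf σ hs
  apply h2
  ext w
  rw [← e, MonoidHom.mem_ker, MonoidHom.mem_ker, MonoidHom.comp_apply, map_eq_one_iff _ hi]

end notcond

section cond

noncomputable def ee (j : ℤ) : F := if Even (padicValRat 2 j) then 1 else 0

noncomputable def lam : R →+ F :=
  (Finsupp.linearCombination F ee).toAddMonoidHom.comp AddMonoidAlgebra.coeffAddEquiv.toAddMonoidHom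

theorem lam_T (j : ℤ) : lam (T j) = ee j := by
  change Finsupp.linearCombination F ee (Finsupp.single j 1) = ee j
  simp

theorem v2 (s : ℕ) : padicValRat 2 ((2 ^ s : ℤ) : ℚ) = s := by
  have := padicValRat.pow (p := 2) (q := (2 : ℕ)) (k := s)
  rw [padicValRat.self (by norm_num)] at this
  simpa using this

theorem ee_pow (s : ℕ) : ee (2 ^ (2 * s)) = 1 ∧ ee (2 ^ (2 * s) + 2 ^ (2 * s)) = 0 := by
  constructor
  · rw [ee, v2, if_pos (by simp)]
  · rw [← two_mul, ← pow_succ', ee, v2, if_neg (by simp [parity_simps])]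

theorem ee_ev (j : ℤ) : ∀ᶠ s : ℕ in atTop, ee (2 ^ (2 * s) + j) = ee j := by
  by_cases hj : j = 0
  · subst hj
    refine Eventually.of_forall (fun s => ?_)
    rw [add_zero, (ee_pow s).1]
    simp [ee]
  filter_upwards [eventually_gt_atTop (padicValRat 2 j).toNat, eventually_gt_atTop j.natAbs]
    with s h1 h2
  have e1 : 2 * s < 2 ^ (2 * s) := Nat.lt_two_pow_self
  have e2 : ((2 * s : ℕ) : ℤ) < 2 ^ (2 * s) := by exact_mod_cast e1
  have e3 : (j : ℚ) + ((2 ^ (2 * s) : ℤ) : ℚ) ≠ 0 := by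
    have : j + 2 ^ (2 * s) ≠ 0 := by omega
    exact_mod_cast this
  have := padicValRat.add_eq_of_lt (p := 2) e3 (by exact_mod_cast hj) (by positivity)
    (by rw [v2]; omega)
  unfold ee
  rw [add_comm, Int.cast_add, this]

noncomputable def ls (s : ℕ) : R →+ F := lam.comp (AddMonoidHom.mulLeft (T (2 ^ (2 * s))))

theorem ls_apply (s : ℕ) (f : R) : ls s f = lam (T (2 ^ (2 * s)) * f) := rfl

theorem ls_ev (f : R) : ∀ᶠ s : ℕ in atTop, ls s f = lam f := by
  induction f using Rind with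
  | h0 => simp
  | hT n =>
    filter_upwards [ee_ev n] with s hs
    rw [ls_apply, ← T_add, lam_T, lam_T, hs]
  | ha p q hp hq =>
    filter_upwards [hp, hq] with s a b
    rw [map_add, map_add, a, b]

noncomputable def th (s : ℕ) : Gp (ls s) →* Gp lam :=
  MonoidHom.mk' (fun g => ⟨g.x, T (2 ^ (2 * s)) * g.y, g.z, g.k⟩) (fun g h => by
    refine Gp.ext ?_ ?_ ?_ ?_
    · simp
    · simp only [mul_y]; ring
    · simp only [mul_z, ls_apply]; congr 2; ring
    · simp)

theorem th_bij (s : ℕ) : Function.Bijective (th s) := by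
  have t := TT (2 ^ (2 * s))
  constructor
  · rw [injective_iff_map_eq_one]
    intro g hg
    have b : T (2 ^ (2 * s)) * g.y = 0 := congrArg Gp.y hg
    have b1 := congrArg Gp.x hg
    have b2 := congrArg Gp.z hg
    have b3 := congrArg Gp.k hg
    refine Gp.ext b1 ?_ b2 b3
    rw [one_y]
    linear_combination T (-2 ^ (2 * s)) * b - g.y * t
  · intro g
    refine ⟨⟨g.x, T (-2 ^ (2 * s)) * g.y, g.z, g.k⟩, Gp.ext rfl ?_ rfl rfl⟩
    change T (2 ^ (2 * s)) * (T (-2 ^ (2 * s)) * g.y) = g.y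
    linear_combination g.y * t

theorem comm (j : ℤ) : gen l 0 * (gen l 3 ^ j * gen l 1 * (gen l 3 ^ j)⁻¹) *
    ((gen l 3 ^ j * gen l 1 * (gen l 3 ^ j)⁻¹) * gen l 0)⁻¹ = 1 ↔ l (T j) = 0 := by
  rw [mul_inv_eq_one, t_zpow, Gp.ext_iff]
  have := TT j
  simp [gen, ← T_add]

theorem cond : Condensed (Gp lam) := by
  intro n _ N hN B
  obtain ⟨φ, hφ, rfl⟩ := mem_isoClass.1 hN
  let ψ : ∀ s, FreeGroup (Fin n) →* Gp (ls s) := fun s =>
    FreeGroup.lift (fun i => cast (ls s) (φ (FreeGroup.of i)))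
  have ev : ∀ w, ∀ᶠ s in atTop, ψ s w = cast (ls s) (φ w) := by
    intro w
    induction w using FreeGroup.induction_on with
    | C1 => exact Eventually.of_forall (fun s => by rw [map_one, map_one]; rfl)
    | of i => exact Eventually.of_forall (fun s => by simp [ψ])
    | inv_of i ih =>
      filter_upwards [ih, ls_ev ((φ (FreeGroup.of i)).x * T (-(φ (FreeGroup.of i)).k) *
        (φ (FreeGroup.of i)).y)] with s a b
      rw [map_inv, map_inv, a]
      refine Gp.ext rfl rfl ?_ rfl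
      simp only [cast, inv_z, b]
    | mul x y hx hy =>
      filter_upwards [hx, hy, ls_ev ((φ x).x * (φ y).y)] with s a b c
      rw [map_mul, map_mul, a, b]
      refine Gp.ext rfl rfl ?_ rfl
      simp only [cast, mul_z, c]
  choose w hw using fun i => hφ (gen lam i)
  obtain ⟨s, a1, a2⟩ := (((eventually_all_finset B).2 (fun v _ => ev v)).and
    (eventually_all.2 (fun i => ev (w i)))).exists
  have a3 : ∀ i, ψ s (w i) = gen _ i := by
    intro i
    rw [a2, hw]
    fin_cases i <;> rfl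
  have a4 : Function.Surjective (ψ s) := fun g =>
    gen_top (ψ s).range (fun i => ⟨w i, a3 i⟩) g
  have kk : ∀ v, v ∈ ((th s).comp (ψ s)).ker ↔ ψ s v = 1 := fun v => by
    rw [MonoidHom.mem_ker, MonoidHom.comp_apply, map_eq_one_iff _ (th_bij s).1]
  refine ⟨_, mem_isoClass.2 ⟨(th s).comp (ψ s), (th_bij s).2.comp a4, rfl⟩, fun h => ?_,
    fun v hv => ?_⟩
  · let j : ℤ := 2 ^ (2 * s)
    have := kk (w 0 * (w 3 ^ j * w 1 * (w 3 ^ j)⁻¹) * ((w 3 ^ j * w 1 * (w 3 ^ j)⁻¹) * w 0)⁻¹)
    rw [h, MonoidHom.mem_ker] at this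
    simp only [map_mul, map_inv, map_zpow, hw, a3, comm] at this
    rw [ls_apply, ← T_add, lam_T, lam_T, (ee_pow s).1, (ee_pow s).2] at this
    simp at this
  · rw [kk, MonoidHom.mem_ker, a1 v hv, Gp.ext_iff, Gp.ext_iff]
    rfl

end cond

end Pool.Agent.H69.Cond
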