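import Pool.Agent.H69.HypDefs

namespace Pool.Agent.H69.Hyp
open Filter

structure Conf (G : Type) [Group G] where
  β : G → ℤ
  β_mul : ∀ g h, β (g * h) = β g + β h
  t : G
  β_t : β t = 1
  Q : Set G
  c : ℕ
  one_mem : 1 ∈ Q
  inv_mem : ∀ q ∈ Q, q⁻¹ ∈ Q
  β_Q : ∀ q ∈ Q, β q = 0
  mono : ∀ q ∈ Q, t⁻¹ * q * t ∈ Q
  exh : ∀ a, β a = 0 → ∃ k : ℕ, (t ^ k)⁻¹ * a * t ^ k ∈ Q
  conf : ∀ q ∈ Q, ∀ q' ∈ Q, (t ^ c)⁻¹ * (q * q') * t ^ c ∈ Q

namespace Conf
variable {G : Type} [Group G] (F : Conf G)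

theorem β_one : F.β 1 = 0 := by have := F.β_mul 1 1; simp at this; exact this
theorem β_inv (g : G) : F.β g⁻¹ = - F.β g := by
  have := F.β_mul g⁻¹ g; rw [inv_mul_cancel, β_one] at this; omega
theorem β_zpow (n : ℤ) : F.β (F.t ^ n) = n := by
  induction n using Int.induction_on with
  | zero => simp [β_one]
  | succ n ih => rw [zpow_add_one, F.β_mul, ih, F.β_t]
  | pred n ih => rw [zpow_sub_one, F.β_mul, ih, β_inv, F.β_t]; ring

theorem mono_n {q : G} (hq : q ∈ F.Q) (n : ℕ) : (F.t ^ n)⁻¹ * q * F.t ^ n ∈ F.Q := by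
  induction n with
  | zero => simpa using hq
  | succ n ih => convert F.mono _ ih using 1; rw [pow_succ]; group

theorem mono_z {q : G} (hq : q ∈ F.Q) {n : ℤ} (hn : 0 ≤ n) :
    (F.t ^ n)⁻¹ * q * F.t ^ n ∈ F.Q := by
  obtain ⟨n, rfl⟩ := Int.eq_ofNat_of_zero_le hn
  simpa using F.mono_n hq n

def X : Set G := F.Q ∪ {F.t}

theorem gen : Subgroup.closure F.X = ⊤ := by
  rw [eq_top_iff]
  intro g _
  obtain ⟨k, hk⟩ := F.exh (g * F.t ^ (-F.β g)) (by rw [F.β_mul, β_zpow]; ring)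
  have ht : F.t ∈ Subgroup.closure F.X := Subgroup.subset_closure (Or.inr rfl)
  have := mul_mem (mul_mem (mul_mem (pow_mem ht k) (Subgroup.subset_closure (Or.inl hk)))
    (Subgroup.inv_mem _ (pow_mem ht k))) (zpow_mem ht (F.β g))
  convert this using 1; group

def XX : GenSet G := ⟨F.X, F.gen⟩

def U (k : ℤ) (p : G) : G := p * F.t ^ (k - F.β p)
def R (k : ℤ) (p q : G) : Prop := (F.U k p)⁻¹ * F.U k q ∈ F.Q

theorem U_add (k j : ℤ) (p : G) : F.U (k + j) p = F.U k p * F.t ^ j := by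
  simp only [U]; group

theorem R_refl (k : ℤ) (p : G) : F.R k p p := by simp [R, F.one_mem]
theorem R_symm {k : ℤ} {p q : G} (h : F.R k p q) : F.R k q p := by
  simpa [R] using F.inv_mem _ h
theorem R_mono {k j : ℤ} {p q : G} (h : F.R k p q) (hj : k ≤ j) : F.R j p q := by
  have := F.mono_z h (sub_nonneg.2 hj)
  have e : j = k + (j - k) := by ring
  rw [R, e, U_add, U_add]
  convert this using 1; group
theorem R_trans {k : ℤ} {p q r : G} (h : F.R k p q) (h' : F.R k q r) : F.R (k + F.c) p r := by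
  have := F.conf _ h _ h'
  rw [R, U_add, U_add, zpow_natCast]
  convert this using 1; group
theorem R_ex (p q : G) : ∃ k, F.R k p q := by
  obtain ⟨k, hk⟩ := F.exh ((F.U 0 p)⁻¹ * F.U 0 q) (by
    simp only [U, F.β_mul, β_inv, β_zpow]; ring)
  refine ⟨0 + k, ?_⟩
  rw [R, U_add, U_add, zpow_natCast]
  convert hk using 1; group

noncomputable def M (p q : G) : ℤ := sInf {k | F.β p ≤ k ∧ F.β q ≤ k ∧ F.R k p q}

theorem M_spec (p q : G) : F.β p ≤ F.M p q ∧ F.β q ≤ F.M p q ∧ F.R (F.M p q) p q := by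
  obtain ⟨k, hk⟩ := F.R_ex p q
  exact Int.csInf_mem (s := {k | F.β p ≤ k ∧ F.β q ≤ k ∧ F.R k p q})
    ⟨max k (max (F.β p) (F.β q)), by omega, by omega, F.R_mono hk (by omega)⟩
    ⟨F.β p, fun k hk => hk.1⟩

theorem M_le {p q : G} {k : ℤ} (h1 : F.β p ≤ k) (h2 : F.β q ≤ k) (h3 : F.R k p q) :
    F.M p q ≤ k := csInf_le ⟨F.β p, fun _ hk => hk.1⟩ ⟨h1, h2, h3⟩

theorem M_symm (p q : G) : F.M p q = F.M q p := by
  apply le_antisymm
  · obtain ⟨a, b, c⟩ := F.M_spec q p; exact F.M_le b a (F.R_symm c)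
  · obtain ⟨a, b, c⟩ := F.M_spec p q; exact F.M_le b a (F.R_symm c)

theorem M_ultra (p q r : G) : F.M p r ≤ max (F.M p q) (F.M q r) + F.c := by
  obtain ⟨a, b, c⟩ := F.M_spec p q
  obtain ⟨a', b', c'⟩ := F.M_spec q r
  exact F.M_le (by omega) (by omega)
    (F.R_trans (F.R_mono c (le_max_left _ _)) (F.R_mono c' (le_max_right _ _)))

theorem wl_t (n : ℤ) : (wl F.X (F.t ^ n) : ℤ) ≤ |n| := by
  have h : ∀ n : ℕ, wl F.X (F.t ^ n) ≤ n := by
    intro n
    have := wl_le (X := F.X) (List.replicate n F.t) (fun s hs => by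
      rw [List.eq_of_mem_replicate hs]; exact Or.inl (Or.inr rfl))
    simpa using this
  obtain ⟨n, rfl | rfl⟩ := Int.eq_nat_or_neg n
  · simpa using h n
  · have := (wl_inv_le F.gen _).trans (h n)
    simpa using this

theorem upper (p q : G) : (wl F.X (p⁻¹ * q) : ℤ) ≤ 2 * F.M p q - F.β p - F.β q + 1 := by
  obtain ⟨a, b, c⟩ := F.M_spec p q
  generalize F.M p q = k at *
  have e : p⁻¹ * q = F.t ^ (k - F.β p) * ((F.U k p)⁻¹ * F.U k q) * F.t ^ (F.β q - k) := by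
    simp only [U]; group
  have h1 := wl_mul F.gen (F.t ^ (k - F.β p) * ((F.U k p)⁻¹ * F.U k q)) (F.t ^ (F.β q - k))
  have h2 := wl_mul F.gen (F.t ^ (k - F.β p)) ((F.U k p)⁻¹ * F.U k q)
  have h3 := wl_le (X := F.X) [(F.U k p)⁻¹ * F.U k q] (by
    intro s hs; rw [List.mem_singleton.1 hs]; exact Or.inl (Or.inl c))
  have h4 := F.wl_t (k - F.β p)
  have h5 := F.wl_t (F.β q - k)
  rw [abs_of_nonneg (by omega)] at h4
  rw [abs_of_nonpos (by omega)] at h5
  simp only [List.prod_singleton, List.length_singleton] at h3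
  rw [e]; omega

theorem path (w : List G) (hw : ∀ s ∈ w, s ∈ F.X ∨ s⁻¹ ∈ F.X) (p : G) :
    ∃ (k : ℤ) (l : List G), (∀ q ∈ l, q ∈ F.Q) ∧ F.β p ≤ k ∧ F.β (p * w.prod) ≤ k ∧
      (F.U k p)⁻¹ * F.U k (p * w.prod) = l.prod ∧
      (l.length : ℤ) + (k - F.β p) + (k - F.β (p * w.prod)) ≤ w.length := by
  induction w generalizing p with
  | nil => exact ⟨F.β p, [], by simp, le_rfl, by simp, by simp, by simp⟩
  | cons s w ih =>
    obtain ⟨k, l, h1, h2, h3, h4, h5⟩ := ih (fun s hs => hw s (by simp [hs])) (p * s)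
    rw [List.prod_cons, ← mul_assoc, List.length_cons]
    have hs : s ∈ F.Q ∨ s = F.t ∨ s = F.t⁻¹ := by
      rcases hw s (by simp) with (h | h) | (h | h)
      · exact Or.inl h
      · exact Or.inr (Or.inl h)
      · exact Or.inl (by simpa using F.inv_mem _ h)
      · exact Or.inr (Or.inr (inv_eq_iff_eq_inv.1 h))
    rcases hs with hs | rfl | rfl
    · have e : F.β (p * s) = F.β p := by rw [F.β_mul, F.β_Q s hs, add_zero]
      rw [e] at h2 h5
      refine ⟨k, ((F.t ^ (k - F.β p))⁻¹ * s * F.t ^ (k - F.β p)) :: l, ?_, h2, h3, ?_, ?_⟩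
      · intro q hq
        rcases List.mem_cons.1 hq with rfl | hq
        · exact F.mono_z hs (by omega)
        · exact h1 q hq
      · rw [List.prod_cons, ← h4]; simp only [U, e]; group
      · simp only [List.length_cons]; push_cast; omega
    · have e : F.β (p * F.t) = F.β p + 1 := by rw [F.β_mul, F.β_t]
      rw [e] at h2 h5
      refine ⟨k, l, h1, by omega, h3, ?_, by push_cast; omega⟩
      rw [← h4]; simp only [U, e]; group
    · have e : F.β (p * F.t⁻¹) = F.β p - 1 := by rw [F.β_mul, β_inv, F.β_t]; ring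
      rw [e] at h2 h5
      have e2 : ∀ j, F.U j (p * F.t⁻¹) = F.U j p := by intro j; simp only [U, e]; group
      rw [e2] at h4
      by_cases hk : F.β p ≤ k
      · exact ⟨k, l, h1, hk, h3, h4, by push_cast; omega⟩
      · refine ⟨k + 1, l.map fun q => F.t⁻¹ * q * F.t, ?_, by omega, by omega, ?_, ?_⟩
        · intro q hq
          obtain ⟨q', hq', rfl⟩ := List.mem_map.1 hq
          exact F.mono q' (h1 q' hq')
        · have : (l.map fun q => F.t⁻¹ * q * F.t).prod = F.t⁻¹ * l.prod * F.t := by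
            clear h1 h4 h5
            induction l with
            | nil => simp
            | cons a l ih => rw [List.map_cons, List.prod_cons, ih, List.prod_cons]; group
          rw [this, ← h4, U_add, U_add]; group
        · simp only [List.length_map]; push_cast; omega

theorem prod_mem (j : ℕ) (l : List G) (h : ∀ q ∈ l, q ∈ F.Q) (hl : l.length ≤ 2 ^ j) :
    (F.t ^ (F.c * j))⁻¹ * l.prod * F.t ^ (F.c * j) ∈ F.Q := by
  induction j generalizing l with
  | zero =>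
    match l, hl with
    | [], _ => simpa using F.one_mem
    | [a], _ => simpa using h a (by simp)
  | succ j ih =>
    have h1 := ih (l.take (2 ^ j)) (fun q hq => h q (List.mem_of_mem_take hq)) (by simp)
    have h2 := ih (l.drop (2 ^ j)) (fun q hq => h q (List.mem_of_mem_drop hq)) (by
      simp only [List.length_drop]; rw [pow_succ] at hl; omega)
    have := F.conf _ h1 _ h2
    rw [← List.prod_take_mul_prod_drop l (2 ^ j), mul_add, mul_one, pow_add]
    convert this using 1; group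

theorem log_bd (c : ℕ) : ∃ C : ℕ, ∀ b : ℕ, ∃ j : ℕ, b ≤ 2 ^ j ∧ 2 * (c * j) ≤ b + C := by
  refine ⟨2 * c * (8 * c + 2), fun b => ?_⟩
  refine ⟨Nat.clog 2 b, Nat.le_pow_clog (by norm_num) b, ?_⟩
  rcases Nat.lt_or_ge 1 b with hb | hb
  · have h1 := Nat.pow_pred_clog_lt_self (b := 2) (by norm_num) hb
    generalize Nat.clog 2 b = j at *
    rcases Nat.lt_or_ge (8 * c + 2) j with hj | hj
    · obtain ⟨i, rfl⟩ : ∃ i, j = i + 1 := ⟨j - 1, by omega⟩
      simp only [Nat.pred_eq_sub_one, add_tsub_cancel_right] at h1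
      have h2 : ∀ m : ℕ, m * m ≤ 2 ^ (2 * m) := by
        intro m
        have : m ≤ 2 ^ m := Nat.lt_two_pow_self.le
        rw [two_mul, pow_add]; exact Nat.mul_le_mul this this
      have h3 : (i / 2) * (i / 2) ≤ 2 ^ i :=
        (h2 _).trans (Nat.pow_le_pow_right (by norm_num) (by omega))
      have h4 : 4 * c + 1 ≤ i / 2 := by omega
      have h5 : i + 1 ≤ 2 * (i / 2) + 2 := by omega
      generalize i / 2 = m at *
      nlinarith
    · nlinarith
  · rw [Nat.clog_of_right_le_one hb]; simp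

theorem est : ∃ C : ℝ, ∀ p q : G,
    |(wl F.X (p⁻¹ * q) : ℝ) - (2 * F.M p q - F.β p - F.β q)| ≤ C := by
  obtain ⟨C, hC⟩ := log_bd F.c
  refine ⟨C + 1, fun p q => ?_⟩
  have h1 := F.upper p q
  obtain ⟨w, a1, a2, a3⟩ := wl_spec F.gen (p⁻¹ * q)
  obtain ⟨k, l, b1, b2, b3, b4, b5⟩ := F.path w a2 p
  rw [a3, mul_inv_cancel_left] at b3 b4 b5
  obtain ⟨j, c1, c2⟩ := hC l.length
  have h2 : F.M p q ≤ k + (F.c * j : ℕ) := by
    refine F.M_le (by omega) (by omega) ?_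
    have := F.prod_mem j l b1 c1
    rw [R, U_add, U_add, zpow_natCast]
    convert this using 1; rw [← b4]; group
  have h3 : 2 * F.M p q - F.β p - F.β q ≤ wl F.X (p⁻¹ * q) + C := by omega
  have h1' : (wl F.X (p⁻¹ * q) : ℝ) ≤ 2 * F.M p q - F.β p - F.β q + 1 := by exact_mod_cast h1
  have h3' : (2 * F.M p q - F.β p - F.β q : ℝ) ≤ wl F.X (p⁻¹ * q) + C := by exact_mod_cast h3
  have : (0 : ℝ) ≤ C := by positivity
  rw [abs_le]; constructor <;> linarith

section act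
variable {S : Type} [MetricSpace S] [MulAction G S] (o : S)
  (ho : ∀ g h : G, dist (g • o) (h • o) = wl F.X (g⁻¹ * h))
include ho

theorem gp_est : ∃ C : ℝ, ∀ x y w : G,
    |gp (x • o) (y • o) (w • o) - (F.M x w + F.M y w - F.M x y - F.β w)| ≤ C := by
  obtain ⟨C, hC⟩ := F.est
  refine ⟨3 * C / 2, fun x y w => ?_⟩
  have h1 := abs_le.1 (hC x w)
  have h2 := abs_le.1 (hC y w)
  have h3 := abs_le.1 (hC x y)
  simp only [gp, ho]
  rw [abs_le]; constructor <;> linarith [h1.1, h1.2, h2.1, h2.2, h3.1, h3.2]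

theorem hyp (hc : Cobounded G o) : IsHyp S := by
  obtain ⟨C, hC⟩ := F.gp_est o ho
  obtain ⟨D, hD⟩ := hc
  choose n hn using hD
  have c : ∀ p q : S, |dist p q - dist (n p • o) (n q • o)| ≤ 2 * D := fun p q =>
    (dist_dist_dist_le _ _ _ _).trans (by linarith [hn p, hn q])
  have c' : ∀ p q r : S, |gp p q r - gp (n p • o) (n q • o) (n r • o)| ≤ 3 * D := by
    intro p q r
    have h1 := abs_le.1 (c p r)
    have h2 := abs_le.1 (c q r)
    have h3 := abs_le.1 (c p q)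
    simp only [gp]
    rw [abs_le]; constructor <;> linarith [h1.1, h1.2, h2.1, h2.2, h3.1, h3.2]
  refine ⟨2 * C + 6 * D + 3 * F.c, fun x y z w => ?_⟩
  have key : ∀ x y z w : G, min (F.M x w + F.M y w - F.M x y) (F.M y w + F.M z w - F.M y z) ≤
      F.M x w + F.M z w - F.M x z + 3 * F.c := by
    intro x y z w
    have a1 := F.M_ultra x y z
    have a2 := F.M_ultra x w z
    have a3 := F.M_ultra y x w
    have a4 := F.M_ultra y z w
    rw [F.M_symm w z] at a2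
    rw [F.M_symm y x] at a3
    omega
  have h1 := abs_le.1 (hC (n x) (n y) (n w))
  have h2 := abs_le.1 (hC (n y) (n z) (n w))
  have h3 := abs_le.1 (hC (n x) (n z) (n w))
  have g1 := abs_le.1 (c' x y w)
  have g2 := abs_le.1 (c' y z w)
  have g3 := abs_le.1 (c' x z w)
  have m1 := min_le_left (gp x y w) (gp y z w)
  have m2 := min_le_right (gp x y w) (gp y z w)
  rcases min_le_iff.1 (key (n x) (n y) (n z) (n w)) with h | h
  · have h' : (F.M (n x) (n w) + F.M (n y) (n w) - F.M (n x) (n y) : ℝ) ≤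
      F.M (n x) (n w) + F.M (n z) (n w) - F.M (n x) (n z) + 3 * F.c := by exact_mod_cast h
    linarith [h1.2, h3.1, g1.2, g3.1]
  · have h' : (F.M (n y) (n w) + F.M (n z) (n w) - F.M (n y) (n z) : ℝ) ≤
      F.M (n x) (n w) + F.M (n z) (n w) - F.M (n x) (n z) + 3 * F.c := by exact_mod_cast h
    linarith [h2.2, h3.1, g2.2, g3.1]

theorem eqv_iff (x y : ℕ → G) : Eqv o (fun n => x n • o) (fun n => y n • o) ↔
    Tendsto (fun p : ℕ × ℕ => F.M (x p.1) 1 + F.M (y p.2) 1 - F.M (x p.1) (y p.2)) atTop atTop := by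
  obtain ⟨C, hC⟩ := F.gp_est o ho
  have h : ∀ a b : G, |gp (a • o) (b • o) o - (F.M a 1 + F.M b 1 - F.M a b : ℤ)| ≤ C := by
    intro a b
    simpa [β_one] using hC a b 1
  rw [← tendsto_intCast_atTop_iff (R := ℝ)]
  constructor
  · intro h1
    refine tendsto_atTop_mono (fun p => ?_) (tendsto_atTop_add_const_right _ (-C) h1)
    linarith [(abs_le.1 (h (x p.1) (y p.2))).2]
  · intro h1
    refine tendsto_atTop_mono (fun p => ?_) (tendsto_atTop_add_const_right _ (-C) h1)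
    linarith [(abs_le.1 (h (x p.1) (y p.2))).1]

omit ho in
theorem tend_min (K : ℤ) (f : ℕ × ℕ → ℤ) (h : ∀ p : ℕ × ℕ, K ≤ p.1 → K ≤ p.2 →
    min (p.1 : ℤ) p.2 - K ≤ f p) : Tendsto f atTop atTop := by
  rw [tendsto_atTop_atTop]
  intro b
  refine ⟨((|b| + |K|).toNat, (|b| + |K|).toNat), fun p hp => ?_⟩
  have h1 : (|b| + |K|).toNat ≤ p.1 := hp.1
  have h2 : (|b| + |K|).toNat ≤ p.2 := hp.2
  have := le_abs_self b
  have := le_abs_self K
  have := abs_nonneg b
  have := abs_nonneg K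
  have := h p (by omega) (by omega)
  omega

theorem lox_of (g : G) (hg : F.β g = 1) : Lox o g := by
  obtain ⟨C, hC⟩ := F.est
  refine ⟨1, one_pos, C, fun n => ?_⟩
  have hb : F.β (g ^ n) = n := by
    induction n using Int.induction_on with
    | zero => simp [β_one]
    | succ n ih => rw [zpow_add_one, F.β_mul, ih, hg]
    | pred n ih => rw [zpow_sub_one, F.β_mul, ih, β_inv, hg]; ring
  have h1 := (abs_le.1 (hC (g ^ n) 1)).1
  rw [← ho, one_smul, hb, β_one] at h1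
  obtain ⟨a, b, -⟩ := F.M_spec (g ^ n) 1
  rw [hb] at a
  rw [β_one] at b
  have : |n| ≤ 2 * F.M (g ^ n) 1 - n := by rw [abs_le]; omega
  have : |(n : ℝ)| ≤ 2 * F.M (g ^ n) 1 - n := by exact_mod_cast this
  push_cast at h1
  linarith

omit ho in
theorem U_t (g : G) (n k : ℤ) : F.U k (g * F.t ^ n) = F.U k g := by
  simp only [U, F.β_mul, β_zpow]; group

theorem up (g h : G) : Eqv o (fun n => (g * F.t ^ (n : ℤ)) • o) (fun n => (h * F.t ^ (n : ℤ)) • o) := by
  rw [F.eqv_iff o ho]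
  obtain ⟨k, hk⟩ := F.R_ex g h
  refine tend_min (|k| + 2 * |F.β g| + 2 * |F.β h|) _ fun p h1 h2 => ?_
  obtain ⟨a, -, -⟩ := F.M_spec (g * F.t ^ (p.1 : ℤ)) 1
  obtain ⟨b, -, -⟩ := F.M_spec (h * F.t ^ (p.2 : ℤ)) 1
  have := le_abs_self k
  have := le_abs_self (F.β g)
  have := le_abs_self (F.β h)
  have := neg_abs_le (F.β g)
  have := neg_abs_le (F.β h)
  have := abs_nonneg k
  have c := F.M_le (p := g * F.t ^ (p.1 : ℤ)) (q := h * F.t ^ (p.2 : ℤ))
    (k := max (F.β g + p.1) (F.β h + p.2)) (by rw [F.β_mul, β_zpow]; omega)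
    (by rw [F.β_mul, β_zpow]; omega) (by
      rw [R, U_t, U_t]; exact F.R_mono hk (by omega))
  rw [F.β_mul, β_zpow] at a b
  omega

theorem down (g : G) :
    Eqv o (fun n => (g * F.t ^ (-n : ℤ)) • o) (fun n => (g * F.t ^ (-n : ℤ)) • o) := by
  rw [F.eqv_iff o ho]
  refine tend_min |F.β g| _ fun p h1 h2 => ?_
  obtain ⟨-, a, -⟩ := F.M_spec (g * F.t ^ (-p.1 : ℤ)) 1
  obtain ⟨-, b, -⟩ := F.M_spec (g * F.t ^ (-p.2 : ℤ)) 1
  have := le_abs_self (F.β g)
  have c := F.M_le (p := g * F.t ^ (-p.1 : ℤ)) (q := g * F.t ^ (-p.2 : ℤ))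
    (k := max (F.β g - p.1) (F.β g - p.2)) (by rw [F.β_mul, β_zpow]; omega)
    (by rw [F.β_mul, β_zpow]; omega) (by rw [R, U_t, U_t]; exact F.R_refl _ _)
  rw [β_one] at a b
  omega

theorem down' :
    Eqv o (fun n => F.t • (1 * F.t ^ (-n : ℤ)) • o) (fun n => (1 * F.t ^ (-n : ℤ)) • o) := by
  simp only [smul_smul, ← mul_assoc, mul_one]
  rw [F.eqv_iff o ho]
  refine tend_min 1 _ fun p h1 h2 => ?_
  obtain ⟨-, a, -⟩ := F.M_spec (F.t * F.t ^ (-p.1 : ℤ)) 1
  obtain ⟨-, b, -⟩ := F.M_spec (1 * F.t ^ (-p.2 : ℤ)) 1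
  have c := F.M_le (p := F.t * F.t ^ (-p.1 : ℤ)) (q := 1 * F.t ^ (-p.2 : ℤ))
    (k := max (1 - p.1) (-p.2)) (by rw [F.β_mul, β_zpow, F.β_t]; omega)
    (by rw [F.β_mul, β_zpow, β_one]; omega) (by
      rw [R, U_t, U_t]
      have := F.U_t 1 1 (max (1 - p.1) (-p.2))
      rw [one_mul, zpow_one] at this
      rw [this]; exact F.R_refl _ _)
  rw [β_one] at a b
  omega

theorem not_down {g h : G} {k : ℤ} (hk : ¬ F.R k g h) :
    ¬ Eqv o (fun n => (g * F.t ^ (-n : ℤ)) • o) (fun n => (h * F.t ^ (-n : ℤ)) • o) := by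
  rw [F.eqv_iff o ho, tendsto_atTop_atTop]
  intro hh
  obtain ⟨p, hp⟩ := hh (F.M g 1 + F.M h 1 - k)
  have h0 := hp p le_rfl
  have a : ∀ (g : G) (n : ℕ), F.M (g * F.t ^ (-n : ℤ)) 1 ≤ F.M g 1 := by
    intro g n
    obtain ⟨a, b, c⟩ := F.M_spec g 1
    exact F.M_le (by rw [F.β_mul, β_zpow]; omega) b (by rw [R, U_t]; exact c)
  have a1 := a g p.1
  have a2 := a h p.2
  obtain ⟨-, -, c⟩ := F.M_spec (g * F.t ^ (-p.1 : ℤ)) (h * F.t ^ (-p.2 : ℤ))
  rw [R, U_t, U_t] at c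
  exact hk (F.R_mono c (by omega))

theorem fixes (g : G) : Fixes o g (fun n => (1 * F.t ^ (n : ℤ)) • o) := by
  refine ⟨F.up o ho 1 1, ?_⟩
  simp only [smul_smul, ← mul_assoc]
  exact F.up o ho _ 1

theorem qp (a : ℕ → G) (ha : ∀ i j, i ≠ j → ∃ k, ¬ F.R k (a i) (a j)) : QuasiParabolic G o :=
  ⟨⟨F.t, F.lox_of o ho _ F.β_t⟩, ⟨_, F.fixes o ho⟩, fun i n => a i * F.t ^ (-n : ℤ),
    fun i => F.down o ho _, fun i j h => by
      obtain ⟨k, hk⟩ := ha i j h
      exact F.not_down o ho hk⟩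

theorem focal (g : G) (hg : F.β g = 1) {k : ℤ} (hk : ¬ F.R k g 1) : Focal G o := by
  refine ⟨fun h => ?_, ⟨F.t, F.lox_of o ho _ F.β_t⟩,
    fun g h _ _ => ⟨_, F.fixes o ho g, F.fixes o ho h⟩⟩
  have := ((h.2 F.t g (F.lox_of o ho _ F.β_t) (F.lox_of o ho _ hg) _).1
    ⟨F.down o ho 1, F.down' o ho⟩).2
  simp only [smul_smul, ← mul_assoc, mul_one] at this
  exact F.not_down o ho hk this

end act
end Conf
end Pool.Agent.H69.Hyp
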