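import Pool.Agent.H69.HypDefs

namespace Pool.Agent.H69.Hyp

/-- the shift of coordinates `i ↦ i + 1` on `⊕_{ℤ} ℤ` -/
noncomputable def shiftZ : MulAut (Multiplicative (ℤ →₀ ℤ)) :=
  AddEquiv.toMultiplicative (Finsupp.domCongr (Equiv.addRight (1 : ℤ)))

/-- the restricted wreath product `ℤ ≀ ℤ = (⊕_{ℤ} ℤ) ⋊ ℤ` -/
abbrev WrZ : Type := Multiplicative (ℤ →₀ ℤ) ⋊[zpowersHom _ shiftZ] Multiplicative ℤ

end Pool.Agent.H69.Hyp
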