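import Pool.Agent.H69.Conf1
import Pool.Agent.H69.WrZDefs

namespace Pool.Agent.H69.Hyp
open Filter

structure Nrm (G : Type) [Group G] where
  β : G → ℤ
  β_mul : ∀ g h, β (g * h) = β g + β h
  t : G
  β_t : β t = 1
  ℓ : G → ℝ
  μ : ℝ
  hμ : 1 < μ
  ℓ_one : ℓ 1 = 0
  ℓ_inv : ∀ a, β a = 0 → ℓ a⁻¹ = ℓ a
  ℓ_mul : ∀ a b, β a = 0 → β b = 0 → ℓ (a * b) ≤ ℓ a + ℓ b
  ℓ_conj : ∀ a, β a = 0 → ℓ (t⁻¹ * a * t) = ℓ a / μ

namespace Nrm
variable {G : Type} [Group G] (F : Nrm G)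

theorem β_one : F.β 1 = 0 := by have := F.β_mul 1 1; simp at this; exact this
theorem β_inv (g : G) : F.β g⁻¹ = - F.β g := by
  have := F.β_mul g⁻¹ g; rw [inv_mul_cancel, β_one] at this; omega
theorem β_conj (a g : G) : F.β (g⁻¹ * a * g) = F.β a := by
  rw [F.β_mul, F.β_mul, β_inv]; ring

theorem nonneg (a : G) (ha : F.β a = 0) : 0 ≤ F.ℓ a := by
  have := F.ℓ_mul a a⁻¹ ha (by rw [β_inv, ha]; rfl)
  rw [mul_inv_cancel, F.ℓ_one, F.ℓ_inv a ha] at this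
  linarith

theorem conj_z (a : G) (ha : F.β a = 0) (n : ℤ) :
    F.ℓ ((F.t ^ n)⁻¹ * a * F.t ^ n) = F.ℓ a / F.μ ^ n := by
  have h0 : F.μ ≠ 0 := by linarith [F.hμ]
  induction n using Int.induction_on with
  | zero => simp
  | succ n ih =>
    have := F.ℓ_conj ((F.t ^ (n : ℤ))⁻¹ * a * F.t ^ (n : ℤ)) (by rw [β_conj, ha])
    rw [ih] at this
    rw [zpow_add_one₀ h0, ← div_div, ← this]; congr 1; group
  | pred n ih =>
    have := F.ℓ_conj ((F.t ^ (-(n : ℤ) - 1))⁻¹ * a * F.t ^ (-(n : ℤ) - 1)) (by rw [β_conj, ha])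
    rw [show F.t⁻¹ * ((F.t ^ (-(n : ℤ) - 1))⁻¹ * a * F.t ^ (-(n : ℤ) - 1)) * F.t =
      (F.t ^ (-(n : ℤ)))⁻¹ * a * F.t ^ (-(n : ℤ)) by group, ih, eq_div_iff h0] at this
    rw [← this, zpow_sub_one₀ h0]; field_simp

noncomputable def conf : Conf G where
  β := F.β
  β_mul := F.β_mul
  t := F.t
  β_t := F.β_t
  Q := {a | F.β a = 0 ∧ F.ℓ a ≤ 1}
  c := (pow_unbounded_of_one_lt 2 F.hμ).choose
  one_mem := ⟨F.β_one, by rw [F.ℓ_one]; exact zero_le_one⟩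
  inv_mem q hq := ⟨by rw [β_inv, hq.1]; rfl, by rw [F.ℓ_inv q hq.1]; exact hq.2⟩
  β_Q q hq := hq.1
  mono q hq := ⟨by rw [β_conj, hq.1], by
    rw [F.ℓ_conj q hq.1, div_le_one (by linarith [F.hμ])]; linarith [hq.2, F.hμ]⟩
  exh a ha := by
    obtain ⟨k, hk⟩ := pow_unbounded_of_one_lt (F.ℓ a) F.hμ
    refine ⟨k, by rw [β_conj, ha], ?_⟩
    have := F.conj_z a ha k
    simp only [zpow_natCast] at this
    rw [this, div_le_one (pow_pos (by linarith [F.hμ]) _)]; exact hk.le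
  conf q hq q' hq' := by
    have hk := (pow_unbounded_of_one_lt 2 F.hμ).choose_spec
    generalize (pow_unbounded_of_one_lt 2 F.hμ).choose = k at *
    have hb : F.β (q * q') = 0 := by rw [F.β_mul, hq.1, hq'.1]; rfl
    refine ⟨by rw [β_conj, hb], ?_⟩
    have := F.conj_z _ hb k
    simp only [zpow_natCast] at this
    rw [this, div_le_one (pow_pos (by linarith [F.hμ]) _)]
    linarith [F.ℓ_mul q q' hq.1 hq'.1, hq.2, hq'.2]

theorem R_iff (k : ℤ) (g h : G) : F.conf.R k g h ↔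
    F.ℓ ((g * F.t ^ (-F.β g))⁻¹ * (h * F.t ^ (-F.β h))) ≤ F.μ ^ k := by
  have hb : F.β ((g * F.t ^ (-F.β g))⁻¹ * (h * F.t ^ (-F.β h))) = 0 := by
    have := F.conf.β_zpow
    simp only [conf] at this
    simp only [F.β_mul, β_inv, this]; ring
  have e : (F.conf.U k g)⁻¹ * F.conf.U k h =
      (F.t ^ k)⁻¹ * ((g * F.t ^ (-F.β g))⁻¹ * (h * F.t ^ (-F.β h))) * F.t ^ k := by
    simp only [Conf.U, conf]; group
  rw [Conf.R, e]
  change (_ ∧ _) ↔ _
  rw [β_conj, F.conj_z _ hb, div_le_one (zpow_pos (by linarith [F.hμ]) _)]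
  exact and_iff_right hb

theorem not_R {g h : G} (H : 0 < F.ℓ ((g * F.t ^ (-F.β g))⁻¹ * (h * F.t ^ (-F.β h)))) :
    ∃ k, ¬ F.conf.R k g h := by
  obtain ⟨n, hn, -⟩ := exists_mem_Ioc_zpow H F.hμ
  exact ⟨n, by rw [R_iff]; exact not_le.2 hn⟩

theorem bdd (D : ℝ) : ∃ (K : ℕ) (B : ℝ), ∀ g, (wl F.conf.X g : ℝ) ≤ D →
    |F.β g| ≤ K ∧ F.ℓ (g * F.t ^ (-F.β g)) ≤ B := by
  obtain ⟨C, hC⟩ := F.conf.est
  obtain ⟨K, hK⟩ := exists_nat_ge (D + C)
  refine ⟨K, F.μ ^ (K : ℤ), fun g hg => ?_⟩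
  have h1 := (abs_le.1 (hC 1 g)).1
  rw [inv_one, one_mul, F.conf.β_one] at h1
  obtain ⟨a, b, c⟩ := F.conf.M_spec 1 g
  rw [F.conf.β_one] at a
  have h2 : (2 * F.conf.M 1 g - F.conf.β g : ℝ) ≤ K := by push_cast at h1; linarith
  have h3 : 2 * F.conf.M 1 g - F.conf.β g ≤ K := by exact_mod_cast h2
  have hb : F.conf.β g = F.β g := rfl
  refine ⟨by rw [abs_le]; omega, ?_⟩
  have := (F.R_iff _ _ _).1 (F.conf.R_mono c (show F.conf.M 1 g ≤ K by omega))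
  simpa [β_one] using this

end Nrm

section semi
variable {N : Type} [Group N] (σ : MulAut N)

abbrev SD := N ⋊[zpowersHom _ σ] Multiplicative ℤ

def tt : SD σ := SemidirectProduct.inr (Multiplicative.ofAdd 1)

variable (ℓ : N → ℝ) (μ : ℝ) (hμ : 1 < μ) (h1 : ℓ 1 = 0) (hi : ∀ a, ℓ a⁻¹ = ℓ a)
  (hm : ∀ a b, ℓ (a * b) ≤ ℓ a + ℓ b)

def nrmP (hs : ∀ a, ℓ (σ a) = μ * ℓ a) : Nrm (SD σ) where
  β g := g.right.toAdd
  β_mul g h := rfl
  t := tt σ
  β_t := rfl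
  ℓ g := ℓ g.left
  μ := μ
  hμ := hμ
  ℓ_one := h1
  ℓ_inv a ha := by
    have : a.right = 1 := ha
    simp [this, hi]
  ℓ_mul a b ha hb := by
    have : a.right = 1 := ha
    simp [this, hm]
  ℓ_conj a ha := by
    have h : a.right = 1 := ha
    have := hs (σ⁻¹ a.left)
    rw [eq_div_iff (by linarith), mul_comm]
    simp [tt, h] at this ⊢
    exact this.symm

def nrmM (hs : ∀ a, μ * ℓ (σ a) = ℓ a) : Nrm (SD σ) where
  β g := -g.right.toAdd
  β_mul g h := by simp [add_comm]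
  t := (tt σ)⁻¹
  β_t := by simp [tt]
  ℓ g := ℓ g.left
  μ := μ
  hμ := hμ
  ℓ_one := h1
  ℓ_inv a ha := by
    have : a.right = 1 := neg_eq_zero.1 ha
    simp [this, hi]
  ℓ_mul a b ha hb := by
    have : a.right = 1 := neg_eq_zero.1 ha
    simp [this, hm]
  ℓ_conj a ha := by
    have h : a.right = 1 := neg_eq_zero.1 ha
    have := hs a.left
    rw [eq_div_iff (by linarith), mul_comm]
    simp [tt, h] at this ⊢
    exact this

theorem left_tt (g : SD σ) (n : ℤ) : (g * tt σ ^ n).left = g.left := by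
  rw [tt, ← map_zpow, SemidirectProduct.mul_left, SemidirectProduct.left_inr, map_one, mul_one]
end semi

theorem cay_dist {G : Type} [Group G] (X : GenSet G) (g h : G) :
    dist (g • Cay.one X) (h • Cay.one X) = wl X.1 (g⁻¹ * h) := by
  change ((wl X.1 ((g * 1)⁻¹ * (h * 1)) : ℕ) : ℝ) = _
  simp

theorem cay_cob {G : Type} [Group G] (X : GenSet G) : Cobounded G (Cay.one X) :=
  ⟨0, fun x => ⟨x, by
    have : (show G from x) • Cay.one X = x := mul_one (M := G) x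
    rw [this, dist_self]⟩⟩

/-! the wreath product -/

noncomputable def lw (μ : ℝ) (f : Multiplicative (ℤ →₀ ℤ)) : ℝ :=
  f.toAdd.sum fun i x => |(x : ℝ)| * μ ^ i

theorem lw_eq (μ : ℝ) (f : Multiplicative (ℤ →₀ ℤ)) (s : Finset ℤ) (hs : f.toAdd.support ⊆ s) :
    lw μ f = ∑ i ∈ s, |(f.toAdd i : ℝ)| * μ ^ i :=
  Finsupp.sum_of_support_subset _ hs _ (by simp)

theorem lw_single (μ : ℝ) (i x : ℤ) :
    lw μ (Multiplicative.ofAdd (Finsupp.single i x)) = |(x : ℝ)| * μ ^ i := by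
  simp [lw]

noncomputable def nw (μ : ℝ) (hμ : 1 < μ) : Nrm WrZ :=
  nrmP shiftZ (lw μ) μ hμ (by simp [lw])
    (fun a => by
      rw [lw_eq μ a⁻¹ a.toAdd.support (by simp), lw_eq μ a _ le_rfl]; simp)
    (fun a b => by
      rw [lw_eq μ (a * b) (a.toAdd.support ∪ b.toAdd.support) Finsupp.support_add,
        lw_eq μ a (a.toAdd.support ∪ b.toAdd.support) Finset.subset_union_left,
        lw_eq μ b (a.toAdd.support ∪ b.toAdd.support) Finset.subset_union_right,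
        ← Finset.sum_add_distrib]
      refine Finset.sum_le_sum fun i _ => ?_
      rw [← add_mul]
      refine mul_le_mul_of_nonneg_right ?_ (zpow_pos (by linarith) _).le
      simpa using abs_add_le _ _)
    (fun a => by
      have : (shiftZ a).toAdd = Finsupp.equivMapDomain (Equiv.addRight 1) a.toAdd := rfl
      rw [lw, this, Finsupp.sum_equivMapDomain, lw, Finsupp.mul_sum]
      refine Finset.sum_congr rfl fun i _ => ?_
      simp only [Equiv.coe_addRight]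
      rw [zpow_add_one₀ (by linarith)]; ring)

theorem lw_mono {μ ν : ℝ} (hμ : 1 < μ) (h : μ ≤ ν) (f : Multiplicative (ℤ →₀ ℤ))
    (hf : lw μ f ≤ 1) : lw ν f ≤ 1 := by
  refine le_trans ?_ hf
  rw [lw_eq μ f _ le_rfl] at hf ⊢
  rw [lw_eq ν f _ le_rfl]
  refine Finset.sum_le_sum fun i hi => mul_le_mul_of_nonneg_left ?_ (abs_nonneg _)
  have h1 := (Finset.single_le_sum (f := fun i => |(f.toAdd i : ℝ)| * μ ^ i)
    (fun i _ => mul_nonneg (abs_nonneg _) (zpow_pos (by linarith) _).le) hi).trans hf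
  have h2 : (1 : ℝ) ≤ |(f.toAdd i : ℝ)| := by
    have := Int.one_le_abs (Finsupp.mem_support_iff.1 hi)
    exact_mod_cast this
  have h3 : i ≤ 0 := by
    by_contra hc
    have := one_lt_zpow₀ hμ (show 0 < i by omega)
    nlinarith
  obtain ⟨n, rfl⟩ : ∃ n : ℕ, i = -n := ⟨(-i).toNat, by omega⟩
  rw [zpow_neg, zpow_neg, zpow_natCast, zpow_natCast]
  exact inv_anti₀ (pow_pos (by linarith) _) (pow_le_pow_left₀ (by linarith) h n)

theorem wr_main : ∃ X : Set.Ioi (1 : ℝ) → GenSet WrZ,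
    (∀ μ, IsHyp (Cay (X μ)) ∧ QuasiParabolic WrZ (Cay.one (X μ))) ∧
    ∀ μ ν, μ < ν → Dom (X ν) (X μ) ∧ ¬ Dom (X μ) (X ν) := by
  refine ⟨fun μ => (nw μ.1 μ.2).conf.XX, fun μ => ⟨?_, ?_⟩, fun μ ν h => ⟨⟨1, fun y hy => ?_⟩, ?_⟩⟩
  · exact (nw μ.1 μ.2).conf.hyp _ (cay_dist _) (cay_cob _)
  · refine (nw μ.1 μ.2).conf.qp _ (cay_dist _)
      (fun i => SemidirectProduct.inl (Multiplicative.ofAdd (Finsupp.single 0 (i : ℤ))))
      fun i j hij => (nw μ.1 μ.2).not_R ?_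
    have e : ∀ i : ℕ, (nw μ.1 μ.2).β
      (SemidirectProduct.inl (Multiplicative.ofAdd (Finsupp.single 0 (i : ℤ)))) = 0 := fun _ => rfl
    rw [e, e, neg_zero, zpow_zero, mul_one, mul_one, ← map_inv, ← map_mul, ← ofAdd_neg, ← ofAdd_add,
      ← Finsupp.single_neg, ← Finsupp.single_add]
    change 0 < lw μ.1 (Multiplicative.ofAdd _)
    rw [lw_single, zpow_zero, mul_one, abs_pos]
    have : -(i : ℤ) + j ≠ 0 := by omega
    exact_mod_cast this
  · have := wl_le (X := (nw ν.1 ν.2).conf.X) [y] (fun s hs => by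
      rw [List.mem_singleton.1 hs]
      rcases hy with hy | hy
      · exact Or.inl (Or.inl ⟨hy.1, lw_mono μ.2 (le_of_lt h) _ hy.2⟩)
      · exact Or.inl (Or.inr hy))
    rw [List.prod_singleton] at this
    exact this
  · rintro ⟨C, hC⟩
    obtain ⟨K, B, hB⟩ := (nw μ.1 μ.2).bdd C
    have hμ : 1 < μ.1 := μ.2
    have hν : μ.1 < ν.1 := h
    obtain ⟨n, hn⟩ := pow_unbounded_of_one_lt (B + 1) ((one_lt_div (by linarith)).2 hν)
    have hν0 : 0 < ν.1 ^ n := pow_pos (by linarith) _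
    have hμ0 : 1 ≤ μ.1 ^ n := one_le_pow₀ hμ.le
    have h1 := hC (SemidirectProduct.inl (Multiplicative.ofAdd (Finsupp.single (-n : ℤ) ⌊ν.1 ^ n⌋)))
      (Or.inl ⟨rfl, by
        change lw ν.1 (Multiplicative.ofAdd _) ≤ 1
        rw [lw_single, zpow_neg, zpow_natCast, ← div_eq_mul_inv, div_le_one hν0,
          abs_of_nonneg (by exact_mod_cast Int.floor_nonneg.2 hν0.le)]
        exact Int.floor_le _⟩)
    have h2 := (hB _ (by exact_mod_cast h1)).2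
    change lw μ.1 (_ * tt shiftZ ^ _ : WrZ).left ≤ B at h2
    rw [left_tt, SemidirectProduct.left_inl, lw_single, zpow_neg, zpow_natCast, ← div_eq_mul_inv,
      div_le_iff₀ (by linarith)] at h2
    rw [div_pow, lt_div_iff₀ (by linarith)] at hn
    have h3 := Int.lt_floor_add_one (ν.1 ^ n)
    have h4 := le_abs_self ((⌊ν.1 ^ n⌋ : ℤ) : ℝ)
    nlinarith

end Pool.Agent.H69.Hyp
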