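import Pool.Agent.H69.HypDefs

namespace Pool.Agent.H69.Hyp

def Pa {S : Type} [MetricSpace S] (p q : S) (L : ℝ) : Prop :=
  ∃ γ : ℝ → S, (∀ s t, dist (γ s) (γ t) ≤ |s - t|) ∧ γ 0 = p ∧ γ L = q

theorem Pa.symm {S : Type} [MetricSpace S] {p q : S} {L : ℝ} (h : Pa p q L) : Pa q p L := by
  obtain ⟨γ, h1, h2, h3⟩ := h
  refine ⟨fun r => γ (L - r), fun s t => (h1 _ _).trans (le_of_eq ?_), by simpa using h3,
    by simpa using h2⟩
  rw [← abs_neg]; congr 1; ring

theorem Pa.trans {S : Type} [MetricSpace S] {p q r : S} {L L' : ℝ} (h : Pa p q L) (h' : Pa q r L')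
    (hL : 0 ≤ L) (hL' : 0 ≤ L') : Pa p r (L + L') := by
  obtain ⟨γ, h1, h2, h3⟩ := h
  obtain ⟨γ', h1', h2', h3'⟩ := h'
  have key : ∀ s t, s ≤ L → L < t → dist (γ s) (γ' (t - L)) ≤ t - s := by
    intro s t hs ht
    have a := h1 s L
    have b := h1' 0 (t - L)
    rw [h3, abs_of_nonpos (by linarith)] at a
    rw [h2', abs_of_nonpos (by linarith)] at b
    linarith [dist_triangle (γ s) q (γ' (t - L))]
  refine ⟨fun s => if s ≤ L then γ s else γ' (s - L), fun s t => ?_, by simp [hL, h2], ?_⟩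
  · dsimp only
    split_ifs with a b b
    · exact h1 s t
    · exact (key s t a (not_le.1 b)).trans (by rw [abs_sub_comm]; exact le_abs_self _)
    · rw [dist_comm]; exact (key t s b (not_le.1 a)).trans (le_abs_self _)
    · simpa using h1' (s - L) (t - L)
  · dsimp only
    split_ifs with a
    · have : L' = 0 := by linarith
      subst this
      rw [add_zero, h3, ← h2', h3']
    · simpa using h3'

theorem geod_of {S : Type} [MetricSpace S] (h : ∀ p q : S, Pa p q (dist p q)) : IsGeod S := by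
  intro p q
  obtain ⟨γ, h1, h2, h3⟩ := h p q
  have key : ∀ s ∈ Set.Icc (0 : ℝ) (dist p q), ∀ t ∈ Set.Icc (0 : ℝ) (dist p q),
      t - s ≤ dist (γ s) (γ t) := by
    intro s hs t ht
    have a := h1 0 s
    have b := h1 t (dist p q)
    rw [h2, abs_of_nonpos (by linarith [hs.1])] at a
    rw [h3, abs_of_nonpos (by linarith [ht.2])] at b
    linarith [dist_triangle4 p (γ s) (γ t) q]
  refine ⟨γ, h2, h3, fun s hs t ht => le_antisymm (h1 s t) (abs_le.2 ⟨?_, ?_⟩)⟩
  · linarith [key s hs t ht]
  · rw [dist_comm]; exact key t ht s hs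

variable {W : Type} [MetricSpace W]

@[ext] structure Ed (W : Type) [MetricSpace W] where
  u : W
  v : W
  s : ℝ
  h : dist u v ≤ 1
  h0 : 0 ≤ s
  h1 : s ≤ 1

namespace Ed
def pt (p : Ed W) : Bool → W
  | false => p.u
  | true => p.v
def co (p : Ed W) : Bool → ℝ
  | false => p.s
  | true => 1 - p.s
def cst (p q : Ed W) (a b : Bool) : ℝ := p.co a + dist (p.pt a) (q.pt b) + q.co b
def E (p q : Ed W) : ℝ :=
  min (min (cst p q false false) (cst p q false true)) (min (cst p q true false) (cst p q true true))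

theorem co_nonneg (p : Ed W) (a : Bool) : 0 ≤ p.co a := by
  cases a
  · exact p.h0
  · exact sub_nonneg.2 p.h1
theorem E_le (p q : Ed W) (a b : Bool) : E p q ≤ cst p q a b := by
  cases a <;> cases b <;> simp [E]
theorem E_ex (p q : Ed W) : ∃ a b, E p q = cst p q a b := by
  unfold E
  rcases min_choice (min (cst p q false false) (cst p q false true))
    (min (cst p q true false) (cst p q true true)) with h | h <;> rw [h]
  · rcases min_choice (cst p q false false) (cst p q false true) with h | h <;> exact ⟨_, _, h⟩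
  · rcases min_choice (cst p q true false) (cst p q true true) with h | h <;> exact ⟨_, _, h⟩
theorem E_symm (p q : Ed W) : E p q = E q p := by
  have : ∀ p q : Ed W, E p q ≤ E q p := by
    intro p q
    obtain ⟨a, b, h⟩ := E_ex q p
    have := E_le p q b a
    rw [h]; simp only [cst] at this ⊢
    rw [dist_comm]; linarith
  exact le_antisymm (this p q) (this q p)
theorem E_nonneg (p q : Ed W) : 0 ≤ E p q := by
  obtain ⟨a, b, h⟩ := E_ex p q
  rw [h, cst]
  linarith [co_nonneg p a, co_nonneg q b, dist_nonneg (x := p.pt a) (y := q.pt b)]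
theorem E_tri (p q r : Ed W) : E p r ≤ E p q + E q r := by
  obtain ⟨a, b, h⟩ := E_ex p q
  obtain ⟨b', c, h'⟩ := E_ex q r
  have h1 := E_le p r a c
  have h2 : dist (q.pt b) (q.pt b') ≤ q.co b + q.co b' := by
    have := q.h0; have := q.h1; have := q.h
    cases b <;> cases b' <;> simp only [pt, co, dist_self] <;> first | linarith | skip
    rw [dist_comm]; linarith
  rw [h, h']; simp only [cst] at h1 ⊢
  linarith [dist_triangle4 (p.pt a) (q.pt b) (q.pt b') (r.pt c)]
theorem E_tri' (p q r : Ed W) (h : p.u = q.u ∧ p.v = q.v) : E p r ≤ |p.s - q.s| + E q r := by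
  obtain ⟨a, c, h'⟩ := E_ex q r
  have h1 := E_le p r a c
  have h2 : p.pt a = q.pt a := by cases a; exacts [h.1, h.2]
  have h3 : p.co a ≤ |p.s - q.s| + q.co a := by
    cases a <;> simp only [co]
    · linarith [le_abs_self (p.s - q.s)]
    · linarith [neg_abs_le (p.s - q.s)]
  rw [h']; simp only [cst, h2] at h1 ⊢
  linarith

open Classical in
noncomputable def D (p q : Ed W) : ℝ :=
  if p.u = q.u ∧ p.v = q.v then min |p.s - q.s| (E p q) else E p q

theorem D_le (p q : Ed W) : D p q ≤ E p q := by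
  unfold D; split_ifs
  · exact min_le_right _ _
  · exact le_rfl
theorem D_le' {p q : Ed W} (h : p.u = q.u ∧ p.v = q.v) : D p q ≤ |p.s - q.s| := by
  rw [D, if_pos h]; exact min_le_left _ _
theorem D_ex (p q : Ed W) : D p q = E p q ∨ ((p.u = q.u ∧ p.v = q.v) ∧ D p q = |p.s - q.s|) := by
  unfold D; split_ifs with h
  · rcases min_choice |p.s - q.s| (E p q) with h' | h'
    · exact Or.inr ⟨h, h'⟩
    · exact Or.inl h'
  · exact Or.inl rfl

noncomputable instance : PseudoMetricSpace (Ed W) where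
  dist := D
  dist_self p := by simp [D, E_nonneg]
  dist_comm p q := by
    classical
    unfold D
    rw [E_symm, abs_sub_comm]
    exact if_congr ⟨fun h => ⟨h.1.symm, h.2.symm⟩, fun h => ⟨h.1.symm, h.2.symm⟩⟩ rfl rfl
  dist_triangle p q r := by
    rcases D_ex p q with h | ⟨e, h⟩ <;> rcases D_ex q r with h' | ⟨e', h'⟩ <;> rw [h, h']
    · exact (D_le p r).trans (E_tri p q r)
    · refine (D_le p r).trans ?_
      have := E_tri' r q p ⟨e'.1.symm, e'.2.symm⟩
      rw [E_symm p r, E_symm p q, abs_sub_comm]; linarith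
    · exact (D_le p r).trans (E_tri' p q r e)
    · exact (D_le' ⟨e.1.trans e'.1, e.2.trans e'.2⟩).trans (abs_sub_le _ _ _)

def vx (u : W) : Ed W := ⟨u, u, 0, by simp, le_rfl, zero_le_one⟩

theorem dist_vx (u v : W) : dist (vx u) (vx v) = dist u v := by
  have : E (vx u) (vx v) = dist u v := by
    simp only [E, cst, co, pt, vx]
    have := dist_nonneg (x := u) (y := v)
    rw [min_eq_left, min_eq_left] <;> simp
  change D _ _ = _
  rcases D_ex (vx u) (vx v) with h | ⟨e, h⟩
  · rw [h, this]
  · have : u = v := e.1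
    subst this; rw [h]; simp [vx]

theorem dist_pt (p : Ed W) (a : Bool) : dist p (vx (p.pt a)) ≤ p.co a :=
  (D_le _ _).trans ((E_le _ _ a false).trans (by simp [cst, vx, pt, co]))
end Ed

/-- the metric graph -/
abbrev RG (W : Type) [MetricSpace W] : Type := SeparationQuotient (Ed W)

noncomputable def io (u : W) : RG W := SeparationQuotient.mk (Ed.vx u)

theorem dist_io (u v : W) : dist (io u) (io v) = dist u v := Ed.dist_vx u v

theorem near_io (x : RG W) : ∃ u, dist x (io u) ≤ 1 := by
  obtain ⟨p, rfl⟩ := SeparationQuotient.surjective_mk x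
  exact ⟨p.u, (p.dist_pt false).trans p.h1⟩

theorem pa_edge (p q : Ed W) (h : p.u = q.u ∧ p.v = q.v) :
    Pa (SeparationQuotient.mk p : RG W) (SeparationQuotient.mk q) |p.s - q.s| := by
  wlog hs : p.s ≤ q.s generalizing p q
  · rw [abs_sub_comm]; exact (this q p ⟨h.1.symm, h.2.symm⟩ (le_of_not_ge hs)).symm
  refine ⟨fun r => SeparationQuotient.mk ⟨p.u, p.v, max 0 (min 1 (p.s + r)), p.h, le_max_left _ _,
    max_le zero_le_one (min_le_left _ _)⟩, fun s t => ?_, ?_, ?_⟩
  · change Ed.D _ _ ≤ _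
    refine (Ed.D_le' (by exact ⟨rfl, rfl⟩)).trans ?_
    refine (abs_max_sub_max_le_max _ _ _ _).trans (max_le (by simp) ?_)
    refine (abs_min_sub_min_le_max _ _ _ _).trans (max_le (by simp) (le_of_eq ?_))
    congr 1; ring
  · dsimp only; congr 1; ext <;> simp [p.h0, p.h1]
  · dsimp only; congr 1
    rw [abs_of_nonpos (by linarith)]
    ext <;> simp [h.1, h.2, q.h0, q.h1]

theorem pa_pt (p : Ed W) (a : Bool) :
    Pa (SeparationQuotient.mk p : RG W) (io (p.pt a)) (p.co a) := by
  cases a
  · have := pa_edge p ⟨p.u, p.v, 0, p.h, le_rfl, zero_le_one⟩ ⟨rfl, rfl⟩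
    rw [sub_zero, abs_of_nonneg p.h0] at this
    change Pa _ _ p.s
    convert this using 1
    exact (eq_of_dist_eq_zero (le_antisymm (Ed.dist_pt
      ⟨p.u, p.v, 0, p.h, le_rfl, zero_le_one⟩ false) dist_nonneg)).symm
  · have := pa_edge p ⟨p.u, p.v, 1, p.h, zero_le_one, le_rfl⟩ ⟨rfl, rfl⟩
    rw [abs_of_nonpos (sub_nonpos.2 p.h1), neg_sub] at this
    change Pa _ _ (1 - p.s)
    convert this using 1
    refine (eq_of_dist_eq_zero (le_antisymm ((Ed.dist_pt
      ⟨p.u, p.v, 1, p.h, zero_le_one, le_rfl⟩ true).trans (by simp [Ed.co])) dist_nonneg)).symm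

theorem pa_step {u v : W} (h : dist u v ≤ 1) : Pa (io u) (io v) 1 := by
  have a := pa_pt ⟨u, v, 0, h, le_rfl, zero_le_one⟩ false
  have b := pa_pt ⟨u, v, 0, h, le_rfl, zero_le_one⟩ true
  simpa [Ed.co, Ed.pt] using a.symm.trans b le_rfl (by simp [Ed.co])

theorem rg_geod (h : ∀ u v : W, Pa (io u) (io v) (dist u v)) : IsGeod (RG W) := by
  apply geod_of
  intro p q
  obtain ⟨p, rfl⟩ := SeparationQuotient.surjective_mk p
  obtain ⟨q, rfl⟩ := SeparationQuotient.surjective_mk q
  change Pa _ _ (Ed.D p q)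
  rcases Ed.D_ex p q with e | ⟨e, e'⟩
  · obtain ⟨a, b, e'⟩ := Ed.E_ex p q
    rw [e, e', Ed.cst]
    exact ((pa_pt p a).trans (h _ _) (p.co_nonneg a) dist_nonneg).trans (pa_pt q b).symm
      (add_nonneg (p.co_nonneg a) dist_nonneg) (q.co_nonneg b)
  · rw [e']; exact pa_edge p q e

variable {G : Type} [Group G] [MulAction G W] [IsIsometricSMul G W]

instance : MulAction G (Ed W) where
  smul g p := ⟨g • p.u, g • p.v, p.s, by rw [dist_smul]; exact p.h, p.h0, p.h1⟩
  one_smul p := Ed.ext (one_smul G p.u) (one_smul G p.v) rfl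
  mul_smul g h p := Ed.ext (mul_smul g h p.u) (mul_smul g h p.v) rfl

instance : IsIsometricSMul G (Ed W) where
  isometry_smul g := Isometry.of_dist_eq fun p q => by
    have a : ∀ p : Ed W, (g • p).u = g • p.u := fun _ => rfl
    have b : ∀ p : Ed W, (g • p).v = g • p.v := fun _ => rfl
    have c : ∀ p : Ed W, (g • p).s = p.s := fun _ => rfl
    classical
    change Ed.D _ _ = Ed.D _ _
    have e : Ed.E (g • p) (g • q) = Ed.E p q := by
      simp [Ed.E, Ed.cst, Ed.co, Ed.pt, a, b, c]
    unfold Ed.D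
    rw [e, c, c]
    exact if_congr (by simp [a, b]) rfl rfl

instance : IsIsometricSMul G (RG W) where
  isometry_smul g := Isometry.of_dist_eq fun p q => by
    obtain ⟨p, rfl⟩ := SeparationQuotient.surjective_mk p
    obtain ⟨q, rfl⟩ := SeparationQuotient.surjective_mk q
    exact dist_smul g p q

theorem smul_io (g : G) (u : W) : g • io u = io (g • u) := rfl

instance (X : GenSet G) : IsIsometricSMul G (Cay X) where
  isometry_smul g := Isometry.of_dist_eq fun (p q : G) => by
    change ((wl X.1 ((g * p)⁻¹ * (g * q)) : ℕ) : ℝ) = (wl X.1 (p⁻¹ * q) : ℕ)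
    congr 2; group

theorem cay_geod (X : GenSet G) : IsGeod (RG (Cay X)) := by
  apply rg_geod
  have key : ∀ (l : List G), (∀ s ∈ l, s ∈ X.1 ∨ s⁻¹ ∈ X.1) → ∀ u : G,
      Pa (io (W := Cay X) u) (io (W := Cay X) (u * l.prod : G)) l.length := by
    intro l hl
    induction l with
    | nil => intro u; exact ⟨fun _ => io (W := Cay X) u, by simp, rfl, by simp⟩
    | cons s l ih =>
      intro u
      have a : Pa (io (W := Cay X) u) (io (W := Cay X) (u * s : G)) 1 := by
        apply pa_step
        change ((wl X.1 (u⁻¹ * (u * s)) : ℕ) : ℝ) ≤ 1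
        have := wl_le (X := X.1) [s] (fun t ht => hl t (by simp at ht; simp [ht]))
        rw [inv_mul_cancel_left]
        simp only [List.prod_singleton, List.length_singleton] at this
        exact_mod_cast this
      have := a.trans (ih (fun t ht => hl t (by simp [ht])) (u * s)) zero_le_one (by positivity)
      rw [List.prod_cons, ← mul_assoc, List.length_cons, Nat.cast_succ, add_comm]
      exact this
  intro (u : G) (v : G)
  obtain ⟨l, h1, h2, h3⟩ := wl_spec X.2 (u⁻¹ * v)
  have := key l h2 u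
  rw [h3, mul_inv_cancel_left, h1] at this
  exact this

end Pool.Agent.H69.Hyp
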