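import Pool.Agent.H69.Conf2
import Pool.Agent.H69.GeoReal

namespace Pool.Agent.H69.Hyp
open scoped Pointwise

def shF : MulAut (FreeGroup ℤ) := FreeGroup.freeGroupCongr (Equiv.addRight (1 : ℤ))

abbrev GF : Type := SD shF

noncomputable def lf (ε : ℤ) (x : FreeGroup ℤ) : ℝ :=
  (x.toWord.map fun p => (2 : ℝ) ^ (ε * p.1)).sum

theorem lf_inv (ε : ℤ) (x : FreeGroup ℤ) : lf ε x⁻¹ = lf ε x := by
  simp [lf, FreeGroup.invRev, List.sum_reverse, Function.comp_def]

theorem lf_mul (ε : ℤ) (x y : FreeGroup ℤ) : lf ε (x * y) ≤ lf ε x + lf ε y := by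
  rw [lf, lf, lf, ← List.sum_append, ← List.map_append]
  refine ((FreeGroup.toWord_mul_sublist x y).map _).sum_le_sum fun a ha => ?_
  obtain ⟨p, -, rfl⟩ := List.mem_map.1 ha
  positivity

theorem toWord_sh (x : FreeGroup ℤ) : (shF x).toWord = x.toWord.map fun p => (p.1 + 1, p.2) := by
  conv_lhs => rw [← FreeGroup.mk_toWord (x := x)]
  change (FreeGroup.map _ (FreeGroup.mk _)).toWord = _
  rw [FreeGroup.map.mk, FreeGroup.toWord_mk]
  apply FreeGroup.IsReduced.reduce_eq
  have := FreeGroup.isReduced_toWord (x := x)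
  unfold FreeGroup.IsReduced at this ⊢
  rw [List.isChain_map]
  simpa using this

theorem lf_sh (ε : ℤ) (x : FreeGroup ℤ) : lf ε (shF x) = 2 ^ ε * lf ε x := by
  rw [lf, toWord_sh, lf, ← List.sum_map_mul_left, List.map_map]
  congr 2; funext p
  simp only [Function.comp_apply, mul_add, mul_one]
  rw [zpow_add₀ two_ne_zero, mul_comm]

noncomputable def nF : Bool → Nrm GF
  | true => nrmP shF (lf 1) 2 one_lt_two (by simp [lf]) (lf_inv 1) (lf_mul 1)
      (fun a => by rw [lf_sh, zpow_one])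
  | false => nrmM shF (lf (-1)) 2 one_lt_two (by simp [lf]) (lf_inv _) (lf_mul _)
      (fun a => by rw [lf_sh, ← mul_assoc]; norm_num)

theorem lf_fin (B : ℝ) : {x : FreeGroup ℤ | lf 1 x ≤ B ∧ lf (-1) x ≤ B}.Finite := by
  obtain ⟨K, hK⟩ := exists_nat_ge (2 * B)
  have key : ∀ x : FreeGroup ℤ, lf 1 x + lf (-1) x =
      (x.toWord.map fun p => (2 : ℝ) ^ p.1 + 2 ^ (-p.1)).sum := by
    intro x; simp [lf, List.sum_map_add]
  have b1 : ∀ i : ℤ, (|i| : ℤ) + 1 ≤ (2 : ℝ) ^ i + 2 ^ (-i) := by
    have : ∀ n : ℕ, (n : ℝ) + 1 ≤ 2 ^ n := fun n => by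
      exact_mod_cast (Nat.lt_two_pow_self : n < 2 ^ n)
    intro i
    obtain ⟨n, rfl | rfl⟩ := Int.eq_nat_or_neg i
    · have := this n
      have h2 : (0 : ℝ) < 2 ^ (-(n : ℤ)) := by positivity
      simp only [Nat.abs_cast, Int.cast_natCast, zpow_natCast]; linarith
    · have := this n
      have h2 : (0 : ℝ) < 2 ^ (-(n : ℤ)) := by positivity
      simp only [abs_neg, Nat.abs_cast, Int.cast_natCast, neg_neg, zpow_natCast]; linarith
  let T := {p : ℤ × Bool // p ∈ Finset.Icc (-(K : ℤ)) K ×ˢ (Finset.univ : Finset Bool)}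
  have hfin : ((fun l : List T => FreeGroup.mk (l.map Subtype.val)) ''
    {l : List T | l.length ≤ K}).Finite := (List.finite_length_le T K).image _
  refine hfin.subset fun x hx => ?_
  have h1 : (x.toWord.map fun p => (2 : ℝ) ^ p.1 + 2 ^ (-p.1)).sum ≤ K := by
    rw [← key]; linarith [hx.1, hx.2]
  have h2 : ∀ p ∈ x.toWord, p ∈ Finset.Icc (-(K : ℤ)) K ×ˢ (Finset.univ : Finset Bool) := by
    intro p hp
    have := List.single_le_sum (l := x.toWord.map fun p => (2 : ℝ) ^ p.1 + 2 ^ (-p.1))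
      (fun a ha => by obtain ⟨p, -, rfl⟩ := List.mem_map.1 ha; positivity) _
      (List.mem_map.2 ⟨p, hp, rfl⟩)
    have h3 : ((|p.1| : ℤ) : ℝ) ≤ K := by linarith [b1 p.1]
    have h4 : |p.1| ≤ K := by exact_mod_cast h3
    simpa [abs_le] using h4
  refine ⟨x.toWord.attachWith _ h2, ?_, by
    dsimp only; rw [List.attachWith_map_subtype_val, FreeGroup.mk_toWord]⟩
  have h5 := List.card_nsmul_le_sum (x.toWord.map fun p => (2 : ℝ) ^ p.1 + 2 ^ (-p.1)) 1
    (fun a ha => by
      obtain ⟨p, -, rfl⟩ := List.mem_map.1 ha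
      have := b1 p.1
      have h6 : (0 : ℝ) ≤ (|p.1| : ℤ) := by exact_mod_cast abs_nonneg _
      linarith)
  simp only [List.length_map, nsmul_eq_mul, mul_one] at h5
  have h7 : x.toWord.length ≤ K := by exact_mod_cast h5.trans h1
  exact (List.length_attachWith (H := h2)).le.trans h7

theorem GF_fg : Group.FG GF := by
  rw [Group.fg_iff]
  refine ⟨{SemidirectProduct.inl (FreeGroup.of 0), tt shF}, ?_, Set.toFinite _⟩
  set H := Subgroup.closure ({SemidirectProduct.inl (FreeGroup.of 0), tt shF} : Set GF)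
  have ht : tt shF ∈ H := Subgroup.subset_closure (by simp)
  have hs : ∀ i : ℤ, tt shF * SemidirectProduct.inl (FreeGroup.of i) * (tt shF)⁻¹ =
      SemidirectProduct.inl (FreeGroup.of (i + 1)) := by
    intro i
    rw [tt, ← map_inv, ← SemidirectProduct.inl_aut]
    simp [shF]
  have h1 : ∀ i : ℤ, (SemidirectProduct.inl (FreeGroup.of i) : GF) ∈ H := by
    intro i
    induction i using Int.induction_on with
    | zero => exact Subgroup.subset_closure (by simp)
    | succ n ih => rw [← hs]; exact mul_mem (mul_mem ht ih) (inv_mem ht)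
    | pred n ih =>
      have := hs (-n - 1)
      rw [sub_add_cancel] at this
      rw [← this] at ih
      convert mul_mem (mul_mem (inv_mem ht) ih) ht using 1; group
  have h2 : ∀ x : FreeGroup ℤ, (SemidirectProduct.inl x : GF) ∈ H := by
    intro x
    induction x with
    | C1 => simp
    | of i => exact h1 i
    | inv_of i h => rw [map_inv]; exact inv_mem h
    | mul x y hx hy => rw [map_mul]; exact mul_mem hx hy
  rw [eq_top_iff]
  intro g _
  rw [← SemidirectProduct.inl_left_mul_inr_right g]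
  refine mul_mem (h2 _) ?_
  have : (SemidirectProduct.inr g.right : GF) = tt shF ^ g.right.toAdd := by
    rw [tt, ← map_zpow, ← ofAdd_zsmul]; simp
  rw [this]; exact zpow_mem ht _

theorem GF_not_amen : ¬ Amenable GF := by
  rintro ⟨m, h0, h1, h2, h3⟩
  let W : ℤ × Bool → Set GF := fun w => {g | g.left ∈ FreeGroup.startsWith w}
  have mono : ∀ A B : Set GF, A ⊆ B → m A ≤ m B := by
    intro A B h
    have := h2 A (B \ A) Set.disjoint_sdiff_right
    rw [Set.union_diff_cancel h] at this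
    linarith [h0 (B \ A)]
  have half : ∀ i : ℤ, 1 ≤ m (W (i, true)) + m (W (i, false)) := by
    intro i
    have a := h2 (W (i, false)) (W (i, false))ᶜ disjoint_compl_right
    rw [Set.union_compl_self, h1] at a
    have b := h3 (SemidirectProduct.inl (FreeGroup.of i))⁻¹ (W (i, true))
    have c := mono (W (i, false))ᶜ (((SemidirectProduct.inl (FreeGroup.of i) : GF))⁻¹ • W (i, true))
      (fun g hg => by
        rw [Set.mem_inv_smul_set_iff]
        have := FreeGroup.startsWith_mk_mul (w := (i, true)) g.left hg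
        simpa [W, FreeGroup.of] using this)
    linarith
  have dis : ∀ v w, v ≠ w → Disjoint (W v) (W w) := fun v w h =>
    (FreeGroup.startsWith.disjoint_iff_ne.2 h).preimage (fun g : GF => g.left)
  have e1 := h2 _ _ (dis (0, true) (0, false) (by simp))
  have e2 := h2 _ _ (dis (1, true) (1, false) (by simp))
  have e3 := h2 (W (0, true) ∪ W (0, false)) (W (1, true) ∪ W (1, false)) (by
    simp only [Set.disjoint_union_left, Set.disjoint_union_right]
    exact ⟨⟨dis _ _ (by simp), dis _ _ (by simp)⟩, dis _ _ (by simp), dis _ _ (by simp)⟩)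
  have e4 := mono ((W (0, true) ∪ W (0, false)) ∪ (W (1, true) ∪ W (1, false))) Set.univ
    (Set.subset_univ _)
  linarith [half 0, half 1]

abbrev SF (b : Bool) : Type := RG (Cay (nF b).conf.XX)
noncomputable def oF (b : Bool) : SF b := io (Cay.one _)

theorem oF_dist (b : Bool) (g h : GF) :
    dist (g • oF b) (h • oF b) = wl (nF b).conf.X (g⁻¹ * h) := by
  rw [oF, smul_io, smul_io, dist_io, cay_dist]; rfl

theorem oF_cob (b : Bool) : Cobounded GF (oF b) := ⟨1, fun x => by
  obtain ⟨u, hu⟩ := near_io x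
  refine ⟨u, ?_⟩
  rw [oF, smul_io]
  have : (show GF from u) • Cay.one (nF b).conf.XX = u := mul_one (M := GF) u
  rw [this]; exact hu⟩

theorem lf_of (ε : ℤ) : lf ε (FreeGroup.of 0) = 1 := by simp [lf]

theorem oF_focal (b : Bool) : Focal GF (oF b) := by
  have hb : (nF b).β (SemidirectProduct.inl (FreeGroup.of 0) * (nF b).t) = 1 := by
    rw [(nF b).β_mul, (nF b).β_t]; cases b <;> rfl
  obtain ⟨k, hk⟩ := (nF b).not_R (g := SemidirectProduct.inl (FreeGroup.of 0) * (nF b).t) (h := 1)
    (by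
      rw [hb, (nF b).β_one, (show (SemidirectProduct.inl (FreeGroup.of 0) * (nF b).t *
        (nF b).t ^ (-1 : ℤ))⁻¹ * (1 * (nF b).t ^ (-0 : ℤ)) =
          (SemidirectProduct.inl (FreeGroup.of 0))⁻¹ by group), (nF b).ℓ_inv _ (by cases b <;> rfl)]
      cases b
      · change 0 < lf (-1) (FreeGroup.of 0); rw [lf_of]; exact one_pos
      · change 0 < lf 1 (FreeGroup.of 0); rw [lf_of]; exact one_pos)
  exact (nF b).conf.focal _ (oF_dist b) _ hb hk

theorem proper (x : ∀ b, SF b) (R : ℝ) :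
    {g : GF | ∃ y : ∀ b, SF b, ∑ b, dist (y b) (x b) ≤ R ∧ ∑ b, dist (g • y b) (x b) ≤ R}.Finite := by
  obtain ⟨K1, B1, h1⟩ := (nF true).bdd (2 * R + 2 * dist (x true) (oF true))
  obtain ⟨K2, B2, h2⟩ := (nF false).bdd (2 * R + 2 * dist (x false) (oF false))
  have hfin := ((lf_fin (max B1 B2)).prod (Set.finite_Icc (-(K1 : ℤ)) K1)).image
    (fun p => (⟨p.1, Multiplicative.ofAdd p.2⟩ : GF))
  refine hfin.subset ?_
  rintro g ⟨y, a, b⟩
  simp only [Fintype.sum_bool] at a b
  have key : ∀ c, dist (y c) (x c) ≤ R → dist (g • y c) (x c) ≤ R →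
      (wl (nF c).conf.X g : ℝ) ≤ 2 * R + 2 * dist (x c) (oF c) := by
    intro c a b
    have := oF_dist c 1 g
    rw [inv_one, one_mul, one_smul] at this
    rw [← this]
    have t1 := dist_triangle4 (oF c) (x c) (g • y c) (g • oF c)
    have t2 := dist_triangle (y c) (x c) (oF c)
    rw [dist_smul, dist_comm (oF c) (x c), dist_comm (x c) (g • y c)] at t1
    linarith
  have n1 := dist_nonneg (x := y true) (y := x true)
  have n2 := dist_nonneg (x := y false) (y := x false)
  have n3 := dist_nonneg (x := g • y true) (y := x true)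
  have n4 := dist_nonneg (x := g • y false) (y := x false)
  obtain ⟨c1, c2⟩ := h1 g (key true (by linarith) (by linarith))
  obtain ⟨-, c3⟩ := h2 g (key false (by linarith) (by linarith))
  change lf 1 (g * tt shF ^ _).left ≤ B1 at c2
  change lf (-1) (g * (tt shF)⁻¹ ^ _).left ≤ B2 at c3
  rw [inv_zpow'] at c3
  rw [left_tt] at c2 c3
  exact ⟨(g.left, g.right.toAdd), ⟨⟨c2.trans (le_max_left _ _), c3.trans (le_max_right _ _)⟩,
    abs_le.1 c1⟩, rfl⟩

end Pool.Agent.H69.Hyp
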