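import Mathlib

set_option autoImplicit false

namespace Pool.Agent.H69.Dc

abbrev R := ℕ → Bool
abbrev P := Equiv.Perm R

def cons (x : Bool) (p : R) : R
  | 0 => x
  | i + 1 => p i

def tail (p : R) : R := fun i => p (i + 1)

@[simp] theorem cons_zero (x : Bool) (p : R) : cons x p 0 = x := rfl
@[simp] theorem cons_succ (x : Bool) (p : R) (i : ℕ) : cons x p (i + 1) = p i := rfl
@[simp] theorem tail_cons (x : Bool) (p : R) : tail (cons x p) = p := rfl
theorem cons_tail (p : R) : cons (p 0) (tail p) = p := by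
  funext i; cases i <;> rfl

theorem pext {g h : P} (h0 : ∀ p, g (cons false p) = h (cons false p))
    (h1 : ∀ p, g (cons true p) = h (cons true p)) : g = h := by
  ext1 p
  rw [← cons_tail p]
  cases p 0
  exacts [h0 _, h1 _]

def prf (g h : P) (p : R) : R := cons (p 0) ((if p 0 then h else g) (tail p))

def pr : P × P →* P where
  toFun x := ⟨prf x.1 x.2, prf x.1⁻¹ x.2⁻¹,
    fun p => by rw [← cons_tail p]; cases p 0 <;> simp [prf],
    fun p => by rw [← cons_tail p]; cases p 0 <;> simp [prf]⟩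
  map_one' := pext (fun _ => rfl) (fun _ => rfl)
  map_mul' _ _ := pext (fun _ => rfl) (fun _ => rfl)

@[simp] theorem pr0 (g h : P) (p : R) : pr (g, h) (cons false p) = cons false (g p) := rfl
@[simp] theorem pr1 (g h : P) (p : R) : pr (g, h) (cons true p) = cons true (h p) := rfl

theorem pr_inj : Function.Injective pr := by
  rintro ⟨g, h⟩ ⟨g', h'⟩ e
  refine Prod.ext (Equiv.ext fun p => ?_) (Equiv.ext fun p => ?_)
  · exact congrArg (fun x : P => tail (x (cons false p))) e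
  · exact congrArg (fun x : P => tail (x (cons true p))) e

theorem pr_mul (g h g' h' : P) : pr (g, h) * pr (g', h') = pr (g * g', h * h') :=
  (map_mul pr _ _).symm

def af (p : R) : R := cons (!p 0) (tail p)

def a : P := Function.Involutive.toPerm af (fun p => by simp [af, cons_tail])

@[simp] theorem a_cons (x : Bool) (p : R) : a (cons x p) = cons (!x) p := rfl

theorem a_spec (x : R) (j : ℕ) : a x j ≠ x j ↔ j = 0 := by
  rw [← cons_tail x]
  cases j <;> simp

def C (r : ℕ) (x : R) (j : ℕ) : Prop :=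
  ∃ k, j = k + 1 ∧ x k = false ∧ (∀ i < k, x i = true) ∧ k % 3 ≠ r

open Classical in
noncomputable def tf (r : ℕ) (x : R) : R := fun j => if C r x j then !x j else x j

theorem tf_low {r k : ℕ} {x : R} (h : ∀ i < k, x i = true) : ∀ i ≤ k, tf r x i = x i := by
  intro i hi
  refine if_neg ?_
  rintro ⟨m, rfl, h1, -⟩
  rw [h m hi] at h1
  exact absurd h1 (by simp)

theorem C_tf (r s : ℕ) (x : R) (j : ℕ) : C r (tf s x) j ↔ C r x j := by
  refine exists_congr fun k => and_congr_right fun _ => ?_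
  constructor
  · rintro ⟨h1, h2, h3⟩
    have : ∀ i < k, x i = true := by
      intro i
      induction i using Nat.strong_induction_on with
      | _ i ih => intro hi; rw [← tf_low (r := s) (fun m hm => ih m hm (by omega)) i le_rfl, h2 i hi]
    exact ⟨by rw [← tf_low (r := s) this k le_rfl, h1], this, h3⟩
  · rintro ⟨h1, h2, h3⟩
    exact ⟨by rw [tf_low h2 k le_rfl, h1], fun i hi => by rw [tf_low h2 i hi.le, h2 i hi], h3⟩

noncomputable def T (r : ℕ) : P := Function.Involutive.toPerm (tf r) (fun x => by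
  funext j
  rw [tf, C_tf, tf]
  split_ifs <;> simp)

theorem T_apply (r : ℕ) (x : R) : T r x = tf r x := rfl

theorem T_spec (r : ℕ) (x : R) (j : ℕ) : T r x j ≠ x j ↔ C r x j := by
  rw [T_apply, tf]
  split_ifs with h <;> simp [h]

theorem T0 (r : ℕ) (p : R) : T r (cons false p) = cons false (if r = 0 then p else a p) := by
  funext j
  have : C r (cons false p) j ↔ j = 1 ∧ r ≠ 0 := by
    constructor
    · rintro ⟨k, rfl, h1, h2, h3⟩
      cases k with
      | zero => exact ⟨rfl, Ne.symm h3⟩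
      | succ k => exact absurd (h2 0 (by omega)) (by simp)
    · rintro ⟨rfl, h⟩
      exact ⟨0, rfl, rfl, by simp, Ne.symm h⟩
  rw [T_apply, tf, this, ← cons_tail p]
  by_cases h : r = 0 <;> rcases j with _ | _ | j <;> simp [h]

theorem T1 (r s : ℕ) (h : ∀ k, (k + 1) % 3 ≠ r ↔ k % 3 ≠ s) (p : R) :
    T r (cons true p) = cons true (T s p) := by
  funext j
  cases j with
  | zero => exact tf_low (k := 0) (by simp) 0 le_rfl
  | succ j =>
    have : C r (cons true p) (j + 1) ↔ C s p j := by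
      constructor
      · rintro ⟨k, h0, h1, h2, h3⟩
        cases k with
        | zero => exact absurd h1 (by simp)
        | succ k => exact ⟨k, by omega, h1, fun i hi => h2 (i + 1) (by omega), (h k).1 h3⟩
      · rintro ⟨k, rfl, h1, h2, h3⟩
        exact ⟨k + 1, rfl, h1, fun i hi => by cases i; rfl; exact h2 _ (by omega), (h k).2 h3⟩
    rw [T_apply, tf, this]
    rfl

noncomputable def b : P := T 2
noncomputable def c : P := T 1
noncomputable def d : P := T 0

@[simp] theorem b0 (p : R) : b (cons false p) = cons false (a p) := T0 2 p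
@[simp] theorem c0 (p : R) : c (cons false p) = cons false (a p) := T0 1 p
@[simp] theorem d0 (p : R) : d (cons false p) = cons false p := T0 0 p
@[simp] theorem b1 (p : R) : b (cons true p) = cons true (c p) := T1 2 1 (by omega) p
@[simp] theorem c1 (p : R) : c (cons true p) = cons true (d p) := T1 1 0 (by omega) p
@[simp] theorem d1 (p : R) : d (cons true p) = cons true (b p) := T1 0 2 (by omega) p
@[simp] theorem aa (p : R) : a (a p) = p := a.left_inv p
@[simp] theorem bb (p : R) : b (b p) = p := b.left_inv p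
@[simp] theorem cc (p : R) : c (c p) = p := c.left_inv p
@[simp] theorem ai : a⁻¹ = a := rfl
@[simp] theorem bi : b⁻¹ = b := rfl
@[simp] theorem ci : c⁻¹ = c := rfl
@[simp] theorem di : d⁻¹ = d := rfl

theorem bc : b * c = d := by
  ext x j
  show tf 2 (tf 1 x) j = tf 0 x j
  rw [tf, C_tf, tf, tf]
  cases j with
  | zero => simp [C]
  | succ j =>
    simp only [C, add_left_inj, exists_eq_left']
    by_cases h : x j = false ∧ ∀ i < j, x i = true
    · have h3 : j % 3 = 0 ∨ j % 3 = 1 ∨ j % 3 = 2 := by omega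
      rcases h3 with h3 | h3 | h3 <;> simp [h.1, eq_true h.2, h3]
    · rw [if_neg (fun h' => h ⟨h'.1, h'.2.1⟩), if_neg (fun h' => h ⟨h'.1, h'.2.1⟩),
        if_neg (fun h' => h ⟨h'.1, h'.2.1⟩)]

noncomputable def G : Subgroup P := Subgroup.closure {a, b, c, d}

theorem aG : a ∈ G := Subgroup.subset_closure (by simp)
theorem bG : b ∈ G := Subgroup.subset_closure (by simp)
theorem cG : c ∈ G := Subgroup.subset_closure (by simp)
theorem dG : d ∈ G := Subgroup.subset_closure (by simp)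

theorem ind {Q : P → Prop} (h1 : Q 1) (ha : ∀ g ∈ G, Q g → Q (a * g))
    (hb : ∀ g ∈ G, Q g → Q (b * g)) (hc : ∀ g ∈ G, Q g → Q (c * g))
    (hd : ∀ g ∈ G, Q g → Q (d * g)) : ∀ g ∈ G, Q g := by
  intro g hg
  induction hg using Subgroup.closure_induction_left with
  | one => exact h1
  | mul_left x hx y hy ih =>
    rcases hx with rfl | rfl | rfl | rfl
    exacts [ha y hy ih, hb y hy ih, hc y hy ih, hd y hy ih]
  | inv_mul_cancel x hx y hy ih =>
    rcases hx with rfl | rfl | rfl | rfl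
    exacts [ha y hy ih, hb y hy ih, hc y hy ih, hd y hy ih]

def Tr (g : P) : Prop := ∀ p q k, (∀ i < k, p i = q i) → (g p k = g q k ↔ p k = q k)

def Ph (g : P) : Prop := ∀ q : R, ∃ n, ∀ (p : R) k, n ≤ k → (∀ i < k, p i = q i) → p k ≠ q k →
  ∀ j, k + 1 < j → g p j = p j

theorem mulP {g h : P} (h1 : Tr g ∧ Ph g) (h2 : Tr h ∧ Ph h) : Tr (g * h) ∧ Ph (g * h) := by
  have e : ∀ p q k, (∀ i < k, p i = q i) → ∀ i < k, h p i = h q i := fun p q k hk i hi =>
    (h2.1 p q i (fun m hm => hk m (by omega))).2 (hk i hi)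
  refine ⟨fun p q k hk => (h1.1 _ _ k (e p q k hk)).trans (h2.1 p q k hk), fun q => ?_⟩
  obtain ⟨n, hn⟩ := h1.2 (h q)
  obtain ⟨m, hm⟩ := h2.2 q
  refine ⟨n + m, fun p k a1 a2 a3 j hj => ?_⟩
  rw [Equiv.Perm.mul_apply, hn (h p) k (by omega) (e p q k a2)
    (fun h' => a3 ((h2.1 p q k a2).1 h')) j hj, hm p k (by omega) a2 a3 j hj]

theorem aP : Tr a ∧ Ph a := by
  refine ⟨fun p q k _ => ?_, fun q => ⟨0, fun p k _ _ _ j hj => ?_⟩⟩
  · rw [← cons_tail p, ← cons_tail q]
    cases k <;> simp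
  · by_contra h
    have := (a_spec p j).1 h
    omega

theorem TP (r : ℕ) : Tr (T r) ∧ Ph (T r) := by
  classical
  refine ⟨fun p q k hk => ?_, fun q => ?_⟩
  · have : C r p k ↔ C r q k := exists_congr fun m => and_congr_right fun e => by
      rw [hk m (by omega)]
      exact and_congr_right fun _ => and_congr_left fun _ =>
        forall₂_congr fun i hi => by rw [hk i (by omega)]
    rw [T_apply, T_apply, tf, tf, this]
    split_ifs <;> simp
  · by_cases h : ∃ m, q m = false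
    · obtain ⟨m, hm⟩ := h
      refine ⟨m + 1, fun p k a1 a2 _ j hj => if_neg ?_⟩
      rintro ⟨i, rfl, -, b2, -⟩
      rw [← a2 m a1, b2 m (by omega)] at hm
      exact absurd hm (by simp)
    · refine ⟨0, fun p k _ _ a3 j hj => if_neg ?_⟩
      rintro ⟨i, rfl, -, b2, -⟩
      refine a3 ((b2 k (by omega)).trans ?_)
      by_contra hc
      exact h ⟨k, by simpa using hc⟩

theorem GP : ∀ g ∈ G, Tr g ∧ Ph g :=
  ind ⟨fun _ _ _ _ => Iff.rfl, fun _ => ⟨0, fun _ _ _ _ _ _ _ => rfl⟩⟩ (fun _ _ => mulP aP)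
    (fun _ _ => mulP (TP 2)) (fun _ _ => mulP (TP 1)) (fun _ _ => mulP (TP 0))

def ray : ℕ → R → R
  | 0, r => cons false r
  | k + 1, r => cons true (ray k r)

theorem ray_lt : ∀ k r, ∀ i < k, ray k r i = true
  | _ + 1, _, 0, _ => rfl
  | k + 1, r, i + 1, h => ray_lt k r i (by omega)
theorem ray_eq : ∀ k r, ray k r k = false
  | 0, _ => rfl
  | k + 1, r => ray_eq k r
theorem ray_gt : ∀ k r j, ray k r (j + 1 + k) = r j
  | 0, _, _ => rfl
  | k + 1, r, j => ray_gt k r j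

noncomputable def t : P := a * b * a * b
noncomputable def v : P := a * b * a * d * (a * b * a * d)
noncomputable def k0 : P := t * v * t⁻¹ * v⁻¹

theorem no_fix (x : P) (hx : x ∈ G) : x ≠ pr (k0, x) := by
  intro e
  have h : ∀ k r, x (ray k r) = ray k (k0 r) := by
    intro k r
    induction k with
    | zero => rw [e]; rfl
    | succ k ih => rw [e, ray, pr1, ih]; rfl
  obtain ⟨n, hn⟩ := (GP x hx).2 (fun _ => true)
  have := hn (ray n (cons true (cons false (cons false (cons false (fun _ => true)))))) n le_rfl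
    (ray_lt n _) (by simp [ray_eq]) (3 + 1 + n) (by omega)
  rw [h, ray_gt, ray_gt] at this
  simp [k0, t, v] at this

theorem tG : t ∈ G := mul_mem (mul_mem (mul_mem aG bG) aG) bG

noncomputable def K0 : Subgroup G := Subgroup.normalClosure {⟨t, tG⟩}

instance : K0.Normal := Subgroup.normalClosure_normal

noncomputable def K : Subgroup P := K0.map G.subtype

theorem KG {x : P} (h : x ∈ K) : x ∈ G := by obtain ⟨y, -, rfl⟩ := h; exact y.2

theorem tK : t ∈ K := ⟨⟨t, tG⟩, Subgroup.subset_normalClosure rfl, rfl⟩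

theorem Kc {g x : P} (hg : g ∈ G) (h : x ∈ K) : g * x * g⁻¹ ∈ K := by
  obtain ⟨y, hy, rfl⟩ := h
  exact ⟨_, Subgroup.Normal.conj_mem inferInstance y hy ⟨g, hg⟩, rfl⟩

theorem vK : v ∈ K := by
  have : v = t * (c * t * c⁻¹) := by simp only [v, t, ← bc, ci, mul_assoc]
  exact this ▸ mul_mem tK (Kc cG tK)

theorem lift : ∀ g ∈ G, ∃ h, pr (h, g) ∈ G := by
  have e1 : a * c * a = pr (d, a) := pext (by simp) (by simp)
  have e2 : d = pr (1, b) := pext (by simp) (by simp)
  have e3 : b = pr (a, c) := pext (by simp) (by simp)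
  have e4 : c = pr (a, d) := pext (by simp) (by simp)
  refine ind ⟨1, (map_one pr).symm ▸ one_mem G⟩ ?_ ?_ ?_ ?_ <;> rintro g - ⟨h, hh⟩
  · exact ⟨_, pr_mul _ _ _ _ ▸ mul_mem (e1 ▸ mul_mem (mul_mem aG cG) aG) hh⟩
  · exact ⟨_, pr_mul _ _ _ _ ▸ mul_mem (e2 ▸ dG) hh⟩
  · exact ⟨_, pr_mul _ _ _ _ ▸ mul_mem (e3 ▸ bG) hh⟩
  · exact ⟨_, pr_mul _ _ _ _ ▸ mul_mem (e4 ▸ cG) hh⟩

theorem K1 {x : P} (h : x ∈ K) : pr (1, x) ∈ K := by
  obtain ⟨y, hy, rfl⟩ := h
  haveI : (K.comap ((pr.comp (MonoidHom.inr P P)).comp G.subtype)).Normal := ⟨fun y hy g => by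
    obtain ⟨h, hh⟩ := lift g g.2
    have := Kc hh (show pr (1, y.1) ∈ K from hy)
    rw [← map_inv, ← map_mul, ← map_mul] at this
    simpa [Subgroup.mem_comap] using this⟩
  refine Subgroup.normalClosure_le_normal
    (N := K.comap ((pr.comp (MonoidHom.inr P P)).comp G.subtype)) ?_ hy
  rintro _ rfl
  have : v = pr (1, t) := pext (by simp [v]) (by simp [v, t])
  exact (this ▸ vK : pr (1, t) ∈ K)

theorem K2 {x : P} (h : x ∈ K) : pr (x, 1) ∈ K := by
  have : pr (x, 1) = a * pr (1, x) * a⁻¹ := pext (by simp) (by simp)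
  exact this ▸ Kc aG (K1 h)

theorem K3 {x y : P} (h : x ∈ K) (h' : y ∈ K) : pr (x, y) ∈ K := by
  simpa [pr_mul] using mul_mem (K2 h) (K1 h')

instance : K0.FiniteIndex := by
  let π : G →* G ⧸ K0 := QuotientGroup.mk' K0
  obtain ⟨A, hA⟩ : ∃ A, A = π ⟨a, aG⟩ := ⟨_, rfl⟩
  obtain ⟨B, hB⟩ : ∃ A, A = π ⟨b, bG⟩ := ⟨_, rfl⟩
  obtain ⟨D, hD⟩ : ∃ A, A = π ⟨d, dG⟩ := ⟨_, rfl⟩
  have one : ∀ x : G, x.1 = 1 → π x = 1 := fun x h => by rw [show x = 1 from Subtype.ext h, map_one]
  have a2 : A * A = 1 := by rw [hA, ← map_mul]; exact one _ (mul_inv_cancel a)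
  have b2 : B * B = 1 := by rw [hB, ← map_mul]; exact one _ (mul_inv_cancel b)
  have d2 : D * D = 1 := by rw [hD, ← map_mul]; exact one _ (mul_inv_cancel d)
  have bd : b * d = c := by rw [← bc, ← mul_assoc, show b * b = 1 from mul_inv_cancel b, one_mul]
  have c2 : B * D * (B * D) = 1 := by
    rw [hB, hD, ← map_mul, ← map_mul]
    exact one _ (by simp only [Subgroup.coe_mul, bd]; exact mul_inv_cancel c)
  have t2 : A * B * (A * B) = 1 := by
    rw [hA, hB, ← map_mul, ← map_mul]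
    exact (QuotientGroup.eq_one_iff _).2 (Subgroup.subset_normalClosure
      (Subtype.ext (by simp [t, mul_assoc])))
  have r4 : (A * D) ^ 4 = 1 := by
    rw [hA, hD, ← map_mul, ← map_pow]
    exact one _ (pext (by simp [pow_succ]) (by simp [pow_succ]))
  have cm : ∀ x y : G ⧸ K0, x * x = 1 → y * y = 1 → x * y * (x * y) = 1 → Commute x y := by
    intro x y h1 h2 h3
    have := inv_eq_of_mul_eq_one_right h3
    rw [mul_inv_rev, inv_eq_of_mul_eq_one_right h1, inv_eq_of_mul_eq_one_right h2] at this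
    exact this.symm
  have ab := cm _ _ a2 b2 t2
  have db := (cm _ _ b2 d2 c2).symm
  let S : Set (G ⧸ K0) := {x | ∃ i j k : ℤ, x = B ^ i * (A * D) ^ j * A ^ k}
  have sa : ∀ x ∈ S, A * x ∈ S := by
    rintro _ ⟨i, j, k, rfl⟩
    refine ⟨i, -j, 1 + k, ?_⟩
    have : A * (A * D) * A⁻¹ = (A * D)⁻¹ := by
      rw [← mul_assoc, a2, one_mul, mul_inv_rev, inv_eq_of_mul_eq_one_right d2]
    rw [zpow_neg, ← inv_zpow, ← this, conj_zpow, zpow_add, zpow_one, ← mul_assoc, ← mul_assoc,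
      (ab.zpow_right i).eq]
    simp [mul_assoc]
  have sb : ∀ x ∈ S, B * x ∈ S := by
    rintro _ ⟨i, j, k, rfl⟩
    exact ⟨1 + i, j, k, by rw [zpow_add, zpow_one]; simp [mul_assoc]⟩
  have sd : ∀ x ∈ S, D * x ∈ S := by
    rintro _ ⟨i, j, k, rfl⟩
    have := sa _ ⟨i, 1 + j, k, rfl⟩
    rw [zpow_add, zpow_one, ← mul_assoc (B ^ i), ← ((ab.mul_left db).zpow_right i).eq] at this
    simpa only [← mul_assoc, a2, one_mul] using this
  have hS : ∀ g ∈ G, ∀ h : g ∈ G, π ⟨g, h⟩ ∈ S := by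
    refine ind (fun _ => ⟨0, 0, 0, by simpa using one _ rfl⟩) ?_ ?_ ?_ ?_ <;> intro g hg ih _
    · have := sa _ (ih hg); rwa [hA, ← map_mul] at this
    · have := sb _ (ih hg); rwa [hB, ← map_mul] at this
    · have := sb _ (sd _ (ih hg))
      rw [hB, hD, ← map_mul, ← map_mul] at this
      convert this using 2
      exact Subtype.ext (by simp [← bd, mul_assoc])
    · have := sd _ (ih hg); rwa [hD, ← map_mul] at this
  have f : ∀ (x : G ⧸ K0) (n : ℕ), 0 < n → x ^ n = 1 →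
      (Subgroup.zpowers x : Set (G ⧸ K0)).Finite := fun x n h1 h2 =>
    (isOfFinOrder_iff_pow_eq_one.2 ⟨n, h1, h2⟩).finite_zpowers
  have : (Set.univ : Set (G ⧸ K0)).Finite := by
    refine (((f B 2 two_pos (by rwa [sq])).mul (f _ 4 four_pos r4)).mul
      (f A 2 two_pos (by rwa [sq]))).subset (fun x _ => ?_)
    obtain ⟨g, rfl⟩ := QuotientGroup.mk'_surjective K0 x
    obtain ⟨i, j, k, e⟩ := hS g g.2 g.2
    exact ⟨_, ⟨_, ⟨i, rfl⟩, _, ⟨j, rfl⟩, rfl⟩, _, ⟨k, rfl⟩, e.symm⟩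
  haveI := Set.finite_univ_iff.1 this
  exact Subgroup.finiteIndex_of_finite_quotient

instance : Group.FG G := Group.closure_finite_fg _

noncomputable def φ (f : P →* P) (hf : ∀ x ∈ K, f x ∈ K) : K0 →* G :=
  ((f.comp G.subtype).comp K0.subtype).codRestrict G (fun x => KG (hf _ ⟨x.1, x.2, rfl⟩))

theorem φ_fg (f : P →* P) (hf : ∀ x ∈ K, f x ∈ K) : (φ f hf).range.FG :=
  (Group.fg_iff_subgroup_fg _).1 inferInstance

theorem mem_φ {f : P →* P} {hf : ∀ x ∈ K, f x ∈ K} {g : G} :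
    g ∈ (φ f hf).range ↔ ∃ x ∈ K, f x = g := by
  constructor
  · rintro ⟨x, rfl⟩; exact ⟨_, ⟨x.1, x.2, rfl⟩, rfl⟩
  · rintro ⟨_, ⟨x, hx, rfl⟩, e⟩; exact ⟨⟨x, hx⟩, Subtype.ext e⟩

def fA : P →* P := pr.comp ((MonoidHom.id P).prod (MonoidHom.id P))
def fB : P →* P := pr.comp ((pr.comp (MonoidHom.inr P P)).prod (MonoidHom.id P))

def F : ℕ → P →* P
  | 0 => pr.comp (MonoidHom.inl P P)
  | n + 1 => (pr.comp (MonoidHom.inr P P)).comp (F n)

theorem FK : ∀ n, ∀ x ∈ K, F n x ∈ K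
  | 0, _, h => K2 h
  | n + 1, x, h => K1 (FK n x h)

theorem F_comm : ∀ n m, n ≠ m → ∀ x y, Commute (F n x) (F m y)
  | 0, 0, h, _, _ => absurd rfl h
  | 0, _ + 1, _, _, _ => Commute.map (Prod.ext (by simp) (by simp)) pr
  | _ + 1, 0, _, _, _ => Commute.map (Prod.ext (by simp) (by simp)) pr
  | n + 1, m + 1, h, x, y => (F_comm n m (by omega) x y).map (pr.comp (MonoidHom.inr P P))

theorem k0K : k0 ∈ K := mul_mem (mul_mem (mul_mem tK vK) (inv_mem tK)) (inv_mem vK)

noncomputable def X : ℕ → P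
  | 0 => 1
  | n + 1 => pr (k0, X n)

theorem XK : ∀ n, X n ∈ K
  | 0 => one_mem _
  | n + 1 => K3 k0K (XK n)

theorem X_succ : ∀ n, X (n + 1) = F n k0 * X n
  | 0 => (mul_one _).symm
  | n + 1 => by
    show pr (k0, X (n + 1)) = pr (1, F n k0) * pr (k0, X n)
    rw [pr_mul, X_succ n, one_mul]

theorem main : ∃ (A B : Subgroup G) (g : G), A.FG ∧ B.FG ∧ (∀ x ∈ A, ∀ y ∈ B, x * y ≠ g) ∧
    ∀ N : Subgroup G, N.FiniteIndex → ∃ x ∈ A, ∃ y ∈ B, ∃ m ∈ N, x * y * m = g := by
  refine ⟨(φ fA (fun x h => K3 h h)).range, (φ fB (fun x h => K3 (K1 h) h)).range,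
    ⟨pr (pr (k0, 1), 1), KG (K2 (K2 k0K))⟩, φ_fg _ _, φ_fg _ _, fun x hx y hy e => ?_,
    fun N hN => ?_⟩
  · obtain ⟨p, hp, h1⟩ := mem_φ.1 hx
    obtain ⟨q, hq, h2⟩ := mem_φ.1 hy
    have h3 : pr (p, p) * pr (pr (1, q), q) = pr (pr (k0, 1), 1) := by
      have := congrArg Subtype.val e
      rwa [Subgroup.coe_mul, ← h1, ← h2] at this
    rw [pr_mul] at h3
    obtain ⟨h4, h5⟩ := Prod.ext_iff.1 (pr_inj h3)
    simp only at h4 h5
    refine no_fix p (KG hp) ?_
    have := congrArg (· * pr (1, p)) h4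
    simp only [mul_assoc, pr_mul, mul_one, one_mul, mul_eq_one_comm.1 h5] at this
    rwa [show pr ((1 : P), (1 : P)) = 1 from map_one pr, mul_one] at this
  · let E : ℕ → ∀ x ∈ K, G := fun n x h => ⟨pr (F (n + 1) x, 1), KG (K2 (FK _ x h))⟩
    obtain ⟨n, m, h1, h2⟩ := Finite.exists_ne_map_eq_of_infinite
      (fun n => (QuotientGroup.mk' N.normalCore) (E n t tK))
    refine ⟨⟨_, KG (K3 (XK (n + 1)) (XK (n + 1)))⟩, mem_φ.2 ⟨_, XK (n + 1), rfl⟩,
      ⟨_, KG (K3 (K1 (inv_mem (XK (n + 1)))) (inv_mem (XK (n + 1))))⟩,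
      mem_φ.2 ⟨_, inv_mem (XK (n + 1)), rfl⟩, E n k0 k0K, N.normalCore_le ?_, Subtype.ext ?_⟩
    · have e : E n k0 k0K = E n t tK * E n v vK * (E n t tK)⁻¹ * (E n v vK)⁻¹ := by
        refine Subtype.ext ?_
        simp only [E, Subgroup.coe_mul, Subgroup.coe_inv, ← map_inv, ← map_mul]
        simp [k0]
      have cm : Commute (E m t tK) (E n v vK) := Subtype.ext
        ((F_comm (m + 1) (n + 1) (by omega) t v).map (F 0)).eq
      rw [← QuotientGroup.eq_one_iff, ← QuotientGroup.mk'_apply, e]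
      simp only [map_mul, map_inv, h2, (cm.map (QuotientGroup.mk' N.normalCore)).eq]
      simp
    · simp only [E, Subgroup.coe_mul, pr_mul, mul_inv_cancel, mul_one]
      congr 2
      show pr (k0, X n) * pr (1, (X (n + 1))⁻¹) * pr (1, F n k0) = _
      rw [pr_mul, pr_mul, X_succ]
      simp

end Pool.Agent.H69.Dc
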