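import Pool.Agent.H69.EclDefs

set_option autoImplicit false

namespace Pool.Agent.H69.Ecl

@[ext] structure G0 where
  x : ℤ
  y : ℤ
  e : Bool
  deriving DecidableEq

instance : Mul G0 := ⟨fun a b => ⟨a.x + b.x, a.y + (if a.e then -b.y else b.y), xor a.e b.e⟩⟩
instance : One G0 := ⟨⟨0, 0, false⟩⟩
instance : Inv G0 := ⟨fun a => ⟨-a.x, if a.e then a.y else -a.y, a.e⟩⟩

@[simp] theorem mul_x (a b : G0) : (a * b).x = a.x + b.x := rfl
@[simp] theorem mul_y (a b : G0) : (a * b).y = a.y + (if a.e then -b.y else b.y) := rfl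
@[simp] theorem mul_e (a b : G0) : (a * b).e = xor a.e b.e := rfl
@[simp] theorem one_x : (1 : G0).x = 0 := rfl
@[simp] theorem one_y : (1 : G0).y = 0 := rfl
@[simp] theorem one_e : (1 : G0).e = false := rfl
@[simp] theorem inv_x (a : G0) : (a⁻¹).x = -a.x := rfl
@[simp] theorem inv_y (a : G0) : (a⁻¹).y = if a.e then a.y else -a.y := rfl
@[simp] theorem inv_e (a : G0) : (a⁻¹).e = a.e := rfl

instance : Group G0 where
  mul_assoc a b c := by
    rcases a with ⟨a1, a2, _ | _⟩ <;> rcases b with ⟨b1, b2, _ | _⟩ <;>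
      rcases c with ⟨c1, c2, _ | _⟩ <;> ext <;> simp <;> ring
  one_mul a := by ext <;> simp
  mul_one a := by ext <;> simp
  inv_mul_cancel a := by rcases a with ⟨a1, a2, _ | _⟩ <;> ext <;> simp

def t : G0 := ⟨0, 0, true⟩
def p : G0 := ⟨1, 1, false⟩
def P : G0 := ⟨-1, -1, false⟩
def q : G0 := ⟨0, 1, false⟩
def Q : G0 := ⟨0, -1, false⟩
def u : G0 := ⟨1, 0, false⟩
def U : G0 := ⟨-1, 0, false⟩

def X : Finset G0 := {t, p, P, q, Q, u, U}

theorem mem_X {a : G0} : a ∈ X ↔ a = t ∨ a = p ∨ a = P ∨ a = q ∨ a = Q ∨ a = u ∨ a = U := by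
  simp [X]

def rk (a : G0) : ℕ :=
  if a = t then 0 else if a = p then 1 else if a = P then 2 else if a = q then 3 else
    if a = Q then 4 else if a = u then 5 else 6

/-- the word length -/
def l (g : G0) : ℕ :=
  max g.x.natAbs g.y.natAbs +
    (if g.e then 1 else if (0 ≤ g.x ∧ 0 ≤ g.y) ∨ (g.x ≤ 0 ∧ g.y ≤ 0) then 0
      else min (min g.x.natAbs g.y.natAbs) 2)

/-- first letter of the shortlex form -/
def f (g : G0) : G0 :=
  if g.e then (if 0 < g.x ∧ 0 < g.y then p else if g.x < 0 ∧ g.y < 0 then P else t)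
  else if (2 ≤ g.x ∧ g.y ≤ -2) ∨ (g.x ≤ -2 ∧ 2 ≤ g.y) then t
  else if 0 < g.x ∧ 0 < g.y then p else if g.x < 0 ∧ g.y < 0 then P
  else if 0 < g.y then q else if g.y < 0 then Q else if 0 < g.x then u else U

theorem f_mem (g : G0) : f g ∈ X := by
  unfold f; split_ifs <;> simp [mem_X]

theorem l_one : l 1 = 0 := by simp [l]

theorem l_eq_zero {g : G0} (h : l g = 0) : g = 1 := by
  rcases g with ⟨x, y, _ | _⟩
  · simp only [l] at h; ext <;> simp <;> omega
  · simp [l] at h

theorem l_mul {s : G0} (hs : s ∈ X) (g : G0) : l (s * g) ≤ l g + 1 := by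
  rcases g with ⟨x, y, _ | _⟩ <;> rcases mem_X.1 hs with rfl | rfl | rfl | rfl | rfl | rfl | rfl <;>
    simp only [l, t, p, P, q, Q, u, U, mul_x, mul_y, mul_e] <;> simp <;> (try split_ifs) <;> omega

theorem l_f {g : G0} (h : g ≠ 1) : l ((f g)⁻¹ * g) + 1 = l g := by
  rcases g with ⟨x, y, _ | _⟩
  · have : x ≠ 0 ∨ y ≠ 0 := by
      by_contra hc; push Not at hc; apply h; ext <;> simp [hc.1, hc.2]
    simp only [f]; simp only [Bool.false_eq_true, if_false]
    split_ifs <;> simp only [l, t, p, P, q, Q, u, U, mul_x, mul_y, mul_e, inv_x, inv_y, inv_e] <;>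
      simp <;> (try split_ifs) <;> omega
  · simp only [f]; simp only [if_true]
    split_ifs <;> simp only [l, t, p, P, q, Q, u, U, mul_x, mul_y, mul_e, inv_x, inv_y, inv_e] <;>
      simp <;> (try split_ifs) <;> omega

theorem rk_t : rk t = 0 := by decide
theorem rk_p : rk p = 1 := by decide
theorem rk_P : rk P = 2 := by decide
theorem rk_q : rk q = 3 := by decide
theorem rk_Q : rk Q = 4 := by decide
theorem rk_u : rk u = 5 := by decide
theorem rk_U : rk U = 6 := by decide

theorem l_lt {s g : G0} (hs : s ∈ X) (h : rk s < rk (f g)) : l g ≤ l (s⁻¹ * g) := by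
  rcases g with ⟨x, y, _ | _⟩
  · simp only [f] at h; simp only [Bool.false_eq_true, if_false] at h
    rcases mem_X.1 hs with rfl | rfl | rfl | rfl | rfl | rfl | rfl <;>
    split_ifs at h <;> simp only [rk_t, rk_p, rk_P, rk_q, rk_Q, rk_u, rk_U] at h <;>
      (try omega) <;>
      simp only [l, t, p, P, q, Q, u, U, mul_x, mul_y, mul_e, inv_x, inv_y, inv_e] <;>
      simp <;> (try split_ifs) <;> omega
  · simp only [f] at h; simp only [if_true] at h
    rcases mem_X.1 hs with rfl | rfl | rfl | rfl | rfl | rfl | rfl <;>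
    split_ifs at h <;> simp only [rk_t, rk_p, rk_P, rk_q, rk_Q, rk_u, rk_U] at h <;>
      (try omega) <;>
      simp only [l, t, p, P, q, Q, u, U, mul_x, mul_y, mul_e, inv_x, inv_y, inv_e] <;>
      simp <;> (try split_ifs) <;> omega

abbrev A := {x // x ∈ X}

def r (a b : A) : Prop := rk a.1 < rk b.1

def ev (w : List A) : G0 := (w.map Subtype.val).prod

@[simp] theorem ev_nil : ev [] = 1 := rfl
@[simp] theorem ev_cons (s : A) (w : List A) : ev (s :: w) = s.1 * ev w := by simp [ev]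

theorem rk_inj {a b : A} (h : rk a.1 = rk b.1) : a = b := by
  obtain ⟨a, ha⟩ := a
  obtain ⟨b, hb⟩ := b
  rcases mem_X.1 ha with rfl | rfl | rfl | rfl | rfl | rfl | rfl <;>
    rcases mem_X.1 hb with rfl | rfl | rfl | rfl | rfl | rfl | rfl <;>
    simp only [rk_t, rk_p, rk_P, rk_q, rk_Q, rk_u, rk_U] at h <;> first | rfl | omega

theorem r_sto : IsStrictTotalOrder A r where
  trichotomous a b h1 h2 := by
    apply rk_inj; unfold r at h1 h2; omega
  irrefl a := by unfold r; omega
  trans a b c h1 h2 := by unfold r at *; omega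

theorem l_ev (w : List A) : l (ev w) ≤ w.length := by
  induction w with
  | nil => simp [l_one]
  | cons s w ih => have := l_mul s.2 (ev w); simp; omega

def Gr : List A → Prop
  | [] => True
  | s :: b => Gr b ∧ ev (s :: b) ≠ 1 ∧ s.1 = f (ev (s :: b))

theorem Gr_len : ∀ w : List A, Gr w → w.length = l (ev w)
  | [], _ => by simp [l_one]
  | s :: b, h => by
    have h1 := Gr_len b h.1
    have h2 := l_f h.2.1
    rw [← h.2.2] at h2
    simp only [ev_cons, inv_mul_cancel_left] at h2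
    simp only [List.length_cons, ev_cons]; omega

theorem ex_Gr (g : G0) : ∃ w : List A, Gr w ∧ ev w = g := by
  induction h : l g generalizing g with
  | zero => exact ⟨[], trivial, by rw [l_eq_zero h]; rfl⟩
  | succ n ih =>
    have hg : g ≠ 1 := by rintro rfl; simp [l_one] at h
    have h2 := l_f hg
    obtain ⟨w, hw, hw2⟩ := ih ((f g)⁻¹ * g) (by omega)
    have : ev (⟨f g, f_mem g⟩ :: w) = g := by simp [hw2]
    exact ⟨⟨f g, f_mem g⟩ :: w, ⟨hw, by rw [this]; exact hg, by rw [this]⟩, this⟩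

theorem Gr_SL : ∀ w : List A, Gr w → IsSL Subtype.val r w
  | [], _ => by
    intro w' _
    cases w' with
    | nil => simp
    | cons s b => simp
  | s :: b, h => by
    intro w' hw'
    have hw : ev w' = ev (s :: b) := hw'
    have h1 := Gr_len _ h
    have h2 := l_ev w'
    rw [hw, ← h1] at h2
    rcases h2.lt_or_eq with h2 | h2
    · exact Or.inl h2
    refine Or.inr ⟨h2, ?_⟩
    cases w' with
    | nil => simp at h2
    | cons s' b' =>
      rcases lt_trichotomy (rk s.1) (rk s'.1) with h3 | h3 | h3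
      · exact Or.inr (List.Lex.rel h3)
      · have := rk_inj h3
        subst this
        have hb : ev b' = ev b := by simpa using hw
        rcases Gr_SL b h.1 b' hb with h4 | ⟨_, h4 | h4⟩
        · simp at h2; omega
        · exact Or.inl (by rw [h4])
        · exact Or.inr (List.Lex.cons h4)
      · exfalso
        rw [h.2.2] at h3
        have h4 := l_lt s'.2 h3
        rw [← hw] at h4
        simp only [ev_cons, inv_mul_cancel_left] at h4
        have h5 := l_ev b'
        rw [← ev_cons, hw, ← h1] at h4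
        simp at h2 h4; omega

theorem lex_asymm {α : Type} {R : α → α → Prop} (hR : IsStrictTotalOrder α R) :
    ∀ a b : List α, List.Lex R a b → List.Lex R b a → False := by
  intro a b h1 h2
  haveI := hR
  exact asymm h1 h2

theorem SL_Gr (w : List A) (h : IsSL Subtype.val r w) : Gr w := by
  obtain ⟨w0, h0, h1⟩ := ex_Gr (ev w)
  rcases h w0 h1 with h2 | ⟨h2, h3 | h3⟩
  · have := Gr_len _ h0; have := l_ev w; rw [h1] at *; omega
  · rw [h3]; exact h0
  · rcases Gr_SL w0 h0 w h1.symm with h4 | ⟨_, h4 | h4⟩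
    · omega
    · rw [← h4]; exact h0
    · exact (lex_asymm r_sto _ _ h3 h4).elim

def mn (g : G0) : Prop :=
  if g.e then (g.y.natAbs ≤ g.x.natAbs ∨ g.y.natAbs ≤ 1)
  else ((0 ≤ g.x ∧ 0 ≤ g.y) ∨ (g.x ≤ 0 ∧ g.y ≤ 0))

theorem mn_le {g : G0} (h : mn g) (k : G0) : l g ≤ l (k * g * k⁻¹) := by
  rcases g with ⟨x, y, _ | _⟩ <;> rcases k with ⟨a, b, _ | _⟩ <;>
    simp only [mn, l, mul_x, mul_y, mul_e, inv_x, inv_y, inv_e] at h ⊢ <;> simp at h ⊢ <;>
    (try split_ifs) <;> omega

theorem not_mn {g : G0} (h : ¬ mn g) : ∃ k : G0, l (k * g * k⁻¹) < l g := by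
  rcases g with ⟨x, y, _ | _⟩
  · refine ⟨t, ?_⟩
    simp only [mn, l, t, mul_x, mul_y, mul_e, inv_x, inv_y, inv_e] at h ⊢
    simp at h ⊢
    split_ifs <;> omega
  · by_cases hy : 0 < y
    · refine ⟨Q, ?_⟩
      simp only [mn, l, Q, mul_x, mul_y, mul_e, inv_x, inv_y, inv_e] at h ⊢
      simp at h ⊢
      omega
    · refine ⟨q, ?_⟩
      simp only [mn, l, q, mul_x, mul_y, mul_e, inv_x, inv_y, inv_e] at h ⊢
      simp at h ⊢
      omega

theorem conjMin_iff {w : List A} (h : Gr w) : IsConjMin Subtype.val w ↔ mn (ev w) := by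
  have h1 := Gr_len _ h
  constructor
  · intro hc
    by_contra hm
    obtain ⟨k, hk⟩ := not_mn hm
    obtain ⟨w0, h0, h2⟩ := ex_Gr (k * ev w * k⁻¹)
    have h3 := hc w0 (isConj_iff.2 ⟨k, h2.symm⟩)
    have h4 := Gr_len _ h0
    rw [h2] at h4; omega
  · intro hm w' hw'
    obtain ⟨k, hk⟩ := isConj_iff.1 hw'
    have h2 := mn_le hm k
    have h3 := l_ev w'
    have : ev w' = k * ev w * k⁻¹ := hk.symm
    rw [this] at h3; omega

end Pool.Agent.H69.Ecl
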