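import Pool.Agent.H69.Ecl

set_option autoImplicit false

namespace Pool.Agent.H69.Ecl

def cl (z : ℤ) : ℤ := max (-3) (min z 3)

theorem cl_eq {a b : ℤ} : cl a = cl b ↔ (a = b ∨ (3 ≤ a ∧ 3 ≤ b) ∨ (a ≤ -3 ∧ b ≤ -3)) := by
  unfold cl; omega

def tau (g : G0) : ℤ × ℤ × Bool × Bool :=
  (cl g.x, cl g.y, decide (g.y.natAbs ≤ g.x.natAbs), g.e)

theorem tau_fin : (Set.range tau).Finite := by
  refine Set.Finite.subset (((Set.finite_Icc (-3 : ℤ) 3).prod ((Set.finite_Icc (-3 : ℤ) 3).prod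
    (Set.toFinite (Set.univ : Set (Bool × Bool)))))) ?_
  rintro _ ⟨g, rfl⟩
  simp only [tau, cl, Set.mem_prod, Set.mem_Icc, Set.mem_univ, and_true]
  omega

theorem tau_eq {g g' : G0} : tau g = tau g' ↔
    (g.x = g'.x ∨ (3 ≤ g.x ∧ 3 ≤ g'.x) ∨ (g.x ≤ -3 ∧ g'.x ≤ -3)) ∧
    (g.y = g'.y ∨ (3 ≤ g.y ∧ 3 ≤ g'.y) ∨ (g.y ≤ -3 ∧ g'.y ≤ -3)) ∧
    (g.y.natAbs ≤ g.x.natAbs ↔ g'.y.natAbs ≤ g'.x.natAbs) ∧ g.e = g'.e := by
  simp only [tau, Prod.mk.injEq, cl_eq, decide_eq_decide]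

theorem tau_mn {g g' : G0} (h : tau g = tau g') (hm : mn g) : mn g' := by
  rcases g with ⟨x, y, e⟩
  rcases g' with ⟨x', y', e'⟩
  simp only [tau_eq] at h
  obtain ⟨h1, h2, h3, rfl⟩ := h
  cases e <;> simp only [mn, if_true, Bool.false_eq_true, if_false] at hm ⊢ <;> omega

def ok (s g : G0) : Prop := s * g ≠ 1 ∧ s = f (s * g)

theorem ok_t0 (x y : ℤ) : ok t ⟨x, y, false⟩ ↔ ¬ (0 < x ∧ y < 0) ∧ ¬ (x < 0 ∧ 0 < y) := by
  simp only [ok, f, ne_eq, G0.ext_iff, mul_x, mul_y, mul_e]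
  simp only [t, p, P, q, Q, u, U]
  simp; split_ifs <;> simp <;> omega

theorem ok_t1 (x y : ℤ) : ok t ⟨x, y, true⟩ ↔ (2 ≤ x ∧ 2 ≤ y) ∨ (x ≤ -2 ∧ y ≤ -2) := by
  simp only [ok, f, ne_eq, G0.ext_iff, mul_x, mul_y, mul_e]
  simp only [t, p, P, q, Q, u, U]
  simp; split_ifs <;> simp <;> omega

theorem ok_p (x y : ℤ) (e : Bool) : ok p ⟨x, y, e⟩ ↔ 0 ≤ x ∧ 0 ≤ y := by
  simp only [ok, f, ne_eq, G0.ext_iff, mul_x, mul_y, mul_e]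
  simp only [t, p, P, q, Q, u, U]
  cases e <;> simp <;> split_ifs <;> simp <;> omega

theorem ok_P (x y : ℤ) (e : Bool) : ok P ⟨x, y, e⟩ ↔ x ≤ 0 ∧ y ≤ 0 := by
  simp only [ok, f, ne_eq, G0.ext_iff, mul_x, mul_y, mul_e]
  simp only [t, p, P, q, Q, u, U]
  cases e <;> simp <;> split_ifs <;> simp <;> omega

theorem ok_q (x y : ℤ) (e : Bool) :
    ok q ⟨x, y, e⟩ ↔ e = false ∧ x ≤ 0 ∧ 0 ≤ y ∧ (-1 ≤ x ∨ y = 0) := by
  simp only [ok, f, ne_eq, G0.ext_iff, mul_x, mul_y, mul_e]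
  simp only [t, p, P, q, Q, u, U]
  cases e <;> simp <;> split_ifs <;> simp <;> omega

theorem ok_Q (x y : ℤ) (e : Bool) :
    ok Q ⟨x, y, e⟩ ↔ e = false ∧ 0 ≤ x ∧ y ≤ 0 ∧ (x ≤ 1 ∨ y = 0) := by
  simp only [ok, f, ne_eq, G0.ext_iff, mul_x, mul_y, mul_e]
  simp only [t, p, P, q, Q, u, U]
  cases e <;> simp <;> split_ifs <;> simp <;> omega

theorem ok_u (x y : ℤ) (e : Bool) : ok u ⟨x, y, e⟩ ↔ e = false ∧ 0 ≤ x ∧ y = 0 := by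
  simp only [ok, f, ne_eq, G0.ext_iff, mul_x, mul_y, mul_e]
  simp only [t, p, P, q, Q, u, U]
  cases e <;> simp <;> split_ifs <;> simp <;> omega

theorem ok_U (x y : ℤ) (e : Bool) : ok U ⟨x, y, e⟩ ↔ e = false ∧ x ≤ 0 ∧ y = 0 := by
  simp only [ok, f, ne_eq, G0.ext_iff, mul_x, mul_y, mul_e]
  simp only [t, p, P, q, Q, u, U]
  cases e <;> simp <;> split_ifs <;> simp <;> omega

theorem tau_step {g g' s : G0} (hs : s ∈ X) (h : tau g = tau g') (h1 : ok s g) :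
    ok s g' ∧ tau (s * g) = tau (s * g') := by
  rcases g with ⟨x, y, e⟩
  rcases g' with ⟨x', y', e'⟩
  simp only [tau_eq] at h ⊢
  obtain ⟨k1, k2, k3, rfl⟩ := h
  cases e <;> rcases mem_X.1 hs with rfl | rfl | rfl | rfl | rfl | rfl | rfl <;>
    simp only [ok_t0, ok_t1, ok_p, ok_P, ok_q, ok_Q, ok_u, ok_U, Bool.true_eq_false,
      false_and, true_and] at h1 ⊢ <;>
    simp only [t, p, P, q, Q, u, U, mul_x, mul_y, mul_e, if_true, Bool.false_eq_true, if_false,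
      and_true] <;>
    refine ⟨by omega, by omega, by omega, by omega⟩

end Pool.Agent.H69.Ecl
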