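import Pool.Agent.H69.Ecl2

set_option autoImplicit false

namespace Pool.Agent.H69.Ecl

theorem Gr_append : ∀ (a b : List A), Gr (a ++ b) → Gr b
  | [], _, h => h
  | _ :: a, b, h => Gr_append a b h.1

theorem Gr_transfer {b b' : List A} (hb' : Gr b') (h : tau (ev b) = tau (ev b')) :
    ∀ a : List A, Gr (a ++ b) → Gr (a ++ b') ∧ tau (ev (a ++ b)) = tau (ev (a ++ b'))
  | [], _ => ⟨hb', h⟩
  | s :: a, hab => by
    obtain ⟨h1, h2⟩ := Gr_transfer hb' h a hab.1
    have h3 : ok s.1 (ev (a ++ b)) := by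
      have := hab.2
      simpa [ok] using this
    obtain ⟨h4, h5⟩ := tau_step s.2 h2 h3
    refine ⟨⟨h1, ?_⟩, by simpa using h5⟩
    simpa [ok] using h4

theorem reg (B : G0 → Prop) (hB : ∀ g g', tau g = tau g' → B g → B g') :
    Language.IsRegular ({w | Gr w ∧ B (ev w)} : Language A) := by
  set L : Language A := {w | Gr w ∧ B (ev w)} with hL
  rw [← Language.isRegular_reverse_iff, Language.isRegular_iff_finite_range_leftQuotient]
  let F : ℤ × ℤ × Bool × Bool → Language A :=
    fun c => {z | ∃ b, Gr b ∧ tau (ev b) = c ∧ z.reverse ++ b ∈ L}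
  refine Set.Finite.subset ((tau_fin.image F).insert 0) ?_
  rintro _ ⟨v, rfl⟩
  by_cases hv : Gr v.reverse
  · refine Or.inr ⟨tau (ev v.reverse), ⟨_, rfl⟩, ?_⟩
    ext z
    simp only [Language.mem_leftQuotient, Language.mem_reverse, List.reverse_append]
    constructor
    · rintro ⟨b, h1, h2, h3, h4⟩
      obtain ⟨h5, h6⟩ := Gr_transfer hv h2 _ h3
      exact ⟨h5, hB _ _ h6 h4⟩
    · intro h
      exact ⟨_, hv, rfl, h⟩
  · left
    ext z
    simp only [Language.mem_leftQuotient, Language.mem_reverse, List.reverse_append]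
    constructor
    · intro h
      exact (hv (Gr_append _ _ h.1)).elim
    · intro h
      exact h.elim

theorem SL_reg : (SL (Subtype.val : A → G0) r).IsRegular := by
  have := reg (fun _ => True) (fun _ _ _ h => h)
  convert this using 1
  ext w
  exact ⟨fun h => ⟨SL_Gr w h, trivial⟩, fun h => Gr_SL w h.1⟩

theorem ECL_reg : (ECL (Subtype.val : A → G0) r).IsRegular := by
  have := reg mn (fun _ _ h => tau_mn h)
  convert this using 1
  ext w
  constructor
  · intro h
    have h1 := SL_Gr w h.1
    exact ⟨h1, (conjMin_iff h1).1 h.2⟩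
  · intro h
    exact ⟨Gr_SL w h.1, (conjMin_iff h.1).2 h.2⟩

theorem X_inv : ∀ x ∈ X, x⁻¹ ∈ X := by decide

theorem X_gen : Subgroup.closure (X : Set G0) = ⊤ := by
  rw [eq_top_iff]
  intro g _
  obtain ⟨w, -, rfl⟩ := ex_Gr g
  induction w with
  | nil => exact one_mem _
  | cons s w ih => rw [ev_cons]; exact mul_mem (Subgroup.subset_closure s.2) (ih trivial)

/-! the free product -/

abbrev H := Monoid.CoprodI (fun _ : Fin 2 => G0)
abbrev B := Σ _ : Fin 2, A

def vB (s : B) : H := Monoid.CoprodI.of (M := fun _ : Fin 2 => G0) (i := s.1) s.2.1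

def evB (w : List B) : H := (w.map vB).prod

@[simp] theorem evB_nil : evB [] = 1 := rfl
@[simp] theorem evB_cons (s : B) (w : List B) : evB (s :: w) = vB s * evB w := by simp [evB]
@[simp] theorem evB_append (a w : List B) : evB (a ++ w) = evB a * evB w := by simp [evB]

def pi0 : H →* G0 := Monoid.CoprodI.lift (fun i => if i = 0 then MonoidHom.id G0 else 1)

theorem pi0_vB (s : B) : pi0 (vB s) = if s.1 = 0 then s.2.1 else 1 := by
  simp only [pi0, vB, Monoid.CoprodI.lift_of]
  split_ifs <;> rfl

theorem l_pi0 (w : List B) : l (pi0 (evB w)) ≤ w.length := by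
  induction w with
  | nil => simp [l_one]
  | cons s w ih =>
    rw [evB_cons, map_mul, pi0_vB]
    split_ifs
    · have := l_mul s.2.2 (pi0 (evB w)); simp; omega
    · simp; omega

section act
variable {Y : Type} [MulAction G0 Y] (y0 : Y)

open Classical in
noncomputable def flipP (c : G0) : Equiv.Perm (Y × Bool) :=
  Function.Involutive.toPerm (fun z => (z.1, xor z.2 (c.e && decide (z.1 = y0))))
    (by rintro ⟨z, β⟩; simp)

open Classical in
noncomputable def flipH : G0 →* Equiv.Perm (Y × Bool) where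
  toFun := flipP y0
  map_one' := by ext ⟨z, β⟩ <;> simp [flipP]
  map_mul' a b := by
    ext ⟨z, β⟩
    · simp [flipP]
    · simp only [flipP, Function.Involutive.coe_toPerm, mul_e, Equiv.Perm.coe_mul,
        Function.comp_apply]
      cases a.e <;> cases b.e <;> cases β <;> cases decide (z = y0) <;> rfl

def movH : G0 →* Equiv.Perm (Y × Bool) where
  toFun a := Equiv.prodCongr (MulAction.toPerm a) (Equiv.refl _)
  map_one' := by ext ⟨z, β⟩ <;> simp
  map_mul' a b := by ext ⟨z, β⟩ <;> simp [mul_smul]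

noncomputable def rho : H →* Equiv.Perm (Y × Bool) :=
  Monoid.CoprodI.lift (fun i => if i = 0 then movH else flipH y0)

open Classical in
theorem rho_vB (s : B) (z : Y) (β : Bool) : rho y0 (vB s) (z, β) =
    if s.1 = 0 then (s.2.1 • z, β) else (z, xor β (s.2.1.e && decide (z = y0))) := by
  simp only [rho, vB, Monoid.CoprodI.lift_of]
  split_ifs <;> rfl

theorem rho_fst (w : List B) (z : Y) (β : Bool) :
    (rho y0 (evB w) (z, β)).1 = pi0 (evB w) • z := by
  induction w with
  | nil => simp
  | cons s w ih =>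
    rw [evB_cons, map_mul, map_mul, Equiv.Perm.mul_apply, ← Prod.mk.eta (p := rho y0 (evB w) (z, β)),
      rho_vB, pi0_vB, ih]
    split_ifs <;> simp [mul_smul]

theorem rho_not (w : List B) (z : Y) (β : Bool) :
    rho y0 (evB w) (z, !β) = ((rho y0 (evB w) (z, β)).1, !(rho y0 (evB w) (z, β)).2) := by
  induction w with
  | nil => simp
  | cons s w ih =>
    rw [evB_cons, map_mul, Equiv.Perm.mul_apply, Equiv.Perm.mul_apply, ih,
      ← Prod.mk.eta (p := rho y0 (evB w) (z, β)), rho_vB, rho_vB]
    split_ifs <;> simp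

theorem rho_flip (w : List B) (z : Y) (β : Bool) (h : (rho y0 (evB w) (z, β)).2 ≠ β) :
    ∃ w1 c w2, w = w1 ++ c :: w2 ∧ c.1 ≠ 0 ∧ pi0 (evB w2) • z = y0 := by
  induction w with
  | nil => simp at h
  | cons s w ih =>
    by_cases h1 : (rho y0 (evB w) (z, β)).2 = β
    · rw [evB_cons, map_mul, Equiv.Perm.mul_apply, ← Prod.mk.eta (p := rho y0 (evB w) (z, β)),
        rho_vB, h1, rho_fst] at h
      split_ifs at h with h2
      · simp at h
      · refine ⟨[], s, w, rfl, h2, ?_⟩
        by_contra h3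
        simp [h3] at h
    · obtain ⟨w1, c, w2, rfl, h2, h3⟩ := ih h1
      exact ⟨s :: w1, c, w2, rfl, h2, h3⟩

end act

theorem evB_surj (g : H) : ∃ w, evB w = g := by
  induction g using Monoid.CoprodI.induction_on with
  | one => exact ⟨[], rfl⟩
  | of i a =>
    obtain ⟨w, -, rfl⟩ := ex_Gr a
    refine ⟨w.map (fun s => ⟨i, s⟩), ?_⟩
    induction w with
    | nil => simp
    | cons s w ih => simp [ih, vB]
  | mul a b ha hb =>
    obtain ⟨a, rfl⟩ := ha
    obtain ⟨b, rfl⟩ := hb
    exact ⟨a ++ b, by simp⟩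

def bp : B := ⟨0, ⟨p, by decide⟩⟩
def bt : B := ⟨0, ⟨t, by decide⟩⟩
def bs : B := ⟨1, ⟨t, by decide⟩⟩
def bu : B := ⟨0, ⟨u, by decide⟩⟩
def bQ : B := ⟨0, ⟨Q, by decide⟩⟩

theorem uniq_p (e : Bool) : ∀ (m : ℕ) (w : List B), pi0 (evB w) = ⟨m, m, e⟩ →
    w.length = m + (if e then 1 else 0) → w = List.replicate m bp ++ (if e then [bt] else [])
  | m, [], h, hl => by
    cases e
    · simp at hl; subst hl; rfl
    · simp at hl
  | m, ⟨i, s, hs⟩ :: w, h, hl => by
    rw [evB_cons, map_mul, pi0_vB] at h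
    have h1 := l_pi0 w
    simp only [List.length_cons] at hl
    have h2 := eq_inv_mul_of_mul_eq h
    by_cases hi : i = 0
    · subst hi
      simp only [if_true] at h2
      have h3 := h1
      rw [h2] at h3
      rcases mem_X.1 hs with rfl | rfl | rfl | rfl | rfl | rfl | rfl
      · cases e
        · simp [l, t] at h3 hl; omega
        · have : m = 0 := by
            simp [l, t] at h3 hl; split_ifs at h3 <;> omega
          subst this
          have : w = [] := by simpa using hl
          subst this; rfl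
      · cases m with
        | zero =>
          cases e
          · simp at hl
          · have : w.length = 0 := by simpa using hl
            simp [l, p] at h3; omega
        | succ m =>
          have := uniq_p e m w (by rw [h2]; ext <;> simp [p]) (by omega)
          rw [this]; rfl
      all_goals
        exfalso
        cases e <;> simp [l, P, q, Q, u, U] at h3 hl <;> (try split_ifs at h3) <;> omega
    · exfalso
      simp only [hi, if_false] at h2
      rw [h2] at h1
      cases e <;> simp [l] at h1 hl <;> omega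

theorem uniq_t (n : ℕ) (hn : 3 ≤ n) (w : List B) (h : pi0 (evB w) = ⟨n, -n, false⟩)
    (hl : w.length = n + 2) : w = bt :: (List.replicate n bp ++ [bt]) := by
  rcases w with _ | ⟨⟨i, s, hs⟩, w⟩
  · simp at hl
  rw [evB_cons, map_mul, pi0_vB] at h
  have h1 := l_pi0 w
  simp only [List.length_cons] at hl
  have h2 := eq_inv_mul_of_mul_eq h
  by_cases hi : i = 0
  · subst hi
    simp only [if_true] at h2
    have h3 := h1
    rw [h2] at h3
    rcases mem_X.1 hs with rfl | rfl | rfl | rfl | rfl | rfl | rfl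
    · have := uniq_p true n w (by rw [h2]; ext <;> simp [t]) (by simp; omega)
      rw [this]; rfl
    all_goals
      exfalso
      simp [l, p, P, q, Q, u, U] at h3 <;> (try split_ifs at h3) <;> omega
  · exfalso
    simp only [hi, if_false] at h2
    rw [h2] at h1
    simp [l] at h1; split_ifs at h1 <;> omega

def W (m n : ℕ) : List B := List.replicate m bp ++ bs :: bt :: (List.replicate n bp ++ [bt])

theorem pi0_rep (s : B) (m : ℕ) : pi0 (evB (List.replicate m s)) = pi0 (vB s) ^ m := by
  induction m with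
  | zero => simp
  | succ m ih => rw [List.replicate_succ, evB_cons, map_mul, ih, pow_succ']

theorem pow_f (a b : ℤ) (m : ℕ) : (⟨a, b, false⟩ : G0) ^ m = ⟨m * a, m * b, false⟩ := by
  induction m with
  | zero => ext <;> simp
  | succ m ih => rw [pow_succ', ih]; ext <;> simp <;> ring

theorem pi0_a (m : ℕ) : pi0 (evB (List.replicate m bp)) = ⟨m, m, false⟩ := by
  rw [pi0_rep, pi0_vB]; simp [bp, p, pow_f]

theorem pi0_b (n : ℕ) : pi0 (evB (bt :: (List.replicate n bp ++ [bt]))) = ⟨n, -n, false⟩ := by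
  rw [evB_cons, evB_append, map_mul, map_mul, pi0_a, evB_cons, map_mul, pi0_vB]
  ext <;> simp [bt, t]

theorem rho_zero {Y : Type} [MulAction G0 Y] (y0 : Y) (w : List B) (hw : ∀ s ∈ w, s.1 = 0)
    (z : Y) (β : Bool) : rho y0 (evB w) (z, β) = (pi0 (evB w) • z, β) := by
  refine Prod.ext (rho_fst _ _ _ _) ?_
  by_contra h
  obtain ⟨w1, c, w2, rfl, h2, -⟩ := rho_flip y0 w z β h
  exact h2 (hw c (by simp))

theorem of_zero (w : List B) (hw : ∀ s ∈ w, s.1 = 0) :
    evB w = Monoid.CoprodI.of (M := fun _ : Fin 2 => G0) (i := 0) (pi0 (evB w)) := by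
  induction w with
  | nil => simp
  | cons s w ih =>
    obtain ⟨i, s⟩ := s
    have : i = 0 := hw ⟨i, s⟩ (by simp)
    subst this
    rw [evB_cons, map_mul, map_mul, ← ih (fun s hs => hw s (by simp [hs])), pi0_vB]
    rfl

theorem zb (n : ℕ) : ∀ s ∈ bt :: (List.replicate n bp ++ [bt]), s.1 = 0 := by
  intro s hs
  simp only [List.mem_cons, List.mem_append, List.mem_replicate, List.not_mem_nil, or_false] at hs
  rcases hs with rfl | ⟨-, rfl⟩ | rfl <;> rfl

theorem zg (m n : ℕ) : ∀ s ∈ (bt :: (List.replicate n bp ++ [bt])) ++ List.replicate m bp,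
    s.1 = 0 := by
  intro s hs
  rcases List.mem_append.1 hs with h | h
  · exact zb n s h
  · rw [(List.mem_replicate.1 h).2]; rfl

theorem W_SL (R : B → B → Prop) (m n : ℕ) (hn : 3 ≤ n) : IsSL vB R (W m n) := by
  intro w hw
  have hw' : evB w = evB (W m n) := hw
  have h1 : (rho (⟨n, -n, false⟩ : G0) (evB w) (1, false)).2 ≠ false := by
    rw [hw', W, evB_append, evB_cons, map_mul, map_mul, Equiv.Perm.mul_apply, Equiv.Perm.mul_apply,
      rho_zero _ (bt :: _) (zb n), pi0_b, rho_vB, if_neg (by simp [bs]),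
      rho_zero _ _ (by simp [bp])]
    simp [bs, t]
  obtain ⟨w1, c, w2, rfl, h2, h3⟩ := rho_flip _ w _ _ h1
  have h4 : pi0 (evB w2) = ⟨n, -n, false⟩ := by simpa using h3
  have h5 : pi0 (evB w1) = ⟨m, m, false⟩ := by
    have := congrArg pi0 hw'
    rw [W, evB_append, evB_cons, evB_append, evB_cons, map_mul, map_mul, map_mul, map_mul, pi0_b,
      pi0_a, h4, pi0_vB, pi0_vB, if_neg h2, if_neg (by simp [bs])] at this
    simpa using this
  have h6 := l_pi0 w1
  have h7 := l_pi0 w2
  rw [h5] at h6
  rw [h4] at h7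
  have h6' : m ≤ w1.length := by simpa [l] using h6
  have h7' : n + 2 ≤ w2.length := by
    simp [l] at h7; split_ifs at h7 <;> omega
  have hl : (W m n).length = m + n + 3 := by simp [W]; omega
  rw [hl]
  simp only [List.length_append, List.length_cons]
  by_cases h8 : m + n + 3 < w1.length + (w2.length + 1)
  · exact Or.inl h8
  refine Or.inr ⟨by omega, Or.inl ?_⟩
  have e1 := uniq_p false m w1 h5 (by simp; omega)
  have e2 := uniq_t n hn w2 h4 (by omega)
  simp only [Bool.false_eq_true, if_false, List.append_nil] at e1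
  subst e1 e2
  rw [W, evB_append, evB_append, evB_cons c, evB_cons bs] at hw'
  have h9 : vB c = vB bs := mul_right_cancel (mul_left_cancel hw')
  obtain ⟨i, c⟩ := c
  have : i = 1 := by
    simp only at h2; omega
  subst this
  have : c = bs.2 := Subtype.ext (Monoid.CoprodI.of_injective _ h9)
  subst this
  rfl

theorem W_min (m n : ℕ) (hn : m + 2 ≤ n) : IsConjMin vB (W m n) := by
  intro w hw
  let h : G0 := ⟨n + m, m - n, false⟩
  have hlh : l h = m + n + 2 := by
    simp [l, h]; split_ifs <;> omega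
  let g : List B := (bt :: (List.replicate n bp ++ [bt])) ++ List.replicate m bp
  have hg : pi0 (evB g) = h := by
    simp only [g]
    rw [evB_append, map_mul, pi0_a, pi0_b]; ext <;> simp [h]; ring
  have hc : IsConj (evB (g ++ [bs])) (evB w) := by
    refine IsConj.trans ?_ hw
    refine isConj_iff.2 ⟨(evB (bt :: (List.replicate n bp ++ [bt])))⁻¹, ?_⟩
    show _ = evB (W m n)
    simp only [g, W, evB_append, evB_cons, evB_nil]
    group
  obtain ⟨k, hk⟩ := isConj_iff.1 hc
  obtain ⟨k, rfl⟩ := evB_surj k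
  let y0 : G0 ⧸ Subgroup.zpowers h := ((1 : G0) : G0 ⧸ Subgroup.zpowers h)
  have hy : h • y0 = y0 := by
    show ((h * 1 : G0) : G0 ⧸ Subgroup.zpowers h) = ((1 : G0) : G0 ⧸ Subgroup.zpowers h)
    rw [QuotientGroup.eq]; simp
  have h1 : rho y0 (evB (g ++ [bs])) (y0, false) = (y0, !false) := by
    rw [evB_append, evB_cons, evB_nil, mul_one, map_mul, Equiv.Perm.mul_apply, rho_vB,
      if_neg (by simp [bs]), rho_zero _ g (zg m n), hg, hy]
    simp [bs, t]
  have h2 : rho y0 (evB w) (rho y0 (evB k) (y0, false)) = rho y0 (evB k) (y0, !false) := by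
    rw [← h1, ← hk, ← Equiv.Perm.mul_apply, ← map_mul, ← Equiv.Perm.mul_apply, ← map_mul]
    congr 2; group
  rw [rho_not, ← Prod.mk.eta (p := rho y0 (evB k) (y0, false))] at h2
  obtain ⟨w1, c, w2, rfl, h3, h4⟩ := rho_flip y0 w (rho y0 (evB k) (y0, false)).1
    (rho y0 (evB k) (y0, false)).2 (by rw [h2]; simp)
  rw [rho_fst, smul_smul] at h4
  have h5 : pi0 (evB w2) * pi0 (evB k) ∈ Subgroup.zpowers h := by
    have : ((pi0 (evB w2) * pi0 (evB k) * 1 : G0) : G0 ⧸ Subgroup.zpowers h) =
      ((1 : G0) : G0 ⧸ Subgroup.zpowers h) := h4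
    rw [QuotientGroup.eq] at this
    simpa using inv_mem this
  have h6 := congrArg pi0 hk
  rw [evB_append g, evB_append w1, evB_cons bs, evB_cons c, evB_nil, mul_one, map_mul, map_mul, map_mul,
    map_mul, map_mul, hg, pi0_vB, pi0_vB, if_neg h3, if_neg (by simp [bs]), map_inv, mul_one,
    one_mul] at h6
  have h7 : pi0 (evB (w2 ++ w1)) = h := by
    obtain ⟨j, hj⟩ := h5
    simp only at hj
    have : pi0 (evB w1) = pi0 (evB k) * h * (pi0 (evB k))⁻¹ * (pi0 (evB w2))⁻¹ := by
      rw [h6]; group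
    rw [evB_append, map_mul, this]
    calc _ = (pi0 (evB w2) * pi0 (evB k)) * h * (pi0 (evB w2) * pi0 (evB k))⁻¹ := by group
      _ = h := by rw [← hj]; group
  have h8 := l_pi0 (w2 ++ w1)
  rw [h7, hlh] at h8
  simp [W] at h8 ⊢
  omega

theorem W_not_min (m : ℕ) : ¬ IsConjMin vB (W m (m + 1)) := by
  intro hc
  have h1 := hc ((List.replicate (2 * m + 1) bu ++ [bQ]) ++ [bs]) (by
    show IsConj (evB _) (evB _)
    refine isConj_iff.2 ⟨evB (bt :: (List.replicate (m + 1) bp ++ [bt])), ?_⟩
    have e1 : evB (List.replicate (2 * m + 1) bu ++ [bQ]) =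
        evB ((bt :: (List.replicate (m + 1) bp ++ [bt])) ++ List.replicate m bp) := by
      rw [of_zero _ (by simp [bu, bQ]), of_zero _ (zg m (m + 1))]
      congr 1
      rw [evB_append, evB_append, map_mul, map_mul, pi0_a, pi0_b, pi0_rep, evB_cons, map_mul,
        pi0_vB, pi0_vB]
      simp only [bu, bQ, u, Q, if_true, pow_f]
      ext <;> simp <;> ring
    rw [evB_append _ [bs], e1]
    simp only [W, evB_append, evB_cons, evB_nil]
    group)
  simp [W] at h1
  omega

theorem not_reg (R : B → B → Prop) : ¬ (ECL vB R).IsRegular := by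
  intro h
  have h1 := h.finite_range_leftQuotient
  have h2 : ¬ Function.Injective (fun m : ℕ => (⟨(ECL vB R).leftQuotient
      (List.replicate (m + 2) bp), ⟨_, rfl⟩⟩ : Set.range (ECL vB R).leftQuotient)) := by
    haveI := h1.to_subtype
    exact not_injective_infinite_finite _
  apply h2
  have key : ∀ a b : ℕ, a < b → (ECL vB R).leftQuotient (List.replicate (a + 2) bp) ≠
      (ECL vB R).leftQuotient (List.replicate (b + 2) bp) := by
    intro a b hab he
    have h3 : W (a + 2) (b + 2 + 1) ∈ ECL vB R := ⟨W_SL R _ _ (by omega), W_min _ _ (by omega)⟩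
    have h4 : W (b + 2) (b + 2 + 1) ∈ ECL vB R := by
      rw [W, ← Language.mem_leftQuotient] at h3 ⊢
      rwa [← he]
    exact W_not_min _ h4.2
  intro a b hab
  simp only [Subtype.mk.injEq] at hab
  rcases lt_trichotomy a b with h | h | h
  · exact (key a b h hab).elim
  · exact h
  · exact (key b a h hab.symm).elim

end Pool.Agent.H69.Ecl
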