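import Mathlib

set_option autoImplicit false

namespace Pool.Agent.H69.Ecl

/-- `w` is the shortlex-least word (for the order `r` on letters) representing its value,
letters being evaluated by `v`. -/
def IsSL {α G : Type} [Group G] (v : α → G) (r : α → α → Prop) (w : List α) : Prop :=
  ∀ w' : List α, (w'.map v).prod = (w.map v).prod →
    w.length < w'.length ∨ (w.length = w'.length ∧ (w = w' ∨ List.Lex r w w'))

/-- `w` is no longer than any word representing a conjugate of its value. -/
def IsConjMin {α G : Type} [Group G] (v : α → G) (w : List α) : Prop :=
  ∀ w' : List α, IsConj (w.map v).prod (w'.map v).prod → w.length ≤ w'.length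

/-- The shortlex language. -/
def SL {α G : Type} [Group G] (v : α → G) (r : α → α → Prop) : Language α :=
  {w | IsSL v r w}

/-- The equal-length conjugacy language. -/
def ECL {α G : Type} [Group G] (v : α → G) (r : α → α → Prop) : Language α :=
  {w | IsSL v r w ∧ IsConjMin v w}

end Pool.Agent.H69.Ecl
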