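import Pool.Agent.H69.EndsDefs

namespace Pool.Agent.H69.EndSp
open Set Monoid Monoid.CoprodI

theorem mem_comm {G : Type} [Group G] (A : Set G) :
    A ∈ Comm G ↔ ∀ g : G, {x | ¬ (x ∈ A ↔ g * x ∈ A)}.Finite := by
  change (∀ g : G, (symmDiff ((fun x => g * x) '' A) A).Finite) ↔ _
  constructor
  · intro h g
    refine (h g⁻¹).subset (fun x hx => ?_)
    rw [sd_iff, inv_inv]; exact hx
  · intro h g
    refine (h g⁻¹).subset (fun x hx => ?_)
    rw [sd_iff] at hx; exact hx

/-- a bijection preserving commensurated sets gives a homeomorphism of the spaces of ends -/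
noncomputable def endMap {G H : Type} [Group G] [Group H] (f : G ≃ H)
    (hf : ∀ B : Set H, B ∈ Comm H → f ⁻¹' B ∈ Comm G) (φ : Ends G) : Ends H :=
  ⟨{ toFun := fun B => φ.1 ⟨f ⁻¹' B.1, hf _ B.2⟩
     map_sup' := fun B C => by rw [← map_sup]; rfl
     map_inf' := fun B C => by rw [← map_inf]; rfl
     map_top' := by rw [← map_top φ.1]; rfl
     map_bot' := by rw [← map_bot φ.1]; rfl },
   fun B hB => φ.2 _ (hB.preimage f.injective.injOn)⟩

theorem endMap_cont {G H : Type} [Group G] [Group H] (f : G ≃ H)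
    (hf : ∀ B : Set H, B ∈ Comm H → f ⁻¹' B ∈ Comm G) : Continuous (endMap f hf) := by
  refine continuous_induced_rng.2 (continuous_pi fun B => ?_)
  exact (continuous_apply (⟨f ⁻¹' B.1, hf _ B.2⟩ : Comm G)).comp continuous_induced_dom

theorem ends_homeo {G H : Type} [Group G] [Group H] (f : G ≃ H)
    (hf : ∀ B : Set H, B ∈ Comm H ↔ f ⁻¹' B ∈ Comm G) : Nonempty (Ends G ≃ₜ Ends H) := by
  have hg : ∀ A : Set G, A ∈ Comm G → f.symm ⁻¹' A ∈ Comm H := by
    intro A hA
    rw [hf]; simpa [Set.preimage_preimage] using hA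
  refine ⟨{ toFun := endMap f (fun B => (hf B).1)
            invFun := endMap f.symm hg
            left_inv := fun φ => ?_
            right_inv := fun φ => ?_
            continuous_toFun := endMap_cont _ _
            continuous_invFun := endMap_cont _ _ }⟩
  · apply Subtype.ext; ext A
    change φ.1 _ = φ.1 A
    congr 1; apply Subtype.ext; simp [Set.preimage_preimage]
  · apply Subtype.ext; ext A
    change φ.1 _ = φ.1 A
    congr 1; apply Subtype.ext; simp [Set.preimage_preimage]

/-! the model: lists of (colour, position) -/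

def ray (l : List (ℕ × ℕ)) (c : ℕ) : ℕ → List (ℕ × ℕ)
  | 0 => l
  | n + 1 => (c, n) :: l

def Good (A : Set (List (ℕ × ℕ))) : Prop :=
  ∀ c : ℕ, {p : List (ℕ × ℕ) × ℕ | ¬ (ray p.1 c p.2 ∈ A ↔ ray p.1 c (p.2 + 1) ∈ A)}.Finite

def skip (o : Option ℕ) (c : ℕ) : ℕ :=
  match o with
  | none => c
  | some k => if c < k then c else c + 1

theorem skip_ne (o : Option ℕ) (c : ℕ) : o ≠ some (skip o c) := by
  cases o with
  | none => simp
  | some k => simp only [skip, ne_eq, Option.some.injEq]; split_ifs <;> omega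

theorem skip_inj (o : Option ℕ) {c d : ℕ} (h : skip o c = skip o d) : c = d := by
  cases o with
  | none => exact h
  | some k => simp only [skip] at h; split_ifs at h <;> omega

theorem skip_surj (o : Option ℕ) {i : ℕ} (h : o ≠ some i) : ∃ c, skip o c = i := by
  cases o with
  | none => exact ⟨i, rfl⟩
  | some k =>
    have : k ≠ i := fun e => h (by rw [e])
    by_cases hk : i < k
    · exact ⟨i, by simp [skip, hk]⟩
    · exact ⟨i - 1, by simp only [skip]; split_ifs <;> omega⟩

theorem skip_cases (o : Option ℕ) (c : ℕ) : skip o c = c ∨ skip o c = c + 1 := by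
  cases o with
  | none => exact Or.inl rfl
  | some k => simp only [skip]; split_ifs <;> simp

section
variable {H J : Type} [Group H] (κ : ℕ ≃ ℕ × J) (R : J → ℕ → H)
  (hne : ∀ j n, R j (n + 1) ≠ 1)

def fold : List (ℕ × ℕ) → Word (fun _ : ℕ => H)
  | [] => Word.empty
  | p :: l => Word.cons (i := skip (fold l).fstIdx (κ p.1).1) (R (κ p.1).2 (p.2 + 1)) (fold l)
      (skip_ne _ _) (hne _ _)

theorem fold_inj (hinj : ∀ j n j' n', R j (n + 1) = R j' (n' + 1) → j = j' ∧ n = n') :
    Function.Injective (fold κ R hne) := by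
  intro l
  induction l with
  | nil =>
    intro l' h
    cases l' with
    | nil => rfl
    | cons p l' =>
      have := congrArg Word.toList h
      simp [fold] at this
  | cons p l ih =>
    intro l' h
    cases l' with
    | nil =>
      have := congrArg Word.toList h
      simp [fold] at this
    | cons p' l' =>
      have h1 := congrArg Word.toList h
      simp only [fold, Word.cons_toList, List.cons.injEq, Sigma.mk.injEq, heq_eq_eq] at h1
      obtain ⟨⟨h2, h3⟩, h4⟩ := h1
      have h5 : l = l' := ih (Word.ext h4)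
      subst h5
      obtain ⟨h6, h7⟩ := hinj _ _ _ _ h3
      have h8 := skip_inj _ h2
      have : p.1 = p'.1 := κ.injective (Prod.ext h8 h6)
      rw [Prod.ext this h7]

theorem fold_surj (hsurj : ∀ h : H, h ≠ 1 → ∃ j n, R j (n + 1) = h) :
    Function.Surjective (fold κ R hne) := by
  intro w
  induction w using Word.consRecOn with
  | empty => exact ⟨[], rfl⟩
  | cons i m w h1 h2 ih =>
    obtain ⟨l, rfl⟩ := ih
    obtain ⟨j, n, rfl⟩ := hsurj m h2
    obtain ⟨c, rfl⟩ := skip_surj _ h1
    refine ⟨(κ.symm (c, j), n) :: l, ?_⟩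
    apply Word.ext
    simp [fold]

theorem prod_ray (h0 : ∀ j, R j 0 = 1) (l : List (ℕ × ℕ)) (c n : ℕ) :
    (fold κ R hne (ray l c n)).prod =
      of (M := fun _ : ℕ => H) (i := skip (fold κ R hne l).fstIdx (κ c).1) (R (κ c).2 n) *
        (fold κ R hne l).prod := by
  cases n with
  | zero => simp [ray, h0]
  | succ n => simp [ray, fold]

theorem comm_iff_gen (A : Set (CoprodI (fun _ : ℕ => H))) :
    A ∈ Comm (CoprodI (fun _ : ℕ => H)) ↔ ∀ (i : ℕ) (m : H),
      {x | ¬ (x ∈ A ↔ of (M := fun _ : ℕ => H) (i := i) m * x ∈ A)}.Finite := by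
  rw [mem_comm]
  refine ⟨fun h i m => h _, fun h g => ?_⟩
  induction g using CoprodI.induction_on with
  | one => simp
  | of i m => exact h i m
  | mul x y hx hy =>
    refine (hy.union (hx.preimage (f := fun z => y * z)
      (mul_right_injective y).injOn)).subset (fun z => ?_)
    simp only [mem_setOf_eq, mem_union, mem_preimage, mul_assoc]; tauto

theorem pair_bij [DecidableEq H] (i : ℕ) : Function.Bijective
    (fun p : {w : Word (fun _ : ℕ => H) // w.fstIdx ≠ some i} × H =>
      of (M := fun _ : ℕ => H) (i := i) p.2 * p.1.1.prod) := by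
  have hp : Function.Bijective (Word.prod : Word (fun _ : ℕ => H) → _) :=
    (Word.equiv (M := fun _ : ℕ => H)).symm.bijective
  have h2 : Function.Bijective (fun p : {w : Word (fun _ : ℕ => H) // w.fstIdx ≠ some i} × H =>
      (⟨p.2, p.1.1, p.1.2⟩ : Word.Pair (fun _ : ℕ => H) i)) := by
    constructor
    · rintro ⟨⟨w, hw⟩, h⟩ ⟨⟨w', hw'⟩, h'⟩ e
      simp only [Word.Pair.mk.injEq] at e
      obtain ⟨rfl, rfl⟩ := e; rfl
    · rintro ⟨h, w, hw⟩; exact ⟨⟨⟨w, hw⟩, h⟩, rfl⟩
  have := (hp.comp (Word.equivPair (M := fun _ : ℕ => H) i).symm.bijective).comp h2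
  convert this using 1
  funext p
  simp [Word.equivPair_symm]

include κ hne in
theorem model (h0 : ∀ j, R j 0 = 1)
    (hinj : ∀ j n j' n', R j (n + 1) = R j' (n' + 1) → j = j' ∧ n = n')
    (hsurj : ∀ h : H, h ≠ 1 → ∃ j n, R j (n + 1) = h)
    (hloc : ∀ (W : Type) (B : W → Set H),
      (∀ m : H, {p : W × H | ¬ (p.2 ∈ B p.1 ↔ m * p.2 ∈ B p.1)}.Finite) ↔
      ∀ j, {p : W × ℕ | ¬ (R j p.2 ∈ B p.1 ↔ R j (p.2 + 1) ∈ B p.1)}.Finite) :
    ∃ φ : List (ℕ × ℕ) ≃ CoprodI (fun _ : ℕ => H),
      ∀ A, A ∈ Comm (CoprodI (fun _ : ℕ => H)) ↔ Good (φ ⁻¹' A) := by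
  classical
  have hp : Function.Bijective (Word.prod : Word (fun _ : ℕ => H) → _) :=
    (Word.equiv (M := fun _ : ℕ => H)).symm.bijective
  have hf : Function.Bijective (fold κ R hne) := ⟨fold_inj κ R hne hinj, fold_surj κ R hne hsurj⟩
  refine ⟨Equiv.ofBijective _ (hp.comp hf), fun A => ?_⟩
  -- the sets D i j
  let D : ℕ → J → Set (Word (fun _ : ℕ => H) × ℕ) := fun i j =>
    {p | p.1.fstIdx ≠ some i ∧ ¬ (of (M := fun _ : ℕ => H) (i := i) (R j p.2) * p.1.prod ∈ A ↔
      of (M := fun _ : ℕ => H) (i := i) (R j (p.2 + 1)) * p.1.prod ∈ A)}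
  have step1 : A ∈ Comm (CoprodI (fun _ : ℕ => H)) ↔ ∀ i j, (D i j).Finite := by
    rw [comm_iff_gen]
    refine forall_congr' fun i => ?_
    have := hloc {w : Word (fun _ : ℕ => H) // w.fstIdx ≠ some i}
      (fun w => {h | of (M := fun _ : ℕ => H) (i := i) h * w.1.prod ∈ A})
    simp only [mem_setOf_eq] at this
    refine Iff.trans ?_ (this.trans ?_)
    · refine forall_congr' fun m => ?_
      constructor
      · intro h
        refine Set.Finite.of_injOn ?_ (pair_bij (H := H) i).1.injOn h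
        intro p hp
        simpa only [mem_setOf_eq, map_mul, mul_assoc] using hp
      · intro h
        refine Set.Finite.of_surjOn (fun p : {w : Word (fun _ : ℕ => H) // w.fstIdx ≠ some i} × H =>
          of (M := fun _ : ℕ => H) (i := i) p.2 * p.1.1.prod) ?_ h
        intro x hx
        obtain ⟨p, rfl⟩ := (pair_bij (H := H) i).2 x
        refine ⟨p, ?_, rfl⟩
        simpa only [mem_setOf_eq, map_mul, mul_assoc] using hx
    · refine forall_congr' fun j => ?_
      constructor
      · intro h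
        refine Set.Finite.of_surjOn (fun p => (p.1.1, p.2)) ?_ h
        rintro ⟨w, n⟩ ⟨h1, h2⟩
        exact ⟨(⟨w, h1⟩, n), h2, rfl⟩
      · intro h
        refine Set.Finite.of_injOn (f := fun p => (p.1.1, p.2)) ?_ ?_ h
        · rintro ⟨⟨w, h1⟩, n⟩ h2
          exact ⟨h1, h2⟩
        · rintro ⟨⟨w, h1⟩, n⟩ - ⟨⟨w', h1'⟩, n'⟩ - e
          simp only [Prod.mk.injEq] at e
          obtain ⟨rfl, rfl⟩ := e; rfl
  rw [step1]
  have key : ∀ (l : List (ℕ × ℕ)) (c n : ℕ),
      (¬ (ray l c n ∈ (Equiv.ofBijective _ (hp.comp hf)) ⁻¹' A ↔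
        ray l c (n + 1) ∈ (Equiv.ofBijective _ (hp.comp hf)) ⁻¹' A)) ↔
      (fold κ R hne l, n) ∈ D (skip (fold κ R hne l).fstIdx (κ c).1) (κ c).2 := by
    intro l c n
    simp only [mem_preimage, Equiv.ofBijective_apply, Function.comp_apply, prod_ray κ R hne h0, D,
      mem_setOf_eq]
    exact (and_iff_right (skip_ne _ _)).symm
  constructor
  · intro h c
    refine Set.Finite.of_injOn (f := fun p => (fold κ R hne p.1, p.2)) ?_ ?_
      ((h (κ c).1 (κ c).2).union (h ((κ c).1 + 1) (κ c).2))
    · rintro ⟨l, n⟩ hl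
      have := (key l c n).1 hl
      rcases skip_cases (fold κ R hne l).fstIdx (κ c).1 with e | e <;> rw [e] at this
      · exact Or.inl this
      · exact Or.inr this
    · rintro ⟨l, n⟩ - ⟨l', n'⟩ - e
      simp only [Prod.mk.injEq] at e
      rw [hf.1 e.1, e.2]
  · intro h i j
    refine Set.Finite.of_surjOn (fun p => (fold κ R hne p.1, p.2)) ?_
      ((h (κ.symm (i, j))).union (h (κ.symm (i - 1, j))))
    rintro ⟨w, n⟩ hw
    obtain ⟨l, rfl⟩ := hf.2 w
    obtain ⟨c, hc⟩ := skip_surj _ hw.1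
    refine ⟨(l, n), ?_, rfl⟩
    have h1 := (key l (κ.symm (c, j)) n).2 (by simpa only [Equiv.apply_symm_apply, hc] using hw)
    rcases skip_cases (fold κ R hne l).fstIdx c with e | e
    · left; have : i = c := hc.symm.trans e
      subst this; exact h1
    · right; have : i - 1 = c := by dsimp only at hc; omega
      rw [this]; exact h1
end

/-! local lemmas -/

def R1 : Bool → ℕ → Multiplicative ℤ
  | true, n => Multiplicative.ofAdd (n : ℤ)
  | false, n => Multiplicative.ofAdd (-(n : ℤ))

theorem loc1 (W : Type) (B : W → Set (Multiplicative ℤ)) :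
    (∀ m : Multiplicative ℤ,
      {p : W × Multiplicative ℤ | ¬ (p.2 ∈ B p.1 ↔ m * p.2 ∈ B p.1)}.Finite) ↔
      ∀ j, {p : W × ℕ | ¬ (R1 j p.2 ∈ B p.1 ↔ R1 j (p.2 + 1) ∈ B p.1)}.Finite := by
  constructor
  · intro h j
    cases j with
    | true =>
      refine Set.Finite.of_injOn (f := fun p => (p.1, R1 true p.2)) ?_ ?_
        (h (Multiplicative.ofAdd 1))
      · rintro ⟨w, n⟩ hw
        have : R1 true (n + 1) = Multiplicative.ofAdd 1 * R1 true n := by
          simp only [R1, ← ofAdd_add]; congr 1; push_cast; ring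
        simpa only [mem_setOf_eq, this] using hw
      · rintro ⟨w, n⟩ - ⟨w', n'⟩ - e
        simp only [Prod.mk.injEq, R1, EmbeddingLike.apply_eq_iff_eq, Nat.cast_inj] at e
        rw [e.1, e.2]
    | false =>
      refine Set.Finite.of_injOn (f := fun p => (p.1, R1 false p.2)) ?_ ?_
        (h (Multiplicative.ofAdd (-1)))
      · rintro ⟨w, n⟩ hw
        have : R1 false (n + 1) = Multiplicative.ofAdd (-1) * R1 false n := by
          simp only [R1, ← ofAdd_add]; congr 1; push_cast; ring
        simpa only [mem_setOf_eq, this] using hw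
      · rintro ⟨w, n⟩ - ⟨w', n'⟩ - e
        simp only [Prod.mk.injEq, R1, EmbeddingLike.apply_eq_iff_eq, neg_inj, Nat.cast_inj] at e
        rw [e.1, e.2]
  · intro h
    have h1 : {p : W × Multiplicative ℤ |
        ¬ (p.2 ∈ B p.1 ↔ Multiplicative.ofAdd 1 * p.2 ∈ B p.1)}.Finite := by
      refine (((h true).image (fun p => (p.1, R1 true p.2))).union
        ((h false).image (fun p => (p.1, R1 false (p.2 + 1))))).subset ?_
      rintro ⟨w, x⟩ hx
      obtain ⟨x, rfl⟩ := Multiplicative.ofAdd.surjective x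
      simp only [mem_setOf_eq, ← ofAdd_add] at hx
      rcases le_or_gt 0 x with hx0 | hx0
      · left
        obtain ⟨n, rfl⟩ := Int.eq_ofNat_of_zero_le hx0
        refine ⟨(w, n), ?_, rfl⟩
        simp only [mem_setOf_eq, R1]
        rwa [show (((n + 1 : ℕ) : ℤ)) = 1 + n by push_cast; ring]
      · right
        obtain ⟨n, hn⟩ := Int.eq_ofNat_of_zero_le (show 0 ≤ -x - 1 by omega)
        have e1 : x = -((n + 1 : ℕ) : ℤ) := by push_cast; omega
        refine ⟨(w, n), ?_, by simp only [R1, e1]⟩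
        simp only [mem_setOf_eq, R1]
        rw [← e1, show -(n : ℤ) = 1 + x by omega]
        tauto
    let S : Subgroup (Multiplicative ℤ) :=
      { carrier := {m | {p : W × Multiplicative ℤ | ¬ (p.2 ∈ B p.1 ↔ m * p.2 ∈ B p.1)}.Finite}
        one_mem' := by simp
        mul_mem' := fun {x y} hx hy => by
          refine (Set.Finite.union hy (Set.Finite.preimage (f := fun z => (z.1, y * z.2))
            (fun a _ b _ e => ?_) hx)).subset (fun z => ?_)
          · simp only [Prod.mk.injEq, mul_right_inj] at e; exact Prod.ext e.1 e.2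
          · simp only [mem_setOf_eq, mem_union, mem_preimage, mul_assoc]; tauto
        inv_mem' := fun {x} hx => by
          refine (Set.Finite.preimage (f := fun z => (z.1, x⁻¹ * z.2))
            (fun a _ b _ e => ?_) hx).subset (fun z => ?_)
          · simp only [Prod.mk.injEq, mul_right_inj] at e; exact Prod.ext e.1 e.2
          · simp only [mem_setOf_eq, mem_preimage, mul_inv_cancel_left]; tauto }
    intro m
    have : m = (Multiplicative.ofAdd (1 : ℤ)) ^ (m.toAdd) := by
      rw [← ofAdd_zsmul]; simp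
    rw [this]
    exact S.zpow_mem (x := Multiplicative.ofAdd 1) h1 _

theorem one_end (B : Set (ℤ × ℤ))
    (h1 : {x : ℤ × ℤ | ¬ (x ∈ B ↔ (1, 0) + x ∈ B)}.Finite)
    (h2 : {x : ℤ × ℤ | ¬ (x ∈ B ↔ (0, 1) + x ∈ B)}.Finite) :
    B.Finite ∨ Bᶜ.Finite := by
  obtain ⟨N, hN⟩ : ∃ N : ℕ, ∀ x : ℤ × ℤ, (x ∈ {x : ℤ × ℤ | ¬ (x ∈ B ↔ (1, 0) + x ∈ B)} ∨
      x ∈ {x : ℤ × ℤ | ¬ (x ∈ B ↔ (0, 1) + x ∈ B)}) → x.1.natAbs < N ∧ x.2.natAbs < N := by
    obtain ⟨N, hN⟩ := ((h1.union h2).image (fun x : ℤ × ℤ => x.1.natAbs + x.2.natAbs)).bddAbove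
    refine ⟨N + 1, fun x hx => ?_⟩
    have := hN ⟨x, hx, rfl⟩
    dsimp only at this; omega
  have row : ∀ y : ℤ, N ≤ y.natAbs → ∀ x : ℤ, ((x, y) ∈ B ↔ (0, y) ∈ B) := by
    intro y hy x
    have st : ∀ x : ℤ, (x, y) ∈ B ↔ (x + 1, y) ∈ B := by
      intro x
      by_contra hc
      have := (hN (x, y) (Or.inl (by simpa [add_comm] using hc))).2
      dsimp only at this; omega
    induction x using Int.induction_on with
    | zero => rfl
    | succ n ih => exact (st _).symm.trans ih
    | pred n ih => exact (st _).trans (by simpa using ih)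
  have col : ∀ x : ℤ, N ≤ x.natAbs → ∀ y : ℤ, ((x, y) ∈ B ↔ (x, 0) ∈ B) := by
    intro x hx y
    have st : ∀ y : ℤ, (x, y) ∈ B ↔ (x, y + 1) ∈ B := by
      intro y
      by_contra hc
      have := (hN (x, y) (Or.inr (by simpa [add_comm] using hc))).1
      dsimp only at this; omega
    induction y using Int.induction_on with
    | zero => rfl
    | succ n ih => exact (st _).symm.trans ih
    | pred n ih => exact (st _).trans (by simpa using ih)
  have all : ∀ x : ℤ × ℤ, ¬ (x.1.natAbs < N ∧ x.2.natAbs < N) → (x ∈ B ↔ ((N : ℤ), (N : ℤ)) ∈ B) := by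
    rintro ⟨x, y⟩ hxy
    have hN' : N ≤ (N : ℤ).natAbs := by simp
    by_cases hx : N ≤ x.natAbs
    · rw [col x hx, ← col x hx N, row N hN', row N hN' N]
    · have hy : N ≤ y.natAbs := by dsimp only at hxy; omega
      rw [row y hy, ← row y hy N, col N hN', col N hN' N]
  have box : {x : ℤ × ℤ | x.1.natAbs < N ∧ x.2.natAbs < N}.Finite := by
    refine ((Set.finite_Icc (-(N : ℤ)) N).prod (Set.finite_Icc (-(N : ℤ)) N)).subset ?_
    rintro ⟨x, y⟩ ⟨h1, h2⟩
    dsimp only at h1 h2
    simp only [mem_prod, mem_Icc]; omega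
  by_cases hb : ((N : ℤ), (N : ℤ)) ∈ B
  · right
    refine box.subset fun x hx => ?_
    by_contra hc
    exact hx ((all x hc).2 hb)
  · left
    refine box.subset fun x hx => ?_
    by_contra hc
    exact hb ((all x hc).1 hx)

theorem loc2 (e : ℕ ≃ Multiplicative (ℤ × ℤ)) (W : Type) (B : W → Set (Multiplicative (ℤ × ℤ))) :
    (∀ m : Multiplicative (ℤ × ℤ),
      {p : W × Multiplicative (ℤ × ℤ) | ¬ (p.2 ∈ B p.1 ↔ m * p.2 ∈ B p.1)}.Finite) ↔
      ∀ _ : Unit, {p : W × ℕ | ¬ (e p.2 ∈ B p.1 ↔ e (p.2 + 1) ∈ B p.1)}.Finite := by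
  constructor
  · intro h _
    have hS := ((h (Multiplicative.ofAdd (1, 0))).union (h (Multiplicative.ofAdd (0, 1)))).image
      Prod.fst
    have fc : ∀ w, (B w).Finite ∨ (B w)ᶜ.Finite := by
      intro w
      have := one_end (Multiplicative.ofAdd ⁻¹' B w) ?_ ?_
      · rcases this with h' | h'
        · left; exact Set.Finite.of_preimage h' Multiplicative.ofAdd.surjective
        · right; exact Set.Finite.of_preimage (f := Multiplicative.ofAdd) h'
            Multiplicative.ofAdd.surjective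
      · refine Set.Finite.of_injOn (f := fun x => (w, Multiplicative.ofAdd x)) ?_ ?_
          (h (Multiplicative.ofAdd (1, 0)))
        · intro x hx; exact hx
        · intro x _ y _ e; simpa using e
      · refine Set.Finite.of_injOn (f := fun x => (w, Multiplicative.ofAdd x)) ?_ ?_
          (h (Multiplicative.ofAdd (0, 1)))
        · intro x hx; exact hx
        · intro x _ y _ e; simpa using e
    have fn : ∀ w, {n : ℕ | ¬ (e n ∈ B w ↔ e (n + 1) ∈ B w)}.Finite := by
      intro w
      have i1 : Function.Injective (fun n => e (n + 1)) := fun a b h => by simpa using h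
      rcases fc w with h' | h'
      · refine ((h'.preimage e.injective.injOn).union (h'.preimage i1.injOn)).subset fun n => ?_
        simp only [mem_setOf_eq, mem_union, mem_preimage]; tauto
      · refine ((h'.preimage e.injective.injOn).union (h'.preimage i1.injOn)).subset fun n => ?_
        simp only [mem_setOf_eq, mem_union, mem_preimage, mem_compl_iff]; tauto
    refine (hS.biUnion (t := fun w => (fun n => (w, n)) '' {n : ℕ | ¬ (e n ∈ B w ↔ e (n + 1) ∈ B w)})
      (fun w _ => (fn w).image _)).subset ?_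
    rintro ⟨w, n⟩ hw
    simp only [mem_iUnion]
    refine ⟨w, ?_, n, hw, rfl⟩
    by_contra hc
    have s1 : ∀ x y : ℤ, Multiplicative.ofAdd (x, y) ∈ B w ↔ Multiplicative.ofAdd (x + 1, y) ∈ B w := by
      intro x y
      by_contra hh
      refine hc ⟨(w, Multiplicative.ofAdd (x, y)), Or.inl ?_, rfl⟩
      simpa only [mem_setOf_eq, ← ofAdd_add, Prod.mk_add_mk, zero_add, add_comm (1 : ℤ) x] using hh
    have s2 : ∀ x y : ℤ, Multiplicative.ofAdd (x, y) ∈ B w ↔ Multiplicative.ofAdd (x, y + 1) ∈ B w := by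
      intro x y
      by_contra hh
      refine hc ⟨(w, Multiplicative.ofAdd (x, y)), Or.inr ?_, rfl⟩
      simpa only [mem_setOf_eq, ← ofAdd_add, Prod.mk_add_mk, zero_add, add_comm (1 : ℤ) y] using hh
    have s3 : ∀ x y : ℤ, Multiplicative.ofAdd (x, y) ∈ B w ↔ Multiplicative.ofAdd (0, y) ∈ B w := by
      intro x y
      induction x using Int.induction_on with
      | zero => rfl
      | succ n ih => rw [← s1, ih]
      | pred n ih => rw [s1, ← ih]; simp
    have s4 : ∀ y : ℤ, Multiplicative.ofAdd ((0 : ℤ), y) ∈ B w ↔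
        Multiplicative.ofAdd ((0 : ℤ), (0 : ℤ)) ∈ B w := by
      intro y
      induction y using Int.induction_on with
      | zero => rfl
      | succ n ih => rw [← s2, ih]
      | pred n ih => rw [s2, ← ih]; simp
    have s5 : ∀ z : Multiplicative (ℤ × ℤ), z ∈ B w ↔
        Multiplicative.ofAdd ((0 : ℤ), (0 : ℤ)) ∈ B w := by
      intro z
      exact (s3 z.toAdd.1 z.toAdd.2).trans (s4 _)
    exact hw ((s5 _).trans (s5 _).symm)
  · intro h m
    have h := h ()
    obtain ⟨N, hN⟩ := (h.image Prod.snd).bddAbove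
    have cst : ∀ w k, (∀ n, k ≤ n → (e n ∈ B w ↔ e (n + 1) ∈ B w)) →
        ∀ n, k ≤ n → (e n ∈ B w ↔ e k ∈ B w) := by
      intro w k hk n hn
      induction n, hn using Nat.le_induction with
      | base => rfl
      | succ n hn ih => rw [← hk n hn, ih]
    have hF : (e '' Set.Iic N).Finite := (Set.finite_Iic N).image _
    refine ((h.image Prod.fst).prod (hF.union (hF.preimage (f := fun z => m * z)
      (mul_right_injective m).injOn))).subset ?_
    rintro ⟨w, x⟩ hx
    constructor
    · by_contra hc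
      have := cst w 0 (fun n _ => by
        by_contra hh
        exact hc ⟨(w, n), hh, rfl⟩)
      apply hx
      have a1 := this (e.symm x) (Nat.zero_le _)
      have a2 := this (e.symm (m * x)) (Nat.zero_le _)
      simp only [Equiv.apply_symm_apply] at a1 a2
      exact a1.trans a2.symm
    · by_contra hc
      simp only [mem_union, mem_preimage, not_or] at hc
      have := cst w (N + 1) (fun n hn => by
        by_contra hh
        have := hN ⟨(w, n), hh, rfl⟩
        dsimp only at this; omega)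
      apply hx
      have b1 : N + 1 ≤ e.symm x := by
        by_contra hh
        exact hc.1 ⟨e.symm x, by simp only [mem_Iic]; omega, by simp⟩
      have b2 : N + 1 ≤ e.symm (m * x) := by
        by_contra hh
        exact hc.2 ⟨e.symm (m * x), by simp only [mem_Iic]; omega, by simp⟩
      have a1 := this _ b1
      have a2 := this _ b2
      simp only [Equiv.apply_symm_apply] at a1 a2
      exact a1.trans a2.symm

theorem main : ∃ f : CoprodI (fun _ : ℕ => Multiplicative ℤ) ≃
      CoprodI (fun _ : ℕ => Multiplicative (ℤ × ℤ)),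
    ∀ B, B ∈ Comm (CoprodI (fun _ : ℕ => Multiplicative (ℤ × ℤ))) ↔
      f ⁻¹' B ∈ Comm (CoprodI (fun _ : ℕ => Multiplicative ℤ)) := by
  classical
  obtain ⟨φ, hφ⟩ := model (H := Multiplicative ℤ) (J := Bool)
    (Equiv.boolProdNatEquivNat.symm.trans (Equiv.prodComm _ _)) R1
    (by
      intro j n h
      cases j <;> simp only [R1] at h <;> have := congrArg Multiplicative.toAdd h <;>
        simp at this <;> omega)
    (by intro j; cases j <;> simp [R1])
    (by
      intro j n j' n' h
      cases j <;> cases j' <;> simp only [R1] at h <;> have := congrArg Multiplicative.toAdd h <;>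
        simp at this ⊢ <;> omega)
    (by
      intro h hh
      obtain ⟨x, rfl⟩ := Multiplicative.ofAdd.surjective h
      have hx : x ≠ 0 := fun e => hh (by rw [e]; rfl)
      rcases lt_or_gt_of_ne hx with h0 | h0
      · refine ⟨false, (-x - 1).toNat, ?_⟩
        simp only [R1]; congr 1; push_cast; omega
      · refine ⟨true, (x - 1).toNat, ?_⟩
        simp only [R1]; congr 1; push_cast; omega)
    loc1
  obtain ⟨e0⟩ : Nonempty (ℕ ≃ Multiplicative (ℤ × ℤ)) :=
    ⟨(Denumerable.eqv (ℤ × ℤ)).symm.trans Multiplicative.ofAdd⟩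
  let e : ℕ ≃ Multiplicative (ℤ × ℤ) := e0.trans (Equiv.swap (e0 0) 1)
  have he : e 0 = 1 := by simp [e]
  obtain ⟨ψ, hψ⟩ := model (H := Multiplicative (ℤ × ℤ)) (J := Unit)
    (Equiv.prodPUnit ℕ).symm (fun _ n => e n)
    (by intro j n h; rw [← he] at h; simpa using h)
    (fun _ => he)
    (by intro j n j' n' h; simpa using h)
    (by
      intro h hh
      have : e.symm h ≠ 0 := fun h0 => hh (by rw [← he, ← h0]; simp)
      refine ⟨(), e.symm h - 1, ?_⟩
      rw [Nat.sub_add_cancel (Nat.pos_of_ne_zero this)]; simp)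
    (loc2 e)
  refine ⟨φ.symm.trans ψ, fun B => ?_⟩
  rw [hψ, hφ]
  simp [Set.preimage_preimage, Set.preimage]

end Pool.Agent.H69.EndSp
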