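import Mathlib

namespace Pool.Agent.H69.EndSp
open Set

theorem sd_iff {G : Type} [Group G] (A : Set G) (g x : G) :
    x ∈ symmDiff ((fun y => g * y) '' A) A ↔ ¬ (x ∈ A ↔ g⁻¹ * x ∈ A) := by
  have : x ∈ (fun y => g * y) '' A ↔ g⁻¹ * x ∈ A := by
    constructor
    · rintro ⟨y, hy, rfl⟩; simpa using hy
    · intro h; exact ⟨_, h, by simp⟩
  rw [Set.mem_symmDiff, this]; tauto

/-- The Boolean algebra of left `G`-commensurated subsets of `G`:
`gA △ A` is finite for every `g`. -/
def Comm (G : Type) [Group G] : BooleanSubalgebra (Set G) where
  carrier := {A | ∀ g : G, (symmDiff ((fun x => g * x) '' A) A).Finite}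
  supClosed' := fun A hA B hB g => ((hA g).union (hB g)).subset (fun x => by
    simp only [mem_union, sd_iff, sup_eq_union]; tauto)
  infClosed' := fun A hA B hB g => ((hA g).union (hB g)).subset (fun x => by
    simp only [mem_union, sd_iff, inf_eq_inter, mem_inter_iff]; tauto)
  compl_mem' := fun {A} hA g => (hA g).subset (fun x => by
    simp only [sd_iff, mem_compl_iff]; tauto)
  bot_mem' := fun g => Set.finite_empty.subset (fun x => by
    simp only [sd_iff, bot_eq_empty, mem_empty_iff_false]; tauto)

/-- The space of ends: the Stone space of the quotient of `Comm G` by the ideal of finite sets,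
i.e. the Boolean homomorphisms `Comm G → {0,1}` that vanish on the finite sets. -/
def Ends (G : Type) [Group G] : Type :=
  {φ : BoundedLatticeHom (Comm G) Bool // ∀ A : Comm G, (A : Set G).Finite → φ A = false}

/-- The Stone topology (pointwise convergence; the sets `{φ | φ A = 1}` are a clopen basis). -/
noncomputable instance (G : Type) [Group G] : TopologicalSpace (Ends G) :=
  TopologicalSpace.induced (fun (φ : Ends G) (A : Comm G) => φ.1 A) inferInstance

end Pool.Agent.H69.EndSp
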