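import Mathlib

set_option autoImplicit false

namespace Pool.Agent.H69.Ext

open Finset Complex

variable {N : ℕ} [NeZero N]

abbrev A (N : ℕ) := ZMod N × ZMod N

noncomputable def e (a v : A N) : ℂ := ZMod.stdAddChar (a.1 * v.1 + a.2 * v.2)

theorem e_add (a v w : A N) : e a (v + w) = e a v * e a w := by
  rw [e, e, e, ← AddChar.map_add_eq_mul]; congr 1; simp only [Prod.fst_add, Prod.snd_add]; ring

theorem e_neg (a v : A N) : e a (-v) = (starRingEnd ℂ) (e a v) := by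
  rw [e, e, ← AddChar.map_neg_eq_conj]; congr 1; simp only [Prod.fst_neg, Prod.snd_neg]; ring

theorem e_norm (a v : A N) : normSq (e a v) = 1 := by
  rw [e, ZMod.stdAddChar_apply]; simp

theorem e_sum (v : A N) : ∑ a, e a v = if v = 0 then (N : ℂ) ^ 2 else 0 := by
  simp only [e, AddChar.map_add_eq_mul, Fintype.sum_prod_type, ← Finset.sum_mul_sum,
    AddChar.sum_mulShift _ (ZMod.isPrimitive_stdAddChar N), ZMod.card, Prod.ext_iff]
  by_cases h1 : v.1 = 0 <;> by_cases h2 : v.2 = 0 <;> simp [h1, h2, sq]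

theorem parseval (f : A N → ℂ) :
    ∑ a, normSq (∑ v, e a v * f v) = (N : ℝ) ^ 2 * ∑ v, normSq (f v) := by
  apply Complex.ofReal_injective
  push_cast
  simp only [← Complex.mul_conj, map_sum, map_mul, Finset.sum_mul_sum, ← e_neg]
  rw [Finset.sum_comm, Finset.mul_sum]
  refine Finset.sum_congr rfl fun v _ => ?_
  rw [Finset.sum_comm]
  have : ∀ w, ∑ a, e a v * f v * (e a (-w) * (starRingEnd ℂ) (f w)) =
      if v = w then (N : ℂ) ^ 2 * (f v * (starRingEnd ℂ) (f w)) else 0 := by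
    intro w
    simp only [mul_mul_mul_comm _ (f v), ← e_add, ← Finset.sum_mul, e_sum, add_neg_eq_zero]
    split_ifs <;> simp
  simp [this]

theorem e_far (x : ZMod N) (h : (N : ℤ) ≤ 4 * |x.valMinAbs|) :
    2 ≤ normSq (ZMod.stdAddChar (-x) - 1) := by
  have h1 := x.valMinAbs_mem_Ioc
  rw [← x.coe_valMinAbs, ← Int.cast_neg, ZMod.stdAddChar_coe]
  generalize x.valMinAbs = k at *
  have hN : (0 : ℝ) < N := by exact_mod_cast Nat.pos_of_ne_zero (NeZero.ne N)
  have : (2 * Real.pi * I * ((-k : ℤ) : ℂ) / N : ℂ) = ((-(2 * Real.pi * k / N) : ℝ) : ℂ) * I := by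
    push_cast; ring
  have h0 : ∀ t : ℝ, normSq (exp (t * I) - 1) = 2 - 2 * Real.cos t := by
    intro t
    rw [normSq_apply, sub_re, sub_im, exp_ofReal_mul_I_re, exp_ofReal_mul_I_im, one_re, one_im]
    nlinarith [Real.sin_sq_add_cos_sq t]
  rw [this, h0, Real.cos_neg, ← Real.cos_abs]
  have h2 : (N : ℝ) ≤ 4 * |(k : ℝ)| := by exact_mod_cast h
  have h3 : 2 * |(k : ℝ)| ≤ N := by
    have : 2 * |k| ≤ N := by rw [Set.mem_Ioc] at h1; cases abs_cases k <;> omega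
    exact_mod_cast this
  have h4 : |2 * Real.pi * k / N| = 2 * Real.pi * |(k : ℝ)| / N := by
    rw [abs_div, abs_mul, abs_of_pos hN, abs_of_pos (by positivity)]
  have := Real.cos_nonpos_of_pi_div_two_le_of_le (x := |2 * Real.pi * k / N|)
    (by rw [h4, le_div_iff₀ hN]; nlinarith [Real.pi_pos])
    (by rw [h4, div_le_iff₀ hN]; nlinarith [Real.pi_pos])
  linarith

theorem nsq (a b : ℂ) : normSq a ≤ 21 / 20 * normSq b + 21 * normSq (a - b) := by
  simp only [normSq_apply, sub_re, sub_im]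
  nlinarith [sq_nonneg (21 * b.re - 20 * a.re), sq_nonneg (21 * b.im - 20 * a.im)]

variable {Ω : Type} [Fintype Ω] (ρ : A N → Equiv.Perm Ω)

noncomputable def ms (ξ : Ω → ℂ) (a : A N) : ℝ := ∑ F, normSq (∑ v, e a v * ξ (ρ v F))

theorem ms_nonneg (ξ : Ω → ℂ) (a : A N) : 0 ≤ ms ρ ξ a :=
  Finset.sum_nonneg fun _ _ => normSq_nonneg _

theorem ms_sum (ξ : Ω → ℂ) : ∑ a, ms ρ ξ a = (N : ℝ) ^ 4 * ∑ F, normSq (ξ F) := by
  simp only [ms]
  rw [Finset.sum_comm]
  simp only [parseval, ← Finset.mul_sum]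
  rw [Finset.sum_comm]
  simp only [Equiv.sum_comp (ρ _) (fun F => normSq (ξ F)), Finset.sum_const, Finset.card_univ,
    Fintype.card_prod, ZMod.card, nsmul_eq_mul]
  push_cast; ring

theorem ms_cmp (ξ ξ' : Ω → ℂ) (a : A N) :
    ms ρ ξ a ≤ 21 / 20 * ms ρ ξ' a + 21 * ms ρ (ξ - ξ') a := by
  simp only [ms, Finset.mul_sum, ← Finset.sum_add_distrib]
  refine Finset.sum_le_sum fun F _ => (nsq _ (∑ v, e a v * ξ' (ρ v F))).trans (le_of_eq ?_)
  simp only [Pi.sub_apply, mul_sub, Finset.sum_sub_distrib]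

theorem ms_shift (ξ : Ω → ℂ) (g : Equiv.Perm Ω) (M M' : A N ≃ A N)
    (h : ∀ v, g * ρ v = ρ (M v) * g) (h' : ∀ a v, e (M' a) v = e a (M v)) (a : A N) :
    ms ρ (ξ ∘ g) (M' a) = ms ρ ξ a := by
  rw [ms, ms, ← Equiv.sum_comp g (fun F => normSq (∑ v, e a v * ξ (ρ v F)))]
  refine Finset.sum_congr rfl fun F _ => ?_
  rw [← Equiv.sum_comp M (fun v => e a v * ξ (ρ v (g F)))]
  simp only [h', Function.comp, ← Equiv.Perm.mul_apply, h]

theorem ms_tr (hρ : ∀ v w, ρ (v + w) = ρ v * ρ w) (ξ : Ω → ℂ) (w a : A N) :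
    ms ρ (ξ ∘ ρ w - ξ) a = normSq (e a (-w) - 1) * ms ρ ξ a := by
  simp only [ms, Finset.mul_sum, ← map_mul]
  refine Finset.sum_congr rfl fun F _ => ?_
  congr 1
  simp only [Pi.sub_apply, Function.comp, mul_sub, sub_mul, Finset.sum_sub_distrib, one_mul]
  congr 1
  rw [← Equiv.sum_comp (Equiv.addLeft w) (fun v => e a (-w) * (e a v * ξ (ρ v F)))]
  refine Finset.sum_congr rfl fun v _ => ?_
  rw [Equiv.coe_addLeft, ← mul_assoc, ← e_add, neg_add_cancel_left, hρ]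
  rfl

theorem move (μ ν δ : A N → ℝ) (h0 : ∀ a, 0 ≤ ν a) (M : A N → A N) (hM : Function.Injective M)
    (h : ∀ a, μ a ≤ 21 / 20 * ν (M a) + 21 * δ (M a)) (hδ : ∀ a, 0 ≤ δ a) (P Q : A N → Prop)
    [DecidablePred P] [DecidablePred Q] (hPQ : ∀ a, P a → Q (M a)) :
    ∑ a with P a, μ a ≤ ∑ a with Q a, ν a + (∑ a, ν a) / 20 + 21 * ∑ a, δ a := by
  have key : ∀ f : A N → ℝ, (∀ a, 0 ≤ f a) → ∀ s : Finset (A N), (∀ a, P a → M a ∈ s) →
      ∑ a with P a, f (M a) ≤ ∑ a ∈ s, f a := by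
    intro f hf s hs
    rw [← Finset.sum_image (hM.injOn)]
    refine Finset.sum_le_sum_of_subset_of_nonneg (fun a ha => ?_) (fun _ _ _ => hf _)
    obtain ⟨b, hb, rfl⟩ := Finset.mem_image.1 ha
    exact hs b (Finset.mem_filter.1 hb).2
  have a1 := key ν h0 (univ.filter Q) (fun a ha => by simpa using hPQ a ha)
  have a2 := key ν h0 univ (fun _ _ => mem_univ _)
  have a3 := key δ hδ univ (fun _ _ => mem_univ _)
  have a4 := Finset.sum_le_sum (s := univ.filter P) (fun a _ => h a)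
  rw [Finset.sum_add_distrib, ← Finset.mul_sum, ← Finset.mul_sum] at a4
  linarith

def U : A N ≃ A N := ⟨fun a => (a.1 + a.2, a.2), fun a => (a.1 - a.2, a.2), by simp [Function.LeftInverse],
  by simp [Function.RightInverse, Function.LeftInverse]⟩
def L : A N ≃ A N := ⟨fun a => (a.1, a.1 + a.2), fun a => (a.1, a.2 - a.1), by simp [Function.LeftInverse],
  by simp [Function.RightInverse, Function.LeftInverse]⟩

theorem vadd' {x y : ZMod N} (h1 : 4 * |x.valMinAbs| < N) (h2 : 4 * |y.valMinAbs| < N) :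
    (x + y).valMinAbs = x.valMinAbs + y.valMinAbs ∧
    (x - y).valMinAbs = x.valMinAbs - y.valMinAbs := by
  constructor <;> rw [ZMod.valMinAbs_spec] <;> refine ⟨by simp, ?_⟩ <;> rw [Set.mem_Ioc] <;>
    cases abs_cases x.valMinAbs <;> cases abs_cases y.valMinAbs <;> omega

def RA (x y : ℤ) : Prop := |y| < |x| ∧ 0 ≤ x * y
def RB (x y : ℤ) : Prop := |x| ≤ |y| ∧ 0 < x * y
def RC (x y : ℤ) : Prop := |x| < |y| ∧ x * y ≤ 0
def RD (x y : ℤ) : Prop := |y| ≤ |x| ∧ x * y < 0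

theorem regs (x y : ℤ) : ((RA x y ∨ RB x y) → RA (x + y) y ∧ RB x (x + y)) ∧
    ((RC x y ∨ RD x y) → RD (x - y) y ∧ RC x (y - x)) ∧ ¬ (RA x y ∧ RB x y) ∧
    ¬ (RC x y ∧ RD x y) ∧ ((x = 0 ∧ y = 0) ∨ RA x y ∨ RB x y ∨ RC x y ∨ RD x y) := by
  simp only [RA, RB, RC, RD, mul_nonneg_iff, mul_pos_iff, mul_nonpos_iff, mul_neg_iff]
  cases abs_cases x <;> cases abs_cases y <;> cases abs_cases (x + y) <;>
    cases abs_cases (x - y) <;> cases abs_cases (y - x) <;> omega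

theorem burger (μ δ1 δ2 : A N → ℝ) (h0 : ∀ a, 0 ≤ μ a) (T : ℝ) (hT : ∑ a, μ a = T)
    (d1 : ∀ a, 0 ≤ δ1 a) (d2 : ∀ a, 0 ≤ δ2 a) (s1 : ∑ a, δ1 a ≤ T / 1000) (s2 : ∑ a, δ2 a ≤ T / 1000)
    (u1 : ∀ a, μ a ≤ 21 / 20 * μ (U a) + 21 * δ1 (U a))
    (u2 : ∀ a, μ (U a) ≤ 21 / 20 * μ a + 21 * δ1 (U a))
    (l1 : ∀ a, μ a ≤ 21 / 20 * μ (L a) + 21 * δ2 (L a))
    (l2 : ∀ a, μ (L a) ≤ 21 / 20 * μ a + 21 * δ2 (L a))
    (q : ∑ a : A N with ¬ (4 * |a.1.valMinAbs| < (N : ℤ) ∧ 4 * |a.2.valMinAbs| < (N : ℤ)), μ a ≤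
      T / 1000) :
    2 / 3 * T ≤ μ 0 := by
  classical
  let Q : A N → Prop := fun a => 4 * |a.1.valMinAbs| < N ∧ 4 * |a.2.valMinAbs| < N
  let m : (ℤ → ℤ → Prop) → ℝ := fun R => ∑ a with Q a ∧ R a.1.valMinAbs a.2.valMinAbs, μ a
  have k1 : ∀ R : ℤ → ℤ → Prop, ∑ a with R a.1.valMinAbs a.2.valMinAbs, μ a ≤ m R + T / 1000 := by
    intro R
    refine le_trans ?_ (add_le_add le_rfl q)
    simp only [m, Finset.sum_filter, ← Finset.sum_add_distrib]
    refine Finset.sum_le_sum fun a _ => ?_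
    have := h0 a
    by_cases h : Q a <;> by_cases h' : R a.1.valMinAbs a.2.valMinAbs <;> simp [h, h', Q] at * <;>
      simp_all
  have k2 : ∀ R R' : ℤ → ℤ → Prop, (∀ x y, ¬ (R x y ∧ R' x y)) →
      m R + m R' = m (fun x y => R x y ∨ R' x y) := by
    intro R R' h
    simp only [m, Finset.sum_filter, ← Finset.sum_add_distrib]
    refine Finset.sum_congr rfl fun a _ => ?_
    have := h a.1.valMinAbs a.2.valMinAbs
    by_cases h : Q a <;> by_cases h' : R a.1.valMinAbs a.2.valMinAbs <;>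
      by_cases h'' : R' a.1.valMinAbs a.2.valMinAbs <;> simp_all
  have a1 := move μ μ δ1 h0 U U.injective u1 d1
    (fun a => Q a ∧ (RA a.1.valMinAbs a.2.valMinAbs ∨ RB a.1.valMinAbs a.2.valMinAbs))
    (fun a => RA a.1.valMinAbs a.2.valMinAbs) (fun a ha => by
      show RA (a.1 + a.2).valMinAbs _
      rw [(vadd' ha.1.1 ha.1.2).1]; exact ((regs _ _).1 ha.2).1)
  have a2 := move μ μ δ2 h0 L L.injective l1 d2
    (fun a => Q a ∧ (RA a.1.valMinAbs a.2.valMinAbs ∨ RB a.1.valMinAbs a.2.valMinAbs))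
    (fun a => RB a.1.valMinAbs a.2.valMinAbs) (fun a ha => by
      show RB _ (a.1 + a.2).valMinAbs
      rw [(vadd' ha.1.1 ha.1.2).1]; exact ((regs _ _).1 ha.2).2)
  have a3 := move μ μ (δ1 ∘ U) h0 U.symm U.symm.injective
    (fun a => by simpa using u2 (U.symm a)) (fun a => d1 _)
    (fun a => Q a ∧ (RC a.1.valMinAbs a.2.valMinAbs ∨ RD a.1.valMinAbs a.2.valMinAbs))
    (fun a => RD a.1.valMinAbs a.2.valMinAbs) (fun a ha => by
      show RD (a.1 - a.2).valMinAbs _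
      rw [(vadd' ha.1.1 ha.1.2).2]; exact ((regs _ _).2.1 ha.2).1)
  have a4 := move μ μ (δ2 ∘ L) h0 L.symm L.symm.injective
    (fun a => by simpa using l2 (L.symm a)) (fun a => d2 _)
    (fun a => Q a ∧ (RC a.1.valMinAbs a.2.valMinAbs ∨ RD a.1.valMinAbs a.2.valMinAbs))
    (fun a => RC a.1.valMinAbs a.2.valMinAbs) (fun a ha => by
      show RC _ (a.2 - a.1).valMinAbs
      rw [(vadd' ha.1.2 ha.1.1).2]; exact ((regs _ _).2.1 ha.2).2)
  simp only [Function.comp, Equiv.sum_comp U δ1, Equiv.sum_comp L δ2] at a3 a4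
  have b1 := k2 RA RB (fun x y => (regs x y).2.2.1)
  have b2 := k2 RC RD (fun x y => (regs x y).2.2.2.1)
  have c1 := k1 RA
  have c2 := k1 RB
  have c3 := k1 RC
  have c4 := k1 RD
  have b3 : T ≤ μ 0 + (m (fun x y => RA x y ∨ RB x y) + m (fun x y => RC x y ∨ RD x y) +
      ∑ a with ¬ Q a, μ a) := by
    rw [← hT, show μ 0 = ∑ a with a = 0, μ a by simp [Finset.filter_eq']]
    simp only [m, Finset.sum_filter, ← Finset.sum_add_distrib]
    refine Finset.sum_le_sum fun a _ => ?_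
    have := h0 a
    have h5 := (regs a.1.valMinAbs a.2.valMinAbs).2.2.2.2
    simp only [ZMod.valMinAbs_eq_zero, ← or_assoc] at h5
    rw [or_assoc, or_assoc, or_assoc, ← or_assoc (b := RB _ _)] at h5
    by_cases h : Q a
    · rcases h5 with h5 | h5 | h5
      · rw [if_pos (Prod.ext h5.1 h5.2)]; split_ifs <;> linarith
      · rw [if_pos (show Q a ∧ _ from ⟨h, h5⟩)]; split_ifs <;> linarith
      · rw [if_pos (show Q a ∧ (RC _ _ ∨ _) from ⟨h, h5⟩)]; split_ifs <;> linarith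
    · rw [if_pos h]; split_ifs <;> linarith
  simp only [m] at *
  rw [hT] at a1 a2 a3 a4
  have : 0 ≤ T := hT ▸ Finset.sum_nonneg fun a _ => h0 a
  linarith

def lowd [DecidableEq Ω] (S : Finset Ω) (c : ℝ) : Prop :=
  ∀ F, ((univ.filter (fun v => ρ v F ∈ S)).card : ℝ) ≤ c * N ^ 2

theorem expand [DecidableEq Ω] (hρ : ∀ v w, ρ (v + w) = ρ v * ρ w) (u l : Equiv.Perm Ω)
    (hu : ∀ v, u * ρ v = ρ (L v) * u) (hl : ∀ v, l * ρ v = ρ (U v) * l) (S : Finset Ω)
    (hS : lowd ρ S (1 / 2)) : ∃ s ∈ [ρ (1, 0), ρ (0, 1), u, l],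
      (S.card : ℝ) ≤ 2000 * (S.image s \ S).card := by
  by_contra hc
  push Not at hc
  let ξ : Ω → ℂ := fun F => if F ∈ S then 1 else 0
  have n1 : ∑ F, normSq (ξ F) = S.card := by simp [ξ, apply_ite normSq]
  have n2 : ∀ s ∈ [ρ (1, 0), ρ (0, 1), u, l], ∑ a, ms ρ (ξ ∘ s - ξ) a ≤ N ^ 4 * S.card / 1000 := by
    intro s hs
    rw [ms_sum, mul_div_assoc, ← Equiv.sum_comp s.symm]
    refine mul_le_mul_of_nonneg_left ?_ (by positivity)
    have h1 : ∑ F, normSq ((ξ ∘ s - ξ) (s.symm F)) = ((S.image s \ S).card + (S \ S.image s).card : ℝ) := by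
      simp only [Finset.card_eq_sum_ones, Nat.cast_sum]
      rw [← Finset.sum_ite_mem_eq (S.image s \ S), ← Finset.sum_ite_mem_eq (S \ S.image s),
        ← Finset.sum_add_distrib]
      refine Finset.sum_congr rfl fun F _ => ?_
      have : F ∈ S.image s ↔ s.symm F ∈ S := by
        simp only [Finset.mem_image]
        exact ⟨by rintro ⟨x, h, rfl⟩; simpa using h, fun h => ⟨_, h, by simp⟩⟩
      by_cases a : F ∈ S <;> by_cases b : s.symm F ∈ S <;> simp [ξ, this, a, b]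
    rw [h1, Finset.card_sdiff_comm (s := S) (Finset.card_image_of_injective _ s.injective).symm]
    have := hc s hs
    linarith
  have neg : ∀ (f g : Ω → ℂ) a, ms ρ (f - g) a = ms ρ (g - f) a := fun f g a => by
    simp only [ms, Pi.sub_apply, mul_sub, Finset.sum_sub_distrib]
    exact Finset.sum_congr rfl fun F _ => by rw [← normSq_neg, neg_sub]
  have su := ms_shift ρ ξ u L U hu (fun a v => by simp only [e, U, L, Equiv.coe_fn_mk]; ring_nf)
  have sl := ms_shift ρ ξ l U L hl (fun a v => by simp only [e, U, L, Equiv.coe_fn_mk]; ring_nf)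
  have key := burger (ms ρ ξ) (ms ρ (ξ ∘ u - ξ)) (ms ρ (ξ ∘ l - ξ)) (ms_nonneg ρ ξ) _
    (by rw [ms_sum, n1]) (ms_nonneg ρ _) (ms_nonneg ρ _) (n2 u (by simp)) (n2 l (by simp))
    (fun a => by rw [← su a]; exact ms_cmp ρ _ _ _)
    (fun a => by rw [← su a, neg]; exact ms_cmp ρ _ _ _)
    (fun a => by rw [← sl a]; exact ms_cmp ρ _ _ _)
    (fun a => by rw [← sl a, neg]; exact ms_cmp ρ _ _ _) (by
      have a1 := n2 (ρ (1, 0)) (by simp)
      have a2 := n2 (ρ (0, 1)) (by simp)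
      simp only [ms_tr ρ hρ] at a1 a2
      refine le_trans ?_ (show (∑ a, normSq (e a (-(1, 0)) - 1) * ms ρ ξ a +
        ∑ a, normSq (e a (-(0, 1)) - 1) * ms ρ ξ a) / 2 ≤ _ by linarith)
      rw [← Finset.sum_add_distrib, Finset.sum_div, Finset.sum_filter]
      refine Finset.sum_le_sum fun a _ => ?_
      have b0 := ms_nonneg ρ ξ a
      have b1 := mul_nonneg (normSq_nonneg (e a (-(1, 0)) - 1)) b0
      have b2 := mul_nonneg (normSq_nonneg (e a (-(0, 1)) - 1)) b0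
      split_ifs with h
      · linarith
      · rw [not_and_or, not_lt, not_lt] at h
        rcases h with h | h
        · have : 2 ≤ normSq (e a (-(1, 0)) - 1) := by simpa [e] using e_far _ h
          nlinarith
        · have : 2 ≤ normSq (e a (-(0, 1)) - 1) := by simpa [e] using e_far _ h
          nlinarith)
  have h0 : ms ρ ξ 0 ≤ 1 / 2 * (N ^ 4 * S.card) := by
    have c : ∀ F, ∑ v, e 0 v * ξ (ρ v F) = ((univ.filter (fun v => ρ v F ∈ S)).card : ℝ) := by
      intro F; simp [e, ξ]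
    have c2 : ∑ F, ((univ.filter (fun v => ρ v F ∈ S)).card : ℝ) = N ^ 2 * S.card := by
      simp only [Finset.card_filter]
      push_cast
      rw [Finset.sum_comm]
      simp only [Equiv.sum_comp (ρ _) (fun F => if F ∈ S then (1 : ℝ) else 0)]
      simp [sq]
    simp only [ms, c, normSq_ofReal]
    refine (Finset.sum_le_sum fun F _ => mul_le_mul_of_nonneg_right
      (show ((univ.filter (fun v => ρ v F ∈ S)).card : ℝ) ≤ 1 / 2 * N ^ 2 by convert hS F)
      (by positivity)).trans ?_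
    rw [← Finset.mul_sum, c2]
    exact le_of_eq (by ring)
  have hN : (0 : ℝ) < N := by exact_mod_cast Nat.pos_of_ne_zero (NeZero.ne N)
  have : (0 : ℝ) < S.card := lt_of_le_of_lt (by positivity) (hc u (by simp))
  have : (0 : ℝ) < N ^ 4 * S.card := by positivity
  linarith

omit [Fintype Ω] in
theorem lowd_image [DecidableEq Ω] (s : Equiv.Perm Ω) (M : A N ≃ A N)
    (h : ∀ v, s * ρ v = ρ (M v) * s) (S : Finset Ω) (c : ℝ) (hS : lowd ρ S c) :
    lowd ρ (S.image s) c := by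
  intro F
  refine le_trans (Nat.cast_le.2 ?_) (hS (s⁻¹ F))
  refine Finset.card_le_card_of_injOn M.symm (fun v hv => ?_) M.symm.injective.injOn
  simp only [coe_filter, mem_univ, true_and, Set.mem_ofPred_eq, Finset.mem_image] at hv ⊢
  obtain ⟨x, h1, h2⟩ := hv
  have := congrArg (fun g : Equiv.Perm Ω => g (s⁻¹ F)) (h (M.symm v))
  simp only [Equiv.Perm.mul_apply, Equiv.apply_symm_apply, Equiv.Perm.coe_inv] at this
  rw [← h2] at this
  exact s.injective this ▸ h1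

theorem grow [DecidableEq Ω] (hρ : ∀ v w, ρ (v + w) = ρ v * ρ w) (u l : Equiv.Perm Ω)
    (hu : ∀ v, u * ρ v = ρ (L v) * u) (hl : ∀ v, l * ρ v = ρ (U v) * l) (Q : ℕ → Set Ω)
    (h1 : ∀ i, ∀ F ∈ Q i, F ∈ Q (i + 1) ∧ ∀ s ∈ [ρ (1, 0), ρ (0, 1), u, l], s F ∈ Q (i + 1))
    (S : Finset Ω) (h0 : ↑S ⊆ Q 0) (c : ℝ) (hc : 0 ≤ c) (hS : lowd ρ S c) (k : ℕ)
    (hk : 2 ^ k * c ≤ 1 / 2) : ∃ S' : Finset Ω, ↑S' ⊆ Q k ∧ lowd ρ S' (2 ^ k * c) ∧
      (1 + 1 / 2000) ^ k * (S.card : ℝ) ≤ S'.card := by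
  induction k with
  | zero => exact ⟨S, h0, by simpa using hS, by simp⟩
  | succ k ih =>
    have a0 : 2 ^ k * c ≤ 1 / 2 := by
      rw [pow_succ] at hk
      nlinarith [show 0 ≤ 2 ^ k * c by positivity]
    obtain ⟨T, a1, a2, a3⟩ := ih a0
    obtain ⟨s, b1, b2⟩ := expand ρ hρ u l hu hl T
      (fun F => (a2 F).trans (mul_le_mul_of_nonneg_right a0 (by positivity)))
    refine ⟨T.image s ∪ T, fun F hF => ?_, fun F => ?_, ?_⟩
    · rcases Finset.mem_union.1 hF with h | h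
      · obtain ⟨x, hx, rfl⟩ := Finset.mem_image.1 h
        exact (h1 k x (a1 hx)).2 s b1
      · exact (h1 k F (a1 h)).1
    · have : lowd ρ (T.image s) (2 ^ k * c) := by
        simp only [List.mem_cons, List.not_mem_nil, or_false] at b1
        rcases b1 with rfl | rfl | rfl | rfl
        · exact lowd_image ρ _ (Equiv.refl _) (fun v => by simp [← hρ, add_comm]) _ _ a2
        · exact lowd_image ρ _ (Equiv.refl _) (fun v => by simp [← hρ, add_comm]) _ _ a2
        · exact lowd_image ρ _ L hu _ _ a2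
        · exact lowd_image ρ _ U hl _ _ a2
      have c1 := this F
      have c2 := a2 F
      simp only [Finset.mem_union, Finset.filter_or]
      refine (Nat.cast_le.2 (Finset.card_union_le _ _)).trans ?_
      push_cast
      rw [pow_succ]
      linarith
    · rw [← Finset.card_sdiff_add_card, pow_succ]
      push_cast
      linarith

end Pool.Agent.H69.Ext
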