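import Pool.Agent.H69.Ext1

set_option autoImplicit false

namespace Pool.Agent.H69.Ext

open Finset

variable {N : ℕ} [NeZero N]

theorem band_sum (ψ : ZMod N → ℝ) (d a : ZMod N) (l : ℕ) (h : 2 * d * a = l) (s : ZMod N) :
    ∑ x, ∑ t ∈ range l, ψ (2 * d * x + s + t) = l * ∑ y, ψ y := by
  let Ψ : ZMod N → ℝ := fun y => ∑ x, ψ (2 * d * x + y)
  have h1 : ∀ y, Ψ (y + l) = Ψ y := by
    intro y
    simp only [Ψ]
    rw [← Equiv.sum_comp (Equiv.addRight a) (fun x => ψ (2 * d * x + y))]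
    refine Finset.sum_congr rfl fun x _ => ?_
    rw [Equiv.coe_addRight, ← h]; congr 1; ring
  let Φ : ZMod N → ℝ := fun s => ∑ t ∈ range l, Ψ (s + t)
  have h2 : ∀ s, Φ (s + 1) = Φ s := by
    intro s
    have a1 := Finset.sum_range_succ (fun t : ℕ => Ψ (s + t)) l
    have a2 := Finset.sum_range_succ' (fun t : ℕ => Ψ (s + t)) l
    simp only [h1, Nat.cast_zero, add_zero, Nat.cast_add, Nat.cast_one] at a1 a2
    simp only [Φ, add_assoc, add_comm (1 : ZMod N)]
    linarith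
  have h3 : ∀ s, Φ s = Φ 0 := by
    intro s
    rw [← ZMod.natCast_zmod_val s]
    induction s.val with
    | zero => simp
    | succ n ih => rw [Nat.cast_succ, h2, ih]
  have h4 : ∑ s, Φ s = N * (l * ∑ y, ψ y) := by
    simp only [Φ, Ψ]
    rw [Finset.sum_comm]
    have : ∀ t : ℕ, ∑ s, ∑ x, ψ (2 * d * x + (s + t)) = N * ∑ y, ψ y := by
      intro t
      rw [Finset.sum_comm]
      have : ∀ x, ∑ s, ψ (2 * d * x + (s + t)) = ∑ y, ψ y := fun x => by
        rw [← Equiv.sum_comp (Equiv.addRight (2 * d * x + t)) ψ]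
        exact Finset.sum_congr rfl fun x _ => by rw [Equiv.coe_addRight]; congr 1; ring
      simp [this]
    simp [this]; ring
  have hN : (0 : ℝ) < N := by exact_mod_cast Nat.pos_of_ne_zero (NeZero.ne N)
  rw [Finset.sum_congr rfl (fun s' _ => (h3 s').trans (h3 s).symm)] at h4
  simp only [sum_const, card_univ, ZMod.card, nsmul_eq_mul] at h4
  rw [← mul_left_cancel₀ hN.ne' h4, Finset.sum_comm]
  simp only [Φ, Ψ, add_assoc]

def pt (o : ℕ) (x : ZMod N) (t : ℕ) : A N := (x, x ^ 2 + o + t)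

noncomputable def bs (o l : ℕ) (f : A N → ℝ) : ℝ := ∑ x, ∑ t ∈ range l, f (pt o x t)

noncomputable def Z (o l : ℕ) (f : A N → ℝ) : ℝ := bs o l f / (N * l) - (∑ v, f v) / N ^ 2

theorem sq_bs (o l : ℕ) (f : A N → ℝ) (h0 : ∀ v, 0 ≤ f v) (h1 : ∀ v, f v ≤ 1) (B : Finset (ZMod N))
    (hB : ∀ d ∉ B, ∃ a : ZMod N, 2 * d * a = l) :
    ∑ v, bs o l (fun p => f (p - v)) ^ 2 ≤ l ^ 2 * (∑ v, f v) ^ 2 + B.card * (N ^ 3 * l ^ 2) := by
  let c : A N → ℝ := fun w => ∑ v, f v * f (v + w)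
  have c0 : ∀ w, 0 ≤ c w := fun w => Finset.sum_nonneg fun v _ => mul_nonneg (h0 _) (h0 _)
  have c1 : ∀ w, c w ≤ N ^ 2 := fun w => by
    refine (Finset.sum_le_sum (g := fun _ => (1 : ℝ)) fun v _ =>
      mul_le_one₀ (h1 _) (h0 _) (h1 _)).trans ?_
    simp [sq]
  have c2 : ∑ w, c w = (∑ v, f v) ^ 2 := by
    simp only [c]
    rw [Finset.sum_comm, sq, Finset.sum_mul]
    refine Finset.sum_congr rfl fun v _ => ?_
    rw [← Finset.mul_sum]
    congr 1
    exact Equiv.sum_comp (Equiv.addLeft v) f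
  have c3 : ∀ p q : A N, ∑ v, f (p - v) * f (q - v) = c (q - p) := fun p q => by
    simp only [c]
    rw [← Equiv.sum_comp (Equiv.subLeft p) (fun v => f v * f (v + (q - p)))]
    exact Finset.sum_congr rfl fun x _ => by rw [Equiv.subLeft_apply]; congr 2; ring
  have c4 : ∑ v, bs o l (fun p => f (p - v)) ^ 2 =
      ∑ d, ∑ t ∈ range l, ∑ x, ∑ t' ∈ range l, c (d, 2 * d * x + (d ^ 2 - t) + t') := by
    simp only [bs, sq, Finset.sum_mul_sum]
    calc _ = ∑ x, ∑ x', ∑ t ∈ range l, ∑ t' ∈ range l, c (pt o x' t' - pt o x t) := by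
          simp only [← c3]
          rw [Finset.sum_comm]
          refine Finset.sum_congr rfl fun x _ => ?_
          rw [Finset.sum_comm]
          refine Finset.sum_congr rfl fun x' _ => ?_
          rw [Finset.sum_comm]
          refine Finset.sum_congr rfl fun t _ => ?_
          rw [Finset.sum_comm]
      _ = ∑ x, ∑ d, ∑ t ∈ range l, ∑ t' ∈ range l, c (d, 2 * d * x + (d * d - t) + t') := by
          refine Finset.sum_congr rfl fun x _ => ?_
          rw [← Equiv.sum_comp (Equiv.addLeft x)]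
          refine Finset.sum_congr rfl fun d _ => Finset.sum_congr rfl fun t _ =>
            Finset.sum_congr rfl fun t' _ => ?_
          congr 1
          ext <;> simp [pt]; ring
      _ = _ := by
          rw [Finset.sum_comm]
          exact Finset.sum_congr rfl fun d _ => Finset.sum_comm
  rw [c4, ← c2, Fintype.sum_prod_type, Finset.mul_sum]
  have : (B.card * (N ^ 3 * l ^ 2) : ℝ) = ∑ d, if d ∈ B then (N ^ 3 * l ^ 2 : ℝ) else 0 := by simp
  rw [this, ← Finset.sum_add_distrib]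
  refine Finset.sum_le_sum fun d _ => ?_
  split_ifs with h
  · refine le_add_of_nonneg_of_le (mul_nonneg (by positivity) (Finset.sum_nonneg fun _ _ => c0 _)) ?_
    refine (Finset.sum_le_sum fun t _ => Finset.sum_le_sum fun x _ => Finset.sum_le_sum
      fun t' _ => c1 _).trans (le_of_eq ?_)
    simp; ring
  · obtain ⟨a, ha⟩ := hB d h
    simp only [band_sum (fun y => c (d, y)) d a l ha]
    simp [sq, mul_assoc]

theorem sum_bs (o l : ℕ) (f : A N → ℝ) : ∑ v, bs o l (fun p => f (p - v)) = N * l * ∑ v, f v := by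
  simp only [bs]
  rw [Finset.sum_comm]
  have : ∀ x, ∑ v, ∑ t ∈ range l, f (pt o x t - v) = l * ∑ v, f v := fun x => by
    rw [Finset.sum_comm]
    simp [Equiv.sum_comp (Equiv.subLeft _) f, ← Equiv.subLeft_apply]
  simp [this, mul_assoc]

theorem var (j : ℕ) (hN : N = 27 * 3 ^ j) (o l : ℕ) (hl : 3 ^ j ∣ l) (hl0 : 0 < l) (f : A N → ℝ)
    (h0 : ∀ v, 0 ≤ f v) (h1 : ∀ v, f v ≤ 1) (w : ℝ) (hw : 0 < w) (hw2 : 9 ≤ N * w ^ 2) :
    ∑ v, |Z o l (fun p => f (p - v))| ≤ N ^ 2 * w := by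
  have hN0 : (0 : ℝ) < N := by exact_mod_cast Nat.pos_of_ne_zero (NeZero.ne N)
  have hl1 : (0 : ℝ) < l := by exact_mod_cast hl0
  have a1 := sq_bs o l f h0 h1 ((range 9).image (fun i : ℕ => ((3 ^ (j + 1) * i : ℕ) : ZMod N))) (by
    intro d hd
    have hd0 : ¬ 3 ^ (j + 1) ∣ d.val := by
      rintro ⟨i, hi⟩
      refine hd (Finset.mem_image.2 ⟨i, Finset.mem_range.2 ?_, by rw [← hi, ZMod.natCast_zmod_val]⟩)
      have := d.val_lt
      rw [hi, hN, pow_succ] at this
      have h3 : 0 < 3 ^ j := by positivity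
      by_contra hc
      nlinarith [Nat.mul_le_mul_left (3 ^ j) (not_lt.1 hc)]
    obtain ⟨i, m, hm, e⟩ := Nat.exists_eq_pow_mul_and_not_dvd (n := d.val)
      (by rintro h; simp [h] at hd0) 3 (by norm_num)
    have hi : i ≤ j := by
      by_contra hc
      exact hd0 (e ▸ (pow_dvd_pow 3 (by omega)).mul_right _)
    have hu : IsUnit ((2 * m : ℕ) : ZMod N) := by
      rw [ZMod.isUnit_iff_coprime, hN, show 27 * 3 ^ j = 3 ^ (j + 3) by ring]
      refine Nat.Coprime.pow_right _ (Nat.Coprime.symm ?_)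
      rw [Nat.Prime.coprime_iff_not_dvd Nat.prime_three]
      omega
    obtain ⟨u, hu⟩ := hu.exists_right_inv
    obtain ⟨k, rfl⟩ := (pow_dvd_pow 3 hi).trans hl
    refine ⟨u * k, ?_⟩
    rw [← ZMod.natCast_zmod_val d, e]
    push_cast at hu ⊢
    linear_combination (3 ^ i * k : ZMod N) * hu)
  have a2 : (((range 9).image (fun i : ℕ => ((3 ^ (j + 1) * i : ℕ) : ZMod N))).card : ℝ) ≤ 9 := by
    exact_mod_cast Finset.card_image_le.trans (by simp)
  have a3 := sum_bs o l f
  have a4 : ∀ v, ∑ p, f (p - v) = ∑ p, f p := fun v => Equiv.sum_comp (Equiv.subRight v) f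
  have a5 : ∑ v, Z o l (fun p => f (p - v)) ^ 2 ≤ 9 * N := by
    simp only [Z, a4, sub_sq, div_pow, Finset.sum_add_distrib, Finset.sum_sub_distrib,
      ← Finset.sum_div, ← Finset.sum_mul, ← Finset.mul_sum, a3]
    simp only [sum_const, card_univ, Fintype.card_prod, ZMod.card, nsmul_eq_mul]
    have := (div_le_div_of_nonneg_right (a1.trans (add_le_add le_rfl
      (mul_le_mul_of_nonneg_right a2 (by positivity)))) (show 0 ≤ ((N : ℝ) * l) ^ 2 by positivity))
    refine le_trans (add_le_add (sub_le_sub this le_rfl) le_rfl) (le_of_eq ?_)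
    push_cast
    field_simp
    ring
  have a6 : ∀ z : ℝ, |z| ≤ w / 2 + z ^ 2 / (2 * w) := fun z => by
    rw [← sq_abs z, div_add_div _ _ two_ne_zero (by positivity), le_div_iff₀ (by positivity)]
    nlinarith [sq_nonneg (w - |z|)]
  refine (Finset.sum_le_sum fun v _ => a6 _).trans ?_
  rw [Finset.sum_add_distrib, ← Finset.sum_div]
  simp only [sum_const, card_univ, Fintype.card_prod, ZMod.card, nsmul_eq_mul, ← Finset.sum_div]
  have : (∑ v, Z o l (fun p => f (p - v)) ^ 2) / (2 * w) ≤ N ^ 2 * w / 2 := by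
    rw [div_le_iff₀ (by positivity)]
    nlinarith
  push_cast
  nlinarith

theorem avg {M : ℕ} [NeZero M] (φ : A M →+ A N) (hφ : Function.Surjective φ) (g : A N → ℝ) :
    (N : ℝ) ^ 2 * ∑ V, g (φ V) = M ^ 2 * ∑ v, g v := by
  have : ∀ v, ∑ V, g (φ V + v) = ∑ V, g (φ V) := fun v => by
    obtain ⟨V, rfl⟩ := hφ v
    simp only [← map_add]
    exact Equiv.sum_comp (Equiv.addRight V) (fun V => g (φ V))
  have h2 : ∀ V, ∑ v, g (φ V + v) = ∑ v, g v := fun V => Equiv.sum_comp (Equiv.addLeft _) g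
  have h3 : ∑ v, ∑ V, g (φ V + v) = ∑ V, ∑ v, g (φ V + v) := Finset.sum_comm
  simp only [this, h2] at h3
  simpa [sq] using h3

open Pointwise in
theorem hall {H Ω : Type} [Group H] [MulAction H Ω] [DecidableEq Ω] (m : Set Ω → ℝ)
    (m0 : ∀ A, 0 ≤ m A) (m1 : m Set.univ = 1) (ma : ∀ A B, Disjoint A B → m (A ∪ B) = m A + m B)
    (W : Finset H) (mi : ∀ h ∈ W, ∀ A, m ((fun x => h • x) ⁻¹' A) = m A) (B : Set Ω) (n : ℕ)
    (hB : ∀ S : Finset Ω, ↑S ⊆ B → n * S.card ≤ (S.biUnion fun F => W.image (· • F)).card) :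
    n * m B ≤ 1 := by
  classical
  obtain ⟨f, hf, hf2⟩ := (Finset.all_card_le_biUnion_card_iff_exists_injective
    (fun x : B × Fin n => W.image (· • x.1.1))).1 (fun s => by
      have := hB (s.image (·.1.1)) (by
        intro x hx; obtain ⟨y, -, rfl⟩ := Finset.mem_image.1 hx; exact y.1.2)
      rw [Finset.image_biUnion] at this
      refine le_trans ?_ this
      refine (Finset.card_le_card_of_injOn (t := (univ : Finset (Fin n)) ×ˢ s.image (·.1.1))
        (fun x => (x.2, x.1.1)) (fun x hx => by simpa using ⟨x.2, hx⟩) ?_).trans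
        (by simp)
      intro x _ y _ h
      simp only [Prod.mk.injEq] at h
      exact Prod.ext (Subtype.ext h.2) h.1)
  have me : m ∅ = 0 := by simpa using ma ∅ ∅ (by simp)
  have ms : ∀ {ι : Type} (s : Finset ι) (P : ι → Set Ω), (s : Set ι).PairwiseDisjoint P →
      m (⋃ i ∈ s, P i) = ∑ i ∈ s, m (P i) := by
    intro ι s P
    induction s using Finset.induction_on with
    | empty => simp [me]
    | insert a s ha ih =>
      intro h
      rw [Finset.set_biUnion_insert, Finset.sum_insert ha, ma, ih (h.subset (by simp))]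
      simp only [Set.disjoint_iUnion_right]
      intro i hi
      exact h (by simp) (by simp [hi]) (by rintro rfl; exact ha hi)
  choose g hg hg2 using fun x => Finset.mem_image.1 (hf2 x)
  let P : Fin n × H → Set Ω := fun x => {y | ∃ F : B, g (F, x.1) = x.2 ∧ x.2 • F.1 = y}
  have a1 := ms (univ ×ˢ W) P (by
    rintro ⟨i, a⟩ - ⟨j, b⟩ - hne
    rw [Function.onFun, Set.disjoint_left]
    rintro y ⟨F, h3, h4⟩ ⟨F', h1, h2⟩
    simp only at h1 h2 h3 h4
    have := hf (show f (F', j) = f (F, i) by rw [← hg2, ← hg2, h1, h3, h2, h4])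
    simp only [Prod.mk.injEq] at this
    obtain ⟨rfl, rfl⟩ := this
    exact hne (Prod.ext rfl (h3.symm.trans h1)))
  have a2 : ∀ i, ∑ h ∈ W, m (P (i, h)) = m B := fun i => by
    rw [← Finset.sum_congr rfl (fun h hh => mi h hh (P (i, h))), ← ms]
    · congr 1
      ext y
      simp only [Set.mem_iUnion, Set.mem_preimage, P, Set.mem_ofPred_eq, smul_left_cancel_iff]
      exact ⟨by rintro ⟨h, -, F, -, rfl⟩; exact F.2, fun h => ⟨_, hg _, ⟨y, h⟩, rfl, rfl⟩⟩
    · intro a _ b _ hne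
      rw [Function.onFun, Set.disjoint_left]
      rintro y ⟨F, h1, h2⟩ ⟨F', h3, h4⟩
      simp only [smul_left_cancel_iff] at h1 h2 h3 h4
      obtain rfl : F = F' := Subtype.ext (h2.trans h4.symm)
      exact hne (h1.symm.trans h3)
  rw [Finset.sum_product] at a1
  simp only [a2, sum_const, card_univ, Fintype.card_fin, nsmul_eq_mul] at a1
  have := ma _ _ (disjoint_compl_right (a := ⋃ i ∈ univ ×ˢ W, P i))
  rw [Set.union_compl_self, m1, a1] at this
  linarith [m0 (⋃ i ∈ univ ×ˢ W, P i)ᶜ]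

end Pool.Agent.H69.Ext
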