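import Pool.Agent.H69.Ext2

set_option autoImplicit false

namespace Pool.Agent.H69.Ext

open Finset Pointwise

theorem swap_ex {I X : Type} (α β : I → X) (hα : Function.Injective α) (hβ : Function.Injective β)
    (hd : ∀ i j, α i ≠ β j) : ∃ τ : Equiv.Perm X, (∀ i, τ (α i) = β i) ∧ (∀ i, τ (β i) = α i) ∧
      ∀ x, (τ x = x ∨ (∃ i, α i = x) ∨ ∃ i, β i = x) := by
  let f := Function.extend α β (Function.extend β α id)
  have h1 : ∀ i, f (α i) = β i := hα.extend_apply _ _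
  have h2 : ∀ i, f (β i) = α i := fun i => by
    simp only [f]
    rw [Function.extend_apply' _ _ _ (by rintro ⟨j, h⟩; exact hd _ _ h), hβ.extend_apply]
  have h3 : ∀ x, (f x = x ∨ (∃ i, α i = x) ∨ ∃ i, β i = x) := fun x => by
    by_cases a : ∃ i, α i = x
    · simp [a]
    by_cases b : ∃ i, β i = x
    · simp [b]
    left
    simp only [f]
    rw [Function.extend_apply' _ _ _ a, Function.extend_apply' _ _ _ b, id]
  refine ⟨Function.Involutive.toPerm f fun x => ?_, h1, h2, h3⟩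
  rcases h3 x with h | ⟨i, rfl⟩ | ⟨i, rfl⟩
  · rw [h, h]
  · rw [h1, h2]
  · rw [h2, h1]

variable (K : ℕ)

def jj (r : ℕ) : ℕ := Nat.log 3 ((r + K + 4) ^ 4)

def NN (r : ℕ) : ℕ := 27 * 3 ^ jj K r

instance (r : ℕ) : NeZero (NN K r) := ⟨by unfold NN; positivity⟩

theorem jj_mono {r s : ℕ} (h : r ≤ s) : jj K r ≤ jj K s :=
  Nat.log_mono_right (Nat.pow_le_pow_left (by omega) _)

theorem jj_succ (r : ℕ) : jj K (r + 1) ≤ jj K r + 1 := by
  rw [jj, jj, ← Nat.log_mul_base (by norm_num) (by positivity)]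
  refine Nat.log_mono_right ?_
  have : r + 1 + K + 4 = (r + K) + 5 := by ring
  rw [this]
  generalize r + K = a
  ring_nf
  omega

theorem NN_le (r : ℕ) : NN K r ≤ 27 * (r + K + 4) ^ 4 :=
  Nat.mul_le_mul_left _ (Nat.pow_log_le_self _ (by positivity))

theorem le_NN (r : ℕ) : 9 * (r + K + 4) ^ 4 ≤ NN K r := by
  have := Nat.lt_pow_succ_log_self (b := 3) (by norm_num) ((r + K + 4) ^ 4)
  rw [Nat.succ_eq_add_one, pow_succ 3] at this
  rw [NN, jj]; omega

def lA (r : ℕ) : ℕ := 3 * 3 ^ jj K (r + 1)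
def lB (r : ℕ) : ℕ := 3 * 3 ^ jj K (r - 1)
def oB (r : ℕ) : ℕ := 9 * 3 ^ jj K r

theorem lA_le (r : ℕ) : lA K r ≤ oB K r := by
  have := Nat.pow_le_pow_right (show 0 < 3 by norm_num) (jj_succ K r)
  rw [pow_succ] at this
  rw [lA, oB]; omega

theorem lB_le (r : ℕ) : oB K r + lB K r ≤ NN K r := by
  have := Nat.pow_le_pow_right (show 0 < 3 by norm_num) (jj_mono K (Nat.sub_le r 1))
  rw [lB, oB, NN]; omega

theorem lA_dvd (r : ℕ) : 3 ^ jj K r ∣ lA K r :=
  (pow_dvd_pow 3 (jj_mono K (Nat.le_succ r))).mul_left _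

theorem lB_dvd (r : ℕ) : 3 ^ jj K r ∣ lB K r := by
  rw [lB, ← pow_succ']
  refine pow_dvd_pow 3 ?_
  cases r with
  | zero => simp
  | succ r => exact jj_succ K r

theorem lAB (r : ℕ) : NN K r * lA K r = NN K (r + 1) * lB K (r + 1) := by
  simp only [NN, lA, lB, Nat.add_sub_cancel]; ring

abbrev X := Σ r : ℕ, A (NN K r)

def H := ∀ r : ℕ, Equiv.Perm (A (NN K r))

instance : Group (H K) := inferInstanceAs (Group (∀ r : ℕ, Equiv.Perm (A (NN K r))))

instance : MulAction (H K) (X K) where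
  smul h x := ⟨x.1, h x.1 x.2⟩
  one_smul _ := rfl
  mul_smul _ _ _ := rfl

theorem pt_inj {N : ℕ} [NeZero N] {o o' t t' : ℕ} {x x' : ZMod N} (h1 : o + t < N) (h2 : o' + t' < N)
    (h : pt o x t = pt o' x' t') : x = x' ∧ o + t = o' + t' := by
  simp only [pt, Prod.mk.injEq] at h
  obtain ⟨rfl, h⟩ := h
  rw [add_assoc, add_assoc, add_right_inj, ← Nat.cast_add, ← Nat.cast_add,
    ZMod.natCast_eq_natCast_iff', Nat.mod_eq_of_lt h1, Nat.mod_eq_of_lt h2] at h
  exact ⟨rfl, h⟩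

noncomputable def ind (F : Finset (X K)) (r : ℕ) (p : A (NN K r)) : ℝ := if ⟨r, p⟩ ∈ F then 1 else 0

theorem tau_ex : ∃ τ : Equiv.Perm (X K), (∀ x, τ (τ x) = x) ∧ (∀ x, (τ x).1 ≤ x.1 + 1) ∧
    (∀ r, ∃ p q, τ ⟨r, p⟩ = ⟨r + 1, q⟩) ∧ ∀ F r, bs 0 (lA K r) (ind K F r) =
      bs (oB K (r + 1)) (lB K (r + 1)) (ind K (τ • F) (r + 1)) := by
  have ε : ∀ r, ZMod (NN K r) × Fin (lA K r) ≃ ZMod (NN K (r + 1)) × Fin (lB K (r + 1)) := fun r =>
    Fintype.equivOfCardEq (by simp [lAB])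
  obtain ⟨τ, h1, h2, h3⟩ := swap_ex (I := Σ r, ZMod (NN K r) × Fin (lA K r)) (X := X K)
    (fun i => ⟨i.1, pt 0 i.2.1 i.2.2⟩) (fun i => ⟨i.1 + 1, pt (oB K (i.1 + 1)) (ε _ i.2).1 (ε _ i.2).2⟩)
    (by
      rintro ⟨r, x, t⟩ ⟨r', x', t'⟩ h
      obtain rfl : r = r' := congrArg Sigma.fst h
      have := lA_le K r
      have := lB_le K r
      obtain ⟨rfl, h⟩ := pt_inj (by simp only; omega) (by simp only; omega) (eq_of_heq (Sigma.mk.inj h).2)
      obtain rfl : t = t' := Fin.ext (by simpa using h)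
      rfl)
    (by
      rintro ⟨r, x⟩ ⟨r', x'⟩ h
      obtain rfl : r = r' := Nat.succ_injective (congrArg Sigma.fst h)
      have := lB_le K (r + 1)
      obtain ⟨h1, h⟩ := pt_inj (by have := (ε r x).2.2; simp only; omega)
        (by have := (ε r x').2.2; simp only; omega) (eq_of_heq (Sigma.mk.inj h).2)
      obtain rfl : x = x' := (ε r).injective (Prod.ext h1 (Fin.ext (by simpa using h)))
      rfl)
    (by
      rintro ⟨r, x, t⟩ ⟨r', x'⟩ h
      obtain rfl : r = r' + 1 := congrArg Sigma.fst h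
      have := lA_le K (r' + 1)
      have := lB_le K (r' + 1)
      have := (pt_inj (by simp only; omega) (by have := (ε r' x').2.2; simp only; omega)
        (eq_of_heq (Sigma.mk.inj h).2)).2
      simp only at this
      omega)
  have h4 : ∀ x, τ (τ x) = x := fun x => by
    rcases h3 x with h | ⟨i, rfl⟩ | ⟨i, rfl⟩
    · rw [h, h]
    · rw [h1, h2]
    · rw [h2, h1]
  refine ⟨τ, h4, fun x => ?_, fun r => ⟨_, _, h1 ⟨r, 0, ⟨0, by unfold lA; positivity⟩⟩⟩, fun F r => ?_⟩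
  · rcases h3 x with h | ⟨i, rfl⟩ | ⟨i, rfl⟩
    · rw [h]; omega
    · rw [h1]
    · rw [h2]; simp only; omega
  · simp only [bs, Finset.sum_range, ← Fintype.sum_prod_type']
    rw [← Equiv.sum_comp (ε r)]
    refine Finset.sum_congr rfl fun i _ => ?_
    simp only [ind]
    rw [← h1 ⟨r, i⟩]
    exact if_congr (Finset.smul_mem_smul_finset_iff τ).symm rfl rfl

noncomputable def T (R : ℕ) (F : Finset (X K)) : ℝ :=
  ∑ r ∈ range R, (|Z 0 (lA K r) (ind K F r)| + |Z (oB K r) (lB K r) (ind K F r)|)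

noncomputable def D (F : Finset (X K)) (r : ℕ) : ℝ := (∑ v, ind K F r v) / (NN K r) ^ 2

theorem chain (τ : Equiv.Perm (X K)) (h1 : ∀ x, τ (τ x) = x) (h2 : ∀ F r, bs 0 (lA K r) (ind K F r) =
      bs (oB K (r + 1)) (lB K (r + 1)) (ind K (τ • F) (r + 1))) (F : Finset (X K))
    (a1 : ∀ R, T K R F ≤ 1 / 8) (a2 : ∀ R, T K R (τ • F) ≤ 1 / 8) : D K F 0 ≤ 1 / 4 := by
  have b1 : ∀ F r, D K F r ≤ D K (τ • F) (r + 1) + |Z 0 (lA K r) (ind K F r)| +
      |Z (oB K (r + 1)) (lB K (r + 1)) (ind K (τ • F) (r + 1))| := by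
    intro F r
    have c1 := neg_abs_le (Z 0 (lA K r) (ind K F r))
    have c2 := le_abs_self (Z (oB K (r + 1)) (lB K (r + 1)) (ind K (τ • F) (r + 1)))
    have c3 : Z 0 (lA K r) (ind K F r) + D K F r =
        Z (oB K (r + 1)) (lB K (r + 1)) (ind K (τ • F) (r + 1)) + D K (τ • F) (r + 1) := by
      simp only [Z, D, sub_add_cancel, h2, ← Nat.cast_mul, lAB]
    linarith
  have b2 : τ • τ • F = F := by
    rw [smul_smul, show τ * τ = 1 from Equiv.ext h1, one_smul]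
  have b3 : ∀ R, D K F 0 + D K (τ • F) 0 + |Z 0 (lA K R) (ind K F R)| +
      |Z 0 (lA K R) (ind K (τ • F) R)| ≤
      D K F R + D K (τ • F) R + T K (R + 1) F + T K (R + 1) (τ • F) := by
    intro R
    induction R with
    | zero =>
      simp only [T, zero_add, Finset.sum_range_one]
      linarith [abs_nonneg (Z (oB K 0) (lB K 0) (ind K F 0)),
        abs_nonneg (Z (oB K 0) (lB K 0) (ind K (τ • F) 0))]
    | succ R ih =>
      have c1 := b1 F R
      have c2 := b1 (τ • F) R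
      rw [b2] at c2
      rw [T, T, Finset.sum_range_succ _ (R + 1), Finset.sum_range_succ _ (R + 1), ← T, ← T]
      linarith
  have b4 : ∀ F R, (∀ x ∈ F, x.1 < R) → D K F R = 0 := fun F R h => by
    rw [D, Finset.sum_eq_zero (f := ind K F R) (fun v _ => if_neg fun hv => lt_irrefl _ (h _ hv)),
      zero_div]
  have b5 : 0 ≤ D K (τ • F) 0 :=
    div_nonneg (Finset.sum_nonneg fun v _ => by unfold ind; positivity) (by positivity)
  have := b3 ((F ∪ τ • F).sup (·.1) + 1)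
  rw [b4 F (_ + 1) (fun x hx => Nat.lt_succ_of_le (Finset.le_sup (f := fun x : X K => x.1)
    (mem_union_left _ hx))), b4 (τ • F) (_ + 1) (fun x hx => Nat.lt_succ_of_le
    (Finset.le_sup (f := fun x : X K => x.1) (mem_union_right _ hx)))] at this
  generalize (F ∪ τ • F).sup (·.1) + 1 = R at this
  linarith [a1 (R + 1), a2 (R + 1), abs_nonneg (Z 0 (lA K R) (ind K F R)),
    abs_nonneg (Z 0 (lA K R) (ind K (τ • F) R))]

theorem D_compl (F : Finset (X K)) :
    D K (symmDiff F (univ.image fun p : A (NN K 0) => ⟨0, p⟩)) 0 = 1 - D K F 0 := by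
  have hN : (0 : ℝ) < NN K 0 := by exact_mod_cast Nat.pos_of_ne_zero (NeZero.ne _)
  have : ∀ v, ind K (symmDiff F (univ.image fun p : A (NN K 0) => ⟨0, p⟩)) 0 v = 1 - ind K F 0 v := by
    intro v
    by_cases h : (⟨0, v⟩ : X K) ∈ F <;> simp [ind, Finset.mem_symmDiff, h]
  simp only [D, this, Finset.sum_sub_distrib, sum_const, card_univ, Fintype.card_prod, ZMod.card,
    nsmul_eq_mul]
  push_cast
  field_simp

end Pool.Agent.H69.Ext
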