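import Pool.Agent.H69.Ext3

set_option autoImplicit false

namespace Pool.Agent.H69.Ext

open Finset Pointwise

variable (K : ℕ)

def tr (v : ∀ r, A (NN K r)) : H K := fun r => Equiv.addRight (v r)

theorem tr_add (v w : ∀ r, A (NN K r)) : tr K (v + w) = tr K v * tr K w := by
  funext r
  ext1 x
  show x + (v r + w r) = x + w r + v r
  abel

theorem ind_tr (v : ∀ r, A (NN K r)) (F : Finset (X K)) (r : ℕ) :
    ind K (tr K v • F) r = fun p => ind K F r (p - v r) := by
  funext p
  refine if_congr ?_ rfl rfl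
  have : tr K v • (⟨r, p - v r⟩ : X K) = ⟨r, p⟩ := by
    show (⟨r, p - v r + v r⟩ : X K) = _
    rw [sub_add_cancel]
  rw [← this]
  exact Finset.smul_mem_smul_finset_iff _

def gens : List (H K) := [tr K fun _ => (1, 0), tr K fun _ => (0, 1), fun _ => L, fun _ => U]

def pj (M N : ℕ) : A M →+ A N :=
  if h : N ∣ M then (ZMod.castHom h (ZMod N)).toAddMonoidHom.prodMap
    (ZMod.castHom h (ZMod N)).toAddMonoidHom else 0

theorem pj_L {M N : ℕ} (v : A M) : pj M N (L v) = L (pj M N v) := by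
  unfold pj
  split_ifs with h
  · simp [L, ZMod.cast_add h]
  · simp [L]; rfl

theorem pj_U {M N : ℕ} (v : A M) : pj M N (U v) = U (pj M N v) := by
  unfold pj
  split_ifs with h
  · simp [U, ZMod.cast_add h]
  · simp [U]; rfl

theorem pj_one {M N : ℕ} (h : N ∣ M) : pj M N (1, 0) = (1, 0) ∧ pj M N (0, 1) = (0, 1) := by
  simp [pj, h, ZMod.cast_one h]

theorem L_add {N : ℕ} (v w : A N) : L (v + w) = L v + L w := by simp [L, add_add_add_comm]

theorem U_add {N : ℕ} (v w : A N) : U (v + w) = U v + U w := by simp [U, add_add_add_comm]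

def Om (R : ℕ) : SubMulAction (H K) (Finset (X K)) where
  carrier := {F | ∀ x ∈ F, x.1 < R}
  smul_mem' := fun h F hF x hx => by
    obtain ⟨y, hy, rfl⟩ := Finset.mem_smul_finset.1 hx
    exact hF y hy

instance (R : ℕ) : Finite (Om K R) := by
  refine Set.Finite.subset ((range R).sigma fun r => (univ : Finset (A (NN K r)))).powerset.finite_toSet
    fun F hF => ?_
  simp only [coe_powerset, Set.mem_preimage, Set.mem_powerset_iff]
  intro x hx
  simpa using hF x hx

theorem NN_dvd {r R : ℕ} (h : r ≤ R) : NN K r ∣ NN K R :=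
  Nat.mul_dvd_mul_left _ (pow_dvd_pow 3 (jj_mono K h))

theorem NN_eq (r : ℕ) : NN K r = 27 * 3 ^ jj K r := rfl

attribute [local irreducible] NN jj

theorem wsum (R : ℕ) : ∑ r ∈ range R, (1 / (r + K + 4) ^ 2 : ℝ) ≤ 1 / (K + 3) - 1 / (R + K + 3) := by
  induction R with
  | zero => simp
  | succ R ih =>
    rw [Finset.sum_range_succ]
    have : (1 / (R + K + 4) ^ 2 : ℝ) ≤ 1 / (R + K + 3) - 1 / (R + K + 4) := by
      rw [div_sub_div _ _ (by positivity) (by positivity), div_le_div_iff₀ (by positivity) (by positivity)]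
      nlinarith [show (0 : ℝ) ≤ R + K by positivity]
    push_cast
    rw [show (R + 1 + K + 3 : ℝ) = R + K + 4 by ring]
    linarith

theorem T_avg (R : ℕ) (F : Finset (X K)) :
    ∑ V : A (NN K R), T K R (tr K (fun r => pj (NN K R) (NN K r) V) • F) ≤
      (NN K R) ^ 2 * (2 / (K + 3)) := by
  simp only [T, ind_tr]
  rw [Finset.sum_comm]
  have key : ∀ r ∈ range R, ∀ o l, 3 ^ jj K r ∣ l → 0 < l → ∑ V : A (NN K R),
      |Z o l (fun p => ind K F r (p - pj (NN K R) (NN K r) V))| ≤
      (NN K R) ^ 2 * (1 / (r + K + 4) ^ 2 : ℝ) := by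
    intro r hr o l h1 h2
    have hN : (0 : ℝ) < NN K r := by exact_mod_cast Nat.pos_of_ne_zero (NeZero.ne _)
    have a1 := avg (pj (NN K R) (NN K r)) (by
      rw [pj, dif_pos (NN_dvd K (mem_range.1 hr).le)]
      exact (ZMod.castHom_surjective (NN_dvd K (mem_range.1 hr).le)).prodMap
        (ZMod.castHom_surjective (NN_dvd K (mem_range.1 hr).le)))
      (fun v => |Z o l (fun p => ind K F r (p - v))|)
    have a2 := var (N := NN K r) (jj K r) (NN_eq K r) o l h1 h2 (ind K F r) (fun v => by unfold ind; positivity)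
      (fun v => by unfold ind; split_ifs <;> simp) (1 / (r + K + 4) ^ 2) (by positivity) (by
        have : (9 * (r + K + 4) ^ 4 : ℝ) ≤ NN K r := by exact_mod_cast le_NN K r
        rw [div_pow, mul_div, le_div_iff₀ (by positivity), ← pow_mul, one_pow, mul_one]
        exact this)
    refine le_of_mul_le_mul_left ?_ (show (0 : ℝ) < (NN K r) ^ 2 by positivity)
    refine a1.le.trans ((mul_le_mul_of_nonneg_left a2 (sq_nonneg _)).trans (le_of_eq ?_))
    ring
  refine (Finset.sum_le_sum (g := fun r : ℕ => (NN K R : ℝ) ^ 2 * (2 * (1 / (r + K + 4) ^ 2 : ℝ)))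
    fun r hr => ?_).trans ?_
  · rw [Finset.sum_add_distrib]
    have := key r hr 0 _ (lA_dvd K r) (by unfold lA; positivity)
    have := key r hr (oB K r) _ (lB_dvd K r) (by unfold lB; positivity)
    linarith
  · rw [← Finset.mul_sum, ← Finset.mul_sum]
    refine mul_le_mul_of_nonneg_left ?_ (by positivity)
    have := wsum K R
    have : (0 : ℝ) ≤ 1 / (R + K + 3) := by positivity
    rw [show (2 / (K + 3) : ℝ) = 2 * (1 / (K + 3)) by ring]
    linarith

theorem T_nonneg (R : ℕ) (F : Finset (X K)) : 0 ≤ T K R F :=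
  Finset.sum_nonneg fun _ _ => by positivity

theorem T_le (R R' : ℕ) (F : Finset (X K)) (hF : F ∈ Om K R) : T K R' F ≤ T K R F := by
  rcases le_total R' R with h | h
  · exact Finset.sum_le_sum_of_subset_of_nonneg (range_mono h) fun _ _ _ => by positivity
  · refine (Finset.sum_subset (range_mono h) fun r _ hr => ?_).ge
    have : ind K F r = fun _ => 0 := funext fun p => if_neg fun hp => hr (mem_range.2 (hF _ hp))
    simp [this, Z, bs]

def Bad : Set (Finset (X K)) := {F | ∃ R, 1 / 8 < T K R F}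

open Classical in
noncomputable def W : ℕ → Finset (H K)
  | 0 => {1}
  | i + 1 => W i ∪ (gens K).toFinset * W i

theorem agree (R : ℕ) (F : Finset (X K)) (hF : F ∈ Om K R) (g h : H K) (e : ∀ r < R, g r = h r) :
    g • F = h • F := by
  refine Finset.image_congr fun x hx => ?_
  show (⟨x.1, g x.1 x.2⟩ : X K) = ⟨x.1, h x.1 x.2⟩
  rw [e _ (hF x hx)]

theorem exp5 (k : ℕ) (hk : (5 : ℝ) ≤ (1 + 1 / 2000) ^ k) (hK : 32 * 2 ^ k ≤ K + 3)
    (S : Finset (Finset (X K))) (hS : ↑S ⊆ Bad K) :
    5 * S.card ≤ (S.biUnion fun F => (W K k).image (· • F)).card := by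
  classical
  obtain ⟨R, hR⟩ : ∃ R, ∀ F ∈ S, F ∈ Om K R := ⟨(S.biUnion id).sup (·.1) + 1, fun F hF x hx =>
    Nat.lt_succ_of_le (Finset.le_sup (f := fun x : X K => x.1) (mem_biUnion.2 ⟨F, hF, hx⟩))⟩
  letI := Fintype.ofFinite (Om K R)
  let ψ := MulAction.toPermHom (H K) (Om K R)
  let ρ : A (NN K R) → Equiv.Perm (Om K R) := fun V => ψ (tr K fun r => pj (NN K R) (NN K r) V)
  have hN : (0 : ℝ) < NN K R := by exact_mod_cast Nat.pos_of_ne_zero (NeZero.ne _)
  obtain ⟨S', a1, -, a3⟩ := grow ρ (fun v w => by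
      simp only [ρ, ← map_mul, ← tr_add, map_add]; rfl) (ψ fun _ => L) (ψ fun _ => U)
    (fun v => by
      simp only [ρ, ← map_mul]
      congr 1
      funext r
      ext1 x
      show L (x + pj _ _ v) = L x + pj _ _ (L v)
      rw [pj_L, L_add])
    (fun v => by
      simp only [ρ, ← map_mul]
      congr 1
      funext r
      ext1 x
      show U (x + pj _ _ v) = U x + pj _ _ (U v)
      rw [pj_U, U_add])
    (fun i => {F | ∃ E ∈ S, ∃ h ∈ W K i, F.1 = h • E}) (by
      rintro i F ⟨E, hE, h, hh, e⟩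
      refine ⟨⟨E, hE, h, mem_union_left _ hh, e⟩, fun s hs => ?_⟩
      have : ∃ g ∈ gens K, (s F).1 = g • F.1 := by
        simp only [List.mem_cons, List.not_mem_nil, or_false] at hs
        rcases hs with rfl | rfl | rfl | rfl
        · refine ⟨tr K fun _ => (1, 0), by simp [gens], agree K R _ F.2 _ _ fun r hr => ?_⟩
          simp only [tr, (pj_one (NN_dvd K hr.le)).1]
        · refine ⟨tr K fun _ => (0, 1), by simp [gens], agree K R _ F.2 _ _ fun r hr => ?_⟩
          simp only [tr, (pj_one (NN_dvd K hr.le)).2]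
        · exact ⟨_, by simp [gens], rfl⟩
        · exact ⟨_, by simp [gens], rfl⟩
      obtain ⟨g, b1, b2⟩ := this
      exact ⟨E, hE, g * h, mem_union_right _ (mul_mem_mul (List.mem_toFinset.2 b1) hh),
        by rw [b2, e, mul_smul]⟩)
    (S.subtype (· ∈ Om K R)) (fun F hF => ⟨F.1, by simpa using hF, 1, by simp [W], by simp⟩)
    (16 / (K + 3)) (by positivity) (by
      intro F
      have b1 := T_avg K R F.1
      have b2 : ((univ.filter fun v => ρ v F ∈ S.subtype (· ∈ Om K R)).card : ℝ) * (1 / 8) ≤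
          ∑ V : A (NN K R), T K R (tr K (fun r => pj (NN K R) (NN K r) V) • F.1) := by
        rw [← nsmul_eq_mul, ← Finset.sum_const]
        refine (Finset.sum_le_sum fun V hV => ?_).trans (Finset.sum_le_sum_of_subset_of_nonneg
          (subset_univ _) fun _ _ _ => T_nonneg K _ _)
        obtain ⟨R', h⟩ := hS (Finset.mem_subtype.1 (mem_filter.1 hV).2)
        exact h.le.trans (T_le K R R' _ (ρ V F).2)
      rw [show (16 / (K + 3) : ℝ) = 8 * (2 / (K + 3)) by ring]
      linarith) k (by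
      have : (32 * 2 ^ k : ℝ) ≤ K + 3 := by exact_mod_cast hK
      rw [mul_div, div_le_iff₀ (by positivity)]
      linarith)
  rw [Finset.card_subtype, Finset.filter_true_of_mem hR] at a3
  have a4 : 5 * S.card ≤ S'.card := by
    have := (mul_le_mul_of_nonneg_right hk (Nat.cast_nonneg S.card)).trans a3
    exact_mod_cast this
  refine a4.trans (Finset.card_le_card_of_injOn (·.1) (fun F hF => ?_) Subtype.val_injective.injOn)
  obtain ⟨E, hE, h, hh, e⟩ := a1 hF
  simp only [coe_biUnion, mem_coe, Set.mem_iUnion, mem_image]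
  exact ⟨E, hE, h, hh, e.symm⟩

theorem core (k : ℕ) (hk : (5 : ℝ) ≤ (1 + 1 / 2000) ^ k) (hK : 32 * 2 ^ k ≤ K + 3)
    (τ : Equiv.Perm (X K)) (h1 : ∀ x, τ (τ x) = x) (h2 : ∀ F r, bs 0 (lA K r) (ind K F r) =
      bs (oB K (r + 1)) (lB K (r + 1)) (ind K (τ • F) (r + 1))) (m : Set (Finset (X K)) → ℝ)
    (m0 : ∀ A, 0 ≤ m A) (m1 : m Set.univ = 1) (ma : ∀ A B, Disjoint A B → m (A ∪ B) = m A + m B)
    (ms : ∀ F A, m ((fun E => symmDiff E F) ⁻¹' A) = m A)
    (mi : ∀ h ∈ gens K, ∀ A, m ((fun E => h • E) ⁻¹' A) = m A)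
    (mt : ∀ A, m ((fun E => τ • E) ⁻¹' A) = m A) : False := by
  classical
  have a1 := hall m m0 m1 ma (W K k) (by
    clear hk hK
    induction k with
    | zero => simp [W]
    | succ k ih =>
      intro h hh A
      rcases mem_union.1 hh with h' | h'
      · exact ih h h' A
      · obtain ⟨a, ha, b, hb, rfl⟩ := mem_mul.1 h'
        refine Eq.trans ?_ ((ih b hb _).trans (mi a (List.mem_toFinset.1 ha) A))
        simp only [mul_smul]
        rfl) (Bad K) 5 (exp5 K k hk hK)
  have sub : ∀ A B, m (A ∪ B) ≤ m A + m B := fun A B => by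
    rw [← Set.union_diff_self, ma _ _ Set.disjoint_sdiff_right]
    have := ma _ _ (Set.disjoint_sdiff_inter (s := B) (t := A))
    rw [Set.diff_union_inter] at this
    linarith [m0 (B ∩ A)]
  let σ := fun E : Finset (X K) => symmDiff E (univ.image fun p : A (NN K 0) => ⟨0, p⟩)
  have : Set.univ = (Bad K ∪ (fun E => τ • E) ⁻¹' Bad K) ∪
      σ ⁻¹' (Bad K ∪ (fun E => τ • E) ⁻¹' Bad K) := by
    symm
    rw [Set.eq_univ_iff_forall]
    intro F
    by_contra hc
    simp only [Bad, Set.mem_union, Set.mem_preimage, Set.mem_ofPred_eq, not_or, not_exists,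
      not_lt] at hc
    have b1 := chain K τ h1 h2 F hc.1.1 hc.1.2
    have b2 := chain K τ h1 h2 _ hc.2.1 hc.2.2
    rw [D_compl] at b2
    linarith
  have b1 := sub (Bad K) ((fun E => τ • E) ⁻¹' Bad K)
  have b2 := sub (Bad K ∪ (fun E => τ • E) ⁻¹' Bad K) (σ ⁻¹' (Bad K ∪ (fun E => τ • E) ⁻¹' Bad K))
  rw [← this, m1, ms] at b2
  rw [mt] at b1
  push_cast at a1
  linarith

end Pool.Agent.H69.Ext
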