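import Mathlib

namespace Pool.Agent.H69.Fr

open Matrix MatrixGroups Filter Pointwise

def nz : SubMulAction SL(2, ℤ) (Fin 2 → ℤ) where
  carrier := {v | v ≠ 0}
  smul_mem' c v hv h := hv (by simpa using congrArg (fun w => c⁻¹ • w) h)

def pp (i : ℕ) : SL(2, ℤ) :=
  ⟨!![6 * i, -(6 * i) * (6 * i + 3) - 1; 1, -(6 * i + 3)], by rw [det_fin_two_of]; ring⟩

theorem pp_smul (i : ℕ) (v : nz) : (pp i • v).1 0 - 6 * i * (pp i • v).1 1 = -v.1 1 ∧
    (pp i • v).1 1 = v.1 0 - (6 * i + 3) * v.1 1 := by
  have e : (pp i • v).1 = (pp i).1 *ᵥ v.1 := rfl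
  rw [e]
  simp [pp, mulVec, dotProduct, Fin.sum_univ_two]
  constructor <;> ring

theorem sep {v : nz} {a b : ℤ} (h : 3 ≤ |a - b|) (h1 : |v.1 0 - a * v.1 1| ≤ |v.1 1|)
    (h2 : |v.1 0 - b * v.1 1| ≤ |v.1 1|) : False := by
  have e : |a - b| * |v.1 1| ≤ 2 * |v.1 1| := by
    rw [← abs_mul, show (a - b) * v.1 1 = (v.1 0 - b * v.1 1) - (v.1 0 - a * v.1 1) by ring]
    have := abs_sub (v.1 0 - b * v.1 1) (v.1 0 - a * v.1 1)
    linarith
  have p := abs_nonneg (v.1 1)
  have z : v.1 1 = 0 := abs_eq_zero.1 (by nlinarith)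
  rw [z] at h1
  apply v.2
  ext j
  fin_cases j
  · simpa using h1
  · simpa using z

theorem pp_inj : Function.Injective (FreeGroup.lift pp) := by
  refine FreeGroup.injective_lift_of_ping_pong pp
    (fun i => {v : nz | |v.1 0 - 6 * i * v.1 1| ≤ |v.1 1|})
    (fun i => {v : nz | |v.1 0 - (6 * i + 3) * v.1 1| < |v.1 1|}) (fun i => ?_)
    (fun i j h => ?_) (fun i j h => ?_) (fun i j => ?_) (fun i => ?_) (fun i => ?_)
  · exact ⟨⟨![6 * i, 1], fun h => by simpa using congrFun h 1⟩, by simp⟩
  · exact Set.disjoint_left.2 fun v a b => sep (by rw [le_abs]; omega) a b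
  · exact Set.disjoint_left.2 fun v a b => sep (by rw [le_abs]; omega) (le_of_lt a) (le_of_lt b)
  · exact Set.disjoint_left.2 fun v a b => sep (by rw [le_abs]; omega) a (le_of_lt b)
  · rintro _ ⟨v, hv, rfl⟩
    simp only [Set.mem_compl_iff, Set.mem_ofPred_eq, not_lt] at hv ⊢
    rw [(pp_smul i v).1, (pp_smul i v).2, abs_neg]
    exact hv
  · rintro _ ⟨v, hv, rfl⟩
    simp only [Set.mem_compl_iff, Set.mem_ofPred_eq, not_le, Pi.inv_apply] at hv ⊢
    have := pp_smul i ((pp i)⁻¹ • v)
    rw [smul_inv_smul] at this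
    rw [← this.2, ← abs_neg (((pp i)⁻¹ • v).1 1), ← this.1]
    exact hv

theorem rep (n : ℕ) : ∃ ρ : FreeGroup (Fin n) →* SL(2, ℤ), Function.Injective ρ :=
  ⟨(FreeGroup.lift pp).comp (FreeGroup.map Fin.val),
    pp_inj.comp (FreeGroup.map_injective Fin.val_injective)⟩

theorem hopf {n : ℕ} (σ : FreeGroup (Fin n) →* FreeGroup (Fin n)) (hσ : Function.Surjective σ) :
    Function.Injective σ := by
  rw [injective_iff_map_eq_one]
  intro g hg
  obtain ⟨ρ, hρ⟩ := rep n
  apply hρ
  rw [map_one]
  ext i j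
  set N := ((ρ g) i j - (1 : SL(2, ℤ)) i j).natAbs + 1
  have : Finite (FreeGroup (Fin n) →* SL(2, ZMod N)) :=
    Finite.of_injective (fun ρ (i : Fin n) => ρ (FreeGroup.of i))
      (fun a b h => FreeGroup.ext_hom _ _ (congrFun h))
  obtain ⟨ρ', h⟩ := Finite.injective_iff_surjective.1
    (show Function.Injective (fun ρ : FreeGroup (Fin n) →* SL(2, ZMod N) => ρ.comp σ) from
      fun a b h => (MonoidHom.cancel_right hσ).1 h)
      ((SpecialLinearGroup.map (Int.castRingHom (ZMod N))).comp ρ)
  have e := DFunLike.congr_fun h g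
  simp only [MonoidHom.comp_apply, hg, map_one] at e
  have e2 : (((ρ g) i j : ℤ) : ZMod N) = (((1 : SL(2, ℤ)) i j : ℤ) : ZMod N) := by
    have := congrArg (fun A : SL(2, ZMod N) => A i j) (e.symm.trans
      (map_one (SpecialLinearGroup.map (n := Fin 2) (Int.castRingHom (ZMod N)))).symm)
    exact this
  rw [← sub_eq_zero, ← Int.cast_sub, ZMod.intCast_zmod_eq_zero_iff_dvd] at e2
  have := Int.eq_zero_of_dvd_of_natAbs_lt_natAbs e2 (by rw [Int.natAbs_natCast]; exact Nat.lt_succ_self _)
  omega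

def LF (G : Type*) [Group G] : Prop := ∀ H : Subgroup G, H.FG → IsFreeGroup H

variable {G : Type} [Group G]

theorem LF.basis (h : LF G) {S : Set G} (hS : S.Finite) :
    ∃ (n : ℕ) (ι : FreeGroup (Fin n) →* G), Function.Injective ι ∧ ι.range = Subgroup.closure S := by
  classical
  have hf : (Subgroup.closure S).FG := (Subgroup.fg_iff _).2 ⟨S, rfl, hS⟩
  obtain ⟨α, ⟨b⟩⟩ := (h _ hf).nonempty_basis
  obtain ⟨T, hT⟩ := ((Group.fg_iff_subgroup_fg _).2 hf).out
  have f1 : Finite (α → Multiplicative (ZMod 2)) := by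
    refine Finite.of_injective (fun v (s : T) => FreeGroup.lift v (b.repr s)) (fun v w e => ?_)
    have : (FreeGroup.lift v).comp b.repr.toMonoidHom = (FreeGroup.lift w).comp b.repr.toMonoidHom :=
      MonoidHom.eq_of_eqOn_dense hT (fun s hs => congrFun e ⟨s, hs⟩)
    ext a
    simpa using DFunLike.congr_fun this (b a)
  have f2 : Finite α := by
    refine Finite.of_injective (fun a : α => (Pi.mulSingle a (Multiplicative.ofAdd 1) :
      α → Multiplicative (ZMod 2))) (fun a a' e => ?_)
    by_contra hn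
    have := congrFun e a
    simp only [Pi.mulSingle_eq_same, Pi.mulSingle_eq_of_ne hn] at this
    exact absurd this (by decide)
  obtain ⟨n, ⟨e⟩⟩ := Finite.exists_equiv_fin α
  refine ⟨n, (Subgroup.closure S).subtype.comp (b.reindex e).repr.symm.toMonoidHom,
    Subtype.val_injective.comp (b.reindex e).repr.symm.injective, ?_⟩
  rw [MonoidHom.range_comp, MonoidHom.range_eq_top.2 (b.reindex e).repr.symm.surjective,
    ← MonoidHom.range_eq_map, Subgroup.range_subtype]

def Gen (r : ℕ) (H : Subgroup G) : Prop := ∃ f : Fin r → G, Subgroup.closure (Set.range f) = H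

/-- adjoining one element: either the number of generators does not grow, or everything is free -/
theorem LF.dich (h : LF G) {r : ℕ} (f : Fin r → G) (s : G) :
    Gen r (Subgroup.closure (Set.range f ∪ {s})) ∨
      Function.Injective (FreeGroup.lift (fun o : Option (Fin r) => o.elim s f)) := by
  obtain ⟨n, ι, hι, hr⟩ := h.basis ((Set.finite_range f).union (Set.finite_singleton s))
  rcases le_or_gt n r with l | l
  · left
    refine ⟨fun i => if h : i.1 < n then ι (FreeGroup.of ⟨i.1, h⟩) else 1, le_antisymm ?_ ?_⟩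
    · rw [Subgroup.closure_le, ← hr]
      rintro _ ⟨i, rfl⟩
      dsimp only
      split_ifs
      · exact ⟨_, rfl⟩
      · exact one_mem _
    · rw [← hr, MonoidHom.range_eq_map, ← FreeGroup.closure_range_of, MonoidHom.map_closure]
      apply Subgroup.closure_mono
      rintro _ ⟨_, ⟨i, rfl⟩, rfl⟩
      exact ⟨⟨i.1, by omega⟩, by simp⟩
  right
  set π := FreeGroup.lift (fun o : Option (Fin r) => o.elim s f)
  have hπ : π.range = ι.range := by
    rw [hr, FreeGroup.range_lift_eq_closure, Option.range_eq, Set.union_comm]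
    rfl
  obtain ⟨u, hu⟩ : ∃ u : Fin n → Option (Fin r), Function.Surjective u :=
    Function.exists_surjective_iff.2 ⟨⟨fun _ => none⟩, Function.Embedding.nonempty_of_card_le
      (by simp; omega)⟩
  have hu' : Function.Surjective (FreeGroup.map u) := FreeGroup.map_surjective hu
  have : ∀ i, ∃ w, ι w = π (FreeGroup.of (u i)) := fun i => by
    have : π (FreeGroup.of (u i)) ∈ ι.range := hπ ▸ ⟨_, rfl⟩
    exact this
  choose w hw using this
  have e : ι.comp (FreeGroup.lift w) = π.comp (FreeGroup.map u) :=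
    FreeGroup.ext_hom _ _ (fun i => by simp [hw])
  have hs : Function.Surjective (FreeGroup.lift w) := by
    intro x
    obtain ⟨y, hy⟩ : ι x ∈ π.range := hπ ▸ ⟨_, rfl⟩
    obtain ⟨z, rfl⟩ := hu' y
    exact ⟨z, hι ((DFunLike.congr_fun e z).trans hy)⟩
  rw [injective_iff_map_eq_one]
  intro y hy
  obtain ⟨z, rfl⟩ := hu' y
  have : z = 1 := (injective_iff_map_eq_one _).1 (hopf _ hs) z
    (hι ((DFunLike.congr_fun e z).trans (hy.trans (map_one ι).symm)))
  rw [this, map_one]

theorem LF.lin (h : LF G) : ∃ (K : Type) (_ : Field K) (_ : CharZero K)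
    (e : G →* Matrix (Fin 2) (Fin 2) K), Function.Injective e := by
  classical
  have : ∀ i : Finset G, ∃ ρ : Subgroup.closure (i : Set G) →* SL(2, ℤ), Function.Injective ρ := by
    intro i
    obtain ⟨n, ι, hι, hr⟩ := h.basis i.finite_toSet
    obtain ⟨ρ, hρ⟩ := rep n
    let e := (MonoidHom.ofInjective hι).trans (MulEquiv.subgroupCongr hr)
    exact ⟨ρ.comp e.symm.toMonoidHom, hρ.comp e.symm.injective⟩
  choose ρ hρ using this
  let U : Ultrafilter (Finset G) := Ultrafilter.of atTop
  have ev : ∀ x : G, ∀ᶠ i : Finset G in U, x ∈ Subgroup.closure (i : Set G) := fun x =>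
    Ultrafilter.of_le _ ((eventually_ge_atTop {x}).mono fun i hi =>
      Subgroup.subset_closure (hi (Finset.mem_singleton_self x)))
  let E : G → Fin 2 → Fin 2 → Finset G → ℚ := fun x j k i =>
    if h : x ∈ Subgroup.closure (i : Set G) then (ρ i ⟨x, h⟩ j k : ℤ) else 0
  have cz : CharZero (Germ (U : Filter (Finset G)) ℚ) :=
    charZero_of_injective_ringHom (f := (Germ.coeRingHom _).comp (Pi.constRingHom _ ℚ))
      (RingHom.injective _)
  refine ⟨Germ (U : Filter (Finset G)) ℚ, inferInstance, cz,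
    ⟨⟨fun x => Matrix.of fun j k => (E x j k : Germ _ ℚ), ?_⟩, fun x y => ?_⟩, fun x y hxy => ?_⟩
  · ext j k
    have : (E 1 j k) = fun _ => (1 : Matrix (Fin 2) (Fin 2) ℚ) j k := by
      ext i
      simp only [E, dif_pos (one_mem _)]
      rw [show (⟨1, one_mem _⟩ : Subgroup.closure (i : Set G)) = 1 from rfl, map_one]
      fin_cases j <;> fin_cases k <;> simp
    rw [of_apply, this]
    fin_cases j <;> fin_cases k <;> simp <;> rfl
  · ext j k
    simp only [of_apply, mul_apply, Fin.sum_univ_two]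
    rw [← Germ.coe_mul, ← Germ.coe_mul, ← Germ.coe_add, Germ.coe_eq]
    filter_upwards [ev x, ev y] with i a b
    simp only [E, dif_pos a, dif_pos b, dif_pos (mul_mem a b), Pi.add_apply, Pi.mul_apply]
    rw [show (⟨x * y, mul_mem a b⟩ : Subgroup.closure (i : Set G)) = ⟨x, a⟩ * ⟨y, b⟩ from rfl,
      map_mul]
    simp [mul_apply, Fin.sum_univ_two]
  · have : ∀ j k, ∀ᶠ i : Finset G in U, E x j k i = E y j k i := fun j k =>
      Germ.coe_eq.1 (congrFun (congrFun hxy j) k)
    obtain ⟨i, a, b, c⟩ := ((ev x).and ((ev y).and (eventually_all.2 fun j =>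
      eventually_all.2 (this j)))).exists
    have : (⟨x, a⟩ : Subgroup.closure (i : Set G)) = ⟨y, b⟩ := hρ i (by
      ext j k
      have := c j k
      simp only [E, dif_pos a, dif_pos b] at this
      exact_mod_cast this)
    exact congrArg Subtype.val this

theorem LF.countable (h : LF G) (r : ℕ) (D : Set G)
    (hD : ∀ T : Set G, T.Finite → T ⊆ D → ∃ E : Subgroup G, Gen r E ∧ T ⊆ E) : D.Countable := by
  classical
  obtain ⟨K, _, _, e, he⟩ := h.lin
  let M := AlgebraicIndependent.matroid ℚ K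
  let S : Set K := {a | ∃ x ∈ D, ∃ j k, a = e x j k}
  obtain ⟨B, hB⟩ := M.exists_isBasis S
  have hf : B.Finite := by
    by_contra hn
    obtain ⟨B0, h0, hc⟩ := Set.Infinite.exists_subset_card_eq hn (8 * r + 1)
    have : ∀ a : B0, ∃ x ∈ D, ∃ j k, a.1 = e x j k := fun a => hB.subset (h0 a.2)
    choose x hx j k ha using this
    obtain ⟨_, ⟨f, rfl⟩, hT⟩ := hD _ (Set.finite_range x) (by rintro _ ⟨a, rfl⟩; exact hx a)
    let w : Fin r × Bool × Fin 2 × Fin 2 → K := fun p =>
      e (cond p.2.1 (f p.1) (f p.1)⁻¹) p.2.2.1 p.2.2.2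
    have key : ∀ y ∈ Subgroup.closure (Set.range f), ∀ j k,
        e y j k ∈ Algebra.adjoin ℚ (Set.range w) := by
      intro y hy
      induction hy using Subgroup.closure_induction'' with
      | mem y hy =>
        obtain ⟨i, rfl⟩ := hy
        exact fun j k => Algebra.subset_adjoin ⟨(i, true, j, k), rfl⟩
      | inv_mem y hy =>
        obtain ⟨i, rfl⟩ := hy
        exact fun j k => Algebra.subset_adjoin ⟨(i, false, j, k), rfl⟩
      | one =>
        intro j k
        rw [map_one, one_apply]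
        split_ifs
        · exact one_mem _
        · exact zero_mem _
      | mul y z _ _ a b =>
        intro j k
        rw [map_mul, mul_apply]
        exact sum_mem fun l _ => mul_mem (a _ _) (b _ _)
    have s1 : (B0 : Set K) ⊆ M.closure (Set.range w) := by
      intro a ha'
      rw [AlgebraicIndependent.matroid_closure_eq]
      have := key _ (hT ⟨⟨a, ha'⟩, rfl⟩) (j ⟨a, ha'⟩) (k ⟨a, ha'⟩)
      rw [← ha] at this
      exact isAlgebraic_algebraMap (⟨a, this⟩ : Algebra.adjoin ℚ (Set.range w))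
    have s2 := (hB.indep.subset h0).encard_le_eRk_of_subset s1
    rw [Matroid.eRk_closure_eq] at s2
    have s3 := s2.trans (M.eRk_le_encard _)
    rw [Set.encard_coe_eq_coe_finsetCard, hc, ← Set.image_univ] at s3
    have s4 := s3.trans (Set.encard_image_le _ _)
    rw [Set.encard_univ, ENat.card_eq_coe_fintype_card] at s4
    simp only [Fintype.card_prod, Fintype.card_fin, Fintype.card_bool, Nat.cast_le] at s4
    omega
  have c1 : Countable (Algebra.adjoin ℚ B) := by
    rw [← Cardinal.mk_le_aleph0_iff]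
    refine (Algebra.cardinalMk_adjoin_le ℚ B).trans ?_
    simp [hf.countable.le_aleph0]
  have c2 : S.Countable := (Algebraic.countable (Algebra.adjoin ℚ B) K).mono
    fun a ha => (AlgebraicIndependent.matroid_isBasis_iff.1 hB).2.2 a ha
  have := c2.to_subtype
  exact Set.countable_coe_iff.1 (Function.Injective.countable
    (f := fun (x : D) (j k : Fin 2) => (⟨e x j k, x, x.2, j, k, rfl⟩ : S))
    (fun x y hxy => Subtype.ext (he (by
      ext j k
      exact congrArg Subtype.val (congrFun (congrFun hxy j) k)))))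

end Pool.Agent.H69.Fr
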