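import Mathlib
import Pool.Agent.H69.FreeTree

namespace Pool.Agent.H69.Fr

open Pool.Agent.H69.FreeTree

/-- commensurator of the cyclic subgroup generated by `g` -/
def Es {G : Type*} [Group G] (g : G) : Subgroup G where
  carrier := {c | ∃ p q : ℤ, p ≠ 0 ∧ q ≠ 0 ∧ c * g ^ p * c⁻¹ = g ^ q}
  one_mem' := ⟨1, 1, one_ne_zero, one_ne_zero, by simp⟩
  mul_mem' := by
    rintro c c' ⟨p, q, hp, hq, h⟩ ⟨p', q', hp', hq', h'⟩
    refine ⟨p' * p, q * q', mul_ne_zero hp' hp, mul_ne_zero hq hq', ?_⟩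
    have e1 : c' * g ^ (p' * p) * c'⁻¹ = g ^ (p * q') := by
      rw [zpow_mul, ← conj_zpow, h', ← zpow_mul, mul_comm]
    have e2 : c * g ^ (p * q') * c⁻¹ = g ^ (q * q') := by
      rw [zpow_mul, ← conj_zpow, h, ← zpow_mul]
    rw [← e2, ← e1]
    group
  inv_mem' := by
    rintro c ⟨p, q, hp, hq, h⟩
    exact ⟨q, p, hq, hp, by rw [← h]; group⟩

theorem zpow_mem_Es {G : Type*} [Group G] (g : G) (n : ℤ) : g ^ n ∈ Es g :=
  ⟨1, 1, one_ne_zero, one_ne_zero, by group⟩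

variable {α : Type*} [DecidableEq α]

theorem exists_cr (g : FreeGroup α) :
    ∃ c : FreeGroup α, ∀ n : ℕ, nm ((c * g * c⁻¹) ^ n) = n * nm (c * g * c⁻¹) := by
  have h := FreeGroup.reduceCyclically.isCyclicallyReduced (FreeGroup.isReduced_toWord (x := g))
  have e := congrArg FreeGroup.mk (FreeGroup.reduceCyclically.conj_conjugator_reduceCyclically
    g.toWord)
  rw [← FreeGroup.mul_mk, ← FreeGroup.mul_mk, ← FreeGroup.inv_mk, FreeGroup.mk_toWord] at e
  refine ⟨(FreeGroup.mk (FreeGroup.reduceCyclically.conjugator g.toWord))⁻¹, fun n => ?_⟩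
  have e2 : (FreeGroup.mk (FreeGroup.reduceCyclically.conjugator g.toWord))⁻¹ * g *
      (FreeGroup.mk (FreeGroup.reduceCyclically.conjugator g.toWord))⁻¹⁻¹ =
      FreeGroup.mk (FreeGroup.reduceCyclically g.toWord) := by
    nth_rewrite 2 [← e]
    group
  rw [e2]
  unfold nm FreeGroup.norm
  rw [FreeGroup.toWord_pow, FreeGroup.toWord_mk, h.isReduced.reduce_eq,
    (h.flatten_replicate n).isReduced.reduce_eq]
  simp

def CR (g : FreeGroup α) : Prop := g ≠ 1 ∧ ∀ n : ℕ, nm (g ^ n) = n * nm g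

def U (g : FreeGroup α) (k : ℕ) (z : FreeGroup α) : Prop :=
  ∃ e : ℤ, (e = 1 ∨ e = -1) ∧ On (g ^ (e * k)) z

variable {g : FreeGroup α}

theorem CR.pos (hg : CR g) : 0 < nm g := Nat.pos_of_ne_zero (fun h => hg.1 (nm_eq_zero.1 h))

theorem CR.nmz (hg : CR g) (n : ℤ) : nm (g ^ n) = n.natAbs * nm g := by
  obtain ⟨m, rfl | rfl⟩ := Int.eq_nat_or_neg n
  · rw [zpow_natCast, hg.2]; simp
  · rw [zpow_neg, nm_inv, zpow_natCast, hg.2]; simp

theorem CR.onz (hg : CR g) {a b : ℤ} (h : a.natAbs + (b - a).natAbs = b.natAbs) :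
    On (g ^ a) (g ^ b) := by
  unfold On
  rw [show (g ^ a)⁻¹ * g ^ b = g ^ (b - a) by group, hg.nmz, hg.nmz, hg.nmz, ← h, add_mul]

theorem CR.inj (hg : CR g) {a b : ℤ} (h : g ^ a = g ^ b) : a = b := by
  have e : nm (g ^ (a - b)) = 0 := by rw [nm_eq_zero, zpow_sub, h]; simp
  rw [hg.nmz] at e
  have := hg.pos
  rcases Nat.mul_eq_zero.1 e with h | h <;> omega

theorem CR.down (hg : CR g) {e : ℤ} (he : e = 1 ∨ e = -1) {j k : ℕ} (h : j ≤ k) {z : FreeGroup α}
    (hz : On (g ^ (e * k)) z) : On (g ^ (e * j)) z :=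
  (hg.onz (by rcases he with rfl | rfl <;> omega)).trans hz

theorem CR.push (hg : CR g) {a b : ℤ} (h : b.natAbs + a.natAbs = (b + a).natAbs) {z : FreeGroup α}
    (hz : ¬ On (g ^ (-a)) z) : On (g ^ b) (g ^ (b + a) * z) := by
  have e : On (g ^ (-a)) (g ^ (-(b + a))) := hg.onz (by omega)
  rw [show g ^ (-(b + a)) = z * (g ^ (b + a) * z)⁻¹ by group] at e
  have := (split z e).resolve_left hz
  unfold On at *
  rw [show (z⁻¹ * g ^ (-a))⁻¹ * (g ^ (b + a) * z)⁻¹ = (g ^ b)⁻¹ by group,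
    show z⁻¹ * g ^ (-a) = ((g ^ b)⁻¹ * (g ^ (b + a) * z))⁻¹ by group, nm_inv, nm_inv, nm_inv] at this
  omega

theorem CR.short (hg : CR g) {a : ℤ} {z : FreeGroup α} (h : nm z < a.natAbs) : ¬ On (g ^ a) z := by
  intro hz
  unfold On at hz
  rw [hg.nmz] at hz
  have := Nat.le_mul_of_pos_right a.natAbs hg.pos
  omega

theorem CR.deep (hg : CR g) {k : ℕ} {n : ℤ} {x : FreeGroup α} (h : k + nm x + 1 ≤ n.natAbs) :
    U g k (g ^ n * x) := by
  rcases le_total 0 n with hn | hn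
  · refine ⟨1, Or.inl rfl, ?_⟩
    have := hg.push (a := n - k) (b := 1 * k) (z := x) (by omega) (hg.short (by omega))
    rwa [show 1 * (k : ℤ) + (n - k) = n by ring] at this
  · refine ⟨-1, Or.inr rfl, ?_⟩
    have := hg.push (a := n + k) (b := -1 * k) (z := x) (by omega) (hg.short (by omega))
    rwa [show -1 * (k : ℤ) + (n + k) = n by ring] at this

theorem qc {A : Set (FreeGroup α)} (hA : A.Finite) : ∃ B : Set (FreeGroup α), B.Finite ∧
    ∀ m ∈ Subgroup.closure A, ∀ p, On p m → ∃ b ∈ B, p * b⁻¹ ∈ Subgroup.closure A := by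
  refine ⟨{1} ∪ ⋃ a ∈ A, ({p | On p a} ∪ {p | On p a⁻¹}), (Set.finite_singleton _).union
    (hA.biUnion fun a _ => (on_finite a).union (on_finite _)), fun m hm => ?_⟩
  induction hm using Subgroup.closure_induction_left with
  | one =>
    intro p hp
    unfold On at hp
    have : nm p = 0 := by
      have : nm (1 : FreeGroup α) = 0 := nm_eq_zero.2 rfl
      omega
    exact ⟨1, Or.inl rfl, by rw [nm_eq_zero.1 this]; simp⟩
  | mul_left x hx y hy ih =>
    intro p hp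
    rcases split x hp with h | h
    · exact ⟨p, Or.inr (Set.mem_biUnion hx (Or.inl h)), by simp⟩
    · obtain ⟨b, hb, h⟩ := ih _ h
      refine ⟨b, hb, ?_⟩
      have := mul_mem (Subgroup.subset_closure hx) h
      rwa [show x * (x⁻¹ * p * b⁻¹) = p * b⁻¹ by group] at this
  | inv_mul_cancel x hx y hy ih =>
    intro p hp
    rcases split x⁻¹ hp with h | h
    · exact ⟨p, Or.inr (Set.mem_biUnion hx (Or.inr h)), by simp⟩
    · obtain ⟨b, hb, h⟩ := ih _ h
      refine ⟨b, hb, ?_⟩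
      have := mul_mem (inv_mem (Subgroup.subset_closure hx)) h
      rwa [show x⁻¹ * (x⁻¹⁻¹ * p * b⁻¹) = p * b⁻¹ by group] at this

theorem CR.k0 (hg : CR g) {A : Set (FreeGroup α)} (hA : A.Finite)
    (hM : ∀ m ∈ Subgroup.closure A, m ∈ Es g → m = 1) :
    ∃ k : ℕ, ∀ m ∈ Subgroup.closure A, ¬ U g k m := by
  obtain ⟨B, hB, h⟩ := qc hA
  let J : Set ℤ := {j | ∃ b ∈ B, g ^ j * b⁻¹ ∈ Subgroup.closure A}
  have hJ : J.Finite := by
    by_contra hn
    have : ∀ j : J, ∃ b ∈ B, g ^ (j : ℤ) * b⁻¹ ∈ Subgroup.closure A := fun j => j.2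
    choose f h1 h2 using this
    have : Infinite J := Set.Infinite.to_subtype hn
    have := hB.to_subtype
    obtain ⟨i, j, hij, e⟩ := Finite.exists_ne_map_eq_of_infinite (fun j : J => (⟨f j, h1 j⟩ : B))
    have e' : f i = f j := congrArg Subtype.val e
    have := mul_mem (h2 i) (inv_mem (h2 j))
    rw [e', show g ^ (i : ℤ) * (f j)⁻¹ * (g ^ (j : ℤ) * (f j)⁻¹)⁻¹ = g ^ ((i : ℤ) - j) by group] at this
    have := hM _ this (zpow_mem_Es _ _)
    rw [← zpow_zero g] at this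
    exact hij (Subtype.ext (by have := hg.inj this; omega))
  obtain ⟨k, hk⟩ := (hJ.image Int.natAbs).bddAbove
  refine ⟨k + 1, ?_⟩
  rintro m hm ⟨e, he, ho⟩
  have := hk ⟨_, h m hm _ ho, rfl⟩
  rcases he with rfl | rfl <;> omega

theorem CR.nc [Finite α] (hg : CR g) (R : ℕ) :
    ∃ k : ℕ, ∀ c, nm c ≤ R → c ∉ Es g → ∀ z, U g k z → ¬ U g k (c * z) := by
  classical
  have hB := ball_finite (α := α) R
  refine ⟨R + hB.toFinset.card + 1, ?_⟩
  rintro c hc hE z ⟨e, he, h⟩ ⟨e', he', h'⟩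
  obtain ⟨i, hi, j, hj, hij, hf⟩ := Finset.exists_ne_map_eq_of_card_lt_of_maps_to
    (s := Finset.Ioc R (R + hB.toFinset.card + 1)) (t := hB.toFinset) (by simp; omega)
    (f := fun j : ℕ => (g ^ (e * j))⁻¹ * (c⁻¹ * g ^ (e' * j))) (by
      intro j hj
      simp only [Finset.coe_Ioc, Set.mem_Ioc] at hj
      have a := hg.down he hj.2 h
      have b := (split c (hg.down he' hj.2 h')).resolve_left
        (hg.short (by rcases he' with rfl | rfl <;> omega))
      have n1 : nm (g ^ (e * j)) = nm (g ^ (e' * j)) := by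
        rw [hg.nmz, hg.nmz]
        congr 1
        rcases he with rfl | rfl <;> rcases he' with rfl | rfl <;> omega
      have n2 := nm_mul_le c⁻¹ (g ^ (e' * j))
      have n3 := tri c (g ^ (e' * j))
      rw [nm_inv] at n2
      simp only [Set.Finite.coe_toFinset, Set.mem_ofPred_eq]
      rcases le_total (nm (g ^ (e * j))) (nm (c⁻¹ * g ^ (e' * j))) with l | l
      · have := a.comp b l
        unfold On at this
        omega
      · have := b.comp a l
        unfold On at this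
        rw [← nm_inv, mul_inv_rev, inv_inv]
        omega)
  apply hE
  have hne : (i : ℤ) - j ≠ 0 := by omega
  refine ⟨e * (i - j), e' * (i - j), mul_ne_zero (by omega) hne, mul_ne_zero (by omega) hne, ?_⟩
  calc c * g ^ (e * (i - j)) * c⁻¹
      = c * g ^ (e * i) * ((g ^ (e * j))⁻¹ * (c⁻¹ * g ^ (e' * j))) * (g ^ (e' * j))⁻¹ := by group
    _ = g ^ (e' * (i - j)) := by rw [← hf]; group

theorem CR.um [Finite α] (hg : CR g) {A : Set (FreeGroup α)} (hA : A.Finite)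
    (hM : ∀ m ∈ Subgroup.closure A, m ∈ Es g → m = 1) (t : FreeGroup α) :
    ∃ k : ℕ, 0 < k ∧ ∀ c, (c ∈ Subgroup.closure A ∨ c = t ∨ c = t⁻¹) → c ∉ Es g →
      ∀ z, U g k z → ¬ U g k (c * z) := by
  obtain ⟨k0, h0⟩ := hg.k0 hA hM
  obtain ⟨k1, h1⟩ := hg.nc (2 * (k0 * nm g) + nm t)
  refine ⟨k0 + k1 + 1, by omega, ?_⟩
  rintro c hc hE z ⟨e, he, h⟩ ⟨e', he', h'⟩
  refine h1 c ?_ hE z ⟨e, he, hg.down he (by omega) h⟩ ⟨e', he', hg.down he' (by omega) h'⟩
  rcases hc with hc | rfl | rfl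
  · have a := hg.down he (show k0 ≤ _ by omega) h
    have b := (split c (hg.down he' (show k0 ≤ _ by omega) h')).resolve_left
      (fun o => h0 c hc ⟨e', he', o⟩)
    have n1 : nm (g ^ (e * k0)) = k0 * nm g := by
      rw [hg.nmz]; congr 1; rcases he with rfl | rfl <;> omega
    have n2 : nm (g ^ (e' * k0)) = k0 * nm g := by
      rw [hg.nmz]; congr 1; rcases he' with rfl | rfl <;> omega
    rcases le_total (nm (g ^ (e * k0))) (nm (c⁻¹ * g ^ (e' * k0))) with l | l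
    · have := (split c⁻¹ (a.comp b l)).resolve_left (fun o => h0 _ (inv_mem hc) ⟨e, he, o⟩)
      unfold On at this
      have n3 := nm_mul_le (c⁻¹⁻¹ * g ^ (e * k0)) (g ^ (e * k0))⁻¹
      rw [show c⁻¹⁻¹ * g ^ (e * k0) * (g ^ (e * k0))⁻¹ = c by group, nm_inv] at n3
      omega
    · have n3 := nm_mul_le (c⁻¹ * g ^ (e' * k0)) (g ^ (e' * k0))⁻¹
      rw [show c⁻¹ * g ^ (e' * k0) * (g ^ (e' * k0))⁻¹ = c⁻¹ by group, nm_inv, nm_inv] at n3
      omega
  · omega
  · rw [nm_inv]; omega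

inductive T {F : Type*} [Group F] (M : Subgroup F) (y : F) : F → ℤ → Prop
  | base (m : F) (e : ℤ) : m ∈ M → (e = 1 ∨ e = -1) → T M y (y ^ e * m) e
  | same (x : F) (e : ℤ) : T M y x e → T M y (y ^ e * x) e
  | mid (x m : F) (e e' : ℤ) : m ∈ M → m ≠ 1 → (e = 1 ∨ e = -1) → T M y x e' →
      T M y (y ^ e * (m * x)) e

theorem T.sign {F : Type*} [Group F] {M : Subgroup F} {y x : F} {e : ℤ} (h : T M y x e) :
    e = 1 ∨ e = -1 := by
  induction h <;> assumption

theorem good {F : Type*} [Group F] (A : Set F) (y : F) {x : F}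
    (hx : x ∈ Subgroup.closure (A ∪ {y})) : x ∈ Subgroup.closure A ∨
      ∃ m ∈ Subgroup.closure A, ∃ x' e, T (Subgroup.closure A) y x' e ∧ x = m * x' := by
  set M := Subgroup.closure A
  have h1 : ∀ a ∈ M, ∀ x, (x ∈ M ∨ ∃ m ∈ M, ∃ x' e, T M y x' e ∧ x = m * x') →
      (a * x ∈ M ∨ ∃ m ∈ M, ∃ x' e, T M y x' e ∧ a * x = m * x') := by
    rintro a ha x (h | ⟨m, hm, x', e, h, rfl⟩)
    · exact Or.inl (mul_mem ha h)
    · exact Or.inr ⟨a * m, mul_mem ha hm, x', e, h, by group⟩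
  have h2 : ∀ e : ℤ, (e = 1 ∨ e = -1) → ∀ x, (x ∈ M ∨ ∃ m ∈ M, ∃ x' e, T M y x' e ∧ x = m * x') →
      (y ^ e * x ∈ M ∨ ∃ m ∈ M, ∃ x' e', T M y x' e' ∧ y ^ e * x = m * x') := by
    rintro e he x (h | ⟨m, hm, x', e', h, rfl⟩)
    · exact Or.inr ⟨1, one_mem _, _, e, .base x e h he, by simp⟩
    by_cases hm1 : m = 1
    · subst hm1
      by_cases hee : e' = e
      · subst hee
        exact Or.inr ⟨1, one_mem _, _, e', .same _ _ h, by simp⟩
      have hs : e' = -e := by have := h.sign; omega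
      cases h with
      | base m _ hm _ => left; rw [hs]; simpa using hm
      | same x _ h => exact Or.inr ⟨1, one_mem _, x, e', h, by rw [hs]; group⟩
      | mid x m _ e'' hm _ _ h => exact Or.inr ⟨m, hm, x, e'', h, by rw [hs]; group⟩
    · exact Or.inr ⟨1, one_mem _, _, e, .mid x' m e e' hm hm1 he h, by simp⟩
  induction hx using Subgroup.closure_induction_left with
  | one => exact Or.inl (one_mem _)
  | mul_left a ha x _ ih =>
    rcases ha with ha | rfl
    · exact h1 a (Subgroup.subset_closure ha) x ih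
    · simpa using h2 1 (Or.inl rfl) x ih
  | inv_mul_cancel a ha x _ ih =>
    rcases ha with ha | rfl
    · exact h1 _ (inv_mem (Subgroup.subset_closure ha)) x ih
    · simpa using h2 (-1) (Or.inr rfl) x ih

theorem CR.step [Finite α] (hg : CR g) {A : Set (FreeGroup α)} (hA : A.Finite)
    (hM : ∀ m ∈ Subgroup.closure A, m ∈ Es g → m = 1) {t : FreeGroup α} (ht : t ∉ Es g) :
    ∃ n : ℤ, ∀ x ∈ Subgroup.closure (A ∪ {g ^ n * t * g ^ n}), x ∈ Es g → x = 1 := by
  obtain ⟨k, hk, h⟩ := hg.um hA hM t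
  refine ⟨2 * k, fun x hx hE => ?_⟩
  set y := g ^ (2 * (k : ℤ)) * t * g ^ (2 * (k : ℤ)) with hy
  have hm : ∀ m ∈ Subgroup.closure A, m ≠ 1 → ∀ z, U g k z → ¬ U g k (m * z) :=
    fun m a b => h m (Or.inl a) (fun c => b (hM m a c))
  have v1 : ∀ e : ℤ, (e = 1 ∨ e = -1) → ∀ z, ¬ On (g ^ (-(e * k))) z →
      On (g ^ (e * k)) (g ^ (2 * (e * k)) * z) := by
    intro e _ z hz
    have := hg.push (a := e * k) (b := e * k) (by omega) hz
    rwa [← two_mul] at this
  have v2 : ∀ e : ℤ, (e = 1 ∨ e = -1) → ∀ z, ¬ U g k (g ^ (-(2 * (e * k))) * z) →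
      On (g ^ (e * k)) z := by
    intro e he z hz
    have := v1 e he _ (fun o => hz ⟨-e, by omega, by rwa [neg_mul]⟩)
    rwa [show g ^ (2 * (e * k)) * (g ^ (-(2 * (e * k))) * z) = z by group] at this
  have v3 : ∀ e : ℤ, (e = 1 ∨ e = -1) → ∀ z, U g k (g ^ (2 * (e * k)) * z) →
      ¬ U g k (g ^ (-(2 * (e * k))) * (y ^ e * z)) := by
    rintro e (rfl | rfl) z hz
    · have := h t (Or.inr (Or.inl rfl)) ht _ hz
      rwa [show g ^ (-(2 * (1 * (k : ℤ)))) * (y ^ (1 : ℤ) * z) = t * (g ^ (2 * (1 * (k : ℤ))) * z) by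
        rw [hy]; group]
    · have := h t⁻¹ (Or.inr (Or.inr rfl)) (fun c => ht (by simpa using inv_mem c)) _ hz
      rwa [show g ^ (-(2 * (-1 * (k : ℤ)))) * (y ^ (-1 : ℤ) * z) =
        t⁻¹ * (g ^ (2 * (-1 * (k : ℤ))) * z) by rw [hy]; group]
  have v4 : ∀ e : ℤ, (e = 1 ∨ e = -1) → ∀ z, ¬ U g k z → U g k (g ^ (2 * (e * k)) * z) :=
    fun e he z hz => ⟨e, he, v1 e he z (fun o => hz ⟨-e, by omega, by rwa [neg_mul]⟩)⟩
  have main : ∀ n : ℤ, 3 * k + 1 ≤ n.natAbs → ∀ x' e, T (Subgroup.closure A) y x' e →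
      ¬ U g k (g ^ (-(2 * (e * k))) * (x' * g ^ n)) := by
    intro n hn x' e hT
    have n1 : nm (1 : FreeGroup α) = 0 := nm_eq_zero.2 rfl
    induction hT with
    | base m e a he =>
      rw [mul_assoc]
      refine v3 e he _ ?_
      by_cases b : m = 1
      · subst b
        have := hg.deep (k := k) (n := 2 * (e * k) + n) (x := 1)
          (by rcases he with rfl | rfl <;> omega)
        rwa [mul_one, zpow_add, ← one_mul (g ^ n)] at this
      · refine v4 e he _ (hm m a b _ ?_)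
        simpa using hg.deep (k := k) (n := n) (x := 1) (by omega)
    | same x e a ih =>
      rw [mul_assoc]
      have he := a.sign
      refine v3 e he _ ⟨e, he, v1 e he _ (fun o => ?_)⟩
      have := hg.inj ((v2 e he _ ih).eq o (by rw [hg.nmz, hg.nmz]; simp))
      rcases he with rfl | rfl <;> omega
    | mid x m e e' a b he c ih =>
      rw [mul_assoc, mul_assoc]
      exact v3 e he _ (v4 e he _ (hm m a b _ ⟨e', c.sign, v2 e' c.sign _ ih⟩))
  rcases good A y hx with a | ⟨m, a, x', e, hT, rfl⟩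
  · exact hM x a hE
  exfalso
  obtain ⟨p, q, hp, hq, hpq⟩ := hE
  set N : ℕ := 3 * k + nm (m * x') + 1
  have e1 : m * x' * g ^ (p * N) = g ^ (q * N) * (m * x') := by
    rw [zpow_mul, zpow_mul, ← hpq, conj_zpow]
    group
  have l1 : N ≤ (p * N).natAbs := by
    rw [Int.natAbs_mul, Int.natAbs_natCast]
    exact Nat.le_mul_of_pos_left _ (by omega)
  have l2 : N ≤ (q * N).natAbs := by
    rw [Int.natAbs_mul, Int.natAbs_natCast]
    exact Nat.le_mul_of_pos_left _ (by omega)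
  have he := hT.sign
  have b := main (p * N) (by omega) x' e hT
  by_cases c : m = 1
  · subst c
    rw [one_mul] at e1
    rw [e1, ← mul_assoc, ← zpow_add] at b
    have : nm (1 * x') = nm x' := by rw [one_mul]
    exact b (hg.deep (by rcases he with rfl | rfl <;> omega))
  · refine hm m a c _ ⟨e, he, v2 e he _ b⟩ ?_
    rw [← mul_assoc, e1]
    exact hg.deep (by omega)

end Pool.Agent.H69.Fr
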