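import Mathlib
import Pool.Agent.H69.Fr1
import Pool.Agent.H69.Fr2

namespace Pool.Agent.H69.Fr

open Cardinal Subgroup

variable {G : Type} [Group G]

theorem recur [Infinite G] (Z T : Set G) (g : G) (h1 : (1 : G) ∉ Z)
    (step : ∀ A : Set G, #A < #G → (∀ x ∈ closure A, x ∉ Z) → ∀ t ∈ T, ∃ a b,
      (∀ x ∈ closure (A ∪ {a, b}), x ∉ Z) ∧ t ∈ closure (A ∪ {a, b} ∪ {g})) :
    ∃ M : Subgroup G, (∀ x ∈ M, x ∉ Z) ∧ T ⊆ (closure ((M : Set G) ∪ {g}) : Subgroup G) := by
  obtain ⟨_, wf, ho⟩ := exists_ord_eq_type_lt G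
  have : ∀ (t : G) (A : Set G), ∃ p : G × G, #A < #G → (∀ x ∈ closure A, x ∉ Z) →
      (∀ x ∈ closure (A ∪ {p.1, p.2}), x ∉ Z) ∧ (t ∈ T → t ∈ closure (A ∪ {p.1, p.2} ∪ {g})) := by
    intro t A
    by_cases h : #A < #G ∧ (∀ x ∈ closure A, x ∉ Z) ∧ t ∈ T
    · obtain ⟨a, b, h⟩ := step A h.1 h.2.1 t h.2.2
      exact ⟨(a, b), fun _ _ => ⟨h.1, fun _ => h.2⟩⟩
    · refine ⟨(1, 1), fun a b => ⟨?_, fun c => (h ⟨a, b, c⟩).elim⟩⟩
      simpa [Subgroup.closure_union] using b
  choose c hc using this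
  let F : G → G × G := wf.wf.fix fun w r => c w {x | ∃ v, ∃ h : v < w, x = (r v h).1 ∨ x = (r v h).2}
  let A : Set G → Set G := fun I => {x | ∃ v, ∃ _ : v ∈ I, x = (F v).1 ∨ x = (F v).2}
  have hF : ∀ w, F w = c w (A (Set.Iio w)) := fun w => wf.wf.fix_eq _ w
  have card : ∀ w, #(A (Set.Iio w)) < #G := by
    intro w
    have : A (Set.Iio w) ⊆ (fun v => (F v).1) '' Set.Iio w ∪ (fun v => (F v).2) '' Set.Iio w := by
      rintro x ⟨v, hv, rfl | rfl⟩
      · exact Or.inl ⟨v, hv, rfl⟩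
      · exact Or.inr ⟨v, hv, rfl⟩
    exact ((mk_le_mk_of_subset this).trans (mk_union_le _ _)).trans_lt (add_lt_of_lt (aleph0_le_mk G)
      (mk_image_le.trans_lt (mk_Iio_lt w ho)) (mk_image_le.trans_lt (mk_Iio_lt w ho)))
  let C : G → Subgroup G := fun w => closure (A (Set.Iio w) ∪ {(F w).1, (F w).2})
  have mono : Monotone C := by
    intro v w h
    rcases h.eq_or_lt with rfl | h
    · exact le_rfl
    refine closure_mono (Set.subset_union_of_subset_left ?_ _)
    rintro x (⟨u, hu, e⟩ | e)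
    · exact ⟨u, lt_trans hu h, e⟩
    · exact ⟨v, h, e⟩
  have dir : ∀ I, ∀ x ∈ closure (A I), x = 1 ∨ ∃ v ∈ I, x ∈ C v := by
    intro I x hx
    induction hx using closure_induction with
    | mem x hx =>
      obtain ⟨v, hv, e⟩ := hx
      exact Or.inr ⟨v, hv, subset_closure (Or.inr e)⟩
    | one => exact Or.inl rfl
    | mul x y _ _ a b =>
      rcases a with rfl | ⟨u, hu, a⟩
      · simpa using b
      rcases b with rfl | ⟨v, hv, b⟩
      · exact Or.inr ⟨u, hu, by simpa using a⟩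
      rcases le_total u v with l | l
      · exact Or.inr ⟨v, hv, mul_mem (mono l a) b⟩
      · exact Or.inr ⟨u, hu, mul_mem a (mono l b)⟩
    | inv x _ a =>
      rcases a with rfl | ⟨u, hu, a⟩
      · simp
      · exact Or.inr ⟨u, hu, inv_mem a⟩
  have main : ∀ w, ∀ x ∈ closure (A (Set.Iio w)), x ∉ Z := by
    intro w
    induction w using wf.wf.induction with
    | _ w ih =>
      intro x hx
      rcases dir _ x hx with rfl | ⟨v, hv, a⟩
      · exact h1
      · refine (hc v _ (card v) (ih v hv)).1 x ?_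
        rwa [← hF]
  refine ⟨closure (A Set.univ), fun x hx => ?_, fun t ht => ?_⟩
  · rcases dir _ x hx with rfl | ⟨v, -, a⟩
    · exact h1
    · refine (hc v _ (card v) (main v)).1 x ?_
      rwa [← hF]
  · have := (hc t _ (card t) (main t)).2 ht
    rw [← hF] at this
    refine closure_mono (Set.union_subset_union_left _ ?_) this
    rintro x (⟨u, -, e⟩ | e)
    · exact subset_closure ⟨u, trivial, e⟩
    · exact subset_closure ⟨t, trivial, e⟩

theorem not_frattini {M : Subgroup G} {g : G} (hg : g ∉ M) (h : closure ((M : Set G) ∪ {g}) = ⊤) :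
    g ∉ frattini G := by
  obtain ⟨K, hK, hm⟩ := zorn_le_nonempty₀ {K : Subgroup G | g ∉ K} (fun c hc hch y hy =>
    ⟨sSup c, fun h => by
      obtain ⟨s, hs, e⟩ := (mem_sSup_of_directedOn ⟨y, hy⟩ hch.directedOn).1 h
      exact hc hs e, fun z hz => le_sSup hz⟩) M hg
  refine fun hf => hm.1 (frattini_le_coatom ⟨fun e => hm.1 (by rw [show K = ⊤ from e]; exact mem_top g), fun L hL => ?_⟩ hf)
  rw [eq_top_iff, ← h, closure_le]
  refine Set.union_subset (hK.trans hL.le) ?_
  rintro _ rfl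
  by_contra hn
  exact hL.not_ge (hm.2 hn hL.le)

theorem fin_supp {A B : Set G} {x : G} (h : x ∈ closure (A ∪ B)) :
    ∃ J : Set G, J.Finite ∧ J ⊆ A ∧ x ∈ closure (J ∪ B) := by
  induction h using closure_induction with
  | mem x hx =>
    rcases hx with hx | hx
    · exact ⟨{x}, Set.finite_singleton _, by simpa, subset_closure (Or.inl rfl)⟩
    · exact ⟨∅, Set.finite_empty, Set.empty_subset _, subset_closure (Or.inr hx)⟩
  | one => exact ⟨∅, Set.finite_empty, Set.empty_subset _, one_mem _⟩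
  | mul x y _ _ a b =>
    obtain ⟨I, i1, i2, i3⟩ := a
    obtain ⟨J, j1, j2, j3⟩ := b
    exact ⟨I ∪ J, i1.union j1, Set.union_subset i2 j2, mul_mem
      (closure_mono (Set.union_subset_union_left _ Set.subset_union_left) i3)
      (closure_mono (Set.union_subset_union_left _ Set.subset_union_right) j3)⟩
  | inv x _ a =>
    obtain ⟨I, i1, i2, i3⟩ := a
    exact ⟨I, i1, i2, inv_mem i3⟩

theorem free_case {r : ℕ} {f : Fin r → G} {s g t : G} {M : Subgroup G} {J : Set G}
    (hi : Function.Injective (FreeGroup.lift (fun o : Option (Fin r) => o.elim s f)))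
    (hg : g ∉ M) (ht : t ∉ M) (hJ : J ⊆ M) (h1 : J ⊆ closure (Set.range f))
    (h2 : g ∈ closure (Set.range f)) (h3 : t ∈ closure (Set.range f)) :
    g ∉ closure (J ∪ {s, t * s * g * s⁻¹}) := by
  classical
  set π := FreeGroup.lift (fun o : Option (Fin r) => o.elim s f)
  let φ := MulAction.toPermHom G (G ⧸ M)
  let x0 : G ⧸ M := ((1 : G) : G ⧸ M)
  have fix : ∀ x : G, φ x x0 = x0 ↔ x ∈ M := fun x => by
    change ((x * 1 : G) : G ⧸ M) = ((1 : G) : G ⧸ M) ↔ _
    rw [eq_comm, QuotientGroup.eq]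
    simp
  let σ := Equiv.swap (φ g x0) (φ t⁻¹ x0)
  have hσ : σ x0 = x0 := Equiv.swap_apply_of_ne_of_ne (fun e => hg ((fix g).1 e.symm))
    (fun e => ht (by simpa using (fix t⁻¹).1 e.symm))
  let θ := FreeGroup.lift (fun o : Option (Fin r) => o.elim σ (fun i => φ (f i)))
  have lf : ∀ x ∈ closure (Set.range f), ∃ w, π w = x ∧ θ w = φ x := by
    intro x hx
    induction hx using closure_induction with
    | mem x hx =>
      obtain ⟨i, rfl⟩ := hx
      exact ⟨FreeGroup.of (some i), by simp [π], by simp [θ]⟩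
    | one => exact ⟨1, by simp, by simp⟩
    | mul x y _ _ a b =>
      obtain ⟨u, rfl, a⟩ := a
      obtain ⟨v, rfl, b⟩ := b
      exact ⟨u * v, by simp, by rw [map_mul, a, b, map_mul]⟩
    | inv x _ a =>
      obtain ⟨u, rfl, a⟩ := a
      exact ⟨u⁻¹, by simp, by rw [map_inv, a, map_inv]⟩
  obtain ⟨wg, g1, g2⟩ := lf g h2
  obtain ⟨wt, t1, t2⟩ := lf t h3
  have s1 : π (FreeGroup.of none) = s := by simp [π]
  have s2 : θ (FreeGroup.of none) = σ := by simp [θ]
  have le : closure (J ∪ {s, t * s * g * s⁻¹}) ≤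
      ((MulAction.stabilizer (Equiv.Perm (G ⧸ M)) x0).comap θ).map π := by
    rw [closure_le]
    rintro x (hx | rfl | rfl)
    · obtain ⟨w, a, b⟩ := lf x (h1 hx)
      refine ⟨w, ?_, a⟩
      change θ w x0 = x0
      rw [b]
      exact (fix x).2 (hJ hx)
    · refine ⟨_, ?_, s1⟩
      change θ _ x0 = x0
      rw [s2, hσ]
    · refine ⟨wt * FreeGroup.of none * wg * (FreeGroup.of none)⁻¹, ?_, by simp [s1, g1, t1]⟩
      change θ _ x0 = x0
      simp only [map_mul, map_inv, s2, g2, t2, Equiv.Perm.mul_apply]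
      rw [show σ⁻¹ x0 = x0 from (Equiv.Perm.inv_eq_iff_eq.2 hσ.symm), Equiv.swap_apply_left,
        ← Equiv.Perm.mul_apply, ← map_mul]
      simp
  intro h
  obtain ⟨w, a, b⟩ := le h
  obtain rfl : w = wg := hi (b.trans g1.symm)
  change θ w x0 = x0 at a
  rw [g2] at a
  exact hg ((fix g).1 a)

theorem LF.step_unc (h : LF G) (hG : ℵ₀ < #G) (g : G) (A : Set G) (hA : #A < #G)
    (hg : g ∉ closure A) (t : G) :
    ∃ a b, g ∉ closure (A ∪ {a, b}) ∧ t ∈ closure (A ∪ {a, b} ∪ {g}) := by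
  by_cases ht : t ∈ closure A
  · exact ⟨1, 1, by simpa [Subgroup.closure_union] using hg,
      closure_mono (Set.subset_union_left.trans Set.subset_union_left) ht⟩
  by_contra hn
  have all : ∀ s, g ∈ closure (A ∪ {s, t * s * g * s⁻¹}) := by
    intro s
    by_contra hs
    refine hn ⟨s, _, hs, ?_⟩
    have a : s ∈ closure (A ∪ {s, t * s * g * s⁻¹} ∪ {g}) := subset_closure (by simp)
    have b : t * s * g * s⁻¹ ∈ closure (A ∪ {s, t * s * g * s⁻¹} ∪ {g}) := subset_closure (by simp)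
    have c : g ∈ closure (A ∪ {s, t * s * g * s⁻¹} ∪ {g}) := subset_closure (by simp)
    have := mul_mem (mul_mem (mul_mem b a) (inv_mem c)) (inv_mem a)
    rwa [show t * s * g * s⁻¹ * s * g⁻¹ * s⁻¹ = t by group] at this
  let D : {J : Set G // J.Finite ∧ J ⊆ A} → Set G := fun J =>
    {s | g ∈ closure (J.1 ∪ {s, t * s * g * s⁻¹})}
  have hD : ∀ J, (D J).Countable := by
    rintro ⟨J, j1, j2⟩
    obtain ⟨r, f, hf⟩ := (j1.union (Set.toFinite {g, t})).fin_param
    refine h.countable r _ (fun T hT hT' => ?_)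
    suffices ∃ E : Subgroup G, Gen r E ∧ T ⊆ E ∧ J ∪ {g, t} ⊆ E from
      this.imp fun _ a => ⟨a.1, a.2.1⟩
    induction T, hT using Set.Finite.induction_on with
    | empty => exact ⟨_, ⟨f, rfl⟩, Set.empty_subset _, hf.2 ▸ subset_closure⟩
    | @insert s T _ _ ih =>
      obtain ⟨_, ⟨f', rfl⟩, a, b⟩ := ih ((Set.subset_insert _ _).trans hT')
      rcases h.dich f' s with c | c
      · have l : (closure (Set.range f') : Set G) ⊆ closure (Set.range f' ∪ {s}) :=
          closure_mono Set.subset_union_left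
        exact ⟨_, c, Set.insert_subset (subset_closure (Or.inr rfl)) (a.trans l), b.trans l⟩
      · exact (free_case c hg ht (j2.trans subset_closure) (Set.subset_union_left.trans b)
          (b (by simp)) (b (by simp)) (hT' (Set.mem_insert _ _))).elim
  have cov : (Set.univ : Set G) = ⋃ J, D J := by
    refine (Set.eq_univ_of_forall fun s => ?_).symm
    obtain ⟨J, a, b, c⟩ := fin_supp (all s)
    exact Set.mem_iUnion.2 ⟨⟨J, a, b⟩, c⟩
  have c1 : #{J : Set G // J.Finite ∧ J ⊆ A} ≤ max #A ℵ₀ := by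
    refine le_trans (mk_le_of_surjective (f := fun (l : List A) =>
      (⟨Subtype.val '' {x | x ∈ l}, l.finite_toSet.image _, Subtype.coe_image_subset _ _⟩ :
        {J : Set G // J.Finite ∧ J ⊆ A})) ?_) ((mk_list_le_max _).trans_eq (max_comm _ _))
    rintro ⟨J, a, b⟩
    refine ⟨(a.preimage Subtype.val_injective.injOn).toFinset.toList, Subtype.ext ?_⟩
    ext x
    simpa using fun hx => b hx
  have c2 := mk_iUnion_le D
  rw [← cov, mk_univ] at c2
  have c3 := c2.trans (mul_le_mul' c1 (ciSup_le' fun J => (hD J).le_aleph0))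
  exact (mul_lt_of_lt hG.le (max_lt hA hG) hG).not_ge c3

theorem LF.root (h : LF G) {u c : G} (hc : c ∈ Es u) : ∃ (r : G) (i j : ℤ), u = r ^ i ∧ c = r ^ j := by
  rcases h.dich (r := 1) (fun _ => u) c with ⟨f, hf⟩ | hi
  · rw [Set.range_unique, ← zpowers_eq_closure] at hf
    obtain ⟨i, hi⟩ : u ∈ zpowers (f default) := hf ▸ subset_closure (Or.inl ⟨0, rfl⟩)
    obtain ⟨j, hj⟩ : c ∈ zpowers (f default) := hf ▸ subset_closure (Or.inr rfl)
    exact ⟨_, i, j, hi.symm, hj.symm⟩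
  exfalso
  obtain ⟨p, q, hp, -, e⟩ := hc
  have e' : FreeGroup.of none * FreeGroup.of (some (0 : Fin 1)) ^ p * (FreeGroup.of none)⁻¹ =
      FreeGroup.of (some 0) ^ q := hi (by simpa using e)
  have a := congrArg (FreeGroup.lift fun o : Option (Fin 1) =>
    o.elim (1 : DihedralGroup 0) (fun _ => DihedralGroup.r 1)) e'
  have b := congrArg (FreeGroup.lift fun o : Option (Fin 1) =>
    o.elim (DihedralGroup.sr 0 : DihedralGroup 0) (fun _ => DihedralGroup.r 1)) e'
  simp [DihedralGroup.r_one_zpow] at a b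
  have a' : p = q := a
  have b' : -p = q := b
  omega

theorem LF.es_ne (h : LF G) {a b : G} (hab : a * b ≠ b * a) {g : G} (hg : g ≠ 1) : Es g ≠ ⊤ := by
  intro e
  obtain ⟨r, i, j, h1, h2⟩ := h.root (e ▸ mem_top a : a ∈ Es g)
  obtain ⟨s, k, l, h3, h4⟩ := h.root (e ▸ mem_top b : b ∈ Es g)
  have hi : i ≠ 0 := by rintro rfl; exact hg (by simpa using h1)
  have : b ∈ Es a := by
    refine ⟨i, i, hi, hi, ?_⟩
    rw [h2, ← zpow_mul, mul_comm j, zpow_mul, ← h1, h3, h4]
    group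
  obtain ⟨r, i, j, rfl, rfl⟩ := h.root this
  exact hab (by group)

theorem LF.step_cnt (h : LF G) {g : G} (hg : g ≠ 1) {A : Set G} (hA : A.Finite)
    (hM : ∀ m ∈ closure A, m ∈ Es g → m = 1) {t : G} (ht : t ∉ Es g) :
    ∃ n : ℤ, ∀ x ∈ closure (A ∪ {g ^ n * t * g ^ n}), x ∈ Es g → x = 1 := by
  obtain ⟨n, ι0, h0, hr⟩ := h.basis (hA.union (Set.toFinite {g, t}))
  obtain ⟨g0, rfl⟩ : g ∈ ι0.range := hr ▸ subset_closure (by simp)
  obtain ⟨c, hc⟩ := exists_cr g0
  let ι := ι0.comp (MulAut.conj c).symm.toMonoidHom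
  have hι : Function.Injective ι := h0.comp (MulAut.conj c).symm.injective
  have sur : ∀ x ∈ A ∪ {ι0 g0, t}, ∃ y, ι y = x := fun x hx => by
    obtain ⟨y, rfl⟩ : x ∈ ι0.range := hr ▸ subset_closure hx
    exact ⟨MulAut.conj c y, by simp [ι, mul_assoc]⟩
  have eg : ι (c * g0 * c⁻¹) = ι0 g0 := by simp [ι, mul_assoc]
  obtain ⟨t', rfl⟩ := sur t (by simp)
  rw [← eg] at hM ht hg ⊢
  have tr : ∀ x, x ∈ Es (c * g0 * c⁻¹) ↔ ι x ∈ Es (ι (c * g0 * c⁻¹)) := fun x => by
    refine exists_congr fun p => exists_congr fun q => and_congr_right fun _ =>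
      and_congr_right fun _ => ?_
    rw [← hι.eq_iff]
    simp only [map_mul, map_zpow, map_inv]
  have eA : ι '' (ι ⁻¹' A) = A := Set.image_preimage_eq_of_subset fun x hx => sur x (Or.inl hx)
  obtain ⟨k, hk⟩ := CR.step (g := c * g0 * c⁻¹) ⟨fun e => hg (by rw [e, map_one]), hc⟩
    (hA.preimage hι.injOn) (fun m a b => hι (by
      rw [map_one]
      refine hM _ ?_ ((tr m).1 b)
      rw [← eA, ← MonoidHom.map_closure]
      exact ⟨m, a, rfl⟩)) (fun e => ht ((tr _).1 e))
  refine ⟨k, fun x hx hE => ?_⟩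
  rw [← eA, ← map_zpow, ← map_mul, ← map_mul, ← Set.image_singleton, ← Set.image_union,
    ← MonoidHom.map_closure] at hx
  obtain ⟨y, hy, rfl⟩ := hx
  rw [hk y hy ((tr y).2 hE), map_one]

theorem LF.frattini_bot (h : LF G) {a b : G} (hab : a * b ≠ b * a) : frattini G = ⊥ := by
  rw [eq_bot_iff]
  intro g hf
  by_contra hg
  rw [mem_bot] at hg
  have inf : Infinite G := by
    obtain ⟨n, ι, h0, hr⟩ := h.basis (Set.finite_singleton g)
    obtain ⟨g0, rfl⟩ : g ∈ ι.range := hr ▸ subset_closure rfl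
    refine Infinite.of_injective (fun k : ℕ => ι (g0 ^ k)) (h0.comp ?_)
    rw [injective_pow_iff_not_isOfFinOrder]
    exact not_isOfFinOrder_of_isMulTorsionFree (fun e => hg (by rw [e, map_one]))
  rcases lt_or_ge ℵ₀ #G with hG | hG
  · obtain ⟨M, h1, h2⟩ := recur {g} Set.univ g (fun e => hg e.symm) (fun A hA hZ t _ => by
      obtain ⟨a, b, h1, h2⟩ := h.step_unc hG g A hA (fun e => hZ g e rfl) t
      exact ⟨a, b, fun x hx e => h1 (e ▸ hx), h2⟩)
    exact not_frattini (fun e => h1 g e rfl) (eq_top_iff.2 fun x _ => h2 trivial) hf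
  · obtain ⟨M, h1, h2⟩ := recur {c | c ≠ 1 ∧ c ∈ Es g} {c | c ∉ Es g} g (fun e => e.1 rfl)
      (fun A hA hZ t ht => by
        obtain ⟨n, hn⟩ := h.step_cnt hg (lt_aleph0_iff_set_finite.1 (hA.trans_le hG))
          (fun m a b => by_contra fun e => hZ m a ⟨e, b⟩) ht
        refine ⟨g ^ n * t * g ^ n, g ^ n * t * g ^ n, fun x hx e => e.1 (hn x (by simpa using hx) e.2),
          ?_⟩
        have b : g ^ n * t * g ^ n ∈ closure (A ∪ {g ^ n * t * g ^ n, g ^ n * t * g ^ n} ∪ {g}) :=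
          subset_closure (by simp)
        have c : g ^ n ∈ closure (A ∪ {g ^ n * t * g ^ n, g ^ n * t * g ^ n} ∪ {g}) :=
          zpow_mem (subset_closure (by simp)) _
        have := mul_mem (mul_mem (inv_mem c) b) (inv_mem c)
        rwa [show (g ^ n)⁻¹ * (g ^ n * t * g ^ n) * (g ^ n)⁻¹ = t by group] at this)
    refine not_frattini (fun e => h1 g e ⟨hg, by simpa using zpow_mem_Es g 1⟩)
      (eq_top_iff.2 fun x _ => ?_) hf
    by_cases hx : x ∈ Es g
    · obtain ⟨y, hy⟩ : ∃ y, y ∉ Es g := by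
        by_contra hn
        push Not at hn
        exact h.es_ne hab hg (eq_top_iff.2 fun y _ => hn y)
      have := mul_mem (h2 (show x * y ∉ Es g from fun e => hy ((mul_mem_cancel_left hx).1 e)))
        (inv_mem (h2 hy))
      simpa using this
    · exact h2 hx

end Pool.Agent.H69.Fr
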