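import Mathlib

namespace Pool.Agent.H69.Grig

/-- The four generators of the first Grigorchuk group. -/
inductive Gen : Type
  | a | b | c | d

/-- The action of the generators on finite binary words (`false` is 0, `true` is 1). -/
def act : Gen → List Bool → List Bool
  | _, [] => []
  | .a, x :: w => (!x) :: w
  | .b, false :: w => false :: act .a w
  | .b, true :: w => true :: act .c w
  | .c, false :: w => false :: act .a w
  | .c, true :: w => true :: act .d w
  | .d, false :: w => false :: w
  | .d, true :: w => true :: act .b w

theorem act_act (w : List Bool) : ∀ s : Gen, act s (act s w) = w := by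
  induction w with
  | nil => intro s; cases s <;> rfl
  | cons x w ih => intro s; cases s <;> cases x <;> simp [act, ih]

/-- The generators as permutations of the vertices of the binary rooted tree. -/
def gen (s : Gen) : Equiv.Perm (List Bool) := ⟨act s, act s, fun w => act_act w s,
  fun w => act_act w s⟩

/-- The first Grigorchuk group. -/
def grig : Subgroup (Equiv.Perm (List Bool)) := Subgroup.closure (Set.range gen)

/-- Word length with respect to `a, b, c, d`. -/
noncomputable def len (g : Equiv.Perm (List Bool)) : ℕ :=
  sInf {n | ∃ l : List Gen, l.length = n ∧ (l.map gen).prod = g}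

/-- Depth: the least level all of whose sections lie in `{1, a, b, c, d}`. -/
noncomputable def depth (g : Equiv.Perm (List Bool)) : ℕ :=
  sInf {n | ∀ u : List Bool, u.length = n →
    ∃ h ∈ insert 1 (Set.range gen), ∀ w, g (u ++ w) = g u ++ h w}

end Pool.Agent.H69.Grig
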