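import Mathlib
import Pool.Agent.H69.GrigDefs

namespace Pool.Agent.H69.Grig

open Gen

abbrev P := Equiv.Perm (List Bool)

@[simp] theorem gen_apply (s : Gen) (w : List Bool) : gen s w = act s w := rfl

theorem gen_sq (s : Gen) : gen s * gen s = 1 := by
  ext1 w
  simp [act_act]

theorem klein (w : List Bool) : act b (act c w) = act d w ∧ act c (act d w) = act b w ∧
    act d (act b w) = act c w ∧ act c (act b w) = act d w ∧ act d (act c w) = act b w ∧
    act b (act d w) = act c w := by
  induction w with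
  | nil => simp [act]
  | cons x w ih => cases x <;> simp [act, act_act, ih]

theorem bc : gen b * gen c = gen d := by ext1 w; simp [klein]
theorem cb : gen c * gen b = gen d := by ext1 w; simp [klein]
theorem cd : gen c * gen d = gen b := by ext1 w; simp [klein]
theorem dc : gen d * gen c = gen b := by ext1 w; simp [klein]
theorem db : gen d * gen b = gen c := by ext1 w; simp [klein]
theorem bd : gen b * gen d = gen c := by ext1 w; simp [klein]

def ev (l : List Gen) : P := (l.map gen).prod

@[simp] theorem ev_nil : ev [] = 1 := rfl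
@[simp] theorem ev_cons (s : Gen) (l : List Gen) : ev (s :: l) = gen s * ev l := by simp [ev]
@[simp] theorem ev_append (l m : List Gen) : ev (l ++ m) = ev l * ev m := by simp [ev]

def Sec (g : P) (x y : Bool) (h : P) : Prop := ∀ w, g (x :: w) = y :: h w

theorem Sec.mul {g g' h h' : P} {x y z : Bool} (h1 : Sec g y z h) (h2 : Sec g' x y h') :
    Sec (g * g') x z (h * h') := fun w => by
  rw [Equiv.Perm.mul_apply, h2, h1, Equiv.Perm.mul_apply]

theorem sec_a (x : Bool) : Sec (gen a) x (!x) (ev []) := fun w => by simp [act]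

theorem sec_gen (s : Gen) (x : Bool) : ∃ y, ∃ l : List Gen, l.length ≤ 1 ∧ Sec (gen s) x y (ev l) := by
  cases s <;> cases x
  · exact ⟨_, [], by simp, sec_a _⟩
  · exact ⟨_, [], by simp, sec_a _⟩
  · exact ⟨false, [a], by simp, fun w => by simp [act]⟩
  · exact ⟨true, [c], by simp, fun w => by simp [act]⟩
  · exact ⟨false, [a], by simp, fun w => by simp [act]⟩
  · exact ⟨true, [d], by simp, fun w => by simp [act]⟩
  · exact ⟨false, [], by simp, fun w => by simp [act]⟩
  · exact ⟨true, [b], by simp, fun w => by simp [act]⟩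

theorem pair (s t : Gen) : (∃ l : List Gen, l.length ≤ 1 ∧ gen s * gen t = ev l) ∨
    ∀ x, ∃ y, ∃ l : List Gen, l.length ≤ 1 ∧ Sec (gen s * gen t) x y (ev l) := by
  by_cases hs : s = a
  · right
    intro x
    obtain ⟨y, l, h1, h2⟩ := sec_gen t x
    exact ⟨_, l, h1, by simpa [hs] using (sec_a y).mul h2⟩
  by_cases ht : t = a
  · right
    intro x
    obtain ⟨y, l, h1, h2⟩ := sec_gen s (!x)
    exact ⟨_, l, h1, by simpa [ht] using h2.mul (sec_a x)⟩
  left
  cases s <;> cases t <;> simp at hs ht
  · exact ⟨[], by simp, by simp [gen_sq]⟩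
  · exact ⟨[d], by simp, by simp [bc]⟩
  · exact ⟨[c], by simp, by simp [bd]⟩
  · exact ⟨[d], by simp, by simp [cb]⟩
  · exact ⟨[], by simp, by simp [gen_sq]⟩
  · exact ⟨[b], by simp, by simp [cd]⟩
  · exact ⟨[c], by simp, by simp [db]⟩
  · exact ⟨[b], by simp, by simp [dc]⟩
  · exact ⟨[], by simp, by simp [gen_sq]⟩

theorem contract (n : ℕ) : ∀ l : List Gen, l.length ≤ n → ∀ x, ∃ y, ∃ m : List Gen,
    m.length ≤ (n + 1) / 2 ∧ Sec (ev l) x y (ev m) := by
  induction n using Nat.strong_induction_on with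
  | _ n ih =>
  intro l hl x
  match l, hl with
  | [], _ => exact ⟨x, [], by simp, fun w => by simp⟩
  | [s], hl =>
    obtain ⟨y, m, h1, h2⟩ := sec_gen s x
    exact ⟨y, m, by simp at hl; omega, by simpa using h2⟩
  | s :: t :: l, hl =>
    simp only [List.length_cons] at hl
    rcases pair s t with ⟨k, h1, h2⟩ | h
    · obtain ⟨y, m, a1, a2⟩ := ih (n - 1) (by omega) (k ++ l) (by simp; omega) x
      refine ⟨y, m, by omega, ?_⟩
      rwa [ev_cons, ev_cons, ← mul_assoc, h2, ← ev_append]
    · obtain ⟨y, m, a1, a2⟩ := ih (n - 2) (by omega) l (by omega) x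
      obtain ⟨z, k, b1, b2⟩ := h y
      refine ⟨z, k ++ m, by simp; omega, ?_⟩
      rw [ev_cons, ev_cons, ← mul_assoc, ev_append]
      exact b2.mul a2

def Good (g : P) (n : ℕ) : Prop := ∀ u : List Bool, u.length = n →
    ∃ h ∈ insert 1 (Set.range gen), ∀ w, g (u ++ w) = g u ++ h w

theorem ev_nil_fix (l : List Gen) : ev l [] = [] := by
  induction l with
  | nil => rfl
  | cons s l ih => cases s <;> simp [ih, act]

theorem good (k : ℕ) : ∀ l : List Gen, l.length ≤ 2 ^ k → Good (ev l) k := by
  induction k with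
  | zero =>
    intro l hl u hu
    rw [List.length_eq_zero_iff] at hu
    subst hu
    refine ⟨ev l, ?_, fun w => by simp [ev_nil_fix]⟩
    match l, hl with
    | [], _ => simp
    | [s], _ => simp
    | _ :: _ :: _, hl => simp at hl
  | succ k ih =>
    intro l hl u hu
    obtain _ | ⟨x, u⟩ := u
    · simp at hu
    obtain ⟨y, m, h1, h2⟩ := contract _ l hl x
    obtain ⟨h, a1, a2⟩ := ih m (by omega) u (by simpa using hu)
    exact ⟨h, a1, fun w => by rw [List.cons_append, h2, h2, a2, List.cons_append]⟩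

theorem exists_word (g : P) (hg : g ∈ grig) : ∃ l : List Gen, ev l = g := by
  induction hg using Subgroup.closure_induction with
  | mem x hx => obtain ⟨s, rfl⟩ := hx; exact ⟨[s], by simp⟩
  | one => exact ⟨[], rfl⟩
  | mul x y _ _ hx hy =>
    obtain ⟨l, rfl⟩ := hx
    obtain ⟨m, rfl⟩ := hy
    exact ⟨l ++ m, by simp⟩
  | inv x h0 hx =>
    obtain ⟨l, rfl⟩ := hx
    refine ⟨l.reverse, ?_⟩
    clear h0
    induction l with
    | nil => simp
    | cons s l ih =>
      rw [List.reverse_cons, ev_append, ih, ev_cons, ev_cons, ev_nil, mul_one, mul_inv_rev,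
        ← eq_inv_of_mul_eq_one_left (gen_sq s)]

theorem ev_mem (l : List Gen) : ev l ∈ grig := by
  induction l with
  | nil => exact grig.one_mem
  | cons s l ih => rw [ev_cons]; exact grig.mul_mem (Subgroup.subset_closure ⟨s, rfl⟩) ih

theorem len_spec (g : P) (hg : g ∈ grig) : ∃ l : List Gen, l.length = len g ∧ ev l = g := by
  obtain ⟨l, hl⟩ := exists_word g hg
  exact Nat.sInf_mem (s := {n | ∃ l : List Gen, l.length = n ∧ (l.map gen).prod = g})
    ⟨l.length, l, rfl, hl⟩

theorem len_pos (g : P) (hg : g ∈ grig) (h1 : g ≠ 1) : 1 ≤ len g := by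
  obtain ⟨l, a1, a2⟩ := len_spec g hg
  rcases l with _ | ⟨s, l⟩
  · exact absurd a2.symm h1
  · simp at a1; omega

theorem upper (g : P) (hg : g ∈ grig) (h1 : g ≠ 1) :
    (depth g : ℝ) ≤ 1 * Real.logb 2 (len g) + 1 := by
  obtain ⟨l, a1, a2⟩ := len_spec g hg
  have h2 := len_pos g hg h1
  have h3 : depth g ≤ Nat.log 2 (len g) + 1 := by
    apply Nat.sInf_le
    rw [← a2]
    refine good _ l ?_
    rw [a2, a1]
    exact (Nat.lt_pow_succ_log_self (by norm_num) _).le
  have h4 : (Nat.log 2 (len g) : ℝ) ≤ Real.logb 2 (len g) := by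
    simpa using Real.natLog_le_logb (len g) 2
  have h5 : (depth g : ℝ) ≤ Nat.log 2 (len g) + 1 := by exact_mod_cast h3
  linarith

def sig : Gen → List Gen
  | a => [a, c, a]
  | b => [d]
  | c => [b]
  | d => [c]

theorem sec_sig (l : List Gen) : Sec (ev (l.flatMap sig)) true true (ev l) := by
  induction l with
  | nil => intro w; simp
  | cons s l ih =>
    rw [List.flatMap_cons, ev_append, ev_cons]
    refine Sec.mul ?_ ih
    cases s <;> intro w <;> simp [sig, act]

def W : ℕ → List Gen
  | 0 => [a, b]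
  | k + 1 => (W k).flatMap sig

def isA : Gen → Bool
  | a => true
  | _ => false

theorem sig_count (l : List Gen) : (l.flatMap sig).countP isA = 2 * l.countP isA ∧
    (l.flatMap sig).length = l.length + 2 * l.countP isA := by
  induction l with
  | nil => simp
  | cons s l ih =>
    rw [List.flatMap_cons, List.countP_append, List.length_append, ih.1, ih.2]
    cases s <;> simp [sig, isA, List.countP_cons] <;> omega

theorem W_len (k : ℕ) : (W k).countP isA = 2 ^ k ∧ (W k).length = 2 ^ (k + 1) := by
  induction k with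
  | zero => simp [W, isA, List.countP_cons]
  | succ k ih =>
    rw [W, (sig_count _).1, (sig_count _).2, ih.1, ih.2]
    omega

theorem not_good (k : ℕ) : ∀ n ≤ k, ¬ Good (ev (W k)) n := by
  induction k with
  | zero =>
    intro n hn h
    obtain ⟨h, a1, a2⟩ := h [] (by simp; omega)
    have e1 := a2 [false, false]
    have e2 := a2 [true, true, true, false, false]
    rcases a1 with rfl | ⟨s, rfl⟩
    · simp [W, act] at e1
    · cases s <;> simp [W, act] at e1
  | succ k ih =>
    intro n hn h
    have s := sec_sig (W k)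
    cases n with
    | zero =>
      obtain ⟨h, a1, a2⟩ := h [] rfl
      simp only [List.nil_append, ev_nil_fix] at a2
      refine ih 0 (Nat.zero_le _) (fun u hu => ?_)
      rw [List.length_eq_zero_iff] at hu
      subst hu
      simp only [List.nil_append, ev_nil_fix]
      have e : ∀ w, true :: ev (W k) w = h (true :: w) := fun w => by rw [← a2, ← s w]; rfl
      rcases a1 with rfl | ⟨t, rfl⟩
      · exact ⟨1, by simp, fun w => by simpa using e w⟩
      · cases t
        · simpa [act] using e []
        · exact ⟨gen c, by simp, fun w => by simpa [act] using e w⟩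
        · exact ⟨gen d, by simp, fun w => by simpa [act] using e w⟩
        · exact ⟨gen b, by simp, fun w => by simpa [act] using e w⟩
    | succ n =>
      refine ih n (by omega) (fun u hu => ?_)
      obtain ⟨h, a1, a2⟩ := h (true :: u) (by simpa using hu)
      refine ⟨h, a1, fun w => ?_⟩
      have := a2 w
      rw [List.cons_append, W, s, s] at this
      simpa using this

theorem depth_W (k : ℕ) : k + 1 ≤ depth (ev (W k)) := by
  have := Nat.sInf_mem (s := {n | Good (ev (W k)) n}) ⟨k + 1, good _ _ (W_len k).2.le⟩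
  by_contra hc
  exact not_good k _ (by change ¬ (k + 1 ≤ sInf {n | Good (ev (W k)) n}) at hc; omega) this

theorem W_ne (k : ℕ) : ev (W k) ≠ 1 := by
  intro h
  refine not_good k 0 (Nat.zero_le _) (fun u _ => ⟨1, by simp, fun w => by simp [h]⟩)

theorem main : IsLeast {lam : ℝ | ∃ c : ℝ, ∀ g ∈ grig, g ≠ 1 →
    (depth g : ℝ) ≤ lam * Real.logb 2 (len g) + c} 1 := by
  refine ⟨⟨1, upper⟩, ?_⟩
  rintro lam ⟨c, h⟩
  by_contra hc
  rw [not_le] at hc
  obtain ⟨k, hk⟩ := exists_nat_gt (c / (1 - max lam 0))
  have hm : 0 < 1 - max lam 0 := by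
    have : max lam 0 < 1 := max_lt hc one_pos
    linarith
  rw [div_lt_iff₀ hm] at hk
  have h1 := h _ (ev_mem (W k)) (W_ne k)
  have h2 : ((k + 1 : ℕ) : ℝ) ≤ depth (ev (W k)) := by exact_mod_cast depth_W k
  have h3 : (1 : ℝ) ≤ len (ev (W k)) := by exact_mod_cast len_pos _ (ev_mem _) (W_ne k)
  have h4 : len (ev (W k)) ≤ 2 ^ (k + 1) := Nat.sInf_le ⟨W k, (W_len k).2, rfl⟩
  have h5 : Real.logb 2 (len (ev (W k))) ≤ (k + 1 : ℕ) := by
    rw [Real.logb_le_iff_le_rpow (by norm_num) (by linarith), Real.rpow_natCast]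
    exact_mod_cast h4
  have h6 : 0 ≤ Real.logb 2 (len (ev (W k))) := Real.logb_nonneg (by norm_num) h3
  have h7 : lam * Real.logb 2 (len (ev (W k))) ≤ max lam 0 * (k + 1 : ℕ) :=
    (mul_le_mul_of_nonneg_right (le_max_left _ _) h6).trans
      (mul_le_mul_of_nonneg_left h5 (le_max_right _ _))
  push_cast at *
  nlinarith

end Pool.Agent.H69.Grig
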