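import Pool.Agent.H69.HTDefs
import Pool.Agent.H69.CB

set_option autoImplicit false

namespace Pool.Agent.H69.HT

open Subgroup SimpleGraph CB

theorem adj_le {Q : Type} [Group Q] {S : Set Q} (x s : Q) (hs : s ∈ S) :
    (mulCayley S).dist x (x * s) ≤ 1 := by
  by_cases h : x = x * s
  · rw [← h]; simp
  · exact (d1 ((mulCayley_adj' _ _ _).2 ⟨h, s, hs, Or.inl rfl⟩)).le

theorem qi_of_ker {G H : Type} [Group G] [Group H] (π : G →* H) (hπ : Function.Surjective π)
    (hk : (π.ker : Set G).Finite) (S : Set G) (hS : closure S = ⊤) :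
    QuasiIsometric (mulCayley S) (mulCayley (π '' S)) := by
  have hT : closure (π '' S) = ⊤ := by
    rw [← MonoidHom.map_closure, hS, map_top_of_surjective _ hπ]
  have c1 := cay_conn hS
  have c2 := cay_conn hT
  obtain ⟨C, hC⟩ := (hk.image ((mulCayley S).dist 1)).bddAbove
  have up : ∀ n x y, (mulCayley S).dist x y = n → (mulCayley (π '' S)).dist (π x) (π y) ≤ n := by
    intro n
    induction n with
    | zero => intro x y h; rw [d0 c1 h]; simp
    | succ n ih =>
      intro x y h
      obtain ⟨z, a1, a2⟩ := step c1 h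
      have e1 := tri c2 (π x) (π z) (π y)
      have e2 := ih z y a2
      have e3 : (mulCayley (π '' S)).dist (π x) (π z) ≤ 1 := by
        obtain ⟨-, s, hs, rfl | rfl⟩ := (mulCayley_adj' _ _ _).1 a1
        · rw [map_mul]; exact adj_le _ _ ⟨s, hs, rfl⟩
        · rw [map_mul, dist_comm]; exact adj_le _ _ ⟨s, hs, rfl⟩
      omega
  have down : ∀ n x y, (mulCayley (π '' S)).dist (π x) (π y) = n →
      (mulCayley S).dist x y ≤ n + C := by
    intro n
    induction n with
    | zero =>
      intro x y h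
      have h1 : x⁻¹ * y ∈ π.ker := by rw [MonoidHom.mem_ker, map_mul, map_inv, d0 c2 h]; simp
      have h2 := cay_inv hS x _ 1 (x⁻¹ * y) rfl
      simp only [mul_one, mul_inv_cancel_left] at h2
      simpa using h2.trans (hC ⟨_, h1, rfl⟩)
    | succ n ih =>
      intro x y h
      obtain ⟨z, a1, a2⟩ := step c2 h
      obtain ⟨x', e1, e2⟩ : ∃ x', π x' = z ∧ (mulCayley S).dist x x' ≤ 1 := by
        obtain ⟨-, _, ⟨s, hs, rfl⟩, h3 | h3⟩ := (mulCayley_adj' _ _ _).1 a1
        · exact ⟨x * s, by rw [map_mul, h3], adj_le _ _ hs⟩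
        · refine ⟨x * s⁻¹, by rw [map_mul, h3]; simp, ?_⟩
          have := adj_le (x * s⁻¹) s hs
          rwa [inv_mul_cancel_right, dist_comm] at this
      have e3 := ih x' y (by rw [e1, a2])
      have e4 := tri c1 x x' y
      omega
  refine ⟨π, 1, C, le_rfl, by positivity, fun x y => ⟨?_, ?_⟩, fun y => ?_⟩
  · have : ((mulCayley S).dist x y : ℝ) ≤ ((mulCayley (π '' S)).dist (π x) (π y) + C : ℕ) := by
      exact_mod_cast down _ x y rfl
    push_cast at this
    rw [div_one]; linarith
  · have : ((mulCayley (π '' S)).dist (π x) (π y) : ℝ) ≤ (mulCayley S).dist x y := by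
      exact_mod_cast up _ x y rfl
    have h0 : (0 : ℝ) ≤ C := by positivity
    linarith
  · obtain ⟨x, rfl⟩ := hπ y
    exact ⟨x, by simp⟩

theorem pigeon {K : Type} [Group K] (B : Subgroup K) [B.FiniteIndex] {I : Type} [Infinite I]
    (f : I → K) : ∃ i j, i ≠ j ∧ (f i)⁻¹ * f j ∈ B := by
  obtain ⟨i, j, h1, h2⟩ := Finite.exists_ne_map_eq_of_infinite (fun i => (f i : K ⧸ B))
  exact ⟨i, j, h1, QuotientGroup.eq.1 h2⟩

theorem center_triv {K : Type} [Group K] (h : HighlyTransitive K) (B : Subgroup K)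
    [B.FiniteIndex] (z : K) (hz : ∀ b ∈ B, b * z = z * b) : z = 1 := by
  obtain ⟨Ω, _, _, _, h⟩ := h
  by_contra hne
  obtain ⟨x, hx⟩ : ∃ x : Ω, z • x ≠ x := by
    by_contra hc
    push Not at hc
    exact hne (FaithfulSMul.eq_of_smul_eq_smul (α := Ω) (fun x => by rw [hc, one_smul]))
  haveI : Infinite {y // y ≠ x} := (Set.finite_singleton x).infinite_compl.to_subtype
  have inj : ∀ y : Ω, y ≠ x → Function.Injective ![x, y] := by
    intro y hy i j hij
    fin_cases i <;> fin_cases j <;> simp_all [eq_comm]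
  choose k hk using fun y : {y // y ≠ x} => h 2 ![x, z • x] ![x, y.1] (inj _ hx) (inj _ y.2)
  obtain ⟨i, j, h1, h2⟩ := pigeon B k
  apply h1
  have a1 : ∀ y, k y • x = x := fun y => hk y 0
  have a2 : ∀ y, k y • z • x = y.1 := fun y => hk y 1
  have a3 := congrArg (· • x) (hz _ h2)
  simp only [mul_smul, a1, a2, inv_smul_eq_iff.2 (a1 i).symm] at a3
  rw [inv_smul_eq_iff, a2] at a3
  exact Subtype.ext a3.symm

theorem ht_of_swaps (H : Subgroup (Equiv.Perm ℤ)) (h : ∀ i, Equiv.swap i (i + 1) ∈ H) :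
    HighlyTransitive H := by
  have h1 : ∀ (i : ℤ) (n : ℕ), Equiv.swap i (i + n) ∈ H := by
    intro i n
    induction n with
    | zero => rw [Nat.cast_zero, add_zero, Equiv.swap_self]; exact one_mem H
    | succ n ih =>
      push_cast
      rw [← add_assoc]
      exact SubmonoidClass.swap_mem_trans H ih (h _)
  have h2 : ∀ i j : ℤ, Equiv.swap i j ∈ H := by
    intro i j
    rcases le_total i j with hij | hij
    · obtain ⟨n, rfl⟩ := Int.le.dest hij; exact h1 i n
    · obtain ⟨n, rfl⟩ := Int.le.dest hij; rw [Equiv.swap_comm]; exact h1 j n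
  refine ⟨ℤ, inferInstance, inferInstance, inferInstance, fun k => ?_⟩
  induction k with
  | zero => intro a b _ _; exact ⟨1, fun i => i.elim0⟩
  | succ k ih =>
    intro a b ha hb
    obtain ⟨g, hg⟩ := ih (fun i => a i.succ) (fun i => b i.succ) (ha.comp (Fin.succ_injective _))
      (hb.comp (Fin.succ_injective _))
    refine ⟨⟨_, h2 (g • a 0) (b 0)⟩ * g, fun i => ?_⟩
    rw [mul_smul]
    refine Fin.cases ?_ (fun i => ?_) i
    · exact Equiv.swap_apply_left _ _
    · refine (Equiv.swap_apply_of_ne_of_ne ?_ ?_).trans (hg i)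
      · exact fun h => Fin.succ_ne_zero i (ha (MulAction.injective g h))
      · rw [hg i]; exact fun h => Fin.succ_ne_zero i (hb h)

section cliff
variable {k R : Type} [Field k] [Ring R] [Algebra k R] (e : ℤ → R)

theorem scalar (h2 : (2 : k) ≠ 0) (e1 : ∀ i, e i * e i = 1)
    (e2 : ∀ i j, i ≠ j → e i * e j = -(e j * e i)) (x : R)
    (hx : x ∈ Algebra.adjoin k (Set.range e)) (y : R)
    (hc : ∀ i, e i * x * e i = y) : ∃ c : k, x = algebraMap k R c := by
  classical
  have cm : ∀ i a b, e i * (a * b) * e i = (e i * a * e i) * (e i * b * e i) := by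
    intro i a b
    calc _ = e i * a * (e i * e i) * b * e i := by rw [e1]; simp [mul_assoc]
      _ = _ := by simp [mul_assoc]
  have ce : ∀ i j, i ≠ j → e i * e j * e i = -e j := by
    intro i j h; rw [e2 i j h, neg_mul, mul_assoc, e1, mul_one]
  have c1 : ∀ (F : Finset ℤ) i, i ∉ F → ∀ a ∈ Algebra.adjoin k (e '' F),
      e i * a * e i ∈ Algebra.adjoin k (e '' F) ∧
        ∀ j, j ∉ F → e i * a * e i = e j * a * e j := by
    intro F i hi a ha
    induction ha using Algebra.adjoin_induction with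
    | mem x hx =>
      obtain ⟨l, hl, rfl⟩ := hx
      have : i ≠ l := fun h => hi (h ▸ hl)
      rw [ce i l this]
      exact ⟨neg_mem (Algebra.subset_adjoin ⟨l, hl, rfl⟩),
        fun j hj => (ce j l (fun h => hj (h ▸ hl))).symm⟩
    | algebraMap r =>
      have : ∀ i, e i * algebraMap k R r * e i = algebraMap k R r := fun i => by
        rw [← Algebra.commutes, mul_assoc, e1, mul_one]
      rw [this]
      exact ⟨Subalgebra.algebraMap_mem _ r, fun j _ => (this j).symm⟩
    | add x y _ _ hx hy =>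
      simp only [mul_add, add_mul]
      exact ⟨add_mem hx.1 hy.1, fun j hj => by rw [hx.2 j hj, hy.2 j hj]⟩
    | mul x y _ _ hx hy =>
      simp only [cm]
      exact ⟨mul_mem hx.1 hy.1, fun j hj => by rw [hx.2 j hj, hy.2 j hj]⟩
  have dec : ∀ (F : Finset ℤ) i, i ∉ F → ∀ x ∈ Algebra.adjoin k (e '' (insert i F : Finset ℤ)),
      ∃ a ∈ Algebra.adjoin k (e '' F), ∃ b ∈ Algebra.adjoin k (e '' F), x = a + e i * b := by
    intro F i hi x hx
    induction hx using Algebra.adjoin_induction with
    | mem x hx =>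
      obtain ⟨l, hl, rfl⟩ := hx
      rcases Finset.mem_insert.1 hl with rfl | hl
      · exact ⟨0, zero_mem _, 1, one_mem _, by simp⟩
      · exact ⟨e l, Algebra.subset_adjoin ⟨l, hl, rfl⟩, 0, zero_mem _, by simp⟩
    | algebraMap r => exact ⟨_, Subalgebra.algebraMap_mem _ r, 0, zero_mem _, by simp⟩
    | add x y _ _ hx hy =>
      obtain ⟨a, a1, b, b1, rfl⟩ := hx
      obtain ⟨a', a2, b', b2, rfl⟩ := hy
      exact ⟨a + a', add_mem a1 a2, b + b', add_mem b1 b2, by rw [mul_add]; abel⟩
    | mul x y _ _ hx hy =>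
      obtain ⟨a, a1, b, b1, rfl⟩ := hx
      obtain ⟨a', a2, b', b2, rfl⟩ := hy
      refine ⟨a * a' + (e i * b * e i) * b', add_mem (mul_mem a1 a2) (mul_mem (c1 F i hi b b1).1 b2),
        (e i * a * e i) * b' + b * a', add_mem (mul_mem (c1 F i hi a a1).1 b2) (mul_mem b1 a2), ?_⟩
      have : e i * (e i * a * e i * b') = a * (e i * b') := by
        simp only [← mul_assoc, e1, one_mul]
      rw [mul_add (e i), this]
      simp only [mul_add, add_mul, mul_assoc]
      abel
  obtain ⟨F, hF⟩ : ∃ F : Finset ℤ, x ∈ Algebra.adjoin k (e '' F) := by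
    clear hc
    have mono : ∀ F F' : Finset ℤ, F ⊆ F' → Algebra.adjoin k (e '' F) ≤ Algebra.adjoin k (e '' F') :=
      fun F F' h => Algebra.adjoin_mono (Set.image_mono h)
    induction hx using Algebra.adjoin_induction with
    | mem x hx =>
      obtain ⟨l, rfl⟩ := hx
      exact ⟨{l}, Algebra.subset_adjoin ⟨l, by simp, rfl⟩⟩
    | algebraMap r => exact ⟨∅, Subalgebra.algebraMap_mem _ r⟩
    | add x y _ _ hx hy =>
      obtain ⟨F, h1⟩ := hx
      obtain ⟨F', h2⟩ := hy
      exact ⟨F ∪ F', add_mem (mono _ _ Finset.subset_union_left h1)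
        (mono _ _ Finset.subset_union_right h2)⟩
    | mul x y _ _ hx hy =>
      obtain ⟨F, h1⟩ := hx
      obtain ⟨F', h2⟩ := hy
      exact ⟨F ∪ F', mul_mem (mono _ _ Finset.subset_union_left h1)
        (mono _ _ Finset.subset_union_right h2)⟩
  induction F using Finset.induction_on with
  | empty =>
    simp only [Finset.coe_empty, Set.image_empty, Algebra.adjoin_empty] at hF
    obtain ⟨c, hc⟩ := Algebra.mem_bot.1 hF
    exact ⟨c, hc.symm⟩
  | insert i F hi ih =>
    apply ih
    obtain ⟨a, a1, b, b1, rfl⟩ := dec F i hi x hF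
    obtain ⟨j, hj⟩ := Infinite.exists_notMem_finset (insert i F)
    have hj1 : j ∉ F := fun h => hj (Finset.mem_insert_of_mem h)
    have hj2 : j ≠ i := fun h => hj (h ▸ Finset.mem_insert_self _ _)
    have p1 := hc i
    have p2 := hc j
    rw [mul_add, add_mul, cm] at p1 p2
    rw [ce j i hj2, ← (c1 F i hi a a1).2 j hj1, ← (c1 F i hi b b1).2 j hj1, ← p1, e1, one_mul,
      add_right_inj, neg_mul, neg_eq_iff_add_eq_zero, ← two_smul k, smul_eq_zero_iff_right h2,
      ← mul_assoc, ← mul_assoc, e1, one_mul] at p2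
    have : b = 0 := by
      have := congrArg (· * e i) p2
      simpa [mul_assoc, e1] using this
    rw [this]; simpa using a1

end cliff

end Pool.Agent.H69.HT
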