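import Pool.Agent.H69.HT1

set_option autoImplicit false

namespace Pool.Agent.H69.HT

open Subgroup SimpleGraph

abbrev k := ZMod 7
abbrev V := Finset ℤ → k
def R := Module.End k V

instance : Fact (Nat.Prime 7) := ⟨by norm_num⟩
instance : Ring R := inferInstanceAs (Ring (Module.End k V))
instance : Algebra k R := inferInstanceAs (Algebra k (Module.End k V))

def sg (S : Finset ℤ) (i : ℤ) : k := ∏ j ∈ S, if j < i then -1 else 1

theorem sg_sq (S : Finset ℤ) (i : ℤ) : sg S i * sg S i = 1 := by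
  rw [sg, ← Finset.prod_mul_distrib]
  exact Finset.prod_eq_one (fun j _ => by split_ifs <;> simp)

theorem sg_sd (S : Finset ℤ) (i j : ℤ) :
    sg (symmDiff S {j}) i = (if j < i then -1 else 1) * sg S i := by
  by_cases h : j ∈ S
  · have : symmDiff S {j} = S.erase j := by
      ext x; simp only [Finset.mem_symmDiff, Finset.mem_singleton, Finset.mem_erase]
      by_cases hx : x = j <;> simp [hx, h]
    rw [this, sg, sg, ← Finset.mul_prod_erase S _ h]
    split_ifs <;> simp
  · have : symmDiff S {j} = insert j S := by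
      ext x; simp only [Finset.mem_symmDiff, Finset.mem_singleton, Finset.mem_insert]
      by_cases hx : x = j <;> simp [hx, h]
    rw [this, sg, sg, Finset.prod_insert h]

def E0 (i : ℤ) : Module.End k V where
  toFun f := fun S => sg S i * f (symmDiff S {i})
  map_add' f g := by funext S; simp [mul_add]
  map_smul' c f := by funext S; simp [mul_left_comm]

def E (i : ℤ) : R := E0 i

theorem E1 (i : ℤ) : E i * E i = 1 := by
  refine LinearMap.ext (fun f => funext (fun S => ?_))
  show sg S i * (sg (symmDiff S {i}) i * f (symmDiff (symmDiff S {i}) {i})) = f S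
  rw [sg_sd, symmDiff_symmDiff_cancel_right, if_neg (lt_irrefl i), one_mul, ← mul_assoc, sg_sq,
    one_mul]

theorem E2 (i j : ℤ) (h : i ≠ j) : E i * E j = -(E j * E i) := by
  refine LinearMap.ext (fun f => funext (fun S => ?_))
  show sg S i * (sg (symmDiff S {i}) j * f (symmDiff (symmDiff S {i}) {j})) =
    -(sg S j * (sg (symmDiff S {j}) i * f (symmDiff (symmDiff S {j}) {i})))
  rw [sg_sd, sg_sd, symmDiff_right_comm]
  rcases lt_or_gt_of_ne h with h | h
  · rw [if_pos h, if_neg h.not_gt]; ring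
  · rw [if_pos h, if_neg h.not_gt]; ring

def sh0 (n : ℤ) : Module.End k V where
  toFun f := fun S => f (S.map (Equiv.subRight n).toEmbedding)
  map_add' _ _ := rfl
  map_smul' _ _ := rfl

def sh (n : ℤ) : R := sh0 n

theorem sh_sh (n : ℤ) : sh n * sh (-n) = 1 := by
  refine LinearMap.ext (fun f => funext (fun S => ?_))
  show f _ = f S
  congr 1
  ext x; simp

def T : Rˣ := ⟨sh 1, sh (-1), sh_sh 1, by simpa using sh_sh (-1)⟩

theorem TE (i : ℤ) : (T : R) * E i = E (i + 1) * T := by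
  refine LinearMap.ext (fun f => funext (fun S => ?_))
  show sg (S.map _) i * f (symmDiff (S.map _) {i}) = sg S (i + 1) * f ((symmDiff S {i + 1}).map _)
  congr 1
  · simp only [sg, Finset.prod_map]
    refine Finset.prod_congr rfl (fun j _ => ?_)
    simp [sub_lt_iff_lt_add]
  · congr 1
    ext x
    simp [Finset.mem_symmDiff]

theorem TE' (i : ℤ) : ((T⁻¹ : Rˣ) : R) * E i = E (i - 1) * (T⁻¹ : Rˣ) := by
  have := TE (i - 1)
  rw [sub_add_cancel] at this
  rw [Units.inv_mul_eq_iff_eq_mul, ← mul_assoc, this]; simp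

theorem TEz (n i : ℤ) : ((T ^ n : Rˣ) : R) * E i = E (i + n) * (T ^ n : Rˣ) := by
  induction n using Int.induction_on generalizing i with
  | zero => simp
  | succ n ih =>
    rw [zpow_add_one, Units.val_mul, mul_assoc, TE, ← mul_assoc, ih, mul_assoc]
    congr 2; ring
  | pred n ih =>
    rw [zpow_sub_one, Units.val_mul, mul_assoc, TE', ← mul_assoc, ih, mul_assoc]
    congr 2; ring

def tt (i : ℤ) : R := (2 : k) • (E i - E (i + 1))

theorem c8 : (2 : k) * 2 * 2 = 1 := by decide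

theorem tt_sq (i : ℤ) : tt i * tt i = 1 := by
  simp only [tt, smul_mul_smul_comm, mul_sub, sub_mul, E1, E2 i (i + 1) (by omega)]
  rw [show (1 - E (i + 1) * E i - (-(E (i + 1) * E i) - 1) : R) = (2 : k) • 1 by
    rw [two_smul]; abel, smul_smul, c8, one_smul]

def tu (i : ℤ) : Rˣ := ⟨tt i, tt i, tt_sq i, tt_sq i⟩

theorem ttE (i j : ℤ) : tt i * E j = -(E (Equiv.swap i (i + 1) j) * tt i) := by
  simp only [tt, smul_mul_assoc, mul_smul_comm, ← smul_neg, mul_sub, sub_mul]
  congr 1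
  by_cases h1 : j = i
  · subst h1; simp [E1]
  by_cases h2 : j = i + 1
  · subst h2; simp [E1]
  rw [Equiv.swap_apply_of_ne_of_ne h1 h2, E2 j i h1, E2 j (i + 1) h2]
  abel

theorem tt_anti (i j : ℤ) (h : i + 2 ≤ j) : tt i * tt j = -(tt j * tt i) := by
  conv_lhs => rw [show tt j = (2 : k) • (E j - E (j + 1)) from rfl]
  rw [mul_smul_comm, mul_sub, ttE, ttE, Equiv.swap_apply_of_ne_of_ne (by omega) (by omega),
    Equiv.swap_apply_of_ne_of_ne (by omega) (by omega)]
  conv_rhs => rw [show tt j = (2 : k) • (E j - E (j + 1)) from rfl]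
  rw [smul_mul_assoc, ← smul_neg, sub_mul]
  congr 1
  abel

abbrev P := Rˣ × Equiv.Perm ℤ

def g0 (i : ℤ) : P := (tu i, Equiv.swap i (i + 1))
def g1 : P := (T, Equiv.addRight 1)
def G : Subgroup P := closure {g0 0, g1}

theorem g0_sq (i : ℤ) : g0 i * g0 i = 1 := Prod.ext (Units.ext (tt_sq i)) (by simp [g0])

theorem g0_inv (i : ℤ) : (g0 i)⁻¹ = g0 i := inv_eq_of_mul_eq_one_right (g0_sq i)

theorem g0_conj (i : ℤ) : g1 ^ i * g0 0 * (g1 ^ i)⁻¹ = g0 i := by
  rw [mul_inv_eq_iff_eq_mul]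
  refine Prod.ext (Units.ext ?_) ?_
  · show ((T ^ i : Rˣ) : R) * tt 0 = tt i * (T ^ i : Rˣ)
    simp only [tt, mul_smul_comm, smul_mul_assoc, mul_sub, sub_mul, TEz, zero_add, add_comm i 1]
  · show Equiv.addRight (1 : ℤ) ^ i * Equiv.swap 0 (0 + 1) =
      Equiv.swap i (i + 1) * Equiv.addRight (1 : ℤ) ^ i
    rw [Equiv.mul_swap_eq_swap_mul]
    simp [add_comm]

theorem g0_mem (i : ℤ) : g0 i ∈ G := by
  rw [← g0_conj]
  have h1 : g1 ∈ G := subset_closure (by simp)
  have h0 : g0 0 ∈ G := subset_closure (by simp)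
  exact mul_mem (mul_mem (zpow_mem h1 _) h0) (inv_mem (zpow_mem h1 _))

def z : P := (-1, 1)

theorem z_eq (i j : ℤ) (h : i + 2 ≤ j) : g0 i * g0 j * (g0 i * g0 j) = z := by
  refine Prod.ext (Units.ext ?_) ?_
  · show tt i * tt j * (tt i * tt j) = -1
    nth_rewrite 1 [tt_anti i j h]
    rw [neg_mul, mul_assoc, ← mul_assoc (tt i), tt_sq, one_mul, tt_sq]
  · show Equiv.swap i (i + 1) * Equiv.swap j (j + 1) *
      (Equiv.swap i (i + 1) * Equiv.swap j (j + 1)) = 1
    nth_rewrite 1 [Equiv.mul_swap_eq_swap_mul]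
    rw [Equiv.swap_apply_of_ne_of_ne (by omega) (by omega),
      Equiv.swap_apply_of_ne_of_ne (by omega) (by omega)]
    simp [mul_assoc]

theorem z_mem : z ∈ G := by
  rw [← z_eq 0 2 (by norm_num)]
  exact mul_mem (mul_mem (g0_mem _) (g0_mem _)) (mul_mem (g0_mem _) (g0_mem _))

theorem z_ne : z ≠ 1 := by
  intro h
  have h1 : (-1 : R) = 1 := congrArg (fun p : P => (p.1 : R)) h
  have h2 : (-1 : k) = 1 := congrArg (fun f : Module.End k V => f (fun _ => 1) ∅) h1
  exact absurd h2 (by decide)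

theorem z_comm (g : P) : g * z = z * g := Prod.ext (by simp [z]) (by simp [z])

theorem z_fi (A : Subgroup G) [A.FiniteIndex] : (⟨z, z_mem⟩ : G) ∈ A := by
  obtain ⟨i, j, h1, h2⟩ := pigeon A (fun i : ℤ => (⟨g0 (2 * i), g0_mem _⟩ : G))
  rcases lt_or_gt_of_ne h1 with h | h
  · convert mul_mem h2 h2 using 1
    refine Subtype.ext ?_
    simp only [coe_mul, coe_inv, g0_inv]
    exact (z_eq _ _ (by omega)).symm
  · have h3 := inv_mem h2
    convert mul_mem h3 h3 using 1
    refine Subtype.ext ?_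
    simp only [coe_mul, coe_inv, g0_inv, mul_inv_rev]
    exact (z_eq _ _ (by omega)).symm

theorem A_conj (n : ℤ) (x : R) (hx : x ∈ Algebra.adjoin k (Set.range E)) :
    ((T ^ n : Rˣ) : R) * x * ((T ^ n)⁻¹ : Rˣ) ∈ Algebra.adjoin k (Set.range E) := by
  induction hx using Algebra.adjoin_induction with
  | mem x hx =>
    obtain ⟨i, rfl⟩ := hx
    rw [TEz, Units.mul_inv_cancel_right]
    exact Algebra.subset_adjoin ⟨_, rfl⟩
  | algebraMap r =>
    rw [← Algebra.commutes, Units.mul_inv_cancel_right]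
    exact Subalgebra.algebraMap_mem _ r
  | add x y _ _ hx hy => rw [mul_add, add_mul]; exact add_mem hx hy
  | mul x y _ _ hx hy =>
    have := mul_mem hx hy
    rwa [mul_assoc, mul_assoc, mul_assoc, Units.inv_mul_cancel_left, ← mul_assoc x,
      ← mul_assoc] at this

theorem inv (g : P) (hg : g ∈ G) :
    (∃ ε : k, ∀ i, (g.1 : R) * E i = ε • (E (g.2 i) * g.1)) ∧
    ∃ n : ℤ, ((g.1 * (T ^ n)⁻¹ : Rˣ) : R) ∈ Algebra.adjoin k (Set.range E) ∧
      {i | g.2 i ≠ i + n}.Finite := by
  have h0 : (∃ ε : k, ∀ i, ((g0 0).1 : R) * E i = ε • (E ((g0 0).2 i) * (g0 0).1)) ∧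
      ∃ n : ℤ, (((g0 0).1 * (T ^ n)⁻¹ : Rˣ) : R) ∈ Algebra.adjoin k (Set.range E) ∧
        {i | (g0 0).2 i ≠ i + n}.Finite := by
    refine ⟨⟨-1, fun i => by rw [neg_one_smul]; exact ttE 0 i⟩, 0, ?_, ?_⟩
    · simp only [zpow_zero, inv_one, mul_one]
      exact Subalgebra.smul_mem _ (sub_mem (Algebra.subset_adjoin (Set.mem_range_self _))
        (Algebra.subset_adjoin (Set.mem_range_self _))) _
    · refine (Set.toFinite {0, 0 + 1}).subset (fun i hi => ?_)
      by_contra hc
      simp only [Set.mem_insert_iff, Set.mem_singleton_iff, not_or] at hc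
      exact hi ((Equiv.swap_apply_of_ne_of_ne hc.1 hc.2).trans (add_zero _).symm)
  induction hg using closure_induction'' with
  | mem s hs =>
    rcases hs with rfl | rfl
    · exact h0
    · exact ⟨⟨1, fun i => by rw [one_smul]; exact TE i⟩, 1, by simp [g1], by simp [g1]⟩
  | inv_mem s hs =>
    rcases hs with rfl | rfl
    · rw [g0_inv]; exact h0
    · exact ⟨⟨1, fun i => by rw [one_smul]; exact TE' i⟩, -1, by simp [g1], by simp [g1]⟩
  | one => exact ⟨⟨1, by simp⟩, 0, by simp, by simp⟩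
  | mul g h _ _ ih ih' =>
    obtain ⟨⟨ε, a1⟩, n, a2, a3⟩ := ih
    obtain ⟨⟨ε', b1⟩, m, b2, b3⟩ := ih'
    refine ⟨⟨ε' * ε, fun i => ?_⟩, n + m, ?_, ?_⟩
    · simp only [Prod.fst_mul, Prod.snd_mul, Units.val_mul, Equiv.Perm.mul_apply]
      rw [mul_assoc, b1, mul_smul_comm, ← mul_assoc, a1, smul_mul_assoc, smul_smul, mul_assoc]
    · have := mul_mem a2 (A_conj n _ b2)
      rw [← Units.val_mul, ← Units.val_mul, ← Units.val_mul] at this
      convert this using 2
      rw [Prod.fst_mul]; group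
    · refine (b3.union (a3.preimage h.2.injective.injOn)).subset (fun i hi => ?_)
      by_contra hc
      simp only [Set.mem_union, Set.mem_ofPred_eq, Set.mem_preimage, not_or, not_not] at hc
      apply hi
      rw [Prod.snd_mul, Equiv.Perm.mul_apply, hc.2, hc.1]; ring

def pr : G →* Equiv.Perm ℤ := (MonoidHom.snd _ _).comp G.subtype

theorem ker_fin : (pr.rangeRestrict.ker : Set G).Finite := by
  rw [MonoidHom.ker_rangeRestrict]
  refine Set.Finite.of_finite_image (f := fun g : G => (g.1.1 : R))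
    ((Set.finite_range (algebraMap k R)).subset ?_) (fun g hg g' hg' h => Subtype.ext
      (Prod.ext (Units.ext h) ((show g.1.2 = 1 from hg).trans (show g'.1.2 = 1 from hg').symm)))
  rintro _ ⟨g, hg, rfl⟩
  have h1 : g.1.2 = 1 := hg
  obtain ⟨⟨ε, a1⟩, n, a2, a3⟩ := inv g.1 g.2
  rw [h1] at a1 a3
  have : n = 0 := by
    obtain ⟨i, hi⟩ := a3.infinite_compl.nonempty
    simpa using hi
  subst this
  simp only [zpow_zero, inv_one, mul_one] at a2
  obtain ⟨c, hc⟩ := scalar E (by decide) E1 E2 _ a2 (ε • (g.1.1 : R)) (fun i => by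
    rw [mul_assoc, a1, mul_smul_comm, ← mul_assoc]
    simp [E1])
  exact ⟨c, hc.symm⟩

theorem final : ∃ (G H : Type) (_ : Group G) (_ : Group H) (S : Finset G) (T : Finset H),
    closure (S : Set G) = ⊤ ∧ closure (T : Set H) = ⊤ ∧ HighlyTransitive H ∧
    QuasiIsometric (mulCayley (S : Set G)) (mulCayley (T : Set H)) ∧
    ∀ (K : Type) [Group K], Commensurable G K → ¬ HighlyTransitive K := by
  classical
  have hS : (Subtype.val ⁻¹' {g0 0, g1} : Set G).Finite :=
    (Set.toFinite _).preimage Subtype.val_injective.injOn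
  have hS' : closure (Subtype.val ⁻¹' {g0 0, g1} : Set G) = ⊤ := closure_closure_coe_preimage
  refine ⟨G, pr.range, inferInstance, inferInstance, hS.toFinset,
    hS.toFinset.image pr.rangeRestrict, by simpa using hS', ?_,
    ht_of_swaps _ (fun i => ⟨⟨g0 i, g0_mem i⟩, rfl⟩), ?_, ?_⟩
  · rw [Finset.coe_image, hS.coe_toFinset, ← MonoidHom.map_closure, hS',
      map_top_of_surjective _ pr.rangeRestrict_surjective]
  · rw [Finset.coe_image, hS.coe_toFinset]
    exact qi_of_ker _ pr.rangeRestrict_surjective ker_fin _ hS'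
  · rintro K _ ⟨A, B, _, _, ⟨φ⟩⟩ hK
    have := center_triv hK B (φ ⟨_, z_fi A⟩) (fun b hb => by
      obtain ⟨a, ha⟩ := φ.surjective ⟨b, hb⟩
      have : a * ⟨_, z_fi A⟩ = ⟨_, z_fi A⟩ * a := Subtype.ext (Subtype.ext (z_comm _))
      have := congrArg (fun x => (φ x : K)) this
      simpa [ha] using this)
    have h2 : φ ⟨_, z_fi A⟩ = 1 := Subtype.ext this
    rw [map_eq_one_iff _ φ.injective] at h2
    exact z_ne (congrArg (fun x : A => x.1.1) h2)

end Pool.Agent.H69.HT
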