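import Mathlib

set_option autoImplicit false

namespace Pool.Agent.H69.HT

/-- Quasi-isometry of the graph metrics. -/
def QuasiIsometric {V V' : Type} (Γ : SimpleGraph V) (Γ' : SimpleGraph V') : Prop :=
  ∃ (f : V → V') (L C : ℝ), 1 ≤ L ∧ 0 ≤ C ∧
    (∀ x y, (Γ.dist x y : ℝ) / L - C ≤ Γ'.dist (f x) (f y) ∧
      (Γ'.dist (f x) (f y) : ℝ) ≤ L * Γ.dist x y + C) ∧
    ∀ y, ∃ x, (Γ'.dist y (f x) : ℝ) ≤ C

/-- The group has a faithful action on an infinite set that is `k`-transitive for every `k`. -/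
def HighlyTransitive (G : Type) [Group G] : Prop :=
  ∃ (Ω : Type) (_ : MulAction G Ω), Infinite Ω ∧ FaithfulSMul G Ω ∧
    ∀ (k : ℕ) (a b : Fin k → Ω), Function.Injective a → Function.Injective b →
      ∃ g : G, ∀ i, g • a i = b i

/-- Some finite-index subgroup of `G` is isomorphic to some finite-index subgroup of `K`. -/
def Commensurable (G K : Type) [Group G] [Group K] : Prop :=
  ∃ (A : Subgroup G) (B : Subgroup K), A.FiniteIndex ∧ B.FiniteIndex ∧ Nonempty (A ≃* B)

end Pool.Agent.H69.HT
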