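import Mathlib

namespace Pool.Agent.H69.Hyp
open Filter

section spaces
variable {S : Type} [MetricSpace S]

/-- Gromov product `(x|y)_o` -/
noncomputable def gp (x y o : S) : ℝ := (dist x o + dist y o - dist x y) / 2

/-- Gromov hyperbolicity (four-point condition) -/
def IsHyp (S : Type) [MetricSpace S] : Prop :=
  ∃ δ : ℝ, ∀ x y z w : S, min (gp x y w) (gp y z w) - δ ≤ gp x z w

/-- geodesic metric space -/
def IsGeod (S : Type) [MetricSpace S] : Prop :=
  ∀ p q : S, ∃ γ : ℝ → S, γ 0 = p ∧ γ (dist p q) = q ∧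
    ∀ s ∈ Set.Icc (0 : ℝ) (dist p q), ∀ t ∈ Set.Icc (0 : ℝ) (dist p q), dist (γ s) (γ t) = |s - t|

/-- `(x_m | y_n)_o → ∞`. Points of the Gromov boundary are the sequences `x` with `Eqv o x x`,
modulo `Eqv o`. -/
def Eqv (o : S) (x y : ℕ → S) : Prop :=
  Tendsto (fun p : ℕ × ℕ => gp (x p.1) (y p.2) o) atTop atTop

variable {G : Type} [Group G] [MulAction G S]

/-- `g` is loxodromic: `n ↦ gⁿ o` is a quasi-isometric embedding of `ℤ` -/
def Lox (o : S) (g : G) : Prop :=
  ∃ c : ℝ, 0 < c ∧ ∃ C : ℝ, ∀ n : ℤ, c * |(n : ℝ)| - C ≤ dist (g ^ n • o) o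

/-- `x` represents a boundary point fixed by `g` -/
def Fixes (o : S) (g : G) (x : ℕ → S) : Prop := Eqv o x x ∧ Eqv o (fun n => g • x n) x

variable (G)

/-- a loxodromic element, a global fixed point in the boundary, and an infinite limit set -/
def QuasiParabolic (o : S) : Prop :=
  (∃ g : G, Lox o g) ∧ (∃ x : ℕ → S, ∀ g : G, Fixes o g x) ∧
    ∃ ξ : ℕ → ℕ → G, (∀ i, Eqv o (fun n => ξ i n • o) (fun n => ξ i n • o)) ∧
      ∀ i j, i ≠ j → ¬ Eqv o (fun n => ξ i n • o) (fun n => ξ j n • o)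

/-- there is a loxodromic element and all loxodromic elements fix the same boundary points -/
def Lineal (o : S) : Prop :=
  (∃ g : G, Lox o g) ∧ ∀ g h : G, Lox o g → Lox o h → ∀ x, Fixes o g x ↔ Fixes o h x

/-- not lineal, a loxodromic element, and any two loxodromic elements share a fixed point -/
def Focal (o : S) : Prop :=
  ¬ Lineal G o ∧ (∃ g : G, Lox o g) ∧
    ∀ g h : G, Lox o g → Lox o h → ∃ x, Fixes o g x ∧ Fixes o h x

/-- the orbit of `o` is coarsely dense -/
def Cobounded (o : S) : Prop := ∃ R : ℝ, ∀ x : S, ∃ g : G, dist x (g • o) ≤ R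

end spaces

section cayley
variable {G : Type} [Group G]

/-- word length with respect to a possibly infinite set `X` -/
noncomputable def wl (X : Set G) (g : G) : ℕ :=
  sInf {n | ∃ l : List G, l.length = n ∧ (∀ s ∈ l, s ∈ X ∨ s⁻¹ ∈ X) ∧ l.prod = g}

theorem ex_word {X : Set G} (hX : Subgroup.closure X = ⊤) (g : G) :
    ∃ l : List G, (∀ s ∈ l, s ∈ X ∨ s⁻¹ ∈ X) ∧ l.prod = g := by
  have : g ∈ (Subgroup.closure X).toSubmonoid := by rw [hX]; trivial
  rw [Subgroup.closure_toSubmonoid] at this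
  obtain ⟨l, h1, h2⟩ := Submonoid.exists_list_of_mem_closure this
  exact ⟨l, fun s hs => by simpa using h1 s hs, h2⟩

theorem wl_spec {X : Set G} (hX : Subgroup.closure X = ⊤) (g : G) :
    ∃ l : List G, l.length = wl X g ∧ (∀ s ∈ l, s ∈ X ∨ s⁻¹ ∈ X) ∧ l.prod = g := by
  obtain ⟨l, h⟩ := ex_word hX g
  exact Nat.sInf_mem (s := {n | ∃ l : List G, l.length = n ∧ (∀ s ∈ l, s ∈ X ∨ s⁻¹ ∈ X) ∧
    l.prod = g}) ⟨_, l, rfl, h⟩

theorem wl_le {X : Set G} (l : List G) (h : ∀ s ∈ l, s ∈ X ∨ s⁻¹ ∈ X) :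
    wl X l.prod ≤ l.length := Nat.sInf_le ⟨l, rfl, h, rfl⟩

theorem wl_mul {X : Set G} (hX : Subgroup.closure X = ⊤) (g h : G) :
    wl X (g * h) ≤ wl X g + wl X h := by
  obtain ⟨l, a1, a2, rfl⟩ := wl_spec hX g
  obtain ⟨l', b1, b2, rfl⟩ := wl_spec hX h
  rw [← a1, ← b1, ← List.prod_append, ← List.length_append]
  exact wl_le _ fun s hs => (List.mem_append.1 hs).elim (a2 s) (b2 s)

theorem wl_inv_le {X : Set G} (hX : Subgroup.closure X = ⊤) (g : G) : wl X g⁻¹ ≤ wl X g := by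
  obtain ⟨l, a1, a2, rfl⟩ := wl_spec hX g
  rw [← a1, List.prod_inv_reverse]
  refine (wl_le _ fun s hs => ?_).trans (by simp)
  simp only [List.mem_reverse, List.mem_map] at hs
  obtain ⟨t, ht, rfl⟩ := hs
  simpa [or_comm] using a2 t ht

/-- a generating set of `G` -/
abbrev GenSet (G : Type) [Group G] : Type := {X : Set G // Subgroup.closure X = ⊤}

/-- the vertex set of the Cayley graph `Γ(G, X)` -/
def Cay (_X : GenSet G) : Type := G

/-- the word metric -/
noncomputable instance (X : GenSet G) : MetricSpace (Cay X) where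
  dist (g h : G) := wl X.1 (g⁻¹ * h)
  dist_self (g : G) := by
    have := wl_le (X := X.1) [] (by simp)
    simpa using this
  dist_comm (g h : G) := by
    have h1 := wl_inv_le X.2 (g⁻¹ * h)
    have h2 := wl_inv_le X.2 (h⁻¹ * g)
    simp only [mul_inv_rev, inv_inv] at h1 h2
    exact_mod_cast le_antisymm h2 h1
  dist_triangle (g h k : G) := by
    have := wl_mul X.2 (g⁻¹ * h) (h⁻¹ * k)
    rw [mul_assoc, mul_inv_cancel_left] at this
    exact_mod_cast this
  eq_of_dist_eq_zero {g h : G} e := by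
    obtain ⟨l, a1, -, a2⟩ := wl_spec X.2 (g⁻¹ * h)
    have : wl X.1 (g⁻¹ * h) = 0 := by exact_mod_cast e
    rw [this, List.length_eq_zero_iff] at a1
    subst a1
    exact (inv_mul_eq_one (G := G)).1 a2.symm

instance (X : GenSet G) : MulAction G (Cay X) := inferInstanceAs (MulAction G G)

/-- the identity vertex -/
def Cay.one (X : GenSet G) : Cay X := (1 : G)

/-- `X ⪯ Y`: the elements of `Y` have bounded `X`-length -/
def Dom (X Y : GenSet G) : Prop := ∃ C : ℕ, ∀ y ∈ Y.1, wl X.1 y ≤ C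

end cayley

open scoped Pointwise in
/-- a left-invariant finitely additive probability measure on all subsets -/
def Amenable (G : Type) [Group G] : Prop := ∃ m : Set G → ℝ, (∀ A, 0 ≤ m A) ∧ m Set.univ = 1 ∧
  (∀ A B, Disjoint A B → m (A ∪ B) = m A + m B) ∧ ∀ (g : G) (A : Set G), m (g • A) = m A

end Pool.Agent.H69.Hyp
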