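import Mathlib

set_option autoImplicit false

namespace Pool.Agent.H69.Inv

abbrev V := ZMod 2 × ZMod 2

def sg (v : V) : V := (v.2, v.1 + v.2)

def om : ℕ → V → ZMod 2
  | 0, v => v.1
  | i + 1, v => om i (sg v)

theorem om_add : ∀ i v w, om i (v + w) = om i v + om i w
  | 0, _, _ => rfl
  | i + 1, v, w => by
    have : sg (v + w) = sg v + sg w := by revert v w; decide
    simp only [om, this, om_add i]

theorem om_zero : ∀ i, om i 0 = 0
  | 0 => rfl
  | i + 1 => om_zero i

theorem om_surj : ∀ i, ∃ v, om i v = 1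
  | 0 => ⟨(1, 0), rfl⟩
  | i + 1 => by
    obtain ⟨v, h⟩ := om_surj i
    obtain ⟨w, rfl⟩ : ∃ w, sg w = v := by clear h; revert v; decide
    exact ⟨w, h⟩

def lev (n : ℕ) : ℕ := padicValNat 2 ((n + 1) / 2)

def al (n : ℕ) : ℕ := if n % 2 = 0 then n + 1 else n - 1
def be (n : ℕ) : ℕ := if n % 2 = 0 then n - 1 else n + 1

theorem al_al (n : ℕ) : al (al n) = n := by unfold al; split_ifs <;> omega
theorem be_be (n : ℕ) : be (be n) = n := by unfold be; split_ifs <;> omega
theorem lev_be (n : ℕ) : lev (be n) = lev n := by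
  unfold lev be; congr 1; split_ifs <;> omega

def act : Option V → ℕ → ℕ
  | none, n => al n
  | some v, n => if om (lev n) v = 0 then n else be n

theorem act_act (v w : V) (n : ℕ) : act (some v) (act (some w) n) = act (some (v + w)) n := by
  have h : ∀ x : ZMod 2, x = 0 ∨ x = 1 := by decide
  have h2 : (1 : ZMod 2) + 1 = 0 := by decide
  simp only [act, om_add]
  rcases h (om (lev n) v) with a | a <;> rcases h (om (lev n) w) with b | b <;>
    simp [a, b, lev_be, be_be, h2]

theorem act_zero (n : ℕ) : act (some 0) n = n := by simp [act, om_zero]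

theorem act_inv : ∀ l n, act l (act l n) = n
  | none, n => al_al n
  | some v, n => by
    have : v + v = 0 := by revert v; decide
    rw [act_act, this, act_zero]

theorem act_fix (v : V) : act (some v) 0 = 0 := by simp [act, be]

theorem act_le : ∀ l n, act l n ≤ n + 1
  | none, n => by simp only [act, al]; split_ifs <;> omega
  | some v, n => by simp only [act, be]; split_ifs <;> omega

theorem act_succ (n : ℕ) : ∃ l, act l n = n + 1 := by
  by_cases h : n % 2 = 0
  · exact ⟨none, by simp [act, al, h]⟩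
  · obtain ⟨v, hv⟩ := om_surj (lev n)
    exact ⟨some v, by simp [act, be, h, hv]⟩

def e0 (k : ℕ) : ℕ := if k % 2 = 0 then 2 * k + 1 else 2 * k
def e1 (k : ℕ) : ℕ := if k % 2 = 0 then 2 * k else 2 * k + 1

theorem a_e0 (k : ℕ) : act none (e0 k) = e1 k := by
  simp only [act, al, e0, e1]; split_ifs <;> omega
theorem a_e1 (k : ℕ) : act none (e1 k) = e0 k := by
  simp only [act, al, e0, e1]; split_ifs <;> omega

def s0 (v : V) : Option V := if v.1 = 0 then some 0 else none

theorem t_e0 (v : V) (k : ℕ) : act (some v) (e0 k) = e0 (act (s0 v) k) := by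
  have : lev (e0 k) = 0 := padicValNat.eq_zero_of_not_dvd (by unfold e0; split_ifs <;> omega)
  rw [s0]
  split_ifs with h
  · rw [act_zero]; simp [act, this, om, h]
  · simp only [act, this, om, h, if_false]
    simp only [be, al, e0]; split_ifs <;> omega

theorem t_e1 (v : V) (k : ℕ) : act (some v) (e1 k) = e1 (act (some (sg v)) k) := by
  by_cases hk : k = 0
  · subst hk; rw [act_fix]; exact act_fix v
  have : lev (e1 k) = lev k + 1 := by
    unfold lev
    rw [show (e1 k + 1) / 2 = 2 * ((k + 1) / 2) by unfold e1; split_ifs <;> omega,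
      padicValNat.mul (by omega) (by omega), padicValNat_self, add_comm]
  simp only [act, this, om]
  split_ifs
  · rfl
  · simp only [be, e1]; split_ifs <;> omega

def O : List (Option V) → Finset ℕ
  | [] => {0}
  | l :: w => insert 0 ((O w).image (act l))

theorem zero_mem : ∀ w, 0 ∈ O w
  | [] => by simp [O]
  | _ :: _ => by simp [O]

theorem O_le : ∀ w, ∀ n ∈ O w, n ≤ w.length
  | [], n, h => by simpa [O] using h
  | l :: w, n, h => by
    simp only [O, Finset.mem_insert, Finset.mem_image] at h
    rcases h with rfl | ⟨m, h, rfl⟩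
    · omega
    · exact (act_le l m).trans (by have := O_le w m h; simpa using this)

def wt : Option V → ℕ
  | none => 5
  | some v => if v = 0 then 0 else if v = (1, 1) then 6 else if v = (1, 0) then 4 else 2

def nu (w : List (Option V)) : ℕ := (w.map wt).sum

theorem nu_cons (l : Option V) (w : List (Option V)) : nu (l :: w) = wt l + nu w := by simp [nu]

theorem nu_le : ∀ w, nu w ≤ 6 * w.length
  | [] => by simp [nu]
  | l :: w => by
    have := nu_le w
    have h : wt l ≤ 6 := by revert l; decide
    rw [nu_cons, List.length_cons]; omega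

def Cov (w w0 w1 : List (Option V)) : Prop := O w ⊆ (O w0).image e0 ∪ (O w1).image e1

theorem cov_a {w w0 w1 : List (Option V)} (h : Cov w w0 w1) : Cov (none :: w) w1 w0 := by
  intro n hn
  simp only [O, Finset.mem_insert, Finset.mem_image, Finset.mem_union] at hn ⊢
  rcases hn with rfl | ⟨m, hm, rfl⟩
  · exact Or.inr ⟨0, zero_mem _, rfl⟩
  · have := h hm
    simp only [Finset.mem_image, Finset.mem_union] at this
    rcases this with ⟨k, hk, rfl⟩ | ⟨k, hk, rfl⟩
    exacts [Or.inr ⟨k, hk, (a_e0 k).symm⟩, Or.inl ⟨k, hk, (a_e1 k).symm⟩]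

theorem cov_t {w w0 w1 : List (Option V)} (v : V) (h : Cov w w0 w1) :
    Cov (some v :: w) (s0 v :: w0) (some (sg v) :: w1) := by
  intro n hn
  simp only [O, Finset.mem_insert, Finset.mem_image, Finset.mem_union] at hn ⊢
  rcases hn with rfl | ⟨m, hm, rfl⟩
  · exact Or.inr ⟨0, Or.inl rfl, rfl⟩
  · have := h hm
    simp only [Finset.mem_image, Finset.mem_union] at this
    rcases this with ⟨k, hk, rfl⟩ | ⟨k, hk, rfl⟩
    exacts [Or.inl ⟨_, Or.inr ⟨k, hk, rfl⟩, (t_e0 v k).symm⟩,
      Or.inr ⟨_, Or.inr ⟨k, hk, rfl⟩, (t_e1 v k).symm⟩]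

theorem split : ∀ (n : ℕ) (w : List (Option V)), w.length ≤ n →
    ∃ w0 w1, Cov w w0 w1 ∧ 8 * (nu w0 + nu w1) ≤ 7 * nu w + 35 := by
  have c0 : Cov [] [] [] := by intro n hn; simp only [O, Finset.mem_singleton] at hn; subst hn; decide
  have k1 : ∀ v : V, 8 * (wt (s0 v) + wt (some (sg v))) ≤ 7 * wt (some v) + 35 := by decide
  have k2 : ∀ v w : V, wt (some (v + w)) ≤ wt (some v) + wt (some w) := by decide
  intro n
  induction n with
  | zero =>
    intro w hw
    obtain rfl := List.length_eq_zero_iff.1 (Nat.le_zero.1 hw)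
    exact ⟨[], [], c0, by simp [nu]⟩
  | succ n ih =>
    intro w hw
    match w, hw with
    | [], _ => exact ⟨[], [], c0, by simp [nu]⟩
    | none :: w, hw =>
      obtain ⟨w0, w1, h1, h2⟩ := ih w (by simpa using hw)
      exact ⟨w1, w0, cov_a h1, by rw [nu_cons]; omega⟩
    | [some v], _ => exact ⟨_, _, cov_t v c0, by simpa [nu] using k1 v⟩
    | some v :: none :: w, hw =>
      obtain ⟨w0, w1, h1, h2⟩ := ih w (by simp at hw; omega)
      refine ⟨_, _, cov_t v (cov_a h1), ?_⟩
      have := k1 v
      simp only [nu_cons, show wt none = 5 from rfl]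
      omega
    | some v :: some u :: w, hw =>
      obtain ⟨w0, w1, h1, h2⟩ := ih (some (v + u) :: w) (by simp at hw ⊢; omega)
      refine ⟨w0, w1, ?_, ?_⟩
      · have : O (some v :: some u :: w) = O (some (v + u) :: w) := by
          simp only [O, Finset.image_insert, act_fix, Finset.insert_idem, Finset.image_image]
          congr 2
          funext m
          exact act_act v u m
        rwa [Cov, this]
      · have := k2 v u
        simp only [nu_cons] at h2 ⊢
        omega

theorem O_nu (w : List (Option V)) : (O w).card ≤ nu w + 1 := by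
  have k : ∀ l : Option V, l ≠ some 0 → 1 ≤ wt l := by decide
  induction w with
  | nil => simp [O]
  | cons l w ih =>
    by_cases h : l = some 0
    · subst h
      have : act (some 0) = id := funext act_zero
      rw [O, this, Finset.image_id, Finset.insert_eq_of_mem (zero_mem w), nu_cons]
      omega
    · have h1 := k l h
      have h2 := Finset.card_insert_le 0 ((O w).image (act l))
      have h3 := Finset.card_image_le (s := O w) (f := act l)
      rw [O, nu_cons]
      omega

theorem small (k : ℕ) : ∃ C, ∀ w, 8 ^ k * (O w).card ≤ 7 ^ k * nu w + C := by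
  induction k with
  | zero => exact ⟨1, fun w => by simpa using O_nu w⟩
  | succ k ih =>
    obtain ⟨C, hC⟩ := ih
    refine ⟨7 ^ k * 35 + 16 * C, fun w => ?_⟩
    obtain ⟨w0, w1, h1, h2⟩ := split _ w le_rfl
    have a := (Finset.card_le_card h1).trans ((Finset.card_union_le _ _).trans
      (Nat.add_le_add Finset.card_image_le Finset.card_image_le))
    have b := Nat.mul_le_mul_left (8 ^ k) a
    have c := Nat.mul_le_mul_left (7 ^ k) h2
    have := hC w0
    have := hC w1
    rw [pow_succ, pow_succ]
    nlinarith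

theorem small' (r : ℕ) : ∃ C, ∀ w, r * (O w).card ≤ w.length + C := by
  obtain ⟨k, hk⟩ := pow_unbounded_of_one_lt ((6 * r : ℕ) : ℝ) (show (1 : ℝ) < 8 / 7 by norm_num)
  rw [div_pow, lt_div_iff₀ (by positivity)] at hk
  have h1 : 6 * r * 7 ^ k ≤ 8 ^ k := by exact_mod_cast hk.le
  obtain ⟨C, hC⟩ := small k
  refine ⟨r * C, fun w => ?_⟩
  have h0 : 0 < 8 ^ k := by positivity
  refine Nat.le_of_mul_le_mul_left ?_ h0
  have a := Nat.mul_le_mul_left r ((hC w).trans (Nat.add_le_add_right
    (Nat.mul_le_mul_left _ (nu_le w)) C))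
  have b := Nat.mul_le_mul_right w.length h1
  have c : r * C ≤ 8 ^ k * (r * C) := Nat.le_mul_of_pos_left _ h0
  nlinarith

theorem count (M m : ℕ) (x : ℝ) (h0 : 0 < x) (h1 : x ≤ 1) (F : Finset (Finset ℕ))
    (hF : ∀ T ∈ F, T ⊆ Finset.range M ∧ T.card ≤ m) : F.card * x ^ m ≤ (1 + x) ^ M := by
  have := Finset.prod_one_add (f := fun _ : ℕ => x) (Finset.range M)
  simp only [Finset.prod_const, Finset.card_range] at this
  rw [this, ← nsmul_eq_mul, ← Finset.sum_const]
  refine le_trans (Finset.sum_le_sum (fun T hT => pow_le_pow_of_le_one h0.le h1 (hF T hT).2)) ?_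
  exact Finset.sum_le_sum_of_subset_of_nonneg (fun T hT => Finset.mem_powerset.2 (hF T hT).1)
    (fun _ _ _ => by positivity)

end Pool.Agent.H69.Inv
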