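import Pool.Agent.H69.Inv1

set_option autoImplicit false

namespace Pool.Agent.H69.Inv

open Pointwise

@[ext] structure WR where
  f : ℕ →₀ ZMod 2
  p : Equiv.Perm ℕ

noncomputable instance : Group WR where
  mul a b := ⟨a.f + Finsupp.equivMapDomain a.p b.f, a.p * b.p⟩
  one := ⟨0, 1⟩
  inv a := ⟨-Finsupp.equivMapDomain a.p⁻¹ a.f, a.p⁻¹⟩
  mul_assoc a b c := by
    apply WR.ext
    · ext x
      show (a.f + Finsupp.equivMapDomain a.p b.f + Finsupp.equivMapDomain (a.p * b.p) c.f) x =
        (a.f + Finsupp.equivMapDomain a.p (b.f + Finsupp.equivMapDomain b.p c.f)) x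
      simp only [Finsupp.add_apply, Finsupp.equivMapDomain_apply, add_assoc]
      rfl
    · exact mul_assoc _ _ _
  one_mul a := by
    apply WR.ext
    · ext x
      show (0 + Finsupp.equivMapDomain (1 : Equiv.Perm ℕ) a.f) x = _
      simp only [zero_add, Finsupp.equivMapDomain_apply]
      rfl
    · exact one_mul _
  mul_one a := by
    apply WR.ext
    · ext x
      show (a.f + Finsupp.equivMapDomain a.p (0 : ℕ →₀ ZMod 2)) x = _
      simp
    · exact mul_one _
  inv_mul_cancel a := by
    apply WR.ext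
    · exact neg_add_cancel _
    · exact inv_mul_cancel _

theorem mul_f (a b : WR) (x : ℕ) : (a * b).f x = a.f x + b.f (a.p⁻¹ x) := rfl
theorem mul_p (a b : WR) : (a * b).p = a.p * b.p := rfl
theorem inv_f (a : WR) (x : ℕ) : (a⁻¹).f x = -a.f (a.p x) := rfl
theorem inv_p (a : WR) : (a⁻¹).p = a.p⁻¹ := rfl
theorem one_f : (1 : WR).f = 0 := rfl
theorem one_p : (1 : WR).p = 1 := rfl

def pr : WR →* Equiv.Perm ℕ where
  toFun := WR.p
  map_one' := rfl
  map_mul' _ _ := rfl

noncomputable def io : Equiv.Perm ℕ →* WR where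
  toFun p := ⟨0, p⟩
  map_one' := rfl
  map_mul' _ _ := by ext x <;> simp [mul_f, mul_p]

def P (l : Option V) : Equiv.Perm ℕ := Function.Involutive.toPerm (act l) (act_inv l)

theorem P_apply (l : Option V) (n : ℕ) : P l n = act l n := rfl
theorem P_inv (l : Option V) (n : ℕ) : (P l)⁻¹ n = act l n := rfl

noncomputable def lamp (i j : ℕ) : WR := ⟨Finsupp.single i 1 + Finsupp.single j 1, 1⟩

noncomputable def T : Finset WR := by
  classical exact insert (lamp 0 1) (insert (io (Equiv.swap 0 1)) (Finset.univ.image (fun l => io (P l))))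

theorem mem_T {x : WR} : x ∈ T ↔ x = lamp 0 1 ∨ x = io (Equiv.swap 0 1) ∨ ∃ l, io (P l) = x := by
  simp [T]

noncomputable def G : Subgroup WR := Subgroup.closure (T : Set WR)

noncomputable def S : Finset G := T.preimage Subtype.val Subtype.val_injective.injOn

theorem S_gen : Subgroup.closure (S : Set G) = ⊤ := by
  rw [S, Finset.coe_preimage]; exact Subgroup.closure_closure_coe_preimage

theorem P_mem (l : Option V) : P l ∈ G.comap io :=
  Subgroup.subset_closure (mem_T.2 (Or.inr (Or.inr ⟨l, rfl⟩)))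

theorem swap_mem (i j : ℕ) : io (Equiv.swap i j) ∈ G := by
  have h0 : Equiv.swap 0 1 ∈ G.comap io := Subgroup.subset_closure (mem_T.2 (Or.inr (Or.inl rfl)))
  have h : ∀ n, Equiv.swap 0 n ∈ G.comap io := by
    intro n
    induction n with
    | zero => rw [Equiv.swap_self]; exact one_mem _
    | succ n ih =>
      obtain ⟨l, hl⟩ := act_succ n
      have h1 : Equiv.swap (P l 0) (P l n) ∈ G.comap io := by
        rw [Equiv.swap_apply_apply]
        exact mul_mem (mul_mem (P_mem l) ih) (inv_mem (P_mem l))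
      rw [P_apply, P_apply, hl] at h1
      refine SubmonoidClass.swap_mem_trans _ ?_ h1
      cases l with
      | none => exact h0
      | some v => rw [act_fix, Equiv.swap_self]; exact one_mem _
  exact SubmonoidClass.swap_mem_trans (G.comap io) (by rw [Equiv.swap_comm]; exact h i) (h j)

noncomputable def eps : (ℕ →₀ ZMod 2) →+ ZMod 2 := Finsupp.liftAddHom (fun _ => AddMonoidHom.id _)

theorem eps_single (i : ℕ) (c : ZMod 2) : eps (Finsupp.single i c) = c := by simp [eps]

theorem eps_map (p : Equiv.Perm ℕ) (f : ℕ →₀ ZMod 2) : eps (Finsupp.equivMapDomain p f) = eps f := by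
  simp only [eps, Finsupp.liftAddHom_apply, Finsupp.sum_equivMapDomain]

theorem even (x : WR) (hx : x ∈ G) : eps x.f = 0 := by
  induction hx using Subgroup.closure_induction with
  | mem x hx =>
    rcases mem_T.1 hx with rfl | rfl | ⟨l, rfl⟩
    · simp only [lamp, map_add, eps_single]; decide
    · exact map_zero _
    · exact map_zero _
  | one => exact map_zero _
  | mul a b _ _ h1 h2 =>
    show eps (a.f + Finsupp.equivMapDomain a.p b.f) = 0
    rw [map_add, eps_map, h1, h2, add_zero]
  | inv a _ h =>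
    show eps (-Finsupp.equivMapDomain a.p⁻¹ a.f) = 0
    rw [map_neg, eps_map, h, neg_zero]

noncomputable def N : Subgroup G := (pr.comp G.subtype).ker

theorem mem_N {x : G} : x ∈ N ↔ x.1.p = 1 := Iff.rfl

theorem key (M : Subgroup G) (hM : M.Normal) (x : G) (hx : x ∈ M) (h1 : x.1.p = 1) (h2 : x ≠ 1) :
    ∀ f, eps f = 0 → (⟨f, 1⟩ : WR) ∈ M.map G.subtype := by
  have z2 : ∀ a : ZMod 2, a = 0 ∨ a = 1 := by decide
  have cj : ∀ y ∈ M.map G.subtype, ∀ i j,
      io (Equiv.swap i j) * y * (io (Equiv.swap i j))⁻¹ ∈ M.map G.subtype := by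
    rintro _ ⟨y, hy, rfl⟩ i j
    exact ⟨_, hM.conj_mem y hy ⟨_, swap_mem i j⟩, rfl⟩
  obtain ⟨i, hi⟩ : ∃ i, x.1.f i ≠ 0 := by
    by_contra hc
    push Not at hc
    exact h2 (Subtype.ext (WR.ext (Finsupp.ext hc) h1))
  obtain ⟨j, hj⟩ := Infinite.exists_notMem_finset x.1.f.support
  rw [Finsupp.notMem_support_iff] at hj
  have hi' := (z2 _).resolve_left hi
  have hij : i ≠ j := fun h => hi (h ▸ hj)
  have a1 : lamp i j ∈ M.map G.subtype := by
    have hx' : x.1 ∈ M.map G.subtype := ⟨x, hx, rfl⟩
    convert mul_mem hx' (cj _ hx' i j) using 1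
    ext n
    · simp only [lamp, mul_f, mul_p, inv_f, io, MonoidHom.coe_mk, OneHom.coe_mk, h1,
        Finsupp.add_apply, Finsupp.single_apply, Finsupp.coe_zero, Pi.zero_apply, neg_zero,
        zero_add, add_zero, inv_one, Equiv.Perm.one_apply, Equiv.swap_inv]
      by_cases a : n = i
      · subst a; simp [hi', hj, hij.symm]
      by_cases b : n = j
      · subst b; simp [hi', hj, hij]
      · rw [Equiv.swap_apply_of_ne_of_ne a b, if_neg (Ne.symm a), if_neg (Ne.symm b), add_zero,
          CharTwo.add_self_eq_zero]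
    · simp [lamp, mul_p, inv_p, h1]
  have a2 : ∀ k, lamp i k ∈ M.map G.subtype := by
    intro k
    by_cases a : k = i
    · subst a
      convert one_mem (M.map G.subtype) using 1
      ext n
      · simp [lamp, one_f, CharTwo.add_self_eq_zero]
      · rfl
    convert cj _ a1 j k using 1
    ext n
    · simp only [lamp, mul_f, mul_p, inv_f, io, MonoidHom.coe_mk, OneHom.coe_mk,
        Finsupp.add_apply, Finsupp.single_apply, Finsupp.coe_zero, Pi.zero_apply, neg_zero,
        zero_add, add_zero, Equiv.swap_inv, Equiv.swap_apply_def]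
      split_ifs <;> first | rfl | omega
    · simp [lamp, mul_p, inv_p]
  have a3 : ∀ f, (⟨f + Finsupp.single i (eps f), 1⟩ : WR) ∈ M.map G.subtype := by
    intro f
    induction f using Finsupp.induction_linear with
    | zero => rw [map_zero, Finsupp.single_zero, add_zero]; exact one_mem (M.map G.subtype)
    | add f g h h' =>
      convert mul_mem h h' using 1
      ext n
      · simp only [mul_f, map_add, Finsupp.single_add, Finsupp.add_apply, inv_one,
          Equiv.Perm.one_apply]
        ring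
      · rfl
    | single k c =>
      rw [eps_single]
      rcases z2 c with rfl | rfl
      · rw [Finsupp.single_zero, Finsupp.single_zero, add_zero]; exact one_mem (M.map G.subtype)
      · rw [add_comm]; exact a2 k
  intro f hf
  simpa [hf] using a3 f

theorem supp (n : ℕ) : ∀ x ∈ ((S : Set G) ∪ (S : Set G)⁻¹ ∪ {1}) ^ n,
    ∃ w : List (Option V), w.length ≤ 2 * n ∧ x.1.f.support ⊆ O w := by
  induction n with
  | zero =>
    intro x hx
    rw [pow_zero, Set.mem_one] at hx
    exact ⟨[], le_rfl, by rw [hx]; exact Finset.empty_subset _⟩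
  | succ n ih =>
    intro x hx
    rw [pow_succ'] at hx
    obtain ⟨s, hs, y, hy, rfl⟩ := hx
    obtain ⟨w, h1, h2⟩ := ih y hy
    have inv : ∀ t ∈ T, t * t = 1 := by
      intro t ht
      rcases mem_T.1 ht with rfl | rfl | ⟨l, rfl⟩
      · ext n
        · simp [mul_f, lamp, one_f, CharTwo.add_self_eq_zero]
        · rfl
      · rw [← map_mul, Equiv.swap_mul_self, map_one]
      · rw [← map_mul, show P l * P l = 1 from Equiv.ext (act_inv l), map_one]
    have hs' : s.1 ∈ T ∨ s = 1 := by
      rcases hs with (hs | hs) | hs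
      · exact Or.inl (Finset.mem_preimage.1 hs)
      · have : (s.1)⁻¹ ∈ T := (Finset.mem_preimage (f := Subtype.val) (x := s⁻¹)).1 hs
        have h := inv _ this
        rw [← mul_inv_rev, inv_eq_one, ← eq_inv_iff_mul_eq_one] at h
        exact Or.inl (h ▸ this)
      · exact Or.inr hs
    have aa : ∀ m, m = 0 ∨ m = 1 ∨ m ∈ O w → m ∈ O (none :: none :: w) := by
      intro m hm
      simp only [O, Finset.mem_insert, Finset.mem_image]
      rcases hm with rfl | rfl | hm
      · exact Or.inl rfl
      · exact Or.inr ⟨0, Or.inl rfl, rfl⟩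
      · exact Or.inr ⟨_, Or.inr ⟨m, hm, rfl⟩, act_inv _ _⟩
    rcases hs' with hs' | rfl
    · rcases mem_T.1 hs' with h | h | ⟨l, h⟩
      · refine ⟨none :: none :: w, by simp; omega, fun m hm => aa m ?_⟩
        by_contra hc
        push Not at hc
        refine Finsupp.mem_support_iff.1 hm ?_
        have : y.1.f m = 0 := Finsupp.notMem_support_iff.1 (fun h => hc.2.2 (h2 h))
        simp [mul_f, h, lamp, this, Finsupp.single_apply, hc.1.symm, hc.2.1.symm]
      · refine ⟨none :: none :: w, by simp; omega, fun m hm => aa m ?_⟩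
        by_contra hc
        push Not at hc
        refine Finsupp.mem_support_iff.1 hm ?_
        have : y.1.f m = 0 := Finsupp.notMem_support_iff.1 (fun h => hc.2.2 (h2 h))
        simp [mul_f, h, io, this, Equiv.swap_apply_of_ne_of_ne hc.1 hc.2.1]
      · refine ⟨l :: w, by simp; omega, fun m hm => ?_⟩
        have : y.1.f (act l m) ≠ 0 := by
          simpa [mul_f, ← h, io, P_inv] using Finsupp.mem_support_iff.1 hm
        simp only [O, Finset.mem_insert, Finset.mem_image]
        exact Or.inr ⟨_, h2 (Finsupp.mem_support_iff.2 this), act_inv _ _⟩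
    · exact ⟨w, by omega, by simpa using h2⟩

theorem lamp_N (k : ℕ) : (⟨Finsupp.single 0 1 + Finsupp.single k 1, 1⟩ : WR) ∈ N.map G.subtype :=
  key N (MonoidHom.normal_ker _) ⟨lamp 0 1, Subgroup.subset_closure (mem_T.2 (Or.inl rfl))⟩ rfl rfl
    (fun h => by
      have := congrArg (fun x : G => x.1.f 0) h
      simp [lamp, one_f] at this) _ (by simp only [map_add, eps_single]; decide)

theorem N_inf : (N : Set G).Infinite := by
  intro h
  refine Set.infinite_of_injective_forall_mem (s := (N.map G.subtype : Set WR))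
    (f := fun k => ⟨Finsupp.single 0 1 + Finsupp.single k 1, 1⟩) (fun i j hij => ?_) lamp_N
    (h.image _)
  exact Finsupp.single_left_injective one_ne_zero (add_left_cancel (congrArg WR.f hij))

theorem N_min (M : Subgroup G) (hM : M.Normal) (h : M ≤ N) : M = ⊥ ∨ M = N := by
  by_cases h0 : M = ⊥
  · exact Or.inl h0
  obtain ⟨x, hx, h1⟩ := (Subgroup.bot_or_exists_ne_one M).resolve_left h0
  refine Or.inr (le_antisymm h (fun y hy => ?_))
  obtain ⟨z, hz, e⟩ := key M hM x hx (h hx) h1 _ (even _ y.2)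
  have : z = y := Subtype.ext (e.trans (WR.ext rfl (mem_N.1 hy).symm))
  exact this ▸ hz

theorem N_small (a b : ℝ) (ha : 0 < a) (hb : 1 < b) : ¬ ∀ n : ℕ,
    a * b ^ n ≤ ((((S : Set G) ∪ (S : Set G)⁻¹ ∪ {1}) ^ n ∩ (N : Set G)).ncard : ℝ) := by
  classical
  intro h
  obtain ⟨c, hc, rfl⟩ : ∃ c : ℝ, 1 < c ∧ c ^ 5 = b :=
    ⟨b ^ ((5 : ℕ) : ℝ)⁻¹, Real.one_lt_rpow hb (by norm_num),
      Real.rpow_inv_natCast_pow (by linarith) (by norm_num)⟩
  obtain ⟨x, x0, x1, x2⟩ : ∃ x : ℝ, 0 < x ∧ x ≤ 1 ∧ 1 + x ≤ c :=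
    ⟨min 1 (c - 1), lt_min one_pos (by linarith), min_le_left _ _,
      by have := min_le_right 1 (c - 1); linarith⟩
  obtain ⟨r, hr⟩ := pow_unbounded_of_one_lt x⁻¹ hc
  obtain ⟨C, hC⟩ := small' (r + 1)
  obtain ⟨n, hn⟩ := pow_unbounded_of_one_lt (c ^ (C + 1) / a) hc
  let F := (Finset.range (2 * n + 1)).powerset.filter (fun T => T.card ≤ (2 * n + C) / (r + 1))
  have h1 := count (2 * n + 1) ((2 * n + C) / (r + 1)) x x0 x1 F (fun T hT => by
    simpa [F] using hT)
  have h2 : (((S : Set G) ∪ (S : Set G)⁻¹ ∪ {1}) ^ n ∩ (N : Set G)).ncard ≤ F.card := by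
    rw [← Set.ncard_coe_finset]
    refine Set.ncard_le_ncard_of_injOn (fun y => y.1.f.support) (fun y hy => ?_)
      (fun y hy z hz e => ?_) (Finset.finite_toSet _)
    · obtain ⟨w, a1, a2⟩ := supp n y hy.1
      simp only [F, Finset.coe_filter, Finset.mem_powerset, Set.mem_ofPred_eq]
      refine ⟨fun m hm => Finset.mem_range.2 (by have := O_le w m (a2 hm); omega), ?_⟩
      rw [Nat.le_div_iff_mul_le (by omega), mul_comm]
      exact (Nat.mul_le_mul_left _ (Finset.card_le_card a2)).trans ((hC w).trans (by omega))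
    · refine Subtype.ext (WR.ext ?_ ((mem_N.1 hy.2).trans (mem_N.1 hz.2).symm))
      ext m
      have := Finset.ext_iff.1 e m
      simp only [Finsupp.mem_support_iff] at this
      revert this
      generalize y.1.f m = p
      generalize z.1.f m = q
      revert p q; decide
  have h3 : (F.card : ℝ) ≤ c ^ (2 * n + 1) * c ^ (2 * n + C) := by
    have b1 : (F.card : ℝ) ≤ (1 + x) ^ (2 * n + 1) * x⁻¹ ^ ((2 * n + C) / (r + 1)) := by
      rwa [inv_pow, ← div_eq_mul_inv, le_div_iff₀ (by positivity)]
    refine b1.trans (mul_le_mul (pow_le_pow_left₀ (by positivity) x2 _) ?_ (by positivity)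
      (by positivity))
    refine (pow_le_pow_left₀ (by positivity) hr.le _).trans ?_
    rw [← pow_mul]
    refine pow_le_pow_right₀ hc.le ?_
    exact le_trans (Nat.mul_le_mul_right _ (Nat.le_succ r)) (Nat.mul_div_le _ _)
  have h4 := (h n).trans ((Nat.cast_le.2 h2).trans h3)
  rw [div_lt_iff₀ ha] at hn
  have e1 : a * (c ^ 5) ^ n = c ^ n * a * c ^ (4 * n) := by ring
  have e2 : c ^ (2 * n + 1) * c ^ (2 * n + C) = c ^ (C + 1) * c ^ (4 * n) := by ring
  rw [e1, e2] at h4
  exact absurd (le_of_mul_le_mul_right h4 (by positivity)) (not_le.2 hn)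

end Pool.Agent.H69.Inv
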