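import Pool.Agent.H69.Pet5

set_option autoImplicit false

namespace Pool.Agent.H69.Pet

open Filter

noncomputable def rate (u : ℕ → ℕ) : ℝ :=
  limsup (fun n : ℕ => ((u n : ℕ) : ℝ) ^ ((1 : ℝ) / (n : ℝ))) atTop

theorem root_le {a r : ℝ} {n : ℕ} (hn : 0 < n) (ha : 0 ≤ a) (hr : 0 ≤ r) (h : a ≤ r ^ n) :
    a ^ ((1 : ℝ) / (n : ℝ)) ≤ r := by
  refine (Real.rpow_le_rpow ha h (by positivity)).trans (le_of_eq ?_)
  rw [one_div, Real.pow_rpow_inv_natCast hr hn.ne']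

theorem le_root {a r : ℝ} {n : ℕ} (hn : 0 < n) (hr : 0 ≤ r) (h : r ^ n ≤ a) :
    r ≤ a ^ ((1 : ℝ) / (n : ℝ)) := by
  refine le_trans (le_of_eq ?_) (Real.rpow_le_rpow (by positivity) h (by positivity))
  rw [one_div, Real.pow_rpow_inv_natCast hr hn.ne']

theorem rate_le (u : ℕ → ℕ) (r : ℝ) (hr : 0 ≤ r) (h : ∀ᶠ n in atTop, (u n : ℝ) ≤ r ^ n) :
    rate u ≤ r := by
  refine limsup_le_of_le (isCoboundedUnder_le_of_le _ (x := 0) (fun n => by positivity)) ?_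
  filter_upwards [h, eventually_gt_atTop 0] with n h1 h2
  exact root_le h2 (by positivity) hr h1

theorem le_rate (u : ℕ → ℕ) (r : ℝ) (R : ℕ) (hr : 0 ≤ r) (h : ∃ᶠ n in atTop, r ^ n ≤ (u n : ℝ))
    (h' : ∀ n, u n ≤ R ^ n) : r ≤ rate u := by
  refine le_limsup_of_frequently_le ?_ ⟨R, ?_⟩
  · exact (h.and_eventually (eventually_gt_atTop 0)).mono (fun n hn => le_root hn.2 hr hn.1)
  · rw [eventually_map]
    filter_upwards [eventually_gt_atTop 0] with n h2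
    exact root_le h2 (by positivity) (by positivity) (by exact_mod_cast h' n)

theorem poly_le (c d : ℕ) (x : ℝ) (hx : 1 < x) : ∀ᶠ n : ℕ in atTop, (c * n ^ d : ℝ) ≤ x ^ n := by
  have := (tendsto_pow_const_div_const_pow_of_one_lt d hx).const_mul (c : ℝ)
  rw [mul_zero] at this
  filter_upwards [this.eventually (gt_mem_nhds one_pos)] with n hn
  rw [← mul_div_assoc, div_lt_one (by positivity)] at hn
  exact hn.le

theorem rate_eq (u : ℕ → ℕ) (q c d R : ℕ) (hq : 0 < q) (h1 : ∀ n, 0 < n → u n ≤ c * n ^ d * q ^ n)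
    (h2 : ∀ n, 0 < n → q ^ n ≤ n * u n) (h3 : ∀ n, u n ≤ R ^ n) : rate u = q := by
  have hq' : (0 : ℝ) < q := by exact_mod_cast hq
  refine le_antisymm (le_of_forall_gt_imp_ge_of_dense fun r hr => rate_le u r (by linarith) ?_)
    (le_of_forall_lt_imp_le_of_dense fun r hr => ?_)
  · filter_upwards [poly_le c d (r / q) (by rwa [one_lt_div hq']), eventually_gt_atTop 0]
      with n a1 a2
    have : (u n : ℝ) ≤ c * n ^ d * q ^ n := by exact_mod_cast h1 n a2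
    rw [div_pow, le_div_iff₀ (by positivity)] at a1
    exact this.trans a1
  · by_cases h0 : r ≤ 0
    · exact h0.trans (le_rate u 0 R le_rfl (Eventually.frequently (by
        filter_upwards [eventually_gt_atTop 0] with n hn
        rw [zero_pow hn.ne']; positivity)) h3)
    push Not at h0
    refine le_rate u r R h0.le (Eventually.frequently ?_) h3
    filter_upwards [poly_le 1 1 (q / r) (by rwa [one_lt_div h0]), eventually_gt_atTop 0]
      with n a1 a2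
    have : (q : ℝ) ^ n ≤ n * u n := by exact_mod_cast h2 n a2
    rw [div_pow, le_div_iff₀ (by positivity)] at a1
    have a3 : (0 : ℝ) < n := by exact_mod_cast a2
    simp only [Nat.cast_one, pow_one, one_mul] at a1
    exact le_of_mul_le_mul_left (a1.trans this) a3

theorem B_ev (m : ℕ) : ∀ᶠ n : ℕ in atTop,
    (ConjClasses.mk '' Bl (SB m) n).ncard ≤ (2 * SQ.card + 1) ^ n * 2 ^ n := by
  obtain ⟨c, hc⟩ : ∃ c, c = 8 * (m + 2) := ⟨_, rfl⟩
  obtain ⟨j0, hj⟩ := eventually_atTop.1 (poly_le (16 * (c + 2) * (2 * c + 15)) 1 2 one_lt_two)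
  filter_upwards [eventually_gt_atTop (16 ^ (j0 + 1))] with n hn
  have h0 : 1 < n := lt_of_le_of_lt (Nat.one_le_pow _ _ (by norm_num)) hn
  have h1 := Nat.le_pow_clog (b := 16) (by norm_num) n
  have h2 := Nat.pow_pred_clog_lt_self (b := 16) (by norm_num) h0
  have h3 : j0 + 1 < Nat.clog 16 n :=
    (Nat.pow_lt_pow_iff_right (by norm_num)).1 (hn.trans_le h1)
  obtain ⟨j, hj'⟩ : ∃ j, Nat.clog 16 n = j + 1 := ⟨Nat.clog 16 n - 1, by omega⟩
  rw [hj'] at h1 h2 h3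
  have h4 : 16 * (c + 2) * (2 * c + 15) * (j + 1) ≤ 2 ^ (j + 1) := by
    have := hj (j + 1) (by omega)
    rw [pow_one] at this
    exact_mod_cast this
  refine (B_conj m n (j + 1) (8 ^ (j + 1)) h1 (by positivity)).trans (Nat.mul_le_mul_left _ ?_)
  have h5 : 16 ^ (j + 1) < 16 * n := by rw [pow_succ']; simpa using h2
  clear h2
  generalize j + 1 = i at *
  have e16 : 16 ^ i = 2 ^ i * 8 ^ i := by rw [← mul_pow]; norm_num
  have hN : 8 * 4 ^ i * ((m + 2) * n) ≤ 8 ^ i * (c * 8 ^ i) := by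
    calc _ = c * (4 ^ i * n) := by rw [hc]; ring
      _ ≤ c * (4 ^ i * 16 ^ i) := by gcongr
      _ = _ := by rw [← mul_pow, mul_left_comm, ← mul_pow]; norm_num
  generalize 8 * 4 ^ i * ((m + 2) * n) = N at *
  have h6 : N / 8 ^ i ≤ c * 8 ^ i := Nat.div_le_of_le_mul hN
  have h7 : N + 1 ≤ 2 ^ (c + 6 * i) := by
    have : c < 2 ^ c := Nat.lt_two_pow_self
    have e : (2 : ℕ) ^ (6 * i) = 8 ^ i * 8 ^ i := by rw [pow_mul, ← mul_pow]; norm_num
    have : 0 < 8 ^ i * 8 ^ i := by positivity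
    rw [pow_add, e]
    nlinarith
  have h8 : (N + 1) * (N + 1) + 1 ≤ 2 ^ ((2 * c + 15) * i) := by
    have a : 2 ^ (2 * (c + 6 * i) + 1) ≤ 2 ^ ((2 * c + 15) * i) :=
      Nat.pow_le_pow_right (by norm_num) (by nlinarith)
    refine le_trans ?_ a
    rw [pow_succ, two_mul, pow_add]
    nlinarith
  refine (Nat.pow_le_pow_left h8 _).trans ?_
  rw [← pow_mul]
  refine Nat.pow_le_pow_right (by norm_num) ?_
  have h9 : 1 ≤ 8 ^ i := Nat.one_le_pow _ _ (by norm_num)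
  have h10 : 8 ^ i + 1 + N / 8 ^ i ≤ (c + 2) * 8 ^ i := by nlinarith
  have h11 : 16 * ((2 * c + 15) * i * ((c + 2) * 8 ^ i)) ≤ 16 ^ i := by
    rw [e16]
    calc _ = 16 * (c + 2) * (2 * c + 15) * i * 8 ^ i := by ring
      _ ≤ _ := by gcongr
  have := Nat.mul_le_mul_left ((2 * c + 15) * i) h10
  omega

section prod
variable {A B : Type} [Group A] [Group B]

theorem Bl_inv1 {S : Finset A} {x : A} (h : x⁻¹ ∈ Bl S 1) : x ∈ Bl S 1 := by
  rcases Bl_succ h with h | ⟨y, hy, z, hz, h⟩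
  · rw [inv_eq_one.1 h]; exact Bl_one _ _
  · rw [Bl_zero hz, mul_one] at h
    subst h
    exact Bl_gen (by simpa [or_comm] using hy)

theorem Bl_succ' {S : Finset A} {n : ℕ} {g : A} (h : g ∈ Bl S (n + 1)) :
    ∃ x ∈ Bl S 1, ∃ y ∈ Bl S n, g = x * y := by
  rcases Bl_succ h with rfl | ⟨y, hy, z, hz, h⟩
  · exact ⟨1, Bl_one _ _, 1, Bl_one _ _, by simp⟩
  · exact ⟨y, Bl_gen hy, z, hz, h⟩

noncomputable def S1 (S : Finset A) (T : Finset B) : Finset (A × B) := by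
  classical exact S.image (fun a => (a, 1)) ∪ T.image (fun b => (1, b))

noncomputable def S2 (S : Finset A) (T : Finset B) : Finset (A × B) :=
  ((Bl_fin S 1).prod (Bl_fin T 1)).toFinset

theorem mem_S1 {S : Finset A} {T : Finset B} {x : A × B} :
    x ∈ S1 S T ↔ (x.1 ∈ S ∧ x.2 = 1) ∨ (x.1 = 1 ∧ x.2 ∈ T) := by
  obtain ⟨a, b⟩ := x
  simp only [S1, Finset.mem_union, Finset.mem_image, Prod.mk.injEq]
  constructor
  · rintro (⟨_, h, rfl, rfl⟩ | ⟨_, h, rfl, rfl⟩)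
    exacts [Or.inl ⟨h, rfl⟩, Or.inr ⟨rfl, h⟩]
  · rintro (⟨h, rfl⟩ | ⟨rfl, h⟩)
    exacts [Or.inl ⟨_, h, rfl, rfl⟩, Or.inr ⟨_, h, rfl, rfl⟩]

theorem S2_ball (S : Finset A) (T : Finset B) (n : ℕ) : Bl (S2 S T) n = Bl S n ×ˢ Bl T n := by
  induction n with
  | zero =>
    ext x
    exact ⟨fun h => by rw [Bl_zero h]; exact ⟨Bl_one _ _, Bl_one _ _⟩,
      fun h => by rw [Prod.ext (Bl_zero h.1) (Bl_zero h.2) (y := 1)]; exact Bl_one _ _⟩
  | succ n ih =>
    ext x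
    constructor
    · intro h
      rcases Bl_succ h with rfl | ⟨y, hy, z, hz, rfl⟩
      · exact ⟨Bl_one _ _, Bl_one _ _⟩
      rw [ih] at hz
      simp only [S2, Set.Finite.mem_toFinset] at hy
      have : y.1 ∈ Bl S 1 ∧ y.2 ∈ Bl T 1 := hy.elim id (fun h => ⟨Bl_inv1 h.1, Bl_inv1 h.2⟩)
      rw [add_comm]
      exact ⟨Bl_mul this.1 hz.1, Bl_mul this.2 hz.2⟩
    · rintro ⟨h1, h2⟩
      obtain ⟨a, ha, a', ha', e⟩ := Bl_succ' h1
      obtain ⟨b, hb, b', hb', e'⟩ := Bl_succ' h2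
      have : x = (a, b) * (a', b') := Prod.ext e e'
      rw [this, add_comm]
      refine Bl_mul (Bl_gen (Or.inl ?_)) (by rw [ih]; exact ⟨ha', hb'⟩)
      simp only [S2, Set.Finite.mem_toFinset]
      exact ⟨ha, hb⟩

theorem gen_of_ball {S : Finset A} (h : ∀ g, ∃ n, g ∈ Bl S n) :
    Subgroup.closure (S : Set A) = ⊤ := by
  rw [eq_top_iff]
  intro g _
  obtain ⟨n, l, -, h2, rfl⟩ := h g
  exact list_prod_mem (fun x hx => (h2 x hx).elim (fun h => Subgroup.subset_closure h)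
    (fun h => (inv_mem_iff).1 (Subgroup.subset_closure h)))

theorem S2_gen {S : Finset A} {T : Finset B} (hS : Subgroup.closure (S : Set A) = ⊤)
    (hT : Subgroup.closure (T : Set B) = ⊤) : Subgroup.closure (S2 S T : Set (A × B)) = ⊤ := by
  refine gen_of_ball fun g => ?_
  obtain ⟨n, hn⟩ := Bl_ex hS g.1
  obtain ⟨m, hm⟩ := Bl_ex hT g.2
  exact ⟨n + m, by rw [S2_ball]; exact ⟨Bl_mono _ (by omega) hn, Bl_mono _ (by omega) hm⟩⟩

theorem Bl_map (f : A →* B) {S : Finset A} {T : Finset B} (h : ∀ s ∈ S, f s ∈ T) {n : ℕ} {g : A}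
    (hg : g ∈ Bl S n) : f g ∈ Bl T n := by
  obtain ⟨l, h1, h2, rfl⟩ := hg
  refine ⟨l.map f, by simpa using h1, fun x hx => ?_, by rw [map_list_prod]⟩
  obtain ⟨y, hy, rfl⟩ := List.mem_map.1 hx
  exact (h2 y hy).imp (h y) (fun h' => by simpa using h _ h')

theorem S1_gen {S : Finset A} {T : Finset B} (hS : Subgroup.closure (S : Set A) = ⊤)
    (hT : Subgroup.closure (T : Set B) = ⊤) : Subgroup.closure (S1 S T : Set (A × B)) = ⊤ := by
  refine gen_of_ball fun g => ?_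
  obtain ⟨n, hn⟩ := Bl_ex hS g.1
  obtain ⟨m, hm⟩ := Bl_ex hT g.2
  refine ⟨n + m, ?_⟩
  have := Bl_mul (Bl_map (MonoidHom.inl A B) (T := S1 S T) (fun s hs => by simp [mem_S1, hs]) hn)
    (Bl_map (MonoidHom.inr A B) (T := S1 S T) (fun s hs => by simp [mem_S1, hs]) hm)
  simpa using this

theorem S1_ball (S : Finset A) (T : Finset B) (n : ℕ) : ∀ x ∈ Bl (S1 S T) n,
    ∃ i ≤ n, x.1 ∈ Bl S i ∧ x.2 ∈ Bl T (n - i) := by
  induction n with
  | zero => intro x h; rw [Bl_zero h]; exact ⟨0, le_rfl, Bl_one _ _, Bl_one _ _⟩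
  | succ n ih =>
    intro x h
    rcases Bl_succ h with rfl | ⟨y, hy, z, hz, rfl⟩
    · exact ⟨0, by omega, Bl_one _ _, Bl_one _ _⟩
    obtain ⟨i, h1, h2, h3⟩ := ih z hz
    have : (y.1 ∈ Bl S 1 ∧ y.2 = 1) ∨ (y.1 = 1 ∧ y.2 ∈ Bl T 1) := by
      simp only [mem_S1, Prod.fst_inv, Prod.snd_inv, inv_eq_one] at hy
      rcases hy with (h | h) | (h | h)
      exacts [Or.inl ⟨Bl_gen (Or.inl h.1), h.2⟩, Or.inr ⟨h.1, Bl_gen (Or.inl h.2)⟩,
        Or.inl ⟨Bl_gen (Or.inr h.1), h.2⟩, Or.inr ⟨h.1, Bl_gen (Or.inr h.2)⟩]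
    rcases this with ⟨a, b⟩ | ⟨a, b⟩
    · refine ⟨1 + i, by omega, Bl_mul a h2, ?_⟩
      rw [Prod.snd_mul, b, one_mul]
      exact Bl_mono _ (by omega) h3
    · refine ⟨i, by omega, by rw [Prod.fst_mul, a, one_mul]; exact h2, ?_⟩
      exact Bl_mono _ (by omega) (Bl_mul b h3)

theorem S1_up (S : Finset A) (T : Finset B) (q n M : ℕ) (h1 : ∀ i ≤ n, (Bl S i).ncard ≤ M * q ^ i)
    (h2 : ∀ i, (Bl T i).ncard ≤ q ^ i) : (Bl (S1 S T) n).ncard ≤ (n + 1) * M * q ^ n := by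
  classical
  have : Bl (S1 S T) n ⊆ ((Finset.range (n + 1)).biUnion
      (fun i => (Bl_fin S i).toFinset ×ˢ (Bl_fin T (n - i)).toFinset) : Finset _) := by
    intro x hx
    obtain ⟨i, a, b, c⟩ := S1_ball S T n x hx
    simp only [Finset.coe_biUnion, Finset.coe_range, Set.mem_iUnion]
    exact ⟨i, by simp; omega, by simp [b, c]⟩
  refine (Set.ncard_le_ncard this (Finset.finite_toSet _)).trans ?_
  rw [Set.ncard_coe_finset]
  refine (Finset.card_biUnion_le_card_mul _ _ (M * q ^ n) (fun i hi => ?_)).trans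
    (by simp [mul_assoc])
  have hi' : i ≤ n := by simp at hi; omega
  rw [Finset.card_product, ← Set.ncard_eq_toFinset_card _ (Bl_fin S i),
    ← Set.ncard_eq_toFinset_card _ (Bl_fin T (n - i))]
  refine (Nat.mul_le_mul (h1 i hi') (h2 _)).trans (le_of_eq ?_)
  rw [mul_assoc, ← pow_add, Nat.add_sub_cancel' hi']

theorem S1_low (S : Finset A) (T : Finset B) (n : ℕ) :
    (ConjClasses.mk '' Bl S n).ncard ≤ (ConjClasses.mk '' Bl (S1 S T) n).ncard := by
  refine le_trans (Set.ncard_le_ncard ?_ (((Bl_fin _ _).image _).image _))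
    (Set.ncard_image_le (f := ConjClasses.map (MonoidHom.fst A B)) ((Bl_fin _ _).image _))
  rintro _ ⟨g, hg, rfl⟩
  exact ⟨_, ⟨_, Bl_map (MonoidHom.inl A B) (T := S1 S T) (fun s hs => by simp [mem_S1, hs]) hg,
    rfl⟩, rfl⟩

theorem S2_conj (S : Finset A) (T : Finset B) (n : ℕ) :
    (ConjClasses.mk '' Bl (S2 S T) n).ncard ≤ (Bl S n).ncard * (ConjClasses.mk '' Bl T n).ncard := by
  rw [S2_ball, ← Set.ncard_prod]
  refine ncard_le_of_factor _ _ (fun x => (x.1, ConjClasses.mk x.2)) _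
    ((Bl_fin _ _).prod ((Bl_fin _ _).image _)) (fun a ha => ⟨ha.1, _, ha.2, rfl⟩)
    (fun a _ b _ he => ?_)
  simp only [Prod.mk.injEq] at he
  obtain ⟨c, hc⟩ := isConj_iff.1 (ConjClasses.mk_eq_mk_iff_isConj.1 he.2)
  exact ConjClasses.mk_eq_mk_iff_isConj.2 (isConj_iff.2 ⟨(1, c), Prod.ext (by simp [he.1]) hc⟩)

end prod

theorem A_ball {q : ℕ} [NeZero q] (k : ℕ) : q ^ k ≤ (Bl (SA q) k).ncard := by
  classical
  have := Set.ncard_le_ncard_of_injOn (s := Set.univ) (t := Bl (SA q) k)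
    (fun v : Fin k → ZMod q => (⟨Finsupp.mapDomain (fun x : Fin k => ((x : ℕ) : ℤ))
      (Finsupp.equivFunOnFinite.symm v), k⟩ : LL q))
    (fun v _ => A_pos k _ (fun x hx => by
      by_contra hc
      refine hx (Finsupp.mapDomain_notin_range _ _ ?_)
      rintro ⟨y, rfl⟩
      have := y.2
      simp only at hc
      omega))
    (fun v _ w _ he => Finsupp.equivFunOnFinite.symm.injective (Finsupp.mapDomain_injective
      (fun a b h => Fin.ext (by simpa using h)) (congrArg LL.f he))) (Bl_fin _ _)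
  simpa [Set.ncard_univ] using this

theorem main : ∃ (G : Type) (_ : Group G) (S T : Finset G), Subgroup.closure (S : Set G) = ⊤ ∧
    Subgroup.closure (T : Set G) = ⊤ ∧
    rate (fun n => (ConjClasses.mk '' Bl S n).ncard) = rate (fun n => (Bl S n).ncard) ∧
    rate (fun n => (ConjClasses.mk '' Bl T n).ncard) < rate (fun n => (Bl T n).ncard) := by
  obtain ⟨r, hr⟩ : ∃ r, r = 4 * (2 * SQ.card + 1) + 1 := ⟨_, rfl⟩
  obtain ⟨m, hm⟩ : ∃ m, m = r * r := ⟨_, rfl⟩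
  obtain ⟨q, hq⟩ : ∃ q, q = 2 * (SB m).card + 1 := ⟨_, rfl⟩
  haveI : NeZero q := ⟨by omega⟩
  have cl : ∀ (S : Finset (LL q × BB m)) n, (ConjClasses.mk '' Bl S n).ncard ≤ (Bl S n).ncard :=
    fun S n => Set.ncard_image_le (Bl_fin _ _)
  have u1 : ∀ n, 0 < n → (Bl (S1 (SA q) (SB m)) n).ncard ≤ 12 * n ^ 3 * q ^ n := fun n hn => by
    refine (S1_up _ _ q n ((n + 1) * (2 * n + 1)) (fun i hi => (A_up i).trans (by gcongr))
      (fun i => hq ▸ Bl_ncard _ _)).trans (Nat.mul_le_mul_right _ ?_)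
    calc _ ≤ (2 * n) * ((2 * n) * (3 * n)) := by gcongr <;> omega
      _ = _ := by ring
  have u2 : ∀ n, 0 < n → q ^ n ≤ n * (ConjClasses.mk '' Bl (S1 (SA q) (SB m)) n).ncard :=
    fun n hn => (A_low n hn).trans (Nat.mul_le_mul_left _ (S1_low _ _ _))
  refine ⟨LL q × BB m, inferInstance, S1 (SA q) (SB m), S2 (SA q) (SB m), S1_gen SA_gen (SB_gen m),
    S2_gen SA_gen (SB_gen m), ?_, ?_⟩
  · rw [rate_eq _ q 12 3 _ (by omega) (fun n hn => (cl _ n).trans (u1 n hn)) u2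
      (fun n => (cl _ n).trans (Bl_ncard _ _)), rate_eq _ q 12 3 _ (by omega) u1
      (fun n hn => (u2 n hn).trans (Nat.mul_le_mul_left _ (cl _ n))) (fun n => Bl_ncard _ _)]
  · refine lt_of_le_of_lt (rate_le _ ((2 * q * ((2 * SQ.card + 1) * 2) : ℕ) : ℝ) (by positivity) ?_)
      (lt_of_lt_of_le ?_ (le_rate _ ((q * r : ℕ) : ℝ) _ (by positivity) ?_ (fun n => Bl_ncard _ _)))
    · filter_upwards [B_ev m, poly_le 6 2 2 one_lt_two, eventually_gt_atTop 0] with n a1 a2 a3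
      have a4 : 6 * n ^ 2 ≤ 2 ^ n := by exact_mod_cast a2
      have a5 : (n + 1) * (2 * n + 1) ≤ 2 ^ n := by nlinarith
      rw [← Nat.cast_pow, Nat.cast_le, mul_pow, mul_pow, mul_pow]
      exact (S2_conj _ _ _).trans (Nat.mul_le_mul ((A_up n).trans (by gcongr)) a1)
    · rw [Nat.cast_lt, hr]
      nlinarith [show 0 < q by omega]
    · rw [frequently_atTop]
      intro n
      refine ⟨2 * n + 1, by omega, ?_⟩
      rw [← Nat.cast_pow, Nat.cast_le, S2_ball, Set.ncard_prod, mul_pow]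
      refine Nat.mul_le_mul ?_ (le_trans ?_ (B_grow m n))
      · exact A_ball _
      · have : r * r ≤ (m + 1).factorial := le_trans (by omega) (Nat.self_le_factorial _)
        refine le_trans ?_ (Nat.pow_le_pow_left this _)
        rw [← pow_two, ← pow_mul]
        exact Nat.pow_le_pow_right (by omega) (by omega)

end Pool.Agent.H69.Pet
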