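import Pool.Agent.H69.Inv2
import Pool.Agent.H69.Pet6
import Pool.Agent.H69.AutDefs

set_option autoImplicit false

namespace Pool.Agent.H69.Inv

open Pet Filter

def ev (w : List (Option V)) : Equiv.Perm ℕ := (w.map P).prod

theorem ev_cons (l : Option V) (w : List (Option V)) (p : ℕ) : ev (l :: w) p = act l (ev w p) := by
  simp [ev, P_apply]

def ee (x : Bool) : ℕ → ℕ := if x then e1 else e0

def sc (v : V) (x : Bool) : Option V := if x then some (sg v) else s0 v

theorem a_ee (x : Bool) (k : ℕ) : act none (ee x k) = ee (!x) k := by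
  cases x
  exacts [a_e0 k, a_e1 k]

theorem t_ee (v : V) (x : Bool) (k : ℕ) : act (some v) (ee x k) = ee x (act (sc v x) k) := by
  cases x
  exacts [t_e0 v k, t_e1 v k]

theorem ee_surj (n : ℕ) : ∃ x k, ee x k = n := by
  by_cases h : e0 (n / 2) = n
  · exact ⟨false, _, h⟩
  · refine ⟨true, n / 2, ?_⟩
    show e1 _ = _
    unfold e0 at h; unfold e1; split_ifs at h ⊢ <;> omega

def Sec (w : List (Option V)) (W : Bool → List (Option V)) (b : Bool) : Prop :=
  ∀ x k, ev w (ee x k) = ee (xor x b) (ev (W (xor x b)) k)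

theorem sec_a {w W b} (h : Sec w W b) : Sec (none :: w) (fun y => W (!y)) (!b) := by
  intro x k
  rw [ev_cons, h, a_ee]
  simp

theorem sec_t {w W b} (v : V) (h : Sec w W b) : Sec (some v :: w) (fun y => sc v y :: W y) b := by
  intro x k
  rw [ev_cons, h, t_ee, ev_cons]

theorem split2 : ∀ (n : ℕ) (w : List (Option V)), w.length ≤ n →
    ∃ W b, Sec w W b ∧ 8 * (nu (W false) + nu (W true)) ≤ 7 * nu w + 35 := by
  have c0 : Sec [] (fun _ => []) false := by intro x k; simp [ev]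
  have k1 : ∀ v : V, 8 * (wt (sc v false) + wt (sc v true)) ≤ 7 * wt (some v) + 35 := by decide
  have k2 : ∀ v w : V, wt (some (v + w)) ≤ wt (some v) + wt (some w) := by decide
  intro n
  induction n with
  | zero =>
    intro w hw
    obtain rfl := List.length_eq_zero_iff.1 (Nat.le_zero.1 hw)
    exact ⟨_, _, c0, by simp [nu]⟩
  | succ n ih =>
    intro w hw
    match w, hw with
    | [], _ => exact ⟨_, _, c0, by simp [nu]⟩
    | none :: w, hw =>
      obtain ⟨W, b, h1, h2⟩ := ih w (by simpa using hw)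
      exact ⟨_, _, sec_a h1, by simp only [nu_cons, Bool.not_true, Bool.not_false]; omega⟩
    | [some v], _ => exact ⟨_, _, sec_t v c0, by simpa [nu] using k1 v⟩
    | some v :: none :: w, hw =>
      obtain ⟨W, b, h1, h2⟩ := ih w (by simp at hw; omega)
      refine ⟨_, _, sec_t v (sec_a h1), ?_⟩
      have := k1 v
      simp only [nu_cons, show wt none = 5 from rfl, Bool.not_true, Bool.not_false]
      omega
    | some v :: some u :: w, hw =>
      obtain ⟨W, b, h1, h2⟩ := ih (some (v + u) :: w) (by simp at hw ⊢; omega)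
      refine ⟨W, b, fun x k => ?_, ?_⟩
      · rw [← h1, ev_cons, ev_cons, ev_cons, act_act]
      · have := k2 v u
        simp only [nu_cons] at h2 ⊢
        omega

def Ga (n : ℕ) : Set (Equiv.Perm ℕ) := {g | ∃ w, nu w ≤ n ∧ ev w = g}

noncomputable def TG : Finset (Equiv.Perm ℕ) := by classical exact Finset.univ.image P

theorem Ga_sub (n : ℕ) : Ga n ⊆ Bl TG n := by
  have k : ∀ l : Option V, l ≠ some 0 → 1 ≤ wt l := by decide
  rintro _ ⟨w, h, rfl⟩
  refine Bl_mono _ h ?_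
  clear h
  induction w with
  | nil => exact Bl_one _ _
  | cons l w ih =>
    rw [nu_cons, show ev (l :: w) = P l * ev w by simp [ev]]
    refine Bl_mul ?_ ih
    by_cases h : l = some 0
    · rw [h, show P (some 0) = 1 from Equiv.ext act_zero]; exact Bl_one _ _
    · exact Bl_mono _ (k l h) (Bl_gen (Or.inl (by simp [TG])))

theorem Ga_fin (n : ℕ) : (Ga n).Finite := (Bl_fin _ _).subset (Ga_sub n)

theorem Ga_step (t : ℝ) (ht : 0 < t) (h : ∃ C : ℝ, ∀ n, ((Ga n).ncard : ℝ) ≤ C * Real.exp (t * n)) :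
    ∃ C : ℝ, ∀ n, ((Ga n).ncard : ℝ) ≤ C * Real.exp (15 / 16 * t * n) := by
  classical
  obtain ⟨C, hC⟩ := h
  have hC0 : 0 ≤ C := by
    have := (Nat.cast_nonneg _).trans (hC 0)
    simpa using this
  refine ⟨2 * C * C * (14 / t + 1) * Real.exp (75 / 16 * t), fun n => ?_⟩
  obtain ⟨m, hm⟩ : ∃ m, m = (7 * n + 35) / 8 := ⟨_, rfl⟩
  have h1 : ∀ g ∈ Ga n, ∃ w W b, ev w = g ∧ Sec w W b ∧ nu (W false) + nu (W true) ≤ m := by
    rintro _ ⟨w, a, rfl⟩
    obtain ⟨W, b, a1, a2⟩ := split2 _ w le_rfl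
    exact ⟨w, W, b, rfl, a1, by omega⟩
  choose! w W b a1 a2 a3 using h1
  have h2 := Set.ncard_le_ncard_of_injOn (s := Ga n) (t := ((Finset.range (m + 1)).biUnion
    (fun i => (Finset.univ : Finset Bool) ×ˢ (Ga_fin i).toFinset ×ˢ (Ga_fin (m - i)).toFinset) :
      Finset _)) (fun g => (b g, ev (W g false), ev (W g true))) (fun g hg => by
      have := a3 g hg
      simp only [Finset.coe_biUnion, Finset.coe_range, Set.mem_iUnion]
      refine ⟨nu (W g false), by simp; omega, ?_⟩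
      simp only [Finset.coe_product, Finset.coe_univ, Set.Finite.coe_toFinset, Set.mem_prod]
      exact ⟨trivial, ⟨_, le_rfl, rfl⟩, _, by omega, rfl⟩) (fun g hg g' hg' e => by
      simp only [Prod.mk.injEq] at e
      ext p
      obtain ⟨x, k, rfl⟩ := ee_surj p
      rw [← a1 g hg, ← a1 g' hg', a2 g hg, a2 g' hg', ← e.1]
      cases xor x (b g)
      · rw [e.2.1]
      · rw [e.2.2]) (Finset.finite_toSet _)
  rw [Set.ncard_coe_finset] at h2
  have h3 : ((Ga n).ncard : ℝ) ≤ ∑ i ∈ Finset.range (m + 1), 2 * C * C * Real.exp (t * m) := by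
    refine (Nat.cast_le.2 (h2.trans Finset.card_biUnion_le)).trans ?_
    push_cast
    refine Finset.sum_le_sum (fun i hi => ?_)
    have hi' : i ≤ m := by simp at hi; omega
    rw [Finset.card_product, Finset.card_product, ← Set.ncard_eq_toFinset_card _ (Ga_fin i),
      ← Set.ncard_eq_toFinset_card _ (Ga_fin (m - i))]
    have := mul_le_mul (hC i) (hC (m - i)) (by positivity) (by positivity)
    rw [mul_mul_mul_comm, ← Real.exp_add, Nat.cast_sub hi', ← mul_add, add_sub_cancel] at this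
    simp only [Finset.card_univ, Fintype.card_bool]
    push_cast
    linarith
  rw [Finset.sum_const, Finset.card_range, nsmul_eq_mul] at h3
  have h4 : ((m + 1 : ℕ) : ℝ) ≤ (14 / t + 1) * Real.exp (t * m / 14) := by
    have a := Real.add_one_le_exp (t * m / 14)
    have b : 1 ≤ Real.exp (t * m / 14) := Real.one_le_exp (by positivity)
    have c : (m : ℝ) ≤ 14 / t * Real.exp (t * m / 14) := by
      rw [div_mul_eq_mul_div, le_div_iff₀ ht]; linarith
    push_cast
    linarith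
  have h5 : (m : ℝ) * 8 ≤ 7 * n + 35 := by
    have : m * 8 ≤ 7 * n + 35 := by omega
    exact_mod_cast this
  have h6 : Real.exp (t * m / 14) * Real.exp (t * m) ≤
      Real.exp (75 / 16 * t) * Real.exp (15 / 16 * t * n) := by
    rw [← Real.exp_add, ← Real.exp_add]
    exact Real.exp_le_exp.2 (by nlinarith)
  calc _ ≤ _ := h3
    _ ≤ (14 / t + 1) * Real.exp (t * m / 14) * (2 * C * C * Real.exp (t * m)) := by gcongr
    _ = 2 * C * C * (14 / t + 1) * (Real.exp (t * m / 14) * Real.exp (t * m)) := by ring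
    _ ≤ _ := by rw [mul_assoc _ (Real.exp _)]; gcongr

theorem Ga_subexp (t : ℝ) (ht : 0 < t) :
    ∃ C : ℝ, 0 ≤ C ∧ ∀ n, ((Ga n).ncard : ℝ) ≤ C * Real.exp (t * n) := by
  have h : ∀ k : ℕ, ∃ C : ℝ, ∀ n, ((Ga n).ncard : ℝ) ≤ C * Real.exp ((15 / 16) ^ k * 10 * n) := by
    intro k
    induction k with
    | zero =>
      refine ⟨1, fun n => ?_⟩
      have a := (Set.ncard_le_ncard (Ga_sub n) (Bl_fin _ _)).trans (Bl_ncard _ _)
      have b : TG.card ≤ 5 := by classical exact Finset.card_image_le.trans (by simp)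
      have c : ((Ga n).ncard : ℝ) ≤ 11 ^ n := by
        exact_mod_cast a.trans (Nat.pow_le_pow_left (by omega) _)
      rw [pow_zero, one_mul, one_mul, mul_comm, Real.exp_nat_mul]
      exact c.trans (pow_le_pow_left₀ (by norm_num) (by linarith [Real.add_one_le_exp 10]) _)
    | succ k ih =>
      obtain ⟨C, hC⟩ := Ga_step _ (by positivity) ih
      exact ⟨C, fun n => by rw [pow_succ', mul_assoc (15 / 16 : ℝ)]; exact hC n⟩
  obtain ⟨k, hk⟩ := exists_pow_lt_of_lt_one (show 0 < t / 10 by positivity)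
    (show (15 / 16 : ℝ) < 1 by norm_num)
  obtain ⟨C, hC⟩ := h k
  have hC0 : 0 ≤ C := by
    have := (Nat.cast_nonneg _).trans (hC 0)
    simpa using this
  refine ⟨C, hC0, fun n => (hC n).trans ?_⟩
  gcongr
  linarith

theorem small2 (k : ℕ) : ∀ w, 8 ^ k * (O w).card + 4 * 7 ^ k ≤ 7 ^ k * nu w + 5 * 16 ^ k := by
  induction k with
  | zero => intro w; have := O_nu w; simp; omega
  | succ k hC =>
    intro w
    obtain ⟨w0, w1, h1, h2⟩ := split _ w le_rfl
    have a := (Finset.card_le_card h1).trans ((Finset.card_union_le _ _).trans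
      (Nat.add_le_add Finset.card_image_le Finset.card_image_le))
    have b := Nat.mul_le_mul_left (8 ^ k) a
    have c := Nat.mul_le_mul_left (7 ^ k) h2
    have := hC w0
    have := hC w1
    rw [pow_succ, pow_succ, pow_succ]
    nlinarith [Nat.zero_le (7 ^ k)]

theorem count2 {α : Type} (s : Finset α) (hs : 0 < s.card) (m : ℕ) (F : Finset (Finset α))
    (hF : ∀ T ∈ F, T ⊆ s ∧ T.card ≤ m) : F.card ≤ 3 * s.card ^ m := by
  have h0 : (0 : ℝ) < s.card := by exact_mod_cast hs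
  have h1 : (s.card : ℝ)⁻¹ ≤ 1 := inv_le_one_of_one_le₀ (by exact_mod_cast hs)
  have := Finset.prod_one_add (f := fun _ : α => (s.card : ℝ)⁻¹) s
  simp only [Finset.prod_const] at this
  have h2 : F.card * (s.card : ℝ)⁻¹ ^ m ≤ (1 + (s.card : ℝ)⁻¹) ^ s.card := by
    rw [this, ← nsmul_eq_mul, ← Finset.sum_const]
    refine le_trans (Finset.sum_le_sum (fun T hT =>
      pow_le_pow_of_le_one (by positivity) h1 (hF T hT).2)) ?_
    exact Finset.sum_le_sum_of_subset_of_nonneg (fun T hT => Finset.mem_powerset.2 (hF T hT).1)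
      (fun _ _ _ => by positivity)
  have h3 : (1 + (s.card : ℝ)⁻¹) ^ s.card ≤ 3 := by
    refine (pow_le_pow_left₀ (by positivity) ((add_comm _ _).le.trans
      (Real.add_one_le_exp _)) _).trans ?_
    rw [← Real.exp_nat_mul, mul_inv_cancel₀ h0.ne']
    exact (Real.exp_one_lt_d9.trans (by norm_num)).le
  rw [inv_pow, ← div_eq_mul_inv, div_le_iff₀ (by positivity)] at h2
  have : (F.card : ℝ) ≤ 3 * (s.card : ℝ) ^ m := h2.trans (by gcongr)
  exact_mod_cast this

noncomputable def TH : Finset (Equiv.Perm ℕ) := by classical exact insert (Equiv.swap 0 1) TG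

theorem mem_TH {x : Equiv.Perm ℕ} : x ∈ TH ↔ x = Equiv.swap 0 1 ∨ ∃ l, P l = x := by simp [TH, TG]

theorem H_inv (n : ℕ) : ∀ h ∈ Bl TH n, (∀ p, h⁻¹ p ≤ p + n) ∧ ∃ w : List (Option V),
    w.length ≤ 2 * n ∧ ∀ p, h p ∉ O w → h p = ev w p := by
  induction n with
  | zero => intro h hh; rw [Bl_zero hh]; exact ⟨by simp, [], le_rfl, fun _ _ => rfl⟩
  | succ n ih =>
    intro h hh
    rcases Bl_succ hh with rfl | ⟨x, hx, y, hy, rfl⟩
    · exact ⟨by simp, [], by simp, fun _ _ => rfl⟩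
    obtain ⟨a1, w, a2, a3⟩ := ih y hy
    have hx' : x = Equiv.swap 0 1 ∨ ∃ l, P l = x := by
      rcases hx with hx | hx
      · exact mem_TH.1 hx
      · rcases mem_TH.1 hx with h | ⟨l, h⟩
        · exact Or.inl (by rw [← inv_inv x, h, Equiv.swap_inv])
        · exact Or.inr ⟨l, by rw [← inv_inv x, ← h]; rfl⟩
    rcases hx' with rfl | ⟨l, rfl⟩
    · refine ⟨fun p => (a1 _).trans ?_, none :: none :: w, by simp; omega, fun p hp => ?_⟩
      · show Equiv.swap 0 1 p + n ≤ _
        rw [Equiv.swap_apply_def]; split_ifs <;> omega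
      · simp only [O, Finset.mem_insert, Finset.mem_image, not_or, not_exists, not_and,
          Equiv.Perm.mul_apply] at hp
        have b1 : Equiv.swap 0 1 (y p) ≠ 1 := fun h => hp.2 0 (Or.inl rfl) h.symm
        have b2 : Equiv.swap 0 1 (y p) = y p := by
          have := Equiv.swap_apply_of_ne_of_ne hp.1 b1
          rw [Equiv.swap_apply_self] at this
          exact this.symm
        rw [ev_cons, ev_cons, act_inv, Equiv.Perm.mul_apply, b2]
        exact a3 p (fun h => hp.2 _ (Or.inr ⟨_, h, rfl⟩) (by rw [act_inv, b2]))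
    · refine ⟨fun p => (a1 _).trans ?_, l :: w, by simp; omega, fun p hp => ?_⟩
      · have := act_le l p
        show act l p + n ≤ _
        omega
      · rw [ev_cons, Equiv.Perm.mul_apply, P_apply, a3 p (fun h => hp ?_)]
        simp only [O, Finset.mem_insert, Finset.mem_image]
        exact Or.inr ⟨_, h, rfl⟩

theorem H_up (n k : ℕ) : (Bl TH n).ncard ≤ (Ga (12 * n)).ncard *
    (3 * ((2 * n + 1) * (3 * n + 1)) ^ ((7 ^ k * (12 * n) + 5 * 16 ^ k) / 8 ^ k)) := by
  classical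
  choose! a1 w a2 a3 using H_inv n
  let s := Finset.range (2 * n + 1) ×ˢ Finset.range (3 * n + 1)
  let F := s.powerset.filter (fun T => T.card ≤ (7 ^ k * (12 * n) + 5 * 16 ^ k) / 8 ^ k)
  have h1 := count2 s (by simp [s]) _ F (fun T hT => by simpa [F] using hT)
  rw [Finset.card_product, Finset.card_range, Finset.card_range] at h1
  refine le_trans ?_ (Nat.mul_le_mul_left _ h1)
  rw [← Set.ncard_coe_finset F, ← Set.ncard_prod]
  refine Set.ncard_le_ncard_of_injOn (fun h => (ev (w h), (O (w h)).image (fun o => (o, h⁻¹ o))))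
    (fun h hh => ?_) (fun h hh g hg e => ?_) ((Ga_fin _).prod (Finset.finite_toSet _))
  · have b1 : nu (w h) ≤ 12 * n := (nu_le _).trans (by have := a2 h hh; omega)
    refine ⟨⟨_, b1, rfl⟩, ?_⟩
    simp only [F, Finset.coe_filter, Finset.mem_powerset, Set.mem_ofPred_eq]
    refine ⟨fun x hx => ?_, Finset.card_image_le.trans ?_⟩
    · obtain ⟨o, ho, rfl⟩ := Finset.mem_image.1 hx
      have := O_le _ o ho
      have := a2 h hh
      have := a1 h hh o
      simp only [s, Finset.mem_product, Finset.mem_range]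
      omega
    · rw [Nat.le_div_iff_mul_le (by positivity), mul_comm]
      have := small2 k (w h)
      have := Nat.mul_le_mul_left (7 ^ k) b1
      omega
  · simp only [Prod.mk.injEq] at e
    refine inv_injective (Equiv.ext fun y => ?_)
    by_cases b1 : y ∈ O (w h)
    · obtain ⟨o, -, ho⟩ := Finset.mem_image.1 (e.2 ▸ Finset.mem_image_of_mem _ b1)
      simp only [Prod.mk.injEq] at ho
      rw [← ho.2, ho.1]
    by_cases b2 : y ∈ O (w g)
    · obtain ⟨o, -, ho⟩ := Finset.mem_image.1 (e.2.symm ▸ Finset.mem_image_of_mem _ b2)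
      simp only [Prod.mk.injEq] at ho
      rw [← ho.2, ho.1]
    have c1 := a3 h hh (h⁻¹ y) (by simpa using b1)
    have c2 := a3 g hg (g⁻¹ y) (by simpa using b2)
    simp only [Equiv.Perm.coe_inv, Equiv.apply_symm_apply] at c1 c2
    rw [e.1] at c1
    exact (ev (w g)).injective (c1.symm.trans c2)

theorem H_small (c : ℕ) (hc : 1 ≤ c) : ∃ n, c * (Bl TH (c * n + c)).ncard + c < 2 ^ n := by
  obtain ⟨C, hC0, hC⟩ := Ga_subexp (1 / (60 * c)) (by positivity)
  obtain ⟨K, hK⟩ := exists_nat_ge (c * (3 * C + 1))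
  obtain ⟨k, h1, h2⟩ := ((poly_le (130 * c * (6 + c)) 1 (8 / 7) (by norm_num)).and
    (eventually_gt_atTop K)).exists
  refine ⟨4 * 4 ^ k, ?_⟩
  have k4 : k < 4 ^ k := Nat.lt_pow_self (by norm_num)
  obtain ⟨N, hN⟩ : ∃ N, N = c * (4 * 4 ^ k) + c := ⟨_, rfl⟩
  have b0 : N ≤ 5 * c * 4 ^ k := by rw [hN]; nlinarith
  rw [← hN]
  have b1 : ((Ga (12 * N)).ncard : ℝ) ≤ C * 3 ^ (4 ^ k) := by
    refine (hC _).trans (mul_le_mul_of_nonneg_left ?_ hC0)
    refine le_trans (Real.exp_le_exp.2 (show _ ≤ ((4 ^ k : ℕ) : ℝ) * 1 from ?_)) ?_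
    · have : ((12 * N : ℕ) : ℝ) ≤ 60 * c * ((4 ^ k : ℕ) : ℝ) := by
        exact_mod_cast (show 12 * N ≤ 60 * c * 4 ^ k by nlinarith)
      rw [one_div, inv_mul_le_iff₀ (by positivity)]
      linarith
    · rw [Real.exp_nat_mul]
      exact pow_le_pow_left₀ (by positivity) (Real.exp_one_lt_d9.trans (by norm_num)).le _
  have b2 : ((2 * N + 1) * (3 * N + 1)) ^ ((7 ^ k * (12 * N) + 5 * 16 ^ k) / 8 ^ k) ≤ 2 ^ 4 ^ k := by
    have c1 : 3 * N + 1 ≤ 2 ^ (4 + c + 2 * k) := by
      have : c < 2 ^ c := Nat.lt_two_pow_self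
      rw [pow_add, pow_add, pow_mul]
      norm_num
      nlinarith
    have c2 : (2 * N + 1) * (3 * N + 1) ≤ 2 ^ (2 * (4 + c + 2 * k)) := by
      rw [two_mul (4 + c + 2 * k), pow_add]
      exact Nat.mul_le_mul (le_trans (by omega) c1) c1
    refine (Nat.pow_le_pow_left c2 _).trans ?_
    rw [← pow_mul]
    refine Nat.pow_le_pow_right (by norm_num) ?_
    rw [div_pow, le_div_iff₀ (by positivity), pow_one] at h1
    have c3 : 130 * c * (6 + c) * k * 7 ^ k ≤ 8 ^ k := by exact_mod_cast h1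
    have c4 := Nat.mul_div_le (7 ^ k * (12 * N) + 5 * 16 ^ k) (8 ^ k)
    generalize (7 ^ k * (12 * N) + 5 * 16 ^ k) / 8 ^ k = m at *
    have c5 : 16 ^ k ≤ 7 ^ k * 4 ^ k := by rw [← mul_pow]; exact Nat.pow_le_pow_left (by norm_num) _
    have c6 : 8 ^ k * m ≤ 65 * c * (7 ^ k * 4 ^ k) := by
      have := Nat.mul_le_mul_left (7 ^ k * 12) b0
      nlinarith [Nat.mul_le_mul_right (7 ^ k * 4 ^ k) hc]
    have c7 : 4 + c + 2 * k ≤ (6 + c) * k := by nlinarith
    refine Nat.le_of_mul_le_mul_left ?_ (show 0 < 8 ^ k by positivity)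
    calc _ = 2 * (4 + c + 2 * k) * (8 ^ k * m) := by ring
      _ ≤ 2 * ((6 + c) * k) * (65 * c * (7 ^ k * 4 ^ k)) := by gcongr
      _ = 130 * c * (6 + c) * k * 7 ^ k * 4 ^ k := by ring
      _ ≤ _ := by gcongr
  have b3 : ((Bl TH N).ncard : ℝ) ≤ C * 3 ^ (4 ^ k) * (3 * 2 ^ 4 ^ k) := by
    have := (H_up N k).trans (Nat.mul_le_mul_left _ (Nat.mul_le_mul_left 3 b2))
    refine (Nat.cast_le.2 this).trans ?_
    push_cast
    gcongr
  have b4 : (K : ℝ) < 2 ^ 4 ^ k := by
    exact_mod_cast (h2.trans k4).trans Nat.lt_two_pow_self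
  have b5 : (1 : ℝ) ≤ 3 ^ 4 ^ k * 2 ^ 4 ^ k := one_le_mul_of_one_le_of_one_le
    (one_le_pow₀ (by norm_num)) (one_le_pow₀ (by norm_num))
  have b6 : (2 : ℝ) ^ 4 ^ k * (3 ^ 4 ^ k * 2 ^ 4 ^ k) ≤ 2 ^ (4 * 4 ^ k) := by
    rw [← mul_pow, ← mul_pow, pow_mul]
    exact pow_le_pow_left₀ (by norm_num) (by norm_num) _
  have b7 : (c : ℝ) * (Bl TH N).ncard + c < 2 ^ (4 * 4 ^ k) := by
    refine lt_of_lt_of_le ?_ b6
    refine lt_of_le_of_lt ?_ (mul_lt_mul_of_pos_right (hK.trans_lt b4) (by positivity))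
    have : (0 : ℝ) ≤ c := by positivity
    nlinarith [mul_le_mul_of_nonneg_left b3 this, mul_le_mul_of_nonneg_left b5 this]
  exact_mod_cast b7

theorem sw_trans {S : Finset (Equiv.Perm ℕ)} {a b c p q : ℕ} (h1 : Equiv.swap a b ∈ Bl S p)
    (h2 : Equiv.swap b c ∈ Bl S q) : Equiv.swap a c ∈ Bl S (2 * p + q) := by
  by_cases h : c = a
  · rw [h, Equiv.swap_self]; exact Bl_one _ _
  by_cases h' : c = b
  · rw [h']; exact Bl_mono _ (by omega) h1
  have := Equiv.swap_mul_swap_mul_swap h' h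
  rw [Equiv.swap_comm b a, Equiv.swap_comm c b] at this
  rw [← this]
  exact Bl_mono _ (by omega) (Bl_mul (Bl_mul h1 h2) h1)

theorem sw_len (i j m : ℕ) (hi : i ≤ m) (hj : j ≤ m) : Equiv.swap i j ∈ Bl TH (12 * m) := by
  have h0 : Equiv.swap 0 1 ∈ Bl TH 1 := Bl_gen (Or.inl (mem_TH.2 (Or.inl rfl)))
  have h : ∀ n, Equiv.swap 0 n ∈ Bl TH (4 * n) := by
    intro n
    induction n with
    | zero => rw [Equiv.swap_self]; exact Bl_one _ _
    | succ n ih =>
      obtain ⟨l, hl⟩ := act_succ n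
      have hp : P l ∈ Bl TH 1 := Bl_gen (Or.inl (mem_TH.2 (Or.inr ⟨l, rfl⟩)))
      have h1 : Equiv.swap (P l 0) (P l n) ∈ Bl TH (1 + 4 * n + 1) := by
        rw [Equiv.swap_apply_apply]
        exact Bl_mul (Bl_mul hp ih) hp
      rw [P_apply, P_apply, hl] at h1
      refine Bl_mono _ (by omega) (sw_trans (p := 1) ?_ h1)
      cases l with
      | none => exact h0
      | some v => rw [act_fix, Equiv.swap_self]; exact Bl_one _ _
  exact Bl_mono _ (by omega) (sw_trans (p := 4 * i) (by rw [Equiv.swap_comm]; exact h i) (h j))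

theorem fin_len (M m : ℕ) (hm : m ≤ M) : ∀ g : Equiv.Perm ℕ, (∀ p, m ≤ p → g p = p) →
    g ∈ Bl TH (12 * M * m) := by
  induction m with
  | zero =>
    intro g hg
    rw [show g = 1 from Equiv.ext fun p => hg p (by omega)]
    exact Bl_one _ _
  | succ m ih =>
    intro g hg
    have h1 : g m ≤ m := by
      by_contra hc
      have := g.injective (hg (g m) (by omega))
      omega
    have h2 := ih (by omega) (Equiv.swap m (g m) * g) (fun p hp => by
      rcases hp.eq_or_lt with rfl | hp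
      · simp
      · rw [Equiv.Perm.mul_apply, hg p hp, Equiv.swap_apply_of_ne_of_ne (by omega) (by omega)])
    have := Bl_mul (sw_len m (g m) M (by omega) (by omega)) h2
    rw [← mul_assoc, Equiv.swap_mul_self, one_mul] at this
    exact Bl_mono _ (le_of_eq (by ring)) this

theorem Bl_lift {G : Type} [Group G] (T : Finset G) (n : ℕ) : ∀ g ∈ Bl T n,
    ∃ h : Subgroup.closure (T : Set G), h ∈ Bl (T.preimage Subtype.val Subtype.val_injective.injOn) n
      ∧ h.1 = g := by
  induction n with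
  | zero => intro g hg; exact ⟨1, Bl_one _ _, (Bl_zero hg).symm⟩
  | succ n ih =>
    intro g hg
    rcases Bl_succ hg with rfl | ⟨x, hx, y, hy, rfl⟩
    · exact ⟨1, Bl_one _ _, rfl⟩
    obtain ⟨h, h1, rfl⟩ := ih y hy
    have : x ∈ Subgroup.closure (T : Set G) := hx.elim (fun h => Subgroup.subset_closure h)
      (fun h => inv_mem_iff.1 (Subgroup.subset_closure h))
    exact ⟨⟨x, this⟩ * h, add_comm 1 n ▸ Bl_mul (Bl_gen (by simpa using hx)) h1, rfl⟩

theorem orders (R : ℕ) : ∀ A ⊆ Nat.primesLE R, ∃ g ∈ Bl TH (12 * (R + 1) ^ 4),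
    ∀ p ∈ Nat.primesLE R, p ∣ orderOf g ↔ p ∈ A := by
  intro A hA
  obtain ⟨g, hg⟩ := (Equiv.Perm.exists_with_cycleType_iff (Fin ((R + 1) ^ 2)) (m := A.val)).2
    ⟨by
      rw [Fintype.card_fin]
      have a := Finset.sum_le_card_nsmul A id R (fun x hx => Nat.le_of_mem_primesLE (hA hx))
      have b : A.card ≤ R + 1 := by
        simpa using Finset.card_le_card (hA.trans (Finset.filter_subset _ (Finset.range (R + 1))))
      simp only [Finset.sum, Multiset.map_id, smul_eq_mul] at a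
      nlinarith, fun a ha => Nat.two_le_of_mem_primesLE (hA ha)⟩
  refine ⟨Equiv.Perm.viaEmbeddingHom Fin.valEmbedding g, ?_, fun p hp => ?_⟩
  · refine Bl_mono _ (le_of_eq (by ring)) (fin_len ((R + 1) ^ 2) _ le_rfl _ (fun p hp => ?_))
    exact Equiv.Perm.viaEmbedding_apply_of_notMem _ _ _ (by
      rintro ⟨x, rfl⟩
      exact absurd x.2 (not_lt.2 hp))
  · rw [orderOf_injective _ (Equiv.Perm.viaEmbeddingHom_injective _), ← Equiv.Perm.lcm_cycleType, hg]
    refine ⟨fun h => ?_, fun h => Multiset.dvd_lcm h⟩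
    have h2 : p ∣ A.val.prod := h.trans (Multiset.lcm_dvd.2 (fun b hb => Multiset.dvd_prod hb))
    obtain ⟨q, h3, h4⟩ := (Nat.prime_of_mem_primesLE hp).prime.exists_mem_multiset_dvd h2
    rwa [(Nat.prime_dvd_prime_iff_eq (Nat.prime_of_mem_primesLE hp)
      (Nat.prime_of_mem_primesLE (hA h3))).1 h4]

theorem many (a b : ℕ) : ∃ j, a + b * j < (Nat.primesLE (2 ^ j - 1)).card := by
  obtain ⟨j, h1, h2⟩ := ((poly_le (a + b + 3) 2 2 one_lt_two).and (eventually_gt_atTop 0)).exists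
  have h3 : (a + b + 3) * j ^ 2 ≤ 2 ^ j := by exact_mod_cast h1
  refine ⟨j, ?_⟩
  have h0 : 0 < 2 ^ j := by positivity
  have h4 := Chebyshev.two_pow_le_mul_lcmUpto (2 ^ j - 1)
  rw [Nat.lcmUpto_eq_prod_pow_log, Nat.sub_add_cancel h0] at h4
  have h5 := Finset.prod_le_pow_card (Nat.primesLE (2 ^ j - 1)) (fun p => p ^ p.log (2 ^ j - 1))
    (2 ^ j) (fun p hp => by
      by_cases h : 2 ^ j - 1 = 0
      · rw [h, Nat.log_zero_right, pow_zero]; exact h0
      · exact (Nat.pow_log_le_self p h).trans (by omega))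
  have h6 := h4.trans (Nat.mul_le_mul_left _ h5)
  rw [← pow_mul, ← pow_add, Nat.pow_le_pow_iff_right (by norm_num)] at h6
  by_contra hc
  push Not at hc
  have := Nat.mul_le_mul_left j hc
  have h7 : 2 ^ j ≤ j + j * (a + b * j) + 1 := by omega
  nlinarith [Nat.mul_le_mul_left a h2]

open AutGr in
theorem main : ∃ (G : Type) (_ : Group G) (S : Finset G), Subgroup.closure (S : Set G) = ⊤ ∧
    (∀ d : ℕ, ¬ Prec (autGrowth S) (fun n => n ^ d)) ∧ ¬ Prec (fun n => 2 ^ n) (autGrowth S) := by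
  classical
  refine ⟨Subgroup.closure (TH : Set (Equiv.Perm ℕ)), inferInstance,
    TH.preimage Subtype.val Subtype.val_injective.injOn,
    by rw [Finset.coe_preimage]; exact Subgroup.closure_closure_coe_preimage, ?_, ?_⟩
  · rintro d ⟨c, hc, h⟩
    obtain ⟨j, hj⟩ := many (c + 1 + d * (c + 4)) (4 * d)
    have h0 : 0 < 2 ^ j := by positivity
    choose! g g1 g2 using orders (2 ^ j - 1)
    rw [Nat.sub_add_cancel h0] at g1
    choose! u u1 u2 using Bl_lift TH (12 * (2 ^ j) ^ 4)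
    have h1 := Set.ncard_le_ncard_of_injOn (s := ((Nat.primesLE (2 ^ j - 1)).powerset : Finset _))
      (t := autOrbit '' ball (TH.preimage Subtype.val Subtype.val_injective.injOn) (12 * (2 ^ j) ^ 4))
      (fun A => autOrbit (u (g A))) (fun A hA => ⟨_, u1 _ (g1 A (by simpa using hA)), rfl⟩)
      (fun A hA B hB e => by
        have hA' := Finset.mem_powerset.1 hA
        have hB' := Finset.mem_powerset.1 hB
        obtain ⟨φ, hφ⟩ : u (g B) ∈ autOrbit (u (g A)) := by
          simp only at e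
          rw [e]; exact ⟨MulEquiv.refl _, rfl⟩
        have : orderOf (g B) = orderOf (g A) := by
          rw [← u2 _ (g1 A hA'), ← u2 _ (g1 B hB'), Subgroup.orderOf_coe, Subgroup.orderOf_coe, ← hφ,
            MulEquiv.orderOf_eq]
        ext p
        exact ⟨fun h => (g2 B hB' p (hA' h)).1 (this ▸ (g2 A hA' p (hA' h)).2 h),
          fun h => (g2 A hA' p (hB' h)).1 (this ▸ (g2 B hB' p (hB' h)).2 h)⟩)
      ((Bl_fin _ _).image _)
    rw [Set.ncard_coe_finset, Finset.card_powerset] at h1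
    have h2 := h1.trans (h _)
    have c1 : c < 2 ^ c := Nat.lt_two_pow_self
    have c2 : c * (12 * (2 ^ j) ^ 4) + c ≤ 2 ^ (c + 4 + 4 * j) := by
      rw [pow_add, pow_add, mul_comm 4 j, pow_mul]
      have : 0 < (2 ^ j) ^ 4 := by positivity
      nlinarith
    have c3 := Nat.pow_le_pow_left c2 d
    have c4 : 2 ^ (c + 1 + d * (c + 4) + 4 * d * j) = 2 * 2 ^ c * (2 ^ (c + 4 + 4 * j)) ^ d := by
      rw [← pow_mul, ← pow_succ', ← pow_add]; congr 1; ring
    have c5 := Nat.pow_lt_pow_right (show 1 < 2 by norm_num) hj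
    have c6 : 0 < (2 ^ (c + 4 + 4 * j)) ^ d := by positivity
    simp only at h2
    nlinarith
  · rintro ⟨c, hc, h⟩
    obtain ⟨n, hn⟩ := H_small c hc
    refine absurd ((h n).trans (Nat.add_le_add_right (Nat.mul_le_mul_left _ ?_) _)) (not_le.2 hn)
    refine (Set.ncard_image_le (Bl_fin _ _)).trans ?_
    exact Set.ncard_le_ncard_of_injOn Subtype.val (fun x hx => Bl_map (Subgroup.subtype _)
      (fun s hs => Finset.mem_preimage.1 hs) hx) Subtype.val_injective.injOn (Bl_fin _ _)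

end Pool.Agent.H69.Inv
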