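import Mathlib

set_option autoImplicit false

namespace Pool.Agent.H69.Ivp

open Finset

/-- compact and countable -/
def CC (s : Set ℂ) : Prop := IsCompact s ∧ s.Countable

lemma CC.image2 {s t : Set ℂ} (hs : CC s) (ht : CC t) (f : ℂ → ℂ → ℂ)
    (hf : Continuous fun p : ℂ × ℂ => f p.1 p.2) : CC (Set.image2 f s t) := by
  have : Set.image2 f s t = (fun p : ℂ × ℂ => f p.1 p.2) '' (s ×ˢ t) := by
    rw [Set.image_prod]
  rw [this]
  exact ⟨(hs.1.prod ht.1).image hf, (hs.2.prod ht.2).image _⟩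

lemma cc_of_small (s : Set ℂ) (h0 : (0 : ℂ) ∈ s)
    (h : ∀ δ : ℝ, 0 < δ → {z ∈ s | δ ≤ ‖z‖}.Finite) : CC s := by
  constructor
  · have ht : Filter.Tendsto (Subtype.val : s → ℂ) Filter.cofinite (nhds 0) := by
      rw [Metric.tendsto_nhds]
      intro δ hδ
      rw [Filter.eventually_cofinite]
      have := (h δ hδ).preimage (f := (Subtype.val : s → ℂ)) Subtype.val_injective.injOn
      refine this.subset ?_
      intro z hz
      simp only [Set.mem_setOf_eq, dist_zero_right, not_lt] at hz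
      exact ⟨z.2, hz⟩
    have := ht.isCompact_insert_range_of_cofinite
    rwa [Subtype.range_coe, Set.insert_eq_of_mem h0] at this
  · have : s ⊆ {0} ∪ ⋃ n : ℕ, {z ∈ s | 1 / ((n : ℝ) + 1) ≤ ‖z‖} := by
      intro z hz
      by_cases hz0 : z = 0
      · left; exact hz0
      · right
        obtain ⟨n, hn⟩ := exists_nat_one_div_lt (norm_pos_iff.2 hz0)
        exact Set.mem_iUnion.2 ⟨n, hz, hn.le⟩
    exact (Set.Countable.union (Set.countable_singleton _)
      (Set.countable_iUnion fun n => (h _ (by positivity)).countable)).mono this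

/-- sums of at most `n` elements of `T` -/
def sumSet (T : Set ℂ) : ℕ → Set ℂ
  | 0 => {0}
  | n + 1 => Set.image2 (· + ·) (insert 0 T) (sumSet T n)

lemma CC.insert0 {T : Set ℂ} (h : CC T) : CC (insert 0 T) :=
  ⟨h.1.insert 0, h.2.insert 0⟩

lemma CC.sumSet {T : Set ℂ} (h : CC T) : ∀ n, CC (sumSet T n)
  | 0 => ⟨isCompact_singleton, Set.countable_singleton _⟩
  | n + 1 => h.insert0.image2 (CC.sumSet h n) _ (by fun_prop)

lemma sumSet_finite {T : Set ℂ} (h : T.Finite) : ∀ n, (sumSet T n).Finite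
  | 0 => Set.finite_singleton _
  | n + 1 => (h.insert 0).image2 _ (sumSet_finite h n)

lemma sumSet_mono (T : Set ℂ) {n m : ℕ} (h : n ≤ m) : sumSet T n ⊆ sumSet T m := by
  induction h with
  | refl => exact le_rfl
  | step _ ih =>
    intro z hz
    exact ⟨0, Set.mem_insert _ _, z, ih hz, zero_add z⟩

lemma sum_mem_sumSet {ι : Type*} (T : Set ℂ) (s : Finset ι) (f : ι → ℂ)
    (hf : ∀ i ∈ s, f i ∈ insert 0 T) {n : ℕ} (hn : s.card ≤ n) : ∑ i ∈ s, f i ∈ sumSet T n := by
  classical
  refine sumSet_mono T hn ?_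
  clear hn
  induction s using Finset.induction_on with
  | empty => simp [sumSet]
  | insert a s ha ih =>
    rw [Finset.card_insert_of_notMem ha, Finset.sum_insert ha]
    exact ⟨f a, hf a (mem_insert_self _ _), _, ih fun i hi => hf i (mem_insert_of_mem hi), rfl⟩

/-- reciprocals of natural numbers (with `0`) -/
def Inv : Set ℂ := Set.range fun n : ℕ => ((n : ℂ))⁻¹

lemma cc_Inv : CC Inv := by
  refine cc_of_small _ ⟨0, by simp⟩ fun δ hδ => ?_
  obtain ⟨N, hN⟩ := exists_nat_gt δ⁻¹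
  refine ((Set.finite_le_nat N).image fun n : ℕ => ((n : ℂ))⁻¹).subset ?_
  rintro z ⟨⟨n, rfl⟩, hz⟩
  refine ⟨n, ?_, rfl⟩
  simp only [norm_inv, Complex.norm_natCast] at hz
  by_contra hc
  simp only [Set.mem_setOf_eq, not_le] at hc
  have h1 : (N : ℝ) < n := by exact_mod_cast hc
  have h2 : δ⁻¹ < n := hN.trans h1
  have h3 : (0 : ℝ) < n := (inv_pos.2 hδ).trans h2
  have := (inv_lt_comm₀ hδ h3).1 h2
  linarith

/-- possible values of normalised Gauss sums -/
def Gs (M : ℕ) : Set ℂ :=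
  {z | z = 0 ∨ ∃ m : ℕ, 0 < m ∧ ‖z‖ ^ 2 = 1 / m ∧ (m : ℂ) * z ∈ sumSet {w | w ^ M = 1} m}

lemma roots_finite {M : ℕ} (hM : 0 < M) : {w : ℂ | w ^ M = 1}.Finite := by
  have : {w : ℂ | w ^ M = 1} ⊆ (Polynomial.nthRoots M (1 : ℂ)).toFinset := by
    intro w hw
    simp only [Finset.mem_coe, Multiset.mem_toFinset]
    exact (Polynomial.mem_nthRoots hM).2 hw
  exact (Finset.finite_toSet _).subset this

lemma cc_Gs {M : ℕ} (hM : 0 < M) : CC (Gs M) := by
  refine cc_of_small _ (Or.inl rfl) fun δ hδ => ?_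
  obtain ⟨N, hN⟩ := exists_nat_gt (δ ^ 2)⁻¹
  have hfin : (⋃ m ∈ {m : ℕ | m ≤ N},
      (fun w : ℂ => ((m : ℂ))⁻¹ * w) '' sumSet {w | w ^ M = 1} m).Finite :=
    (Set.finite_le_nat N).biUnion fun m _ => (sumSet_finite (roots_finite hM) m).image _
  refine hfin.subset ?_
  rintro z ⟨hz | ⟨m, hm, h1, h2⟩, hδz⟩
  · subst hz
    simp at hδz
    linarith
  · have hm' : (0 : ℝ) < m := by exact_mod_cast hm
    refine Set.mem_biUnion (x := m) ?_ ⟨_, h2, ?_⟩
    · have h3 : δ ^ 2 ≤ 1 / m := h1 ▸ pow_le_pow_left₀ hδ.le hδz 2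
      have h4 : (m : ℝ) ≤ (δ ^ 2)⁻¹ := by
        rw [le_inv_comm₀ hm' (by positivity)]
        simpa using h3
      have : (m : ℝ) < N := h4.trans_lt hN
      exact le_of_lt (by exact_mod_cast this)
    · have : (m : ℂ) ≠ 0 := by exact_mod_cast hm.ne'
      field_simp

lemma sum_cosets {G : Type*} [Group G] [Fintype G] (H : Subgroup G) [Fintype H] [Fintype (G ⧸ H)]
    (F : G → ℂ) : ∑ x, F x = ∑ c : G ⧸ H, ∑ h : H, F (c.out * h) := by
  rw [← Finset.sum_product']
  symm
  refine Finset.sum_bij (fun p _ => p.1.out * (p.2 : G)) (fun _ _ => mem_univ _) ?_ ?_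
    (fun _ _ => rfl)
  · rintro ⟨c, h⟩ _ ⟨c', h'⟩ _ e
    simp only at e
    have hc : c = c' := by
      have h1 : (QuotientGroup.mk (c.out * (h : G)) : G ⧸ H) = c := by
        rw [QuotientGroup.mk_mul_of_mem _ h.2, QuotientGroup.out_eq']
      have h2 : (QuotientGroup.mk (c'.out * (h' : G)) : G ⧸ H) = c' := by
        rw [QuotientGroup.mk_mul_of_mem _ h'.2, QuotientGroup.out_eq']
      rw [← h1, ← h2, e]
    subst hc
    rw [mul_right_inj] at e
    rw [Subtype.ext e]
  · intro x _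
    obtain ⟨h, hh⟩ := QuotientGroup.mk_out_eq_mul H x
    refine ⟨((x : G ⧸ H), h⁻¹), by simp, ?_⟩
    simp [hh]

lemma gauss {B : Type*} [Group B] [Fintype B] (f : B → ℂ) (γ : B →* (B →* ℂ)) {M : ℕ}
    (hM : 0 < M) (hf : ∀ b, f b ^ M = 1) (hm : ∀ k h, f (k * h) = f k * f h * γ h k) :
    (∑ b, f b) / Fintype.card B ∈ Gs M := by
  classical
  set R := γ.ker with hR
  have hRm : ∀ r ∈ R, ∀ k, f (k * r) = f k * f r := by
    intro r hr k
    rw [hm, (MonoidHom.mem_ker.1 hr)]
    simp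
  by_cases hA : ∃ r ∈ R, f r ≠ 1
  · obtain ⟨r, hr, hr1⟩ := hA
    left
    have h1 : ∑ b, f b = ∑ b, f (b * r) := (Equiv.sum_comp (Equiv.mulRight r) f).symm
    simp only [hRm r hr, ← Finset.sum_mul] at h1
    have h2 : (∑ b, f b) * (1 - f r) = 0 := by rw [mul_sub, mul_one, ← h1, sub_self]
    rcases mul_eq_zero.1 h2 with h | h
    · rw [h, zero_div]
    · exact absurd (sub_eq_zero.1 h).symm hr1
  · push Not at hA
    right
    have hn : ∀ b, f b * (starRingEnd ℂ) (f b) = 1 := by
      intro b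
      have : ‖f b‖ = 1 := Complex.norm_eq_one_of_pow_eq_one (hf b) hM.ne'
      rw [Complex.mul_conj', this]; simp
    have hB : (Fintype.card B : ℂ) ≠ 0 := by exact_mod_cast Fintype.card_ne_zero
    have hRc : (Fintype.card R : ℂ) ≠ 0 := by exact_mod_cast Fintype.card_ne_zero
    have hcard : (Fintype.card B : ℂ) = Fintype.card (B ⧸ R) * Fintype.card R := by
      have := R.card_eq_card_quotient_mul_card_subgroup
      simp only [Nat.card_eq_fintype_card] at this
      exact_mod_cast this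
    have hq : (Fintype.card (B ⧸ R) : ℂ) ≠ 0 := by exact_mod_cast Fintype.card_ne_zero
    have hS : (∑ b, f b) * (starRingEnd ℂ) (∑ b, f b) = Fintype.card R * Fintype.card B := by
      rw [map_sum, Finset.mul_sum]
      have e1 : ∀ k, (∑ b, f b) * (starRingEnd ℂ) (f k) = ∑ h, f h * γ h k := by
        intro k
        rw [← Equiv.sum_comp (Equiv.mulLeft k) f, Finset.sum_mul]
        refine Finset.sum_congr rfl fun h _ => ?_
        simp only [Equiv.coe_mulLeft, hm]
        linear_combination (f h * γ h k) * hn k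
      simp only [e1]
      rw [Finset.sum_comm]
      have e2 : ∀ h, ∑ k, f h * γ h k = if h ∈ R then (Fintype.card B : ℂ) else 0 := by
        intro h
        rw [← Finset.mul_sum]
        split_ifs with hh
        · rw [hA h hh, MonoidHom.mem_ker.1 hh]; simp
        · rw [sum_hom_units_eq_zero (γ h) (fun e => hh (MonoidHom.mem_ker.2 e)), mul_zero]
      simp only [e2]
      rw [← Finset.sum_filter, Finset.sum_const, nsmul_eq_mul]
      congr 1
      rw [Fintype.card_subtype]
    refine ⟨Fintype.card (B ⧸ R), Fintype.card_pos, ?_, ?_⟩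
    · have : (((‖(∑ b, f b) / Fintype.card B‖ ^ 2 : ℝ)) : ℂ) = ((1 / Fintype.card (B ⧸ R) : ℝ) : ℂ) := by
        push_cast
        rw [← Complex.mul_conj', map_div₀, div_mul_div_comm, hS, Complex.conj_natCast, hcard]
        field_simp
      exact_mod_cast this
    · have e : (Fintype.card (B ⧸ R) : ℂ) * ((∑ b, f b) / Fintype.card B)
          = ∑ c : B ⧸ R, f c.out := by
        rw [sum_cosets R f]
        have : ∀ c : B ⧸ R, ∑ h : R, f (c.out * h) = Fintype.card R * f c.out := by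
          intro c
          rw [Finset.sum_congr rfl fun h _ => by rw [hRm h h.2, hA h h.2, mul_one]]
          simp
        simp only [this, ← Finset.mul_sum]
        rw [hcard]
        field_simp
      rw [e]
      refine sum_mem_sumSet {w | w ^ M = 1} univ (fun c : B ⧸ R => f c.out) ?_
        (Finset.card_univ (α := B ⧸ R)).le
      intro c _
      exact Set.mem_insert_of_mem _ (hf c.out)

end Pool.Agent.H69.Ivp
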