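import Pool.Agent.H69.Ivp1

set_option autoImplicit false

namespace Pool.Agent.H69.Ivp

open Finset

/-- possible values of the proportion of inverted elements -/
def PP (N : ℕ) : Set ℂ :=
  Set.image2 (· * ·) Inv (Set.image2 (· * ·) Inv (sumSet (Gs N.factorial) N))

lemma cc_PP (N : ℕ) : CC (PP N) :=
  cc_Inv.image2 (cc_Inv.image2 ((cc_Gs N.factorial_pos).sumSet N) _ (by fun_prop)) _ (by fun_prop)

open Classical in
lemma inverted {H A : Type*} [Group H] [Fintype H] [CommGroup A] [Fintype A] (ι : A →* H)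
    (hι : Function.Injective ι) (hc : ∀ a h, ι a * h = h * ι a)
    (hcomm : ∀ k h : H, ∃ a, ι a = k⁻¹ * h⁻¹ * k * h) (σ : H →* H) {N : ℕ}
    (hN : Fintype.card A ≤ N) :
    (∑ h : H, if σ h * h = 1 then (1 : ℂ) else 0) / Fintype.card H ∈ PP N := by
  choose c hcc using hcomm
  have c1 : ∀ k k' h, c (k * k') h = c k h * c k' h := by
    intro k k' h
    apply hι
    rw [map_mul, hcc k' h, hcc (k * k') h]
    have := hc (c k h) k'⁻¹
    calc (k * k')⁻¹ * h⁻¹ * (k * k') * h
        = (k'⁻¹ * (k⁻¹ * h⁻¹ * k * h)) * h⁻¹ * k' * h := by group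
      _ = (ι (c k h) * k'⁻¹) * h⁻¹ * k' * h := by rw [this, hcc]
      _ = _ := by group
  have c2 : ∀ k h h', c k (h * h') = c k h * c k h' := by
    intro k h h'
    apply hι
    rw [map_mul, hcc k h', hcc k (h * h')]
    have := hc (c k h) (k⁻¹ * h'⁻¹ * k)
    calc k⁻¹ * (h * h')⁻¹ * k * (h * h')
        = (k⁻¹ * h'⁻¹ * k * (k⁻¹ * h⁻¹ * k * h)) * h' := by group
      _ = (ι (c k h) * (k⁻¹ * h'⁻¹ * k)) * h' := by rw [this, hcc]
      _ = _ := by group
  have key : ∀ (k h : H) (a b : A), ι a = σ k * k → ι b = σ h * h →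
      ι (a * b * c k h) = σ (k * h) * (k * h) := by
    intro k h a b ha hb
    have e1 : σ h = ι b * h⁻¹ := by rw [hb]; group
    have e2 : σ k = ι a * k⁻¹ := by rw [ha]; group
    rw [map_mul, map_mul, map_mul, hcc, e1, e2]
    have := hc b k⁻¹
    calc ι a * ι b * (k⁻¹ * h⁻¹ * k * h) = ι a * (ι b * k⁻¹) * h⁻¹ * k * h := by group
      _ = _ := by rw [this]; group
  let B : Subgroup H :=
    { carrier := {h | ∃ a, ι a = σ h * h}
      one_mem' := ⟨1, by simp⟩
      mul_mem' := by
        rintro k h ⟨a, ha⟩ ⟨b, hb⟩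
        exact ⟨_, key k h a b ha hb⟩
      inv_mem' := by
        rintro h ⟨a, ha⟩
        refine ⟨a⁻¹, ?_⟩
        have e1 : σ h = ι a * h⁻¹ := by rw [ha]; group
        rw [map_inv, map_inv, e1, hc a h⁻¹]
        have := hc a h
        rw [mul_inv_rev, inv_inv]
        group }
  have hq : ∀ b : B, ∃ a, ι a = σ b * b := fun b => b.2
  choose q hq using hq
  have hqm : ∀ k h : B, q (k * h) = q k * q h * c k h := by
    intro k h
    apply hι
    rw [hq, key k h _ _ (hq k) (hq h)]
    rfl
  have c10 : ∀ h, c 1 h = 1 := by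
    intro h
    apply hι
    rw [hcc]; simp
  have c20 : ∀ k, c k 1 = 1 := by
    intro k
    apply hι
    rw [hcc]; simp
  have hA : (Fintype.card A : ℂ) ≠ 0 := by exact_mod_cast Fintype.card_ne_zero
  have hB : (Fintype.card B : ℂ) ≠ 0 := by exact_mod_cast Fintype.card_ne_zero
  have hg : ∀ ψ : AddChar (Additive A) ℂ,
      (∑ b : B, ψ (Additive.ofMul (q b))) / Fintype.card B ∈ Gs N.factorial := by
    intro ψ
    let γ : B →* (B →* ℂ) :=
      { toFun := fun h =>
          { toFun := fun k => ψ (Additive.ofMul (c k h))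
            map_one' := by simp [c10]
            map_mul' := by
              intro k k'
              simp only [Subgroup.coe_mul, c1, ofMul_mul, AddChar.map_add_eq_mul] }
        map_one' := by
          ext k
          simp [c20]
        map_mul' := by
          intro h h'
          ext k
          simp only [Subgroup.coe_mul, c2, ofMul_mul, AddChar.map_add_eq_mul, MonoidHom.coe_mk,
            OneHom.coe_mk, MonoidHom.mul_apply] }
    refine gauss _ γ N.factorial_pos ?_ ?_
    · intro b
      rw [← AddChar.map_nsmul_eq_pow, ← ofMul_pow]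
      have : q b ^ N.factorial = 1 := by
        obtain ⟨t, ht⟩ := Nat.dvd_factorial (Fintype.card_pos (α := A)) hN
        rw [ht, pow_mul, pow_card_eq_one, one_pow]
      rw [this]; simp
    · intro k h
      simp only [hqm, ofMul_mul, AddChar.map_add_eq_mul]
      rfl
  have e1 : (∑ h : H, if σ h * h = 1 then (1 : ℂ) else 0)
      = ∑ b : B, if q b = 1 then (1 : ℂ) else 0 := by
    have : ∀ b : B, (q b = 1) ↔ σ b * b = 1 := by
      intro b
      rw [← hq, ← map_one ι, hι.eq_iff]
    simp only [this]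
    rw [← Finset.sum_subtype (univ.filter (· ∈ B)) (p := (· ∈ B)) (by simp)
      (fun h => if σ h * h = 1 then (1 : ℂ) else 0), Finset.sum_filter]
    refine Finset.sum_congr rfl fun h _ => ?_
    by_cases h1 : σ h * h = 1
    · have : h ∈ B := ⟨1, by rw [h1, map_one]⟩
      simp [h1, this]
    · simp [h1]
  have e2 : ∀ b : B, (if q b = 1 then (1 : ℂ) else 0)
      = (Fintype.card A : ℂ)⁻¹ * ∑ ψ : AddChar (Additive A) ℂ, ψ (Additive.ofMul (q b)) := by
    intro b
    rw [AddChar.sum_apply_eq_ite]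
    simp only [ofMul_eq_zero, Fintype.card_additive]
    split_ifs
    · field_simp
    · simp
  have hcard : (Fintype.card H : ℂ) = B.index * Fintype.card B := by
    have := B.index_mul_card
    simp only [Nat.card_eq_fintype_card] at this
    exact_mod_cast this.symm
  have hi : (B.index : ℂ) ≠ 0 := by exact_mod_cast B.index_ne_zero_of_finite
  refine ⟨(B.index : ℂ)⁻¹, ⟨_, rfl⟩, _, ⟨(Fintype.card A : ℂ)⁻¹, ⟨_, rfl⟩,
    ∑ ψ : AddChar (Additive A) ℂ, (∑ b : B, ψ (Additive.ofMul (q b))) / Fintype.card B,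
    sum_mem_sumSet _ _ _ (fun ψ _ => Set.mem_insert_of_mem _ (hg ψ)) ?_, rfl⟩, ?_⟩
  · rw [Finset.card_univ, AddChar.card_eq, Fintype.card_additive]; exact hN
  · simp only [e1, e2, ← Finset.mul_sum, ← Finset.sum_div]
    rw [Finset.sum_comm, hcard]
    field_simp

end Pool.Agent.H69.Ivp
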