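import Pool.Agent.H69.Ivp2

set_option autoImplicit false

namespace Pool.Agent.H69.Ivp

open Finset
open scoped commutatorElement

/-- size of the conjugacy class -/
noncomputable def d {G : Type*} [Group G] (g : G) : ℕ := (Subgroup.centralizer {g}).index

section
variable {G : Type*} [Group G] [Fintype G]

lemma d_mul (g h : G) : d (g * h) ≤ d g * d h := by
  refine le_trans (Subgroup.index_antitone ?_) Subgroup.index_inf_le
  intro x hx
  obtain ⟨h1, h2⟩ := Subgroup.mem_inf.1 hx
  rw [Subgroup.mem_centralizer_singleton_iff] at h1 h2 ⊢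
  rw [← mul_assoc, h1, mul_assoc, h2, mul_assoc]

omit [Fintype G] in
lemma d_inv (g : G) : d g⁻¹ = d g := by
  unfold d
  congr 1
  ext x
  simp only [Subgroup.mem_centralizer_singleton_iff]
  exact ⟨fun h => (Commute.inv_right_iff.1 h), fun h => Commute.inv_right_iff.2 h⟩

omit [Fintype G] in
lemma d_one : d (1 : G) = 1 := by
  unfold d
  rw [Subgroup.index_eq_one, eq_top_iff]
  intro x _
  simp [Subgroup.mem_centralizer_singleton_iff]

lemma d_pos (g : G) : 0 < d g := Nat.pos_of_ne_zero Subgroup.index_ne_zero_of_finite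

open Classical in
lemma many (e : ℕ) (he : Fintype.card G ≤ e * (univ.filter fun x : G => x * x = 1).card) :
    Fintype.card G ≤ (2 * e ^ 2) * (univ.filter fun g : G => d g ≤ 2 * e ^ 2).card := by
  set I := univ.filter fun x : G => x * x = 1 with hI
  set n := 2 * e ^ 2 with hn
  set X := univ.filter fun g : G => d g ≤ n with hX
  have h1 : (I ×ˢ I).card = ∑ g : G, ((I ×ˢ I).filter fun p => p.1 * p.2 = g).card :=
    Finset.card_eq_sum_card_fiberwise (fun _ _ => mem_coe.2 (mem_univ _))
  have h2 : ∀ g : G, ((I ×ˢ I).filter fun p => p.1 * p.2 = g).card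
      ≤ Nat.card (Subgroup.centralizer {g}) := by
    intro g
    have inv : ∀ p ∈ (I ×ˢ I).filter fun p => p.1 * p.2 = g, p.1 * g = g⁻¹ * p.1 := by
      rintro ⟨x, y⟩ hp
      simp only [hI, mem_filter, mem_product, mem_univ, true_and] at hp
      obtain ⟨⟨hx, hy⟩, rfl⟩ := hp
      have ex : x⁻¹ = x := inv_eq_of_mul_eq_one_right hx
      have ey : y⁻¹ = y := inv_eq_of_mul_eq_one_right hy
      simp only [mul_inv_rev, ex, ey, ← mul_assoc, hx, one_mul]
      rw [mul_assoc, hx, mul_one]
    rcases ((I ×ˢ I).filter fun p => p.1 * p.2 = g).eq_empty_or_nonempty with h0 | ⟨p0, hp0⟩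
    · rw [h0]; simp
    · rw [Nat.card_eq_fintype_card, Fintype.card_subtype]
      refine Finset.card_le_card_of_injOn (fun p => p0.1⁻¹ * p.1) ?_ ?_
      · intro p hp
        simp only [coe_filter, mem_univ, true_and, Set.mem_setOf_eq,
          Subgroup.mem_centralizer_singleton_iff]
        have a1 := inv p hp
        have a2 := inv p0 hp0
        rw [mul_assoc, a1, ← mul_assoc, ← mul_assoc]
        congr 1
        rw [inv_mul_eq_iff_eq_mul, ← mul_assoc, a2]
        group
      · rintro ⟨x, y⟩ hp ⟨x', y'⟩ hp' e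
        simp only [mul_right_inj] at e
        subst e
        have b1 := (mem_filter.1 (mem_coe.1 hp)).2
        have b2 := (mem_filter.1 (mem_coe.1 hp')).2
        simp only at b1 b2
        rw [mul_left_cancel (b1.trans b2.symm)]
  have h3 : ∀ g : G, n * Nat.card (Subgroup.centralizer {g})
      ≤ (if d g ≤ n then n * Fintype.card G else 0) + Fintype.card G := by
    intro g
    have e1 : d g * Nat.card (Subgroup.centralizer {g}) = Fintype.card G := by
      rw [← Nat.card_eq_fintype_card]; exact Subgroup.index_mul_card _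
    split_ifs with h
    · have : Nat.card (Subgroup.centralizer {g}) ≤ Fintype.card G := by
        rw [← e1]; exact Nat.le_mul_of_pos_left _ (d_pos g)
      exact le_trans (Nat.mul_le_mul_left _ this) (Nat.le_add_right _ _)
    · rw [zero_add, ← e1]
      exact Nat.mul_le_mul_right _ (not_le.1 h).le
  have h4 : n * (I.card * I.card) ≤ X.card * (n * Fintype.card G)
      + Fintype.card G * Fintype.card G := by
    rw [← Finset.card_product, h1, Finset.mul_sum]
    refine le_trans (Finset.sum_le_sum fun g _ =>
      le_trans (Nat.mul_le_mul_left _ (h2 g)) (h3 g)) ?_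
    rw [Finset.sum_add_distrib, ← Finset.sum_filter]
    simp [hX]
  have h5 : 2 * (Fintype.card G * Fintype.card G) ≤ n * (I.card * I.card) := by
    have := Nat.mul_le_mul he he
    rw [hn]; nlinarith
  have h6 : Fintype.card G * Fintype.card G ≤ (n * X.card) * Fintype.card G := by nlinarith
  exact Nat.le_of_mul_le_mul_right h6 Fintype.card_pos

open Classical in
lemma level (n : ℕ) (hn : 0 < n)
    (h : Fintype.card G ≤ n * (univ.filter fun g : G => d g ≤ n).card) :
    ∃ H : Subgroup G, H.index ≤ n ∧ ∀ g ∈ H, d g ≤ n ^ (3 * n) := by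
  let L : ℕ → Finset G := fun k => univ.filter fun g : G => d g ≤ n ^ k
  have memL : ∀ k g, g ∈ L k ↔ d g ≤ n ^ k := by intro k g; simp [L]
  have hL1 : L 1 = univ.filter fun g : G => d g ≤ n := by simp [L]
  have one : ∀ k, (1 : G) ∈ L k := fun k => (memL _ _).2 (by rw [d_one]; exact Nat.one_le_pow _ _ hn)
  have mul : ∀ k g x, g ∈ L k → x ∈ L 1 → g * x ∈ L (k + 1) := by
    intro k g x hg hx
    rw [memL] at hg hx ⊢
    refine (d_mul g x).trans ?_
    rw [pow_succ]
    exact Nat.mul_le_mul hg (by simpa using hx)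
  have inv : ∀ k g, g ∈ L k → g⁻¹ ∈ L k := by
    intro k g hg
    rw [memL] at hg ⊢
    rwa [d_inv]
  have mono : ∀ k l, k ≤ l → L k ⊆ L l := by
    intro k l hkl g hg
    rw [memL] at hg ⊢
    exact hg.trans (Nat.pow_le_pow_right hn hkl)
  have ex : ∃ k ≤ 3 * n, L (k + 1) ⊆ L k := by
    by_contra hc
    push Not at hc
    have grow : ∀ i ≤ n, (i + 1) * (L 1).card ≤ (L (3 * i + 1)).card := by
      intro i
      induction i with
      | zero => intro _; simp
      | succ i ih =>
        intro hi
        obtain ⟨g, hg1, hg2⟩ := Finset.not_subset.1 (hc (3 * i + 2) (by omega))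
        have hd : Disjoint (L (3 * i + 1)) ((L 1).image (g * ·)) := by
          rw [Finset.disjoint_left]
          intro y hy hy'
          obtain ⟨x, hx, rfl⟩ := mem_image.1 hy'
          apply hg2
          have := mul _ _ _ hy (inv _ _ hx)
          simpa using this
        have hs : L (3 * i + 1) ∪ (L 1).image (g * ·) ⊆ L (3 * (i + 1) + 1) := by
          refine Finset.union_subset (mono _ _ (by omega)) ?_
          intro y hy'
          obtain ⟨x, hx, rfl⟩ := mem_image.1 hy'
          exact mul _ _ _ hg1 hx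
        have := Finset.card_le_card hs
        rw [Finset.card_union_of_disjoint hd,
          Finset.card_image_of_injective _ (mul_right_injective g)] at this
        have := ih (by omega)
        nlinarith
    have a1 := grow n le_rfl
    have a2 := Finset.card_le_univ (L (3 * n + 1))
    have a3 : 0 < (L 1).card := Finset.card_pos.2 ⟨1, one 1⟩
    rw [← hL1] at h
    nlinarith
  obtain ⟨k, hk, hLk⟩ := ex
  refine ⟨Subgroup.closure (L 1 : Set G), ?_, ?_⟩
  · have e1 := (Subgroup.closure (L 1 : Set G)).index_mul_card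
    have e2 : (L 1).card ≤ Nat.card (Subgroup.closure (L 1 : Set G)) := by
      rw [Nat.card_eq_fintype_card, Fintype.card_subtype]
      refine Finset.card_le_card fun x hx => ?_
      simp only [mem_filter, mem_univ, true_and]
      exact Subgroup.subset_closure hx
    have a3 : 0 < (L 1).card := Finset.card_pos.2 ⟨1, one 1⟩
    rw [← hL1, ← Nat.card_eq_fintype_card, ← e1] at h
    have := (Nat.mul_le_mul_left (Subgroup.closure (L 1 : Set G)).index e2).trans h
    exact Nat.le_of_mul_le_mul_right this a3
  · intro g hg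
    have : g ∈ L k := by
      induction hg using Subgroup.closure_induction_right with
      | one => exact one k
      | mul_right x hx y hy ih => exact hLk (mul _ _ _ ih hy)
      | mul_inv_cancel x hx y hy ih => exact hLk (mul _ _ _ ih (inv _ _ hy))
    exact (memL _ _).1 (mono _ _ hk this)

open Classical in
lemma bfc (m : ℕ) (hm : ∀ g : G, d g ≤ m) :
    ∃ U : Subgroup G, U.index ≤ m ^ m ∧ ∃ S : Finset G, S.card ≤ m * m ∧
      ∀ u ∈ U, ∀ h : G, u⁻¹ * h * u * h⁻¹ ∈ S := by
  obtain ⟨a, -, ha⟩ := Finset.exists_max_image (univ : Finset G) d ⟨1, mem_univ _⟩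
  have hm0 : 0 < m := (d_pos (1 : G)).trans_le (hm 1)
  set C := Subgroup.centralizer ({a} : Set G) with hC
  have hs : Fintype.card (G ⧸ C) = d a := by rw [← Nat.card_eq_fintype_card]; rfl
  have conj : ∀ (x h h' : G), (QuotientGroup.mk h : G ⧸ Subgroup.centralizer ({x} : Set G))
      = QuotientGroup.mk h' ↔ h * x * h⁻¹ = h' * x * h'⁻¹ := by
    intro x h h'
    rw [QuotientGroup.eq, Subgroup.mem_centralizer_singleton_iff]
    constructor
    · intro e
      calc h * x * h⁻¹ = h * (x * (h⁻¹ * h')) * h'⁻¹ := by group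
        _ = _ := by rw [← e]; group
    · intro e
      calc h⁻¹ * h' * x = h⁻¹ * (h' * x * h'⁻¹) * h' := by group
        _ = _ := by rw [← e]; group
  refine ⟨⨅ c : G ⧸ C, Subgroup.centralizer {c.out}, ?_,
    (univ : Finset ((G ⧸ C) × (G ⧸ C))).image
      fun p => (p.1.out * a * p.1.out⁻¹) * (p.2.out * a * p.2.out⁻¹)⁻¹, ?_, ?_⟩
  · refine (Subgroup.index_iInf_le _).trans ?_
    refine (Finset.prod_le_pow_card _ _ m fun c _ => hm _).trans ?_
    rw [Finset.card_univ, hs]
    exact Nat.pow_le_pow_right hm0 (hm a)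
  · refine Finset.card_image_le.trans ?_
    rw [Finset.card_univ, Fintype.card_prod, hs]
    exact Nat.mul_le_mul (hm a) (hm a)
  · intro u hu h
    have hu' : ∀ c : G ⧸ C, c.out * (u * a) * c.out⁻¹ = u * (c.out * a * c.out⁻¹) := by
      intro c
      have := Subgroup.mem_centralizer_singleton_iff.1 (Subgroup.mem_iInf.1 hu c)
      rw [← mul_assoc, ← this]; group
    let F : G ⧸ C → G ⧸ Subgroup.centralizer ({u * a} : Set G) := fun c => QuotientGroup.mk c.out
    have hF : Function.Injective F := by
      intro c c' e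
      have := (conj _ _ _).1 e
      rw [hu', hu', mul_right_inj] at this
      have := (conj _ _ _).2 this
      simpa using this
    have hF' : Function.Surjective F := by
      refine ((Fintype.bijective_iff_injective_and_card F).2 ⟨hF, le_antisymm
        (Fintype.card_le_of_injective F hF) ?_⟩).2
      rw [hs, ← Nat.card_eq_fintype_card]
      exact ha (u * a) (mem_univ _)
    obtain ⟨c, hc⟩ := hF' (QuotientGroup.mk h)
    have e1 := (conj _ _ _).1 hc
    rw [hu'] at e1
    have e2 : (QuotientGroup.mk h : G ⧸ C).out * a * (QuotientGroup.mk h : G ⧸ C).out⁻¹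
        = h * a * h⁻¹ := (conj _ _ _).1 (QuotientGroup.out_eq' _)
    refine mem_image.2 ⟨(c, QuotientGroup.mk h), mem_univ _, ?_⟩
    simp only
    rw [e2, eq_inv_mul_iff_mul_eq.2 e1]
    group

end

lemma core_index {G : Type*} [Group G] [Finite G] (H : Subgroup G) {n : ℕ} (h : H.index ≤ n) :
    H.normalCore.index ≤ n.factorial := by
  have h1 : H.normalCore.index ∣ H.index.factorial := by
    rw [Subgroup.normalCore_eq_ker, Subgroup.index_ker, Subgroup.index_eq_card, ← Nat.card_perm]
    exact Subgroup.card_subgroup_dvd_card _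
  exact (Nat.le_of_dvd (Nat.factorial_pos _) h1).trans (Nat.factorial_le h)

open Classical in
theorem structure_thm (e : ℕ) : ∃ N : ℕ, ∀ (G : Type) [Group G] [Fintype G],
    Fintype.card G ≤ e * (univ.filter fun x : G => x * x = 1).card →
    ∃ W K : Subgroup G, W.Normal ∧ W.index ≤ N ∧ Nat.card K ≤ N ∧
      (∀ x ∈ W, ∀ y ∈ W, x⁻¹ * y⁻¹ * x * y ∈ K) ∧ ∀ x ∈ W, ∀ k ∈ K, x * k = k * x := by
  set n := 2 * e ^ 2 with hn
  set m := n ^ (3 * n) with hm
  set D := (Finset.range (m * m + 1)).sup Subgroup.cardCommutatorBound with hD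
  refine ⟨max ((m ^ m * n * m ^ D).factorial) D, fun G _ _ he => ?_⟩
  have he0 : 0 < e := by
    rcases Nat.eq_zero_or_pos e with h | h
    · rw [h, zero_mul] at he
      exact absurd he (not_le.2 Fintype.card_pos)
    · exact h
  have hn0 : 0 < n := by positivity
  have hm0 : 0 < m := by positivity
  obtain ⟨H, hH1, hH2⟩ := level n hn0 (many e he)
  have hH3 : ∀ g : H, d g ≤ m := by
    intro g
    refine le_trans ?_ (hH2 g g.2)
    have : Subgroup.centralizer ({g} : Set H)
        = (Subgroup.centralizer ({(g : G)} : Set G)).subgroupOf H := by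
      ext x
      simp only [Subgroup.mem_centralizer_singleton_iff, Subgroup.mem_subgroupOf, Subtype.ext_iff,
        Subgroup.coe_mul]
    unfold d
    rw [this, ← Subgroup.relIndex_top_right (Subgroup.centralizer ({(g : G)} : Set G))]
    refine Subgroup.relIndex_le_of_le_right le_top ?_
    rw [Subgroup.relIndex_top_right]
    exact Subgroup.index_ne_zero_of_finite
  obtain ⟨U, hU1, S, hS1, hS2⟩ := bfc m hH3
  have hcs : Nat.card (commutatorSet U) ≤ m * m := by
    refine le_trans ?_ hS1
    rw [← Fintype.card_coe S, ← Nat.card_eq_fintype_card]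
    refine Nat.card_le_card_of_injective
      (fun x : commutatorSet U => (⟨((x : U) : H), ?_⟩ : {y // y ∈ S})) ?_
    · obtain ⟨x, u, v, rfl⟩ := x
      have := hS2 u⁻¹ (U.inv_mem u.2) v
      simpa [commutatorElement_def] using this
    · intro x y e
      simp only [Subtype.mk.injEq] at e
      exact Subtype.ext (Subtype.ext e)
  have hD1 : Nat.card (_root_.commutator U) ≤ D :=
    (Subgroup.card_commutator_le_of_finite_commutatorSet U).trans
      (Finset.le_sup (f := Subgroup.cardCommutatorBound) (mem_range.2 (by omega)))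
  let j : U →* G := H.subtype.comp U.subtype
  have hj : Function.Injective j := H.subtype_injective.comp U.subtype_injective
  let K : Subgroup G := (_root_.commutator U).map j
  have hK : Nat.card K ≤ D := by
    rw [Subgroup.card_map_of_injective hj]; exact hD1
  let V : Subgroup G := U.map H.subtype ⊓ ⨅ k : K, Subgroup.centralizer {(k : G)}
  have hV : V.index ≤ m ^ m * n * m ^ D := by
    refine Subgroup.index_inf_le.trans (Nat.mul_le_mul ?_ ?_)
    · rw [Subgroup.index_map_subtype]
      exact Nat.mul_le_mul hU1 hH1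
    · refine (Subgroup.index_iInf_le _).trans ?_
      refine (Finset.prod_le_pow_card _ _ m fun k _ => ?_).trans ?_
      · obtain ⟨k, u, hu, rfl⟩ := k
        exact hH2 _ (u : H).2
      · rw [Finset.card_univ, ← Nat.card_eq_fintype_card]
        exact Nat.pow_le_pow_right hm0 hK
  refine ⟨V.normalCore, K, inferInstance, (core_index V hV).trans (le_max_left _ _),
    hK.trans (le_max_right _ _), ?_, ?_⟩
  · intro x hx y hy
    obtain ⟨x, hx', rfl⟩ := (V.normalCore_le hx).1
    obtain ⟨y, hy', rfl⟩ := (V.normalCore_le hy).1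
    refine ⟨⁅(⟨x, hx'⟩ : U)⁻¹, (⟨y, hy'⟩ : U)⁻¹⁆,
      Subgroup.commutator_mem_commutator (Subgroup.mem_top _) (Subgroup.mem_top _), ?_⟩
    simp [j, commutatorElement_def]
  · intro x hx k hk
    exact Subgroup.mem_centralizer_singleton_iff.1
      (Subgroup.mem_iInf.1 (V.normalCore_le hx).2 ⟨k, hk⟩)

end Pool.Agent.H69.Ivp
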