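import Pool.Agent.H69.Ivp3

set_option autoImplicit false

namespace Pool.Agent.H69.Ivp

open Finset

open Classical in
lemma coset_mem {G : Type*} [Group G] [Fintype G] (W K : Subgroup G) [W.Normal] {N : ℕ}
    (hK : Nat.card K ≤ N) (h1 : ∀ x ∈ W, ∀ y ∈ W, x⁻¹ * y⁻¹ * x * y ∈ K)
    (h2 : ∀ x ∈ W, ∀ k ∈ K, x * k = k * x) (g : G) :
    (∑ w : W, if (g * w) * (g * w) = 1 then (1 : ℂ) else 0) / Fintype.card W
      ∈ insert 0 (PP N) := by
  by_cases hex : ∃ w : W, (g * w) * (g * w) = 1
  · obtain ⟨w0, hw0⟩ := hex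
    right
    let j : Subgroup.center W →* G := W.subtype.comp (Subgroup.center W).subtype
    have hj : Function.Injective j := W.subtype_injective.comp (Subgroup.center W).subtype_injective
    let A : Subgroup (Subgroup.center W) := K.comap j
    let ι : A →* W := (Subgroup.center W).subtype.comp A.subtype
    have hι : Function.Injective ι :=
      (Subgroup.center W).subtype_injective.comp A.subtype_injective
    have hA : Fintype.card A ≤ N := by
      refine le_trans ?_ hK
      rw [← Nat.card_eq_fintype_card]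
      refine Nat.card_le_card_of_injective (fun a : A => (⟨j a, a.2⟩ : K)) ?_
      intro a b e
      have e' : j a = j b := congrArg (fun z : K => (z : G)) e
      exact Subtype.ext (hj e')
    letI : CommGroup A := { (inferInstance : Group A) with
      mul_comm := fun a b => Subtype.ext (Subtype.ext (Subgroup.mem_center_iff.1 b.1.2 a.1.1)) }
    have := inverted ι hι (fun a h => (Subgroup.mem_center_iff.1 a.1.2 h).symm)
      (fun k h => ⟨⟨⟨k⁻¹ * h⁻¹ * k * h, Subgroup.mem_center_iff.2 fun x =>
        Subtype.ext (h2 x x.2 _ (h1 k k.2 h h.2))⟩, h1 k k.2 h h.2⟩, rfl⟩)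
      (MulAut.conjNormal (g * w0)).toMonoidHom hA
    rw [← Equiv.sum_comp (Equiv.mulLeft w0)]
    have e : ∀ w : W, (g * (w0 * w : W)) * (g * (w0 * w : W)) = 1 ↔
        (MulAut.conjNormal (g * w0)).toMonoidHom w * w = 1 := by
      intro w
      rw [Subtype.ext_iff]
      simp only [Subgroup.coe_mul, MulEquiv.coe_toMonoidHom, MulAut.conjNormal_apply,
        Subgroup.coe_one]
      rw [inv_eq_of_mul_eq_one_right hw0]
      simp only [mul_assoc]
    simp only [Equiv.coe_mulLeft, e]
    convert this
  · left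
    push Not at hex
    simp [hex]

open Classical in
lemma card_sq {G : Type*} [Group G] [Fintype G] :
    (univ.filter fun x : G => x * x = 1).card = Nat.card {x : G // orderOf x = 2} + 1 := by
  rw [Nat.card_eq_fintype_card, Fintype.card_subtype,
    ← Finset.card_insert_of_notMem (a := (1 : G)) (by simp)]
  congr 1
  ext x
  simp only [mem_filter, mem_univ, true_and, mem_insert]
  constructor
  · intro h
    by_cases hx : x = 1
    · exact Or.inl hx
    · exact Or.inr (orderOf_eq_prime (by rw [pow_two, h]) hx)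
  · rintro (rfl | h)
    · simp
    · rw [← pow_two, ← h, pow_orderOf_eq_one]

theorem main (e : ℕ) : ∃ T : Set ℂ, CC T ∧ ∀ (G : Type) [Group G] [Finite G],
    Nat.card G ≤ e * Nat.card {x : G // orderOf x = 2} →
    (Nat.card {x : G // orderOf x = 2} : ℂ) / Nat.card G ∈ T := by
  classical
  obtain ⟨N, hN⟩ := structure_thm e
  refine ⟨Set.image2 (· - ·) (Set.image2 (· * ·) Inv (sumSet (PP N) N)) Inv,
    (cc_Inv.image2 ((cc_PP N).sumSet N) _ (by fun_prop)).image2 cc_Inv _ (by fun_prop), ?_⟩
  intro G _ _ he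
  haveI := Fintype.ofFinite G
  obtain ⟨W, K, hW, hWi, hK, h1, h2⟩ := hN G (by
    rw [card_sq, ← Nat.card_eq_fintype_card]
    exact he.trans (Nat.mul_le_mul_left _ (Nat.le_succ _)))
  refine ⟨_, ⟨(W.index : ℂ)⁻¹, ⟨_, rfl⟩, ∑ c : G ⧸ W,
    (∑ w : W, if (c.out * w) * (c.out * w) = 1 then (1 : ℂ) else 0) / Fintype.card W,
    sum_mem_sumSet _ _ _ (fun c _ => coset_mem W K hK h1 h2 c.out) ?_, rfl⟩,
    (Nat.card G : ℂ)⁻¹, ⟨_, rfl⟩, ?_⟩
  · rw [Finset.card_univ, ← Nat.card_eq_fintype_card]; exact hWi
  · have e1 := sum_cosets W fun x : G => if x * x = 1 then (1 : ℂ) else 0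
    have e2 : (∑ x : G, if x * x = 1 then (1 : ℂ) else 0)
        = Nat.card {x : G // orderOf x = 2} + 1 := by
      rw [Finset.sum_boole, card_sq]; push_cast; rfl
    have hcard : (Nat.card G : ℂ) = W.index * Fintype.card W := by
      have := W.index_mul_card
      rw [Nat.card_eq_fintype_card (α := W)] at this
      exact_mod_cast this.symm
    have hi : (W.index : ℂ) ≠ 0 := by exact_mod_cast W.index_ne_zero_of_finite
    have hw : (Fintype.card W : ℂ) ≠ 0 := by exact_mod_cast Fintype.card_ne_zero
    simp only [← Finset.sum_div]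
    rw [← e1, e2, hcard]
    field_simp
    ring

end Pool.Agent.H69.Ivp
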