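import Mathlib

set_option autoImplicit false

namespace Pool.Agent.H69.Lac

open Subgroup Pointwise

theorem eqperm {Γ : Type} [Group Γ] [DecidableEq Γ] (H : Subgroup Γ) (Ω2 : Finset Γ)
    (h2 : ∀ h ∈ H, ∀ x ∈ Ω2, h * x ∈ Ω2) : ∀ (n : ℕ) (Ω1 : Finset Γ), (Ω1 \ Ω2).card = n →
    (∀ h ∈ H, ∀ x ∈ Ω1, h * x ∈ Ω1) → Ω1.card = Ω2.card →
    ∃ σ : Equiv.Perm Γ, (∀ h ∈ H, ∀ x, σ (h * x) = h * σ x) ∧ (∀ x ∈ Ω1, σ x ∈ Ω2) ∧
      ∀ x ∈ Ω1, x ∈ Ω2 → σ x = x := by
  classical
  intro n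
  induction n using Nat.strong_induction_on with
  | _ n ih =>
  intro Ω1 hn h1 hc
  by_cases hs : Ω1 ⊆ Ω2
  · exact ⟨1, fun _ _ _ => rfl, fun x hx => hs hx, fun _ _ _ => rfl⟩
  obtain ⟨x, hx1, hx2⟩ := Finset.not_subset.1 hs
  have : ¬ Ω2 ⊆ Ω1 := fun h => hs (Finset.eq_of_subset_of_card_le h hc.le).ge
  obtain ⟨y, hy2, hy1⟩ := Finset.not_subset.1 this
  have a1 : ∀ z ∈ Ω1, z * y⁻¹ ∉ H := fun z hz h => hy1 (by simpa using h1 _ (H.inv_mem h) z hz)
  have a2 : ∀ z ∈ Ω2, z * x⁻¹ ∉ H := fun z hz h => hx2 (by simpa using h2 _ (H.inv_mem h) z hz)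
  let s0 : Γ → Γ := fun z => if z * x⁻¹ ∈ H then z * x⁻¹ * y else if z * y⁻¹ ∈ H then z * y⁻¹ * x
    else z
  have hs0 : Function.Involutive s0 := by
    intro z
    by_cases c1 : z * x⁻¹ ∈ H
    · have e1 : s0 z = z * x⁻¹ * y := if_pos c1
      have c2 : z * x⁻¹ * y * x⁻¹ ∉ H := a2 _ (h2 _ c1 _ hy2)
      rw [e1]
      simp only [s0]
      rw [if_neg c2, if_pos (by simpa using c1)]
      group
    · by_cases c2 : z * y⁻¹ ∈ H
      · have e1 : s0 z = z * y⁻¹ * x := by simp only [s0]; rw [if_neg c1, if_pos c2]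
        rw [e1]
        simp only [s0]
        rw [if_pos (by simpa using c2)]
        group
      · have e1 : s0 z = z := by simp only [s0]; rw [if_neg c1, if_neg c2]
        rw [e1, e1]
  have hs1 : ∀ h ∈ H, ∀ z, s0 (h * z) = h * s0 z := by
    intro h hh z
    simp only [s0, mul_assoc h, H.mul_mem_cancel_left hh]
    split_ifs <;> rfl
  let s : Equiv.Perm Γ := hs0.toPerm
  obtain ⟨σ, b1, b2, b3⟩ := ih ((Ω1.image s0 \ Ω2).card) (by
      rw [← hn]
      refine lt_of_le_of_lt (Finset.card_le_card (t := (Ω1 \ Ω2).erase x) ?_)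
        (Finset.card_erase_lt_of_mem (Finset.mem_sdiff.2 ⟨hx1, hx2⟩))
      intro w hw
      obtain ⟨hw1, hw2⟩ := Finset.mem_sdiff.1 hw
      obtain ⟨z, hz, rfl⟩ := Finset.mem_image.1 hw1
      by_cases c1 : z * x⁻¹ ∈ H
      · exact (hw2 (by simp only [s0]; rw [if_pos c1]; exact h2 _ c1 _ hy2)).elim
      · have e1 : s0 z = z := by simp only [s0]; rw [if_neg c1, if_neg (a1 z hz)]
        rw [e1] at hw2 ⊢
        refine Finset.mem_erase.2 ⟨?_, Finset.mem_sdiff.2 ⟨hz, hw2⟩⟩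
        rintro rfl
        exact c1 (by simp))
    (Ω1.image s0) rfl (by
      intro h hh w hw
      obtain ⟨z, hz, rfl⟩ := Finset.mem_image.1 hw
      rw [← hs1 h hh]
      exact Finset.mem_image_of_mem _ (h1 h hh z hz))
    (by rw [Finset.card_image_of_injective _ hs0.injective, hc])
  refine ⟨σ * s, fun h hh z => ?_, fun z hz => b2 _ (Finset.mem_image_of_mem _ hz),
    fun z hz hz2 => ?_⟩
  · show σ (s0 (h * z)) = h * σ (s0 z)
    rw [hs1 h hh, b1 h hh]
  · have e1 : s0 z = z := by simp only [s0]; rw [if_neg (a2 z hz2), if_neg (a1 z hz)]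
    show σ (s0 z) = z
    rw [e1]
    exact b3 z (Finset.mem_image.2 ⟨z, hz, e1⟩) hz2

abbrev F := FreeGroup Bool

def a : F := FreeGroup.of false
def t : F := FreeGroup.of true

def aa (i : ℕ) : F := t ^ i * a * (t ^ i)⁻¹

theorem aa_succ (i : ℕ) : aa (i + 1) = t * aa i * t⁻¹ := by
  simp only [aa, pow_succ']; group

def L (k : ℕ) : Subgroup F := closure (aa '' {i | i < k})

theorem aa_mem {i k : ℕ} (h : i < k) : aa i ∈ L k := subset_closure ⟨i, h, rfl⟩

theorem L_mono {i k : ℕ} (h : i ≤ k) : L i ≤ L k :=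
  closure_mono (Set.image_mono (fun _ hj => lt_of_lt_of_le hj h))

theorem L_conj {k : ℕ} {w : F} (h : w ∈ L k) : t * w * t⁻¹ ∈ L (k + 1) := by
  induction h using closure_induction with
  | mem x hx =>
    obtain ⟨i, hi, rfl⟩ := hx
    rw [← aa_succ]; exact aa_mem (Nat.succ_lt_succ hi)
  | one => simpa using one_mem _
  | mul x y _ _ hx hy =>
    have := mul_mem hx hy
    rwa [show t * x * t⁻¹ * (t * y * t⁻¹) = t * (x * y) * t⁻¹ by group] at this
  | inv x _ hx =>
    have := inv_mem hx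
    rwa [show (t * x * t⁻¹)⁻¹ = t * x⁻¹ * t⁻¹ by group] at this

theorem act {Γ Y : Type} [Group Γ] (π : F →* Γ) (k : ℕ) (A : Γ →* Equiv.Perm Y)
    (τ : Equiv.Perm Y) (hτ : ∀ w ∈ L k, τ * A (π w) = A (π (t * w * t⁻¹)) * τ) :
    ∀ w ∈ L (k + 1), FreeGroup.lift (fun b : Bool => if b then τ else A (π a)) w = A (π w) := by
  set ρ := FreeGroup.lift (fun b : Bool => if b then τ else A (π a)) with hρ
  have ht : ρ t = τ := by simp [hρ, t]
  have ha : ρ a = A (π a) := by simp [hρ, a]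
  have key : ∀ i ≤ k, ρ (aa i) = A (π (aa i)) := by
    intro i
    induction i with
    | zero => intro _; simpa [aa] using ha
    | succ i ih =>
      intro hi
      rw [aa_succ, map_mul, map_mul, map_inv, ht, ih (by omega), hτ _ (aa_mem hi)]
      group
  intro w hw
  induction hw using closure_induction with
  | mem x hx =>
    obtain ⟨i, hi, rfl⟩ := hx
    exact key i (Nat.lt_succ_iff.1 hi)
  | one => simp
  | mul x y _ _ hx hy => simp only [map_mul, hx, hy]
  | inv x _ hx => simp only [map_inv, hx]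

def Sh (R : ℕ) : Set F := {w | ∃ l : List (Bool × Bool), l.length ≤ R ∧ FreeGroup.mk l = w}

theorem Sh_fin (R : ℕ) : (Sh R).Finite :=
  ((List.finite_length_le (Bool × Bool) R).image FreeGroup.mk).subset
    (fun _ ⟨l, h1, h2⟩ => ⟨l, h1, h2⟩)

theorem Sh_mul {R R' : ℕ} {w w' : F} (h : w ∈ Sh R) (h' : w' ∈ Sh R') : w * w' ∈ Sh (R + R') := by
  obtain ⟨l, h1, rfl⟩ := h
  obtain ⟨l', h2, rfl⟩ := h'
  exact ⟨l ++ l', by simp; omega, FreeGroup.mul_mk.symm⟩

theorem Sh_inv {R : ℕ} {w : F} (h : w ∈ Sh R) : w⁻¹ ∈ Sh R := by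
  obtain ⟨l, h1, rfl⟩ := h
  exact ⟨FreeGroup.invRev l, by simpa using h1, FreeGroup.inv_mk.symm⟩

theorem Sh_mono {R R' : ℕ} (h : R ≤ R') : Sh R ⊆ Sh R' :=
  fun _ ⟨l, h1, h2⟩ => ⟨l, h1.trans h, h2⟩

theorem Sh_ex (w : F) : ∃ R, w ∈ Sh R := ⟨_, w.toWord, le_rfl, FreeGroup.mk_toWord⟩

theorem Sh_one (R : ℕ) : (1 : F) ∈ Sh R := ⟨[], by simp, rfl⟩

theorem Sh_of (b : Bool) : FreeGroup.of b ∈ Sh 1 := ⟨[(b, true)], le_rfl, rfl⟩

theorem mk_cons (b e : Bool) (l : List (Bool × Bool)) :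
    FreeGroup.mk ((b, e) :: l) =
      (if e then FreeGroup.of b else (FreeGroup.of b)⁻¹) * FreeGroup.mk l := by
  cases e
  · simp only [FreeGroup.of, FreeGroup.inv_mk, Bool.false_eq_true, if_false, FreeGroup.mul_mk]; rfl
  · simp only [FreeGroup.of, if_true, FreeGroup.mul_mk]; rfl

theorem rf (k : ℕ) (P : Set F) (hP : P ⊆ L (k + 1))
    (hfin : (normalClosure P).relIndex (L (k + 1)) ≠ 0) (R : ℕ) :
    ∃ M' : Subgroup F, M'.Normal ∧ M'.FiniteIndex ∧ normalClosure P ≤ M' ∧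
      ∀ w ∈ Sh R, w ∈ M' → w ∈ normalClosure P := by
  classical
  set M := normalClosure P with hM
  let π := QuotientGroup.mk' M
  have hK : ((L (k + 1)).map π : Set (F ⧸ M)).Finite := by
    have := relIndex_ker (K := L (k + 1)) π
    rw [QuotientGroup.ker_mk'] at this
    exact Nat.finite_of_card_ne_zero (this ▸ hfin)
  have hΩ : (((L (k + 1)).map π : Set (F ⧸ M)) * (π '' Sh R)).Finite :=
    hK.mul ((Sh_fin R).image π)
  let Ω := hΩ.toFinset
  have mΩ : ∀ x, x ∈ Ω ↔ ∃ κ ∈ (L (k + 1)).map π, ∃ b ∈ π '' Sh R, κ * b = x := by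
    intro x; simp only [Ω, Set.Finite.mem_toFinset]; rfl
  have iΩ : ∀ κ ∈ (L (k + 1)).map π, ∀ x ∈ Ω, κ * x ∈ Ω := by
    intro κ hκ x hx
    obtain ⟨κ', h1, b, h2, rfl⟩ := (mΩ x).1 hx
    exact (mΩ _).2 ⟨κ * κ', mul_mem hκ h1, b, h2, mul_assoc _ _ _⟩
  have bΩ : ∀ w ∈ Sh R, π w ∈ Ω := fun w hw => (mΩ _).2 ⟨1, one_mem _, _, ⟨w, hw, rfl⟩, one_mul _⟩
  obtain ⟨σ, s1, s2, s3⟩ := eqperm ((L k).map π) (Ω.image (fun x => (π t)⁻¹ * x)) (by
      rintro _ ⟨w, hw, rfl⟩ x hx
      obtain ⟨z, hz, rfl⟩ := Finset.mem_image.1 hx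
      refine Finset.mem_image.2 ⟨π (t * w * t⁻¹) * z, iΩ _ ⟨_, L_conj hw, rfl⟩ z hz, ?_⟩
      simp only [map_mul, map_inv]; group)
    _ Ω rfl (fun h hh x hx => iΩ h (map_mono (L_mono (Nat.le_succ k)) hh) x hx)
    (Finset.card_image_of_injective _ (mul_right_injective _)).symm
  let A := MulAction.toPermHom (F ⧸ M) (F ⧸ M)
  have hA : ∀ g x, A g x = g * x := fun _ _ => rfl
  let τ : Equiv.Perm (F ⧸ M) := A (π t) * σ
  have hτ : ∀ x, τ x = π t * σ x := fun _ => rfl
  let gen : Bool → Equiv.Perm (F ⧸ M) := fun b : Bool => if b then τ else A (π a)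
  have hact := act π k A τ (by
    intro w hw
    ext x
    simp only [Equiv.Perm.mul_apply, hA, hτ, s1 _ ⟨w, hw, rfl⟩, map_mul π, map_inv π]
    group)
  have hgen : ∀ b, ∀ x ∈ Ω, gen b x ∈ Ω := by
    intro b x hx
    cases b
    · exact iΩ _ ⟨a, by simpa [aa] using aa_mem (Nat.succ_pos k), rfl⟩ x hx
    · obtain ⟨z, hz, h⟩ := Finset.mem_image.1 (s2 x hx)
      show τ x ∈ Ω
      rw [hτ, ← h]; simpa using hz
  have hgen' : ∀ b x, gen b x ∈ Ω ↔ x ∈ Ω := by
    intro b x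
    refine ⟨fun h => ?_, hgen b x⟩
    have : Ω.image (gen b) = Ω := Finset.eq_of_subset_of_card_le
      (fun y hy => by obtain ⟨z, hz, rfl⟩ := Finset.mem_image.1 hy; exact hgen b z hz)
      (Finset.card_image_of_injective _ (gen b).injective).ge
    rw [← this] at h
    obtain ⟨z, hz, h⟩ := Finset.mem_image.1 h
    rwa [← (gen b).injective h]
  let ρ := FreeGroup.lift gen
  let ρ' : F →* Equiv.Perm {x // x ∈ Ω} := FreeGroup.lift (fun b => (gen b).subtypePerm (hgen' b))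
  have hρ : ∀ w x, (ρ' w x).1 = ρ w x.1 := by
    intro w
    induction w using FreeGroup.induction_on with
    | C1 => intro x; simp
    | of b => intro x; simp [ρ, ρ']
    | inv_of b _ =>
      intro x
      simp only [ρ, ρ', map_inv, FreeGroup.lift_apply_of]
      rfl
    | mul x y hx hy => intro z; simp only [map_mul, Equiv.Perm.mul_apply, hx, hy]
  refine ⟨ρ'.ker, inferInstance, inferInstance, ?_, ?_⟩
  · refine normalClosure_le_normal (fun w hw => ?_)
    have h1 : π w = 1 := (QuotientGroup.eq_one_iff w).2 (subset_normalClosure hw)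
    show ρ' w = 1
    ext x
    rw [hρ, hact w (hP hw), h1]; simp
  · have key : ∀ l : List (Bool × Bool), l.length ≤ R →
        ρ (FreeGroup.mk l) 1 = π (FreeGroup.mk l) := by
      intro l
      induction l with
      | nil => intro _; exact (by simp : ρ 1 1 = π 1)
      | cons x l ih =>
        intro hl
        obtain ⟨b, e⟩ := x
        have h1 := bΩ _ ⟨_, hl, rfl⟩
        have hl' : l.length ≤ R := by simp at hl; omega
        have h2 := bΩ _ ⟨_, hl', rfl⟩
        rw [mk_cons] at h1 ⊢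
        rw [map_mul, map_mul, Equiv.Perm.mul_apply, ih hl']
        rw [map_mul] at h1
        cases b <;> cases e
        · simp only [ρ, gen, Bool.false_eq_true, if_false, map_inv, FreeGroup.lift_apply_of]
          rw [← map_inv A, hA]; rfl
        · simp only [ρ, gen, Bool.false_eq_true, if_false, if_true, FreeGroup.lift_apply_of, hA]
          rfl
        · simp only [ρ, gen, Bool.false_eq_true, if_false, if_true, map_inv,
            FreeGroup.lift_apply_of] at h1 ⊢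
          rw [Equiv.Perm.inv_eq_iff_eq, hτ, s3 _ h1 (Finset.mem_image.2 ⟨_, h2, rfl⟩)]
          simp [t]
        · simp only [ρ, gen, Bool.false_eq_true, if_false, if_true,
            FreeGroup.lift_apply_of] at h1 ⊢
          rw [hτ, s3 _ h2 (Finset.mem_image.2 ⟨_, h1, by simp [t]⟩)]
          rfl
    rintro _ ⟨l, hl, rfl⟩ hw
    have h1 := hρ (FreeGroup.mk l) ⟨1, by simpa using bΩ 1 (Sh_one R)⟩
    rw [MonoidHom.mem_ker.1 hw, key l hl] at h1
    exact (QuotientGroup.eq_one_iff _).1 h1.symm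

def ht : F →* Multiplicative ℤ :=
  FreeGroup.lift (fun b : Bool => if b then Multiplicative.ofAdd 1 else 1)

theorem ht_t : ht t = Multiplicative.ofAdd 1 := by simp [ht, t]
theorem ht_a : ht a = 1 := by simp [ht, a]

theorem L_ht (k : ℕ) : L k ≤ ht.ker := by
  refine (closure_le _).2 ?_
  rintro _ ⟨i, -, rfl⟩
  simp [aa, ht_a]

theorem side (k : ℕ) (P : Set F) (hP : P ⊆ L (k + 1)) :
    ∃ sd : F → Bool, (∀ w w', w⁻¹ * w' ∈ normalClosure P → sd w = sd w') ∧
      (∀ w, sd (a * w) = sd w) ∧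
      (∀ w, sd (t * w) ≠ sd w → ∃ w' ∈ L k, w'⁻¹ * w ∈ normalClosure P) ∧
      (∀ j : ℕ, sd (t ^ (j + 1)) = true) ∧ ∀ j : ℕ, sd (t ^ j)⁻¹ = false := by
  classical
  set M := normalClosure P with hM
  let π := QuotientGroup.mk' M
  let A : (F ⧸ M) →* Equiv.Perm ((F ⧸ M) × Bool) :=
    { toFun := fun g => Equiv.prodCongr (Equiv.mulLeft g) (Equiv.refl _)
      map_one' := by ext ⟨z, β⟩ <;> simp
      map_mul' := by intro g h; ext ⟨z, β⟩ <;> simp [mul_assoc] }
  have hA : ∀ g x β, A g (x, β) = (g * x, β) := fun _ _ _ => rfl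
  let τ : Equiv.Perm ((F ⧸ M) × Bool) := A (π t) * Function.Involutive.toPerm
    (fun z => (z.1, xor z.2 (decide (z.1 ∈ (L k).map π)))) (by rintro ⟨z, β⟩; simp)
  have hτ : ∀ x β, τ (x, β) = (π t * x, xor β (decide (x ∈ (L k).map π))) := fun _ _ => rfl
  have hact := act π k A τ (by
    intro w hw
    refine Equiv.ext ?_
    rintro ⟨x, β⟩
    simp only [Equiv.Perm.mul_apply, hA, hτ, map_mul π, map_inv π,
      ((L k).map π).mul_mem_cancel_left ⟨w, hw, rfl⟩]
    congr 1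
    group)
  set ρ := FreeGroup.lift (fun b : Bool => if b then τ else A (π a)) with hρ
  have hρt : ρ t = τ := by simp [hρ, t]
  have hρa : ρ a = A (π a) := by simp [hρ, a]
  have hfst : ∀ w z, (ρ w z).1 = π w * z.1 := by
    intro w
    induction w using FreeGroup.induction_on with
    | C1 => intro x; simp
    | of b =>
      rintro ⟨x, β⟩
      cases b
      · exact congrArg Prod.fst ((congrArg (· (x, β)) hρa).trans (hA _ _ _))
      · exact congrArg Prod.fst ((congrArg (· (x, β)) hρt).trans (hτ _ _))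
    | inv_of b ih =>
      intro z
      have := ih (ρ (FreeGroup.of b)⁻¹ z)
      rw [← Equiv.Perm.mul_apply, ← map_mul, mul_inv_cancel, map_one, Equiv.Perm.one_apply] at this
      rw [this, map_inv π, inv_mul_cancel_left]
    | mul x y hx hy => intro z; simp only [map_mul, Equiv.Perm.mul_apply, hx, hy, mul_assoc]
  have hker : M ≤ ρ.ker := by
    refine normalClosure_le_normal (fun w hw => ?_)
    have h1 : π w = 1 := (QuotientGroup.eq_one_iff w).2 (subset_normalClosure hw)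
    show ρ w = 1
    rw [hact w (hP hw), h1, map_one]
  have hMht : M ≤ ht.ker := normalClosure_le_normal (fun w hw => L_ht _ (hP hw))
  have hst : ∀ w, (ρ (t * w) (1, false)).2 =
      xor (ρ w (1, false)).2 (decide (π w ∈ (L k).map π)) := by
    intro w
    rw [map_mul, Equiv.Perm.mul_apply, hρt, ← Prod.mk.eta (p := ρ w (1, false)), hτ, hfst]
    simp
  have hnot : ∀ w, ht w ≠ 1 → π w ∉ (L k).map π := by
    rintro w hw ⟨w', h1, h2⟩
    have h3 : w'⁻¹ * w ∈ M := QuotientGroup.eq.1 h2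
    have h4 := hMht h3
    rw [MonoidHom.mem_ker, map_mul, map_inv, MonoidHom.mem_ker.1 (L_ht k h1)] at h4
    exact hw (by simpa using h4)
  refine ⟨fun w => (ρ w (1, false)).2, fun w w' h => ?_, fun w => ?_, fun w h => ?_,
    fun j => ?_, fun j => ?_⟩
  · have : ρ w' = ρ w := by
      rw [show w' = w * (w⁻¹ * w') by group, map_mul, MonoidHom.mem_ker.1 (hker h), mul_one]
    simp only [this]
  · simp only [map_mul, Equiv.Perm.mul_apply, hρa]
    rfl
  · simp only [hst] at h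
    by_cases h1 : π w ∈ (L k).map π
    · obtain ⟨w', h1, h2⟩ := h1
      exact ⟨w', h1, QuotientGroup.eq.1 h2⟩
    · simp [h1] at h
  · induction j with
    | zero => simpa [one_mem] using hst 1
    | succ j ih =>
      simp only at ih ⊢
      rw [pow_succ', hst, ih, decide_eq_false (hnot _ ?_)]
      · rfl
      · rw [map_pow, ht_t, ← ofAdd_nsmul]
        simp only [ne_eq, ofAdd_eq_one]
        simp; omega
  · induction j with
    | zero => simp
    | succ j ih =>
      simp only at ih ⊢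
      have := hst (t ^ (j + 1))⁻¹
      rw [show t * (t ^ (j + 1))⁻¹ = (t ^ j)⁻¹ by rw [pow_succ]; group, ih,
        decide_eq_false (hnot _ ?_)] at this
      · simpa using this.symm
      · rw [map_inv, map_pow, ht_t, ← ofAdd_nsmul]
        simp only [ne_eq, inv_eq_one, ofAdd_eq_one]
        simp; omega

end Pool.Agent.H69.Lac
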