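import Pool.Agent.H69.Lac1

set_option autoImplicit false

namespace Pool.Agent.H69.Lac

open Subgroup

def lt : Equiv.Perm (ℤ × Bool) := Equiv.prodCongr (Equiv.addRight 1) (Equiv.refl _)

def la (i : ℤ) : Equiv.Perm (ℤ × Bool) :=
  Function.Involutive.toPerm (fun z => (z.1, xor z.2 (decide (z.1 = i)))) (by rintro ⟨z, β⟩; simp)

def lam : F →* Equiv.Perm (ℤ × Bool) := FreeGroup.lift (fun b : Bool => if b then lt else la 0)

theorem lam_t : lam t = lt := by simp [lam, t]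
theorem lam_a : lam a = la 0 := by simp [lam, a]

theorem lt_la (i : ℤ) : lt * la i * lt⁻¹ = la (i + 1) := by
  rw [mul_inv_eq_iff_eq_mul]
  refine Equiv.ext ?_
  rintro ⟨x, β⟩
  simp [lt, la]

theorem lam_conj (i : ℤ) : lam (t ^ i * a * (t ^ i)⁻¹) = la i := by
  induction i using Int.induction_on with
  | zero => simp [lam_a]
  | succ i ih =>
    rw [← lt_la, ← ih, ← lam_t, ← map_inv, ← map_mul, ← map_mul]; congr 1; group
  | pred i ih =>
    have := lt_la (-i - 1)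
    rw [show (-(i : ℤ) - 1 + 1) = -i by ring, ← ih, ← lam_t] at this
    have h2 : la (-i - 1) = (lam t)⁻¹ * lam (t ^ (-(i : ℤ)) * a * (t ^ (-(i : ℤ)))⁻¹) * lam t := by
      rw [← this]; group
    rw [h2, ← map_inv, ← map_mul, ← map_mul]; congr 1; group

theorem la_inj : Function.Injective la := by
  intro i j h
  have := congrArg (fun p : Equiv.Perm (ℤ × Bool) => (p (i, false)).2) h
  simpa [la] using this

theorem lam_fin (k : ℕ) : lam.ker.relIndex (L k) ≠ 0 := by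
  rw [relIndex_ker]
  have h1 : ∀ p ∈ (L k).map lam, ∀ z, (p z).1 = z.1 ∧ (z.1 ∉ Set.Icc (0 : ℤ) k → p z = z) := by
    rintro _ ⟨w, hw, rfl⟩
    induction hw using closure_induction with
    | mem x hx =>
      obtain ⟨i, hi, rfl⟩ := hx
      have := lam_conj i
      simp only [zpow_natCast] at this
      rintro ⟨x, β⟩
      rw [aa, this]
      refine ⟨rfl, fun h => ?_⟩
      have hi' : i < k := hi
      have : x ≠ i := by rintro rfl; exact h ⟨by simp, by simp; omega⟩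
      simp [la, this]
    | one => simp
    | mul x y _ _ hx hy =>
      intro z
      rw [map_mul, Equiv.Perm.mul_apply]
      refine ⟨(hx _).1.trans (hy _).1, fun h => ?_⟩
      rw [(hy z).2 h, (hx z).2 h]
    | inv x _ hx =>
      intro z
      have h1 := hx ((lam x)⁻¹ z)
      simp only [Equiv.Perm.coe_inv, Equiv.apply_symm_apply] at h1
      rw [map_inv]
      refine ⟨h1.1.symm, fun h => ?_⟩
      rw [Equiv.Perm.inv_eq_iff_eq, (hx z).2 h]
  have : Finite ((L k).map lam) := by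
    refine Finite.of_injective (β := Set.Icc (0 : ℤ) k × Bool → Bool)
      (fun p z => (p.1 (z.1.1, z.2)).2) (fun p q h => Subtype.ext (Equiv.ext ?_))
    rintro ⟨x, β⟩
    by_cases hx : x ∈ Set.Icc (0 : ℤ) k
    · exact Prod.ext (((h1 _ p.2 _).1).trans ((h1 _ q.2 _).1).symm) (congrFun h (⟨x, hx⟩, β))
    · rw [(h1 _ p.2 _).2 hx, (h1 _ q.2 _).2 hx]
  exact Nat.card_pos.ne'

def Good (T : Subgroup F) : Prop := T.Normal ∧ ∀ j, T.relIndex (L j) ≠ 0

def MM (k : ℕ) (T : Subgroup F) : Subgroup F := normalClosure ((T ⊓ L (k + 1) : Subgroup F) : Set F)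

theorem MM_idx {k : ℕ} {T : Subgroup F} (hT : Good T) : (MM k T).relIndex (L (k + 1)) ≠ 0 := by
  intro h
  have := relIndex_eq_zero_of_le_left (H := T ⊓ L (k + 1)) le_normalClosure h
  rw [inf_relIndex_right] at this
  exact hT.2 _ this

theorem stepT (φ : ℕ → ℕ → ℕ) (k : ℕ) (T : {T // Good T}) : ∃ T' : {T // Good T},
    T'.1 ≤ T.1 ∧ MM k T.1 ≤ T'.1 ∧ ∃ n, k ≤ n ∧
      (∀ w ∈ L (k + 1), ∃ w' ∈ Sh n, w'⁻¹ * w ∈ MM k T.1) ∧
      ∀ w ∈ Sh (φ k n), w ∈ T'.1 → w ∈ MM k T.1 := by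
  obtain ⟨T, hT⟩ := T
  haveI := hT.1
  haveI : (MM k T).Normal := normalClosure_normal
  have hK : ((L (k + 1)).map (QuotientGroup.mk' (MM k T)) : Set (F ⧸ MM k T)).Finite := by
    have := relIndex_ker (K := L (k + 1)) (QuotientGroup.mk' (MM k T))
    rw [QuotientGroup.ker_mk'] at this
    exact Nat.finite_of_card_ne_zero (this ▸ MM_idx hT)
  choose r hr using Sh_ex
  obtain ⟨n, hn⟩ := (hK.image (fun x => r x.out)).bddAbove
  obtain ⟨M', h1, h2, h3, h4⟩ := rf k ((T ⊓ L (k + 1) : Subgroup F) : Set F)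
    (fun _ h => h.2) (MM_idx hT) (φ k (max n k))
  refine ⟨⟨T ⊓ M', inferInstance, fun j => relIndex_inf_ne_zero (hT.2 j)
    FiniteIndex.index_ne_zero⟩, inf_le_left, le_inf (normalClosure_le_normal (fun _ h => h.1)) h3,
    max n k, le_max_right _ _, fun w hw => ?_, fun w hw h => h4 w hw h.2⟩
  refine ⟨(QuotientGroup.mk' (MM k T) w).out, Sh_mono
    ((hn ⟨_, ⟨w, hw, rfl⟩, rfl⟩).trans (le_max_left _ _)) (hr _), ?_⟩
  exact QuotientGroup.eq.1 (Quotient.out_eq' _)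

theorem grp (φ : ℕ → ℕ → ℕ) : ∃ N : Subgroup F, N.Normal ∧ N ≤ ht.ker ∧ N ≤ lam.ker ∧
    (∀ j, N.relIndex (L j) ≠ 0) ∧ ∀ k, ∃ n, k ≤ n ∧ ∃ sd : F → Bool,
      (∀ w ∈ Sh (φ k n), ∀ w' ∈ Sh (φ k n), w⁻¹ * w' ∈ N → sd w = sd w') ∧
      (∀ w, sd (a * w) = sd w) ∧
      (∀ w, sd (t * w) ≠ sd w → ∃ w' ∈ Sh n, w'⁻¹ * w ∈ N) ∧
      (∀ j : ℕ, sd (t ^ (j + 1)) = true) ∧ ∀ j : ℕ, sd (t ^ j)⁻¹ = false := by
  choose st h1 h2 h3 using stepT (fun k n => φ k n + φ k n)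
  let T : ℕ → {T // Good T} := fun k => Nat.rec ⟨lam.ker, inferInstance, lam_fin⟩ st k
  have hT : ∀ k, T (k + 1) = st k (T k) := fun _ => rfl
  have anti : Antitone (fun k => (T k).1) := antitone_nat_of_succ_le (fun k => h1 k (T k))
  have mono : Monotone (fun k => MM k (T k).1) := monotone_nat_of_le_succ (fun k =>
    normalClosure_mono (fun w hw => ⟨h2 k (T k) (subset_normalClosure hw),
      L_mono (Nat.le_succ _) hw.2⟩))
  have mem : ∀ w, w ∈ ⨆ k, MM k (T k).1 ↔ ∃ k, w ∈ MM k (T k).1 :=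
    fun w => mem_iSup_of_directed mono.directed_le
  have hle : ∀ k, (⨆ k, MM k (T k).1) ≤ (T k).1 := fun k => iSup_le (fun j =>
    ((mono (le_max_left j k)).trans (h2 _ _)).trans
      (anti ((le_max_right j k).trans (Nat.le_succ _))))
  refine ⟨⨆ k, MM k (T k).1, ⟨fun w hw g => ?_⟩, iSup_le (fun k => normalClosure_le_normal
    (fun w hw => L_ht _ hw.2)), hle 0, fun j h => ?_, fun k => ?_⟩
  · obtain ⟨k, hk⟩ := (mem w).1 hw
    exact (mem _).2 ⟨k, normalClosure_normal.conj_mem _ hk g⟩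
  · exact MM_idx (T j).2 (relIndex_eq_zero_of_le_right (L_mono (Nat.le_succ j))
      (relIndex_eq_zero_of_le_left (le_iSup (fun k => MM k (T k).1) j) h))
  · obtain ⟨n, n1, n2, n3⟩ := h3 k (T k)
    obtain ⟨sd, s1, s2, s3, s4, s5⟩ := side k (((T k).1 ⊓ L (k + 1) : Subgroup F) : Set F)
      (fun _ h => h.2)
    refine ⟨n, n1, sd, fun w hw w' hw' h => s1 _ _ (n3 _ (Sh_mul (Sh_inv hw) hw') (hle (k + 1) h)),
      s2, fun w hw => ?_, s4, s5⟩
    obtain ⟨w1, a1, a2⟩ := s3 w hw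
    obtain ⟨w2, b1, b2⟩ := n2 w1 (L_mono (Nat.le_succ _) a1)
    refine ⟨w2, b1, (mem _).2 ⟨k, ?_⟩⟩
    have := mul_mem b2 a2
    rwa [show w2⁻¹ * w1 * (w1⁻¹ * w) = w2⁻¹ * w by group] at this

end Pool.Agent.H69.Lac
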