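import Pool.Agent.H69.LacDefs
import Pool.Agent.H69.CB

set_option autoImplicit false

namespace Pool.Agent.H69.Lac

open Subgroup CB SimpleGraph

theorem R_map {V W : Type} {Γ : SimpleGraph V} {Γ' : SimpleGraph W} {S : Set V} {S' : Set W}
    (f : V → W) (hf : ∀ x y, Γ.Adj x y → x ∈ S → y ∈ S → R Γ' S' (f x) (f y)) {x y : V}
    (h : R Γ S x y) : R Γ' S' (f x) (f y) :=
  h.ind (fun y => R Γ' S' (f x) (f y)) R.rfl (fun a b h ha hb ih => ih.trans (hf a b h ha hb))

theorem R_gen {Q : Type} [Group Q] {A : Set Q} {U : Set Q} {x s : Q} (hs : s ∈ A) (h1 : x ∈ U)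
    (h2 : x * s ∈ U) : R (mulCayley A) U x (x * s) := by
  by_cases h : x = x * s
  · rw [← h]; exact R.rfl
  · exact R.single ((mulCayley_adj' _ _ _).2 ⟨h, s, hs, Or.inl rfl⟩) h1 h2

theorem nocut {Q : Type} [Group Q] [Finite Q] (A A' : Set Q) (hA : A ⊆ A')
    (hA' : closure A' = ⊤) (x y : Q) (hx : x ∉ closure A) (hy : y ∉ closure A) :
    R (mulCayley A') (closure A : Set Q)ᶜ x y := by
  have hc := cay_conn hA'
  set K := closure A with hK
  let l : Q → ℕ := fun g => sInf {n | ∃ k ∈ K, (mulCayley A').dist (g * k) 1 = n}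
  have l1 : ∀ g, ∃ k ∈ K, (mulCayley A').dist (g * k) 1 = l g := fun g =>
    Nat.sInf_mem (s := {n | ∃ k ∈ K, (mulCayley A').dist (g * k) 1 = n}) ⟨_, 1, one_mem _, rfl⟩
  have l2 : ∀ g, ∀ k ∈ K, l g ≤ (mulCayley A').dist (g * k) 1 := fun g k hk =>
    Nat.sInf_le ⟨k, hk, rfl⟩
  have l3 : ∀ g, ∀ k ∈ K, l g ≤ l (g * k) := by
    intro g k hk
    obtain ⟨k', h1, h2⟩ := l1 (g * k)
    rw [← h2, mul_assoc]
    exact l2 g _ (mul_mem hk h1)
  obtain ⟨g0, hg0⟩ := Finite.exists_max l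
  let U : Set Q := {z | g0⁻¹ * z ∉ K}
  have cos : ∀ g ∈ U, ∀ k ∈ K, R (mulCayley A') U g (g * k) := by
    intro g hg k hk
    have hU : ∀ k ∈ K, g * k ∈ U := fun k hk h => hg (by
      rw [← mul_assoc] at h; exact (K.mul_mem_cancel_right hk).1 h)
    induction hk using closure_induction_right with
    | one => rw [mul_one]; exact R.rfl
    | mul_right k hk s hs ih =>
      refine ih.trans ?_
      rw [← mul_assoc]
      exact R_gen (hA hs) (hU k hk) (by rw [mul_assoc]; exact hU _ (mul_mem hk (subset_closure hs)))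
    | mul_inv_cancel k hk s hs ih =>
      refine ih.trans (R.symm ?_)
      have := R_gen (A := A') (U := U) (x := g * (k * s⁻¹)) (hA hs)
        (hU _ (mul_mem hk (inv_mem (subset_closure hs)))) (by simpa [mul_assoc] using hU k hk)
      simpa [mul_assoc] using this
  have key : ∀ n g, l g = n → g ∈ U → R (mulCayley A') U g 1 := by
    intro n
    induction n using Nat.strong_induction_on with
    | _ n ih =>
    intro g hn hg
    obtain ⟨k, h1, h2⟩ := l1 g
    have h3 := cos g hg k h1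
    refine h3.trans ?_
    rcases n with _ | n
    · rw [d0 hc (h2.trans hn)]; exact R.rfl
    obtain ⟨z, h4, h5⟩ := step hc (h2.trans hn)
    have h6 : l z ≤ n := by simpa [h5] using l2 z 1 (one_mem _)
    have h7 : z ∈ U := fun h => by
      have := l3 g0 _ h
      have := hg0 g
      rw [mul_inv_cancel_left] at *
      omega
    exact (R.single h4 (h3.mem hg) h7).trans (ih _ (by omega) z rfl h7)
  have h1 := (key _ (g0 * x) rfl (by simpa [U] using hx)).trans
    (key _ (g0 * y) rfl (by simpa [U] using hy)).symm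
  have := R_map (Γ' := mulCayley A') (S' := (K : Set Q)ᶜ) (fun z => g0⁻¹ * z)
    (fun a b h ha hb => R.single (mulCayley_adj_mul_iff_right.2 h) ha hb) h1
  simpa using this

theorem geo {V : Type} {Γ : SimpleGraph V} (hc : Γ.Connected) (y : V) (n : ℕ) :
    ∀ x, Γ.dist x y ≤ n → R Γ {z | Γ.dist z y ≤ n} x y := by
  induction n with
  | zero => intro x hx; rw [d0 hc (Nat.le_zero.1 hx)]; exact R.rfl
  | succ n ih =>
    intro x hx
    rcases hx.lt_or_eq with hx | hx
    · exact (ih x (by omega)).mono (fun z hz => Nat.le_succ_of_le hz)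
    · obtain ⟨z, h1, h2⟩ := step hc hx
      exact (R.single h1 hx.le (h2.le.trans (Nat.le_succ _))).trans
        ((ih z h2.le).mono (fun z hz => Nat.le_succ_of_le hz))

theorem R_reach {V : Type} {Γ : SimpleGraph V} {U : Set V} {x y : V} (h : R Γ U x y) (hx : x ∈ U) :
    (Γ.induce U).Reachable ⟨x, hx⟩ ⟨y, h.mem hx⟩ := by
  have := h.ind (fun y => ∃ hy : y ∈ U, (Γ.induce U).Reachable ⟨x, hx⟩ ⟨y, hy⟩)
    ⟨hx, Reachable.refl _⟩ (fun a b hab ha hb ⟨_, ih⟩ => ⟨hb, ih.trans (Adj.reachable hab)⟩)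
  exact this.2

section main
variable {G : Type} [Group G] (A T : G) (h : G →* Multiplicative ℤ)

def bb (i : ℤ) : G := T ^ i * A * (T ^ i)⁻¹

def KK (m : ℕ) : Subgroup G := closure (bb A T '' Set.Icc (-(m : ℤ)) m)

theorem KK_mono {m m' : ℕ} (hm : m ≤ m') : KK A T m ≤ KK A T m' :=
  closure_mono (Set.image_mono (Set.Icc_subset_Icc (by omega) (by omega)))

theorem KK_conj (m : ℕ) (j : ℤ) (g : G) (hg : g ∈ KK A T m) :
    T ^ j * g * (T ^ j)⁻¹ ∈ KK A T (m + j.natAbs) := by
  induction hg using closure_induction with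
  | mem x hx =>
    obtain ⟨i, hi, rfl⟩ := hx
    refine subset_closure ⟨j + i, ⟨by have := hi.1; omega, by have := hi.2; omega⟩, ?_⟩
    simp only [bb]; group
  | one => simpa using one_mem _
  | mul x y _ _ hx hy =>
    have := mul_mem hx hy
    rwa [show T ^ j * x * (T ^ j)⁻¹ * (T ^ j * y * (T ^ j)⁻¹) = T ^ j * (x * y) * (T ^ j)⁻¹ by
      group] at this
  | inv x _ hx =>
    have := inv_mem hx
    rwa [show (T ^ j * x * (T ^ j)⁻¹)⁻¹ = T ^ j * x⁻¹ * (T ^ j)⁻¹ by group] at this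

theorem decomp (hgen : closure {A, T} = ⊤) (g : G) :
    ∃ (m : ℕ) (j : ℤ), ∃ n ∈ KK A T m, g = n * T ^ j := by
  have hg : g ∈ closure {A, T} := hgen ▸ mem_top g
  induction hg using closure_induction with
  | mem x hx =>
    rcases hx with rfl | rfl
    · exact ⟨0, 0, x, subset_closure ⟨0, by simp, by simp [bb]⟩, by simp⟩
    · exact ⟨0, 1, 1, one_mem _, by simp⟩
  | one => exact ⟨0, 0, 1, one_mem _, by simp⟩
  | mul x y _ _ hx hy =>
    obtain ⟨m, j, n, h1, rfl⟩ := hx
    obtain ⟨m', j', n', h2, rfl⟩ := hy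
    refine ⟨m + (m' + j.natAbs), j + j', n * (T ^ j * n' * (T ^ j)⁻¹),
      mul_mem (KK_mono A T (by omega) h1) (KK_mono A T (by omega) (KK_conj A T _ j _ h2)), ?_⟩
    group
  | inv x _ hx =>
    obtain ⟨m, j, n, h1, rfl⟩ := hx
    exact ⟨_, -j, _, KK_conj A T _ (-j) _ (inv_mem h1), by group⟩

theorem KK_ht (hA : h A = 1) (m : ℕ) : KK A T m ≤ h.ker := by
  refine (closure_le _).2 ?_
  rintro _ ⟨i, -, rfl⟩
  simp [bb, hA]

theorem ht_pow (hT : h T = Multiplicative.ofAdd 1) (j : ℤ) :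
    h (T ^ j) = Multiplicative.ofAdd j := by
  rw [map_zpow, hT, ← ofAdd_zsmul]; simp

theorem cof0 (hgen : closure {A, T} = ⊤) (hA : h A = 1) (hT : h T = Multiplicative.ofAdd 1)
    (hinj : Function.Injective (bb A T)) (hfin : ∀ m, (KK A T m : Set G).Finite)
    (E : Set G) (hE : E.Finite) :
    ∃ w0, w0 ∉ E ∧ {x | ¬ R (mulCayley {A, T}) Eᶜ w0 x}.Finite := by
  choose mm jj nn h1 h2 using decomp A T hgen
  obtain ⟨m, hm⟩ := (hE.image mm).bddAbove
  have uniq : ∀ m n (j : ℤ) m' n' (j' : ℤ), n ∈ KK A T m → n' ∈ KK A T m' → n * T ^ j = n' * T ^ j' →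
      n = n' := by
    intro m n j m' n' j' a1 a2 a3
    have a4 := congrArg h a3
    rw [map_mul, map_mul, KK_ht A T h hA _ a1, KK_ht A T h hA _ a2, ht_pow T h hT,
      ht_pow T h hT] at a4
    have : j = j' := by simpa using a4
    subst this
    exact mul_right_cancel a3
  have good : ∀ m' n (j : ℤ), n ∈ KK A T m' → n ∉ KK A T m → n * T ^ j ∈ Eᶜ := by
    intro m' n j a1 a2 a3
    apply a2
    rw [uniq _ _ _ _ _ _ a1 (h1 _) (h2 _)]
    exact KK_mono A T (hm ⟨_, a3, rfl⟩) (h1 _)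
  have line : ∀ m' n (j : ℤ), n ∈ KK A T m' → n ∉ KK A T m →
      R (mulCayley {A, T}) Eᶜ n (n * T ^ j) := by
    intro m' n j a1 a2
    induction j using Int.induction_on with
    | zero => simpa using R.rfl
    | succ j ih =>
      refine ih.trans ?_
      rw [zpow_add_one, ← mul_assoc]
      refine R_gen (by simp) (good _ _ _ a1 a2) ?_
      rw [mul_assoc, ← zpow_add_one]; exact good _ _ _ a1 a2
    | pred j ih =>
      refine ih.trans (R.symm ?_)
      have := R_gen (A := {A, T}) (U := Eᶜ) (x := n * T ^ (-(j : ℤ) - 1)) (s := T) (by simp)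
        (good _ _ _ a1 a2) (by rw [mul_assoc, ← zpow_add_one]; exact good _ _ _ a1 a2)
      rwa [mul_assoc, ← zpow_add_one, sub_add_cancel] at this
  have edge : ∀ n i, n * T ^ i ∈ Eᶜ → n * bb A T i * T ^ i ∈ Eᶜ →
      R (mulCayley {A, T}) Eᶜ (n * T ^ i) (n * bb A T i * T ^ i) := by
    intro n i a1 a2
    have e : n * bb A T i * T ^ i = n * T ^ i * A := by simp only [bb]; group
    rw [e] at a2 ⊢
    exact R_gen (by simp) a1 a2
  have conn : ∀ m' n n', m ≤ m' → n ∈ KK A T m' → n ∉ KK A T m → n' ∈ KK A T m' →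
      n' ∉ KK A T m → R (mulCayley {A, T}) Eᶜ n n' := by
    intro m' n n' a0 a1 a2 a3 a4
    haveI : Finite (KK A T m') := hfin m'
    have hsub : ∀ x : KK A T m', 
        x ∈ Subgroup.closure (Subtype.val ⁻¹' (bb A T '' Set.Icc (-(m : ℤ)) m)) ↔
        x.1 ∈ KK A T m := by
      intro x
      rw [← mem_map_iff_mem (f := (KK A T m').subtype) Subtype.val_injective,
        MonoidHom.map_closure, coe_subtype, Set.image_preimage_eq_of_subset]
      · rfl
      · rw [Subtype.range_coe]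
        exact subset_closure.trans (KK_mono A T a0)
    have := nocut (Q := KK A T m') (Subtype.val ⁻¹' (bb A T '' Set.Icc (-(m : ℤ)) m))
      (Subtype.val ⁻¹' (bb A T '' Set.Icc (-(m' : ℤ)) m'))
      (Set.preimage_mono (Set.image_mono (Set.Icc_subset_Icc (by omega) (by omega))))
      closure_closure_coe_preimage ⟨n, a1⟩ ⟨n', a3⟩ (fun h => a2 ((hsub _).1 h))
      (fun h => a4 ((hsub _).1 h))
    refine R_map (Γ' := mulCayley {A, T}) (S' := Eᶜ) Subtype.val (fun x y hxy hx hy => ?_) this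
    have hx' : x.1 ∉ KK A T m := fun h => hx ((hsub x).2 h)
    have hy' : y.1 ∉ KK A T m := fun h => hy ((hsub y).2 h)
    obtain ⟨-, s, ⟨i, -, hi⟩, hs | hs⟩ := (mulCayley_adj' _ _ _).1 hxy
    · have e : y.1 = x.1 * bb A T i := by rw [← hs, hi]; rfl
      refine (line _ _ i x.2 hx').trans (R.trans ?_ (line _ _ i y.2 hy').symm)
      rw [e]
      exact edge _ _ (good _ _ _ x.2 hx') (by rw [← e]; exact good _ _ _ y.2 hy')
    · have e : x.1 = y.1 * bb A T i := by rw [hs, hi]; rfl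
      refine R.symm ((line _ _ i y.2 hy').trans (R.trans ?_ (line _ _ i x.2 hx').symm))
      rw [e]
      exact edge _ _ (good _ _ _ y.2 hy') (by rw [← e]; exact good _ _ _ x.2 hx')
  have hI : {i | bb A T i ∈ KK A T m}.Finite := (hfin m).preimage hinj.injOn
  obtain ⟨i0, hi0⟩ := hI.infinite_compl.nonempty
  have bmem : ∀ i : ℤ, bb A T i ∈ KK A T i.natAbs := fun i =>
    subset_closure ⟨i, ⟨by omega, by omega⟩, rfl⟩
  have all : ∀ m' n (j : ℤ), n ∈ KK A T m' → n ∉ KK A T m →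
      R (mulCayley {A, T}) Eᶜ (bb A T i0) (n * T ^ j) := fun m' n j a1 a2 =>
    (conn (m + m' + i0.natAbs) _ _ (by omega) (KK_mono A T (by omega) (bmem i0)) hi0
      (KK_mono A T (by omega) a1) a2).trans (line _ _ _ a1 a2)
  refine ⟨bb A T i0, by simpa using good _ _ 0 (bmem i0) hi0, ?_⟩
  refine (hE.union (((hfin m).prod hI).image (fun p => p.1 * T ^ p.2))).subset (fun x hx => ?_)
  by_contra hc
  simp only [Set.mem_union, not_or] at hc
  apply hx
  by_cases a1 : nn x ∈ KK A T m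
  · have a2 : bb A T (jj x) ∉ KK A T m := fun a2 => hc.2 ⟨(nn x, jj x), ⟨a1, a2⟩, (h2 x).symm⟩
    have a3 : nn x * bb A T (jj x) ∉ KK A T m := fun a3 =>
      a2 (((KK A T m).mul_mem_cancel_left a1).1 a3)
    have a4 : nn x * bb A T (jj x) ∈ KK A T (m + (jj x).natAbs) :=
      mul_mem (KK_mono A T (by omega) a1) (KK_mono A T (by omega) (bmem _))
    refine (all _ _ (jj x) a4 a3).trans (R.symm ?_)
    have := edge (nn x) (jj x) (by rw [← h2 x]; exact hc.1) (good _ _ _ a4 a3)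
    rwa [← h2 x] at this
  · have := all _ _ (jj x) (h1 x) a1
    rwa [← h2 x] at this

end main

end Pool.Agent.H69.Lac
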