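import Pool.Agent.H69.Lac3
import Pool.Agent.H69.Lac2

set_option autoImplicit false

namespace Pool.Agent.H69.Lac

open Subgroup CB SimpleGraph

theorem nb_fin {V : Type} {Γ : SimpleGraph V} (hc : Γ.Connected)
    (hl : ∀ v, (Γ.neighborSet v).Finite) (E : Set V) (hE : E.Finite) (n : ℕ) :
    {x | ∃ e ∈ E, Γ.dist e x ≤ n}.Finite := by
  refine (hE.biUnion (fun e _ => ball_fin hc hl e n)).subset ?_
  rintro x ⟨e, h1, h2⟩
  simp only [Set.mem_iUnion]
  exact ⟨e, h1, by rwa [Set.mem_ofPred_eq, dist_comm]⟩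

theorem oneEnded_of {V : Type} [Infinite V] {Γ : SimpleGraph V}
    (h : ∀ E : Set V, E.Finite → ∃ w0, w0 ∉ E ∧ {x | ¬ R Γ Eᶜ w0 x}.Finite) : OneEnded Γ := by
  refine ⟨inferInstance, fun E hE => ?_⟩
  obtain ⟨w0, h1, h2⟩ := h E hE
  have key : ∀ x : (Eᶜ : Set V), R Γ Eᶜ w0 x.1 →
      (Γ.induce Eᶜ).connectedComponentMk x = (Γ.induce Eᶜ).connectedComponentMk ⟨w0, h1⟩ :=
    fun x hx => (ConnectedComponent.sound (R_reach hx h1)).symm
  refine ⟨(Γ.induce Eᶜ).connectedComponentMk ⟨w0, h1⟩, fun hf => ?_, fun c hc => ?_⟩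
  · refine h2.infinite_compl ((hf.image Subtype.val).subset (fun x hx => ?_))
    have hx' : R Γ Eᶜ w0 x := by simpa using hx
    exact ⟨⟨x, hx'.mem h1⟩, key ⟨x, hx'.mem h1⟩ hx', rfl⟩
  · obtain ⟨x, hx1, hx2⟩ := hc.exists_notMem_finite (h2.preimage Subtype.val_injective.injOn)
    have hx' : R Γ Eᶜ w0 x := by simpa using hx2
    rw [← key x hx']
    exact hx1.symm

section main
variable {G : Type} [Group G] (A T : G) (h : G →* Multiplicative ℤ)

theorem oneEnded (hgen : closure {A, T} = ⊤) (hA : h A = 1) (hT : h T = Multiplicative.ofAdd 1)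
    (hinj : Function.Injective (bb A T)) (hfin : ∀ m, (KK A T m : Set G).Finite)
    (S : Set G) (hS : S.Finite) (hSg : closure S = ⊤) : OneEnded (mulCayley S) := by
  haveI : Infinite G := Infinite.of_injective _ hinj
  refine oneEnded_of (fun E hE => ?_)
  obtain ⟨Lp, hL⟩ := cay_lip hgen hSg (Set.toFinite _)
  have hc := cay_conn hSg
  obtain ⟨w0, h1, h2⟩ := cof0 A T h hgen hA hT hinj hfin _ (nb_fin hc (cay_fin hS) E hE Lp)
  refine ⟨w0, fun h3 => h1 ⟨w0, h3, by simp⟩, h2.subset (fun x hx h3 => hx ?_)⟩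
  refine R_map id (fun x y hxy _ hy => ?_) h3
  have := hL x y
  rw [d1 hxy, mul_one] at this
  exact (geo hc y Lp x this).mono (fun z hz hz' => hy ⟨z, hz', hz⟩)

theorem ht_le (hgen : closure {A, T} = ⊤) (hA : h A = 1) (hT : h T = Multiplicative.ofAdd 1)
    (n : ℕ) : ∀ g, (mulCayley {A, T}).dist g 1 = n → (h g).toAdd.natAbs ≤ n := by
  have hc := cay_conn hgen
  induction n with
  | zero => intro g hg; rw [d0 hc hg]; simp
  | succ n ih =>
    intro g hg
    obtain ⟨z, h1, h2⟩ := step hc hg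
    have := ih z h2
    obtain ⟨-, s, hs, h3 | h3⟩ := (mulCayley_adj' _ _ _).1 h1
    · subst h3
      rcases hs with rfl | rfl
      · simp [hA] at this; omega
      · simp [hT] at this; omega
    · subst h3
      rcases hs with rfl | rfl
      · simp [hA]; omega
      · simp [hT]; omega

theorem adj_le {V : Type} {Γ : SimpleGraph V} (x y : V) (h : x = y ∨ Γ.Adj x y) :
    Γ.dist x y ≤ 1 := by
  rcases h with rfl | h
  · simp
  · exact (d1 h).le

theorem dT (g : G) : (mulCayley {A, T}).dist g (g * T) ≤ 1 := by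
  apply adj_le
  by_cases h : g = g * T
  · exact Or.inl h
  · exact Or.inr ((mulCayley_adj' _ _ _).2 ⟨h, T, by simp, Or.inl rfl⟩)

theorem down {V : Type} {Γ : SimpleGraph V} (hc : Γ.Connected) (o : V) (n m : ℕ) :
    ∀ g, Γ.dist o g = n + m → ∃ x, Γ.dist o x = n ∧
      R Γ {z | n ≤ Γ.dist o z ∧ Γ.dist o z ≤ n + m} g x := by
  induction m with
  | zero => intro g hg; exact ⟨g, hg, R.rfl⟩
  | succ m ih =>
    intro g hg
    obtain ⟨z, h1, h2⟩ := step hc (x := g) (y := o) (n := n + m) (by rw [dist_comm]; exact hg)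
    rw [dist_comm] at h2
    obtain ⟨x, h3, h4⟩ := ih z h2
    refine ⟨x, h3, R.trans (R.single h1 ?_ ?_)
      (h4.mono (fun w hw => ⟨hw.1, hw.2.trans (by omega)⟩))⟩
    · exact ⟨by omega, by omega⟩
    · exact ⟨by omega, by omega⟩

theorem thick (hgen : closure {A, T} = ⊤) (hA : h A = 1) (hT : h T = Multiplicative.ofAdd 1)
    (S : Set G) (hSg : closure S = ⊤) (Lp : ℕ) (hLp : 1 ≤ Lp)
    (hL1 : ∀ x y, (mulCayley S).dist x y ≤ Lp * (mulCayley {A, T}).dist x y)
    (hL2 : ∀ x y, (mulCayley {A, T}).dist x y ≤ Lp * (mulCayley S).dist x y)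
    (n Rr : ℕ) (σ : G → Bool)
    (hσ : ∀ x y, (mulCayley {A, T}).Adj x y → n < (mulCayley {A, T}).dist 1 x →
      n < (mulCayley {A, T}).dist 1 y → (mulCayley {A, T}).dist 1 x ≤ Rr →
      (mulCayley {A, T}).dist 1 y ≤ Rr → σ x = σ y)
    (hpm : ∀ j : ℕ, 1 ≤ j → j ≤ Rr → σ (T ^ (j : ℤ)) ≠ σ (T ^ (-(j : ℤ))))
    (n' J : ℕ) (hn' : n' = Lp * (n + Lp) + 1) (hJ : J = Lp * (n' + Lp))
    (r : ℕ) (hr : Lp * (n' + r) + Lp ≤ Rr) (hR : Lp * (Lp * J) + Lp ≤ Rr) :
    ¬ ((mulCayley S).induce (annInf (mulCayley S) 1 n' r)).Connected := by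
  have hc0 := cay_conn hgen
  have hc := cay_conn hSg
  have const : ∀ (U : Set G), (∀ z ∈ U, n' ≤ (mulCayley S).dist 1 z ∧
      Lp * (mulCayley S).dist 1 z + Lp ≤ Rr) → ∀ x y, R (mulCayley S) U x y → σ x = σ y := by
    intro U hU x y hxy
    refine hxy.ind (fun y => σ x = σ y) rfl (fun u v huv _ hv ih => ih.trans ?_)
    have a1 := hL2 u v
    rw [d1 huv, mul_one] at a1
    obtain ⟨a2, a3⟩ := hU v hv
    have a4 := hL1 1 v
    have a5 := hL2 1 v
    have a6 : n + Lp < (mulCayley {A, T}).dist 1 v := by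
      by_contra a6
      have := Nat.mul_le_mul_left Lp (not_lt.1 a6)
      omega
    have a7 : ∀ z, (mulCayley {A, T}).dist z v ≤ Lp →
        n < (mulCayley {A, T}).dist 1 z ∧ (mulCayley {A, T}).dist 1 z ≤ Rr := by
      intro z hz
      have b1 := tri hc0 1 z v
      have b2 := tri hc0 1 v z
      rw [dist_comm (u := v)] at b2
      omega
    exact (geo hc0 v Lp u a1).ind (fun y => σ u = σ y) rfl (fun p q hpq hp hq ih =>
      ih.trans (hσ p q hpq (a7 p hp).1 (a7 q hq).1 (a7 p hp).2 (a7 q hq).2))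
  have lowT : ∀ j : ℤ, j.natAbs ≤ Lp * (mulCayley S).dist 1 (T ^ j) := by
    intro j
    have := ht_le A T h hgen hA hT _ (T ^ j) rfl
    rw [ht_pow T h hT, dist_comm] at this
    exact this.trans (hL2 _ _)
  have upT : ∀ e : ℤ, (e = 1 ∨ e = -1) → ∀ j : ℕ,
      (mulCayley {A, T}).dist (T ^ (e * j)) (T ^ (e * (j + 1 : ℕ))) ≤ 1 := by
    rintro e (rfl | rfl) j
    · have := dT A T (T ^ (j : ℤ))
      rw [← zpow_add_one] at this
      simpa using this
    · have := dT A T (T ^ (-(j : ℤ) - 1))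
      rw [← zpow_add_one, dist_comm, sub_add_cancel] at this
      convert this using 3 <;> push_cast <;> ring
  have ex : ∀ e : ℤ, (e = 1 ∨ e = -1) → ∃ x ∈ annInf (mulCayley S) 1 n' r,
      σ x = σ (T ^ (e * J)) := by
    intro e he
    have he' : ∀ j : ℕ, (e * j).natAbs = j := by rcases he with rfl | rfl <;> simp
    have far : ∀ j : ℕ, J ≤ j → n' + Lp ≤ (mulCayley S).dist 1 (T ^ (e * j)) := by
      intro j hj
      have := lowT (e * j)
      rw [he'] at this
      exact Nat.le_of_mul_le_mul_left (by omega) hLp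
    have ray : ∀ j : ℕ, R (mulCayley S) {z | n' ≤ (mulCayley S).dist 1 z} (T ^ (e * J))
        (T ^ (e * (J + j : ℕ))) := by
      intro j
      induction j with
      | zero => exact R.rfl
      | succ j ih =>
        refine ih.trans ?_
        have a1 := (hL1 _ _).trans (Nat.mul_le_mul_left Lp (upT e he (J + j)))
        rw [mul_one] at a1
        refine (geo hc _ Lp _ a1).mono (fun z hz => ?_)
        have a2 := far (J + j + 1) (by omega)
        have a3 := tri hc 1 z (T ^ (e * (J + j + 1 : ℕ)))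
        simp only [Set.mem_ofPred_eq] at hz ⊢
        omega
    have upJ : ∀ j : ℕ, (mulCayley {A, T}).dist 1 (T ^ (e * j)) ≤ j := by
      intro j
      induction j with
      | zero => simp
      | succ j ih => exact (tri hc0 _ _ _).trans (Nat.add_le_add ih (upT e he j))
    have a0 := far J le_rfl
    obtain ⟨x, x1, x2⟩ := down hc 1 n' ((mulCayley S).dist 1 (T ^ (e * J)) - n') (T ^ (e * J))
      (by omega)
    refine ⟨x, ⟨by omega, x1.ge, ?_⟩, (const _ (fun z hz => ⟨hz.1, ?_⟩) _ _ x2).symm⟩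
    · have x3 := (x2.mono (T := {z | n' ≤ (mulCayley S).dist 1 z}) (fun z hz => hz.1)).symm
      refine Set.infinite_of_injective_forall_mem
        (f := fun j : ℕ => (⟨T ^ (e * (J + j : ℕ)), (x3.trans (ray j)).mem x1.ge⟩ :
          {z | n' ≤ (mulCayley S).dist 1 z})) (fun i j hij => ?_)
        (fun j => (ConnectedComponent.sound (R_reach (x3.trans (ray j)) x1.ge)).symm)
      have := congrArg (fun z : {z | n' ≤ (mulCayley S).dist 1 z} => (h z.1).toAdd.natAbs) hij
      simp only [ht_pow T h hT, toAdd_ofAdd, he'] at this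
      omega
    · have b1 := (hL1 _ _).trans (Nat.mul_le_mul_left Lp (upJ J))
      have b2 : (mulCayley S).dist 1 z ≤ Lp * J := by have := hz.2; omega
      have := Nat.mul_le_mul_left Lp b2
      omega
  intro hcon
  obtain ⟨x, x1, x2⟩ := ex 1 (Or.inl rfl)
  obtain ⟨y, y1, y2⟩ := ex (-1) (Or.inr rfl)
  have := const _ (fun z hz => ⟨hz.2.1, by
    have := Nat.mul_le_mul_left Lp hz.1
    omega⟩) _ _ ((con_iff.1 hcon).2 x x1 y y1)
  have hJ1 : 1 ≤ J := by rw [hJ]; exact Nat.mul_pos hLp (by omega)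
  have hJ2 : J ≤ Rr := by
    have h1 : J ≤ Lp * J := Nat.le_mul_of_pos_left _ hLp
    have h2 : Lp * J ≤ Lp * (Lp * J) := Nat.le_mul_of_pos_left _ hLp
    omega
  apply hpm J hJ1 hJ2
  rw [x2, y2] at this
  simpa using this

end main

theorem Sh_tpow (j : ℕ) : t ^ j ∈ Sh j := by
  induction j with
  | zero => exact Sh_one 0
  | succ j ih => rw [pow_succ]; exact Sh_mul ih (Sh_of true)

theorem final (f : ℕ → ℕ) : ∃ (G : Type) (_ : Group G) (A T : G), closure {A, T} = ⊤ ∧
    ∀ S : Set G, S.Finite → closure S = ⊤ → OneEnded (mulCayley S) ∧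
      ∃ᶠ n in Filter.atTop, ∀ r ≤ f n,
        ¬ ((mulCayley S).induce (annInf (mulCayley S) 1 n r)).Connected := by
  let Rf : ℕ → ℕ → ℕ := fun k n => k * (k * (n + k) + 1 +
    (Finset.range (k * (n + k) + 2)).sup f) + k * (k * (k * (k * (n + k) + 1 + k))) + k
  obtain ⟨N, hN, h1, h2, h3, h4⟩ := grp (fun k n => Rf k n + 1)
  let π := QuotientGroup.mk' N
  let h : F ⧸ N →* Multiplicative ℤ := QuotientGroup.lift N ht h1
  have hA : h (π a) = 1 := ht_a
  have hT : h (π t) = Multiplicative.ofAdd 1 := ht_t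
  have hgen : closure {π a, π t} = ⊤ := by
    have : ({π a, π t} : Set (F ⧸ N)) = π '' Set.range FreeGroup.of := by
      ext x
      simp [a, t, eq_comm]
    rw [this, ← MonoidHom.map_closure, FreeGroup.closure_range_of, map_top_of_surjective _
      (QuotientGroup.mk'_surjective N)]
  have hb : ∀ i : ℤ, bb (π a) (π t) i = π (t ^ i * a * (t ^ i)⁻¹) := by
    intro i; simp [bb]
  have hinj : Function.Injective (bb (π a) (π t)) := by
    intro i j hij
    rw [hb, hb] at hij
    have := h2 (QuotientGroup.eq.1 hij)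
    rw [MonoidHom.mem_ker, map_mul, map_inv, lam_conj, lam_conj, inv_mul_eq_one] at this
    exact la_inj this
  have hfin : ∀ m, (KK (π a) (π t) m : Set (F ⧸ N)).Finite := by
    intro m
    have hK : ((L (2 * m + 1)).map π : Set (F ⧸ N)).Finite := by
      have := relIndex_ker (K := L (2 * m + 1)) π
      rw [QuotientGroup.ker_mk'] at this
      exact Nat.finite_of_card_ne_zero (this ▸ h3 _)
    refine (hK.preimage (f := MulAut.conj (π t ^ m)) (MulAut.conj (π t ^ m)).injective.injOn).subset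
      ?_
    refine (closure_le (K := ((L (2 * m + 1)).map π).comap
      (MulAut.conj (π t ^ m)).toMonoidHom)).2 ?_
    rintro _ ⟨i, hi, rfl⟩
    obtain ⟨j, hj⟩ := Int.eq_ofNat_of_zero_le (a := i + m) (by have := hi.1; omega)
    refine ⟨aa j, aa_mem (by have := hi.2; omega), ?_⟩
    have : i = j - m := by omega
    subst this
    simp only [aa, bb, map_mul, map_inv, map_pow, MulEquiv.coe_toMonoidHom, MulAut.conj_apply,
      ← zpow_natCast]
    simp only [map_zpow]
    group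
  have hc0 := cay_conn hgen
  have lift : ∀ n g, (mulCayley {π a, π t}).dist g 1 = n → ∃ w ∈ Sh n, π w = g⁻¹ := by
    intro n
    induction n with
    | zero => intro g hg; exact ⟨1, Sh_one 0, by rw [d0 hc0 hg]; simp⟩
    | succ n ih =>
      intro g hg
      obtain ⟨z, a1, a2⟩ := step hc0 hg
      obtain ⟨w, a3, a4⟩ := ih z a2
      have : ∀ s ∈ ({π a, π t} : Set (F ⧸ N)), ∃ b, π (FreeGroup.of b) = s := by
        rintro s (rfl | rfl)
        · exact ⟨false, rfl⟩
        · exact ⟨true, rfl⟩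
      obtain ⟨-, s, hs, a5 | a5⟩ := (mulCayley_adj' _ _ _).1 a1
      · obtain ⟨b, rfl⟩ := this s hs
        refine ⟨FreeGroup.of b * w, by rw [add_comm]; exact Sh_mul (Sh_of b) a3, ?_⟩
        rw [map_mul, a4, ← a5]; group
      · obtain ⟨b, rfl⟩ := this s hs
        refine ⟨(FreeGroup.of b)⁻¹ * w, by rw [add_comm]; exact Sh_mul (Sh_inv (Sh_of b)) a3, ?_⟩
        rw [map_mul, map_inv, a4, a5]; group
  have drop : ∀ n, ∀ w ∈ Sh n, (mulCayley {π a, π t}).dist 1 (π w)⁻¹ ≤ n := by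
    rintro n _ ⟨l, hl, rfl⟩
    refine le_trans ?_ hl
    clear hl
    induction l with
    | nil => exact (by simp : (mulCayley {π a, π t}).dist 1 (π 1)⁻¹ ≤ 0)
    | cons x l ih =>
      obtain ⟨b, e⟩ := x
      refine (tri hc0 _ _ _).trans (Nat.add_le_add ih (adj_le _ _ ?_))
      rw [or_iff_not_imp_left]
      intro hne
      refine (mulCayley_adj' _ _ _).2 ⟨hne, π (FreeGroup.of b), by cases b <;> simp [a, t], ?_⟩
      rw [mk_cons]
      cases e
      · left; simp
      · right; simp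
  refine ⟨F ⧸ N, inferInstance, π a, π t, hgen, fun S hS hSg =>
    ⟨oneEnded _ _ h hgen hA hT hinj hfin S hS hSg, ?_⟩⟩
  obtain ⟨L1, hL1⟩ := cay_lip hgen hSg (Set.toFinite _)
  obtain ⟨L2, hL2⟩ := cay_lip hSg hgen hS
  rw [Filter.frequently_atTop]
  intro N0
  obtain ⟨n, n1, sd, s1, s2, s3, s4, s5⟩ := h4 (L1 + L2 + 1 + N0)
  set k := L1 + L2 + 1 + N0 with hk
  have hk1 : 1 ≤ k := by omega
  choose lf l1 l2 using fun g => lift _ g rfl
  refine ⟨k * (n + k) + 1, ?_, fun r hr => ?_⟩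
  · have : n + k ≤ k * (n + k) := Nat.le_mul_of_pos_left _ hk1
    omega
  have e1 : ∀ g w, (mulCayley {π a, π t}).dist 1 g ≤ Rf k n + 1 → w ∈ Sh (Rf k n + 1) →
      π w = g⁻¹ → sd (lf g) = sd w := fun g w a1 a2 a3 =>
    s1 _ (Sh_mono (by rwa [dist_comm]) (l1 g)) _ a2 (QuotientGroup.eq.1 ((l2 g).trans a3.symm))
  have e2 : ∀ x s, s ∈ ({π a, π t} : Set (F ⧸ N)) →
      n < (mulCayley {π a, π t}).dist 1 (x * s) → (mulCayley {π a, π t}).dist 1 x ≤ Rf k n →
      (mulCayley {π a, π t}).dist 1 (x * s) ≤ Rf k n → sd (lf x) = sd (lf (x * s)) := by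
    intro x s hs a1 a2 a3
    have a4 : lf (x * s) ∈ Sh (Rf k n) := Sh_mono (by rwa [dist_comm]) (l1 _)
    rcases hs with rfl | rfl
    · rw [← s2 (lf (x * π a))]
      refine e1 _ _ (by omega) (by rw [add_comm]; exact Sh_mul (Sh_of false) a4) ?_
      rw [map_mul, l2]; group
    · have : sd (t * lf (x * π t)) = sd (lf (x * π t)) := by
        by_contra hne
        obtain ⟨w', b1, b2⟩ := s3 _ hne
        have b3 := drop _ _ b1
        have b4 : π w' = π (lf (x * π t)) := QuotientGroup.eq.2 b2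
        rw [b4, l2, inv_inv] at b3
        omega
      rw [← this]
      refine e1 _ _ (by omega) (by rw [add_comm]; exact Sh_mul (Sh_of true) a4) ?_
      rw [map_mul, l2]; group
  refine thick _ _ h hgen hA hT S hSg k hk1
    (fun x y => (hL1 x y).trans (Nat.mul_le_mul_right _ (by omega)))
    (fun x y => (hL2 x y).trans (Nat.mul_le_mul_right _ (by omega))) n (Rf k n)
    (fun g => sd (lf g)) ?_ ?_ _ _ rfl rfl r ?_ ?_
  · intro x y hxy a1 a2 a3 a4
    obtain ⟨-, s, hs, rfl | rfl⟩ := (mulCayley_adj' _ _ _).1 hxy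
    · exact e2 _ _ hs a2 a3 a4
    · exact (e2 _ _ hs a1 a4 a3).symm
  · intro j j1 j2
    have a1 := drop _ _ (Sh_tpow j)
    have a2 := drop _ _ (Sh_inv (Sh_tpow j))
    obtain ⟨j, rfl⟩ := Nat.exists_eq_add_of_le' j1
    rw [e1 _ (t ^ (j + 1))⁻¹ (by
        rw [map_inv, inv_inv, map_pow] at a2; rw [zpow_natCast]; omega)
        (Sh_mono (by omega) (Sh_inv (Sh_tpow _))) (by rw [zpow_natCast]; simp),
      e1 _ (t ^ (j + 1)) (by rw [map_pow] at a1; rw [zpow_neg, zpow_natCast]; omega)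
        (Sh_mono (by omega) (Sh_tpow _)) (by rw [zpow_neg, zpow_natCast]; simp), s4, s5]
    simp
  · have : r ≤ (Finset.range (k * (n + k) + 2)).sup f :=
      hr.trans (Finset.le_sup (f := f) (Finset.mem_range.2 (by omega)))
    have := Nat.mul_le_mul_left k (Nat.add_le_add_left this (k * (n + k) + 1))
    simp only [Rf]
    omega
  · simp only [Rf]
    omega

end Pool.Agent.H69.Lac
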