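import Mathlib

set_option autoImplicit false

namespace Pool.Agent.H69.Lac

/-- An infinite graph in which the complement of every finite vertex set has exactly one infinite
connected component. -/
def OneEnded {V : Type} (Γ : SimpleGraph V) : Prop :=
  Infinite V ∧ ∀ E : Set V, E.Finite →
    ∃! c : (Γ.induce Eᶜ).ConnectedComponent, c.supp.Infinite

/-- The vertex set of `S(n,r)^∞`: vertices `g` with `n ≤ |g| ≤ n + r` whose component in the
subgraph spanned by all vertices at distance at least `n` from `o` is infinite. -/
def annInf {V : Type} (Γ : SimpleGraph V) (o : V) (n r : ℕ) : Set V :=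
  {g | Γ.dist o g ≤ n + r ∧ ∃ hg : n ≤ Γ.dist o g,
    ((Γ.induce {x | n ≤ Γ.dist o x}).connectedComponentMk ⟨g, hg⟩).supp.Infinite}

end Pool.Agent.H69.Lac
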