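import Pool.Agent.H69.NipDefs
import Pool.Agent.H86.Kronecker

set_option autoImplicit false

namespace Pool.Agent.H69.Nip

open Finset

variable {ι : Type} [Fintype ι]

def Ind (γ : ι → ℝ) : Prop := ∀ (k : ι → ℤ) (n : ℤ), ∑ i, k i * γ i = n → k = 0

lemma Ind.irr {γ : ι → ℝ} (h : Ind γ) (i : ι) {k n : ℤ} (e : k * γ i = n) : k = 0 := by
  classical
  have := h (Pi.single i k) n (by
    rw [Finset.sum_eq_single i (fun j _ hj => by simp [Pi.single_apply, hj]) (by simp)]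
    simpa using e)
  simpa using congrFun this i

lemma kron0 {γ : ι → ℝ} (h : Ind γ) (t : ι → ℝ) {ε : ℝ} (hε : 0 < ε) :
    ∃ (c : ℤ) (m : ι → ℤ), ∀ i, |c * γ i - m i - t i| < ε := by
  let ψ : ι → (ℤ →+ UnitAddCircle) := fun i =>
    (zmultiplesHom UnitAddCircle) ((γ i : ℝ) : UnitAddCircle)
  have := Pool.Agent.H86.Kronecker.mem_closure_torus ψ ⊤ (fun i => ((t i : ℝ) : UnitAddCircle))
    (by
      intro c hc
      have h1 := hc 1 (AddSubgroup.mem_top _)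
      rw [Finsupp.sum_fintype _ _ (by simp)] at h1
      have h2 : ((∑ i, c i * γ i : ℝ) : UnitAddCircle) = 0 := by
        rw [← h1, QuotientAddGroup.mk_sum]
        refine Finset.sum_congr rfl fun i _ => ?_
        simp only [ψ, zmultiplesHom_apply, one_smul]
        rw [← zsmul_eq_mul, AddCircle.coe_zsmul]
      obtain ⟨n, hn⟩ := (AddCircle.coe_eq_zero_iff _).1 h2
      have h3 := h c n (by rw [← hn]; simp)
      have : c = 0 := Finsupp.ext fun i => congrFun h3 i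
      simp [this])
  obtain ⟨_, ⟨d, -, rfl⟩, hd⟩ := Metric.mem_closure_iff.1 this ε hε
  refine ⟨d, fun i => round (d * γ i - t i), fun i => ?_⟩
  have h1 := (dist_pi_lt_iff hε).1 hd i
  rw [dist_comm, dist_eq_norm] at h1
  have h2 : Pool.Agent.H86.Kronecker.ev ψ d i - ((t i : ℝ) : UnitAddCircle)
      = ((d * γ i - t i : ℝ) : UnitAddCircle) := by
    rw [AddCircle.coe_sub, ← zsmul_eq_mul, AddCircle.coe_zsmul]
    rfl
  rw [h2, UnitAddCircle.norm_eq] at h1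
  convert h1 using 2
  ring

lemma kron {γ : ι → ℝ} (h : Ind γ) (lo hi : ι → ℝ) (hlt : ∀ i, lo i < hi i) (c0 : ℤ)
    (m0 : ι → ℤ) {M : ℕ} (hM : 0 < M) :
    ∃ (c : ℤ) (m : ι → ℤ), (M : ℤ) ∣ c0 - c ∧ ∀ i, (M : ℤ) ∣ m0 i - m i ∧
      lo i < c * γ i - m i ∧ c * γ i - m i < hi i := by
  have hM' : (0 : ℝ) < M := by exact_mod_cast hM
  obtain ⟨ε, hε, he⟩ : ∃ ε : ℝ, 0 < ε ∧ ∀ i, ε ≤ (hi i - lo i) / 2 := by
    rcases isEmpty_or_nonempty ι with hι | hι
    · exact ⟨1, one_pos, fun i => hι.elim i⟩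
    · obtain ⟨i, -, hi'⟩ := Finset.exists_min_image univ (fun i => (hi i - lo i) / 2)
        univ_nonempty
      exact ⟨_, by linarith [hlt i], fun j => hi' j (mem_univ _)⟩
  obtain ⟨c, m, H⟩ := kron0 h (fun i => ((lo i + hi i) / 2 - c0 * γ i + m0 i) / M)
    (div_pos hε hM')
  refine ⟨c0 + M * c, fun i => m0 i + M * m i, ⟨-c, by ring⟩, fun i => ⟨⟨-m i, by ring⟩, ?_⟩⟩
  have h1 := H i
  rw [abs_lt] at h1
  have e : ((c0 + M * c : ℤ) : ℝ) * γ i - ((m0 i + M * m i : ℤ) : ℝ) - (lo i + hi i) / 2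
      = M * (c * γ i - m i - ((lo i + hi i) / 2 - c0 * γ i + m0 i) / M) := by
    push_cast; field_simp; ring
  have a1 := mul_lt_mul_of_pos_left h1.1 hM'
  have a2 := mul_lt_mul_of_pos_left h1.2 hM'
  rw [mul_div_cancel₀ _ hM'.ne'] at a2
  rw [mul_neg, mul_div_cancel₀ _ hM'.ne'] at a1
  constructor <;> linarith [he i]

variable (γ : ι → ℝ)

noncomputable def fr (i : ι) (c : ℤ) : ℝ := Int.fract (c * γ i)
noncomputable def fl (i : ι) (c : ℤ) : ℤ := ⌊c * γ i⌋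

omit [Fintype ι] in
lemma fr_add (i : ι) (c : ℤ) : fr γ i c = c * γ i - fl γ i c := rfl

variable {κ : Type} [Fintype κ]

omit [Fintype ι] in
lemma sum_fr (i : ι) (l a : κ → ℤ) : ∑ j, l j * fr γ i (a j)
    = (∑ j, l j * a j : ℤ) * γ i - (∑ j, l j * fl γ i (a j) : ℤ) := by
  simp only [fr_add]
  push_cast
  rw [Finset.sum_mul, ← Finset.sum_sub_distrib]
  exact Finset.sum_congr rfl fun j _ => by ring

def E (K M : ℕ) (a b : κ → ℤ) : Prop :=
  (∀ (i : ι) (l : κ → ℤ), (∀ j, |l j| ≤ K) →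
    ⌊∑ j, l j * fr γ i (a j)⌋ = ⌊∑ j, l j * fr γ i (b j)⌋) ∧
    ∀ j, (M : ℤ) ∣ a j - b j ∧ ∀ i, (M : ℤ) ∣ fl γ i (a j) - fl γ i (b j)

variable {γ}

omit [Fintype ι] in
lemma E.mono {K M K' M' : ℕ} {a b : κ → ℤ} (h : E γ K M a b) (hK : K' ≤ K) (hM : M' ∣ M) :
    E γ K' M' a b :=
  ⟨fun i l hl => h.1 i l fun j => (hl j).trans (by exact_mod_cast hK),
    fun j => ⟨(Int.natCast_dvd_natCast.2 hM).trans (h.2 j).1,
      fun i => (Int.natCast_dvd_natCast.2 hM).trans ((h.2 j).2 i)⟩⟩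

omit [Fintype ι] in
lemma E.symm {K M : ℕ} {a b : κ → ℤ} (h : E γ K M a b) : E γ K M b a :=
  ⟨fun i l hl => (h.1 i l hl).symm,
    fun j => ⟨dvd_sub_comm.1 (h.2 j).1, fun i => dvd_sub_comm.1 ((h.2 j).2 i)⟩⟩

lemma sum_dvd {M : ℤ} (l a b : κ → ℤ) (h : ∀ j, M ∣ a j - b j) :
    M ∣ ∑ j, l j * a j - ∑ j, l j * b j := by
  rw [← Finset.sum_sub_distrib]
  exact Finset.dvd_sum fun i _ => by rw [← mul_sub]; exact Dvd.dvd.mul_left (h i) _

lemma floor_scale {x : ℝ} {l : ℤ} (hl : 0 < l) : ⌊x⌋ = ⌊l * x⌋ / l := by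
  obtain ⟨n, rfl⟩ := Int.eq_ofNat_of_zero_le hl.le
  have hn : (n : ℝ) ≠ 0 := by
    have : n ≠ 0 := by omega
    exact_mod_cast this
  rw [← Int.floor_div_natCast]
  congr 1
  push_cast
  field_simp

lemma ext_lemma (hγ : Ind γ) {K M : ℕ} (hK : 1 ≤ K) (hM : 0 < M) {a b : κ → ℤ}
    (h : E γ (2 * K ^ 2) (M * K.factorial) a b) (c : ℤ) :
    ∃ d : ℤ, (∀ (i : ι) (l0 : ℤ) (l : κ → ℤ), |l0| ≤ K → (∀ j, |l j| ≤ K) →
      ⌊l0 * fr γ i c + ∑ j, l j * fr γ i (a j)⌋ = ⌊l0 * fr γ i d + ∑ j, l j * fr γ i (b j)⌋) ∧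
      (M : ℤ) ∣ c - d ∧ ∀ i, (M : ℤ) ∣ fl γ i c - fl γ i d := by
  classical
  have hK' : (1 : ℤ) ≤ K := by exact_mod_cast hK
  have h1 : ∀ i, ∀ l : κ → ℤ, (∀ j, |l j| ≤ K) →
      ⌊∑ j, l j * fr γ i (a j)⌋ = ⌊∑ j, l j * fr γ i (b j)⌋ :=
    fun i l hl => h.1 i l fun j => (hl j).trans (by push_cast; nlinarith)
  have h2 : ∀ i, ∀ (l0 m0 : ℤ) (l m : κ → ℤ), |l0| ≤ K → |m0| ≤ K → (∀ j, |l j| ≤ K) →
      (∀ j, |m j| ≤ K) → ⌊l0 * ∑ j, m j * fr γ i (a j) - m0 * ∑ j, l j * fr γ i (a j)⌋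
        = ⌊l0 * ∑ j, m j * fr γ i (b j) - m0 * ∑ j, l j * fr γ i (b j)⌋ := by
    intro i l0 m0 l m hl0 hm0 hl hm
    have := h.1 i (fun j => l0 * m j - m0 * l j) (fun j => by
      refine (abs_sub _ _).trans ?_
      rw [abs_mul, abs_mul]
      have e1 := mul_le_mul hl0 (hm j) (abs_nonneg _) (by positivity)
      have e2 := mul_le_mul hm0 (hl j) (abs_nonneg _) (by positivity)
      push_cast; nlinarith)
    simpa only [Int.cast_sub, Int.cast_mul, sub_mul, Finset.sum_sub_distrib, mul_assoc,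
      ← Finset.mul_sum] using this
  by_cases hz : ∃ (l0 : ℤ) (l : κ → ℤ), 0 < l0 ∧ l0 ≤ K ∧ (∀ j, |l j| ≤ K) ∧
      l0 * c + ∑ j, l j * a j = 0
  · obtain ⟨l0, l, hl0, hl0K, hl, hz⟩ := hz
    have hl0K' : |l0| ≤ K := by rwa [abs_of_pos hl0]
    obtain ⟨W, hW⟩ : l0 ∣ (K.factorial : ℤ) := by
      obtain ⟨n, rfl⟩ := Int.eq_ofNat_of_zero_le hl0.le
      exact Int.natCast_dvd_natCast.2 (Nat.dvd_factorial (by omega) (by omega))
    have canc : ∀ x : ℤ, ((M * K.factorial : ℕ) : ℤ) ∣ l0 * x → (M : ℤ) ∣ x := by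
      intro x hx
      refine (mul_dvd_mul_iff_left hl0.ne').1 (Dvd.dvd.trans ?_ hx)
      push_cast; rw [hW]; exact ⟨W, by ring⟩
    have dl0 : l0 ∣ ((M * K.factorial : ℕ) : ℤ) := by
      push_cast; rw [hW]; exact ⟨M * W, by ring⟩
    have hd := sum_dvd l a b fun j => (h.2 j).1
    have ha : ∑ j, l j * a j = -(l0 * c) := by linarith
    obtain ⟨s, hs⟩ : l0 ∣ ∑ j, l j * b j := by
      have d3 : l0 ∣ ∑ j, l j * a j := by rw [ha]; exact ⟨-c, by ring⟩
      simpa using dvd_sub d3 (dl0.trans hd)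
    have hl0' : (0 : ℝ) < l0 := by exact_mod_cast hl0
    have key : ∀ i, l0 * fl γ i c + ∑ j, l j * fl γ i (a j)
        = l0 * fl γ i (-s) + ∑ j, l j * fl γ i (b j) ∧
        l0 * fr γ i c + ∑ j, l j * fr γ i (a j)
          = -(l0 * fl γ i c + ∑ j, l j * fl γ i (a j) : ℤ) ∧
        l0 * fr γ i (-s) + ∑ j, l j * fr γ i (b j)
          = -(l0 * fl γ i (-s) + ∑ j, l j * fl γ i (b j) : ℤ) := by
      intro i
      have e1 : l0 * fr γ i c + ∑ j, l j * fr γ i (a j)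
          = -(l0 * fl γ i c + ∑ j, l j * fl γ i (a j) : ℤ) := by
        rw [sum_fr, fr_add, ha]; push_cast; ring
      have e2 : l0 * fr γ i (-s) + ∑ j, l j * fr γ i (b j)
          = -(l0 * fl γ i (-s) + ∑ j, l j * fl γ i (b j) : ℤ) := by
        rw [sum_fr, fr_add, hs]; push_cast; ring
      refine ⟨?_, e1, e2⟩
      have f1 := h1 i (-l) (by simpa using hl)
      simp only [Pi.neg_apply, Int.cast_neg, neg_mul, Finset.sum_neg_distrib] at f1
      have dv : l0 ∣ (l0 * fl γ i c + ∑ j, l j * fl γ i (a j))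
          - (l0 * fl γ i (-s) + ∑ j, l j * fl γ i (b j)) := by
        have := dl0.trans (sum_dvd l (fun j => fl γ i (a j)) (fun j => fl γ i (b j))
          fun j => (h.2 j).2 i)
        have e : (l0 * fl γ i c + ∑ j, l j * fl γ i (a j))
          - (l0 * fl γ i (-s) + ∑ j, l j * fl γ i (b j)) = l0 * (fl γ i c - fl γ i (-s))
          + (∑ j, l j * fl γ i (a j) - ∑ j, l j * fl γ i (b j)) := by ring
        rw [e]
        exact dvd_add (Dvd.intro _ rfl) this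
      have b1 : ∀ (n : ℤ) (x S : ℝ), 0 ≤ x → x < 1 → l0 * x + S = -(n : ℝ) →
          n ≤ ⌊-S⌋ ∧ ⌊-S⌋ < n + l0 := by
        intro n x S x0 x1 e
        refine ⟨Int.le_floor.2 (by nlinarith), Int.floor_lt.2 (by push_cast; nlinarith)⟩
      have g1 := b1 _ _ _ (Int.fract_nonneg _) (Int.fract_lt_one _) e1
      have g2 := b1 _ _ _ (Int.fract_nonneg _) (Int.fract_lt_one _) e2
      rw [f1] at g1
      exact sub_eq_zero.1 (Int.eq_zero_of_abs_lt_dvd dv (by rw [abs_lt]; constructor <;> omega))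
    refine ⟨-s, ?_, canc _ ?_, fun i => canc _ ?_⟩
    · intro i m0 m hm0 hm
      obtain ⟨k1, k2, k3⟩ := key i
      rw [← k1] at k3
      have := h2 i l0 m0 l m hl0K' hm0 hl hm
      rw [floor_scale hl0, floor_scale (x := m0 * fr γ i (-s) + _) hl0]
      congr 1
      set n := l0 * fl γ i c + ∑ j, l j * fl γ i (a j)
      have e1 : l0 * (m0 * fr γ i c + ∑ j, m j * fr γ i (a j))
          = (l0 * ∑ j, m j * fr γ i (a j) - m0 * ∑ j, l j * fr γ i (a j)) + (-(m0 * n) : ℤ) := by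
        push_cast; linear_combination m0 * k2
      have e2 : l0 * (m0 * fr γ i (-s) + ∑ j, m j * fr γ i (b j))
          = (l0 * ∑ j, m j * fr γ i (b j) - m0 * ∑ j, l j * fr γ i (b j)) + (-(m0 * n) : ℤ) := by
        push_cast; linear_combination m0 * k3
      rw [e1, e2, Int.floor_add_intCast, Int.floor_add_intCast, this]
    · rw [ha, hs] at hd
      have e : l0 * (c - -s) = -(-(l0 * c) - l0 * s) := by ring
      rw [e, dvd_neg]; exact hd
    · have := sum_dvd l (fun j => fl γ i (a j)) (fun j => fl γ i (b j)) fun j => (h.2 j).2 i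
      have e : l0 * (fl γ i c - fl γ i (-s))
          = -(∑ j, l j * fl γ i (a j) - ∑ j, l j * fl γ i (b j)) := by
        linarith [(key i).1]
      rw [e, dvd_neg]; exact this
  · push Not at hz
    let S : Finset (ℤ × (κ → ℤ)) :=
      (Finset.Icc (1 : ℤ) K) ×ˢ Fintype.piFinset fun _ => Finset.Icc (-(K : ℤ)) K
    have memS : ∀ p, p ∈ S ↔ 0 < p.1 ∧ p.1 ≤ K ∧ ∀ j, |p.2 j| ≤ K := by
      intro p
      simp only [S, mem_product, Finset.mem_Icc, Fintype.mem_piFinset, abs_le, and_assoc]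
      rfl
    have h10 : ((1 : ℤ), (0 : κ → ℤ)) ∈ S := (memS _).2 ⟨one_pos, hK', by simp⟩
    let n : ι → ℤ × (κ → ℤ) → ℤ := fun i p => ⌊p.1 * fr γ i c + ∑ j, p.2 j * fr γ i (a j)⌋
    have hn : ∀ i, ∀ p ∈ S, (n i p : ℝ) < p.1 * fr γ i c + ∑ j, p.2 j * fr γ i (a j) := by
      intro i p hp
      obtain ⟨a1, a2, a3⟩ := (memS p).1 hp
      refine lt_of_le_of_ne (Int.floor_le _) fun e => hz _ _ a1 a2 a3 ?_
      refine hγ.irr i (n := n i p + p.1 * fl γ i c + ∑ j, p.2 j * fl γ i (a j)) ?_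
      rw [sum_fr, fr_add] at e
      push_cast at e ⊢
      linarith
    have hlt : ∀ i, S.sup' ⟨_, h10⟩ (fun p => (n i p - ∑ j, p.2 j * fr γ i (b j)) / p.1)
        < S.inf' ⟨_, h10⟩ (fun p => (n i p + 1 - ∑ j, p.2 j * fr γ i (b j)) / p.1) := by
      intro i
      rw [Finset.sup'_lt_iff]
      intro p hp
      rw [Finset.lt_inf'_iff]
      intro q hq
      obtain ⟨a1, a2, a3⟩ := (memS p).1 hp
      obtain ⟨b1, b2, b3⟩ := (memS q).1 hq
      have a1' : (0 : ℝ) < p.1 := by exact_mod_cast a1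
      have b1' : (0 : ℝ) < q.1 := by exact_mod_cast b1
      have t1 := h2 i p.1 q.1 p.2 q.2 (by rwa [abs_of_pos a1]) (by rwa [abs_of_pos b1]) a3 b3
      have t2 := hn i p hp
      have t3 : q.1 * fr γ i c + ∑ j, q.2 j * fr γ i (a j) < n i q + 1 := Int.lt_floor_add_one _
      have t4 : p.1 * ∑ j, q.2 j * fr γ i (a j) - q.1 * ∑ j, p.2 j * fr γ i (a j)
          < ((p.1 * (n i q + 1) - q.1 * n i p : ℤ) : ℝ) := by
        push_cast; nlinarith
      rw [← Int.floor_lt, t1, Int.floor_lt] at t4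
      rw [div_lt_div_iff₀ a1' b1']
      push_cast at t4
      nlinarith
    obtain ⟨d, m, hd, H⟩ := kron hγ _ _ hlt c (fun i => fl γ i c) hM
    have str : ∀ i, ∀ p ∈ S, (n i p : ℝ) < p.1 * (d * γ i - m i) + ∑ j, p.2 j * fr γ i (b j) ∧
        p.1 * (d * γ i - m i) + ∑ j, p.2 j * fr γ i (b j) < n i p + 1 := by
      intro i p hp
      have a1' : (0 : ℝ) < p.1 := by exact_mod_cast ((memS p).1 hp).1
      have u1 := (Finset.sup'_lt_iff _).1 (H i).2.1 p hp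
      have u2 := (Finset.lt_inf'_iff _).1 (H i).2.2 p hp
      rw [div_lt_iff₀ a1'] at u1
      rw [lt_div_iff₀ a1'] at u2
      constructor <;> linarith
    have hfl : ∀ i, fl γ i d = m i := by
      intro i
      have := str i _ h10
      have n0 : n i (1, 0) = 0 := by simp [n, fr]
      rw [n0] at this
      simp only [Int.cast_zero, Int.cast_one, one_mul, Pi.zero_apply, zero_mul,
        Finset.sum_const_zero, add_zero, zero_add] at this
      exact Int.floor_eq_iff.2 ⟨by linarith, by linarith⟩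
    refine ⟨d, ?_, hd, fun i => by rw [hfl]; exact (H i).1⟩
    intro i l0 l hl0 hl
    rw [fr_add γ i d, hfl]
    rcases lt_trichotomy l0 0 with h0 | h0 | h0
    · have hp : (-l0, -l) ∈ S := (memS _).2 ⟨by simpa using h0,
        by simpa using (neg_le_abs l0).trans hl0, by simpa using hl⟩
      have v1 := str i _ hp
      have v2 := hn i _ hp
      have v3 : ((-l0 : ℤ) : ℝ) * fr γ i c + ∑ j, ((-l) j : ℤ) * fr γ i (a j)
        < n i (-l0, -l) + 1 := Int.lt_floor_add_one _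
      simp only [Pi.neg_apply, Int.cast_neg, neg_mul, Finset.sum_neg_distrib] at v1 v2 v3
      rw [(Int.floor_eq_iff (z := -n i (-l0, -l) - 1)).2
        ⟨by push_cast; linarith, by push_cast; linarith⟩]
      exact ((Int.floor_eq_iff (z := -n i (-l0, -l) - 1)).2
        ⟨by push_cast; linarith [v1.2], by push_cast; linarith [v1.1]⟩).symm
    · simpa [h0] using h1 i l hl
    · have hp : (l0, l) ∈ S := (memS _).2 ⟨h0, (le_abs_self l0).trans hl0, hl⟩
      have v1 := str i _ hp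
      exact ((Int.floor_eq_iff (z := n i (l0, l))).2 ⟨v1.1.le, v1.2⟩).symm

end Pool.Agent.H69.Nip
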