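import Pool.Agent.H69.Nip1

set_option autoImplicit false

namespace Pool.Agent.H69.Nip

open Finset FirstOrder FirstOrder.Language

variable {ι : Type} [Fintype ι] {γ : ι → ℝ}

def Rep (γ : ι → ℝ) (θ : ℝ) : Prop := ∃ (i : ι) (p r : ℤ) (N : ℕ), 0 < N ∧ θ = p * γ i + r / N

lemma term_lin (α β : ℝ) {κ : Type} [Fintype κ] (t : L.Term κ) :
    ∃ l : κ → ℤ, ∀ a : κ → ℤ, @Term.realize L ℤ (S α β) κ a t = ∑ i, l i * a i := by
  classical
  letI := S α β
  induction t with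
  | var i => exact ⟨Pi.single i 1, fun a => by simp [Pi.single_apply]⟩
  | func f ts ih =>
    cases f with
    | add =>
      obtain ⟨l0, h0⟩ := ih 0
      obtain ⟨l1, h1⟩ := ih 1
      refine ⟨l0 + l1, fun a => ?_⟩
      simp only [Pi.add_apply, add_mul, Finset.sum_add_distrib, ← h0, ← h1]
      rfl

lemma bound {κ : Type} [Fintype κ] (l : κ → ℤ) : ∃ K : ℕ, ∀ i, |l i| ≤ K := by
  refine ⟨∑ i, (l i).natAbs, fun i => ?_⟩
  rw [← Int.natCast_natAbs]
  exact_mod_cast Finset.single_le_sum (f := fun i => (l i).natAbs) (fun _ _ => Nat.zero_le _)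
    (mem_univ i)

lemma eq_det (hγ : Ind γ) (i : ι) {κ : Type} [Fintype κ] {K M : ℕ} {a b l : κ → ℤ}
    (h : E γ K M a b) (hl : ∀ j, |l j| ≤ K) (h0 : ∑ j, l j * a j = 0) : ∑ j, l j * b j = 0 := by
  have f1 := h.1 i l hl
  have f2 := h.1 i (-l) (by simpa using hl)
  simp only [Pi.neg_apply, Int.cast_neg, neg_mul, Finset.sum_neg_distrib] at f2
  rw [sum_fr γ i l a, h0] at f1 f2
  simp only [Int.cast_zero, zero_mul, zero_sub, neg_neg, Int.floor_intCast] at f1 f2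
  rw [← Int.cast_neg, Int.floor_intCast] at f1
  have g1 := Int.floor_le (∑ j, l j * fr γ i (b j))
  have g2 := Int.floor_le (-∑ j, l j * fr γ i (b j))
  rw [← f1] at g1
  rw [← f2] at g2
  refine hγ.irr i (n := ∑ j, l j * fl γ i (b j) - ∑ j, l j * fl γ i (a j)) ?_
  have := sum_fr γ i l b
  push_cast at g1 g2 this ⊢
  linarith

lemma cmp_aux {U1 U2 V1 V2 : ℝ} {r1 r2 : ℤ} {N : ℕ} (hN : 0 < N)
    (h1 : ⌊N * U1⌋ = ⌊N * V1⌋) (h2 : ⌊N * U2⌋ = ⌊N * V2⌋)
    (h3 : ⌊N * U1 - N * U2⌋ = ⌊N * V1 - N * V2⌋) :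
    Int.fract (U1 + r1 / N) < Int.fract (U2 + r2 / N) ↔
      Int.fract (V1 + r1 / N) < Int.fract (V2 + r2 / N) := by
  have hN' : (0 : ℝ) < N := by exact_mod_cast hN
  have fl : ∀ (U : ℝ) (r : ℤ), ⌊U + r / N⌋ = (⌊N * U⌋ + r) / N := by
    intro U r
    rw [floor_scale (l := N) (by exact_mod_cast hN), ← Int.floor_add_intCast]
    congr 2
    push_cast
    field_simp
  have cm : ∀ U1 U2 : ℝ, Int.fract (U1 + r1 / N) < Int.fract (U2 + r2 / N) ↔
      ⌊N * U1 - N * U2⌋ < r2 - r1 + N * ⌊U1 + r1 / N⌋ - N * ⌊U2 + r2 / N⌋ := by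
    intro U1 U2
    rw [Int.floor_lt, Int.fract, Int.fract, ← mul_lt_mul_iff_right₀ hN']
    push_cast
    have e1 : (N : ℝ) * (r1 / N) = r1 := by field_simp
    have e2 : (N : ℝ) * (r2 / N) = r2 := by field_simp
    constructor <;> intro h <;> nlinarith
  rw [cm, cm, fl, fl, fl, fl, h1, h2, h3]

lemma lt_det {θ : ℝ} (hθ : Rep γ θ) {κ : Type} [Fintype κ] (l l' : κ → ℤ) :
    ∃ K M : ℕ, 0 < M ∧ ∀ a b : κ → ℤ, E γ K M a b →
      (Int.fract ((∑ j, l j * a j : ℤ) * θ) < Int.fract ((∑ j, l' j * a j : ℤ) * θ) ↔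
        Int.fract ((∑ j, l j * b j : ℤ) * θ) < Int.fract ((∑ j, l' j * b j : ℤ) * θ)) := by
  obtain ⟨i, p, r, N, hN, rfl⟩ := hθ
  have hN' : (N : ℝ) ≠ 0 := by exact_mod_cast hN.ne'
  obtain ⟨K1, k1⟩ := bound fun j => N * p * l j
  obtain ⟨K2, k2⟩ := bound fun j => N * p * l' j
  refine ⟨K1 + K2, N, hN, fun a b h => ?_⟩
  have ea : ∀ (l c : κ → ℤ), (∀ j, (N : ℤ) ∣ a j - c j) →
      Int.fract ((∑ j, l j * c j : ℤ) * (p * γ i + r / N))
        = Int.fract (p * ∑ j, l j * fr γ i (c j) + (r * ∑ j, l j * a j : ℤ) / N) := by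
    intro l c hc
    obtain ⟨k, hk⟩ := sum_dvd l a c hc
    rw [← Int.fract_add_intCast (p * ∑ j, l j * fr γ i (c j) + (r * ∑ j, l j * a j : ℤ) / N)
      (p * ∑ j, l j * fl γ i (c j) - r * k), sum_fr, eq_add_of_sub_eq hk]
    congr 1
    generalize (∑ j, l j * c j) = x
    generalize (∑ j, l j * fl γ i (c j)) = y
    push_cast
    field_simp
    ring
  rw [ea l a (by simp), ea l' a (by simp), ea l b (fun j => (h.2 j).1),
    ea l' b (fun j => (h.2 j).1)]
  have f1 := h.1 i _ fun j => (k1 j).trans (by push_cast; omega)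
  have f2 := h.1 i _ fun j => (k2 j).trans (by push_cast; omega)
  have f3 := h.1 i (fun j => N * p * l j - N * p * l' j) fun j =>
    (abs_sub _ _).trans (by push_cast; linarith [k1 j, k2 j])
  simp only [Int.cast_sub, Int.cast_mul, Int.cast_natCast, sub_mul, Finset.sum_sub_distrib,
    mul_assoc, ← Finset.mul_sum] at f1 f2 f3
  exact cmp_aux hN f1 f2 f3

lemma cyc_det {θ : ℝ} (hθ : Rep γ θ) {κ : Type} [Fintype κ] (l0 l1 l2 : κ → ℤ) :
    ∃ K M : ℕ, 0 < M ∧ ∀ a b : κ → ℤ, E γ K M a b →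
      (Cyc θ (∑ j, l0 j * a j) (∑ j, l1 j * a j) (∑ j, l2 j * a j) ↔
        Cyc θ (∑ j, l0 j * b j) (∑ j, l1 j * b j) (∑ j, l2 j * b j)) := by
  obtain ⟨K1, M1, p1, h1⟩ := lt_det hθ l0 l1
  obtain ⟨K2, M2, p2, h2⟩ := lt_det hθ l1 l2
  obtain ⟨K3, M3, p3, h3⟩ := lt_det hθ l2 l0
  refine ⟨K1 + K2 + K3, M1 * M2 * M3, by positivity, fun a b h => ?_⟩
  unfold Cyc
  rw [h1 a b (h.mono (by omega) ⟨M2 * M3, by ring⟩), h2 a b (h.mono (by omega) ⟨M1 * M3, by ring⟩),
    h3 a b (h.mono (by omega) ⟨M1 * M2, by ring⟩)]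

lemma E_snoc (hγ : Ind γ) {κ : Type} [Fintype κ] {n K M : ℕ} (hK : 1 ≤ K) (hM : 0 < M)
    {v v' : κ → ℤ} {xs xs' : Fin n → ℤ}
    (h : E γ (2 * K ^ 2) (M * K.factorial) (Sum.elim v xs) (Sum.elim v' xs')) (c : ℤ) :
    ∃ c' : ℤ, E γ K M (Sum.elim v (Fin.snoc xs c : Fin (n + 1) → ℤ))
      (Sum.elim v' (Fin.snoc xs' c' : Fin (n + 1) → ℤ)) := by
  obtain ⟨c', h1, h2⟩ := ext_lemma hγ hK hM h c
  refine ⟨c', fun i l hl => ?_, ?_⟩
  · have := h1 i (l (Sum.inr (Fin.last n))) (Sum.elim (fun i => l (Sum.inl i))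
      (fun j => l (Sum.inr j.castSucc))) (hl _) (by rintro (i | j) <;> exact hl _)
    simp only [Fintype.sum_sum_type, Sum.elim_inl, Sum.elim_inr, Fin.sum_univ_castSucc,
      Fin.snoc_castSucc, Fin.snoc_last] at this ⊢
    convert this using 2 <;> ring
  · have h' := h.mono le_rfl (Dvd.intro _ rfl)
    rintro (i | j)
    · exact h'.2 (Sum.inl i)
    · refine Fin.lastCases ?_ (fun j => ?_) j
      · simpa using h2
      · simpa using h'.2 (Sum.inr j)

theorem ef (hγ : Ind γ) {α β : ℝ} (hα : Rep γ α) (hβ : Rep γ β) {κ : Type} [Fintype κ] {n : ℕ}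
    (φ : L.BoundedFormula κ n) :
    ∃ K M : ℕ, 0 < M ∧ ∀ (v v' : κ → ℤ) (xs xs' : Fin n → ℤ),
      E γ K M (Sum.elim v xs) (Sum.elim v' xs') →
      (@BoundedFormula.Realize L ℤ (S α β) κ n φ v xs ↔
        @BoundedFormula.Realize L ℤ (S α β) κ n φ v' xs') := by
  letI := S α β
  induction φ with
  | falsum => exact ⟨0, 1, one_pos, fun _ _ _ _ _ => Iff.rfl⟩
  | equal t1 t2 =>
    obtain ⟨l1, h1⟩ := term_lin α β t1
    obtain ⟨l2, h2⟩ := term_lin α β t2
    obtain ⟨K, hK⟩ := bound (l1 - l2)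
    obtain ⟨i, -⟩ := hα
    refine ⟨K, 1, one_pos, fun v v' xs xs' h => ?_⟩
    have : _ ↔ _ := ⟨eq_det hγ i h hK, eq_det hγ i h.symm hK⟩
    simp only [Pi.sub_apply, sub_mul, Finset.sum_sub_distrib, sub_eq_zero, ← h1, ← h2] at this
    exact this
  | rel r ts =>
    cases r with
    | ca =>
      obtain ⟨l0, h0⟩ := term_lin α β (ts 0)
      obtain ⟨l1, h1⟩ := term_lin α β (ts 1)
      obtain ⟨l2, h2⟩ := term_lin α β (ts 2)
      obtain ⟨K, M, hM, H⟩ := cyc_det hα l0 l1 l2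
      refine ⟨K, M, hM, fun v v' xs xs' h => ?_⟩
      have := H _ _ h
      simp only [← h0, ← h1, ← h2] at this
      exact this
    | cb =>
      obtain ⟨l0, h0⟩ := term_lin α β (ts 0)
      obtain ⟨l1, h1⟩ := term_lin α β (ts 1)
      obtain ⟨l2, h2⟩ := term_lin α β (ts 2)
      obtain ⟨K, M, hM, H⟩ := cyc_det hβ l0 l1 l2
      refine ⟨K, M, hM, fun v v' xs xs' h => ?_⟩
      have := H _ _ h
      simp only [← h0, ← h1, ← h2] at this
      exact this
  | imp f1 f2 ih1 ih2 =>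
    obtain ⟨K1, M1, o1, h1⟩ := ih1
    obtain ⟨K2, M2, o2, h2⟩ := ih2
    refine ⟨max K1 K2, M1 * M2, by positivity, fun v v' xs xs' h => ?_⟩
    simp only [BoundedFormula.realize_imp]
    rw [h1 _ _ _ _ (h.mono (le_max_left _ _) (Dvd.intro _ rfl)),
      h2 _ _ _ _ (h.mono (le_max_right _ _) (Dvd.intro_left _ rfl))]
  | all f ih =>
    obtain ⟨K, M, o, h1⟩ := ih
    refine ⟨2 * (K + 1) ^ 2, M * (K + 1).factorial, by positivity, fun v v' xs xs' h => ?_⟩
    simp only [BoundedFormula.realize_all]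
    constructor
    · intro H c
      obtain ⟨c', hc⟩ := E_snoc hγ (Nat.le_add_left 1 K) o h.symm c
      exact (h1 _ _ _ _ (hc.mono (Nat.le_succ K) dvd_rfl)).2 (H c')
    · intro H c
      obtain ⟨c', hc⟩ := E_snoc hγ (Nat.le_add_left 1 K) o h c
      exact (h1 _ _ _ _ (hc.mono (Nat.le_succ K) dvd_rfl)).2 (H c')

lemma poly_lt (A B C : ℕ) : ∃ N : ℕ, (N * C + 1) ^ A * B < 2 ^ N := by
  have ht := tendsto_pow_const_div_const_pow_of_one_lt A (show (1 : ℝ) < 2 by norm_num)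
  have hp : (0 : ℝ) < 1 / ((C + 1) ^ A * B + 1) := by positivity
  obtain ⟨N, h1, h2⟩ := ((ht.eventually (gt_mem_nhds hp)).and (Filter.eventually_ge_atTop 1)).exists
  refine ⟨N, ?_⟩
  rw [div_lt_div_iff₀ (by positivity) (by positivity), one_mul] at h1
  have h3 : N ^ A * ((C + 1) ^ A * B + 1) < 2 ^ N := by exact_mod_cast h1
  have h4 : (N * C + 1) ^ A ≤ N ^ A * (C + 1) ^ A := by
    rw [← mul_pow]
    exact Nat.pow_le_pow_left (by nlinarith) _
  calc (N * C + 1) ^ A * B ≤ N ^ A * (C + 1) ^ A * B := Nat.mul_le_mul_right _ h4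
    _ ≤ N ^ A * ((C + 1) ^ A * B + 1) := by nlinarith [Nat.zero_le (N ^ A)]
    _ < _ := h3

omit [Fintype ι] in
lemma small {m K : ℕ} (i : ι) (l b : Fin m → ℤ) (hl : ∀ j, |l j| ≤ K) :
    |∑ j, l j * fr γ i (b j)| ≤ (K * m : ℕ) := by
  refine (Finset.abs_sum_le_sum_abs _ _).trans ?_
  refine (Finset.sum_le_card_nsmul _ _ (K : ℝ) fun j _ => ?_).trans (by simp [mul_comm])
  have h1 : |(l j : ℝ)| ≤ K := by exact_mod_cast hl j
  have h2 : 0 ≤ fr γ i (b j) := Int.fract_nonneg _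
  rw [abs_mul, abs_of_nonneg h2]
  exact (mul_le_of_le_one_right (abs_nonneg _) (Int.fract_lt_one _).le).trans h1

theorem count (γ : ι → ℝ) (n m K M : ℕ) (hM : 0 < M) : ∃ N : ℕ,
    ∀ (a : Fin N → Fin n → ℤ) (b : Finset (Fin N) → Fin m → ℤ), ∃ T T', T ≠ T' ∧
      ∀ k (z : Fin 0 → ℤ), E γ K M (Sum.elim (Sum.elim (a k) (b T)) z)
        (Sum.elim (Sum.elim (a k) (b T')) z) := by
  classical
  let Fm : Finset ((Fin n ⊕ Fin m) ⊕ Fin 0 → ℤ) :=
    Fintype.piFinset fun _ => Finset.Icc (-(K : ℤ)) K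
  obtain ⟨N, hN⟩ := poly_lt (Fintype.card (ι × Fm)) (M ^ Fintype.card (Fin m × Option ι))
    (2 * (K * m))
  refine ⟨N, fun a b => ?_⟩
  let u : Fin N → ι × Fm → ℝ := fun k p => ∑ j, p.2.1 (Sum.inl (Sum.inl j)) * fr γ p.1 (a k j)
  let s : Finset (Fin N) → ι × Fm → ℝ :=
    fun T p => ∑ j, p.2.1 (Sum.inl (Sum.inr j)) * fr γ p.1 (b T j)
  have hs : ∀ T p, |s T p| ≤ (K * m : ℕ) := fun T p => small _ _ _ fun j => by
    have := Fintype.mem_piFinset.1 p.2.2 (Sum.inl (Sum.inr j))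
    exact abs_le.2 (Finset.mem_Icc.1 this)
  let res : Finset (Fin N) → Fin m × Option ι → ℤ := fun T q =>
    (q.2.elim (b T q.1) fun i => fl γ i (b T q.1)) % M
  let Φ : Finset (Fin N) → (ι × Fm → ℤ) × (Fin m × Option ι → ℤ) := fun T =>
    (fun p => ∑ k, (⌊u k p + s T p⌋ - ⌊u k p⌋), res T)
  obtain ⟨T, -, T', -, hne, hΦ⟩ := Finset.exists_ne_map_eq_of_card_lt_of_maps_to
    (s := (univ : Finset (Finset (Fin N))))
    (t := (Fintype.piFinset fun _ => Finset.Icc (-(N * (K * m) : ℕ) : ℤ) (N * (K * m) : ℕ)) ×ˢ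
      (Fintype.piFinset fun _ => Finset.Ico (0 : ℤ) M)) (f := Φ) (by
      rw [Finset.card_product, Fintype.card_piFinset, Fintype.card_piFinset, Finset.prod_const,
        Finset.prod_const, Int.card_Icc, Int.card_Ico, Finset.card_univ, Finset.card_univ,
        Finset.card_univ, Fintype.card_finset, Fintype.card_fin]
      convert hN using 3
      · rw [show N * (2 * (K * m)) = 2 * (N * (K * m)) by ring]
        generalize N * (K * m) = x
        omega
      · simp) (by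
      intro T _
      refine Finset.mem_coe.2 (Finset.mem_product.2 ⟨Fintype.mem_piFinset.2 fun p => ?_,
        Fintype.mem_piFinset.2 fun q => ?_⟩)
      · rw [Finset.mem_Icc, ← abs_le]
        change |∑ k, (⌊u k p + s T p⌋ - ⌊u k p⌋)| ≤ _
        refine (Finset.abs_sum_le_sum_abs _ _).trans ?_
        refine (Finset.sum_le_card_nsmul _ _ ((K * m : ℕ) : ℤ) fun k _ => ?_).trans (by simp)
        have h1 := abs_le.1 (hs T p)
        have h2 : ⌊u k p + s T p⌋ ≤ ⌊u k p + ((K * m : ℕ) : ℤ)⌋ :=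
          Int.floor_le_floor (by push_cast at h1 ⊢; linarith [h1.2])
        have h3 : ⌊u k p + (-((K * m : ℕ) : ℤ) : ℤ)⌋ ≤ ⌊u k p + s T p⌋ :=
          Int.floor_le_floor (by push_cast at h1 ⊢; linarith [h1.1])
        rw [Int.floor_add_intCast] at h2 h3
        rw [abs_le]
        constructor <;> linarith
      · exact Finset.mem_Ico.2 ⟨Int.emod_nonneg _ (by omega), Int.emod_lt_of_pos _ (by omega)⟩)
  refine ⟨T, T', hne, fun k z => ⟨fun i l hl => ?_, ?_⟩⟩
  · let p : ι × Fm := (i, ⟨l, Fintype.mem_piFinset.2 fun j => Finset.mem_Icc.2 (abs_le.1 (hl j))⟩)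
    have e1 : ∑ k, (⌊u k p + s T p⌋ - ⌊u k p⌋) = ∑ k, (⌊u k p + s T' p⌋ - ⌊u k p⌋) :=
      congrFun (congrArg Prod.fst hΦ) p
    have e2 : ⌊u k p + s T p⌋ = ⌊u k p + s T' p⌋ := by
      rcases le_total (s T p) (s T' p) with h | h
      · have := (Finset.sum_eq_sum_iff_of_le fun k _ =>
          sub_le_sub_right (Int.floor_le_floor (add_le_add_right h (u k p))) _).1 e1 k (mem_univ _)
        linarith
      · have := (Finset.sum_eq_sum_iff_of_le fun k _ =>
          sub_le_sub_right (Int.floor_le_floor (add_le_add_right h (u k p))) _).1 e1.symm k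
          (mem_univ _)
        linarith
    simpa [Fintype.sum_sum_type, u, s, p] using e2
  · have e1 : res T = res T' := congrArg Prod.snd hΦ
    rintro ((j | j) | j)
    · simp
    · exact ⟨Int.ModEq.dvd (Int.ModEq.symm (congrFun e1 (j, none))),
        fun i => Int.ModEq.dvd (Int.ModEq.symm (congrFun e1 (j, some i)))⟩
    · exact j.elim0

theorem nip_of (hγ : Ind γ) {α β : ℝ} (hα : Rep γ α) (hβ : Rep γ β) : IsNIP α β := by
  classical
  letI := S α β
  rintro Mo _ hM n m φ ⟨a, b, hab⟩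
  obtain ⟨K, M, hM0, H⟩ := ef hγ hα hβ φ
  obtain ⟨N, hN⟩ := count γ n m K M hM0
  let g : Fin N × Finset (Fin N) → Fin n ⊕ Fin m →
      Empty ⊕ ((Fin N × Fin n) ⊕ (Finset (Fin N) × Fin m)) := fun p =>
    Sum.elim (fun j => Sum.inr (Sum.inl (p.1, j))) (fun j => Sum.inr (Sum.inr (p.2, j)))
  let σ : L.Sentence := Formula.iExs ((Fin N × Fin n) ⊕ (Finset (Fin N) × Fin m))
    (Formula.iInf fun p : Fin N × Finset (Fin N) =>
      if p.1 ∈ p.2 then φ.relabel (g p) else (φ.relabel (g p)).not)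
  have hσ : ∀ (X : Type) [L.Structure X], X ⊨ σ ↔ ∃ (a : Fin N → Fin n → X)
      (b : Finset (Fin N) → Fin m → X), ∀ k T, φ.Realize (Sum.elim (a k) (b T)) ↔ k ∈ T := by
    intro X _
    rw [Sentence.Realize, Formula.realize_iExs]
    simp only [Formula.realize_iInf]
    have e : ∀ (w : (Fin N × Fin n) ⊕ (Finset (Fin N) × Fin m) → X) (p : Fin N × Finset (Fin N)),
        (if p.1 ∈ p.2 then φ.relabel (g p) else (φ.relabel (g p)).not).Realize
          (Sum.elim (default : Empty → X) w) ↔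
        (φ.Realize (Sum.elim (fun j => w (Sum.inl (p.1, j))) fun j => w (Sum.inr (p.2, j)))
          ↔ p.1 ∈ p.2) := by
      intro w p
      have : Sum.elim (default : Empty → X) w ∘ g p
          = Sum.elim (fun j => w (Sum.inl (p.1, j))) fun j => w (Sum.inr (p.2, j)) := by
        funext x; rcases x with x | x <;> rfl
      split_ifs with h
      · simp [Formula.realize_relabel, this, h]
      · simp [Formula.realize_relabel, this, h]
    simp only [e]
    constructor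
    · rintro ⟨w, hw⟩
      exact ⟨fun k j => w (Sum.inl (k, j)), fun T j => w (Sum.inr (T, j)), fun k T => hw (k, T)⟩
    · rintro ⟨a, b, h⟩
      exact ⟨Sum.elim (fun q => a q.1 q.2) (fun q => b q.1 q.2), fun p => h p.1 p.2⟩
  have h1 : Mo ⊨ σ := (hσ Mo).2 ⟨fun k => a k, fun T => b (Fin.val '' (T : Set (Fin N))),
    fun k T => by rw [hab]; simp [Fin.val_inj]⟩
  obtain ⟨a', b', h2⟩ := (hσ ℤ).1 ((hM.realize_sentence σ).2 h1)
  obtain ⟨T, T', hne, hE⟩ := hN a' b'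
  refine hne (Finset.ext fun k => ?_)
  rw [← h2, ← h2]
  exact H _ _ _ _ (hE k _)

theorem main {α β : ℝ} (hα : Irrational α) : IsNIP α β := by
  by_cases h : Ind ![α, β]
  · exact nip_of h ⟨0, 1, 0, 1, one_pos, by simp⟩ ⟨1, 1, 0, 1, one_pos, by simp⟩
  · unfold Ind at h
    push Not at h
    obtain ⟨k, r, h1, h2⟩ := h
    simp only [Fin.sum_univ_two, Matrix.cons_val_zero, Matrix.cons_val_one] at h1
    have hq : k 1 ≠ 0 := by
      intro h0
      rw [h0, Int.cast_zero, zero_mul, add_zero] at h1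
      have hp : k 0 ≠ 0 := fun h' => h2 (by ext i; fin_cases i <;> simp [h', h0])
      exact (hα.intCast_mul hp).ne_int r h1
    have hq' : (k 1 : ℝ) ≠ 0 := by exact_mod_cast hq
    have hi : Ind fun _ : Unit => α / k 1 := by
      intro c n hc
      simp only [univ_unique, sum_singleton] at hc
      by_contra h0
      have hc0 : c default ≠ 0 := fun h' => h0 (by ext i; exact h')
      exact ((hα.div_intCast hq).intCast_mul hc0).ne_int n hc
    refine nip_of hi ⟨(), k 1, 0, 1, one_pos, by simp; field_simp⟩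
      ⟨(), -k 0, r * k 1, (k 1).natAbs ^ 2, by positivity, ?_⟩
    have e : (((k 1).natAbs ^ 2 : ℕ) : ℝ) = (k 1 : ℝ) ^ 2 := by
      push_cast
      rw [Nat.cast_natAbs, Int.cast_abs, sq_abs]
    rw [e]
    push_cast
    field_simp
    linarith

end Pool.Agent.H69.Nip
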