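import Mathlib

set_option autoImplicit false

namespace Pool.Agent.H69.Nip

open FirstOrder

/-- one binary function symbol (addition) -/
inductive Fn : ℕ → Type
  | add : Fn 2

/-- two ternary relation symbols -/
inductive Rl : ℕ → Type
  | ca : Rl 3
  | cb : Rl 3

/-- the language of `(ℤ; +, C_α, C_β)` -/
def L : FirstOrder.Language := ⟨Fn, Rl⟩

/-- the cyclic order `C_θ` on the integers -/
def Cyc (θ : ℝ) (a b c : ℤ) : Prop :=
  (Int.fract (a * θ) < Int.fract (b * θ) ∧ Int.fract (b * θ) < Int.fract (c * θ)) ∨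
  (Int.fract (b * θ) < Int.fract (c * θ) ∧ Int.fract (c * θ) < Int.fract (a * θ)) ∨
  (Int.fract (c * θ) < Int.fract (a * θ) ∧ Int.fract (a * θ) < Int.fract (b * θ))

/-- the structure `(ℤ; +, C_α, C_β)` -/
@[reducible] def S (α β : ℝ) : L.Structure ℤ where
  funMap := fun {n} f v => match n, f, v with
    | _, Fn.add, v => v 0 + v 1
  RelMap := fun {n} r v => match n, r, v with
    | _, Rl.ca, v => Cyc α (v 0) (v 1) (v 2)
    | _, Rl.cb, v => Cyc β (v 0) (v 1) (v 2)

/-- no formula has the independence property in any model of the complete theory -/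
def IsNIP (α β : ℝ) : Prop :=
  letI := S α β
  ∀ (M : Type) [L.Structure M], L.ElementarilyEquivalent ℤ M →
    ∀ (n m : ℕ) (φ : L.Formula (Fin n ⊕ Fin m)),
      ¬ ∃ (a : ℕ → Fin n → M) (b : Set ℕ → Fin m → M),
        ∀ i T, φ.Realize (Sum.elim (a i) (b T)) ↔ i ∈ T

end Pool.Agent.H69.Nip
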