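import Pool.Agent.H69.OnsDefs

namespace Pool.Agent.H69.Ons
open Filter Topology

section one
variable {A : Type} [CStarAlgebra A]

theorem nu (u : unitary A) : ‖(u : A)‖ ≤ 1 := by
  rcases subsingleton_or_nontrivial A with h | h
  · simp [Subsingleton.elim (u : A) 0]
  · exact (CStarRing.norm_coe_unitary u).le

theorem sign_ex (y : A) (hy : IsSelfAdjoint y) (hn : ‖y‖ ≤ 1) :
    ∃ v : unitary A, v * v = 1 ∧ (‖y * y - 1‖ ≤ 1 / 2 → ‖(v : A) - y‖ ≤ 2 * ‖y * y - 1‖ ∧
      ∀ a b : A, a * y = y * b → b * y = y * a → a * v = v * b) := by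
  by_cases h : ‖y * y - 1‖ ≤ 1 / 2
  swap
  · exact ⟨1, by simp, fun h' => absurd h' h⟩
  rcases subsingleton_or_nontrivial A with hA | hA
  · exact ⟨1, by simp, fun _ => ⟨by simp [Subsingleton.elim ((1 : A) - y) 0], fun _ _ _ _ =>
      Subsingleton.elim _ _⟩⟩
  have hs : IsSelfAdjoint (y * y) := by simpa [sq] using hy.pow 2
  have hsp : ∀ t ∈ spectrum ℝ (y * y), |t - 1| ≤ ‖y * y - 1‖ := by
    intro t ht
    have : t - 1 ∈ spectrum ℝ (y * y - algebraMap ℝ A 1) := by
      rw [← spectrum.sub_singleton_eq]; exact Set.sub_mem_sub ht rfl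
    rw [map_one] at this
    exact spectrum.norm_le_norm_of_mem this
  have hpos : ∀ t ∈ spectrum ℝ (y * y), 1 / 2 ≤ t := fun t ht => by
    linarith [(abs_le.1 ((hsp t ht).trans h)).1]
  have hc : ContinuousOn (fun t : ℝ => (√t)⁻¹) (spectrum ℝ (y * y)) :=
    Real.continuous_sqrt.continuousOn.inv₀ fun t ht =>
      (Real.sqrt_pos.2 (by linarith [hpos t ht])).ne'
  set r := cfc (fun t : ℝ => (√t)⁻¹) (y * y) with hr
  have hrs : IsSelfAdjoint r := cfc_predicate _ _
  have hcom : ∀ b, Commute (y * y) b → Commute r b := fun b hb => hb.cfc_real _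
  have hry : Commute r y := hcom y (by simp [Commute, SemiconjBy, mul_assoc])
  have h1 : y * y * (r * r) = 1 := by
    have e1 : y * y * (r * r) = cfc (fun t : ℝ => t * ((√t)⁻¹ * (√t)⁻¹)) (y * y) := by
      rw [cfc_mul (fun t : ℝ => t) (fun t : ℝ => (√t)⁻¹ * (√t)⁻¹) _ continuous_id.continuousOn
        (hc.mul hc), cfc_mul _ _ _ hc hc, cfc_id' ℝ (y * y)]
    rw [e1, ← cfc_const_one ℝ (y * y)]
    refine cfc_congr fun t ht => ?_
    have := hpos t ht
    rw [← mul_inv, Real.mul_self_sqrt (by linarith), mul_inv_cancel₀ (by linarith)]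
  have hv2 : y * r * (y * r) = 1 := by
    rw [← h1, mul_assoc y r, ← mul_assoc r y, hry.eq]; simp only [mul_assoc]
  have hvs : star (y * r) = y * r := by rw [star_mul, hrs.star_eq, hy.star_eq, hry.eq]
  refine ⟨⟨y * r, by rw [Unitary.mem_iff, hvs]; exact ⟨hv2, hv2⟩⟩, Subtype.ext hv2, fun _ => ⟨?_, ?_⟩⟩
  · have e2 : r - 1 = cfc (fun t : ℝ => (√t)⁻¹ - 1) (y * y) := by
      rw [cfc_sub _ _ _ hc continuousOn_const, cfc_const_one ℝ (y * y)]
    have e3 : ‖r - 1‖ ≤ 2 * ‖y * y - 1‖ := by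
      rw [e2]
      refine norm_cfc_le (by positivity) fun t ht => ?_
      have a := hpos t ht
      have b := hsp t ht
      refine le_trans ?_ (mul_le_mul_of_nonneg_left b zero_le_two)
      obtain ⟨s, hs0, rfl⟩ : ∃ s : ℝ, 0 < s ∧ t = s * s :=
        ⟨√t, Real.sqrt_pos.2 (by linarith), (Real.mul_self_sqrt (by linarith)).symm⟩
      rw [Real.sqrt_mul_self hs0.le, Real.norm_eq_abs]
      have e : s⁻¹ - 1 = -(s * s - 1) * (s * (s + 1))⁻¹ := by field_simp; ring
      rw [e, abs_mul, abs_neg, mul_comm]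
      refine mul_le_mul_of_nonneg_right ?_ (abs_nonneg _)
      rw [abs_of_pos (by positivity), inv_le_comm₀ (by positivity) (by norm_num)]
      nlinarith
    change ‖y * r - y‖ ≤ _
    calc ‖y * r - y‖ = ‖y * (r - 1)‖ := by rw [mul_sub, mul_one]
      _ ≤ ‖y‖ * ‖r - 1‖ := norm_mul_le _ _
      _ ≤ 1 * (2 * ‖y * y - 1‖) := by gcongr
      _ = _ := one_mul _
  · intro a b h1 h2
    have : Commute r b := hcom b (by
      change y * y * b = b * (y * y)
      rw [mul_assoc, ← h1, ← mul_assoc, ← h2, mul_assoc])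
    change a * (y * r) = y * r * b
    rw [← mul_assoc, h1, mul_assoc, mul_assoc, this.eq]

theorem inv_one (v : unitary A) (h : v * v = 1) (hn : ‖(v : A) - 1‖ < 2) : v = 1 := by
  have h1 : (v : A) * v = 1 := congrArg Subtype.val h
  have h2 : ((v : A) - 1) * (v - 1) = (-2 : ℂ) • ((v : A) - 1) := by
    rw [sub_mul, mul_sub, mul_sub, h1]; simp only [mul_one, one_mul]; module
  have h3 := norm_mul_le ((v : A) - 1) (v - 1)
  rw [h2, norm_smul] at h3
  simp only [norm_neg, Complex.norm_ofNat] at h3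
  have : ‖(v : A) - 1‖ = 0 := by nlinarith [norm_nonneg ((v : A) - 1)]
  exact Subtype.ext (sub_eq_zero.1 (norm_eq_zero.1 this))
end one

section fam
variable {A : ℕ → Type} [∀ n, CStarAlgebra (A n)]

def Cl (x y : ∀ n, A n) : Prop := Tendsto (fun n => ‖x n - y n‖) atTop (𝓝 0)

theorem Cl.refl (x : ∀ n, A n) : Cl x x := by simp [Cl]
theorem Cl.symm {x y : ∀ n, A n} (h : Cl x y) : Cl y x := by
  simpa only [Cl, norm_sub_rev] using h
theorem Cl.of_le {x y : ∀ n, A n} {f : ℕ → ℝ} (hf : Tendsto f atTop (𝓝 0))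
    (h : ∀ᶠ n in atTop, ‖x n - y n‖ ≤ f n) : Cl x y :=
  squeeze_zero' (Eventually.of_forall fun _ => norm_nonneg _) h hf
theorem Cl.trans {x y z : ∀ n, A n} (h : Cl x y) (h' : Cl y z) : Cl x z :=
  Cl.of_le (by simpa using h.add h') (Eventually.of_forall fun n => norm_sub_le_norm_sub_add_norm_sub _ _ _)
theorem Cl.mul {x y z w : ∀ n, A n} (h : Cl x y) (h' : Cl z w) (hx : ∀ n, ‖x n‖ ≤ 1)
    (hw : ∀ n, ‖w n‖ ≤ 1) : Cl (fun n => x n * z n) (fun n => y n * w n) := by
  refine Cl.of_le (by simpa using h'.add h) (Eventually.of_forall fun n => ?_)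
  have : x n * z n - y n * w n = x n * (z n - w n) + (x n - y n) * w n := by noncomm_ring
  rw [this]
  refine (norm_add_le _ _).trans (add_le_add ?_ ?_)
  · exact (norm_mul_le _ _).trans (mul_le_of_le_one_left (norm_nonneg _) (hx n))
  · exact (norm_mul_le _ _).trans (mul_le_of_le_one_right (norm_nonneg _) (hw n))
theorem Cl.star {x y : ∀ n, A n} (h : Cl x y) : Cl (fun n => star (x n)) (fun n => star (y n)) := by
  simpa only [Cl, ← star_sub, norm_star] using h

theorem avg_norm {B ι : Type} [CStarAlgebra B] [Fintype ι] [Nonempty ι] (x : ι → B) (y : B) :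
    ‖(Fintype.card ι : ℂ)⁻¹ • ∑ i, x i - y‖ ≤ (Fintype.card ι : ℝ)⁻¹ * ∑ i, ‖x i - y‖ := by
  have h : (Fintype.card ι : ℂ) ≠ 0 := by exact_mod_cast Fintype.card_ne_zero
  have : (Fintype.card ι : ℂ)⁻¹ • ∑ i, x i - y = (Fintype.card ι : ℂ)⁻¹ • ∑ i, (x i - y) := by
    rw [Finset.sum_sub_distrib, smul_sub, Finset.sum_const, Finset.card_univ,
      ← Nat.cast_smul_eq_nsmul ℂ, smul_smul, inv_mul_cancel₀ h, one_smul]
  rw [this, norm_smul, norm_inv, Complex.norm_natCast]
  exact mul_le_mul_of_nonneg_left (norm_sum_le _ _) (by positivity)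

variable {G : Type} [Group G] (φ : ∀ n, G → unitary (A n))
  (hφ : ∀ g h, Cl (fun n => (φ n (g * h) : A n)) (fun n => φ n g * φ n h))

def Good (S : Subgroup G) : Prop := ∃ ψ : ∀ n, G → unitary (A n),
  (∀ n, ∀ g ∈ S, ∀ h ∈ S, ψ n (g * h) = ψ n g * ψ n h) ∧
  ∀ g ∈ S, Cl (fun n => (φ n g : A n)) (fun n => ψ n g)

include hφ

theorem one_cl : Cl (fun n => (φ n 1 : A n)) (fun _ => 1) := by
  have := (Cl.refl fun n => star (φ n 1 : A n)).mul (hφ 1 1).symm (fun n => by
    rw [norm_star]; exact nu _) (fun n => nu _)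
  simpa [← mul_assoc] using this

theorem good_bot (S : Subgroup G) (h : ∀ g ∈ S, g = 1) : Good φ S :=
  ⟨fun _ _ => 1, by simp, fun g hg => by rw [h g hg]; exact one_cl φ hφ⟩

theorem step (S S' : Subgroup G) [Finite S] (u : G) (hu : u * u = 1)
    (hn : ∀ s ∈ S, u * s * u ∈ S) (hS : ∀ g ∈ S', g ∈ S ∨ g * u ∈ S) (h : Good φ S) :
    Good φ S' := by
  classical
  obtain ⟨ψ, h1, h2⟩ := h
  haveI := Fintype.ofFinite S
  let x : ∀ n, A n := fun n => (Fintype.card S : ℂ)⁻¹ •
    ∑ s : S, (ψ n (u * s * u) : A n) * φ n u * star (ψ n s : A n)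
  have hx1 : ∀ n, ‖x n‖ ≤ 1 := by
    intro n
    have := avg_norm (fun s : S => (ψ n (u * s * u) : A n) * φ n u * star (ψ n s : A n)) 0
    simp only [sub_zero] at this
    refine this.trans ?_
    have h0 : (0 : ℝ) < Fintype.card S := by exact_mod_cast Fintype.card_pos
    rw [inv_mul_le_iff₀ h0, mul_one]
    refine (Finset.sum_le_card_nsmul _ _ 1 fun s _ => ?_).trans (by simp)
    exact nu (ψ n (u * s * u) * φ n u * star (ψ n s))
  have hx2 : Cl x (fun n => φ n u) := by
    have : ∀ s : S, Cl (fun n => (ψ n (u * s * u) : A n) * φ n u * star (ψ n s : A n))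
        (fun n => φ n u) := by
      intro s
      have a := (h2 _ (hn s s.2)).symm.mul (Cl.refl fun n => (φ n u : A n)) (fun n => nu _)
        (fun n => nu _)
      have b := hφ (u * s * u) u
      rw [mul_assoc (u * s), hu, mul_one] at b
      have c := ((a.trans b.symm).trans (hφ u s)).mul (h2 s s.2).star.symm
        (fun n => nu (ψ n (u * s * u) * φ n u)) (fun n => by rw [norm_star]; exact nu _)
      simpa [mul_assoc] using c
    refine Cl.of_le ?_ (Eventually.of_forall fun n => avg_norm _ _)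
    simpa using (tendsto_finset_sum Finset.univ fun s _ => this s).const_mul
      (Fintype.card S : ℝ)⁻¹
  have hx3 : ∀ n, ∀ g ∈ S, (ψ n (u * g * u) : A n) * x n = x n * ψ n g := by
    intro n g hg
    simp only [x, mul_smul_comm, smul_mul_assoc, Finset.mul_sum, Finset.sum_mul]
    congr 1
    refine Fintype.sum_equiv (Equiv.mulLeft (⟨g, hg⟩ : S)) _ _ fun s => ?_
    simp only [Equiv.coe_mulLeft, Subgroup.coe_mul]
    have e : u * (g * s) * u = (u * g * u) * (u * s * u) := by
      simp only [mul_assoc]; rw [← mul_assoc u u, hu, one_mul]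
    rw [e, h1 n _ (hn g hg) _ (hn s s.2), h1 n g hg s s.2]
    simp [mul_assoc]
  have uu : ∀ g : G, u * (u * g * u) * u = g := by
    intro g; simp only [mul_assoc]; rw [hu, mul_one, ← mul_assoc, hu, one_mul]
  let y : ∀ n, A n := fun n => (2 : ℂ)⁻¹ • (x n + star (x n))
  have hy0 : ∀ n, IsSelfAdjoint (y n) := fun n => by simp [y, IsSelfAdjoint, add_comm]
  have hy1 : ∀ n, ‖y n‖ ≤ 1 := fun n => by
    simp only [y, norm_smul, norm_inv, Complex.norm_ofNat]
    have := norm_add_le (x n) (star (x n))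
    rw [norm_star] at this
    linarith [hx1 n]
  have hu2 : Cl (fun n => (φ n u : A n) * φ n u) (fun _ => 1) := by
    have := (hφ u u).symm
    rw [hu] at this
    exact this.trans (one_cl φ hφ)
  have hy2 : Cl y (fun n => φ n u) := by
    have a : Cl (fun n => (φ n u : A n)) (fun n => star (φ n u : A n)) := by
      have := (Cl.refl fun n => star (φ n u : A n)).mul hu2
        (fun n => by rw [norm_star]; exact nu _) (fun n => nu 1)
      simpa [← mul_assoc] using this
    refine Cl.of_le (by simpa using Tendsto.add hx2 (hx2.star.trans a.symm))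
      (Eventually.of_forall fun n => ?_)
    have : y n - φ n u = (2 : ℂ)⁻¹ • ((x n - φ n u) + (star (x n) - φ n u)) := by
      simp only [y]; module
    rw [this, norm_smul, norm_inv, Complex.norm_ofNat]
    have := norm_add_le (x n - φ n u) (star (x n) - φ n u)
    linarith [norm_nonneg (x n - φ n u), norm_nonneg (star (x n) - φ n u)]
  have hy3 : ∀ n, ∀ g ∈ S, (ψ n (u * g * u) : A n) * y n = y n * ψ n g := by
    intro n g hg
    have a := hx3 n g hg
    have b := congrArg star (hx3 n _ (hn g hg))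
    rw [uu, star_mul, star_mul] at b
    have c : (ψ n (u * g * u) : A n) * star (x n) = star (x n) * ψ n g := by
      calc _ = (ψ n (u * g * u) : A n) * (star (x n) * star (ψ n g : A n)) * ψ n g := by
            simp [mul_assoc]
        _ = _ := by rw [b]; simp [← mul_assoc]
    simp only [y, mul_smul_comm, smul_mul_assoc, mul_add, add_mul, a, c]
  choose v hv1 hv2 using fun n => sign_ex (y n) (hy0 n) (hy1 n)
  have hyy : Cl (fun n => y n * y n) (fun _ => 1) := (hy2.mul hy2 hy1 (fun n => nu _)).trans hu2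
  have hev : ∀ᶠ n in atTop, ‖y n * y n - 1‖ ≤ 1 / 2 :=
    hyy.eventually (ge_mem_nhds (by norm_num))
  have hv3 : Cl (fun n => (v n : A n)) (fun n => φ n u) :=
    (Cl.of_le (by simpa using Tendsto.const_mul 2 hyy) (hev.mono fun n hn => (hv2 n hn).1)).trans hy2
  refine ⟨fun n g => if ‖y n * y n - 1‖ ≤ 1 / 2 then (if g ∈ S then ψ n g else ψ n (g * u) * v n)
    else 1, fun n g hg h hh => ?_, fun g hg => ?_⟩
  · by_cases hc : ‖y n * y n - 1‖ ≤ 1 / 2
    swap
    · simp only [if_neg hc, mul_one]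
    simp only [if_pos hc]
    have iv : ∀ s ∈ S, ψ n (u * s * u) * v n = v n * ψ n s := fun s hs => Subtype.ext
      ((hv2 n hc).2 _ _ (hy3 n s hs) (by have := hy3 n _ (hn s hs); rwa [uu] at this))
    by_cases a : g ∈ S <;> by_cases b : h ∈ S
    · rw [if_pos a, if_pos b, if_pos (mul_mem a b), h1 n g a h b]
    · rw [if_pos a, if_neg b, if_neg (fun c => b ((S.mul_mem_cancel_left a).1 c)), mul_assoc,
        h1 n g a _ ((hS h hh).resolve_left b), mul_assoc]
    · have e : g * h * u = g * u * (u * h * u) := by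
        simp only [mul_assoc]; rw [← mul_assoc u u, hu, one_mul]
      rw [if_neg a, if_pos b, if_neg (fun c => a ((S.mul_mem_cancel_right b).1 c)), e,
        h1 n _ ((hS g hg).resolve_left a) _ (hn h b), mul_assoc, iv h b, mul_assoc]
    · have a' := (hS g hg).resolve_left a
      have b' := (hS h hh).resolve_left b
      have e : g * h = g * u * (u * (h * u) * u) := by
        simp only [mul_assoc]; rw [hu, mul_one, ← mul_assoc u u, hu, one_mul]
      rw [if_neg a, if_neg b, if_pos (e ▸ mul_mem a' (hn _ b')), e, h1 n _ a' _ (hn _ b'),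
        mul_assoc (ψ n (g * u)) (v n), ← mul_assoc (v n), ← iv _ b', mul_assoc _ (v n) (v n), hv1,
        mul_one]
  · by_cases a : g ∈ S
    · refine (h2 g a).trans (Cl.of_le tendsto_const_nhds (hev.mono fun n hn => ?_))
      simp only [if_pos hn, if_pos a, sub_self, norm_zero, le_refl]
    · have a' := (hS g hg).resolve_left a
      have b := hφ (g * u) u
      rw [mul_assoc, hu, mul_one] at b
      refine (b.trans ((h2 _ a').mul hv3.symm (fun n => nu _) (fun n => nu _))).trans
        (Cl.of_le tendsto_const_nhds (hev.mono fun n hn => ?_))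
      simp only [if_pos hn, if_neg a, Submonoid.coe_mul, sub_self, norm_zero, le_refl]

omit hφ in
theorem diag (S : ℕ → Subgroup G) [∀ m, Finite (S m)] (hS : ∀ m, Good φ (S m)) (r : ℕ → G →* G)
    (hr : ∀ m g, r m g ∈ S m) (hr' : ∀ g, ∃ m0, ∀ m, m0 ≤ m → g ∈ S m ∧ r m g = g) :
    ∃ ψ : ∀ n, G →* unitary (A n), ∀ g, Cl (fun n => (φ n g : A n)) (fun n => ψ n g) := by
  classical
  choose ψ h1 h2 using hS
  let P : ℕ → ℕ → Prop := fun n m => ∀ g : S m, ‖(φ n g : A n) - ψ m n g‖ ≤ 1 / ((m : ℝ) + 1)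
  have hP : ∀ m, ∀ᶠ n in atTop, P n m := fun m =>
    eventually_all.2 fun g => (h2 m g g.2).eventually (ge_mem_nhds (by positivity))
  let M : ℕ → ℕ := fun n => Nat.findGreatest (P n) n
  refine ⟨fun n => MonoidHom.mk' (fun g => ψ (M n) n (r (M n) g)) fun g h => by
    rw [map_mul, h1 _ _ _ (hr _ _) _ (hr _ _)], fun g => ?_⟩
  obtain ⟨m0, hm0⟩ := hr' g
  have hM : Tendsto M atTop atTop := tendsto_atTop.2 fun m =>
    ((hP m).and (eventually_ge_atTop m)).mono fun n hn => Nat.le_findGreatest hn.2 hn.1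
  refine Cl.of_le (tendsto_one_div_add_atTop_nhds_zero_nat.comp hM) ?_
  filter_upwards [hP m0, eventually_ge_atTop m0, tendsto_atTop.1 hM m0] with n a b c
  have := Nat.findGreatest_spec b a ⟨g, (hm0 _ c).1⟩
  simp only [MonoidHom.mk'_apply, (hm0 _ c).2]
  exact this
end fam

end Pool.Agent.H69.Ons
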