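import Pool.Agent.H69.Ons1

namespace Pool.Agent.H69.Ons
open Filter Topology

abbrev V : Type := ℕ →₀ ZMod 2

@[ext] structure HG where
  a : V
  b : V
  z : V

noncomputable instance : Mul HG := ⟨fun g h => ⟨g.a + h.a, g.b + h.b, g.z + h.z + g.a * h.b⟩⟩
instance : One HG := ⟨⟨0, 0, 0⟩⟩
noncomputable instance : Inv HG := ⟨fun g => ⟨-g.a, -g.b, -g.z + g.a * g.b⟩⟩
@[simp] theorem mul_a (g h : HG) : (g * h).a = g.a + h.a := rfl
@[simp] theorem mul_b (g h : HG) : (g * h).b = g.b + h.b := rfl
@[simp] theorem mul_z (g h : HG) : (g * h).z = g.z + h.z + g.a * h.b := rfl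
@[simp] theorem one_a : (1 : HG).a = 0 := rfl
@[simp] theorem one_b : (1 : HG).b = 0 := rfl
@[simp] theorem one_z : (1 : HG).z = 0 := rfl
@[simp] theorem inv_a (g : HG) : (g⁻¹).a = -g.a := rfl
@[simp] theorem inv_b (g : HG) : (g⁻¹).b = -g.b := rfl
@[simp] theorem inv_z (g : HG) : (g⁻¹).z = -g.z + g.a * g.b := rfl

theorem two (x : ZMod 2) : x + x = 0 := by revert x; decide

noncomputable instance : Group HG where
  mul_assoc a b c := by ext <;> simp <;> ring
  one_mul a := by ext <;> simp
  mul_one a := by ext <;> simp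
  inv_mul_cancel a := by ext <;> simp [two]

instance : Countable HG :=
  Function.Injective.countable (f := fun g : HG => (g.a, g.b, g.z)) fun g h e => by
    simp only [Prod.mk.injEq] at e; exact HG.ext e.1 e.2.1 e.2.2

theorem zo (x : ZMod 2) : x = 0 ∨ x + 1 = 0 := by revert x; decide

def SS (i j k : ℕ) (h : i ≤ k) : Subgroup HG where
  carrier := {g | (∀ t, i ≤ t → g.a t = 0) ∧ (∀ t, j ≤ t → g.b t = 0) ∧ ∀ t, k ≤ t → g.z t = 0}
  one_mem' := by simp
  mul_mem' := fun {x y} hx hy => ⟨fun t ht => by simp [hx.1 t ht, hy.1 t ht],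
    fun t ht => by simp [hx.2.1 t ht, hy.2.1 t ht],
    fun t ht => by simp [hx.2.2 t ht, hy.2.2 t ht, hx.1 t (h.trans ht)]⟩
  inv_mem' := fun {x} hx => ⟨fun t ht => by simp [hx.1 t ht],
    fun t ht => by simp [hx.2.1 t ht],
    fun t ht => by simp [hx.2.2 t ht, hx.1 t (h.trans ht)]⟩

theorem mem_SS {i j k : ℕ} {h : i ≤ k} {g : HG} : g ∈ SS i j k h ↔
    (∀ t, i ≤ t → g.a t = 0) ∧ (∀ t, j ≤ t → g.b t = 0) ∧ ∀ t, k ≤ t → g.z t = 0 := Iff.rfl

instance (i j k : ℕ) (h : i ≤ k) : Finite (SS i j k h) :=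
  Finite.of_injective (fun (g : SS i j k h) (t : Fin (i + j + k)) => (g.1.a t, g.1.b t, g.1.z t))
    fun g g' e => by
      have key : ∀ t, g.1.a t = g'.1.a t ∧ g.1.b t = g'.1.b t ∧ g.1.z t = g'.1.z t := by
        intro t
        by_cases ht : t < i + j + k
        · simpa using congrFun e ⟨t, ht⟩
        · rw [g.2.1 t (by omega), g'.2.1 t (by omega), g.2.2.1 t (by omega), g'.2.2.1 t (by omega),
            g.2.2.2 t (by omega), g'.2.2.2 t (by omega)]
          simp
      apply Subtype.ext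
      ext t
      exacts [(key t).1, (key t).2.1, (key t).2.2]

noncomputable def rr (m : ℕ) : HG →* HG :=
  MonoidHom.mk' (fun g => ⟨g.a.filter (· < m), g.b.filter (· < m), g.z.filter (· < m)⟩)
    fun g h => by ext t <;> by_cases ht : t < m <;> simp [Finsupp.filter_apply, ht]

theorem add_single (f : V) (i : ℕ) (h : ∀ t, i + 1 ≤ t → f t = 0) :
    (∀ t, i ≤ t → f t = 0) ∨ ∀ t, i ≤ t → f t + Finsupp.single i (1 : ZMod 2) t = 0 := by
  rcases zo (f i) with h0 | h0
  · left; intro t ht
    rcases ht.eq_or_lt with rfl | ht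
    · exact h0
    · exact h t ht
  · right; intro t ht
    rcases ht.eq_or_lt with rfl | ht
    · simpa using h0
    · rw [h t ht, Finsupp.single_eq_of_ne ht.ne', add_zero]

theorem stab {A : ℕ → Type} [∀ n, CStarAlgebra (A n)] (φ : ∀ n, HG → unitary (A n))
    (hφ : ∀ g h, Cl (fun n => (φ n (g * h) : A n)) (fun n => φ n g * φ n h)) :
    ∃ ψ : ∀ n, HG →* unitary (A n), ∀ g, Cl (fun n => (φ n g : A n)) (fun n => ψ n g) := by
  have h1 : ∀ k, Good φ (SS 0 0 k k.zero_le) := by
    intro k
    induction k with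
    | zero =>
      refine good_bot φ hφ _ fun g hg => ?_
      ext t
      exacts [hg.1 t t.zero_le, hg.2.1 t t.zero_le, hg.2.2 t t.zero_le]
    | succ k ih =>
      refine step φ hφ _ _ ⟨0, 0, Finsupp.single k 1⟩ (by ext <;> simp [two]) (fun s hs => ?_)
        (fun g hg => ?_) ih
      · exact ⟨fun t ht => by simp [hs.1 t ht], fun t ht => by simp [hs.2.1 t ht],
          fun t ht => by simp [hs.2.2 t ht, two]⟩
      · rcases add_single g.z k hg.2.2 with h | h
        · exact Or.inl ⟨hg.1, hg.2.1, h⟩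
        · exact Or.inr ⟨fun t ht => by simp [hg.1 t ht], fun t ht => by simp [hg.2.1 t ht],
            fun t ht => by simpa using h t ht⟩
  have h2 : ∀ k j, Good φ (SS 0 j k k.zero_le) := by
    intro k j
    induction j with
    | zero => exact h1 k
    | succ j ih =>
      refine step φ hφ _ _ ⟨0, Finsupp.single j 1, 0⟩ (by ext <;> simp [two]) (fun s hs => ?_)
        (fun g hg => ?_) ih
      · exact ⟨fun t ht => by simp [hs.1 t ht], fun t ht => by simp [hs.2.1 t ht, two],
          fun t ht => by simp [hs.2.2 t ht, hs.1 t t.zero_le]⟩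
      · rcases add_single g.b j hg.2.1 with h | h
        · exact Or.inl ⟨hg.1, h, hg.2.2⟩
        · exact Or.inr ⟨fun t ht => by simp [hg.1 t ht], fun t ht => by simpa using h t ht,
            fun t ht => by simp [hg.2.2 t ht, hg.1 t t.zero_le]⟩
  have h3 : ∀ k i (h : i ≤ k), Good φ (SS i k k h) := by
    intro k i
    induction i with
    | zero => exact fun _ => h2 k k
    | succ i ih =>
      intro h
      refine step φ hφ _ _ ⟨Finsupp.single i 1, 0, 0⟩ (by ext <;> simp [two]) (fun s hs => ?_)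
        (fun g hg => ?_) (ih (by omega))
      · exact ⟨fun t ht => by simp [hs.1 t ht, two], fun t ht => by simp [hs.2.1 t ht],
          fun t ht => by simp [hs.2.2 t ht, hs.2.1 t ht]⟩
      · rcases add_single g.a i hg.1 with h | h
        · exact Or.inl ⟨h, hg.2.1, hg.2.2⟩
        · exact Or.inr ⟨fun t ht => by simpa using h t ht, fun t ht => by simp [hg.2.1 t ht],
            fun t ht => by simp [hg.2.2 t ht]⟩
  refine diag φ (fun m => SS m m m le_rfl) (fun m => h3 m m le_rfl) rr (fun m g => ?_) fun g => ?_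
  · refine ⟨fun t ht => ?_, fun t ht => ?_, fun t ht => ?_⟩ <;>
      simp [rr, Finsupp.filter_apply, not_lt.2 ht]
  · obtain ⟨N, hN⟩ := (g.a.support ∪ g.b.support ∪ g.z.support).bddAbove
    have key : ∀ t, N + 1 ≤ t → g.a t = 0 ∧ g.b t = 0 ∧ g.z t = 0 := by
      intro t ht
      have : t ∉ g.a.support ∪ g.b.support ∪ g.z.support := fun h => by
        have := hN h; omega
      simpa [and_assoc] using this
    refine ⟨N + 1, fun m hm => ⟨⟨fun t ht => (key t (by omega)).1, fun t ht => (key t (by omega)).2.1,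
      fun t ht => (key t (by omega)).2.2⟩, ?_⟩⟩
    have k2 : ∀ t, m ≤ t → g.a t = 0 ∧ g.b t = 0 ∧ g.z t = 0 := fun t ht => key t (by omega)
    ext t <;> simp only [rr, MonoidHom.mk'_apply, Finsupp.filter_apply] <;> split_ifs with ht <;>
      first | rfl | simp [k2 t (not_lt.1 ht)]

open scoped Matrix.Norms.L2Operator

theorem HG_stable : Stable HG := fun k _ φ hφ => stab (A := fun n => Matrix (Fin (k n)) (Fin (k n)) ℂ) φ hφ

noncomputable def sg : V →+ ZMod 2 := Finsupp.liftAddHom fun _ => AddMonoidHom.id _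

noncomputable def th : Bool → V →+ V
  | true => AddMonoidHom.id _
  | false => AddMonoidHom.id _ + (Finsupp.singleAddHom 0).comp (sg + Finsupp.applyAddHom 0)

noncomputable def io (i : Bool) : Multiplicative V →* HG :=
  MonoidHom.mk' (fun z => ⟨0, 0, th i z.toAdd⟩) fun x y => by ext <;> simp

theorem sg_eq (z : V) (n : ℕ) (h : ∀ t, n + 1 ≤ t → z t = 0) : sg z = ∑ t : Fin (n + 1), z t := by
  rw [Fin.sum_univ_eq_sum_range (fun t => z t)]
  simp only [sg, Finsupp.liftAddHom_apply, AddMonoidHom.id_apply]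
  refine Finsupp.sum_of_support_subset _ (fun t ht => ?_) _ (by simp)
  rw [Finset.mem_range]; by_contra hc
  exact Finsupp.mem_support_iff.1 ht (h t (by omega))

theorem io_inj (i : Bool) : Function.Injective (io i) := by
  rw [injective_iff_map_eq_one]
  intro z hz
  have h : th i z.toAdd = 0 := congrArg HG.z hz
  cases i
  · have h1 : ∀ t, 0 + 1 ≤ t → z.toAdd t = 0 := fun t ht => by
      simpa [th, Finsupp.single_eq_of_ne (show t ≠ 0 by omega)] using DFunLike.congr_fun h t
    have h2 := DFunLike.congr_fun h 0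
    simp [th, sg_eq _ 0 h1, two] at h2
    change z.toAdd = 0
    ext t
    rcases Nat.eq_zero_or_pos t with rfl | ht
    · exact h2
    · exact h1 t ht
  · exact h

theorem io_cent (i : Bool) (z : Multiplicative V) : io i z ∈ Subgroup.center HG := by
  rw [Subgroup.mem_center_iff]
  intro g; ext <;> simp [io, add_comm]

abbrev XX (n : ℕ) : Type := (Fin (n + 1) → ZMod 2) × ZMod 2

def cc (n : ℕ) : Bool → Fin (n + 1) → ZMod 2
  | true => Pi.single 0 1
  | false => fun _ => 1

noncomputable def act (n : ℕ) (i : Bool) : HG →* Equiv.Perm (XX n) :=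
  MonoidHom.toHomPerm (MonoidHom.mk (OneHom.mk
    (fun (g : HG) (p : XX n) => (fun t => p.1 t + g.b t,
      p.2 + ∑ t : Fin (n + 1), cc n i t * (g.z t + g.a t * p.1 t)))
    (by funext p; simp; rfl)) (fun g h => by
      funext p
      simp only [Function.End.mul_def, Function.comp_apply, mul_a, mul_b, mul_z, Finsupp.add_apply,
        Finsupp.mul_apply, Prod.mk.injEq, add_assoc, add_right_inj, ← Finset.sum_add_distrib]
      exact ⟨by funext t; ring, Finset.sum_congr rfl fun t _ => by ring⟩))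

theorem act_io (n : ℕ) (i : Bool) (z : Multiplicative V) (h : ∀ t, n + 1 ≤ t → z.toAdd t = 0)
    (p : XX n) : act n i (io i z) p = (p.1, p.2 + z.toAdd 0) := by
  have : ∑ t : Fin (n + 1), cc n i t * (th i z.toAdd) t = z.toAdd 0 := by
    cases i
    · simp only [cc, th, one_mul, AddMonoidHom.add_apply, AddMonoidHom.id_apply, Finsupp.add_apply,
        Finset.sum_add_distrib, ← sg_eq _ n h]
      rw [Finset.sum_eq_single 0 (fun t _ ht => by
        simp [Finsupp.single_eq_of_ne (show (t : ℕ) ≠ 0 from fun e => ht (Fin.ext e))]) (by simp)]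
      simp [← add_assoc, two]
    · simp [cc, th, Pi.single_apply]
  simp [act, io, this]

abbrev kk (n : ℕ) : ℕ := Fintype.card (XX n)
abbrev UU (n : ℕ) : Type := Matrix.unitaryGroup (Fin (kk n)) ℂ

noncomputable def rep (n : ℕ) : Equiv.Perm (XX n) →* UU n :=
  (Matrix.permMatrixHom.codRestrict (Matrix.unitaryGroup (Fin (kk n)) ℂ) fun σ => by
    rw [Matrix.mem_unitaryGroup_iff, Matrix.star_eq_conjTranspose]
    simp [Matrix.permMatrixHom, ← Matrix.permMatrix_mul]).comp
    (Fintype.equivFin (XX n)).permCongrHom.toMonoidHom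

theorem rep_inj (n : ℕ) : Function.Injective (rep n) := by
  rw [injective_iff_map_eq_one]
  intro σ h
  have h1 : ∀ x, ((Fintype.equivFin (XX n)).permCongrHom σ)⁻¹ x = x := by
    intro x
    have := congrFun (congrFun (congrArg Subtype.val h) x) x
    simpa [rep, Matrix.permMatrixHom, Equiv.Perm.permMatrix, PEquiv.toMatrix_apply] using this
  have : ((Fintype.equivFin (XX n)).permCongrHom σ)⁻¹ = 1 := Equiv.ext h1
  exact (map_eq_one_iff _ (MulEquiv.injective _)).1 (inv_eq_one.1 this)

def NN : Subgroup (∀ n, UU n) where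
  carrier := {x | ∀ᶠ n in atTop, x n = 1}
  one_mem' := Eventually.of_forall fun _ => rfl
  mul_mem' := fun {x y} hx hy => (Eventually.and hx hy).mono fun n h => by simp [h.1, h.2]
  inv_mem' := fun {x} hx => Eventually.mono hx fun n h => by simp [h]

instance : NN.Normal := ⟨fun x hx g => Eventually.mono hx fun n h => by simp [h]⟩

theorem ev_supp (z : V) : ∀ᶠ n in atTop, ∀ t, n + 1 ≤ t → z t = 0 := by
  obtain ⟨N, hN⟩ := z.support.bddAbove
  filter_upwards [eventually_ge_atTop N] with n hn t ht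
  by_contra hc
  have := hN (Finsupp.mem_support_iff.2 hc); omega

theorem kill {k : ℕ} (ψ : Bool → HG →* Matrix.unitaryGroup (Fin k) ℂ) :
    ∃ j, 0 < j ∧ ∀ i, ψ i ⟨0, 0, Finsupp.single j 1⟩ = 1 := by
  haveI : ProperSpace (Matrix (Fin k) (Fin k) ℂ) := FiniteDimensional.proper ℂ _
  let x : ℕ → Bool → Matrix (Fin k) (Fin k) ℂ := fun j i => (ψ i ⟨Finsupp.single j 1, 0, 0⟩).1
  obtain ⟨a, -, f, hf, hl⟩ := tendsto_subseq_of_bounded (Metric.isBounded_closedBall (x := 0) (r := 1))
    (x := x) fun j => by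
      rw [mem_closedBall_zero_iff, pi_norm_le_iff_of_nonneg zero_le_one]
      exact fun i => nu _
  obtain ⟨N, hN⟩ := Metric.cauchySeq_iff.1 hl.cauchySeq (1 / 2) (by norm_num)
  have hd := hN (N + 1) (by omega) N le_rfl
  have hlt : f N < f (N + 1) := hf (by omega)
  refine ⟨f (N + 1), by omega, fun i => ?_⟩
  have h1 : ‖x (f (N + 1)) i - x (f N) i‖ < 1 / 2 := by
    rw [← dist_eq_norm]; exact (dist_le_pi_dist _ _ i).trans_lt hd
  generalize f (N + 1) = p at *
  generalize f N = q at *
  let w : HG := ⟨Finsupp.single p 1, 0, 0⟩ * ⟨Finsupp.single q 1, 0, 0⟩⁻¹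
  let b : HG := ⟨0, Finsupp.single p 1, 0⟩
  have e : (⟨0, 0, Finsupp.single p 1⟩ : HG) * (b * w) = w * b := by
    ext t <;> simp [w, b, Finsupp.single_apply]
    split_ifs <;> first | omega | simp
  have h2 : ‖(ψ i w).1 - 1‖ < 1 / 2 := by
    have : (ψ i w).1 - 1 = (x p i - x q i) * (ψ i ⟨Finsupp.single q 1, 0, 0⟩⁻¹).1 := by
      rw [sub_mul]
      simp only [x, w, ← Submonoid.coe_mul, ← map_mul, mul_inv_cancel, map_one, OneMemClass.coe_one]
    rw [this]
    exact ((norm_mul_le _ _).trans (mul_le_of_le_one_right (norm_nonneg _) (nu _))).trans_lt h1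
  refine inv_one _ (by rw [← map_mul, ← map_one (ψ i)]; congr 1; ext <;> simp [two]) ?_
  have e2 : (ψ i ⟨0, 0, Finsupp.single p 1⟩).1 - 1 =
      (((ψ i w).1 - 1) * (ψ i b).1 - (ψ i b).1 * ((ψ i w).1 - 1)) * (ψ i (b * w)⁻¹).1 := by
    have : ((ψ i w).1 - 1) * (ψ i b).1 - (ψ i b).1 * ((ψ i w).1 - 1) =
      (ψ i (w * b)).1 - (ψ i (b * w)).1 := by simp only [map_mul, Submonoid.coe_mul]; noncomm_ring
    rw [this, sub_mul]
    simp only [← Submonoid.coe_mul, ← map_mul, mul_inv_cancel, map_one, OneMemClass.coe_one, ← e,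
      mul_inv_cancel_right]
  rw [e2]
  refine ((norm_mul_le _ _).trans (mul_le_of_le_one_right (norm_nonneg _) (nu _))).trans_lt ?_
  have a1 := (norm_mul_le ((ψ i w).1 - 1) (ψ i b).1).trans
    (mul_le_of_le_one_right (norm_nonneg _) (nu _))
  have a2 := (norm_mul_le (ψ i b).1 ((ψ i w).1 - 1)).trans
    (mul_le_of_le_one_left (norm_nonneg _) (nu _))
  linarith [norm_sub_le (((ψ i w).1 - 1) * (ψ i b).1) ((ψ i b).1 * ((ψ i w).1 - 1))]

theorem not_stable : ¬ Stable (Monoid.PushoutI (G := fun _ : Bool => HG) io) := by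
  intro hs
  let f : Bool → HG →* (∀ n, UU n) ⧸ NN := fun i =>
    (QuotientGroup.mk' NN).comp (Pi.monoidHom fun n => (rep n).comp (act n i))
  have hf : ∀ i, (f i).comp (io i) = (f true).comp (io true) := by
    intro i; refine MonoidHom.ext fun z => ?_
    refine QuotientGroup.eq.2 ((ev_supp z.toAdd).mono fun n hn => ?_)
    have : act n i (io i z) = act n true (io true z) := Equiv.ext fun p => by
      rw [act_io n i z hn, act_io n true z hn]
    change (rep n (act n i (io i z)))⁻¹ * rep n (act n true (io true z)) = 1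
    rw [this, inv_mul_cancel]
  let Φ := Monoid.PushoutI.lift (G := fun _ : Bool => HG) (φ := io) f _ hf
  obtain ⟨ψ, hψ⟩ := hs kk (fun n => Fintype.card_pos) (fun n g => (Φ g).out n) (fun g h => by
    have : ((Φ (g * h)).out)⁻¹ * ((Φ g).out * (Φ h).out) ∈ NN := by
      rw [← QuotientGroup.eq]; simp
    refine tendsto_const_nhds.congr' (Eventually.mono this fun n hn => ?_)
    rw [Pi.mul_apply, Pi.inv_apply, inv_mul_eq_one] at hn
    dsimp only
    rw [hn]; simp)
  let e0 : Multiplicative V := Multiplicative.ofAdd (Finsupp.single 0 1)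
  let z0 := Monoid.PushoutI.base (G := fun _ : Bool => HG) io e0
  have h1 : ∀ n, ψ n z0 = 1 := by
    intro n
    obtain ⟨j, hj, h⟩ := kill fun i => (ψ n).comp (Monoid.PushoutI.of (φ := io) i)
    let ej : Multiplicative V := Multiplicative.ofAdd (Finsupp.single j 1)
    have a : ψ n (Monoid.PushoutI.base (G := fun _ : Bool => HG) io ej) = 1 := by
      rw [← Monoid.PushoutI.of_apply_eq_base _ true]; exact h true
    have b : ψ n (Monoid.PushoutI.base (G := fun _ : Bool => HG) io (e0 * ej)) = 1 := by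
      rw [← Monoid.PushoutI.of_apply_eq_base _ false, ← h false]
      change ψ n (Monoid.PushoutI.of false _) = ψ n (Monoid.PushoutI.of false _)
      congr 2
      have s1 : ∀ t, sg (Finsupp.single t 1) = 1 := fun t => by simp [sg]
      ext t <;> simp [io, th, e0, ej, s1, Finsupp.single_apply, hj.ne']
      split_ifs <;> first | omega | decide
    rwa [map_mul, map_mul, a, mul_one] at b
  have h2 : ((Φ z0).out)⁻¹ * (fun n => rep n (act n true (io true e0))) ∈ NN := by
    rw [← QuotientGroup.eq]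
    simp only [QuotientGroup.out_eq', Φ, z0, Monoid.PushoutI.lift_base]; rfl
  obtain ⟨n, a, b⟩ := (Eventually.and h2 ((hψ z0).eventually (gt_mem_nhds two_pos))).exists
  rw [Pi.mul_apply, Pi.inv_apply, inv_mul_eq_one] at a
  rw [a, h1] at b
  have c := inv_one _ (by
    rw [← map_mul, ← map_mul, ← map_mul]
    have : e0 * e0 = 1 := by
      change (Finsupp.single 0 1 + Finsupp.single 0 1 : V) = 0
      ext t; simp [two]
    rw [this]; simp) b
  have d := congrArg Prod.snd (Equiv.congr_fun (rep_inj n (c.trans (map_one _).symm)) (0, 0))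
  rw [act_io n true e0 (fun t ht => Finsupp.single_eq_of_ne (by omega))] at d
  simp [e0] at d

end Pool.Agent.H69.Ons
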