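import Mathlib

namespace Pool.Agent.H69.Ons
open Filter Topology
open scoped Matrix.Norms.L2Operator

/-- operator norm stability (matricial stability); `‖·‖` is the `ℓ²` operator norm -/
def Stable (G : Type) [Group G] : Prop :=
  ∀ (k : ℕ → ℕ), (∀ n, 0 < k n) → ∀ φ : ∀ n, G → Matrix.unitaryGroup (Fin (k n)) ℂ,
    (∀ g h : G, Tendsto (fun n => ‖(φ n (g * h)).1 - (φ n g).1 * (φ n h).1‖) atTop (𝓝 0)) →
    ∃ ψ : ∀ n, G →* Matrix.unitaryGroup (Fin (k n)) ℂ,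
      ∀ g : G, Tendsto (fun n => ‖(φ n g).1 - (ψ n g).1‖) atTop (𝓝 0)

end Pool.Agent.H69.Ons
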