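import Pool.Agent.H69.Pet2

set_option autoImplicit false

namespace Pool.Agent.H69.Ore

open Finset

def PB {G : Type} [Group G] (A : Finset G) (n : ℕ) : Set G :=
  {g : G | ∃ l : List G, (∀ x ∈ l, x ∈ A) ∧ l.length ≤ n ∧ l.prod = g}

variable {G : Type} [Group G]

theorem PB_mul {A : Finset G} {n m : ℕ} {x y : G} (hx : x ∈ PB A n) (hy : y ∈ PB A m) :
    x * y ∈ PB A (n + m) := by
  obtain ⟨l, a, b, rfl⟩ := hx
  obtain ⟨l', a', b', rfl⟩ := hy
  refine ⟨l ++ l', fun x hx => (List.mem_append.1 hx).elim (a x) (a' x), by simp; omega, by simp⟩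

theorem PB_ex {A : Finset G} {s : G} (hs : s ∈ Subsemigroup.closure (A : Set G)) :
    ∃ n, s ∈ PB A n := by
  induction hs using Subsemigroup.closure_induction with
  | mem x hx => exact ⟨1, [x], by simpa using hx, by simp, by simp⟩
  | mul x y _ _ hx hy =>
    obtain ⟨n, hn⟩ := hx
    obtain ⟨m, hm⟩ := hy
    exact ⟨_, PB_mul hn hm⟩

theorem PB_mono {A : Finset G} {n m : ℕ} (h : n ≤ m) : PB A n ⊆ PB A m :=
  fun _ ⟨l, a, b, c⟩ => ⟨l, a, b.trans h, c⟩

theorem PB_fin (A : Finset G) (n : ℕ) : (PB A n).Finite :=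
  (Pet.Bl_fin A n).subset fun _ ⟨l, a, b, c⟩ => ⟨l, b, fun x hx => Or.inl (a x hx), c⟩

omit [Group G] in
theorem two_pow_le (f : List Bool → G) (n : ℕ) (B : Set G) (hB : B.Finite)
    (h1 : ∀ l l', l.length = n → l'.length = n → f l = f l' → l = l')
    (h2 : ∀ l, l.length = n → f l ∈ B) : 2 ^ n ≤ B.ncard := by
  have := Set.ncard_le_ncard_of_injOn (s := (Set.univ : Set (List.Vector Bool n))) (fun l => f l.1)
    (fun l _ => h2 _ l.2) (fun l _ l' _ h => Subtype.ext (h1 _ _ l.2 l'.2 h)) hB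
  simpa [Set.ncard_univ] using this

theorem ore (A : Finset G) (hA : ∀ c : ℝ, 1 < c → ∃ N : ℕ, ∀ n ≥ N, ((PB A n).ncard : ℝ) ≤ c ^ n)
    (s t : G) (hs : s ∈ Subsemigroup.closure (A : Set G)) (ht : t ∈ Subsemigroup.closure (A : Set G)) :
    ∃ u ∈ Subsemigroup.closure (A : Set G), ∃ v ∈ Subsemigroup.closure (A : Set G), u * s = v * t := by
  by_contra hc
  push Not at hc
  obtain ⟨a, ha⟩ := PB_ex hs
  obtain ⟨b, hb⟩ := PB_ex ht
  let f : List Bool → G := fun l => l.foldr (fun x g => g * if x then s else t) 1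
  have f1 : ∀ l, s * f l ∈ Subsemigroup.closure (A : Set G) := by
    intro l
    induction l with
    | nil => simpa [f] using hs
    | cons x l ih =>
      simp only [f, List.foldr_cons, ← mul_assoc]
      refine mul_mem ih ?_
      split_ifs <;> assumption
  have f2 : ∀ l l' : List Bool, l.length = l'.length → f l = f l' → l = l' := by
    intro l
    induction l with
    | nil => intro l' h _; exact (List.length_eq_zero_iff.1 h.symm).symm
    | cons x l ih =>
      rintro (_ | ⟨y, l'⟩) h e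
      · simp at h
      change f l * _ = f l' * _ at e
      cases x <;> cases y
      · rw [ih l' (by simpa using h) (mul_right_cancel e)]
      · exact absurd (by simpa [mul_assoc] using e.symm) (hc _ (f1 l') _ (f1 l))
      · exact absurd (by simpa [mul_assoc] using e) (hc _ (f1 l) _ (f1 l'))
      · rw [ih l' (by simpa using h) (mul_right_cancel e)]
  have f3 : ∀ l, f l ∈ PB A ((a + b + 1) * l.length) := by
    intro l
    induction l with
    | nil => exact ⟨[], by simp, by simp, rfl⟩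
    | cons x l ih =>
      refine PB_mul ih ?_
      split_ifs
      · exact PB_mono (by omega) ha
      · exact PB_mono (by omega) hb
  obtain ⟨N, hN⟩ := hA ((3 / 2) ^ (1 / (a + b + 1 : ℕ) : ℝ))
    (Real.one_lt_rpow (by norm_num) (by positivity))
  have h1 := hN ((a + b + 1) * (N + 1)) (by nlinarith)
  rw [pow_mul, one_div, Real.rpow_inv_natCast_pow (by norm_num) (by omega)] at h1
  have h2 := two_pow_le f (N + 1) _ (PB_fin A ((a + b + 1) * (N + 1)))
    (fun l l' h h' => f2 l l' (h.trans h'.symm)) (fun l h => h ▸ f3 l)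
  have h3 : ((2 : ℝ)) ^ (N + 1) ≤ (3 / 2) ^ (N + 1) := le_trans (by exact_mod_cast h2) h1
  exact absurd h3 (not_le.2 (pow_lt_pow_left₀ (by norm_num) (by norm_num) (by omega)))

theorem quot (A : Finset G) (hA : ∀ c : ℝ, 1 < c → ∃ N : ℕ, ∀ n ≥ N, ((PB A n).ncard : ℝ) ≤ c ^ n)
    (hG : Subgroup.closure (A : Set G) = ⊤) (a : G) (ha : a ∈ A) (g : G) :
    ∃ s ∈ Subsemigroup.closure (A : Set G), ∃ t ∈ Subsemigroup.closure (A : Set G), g = s⁻¹ * t := by
  have h0 : a ∈ Subsemigroup.closure (A : Set G) := Subsemigroup.subset_closure ha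
  have hg : g ∈ Subgroup.closure (A : Set G) := hG ▸ Subgroup.mem_top g
  induction hg using Subgroup.closure_induction with
  | mem x hx => exact ⟨a, h0, a * x, mul_mem h0 (Subsemigroup.subset_closure hx), by simp⟩
  | one => exact ⟨a, h0, a, h0, by simp⟩
  | mul x y _ _ hx hy =>
    obtain ⟨s, hs, t, ht, rfl⟩ := hx
    obtain ⟨s', hs', t', ht', rfl⟩ := hy
    obtain ⟨u, hu, v, hv, e⟩ := ore A hA t s' ht hs'
    refine ⟨u * s, mul_mem hu hs, v * t', mul_mem hv ht', ?_⟩
    rw [show v = u * t * s'⁻¹ by rw [e]; simp]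
    group
  | inv x _ hx =>
    obtain ⟨s, hs, t, ht, rfl⟩ := hx
    exact ⟨t, ht, s, hs, by simp⟩

theorem lists {α : Type} (w : α → ℝ) (h0 : ∀ a, 0 ≤ w a) (h : ∀ S : Finset α, ∑ a ∈ S, w a ≤ 1 / 2)
    (F : Finset (List α)) : ∑ u ∈ F, (u.map w).prod ≤ 2 := by
  classical
  have p0 : ∀ u : List α, 0 ≤ (u.map w).prod := fun u => List.prod_nonneg (by simp [h0])
  obtain ⟨n, hn⟩ : ∃ n, ∀ u ∈ F, u.length < n :=
    ⟨F.sup List.length + 1, fun u hu => Nat.lt_succ_of_le (Finset.le_sup (f := List.length) hu)⟩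
  induction n generalizing F with
  | zero => rw [Finset.eq_empty_of_forall_notMem (s := F) fun u hu => by simpa using hn u hu]; simp
  | succ n ih =>
    let F' := (F.erase []).image List.tail
    let S := F.biUnion List.toFinset
    have a1 : F ⊆ insert [] ((S ×ˢ F').image fun x => x.1 :: x.2) := by
      rintro (_ | ⟨a, u⟩) hu
      · simp
      · refine mem_insert_of_mem (mem_image.2 ⟨(a, u), mem_product.2 ⟨?_, ?_⟩, rfl⟩)
        · exact mem_biUnion.2 ⟨_, hu, by simp⟩
        · exact mem_image.2 ⟨a :: u, by simpa using hu, rfl⟩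
    refine (Finset.sum_le_sum_of_subset_of_nonneg a1 fun _ _ _ => p0 _).trans ?_
    rw [Finset.sum_insert (by simp), Finset.sum_image (by
      rintro ⟨a, u⟩ _ ⟨b, v⟩ _ e; simpa using e), Finset.sum_product]
    simp only [List.map_cons, List.prod_cons, ← Finset.mul_sum, ← Finset.sum_mul]
    have a2 := ih F' (by
      intro u hu
      obtain ⟨v, hv, rfl⟩ := mem_image.1 hu
      have := hn v (mem_of_mem_erase hv)
      have := List.length_pos_iff.2 (ne_of_mem_erase hv)
      simp; omega)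
    have := mul_le_mul (h S) a2 (Finset.sum_nonneg fun _ _ => p0 _) (by norm_num)
    simp only [List.map_nil, List.prod_nil]
    linarith

end Pool.Agent.H69.Ore
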