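import Pool.Agent.H69.Ore1

set_option autoImplicit false

namespace Pool.Agent.H69.Ore

open Finset

def xx (k : ℕ) : ℕ := k.unpair.1.unpair.1
def yy (k : ℕ) : ℕ := k.unpair.1.unpair.2

def mm : ℕ → ℕ
  | 0 => 0
  | k + 1 => xx k + yy k - 1

abbrev R (k : ℕ) := ZMod (mm k + 2)

instance (k : ℕ) : Fact (1 < mm k + 2) := ⟨by omega⟩

abbrev Z3 := ℤ × ℤ × ℤ
abbrev N3 := ℕ × ℕ × ℕ

def om (k : ℕ) (β : Z3) : R (k + 1) := ((-yy k * β.1 - (yy k + 1) * β.2.1 : ℤ) : R (k + 1))

theorem om_add (k : ℕ) (β γ : Z3) : om k (β + γ) = om k β + om k γ := by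
  simp only [om, Prod.fst_add, Prod.snd_add]; push_cast; ring

def up (β : N3) : Z3 := (β.1, β.2.1, β.2.2)

theorem up_add (β γ : N3) : up (β + γ) = up β + up γ := by simp [up]

theorem kill (β : N3) (k0 : ℕ) : ∃ k ≥ k0, om k (up β) = 0 := by
  refine ⟨Nat.pair (Nat.pair β.1 β.2.1) k0, Nat.right_le_pair _ _, ?_⟩
  rw [om, ZMod.intCast_zmod_eq_zero_iff_dvd]
  simp only [mm, xx, yy, Nat.unpair_pair, up]
  rcases Nat.eq_zero_or_pos (β.1 + β.2.1) with h | h
  · rw [show β.1 = 0 by omega, show β.2.1 = 0 by omega]; simp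
  · rw [show β.1 + β.2.1 - 1 + 2 = β.1 + β.2.1 + 1 by omega]
    exact ⟨-β.2.1, by push_cast; ring⟩

def T : ℕ → ℕ → Type
  | _, 0 => ZMod 2
  | k, N + 1 => R k × T (k + 1) N

def A (k : ℕ) : (N : ℕ) → R k → Equiv.Perm (T k N)
  | 0, _ => 1
  | _ + 1, e => Equiv.prodCongr (Equiv.addRight e) (Equiv.refl _)

def B : (N k : ℕ) → Z3 → Equiv.Perm (T k N)
  | 0, _, β => (Equiv.addRight (β.2.2 : ZMod 2) : Equiv.Perm (ZMod 2))
  | N + 1, k, β => Equiv.prodCongrRight fun x : R k =>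
      if x = 0 then B N (k + 1) β else if x = 1 then A (k + 1) N (om k β) else 1

theorem A_app (k N : ℕ) (e x : R k) (v : T (k + 1) N) : A k (N + 1) e (x, v) = (x + e, v) := rfl

theorem B_app (k N : ℕ) (β : Z3) (x : R k) (v : T (k + 1) N) : B (N + 1) k β (x, v) =
    (x, (if x = 0 then B N (k + 1) β else if x = 1 then A (k + 1) N (om k β) else 1) v) := rfl

theorem A_add (k N : ℕ) (e f : R k) : A k N (e + f) = A k N e * A k N f := by
  cases N with
  | zero => rfl
  | succ N =>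
    ext1 ⟨x, v⟩
    rw [Equiv.Perm.mul_apply, A_app, A_app, A_app, add_right_comm, add_assoc]

theorem A_zero (k N : ℕ) : A k N 0 = 1 := by simpa using A_add k N 0 0

theorem B_add (N : ℕ) : ∀ k (β γ : Z3), B N k (β + γ) = B N k β * B N k γ := by
  induction N with
  | zero =>
    intro k β γ
    refine Equiv.ext fun x : ZMod 2 => ?_
    show x + ((β + γ).2.2 : ZMod 2) = x + γ.2.2 + β.2.2
    simp only [Prod.snd_add]; push_cast; ring
  | succ N ih =>
    intro k β γ
    ext1 ⟨x, v⟩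
    rw [Equiv.Perm.mul_apply, B_app, B_app, B_app, ih, om_add, A_add]
    split_ifs <;> rfl

abbrev P (k : ℕ) := ∀ N, Equiv.Perm (T k N)

abbrev Wd := List (N3 ⊕ N3)

def ex : (k : ℕ) → N3 → R k
  | 0, _ => 1
  | k + 1, γ => om k (up γ)

def lt (k : ℕ) : N3 ⊕ N3 → P k
  | .inl γ => fun N => A k N (ex k γ)
  | .inr β => fun N => B N k (up β)

def ev (k : ℕ) (u : Wd) : P k := (u.map (lt k)).prod

theorem ev_cons (k : ℕ) (l : N3 ⊕ N3) (u : Wd) : ev k (l :: u) = lt k l * ev k u := by simp [ev]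

def tot (k : ℕ) : Wd → R k
  | [] => 0
  | .inl γ :: u => tot k u + ex k γ
  | .inr _ :: u => tot k u

def cns (β : N3) : Wd → Wd
  | .inr γ :: w => .inr (β + γ) :: w
  | w => .inr β :: w

theorem ev_cns (k : ℕ) (β : N3) (w : Wd) : ev k (cns β w) = lt k (.inr β) * ev k w := by
  rcases w with _ | ⟨γ | γ, w⟩
  · exact ev_cons _ _ _
  · exact ev_cons _ _ _
  · simp only [cns, ev_cons, ← mul_assoc]
    congr 1
    funext N
    simp only [lt, up_add, B_add, Pi.mul_apply]

def sec (k : ℕ) : Wd → R k → Wd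
  | [], _ => []
  | .inl _ :: u, x => sec k u x
  | .inr β :: u, x => if x + tot k u = 0 then cns β (sec k u x) else
      if x + tot k u = 1 ∧ om k (up β) ≠ 0 then .inl β :: sec k u x else sec k u x

theorem ev_sec (k N : ℕ) (x : R k) (v : T (k + 1) N) (u : Wd) :
    ev k u (N + 1) (x, v) = (x + tot k u, ev (k + 1) (sec k u x) N v) := by
  induction u with
  | nil => simp [ev, tot, sec]
  | cons l u ih =>
    rw [ev_cons, Pi.mul_apply, Equiv.Perm.mul_apply, ih]
    rcases l with γ | β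
    · simp only [lt, A_app, tot, sec, add_assoc]
    · simp only [lt, B_app, tot, sec]
      congr 1
      by_cases h0 : x + tot k u = 0
      · simp only [h0, if_true, ev_cns]; rfl
      · by_cases h1 : x + tot k u = 1
        · by_cases h2 : om k (up β) = 0
          · simp [h0, h1, h2, A_zero]
          · simp only [if_neg h0, if_pos h1, if_pos (And.intro h1 h2), ev_cons]; rfl
        · simp [h0, h1]

def Ph (φ : N3 → ℝ) : Wd → ℝ
  | [] => 0
  | .inl _ :: u => Ph φ u
  | .inr β :: u => φ β + Ph φ u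

theorem sec_sum (k : ℕ) (φ α γ : N3 → ℝ) (Ψ : Wd → ℝ) (h0 : Ψ [] ≤ 0)
    (h1 : ∀ β w, Ψ (cns β w) ≤ Ψ w + α β) (h2 : ∀ β w, Ψ (.inl β :: w) ≤ Ψ w + γ β)
    (h3 : ∀ β, α β + (if om k (up β) = 0 then 0 else γ β) ≤ φ β) (u : Wd) :
    ∑ x, Ψ (sec k u x) ≤ Ph φ u := by
  induction u with
  | nil => exact Finset.sum_nonpos fun _ _ => h0
  | cons l u ih =>
    rcases l with β | β
    · exact ih
    · have : ∀ x, Ψ (sec k (.inr β :: u) x) ≤ Ψ (sec k u x) + ((if x = -tot k u then α β else 0) +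
          if x = 1 - tot k u then (if om k (up β) = 0 then 0 else γ β) else 0) := by
        intro x
        simp only [sec, ← add_eq_zero_iff_eq_neg, ← eq_sub_iff_add_eq.symm]
        by_cases a0 : x + tot k u = 0
        · simpa [a0] using h1 β _
        · by_cases a1 : x + tot k u = 1
          · by_cases a2 : om k (up β) = 0
            · simp [a0, a2]
            · simpa [a0, a1, a2] using h2 β _
          · simp [a0, a1]
      refine (Finset.sum_le_sum fun x _ => this x).trans ?_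
      simp only [Finset.sum_add_distrib, Finset.sum_ite_eq', mem_univ, if_true, Ph]
      linarith [h3 β]

def HH (t : ℝ) (k : ℕ) (Φ : Wd → ℝ) : Prop := ∃ C : ℝ, ∀ (F : Finset (P k)) (r : P k → Wd),
  (∀ g ∈ F, ev k (r g) = g) → ∑ g ∈ F, Real.exp (-(t * Φ (r g))) ≤ C

theorem step (t : ℝ) (ht : 0 ≤ t) (k : ℕ) (Φ Φ' : Wd → ℝ) (c : ℝ)
    (h : ∀ u, ∑ x, Φ' (sec k u x) ≤ Φ u + c) (H : HH t (k + 1) Φ') : HH t k Φ := by
  classical
  obtain ⟨C, hC⟩ := H
  haveI : Finite (Equiv.Perm (T k 0)) := inferInstanceAs (Finite (Equiv.Perm (ZMod 2)))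
  letI := Fintype.ofFinite (Equiv.Perm (T k 0) × R k)
  refine ⟨Fintype.card (Equiv.Perm (T k 0) × R k) * (Real.exp (t * c) * C ^ Fintype.card (R k)),
    fun F r hr => ?_⟩
  let E : Finset Wd := (F ×ˢ univ).image fun p : P k × R k => sec k (r p.1) p.2
  have a1 : ∀ h : P (k + 1), ∃ w : Wd, h ∈ E.image (ev (k + 1)) →
      ev (k + 1) w = h ∧ ∀ w' ∈ E, ev (k + 1) w' = h → Φ' w ≤ Φ' w' := by
    intro h
    by_cases hh : h ∈ E.image (ev (k + 1))
    · obtain ⟨w, hw, e⟩ := mem_image.1 hh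
      obtain ⟨w, b1, b2⟩ := Finset.exists_min_image (E.filter fun w => ev (k + 1) w = h) Φ'
        ⟨w, mem_filter.2 ⟨hw, e⟩⟩
      exact ⟨w, fun _ => ⟨(mem_filter.1 b1).2, fun w' c1 c2 => b2 w' (mem_filter.2 ⟨c1, c2⟩)⟩⟩
    · exact ⟨[], fun h => absurd h hh⟩
  choose r' hr' using a1
  have a2 := hC (E.image (ev (k + 1))) r' fun g hg => (hr' g hg).1
  let cd : P k → (Equiv.Perm (T k 0) × R k) × (R k → P (k + 1)) :=
    fun g => ((g 0, tot k (r g)), fun x => ev (k + 1) (sec k (r g) x))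
  let wt : (Equiv.Perm (T k 0) × R k) × (R k → P (k + 1)) → ℝ :=
    fun z => Real.exp (t * c) * ∏ x, Real.exp (-(t * Φ' (r' (z.2 x))))
  have mem : ∀ g ∈ F, ∀ x, sec k (r g) x ∈ E := fun g hg x =>
    mem_image.2 ⟨(g, x), by simpa using hg, rfl⟩
  calc _ ≤ ∑ g ∈ F, wt (cd g) := by
        refine Finset.sum_le_sum fun g hg => ?_
        simp only [wt, cd, ← Real.exp_sum, ← Real.exp_add, Finset.sum_neg_distrib, ← Finset.mul_sum]
        refine Real.exp_le_exp.2 ?_
        have := (Finset.sum_le_sum fun x (_ : x ∈ univ) => (hr' _ (mem_image_of_mem _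
          (mem g hg x))).2 _ (mem g hg x) rfl).trans (h (r g))
        nlinarith
    _ = ∑ z ∈ F.image cd, wt z := by
        refine (Finset.sum_image fun g hg g' hg' e => ?_).symm
        simp only [cd, Prod.mk.injEq] at e
        funext N
        cases N with
        | zero => exact e.1.1
        | succ N =>
          ext1 ⟨x, v⟩
          rw [← hr g hg, ← hr g' hg', ev_sec, ev_sec, e.1.2, congrFun e.2 x]
    _ ≤ ∑ z ∈ univ ×ˢ Fintype.piFinset (fun _ => E.image (ev (k + 1))), wt z := by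
        refine Finset.sum_le_sum_of_subset_of_nonneg (fun z hz => ?_) fun _ _ _ => by positivity
        obtain ⟨g, hg, rfl⟩ := mem_image.1 hz
        exact mem_product.2 ⟨mem_univ _, Fintype.mem_piFinset.2 fun x =>
          mem_image_of_mem _ (mem g hg x)⟩
    _ ≤ _ := by
        rw [Finset.sum_product]
        simp only [wt, ← Finset.mul_sum, ← Finset.prod_univ_sum
          (f := fun _ h => Real.exp (-(t * Φ' (r' h)))), Finset.prod_const, Finset.sum_const,
          card_univ, nsmul_eq_mul]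
        rw [mul_left_comm]
        gcongr

end Pool.Agent.H69.Ore
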