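import Pool.Agent.H69.Ore2

set_option autoImplicit false

namespace Pool.Agent.H69.Ore

open Finset

def ms (β : N3) : ℕ := β.1 + β.2.1 + β.2.2

theorem ms_add (β γ : N3) : ms (β + γ) = ms β + ms γ := by
  simp only [ms, Prod.fst_add, Prod.snd_add]; ring

theorem Ph_mono {φ φ' : N3 → ℝ} (h : ∀ β, φ β ≤ φ' β) : ∀ u, Ph φ u ≤ Ph φ' u
  | [] => le_rfl
  | .inl _ :: u => Ph_mono h u
  | .inr β :: u => add_le_add (h β) (Ph_mono h u)

theorem HH_mono {t : ℝ} (ht : 0 ≤ t) {k : ℕ} {Φ Φ' : Wd → ℝ} (h : ∀ u, Φ' u ≤ Φ u)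
    (H : HH t k Φ') : HH t k Φ := by
  obtain ⟨C, hC⟩ := H
  refine ⟨C, fun F r hr => le_trans (Finset.sum_le_sum fun g _ => Real.exp_le_exp.2 ?_) (hC F r hr)⟩
  nlinarith [h (r g)]

def hd : Wd → ℝ
  | .inr _ :: _ => 1
  | _ => 0

theorem step2 (t : ℝ) (ht : 0 ≤ t) (k : ℕ) (φ φ' : N3 → ℝ)
    (h1 : ∀ β γ, φ' (β + γ) + 1 ≤ φ' β + φ' γ)
    (h2 : ∀ β, φ' β ≤ φ β + if om k (up β) = 0 then 1 else 0) (H : HH t (k + 1) (Ph φ')) :
    HH t k (Ph φ) := by
  refine step t ht k _ _ (Fintype.card (R k)) (fun u => ?_) H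
  have := sec_sum k φ (fun β => φ' β - 1) (fun _ => 1) (fun w => Ph φ' w - hd w) (by simp [Ph, hd])
    (fun β w => by
      rcases w with _ | ⟨γ | γ, w⟩ <;> simp only [cns, Ph, hd]
      · linarith
      · linarith
      · linarith [h1 β γ])
    (fun β w => by
      rcases w with _ | ⟨γ | γ, w⟩ <;> simp only [Ph, hd] <;> linarith)
    (fun β => by have := h2 β; split_ifs at * <;> linarith) u
  rw [Finset.sum_sub_distrib] at this
  have : ∑ x, hd (sec k u x) ≤ ∑ x : R k, (1 : ℝ) := Finset.sum_le_sum fun x _ => by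
    unfold hd; split <;> norm_num
  simp only [sum_const, card_univ, nsmul_eq_mul, mul_one] at this
  linarith

theorem geo (q : ℝ) (h0 : 0 ≤ q) (h1 : q < 1) (S : Finset N3) :
    ∑ β ∈ S, q ^ ms β ≤ (1 - q)⁻¹ ^ 3 := by
  have a := summable_geometric_of_lt_one h0 h1
  have b : ∀ S : Finset ℕ, ∑ i ∈ S, q ^ i ≤ (1 - q)⁻¹ := fun S =>
    tsum_geometric_of_lt_one h0 h1 ▸ a.sum_le_tsum S fun _ _ => by positivity
  have c : 0 ≤ (1 - q)⁻¹ := by have := b ∅; simpa using this
  refine (Finset.sum_le_sum_of_subset_of_nonneg (t := S.image (·.1) ×ˢ S.image (·.2.1) ×ˢ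
    S.image (·.2.2)) (fun β hβ => ?_) fun _ _ _ => by positivity).trans ?_
  · simp only [mem_product]
    exact ⟨mem_image_of_mem _ hβ, mem_image_of_mem (fun x : N3 => x.2.1) hβ,
      mem_image_of_mem (fun x : N3 => x.2.2) hβ⟩
  · simp only [Finset.sum_product, ms, pow_add, ← Finset.mul_sum, ← Finset.sum_mul]
    rw [pow_succ, pow_two]
    gcongr <;> exact b _

theorem base (t : ℝ) (ht : 0 < t) : ∃ L : ℕ, 0 < L ∧ ∀ k, HH t k (Ph fun β => ms β + 2 + L) := by
  let q := Real.exp (-(t / 2))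
  have q0 : 0 < q := Real.exp_pos _
  have q1 : q < 1 := Real.exp_lt_one_iff.2 (by linarith)
  obtain ⟨L, hL⟩ := exists_pow_lt_of_lt_one (show 0 < (1 - q) ^ 3 / 4 by
    have := sub_pos.2 q1; positivity) q1
  refine ⟨L + 1, by omega, fun k => ?_⟩
  let lab : N3 ⊕ N3 → N3 := Sum.elim id id
  let Φ : Wd → ℝ := fun w => (w.map fun l => ((ms (lab l) + L : ℕ) : ℝ) / 2).sum
  refine step t ht.le k _ Φ 0 (fun u => ?_) ⟨2, fun F r hr => ?_⟩
  · rw [add_zero]
    refine sec_sum k _ (fun β => ((ms β + L : ℕ) : ℝ) / 2) (fun β => ((ms β + L : ℕ) : ℝ) / 2) Φ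
      (by simp [Φ]) (fun β w => ?_) (fun β w => by simp [Φ, lab, add_comm]) (fun β => ?_) u
    · have : (0 : ℝ) ≤ L := by positivity
      rcases w with _ | ⟨γ | γ, w⟩ <;> simp [Φ, lab, cns, ms_add] <;> linarith
    · have : (0 : ℝ) ≤ L := by positivity
      have : (0 : ℝ) ≤ ms β := by positivity
      push_cast
      split_ifs <;> linarith
  · classical
    have e : ∀ w, Real.exp (-(t * Φ w)) = (w.map fun l => q ^ (ms (lab l) + L)).prod := by
      intro w
      induction w with
      | nil => simp [Φ]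
      | cons l w ih =>
        rw [List.map_cons, List.prod_cons, ← ih, ← Real.exp_nat_mul, ← Real.exp_add]
        congr 1
        simp only [Φ, List.map_cons, List.sum_cons]
        ring
    simp only [e]
    rw [← Finset.sum_image (f := fun w : Wd => (w.map fun l => q ^ (ms (lab l) + L)).prod)
      (fun g hg g' hg' h => by rw [← hr g hg, h, hr g' hg'])]
    refine lists _ (fun _ => by positivity) (fun S => ?_) _
    rw [← Finset.toLeft_disjSum_toRight (u := S), Finset.sum_disjSum]
    simp only [lab, Sum.elim_inl, Sum.elim_inr, id, pow_add, ← Finset.sum_mul]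
    have a1 := geo q q0.le q1 S.toLeft
    have a2 := geo q q0.le q1 S.toRight
    have a3 : (1 - q)⁻¹ ^ 3 * q ^ L ≤ 1 / 4 := by
      have := sub_pos.2 q1
      rw [inv_pow, inv_mul_le_iff₀ (by positivity)]
      linarith
    have : 0 ≤ q ^ L := by positivity
    nlinarith

noncomputable def ph (L j : ℕ) (S : Finset N3) (β : N3) : ℝ :=
  (2 - j / L) * ms β + 2 + j + if β ∈ S then 1 else 0

theorem ph_sub (L j : ℕ) (S : Finset N3) (β γ : N3) :
    ph L j S (β + γ) + 1 ≤ ph L j S β + ph L j S γ := by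
  have : (0 : ℝ) ≤ j := by positivity
  simp only [ph, ms_add]
  push_cast
  split_ifs <;> linarith

theorem chain (t : ℝ) (ht : 0 < t) : HH t 0 (Ph fun β => 2 * ms β + 2) := by
  obtain ⟨L, hL, hb⟩ := base t ht
  let Q : ℕ → Finset N3 → ℕ → Prop := fun j S k =>
    HH t k (Ph (ph L j S)) → HH t 0 (Ph fun β => 2 * ms β + 2)
  have q1 : ∀ j S k, Q j S k → ∀ k' ≥ k, Q j S k' := by
    intro j S k h k' hk
    induction hk with
    | refl => exact h
    | step _ ih => exact fun H => ih (step2 t ht.le _ _ _ (ph_sub L j S)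
        (fun β => by split_ifs <;> linarith) H)
  have q2 : ∀ j, (∃ k, Q j ∅ k) → ∀ S, ∃ k, Q j S k := by
    intro j h S
    induction S using Finset.induction_on with
    | empty => exact h
    | insert a S _ ih =>
      obtain ⟨k, hk⟩ := ih
      obtain ⟨k', h1, h2⟩ := kill a k
      refine ⟨k' + 1, fun H => q1 j S k hk k' h1 (step2 t ht.le _ _ _ (ph_sub L j _) (fun β => ?_) H)⟩
      simp only [ph, mem_insert]
      by_cases e : β = a
      · subst e; simp only [h2]; split_ifs <;> simp_all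
      · simp only [e, false_or]; split_ifs <;> linarith
  have L0 : (0 : ℝ) < L := by exact_mod_cast hL
  have q3 : ∀ j, ∃ k, Q j ∅ k := by
    intro j
    induction j with
    | zero => exact ⟨0, HH_mono ht.le (Ph_mono fun β => by simp [ph])⟩
    | succ j ih =>
      obtain ⟨k, hk⟩ := q2 j ih (range L ×ˢ range L ×ˢ range L)
      refine ⟨k, fun H => hk (HH_mono ht.le (Ph_mono fun β => ?_) H)⟩
      simp only [ph, notMem_empty, if_false]
      push_cast
      have a0 : (0 : ℝ) ≤ 1 / L * ms β := by positivity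
      rw [add_div]
      split_ifs with h
      · linarith
      · have : (L : ℝ) ≤ ms β := by
          simp only [mem_product, mem_range] at h
          exact_mod_cast (by unfold ms; omega : L ≤ ms β)
        have : 1 ≤ 1 / L * (ms β : ℝ) := by rw [one_div, ← div_eq_inv_mul, le_div_iff₀ L0]; linarith
        linarith
  obtain ⟨k, hk⟩ := q3 L
  refine hk (HH_mono ht.le (Ph_mono fun β => ?_) (hb k))
  simp only [ph, notMem_empty, if_false, div_self L0.ne']
  linarith

def gens : List (N3 ⊕ N3) := [.inl 0, .inr (1, 0, 0), .inr (0, 1, 0), .inr (0, 0, 1)]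

theorem count (c : ℝ) (hc : 1 < c) : ∃ N : ℕ, ∀ n ≥ N, ∀ F : Finset (P 0),
    (∀ g ∈ F, ∃ u : Wd, (∀ l ∈ u, l ∈ gens) ∧ u.length ≤ n ∧ ev 0 u = g) → (F.card : ℝ) ≤ c ^ n := by
  have hl := Real.log_pos hc
  obtain ⟨C, hC⟩ := chain (Real.log c / 8) (by positivity)
  obtain ⟨N, hN⟩ := Filter.eventually_atTop.1 ((tendsto_pow_atTop_atTop_of_one_lt
    (Real.one_lt_exp_iff.2 (show 0 < Real.log c / 2 by positivity))).eventually_ge_atTop C)
  refine ⟨N, fun n hn F hF => ?_⟩
  choose! r r1 r2 r3 using hF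
  have a1 : ∀ u : Wd, (∀ l ∈ u, l ∈ gens) → Ph (fun β => 2 * ms β + 2) u ≤ 4 * u.length := by
    intro u
    induction u with
    | nil => simp [Ph]
    | cons l u ih =>
      intro h
      have := ih fun l hl => h l (by simp [hl])
      have h0 := h l (by simp)
      simp only [gens, List.mem_cons, List.not_mem_nil, or_false] at h0
      rcases h0 with rfl | rfl | rfl | rfl <;> simp [Ph, ms] at this ⊢ <;> linarith
  have a2 := (Finset.card_nsmul_le_sum F _ (Real.exp (-(n * (Real.log c / 2)))) fun g hg =>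
    Real.exp_le_exp.2 (by
      have := a1 _ (r1 g hg)
      have : ((r g).length : ℝ) ≤ n := by exact_mod_cast r2 g hg
      nlinarith)).trans ((hC F r r3).trans (hN n hn))
  rw [nsmul_eq_mul, Real.exp_neg, ← div_eq_mul_inv, div_le_iff₀ (Real.exp_pos _),
    ← Real.exp_nat_mul, ← Real.exp_add, show n * (Real.log c / 2) + n * (Real.log c / 2) =
    n * Real.log c by ring, Real.exp_nat_mul, Real.exp_log (by linarith)] at a2
  exact a2

def Zr : (N k : ℕ) → T k N → Prop
  | 0, _, _ => True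
  | N + 1, k, p => p.1 = 0 ∧ Zr N (k + 1) p.2

def g (k N : ℕ) : Equiv.Perm (T k N) := A k N 1 * B N k (1, -1, 0)

theorem g_app (k N : ℕ) (x : R k) (v : T (k + 1) N) : g k (N + 1) (x, v) =
    (x + 1, (if x = 0 then B N (k + 1) (1, -1, 0) else if x = 1 then A (k + 1) N 1 else 1) v) := by
  rw [g, Equiv.Perm.mul_apply, B_app, A_app, show om k (1, -1, 0) = 1 by simp [om]]

theorem g_fst (k N j : ℕ) (p : T k (N + 1)) : ((g k (N + 1) ^ j) p).1 = p.1 + j := by
  induction j with
  | zero => simp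
  | succ j ih =>
    rw [pow_succ', Equiv.Perm.mul_apply, Nat.cast_succ, ← add_assoc, ← ih]
    rfl

theorem g_pow (k N : ℕ) (v : T (k + 1) N) (i : ℕ) (hi : i ≤ mm k) :
    (g k (N + 1) ^ (i + 2)) (0, v) = (((i + 2 : ℕ) : R k), g (k + 1) N v) := by
  induction i with
  | zero => rw [pow_two, Equiv.Perm.mul_apply, g_app, g_app]; simp [g, one_add_one_eq_two]
  | succ i ih =>
    rw [pow_succ', Equiv.Perm.mul_apply, ih (by omega), g_app, if_neg, if_neg]
    · rw [← Nat.cast_succ]; rfl
    · rw [← Nat.cast_one, ZMod.natCast_eq_natCast_iff', Nat.mod_eq_of_lt (by omega),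
        Nat.mod_eq_of_lt (by omega)]
      omega
    · rw [ZMod.natCast_eq_zero_iff]
      exact fun h => absurd (Nat.le_of_dvd (by omega) h) (by omega)

theorem odo (N : ℕ) : ∀ k j (p : T k N), Zr N k p → Zr N k ((g k N ^ j) p) → j = 0 ∨ 2 ^ N ≤ j := by
  induction N with
  | zero => intro k j _ _ _; omega
  | succ N ih =>
    rintro k j ⟨x, v⟩ ⟨rfl, h1⟩ h2
    have a1 := h2.1
    rw [g_fst, zero_add, ZMod.natCast_eq_zero_iff] at a1
    obtain ⟨i, rfl⟩ := a1
    have a2 : ∀ i v, (g k (N + 1) ^ ((mm k + 2) * i)) (0, v) = (0, (g (k + 1) N ^ i) v) := by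
      intro i
      induction i with
      | zero => intro v; rfl
      | succ i ih =>
        intro v
        rw [mul_add, mul_one, pow_add, Equiv.Perm.mul_apply, g_pow k N v _ le_rfl, ZMod.natCast_self,
          ih, pow_succ]
        rfl
    rw [a2] at h2
    rcases ih _ _ _ h1 h2.2 with h | h
    · simp [h]
    · right; rw [pow_succ]; nlinarith

theorem lam (N : ℕ) : ∀ k (p : T k N), (¬ Zr N k p → B N k (0, 0, 1) p = p) ∧
    (Zr N k p → Zr N k (B N k (0, 0, 1) p) ∧ B N k (0, 0, 1) p ≠ p) := by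
  induction N with
  | zero =>
    intro k p
    refine ⟨fun h => absurd trivial h, fun _ => ⟨trivial, ?_⟩⟩
    exact (by decide : ∀ p : ZMod 2, p + ((1 : ℤ) : ZMod 2) ≠ p) p
  | succ N ih =>
    rintro k ⟨x, v⟩
    rw [B_app, show om k (0, 0, 1) = 0 by simp [om], A_zero]
    refine ⟨fun h => ?_, ?_⟩
    · split_ifs with h0
      · rw [(ih _ v).1 fun h' => h ⟨h0, h'⟩]
      · rfl
      · rfl
    · rintro ⟨rfl, h⟩
      rw [if_pos rfl]
      exact ⟨⟨rfl, ((ih _ v).2 h).1⟩, fun e => ((ih _ v).2 h).2 (congrArg Prod.snd e)⟩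

theorem zr_ex (N : ℕ) : ∀ k, ∃ p, Zr N k p := by
  induction N with
  | zero => exact fun _ => ⟨(0 : ZMod 2), trivial⟩
  | succ N ih => exact fun k => (ih (k + 1)).elim fun p h => ⟨(0, p), rfl, h⟩

def gg : P 0 := fun N => g 0 N
def ll : P 0 := fun N => B N 0 (0, 0, 1)
def ff (l : List Bool) : P 0 := l.foldr (fun x h => h * gg * if x then ll else 1) 1

theorem ff_app (N : ℕ) (l : List Bool) : ∀ p, (∀ j < l.length, ¬ Zr N 0 ((g 0 N ^ j) p)) →
    ff l N p = (g 0 N ^ l.length) p := by
  induction l with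
  | nil => intro p _; rfl
  | cons x l ih =>
    intro p h
    have : (if x then ll else 1) N p = p := by
      split_ifs
      · exact (lam N 0 p).1 (h 0 (by simp))
      · rfl
    show ff l N (g 0 N ((if x then ll else 1) N p)) = _
    rw [this, ih _ fun j hj => h (j + 1) (by simpa using hj), List.length_cons, pow_succ]
    rfl

theorem ff_inj (l : List Bool) : ∀ l' : List Bool, l.length = l'.length → ff l = ff l' → l = l' := by
  induction l with
  | nil => intro l' h _; exact (List.length_eq_zero_iff.1 h.symm).symm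
  | cons x l ih =>
    rintro (_ | ⟨y, l'⟩) h e
    · simp at h
    have h' : l.length = l'.length := by simpa using h
    obtain rfl : x = y := by
      obtain ⟨p, hp⟩ := zr_ex (l.length + 1) 0
      have a : ∀ (l' : List Bool) (x : Bool), l'.length = l.length → ff (x :: l') _ p =
          (g 0 _ ^ l.length) (g 0 _ ((if x then ll else 1) _ p)) := by
        intro l' x hl
        refine (ff_app _ l' _ fun j hj hz => ?_).trans (by rw [hl]; rfl)
        have := odo _ 0 (j + 1) ((if x then ll else 1) _ p) (by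
          split_ifs
          · exact ((lam _ 0 p).2 hp).1
          · exact hp) hz
        have := Nat.lt_two_pow_self (n := l.length + 1)
        omega
      have b := congrArg (fun z : P 0 => z _ p) e
      simp only [a l x rfl, a l' y h'.symm, EmbeddingLike.apply_eq_iff_eq] at b
      have c := ((lam _ 0 p).2 hp).2
      cases x <;> cases y
      · rfl
      · exact absurd b.symm c
      · exact absurd b c
      · rfl
    rw [ih l' h' (mul_right_cancel (mul_right_cancel e))]

end Pool.Agent.H69.Ore
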