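import Mathlib

set_option autoImplicit false

namespace Pool.Agent.H69.Per

open Finset

theorem ent_lb {P Z : Type} [Fintype P] [Fintype Z] (q : P → Z → ℝ) (hq : ∀ p z, 0 ≤ q p z)
    (N : Z → ℝ) (h : ∀ p, ∑ z, q p z * Real.exp (N z) ≤ 1) :
    ∑ p, ∑ z, q p z * N z ≤ ∑ p, Real.negMulLog (∑ z, q p z) := by
  refine sum_le_sum fun p _ => ?_
  set s := ∑ z, q p z with hs
  have hs0 : 0 ≤ s := sum_nonneg fun z _ => hq p z
  rcases hs0.eq_or_lt with h0 | h0
  · have : ∀ z, q p z = 0 := fun z =>
      (sum_eq_zero_iff_of_nonneg (fun z _ => hq p z)).1 (hs ▸ h0.symm) z (mem_univ _)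
    simp [this, ← h0]
  · have key : ∀ z, q p z * N z ≤ q p z * Real.exp (N z) * s - q p z - q p z * Real.log s := by
      intro z
      have h1 : N z + Real.log s ≤ Real.exp (N z) * s - 1 := by
        have := Real.log_le_sub_one_of_pos (mul_pos (Real.exp_pos (N z)) h0)
        rwa [Real.log_mul (Real.exp_pos _).ne' h0.ne', Real.log_exp] at this
      nlinarith [mul_le_mul_of_nonneg_left h1 (hq p z)]
    calc ∑ z, q p z * N z ≤ ∑ z, (q p z * Real.exp (N z) * s - q p z - q p z * Real.log s) :=
          sum_le_sum fun z _ => key z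
      _ = (∑ z, q p z * Real.exp (N z)) * s - s - s * Real.log s := by
          rw [sum_sub_distrib, sum_sub_distrib, ← sum_mul, ← sum_mul]
      _ ≤ _ := by
          have := mul_le_mul_of_nonneg_right (h p) hs0
          unfold Real.negMulLog
          linarith

theorem ent_ub {P Z : Type} [Fintype P] [Fintype Z] (q : P → Z → ℝ) (hq : ∀ p z, 0 ≤ q p z)
    (hs1 : ∑ p, ∑ z, q p z = 1) (Q : P → ℝ) (hQ0 : ∀ p, 0 ≤ Q p) (hQ : ∑ p, Q p ≤ 1)
    (cost : Z → ℝ) (h : ∀ p z, q p z ≠ 0 → Real.exp (-cost z) ≤ Q p) :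
    ∑ p, Real.negMulLog (∑ z, q p z) ≤ ∑ p, ∑ z, q p z * cost z := by
  have key : ∀ p, Real.negMulLog (∑ z, q p z) ≤ ∑ z, q p z * cost z + (Q p - ∑ z, q p z) := by
    intro p
    set s := ∑ z, q p z with hs
    have hs0 : 0 ≤ s := sum_nonneg fun z _ => hq p z
    rcases hs0.eq_or_lt with h0 | h0
    · have : ∀ z, q p z = 0 := fun z =>
        (sum_eq_zero_iff_of_nonneg (fun z _ => hq p z)).1 (hs ▸ h0.symm) z (mem_univ _)
      simp [this, ← h0, hQ0]
    · have key : ∀ z, q p z * (-Real.log s) ≤ q p z * cost z + q p z * (Q p / s - 1) := by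
        intro z
        by_cases hz : q p z = 0
        · simp [hz]
        have h2 := h p z hz
        have hQp : 0 < Q p := lt_of_lt_of_le (Real.exp_pos _) h2
        have h3 : -cost z ≤ Real.log (Q p) := by
          rw [Real.le_log_iff_exp_le hQp]; exact h2
        have h1 := Real.log_le_sub_one_of_pos (div_pos hQp h0)
        rw [Real.log_div hQp.ne' h0.ne'] at h1
        have : -Real.log s ≤ cost z + (Q p / s - 1) := by linarith
        nlinarith [mul_le_mul_of_nonneg_left this (hq p z)]
      have h4 := sum_le_sum fun z (_ : z ∈ univ) => key z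
      rw [sum_add_distrib, ← sum_mul, ← sum_mul, ← hs] at h4
      have h5 : s * (Q p / s - 1) = Q p - s := by field_simp
      unfold Real.negMulLog
      linarith
  have := sum_le_sum fun p (_ : p ∈ univ) => key p
  rw [sum_add_distrib, sum_sub_distrib, hs1] at this
  linarith

theorem geo {ι : Type} [Fintype ι] [DecidableEq ι] (N : ℕ) (t : ℝ) (h0 : 0 ≤ t) (h1 : t < 1) :
    ∑ c : ι → Fin N, (1 - t) ^ Fintype.card ι * t ^ (∑ i, (c i : ℕ)) ≤ 1 := by
  have : ∀ c : ι → Fin N, (1 - t) ^ Fintype.card ι * t ^ (∑ i, (c i : ℕ))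
      = ∏ i, ((1 - t) * t ^ (c i : ℕ)) := by
    intro c
    rw [prod_mul_distrib, prod_pow_eq_pow_sum, prod_const, card_univ]
  simp_rw [this]
  have h2 := Finset.prod_univ_sum (fun _ : ι => (univ : Finset (Fin N)))
    (fun _ (v : Fin N) => (1 - t) * t ^ (v : ℕ))
  rw [Fintype.piFinset_univ] at h2
  rw [← h2]
  refine prod_le_one (fun i _ => sum_nonneg fun v _ => mul_nonneg (by linarith) (pow_nonneg h0 _))
    fun i _ => ?_
  rw [← mul_sum, Fin.sum_univ_eq_sum_range (fun v => t ^ v) N, mul_comm, geom_sum_mul_neg]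
  have := pow_nonneg h0 N
  linarith

theorem lehmer {n : ℕ} (π π' : Equiv.Perm (Fin n))
    (h : ∀ r, (univ.filter fun r' => r < r' ∧ π r' < π r).card
      = (univ.filter fun r' => r < r' ∧ π' r' < π' r).card) : π = π' := by
  have aux : ∀ (π : Equiv.Perm (Fin n)) (r : Fin n),
      (univ.filter fun r' => r < r' ∧ π r' < π r).card
      = (univ.filter fun v => v < π r ∧ ∀ r0 < r, π r0 ≠ v).card := by
    intro π r
    refine card_bij (fun r' _ => π r') ?_ ?_ ?_
    · intro a ha
      simp only [mem_filter, mem_univ, true_and] at ha ⊢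
      refine ⟨ha.2, fun r0 h0 he => ?_⟩
      have := π.injective he
      subst this
      exact absurd (h0.trans ha.1) (lt_irrefl _)
    · intro a _ b _ hab
      exact π.injective hab
    · intro v hv
      simp only [mem_filter, mem_univ, true_and] at hv
      refine ⟨π.symm v, ?_, by simp⟩
      simp only [mem_filter, mem_univ, true_and, Equiv.apply_symm_apply]
      refine ⟨?_, hv.1⟩
      rcases lt_trichotomy r (π.symm v) with h1 | h1 | h1
      · exact h1
      · have : π r = v := by rw [h1]; simp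
        exact absurd hv.1 (by rw [this]; exact lt_irrefl _)
      · exact absurd (by simp) (hv.2 _ h1)
  have aux2 : ∀ (π π' : Equiv.Perm (Fin n)) (r : Fin n), (∀ r0 < r, π r0 = π' r0) → π r < π' r →
      (univ.filter fun v => v < π r ∧ ∀ r0 < r, π r0 ≠ v).card <
      (univ.filter fun v => v < π' r ∧ ∀ r0 < r, π' r0 ≠ v).card := by
    intro π π' r ih hlt
    apply card_lt_card
    rw [ssubset_iff_of_subset]
    · refine ⟨π r, ?_, by simp⟩
      simp only [mem_filter, mem_univ, true_and]
      refine ⟨hlt, fun r0 h0 he => ?_⟩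
      rw [← ih r0 h0] at he
      exact h0.ne (π.injective he)
    · intro v hv
      simp only [mem_filter, mem_univ, true_and] at hv ⊢
      exact ⟨hv.1.trans hlt, fun r0 h0 => by rw [← ih r0 h0]; exact hv.2 r0 h0⟩
  have main : ∀ r, π r = π' r := by
    intro r
    induction r using WellFoundedLT.induction with
    | ind r ih =>
      have h1 := h r
      rw [aux, aux] at h1
      rcases lt_trichotomy (π r) (π' r) with h2 | h2 | h2
      · exact absurd h1 (aux2 π π' r ih h2).ne
      · exact h2
      · exact absurd h1.symm (aux2 π' π r (fun r0 h0 => (ih r0 h0).symm) h2).ne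
  exact Equiv.ext main

theorem sum_update {n : ℕ} {Y : Type} [Fintype Y] [DecidableEq Y] (q : Fin n)
    (f : (Fin n → Y) → ℝ) :
    (Fintype.card Y : ℝ) * ∑ z, f z = ∑ z, ∑ y, f (Function.update z q y) := by
  let e : (Fin n → Y) × Y ≃ (Fin n → Y) × Y :=
    { toFun := fun x => (Function.update x.1 q x.2, x.1 q)
      invFun := fun x => (Function.update x.1 q x.2, x.1 q)
      left_inv := fun x => by simp
      right_inv := fun x => by simp }
  have h := e.sum_comp (fun x => f x.1)
  simp only [Fintype.sum_prod_type, e, Equiv.coe_fn_mk] at h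
  rw [h]
  simp [mul_sum]

/-- resampling one coordinate -/
theorem sum_cond {n : ℕ} {Y : Type} [Fintype Y] [DecidableEq Y] [Nonempty Y] (p q : Fin n)
    (hpq : p ≠ q) (R : Y → Y → Prop) [∀ a b, Decidable (R a b)] (c : ℝ)
    (hc : ∀ y0, ((univ.filter fun y => R y0 y).card : ℝ) = c * Fintype.card Y)
    (g : (Fin n → Y) → ℝ) (hg : ∀ z y, g (Function.update z q y) = g z) :
    ∑ z, g z * (if R (z p) (z q) then 1 else 0) = c * ∑ z, g z := by
  have hY : (0 : ℝ) < Fintype.card Y := by exact_mod_cast Fintype.card_pos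
  apply mul_left_cancel₀ hY.ne'
  rw [sum_update q, ← mul_assoc, mul_sum]
  refine sum_congr rfl fun z _ => ?_
  simp only [hg, Function.update_self, Function.update_of_ne hpq]
  rw [← mul_sum, sum_boole, hc]
  ring

theorem mono_counts {n : ℕ} {W L : Type} [Fintype W] [DecidableEq W] [PartialOrder L]
    (f : W → L) (hf : Function.Injective f) (u u' : Fin n → W)
    (hu : Monotone (f ∘ u)) (hu' : Monotone (f ∘ u'))
    (h : ∀ w, (univ.filter fun r => u r = w).card = (univ.filter fun r => u' r = w).card) :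
    u = u' := by
  have e : ∀ w, {r // u' r = w} ≃ {r // u r = w} := fun w =>
    Fintype.equivOfCardEq (by rw [Fintype.card_subtype, Fintype.card_subtype, h])
  let E : Fin n ≃ Fin n := Equiv.ofFiberEquiv e
  have hE : ∀ r, u (E r) = u' r := fun r => Equiv.ofFiberEquiv_map e r
  have h1 : (f ∘ u) ∘ (E : Equiv.Perm (Fin n)) = f ∘ u' := by
    funext r; simp [hE]
  have h2 := Tuple.unique_monotone (f := f ∘ u) (σ := 1) (τ := E) (by simpa using hu)
    (by rw [h1]; exact hu')
  rw [h1] at h2
  funext r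
  apply hf
  simpa using congrFun h2 r

end Pool.Agent.H69.Per
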