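import Mathlib
import Pool.Agent.H69.Per1

set_option autoImplicit false

namespace Pool.Agent.H69.Per

open Finset
open Real (ofDigits ofDigitsTerm ofDigits_eq_sum_add_ofDigits ofDigits_le_one ofDigits_nonneg
  summable_ofDigitsTerm ofDigitsTerm_nonneg)

theorem od_le {d : ℕ} (a b : ℕ → Fin d) (j : ℕ) (hag : ∀ i < j, a i = b i) (hlt : a j < b j) :
    ofDigits a ≤ ofDigits b ∧ (ofDigits a = ofDigits b → ∀ i, j < i → (b i : ℕ) = 0) := by
  have hd : (0 : ℝ) < d := by exact_mod_cast Fin.pos (a 0)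
  rw [ofDigits_eq_sum_add_ofDigits a (j + 1), ofDigits_eq_sum_add_ofDigits b (j + 1),
    sum_range_succ, sum_range_succ]
  have h1 : ∑ i ∈ range j, ofDigitsTerm a i = ∑ i ∈ range j, ofDigitsTerm b i :=
    sum_congr rfl fun i hi => by simp [ofDigitsTerm, hag i (mem_range.mp hi)]
  rw [h1]
  have ha := ofDigits_le_one (fun i => a (i + (j + 1)))
  have hb := ofDigits_nonneg (fun i => b (i + (j + 1)))
  have hc : (0 : ℝ) < ((d : ℝ) ^ (j + 1))⁻¹ := by positivity
  have h2 : ((a j : ℕ) : ℝ) + 1 ≤ ((b j : ℕ) : ℝ) := by exact_mod_cast hlt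
  simp only [ofDigitsTerm]
  set c := ((d : ℝ) ^ (j + 1))⁻¹
  set A := ofDigits (fun i => a (i + (j + 1)))
  set B := ofDigits (fun i => b (i + (j + 1))) with hB
  refine ⟨by nlinarith, fun h i hi => ?_⟩
  have hB0 : B ≤ 0 := by
    by_contra h3
    push Not at h3
    nlinarith [mul_pos hc h3]
  obtain ⟨i', rfl⟩ : ∃ i', i = i' + (j + 1) := ⟨i - (j + 1), by omega⟩
  have h4 := (summable_ofDigitsTerm (digits := fun i => b (i + (j + 1)))).le_tsum i'
    (fun _ _ => ofDigitsTerm_nonneg)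
  have h5 : ofDigitsTerm (fun i => b (i + (j + 1))) i' ≤ 0 := h4.trans hB0
  simp only [ofDigitsTerm] at h5
  have hc' : (0 : ℝ) < ((d : ℝ) ^ (i' + 1))⁻¹ := by positivity
  have h6 : ((b (i' + (j + 1)) : ℕ) : ℝ) ≤ 0 := by
    by_contra h7
    push Not at h7
    nlinarith [mul_pos h7 hc']
  exact_mod_cast le_antisymm h6 (Nat.cast_nonneg _)

def swf (e : ℕ) (i : Fin (2 * e)) : Fin (2 * e) :=
  if h : (i : ℕ) % 2 = 0 then ⟨i + 1, by omega⟩ else ⟨i - 1, by omega⟩

theorem swf_val {e : ℕ} (i : Fin (2 * e)) :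
    (swf e i : ℕ) = if (i : ℕ) % 2 = 0 then (i : ℕ) + 1 else i - 1 := by
  unfold swf; split_ifs <;> rfl

/-- the permutation `2 1 4 3 ...` -/
def sw (e : ℕ) : Equiv.Perm (Fin (2 * e)) :=
  Function.Involutive.toPerm (swf e) (fun i => by
    apply Fin.ext
    rw [swf_val, swf_val]
    split_ifs <;> omega)

theorem sw_val {e : ℕ} (i : Fin (2 * e)) :
    (sw e i : ℕ) = if (i : ℕ) % 2 = 0 then (i : ℕ) + 1 else i - 1 := swf_val i

variable {e n : ℕ}

noncomputable def Yv (a : ℕ → Fin (2 * e)) : ℝ := ofDigits fun i => sw e (a i)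

def C (ω : Fin n → ℕ → Fin (2 * e)) (τ π : Equiv.Perm (Fin n)) : Prop :=
  StrictMono (fun r => ofDigits (ω (τ r))) ∧ StrictMono (fun r => Yv (ω (τ (π⁻¹ r))))

theorem first_lt {d : ℕ} {a b : ℕ → Fin d} (h : ofDigits a < ofDigits b) {j : ℕ}
    (hag : ∀ i < j, a i = b i) : a j ≤ b j := by
  by_contra h1
  push Not at h1
  exact absurd (od_le b a j (fun i hi => (hag i hi).symm) h1).1 (not_le.2 h)

theorem inv_iff {ω : Fin n → ℕ → Fin (2 * e)} {τ π : Equiv.Perm (Fin n)} (h : C ω τ π)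
    {r r' : Fin n} (hr : r < r') {j : ℕ} (hag : ∀ i < j, ω (τ r) i = ω (τ r') i)
    (hne : ω (τ r) j ≠ ω (τ r') j) :
    π r' < π r ↔ (ω (τ r) j : ℕ) / 2 = (ω (τ r') j : ℕ) / 2 := by
  have h1 : ω (τ r) j < ω (τ r') j := lt_of_le_of_ne (first_lt (h.1 hr) hag) hne
  have h1' : (ω (τ r) j : ℕ) < ω (τ r') j := h1
  have hy : ∀ x y, Yv (ω (τ x)) ≤ Yv (ω (τ y)) ↔ π x ≤ π y := by
    intro x y
    have := h.2.le_iff_le (a := π x) (b := π y)
    simpa using this
  have hne' : π r ≠ π r' := fun hh => hr.ne (π.injective hh)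
  constructor
  · intro h2
    by_contra h3
    have : sw e (ω (τ r) j) < sw e (ω (τ r') j) := by
      rw [Fin.lt_def, sw_val, sw_val]; split_ifs <;> omega
    have h4 := (od_le (fun i => sw e (ω (τ r) i)) (fun i => sw e (ω (τ r') i)) j
      (fun i hi => by simp [hag i hi]) this).1
    exact absurd ((hy r r').1 h4) (not_le.2 h2)
  · intro h3
    have : sw e (ω (τ r') j) < sw e (ω (τ r) j) := by
      rw [Fin.lt_def, sw_val, sw_val]; split_ifs <;> omega
    have h4 := (od_le (fun i => sw e (ω (τ r') i)) (fun i => sw e (ω (τ r) i)) j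
      (fun i hi => by simp [hag i hi]) this).1
    exact lt_of_le_of_ne ((hy r' r).1 h4) hne'.symm

abbrev YY (e k : ℕ) : Type := (Fin k → Fin (2 * e)) × Fin (2 * e) × Fin (2 * e)

def trunc (k : ℕ) (a : ℕ → Fin (2 * e)) : YY e k := (fun i => a i, a k, a (k + 1))

variable {k : ℕ}

def key (y : YY e k) : Lex (ℕ → ℕ) :=
  toLex fun i => if h : i < k then (y.1 ⟨i, h⟩ : ℕ) else if i = k then (y.2.1 : ℕ) / 2 else 0

def pre (w : Fin k → Fin (2 * e)) : Lex (ℕ → ℕ) :=
  toLex fun i => if h : i < k then (w ⟨i, h⟩ : ℕ) else 0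

def SK (y y' : YY e k) : Prop := y.1 = y'.1 ∧ (y.2.1 : ℕ) / 2 = (y'.2.1 : ℕ) / 2

instance (y y' : YY e k) : Decidable (SK y y') := by unfold SK; infer_instance

theorem key_eq {y y' : YY e k} : key y = key y' ↔ SK y y' := by
  constructor
  · intro h
    have h' := toLex.injective h
    refine ⟨funext fun i => Fin.ext ?_, ?_⟩
    · simpa using congrFun h' i
    · simpa using congrFun h' k
  · rintro ⟨h1, h2⟩
    unfold key
    rw [h1, h2]

theorem pre_inj : Function.Injective (pre : (Fin k → Fin (2 * e)) → _) := by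
  intro w w' h
  have h' := toLex.injective h
  exact funext fun i => Fin.ext (by simpa using congrFun h' i)

theorem key_mono {a b : ℕ → Fin (2 * e)} (h : ofDigits a < ofDigits b) :
    key (trunc k a) ≤ key (trunc k b) := by
  by_contra h1
  push Not at h1
  obtain ⟨j, h2, h3⟩ := h1
  have hjk : j ≤ k := by
    by_contra h4
    push Not at h4
    have e1 : ¬ j < k := by omega
    have e2 : ¬ j = k := by omega
    simp [key, e1, e2] at h3
  have hag : ∀ i < j, a i = b i := by
    intro i hi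
    have := h2 i hi
    have e1 : i < k := by omega
    simp [key, trunc, e1] at this
    exact Fin.ext this.symm
  have h5 : (a j : ℕ) ≤ b j := first_lt h hag
  rcases hjk.lt_or_eq with h6 | rfl
  · simp [key, trunc, h6] at h3
    have : (b j : ℕ) < a j := h3
    omega
  · simp [key, trunc] at h3
    omega

theorem pre_mono {a b : ℕ → Fin (2 * e)} (h : ofDigits a < ofDigits b) :
    pre (trunc k a).1 ≤ pre (trunc k b).1 := by
  by_contra h1
  push Not at h1
  obtain ⟨j, h2, h3⟩ := h1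
  have hjk : j < k := by
    by_contra h4
    simp [pre, h4] at h3
  have hag : ∀ i < j, a i = b i := by
    intro i hi
    have := h2 i hi
    have e1 : i < k := by omega
    simp [pre, trunc, e1] at this
    exact Fin.ext this.symm
  have h5 : (a j : ℕ) ≤ b j := first_lt h hag
  simp [pre, trunc, hjk] at h3
  have : (b j : ℕ) < a j := h3
  omega

theorem mono_of {L : Type} [PartialOrder L] {ω : Fin n → ℕ → Fin (2 * e)}
    {τ π : Equiv.Perm (Fin n)} (h : C ω τ π) (f : (ℕ → Fin (2 * e)) → L)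
    (hf : ∀ a b, ofDigits a < ofDigits b → f a ≤ f b) : Monotone fun r => f (ω (τ r)) := by
  intro r r' hr
  rcases hr.eq_or_lt with rfl | hr
  · exact le_rfl
  · exact hf _ _ (h.1 hr)

/-! ### upper bound: coding -/

def cnt (k : ℕ) (ω : Fin n → ℕ → Fin (2 * e)) (τ : Equiv.Perm (Fin n)) (w : Fin k → Fin (2 * e)) :
    ℕ := (univ.filter fun r => (trunc k (ω (τ r))).1 = w).card

def tab (k : ℕ) (ω : Fin n → ℕ → Fin (2 * e)) (τ π : Equiv.Perm (Fin n)) (r : Fin n) : ℕ :=
  (univ.filter fun r' => (r < r' ∧ π r' < π r) ∧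
    (trunc k (ω (τ r))).1 = (trunc k (ω (τ r'))).1).card

theorem code_inj {ω ω' : Fin n → ℕ → Fin (2 * e)} {τ τ' π π' : Equiv.Perm (Fin n)}
    (h : C ω τ π) (h' : C ω' τ' π') (h1 : ∀ w, cnt k ω τ w = cnt k ω' τ' w)
    (h2 : ∀ r, tab k ω τ π r = tab k ω' τ' π' r) : π = π' := by
  have hu : (fun r => (trunc k (ω (τ r))).1) = fun r => (trunc k (ω' (τ' r))).1 :=
    mono_counts pre pre_inj _ _ (mono_of h (fun a => pre (trunc k a).1) fun a b => pre_mono)
      (mono_of h' (fun a => pre (trunc k a).1) fun a b => pre_mono) h1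
  have hu' : ∀ r, (trunc k (ω (τ r))).1 = (trunc k (ω' (τ' r))).1 := congrFun hu
  have hu2 : ∀ r, ∀ i < k, ω (τ r) i = ω' (τ' r) i := fun r i hi => congrFun (hu' r) ⟨i, hi⟩
  apply lehmer
  intro r
  rw [← card_filter_add_card_filter_not
      (fun r' => (trunc k (ω (τ r))).1 = (trunc k (ω (τ r'))).1),
    ← card_filter_add_card_filter_not (s := univ.filter fun r' => r < r' ∧ π' r' < π' r)
      (fun r' => (trunc k (ω' (τ' r))).1 = (trunc k (ω' (τ' r'))).1)]
  simp only [filter_filter]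
  congr 1
  · exact h2 r
  · congr 1
    refine filter_congr fun r' _ => ?_
    rw [← hu' r, ← hu' r']
    refine and_congr_left fun hne => and_congr_right fun hr => ?_
    have hex : ∃ j, j < k ∧ ω (τ r) j ≠ ω (τ r') j := by
      by_contra h3
      push Not at h3
      exact hne (funext fun i => h3 i i.2)
    classical
    have hj := Nat.find_spec hex
    have hmin : ∀ i < Nat.find hex, ω (τ r) i = ω (τ r') i := by
      intro i hi
      have := Nat.find_min hex hi
      push Not at this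
      exact this (hi.trans hj.1)
    rw [inv_iff h hr hmin hj.2, inv_iff h' hr (j := Nat.find hex)
      (fun i hi => by rw [← hu2 r i (hi.trans hj.1), ← hu2 r' i (hi.trans hj.1)]; exact hmin i hi)
      (by rw [← hu2 r _ hj.1, ← hu2 r' _ hj.1]; exact hj.2), hu2 r _ hj.1, hu2 r' _ hj.1]

noncomputable def II (z : Fin n → YY e k) : ℝ :=
  ∑ p, ∑ q, if p ≠ q ∧ SK (z p) (z q) then 1 else 0

theorem tab_le {ω : Fin n → ℕ → Fin (2 * e)} {τ π : Equiv.Perm (Fin n)} (h : C ω τ π) :
    ((∑ r, tab k ω τ π r : ℕ) : ℝ) ≤ II (fun p => trunc k (ω p)) := by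
  unfold II
  rw [← Equiv.sum_comp τ (fun p => ∑ q, if p ≠ q ∧ SK (trunc k (ω p)) (trunc k (ω q))
    then (1 : ℝ) else 0)]
  push_cast
  refine sum_le_sum fun r _ => ?_
  rw [← Equiv.sum_comp τ (fun q => if τ r ≠ q ∧ SK (trunc k (ω (τ r))) (trunc k (ω q))
    then (1 : ℝ) else 0), tab, card_filter]
  push_cast
  refine sum_le_sum fun r' _ => ?_
  split_ifs with h1 h2
  · exact le_rfl
  · exfalso
    apply h2
    refine ⟨fun hh => h1.1.1.ne (τ.injective hh), h1.2, ?_⟩
    by_cases h3 : ω (τ r) k = ω (τ r') k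
    · simp [trunc, h3]
    · exact (inv_iff h h1.1.1 (fun i hi => congrFun h1.2 ⟨i, hi⟩) h3).1 h1.1.2
  · norm_num
  · exact le_rfl

theorem cnt_sum (ω : Fin n → ℕ → Fin (2 * e)) (τ : Equiv.Perm (Fin n)) :
    ∑ w, cnt k ω τ w = n := by
  unfold cnt
  rw [← card_eq_sum_card_fiberwise (fun _ _ => mem_coe.2 (mem_univ _))]
  simp

/-! ### lower bound: free bits -/

def Good (z : Fin n → YY e k) (p q : Fin n) : Prop :=
  p < q ∧ SK (z p) (z q) ∧ ((z p).2.2 : ℕ) / 2 ≠ ((z q).2.2 : ℕ) / 2 ∧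
    ∀ r, SK (z p) (z r) → r = p ∨ r = q

instance (z : Fin n → YY e k) (p q : Fin n) : Decidable (Good z p q) := by
  unfold Good; infer_instance

def fl (b : Bool) (y : YY e k) : YY e k := (y.1, if b then sw e y.2.1 else y.2.1, y.2.2)

theorem sw_half (i : Fin (2 * e)) : (sw e i : ℕ) / 2 = (i : ℕ) / 2 := by
  rw [sw_val]; split_ifs <;> omega

theorem SK_fl (b b' : Bool) (y y' : YY e k) : SK (fl b y) (fl b' y') ↔ SK y y' := by
  cases b <;> cases b' <;> simp [SK, fl, sw_half]

theorem fl_fl (b : Bool) (y : YY e k) : fl b (fl b y) = y := by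
  cases b
  · rfl
  · have : sw e (sw e y.2.1) = y.2.1 := by
      apply Fin.ext; rw [sw_val, sw_val]; split_ifs <;> omega
    simp [fl, this]

theorem Good_fl (z : Fin n → YY e k) (b : Fin n → Bool) (p q : Fin n) :
    Good (fun x => fl (b x) (z x)) p q ↔ Good z p q := by
  simp only [Good, SK_fl]
  rfl

theorem SK_symm {y y' : YY e k} (h : SK y y') : SK y' y := ⟨h.1.symm, h.2.symm⟩
theorem SK_trans {y y' y'' : YY e k} (h : SK y y') (h' : SK y' y'') : SK y y'' :=
  ⟨h.1.trans h'.1, h.2.trans h'.2⟩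
theorem SK_refl (y : YY e k) : SK y y := ⟨rfl, rfl⟩

theorem good_inv {ω : Fin n → ℕ → Fin (2 * e)} {τ π : Equiv.Perm (Fin n)} (h : C ω τ π)
    {r r' : Fin n} (hr : r < r') (h1 : SK (trunc k (ω (τ r))) (trunc k (ω (τ r'))))
    (h2 : (ω (τ r) (k + 1) : ℕ) / 2 ≠ (ω (τ r') (k + 1) : ℕ) / 2) :
    π r' < π r ↔ ω (τ r) k ≠ ω (τ r') k := by
  have hag : ∀ i < k, ω (τ r) i = ω (τ r') i := fun i hi => congrFun h1.1 ⟨i, hi⟩
  by_cases h3 : ω (τ r) k = ω (τ r') k
  · have := inv_iff h hr (j := k + 1) (fun i hi => by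
      rcases (Nat.lt_succ_iff.1 hi).lt_or_eq with h4 | rfl
      · exact hag i h4
      · exact h3) (fun hh => h2 (by rw [hh]))
    simp [this, h2, h3]
  · have := inv_iff h hr hag h3
    have h4 : (ω (τ r) k : ℕ) / 2 = (ω (τ r') k : ℕ) / 2 := h1.2
    simp [this, h3, h4]

theorem good_det {ω ω' : Fin n → ℕ → Fin (2 * e)} {τ τ' π : Equiv.Perm (Fin n)}
    (h : C ω τ π) (h' : C ω' τ' π) (hk : ∀ x, SK (trunc k (ω x)) (trunc k (ω' x)))
    {p q : Fin n} (hg : Good (fun x => trunc k (ω x)) p q)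
    (hg' : Good (fun x => trunc k (ω' x)) p q) :
    ω p k ≠ ω q k ↔ ω' p k ≠ ω' q k := by
  have hkey : (fun x => key (trunc k (ω x))) = fun x => key (trunc k (ω' x)) :=
    funext fun x => key_eq.2 (hk x)
  have m1 := mono_of h (fun a => key (trunc k a)) fun a b => key_mono
  have m2 := mono_of h' (fun a => key (trunc k a)) fun a b => key_mono
  have hu := Tuple.unique_monotone (f := fun x => key (trunc k (ω x))) (σ := τ) (τ := τ') m1
    (by rw [hkey]; exact m2)
  have hu' : ∀ r, SK (trunc k (ω (τ r))) (trunc k (ω (τ' r))) := fun r =>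
    key_eq.1 (congrFun hu r)
  -- general statement for an ordered pair of ranks
  have gen : ∀ {ω : Fin n → ℕ → Fin (2 * e)} {τ : Equiv.Perm (Fin n)}, C ω τ π →
      Good (fun x => trunc k (ω x)) p q → ∀ r r', r < r' → (τ r = p ∨ τ r = q) →
      (τ r' = p ∨ τ r' = q) → (π r' < π r ↔ ω p k ≠ ω q k) := by
    intro ω τ h hg r r' hr e1 e2
    have hne : τ r ≠ τ r' := fun hh => hr.ne (τ.injective hh)
    rcases e1 with e1 | e1 <;> rcases e2 with e2 | e2
    · exact absurd (e1.trans e2.symm) hne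
    · have := good_inv (k := k) h hr (by rw [e1, e2]; exact hg.2.1) (by rw [e1, e2]; exact hg.2.2.1)
      rwa [e1, e2] at this
    · have := good_inv (k := k) h hr (by rw [e1, e2]; exact SK_symm hg.2.1)
        (by rw [e1, e2]; exact Ne.symm hg.2.2.1)
      rw [e1, e2] at this
      rw [this, ne_comm]
    · exact absurd (e1.trans e2.symm) hne
  have tr : ∀ r, (τ r = p ∨ τ r = q) → (τ' r = p ∨ τ' r = q) := by
    intro r hr
    apply hg.2.2.2
    refine SK_trans ?_ (hu' r)
    rcases hr with hr | hr <;> rw [hr]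
    · exact SK_refl _
    · exact hg.2.1
  have hpq : τ.symm p ≠ τ.symm q := fun hh => hg.1.ne (τ.symm.injective hh)
  rcases lt_or_gt_of_ne hpq with h3 | h3
  · rw [← gen h hg _ _ h3 (by simp) (by simp),
      gen h' hg' _ _ h3 (tr _ (by simp)) (tr _ (by simp))]
  · rw [← gen h hg _ _ h3 (by simp) (by simp),
      gen h' hg' _ _ h3 (tr _ (by simp)) (tr _ (by simp))]

def Cp (k : ℕ) (π : Equiv.Perm (Fin n)) (z : Fin n → YY e k) : Prop :=
  ∃ (ω : Fin n → ℕ → Fin (2 * e)) (τ : Equiv.Perm (Fin n)), C ω τ π ∧ ∀ x, trunc k (ω x) = z x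

def SS (z : Fin n → YY e k) : Finset (Fin n) := univ.filter fun q => ∃ p, Good z p q

open Classical in
theorem bits_card (π : Equiv.Perm (Fin n)) (z : Fin n → YY e k) :
    (univ.filter fun b : Fin n → Bool => Cp k π (fun x => fl (b x) (z x))).card
      * 2 ^ (SS z).card ≤ 2 ^ n := by
  have h1 : (univ.filter fun b : Fin n → Bool => Cp k π (fun x => fl (b x) (z x))).card
      ≤ (univ : Finset ({x // x ∉ SS z} → Bool)).card := by
    refine card_le_card_of_injOn (fun b x => b x.1) (fun _ _ => mem_coe.2 (mem_univ _)) ?_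
    intro b hb b' hb' hbb
    simp only [coe_filter, mem_univ, true_and, Set.mem_setOf_eq] at hb hb'
    obtain ⟨ω, τ, h, hz⟩ := hb
    obtain ⟨ω', τ', h', hz'⟩ := hb'
    have hoff : ∀ x, x ∉ SS z → b x = b' x := fun x hx => congrFun hbb ⟨x, hx⟩
    funext q
    by_cases hq : q ∈ SS z
    swap
    · exact hoff q hq
    simp only [SS, mem_filter, mem_univ, true_and] at hq
    obtain ⟨p, hg⟩ := hq
    have hp : p ∉ SS z := by
      simp only [SS, mem_filter, mem_univ, true_and, not_exists]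
      intro p' hg'
      rcases hg.2.2.2 p' (SK_symm hg'.2.1) with h3 | h3
      · exact hg'.1.ne h3
      · exact absurd (hg.1.trans (h3 ▸ hg'.1)) (lt_irrefl _)
    have e1 : (fun x => trunc k (ω x)) = fun x => fl (b x) (z x) := funext hz
    have e2 : (fun x => trunc k (ω' x)) = fun x => fl (b' x) (z x) := funext hz'
    have := good_det h h' (fun x => by rw [hz, hz', SK_fl]; exact SK_refl _)
      (by rw [e1, Good_fl]; exact hg) (by rw [e2, Good_fl]; exact hg)
    have a1 : ω p k = (fl (b p) (z p)).2.1 := congrArg (fun y => y.2.1) (hz p)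
    have a2 : ω q k = (fl (b q) (z q)).2.1 := congrArg (fun y => y.2.1) (hz q)
    have a3 : ω' p k = (fl (b' p) (z p)).2.1 := congrArg (fun y => y.2.1) (hz' p)
    have a4 : ω' q k = (fl (b' q) (z q)).2.1 := congrArg (fun y => y.2.1) (hz' q)
    rw [a1, a2, a3, a4, ← hoff p hp] at this
    have h5 := hg.2.1.2
    simp only [ne_eq, Fin.ext_iff] at this
    revert this
    cases b p <;> cases b q <;> cases b' q <;> simp [fl, sw_val] <;> split_ifs <;> omega
  have h2 : (univ : Finset ({x // x ∉ SS z} → Bool)).card = 2 ^ (n - (SS z).card) := by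
    rw [card_univ, Fintype.card_fun, Fintype.card_bool, Fintype.card_subtype_compl]
    simp
  have h3 : (SS z).card ≤ n := by simpa using card_le_univ (SS z)
  calc _ ≤ 2 ^ (n - (SS z).card) * 2 ^ (SS z).card := by rw [← h2]; gcongr
    _ = _ := by rw [← pow_add]; congr 1; omega

open Classical in
theorem cp_sum (π : Equiv.Perm (Fin n)) :
    ∑ z : Fin n → YY e k, (if Cp k π z then (2 : ℝ) ^ (SS z).card else 0)
      ≤ Fintype.card (Fin n → YY e k) := by
  have h1 : ∀ b : Fin n → Bool,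
      ∑ z : Fin n → YY e k, (if Cp k π z then (2 : ℝ) ^ (SS z).card else 0)
      = ∑ z : Fin n → YY e k,
        (if Cp k π (fun x => fl (b x) (z x)) then (2 : ℝ) ^ (SS z).card else 0) := by
    intro b
    let E : Equiv.Perm (Fin n → YY e k) := Function.Involutive.toPerm
      (fun z x => fl (b x) (z x)) (fun z => funext fun x => fl_fl _ _)
    rw [← Equiv.sum_comp E]
    refine sum_congr rfl fun z _ => ?_
    have : SS (E z) = SS z := by
      unfold SS
      refine filter_congr fun q _ => exists_congr fun p => Good_fl z b p q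
    rw [this]
    rfl
  have h2 : (2 : ℝ) ^ n * ∑ z : Fin n → YY e k, (if Cp k π z then (2 : ℝ) ^ (SS z).card else 0)
      ≤ 2 ^ n * Fintype.card (Fin n → YY e k) := by
    calc _ = ∑ b : Fin n → Bool, ∑ z : Fin n → YY e k,
            (if Cp k π (fun x => fl (b x) (z x)) then (2 : ℝ) ^ (SS z).card else 0) := by
          rw [← sum_congr rfl fun b _ => h1 b]
          simp
      _ = ∑ z : Fin n → YY e k, ∑ b : Fin n → Bool,
            (if Cp k π (fun x => fl (b x) (z x)) then (2 : ℝ) ^ (SS z).card else 0) := sum_comm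
      _ ≤ ∑ z : Fin n → YY e k, (2 : ℝ) ^ n := by
          refine sum_le_sum fun z _ => ?_
          rw [← sum_filter, sum_const, nsmul_eq_mul]
          exact_mod_cast bits_card π z
      _ = _ := by simp [mul_comm]
  exact le_of_mul_le_mul_left h2 (by positivity)

end Pool.Agent.H69.Per
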