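import Mathlib
import Pool.Agent.H69.Per2

set_option autoImplicit false

namespace Pool.Agent.H69.Per

open Finset

variable {e n k : ℕ}

theorem half_card (c0 : Fin (2 * e)) :
    (univ.filter fun c : Fin (2 * e) => (c0 : ℕ) / 2 = (c : ℕ) / 2).card = 2 := by
  have : (univ.filter fun c : Fin (2 * e) => (c0 : ℕ) / 2 = (c : ℕ) / 2) = {c0, sw e c0} := by
    ext c
    simp only [mem_filter, mem_univ, true_and, mem_insert, mem_singleton, Fin.ext_iff, sw_val]
    split_ifs <;> omega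
  rw [this, card_pair]
  intro h
  have := congrArg Fin.val h
  rw [sw_val] at this
  split_ifs at this <;> omega

theorem card_YY : (Fintype.card (YY e k) : ℝ) = (2 * e : ℝ) ^ (k + 2) := by
  simp [YY, pow_succ, mul_assoc]

theorem SK_card (he : 0 < e) (y0 : YY e k) :
    ((univ.filter fun y => SK y0 y).card : ℝ) = (2 / (2 * e : ℝ) ^ (k + 1)) * Fintype.card (YY e k) := by
  have : (univ.filter fun y => SK y0 y) = {y0.1} ×ˢ
      ((univ.filter fun c : Fin (2 * e) => (y0.2.1 : ℕ) / 2 = (c : ℕ) / 2) ×ˢ univ) := by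
    ext y
    simp only [SK, mem_filter, mem_univ, true_and, mem_product, mem_singleton, and_true]
    rw [eq_comm]
  rw [this, card_product, card_product, half_card, card_YY]
  have : (0 : ℝ) < e := by exact_mod_cast he
  simp
  field_simp
  ring

def SK2 (y y' : YY e k) : Prop := SK y y' ∧ (y.2.2 : ℕ) / 2 = (y'.2.2 : ℕ) / 2

instance (y y' : YY e k) : Decidable (SK2 y y') := by unfold SK2; infer_instance

theorem SK2_card (he : 0 < e) (y0 : YY e k) :
    ((univ.filter fun y => SK2 y0 y).card : ℝ)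
      = (4 / (2 * e : ℝ) ^ (k + 2)) * Fintype.card (YY e k) := by
  have : (univ.filter fun y => SK2 y0 y) = {y0.1} ×ˢ
      ((univ.filter fun c : Fin (2 * e) => (y0.2.1 : ℕ) / 2 = (c : ℕ) / 2) ×ˢ
        (univ.filter fun c : Fin (2 * e) => (y0.2.2 : ℕ) / 2 = (c : ℕ) / 2)) := by
    ext y
    simp only [SK2, SK, mem_filter, mem_univ, true_and, mem_product, mem_singleton, and_assoc]
    rw [eq_comm]
  rw [this, card_product, card_product, half_card, half_card, card_YY]
  have : (0 : ℝ) < e := by exact_mod_cast he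
  simp
  field_simp

theorem neYY (he : 0 < e) : Nonempty (YY e k) :=
  ⟨(fun _ => ⟨0, by omega⟩, ⟨0, by omega⟩, ⟨0, by omega⟩)⟩

theorem sum_SK (he : 0 < e) {p q : Fin n} (hpq : p ≠ q) :
    ∑ z : Fin n → YY e k, (if SK (z p) (z q) then (1 : ℝ) else 0)
      = 2 / (2 * e : ℝ) ^ (k + 1) * Fintype.card (Fin n → YY e k) := by
  haveI := neYY (k := k) he
  have := sum_cond p q hpq (fun a b : YY e k => SK a b) _ (SK_card he) (fun _ => 1)
    (fun _ _ => rfl)
  simpa using this

theorem sum_SK2 (he : 0 < e) {p q : Fin n} (hpq : p ≠ q) :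
    ∑ z : Fin n → YY e k, (if SK2 (z p) (z q) then (1 : ℝ) else 0)
      = 4 / (2 * e : ℝ) ^ (k + 2) * Fintype.card (Fin n → YY e k) := by
  haveI := neYY (k := k) he
  have := sum_cond p q hpq (fun a b : YY e k => SK2 a b) _ (SK2_card he) (fun _ => 1)
    (fun _ _ => rfl)
  simpa using this

theorem sum_SK3 (he : 0 < e) {p q r : Fin n} (hpq : p ≠ q) (hpr : p ≠ r) (hqr : q ≠ r) :
    ∑ z : Fin n → YY e k, (if SK (z p) (z q) then (1 : ℝ) else 0) *
        (if SK (z p) (z r) then (1 : ℝ) else 0)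
      = (2 / (2 * e : ℝ) ^ (k + 1)) ^ 2 * Fintype.card (Fin n → YY e k) := by
  haveI := neYY (k := k) he
  rw [sum_cond p r hpr (fun a b : YY e k => SK a b) _ (SK_card he)
    (fun z => if SK (z p) (z q) then (1 : ℝ) else 0)
    (fun z y => by simp only [Function.update_of_ne hpr, Function.update_of_ne hqr]),
    sum_SK he hpq]
  ring

theorem sum_II (he : 0 < e) : ∑ z : Fin n → YY e k, II z
    ≤ (n : ℝ) ^ 2 * (2 / (2 * e : ℝ) ^ (k + 1)) * Fintype.card (Fin n → YY e k) := by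
  unfold II
  rw [sum_comm]
  calc _ ≤ ∑ _p : Fin n, ∑ _q : Fin n,
        2 / (2 * e : ℝ) ^ (k + 1) * Fintype.card (Fin n → YY e k) := by
        refine sum_le_sum fun p _ => ?_
        rw [sum_comm]
        refine sum_le_sum fun q _ => ?_
        by_cases hpq : p = q
        · simp only [hpq, ne_eq, not_true, false_and, if_false, sum_const_zero]
          positivity
        · simp only [ne_eq, hpq, not_false_iff, true_and]
          exact (sum_SK he hpq).le
    _ = _ := by simp only [sum_const, card_univ, Fintype.card_fin, nsmul_eq_mul]; ring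

theorem SS_ge (z : Fin n → YY e k) :
    ∑ q, ∑ p, (if Good z p q then (1 : ℝ) else 0) ≤ (SS z).card := by
  rw [SS, card_filter]
  push_cast
  refine sum_le_sum fun q _ => ?_
  split_ifs with h
  · obtain ⟨p, hp⟩ := h
    rw [sum_eq_single p]
    · simp [hp]
    · intro p' _ hne
      rw [if_neg]
      intro hp'
      rcases hp.2.2.2 p' (SK_trans hp.2.1 (SK_symm hp'.2.1)) with h1 | h1
      · exact hne h1
      · exact hp'.1.ne h1
    · simp
  · push Not at h
    simp [h]

theorem good_ge (z : Fin n → YY e k) {p q : Fin n} (hpq : p < q) :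
    (if SK (z p) (z q) then (1 : ℝ) else 0) - (if SK2 (z p) (z q) then (1 : ℝ) else 0)
      - ∑ r ∈ univ.filter (fun r => p ≠ r ∧ q ≠ r), (if SK (z p) (z q) then (1 : ℝ) else 0) *
        (if SK (z p) (z r) then (1 : ℝ) else 0) ≤ if Good z p q then (1 : ℝ) else 0 := by
  have h0 : ∀ r, 0 ≤ (if SK (z p) (z q) then (1 : ℝ) else 0) *
        (if SK (z p) (z r) then (1 : ℝ) else 0) := fun r => by split_ifs <;> norm_num
  have h1 := sum_nonneg fun r (_ : r ∈ univ.filter (fun r => p ≠ r ∧ q ≠ r)) => h0 r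
  by_cases hg : Good z p q
  · rw [if_pos hg]
    have : (if SK (z p) (z q) then (1 : ℝ) else 0) - (if SK2 (z p) (z q) then (1 : ℝ) else 0) ≤ 1 := by
      split_ifs <;> norm_num
    linarith
  rw [if_neg hg]
  by_cases h2 : SK (z p) (z q)
  swap
  · have : ¬ SK2 (z p) (z q) := fun h => h2 h.1
    simp [h2, this]
  by_cases h3 : SK2 (z p) (z q)
  · rw [if_pos h2, if_pos h3] at *
    linarith
  have h4 : ∃ r, SK (z p) (z r) ∧ r ≠ p ∧ r ≠ q := by
    by_contra h5
    push Not at h5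
    refine hg ⟨hpq, h2, fun h6 => h3 ⟨h2, h6⟩, fun r hr => ?_⟩
    by_cases h7 : r = p
    · exact Or.inl h7
    · exact Or.inr (h5 r hr h7)
  obtain ⟨r, hr, h5, h6⟩ := h4
  have := single_le_sum (fun r (_ : r ∈ univ.filter (fun r => p ≠ r ∧ q ≠ r)) => h0 r)
    (a := r) (by simp [Ne.symm h5, Ne.symm h6])
  rw [if_neg h3]
  rw [if_pos h2, if_pos hr] at this
  rw [if_pos h2]
  linarith

theorem sum_good (he : 4 ≤ e) (hn : 4 * n = (2 * e) ^ (k + 1)) {p q : Fin n} (hpq : p < q) :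
    1 / (8 * n : ℝ) * Fintype.card (Fin n → YY e k)
      ≤ ∑ z : Fin n → YY e k, if Good z p q then (1 : ℝ) else 0 := by
  have he0 : 0 < e := by omega
  refine le_trans ?_ (sum_le_sum fun z _ => good_ge z hpq)
  rw [sum_sub_distrib, sum_sub_distrib, sum_SK he0 hpq.ne, sum_SK2 he0 hpq.ne, sum_comm,
    sum_congr rfl fun r hr => sum_SK3 he0 hpq.ne (mem_filter.1 hr).2.1 (mem_filter.1 hr).2.2,
    sum_const, nsmul_eq_mul]
  have h1 : ((univ.filter (fun r => p ≠ r ∧ q ≠ r)).card : ℝ) ≤ n := by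
    have := card_le_univ (univ.filter (fun r => p ≠ r ∧ q ≠ r))
    rw [Fintype.card_fin] at this
    exact_mod_cast this
  have hn' : (2 * e : ℝ) ^ (k + 1) = 4 * n := by exact_mod_cast hn.symm
  have hn0 : (0 : ℝ) < n := by
    have := p.pos
    exact_mod_cast this
  have he' : (4 : ℝ) ≤ e := by exact_mod_cast he
  rw [pow_succ _ (k + 1), hn']
  set Z : ℝ := ((Fintype.card (Fin n → YY e k) : ℕ) : ℝ)
  have hZ : 0 ≤ Z := Nat.cast_nonneg _
  set c : ℝ := ((univ.filter (fun r => p ≠ r ∧ q ≠ r)).card : ℝ)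
  have a1 : 4 / (4 * n * (2 * e) : ℝ) ≤ 1 / (8 * n) := by
    rw [div_le_div_iff₀ (by positivity) (by positivity)]
    nlinarith
  have a2 : c * (2 / (4 * n : ℝ)) ^ 2 ≤ 2 / (8 * n) := by
    calc _ ≤ n * (2 / (4 * n : ℝ)) ^ 2 := by gcongr
      _ = _ := by field_simp; ring
  have a3 : 2 / (4 * n : ℝ) = 4 * (1 / (8 * n)) := by field_simp; ring
  have a4 : 2 / (8 * n : ℝ) = 2 * (1 / (8 * n)) := by field_simp
  have a5 := mul_le_mul_of_nonneg_right a1 hZ
  have a6 := mul_le_mul_of_nonneg_right a2 hZ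
  have a7 : 2 / (4 * n : ℝ) * Z = 4 * (1 / (8 * n) * Z) := by rw [a3]; ring
  rw [a4] at a6
  nlinarith

theorem sum_SS (he : 4 ≤ e) (hn : 4 * n = (2 * e) ^ (k + 1)) :
    ((n : ℝ) - 1) / 16 * Fintype.card (Fin n → YY e k)
      ≤ ∑ z : Fin n → YY e k, ((SS z).card : ℝ) := by
  refine le_trans ?_ (sum_le_sum fun z _ => SS_ge z)
  rw [sum_comm]
  have hn0 : 0 < n := by
    have : 0 < (2 * e) ^ (k + 1) := by positivity
    omega
  have hn0' : (0 : ℝ) < n := by exact_mod_cast hn0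
  set Z : ℝ := ((Fintype.card (Fin n → YY e k) : ℕ) : ℝ)
  have h1 : ∀ q : Fin n, (q : ℝ) * (1 / (8 * n : ℝ) * Z)
      ≤ ∑ z : Fin n → YY e k, ∑ p, if Good z p q then (1 : ℝ) else 0 := by
    intro q
    rw [sum_comm]
    calc _ = ∑ _p ∈ Iio q, 1 / (8 * n : ℝ) * Z := by simp
      _ ≤ ∑ p ∈ Iio q, ∑ z : Fin n → YY e k, if Good z p q then (1 : ℝ) else 0 :=
          sum_le_sum fun p hp => sum_good he hn (mem_Iio.1 hp)
      _ ≤ _ := sum_le_sum_of_subset_of_nonneg (subset_univ _) fun p _ _ =>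
          sum_nonneg fun z _ => by split_ifs <;> norm_num
  refine le_trans (le_of_eq ?_) (sum_le_sum fun q _ => h1 q)
  rw [← sum_mul, Fin.sum_univ_eq_sum_range (fun i => (i : ℝ)) n]
  have h2 : (∑ i ∈ range n, (i : ℝ)) * 2 = n * (n - 1) := by
    have := sum_range_id_mul_two n
    have h3 : ((n - 1 : ℕ) : ℝ) = n - 1 := by rw [Nat.cast_sub hn0]; simp
    rw [← h3]
    have h4 := congrArg (Nat.cast : ℕ → ℝ) this
    rw [Nat.cast_mul, Nat.cast_mul, Nat.cast_sum] at h4
    simpa using h4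
  have h3 : (∑ i ∈ range n, (i : ℝ)) = n * (n - 1) / 2 := by linarith
  rw [h3]
  field_simp
  ring

theorem lower (he : 4 ≤ e) (hn : 4 * n = (2 * e) ^ (k + 1))
    (q : Equiv.Perm (Fin n) → (Fin n → YY e k) → ℝ) (hq : ∀ π z, 0 ≤ q π z)
    (h1 : ∀ z, ∑ π, q π z = 1 / Fintype.card (Fin n → YY e k))
    (h2 : ∀ π z, q π z ≠ 0 → Cp k π z) :
    ((n : ℝ) - 1) / 16 * Real.log 2 ≤ ∑ π, Real.negMulLog (∑ z, q π z) := by
  classical
  haveI := neYY (k := k) (show 0 < e by omega)
  have hZ : (0 : ℝ) < Fintype.card (Fin n → YY e k) := by exact_mod_cast Fintype.card_pos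
  refine le_trans ?_ (ent_lb q hq (fun z => (SS z).card * Real.log 2) fun π => ?_)
  · rw [sum_comm]
    simp_rw [← sum_mul, h1]
    rw [← mul_sum, ← sum_mul]
    have := sum_SS he hn
    have h3 : ((n : ℝ) - 1) / 16 ≤ 1 / Fintype.card (Fin n → YY e k) *
        ∑ z : Fin n → YY e k, ((SS z).card : ℝ) := by
      rw [one_div, ← div_eq_inv_mul, le_div_iff₀ hZ]; exact this
    rw [← mul_assoc]
    exact mul_le_mul_of_nonneg_right h3 (Real.log_nonneg (by norm_num))
  · have h3 := cp_sum (e := e) (k := k) π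
    calc _ ≤ ∑ z : Fin n → YY e k, 1 / (Fintype.card (Fin n → YY e k) : ℝ) *
          (if Cp k π z then (2 : ℝ) ^ (SS z).card else 0) := by
          refine sum_le_sum fun z _ => ?_
          by_cases hz : q π z = 0
          · rw [hz, zero_mul]; split_ifs <;> positivity
          · rw [if_pos (h2 π z hz), Real.exp_nat_mul, Real.exp_log (by norm_num), ← h1 z]
            gcongr
            exact single_le_sum (fun π _ => hq π z) (mem_univ π)
      _ ≤ 1 := by
          rw [← mul_sum, one_div, ← div_eq_inv_mul, div_le_one hZ]; exact h3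

theorem upper (he : 0 < e) (s t : ℝ) (hs0 : 0 < s) (hs1 : s < 1) (ht0 : 0 < t) (ht1 : t < 1)
    (q : Equiv.Perm (Fin n) → (Fin n → YY e k) → ℝ) (hq : ∀ π z, 0 ≤ q π z)
    (h1 : ∀ z, ∑ π, q π z = 1 / Fintype.card (Fin n → YY e k))
    (h2 : ∀ π z, q π z ≠ 0 → Cp k π z) :
    ∑ π, Real.negMulLog (∑ z, q π z) ≤ -((2 * e : ℝ) ^ k * Real.log (1 - s) + n * Real.log s
      + n * Real.log (1 - t)) - (n : ℝ) ^ 2 * (2 / (2 * e : ℝ) ^ (k + 1)) * Real.log t := by
  classical
  haveI := neYY (k := k) he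
  have hZ : (0 : ℝ) < Fintype.card (Fin n → YY e k) := by exact_mod_cast Fintype.card_pos
  let K := ((Fin k → Fin (2 * e)) → Fin (n + 1)) × (Fin n → Fin (n + 1))
  let wt : K → ℝ := fun κ =>
    ((1 - s) ^ Fintype.card (Fin k → Fin (2 * e)) * s ^ (∑ i, (κ.1 i : ℕ))) *
    ((1 - t) ^ Fintype.card (Fin n) * t ^ (∑ i, (κ.2 i : ℕ)))
  have hwt : ∀ κ, 0 ≤ wt κ := fun κ => by
    have := sub_pos.2 hs1
    have := sub_pos.2 ht1
    positivity
  have hwt1 : ∑ κ, wt κ ≤ 1 := by
    rw [Fintype.sum_prod_type]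
    simp only [wt]
    rw [← sum_mul_sum]
    refine mul_le_one₀ (geo _ s hs0.le hs1) (sum_nonneg fun c _ => ?_) (geo _ t ht0.le ht1)
    have := sub_pos.2 ht1
    positivity
  let R : Equiv.Perm (Fin n) → K → Prop := fun π κ => ∃ (ω : Fin n → ℕ → Fin (2 * e))
    (τ : Equiv.Perm (Fin n)), C ω τ π ∧ (∀ w, (κ.1 w : ℕ) = cnt k ω τ w) ∧
      ∀ r, (κ.2 r : ℕ) = tab k ω τ π r
  let Q : Equiv.Perm (Fin n) → ℝ := fun π => ∑ κ, if R π κ then wt κ else 0
  have hQ0 : ∀ π, 0 ≤ Q π := fun π => sum_nonneg fun κ _ => by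
    split_ifs
    · exact hwt κ
    · exact le_rfl
  have hQ : ∑ π, Q π ≤ 1 := by
    refine le_trans ?_ hwt1
    simp only [Q]
    rw [sum_comm]
    refine sum_le_sum fun κ _ => ?_
    by_cases hex : ∃ π, R π κ
    · obtain ⟨π, hπ⟩ := hex
      rw [sum_eq_single π]
      · rw [if_pos hπ]
      · intro π' _ hne
        rw [if_neg]
        rintro ⟨ω', τ', c', a', b'⟩
        obtain ⟨ω, τ, c, a, b⟩ := hπ
        exact hne (code_inj (k := k) c' c (fun w => by rw [← a, ← a']) (fun r => by rw [← b, ← b']))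
      · simp
    · push Not at hex
      simp [hex, hwt κ]
  set A := (2 * e : ℝ) ^ k * Real.log (1 - s) + n * Real.log s + n * Real.log (1 - t) with hA
  have hlt : Real.log t < 0 := Real.log_neg ht0 ht1
  refine le_trans (ent_ub q hq ?_ Q hQ0 hQ (fun z => -A - II z * Real.log t) ?_) ?_
  · rw [sum_comm]
    simp_rw [h1]
    rw [sum_const, card_univ, nsmul_eq_mul]
    field_simp
  · intro π z hz
    obtain ⟨ω, τ, c, hz⟩ := h2 π z hz
    have b1 : ∀ w, cnt k ω τ w < n + 1 := fun w => Nat.lt_succ_of_le (by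
      simpa [cnt] using card_le_univ (univ.filter fun r => (trunc k (ω (τ r))).1 = w))
    have b2 : ∀ r, tab k ω τ π r < n + 1 := fun r => Nat.lt_succ_of_le (by
      unfold tab
      exact (card_le_univ _).trans (by simp))
    let κ : K := (fun w => ⟨_, b1 w⟩, fun r => ⟨_, b2 r⟩)
    have hR : R π κ := ⟨ω, τ, c, fun _ => rfl, fun _ => rfl⟩
    have h3 : wt κ ≤ Q π := by
      have := single_le_sum (f := fun κ => if R π κ then wt κ else 0) (s := univ)
        (fun κ _ => by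
          split_ifs
          · exact hwt κ
          · exact le_rfl) (mem_univ κ)
      simpa [hR] using this
    refine le_trans ?_ h3
    have h4 := tab_le (k := k) c
    have h5 : (fun p => trunc k (ω p)) = z := funext hz
    rw [h5] at h4
    have h6 : wt κ = Real.exp (A + (∑ r, tab k ω τ π r : ℕ) * Real.log t) := by
      simp only [wt, κ, cnt_sum, hA]
      have c1 : (2 * e : ℝ) ^ k = ((Fintype.card (Fin k → Fin (2 * e)) : ℕ) : ℝ) := by simp
      rw [c1, Real.exp_add, Real.exp_add, Real.exp_add, Real.exp_nat_mul, Real.exp_nat_mul,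
        Real.exp_nat_mul, Real.exp_nat_mul, Real.exp_log hs0, Real.exp_log ht0,
        Real.exp_log (sub_pos.2 hs1), Real.exp_log (sub_pos.2 ht1), Fintype.card_fin]
      ring
    rw [h6]
    apply Real.exp_le_exp.2
    nlinarith
  · rw [sum_comm]
    simp_rw [← sum_mul, h1]
    rw [← mul_sum, sum_sub_distrib, ← sum_mul, sum_const, card_univ, nsmul_eq_mul]
    have h3 := sum_II (n := n) (k := k) he
    rw [one_div, ← div_eq_inv_mul, div_le_iff₀ hZ]
    nlinarith [mul_le_mul_of_nonneg_right h3 (neg_pos.2 hlt).le]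

end Pool.Agent.H69.Per
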