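import Mathlib

/-! Definitions for random fractal permutons and their sampling entropy. -/

set_option autoImplicit false

namespace Pool.Agent.H69.Per

open MeasureTheory

/-- Independent uniform base-`d` digits `a 0, a 1, ...`. -/
noncomputable def dig (d : ℕ) [NeZero d] : Measure (ℕ → Fin d) :=
  Measure.infinitePi fun _ : ℕ => (PMF.uniformOfFintype (Fin d)).toMeasure

/-- The automorphism of the `d`-ary tree with portrait `s`: the digit `a i` is moved by the
permutation attached to the vertex `(a 0, ..., a (i-1))`. -/
def act {d : ℕ} (s : List (Fin d) → Equiv.Perm (Fin d)) (a : ℕ → Fin d) : ℕ → Fin d :=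
  fun i => s (List.ofFn fun j : Fin i => a j) (a i)

/-- The limit permuton of the refinement steps with permutations `s w` (one for each kept square,
indexed by the word `w` of its column digits): the law of
`(0.a₀a₁a₂..., 0.b₀b₁b₂...)` in base `d`, with `a` uniform and `b = act s a`. -/
noncomputable def permuton {d : ℕ} [NeZero d] (s : List (Fin d) → Equiv.Perm (Fin d)) :
    Measure (ℝ × ℝ) :=
  (dig d).map fun a => (Real.ofDigits a, Real.ofDigits (act s a))

/-- The `n`-tuples of points with pattern `π`: listed by increasing `x`-coordinate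
(`τ r` is the point of `x`-rank `r`), the point of `x`-rank `r` has `y`-rank `π r`. -/
def pat {n : ℕ} (π : Equiv.Perm (Fin n)) : Set (Fin n → ℝ × ℝ) :=
  {p | ∃ τ : Equiv.Perm (Fin n),
    StrictMono (fun r => (p (τ r)).1) ∧ StrictMono (fun r => (p (τ (π⁻¹ r))).2)}

/-- Sampling entropy: Shannon entropy of the pattern of `n` i.i.d. points with law `μ`. -/
noncomputable def H (μ : Measure (ℝ × ℝ)) (n : ℕ) : ℝ :=
  ∑ π : Equiv.Perm (Fin n), Real.negMulLog ((Measure.pi fun _ : Fin n => μ).real (pat π))

/-- The discrete sigma-algebra on `Sym(d)`. -/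
instance permMeas (d : ℕ) : MeasurableSpace (Equiv.Perm (Fin d)) := ⊤

/-- Independent permutations with law `F`, one for each vertex of the tree. -/
noncomputable def portraits {d : ℕ} (F : PMF (Equiv.Perm (Fin d))) :
    Measure (List (Fin d) → Equiv.Perm (Fin d)) :=
  Measure.infinitePi fun _ : List (Fin d) => F.toMeasure

end Pool.Agent.H69.Per
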