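import Mathlib
import Pool.Agent.H69.Per3
import Pool.Agent.H69.PerDefs

set_option autoImplicit false

namespace Pool.Agent.H69.Per

open Finset MeasureTheory Filter Topology
open Real (ofDigits)

instance (d : ℕ) [NeZero d] : IsProbabilityMeasure (dig d) := by unfold dig; infer_instance

theorem cyl {d : ℕ} [NeZero d] (a : ℕ → Fin d) (L : ℕ) :
    dig d {b | ∀ i < L, b i = a i} = ((d : ENNReal)⁻¹) ^ L := by
  have : {b : ℕ → Fin d | ∀ i < L, b i = a i} = Set.pi (range L : Finset ℕ) fun i => {a i} := by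
    ext b; simp
  rw [this, dig, Measure.infinitePi_pi _ (fun _ _ => measurableSet_singleton _)]
  simp [PMF.toMeasure_apply_singleton]

theorem dig_single {d : ℕ} [NeZero d] (hd : 2 ≤ d) (a : ℕ → Fin d) : dig d {a} = 0 := by
  have h1 : ∀ L, dig d {a} ≤ ((d : ENNReal)⁻¹) ^ L := fun L => by
    rw [← cyl a L]
    apply measure_mono
    rintro b rfl
    simp
  have h2 : Tendsto (fun L => ((d : ENNReal)⁻¹) ^ L) atTop (𝓝 0) := by
    apply ENNReal.tendsto_pow_atTop_nhds_zero_of_lt_one
    rw [ENNReal.inv_lt_one]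
    exact_mod_cast hd
  exact le_antisymm (ge_of_tendsto' h2 h1) zero_le

theorem ev_null {d : ℕ} [NeZero d] (hd : 2 ≤ d) (c : Fin d) :
    dig d {a | ∃ j, ∀ i, j < i → a i = c} = 0 := by
  haveI : NullSingletonClass (dig d) := ⟨dig_single hd⟩
  apply Set.Countable.measure_zero
  rw [Set.setOf_exists]
  refine Set.countable_iUnion fun j => Set.Finite.countable ?_
  refine (Set.finite_range fun (w : Fin (j + 1) → Fin d) (i : ℕ) =>
    if h : i < j + 1 then w ⟨i, h⟩ else c).subset ?_
  intro a ha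
  refine ⟨fun i => a i, funext fun i => ?_⟩
  by_cases h : i < j + 1
  · simp [h]
  · simp only [h, dif_neg, not_false_iff]
    exact (ha i (by omega)).symm

variable {e n k : ℕ} [NeZero (2 * e)]

noncomputable def PP (e n : ℕ) [NeZero (2 * e)] : Measure (Fin n → ℕ → Fin (2 * e)) :=
  Measure.pi fun _ => dig (2 * e)

instance : IsProbabilityMeasure (PP e n) := by unfold PP; infer_instance

def TT (z : Fin n → YY e k) : Set (Fin n → ℕ → Fin (2 * e)) := {ω | ∀ x, trunc k (ω x) = z x}

def ex (y : YY e k) : ℕ → Fin (2 * e) :=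
  fun i => if h : i < k then y.1 ⟨i, h⟩ else if i = k then y.2.1 else y.2.2

omit [NeZero (2 * e)] in
theorem trunc_eq (a : ℕ → Fin (2 * e)) (y : YY e k) :
    trunc k a = y ↔ ∀ i < k + 2, a i = ex y i := by
  constructor
  · rintro rfl i hi
    unfold ex trunc
    split_ifs with h1 h2
    · rfl
    · rw [h2]
    · have : i = k + 1 := by omega
      rw [this]
  · intro h
    refine Prod.ext (funext fun i => ?_) (Prod.ext ?_ ?_)
    · have := h i (by omega)
      simpa [ex, trunc] using this
    · have := h k (by omega)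
      simpa [ex, trunc] using this
    · have := h (k + 1) (by omega)
      simpa [ex, trunc] using this

omit [NeZero (2 * e)] in
theorem TT_eq (z : Fin n → YY e k) :
    TT z = Set.univ.pi fun x => {b | ∀ i < k + 2, b i = ex (z x) i} := by
  ext ω; simp [TT, trunc_eq]

omit [NeZero (2 * e)] in
theorem TT_meas (z : Fin n → YY e k) : MeasurableSet (TT z) := by
  rw [TT_eq]
  refine MeasurableSet.univ_pi fun x => ?_
  refine measurableSet_setOf.2 (Measurable.forall fun i => Measurable.imp measurable_const ?_)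
  exact measurableSet_setOf.1 (measurable_pi_apply i (measurableSet_singleton _))

theorem TT_prob (z : Fin n → YY e k) :
    (PP e n).real (TT z) = 1 / Fintype.card (Fin n → YY e k) := by
  rw [TT_eq, Measure.real, PP, Measure.pi_pi]
  simp_rw [cyl]
  rw [Fintype.card_fun, Nat.cast_pow, card_YY]
  simp
  rw [← inv_pow, ← inv_pow, mul_inv, mul_comm]

theorem diag_null (he : 0 < e) {p q : Fin n} (hpq : p ≠ q) : PP e n {ω | ω p = ω q} = 0 := by
  have h1 : ∀ k, (PP e n).real {ω | ω p = ω q} ≤ 2 * (1 / 2) ^ k := by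
    intro k
    haveI := neYY (k := k) he
    have hZ : (0 : ℝ) < Fintype.card (Fin n → YY e k) := by exact_mod_cast Fintype.card_pos
    calc _ ≤ (PP e n).real
          (⋃ z ∈ univ.filter (fun z : Fin n → YY e k => SK (z p) (z q)), TT z) := by
          refine measureReal_mono ?_ (measure_ne_top _ _)
          intro ω hω
          simp only [Set.mem_iUnion, mem_filter, mem_univ, true_and]
          refine ⟨fun x => trunc k (ω x), ?_, fun _ => rfl⟩
          have : ω p = ω q := hω
          simp only [this]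
          exact SK_refl _
      _ ≤ _ := measureReal_biUnion_finset_le _ _
      _ = (∑ z : Fin n → YY e k, (if SK (z p) (z q) then (1 : ℝ) else 0)) /
            Fintype.card (Fin n → YY e k) := by
          simp_rw [TT_prob]
          rw [sum_filter, sum_div]
          refine sum_congr rfl fun z _ => ?_
          split_ifs <;> simp
      _ = 2 / (2 * e : ℝ) ^ (k + 1) := by
          rw [sum_SK he hpq]; field_simp
      _ ≤ _ := by
          have h3 : (1 : ℝ) ≤ e := by exact_mod_cast he
          have h4 : (2 : ℝ) ^ k ≤ (2 * e : ℝ) ^ (k + 1) :=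
            (pow_le_pow_right₀ (by norm_num) (Nat.le_succ k)).trans
              (pow_le_pow_left₀ (by norm_num) (by linarith) _)
          rw [one_div_pow, mul_one_div]
          gcongr
  have h2 : Tendsto (fun k : ℕ => 2 * (1 / 2 : ℝ) ^ k) atTop (𝓝 (2 * 0)) :=
    (tendsto_pow_atTop_nhds_zero_of_lt_one (by norm_num) (by norm_num)).const_mul 2
  have h3 := ge_of_tendsto' h2 h1
  rw [mul_zero] at h3
  exact (measureReal_eq_zero_iff (measure_ne_top _ _)).1 (le_antisymm h3 measureReal_nonneg)

theorem od_inj {d : ℕ} [NeZero d] {a b : ℕ → Fin d} (hab : a ≠ b)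
    (ha : ¬ ∃ j, ∀ i, j < i → a i = 0) (hb : ¬ ∃ j, ∀ i, j < i → b i = 0) :
    ofDigits a ≠ ofDigits b := by
  classical
  intro h
  have hex : ∃ j, a j ≠ b j := Function.ne_iff.1 hab
  have hj := Nat.find_spec hex
  have hmin : ∀ i < Nat.find hex, a i = b i := fun i hi => not_not.1 (Nat.find_min hex hi)
  rcases lt_or_gt_of_ne hj with h1 | h1
  · exact hb ⟨_, fun i hi => Fin.ext ((od_le a b _ hmin h1).2 h i hi)⟩
  · exact ha ⟨_, fun i hi => Fin.ext
      ((od_le b a _ (fun i hi => (hmin i hi).symm) h1).2 h.symm i hi)⟩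

def EE (π : Equiv.Perm (Fin n)) : Set (Fin n → ℕ → Fin (2 * e)) := {ω | ∃ τ, C ω τ π}

theorem ae_EE (he : 0 < e) : ∀ᵐ ω ∂(PP e n), ∃ π, ω ∈ EE π := by
  have h1 : ∀ c : Fin (2 * e), ∀ᵐ ω ∂(PP e n), ∀ p, ¬ ∃ j, ∀ i, j < i → ω p i = c := by
    intro c
    refine ae_all_iff.2 fun p => ?_
    rw [ae_iff]
    simp only [not_not]
    exact Measure.pi_eval_preimage_null (fun _ => dig (2 * e)) (i := p)
      (ev_null (by omega) c)
  have h2 : ∀ᵐ ω ∂(PP e n), ∀ p q, p ≠ q → ω p ≠ ω q := by
    refine ae_all_iff.2 fun p => ae_all_iff.2 fun q => ?_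
    by_cases hpq : p = q
    · simp [hpq]
    · rw [ae_iff]
      simpa [hpq] using diag_null he hpq
  filter_upwards [h1 0, h1 ((sw e).symm 0), h2] with ω a1 a2 a3
  have i1 : Function.Injective fun p => ofDigits (ω p) := by
    intro p q h
    by_contra hpq
    exact od_inj (a3 p q hpq) (a1 p) (a1 q) h
  have i2 : Function.Injective fun p => Yv (ω p) := by
    intro p q h
    by_contra hpq
    refine od_inj (a := fun i => sw e (ω p i)) (b := fun i => sw e (ω q i)) ?_ ?_ ?_ h
    · intro hh
      exact a3 p q hpq (funext fun i => (sw e).injective (congrFun hh i))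
    · simpa [Equiv.eq_symm_apply] using a2 p
    · simpa [Equiv.eq_symm_apply] using a2 q
  let τ := Tuple.sort fun p => ofDigits (ω p)
  let τ' := Tuple.sort fun p => Yv (ω p)
  refine ⟨τ'⁻¹ * τ, τ, ?_, ?_⟩
  · exact (Tuple.monotone_sort _).strictMono_of_injective (i1.comp τ.injective)
  · have := (Tuple.monotone_sort fun p => Yv (ω p)).strictMono_of_injective (i2.comp τ'.injective)
    simpa [Function.comp_def] using this

omit [NeZero (2 * e)] in
theorem EE_disj {π π' : Equiv.Perm (Fin n)} {ω : Fin n → ℕ → Fin (2 * e)} (h : ω ∈ EE π)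
    (h' : ω ∈ EE π') : π = π' := by
  obtain ⟨τ, h⟩ := h
  obtain ⟨τ', h'⟩ := h'
  have aux : ∀ (f : Fin n → ℝ) (τ τ' : Equiv.Perm (Fin n)), StrictMono (f ∘ τ) →
      StrictMono (f ∘ τ') → τ = τ' := by
    intro f τ τ' h h'
    have h1 := Tuple.unique_monotone h.monotone h'.monotone
    have h2 : Function.Injective f := (Function.Injective.of_comp_iff' f τ.bijective).1 h.injective
    exact Equiv.ext fun r => h2 (congrFun h1 r)
  have e1 : τ = τ' := aux (fun p => ofDigits (ω p)) τ τ' h.1 h'.1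
  subst e1
  have e2 : τ * π⁻¹ = τ * π'⁻¹ := aux (fun p => Yv (ω p)) _ _ h.2 h'.2
  simpa using e2

theorem meas_od {d : ℕ} : Measurable (ofDigits : (ℕ → Fin d) → ℝ) :=
  Real.continuous_ofDigits.measurable

theorem meas_f : Measurable fun a : ℕ → Fin (2 * e) => (ofDigits a, Yv a) := by
  refine meas_od.prodMk (meas_od.comp ?_)
  exact measurable_pi_lambda _ fun i => (measurable_of_countable _).comp (measurable_pi_apply i)

theorem pat_meas (π : Equiv.Perm (Fin n)) : MeasurableSet (pat π) := by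
  refine measurableSet_setOf.2 (Measurable.exists fun τ => Measurable.and ?_ ?_)
  · refine Measurable.forall fun a => Measurable.forall fun b =>
      Measurable.imp measurable_const ?_
    exact Measurable.lt (by fun_prop) (by fun_prop)
  · refine Measurable.forall fun a => Measurable.forall fun b =>
      Measurable.imp measurable_const ?_
    exact Measurable.lt (by fun_prop) (by fun_prop)

theorem meas_F : Measurable fun (ω : Fin n → ℕ → Fin (2 * e)) (p : Fin n) =>
    (ofDigits (ω p), Yv (ω p)) :=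
  measurable_pi_lambda _ fun p => meas_f.comp (measurable_pi_apply p)

theorem EE_meas (π : Equiv.Perm (Fin n)) : MeasurableSet (EE (e := e) π) :=
  meas_F (pat_meas π)

theorem H_eq (n : ℕ) : H (permuton fun _ => sw e) n
    = ∑ π : Equiv.Perm (Fin n), Real.negMulLog ((PP e n).real (EE π)) := by
  unfold H
  refine sum_congr rfl fun π _ => ?_
  congr 1
  have h1 : permuton (fun _ => sw e) = (dig (2 * e)).map fun a => (ofDigits a, Yv a) := rfl
  haveI : IsProbabilityMeasure ((dig (2 * e)).map fun a => (ofDigits a, Yv a)) :=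
    Measure.isProbabilityMeasure_map meas_f.aemeasurable
  rw [h1, ← Measure.pi_map_pi (fun _ => meas_f.aemeasurable), Measure.real,
    Measure.map_apply meas_F (pat_meas π)]
  rfl

theorem finite_model (he : 0 < e) (n k : ℕ) :
    ∃ q : Equiv.Perm (Fin n) → (Fin n → YY e k) → ℝ, (∀ π z, 0 ≤ q π z) ∧
      (∀ z, ∑ π, q π z = 1 / Fintype.card (Fin n → YY e k)) ∧
      (∀ π z, q π z ≠ 0 → Cp k π z) ∧
      H (permuton fun _ => sw e) n = ∑ π, Real.negMulLog (∑ z, q π z) := by
  refine ⟨fun π z => (PP e n).real (EE π ∩ TT z), fun _ _ => measureReal_nonneg, ?_, ?_, ?_⟩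
  · intro z
    rw [← measureReal_iUnion_fintype, ← TT_prob z]
    · apply measureReal_congr
      filter_upwards [ae_EE (n := n) he] with ω hω
      obtain ⟨π, hπ⟩ := hω
      apply propext
      constructor
      · intro h
        obtain ⟨π, h⟩ := Set.mem_iUnion.1 h
        exact h.2
      · intro h
        exact Set.mem_iUnion.2 ⟨π, hπ, h⟩
    · intro π π' hne
      exact Set.disjoint_left.2 fun ω h h' => hne (EE_disj h.1 h'.1)
    · exact fun π => (EE_meas π).inter (TT_meas z)
  · intro π z h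
    by_contra h1
    apply h
    have : EE π ∩ TT z = ∅ := by
      apply Set.eq_empty_of_forall_notMem
      rintro ω ⟨⟨τ, h2⟩, h3⟩
      exact h1 ⟨ω, τ, h2, h3⟩
    simp [this]
  · rw [H_eq]
    refine sum_congr rfl fun π _ => ?_
    congr 1
    rw [← measureReal_iUnion_fintype]
    · congr 1
      ext ω
      simp only [Set.mem_iUnion, Set.mem_inter_iff]
      exact ⟨fun h => ⟨fun x => trunc k (ω x), h, fun _ => rfl⟩, fun ⟨_, h, _⟩ => h⟩
    · intro z z' hne
      exact Set.disjoint_left.2 fun ω h h' => hne (funext fun x => (h.2 x).symm.trans (h'.2 x))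
    · exact fun z => (EE_meas π).inter (TT_meas z)

theorem H_lower (he : 4 ≤ e) (hn : 4 * n = (2 * e) ^ (k + 1)) :
    ((n : ℝ) - 1) / 16 * Real.log 2 ≤ H (permuton fun _ => sw e) n := by
  obtain ⟨q, h0, h1, h2, h3⟩ := finite_model (e := e) (by omega) n k
  rw [h3]
  exact lower he hn q h0 h1 h2

theorem H_upper (m : ℕ) (hm : 2 ≤ m) (hme : 2 * e = m * m) (hn : n = m * (2 * e) ^ k) :
    H (permuton fun _ => sw e) n ≤ n * ((4 + 3 * Real.log m) / m) := by
  have he : 0 < e := by nlinarith
  obtain ⟨q, h0, h1, h2, h3⟩ := finite_model (e := e) he n k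
  have hm' : (2 : ℝ) ≤ m := by exact_mod_cast hm
  have hm0 : (0 : ℝ) < m := by linarith
  have t0 : (0 : ℝ) < 1 / m := by positivity
  have t1 : (1 : ℝ) / m ≤ 1 / 2 := by gcongr
  rw [h3]
  refine (upper he (1 - 1 / m) (1 / m) (by linarith) (by linarith) t0 (by linarith)
    q h0 h1 h2).trans ?_
  have e1 : (1 : ℝ) - (1 - 1 / m) = 1 / m := by ring
  have e2 : Real.log (1 / m) = - Real.log m := by rw [one_div, Real.log_inv]
  have e3 : -(2 / m) ≤ Real.log (1 - 1 / m) := by
    have := Real.one_sub_inv_le_log_of_pos (x := 1 - 1 / m) (by linarith)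
    refine le_trans ?_ this
    have h4 : (1 - 1 / m : ℝ)⁻¹ ≤ 1 + 2 / m := by
      rw [inv_le_iff_one_le_mul₀ (by linarith)]
      have : (2 : ℝ) / m = 2 * (1 / m) := by ring
      rw [this]
      nlinarith
    linarith
  have e4 : (2 * e : ℝ) = m * m := by exact_mod_cast hme
  have e5 : (n : ℝ) = m * (2 * e : ℝ) ^ k := by exact_mod_cast hn
  have e6 : (2 * e : ℝ) ^ k = n / m := by rw [e5]; field_simp
  have hn0 : (0 : ℝ) < n := by rw [e5]; positivity
  have e7 : (n : ℝ) ^ 2 * (2 / (2 * e : ℝ) ^ (k + 1)) = 2 * (n / m) := by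
    rw [pow_succ _ k, e6, e4]; field_simp
  rw [e1, e2, e7, e6]
  have e8 := mul_le_mul_of_nonneg_left e3 hn0.le
  have e9 : (n : ℝ) * ((4 + 3 * Real.log m) / m) = 2 * (n * (2 / m)) + 3 * (n / m * Real.log m) := by
    ring
  rw [e9]
  nlinarith

theorem no_limit {e : ℕ} [NeZero (2 * e)] (he : e = 2 ^ 23) :
    ¬ ∃ c, Tendsto (fun n : ℕ => H (permuton fun _ => sw e) n / n) atTop (𝓝 c) := by
  rintro ⟨c, hc⟩
  have hd : 1 < 2 * e := by rw [he]; norm_num
  have hpow : Tendsto (fun k : ℕ => (2 * e) ^ k) atTop atTop := tendsto_pow_atTop_atTop_of_one_lt hd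
  have hl2 := Real.log_two_gt_d9
  have hl3 := Real.log_two_lt_d9
  have h1 : Tendsto (fun k : ℕ => 2 ^ 22 * (2 * e) ^ k) atTop atTop :=
    tendsto_atTop_mono (fun k => Nat.le_mul_of_pos_left _ (by norm_num)) hpow
  have h2 : Tendsto (fun k : ℕ => 2 ^ 12 * (2 * e) ^ k) atTop atTop :=
    tendsto_atTop_mono (fun k => Nat.le_mul_of_pos_left _ (by norm_num)) hpow
  have a1 : (1 / 50 : ℝ) ≤ c := by
    refine ge_of_tendsto' (hc.comp h1) fun k => ?_
    obtain ⟨n, hn⟩ : ∃ n, n = 2 ^ 22 * (2 * e) ^ k := ⟨_, rfl⟩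
    have hn2 : 2 ≤ n := by
      have : 0 < (2 * e) ^ k := by positivity
      omega
    have hn2' : (2 : ℝ) ≤ n := by exact_mod_cast hn2
    have := H_lower (e := e) (n := n) (k := k) (by rw [he]; norm_num)
      (by rw [hn, pow_succ, he]; ring)
    simp only [Function.comp, ← hn]
    rw [le_div_iff₀ (by linarith)]
    nlinarith
  have a2 : c ≤ (1 / 100 : ℝ) := by
    refine le_of_tendsto' (hc.comp h2) fun k => ?_
    obtain ⟨n, hn⟩ : ∃ n, n = 2 ^ 12 * (2 * e) ^ k := ⟨_, rfl⟩
    have hn2 : 0 < n := by rw [hn]; positivity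
    have hn2' : (0 : ℝ) < n := by exact_mod_cast hn2
    have := H_upper (e := e) (n := n) (k := k) (2 ^ 12) (by norm_num) (by rw [he]; norm_num) hn
    simp only [Function.comp, ← hn]
    rw [div_le_iff₀ hn2']
    refine this.trans ?_
    rw [mul_comm]
    refine mul_le_mul_of_nonneg_right ?_ hn2'.le
    rw [Nat.cast_pow, Real.log_pow, div_le_iff₀ (by positivity)]
    norm_num
    linarith
  linarith

end Pool.Agent.H69.Per
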