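import Mathlib

set_option autoImplicit false

namespace Pool.Agent.H69.Pet

abbrev A := Fin 66 → ZMod 2

theorem aa (a : A) : a + a = 0 := by
  funext i; exact CharTwo.add_self_eq_zero _

def wt (a : A) : ℕ := (Finset.univ.filter (fun i => a i ≠ 0)).card

theorem wt_zero : wt 0 = 0 := by simp [wt]

theorem wt_add (a b : A) : wt (a + b) ≤ wt a + wt b := by
  refine le_trans (Finset.card_le_card (fun i hi => ?_)) (Finset.card_union_le _ _)
  simp only [Finset.mem_filter, Finset.mem_univ, true_and, Finset.mem_union, Pi.add_apply] at hi ⊢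
  by_contra h
  push Not at h
  exact hi (by rw [h.1, h.2, add_zero])

theorem wt_compl (a : A) : wt (a + 1) + wt a = 66 := by
  have := Finset.card_filter_add_card_filter_not (s := (Finset.univ : Finset (Fin 66)))
    (fun i => a i ≠ 0)
  rw [Finset.card_univ, Fintype.card_fin] at this
  refine Eq.trans ?_ this
  rw [add_comm]
  unfold wt
  congr 2
  refine Finset.filter_congr (fun i _ => ?_)
  simp only [Pi.add_apply, Pi.one_apply]
  generalize a i = z
  revert z; decide

def c (x : A) : A := if wt x = 65 then x + 1 else 0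

theorem wt_c (x : A) : wt (c x) ≤ 1 := by
  unfold c; split_ifs with h
  · have := wt_compl x; omega
  · simp [wt_zero]

def rf (a : A) : List A → List A
  | [] => []
  | x :: w => (x + a) :: w

def ρ (a : A) : Equiv.Perm (List A) :=
  Function.Involutive.toPerm (rf a) (fun w => by cases w <;> simp [rf, add_assoc, aa])

theorem ρ_apply (a : A) (w : List A) : ρ a w = rf a w := rfl

theorem ρ_mul (a b : A) : ρ a * ρ b = ρ (b + a) := by
  ext w : 1; cases w <;> simp [ρ, rf, add_assoc]

theorem ρ_zero : ρ 0 = 1 := by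
  ext w : 1; cases w <;> simp [ρ, rf]

def bf : List A → List A
  | [] => []
  | x :: w => x :: (if x = 0 then bf w else rf (c x) w)

theorem bf_bf : ∀ w, bf (bf w) = w
  | [] => rfl
  | x :: w => by
    simp only [bf]
    split_ifs
    · rw [bf_bf w]
    · cases w <;> simp [rf, add_assoc, aa]

def b : Equiv.Perm (List A) := Function.Involutive.toPerm bf bf_bf

theorem b_apply (w : List A) : b w = bf w := rfl

theorem bb : b * b = 1 := by ext w : 1; exact bf_bf w

def val : Option A → Equiv.Perm (List A)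
  | none => b
  | some a => ρ a

theorem val_sq (l : Option A) : val l * val l = 1 := by
  cases l
  · exact bb
  · simp only [val, ρ_mul, aa, ρ_zero]

def ev (w : List (Option A)) : Equiv.Perm (List A) := (w.map val).prod

@[simp] theorem ev_nil : ev [] = 1 := rfl
@[simp] theorem ev_cons (l : Option A) (w : List (Option A)) : ev (l :: w) = val l * ev w := by
  simp [ev]
theorem ev_append (w w' : List (Option A)) : ev (w ++ w') = ev w * ev w' := by simp [ev]

def α : List (Option A) → A
  | [] => 0
  | none :: w => α w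
  | some a :: w => α w + a

def nb : List (Option A) → ℕ
  | [] => 0
  | none :: w => nb w + 1
  | some _ :: w => nb w

def W : List (Option A) → ℕ
  | [] => 0
  | none :: w => W w
  | some a :: w => W w + wt a

def sec : List (Option A) → A → List (Option A)
  | [], _ => []
  | none :: w, x => (if x + α w = 0 then none else some (c (x + α w))) :: sec w x
  | some _ :: w, x => sec w x

theorem α_append : ∀ w w', α (w ++ w') = α w + α w'
  | [], w' => by simp [α]
  | none :: w, w' => by simp [α, α_append w w']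
  | some a :: w, w' => by simp only [List.cons_append, α, α_append w w']; abel

theorem nb_append : ∀ w w', nb (w ++ w') = nb w + nb w'
  | [], w' => by simp [nb]
  | none :: w, w' => by simp only [List.cons_append, nb, nb_append w w']; omega
  | some a :: w, w' => by simp [nb, nb_append w w']

theorem W_append : ∀ w w', W (w ++ w') = W w + W w'
  | [], w' => by simp [W]
  | none :: w, w' => by simp [W, W_append w w']
  | some a :: w, w' => by simp only [List.cons_append, W, W_append w w']; omega

theorem nb_le : ∀ w, nb w ≤ w.length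
  | [] => le_rfl
  | none :: w => by have := nb_le w; simp [nb]; omega
  | some a :: w => by have := nb_le w; simp [nb]; omega

theorem ev_nil' : ∀ w, ev w [] = []
  | [] => rfl
  | none :: w => by rw [ev_cons, Equiv.Perm.mul_apply, ev_nil' w]; rfl
  | some a :: w => by rw [ev_cons, Equiv.Perm.mul_apply, ev_nil' w]; rfl

theorem ev_sec : ∀ w x v, ev w (x :: v) = (x + α w) :: ev (sec w x) v
  | [], x, v => by simp [α, sec]
  | none :: w, x, v => by
    rw [ev_cons, Equiv.Perm.mul_apply, ev_sec w x v]
    show bf _ = _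
    simp only [bf, α, sec, ev_cons, Equiv.Perm.mul_apply]
    split_ifs <;> rfl
  | some a :: w, x, v => by
    rw [ev_cons, Equiv.Perm.mul_apply, ev_sec w x v]
    simp only [val, ρ_apply, rf, add_assoc, α, sec]

theorem W_sec : ∀ w x, W (sec w x) ≤ nb w
  | [], x => le_rfl
  | none :: w, x => by
    have := W_sec w x
    have h2 := wt_c (x + α w)
    simp only [sec, nb]
    split_ifs <;> simp only [W] <;> omega
  | some a :: w, x => W_sec w x

theorem pow_of (w : List (Option A)) (N : ℕ) (h : ∀ x, ev (sec (w ++ w) x) ^ N = 1) :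
    ev w ^ (2 * N) = 1 := by
  rw [pow_mul, sq, ← ev_append]
  have h0 : α (w ++ w) = 0 := by rw [α_append, aa]
  have : ∀ k x v, (ev (w ++ w) ^ k) (x :: v) = x :: (ev (sec (w ++ w) x) ^ k) v := by
    intro k
    induction k with
    | zero => intro x v; rfl
    | succ k ih =>
      intro x v
      rw [pow_succ, pow_succ, Equiv.Perm.mul_apply, ev_sec, h0, add_zero, ih]; rfl
  ext v : 1
  cases v with
  | nil =>
    exact Equiv.Perm.pow_apply_eq_self_of_apply_eq_self (ev_nil' _) N
  | cons x v => rw [this, h]; rfl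

theorem lip (y a : A) : wt (y + a) ≤ wt y + wt a ∧ wt y ≤ wt (y + a) + wt a := by
  refine ⟨wt_add _ _, ?_⟩
  have := wt_add (y + a) a
  rwa [add_assoc, aa, add_zero] at this

theorem red : ∀ w x, ∃ h, ev h = ev (sec w x) ∧
    ((∃ h', h = none :: h' ∧ 65 * nb h' + min (wt (x + α w)) 65 ≤ W w) ∨
      65 * nb h ≤ W w + min (wt (x + α w)) 65)
  | [], x => ⟨[], rfl, Or.inr (by simp [nb])⟩
  | some a :: w, x => by
    obtain ⟨h, h1, h2⟩ := red w x
    have := lip (x + α w) a
    refine ⟨h, h1, ?_⟩
    simp only [α, W, ← add_assoc]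
    rcases h2 with ⟨h', h2, h3⟩ | h2
    · exact Or.inl ⟨h', h2, by omega⟩
    · exact Or.inr (by omega)
  | none :: w, x => by
    obtain ⟨h, h1, h2⟩ := red w x
    simp only [α, W, sec, ev_cons, ← h1]
    by_cases h0 : x + α w = 0
    · rw [if_pos h0]
      rw [h0, wt_zero] at h2 ⊢
      rcases h2 with ⟨h', rfl, h3⟩ | h2
      · exact ⟨h', by rw [ev_cons, ← mul_assoc, val_sq, one_mul], Or.inr (by omega)⟩
      · exact ⟨none :: h, ev_cons _ _, Or.inl ⟨h, rfl, by omega⟩⟩
    · rw [if_neg h0]
      by_cases h3 : wt (x + α w) = 65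
      · refine ⟨some (c (x + α w)) :: h, ev_cons _ _, Or.inr ?_⟩
        rcases h2 with ⟨h', rfl, h2⟩ | h2 <;> simp only [nb] at * <;> omega
      · exact ⟨h, by simp [val, c, h3, ρ_zero], h2⟩

theorem base : ∀ w x, W w < 65 → ev (sec w x) = 1 ∨ (ev (sec w x) = b ∧ wt (x + α w) ≤ W w) ∨
    ((∃ a, ev (sec w x) = ρ a) ∧ 65 ≤ wt (x + α w) + W w)
  | [], x, _ => Or.inl rfl
  | some a :: w, x, hw => by
    simp only [W] at hw
    have := lip (x + α w) a
    simp only [α, W, sec, ← add_assoc]
    rcases base w x (by omega) with h | h | h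
    · exact Or.inl h
    · exact Or.inr (Or.inl ⟨h.1, by omega⟩)
    · exact Or.inr (Or.inr ⟨h.1, by omega⟩)
  | none :: w, x, hw => by
    simp only [W] at hw
    have ih := base w x hw
    simp only [α, W, sec, ev_cons]
    by_cases h0 : x + α w = 0
    · rw [if_pos h0]
      rw [h0, wt_zero] at ih ⊢
      rcases ih with h | h | h
      · exact Or.inr (Or.inl ⟨by rw [h]; rfl, by omega⟩)
      · exact Or.inl (by rw [h.1]; exact bb)
      · omega
    · rw [if_neg h0]
      by_cases h3 : wt (x + α w) = 65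
      · rcases ih with h | h | ⟨⟨a, h⟩, h'⟩
        · exact Or.inr (Or.inr ⟨⟨_, by rw [h]; rfl⟩, by omega⟩)
        · omega
        · exact Or.inr (Or.inr ⟨⟨_, by rw [h]; exact ρ_mul _ _⟩, h'⟩)
      · simpa [val, c, h3, ρ_zero] using ih

theorem period (j : ℕ) : ∀ w, nb w ≤ 16 ^ j → ev w ^ (8 * 4 ^ j) = 1 := by
  induction j with
  | zero =>
    intro w hw
    refine pow_of w 4 (fun x => pow_of _ 2 (fun y => ?_))
    have h1 := W_sec (w ++ w) x
    rw [nb_append] at h1
    rw [sq]
    rcases base (sec (w ++ w) x ++ sec (w ++ w) x) y (by rw [W_append]; omega) with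
      h | h | ⟨⟨a, h⟩, -⟩
    · rw [h, one_mul]
    · rw [h.1, bb]
    · rw [h]; exact val_sq (some a)
  | succ j ih =>
    intro w hw
    rw [show 8 * 4 ^ (j + 1) = 2 * (2 * (8 * 4 ^ j)) by ring]
    refine pow_of w _ (fun x => pow_of _ _ (fun y => ?_))
    have h1 := W_sec (w ++ w) x
    rw [nb_append] at h1
    obtain ⟨h, h2, h3⟩ := red (sec (w ++ w) x ++ sec (w ++ w) x) y
    rw [← h2]
    apply ih
    rw [W_append] at h3
    rw [pow_succ] at hw
    have : 0 < 16 ^ j := by positivity
    rcases h3 with ⟨h', rfl, h3⟩ | h3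
    · simp only [nb]; omega
    · omega

def Q : Subgroup (Equiv.Perm (List A)) := Subgroup.closure (Set.range val)

theorem val_mem (l : Option A) : val l ∈ Q := Subgroup.subset_closure ⟨l, rfl⟩

theorem ev_len (v : List A) : ∀ w, (ev w v).length = v.length := by
  induction v with
  | nil => intro w; rw [ev_nil']
  | cons x v ih => intro w; rw [ev_sec]; simp [ih]

theorem val_inv (l : Option A) : (val l)⁻¹ = val l := inv_eq_of_mul_eq_one_right (val_sq l)

theorem Q_ev (g : Equiv.Perm (List A)) (hg : g ∈ Q) : ∃ w, ev w = g := by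
  induction hg using Subgroup.closure_induction'' with
  | mem s hs => obtain ⟨l, rfl⟩ := hs; exact ⟨[l], by simp⟩
  | inv_mem s hs => obtain ⟨l, rfl⟩ := hs; exact ⟨[l], by simp [val_inv]⟩
  | one => exact ⟨[], rfl⟩
  | mul g h _ _ ih ih' =>
    obtain ⟨w, rfl⟩ := ih
    obtain ⟨w', rfl⟩ := ih'
    exact ⟨w ++ w', ev_append _ _⟩

theorem Q_len (g : Q) (v : List A) : (g.1 v).length = v.length := by
  obtain ⟨w, hw⟩ := Q_ev g.1 g.2
  rw [← hw, ev_len]

theorem repl (g : Equiv.Perm (List A)) (hg : g ∈ Q) : ∃ g' ∈ Q, ∀ v, g' (0 :: v) = 0 :: g v := by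
  have hm : ∀ g h : Equiv.Perm (List A), (∃ g' ∈ Q, ∀ v, g' (0 :: v) = 0 :: g v) →
      (∃ g' ∈ Q, ∀ v, g' (0 :: v) = 0 :: h v) → ∃ g' ∈ Q, ∀ v, g' (0 :: v) = 0 :: (g * h) v := by
    rintro g h ⟨g', a1, a2⟩ ⟨h', b1, b2⟩
    exact ⟨g' * h', mul_mem a1 b1, fun v => by rw [Equiv.Perm.mul_apply, b2, a2]; rfl⟩
  have hv : ∀ l, ∃ g' ∈ Q, ∀ v, g' (0 :: v) = 0 :: val l v := by
    rintro (_ | a)
    · exact ⟨b, val_mem none, fun v => by show bf _ = _; simp [bf]; rfl⟩
    · show ∃ g' ∈ Q, ∀ v, g' (0 :: v) = 0 :: ρ a v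
      induction a using Pi.single_induction with
      | zero => exact ⟨1, one_mem _, fun v => by rw [ρ_zero]; rfl⟩
      | add f g hf hg => rw [← ρ_mul]; exact hm _ _ hg hf
      | single i m =>
        by_cases hm : m = 0
        · exact ⟨1, one_mem _, fun v => by rw [hm, Pi.single_zero, ρ_zero]; rfl⟩
        have h1 : wt (Pi.single i m) = 1 := by
          rw [wt, Finset.card_eq_one]
          refine ⟨i, ?_⟩
          ext j
          by_cases hj : j = i <;> simp [hj, hm]
        have h2 : wt (Pi.single i m + 1) = 65 := by have := wt_compl (Pi.single i m); omega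
        have h3 : (Pi.single i m + 1 : A) ≠ 0 := fun h => by rw [h, wt_zero] at h2; omega
        refine ⟨ρ (Pi.single i m + 1) * b * ρ (Pi.single i m + 1),
          mul_mem (mul_mem (val_mem (some _)) (val_mem none)) (val_mem (some _)), fun v => ?_⟩
        have h4 : c (Pi.single i m + 1) = Pi.single i m := by
          rw [c, if_pos h2, add_assoc, aa, add_zero]
        simp only [Equiv.Perm.mul_apply, ρ_apply, b_apply]
        rw [rf, zero_add, bf, if_neg h3, rf, aa, h4]
  obtain ⟨w, rfl⟩ := Q_ev g hg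
  clear hg
  induction w with
  | nil => exact ⟨1, one_mem _, fun _ => rfl⟩
  | cons l w ih => rw [ev_cons]; exact hm _ _ (hv l) ih

theorem vec_card (X : Type) [Finite X] [Nontrivial X] (n : ℕ) :
    ¬ Nat.card (List.Vector X n) ≤ n := by
  haveI := Fintype.ofFinite X
  rw [Nat.card_eq_fintype_card, card_vector]
  exact not_le.2 (Nat.lt_pow_self Fintype.one_lt_card)

instance : Infinite Q := by
  have h : ∀ v : List A, ∃ g ∈ Q, g (List.replicate v.length 0) = v := by
    intro v
    induction v with
    | nil => exact ⟨1, one_mem _, rfl⟩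
    | cons x v ih =>
      obtain ⟨g, a1, a2⟩ := ih
      obtain ⟨g', b1, b2⟩ := repl g a1
      refine ⟨ρ x * g', mul_mem (val_mem (some x)) b1, ?_⟩
      rw [List.length_cons, List.replicate_succ, Equiv.Perm.mul_apply, b2, a2]
      rw [ρ_apply, rf, zero_add]
  choose g h1 h2 using h
  by_contra hf
  rw [not_infinite_iff_finite] at hf
  have := Nat.card_le_card_of_injective
    (fun v : List.Vector A (Nat.card Q) => (⟨g v.1, h1 _⟩ : Q)) (fun v v' hv => by
      have e : g v.1 = g v'.1 := congrArg Subtype.val hv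
      refine Subtype.ext ?_
      rw [← h2 v.1, ← h2 v'.1, v.2, v'.2, e])
  exact vec_card A _ this

end Pool.Agent.H69.Pet
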