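import Pool.Agent.H69.Pet1

set_option autoImplicit false

namespace Pool.Agent.H69.Pet

/-- the ball of radius `n` -/
def Bl {G : Type} [Group G] (S : Finset G) (n : ℕ) : Set G :=
  {g : G | ∃ l : List G, l.length ≤ n ∧ (∀ x ∈ l, x ∈ S ∨ x⁻¹ ∈ S) ∧ l.prod = g}

section gen
variable {G : Type} [Group G]

theorem Bl_mono (S : Finset G) {n m : ℕ} (h : n ≤ m) : Bl S n ⊆ Bl S m :=
  fun _ ⟨l, h1, h2⟩ => ⟨l, h1.trans h, h2⟩

theorem Bl_mul {S : Finset G} {n m : ℕ} {x y : G} (hx : x ∈ Bl S n) (hy : y ∈ Bl S m) :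
    x * y ∈ Bl S (n + m) := by
  obtain ⟨l, h1, h2, rfl⟩ := hx
  obtain ⟨l', h3, h4, rfl⟩ := hy
  exact ⟨l ++ l', by simp; omega, fun z hz => (List.mem_append.1 hz).elim (h2 z) (h4 z), by simp⟩

theorem Bl_one (S : Finset G) (n : ℕ) : (1 : G) ∈ Bl S n := ⟨[], by simp, by simp, rfl⟩

theorem Bl_gen {S : Finset G} {x : G} (h : x ∈ S ∨ x⁻¹ ∈ S) : x ∈ Bl S 1 :=
  ⟨[x], le_rfl, by simpa using h, by simp⟩

theorem Bl_succ {S : Finset G} {n : ℕ} {g : G} (h : g ∈ Bl S (n + 1)) :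
    g = 1 ∨ ∃ x, (x ∈ S ∨ x⁻¹ ∈ S) ∧ ∃ y ∈ Bl S n, g = x * y := by
  obtain ⟨l, h1, h2, rfl⟩ := h
  cases l with
  | nil => exact Or.inl rfl
  | cons x l => exact Or.inr ⟨x, h2 x (by simp), l.prod,
      ⟨l, by simpa using h1, fun z hz => h2 z (by simp [hz]), rfl⟩, by simp⟩

theorem Bl_zero {S : Finset G} {g : G} (h : g ∈ Bl S 0) : g = 1 := by
  obtain ⟨l, h1, -, rfl⟩ := h
  rw [List.length_eq_zero_iff.1 (Nat.le_zero.1 h1)]; rfl

theorem Bl_card (S : Finset G) (n : ℕ) :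
    ∃ E : Finset G, Bl S n ⊆ E ∧ E.card ≤ (2 * S.card + 1) ^ n := by
  classical
  induction n with
  | zero => exact ⟨{1}, fun g hg => by simp [Bl_zero hg], by simp⟩
  | succ n ih =>
    obtain ⟨E, h1, h2⟩ := ih
    refine ⟨Finset.image₂ (· * ·) (insert 1 (S ∪ S.image (·⁻¹))) E, fun g hg => ?_, ?_⟩
    · rw [Finset.mem_coe, Finset.mem_image₂]
      rcases Bl_succ hg with rfl | ⟨x, hx, y, hy, rfl⟩
      · exact ⟨1, by simp, 1, h1 (Bl_one S n), by simp⟩
      · refine ⟨x, Finset.mem_insert_of_mem ?_, y, h1 hy, rfl⟩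
        rcases hx with hx | hx
        · exact Finset.mem_union_left _ hx
        · exact Finset.mem_union_right _ (Finset.mem_image.2 ⟨_, hx, inv_inv x⟩)
    · refine (Finset.card_image₂_le _ _ _).trans ?_
      rw [pow_succ']
      refine Nat.mul_le_mul ((Finset.card_insert_le _ _).trans ?_) h2
      have := Finset.card_union_le S (S.image (·⁻¹))
      have := Finset.card_image_le (s := S) (f := (·⁻¹))
      omega

theorem Bl_fin (S : Finset G) (n : ℕ) : (Bl S n).Finite := by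
  obtain ⟨E, h, -⟩ := Bl_card S n
  exact E.finite_toSet.subset h

theorem Bl_ncard (S : Finset G) (n : ℕ) : (Bl S n).ncard ≤ (2 * S.card + 1) ^ n := by
  obtain ⟨E, h, h2⟩ := Bl_card S n
  exact (Set.ncard_le_ncard h E.finite_toSet).trans (by simpa using h2)

theorem Bl_ex {S : Finset G} (hS : Subgroup.closure (S : Set G) = ⊤) (g : G) :
    ∃ n, g ∈ Bl S n := by
  have hg : g ∈ Subgroup.closure (S : Set G) := hS ▸ Subgroup.mem_top g
  induction hg using Subgroup.closure_induction'' with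
  | mem s hs => exact ⟨1, Bl_gen (Or.inl hs)⟩
  | inv_mem s hs => exact ⟨1, Bl_gen (Or.inr (by simpa using hs))⟩
  | one => exact ⟨0, Bl_one S 0⟩
  | mul g h _ _ ih ih' =>
    obtain ⟨n, hn⟩ := ih
    obtain ⟨m, hm⟩ := ih'
    exact ⟨_, Bl_mul hn hm⟩

def Good : List G → Prop
  | [] => True
  | s :: l => Good l ∧ ∀ i, s * (l.take i).prod ≠ 1

theorem good_ex [Infinite G] {S : Finset G} (hS : Subgroup.closure (S : Set G) = ⊤) (n : ℕ) :
    ∃ l : List G, l.length = n ∧ (∀ x ∈ l, x ∈ S ∨ x⁻¹ ∈ S) ∧ Good l := by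
  classical
  have key : ∀ l : List G, (∀ x ∈ l, x ∈ S ∨ x⁻¹ ∈ S) →
      (∀ k, l.prod ∈ Bl S k → l.length ≤ k) → Good l := by
    intro l
    induction l with
    | nil => intro _ _; trivial
    | cons s l ih =>
      intro h1 h2
      refine ⟨ih (fun x hx => h1 x (by simp [hx])) (fun k hk => ?_), fun i hi => ?_⟩
      · have := h2 _ (by rw [List.prod_cons]; exact Bl_mul (Bl_gen (h1 s (by simp))) hk)
        simp at this; omega
      · have := h2 (l.drop i).length ⟨l.drop i, le_rfl,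
          fun x hx => h1 x (by simp [List.mem_of_mem_drop hx]), by
            rw [List.prod_cons, ← List.prod_take_mul_prod_drop l i, ← mul_assoc, hi, one_mul]⟩
        simp at this; omega
  have gd : ∀ (l : List G) (i : ℕ), Good l → Good (l.drop i) := by
    intro l i
    induction i generalizing l with
    | zero => exact id
    | succ i ih =>
      cases l with
      | nil => exact id
      | cons s l => exact fun h => ih l h.1
  obtain ⟨g, hg⟩ := (Bl_fin S n).infinite_compl.nonempty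
  obtain ⟨l, h1, h2, h3⟩ := Nat.find_spec (Bl_ex hS g)
  have h4 : ∀ k, l.prod ∈ Bl S k → l.length ≤ k := fun k hk =>
    h1.trans (Nat.find_min' _ (h3 ▸ hk))
  have h5 : n ≤ l.length := by
    by_contra h
    exact hg ⟨l, by omega, h2, h3⟩
  exact ⟨l.drop (l.length - n), by simp; omega, fun x hx => h2 x (List.mem_of_mem_drop hx),
    gd _ _ (key l h2 h4)⟩

theorem grow {Γ K : Type} [Group Γ] [Group K] [Fintype K] (ι : G →* Γ) (κ : K →* Γ)
    (Λ : Set G → Subgroup Γ) (h1 : Monotone Λ) (h2 : ∀ σ, κ σ ∈ Λ {1})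
    (h3 : ∀ s U w, w ∈ Λ U → ι s * w * (ι s)⁻¹ ∈ Λ ((s * ·) '' U))
    (h4 : ∀ U : Set G, U.Finite → 1 ∉ U → ∀ σ, κ σ ∈ Λ U → σ = 1)
    (T : Finset Γ) (hκ : ∀ σ, κ σ ∈ Bl T 1) (l : List G) (hl : ∀ x ∈ l, ι x ∈ Bl T 1)
    (hg : Good l) : ∃ E : Finset Γ, E.card = Fintype.card K ^ (l.length + 1) ∧
      ∀ w ∈ E, w ∈ Bl T (2 * l.length + 1) ∧
        w * (ι l.prod)⁻¹ ∈ Λ (Set.range (fun i => (l.take i).prod)) := by
  classical
  induction l with
  | nil =>
    refine ⟨Finset.univ.image κ, ?_, fun w hw => ?_⟩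
    · rw [Finset.card_image_of_injective _ ((injective_iff_map_eq_one κ).2
        (fun σ h => h4 ∅ Set.finite_empty (by simp) σ (h ▸ one_mem _)))]
      simp
    · obtain ⟨σ, -, rfl⟩ := Finset.mem_image.1 hw
      exact ⟨hκ σ, by simpa using h2 σ⟩
  | cons s l ih =>
    obtain ⟨E, a1, a2⟩ := ih (fun x hx => hl x (by simp [hx])) hg.1
    have hU : (Set.range (fun i => (l.take i).prod)).Finite := by
      refine ((Set.finite_le_nat l.length).image (fun i => (l.take i).prod)).subset ?_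
      rintro _ ⟨i, rfl⟩
      rcases le_total i l.length with h | h
      · exact ⟨i, h, rfl⟩
      · exact ⟨l.length, le_refl l.length, by simp [List.take_of_length_le h]⟩
    refine ⟨(Finset.univ ×ˢ E).image (fun p : K × Γ => κ p.1 * ι s * p.2), ?_, fun w hw => ?_⟩
    · rw [Finset.card_image_of_injOn, Finset.card_product, a1, Finset.card_univ, List.length_cons,
        ← pow_succ']
      rintro ⟨σ, w⟩ hw ⟨σ', w'⟩ hw' h
      simp only [Finset.coe_product, Set.mem_prod, Finset.mem_coe] at hw hw' h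
      have b1 := h3 s _ _ (mul_mem (a2 w' hw'.2).2 (inv_mem (a2 w hw.2).2))
      have b2 : ι s * (w' * (ι l.prod)⁻¹ * (w * (ι l.prod)⁻¹)⁻¹) * (ι s)⁻¹ = κ (σ'⁻¹ * σ) := by
        rw [map_mul, map_inv, eq_inv_mul_iff_mul_eq]
        calc _ = (κ σ' * ι s * w') * w⁻¹ * (ι s)⁻¹ := by group
          _ = _ := by rw [← h]; group
      rw [b2] at b1
      have b3 := h4 _ (hU.image _) (by rintro ⟨_, ⟨i, rfl⟩, h⟩; exact hg.2 i h) _ b1
      rw [inv_mul_eq_one] at b3
      subst b3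
      exact Prod.ext rfl (mul_left_cancel h)
    · obtain ⟨⟨σ, w⟩, hw', rfl⟩ := Finset.mem_image.1 hw
      obtain ⟨b1, b2⟩ := a2 w (Finset.mem_product.1 hw').2
      refine ⟨Bl_mono T (by simp; omega) (Bl_mul (Bl_mul (hκ σ) (hl s (by simp))) b1), ?_⟩
      have b3 := mul_mem (h1 (show {1} ⊆ Set.range (fun i => ((s :: l).take i).prod) from ?_) (h2 σ))
        (h1 (show _ ⊆ Set.range (fun i => ((s :: l).take i).prod) from ?_) (h3 s _ _ b2))
      · convert b3 using 1
        simp only [List.prod_cons, map_mul]; group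
      · rintro _ rfl; exact ⟨0, by simp⟩
      · rintro _ ⟨_, ⟨i, rfl⟩, rfl⟩; exact ⟨i + 1, by simp⟩

end gen

noncomputable def SQ : Finset Q :=
  (Set.finite_range (fun l : Option A => (⟨val l, val_mem l⟩ : Q))).toFinset

theorem mem_SQ {x : Q} : x ∈ SQ ↔ ∃ l, val l = x.1 := by
  simp [SQ, Subtype.ext_iff]

theorem SQ_gen : Subgroup.closure (SQ : Set Q) = ⊤ := by
  have : (SQ : Set Q) = Subtype.val ⁻¹' Set.range val := by
    ext x; exact mem_SQ
  rw [this]; exact Subgroup.closure_closure_coe_preimage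

theorem Q_period {n j : ℕ} (hn : n ≤ 16 ^ j) {q : Q} (hq : q ∈ Bl SQ n) : q ^ (8 * 4 ^ j) = 1 := by
  have : ∀ n, ∀ q ∈ Bl SQ n, ∃ w : List (Option A), w.length ≤ n ∧ ev w = q.1 := by
    intro n
    induction n with
    | zero => intro q hq; exact ⟨[], le_rfl, by rw [Bl_zero hq]; rfl⟩
    | succ n ih =>
      intro q hq
      rcases Bl_succ hq with rfl | ⟨x, hx, y, hy, rfl⟩
      · exact ⟨[], by simp, rfl⟩
      · obtain ⟨w, h1, h2⟩ := ih y hy
        obtain ⟨l, hl⟩ : ∃ l, val l = x.1 := by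
          rcases hx with hx | hx
          · exact mem_SQ.1 hx
          · obtain ⟨l, hl⟩ := mem_SQ.1 hx
            exact ⟨l, by rw [← val_inv, hl]; simp⟩
        exact ⟨l :: w, by simpa using h1, by simp [hl, h2]⟩
  obtain ⟨w, h1, h2⟩ := this n q hq
  exact Subtype.ext (by simpa [h2] using period j w ((nb_le w).trans (h1.trans hn)))

abbrev Lv (N : ℕ) := {v : List A // v.length ≤ N}

instance (N : ℕ) : Finite (Lv N) := List.finite_length_le A N

def φ (N : ℕ) : Q →* Equiv.Perm (Lv N) where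
  toFun g := g.1.subtypePerm (fun v => by rw [Q_len])
  map_one' := by ext; rfl
  map_mul' _ _ := by ext; rfl

theorem φ_sep (U : Set Q) (hU : U.Finite) (h1 : 1 ∉ U) : ∃ N, ∀ u ∈ U, φ N u ≠ 1 := by
  have : ∀ u : Q, u ≠ 1 → ∃ v, u.1 v ≠ v := fun u hu => by
    by_contra h
    push Not at h
    exact hu (Subtype.ext (Equiv.ext h))
  choose! v hv using this
  obtain ⟨N, hN⟩ := (hU.image (fun u => (v u).length)).bddAbove
  refine ⟨N, fun u hu h => hv u (fun h => h1 (h ▸ hu)) ?_⟩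
  exact congrArg Subtype.val (Equiv.ext_iff.1 h ⟨v u, hN ⟨u, hu, rfl⟩⟩)

abbrev PP := ∀ N : ℕ, Equiv.Perm (Equiv.Perm (Lv N) × Bool)

def ι : Q →* PP where
  toFun g := fun N => Equiv.prodCongr (Equiv.mulLeft (φ N g)) (Equiv.refl _)
  map_one' := by ext N ⟨x, β⟩ <;> simp
  map_mul' _ _ := by ext N ⟨x, β⟩ <;> simp

open Classical in
noncomputable def κ : Equiv.Perm Bool →* PP where
  toFun σ := fun N => Equiv.prodCongrRight (fun x => if x = 1 then σ else 1)
  map_one' := by ext N ⟨x, β⟩ <;> simp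
  map_mul' _ _ := by
    ext N ⟨x, β⟩
    · simp
    · by_cases h : x = 1 <;> simp [h]

noncomputable def TW : Finset PP := by
  classical exact SQ.image ι ∪ Finset.univ.image κ

def WW : Subgroup PP := Subgroup.closure (TW : Set PP)

noncomputable def SW : Finset WW := TW.preimage Subtype.val Subtype.val_injective.injOn

theorem SW_gen : Subgroup.closure (SW : Set WW) = ⊤ := by
  rw [SW, Finset.coe_preimage]; exact Subgroup.closure_closure_coe_preimage

theorem ι_mem (g : Q) : ι g ∈ WW := by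
  have hg : g ∈ Subgroup.closure (SQ : Set Q) := SQ_gen ▸ Subgroup.mem_top g
  have : Subgroup.closure (SQ : Set Q) ≤ WW.comap ι := (Subgroup.closure_le _).2 (fun s hs =>
    Subgroup.subset_closure (by simp only [TW, Finset.coe_union, Finset.coe_image]; exact Or.inl ⟨s, hs, rfl⟩))
  exact this hg

theorem κ_mem (σ : Equiv.Perm Bool) : κ σ ∈ TW := by simp [TW]

theorem W_fst (n : ℕ) : ∀ w ∈ Bl SW n, ∃ q ∈ Bl SQ n, ∀ N z, (w.1 N z).1 = φ N q * z.1 := by
  induction n with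
  | zero => intro w hw; exact ⟨1, Bl_one _ _, fun N z => by simp [Bl_zero hw]⟩
  | succ n ih =>
    intro w hw
    rcases Bl_succ hw with rfl | ⟨x, hx, y, hy, rfl⟩
    · exact ⟨1, Bl_one _ _, fun N z => by simp⟩
    obtain ⟨q, a1, a2⟩ := ih y hy
    have key : ∀ x : WW, x ∈ SW → ∃ s, (s = 1 ∨ s ∈ SQ) ∧ ∀ N z, (x.1 N z).1 = φ N s * z.1 := by
      intro x hx
      simp only [SW, TW, Finset.mem_preimage, Finset.mem_union, Finset.mem_image] at hx
      rcases hx with ⟨s, h1, h2⟩ | ⟨σ, -, h2⟩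
      · exact ⟨s, Or.inr h1, fun N z => by rw [← h2]; rfl⟩
      · exact ⟨1, Or.inl rfl, fun N z => by rw [← h2, map_one, one_mul]; rfl⟩
    obtain ⟨s, b1, b2⟩ : ∃ s ∈ Bl SQ 1, ∀ N z, (x.1 N z).1 = φ N s * z.1 := by
      rcases hx with hx | hx
      · obtain ⟨s, b1, b2⟩ := key x hx
        exact ⟨s, b1.elim (fun h => h ▸ Bl_one _ _) (fun h => Bl_gen (Or.inl h)), b2⟩
      · obtain ⟨s, b1, b2⟩ := key _ hx
        refine ⟨s⁻¹, b1.elim (fun h => by rw [h, inv_one]; exact Bl_one _ _)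
          (fun h => Bl_gen (Or.inr (by simpa using h))), fun N z => ?_⟩
        have := b2 N (x.1 N z)
        simp only [Subgroup.coe_inv, Pi.inv_apply, Equiv.Perm.coe_inv, Equiv.symm_apply_apply] at this
        rw [this, map_inv, inv_mul_cancel_left]
    refine ⟨s * q, by rw [add_comm]; exact Bl_mul b1 a1, fun N z => ?_⟩
    rw [Subgroup.coe_mul, Pi.mul_apply, Equiv.Perm.mul_apply, b2, a2, map_mul, mul_assoc]

theorem W_period {n j : ℕ} (hn : n ≤ 16 ^ j) {w : WW} (hw : w ∈ Bl SW n) :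
    w ^ (16 * 4 ^ j) = 1 := by
  obtain ⟨q, h1, h2⟩ := W_fst n w hw
  have h3 : ∀ k N z, ((w.1 N ^ k) z).1 = φ N (q ^ k) * z.1 := by
    intro k N
    induction k with
    | zero => simp
    | succ k ih => intro z; rw [pow_succ, Equiv.Perm.mul_apply, ih, h2, pow_succ, map_mul, mul_assoc]
  refine Subtype.ext (funext (fun N => Equiv.ext ?_))
  rintro ⟨x, β⟩
  rw [show 16 * 4 ^ j = 8 * 4 ^ j + 8 * 4 ^ j by ring]
  have h4 := h3 (8 * 4 ^ j) N
  rw [Q_period hn h1, map_one] at h4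
  simp only [one_mul] at h4
  show (w.1 N ^ (8 * 4 ^ j + 8 * 4 ^ j)) (x, β) = (x, β)
  rw [pow_add, Equiv.Perm.mul_apply]
  generalize w.1 N ^ (8 * 4 ^ j) = p at h4
  by_contra hne
  have e1 : p (x, β) ≠ (x, β) := fun h => hne (by rw [h, h])
  have e2 : p (p (x, β)) ≠ p (x, β) := fun h => e1 (p.injective h)
  have f1 := h4 (x, β)
  have f2 := h4 (p (x, β))
  rw [f1] at f2
  simp only [ne_eq, Prod.ext_iff, f1, f2, true_and] at hne e1 e2
  revert hne e1 e2
  cases (p (p (x, β))).2 <;> cases (p (x, β)).2 <;> cases β <;> simp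

def ΛW (U : Set Q) : Subgroup WW where
  carrier := {w | ∀ N z, z.1 ∉ φ N '' U → w.1 N z = z}
  mul_mem' := fun {a b} ha hb N z hz => by
    show a.1 N (b.1 N z) = z
    rw [hb N z hz, ha N z hz]
  one_mem' := fun _ _ _ => rfl
  inv_mem' := fun {a} ha N z hz => by
    show (a.1 N)⁻¹ z = z
    rw [Equiv.Perm.inv_eq_iff_eq, ha N z hz]

theorem W_grow (n : ℕ) : 2 ^ (n + 1) ≤ (Bl SW (2 * n + 1)).ncard := by
  obtain ⟨l, rfl, h2, h3⟩ := good_ex SQ_gen n
  obtain ⟨E, a1, a2⟩ := grow (ι.codRestrict WW ι_mem)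
    (κ.codRestrict WW (fun σ => Subgroup.subset_closure (κ_mem σ))) ΛW
    (fun U V h w hw N z hz => hw N z (fun h' => hz (Set.image_mono h h')))
    (fun σ N z hz => by
      have : z.1 ≠ 1 := fun h => hz ⟨1, rfl, by rw [h, map_one]⟩
      show κ σ N z = z
      obtain ⟨x, β⟩ := z
      simp only at this
      simp [κ, this])
    (fun s U w hw N z hz => by
      show ι s N (w.1 N ((ι s N)⁻¹ z)) = z
      rw [hw N, Equiv.Perm.coe_inv, Equiv.apply_symm_apply]
      rintro ⟨u, h1, h2⟩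
      refine hz ⟨s * u, ⟨u, h1, rfl⟩, ?_⟩
      rw [map_mul, h2]
      exact mul_inv_cancel_left _ _)
    (fun U hU h1 σ h => by
      obtain ⟨N, hN⟩ := φ_sep U hU h1
      ext β
      have := h N (1, β) (fun ⟨u, h1, h2⟩ => hN u h1 h2)
      have h2 : (κ σ N (1, β)).2 = β := congrArg Prod.snd this
      simpa [κ] using h2)
    SW (fun σ => Bl_gen (Or.inl (by simp [SW, κ_mem]))) l
    (fun x hx => Bl_gen ((h2 x hx).imp (fun h => by
      simp only [SW, TW, Finset.mem_preimage, Finset.mem_union, Finset.mem_image]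
      exact Or.inl ⟨x, h, rfl⟩) (fun h => by
      simp only [SW, TW, Finset.mem_preimage, Finset.mem_union, Finset.mem_image]
      exact Or.inl ⟨x⁻¹, h, by simp⟩))) h3
  have := Set.ncard_le_ncard (s := (E : Set WW)) (fun w hw => (a2 w hw).1) (Bl_fin SW _)
  rwa [Set.ncard_coe_finset, a1, Fintype.card_perm, Fintype.card_bool] at this

end Pool.Agent.H69.Pet
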