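import Pool.Agent.H69.Pet2

set_option autoImplicit false

namespace Pool.Agent.H69.Pet

open MulAction

section mt
variable {Ω : Type}

noncomputable abbrev pd (g : Equiv.Perm Ω) (p : Ω) : ℕ := MulAction.period g p

theorem zp_eq (g : Equiv.Perm Ω) (p : Ω) (i j : ℤ) :
    (g ^ i) p = (g ^ j) p ↔ (pd g p : ℤ) ∣ i - j := by
  rw [← zpow_smul_eq_iff_period_dvd, Equiv.Perm.smul_def, sub_eq_neg_add, zpow_add, zpow_neg,
    Equiv.Perm.mul_apply, Equiv.Perm.inv_eq_iff_eq]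

theorem per_zp (g : Equiv.Perm Ω) (p : Ω) (i : ℤ) : pd g ((g ^ i) p) = pd g p := by
  have : ∀ n : ℕ, pd g ((g ^ i) p) ∣ n ↔ pd g p ∣ n := by
    intro n
    rw [← pow_smul_eq_iff_period_dvd, ← pow_smul_eq_iff_period_dvd, Equiv.Perm.smul_def,
      Equiv.Perm.smul_def, ← Equiv.Perm.mul_apply, ← (((Commute.refl g).zpow_left i).pow_right n).eq,
      Equiv.Perm.mul_apply, (g ^ i).injective.eq_iff]
  exact Nat.dvd_antisymm ((this _).2 dvd_rfl) ((this _).1 dvd_rfl)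

theorem inv_zp (g : Equiv.Perm Ω) (Z : Set Ω) (h : ∀ x, g x ∈ Z ↔ x ∈ Z) (i : ℤ) (x : Ω) :
    (g ^ i) x ∈ Z ↔ x ∈ Z := by
  induction i using Int.induction_on generalizing x with
  | zero => simp
  | succ i ih => rw [zpow_add_one, Equiv.Perm.mul_apply, ih, h]
  | pred i ih => rw [zpow_sub_one, Equiv.Perm.mul_apply, ih, ← h]; simp

theorem per_pos (g : Equiv.Perm Ω) (Z : Set Ω) (hZ : Z.Finite) (h : ∀ x, g x ∈ Z ↔ x ∈ Z)
    (p : Ω) (hp : p ∈ Z) : 0 < pd g p := by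
  obtain ⟨i, j, h1, h2⟩ := hZ.exists_lt_map_eq_of_forall_mem (f := fun i : ℤ => (g ^ i) p)
    (fun i => (inv_zp g Z h i p).2 hp)
  rw [zp_eq] at h2
  by_contra h0
  rw [Nat.eq_zero_of_not_pos h0] at h2
  simp at h2; omega

def orb (g : Equiv.Perm Ω) (p : Ω) : Set Ω := Set.range (fun i : ℤ => (g ^ i) p)

theorem orb_ncard (g : Equiv.Perm Ω) (p : Ω) (h : 0 < pd g p) :
    (orb g p).ncard = pd g p := by
  have : orb g p = (fun i : ℤ => (g ^ i) p) '' Set.Ico 0 (pd g p : ℤ) := by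
    refine Set.Subset.antisymm ?_ (Set.image_subset_range _ _)
    rintro _ ⟨i, rfl⟩
    refine ⟨i % pd g p, ⟨Int.emod_nonneg _ (by omega), Int.emod_lt_of_pos _ (by omega)⟩, ?_⟩
    exact (zp_eq g p _ _).2 (Int.dvd_sub_self_of_emod_eq rfl)
  rw [this, Set.InjOn.ncard_image, Set.ncard_eq_toFinset_card', Set.toFinset_Ico, Int.card_Ico]
  · simp
  · intro i hi j hj hij
    have := Int.eq_zero_of_abs_lt_dvd ((zp_eq g p _ _).1 hij)
      (by rw [abs_lt]; have := hi.1; have := hi.2; have := hj.1; have := hj.2; omega)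
    omega

theorem orb_inv (g : Equiv.Perm Ω) (p x : Ω) : g x ∈ orb g p ↔ x ∈ orb g p := by
  constructor
  · rintro ⟨i, hi⟩
    refine ⟨-1 + i, ?_⟩
    simp only at hi ⊢
    rw [zpow_add, Equiv.Perm.mul_apply, hi]; simp
  · rintro ⟨i, rfl⟩
    exact ⟨1 + i, by simp [zpow_add]⟩

theorem matching (g g' : Equiv.Perm Ω) (n : ℕ) : ∀ Z Z' : Set Ω, Z.Finite → Z'.Finite →
    Z.ncard = n → (∀ x, g x ∈ Z ↔ x ∈ Z) → (∀ x, g' x ∈ Z' ↔ x ∈ Z') →
    (∀ l, {p ∈ Z | pd g p = l}.ncard = {p ∈ Z' | pd g' p = l}.ncard) →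
    ∃ φ : Ω → Ω, Set.BijOn φ Z Z' ∧ ∀ p ∈ Z, φ (g p) = g' (φ p) := by
  classical
  induction n using Nat.strong_induction_on with
  | _ n ih =>
  intro Z Z' hZ hZ' hn h h' hc
  rcases Z.eq_empty_or_nonempty with rfl | ⟨p, hp⟩
  · have : Z' = ∅ := by
      by_contra hne
      obtain ⟨p, hp⟩ := Set.nonempty_iff_ne_empty.2 hne
      have := hc (pd g' p)
      rw [Set.sep_empty, Set.ncard_empty, eq_comm, Set.ncard_eq_zero (hZ'.sep _)] at this
      exact (Set.eq_empty_iff_forall_notMem.1 this) p ⟨hp, rfl⟩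
    subst this
    exact ⟨id, Set.bijOn_empty _, by simp⟩
  obtain ⟨p', hp', hl⟩ : {x ∈ Z' | pd g' x = pd g p}.Nonempty := by
    rw [← Set.ncard_pos (hZ'.sep _), ← hc, Set.ncard_pos (hZ.sep _)]
    exact ⟨p, hp, rfl⟩
  have o1 : orb g p ⊆ Z := by rintro _ ⟨i, rfl⟩; exact (inv_zp g Z h i p).2 hp
  have o2 : orb g' p' ⊆ Z' := by rintro _ ⟨i, rfl⟩; exact (inv_zp g' Z' h' i p').2 hp'
  have l0 := per_pos g Z hZ h p hp
  have key : ∀ (g : Equiv.Perm Ω) (Z : Set Ω) (p : Ω), Z.Finite → orb g p ⊆ Z → 0 < pd g p →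
      ∀ l, {x ∈ Z | pd g x = l}.ncard =
        {x ∈ Z \ orb g p | pd g x = l}.ncard + if l = pd g p then l else 0 := by
    intro g Z p hZ o l0 l
    split_ifs with hl
    · have : {x ∈ Z | pd g x = l} = {x ∈ Z \ orb g p | pd g x = l} ∪ orb g p := by
        ext x
        by_cases hx : x ∈ orb g p
        · simp only [Set.mem_ofPred_eq, Set.mem_union, hx, or_true, iff_true]
          obtain ⟨i, rfl⟩ := hx
          exact ⟨o ⟨i, rfl⟩, by rw [per_zp, hl]⟩
        · simp [hx]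
      rw [this, Set.ncard_union_eq (Set.disjoint_left.2 (fun x hx => hx.1.2))
        (hZ.diff.sep _) (hZ.subset o), orb_ncard g p l0, hl]
    · rw [add_zero]
      congr 1
      ext x
      simp only [Set.mem_ofPred_eq, Set.mem_diff, and_congr_left_iff, iff_self_and]
      rintro h1 - ⟨i, rfl⟩
      exact hl (by rw [← h1, per_zp])
  obtain ⟨φ, a1, a2⟩ := ih (Z \ orb g p).ncard (by
      rw [← hn]
      exact Set.ncard_lt_ncard ⟨Set.diff_subset, fun h => (h hp).2 ⟨0, rfl⟩⟩ hZ)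
    (Z \ orb g p) (Z' \ orb g' p') hZ.diff hZ'.diff rfl
    (fun x => by rw [Set.mem_diff, Set.mem_diff, h, orb_inv])
    (fun x => by rw [Set.mem_diff, Set.mem_diff, h', orb_inv])
    (fun l => by
      have := hc l
      rw [key g Z p hZ o1 l0, key g' Z' p' hZ' o2 (hl ▸ l0), hl] at this
      omega)
  let ψ : Ω → Ω := fun x => if hx : x ∈ orb g p then (g' ^ hx.choose) p' else φ x
  have ψ1 : ∀ i : ℤ, ψ ((g ^ i) p) = (g' ^ i) p' := by
    intro i
    have hx : (g ^ i) p ∈ orb g p := ⟨i, rfl⟩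
    simp only [ψ]
    rw [dif_pos hx, zp_eq, hl, ← zp_eq]
    exact hx.choose_spec
  have ψ2 : ∀ x, x ∉ orb g p → ψ x = φ x := fun x hx => dif_neg hx
  have b1 : Set.BijOn ψ (orb g p) (orb g' p') := by
    refine ⟨?_, ?_, ?_⟩
    · rintro _ ⟨i, rfl⟩; exact ⟨i, (ψ1 i).symm⟩
    · rintro _ ⟨i, rfl⟩ _ ⟨j, rfl⟩ hij
      rw [ψ1, ψ1, zp_eq, hl, ← zp_eq] at hij
      exact hij
    · rintro _ ⟨i, rfl⟩; exact ⟨_, ⟨i, rfl⟩, ψ1 i⟩
  have b2 : Set.BijOn ψ (Z \ orb g p) (Z' \ orb g' p') := a1.congr (fun x hx => (ψ2 x hx.2).symm)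
  refine ⟨ψ, ?_, fun x hx => ?_⟩
  · rw [← Set.union_diff_cancel o1, ← Set.union_diff_cancel o2]
    refine b1.union b2 ((Set.injOn_union Set.disjoint_sdiff_right).2 ⟨b1.2.1, b2.2.1, ?_⟩)
    intro x hx y hy hxy
    exact (b2.1 hy).2 (hxy ▸ b1.1 hx)
  · by_cases hx' : x ∈ orb g p
    · obtain ⟨i, rfl⟩ := hx'
      have := ψ1 (1 + i)
      simp only [zpow_add, zpow_one, Equiv.Perm.mul_apply] at this
      simp only [this, ψ1]
    · rw [ψ2 _ hx', ψ2 _ (by rwa [orb_inv]), a2 x ⟨hx, hx'⟩]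

theorem conj_fin (g g' : Equiv.Perm Ω) (Z : Set Ω) (hZ : Z.Finite)
    (h : ∀ x, g x ∈ Z ↔ x ∈ Z) (h' : ∀ x, g' x ∈ Z ↔ x ∈ Z) (he : ∀ x, x ∉ Z → g x = g' x)
    (o : ℕ) (hc : ∀ l, l ≠ o → {p ∈ Z | pd g p = l}.ncard = {p ∈ Z | pd g' p = l}.ncard) :
    ∃ φ : Equiv.Perm Ω, (fixedBy Ω φ)ᶜ.Finite ∧ φ * g * φ⁻¹ = g' := by
  classical
  have hc' : ∀ l, {p ∈ Z | pd g p = l}.ncard = {p ∈ Z | pd g' p = l}.ncard := by
    intro l
    by_cases hl : l = o
    swap
    · exact hc l hl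
    subst hl
    have k1 : ∀ f : Ω → ℕ, {p ∈ Z | f p = l}.ncard + ∑ j ∈ ((hZ.toFinset.image (pd g) ∪
        hZ.toFinset.image (pd g')).erase l), {p ∈ Z | f p = j}.ncard = Z.ncard ∨
        ¬ ∀ p ∈ Z, f p ∈ (hZ.toFinset.image (pd g) ∪ hZ.toFinset.image (pd g')) := by
      intro f
      rw [or_iff_not_imp_right, not_not]
      intro hf
      have e : ∀ j, {p ∈ Z | f p = j}.ncard = (hZ.toFinset.filter (fun p => f p = j)).card := by
        intro j; rw [← Set.ncard_coe_finset]; congr 1; ext; simp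
      simp only [e]
      rw [Set.ncard_eq_toFinset_card _ hZ, Finset.card_eq_sum_card_fiberwise (s := hZ.toFinset)
        (t := insert l (hZ.toFinset.image (pd g) ∪ hZ.toFinset.image (pd g')))
        (f := f) (fun p hp => Finset.mem_insert_of_mem (hf p (by simpa using hp))),
        ← Finset.add_sum_erase _ _ (Finset.mem_insert_self l _), Finset.erase_insert_eq_erase]
    have k2 := (k1 (pd g)).resolve_right (not_not.2 (fun p hp =>
      Finset.mem_union_left _ (Finset.mem_image_of_mem _ (by simpa using hp))))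
    have k3 := (k1 (pd g')).resolve_right (not_not.2 (fun p hp =>
      Finset.mem_union_right _ (Finset.mem_image_of_mem _ (by simpa using hp))))
    rw [Finset.sum_congr rfl (fun j hj => hc j (Finset.ne_of_mem_erase hj))] at k2
    omega
  obtain ⟨φ, a1, a2⟩ := matching g g' _ Z Z hZ hZ rfl h h' hc'
  let ψ : Ω → Ω := fun x => if x ∈ Z then φ x else x
  have hψ : Function.Bijective ψ := by
    refine ⟨fun x y hxy => ?_, fun y => ?_⟩
    · simp only [ψ] at hxy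
      split_ifs at hxy with h1 h2 h2
      · exact a1.2.1 h1 h2 hxy
      · exact (h2 (hxy ▸ a1.1 h1)).elim
      · exact (h1 (hxy ▸ a1.1 h2)).elim
      · exact hxy
    · by_cases hy : y ∈ Z
      · obtain ⟨x, h1, h2⟩ := a1.2.2 hy
        exact ⟨x, by simp [ψ, h1, h2]⟩
      · exact ⟨y, by simp [ψ, hy]⟩
  refine ⟨Equiv.ofBijective ψ hψ, hZ.subset (fun x hx => ?_), ?_⟩
  · by_contra h1
    exact hx (by simp [ψ, h1])
  · rw [mul_inv_eq_iff_eq_mul]
    ext x
    show ψ (g x) = g' (ψ x)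
    by_cases hx : x ∈ Z
    · simp only [ψ, hx, (h x).2 hx, if_true, a2 x hx]
    · have : g x ∉ Z := by rwa [h]
      simp only [ψ, hx, this, if_false]
      exact he x hx

end mt

/-- counting the possible statistics -/
theorem stat_card (N K : ℕ) (hK : 0 < K) : ∃ E : Finset (ℕ → ℕ),
    E.card ≤ ((N + 1) * (N + 1) + 1) ^ (K + 1 + N / K) ∧
    ∀ ν : ℕ → ℕ, (∀ s : Finset ℕ, ∑ l ∈ s, ν l ≤ N) → (∀ l, ν l ≠ 0 → l ≤ ν l) → ν ∈ E := by
  classical
  let dec : (Fin (K + 1 + N / K) → Option (Fin (N + 1) × Fin (N + 1))) → ℕ → ℕ :=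
    fun u l => Finset.univ.sup (fun i => match u i with
      | none => 0
      | some x => if x.1.1 = l then x.2.1 else 0)
  refine ⟨Finset.univ.image dec, Finset.card_image_le.trans (by simp), fun ν h1 h2 => ?_⟩
  have b1 : ∀ l, ν l ≤ N := fun l => by simpa using h1 {l}
  let s := (Finset.range (N + 1)).filter (fun l => ν l ≠ 0)
  have hs : s.card ≤ K + 1 + N / K := by
    rw [← Finset.card_filter_add_card_filter_not (s := s) (fun l => l ≤ K)]
    refine Nat.add_le_add ?_ ?_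
    · rw [← Finset.card_range (K + 1)]
      exact Finset.card_le_card (fun l hl => by
        simp only [Finset.mem_filter, Finset.mem_range] at hl ⊢; omega)
    · rw [Nat.le_div_iff_mul_le hK]
      refine le_trans ?_ (h1 (s.filter (fun l => ¬ l ≤ K)))
      rw [← smul_eq_mul]
      refine Finset.card_nsmul_le_sum _ _ _ (fun l hl => ?_)
      simp only [s, Finset.mem_filter] at hl
      have := h2 l hl.1.2
      omega
  obtain ⟨e⟩ : Nonempty (s ↪ Fin (K + 1 + N / K)) :=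
    Function.Embedding.nonempty_of_card_le (by simpa using hs)
  refine Finset.mem_image.2 ⟨fun i => if h : ∃ x, e x = i then
    some (⟨h.choose.1, Finset.mem_range.1 (Finset.mem_filter.1 h.choose.2).1⟩,
      ⟨ν h.choose.1, Nat.lt_succ_of_le (b1 _)⟩) else none, Finset.mem_univ _, funext (fun l => ?_)⟩
  refine le_antisymm (Finset.sup_le (fun i _ => ?_)) ?_
  · by_cases h : ∃ x, e x = i
    · simp only [dif_pos h]
      split_ifs with h'
      · rw [h']
      · exact Nat.zero_le _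
    · simp only [dif_neg h]; exact Nat.zero_le _
  · by_cases hl : ν l = 0
    · rw [hl]; exact Nat.zero_le _
    have hm : l ∈ s := Finset.mem_filter.2
      ⟨Finset.mem_range.2 (Nat.lt_succ_of_le ((h2 l hl).trans (b1 l))), hl⟩
    refine le_trans ?_ (Finset.le_sup (Finset.mem_univ (e ⟨l, hm⟩)))
    have h : ∃ x, e x = e ⟨l, hm⟩ := ⟨_, rfl⟩
    have : h.choose = ⟨l, hm⟩ := e.injective h.choose_spec
    simp only [dif_pos h, this, if_true, le_refl]

end Pool.Agent.H69.Pet
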