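import Pool.Agent.H69.Pet3

set_option autoImplicit false

namespace Pool.Agent.H69.Pet

open MulAction

theorem ncard_le_of_factor {X Y Z : Type} [Nonempty X] (s : Set X) (f : X → Y) (g : X → Z)
    (t : Set Z) (ht : t.Finite) (hg : ∀ a ∈ s, g a ∈ t)
    (h : ∀ a ∈ s, ∀ b ∈ s, g a = g b → f a = f b) : (f '' s).ncard ≤ t.ncard := by
  refine le_trans (Set.ncard_le_ncard (t := (fun y => f (Function.invFunOn g s y)) '' t) ?_
    (ht.image _)) (Set.ncard_image_le ht)
  rintro _ ⟨a, ha, rfl⟩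
  exact ⟨g a, hg a ha, h _ (Function.invFunOn_mem ⟨a, ha, rfl⟩) _ ha
    (Function.invFunOn_eq ⟨a, ha, rfl⟩)⟩

variable (m : ℕ)

abbrev Om := Q × Fin (m + 1)

def lam : Q →* Equiv.Perm (Om m) where
  toFun g := Equiv.prodCongr (Equiv.mulLeft g) (Equiv.refl _)
  map_one' := by ext ⟨x, β⟩ <;> simp
  map_mul' _ _ := by ext ⟨x, β⟩ <;> simp

theorem lam_apply (g x : Q) (i : Fin (m + 1)) : lam m g (x, i) = (g * x, i) := rfl

open Classical in
noncomputable def kap : Equiv.Perm (Fin (m + 1)) →* Equiv.Perm (Om m) where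
  toFun σ := Equiv.prodCongrRight (fun x => if x = 1 then σ else 1)
  map_one' := by ext ⟨x, β⟩ <;> simp
  map_mul' _ _ := by
    ext ⟨x, β⟩
    · simp
    · by_cases h : x = 1 <;> simp [h]

theorem kap_one (σ : Equiv.Perm (Fin (m + 1))) (i : Fin (m + 1)) : kap m σ (1, i) = (1, σ i) := by
  simp [kap]

theorem kap_ne (σ : Equiv.Perm (Fin (m + 1))) (p : Om m) (h : p.1 ≠ 1) : kap m σ p = p := by
  obtain ⟨x, i⟩ := p
  simp only at h
  simp [kap, h]

open Classical in
noncomputable def tau (s : Q) : Equiv.Perm (Om m) := Equiv.swap (1, 0) (s, 0)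

noncomputable def TB : Finset (Equiv.Perm (Om m)) := by
  classical exact SQ.image (lam m) ∪ Finset.univ.image (kap m) ∪ SQ.image (tau m)

theorem mem_TB {x : Equiv.Perm (Om m)} : x ∈ TB m ↔
    (∃ s ∈ SQ, lam m s = x) ∨ (∃ σ, kap m σ = x) ∨ ∃ s ∈ SQ, tau m s = x := by
  simp [TB]

def BB : Subgroup (Equiv.Perm (Om m)) := Subgroup.closure (TB m : Set (Equiv.Perm (Om m)))

noncomputable def SB : Finset (BB m) := (TB m).preimage Subtype.val Subtype.val_injective.injOn

theorem mem_SB {x : BB m} : x ∈ SB m ↔ x.1 ∈ TB m := Finset.mem_preimage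

theorem SB_gen : Subgroup.closure (SB m : Set (BB m)) = ⊤ := by
  rw [SB, Finset.coe_preimage]; exact Subgroup.closure_closure_coe_preimage

theorem lam_mem (g : Q) : lam m g ∈ BB m := by
  have hg : g ∈ Subgroup.closure (SQ : Set Q) := SQ_gen ▸ Subgroup.mem_top g
  have : Subgroup.closure (SQ : Set Q) ≤ (BB m).comap (lam m) := (Subgroup.closure_le _).2
    (fun s hs => Subgroup.subset_closure ((mem_TB m).2 (Or.inl ⟨s, hs, rfl⟩)))
  exact this hg

theorem kap_mem (σ : Equiv.Perm (Fin (m + 1))) : kap m σ ∈ BB m :=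
  Subgroup.subset_closure ((mem_TB m).2 (Or.inr (Or.inl ⟨σ, rfl⟩)))

theorem fin_mem (φ : Equiv.Perm (Om m)) (h : (fixedBy (Om m) φ)ᶜ.Finite) : φ ∈ BB m := by
  classical
  have cj : ∀ (g : Q) (p p' : Om m), Equiv.swap p p' ∈ BB m →
      Equiv.swap (lam m g p) (lam m g p') ∈ BB m := fun g p p' h => by
    rw [Equiv.swap_apply_apply]
    exact mul_mem (mul_mem (lam_mem m g) h) (inv_mem (lam_mem m g))
  have h1 : ∀ (x : Q) i, Equiv.swap ((x, 0) : Om m) (x, i) ∈ BB m := by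
    intro x i
    have : Equiv.swap ((1, 0) : Om m) (1, i) = kap m (Equiv.swap 0 i) := by
      ext1 ⟨y, j⟩
      by_cases hy : y = 1
      · subst hy
        rw [kap_one, Equiv.swap_apply_def, Equiv.swap_apply_def]
        simp only [Prod.mk.injEq, true_and]
        split_ifs <;> rfl
      · rw [kap_ne m _ _ hy, Equiv.swap_apply_of_ne_of_ne] <;> simp [hy]
    have h := cj x (1, 0) (1, i) (this ▸ kap_mem m _)
    rwa [lam_apply, lam_apply, mul_one] at h
  have h2 : ∀ (x : Q), Equiv.swap ((1, 0) : Om m) (x, 0) ∈ BB m := by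
    intro x
    have hg : x ∈ Subgroup.closure (SQ : Set Q) := SQ_gen ▸ Subgroup.mem_top x
    have ht : ∀ y, ∀ s ∈ SQ, Equiv.swap ((y, 0) : Om m) (y * s, 0) ∈ BB m := fun y s hs => by
      have : tau m s ∈ BB m :=
        Subgroup.subset_closure ((mem_TB m).2 (Or.inr (Or.inr ⟨s, hs, rfl⟩)))
      have h := cj y (1, 0) (s, 0) (by convert this using 1; simp only [tau])
      rwa [lam_apply, lam_apply, mul_one] at h
    induction hg using Subgroup.closure_induction_right with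
    | one => rw [Equiv.swap_self]; exact one_mem _
    | mul_right x _ s hs ih => exact SubmonoidClass.swap_mem_trans _ ih (ht x s hs)
    | mul_inv_cancel x _ s hs ih =>
      refine SubmonoidClass.swap_mem_trans _ ih ?_
      rw [Equiv.swap_comm]
      simpa using ht (x * s⁻¹) s hs
  have h3 : ∀ p : Om m, Equiv.swap ((1, 0) : Om m) p ∈ BB m := fun p =>
    SubmonoidClass.swap_mem_trans _ (h2 p.1) (h1 p.1 p.2)
  refine (Subgroup.closure_le _).2 ?_ (mem_closure_isSwap'.2 h)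
  rintro _ ⟨p, p', -, rfl⟩
  exact SubmonoidClass.swap_mem_trans _ (by rw [Equiv.swap_comm]; exact h3 p) (h3 p')

def ΛB (U : Set Q) : Subgroup (BB m) where
  carrier := {w | ∀ z : Om m, z.1 ∉ U → w.1 z = z}
  mul_mem' := fun {a b} ha hb z hz => by
    show a.1 (b.1 z) = z
    rw [hb z hz, ha z hz]
  one_mem' := fun _ _ => rfl
  inv_mem' := fun {a} ha z hz => by
    show (a.1)⁻¹ z = z
    rw [Equiv.Perm.inv_eq_iff_eq, ha z hz]

theorem B_grow (n : ℕ) : (m + 1).factorial ^ (n + 1) ≤ (Bl (SB m) (2 * n + 1)).ncard := by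
  obtain ⟨l, rfl, h2, h3⟩ := good_ex SQ_gen n
  obtain ⟨E, a1, a2⟩ := grow ((lam m).codRestrict (BB m) (lam_mem m))
    ((kap m).codRestrict (BB m) (kap_mem m)) (ΛB m)
    (fun U V h w hw z hz => hw z (fun h' => hz (h h')))
    (fun σ z hz => kap_ne m σ z hz)
    (fun s U w hw z hz => by
      show lam m s (w.1 ((lam m s)⁻¹ z)) = z
      rw [hw, Equiv.Perm.coe_inv, Equiv.apply_symm_apply]
      intro h
      exact hz ⟨_, h, mul_inv_cancel_left _ _⟩)
    (fun U hU h1 σ h => by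
      ext1 β
      have : kap m σ (1, β) = (1, β) := h (1, β) h1
      rw [kap_one] at this
      exact congrArg Prod.snd this)
    (SB m) (fun σ => Bl_gen (Or.inl ((mem_SB m).2 ((mem_TB m).2 (Or.inr (Or.inl ⟨σ, rfl⟩)))))) l
    (fun x hx => Bl_gen ((h2 x hx).imp
      (fun h => (mem_SB m).2 ((mem_TB m).2 (Or.inl ⟨x, h, rfl⟩)))
      (fun h => (mem_SB m).2 ((mem_TB m).2 (Or.inl ⟨x⁻¹, h, by simp⟩))))) h3
  have := Set.ncard_le_ncard (s := (E : Set (BB m))) (fun w hw => (a2 w hw).1) (Bl_fin (SB m) _)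
  rwa [Set.ncard_coe_finset, a1, Fintype.card_perm, Fintype.card_fin] at this

theorem disc (n : ℕ) : ∀ w ∈ Bl (SB m) n, ∃ q ∈ Bl SQ n, ∃ D : Set (Om m), D.Finite ∧
    D.ncard ≤ (m + 2) * n ∧ ∀ p, p ∉ D → w.1 p = lam m q p := by
  classical
  induction n with
  | zero => intro w hw; exact ⟨1, Bl_one _ _, ∅, by simp, by simp, fun p _ => by simp [Bl_zero hw]⟩
  | succ n ih =>
    intro w hw
    rcases Bl_succ hw with rfl | ⟨x, hx, y, hy, rfl⟩
    · exact ⟨1, Bl_one _ _, ∅, by simp, by simp, fun p _ => by simp⟩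
    obtain ⟨q, a1, D, a2, a3, a4⟩ := ih y hy
    have key : ∀ x ∈ TB m, (∃ s ∈ SQ, lam m s = x) ∨ ∃ D : Set (Om m), D.Finite ∧
        D.ncard ≤ m + 2 ∧ ∀ p, p ∉ D → x p = p := by
      intro x hx
      rcases (mem_TB m).1 hx with h | ⟨σ, rfl⟩ | ⟨s, -, rfl⟩
      · exact Or.inl h
      · refine Or.inr ⟨Set.range (fun i => (1, i)), Set.finite_range _, ?_, fun p hp =>
          kap_ne m σ p (fun h => hp ⟨p.2, by rw [← h]⟩)⟩
        rw [← Set.image_univ]
        refine (Set.ncard_image_le (Set.toFinite _)).trans ?_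
        simp
      · refine Or.inr ⟨{(1, 0), (s, 0)}, Set.toFinite _, (Set.ncard_insert_le _ _).trans (by simp),
          fun p hp => ?_⟩
        simp only [Set.mem_insert_iff, Set.mem_singleton_iff, not_or] at hp
        exact Equiv.swap_apply_of_ne_of_ne hp.1 hp.2
    obtain ⟨s, b1, D', b2, b3, b4⟩ : ∃ s ∈ Bl SQ 1, ∃ D : Set (Om m), D.Finite ∧
        D.ncard ≤ m + 2 ∧ ∀ p, p ∉ D → x.1 p = lam m s p := by
      rcases hx with hx | hx
      · rcases key _ ((mem_SB m).1 hx) with ⟨s, h1, h2⟩ | ⟨D, h1, h2, h3⟩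
        · exact ⟨s, Bl_gen (Or.inl h1), ∅, by simp, by simp, fun p _ => by rw [h2]⟩
        · exact ⟨1, Bl_one _ _, D, h1, h2, fun p hp => by simp [h3 p hp]⟩
      · rcases key _ ((mem_SB m).1 hx) with ⟨s, h1, h2⟩ | ⟨D, h1, h2, h3⟩
        · exact ⟨s⁻¹, Bl_gen (Or.inr (by simpa using h1)), ∅, by simp, by simp, fun p _ => by
            rw [map_inv, h2]; simp⟩
        · refine ⟨1, Bl_one _ _, D, h1, h2, fun p hp => ?_⟩
          have := h3 p hp
          rw [Subgroup.coe_inv, Equiv.Perm.inv_eq_iff_eq] at this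
          simp [← this]
    refine ⟨s * q, by rw [add_comm]; exact Bl_mul b1 a1, D ∪ y.1 ⁻¹' D',
      a2.union (b2.preimage y.1.injective.injOn), ?_, fun p hp => ?_⟩
    · refine (Set.ncard_union_le _ _).trans ?_
      rw [Set.ncard_preimage_of_injective_subset_range y.1.injective
        (by rw [y.1.surjective.range_eq]; exact Set.subset_univ _), mul_add]
      omega
    · simp only [Set.mem_union, Set.mem_preimage, not_or] at hp
      rw [Subgroup.coe_mul, Equiv.Perm.mul_apply, b4 _ hp.2, a4 _ hp.1, map_mul]; rfl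

def sat (q : Q) (D : Set (Om m)) : Set (Om m) := {p | ∃ i : ℤ, lam m (q ^ i) p ∈ D}

theorem sat_inv (q : Q) (D : Set (Om m)) (p : Om m) : lam m q p ∈ sat m q D ↔ p ∈ sat m q D := by
  constructor
  · rintro ⟨i, hi⟩
    exact ⟨i + 1, by rwa [zpow_add_one, map_mul]⟩
  · rintro ⟨i, hi⟩
    exact ⟨i - 1, by rwa [← Equiv.Perm.mul_apply, ← map_mul, zpow_sub_one, inv_mul_cancel_right]⟩

theorem sat_card (q : Q) (hq : 0 < orderOf q) (D : Set (Om m)) (hD : D.Finite) :
    (sat m q D).Finite ∧ (sat m q D).ncard ≤ orderOf q * D.ncard := by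
  have h : sat m q D ⊆ (fun x : ℕ × Om m => (lam m (q ^ x.1))⁻¹ x.2) ''
      (Set.Iio (orderOf q) ×ˢ D) := by
    rintro p ⟨i, hi⟩
    obtain ⟨j, hj⟩ := Int.eq_ofNat_of_zero_le (Int.emod_nonneg i (b := orderOf q) (by omega))
    have h2 := Int.emod_lt_of_pos i (b := orderOf q) (by omega)
    refine ⟨(j, lam m (q ^ i) p), ⟨by simp; omega, hi⟩, ?_⟩
    rw [← zpow_mod_orderOf, hj]
    simp
  have h2 := (Set.finite_Iio (orderOf q)).prod hD
  refine ⟨(h2.image _).subset h, (Set.ncard_le_ncard h (h2.image _)).trans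
    ((Set.ncard_image_le h2).trans ?_)⟩
  rw [Set.ncard_prod]
  simp

theorem off (q : Q) (D D' : Set (Om m)) (hD : D ⊆ D') (w : Equiv.Perm (Om m))
    (h : ∀ p, p ∉ D → w p = lam m q p) :
    (∀ p, p ∉ sat m q D' → w p = lam m q p) ∧ (∀ p, w p ∈ sat m q D' ↔ p ∈ sat m q D') ∧
      ∀ p, p ∉ sat m q D' → pd w p = orderOf q := by
  have h1 : ∀ p, p ∉ sat m q D' → w p = lam m q p := fun p hp =>
    h p (fun h' => hp ⟨0, by simpa using hD h'⟩)
  refine ⟨h1, fun p => ⟨fun h2 => ?_, fun h2 => ?_⟩, fun p hp => ?_⟩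
  · by_contra h3
    rw [h1 p h3, sat_inv] at h2
    exact h3 h2
  · by_contra h3
    have h4 : (lam m q)⁻¹ (w p) ∉ sat m q D' := by rw [← sat_inv]; simpa using h3
    have h5 := h1 _ h4
    simp only [Equiv.Perm.coe_inv, Equiv.apply_symm_apply, EmbeddingLike.apply_eq_iff_eq] at h5
    rw [Equiv.Perm.coe_inv, h5] at h4
    exact h4 h2
  · have h2 : ∀ k : ℕ, (w ^ k) p = lam m (q ^ k) p ∧ (w ^ k) p ∉ sat m q D' := by
      intro k
      induction k with
      | zero => simpa using hp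
      | succ k ih =>
        rw [pow_succ', Equiv.Perm.mul_apply, h1 _ ih.2, sat_inv, pow_succ', map_mul,
          Equiv.Perm.mul_apply, ← ih.1]
        exact ⟨rfl, ih.2⟩
    have h3 : ∀ k : ℕ, pd w p ∣ k ↔ orderOf q ∣ k := by
      intro k
      rw [← pow_smul_eq_iff_period_dvd, orderOf_dvd_iff_pow_eq_one, Equiv.Perm.smul_def, (h2 k).1]
      obtain ⟨x, i⟩ := p
      rw [lam_apply]
      simp
    exact Nat.dvd_antisymm ((h3 _).2 dvd_rfl) ((h3 _).1 dvd_rfl)

theorem B_conj (n j K : ℕ) (hn : n ≤ 16 ^ j) (hK : 0 < K) :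
    (ConjClasses.mk '' Bl (SB m) n).ncard ≤ (2 * SQ.card + 1) ^ n *
      ((8 * 4 ^ j * ((m + 2) * n) + 1) * (8 * 4 ^ j * ((m + 2) * n) + 1) + 1) ^
        (K + 1 + 8 * 4 ^ j * ((m + 2) * n) / K) := by
  classical
  obtain ⟨E, e1, e2⟩ := stat_card (8 * 4 ^ j * ((m + 2) * n)) K hK
  choose! q h1 D h2 h3 h4 using disc m n
  have ho : ∀ w ∈ Bl (SB m) n, 0 < orderOf (q w) ∧ orderOf (q w) ≤ 8 * 4 ^ j := fun w hw =>
    ⟨(isOfFinOrder_iff_pow_eq_one.2 ⟨_, by positivity, Q_period hn (h1 w hw)⟩).orderOf_pos,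
      Nat.le_of_dvd (by positivity) (orderOf_dvd_of_pow_eq_one (Q_period hn (h1 w hw)))⟩
  let ν : BB m → ℕ → ℕ := fun w l => if l = orderOf (q w) then 0 else {p | pd w.1 p = l}.ncard
  refine (ncard_le_of_factor _ ConjClasses.mk (fun w => (q w, ν w)) (Bl SQ n ×ˢ (E : Set (ℕ → ℕ)))
    ((Bl_fin _ _).prod E.finite_toSet) (fun w hw => ⟨h1 w hw, ?_⟩) (fun w hw w' hw' he => ?_)).trans ?_
  · obtain ⟨a1, a2, a3⟩ := off m (q w) _ _ subset_rfl w.1 (h4 w hw)
    obtain ⟨b1, b2⟩ := sat_card m (q w) (ho w hw).1 _ (h2 w hw)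
    have sub : ∀ l, l ≠ orderOf (q w) → {p | pd w.1 p = l} ⊆ sat m (q w) (D w) := by
      intro l hl p hp
      by_contra hc
      exact hl ((show pd w.1 p = l from hp).symm.trans (a3 p hc))
    refine e2 _ (fun s => ?_) (fun l hl => ?_)
    · refine le_trans ?_ (b2.trans (Nat.mul_le_mul (ho w hw).2 (h3 w hw)))
      rw [Set.ncard_eq_toFinset_card _ b1]
      refine le_trans (Finset.sum_le_sum (g := fun l => (b1.toFinset.filter
        (fun p => pd w.1 p = l)).card) (fun l _ => ?_)) ?_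
      · simp only [ν]
        split_ifs with hl
        · exact Nat.zero_le _
        · rw [← Set.ncard_coe_finset]
          exact Set.ncard_le_ncard (fun p hp => by simpa using ⟨sub l hl hp, hp⟩)
      · rw [Finset.sum_card_fiberwise_eq_card_filter]
        exact Finset.card_filter_le _ _
    · simp only [ν] at hl ⊢
      split_ifs at hl ⊢ with h
      · exact (hl rfl).elim
      obtain ⟨p, hp⟩ := Set.nonempty_of_ncard_ne_zero hl
      have hp' : pd w.1 p = l := hp
      refine le_trans (le_of_eq (hp'.symm.trans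
        (orb_ncard w.1 p (per_pos w.1 _ b1 a2 p (sub l h hp))).symm)) ?_
      refine Set.ncard_le_ncard ?_ (b1.subset (sub l h))
      rintro _ ⟨i, rfl⟩
      exact (per_zp _ _ _).trans hp'
  · obtain ⟨e3, e4⟩ := Prod.ext_iff.1 he
    simp only at e3 e4
    obtain ⟨a1, a2, a3⟩ := off m (q w) _ (D w ∪ D w') Set.subset_union_left w.1 (h4 w hw)
    obtain ⟨b1, b2, b3⟩ := off m (q w) _ (D w ∪ D w') Set.subset_union_right w'.1
      (e3 ▸ h4 w' hw')
    obtain ⟨φ, c1, c2⟩ := conj_fin w.1 w'.1 _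
      (sat_card m (q w) (ho w hw).1 _ ((h2 w hw).union (h2 w' hw'))).1 a2 b2
      (fun p hp => by rw [a1 p hp, b1 p hp]) (orderOf (q w)) (fun l hl => by
        have := congrFun e4 l
        simp only [ν, ← e3, hl, if_false] at this
        convert this using 2
        · ext p
          simp only [Set.mem_ofPred_eq, and_iff_right_iff_imp]
          intro hp
          by_contra hc
          exact hl (hp.symm.trans (a3 p hc))
        · ext p
          simp only [Set.mem_ofPred_eq, and_iff_right_iff_imp]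
          intro hp
          by_contra hc
          exact hl (hp.symm.trans (b3 p hc)))
    exact ConjClasses.mk_eq_mk_iff_isConj.2 (isConj_iff.2 ⟨⟨φ, fin_mem m φ c1⟩, Subtype.ext c2⟩)
  · rw [Set.ncard_prod, Set.ncard_coe_finset]
    exact Nat.mul_le_mul (Bl_ncard _ _) e1

end Pool.Agent.H69.Pet
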