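import Pool.Agent.H69.Pet4

set_option autoImplicit false

namespace Pool.Agent.H69.Pet

open Filter

/-! lamplighter -/

@[ext] structure LL (q : ℕ) where
  f : ℤ →₀ ZMod q
  k : ℤ

variable {q : ℕ}

noncomputable def sh (k : ℤ) (f : ℤ →₀ ZMod q) : ℤ →₀ ZMod q := Finsupp.mapDomain (· + k) f

theorem sh_apply (k : ℤ) (f : ℤ →₀ ZMod q) (x : ℤ) : sh k f x = f (x - k) := by
  have := Finsupp.mapDomain_apply (add_left_injective k) f (x - k)
  simpa [sh] using this

noncomputable instance : Group (LL q) where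
  mul a b := ⟨a.f + sh a.k b.f, a.k + b.k⟩
  one := ⟨0, 0⟩
  inv a := ⟨-sh (-a.k) a.f, -a.k⟩
  mul_assoc a b c := by
    apply LL.ext
    · ext x
      show (a.f + sh a.k b.f + sh (a.k + b.k) c.f) x = (a.f + sh a.k (b.f + sh b.k c.f)) x
      simp [sh_apply, add_assoc, sub_sub]
    · exact add_assoc _ _ _
  one_mul a := by
    apply LL.ext
    · ext x
      show (0 + sh 0 a.f) x = _
      simp [sh_apply]
    · exact zero_add _
  mul_one a := by
    apply LL.ext
    · ext x
      show (a.f + sh a.k (0 : ℤ →₀ ZMod q)) x = _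
      simp [sh_apply]
    · exact add_zero _
  inv_mul_cancel a := by
    apply LL.ext
    · exact neg_add_cancel _
    · exact neg_add_cancel _

theorem mul_f (a b : LL q) (x : ℤ) : (a * b).f x = a.f x + b.f (x - a.k) := by
  show (a.f + sh a.k b.f) x = _
  simp [sh_apply]
theorem mul_k (a b : LL q) : (a * b).k = a.k + b.k := rfl
theorem inv_f (a : LL q) (x : ℤ) : (a⁻¹).f x = -a.f (x + a.k) := by
  show (-sh (-a.k) a.f) x = _
  simp [sh_apply]
theorem inv_k (a : LL q) : (a⁻¹).k = -a.k := rfl
theorem one_f : (1 : LL q).f = 0 := rfl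
theorem one_k : (1 : LL q).k = 0 := rfl

noncomputable def tt (i : ZMod q) : LL q := ⟨Finsupp.single 0 i, 1⟩

noncomputable def SA (q : ℕ) [NeZero q] : Finset (LL q) := by
  classical exact Finset.univ.image tt

theorem mem_SA [NeZero q] {x : LL q} : x ∈ SA q ↔ ∃ i, tt i = x := by simp [SA]

theorem SA_gen [NeZero q] : Subgroup.closure (SA q : Set (LL q)) = ⊤ := by
  set H := Subgroup.closure (SA q : Set (LL q))
  have h0 : ∀ i, tt i ∈ H := fun i => Subgroup.subset_closure (mem_SA.2 ⟨i, rfl⟩)
  have h1 : ∀ k : ℤ, (⟨0, k⟩ : LL q) ∈ H := by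
    intro k
    induction k using Int.induction_on with
    | zero => exact one_mem H
    | succ k ih =>
      convert mul_mem ih (h0 0) using 1
      ext x <;> simp [mul_f, mul_k, tt]
    | pred k ih =>
      convert mul_mem ih (inv_mem (h0 0)) using 1
      ext x <;> simp [mul_f, mul_k, inv_f, inv_k, tt, sub_eq_add_neg]
  have h2 : ∀ f : ℤ →₀ ZMod q, (⟨f, 0⟩ : LL q) ∈ H := by
    intro f
    induction f using Finsupp.induction_linear with
    | zero => exact one_mem H
    | add f g ih ih' =>
      convert mul_mem ih ih' using 1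
      ext x <;> simp [mul_f, mul_k]
    | single a b =>
      convert mul_mem (mul_mem (h1 a) (h0 b)) (h1 (-a - 1)) using 1
      ext x
      · simp [mul_f, mul_k, tt, Finsupp.single_apply, sub_eq_zero, eq_comm]
      · simp [mul_k, tt]
  rw [eq_top_iff]
  rintro ⟨f, k⟩ -
  convert mul_mem (h2 f) (h1 k) using 1
  ext x <;> simp [mul_f, mul_k]

theorem A_win [NeZero q] (n : ℕ) : ∀ w ∈ Bl (SA q) n, ∃ lo : ℤ, -n ≤ lo ∧ lo ≤ 0 ∧ -n ≤ w.k ∧
    w.k ≤ n ∧ ∀ x, w.f x ≠ 0 → lo ≤ x ∧ x < lo + n := by
  induction n with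
  | zero => intro w hw; exact ⟨0, by simp [Bl_zero hw, one_f, one_k]⟩
  | succ n ih =>
    intro w hw
    rcases Bl_succ hw with rfl | ⟨x, hx, y, hy, rfl⟩
    · exact ⟨0, by simp [one_f, one_k]; omega⟩
    obtain ⟨lo, a1, a2, a3, a4, a5⟩ := ih y hy
    rcases hx with hx | hx
    · obtain ⟨i, rfl⟩ := mem_SA.1 hx
      refine ⟨lo, by omega, a2, by simp [mul_k, tt]; omega, by simp [mul_k, tt]; omega,
        fun x hx => ?_⟩
      by_cases h : x = 0
      · omega
      · have := a5 (x - 1) (by simpa [mul_f, tt, Finsupp.single_apply, Ne.symm h] using hx)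
        omega
    · obtain ⟨i, hi⟩ := mem_SA.1 hx
      obtain rfl : x = (tt i)⁻¹ := by rw [hi, inv_inv]
      refine ⟨lo - 1, by omega, by omega, by simp [mul_k, inv_k, tt]; omega,
        by simp [mul_k, inv_k, tt]; omega, fun x hx => ?_⟩
      by_cases h : 0 = x + 1
      · omega
      · have := a5 (x + 1) (by simpa [mul_f, inv_f, inv_k, tt, Finsupp.single_apply, h] using hx)
        omega

theorem A_up [NeZero q] (n : ℕ) : (Bl (SA q) n).ncard ≤ (n + 1) * (2 * n + 1) * q ^ n := by
  classical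
  choose! lo h1 h2 h3 h4 h5 using A_win (q := q) n
  have := Set.ncard_le_ncard_of_injOn (s := Bl (SA q) n)
    (t := ((Finset.Icc (-n : ℤ) 0 ×ˢ Finset.Icc (-n : ℤ) n) ×ˢ
      (Finset.univ : Finset (Fin n → ZMod q)) : Finset _))
    (fun w => ((lo w, w.k), fun i : Fin n => w.f (lo w + i)))
    (fun w hw => by simp [h1 w hw, h2 w hw, h3 w hw, h4 w hw]) (fun w hw w' hw' he => by
      simp only [Prod.mk.injEq] at he
      obtain ⟨⟨e1, e2⟩, e3⟩ := he
      refine LL.ext ?_ e2
      ext x
      by_cases hx : lo w ≤ x ∧ x < lo w + n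
      · have := congrFun e3 ⟨(x - lo w).toNat, by omega⟩
        simp only [← e1] at this
        rwa [show lo w + ((x - lo w).toNat : ℤ) = x by omega] at this
      · have b1 : w.f x = 0 := by by_contra hc; exact hx (h5 w hw x hc)
        have b2 : w'.f x = 0 := by by_contra hc; exact hx (e1 ▸ h5 w' hw' x hc)
        rw [b1, b2]) (Finset.finite_toSet _)
  rw [Set.ncard_coe_finset] at this
  refine this.trans (le_of_eq ?_)
  simp only [Finset.card_product, Int.card_Icc, Finset.card_univ, Fintype.card_fun, ZMod.card,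
    Fintype.card_fin]
  congr 2 <;> omega

theorem A_pos [NeZero q] (k : ℕ) : ∀ f : ℤ →₀ ZMod q, (∀ x, f x ≠ 0 → 0 ≤ x ∧ x < k) →
    (⟨f, k⟩ : LL q) ∈ Bl (SA q) k := by
  induction k with
  | zero =>
    intro f hf
    obtain rfl : f = 0 := by ext x; by_contra hc; have := hf x hc; omega
    exact Bl_one _ _
  | succ k ih =>
    intro f hf
    convert Bl_mul (ih (f.erase k) (fun x hx => ?_)) (Bl_gen (Or.inl (mem_SA.2 ⟨f k, rfl⟩))) using 1
    · ext x
      · by_cases h : x = k <;>
          simp [mul_f, tt, Finsupp.single_apply, sub_eq_zero, eq_comm, h, Finsupp.erase_apply]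
      · simp [mul_k, tt]
    · rw [Finsupp.erase_apply] at hx
      split_ifs at hx with h
      · exact (hx rfl).elim
      · have := hf x hx
        omega

theorem A_low [NeZero q] (k : ℕ) (hk : 0 < k) :
    q ^ k ≤ k * (ConjClasses.mk '' Bl (SA q) k).ncard := by
  classical
  haveI : NeZero k := ⟨hk.ne'⟩
  let F : (ZMod k → ZMod q) → LL q := fun v =>
    ⟨Finsupp.mapDomain (fun x => (x.val : ℤ)) (Finsupp.equivFunOnFinite.symm v), k⟩
  let P : (ℤ →₀ ZMod q) →+ (ZMod k →₀ ZMod q) := Finsupp.mapDomain.addMonoidHom (Int.cast)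
  have hP : ∀ v, P (F v).f = Finsupp.equivFunOnFinite.symm v := fun v => by
    show Finsupp.mapDomain _ (Finsupp.mapDomain _ _) = _
    rw [← Finsupp.mapDomain_comp]
    convert Finsupp.mapDomain_id
    ext x; simp
  have hs : ∀ l f, P (sh l f) = Finsupp.mapDomain (· + (l : ZMod k)) (P f) := fun l f => by
    show Finsupp.mapDomain _ (Finsupp.mapDomain _ _) = Finsupp.mapDomain _ (Finsupp.mapDomain _ _)
    rw [← Finsupp.mapDomain_comp, ← Finsupp.mapDomain_comp]
    congr 1
    ext x; simp
  have h1 := Finset.card_le_mul_card_image_of_maps_to (s := Finset.univ)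
    (f := fun v => ConjClasses.mk (F v)) (t := ((Bl_fin (SA q) k).image ConjClasses.mk).toFinset)
    (fun v _ => by
      rw [Set.Finite.mem_toFinset]
      refine ⟨_, A_pos k _ (fun x hx => ?_), rfl⟩
      by_contra hc
      refine hx (Finsupp.mapDomain_notin_range _ _ ?_)
      rintro ⟨y, rfl⟩
      have := y.val_lt
      simp only at hc
      omega) k (fun c _ => by
      by_cases h : ∃ v, ConjClasses.mk (F v) = c
      · obtain ⟨v, rfl⟩ := h
        refine le_trans (Finset.card_le_card (t := Finset.univ.image (fun l : ZMod k =>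
          ⇑(Finsupp.mapDomain (· + l) (Finsupp.equivFunOnFinite.symm v)))) ?_)
          (Finset.card_image_le.trans (by simp))
        intro w hw
        simp only [Finset.mem_filter, Finset.mem_univ, true_and] at hw
        obtain ⟨c, hc⟩ := isConj_iff.1 (ConjClasses.mk_eq_mk_iff_isConj.1 hw.symm)
        rw [mul_inv_eq_iff_eq_mul] at hc
        have h2 : c.f + sh c.k (F v).f = (F w).f + sh (k : ℤ) c.f := congrArg LL.f hc
        have h3 := congrArg P h2
        rw [map_add, map_add, hs, hs, hP, hP] at h3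
        simp only [Int.cast_natCast, CharP.cast_eq_zero, add_zero] at h3
        rw [show (fun x : ZMod k => x) = id from rfl, Finsupp.mapDomain_id, add_comm,
          add_left_inj] at h3
        exact Finset.mem_image.2 ⟨_, Finset.mem_univ _, by rw [h3]; rfl⟩
      · rw [Finset.filter_eq_empty_iff.2 (fun v _ hv => h ⟨v, hv⟩)]
        simp)
  rw [← Set.ncard_eq_toFinset_card _ ((Bl_fin (SA q) k).image ConjClasses.mk)] at h1
  simpa using h1

end Pool.Agent.H69.Pet
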