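import Mathlib

namespace Pool.Agent.H69.Plateau

def c (k n : ℕ) : ℕ := max n (2 ^ (k * k)) + (Nat.log 2 n - k * k)

noncomputable def r (n : ℕ) : ℕ := ⨅ k, c k n

theorem r_le (k n : ℕ) : r n ≤ c k n := ciInf_le' (fun k => c k n) k

theorem r_eq (n : ℕ) : ∃ k, r n = c k n := by
  obtain ⟨k, hk⟩ := Nat.sInf_mem (s := Set.range (fun k => c k n)) ⟨_, 0, rfl⟩
  exact ⟨k, hk.symm⟩

theorem r_mono {n m : ℕ} (h : n ≤ m) : r n ≤ r m := by
  obtain ⟨k, hk⟩ := r_eq m
  refine (r_le k n).trans ?_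
  have := Nat.log_mono_right (b := 2) h
  rw [hk]
  unfold c
  omega

theorem r_ge (n : ℕ) : n ≤ r n := by
  obtain ⟨k, hk⟩ := r_eq n
  rw [hk]
  unfold c
  omega

theorem r_up (n : ℕ) (hn : 0 < n) : r n ≤ 2 * n := by
  refine (r_le 0 n).trans ?_
  have := Nat.log_le_self 2 n
  unfold c
  simp only [Nat.mul_zero, Nat.pow_zero]
  omega

theorem r_add {n m : ℕ} (h : m ≤ n) (hn : 0 < n) : r (n + m) ≤ r n + m + 1 := by
  obtain ⟨k, hk⟩ := r_eq n
  refine (r_le k _).trans ?_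
  have e1 : Nat.log 2 (n + m) ≤ Nat.log 2 (n * 2) := Nat.log_mono_right (by omega)
  rw [Nat.log_mul_base (by norm_num) hn.ne'] at e1
  rw [hk]
  unfold c
  omega

theorem plateau (k n : ℕ) (hk : 2 ≤ k) (h1 : 2 ^ (k * k) ≤ n + k) (h2 : n ≤ 2 ^ (k * k)) :
    r n = 2 ^ (k * k) := by
  have e0 : Nat.log 2 n ≤ k * k := by
    have := Nat.log_mono_right (b := 2) h2
    rwa [Nat.log_pow (by norm_num)] at this
  apply le_antisymm
  · refine (r_le k n).trans ?_
    unfold c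
    omega
  · obtain ⟨j, hj⟩ := r_eq n
    rw [hj]
    unfold c
    by_cases h : k ≤ j
    · have : 2 ^ (k * k) ≤ 2 ^ (j * j) := Nat.pow_le_pow_right (by norm_num) (Nat.mul_le_mul h h)
      omega
    · have hkk : 0 < k * k := by positivity
      obtain ⟨p, hp⟩ : ∃ p, k * k = p + 1 := ⟨k * k - 1, by omega⟩
      have e1 : p < 2 ^ p := Nat.lt_two_pow_self
      have e2 : j * j + k ≤ p := by nlinarith
      have e3 : 2 ^ p ≤ n := by
        rw [hp, pow_succ] at h1
        omega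
      have e4 : p ≤ Nat.log 2 n := Nat.le_log_of_pow_le (by norm_num) e3
      omega

noncomputable def N (x : ℤ) : ℕ := if x = 0 then 0 else r x.natAbs + 1

theorem N_neg (x : ℤ) : N (-x) = N x := by simp [N]

theorem N_add (x y : ℤ) : N (x + y) ≤ N x + N y := by
  by_cases hx : x = 0
  · simp [hx, N]
  by_cases hy : y = 0
  · simp [hy, N]
  by_cases hxy : x + y = 0
  · simp [hxy, N]
  simp only [N, hx, hy, hxy, if_false]
  have e := r_mono (Int.natAbs_add_le x y)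
  have a1 := r_ge x.natAbs
  have a2 := r_ge y.natAbs
  rcases le_total x.natAbs y.natAbs with h | h
  · have := r_add h (by omega)
    rw [add_comm y.natAbs] at this
    omega
  · have := r_add h (by omega)
    omega

theorem N_ge (x : ℤ) : x.natAbs ≤ N x := by
  unfold N
  split_ifs with h
  · simp [h]
  · have := r_ge x.natAbs
    omega

theorem N_le (x : ℤ) : N x ≤ 3 * x.natAbs := by
  unfold N
  split_ifs with h
  · simp
  · have := r_up x.natAbs (by omega)
    omega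

def X (k : ℕ) : ℤ := 2 ^ ((2 * k) * (2 * k)) - k

theorem X_ge (k : ℕ) (hk : 1 ≤ k) : 2 * (k : ℤ) < X k := by
  have e1 : (2 * k) * (2 * k) < 2 ^ ((2 * k) * (2 * k)) := Nat.lt_two_pow_self
  have e2 : 4 * k ≤ (2 * k) * (2 * k) := by nlinarith
  have e3 : ((4 * k : ℕ) : ℤ) < ((2 ^ ((2 * k) * (2 * k)) : ℕ) : ℤ) := by
    exact_mod_cast lt_of_le_of_lt e2 e1
  unfold X
  push_cast at e3
  omega

theorem N_X (k : ℕ) (hk : 1 ≤ k) (y : ℤ) (hy : y.natAbs ≤ k) :
    N (X k - y) = 2 ^ ((2 * k) * (2 * k)) + 1 := by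
  have e := X_ge k hk
  have e2 : ((2 ^ ((2 * k) * (2 * k)) : ℕ) : ℤ) = X k + k := by simp [X]
  rw [N, if_neg (by omega), plateau (2 * k) _ (by omega) (by omega) (by omega)]

end Pool.Agent.H69.Plateau
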