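import Mathlib

namespace Pool.Agent.H69.Pq

open scoped RegularWreathProduct

theorem chain_lim (G : ℕ → Type) [∀ n, Group (G n)] (j : ∀ n, G n →* G (n + 1))
    (hj : ∀ n, Function.Injective (j n)) :
    ∃ (H : Type) (_ : Group H) (φ : ∀ n, G n →* H), (∀ n, Function.Injective (φ n)) ∧
      (∀ n x, φ (n + 1) (j n x) = φ n x) ∧ ∀ h, ∃ n x, φ n x = h := by
  let f : ∀ a b : ℕ, a ≤ b → G a →* G b := fun a b h =>
    Nat.leRec (motive := fun b _ => G a →* G b) (MonoidHom.id _) (fun k _ r => (j k).comp r) h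
  have f0 : ∀ a, f a a le_rfl = MonoidHom.id _ := fun a => Nat.leRec_self _ _
  have f1 : ∀ a b (h : a ≤ b), f a (b + 1) (h.trans b.le_succ) = (j b).comp (f a b h) :=
    fun a b h => Nat.leRec_succ _ _ h
  haveI : DirectedSystem G (f · · ·) := ⟨fun a x => by simp only [f0]; rfl, fun c b a h1 h2 x => by
    induction c, h2 using Nat.le_induction with
    | base => simp only [f0]; rfl
    | succ k hk ih =>
      simp only [f1 b k hk, f1 a k (h1.trans hk), MonoidHom.comp_apply]
      exact congrArg _ ih⟩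
  have fi : ∀ a b h, Function.Injective (f a b h) := fun a b h => by
    induction b, h using Nat.le_induction with
    | base => rw [f0]; exact Function.injective_id
    | succ k hk ih => rw [f1 a k hk]; exact (hj k).comp ih
  refine ⟨DirectLimit G f, inferInstance, fun n => MonoidHom.mk' (fun x => ⟦⟨n, x⟩⟧)
    fun x y => (DirectLimit.mul_def n x y).symm, fun n => DirectLimit.mk_injective f fi n,
    fun n x => ?_, fun h => ?_⟩
  · have := DirectLimit.mk_apply (f := f) n (n + 1) x n.le_succ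
    rwa [f1 n n le_rfl, f0] at this
  · obtain ⟨i, x, e⟩ := DirectLimit.exists_eq_mk f h
    exact ⟨i, x, e.symm⟩

def Good (p : ℕ) (D : Type) [Group D] : Prop := Group.IsSolvable D ∧ ∃ k : ℕ, ∀ g : D, g ^ p ^ k = 1

theorem Good.pi {p : ℕ} {D : Type} [Group D] (h : Good p D) (I : Type) : Good p (I → D) := by
  obtain ⟨⟨n, hn⟩, k, hk⟩ := h
  refine ⟨⟨n, eq_bot_iff.2 fun g hg => funext fun i => ?_⟩, k, fun g => funext fun i => hk _⟩
  have := map_derivedSeries_le_derivedSeries (Pi.evalMonoidHom (fun _ : I => D) i) n ⟨g, hg, rfl⟩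
  rwa [hn] at this

def base (D A : Type) [Group D] [Group A] : (A → D) →* D ≀ᵣ A :=
  MonoidHom.mk' (fun f => ⟨f, 1⟩) fun f g => by ext <;> simp

theorem Good.wr {p : ℕ} {D A : Type} [Group D] [Group A] (h : Good p D) (h' : Good p A) :
    Good p (D ≀ᵣ A) := by
  obtain ⟨a, k, hk⟩ := h.pi A
  obtain ⟨b, l, hl⟩ := h'
  have e : ∀ g : D ≀ᵣ A, g.right = 1 → base D A g.left = g := fun g hg => by
    ext <;> simp [base, hg]
  refine ⟨solvable_of_ker_le_range (base D A) RegularWreathProduct.rightHom fun g hg => ⟨_, e g hg⟩,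
    l + k, fun g => ?_⟩
  rw [pow_add, pow_mul, ← e (g ^ p ^ l) ((map_pow RegularWreathProduct.rightHom g _).trans (hl _)),
    ← map_pow, hk, map_one]

structure St (p q : ℕ) where
  D : Type
  U : Type
  [g : Group D]
  [a : AddCommGroup U]
  [m : Module (ZMod q) U]
  [d : DistribMulAction D U]
  good : Good p D

attribute [instance] St.g St.a St.m St.d

variable {p q : ℕ}

def wact (D A U : Type) [Group D] [Group A] [AddCommGroup U] [DistribMulAction D U] :
    DistribMulAction (D ≀ᵣ A) (A → U) where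
  smul w x := fun b => w.left b • x (w.right⁻¹ * b)
  one_smul x := funext fun b => show (1 : D) • x (1⁻¹ * b) = x b by simp
  mul_smul v w x := funext fun b => show (v.left b * w.left (v.right⁻¹ * b)) •
    x ((v.right * w.right)⁻¹ * b) = v.left b • w.left (v.right⁻¹ * b) •
      x (w.right⁻¹ * (v.right⁻¹ * b)) by rw [mul_smul, mul_inv_rev, mul_assoc]
  smul_zero w := funext fun _ => smul_zero _
  smul_add w x y := funext fun _ => smul_add _ _ _

def St.wr (S : St p q) (A : Type) [Group A] (h : Good p A) : St p q :=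
  { D := S.D ≀ᵣ A, U := A → S.U, d := wact _ _ _, good := S.good.wr h }

def St.pw (S : St p q) (I : Type) : St p q :=
  { D := I → S.D, U := I → S.U, good := S.good.pi I }

def St.zero (p q : ℕ) : St p q :=
  { D := Unit, U := ZMod q
    d := { smul := fun _ x => x, one_smul := fun _ => rfl, mul_smul := fun _ _ _ => rfl,
           smul_zero := fun _ => rfl, smul_add := fun _ _ _ => rfl }
    good := ⟨inferInstance, 0, fun _ => rfl⟩ }

theorem line (hp : p.Prime) (hq : q.Prime) (s : ℕ) (hs : s ≤ q) :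
    ∃ (S : St p q) (u v : S.U), v ≠ 0 ∧ ∀ t < s, ∃ g : S.D, u + t • v = g • u := by
  haveI := Fact.mk hq
  induction s with
  | zero => exact ⟨St.zero p q, 0, (1 : ZMod q), (one_ne_zero : (1 : ZMod q) ≠ 0), by simp⟩
  | succ s ih =>
    obtain ⟨S, u, v, hv, h⟩ := ih (by omega)
    have hN : q < p ^ q := Nat.lt_pow_self hp.one_lt
    haveI : NeZero (p ^ q) := ⟨by omega⟩
    let W : ℕ → S.U := fun i => if i < q then u + i • v else u
    have key : ∀ i < p ^ q, ∀ t ≤ s, ∃ g : S.D,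
        W i + t • (if i < q then v else 0) = g • W ((i + t) % p ^ q) := by
      intro i hi t ht
      rcases lt_or_ge (i + t) q with l | l
      · refine ⟨1, ?_⟩
        rw [Nat.mod_eq_of_lt (by omega)]
        simp only [W, if_pos l, if_pos (show i < q by omega), one_smul, add_smul, add_assoc]
      have a : ∃ g : S.D, W i + t • (if i < q then v else 0) = g • u := by
        by_cases c : i < q
        · obtain ⟨g, hg⟩ := h (i + t - q) (by omega)
          refine ⟨g, ?_⟩
          simp only [W, if_pos c]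
          rw [← hg, add_assoc, ← add_smul, show i + t = i + t - q + q by omega, add_smul,
            ZModModule.char_nsmul_eq_zero q v, add_zero, Nat.add_sub_cancel]
        · exact ⟨1, by simp [W, c]⟩
      have b : ∃ g : S.D, W ((i + t) % p ^ q) = g • u := by
        rcases lt_or_ge (i + t) (p ^ q) with c | c
        · exact ⟨1, by simp [W, Nat.mod_eq_of_lt c, not_lt.2 l]⟩
        · rw [Nat.mod_eq_sub_mod c, Nat.mod_eq_of_lt (by omega)]
          simp only [W, if_pos (show i + t - p ^ q < q by omega)]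
          exact h _ (by omega)
      obtain ⟨g, hg⟩ := a
      obtain ⟨g', hg'⟩ := b
      exact ⟨g * g'⁻¹, by rw [hg, hg', mul_smul, inv_smul_smul]⟩
    refine ⟨S.wr (Multiplicative (ZMod (p ^ q))) ⟨inferInstance, q, fun g => ?_⟩,
      fun b => W b.toAdd.val, fun b => if b.toAdd.val < q then v else 0, fun z => hv ?_,
      fun t ht => ?_⟩
    · apply Multiplicative.toAdd.injective
      rw [toAdd_pow, nsmul_eq_mul, ZMod.natCast_self, zero_mul, toAdd_one]
    · exact Eq.trans (by simp [hq.pos]) (congrFun z 1)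
    · choose g hg using fun b : Multiplicative (ZMod (p ^ q)) =>
        key b.toAdd.val (ZMod.val_lt _) t (by omega)
      refine ⟨⟨g, (Multiplicative.ofAdd (t : ZMod (p ^ q)))⁻¹⟩, funext fun b => (hg b).trans ?_⟩
      change _ = g b • W ((Multiplicative.ofAdd (t : ZMod (p ^ q)))⁻¹⁻¹ * b).toAdd.val
      rw [inv_inv, toAdd_mul, toAdd_ofAdd, ZMod.val_add, ZMod.val_natCast, Nat.mod_add_mod, add_comm]

@[ext] structure Af (S : St p q) where
  x : S.U
  a : S.D

variable {S : St p q}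

instance : Group (Af S) where
  mul g h := ⟨g.x + g.a • h.x, g.a * h.a⟩
  one := ⟨0, 1⟩
  inv g := ⟨-(g.a⁻¹ • g.x), g.a⁻¹⟩
  mul_assoc f g h := Af.ext (show f.x + f.a • g.x + (f.a * g.a) • h.x = f.x + f.a • (g.x + g.a • h.x)
    by rw [smul_add, mul_smul, add_assoc]) (mul_assoc _ _ _)
  one_mul g := Af.ext (show 0 + (1 : S.D) • g.x = g.x by simp) (one_mul _)
  mul_one g := Af.ext (show g.x + g.a • 0 = g.x by simp) (mul_one _)
  inv_mul_cancel g := Af.ext (neg_add_cancel _) (inv_mul_cancel _)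

instance : MulAction (Af S) S.U where
  smul g y := g.x + g.a • y
  one_smul y := show 0 + (1 : S.D) • y = y by simp
  mul_smul f g y := show f.x + f.a • g.x + (f.a * g.a) • y = f.x + f.a • (g.x + g.a • y) by
    rw [smul_add, mul_smul, add_assoc]

theorem Af.smul_def (g : Af S) (y : S.U) : g • y = g.x + g.a • y := rfl

def pr (S : St p q) : Af S →* S.D := MonoidHom.mk' Af.a fun _ _ => rfl

def tr (S : St p q) : Multiplicative S.U →* Af S := MonoidHom.mk' (fun x => ⟨x.toAdd, 1⟩) fun x y =>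
  Af.ext (show _ = x.toAdd + (1 : S.D) • y.toAdd by simp) (mul_one _).symm

theorem Af.solv (S : St p q) : Group.IsSolvable (Af S) := by
  have := S.good.1
  exact solvable_of_ker_le_range (tr S) (pr S) fun g hg => ⟨.ofAdd g.x, Af.ext rfl (Eq.symm hg)⟩

theorem tr_pow (x : Multiplicative S.U) : tr S x ^ q = 1 := by
  rw [← map_pow, ← map_one (tr S)]
  exact congrArg _ (ZModModule.char_nsmul_eq_zero q x.toAdd)

theorem Af.exp (g : Af S) : ∃ k, g ^ (p ^ k * q) = 1 := by
  obtain ⟨k, hk⟩ := S.good.2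
  refine ⟨k, ?_⟩
  rw [pow_mul, show g ^ p ^ k = tr S (.ofAdd (g ^ p ^ k).x) from
    Af.ext rfl ((map_pow (pr S) g _).trans (hk _)), tr_pow]

theorem Af.stab {g : Af S} {b : S.U} (h : g • b = b) : ∃ k, g ^ p ^ k = 1 := by
  obtain ⟨k, hk⟩ := S.good.2
  have a : (g ^ p ^ k).a = 1 := (map_pow (pr S) g _).trans (hk _)
  have := pow_mem (show g ∈ MulAction.stabilizer (Af S) b from h) (p ^ k)
  rw [MulAction.mem_stabilizer_iff, Af.smul_def, a, one_smul, add_eq_right] at this
  exact ⟨k, Af.ext this a⟩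

theorem step (hp : p.Prime) (hq : q.Prime) (S : St p q) (b : S.U) :
    ∃ (S' : St p q) (b' : S'.U) (j : Af S →* Af S'), Function.Injective j ∧
      (∀ g, g • (0 : S.U) = 0 → j g • (0 : S'.U) = 0) ∧ (∀ g, g • b = b → j g • b' = b') ∧
      ∀ g, ∃ a : Af S', a • (0 : S'.U) = 0 ∧ j g • b' = a • b' := by
  haveI := Fact.mk hq
  obtain ⟨L, u, v, hv, h⟩ := line hp hq q le_rfl
  let S' := (L.pw (Module.Dual (ZMod q) S.U)).wr S.D S.good
  let ι : S.U →+ S'.U := AddMonoidHom.mk' (fun x a φ => φ (a⁻¹ • x) • v) fun x y => by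
    funext a φ
    change φ (a⁻¹ • (x + y)) • v = φ (a⁻¹ • x) • v + φ (a⁻¹ • y) • v
    rw [smul_add, map_add, add_smul]
  let c : S'.U := fun _ _ => u
  let k : S.D →* S'.D := RegularWreathProduct.inl
  have e1 : ∀ a x, k a • ι x = ι (a • x) := fun a x => by
    funext b φ
    change (1 : L.D) • φ ((a⁻¹ * b)⁻¹ • x) • v = φ (b⁻¹ • a • x) • v
    rw [one_smul, mul_inv_rev, inv_inv, mul_smul]
  have e2 : ∀ a, k a • c = c := fun a => funext fun _ => funext fun _ => one_smul L.D u
  have e3 : ∀ x, ∃ w : S'.D, ι x + c = w • c := fun x => by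
    choose g hg using fun (a : S.D) (φ : Module.Dual (ZMod q) S.U) =>
      h (φ (a⁻¹ • x)).val (ZMod.val_lt _)
    refine ⟨⟨g, 1⟩, funext fun a => funext fun φ => Eq.trans ?_ (hg a φ)⟩
    rw [← Nat.cast_smul_eq_nsmul (ZMod q), ZMod.natCast_zmod_val, add_comm]
    rfl
  let j : Af S →* Af S' := MonoidHom.mk' (fun g => ⟨ι g.x, k g.a⟩) fun f g =>
    Af.ext (show ι (f.x + f.a • g.x) = ι f.x + k f.a • ι g.x by rw [e1, map_add]) (map_mul k _ _)
  have e4 : ∀ g y, j g • (ι y + c) = ι (g • y) + c := fun g y => by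
    change ι g.x + k g.a • (ι y + c) = ι (g.x + g.a • y) + c
    rw [smul_add, e1, e2, map_add, add_assoc]
  refine ⟨S', ι b + c, j, (injective_iff_map_eq_one j).2 fun g hg => Af.ext ?_
    (congrArg (fun z : Af S' => z.a.right) hg), fun g hg => ?_, fun g hg => by rw [e4, hg],
    fun g => ?_⟩
  · refine (Module.forall_dual_apply_eq_zero_iff (ZMod q) _).1 fun φ => ?_
    have : φ ((1 : S.D)⁻¹ • g.x) • v = 0 := congrArg (fun z : Af S' => z.x 1 φ) hg
    simpa [hv] using this
  · rw [Af.smul_def, smul_zero, add_zero] at hg ⊢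
    exact (congrArg ι hg).trans (map_zero ι)
  · obtain ⟨w, hw⟩ := e3 (g • b)
    obtain ⟨w', hw'⟩ := e3 b
    refine ⟨⟨0, w * w'⁻¹⟩, by simp [Af.smul_def], ?_⟩
    rw [e4, hw, hw', Af.smul_def, zero_add, mul_smul, inv_smul_smul]

theorem cop (hp : p.Prime) (hq : q.Prime) (hpq : p ≠ q) {G : Type} [Group G] {g : G} {a b : ℕ}
    (h1 : g ^ p ^ a = 1) (h2 : g ^ q ^ b = 1) : g = 1 :=
  orderOf_eq_one_iff.1 (Nat.eq_one_of_dvd_coprimes (Nat.coprime_pow_primes a b hp hq hpq)
    (orderOf_dvd_of_pow_eq_one h1) (orderOf_dvd_of_pow_eq_one h2))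

theorem main (hp : p.Prime) (hq : q.Prime) : ∃ (G : Type) (_ : Group G),
    (∀ g : G, ∃ k, g ^ (p ^ k * q) = 1) ∧ (∃ z : G, z ≠ 1 ∧ z ^ q = 1) ∧
    (∀ s : Finset G, Group.IsSolvable (Subgroup.closure (s : Set G))) ∧
    ∃ A B : Subgroup G, IsPGroup p A ∧ IsPGroup p B ∧ ∀ g : G, ∃ a ∈ A, ∃ b ∈ B, g = a * b := by
  haveI := Fact.mk hq
  choose S' b' j h1 h2 h3 h4 using step hp hq
  let T : ℕ → Σ S : St p q, S.U := fun n =>
    Nat.rec ⟨St.zero p q, 0⟩ (fun _ x => ⟨S' x.1 x.2, b' x.1 x.2⟩) n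
  obtain ⟨G, _, φ, i1, i2, i3⟩ := chain_lim (fun n => Af (T n).1) (fun n => j (T n).1 (T n).2)
    fun n => h1 _ _
  have pg : ∀ b : ∀ n, (T n).1.U, (∀ n g, g • b n = b n → j (T n).1 (T n).2 g • b (n + 1) = b (n + 1)) →
      IsPGroup p (⨆ n, (MulAction.stabilizer (Af (T n).1) (b n)).map (φ n) : Subgroup G) := by
    intro b hb ⟨g, hg⟩
    obtain ⟨n, x, hx, rfl⟩ := (Subgroup.mem_iSup_of_directed (Monotone.directed_le
      (monotone_nat_of_le_succ fun n => by
        rintro _ ⟨x, hx, rfl⟩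
        exact ⟨_, hb n x hx, i2 n x⟩))).1 hg
    obtain ⟨k, hk⟩ := Af.stab hx
    exact ⟨k, Subtype.ext (by simp [← map_pow, hk])⟩
  refine ⟨G, inferInstance, fun g => ?_, ⟨φ 0 (tr _ (.ofAdd (1 : ZMod q))), fun z => ?_,
    by rw [← map_pow, tr_pow, map_one]⟩, fun s => ?_, _, _, pg (fun _ => 0) fun n => h2 _ _,
    pg (fun n => (T n).2) fun n => h3 _ _, fun g => ?_⟩
  · obtain ⟨n, x, rfl⟩ := i3 g
    obtain ⟨k, hk⟩ := x.exp
    exact ⟨k, by rw [← map_pow, hk, map_one]⟩
  · exact (one_ne_zero : (1 : ZMod q) ≠ 0) (congrArg Af.x ((injective_iff_map_eq_one _).1 (i1 0) _ z))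
  · have mono : Monotone fun n => (φ n).range := monotone_nat_of_le_succ fun n => by
      rintro _ ⟨x, rfl⟩
      exact ⟨_, i2 n x⟩
    choose n x hx using i3
    have : Subgroup.closure (s : Set G) ≤ (φ (s.sup n)).range :=
      (Subgroup.closure_le _).2 fun g hg => mono (Finset.le_sup hg) ⟨x g, hx g⟩
    have a := Af.solv (T (s.sup n)).1
    have b := solvable_of_surjective (φ (s.sup n)).rangeRestrict_surjective
    exact solvable_of_solvable_injective (Subgroup.inclusion_injective this)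
  · obtain ⟨n, x, rfl⟩ := i3 g
    obtain ⟨a, ha, e⟩ := h4 (T n).1 (T n).2 x
    refine ⟨φ (n + 1) a, Subgroup.mem_iSup_of_mem (n + 1) ⟨a, ha, rfl⟩,
      φ (n + 1) (a⁻¹ * j _ _ x), Subgroup.mem_iSup_of_mem (n + 1) ⟨_, ?_, rfl⟩, ?_⟩
    · change (a⁻¹ * j _ _ x) • b' _ _ = b' _ _
      rw [mul_smul, e, inv_smul_smul]
    · rw [← map_mul, mul_inv_cancel_left, i2]

end Pool.Agent.H69.Pq
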