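import Pool.Agent.H69.Pq1

namespace Pool.Agent.H69.Pq

open scoped RegularWreathProduct

theorem assemble (G : ℕ → Type) [∀ n, Group (G n)] (j : ∀ n, G n →* G (n + 1))
    (hj : ∀ n, Function.Injective (j n)) (A B : ∀ n, Subgroup (G n))
    (hA : ∀ n, ∀ x ∈ A n, j n x ∈ A (n + 1)) (hB : ∀ n, ∀ x ∈ B n, j n x ∈ B (n + 1))
    (P : ∀ n, ℕ → G n → Prop) (h0 : ∀ n g, ∃ R, P n R g)
    (hz : ∀ n g, P n 0 g → ∃ a ∈ A (n + 1), a⁻¹ * j n g ∈ B (n + 1))
    (hs : ∀ n R g, P n (R + 1) g → P (n + 1) R (j n g)) :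
    ∃ (H : Type) (_ : Group H) (φ : ∀ n, G n →* H) (A' B' : Subgroup H),
      (∀ n, Function.Injective (φ n)) ∧
      (∀ s : Finset H, ∃ n, Subgroup.closure (s : Set H) ≤ (φ n).range) ∧
      (∀ a ∈ A', ∃ n, ∃ x ∈ A n, φ n x = a) ∧ (∀ a ∈ B', ∃ n, ∃ x ∈ B n, φ n x = a) ∧
      ∀ g : H, ∃ a ∈ A', ∃ b ∈ B', g = a * b := by
  obtain ⟨H, _, φ, i1, i2, i3⟩ := chain_lim G j hj
  have pg : ∀ C : ∀ n, Subgroup (G n), (∀ n, ∀ x ∈ C n, j n x ∈ C (n + 1)) →
      ∀ a ∈ (⨆ n, (C n).map (φ n) : Subgroup H), ∃ n, ∃ x ∈ C n, φ n x = a := fun C hC a ha =>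
    (Subgroup.mem_iSup_of_directed (Monotone.directed_le (monotone_nat_of_le_succ fun n => by
      rintro _ ⟨x, hx, rfl⟩
      exact ⟨_, hC n x hx, i2 n x⟩))).1 ha
  refine ⟨H, inferInstance, φ, _, _, i1, fun s => ?_, pg A hA, pg B hB, fun g => ?_⟩
  · have mono : Monotone fun n => (φ n).range := monotone_nat_of_le_succ fun n => by
      rintro _ ⟨x, rfl⟩
      exact ⟨_, i2 n x⟩
    choose n x hx using i3
    exact ⟨s.sup n, (Subgroup.closure_le _).2 fun g hg => mono (Finset.le_sup hg) ⟨x g, hx g⟩⟩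
  · obtain ⟨n, x, rfl⟩ := i3 g
    obtain ⟨R, hR⟩ := h0 n x
    induction R generalizing n with
    | zero =>
      obtain ⟨a, ha, e⟩ := hz n x hR
      exact ⟨φ (n + 1) a, Subgroup.mem_iSup_of_mem (n + 1) ⟨a, ha, rfl⟩, φ (n + 1) (a⁻¹ * j n x),
        Subgroup.mem_iSup_of_mem (n + 1) ⟨_, e, rfl⟩, by rw [← map_mul, mul_inv_cancel_left, i2]⟩
    | succ R ih =>
      rw [← i2]
      exact ih _ _ (hs n R x hR)

structure Zs extends St 6 0 where
  I : Type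
  [fD : Finite D]
  [fI : Finite I]
  ev : U →+ I → ℤ
  inj : ∀ y, ev y = 0 → y = 0
  pm : ∀ (a : D) i, ∃ i', ∀ y, ev (a • y) i = ev y i'

attribute [instance] Zs.fD Zs.fI

def Zs.zero : Zs :=
  { toSt := St.zero 6 0, I := Unit, fD := (inferInstance : Finite Unit)
    ev := AddMonoidHom.mk' (fun (y : ℤ) _ => y) fun _ _ => rfl
    inj := fun _ h => congrFun h (), pm := fun _ i => ⟨i, fun _ => rfl⟩ }

def Zs.wr (S : Zs) (A : Type) [Group A] [Finite A] (h : Good 6 A) : Zs :=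
  { toSt := S.toSt.wr A h, I := A × S.I, fD := (inferInstance : Finite (S.D ≀ᵣ A))
    ev := AddMonoidHom.mk' (fun y i => S.ev (y i.1) i.2) fun x y => funext fun i =>
      congrFun (S.ev.map_add (x i.1) (y i.1)) i.2
    inj := fun y h => funext fun a => S.inj _ (funext fun i => congrFun h (a, i))
    pm := fun w i => (S.pm (w.left i.1) i.2).elim fun i' h => ⟨(w.right⁻¹ * i.1, i'), fun _ => h _⟩ }

def Zs.pw (S : Zs) (J : Type) [Finite J] : Zs :=
  { toSt := S.toSt.pw J, I := J × S.I, fD := (inferInstance : Finite (J → S.D))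
    ev := AddMonoidHom.mk' (fun y i => S.ev (y i.1) i.2) fun x y => funext fun i =>
      congrFun (S.ev.map_add (x i.1) (y i.1)) i.2
    inj := fun y h => funext fun a => S.inj _ (funext fun i => congrFun h (a, i))
    pm := fun w i => (S.pm (w i.1) i.2).elim fun i' h => ⟨(i.1, i'), fun _ => h _⟩ }

abbrev C (n : ℕ) := Multiplicative (ZMod n)

def L : Zs := (Zs.zero.wr (C 2) ⟨inferInstance, 1, by decide⟩).wr (C 3) ⟨inferInstance, 1, by decide⟩

def io (t : ℤ) : C 3 → C 2 → ℤ := fun h σ =>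
  if σ = 1 then (t + 1 + h.toAdd.val) / 3 else 1 - (t + 1 + h.toAdd.val) / 3

def k1 : Af L.toSt := ⟨fun (h : C 3) (σ : C 2) => (if h.toAdd = 2 then if σ = 1 then 1 else -1 else 0 : ℤ),
  ⟨1, (Multiplicative.ofAdd (1 : ZMod 3))⁻¹⟩⟩

theorem k1_io (t : ℤ) : k1 • (show L.U from io t) = io (t + 1) := by
  funext (h : C 3) (σ : C 2)
  change (if h.toAdd = 2 then if σ = 1 then 1 else -1 else 0 : ℤ) +
    io t ((Multiplicative.ofAdd (1 : ZMod 3))⁻¹⁻¹ * h) (1⁻¹ * σ) = io (t + 1) h σ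
  have a : ∀ h : C 3, (h.toAdd = 2 ∧ h.toAdd.val = 2 ∧ (Multiplicative.ofAdd (1 : ZMod 3) * h).toAdd.val = 0)
    ∨ (h.toAdd ≠ 2 ∧ (Multiplicative.ofAdd (1 : ZMod 3) * h).toAdd.val = h.toAdd.val + 1) := by decide
  simp only [inv_inv, inv_one, one_mul, io]
  rcases a h with ⟨a, b, c⟩ | ⟨a, b⟩
  · rw [if_pos a, b, c]
    split_ifs <;> omega
  · rw [if_neg a, b]
    split_ifs <;> omega

theorem k_io (n t : ℤ) : k1 ^ n • (show L.U from io t) = io (t + n) := by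
  induction n using Int.induction_on generalizing t with
  | zero => simp
  | succ n ih => rw [zpow_add_one, mul_smul, k1_io, ih]; congr 1; ring
  | pred n ih =>
    rw [zpow_sub_one, mul_smul, show io t = io (t - 1 + 1) by simp, ← k1_io, inv_smul_smul, ih]
    congr 1; ring

theorem io_merge {t t' : ℤ} (h : 0 ≤ t ∧ t ≤ 1) (h' : 0 ≤ t' ∧ t' ≤ 1) :
    ∃ f : L.D, (show L.U from io t) = f • (show L.U from io t') := by
  refine ⟨⟨fun h => ⟨1, if (t + 1 + h.toAdd.val) / 3 = (t' + 1 + h.toAdd.val) / 3 then 1 else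
    Multiplicative.ofAdd 1⟩, 1⟩, ?_⟩
  funext (g : C 3) (σ : C 2)
  change io t g σ = io t' (1⁻¹ * g) ((if (t + 1 + g.toAdd.val) / 3 = (t' + 1 + g.toAdd.val) / 3 then 1
    else Multiplicative.ofAdd (1 : ZMod 2))⁻¹ * σ)
  have a : ∀ σ : C 2, (Multiplicative.ofAdd (1 : ZMod 2))⁻¹ * σ = 1 ↔ ¬ σ = 1 := by decide
  have := ZMod.val_lt g.toAdd
  by_cases e : (t + 1 + g.toAdd.val) / 3 = (t' + 1 + g.toAdd.val) / 3
  · simp only [io, e, if_true, inv_one, one_mul]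
  · simp only [io, if_neg e, inv_one, one_mul, a]
    split_ifs <;> omega

def Bd (S : Zs) (R : ℕ) (y : S.U) : Prop := ∀ i, -(R : ℤ) ≤ S.ev y i ∧ S.ev y i ≤ R + 1

theorem zstep (S : Zs) : ∃ (S' : Zs) (ι : S.U → S'.U) (j : Af S.toSt →* Af S'.toSt),
    Function.Injective j ∧ (∀ g, g • (0 : S.U) = 0 → j g • (0 : S'.U) = 0) ∧
    (∀ g y, j g • ι y = ι (g • y)) ∧ (∀ R y, Bd S (R + 1) y → Bd S' R (ι y)) ∧
    ∀ y y', Bd S 0 y → Bd S 0 y' → ∃ w : S'.D, ι y = w • ι y' := by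
  let S' := (L.pw S.I).wr S.D S.good
  let ι : S.U → S'.U := fun y a i => io (S.ev (a⁻¹ • y) i)
  have e : ∀ (f g : Af S.toSt) (a : S.D) i, S.ev (a⁻¹ • (f * g).x) i =
      S.ev (a⁻¹ • f.x) i + S.ev ((f.a⁻¹ * a)⁻¹ • g.x) i := fun f g a i => by
    change S.ev (a⁻¹ • (f.x + f.a • g.x)) i = _
    rw [smul_add, map_add, mul_inv_rev, inv_inv, mul_smul, Pi.add_apply]
  let j : Af S.toSt →* Af S'.toSt := MonoidHom.mk' (fun g => ⟨fun a i => (k1 ^ S.ev (a⁻¹ • g.x) i).x,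
    ⟨fun a i => (k1 ^ S.ev (a⁻¹ • g.x) i).a, g.a⟩⟩) fun f g => by
      refine Af.ext (funext fun a => funext fun i => ?_) (RegularWreathProduct.ext
        (funext fun a => funext fun i => ?_) rfl)
      · simp only [e, zpow_add]
        rfl
      · simp only [e, zpow_add]
        rfl
  have eq : ∀ g y, j g • ι y = ι (g • y) := fun g y => funext fun a => funext fun i => by
    refine (k_io (S.ev (a⁻¹ • g.x) i) (S.ev ((g.a⁻¹ * a)⁻¹ • y) i)).trans (congrArg io ?_)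
    rw [add_comm]
    exact (e g ⟨y, 1⟩ a i).symm
  refine ⟨S', ι, j, (injective_iff_map_eq_one j).2 fun g hg => Af.ext (S.inj _ (funext fun i => ?_))
    (congrArg (fun z : Af S'.toSt => z.a.right) hg), fun g hg => ?_, eq, fun R y h i => ?_,
    fun y y' h h' => ?_⟩
  · have a : k1 ^ S.ev ((1 : S.D)⁻¹ • g.x) i = 1 := Af.ext
      (congrArg (fun z : Af S'.toSt => z.x 1 i) hg) (congrArg (fun z : Af S'.toSt => z.a.left 1 i) hg)
    have b := k_io (S.ev ((1 : S.D)⁻¹ • g.x) i) 0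
    rw [a, one_smul, inv_one, one_smul] at b
    have b0 := congrFun (congrFun b 1) 1
    have b1 := congrFun (congrFun b (.ofAdd 1)) 1
    have b2 := congrFun (congrFun b (.ofAdd 2)) 1
    simp only [io, if_true, toAdd_one, ZMod.val_zero, toAdd_ofAdd, show (1 : ZMod 3).val = 1 from rfl,
      show (2 : ZMod 3).val = 2 from rfl] at b0 b1 b2
    change S.ev g.x i = 0
    omega
  · rw [Af.smul_def, smul_zero, add_zero] at hg ⊢
    funext a i
    change (k1 ^ S.ev (a⁻¹ • g.x) i).x = 0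
    rw [hg, smul_zero, map_zero, Pi.zero_apply, zpow_zero]
    rfl
  · obtain ⟨a, i, g, σ, u⟩ := i
    obtain ⟨i', e⟩ := S.pm a⁻¹ i
    change -(R : ℤ) ≤ io (S.ev (a⁻¹ • y) i) g σ ∧ io (S.ev (a⁻¹ • y) i) g σ ≤ R + 1
    have := h i'
    have := ZMod.val_lt g.toAdd
    rw [e, io]
    split_ifs <;> omega
  · have b : ∀ y, Bd S 0 y → ∀ (a : S.D) i, 0 ≤ S.ev (a⁻¹ • y) i ∧ S.ev (a⁻¹ • y) i ≤ 1 :=
      fun y h a i => by
        obtain ⟨i', e⟩ := S.pm a⁻¹ i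
        simpa [e] using h i'
    choose f hf using fun a i => io_merge (b y h a i) (b y' h' a i)
    refine ⟨⟨f, 1⟩, funext fun a => funext fun i => (hf a i).trans ?_⟩
    change _ = f a i • (show L.U from io (S.ev ((1⁻¹ * a)⁻¹ • y') i))
    rw [inv_one, one_mul]

theorem zmain : ∃ (G : Type) (_ : Group G),
    (∀ s : Finset G, Group.IsSolvable (Subgroup.closure (s : Set G))) ∧ (∃ z : G, ¬ IsOfFinOrder z) ∧
    ∃ A B : Subgroup G, (∀ a ∈ A, IsOfFinOrder a) ∧ (∀ a ∈ B, IsOfFinOrder a) ∧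
      ∀ g : G, ∃ a ∈ A, ∃ b ∈ B, g = a * b := by
  choose S' ι j h1 h2 h3 h4 h5 using zstep
  let T : ℕ → Σ S : Zs, S.U := fun n => Nat.rec ⟨Zs.zero, 0⟩ (fun _ x => ⟨S' x.1, ι x.1 x.2⟩) n
  have mono : ∀ S R y, Bd S R y → Bd S (R + 1) y := fun S R y h i => by
    have := h i
    omega
  have hb : ∀ n, Bd (T n).1 0 (T n).2 := fun n => by
    induction n with
    | zero => exact fun _ => ⟨le_rfl, (zero_le_one : (0 : ℤ) ≤ 1)⟩
    | succ n ih => exact h4 _ _ _ (mono _ _ _ ih)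
  obtain ⟨G, _, φ, A, B, i1, i2, i3, i4, i5⟩ := assemble (fun n => Af (T n).1.toSt) (fun n => j (T n).1)
    (fun n => h1 _) (fun n => MulAction.stabilizer _ (0 : (T n).1.U))
    (fun n => MulAction.stabilizer _ (T n).2) (fun n => h2 _)
    (fun n g hg => (h3 _ g _).trans (congrArg _ hg)) (fun n R g => Bd (T n).1 R (g • (T n).2))
    (fun n g => by
      obtain ⟨R, hR⟩ := (Set.finite_range fun i => ((T n).1.ev (g • (T n).2) i).natAbs).bddAbove
      refine ⟨R, fun i => ?_⟩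
      have : ((T n).1.ev (g • (T n).2) i).natAbs ≤ R := hR ⟨i, rfl⟩
      omega)
    (fun n g hg => by
      obtain ⟨w, hw⟩ := h5 _ _ _ hg (hb n)
      refine ⟨⟨0, w⟩, by simp [Af.smul_def], ?_⟩
      change ((⟨0, w⟩ : Af (S' (T n).1).toSt)⁻¹ * j _ g) • ι _ _ = ι _ _
      rw [mul_smul, h3, inv_smul_eq_iff, hw, Af.smul_def, zero_add])
    fun n R g hg => by
      change Bd _ R (j _ g • ι _ _)
      rw [h3]
      exact h4 _ _ _ hg
  have fo : ∀ n (x : Af (T n).1.toSt) (b : (T n).1.U), x • b = b → IsOfFinOrder (φ n x) := by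
    intro n x b h
    obtain ⟨k, hk⟩ := Af.stab h
    exact (φ n).isOfFinOrder (isOfFinOrder_iff_pow_eq_one.2 ⟨_, by positivity, hk⟩)
  refine ⟨G, inferInstance, fun s => ?_, ⟨φ 0 (tr _ (.ofAdd (1 : ℤ))), fun h => ?_⟩, A, B,
    fun a ha => ?_, fun a ha => ?_, i5⟩
  · obtain ⟨n, hn⟩ := i2 s
    have a := Af.solv (T n).1.toSt
    have b := solvable_of_surjective (φ n).rangeRestrict_surjective
    exact solvable_of_solvable_injective (Subgroup.inclusion_injective hn)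
  · obtain ⟨k, k0, hk⟩ := isOfFinOrder_iff_pow_eq_one.1 h
    rw [← map_pow, ← map_pow] at hk
    have : k • (1 : ℤ) = 0 := congrArg Af.x ((injective_iff_map_eq_one _).1 (i1 0) _ hk)
    simp at this
    omega
  · obtain ⟨n, x, hx, rfl⟩ := i3 a ha
    exact fo n x _ hx
  · obtain ⟨n, x, hx, rfl⟩ := i4 a ha
    exact fo n x _ hx

end Pool.Agent.H69.Pq
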