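import Pool.Agent.H69.Pq2

namespace Pool.Agent.H69.Pq

open scoped RegularWreathProduct

structure Ms (p : ℕ) (S : Type) [Group S] where
  D : Type
  U : Type
  [g : Group D]
  [u : Group U]
  [d : MulDistribMulAction D U]
  [fD : Finite D]
  [fU : Finite U]
  card : ∃ n, Nat.card D = p ^ n
  sep : ∀ x : U, (∀ ψ : U →* S, ψ x = 1) → x = 1

attribute [instance] Ms.g Ms.u Ms.d Ms.fD Ms.fU

variable {p : ℕ} {S : Type} [Group S]

@[reducible] def mact (D A U : Type) [Group D] [Group A] [Group U] [MulDistribMulAction D U] :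
    MulDistribMulAction (D ≀ᵣ A) (A → U) where
  smul w x := fun b => w.left b • x (w.right⁻¹ * b)
  one_smul x := funext fun b => show (1 : D) • x (1⁻¹ * b) = x b by simp
  mul_smul v w x := funext fun b => show (v.left b * w.left (v.right⁻¹ * b)) •
    x ((v.right * w.right)⁻¹ * b) = v.left b • w.left (v.right⁻¹ * b) •
      x (w.right⁻¹ * (v.right⁻¹ * b)) by rw [mul_smul, mul_inv_rev, mul_assoc]
  smul_one w := funext fun _ => smul_one _
  smul_mul w x y := funext fun _ => smul_mul' _ _ _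

theorem pi_sep {U I : Type} [Group U] (h : ∀ x : U, (∀ ψ : U →* S, ψ x = 1) → x = 1) (x : I → U)
    (hx : ∀ ψ : (I → U) →* S, ψ x = 1) : x = 1 :=
  funext fun i => h _ fun ψ => hx (ψ.comp (Pi.evalMonoidHom (fun _ => U) i))

def Ms.wr (M : Ms p S) (A : Type) [Group A] [Finite A] (h : ∃ n, Nat.card A = p ^ n) : Ms p S :=
  { D := M.D ≀ᵣ A, U := A → M.U, d := mact _ _ _, sep := pi_sep M.sep
    card := by
      obtain ⟨n, hn⟩ := M.card
      obtain ⟨k, hk⟩ := h
      exact ⟨n * Nat.card A + k, by rw [RegularWreathProduct.card, hn, pow_add, pow_mul, ← hk]⟩ }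

def Ms.pw (M : Ms p S) (I : Type) [Finite I] : Ms p S :=
  { D := I → M.D, U := I → M.U, sep := pi_sep M.sep
    card := by
      obtain ⟨n, hn⟩ := M.card
      exact ⟨n * Nat.card I, by rw [Nat.card_fun, hn, pow_mul]⟩ }

def Ms.zero (p : ℕ) (S : Type) [Group S] [Finite S] : Ms p S :=
  { D := Unit, U := S
    d := { smul := fun _ x => x, one_smul := fun _ => rfl, mul_smul := fun _ _ _ => rfl,
           smul_one := fun _ => rfl, smul_mul := fun _ _ _ => rfl }
    card := ⟨0, by simp⟩, sep := fun x h => h (MonoidHom.id S) }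

def Ach (p : ℕ) (E : S → S → Prop) : Prop := ∃ (M : Ms p S) (φ : S →* M.U) (c : M.U),
  Function.Injective φ ∧ ∀ s s', E s s' → ∃ d : M.D, φ s * c = d • (φ s' * c)

theorem Ach.mono {E E' : S → S → Prop} (h : Ach p E)
    (hE : ∀ s s', E' s s' → ∃ t, E s t ∧ E t s') : Ach p E' := by
  obtain ⟨M, φ, c, a, b⟩ := h
  refine ⟨M, φ, c, a, fun s s' e => ?_⟩
  obtain ⟨t, e1, e2⟩ := hE s s' e
  obtain ⟨d, hd⟩ := b _ _ e1
  obtain ⟨d', hd'⟩ := b _ _ e2
  exact ⟨d * d', by rw [hd, hd', mul_smul]⟩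

theorem win (hp : 1 < p) {E : S → S → Prop} {x t : S} {m : ℕ} (hx : x ^ m = 1) (ht : t ^ m = 1)
    (hE : ∀ s s', E s s' → E (x * s * t) (x * s' * t)) (h : Ach p E) (s₀ : S) (k : ℕ) (hk : k ≤ m) :
    Ach p fun s s' => E s s' ∨ ∃ i < k, ∃ j < k, s = x ^ i * s₀ * t ^ i ∧ s' = x ^ j * s₀ * t ^ j := by
  have hE' : ∀ i s s', E s s' → E (x ^ i * s * t ^ i) (x ^ i * s' * t ^ i) := fun i => by
    induction i with
    | zero => simp
    | succ i ih =>
      intro s s' e
      simpa only [pow_succ' x, pow_succ t, mul_assoc] using hE _ _ (ih s s' e)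
  induction k with
  | zero => simpa using h
  | succ k ih =>
    obtain ⟨M, φ, c, hφ, h⟩ := ih (by omega)
    have hN : m < p ^ m := Nat.lt_pow_self hp
    haveI : NeZero (p ^ m) := ⟨by omega⟩
    let r : ℕ → M.U := fun i => φ (x ^ i * s₀ * t ^ i) * c
    let W : ℕ → M.U := fun i => if i < m then r i else r 0
    have h0 : ∀ i < k, ∃ g : M.D, r i = g • r 0 := fun i hi =>
      h _ _ (Or.inr ⟨i, hi, 0, by omega, rfl, rfl⟩)
    have key : ∀ i < p ^ m, ∀ a ≤ k, ∃ g : M.D,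
        (if i < m then r (i + a) else r 0) = g • W ((i + a) % p ^ m) := by
      intro i hi a ha
      rcases lt_or_ge (i + a) m with l | l
      · refine ⟨1, ?_⟩
        rw [Nat.mod_eq_of_lt (by omega)]
        simp only [W, if_pos l, if_pos (show i < m by omega), one_smul]
      have a1 : ∃ g : M.D, (if i < m then r (i + a) else r 0) = g • r 0 := by
        split_ifs with c
        · obtain ⟨g, hg⟩ := h0 (i + a - m) (by omega)
          refine ⟨g, Eq.trans ?_ hg⟩
          simp only [r]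
          rw [show i + a = i + a - m + m by omega, pow_add, pow_add, hx, ht, mul_one, mul_one,
            Nat.add_sub_cancel]
        · exact ⟨1, by simp⟩
      have b : ∃ g : M.D, W ((i + a) % p ^ m) = g • r 0 := by
        rcases lt_or_ge (i + a) (p ^ m) with c | c
        · exact ⟨1, by simp [W, Nat.mod_eq_of_lt c, not_lt.2 l]⟩
        · rw [Nat.mod_eq_sub_mod c, Nat.mod_eq_of_lt (by omega)]
          simp only [W, if_pos (show i + a - p ^ m < m by omega)]
          exact h0 _ (by omega)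
      obtain ⟨g, hg⟩ := a1
      obtain ⟨g', hg'⟩ := b
      exact ⟨g * g'⁻¹, by rw [hg, hg', mul_smul, inv_smul_smul]⟩
    let M' := M.wr (C (p ^ m)) ⟨m, by simp⟩
    let φ' : S →* M'.U := Pi.monoidHom fun b : C (p ^ m) => if b.toAdd.val < m then
      φ.comp (MulAut.conj (x ^ b.toAdd.val)).toMonoidHom else 1
    let c' : M'.U := fun b : C (p ^ m) => if b.toAdd.val < m then
      φ (x ^ b.toAdd.val * t ^ b.toAdd.val) * c else r 0
    have e : ∀ s (b : C (p ^ m)), (φ' s * c') b = if b.toAdd.val < m then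
        φ (x ^ b.toAdd.val * s * t ^ b.toAdd.val) * c else r 0 := fun s b => by
      change (if b.toAdd.val < m then φ.comp (MulAut.conj (x ^ b.toAdd.val)).toMonoidHom else 1) s *
        (if b.toAdd.val < m then φ (x ^ b.toAdd.val * t ^ b.toAdd.val) * c else r 0) = _
      split_ifs
      · rw [← mul_assoc, MonoidHom.comp_apply, ← map_mul]
        congr 2
        change _ * s * _ * _ = _
        group
      · simp
    have sh : ∀ a ≤ k, ∃ w : M'.D, φ' (x ^ a * s₀ * t ^ a) * c' =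
        w • (show M'.U from fun b : C (p ^ m) => W b.toAdd.val) := fun a ha => by
      choose g hg using fun b : C (p ^ m) => key b.toAdd.val (ZMod.val_lt _) a ha
      refine ⟨⟨g, (Multiplicative.ofAdd (a : ZMod (p ^ m)))⁻¹⟩, funext fun b => (e _ b).trans ?_⟩
      change _ = g b • W ((Multiplicative.ofAdd (a : ZMod (p ^ m)))⁻¹⁻¹ * b).toAdd.val
      rw [inv_inv, toAdd_mul, toAdd_ofAdd, ZMod.val_add, ZMod.val_natCast, Nat.mod_add_mod,
        add_comm a, ← hg b]
      simp only [r]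
      congr 3
      group
    refine ⟨M', φ', c', fun s s' z => hφ ?_, ?_⟩
    · have := (e s 1).symm.trans ((congrFun (congrArg (· * c') z) 1).trans (e s' 1))
      simpa [show 0 < m by omega] using this
    rintro s s' (z | ⟨i, hi, j, hj, rfl, rfl⟩)
    · have : ∀ b : C (p ^ m), ∃ g : M.D, (φ' s * c') b = g • (φ' s' * c') b := fun b => by
        rw [e, e]
        split_ifs
        · exact h _ _ (Or.inl (hE' _ _ _ z))
        · exact ⟨1, by simp⟩
      choose g hg using this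
      refine ⟨⟨g, 1⟩, funext fun b => (hg b).trans ?_⟩
      change _ = g b • (φ' s' * c') (1⁻¹ * b)
      rw [inv_one, one_mul]
    · obtain ⟨w, hw⟩ := sh i (by omega)
      obtain ⟨w', hw'⟩ := sh j (by omega)
      exact ⟨w * w'⁻¹, by rw [hw, hw', mul_smul, inv_smul_smul]⟩

theorem orb (hp : 1 < p) [Finite S] {E : S → S → Prop} {x t : S} {m : ℕ} (hm : 0 < m)
    (hx : x ^ m = 1) (ht : t ^ m = 1) (hE : ∀ s s', E s s' → E (x * s * t) (x * s' * t))
    (h : Ach p E) : Ach p fun s s' => E s s' ∨ ∃ i < m, s = x ^ i * s' * t ^ i := by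
  classical
  have : ∀ T : Finset S, Ach p fun s s' => E s s' ∨ ∃ s₀ ∈ T, ∃ i j : ℕ,
      s = x ^ i * s₀ * t ^ i ∧ s' = x ^ j * s₀ * t ^ j := by
    intro T
    induction T using Finset.induction_on with
    | empty => simpa using h
    | insert a T _ ih =>
      obtain ⟨M, φ, c, h1, h2⟩ := win hp hx ht (by
        rintro s s' (z | ⟨s₀, h0, i, j, rfl, rfl⟩)
        · exact Or.inl (hE _ _ z)
        · exact Or.inr ⟨s₀, h0, i + 1, j + 1, by simp only [pow_succ' x, pow_succ t, mul_assoc],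
            by simp only [pow_succ' x, pow_succ t, mul_assoc]⟩) ih a m le_rfl
      refine ⟨M, φ, c, h1, fun s s' z => h2 s s' ?_⟩
      rcases z with z | ⟨s₀, h0, i, j, rfl, rfl⟩
      · exact Or.inl (Or.inl z)
      rcases Finset.mem_insert.1 h0 with rfl | h0
      · exact Or.inr ⟨i % m, Nat.mod_lt _ hm, j % m, Nat.mod_lt _ hm,
          by rw [← pow_eq_pow_mod _ hx, ← pow_eq_pow_mod _ ht],
          by rw [← pow_eq_pow_mod _ hx, ← pow_eq_pow_mod _ ht]⟩
      · exact Or.inl (Or.inr ⟨s₀, h0, i, j, rfl, rfl⟩)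
  obtain ⟨M, φ, c, h1, h2⟩ := this (Set.toFinite Set.univ).toFinset
  refine ⟨M, φ, c, h1, fun s s' z => h2 s s' (z.imp_right ?_)⟩
  rintro ⟨i, -, rfl⟩
  exact ⟨s', by simp, i, 0, rfl, by simp⟩

theorem up (hp : 1 < p) [Finite S] {K : S → Prop} (K1 : K 1) {x : S} {m : ℕ} (hm : 0 < m)
    (hx : x ^ m = 1) (hK : ∀ k, K k → K (x * k * x⁻¹)) (h : Ach p fun s s' => K (s * s'⁻¹)) :
    Ach p fun s s' => ∃ i < m, K (s * s'⁻¹ * (x ^ i)⁻¹) := by
  refine (orb hp (t := 1) hm hx (one_pow m) (fun s s' z => ?_) h).mono ?_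
  · simpa [mul_assoc] using hK _ z
  · rintro s s' ⟨i, hi, z⟩
    exact ⟨x ^ i * s', Or.inl (by simpa [mul_assoc] using z), Or.inr ⟨i, hi, by simp⟩⟩

open Equiv in
theorem ach5 : Ach 2 fun _ _ : Perm (Fin 5) => True := by
  have h0 : Ach 2 fun s s' : Perm (Fin 5) => s * s'⁻¹ = 1 :=
    ⟨Ms.zero _ _, MonoidHom.id _, 1, Function.injective_id, fun s s' z =>
      ⟨(), by rw [mul_inv_eq_one.1 z]; rfl⟩⟩
  have h1 := up (S := Perm (Fin 5)) (K := fun s => s = 1) one_lt_two rfl (x := swap 0 1 * swap 2 3) two_pos (by decide)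
    (fun k e => by rw [e, mul_one, mul_inv_cancel]) h0
  have h2 := up (S := Perm (Fin 5)) (K := fun s => ∃ i < 2, s * ((swap 0 1 * swap 2 3) ^ i)⁻¹ = 1) one_lt_two
    (by decide) (x := swap 0 2 * swap 1 3) two_pos (by decide) (by decide +kernel) h1
  have h3 := up (S := Perm (Fin 5)) (K := fun s => ∃ j < 2, ∃ i < 2, s * ((swap 0 2 * swap 1 3) ^ j)⁻¹ *
    ((swap 0 1 * swap 2 3) ^ i)⁻¹ = 1) one_lt_two (by decide) (x := swap 0 1 * swap 1 2) three_pos
    (by decide) (by decide +kernel) h2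
  have h4 := up (S := Perm (Fin 5)) (K := fun s => ∃ k < 3, ∃ j < 2, ∃ i < 2, s * ((swap 0 1 * swap 1 2) ^ k)⁻¹ *
    ((swap 0 2 * swap 1 3) ^ j)⁻¹ * ((swap 0 1 * swap 2 3) ^ i)⁻¹ = 1) one_lt_two (by decide)
    (x := swap 0 1) two_pos (by decide) (by decide +kernel) h3
  have h5 : Ach 2 fun s s' : Perm (Fin 5) => (s * s'⁻¹) 4 = 4 := by
    have : ∀ s : Perm (Fin 5), s 4 = 4 → ∃ l < 2, ∃ k < 3, ∃ j < 2, ∃ i < 2,
        s * (swap 0 1 ^ l)⁻¹ * ((swap 0 1 * swap 1 2) ^ k)⁻¹ * ((swap 0 2 * swap 1 3) ^ j)⁻¹ *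
          ((swap 0 1 * swap 2 3) ^ i)⁻¹ = 1 := by decide +kernel
    obtain ⟨M, φ, c, a, b⟩ := h4
    exact ⟨M, φ, c, a, fun s s' z => b s s' (this _ z)⟩
  have h6 := orb one_lt_two (x := 1) (t := finRotate 5) (m := 5) (by norm_num) (one_pow 5)
    (by decide) (fun s s' z => by simpa [mul_assoc] using z) h5
  have : ∀ s : Perm (Fin 5), ∃ i < 5, (s * (finRotate 5 ^ i)⁻¹) 4 = 4 := by decide +kernel
  have h7 : Ach 2 fun _ s' : Perm (Fin 5) => s' = 1 := h6.mono (by
    rintro s _ rfl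
    obtain ⟨i, hi, z⟩ := this s
    exact ⟨finRotate 5 ^ i, Or.inl z, Or.inr ⟨i, hi, by simp⟩⟩)
  obtain ⟨M, φ, c, a, b⟩ := h7
  refine ⟨M, φ, c, a, fun s s' _ => ?_⟩
  obtain ⟨d, hd⟩ := b s 1 rfl
  obtain ⟨d', hd'⟩ := b s' 1 rfl
  exact ⟨d * d'⁻¹, by rw [hd, hd', mul_smul, inv_smul_smul]⟩

abbrev Ms.G (M : Ms p S) := M.U ⋊[MulDistribMulAction.toMulAut M.D M.U] M.D

instance (M : Ms p S) : MulAction M.G M.U where
  smul g y := g.left * g.right • y
  one_smul y := show 1 * (1 : M.D) • y = y by simp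
  mul_smul f g y := show f.left * f.right • g.left * (f.right * g.right) • y =
    f.left * f.right • (g.left * g.right • y) by rw [smul_mul', mul_smul, mul_assoc]

theorem Ms.smul_def {M : Ms p S} (g : M.G) (y : M.U) : g • y = g.left * g.right • y := rfl

theorem Ms.stab {M : Ms p S} {g : M.G} {b : M.U} (h : g • b = b) : ∃ k, g ^ p ^ k = 1 := by
  obtain ⟨k, hk⟩ := M.card
  have a : (g ^ p ^ k).right = 1 := (map_pow SemidirectProduct.rightHom g _).trans
    (hk ▸ pow_card_eq_one')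
  have := pow_mem (show g ∈ MulAction.stabilizer M.G b from h) (p ^ k)
  rw [MulAction.mem_stabilizer_iff, Ms.smul_def, a, one_smul, mul_eq_right] at this
  exact ⟨k, SemidirectProduct.ext this a⟩

theorem mstep [Finite S] (h : Ach p fun _ _ : S => True) (M : Ms p S) :
    ∃ (M' : Ms p S) (ι : M.U → M'.U) (j : M.G →* M'.G), Function.Injective j ∧
      (∀ g, g • (1 : M.U) = 1 → j g • (1 : M'.U) = 1) ∧ (∀ g y, j g • ι y = ι (g • y)) ∧
      ∀ y y', ∃ w : M'.D, ι y = w • ι y' := by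
  obtain ⟨L, φ, u, hφ, h⟩ := h
  haveI : Finite (M.U →* S) := DFunLike.finite _
  let M' := (L.pw (M.U →* S)).wr M.D M.card
  let ι : M.U →* M'.U := MonoidHom.mk' (fun x a ψ => φ (ψ (a⁻¹ • x))) fun x y => by
    funext a ψ
    change φ (ψ (a⁻¹ • (x * y))) = φ (ψ (a⁻¹ • x)) * φ (ψ (a⁻¹ • y))
    rw [smul_mul', map_mul, map_mul]
  let c : M'.U := fun _ _ => u
  let k : M.D →* M'.D := RegularWreathProduct.inl
  have e1 : ∀ a x, k a • ι x = ι (a • x) := fun a x => by
    funext b ψ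
    change (1 : L.D) • φ (ψ ((a⁻¹ * b)⁻¹ • x)) = φ (ψ (b⁻¹ • a • x))
    rw [one_smul, mul_inv_rev, inv_inv, mul_smul]
  have e2 : ∀ a, k a • c = c := fun a => funext fun _ => funext fun _ => one_smul L.D u
  let j : M.G →* M'.G := MonoidHom.mk' (fun g => ⟨ι g.left, k g.right⟩) fun f g =>
    SemidirectProduct.ext (show ι (f.left * f.right • g.left) = ι f.left * k f.right • ι g.left by
      rw [e1, map_mul]) (map_mul k _ _)
  refine ⟨M', fun y => ι y * c, j, (injective_iff_map_eq_one j).2 fun g hg => SemidirectProduct.ext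
    (M.sep _ fun ψ => hφ ?_) (congrArg (fun z : M'.G => z.right.right) hg), fun g hg => ?_,
    fun g y => ?_, fun y y' => ?_⟩
  · have : φ (ψ ((1 : M.D)⁻¹ • g.left)) = 1 := congrArg (fun z : M'.G => z.left 1 ψ) hg
    simpa using this
  · rw [Ms.smul_def, smul_one, mul_one] at hg ⊢
    exact (congrArg ι hg).trans (map_one ι)
  · change ι g.left * k g.right • (ι y * c) = ι (g.left * g.right • y) * c
    rw [smul_mul', e1, e2, map_mul, mul_assoc]
  · choose g hg using fun (a : M.D) (ψ : M.U →* S) => h (ψ (a⁻¹ • y)) (ψ (a⁻¹ • y')) trivial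
    refine ⟨⟨g, 1⟩, funext fun a => funext fun ψ => (hg a ψ).trans ?_⟩
    change _ = g a ψ • (φ (ψ ((1⁻¹ * a)⁻¹ • y')) * u)
    rw [inv_one, one_mul]

theorem mmain [Finite S] (h : Ach p fun _ _ : S => True) : ∃ (G : Type) (_ : Group G) (f : S →* G),
    Function.Injective f ∧ (∀ s : Finset G, Finite (Subgroup.closure (s : Set G))) ∧
    ∃ A B : Subgroup G, IsPGroup p A ∧ IsPGroup p B ∧ ∀ g : G, ∃ a ∈ A, ∃ b ∈ B, g = a * b := by
  choose M' ι j h1 h2 h3 h5 using mstep h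
  let T : ℕ → Σ M : Ms p S, M.U := fun n =>
    Nat.rec ⟨Ms.zero p S, 1⟩ (fun _ x => ⟨M' x.1, ι x.1 x.2⟩) n
  obtain ⟨G, _, φ, A, B, i1, i2, i3, i4, i5⟩ := assemble (fun n => (T n).1.G) (fun n => j (T n).1)
    (fun n => h1 _) (fun n => MulAction.stabilizer _ (1 : (T n).1.U))
    (fun n => MulAction.stabilizer _ (T n).2) (fun n => h2 _)
    (fun n g hg => (h3 _ g _).trans (congrArg _ hg)) (fun _ R _ => R = 0) (fun _ _ => ⟨0, rfl⟩)
    (fun n g _ => by
      obtain ⟨w, hw⟩ := h5 _ (g • (T n).2) (T n).2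
      refine ⟨⟨1, w⟩, by simp [Ms.smul_def], ?_⟩
      change ((⟨1, w⟩ : (M' (T n).1).G)⁻¹ * j _ g) • ι _ _ = ι _ _
      rw [mul_smul, h3, inv_smul_eq_iff, hw, Ms.smul_def, one_mul])
    fun n R g hg => by omega
  have pg : ∀ (C : Subgroup G) (b : ∀ n, (T n).1.U), (∀ a ∈ C, ∃ n,
      ∃ x ∈ MulAction.stabilizer (T n).1.G (b n), φ n x = a) → IsPGroup p C := fun C b hC g => by
    obtain ⟨n, x, hx, e⟩ := hC g g.2
    obtain ⟨k, hk⟩ := Ms.stab hx
    exact ⟨k, Subtype.ext (by simp [← e, ← map_pow, hk])⟩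
  refine ⟨G, inferInstance, (φ 0).comp SemidirectProduct.inl,
    (i1 0).comp SemidirectProduct.inl_injective, fun s => ?_, A, B, pg A _ i3, pg B _ i4, i5⟩
  obtain ⟨n, hn⟩ := i2 s
  have a : Finite (T n).1.G := Finite.of_equiv _ SemidirectProduct.equivProd.symm
  have b := Finite.of_surjective _ (φ n).rangeRestrict_surjective
  exact Finite.of_injective _ (Subgroup.inclusion_injective hn)

end Pool.Agent.H69.Pq
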