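import Pool.Agent.H69.RaDefs

namespace Pool.Agent.H69.Ra
open Finsupp

theorem up_tf (A : Type) [CommGroup A] [IsMulTorsionFree A] : UniqueProds A where
  uniqueMul_of_nonempty {X Y} hX hY := by
    classical
    let M := Submonoid.closure ((X ∪ Y : Finset A) : Set A)
    haveI : Monoid.FG M := Monoid.closure_finset_fg _
    haveI : IsMulTorsionFree M :=
      ⟨fun n hn a b h => Subtype.ext (pow_left_injective hn (congrArg Subtype.val h))⟩
    letI : CancelCommMonoid M :=
      { (inferInstance : CommMonoid M) with
        mul_left_cancel := fun a b c h => Subtype.ext (mul_left_cancel (congrArg Subtype.val h)) }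
    haveI : TwoUniqueProds M := AffineMonoid.to_twoUniqueProds
    have mx : ∀ a ∈ X, a ∈ M := fun a ha => Submonoid.subset_closure (by simp [ha])
    have my : ∀ a ∈ Y, a ∈ M := fun a ha => Submonoid.subset_closure (by simp [ha])
    obtain ⟨a, ha, b, hb, h⟩ := UniqueProds.uniqueMul_of_nonempty (G := M)
      (A := X.subtype (· ∈ M)) (B := Y.subtype (· ∈ M))
      (by obtain ⟨a, ha⟩ := hX; exact ⟨⟨a, mx a ha⟩, by simpa using ha⟩)
      (by obtain ⟨a, ha⟩ := hY; exact ⟨⟨a, my a ha⟩, by simpa using ha⟩)
    refine ⟨a, by simpa using ha, b, by simpa using hb, fun c d hc hd e => ?_⟩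
    have := @h ⟨c, mx c hc⟩ ⟨d, my d hd⟩ (by simpa using hc) (by simpa using hd) (Subtype.ext e)
    exact ⟨congrArg Subtype.val this.1, congrArg Subtype.val this.2⟩

theorem li_lift {Λ k I J : Type} [CommRing Λ] [IsDomain Λ] [Field k] (ε : Λ →+* k)
    (hε : Function.Surjective ε) (a : J → (I →₀ Λ))
    (h : LinearIndependent k fun j => mapRange ε (map_zero ε) (a j)) : LinearIndependent Λ a := by
  classical
  rw [linearIndependent_iff_finset_linearIndependent]
  intro s
  have h1 : LinearIndependent k fun j : s => mapRange ε (map_zero ε) (a j) :=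
    h.comp _ Subtype.val_injective
  obtain ⟨f, hf⟩ := (Finsupp.linearCombination k fun j : s =>
    mapRange ε (map_zero ε) (a j)).exists_leftInverse_of_injective
      (LinearMap.ker_eq_bot.2 h1)
  choose σ hσ using hε
  let L : (I →₀ Λ) →ₗ[Λ] (s → Λ) := Finsupp.linearCombination Λ fun i j => σ (f (single i 1) j)
  have hL : ∀ (c : I →₀ Λ) (j : s), ε (L c j) = f (mapRange ε (map_zero ε) c) j := by
    intro c j
    induction c using Finsupp.induction_linear with
    | zero => simp
    | add c c' h1 h2 => rw [mapRange_add (map_add ε)]; simp [h1, h2]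
    | single i t =>
      have : (single i (ε t) : I →₀ k) = ε t • single i 1 := by simp
      simp [L, hσ, this, -smul_single]
  let M : Matrix s s Λ := Matrix.of fun j j' => L (a j) j'
  have hM : M.map ε = 1 := by
    ext j j'
    have := LinearMap.congr_fun hf (single j 1)
    simp only [LinearMap.comp_apply, linearCombination_single, one_smul, LinearMap.id_apply] at this
    simp [M, hL, this, Matrix.one_apply, single_apply]
  have hdet : M.det ≠ 0 := by
    intro h0
    have := ε.map_det M
    rw [h0, map_zero, RingHom.mapMatrix_apply, hM, Matrix.det_one] at this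
    exact zero_ne_one this
  rw [Fintype.linearIndependent_iff]
  intro z hz
  have : Matrix.vecMul z M = 0 := by
    funext j'
    have := congrFun (congrArg L hz) j'
    simpa [Matrix.vecMul, dotProduct, M, map_sum] using this
  exact congrFun (Matrix.eq_zero_of_vecMul_eq_zero hdet this)

section strebel
variable {k Γ Q : Type} [Field k] [Group Γ] [Group Q] (q : Γ →* Q) (σ : Q → Γ)
  (hσ : ∀ y, q (σ y) = y) {A : Type} [CommGroup A] (ι : A →* Γ) (α : Γ → A)
  (hα : ∀ g, ι (α g) * σ (q g) = g) (hι : Function.Injective ι) (hq : ∀ a, q (ι a) = 1)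

noncomputable def Phi (T : Type) : (Γ × T →₀ k) →ₗ[k] (Q × T →₀ MonoidAlgebra k A) :=
  Finsupp.linearCombination k fun c => single (q c.1, c.2) (MonoidAlgebra.single (α c.1) 1)

include hσ hα hι hq in
theorem Phi_shift (T : Type) (a : A) (c : Γ × T →₀ k) :
    Phi q α T (mapDomain (fun e => (ι a * e.1, e.2)) c) =
      (MonoidAlgebra.single a (1 : k) : MonoidAlgebra k A) • Phi q α T c := by
  induction c using Finsupp.induction_linear with
  | zero => simp
  | add c c' h1 h2 => rw [mapDomain_add]; simp [h1, h2]
  | single e t =>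
    have e1 : q (ι a * e.1) = q e.1 := by simp [hq]
    have e2 : α (ι a * e.1) = a * α e.1 := by
      apply hι
      have h1 := hα (ι a * e.1)
      rw [e1] at h1
      apply mul_right_cancel (b := σ (q e.1))
      rw [h1, map_mul, mul_assoc, hα]
    simp only [mapDomain_single, Phi, linearCombination_single, e1, e2]
    rw [smul_comm, smul_single (MonoidAlgebra.single a (1 : k)), smul_eq_mul,
      MonoidAlgebra.single_mul_single, one_mul]

theorem Phi_eps (T : Type) (c : Γ × T →₀ k) :
    mapRange (MonoidAlgebra.lift k k A 1).toRingHom (map_zero _) (Phi q α T c) =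
      mapDomain (fun e => (q e.1, e.2)) c := by
  induction c using Finsupp.induction_linear with
  | zero => simp
  | add c c' h1 h2 => rw [mapDomain_add, map_add, mapRange_add (map_add _), h1, h2]
  | single e t => simp [Phi]

include hα in
theorem Phi_inj (T : Type) (c : Γ × T →₀ k) (h : Phi q α T c = 0) : c = 0 := by
  classical
  have key : ∀ (c : Γ × T →₀ k) (e : Γ × T),
      ((Phi q α T c) (q e.1, e.2)).coeff (α e.1) = c e := by
    intro c e
    induction c using Finsupp.induction_linear with
    | zero => simp
    | add c c' h1 h2 => simp [h1, h2]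
    | single e' t =>
      simp only [Phi, linearCombination_single, smul_single, single_apply, Prod.mk.injEq]
      by_cases h1 : e' = e
      · subst h1; simp
      · rw [if_neg h1]
        split_ifs with h2
        · have : α e'.1 ≠ α e.1 := fun h3 => h1 (Prod.ext (by rw [← hα e'.1, h3, h2.1, hα]) h2.2)
          simp [this]
        · simp
  ext e
  rw [← key, h]; simp

include hσ hα hι hq in
theorem strebel [IsMulTorsionFree A] {R S : Type} (d : (Γ × R →₀ k) →ₗ[k] (Γ × S →₀ k))
    (d' : (Q × R →₀ k) →ₗ[k] (Q × S →₀ k))
    (h1 : ∀ (g : Γ) c, d (mapDomain (fun e => (g * e.1, e.2)) c) =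
      mapDomain (fun e => (g * e.1, e.2)) (d c))
    (h2 : ∀ c, d' (mapDomain (fun e => (q e.1, e.2)) c) = mapDomain (fun e => (q e.1, e.2)) (d c))
    (h3 : Function.Injective d') : Function.Injective d := by
  haveI := up_tf A
  haveI : IsDomain (MonoidAlgebra k A) := NoZeroDivisors.to_isDomain _
  let a : Q × R → (Q × S →₀ MonoidAlgebra k A) := fun j => Phi q α S (d (single (σ j.1, j.2) 1))
  have hli : LinearIndependent (MonoidAlgebra k A) a := by
    refine li_lift (MonoidAlgebra.lift k k A 1).toRingHom
      (fun t => ⟨MonoidAlgebra.single 1 t, by simp⟩) a ?_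
    have : (fun j => mapRange (MonoidAlgebra.lift k k A 1).toRingHom (map_zero _) (a j)) =
        d' ∘ fun j => single j 1 := by
      funext j
      simp only [a, Phi_eps, ← h2, mapDomain_single, hσ, Function.comp_apply]
    rw [this]
    exact (Finsupp.linearIndependent_single_one k _).map' d' (LinearMap.ker_eq_bot.2 h3)
  have key : ∀ z, Finsupp.linearCombination (MonoidAlgebra k A) a (Phi q α R z) =
      Phi q α S (d z) := by
    intro z
    induction z using Finsupp.induction_linear with
    | zero => simp
    | add c c' h1 h2 => simp [h1, h2]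
    | single e t =>
      have e1 : (single e t : Γ × R →₀ k) =
          t • mapDomain (fun e' => (ι (α e.1) * e'.1, e'.2)) (single (σ (q e.1), e.2) 1) := by
        simp [hα]
      conv_rhs => rw [e1, map_smul, map_smul, h1, Phi_shift q σ hσ ι α hα hι hq]
      simp only [Phi, linearCombination_single, smul_single, a]
      rw [smul_assoc]
  rw [← LinearMap.ker_eq_bot, LinearMap.ker_eq_bot']
  intro z hz
  apply Phi_inj q σ ι α hα
  apply hli
  rw [key, hz]; simp
end strebel

end Pool.Agent.H69.Ra
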