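import Pool.Agent.H69.Ra1

namespace Pool.Agent.H69.Ra
open Finsupp

section
variable (k : Type) [CommRing k] {S R Γ : Type} [Group Γ] (x : S → Γ)

theorem ev_t (s : S) (w : List (S × Bool)) :
    FreeGroup.lift x (FreeGroup.mk ((s, true) :: w)) = x s * FreeGroup.lift x (FreeGroup.mk w) := by
  simp
theorem ev_f (s : S) (w : List (S × Bool)) :
    FreeGroup.lift x (FreeGroup.mk ((s, false) :: w)) =
      (x s)⁻¹ * FreeGroup.lift x (FreeGroup.mk w) := by
  simp

theorem chain_append (w w' : List (S × Bool)) (g : Γ) :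
    chain k x g (w ++ w') = chain k x g w + chain k x (g * FreeGroup.lift x (FreeGroup.mk w)) w' := by
  induction w generalizing g with
  | nil => simp [chain]
  | cons a w ih =>
    obtain ⟨s, _ | _⟩ := a
    · rw [List.cons_append, chain, chain, ih, ev_f, mul_assoc, add_assoc]
    · rw [List.cons_append, chain, chain, ih, ev_t, mul_assoc, add_assoc]

theorem chain_nat {Γ' : Type} [Group Γ'] (y : S → Γ') (f : Γ → Γ')
    (hf : ∀ g s, f (g * x s) = f g * y s) (w : List (S × Bool)) (g : Γ) :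
    mapDomain (fun e => (f e.1, e.2)) (chain k x g w) = chain k y (f g) w := by
  have hf' : ∀ g s, f (g * (x s)⁻¹) = f g * (y s)⁻¹ := by
    intro g s
    rw [eq_mul_inv_iff_mul_eq, ← hf]; simp
  induction w generalizing g with
  | nil => simp [chain]
  | cons a w ih =>
    obtain ⟨s, _ | _⟩ := a
    · rw [chain, chain, mapDomain_add, ih, hf']
      congr 1
      change mapDomain.addMonoidHom _ _ = _
      rw [map_neg]; simp [hf']
    · rw [chain, chain, mapDomain_add, ih, hf]; simp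

theorem d2_nat {Γ' : Type} [Group Γ'] (y : S → Γ') (f : Γ → Γ')
    (hf : ∀ g s, f (g * x s) = f g * y s) (r : R → List (S × Bool)) (z : Γ × R →₀ k) :
    d2 k y r (mapDomain (fun e => (f e.1, e.2)) z) =
      mapDomain (fun e => (f e.1, e.2)) (d2 k x r z) := by
  induction z using Finsupp.induction_linear with
  | zero => simp
  | add c c' h1 h2 => rw [mapDomain_add, map_add, map_add, mapDomain_add, h1, h2]
  | single e t => simp [d2, mapDomain_smul, chain_nat k x y f hf]

theorem d1_chain (w : List (S × Bool)) (g : Γ) :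
    d1 k x (chain k x g w) = single (g * FreeGroup.lift x (FreeGroup.mk w)) 1 - single g 1 := by
  induction w generalizing g with
  | nil => simp [chain]
  | cons a w ih =>
    obtain ⟨s, _ | _⟩ := a
    · rw [chain, map_add, ih, ev_f, mul_assoc]; simp [d1]
    · rw [chain, map_add, ih, ev_t, mul_assoc]; simp [d1]

theorem d1_d2 (r : R → List (S × Bool)) (hr : ∀ ρ, FreeGroup.lift x (FreeGroup.mk (r ρ)) = 1)
    (z : Γ × R →₀ k) : d1 k x (d2 k x r z) = 0 := by
  induction z using Finsupp.induction_linear with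
  | zero => simp
  | add c c' h1 h2 => simp [h1, h2]
  | single e t =>
    rw [d2, linearCombination_single, map_smul, d1_chain, hr]; simp

theorem chain_coef (w : List (S × Bool)) (g : Γ) :
    mapRange (Int.castRingHom k) (map_zero _) (chain ℤ x g w) = chain k x g w := by
  induction w generalizing g with
  | nil => simp [chain]
  | cons a w ih =>
    obtain ⟨s, _ | _⟩ := a
    · rw [chain, chain, mapRange_add (map_add _), ih, mapRange_neg (map_neg _)]; simp
    · rw [chain, chain, mapRange_add (map_add _), ih]; simp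

theorem d2_coef (r : R → List (S × Bool)) (z : Γ × R →₀ ℤ) :
    mapRange (Int.castRingHom k) (map_zero _) (d2 ℤ x r z) =
      d2 k x r (mapRange (Int.castRingHom k) (map_zero _) z) := by
  induction z using Finsupp.induction_linear with
  | zero => simp
  | add c c' h1 h2 => rw [map_add, mapRange_add (map_add _), mapRange_add (map_add _), h1, h2, map_add]
  | single e t =>
    rw [mapRange_single, d2, d2, linearCombination_single, linearCombination_single,
      ← chain_coef k x]
    ext a; simp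

theorem red_zero {T : Type} (p : ℕ) (z : T →₀ ℤ) :
    mapRange (Int.castRingHom (ZMod p)) (map_zero _) z = 0 ↔ ∃ u, z = (p : ℤ) • u := by
  constructor
  · intro h
    refine ⟨mapRange (fun t => t / p) (by simp) z, ?_⟩
    ext a
    have := DFunLike.congr_fun h a
    simp only [mapRange_apply, eq_intCast, coe_zero, Pi.zero_apply,
      ZMod.intCast_zmod_eq_zero_iff_dvd] at this
    simp [Int.mul_ediv_cancel' this]
  · rintro ⟨u, rfl⟩
    ext a; simp

def Inj (r : R → List (S × Bool)) : Prop :=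
  ∀ p : ℕ, p.Prime → Function.Injective (d2 (ZMod p) x r)

variable {x}

theorem L1 {r : R → List (S × Bool)} (hr : ∀ ρ, FreeGroup.lift x (FreeGroup.mk (r ρ)) = 1)
    (h2 : LinearMap.ker (d2 ℤ x r) = ⊥)
    (h1 : LinearMap.ker (d1 ℤ x) = LinearMap.range (d2 ℤ x r)) : Inj x r := by
  intro p hp
  rw [← LinearMap.ker_eq_bot, LinearMap.ker_eq_bot']
  intro z hz
  obtain ⟨z, rfl⟩ := mapRange_surjective (Int.castRingHom (ZMod p)) (map_zero _)
    (ZMod.ringHom_surjective _) z
  rw [← d2_coef, red_zero] at hz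
  obtain ⟨w, hw⟩ := hz
  have hp0 : (p : ℤ) ≠ 0 := by exact_mod_cast hp.ne_zero
  have : w ∈ LinearMap.ker (d1 ℤ x) := by
    have := d1_d2 ℤ x r hr z
    rw [hw, map_smul, smul_eq_zero] at this
    exact this.resolve_left hp0
  rw [h1] at this
  obtain ⟨u, rfl⟩ := this
  rw [red_zero]
  refine ⟨u, ?_⟩
  rw [← map_smul] at hw
  exact LinearMap.ker_eq_bot.1 h2 hw

theorem L2 {r : R → List (S × Bool)} (h : Inj x r) : LinearMap.ker (d2 ℤ x r) = ⊥ := by
  rw [LinearMap.ker_eq_bot']
  intro z hz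
  ext a
  obtain ⟨p, hp1, hp⟩ := Nat.exists_infinite_primes ((z a).natAbs + 1)
  have : mapRange (Int.castRingHom (ZMod p)) (map_zero _) z = 0 := by
    apply h p hp
    rw [← d2_coef, hz]; simp
  obtain ⟨u, hu⟩ := (red_zero p z).1 this
  have h3 : (p : ℤ) ∣ z a := ⟨u a, by rw [hu]; simp⟩
  exact Int.eq_zero_of_dvd_of_natAbs_lt_natAbs h3 (by simpa using hp1)

theorem L3 {r : R → List (S × Bool)} (h : Inj x r) (n : ℕ) (hn : n ≠ 0) (w : Γ × S →₀ ℤ)
    (hw : (n : ℤ) • w ∈ LinearMap.range (d2 ℤ x r)) : w ∈ LinearMap.range (d2 ℤ x r) := by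
  induction n using Nat.recOnMul generalizing w with
  | zero => exact absurd rfl hn
  | one => simpa using hw
  | prime p hp =>
    obtain ⟨z, hz⟩ := hw
    have : mapRange (Int.castRingHom (ZMod p)) (map_zero _) z = 0 := by
      apply h p hp
      rw [← d2_coef, map_zero, red_zero]
      exact ⟨w, hz⟩
    obtain ⟨u, rfl⟩ := (red_zero p z).1 this
    rw [map_smul] at hz
    exact ⟨u, smul_right_injective _ (by exact_mod_cast hp.ne_zero) hz⟩
  | mul a b ha hb =>
    refine hb (fun h0 => hn (by simp [h0])) w (ha (fun h0 => hn (by simp [h0])) _ ?_)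
    rwa [smul_smul, ← Nat.cast_mul]

variable (x)

noncomputable def ch (g : Γ) : FreeGroup S → (Γ × S →₀ ℤ) :=
  Quot.lift (chain ℤ x g) (by
    rintro _ _ @⟨L1, L2, s, b⟩
    rw [chain_append, chain_append]
    cases b <;> simp [chain])

theorem ch_mk (g : Γ) (w : List (S × Bool)) : ch x g (FreeGroup.mk w) = chain ℤ x g w := rfl

theorem ch_mul (g : Γ) (u v : FreeGroup S) :
    ch x g (u * v) = ch x g u + ch x (g * FreeGroup.lift x u) v := by
  obtain ⟨u, rfl⟩ := Quot.exists_rep u
  obtain ⟨v, rfl⟩ := Quot.exists_rep v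
  exact chain_append ℤ x u v g

theorem ch_one (g : Γ) : ch x g 1 = 0 := rfl

theorem ch_inv (g : Γ) (u : FreeGroup S) : ch x g u⁻¹ = - ch x (g * (FreeGroup.lift x u)⁻¹) u := by
  have := ch_mul x g u⁻¹ u
  rw [inv_mul_cancel, ch_one, map_inv] at this
  exact eq_neg_of_add_eq_zero_left this.symm

theorem ch_of (g : Γ) (s : S) : ch x g (FreeGroup.of s) = single (g, s) 1 := by
  change chain ℤ x g [(s, true)] = _
  simp [chain]

theorem L4 {r : R → List (S × Bool)} (hs : Function.Surjective (FreeGroup.lift x))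
    (h : ∀ u, FreeGroup.lift x u = 1 → ch x 1 u ∈ LinearMap.range (d2 ℤ x r)) :
    LinearMap.ker (d1 ℤ x) ≤ LinearMap.range (d2 ℤ x r) := by
  choose τ hτ using hs
  let ψ : (Γ →₀ ℤ) →ₗ[ℤ] (Γ × S →₀ ℤ) := Finsupp.linearCombination ℤ fun g => ch x 1 (τ g)
  have key : ∀ c, c - ψ (d1 ℤ x c) ∈ LinearMap.range (d2 ℤ x r) := by
    intro c
    induction c using Finsupp.induction_linear with
    | zero => simp
    | add c c' h1 h2 =>
      convert add_mem h1 h2 using 1
      simp only [map_add]; abel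
    | single e t =>
      have := h (τ e.1 * FreeGroup.of e.2 * (τ (e.1 * x e.2))⁻¹) (by simp [hτ])
      rw [ch_mul, ch_mul, ch_inv, ch_of] at this
      simp only [hτ, one_mul, map_mul, FreeGroup.lift_apply_of, mul_inv_cancel] at this
      convert Submodule.smul_mem _ t this using 1
      simp only [d1, ψ, linearCombination_single, map_smul, map_sub, one_smul, smul_add, smul_sub,
        smul_single, smul_eq_mul, mul_one, smul_neg]
      abel
  intro c hc
  have := key c
  rwa [LinearMap.mem_ker.1 hc, map_zero, sub_zero] at this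

/-- the subgroup of words that are loops and null-homologous from every vertex -/
def KK (r : R → List (S × Bool)) : Subgroup (FreeGroup S) where
  carrier := {u | FreeGroup.lift x u = 1 ∧ ∀ g, ch x g u ∈ LinearMap.range (d2 ℤ x r)}
  one_mem' := ⟨map_one _, fun g => by rw [ch_one]; exact zero_mem _⟩
  mul_mem' := fun {u v} hu hv => ⟨by rw [map_mul, hu.1, hv.1, one_mul], fun g => by
    rw [ch_mul]; exact add_mem (hu.2 _) (hv.2 _)⟩
  inv_mem' := fun {u} hu => ⟨by rw [map_inv, hu.1, inv_one], fun g => by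
    rw [ch_inv]; exact neg_mem (hu.2 _)⟩

theorem KK_normal (r : R → List (S × Bool)) : (KK x r).Normal := ⟨fun u hu v =>
  ⟨by simp [hu.1], fun g => by
    rw [ch_mul, ch_mul, ch_inv]
    simp only [map_mul, hu.1, mul_one, mul_inv_cancel_right]
    convert hu.2 (g * FreeGroup.lift x v) using 1
    abel⟩⟩

theorem KK_comm (r : R → List (S × Bool)) {u v : FreeGroup S} (hu : FreeGroup.lift x u = 1)
    (hv : FreeGroup.lift x v = 1) : (u * v)⁻¹ * (v * u) ∈ KK x r :=
  ⟨by simp [hu, hv], fun g => by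
    rw [ch_mul, ch_inv, ch_mul, ch_mul]
    simp only [map_mul, map_inv, hu, hv, mul_one, inv_one]
    convert (LinearMap.range (d2 ℤ x r)).zero_mem using 1
    abel⟩

theorem KK_tf {r : R → List (S × Bool)} (h : Inj x r) {u : FreeGroup S}
    (hu : FreeGroup.lift x u = 1) {n : ℕ} (hn : n ≠ 0) (hk : u ^ n ∈ KK x r) : u ∈ KK x r := by
  refine ⟨hu, fun g => L3 h n hn _ ?_⟩
  have : ∀ m : ℕ, ch x g (u ^ m) = (m : ℤ) • ch x g u := by
    intro m
    induction m with
    | zero => simp [ch_one]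
    | succ m ih => rw [pow_succ, ch_mul, ih]; simp [hu, add_smul]
  rw [← this]; exact hk.2 g
end

section main
variable {S R : Type} (r : R → List (S × Bool))

theorem lift_gen (P : Subgroup (Pi1 r)) [P.Normal] (u : FreeGroup S) :
    FreeGroup.lift (gen r P) u = QuotientGroup.mk (PresentedGroup.mk _ u) := by
  have : FreeGroup.lift (gen r P) = (QuotientGroup.mk' P).comp (PresentedGroup.mk _) := by
    ext s; rw [FreeGroup.lift_apply_of]; rfl
  rw [this]; rfl

theorem rel_gen (P : Subgroup (Pi1 r)) [P.Normal] (ρ : R) :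
    FreeGroup.lift (gen r P) (FreeGroup.mk (r ρ)) = 1 := by
  rw [lift_gen, PresentedGroup.one_of_mem (Set.mem_range_self ρ)]; rfl

theorem surj_gen (P : Subgroup (Pi1 r)) [P.Normal] :
    Function.Surjective (FreeGroup.lift (gen r P)) := by
  intro y
  obtain ⟨g, rfl⟩ := QuotientGroup.mk_surjective y
  obtain ⟨u, rfl⟩ := PresentedGroup.mk_surjective _ g
  exact ⟨u, lift_gen r P u⟩

def AA : Set (Subgroup (Pi1 r)) := {N | ∃ _ : N.Normal, Inj (gen r N) r}

theorem step {M : Subgroup (Pi1 r)} [M.Normal] (hM : Inj (gen r M) r) :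
    ∃ M' ∈ AA r, M' ≤ M ∧ ∀ u, PresentedGroup.mk _ u ∈ M' → u ∈ KK (gen r M) r := by
  haveI := KK_normal (gen r M) r
  let M' : Subgroup (Pi1 r) := (KK (gen r M) r).map (PresentedGroup.mk _)
  haveI hn : M'.Normal := Subgroup.Normal.map inferInstance _ (PresentedGroup.mk_surjective _)
  have hK : ∀ u, PresentedGroup.mk _ u ∈ M' → u ∈ KK (gen r M) r := by
    rintro u ⟨v, hv, e⟩
    have h1 : v⁻¹ * u ∈ Subgroup.normalClosure (Set.range fun ρ => FreeGroup.mk (r ρ)) :=
      QuotientGroup.eq.1 e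
    have h2 : Subgroup.normalClosure (Set.range fun ρ => FreeGroup.mk (r ρ)) ≤ KK (gen r M) r := by
      apply Subgroup.normalClosure_le_normal
      rintro _ ⟨ρ, rfl⟩
      exact ⟨rel_gen r M ρ, fun g => ⟨single (g, ρ) 1, by simp [d2, ch_mk]⟩⟩
    simpa using mul_mem hv (h2 h1)
  have hle : M' ≤ M := by
    rintro _ ⟨v, hv, rfl⟩
    have := hv.1
    rwa [lift_gen, QuotientGroup.eq_one_iff] at this
  refine ⟨M', ⟨hn, fun p hp => ?_⟩, hle, hK⟩
  haveI := Fact.mk hp
  let q : Pi1 r ⧸ M' →* Pi1 r ⧸ M := QuotientGroup.map M' M (MonoidHom.id _) hle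
  have hq : ∀ u, q (FreeGroup.lift (gen r M') u) = FreeGroup.lift (gen r M) u := by
    intro u; rw [lift_gen, lift_gen]; rfl
  have hK' : ∀ u, FreeGroup.lift (gen r M') u = 1 ↔ u ∈ KK (gen r M) r := by
    intro u
    rw [lift_gen, QuotientGroup.eq_one_iff]
    exact ⟨hK u, fun h => ⟨u, h, rfl⟩⟩
  letI : CommGroup q.ker :=
    { (inferInstance : Group q.ker) with
      mul_comm := by
        rintro ⟨a, ha⟩ ⟨b, hb⟩
        obtain ⟨u, rfl⟩ := surj_gen r M' a
        obtain ⟨v, rfl⟩ := surj_gen r M' b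
        rw [MonoidHom.mem_ker, hq] at ha hb
        have := (hK' _).2 (KK_comm _ r ha hb)
        rw [map_mul, map_inv, inv_mul_eq_one, map_mul, map_mul] at this
        exact Subtype.ext this }
  haveI : IsMulTorsionFree q.ker := ⟨fun n hn a b h => by
    have h1 : (a * b⁻¹) ^ n = 1 := by
      rw [mul_pow, inv_pow]; exact mul_inv_eq_one.2 h
    rw [← mul_inv_eq_one]
    generalize a * b⁻¹ = c at h1
    obtain ⟨c, hc⟩ := c
    obtain ⟨u, rfl⟩ := surj_gen r M' c
    have hc' := hc
    rw [MonoidHom.mem_ker, hq] at hc'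
    have h2 : FreeGroup.lift (gen r M') (u ^ n) = 1 := by
      rw [map_pow]; exact congrArg Subtype.val h1
    exact Subtype.ext ((hK' _).2 (KK_tf _ hM hc' hn ((hK' _).1 h2)))⟩
  have hs : Function.Surjective q := by
    intro y
    obtain ⟨u, rfl⟩ := surj_gen r M y
    exact ⟨_, hq u⟩
  choose σ hσ using hs
  refine strebel q σ hσ (A := q.ker) q.ker.subtype
    (fun g => ⟨g * (σ (q g))⁻¹, by simp [MonoidHom.mem_ker, hσ]⟩) (by simp)
    Subtype.val_injective (fun a => a.2) _ (d2 (ZMod p) (gen r M) r) ?_ ?_ (hM p hp)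
  · intro g c
    exact d2_nat _ _ _ (fun e => g * e) (fun a s => (mul_assoc _ _ _).symm) r c
  · intro c
    exact d2_nat _ _ _ q (fun a s => by rw [map_mul]; rfl) r c

theorem chain_lb (c : Set (Subgroup (Pi1 r))) (hc : c ⊆ AA r) (hch : IsChain (· ≤ ·) c)
    (hne : c.Nonempty) : sInf c ∈ AA r := by
  classical
  haveI hn : (sInf c).Normal := ⟨fun n hn g => by
    rw [Subgroup.mem_sInf] at hn ⊢
    intro P hP
    obtain ⟨h, -⟩ := hc hP
    exact h.conj_mem _ (hn P hP) g⟩
  have sep : ∀ D : Finset (Pi1 r), (∀ g ∈ D, g ∉ sInf c) → ∃ P ∈ c, ∀ g ∈ D, g ∉ P := by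
    intro D
    induction D using Finset.induction_on with
    | empty => intro _; obtain ⟨P, hP⟩ := hne; exact ⟨P, hP, by simp⟩
    | insert a D _ ih =>
      intro h
      obtain ⟨P, hP, h1⟩ := ih fun g hg => h g (by simp [hg])
      have := h a (by simp)
      rw [Subgroup.mem_sInf] at this
      push Not at this
      obtain ⟨P', hP', h2⟩ := this
      rcases hch.total hP hP' with h3 | h3
      · refine ⟨P, hP, fun g hg => ?_⟩
        rcases Finset.mem_insert.1 hg with rfl | hg
        · exact fun h4 => h2 (h3 h4)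
        · exact h1 g hg
      · refine ⟨P', hP', fun g hg => ?_⟩
        rcases Finset.mem_insert.1 hg with rfl | hg
        · exact h2
        · exact fun h4 => h1 g hg (h3 h4)
  refine ⟨hn, fun p hp => ?_⟩
  rw [← LinearMap.ker_eq_bot, LinearMap.ker_eq_bot']
  intro z hz
  obtain ⟨P, hP, h1⟩ := sep (((z.support ×ˢ z.support).filter fun e => e.1.1 ≠ e.2.1).image
    fun e => (e.1.1.out)⁻¹ * e.2.1.out) (by
      intro g hg
      simp only [Finset.mem_image, Finset.mem_filter] at hg
      obtain ⟨e, ⟨-, he⟩, rfl⟩ := hg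
      rw [← QuotientGroup.eq]; simpa using he)
  obtain ⟨hPn, hPi⟩ := hc hP
  let q : Pi1 r ⧸ sInf c →* Pi1 r ⧸ P := QuotientGroup.map _ P (MonoidHom.id _) (sInf_le hP)
  have h2 := d2_nat (ZMod p) (gen r (sInf c)) (gen r P) q (fun a s => by rw [map_mul]; rfl) r z
  rw [hz, mapDomain_zero] at h2
  have h3 := hPi p hp (h2.trans (map_zero _).symm)
  refine mapDomain_injOn (z.support : Set _) (f := fun e => (q e.1, e.2)) ?_ (by simp) (by simp)
    (h3.trans mapDomain_zero.symm)
  intro a ha b hb e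
  simp only [Prod.mk.injEq] at e
  refine Prod.ext ?_ e.2
  by_contra hab
  refine h1 (a.1.out⁻¹ * b.1.out) (Finset.mem_image.2 ⟨(a, b), by simpa using ⟨⟨by simpa using ha,
    by simpa using hb⟩, hab⟩, rfl⟩) ?_
  rw [← QuotientGroup.eq]
  have e1 : ∀ t : Pi1 r ⧸ sInf c, (QuotientGroup.mk t.out : Pi1 r ⧸ P) = q t := by
    intro t; conv_rhs => rw [← QuotientGroup.out_eq' t]
    rfl
  rw [e1, e1, e.1]

theorem main (P : Subgroup (Pi1 r)) (hP : InRa r P) :
    ∃ M, InRa r M ∧ M ≤ P ∧ ∀ Q, InRa r Q → Q ≤ M → Q = M := by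
  have sub : ∀ Q, InRa r Q → Q ∈ AA r := fun Q ⟨h, h2, h1⟩ => ⟨h, L1 (rel_gen r Q) h2 h1⟩
  obtain ⟨M, hMP, hM⟩ := @zorn_le_nonempty₀ (Subgroup (Pi1 r))ᵒᵈ _ (AA r)
    (fun c hc hch y hy => ⟨sInf (α := Subgroup (Pi1 r)) c, chain_lb r c hc hch.symm ⟨y, hy⟩,
      fun z hz => sInf_le (α := Subgroup (Pi1 r)) hz⟩) P (sub P hP)
  have hmin : ∀ Q ∈ AA r, Q ≤ OrderDual.ofDual M → Q = OrderDual.ofDual M := fun Q hQ h =>
    le_antisymm h (hM.2 hQ h)
  obtain ⟨hn, hi⟩ : OrderDual.ofDual M ∈ AA r := hM.1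
  refine ⟨OrderDual.ofDual M, ⟨hn, L2 hi, le_antisymm ?_ ?_⟩, hMP, fun Q hQ h => hmin Q (sub Q hQ) h⟩
  · obtain ⟨M', h1, h2, h3⟩ := step r (M := OrderDual.ofDual M) hi
    refine L4 _ (surj_gen r _) fun u hu => (h3 u ?_).2 1
    rw [hmin M' h1 h2]
    rwa [lift_gen, QuotientGroup.eq_one_iff] at hu
  · rintro _ ⟨z, rfl⟩
    exact d1_d2 ℤ _ r (rel_gen r _) z

end main
end Pool.Agent.H69.Ra
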