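import Mathlib

namespace Pool.Agent.H69.Ra

variable (k : Type) [CommRing k] {S R Γ : Type} [Group Γ]

/-- The cellular 1-chain of the edge path that starts at the vertex `g` and spells the word `w`,
in the graph with vertices `Γ` and an edge `(g, s)` from `g` to `g * x s`. -/
noncomputable def chain (x : S → Γ) : Γ → List (S × Bool) → (Γ × S →₀ k)
  | _, [] => 0
  | g, (s, true) :: w => Finsupp.single (g, s) 1 + chain x (g * x s) w
  | g, (s, false) :: w => -Finsupp.single (g * (x s)⁻¹, s) 1 + chain x (g * (x s)⁻¹) w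

/-- cellular boundary `C₁ → C₀` -/
noncomputable def d1 (x : S → Γ) : (Γ × S →₀ k) →ₗ[k] (Γ →₀ k) :=
  Finsupp.linearCombination k fun e => Finsupp.single (e.1 * x e.2) 1 - Finsupp.single e.1 1

/-- cellular boundary `C₂ → C₁`; the 2-cell `(g, ρ)` is attached along the word `r ρ` read
from the vertex `g` -/
noncomputable def d2 (x : S → Γ) (r : R → List (S × Bool)) : (Γ × R →₀ k) →ₗ[k] (Γ × S →₀ k) :=
  Finsupp.linearCombination k fun c => chain k x c.1 (r c.2)

/-- the fundamental group of the presentation complex `⟨S | r⟩` -/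
abbrev Pi1 (r : R → List (S × Bool)) : Type :=
  PresentedGroup (Set.range fun ρ => FreeGroup.mk (r ρ))

/-- images of the generators in the deck group `π₁ / P` -/
def gen (r : R → List (S × Bool)) (P : Subgroup (Pi1 r)) (s : S) : Pi1 r ⧸ P :=
  QuotientGroup.mk (PresentedGroup.of s)

/-- `P ∈ ra(X)`: `P` is normal and the regular covering `X_P` has `H₂ = 0` and `H₁ = 0`
(integral cellular homology). -/
def InRa (r : R → List (S × Bool)) (P : Subgroup (Pi1 r)) : Prop :=
  ∃ _ : P.Normal, LinearMap.ker (d2 ℤ (gen r P) r) = ⊥ ∧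
    LinearMap.ker (d1 ℤ (gen r P)) = LinearMap.range (d2 ℤ (gen r P) r)

end Pool.Agent.H69.Ra
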