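import Mathlib

namespace Pool.Agent.H69.Racg

/-- Relators of the right-angled Coxeter group of a simplicial graph. -/
def rels {V : Type*} (Γ : SimpleGraph V) : Set (FreeGroup V) :=
  {r | (∃ u, r = FreeGroup.of u * FreeGroup.of u) ∨
    ∃ u v, Γ.Adj u v ∧
      r = FreeGroup.of u * FreeGroup.of v * (FreeGroup.of u)⁻¹ * (FreeGroup.of v)⁻¹}

/-- The right-angled Coxeter group `C(Γ)`. -/
abbrev RACG {V : Type*} (Γ : SimpleGraph V) := PresentedGroup (rels Γ)

/-- A reflection: a conjugate of a standard generator. -/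
def IsRefl {V : Type*} (Γ : SimpleGraph V) (r : RACG Γ) : Prop :=
  ∃ (g : RACG Γ) (u : V), r = g * PresentedGroup.of u * g⁻¹

/-- A generalised reflection: a nonempty product of distinct pairwise commuting reflections. -/
def IsGenRefl {V : Type*} (Γ : SimpleGraph V) (x : RACG Γ) : Prop :=
  ∃ l : List (RACG Γ), l ≠ [] ∧ l.Nodup ∧ (∀ r ∈ l, IsRefl Γ r) ∧ l.Pairwise Commute ∧ l.prod = x

end Pool.Agent.H69.Racg
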