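import Mathlib
import Pool.Agent.H69.RacgDefs

namespace Pool.Agent.H69.Racg

section general

variable {V : Type*} (Γ : SimpleGraph V)

abbrev o (u : V) : RACG Γ := PresentedGroup.of u

theorem o_sq (u : V) : o Γ u * o Γ u = 1 :=
  PresentedGroup.one_of_mem (rels := rels Γ) (Or.inl ⟨u, rfl⟩)

theorem o_comm {u v : V} (h : Γ.Adj u v) : o Γ u * o Γ v = o Γ v * o Γ u := by
  have : o Γ u * o Γ v * (o Γ u)⁻¹ * (o Γ v)⁻¹ = 1 :=
    PresentedGroup.one_of_mem (rels := rels Γ) (Or.inr ⟨u, v, h, rfl⟩)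
  rwa [mul_inv_eq_one, mul_inv_eq_iff_eq_mul] at this

def lf {G : Type*} [Group G] (f : V → G) (h1 : ∀ u, f u * f u = 1)
    (h2 : ∀ u v, Γ.Adj u v → f u * f v = f v * f u) : RACG Γ →* G :=
  PresentedGroup.toGroup (f := f) (by
    rintro r (⟨u, rfl⟩ | ⟨u, v, h, rfl⟩)
    · simp [h1]
    · simp [h2 u v h])

@[simp] theorem lf_o {G : Type*} [Group G] (f : V → G) (h1 : ∀ u, f u * f u = 1)
    (h2 : ∀ u v, Γ.Adj u v → f u * f v = f v * f u) (u : V) : lf Γ f h1 h2 (o Γ u) = f u :=
  PresentedGroup.toGroup.of _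

theorem o_ne {u v : V} (h : u ≠ v) : o Γ u ≠ o Γ v ∧ o Γ u ≠ 1 := by
  classical
  let f := lf Γ (fun w => if w = u then (Multiplicative.ofAdd (1 : ZMod 2)) else 1)
    (fun w => by split_ifs <;> decide) (fun _ _ _ => mul_comm _ _)
  constructor
  · intro e
    have := congrArg f e
    simp [f, h.symm] at this
  · intro e
    have := congrArg f e
    simp [f] at this

end general

theorem not_racg {H : Type*} [Group H]
    (h1 : ∀ u v : H, u * u = 1 → v * v = 1 → u ≠ 1 → v ≠ 1 → u * v = v * u → u = v)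
    (h2 : ∀ u v w : H, u * u = 1 → v * v = 1 → w * w = 1 → u ≠ 1 → v ≠ 1 → w ≠ 1 →
      (u * v * w) * (u * v * w) = 1)
    (ψ : H →* Multiplicative (ZMod 2 × ZMod 2 × ZMod 2)) (hψ : Function.Surjective ψ)
    {W : Type*} (Δ : SimpleGraph W) : IsEmpty (H ≃* RACG Δ) := by
  classical
  refine ⟨fun e => ?_⟩
  let g : W → H := fun w => e.symm (o Δ w)
  have g1 : ∀ w, g w * g w = 1 := fun w => by simp only [g, ← map_mul, o_sq, map_one]
  have g2 : ∀ {u v}, u ≠ v → g u ≠ 1 := fun h => by simpa [g] using (o_ne Δ h).2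
  have noadj : ∀ u v, ¬ Δ.Adj u v := by
    intro u v h
    have := h1 (g u) (g v) (g1 _) (g1 _) (g2 h.ne) (g2 h.ne') (by
      simp only [g, ← map_mul, o_comm Δ h])
    exact (o_ne Δ h.ne).1 (e.symm.injective this)
  by_cases h3 : ∃ u v w : W, u ≠ v ∧ v ≠ w ∧ w ≠ u
  · obtain ⟨u, v, w, a1, a2, a3⟩ := h3
    have k := h2 (g u) (g v) (g w) (g1 _) (g1 _) (g1 _) (g2 a1) (g2 a2) (g2 a3)
    simp only [g, ← map_mul, map_eq_one_iff _ e.symm.injective] at k
    let f := lf Δ (fun x => if x = u then Equiv.swap (0 : Fin 4) 1 else if x = v then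
      Equiv.swap 1 2 else if x = w then Equiv.swap 2 3 else 1)
      (fun w => by split_ifs <;> simp) (fun _ _ h => absurd h (noadj _ _))
    have := congrArg f k
    simp only [f, map_mul, lf_o, if_true, a1.symm, a2.symm, a3, if_false, map_one] at this
    revert this
    decide
  · have h4 : ∃ p q, ∀ w, ψ (g w) = p ∨ ψ (g w) = q := by
      by_cases h5 : ∃ u v : W, u ≠ v
      · obtain ⟨u, v, h5⟩ := h5
        refine ⟨ψ (g u), ψ (g v), fun w => ?_⟩
        by_cases a : w = u
        · simp [a]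
        by_cases b : w = v
        · simp [b]
        exact absurd ⟨u, v, w, h5, Ne.symm b, a⟩ h3
      · push Not at h5
        rcases isEmpty_or_nonempty W with h | ⟨⟨u⟩⟩
        · exact ⟨1, 1, fun w => h.elim w⟩
        · exact ⟨ψ (g u), 1, fun w => by simp [h5 w u]⟩
    obtain ⟨p, q, h4⟩ := h4
    have h5 : ∀ y : RACG Δ, ψ (e.symm y) ∈ Subgroup.closure {p, q} := by
      intro y
      have : y ∈ (Subgroup.closure {p, q}).comap (ψ.comp e.symm.toMonoidHom) := by
        refine PresentedGroup.generated_by _ _ (fun w => ?_) y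
        rcases h4 w with h | h
        · exact Subgroup.subset_closure (Or.inl h)
        · exact Subgroup.subset_closure (Or.inr h)
      exact this
    have h6 : ∀ p q : Multiplicative (ZMod 2 × ZMod 2 × ZMod 2), ∃ r, ¬ (r = 1 ∨ r = p ∨ r = q ∨
      r = p * q) := by decide
    have h8 : ∀ x : Multiplicative (ZMod 2 × ZMod 2 × ZMod 2), x⁻¹ = x := by decide
    have h8' : ∀ x : Multiplicative (ZMod 2 × ZMod 2 × ZMod 2), x * x = 1 := by decide
    have h8'' : ∀ x y : Multiplicative (ZMod 2 × ZMod 2 × ZMod 2), x * (x * y) = y := by decide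
    have h7 : ∀ p q x y : Multiplicative (ZMod 2 × ZMod 2 × ZMod 2),
      (x = 1 ∨ x = p ∨ x = q ∨ x = p * q) → (y = 1 ∨ y = p ∨ y = q ∨ y = p * q) →
      (x * y = 1 ∨ x * y = p ∨ x * y = q ∨ x * y = p * q) := by
      intro p q x y hx hy
      rcases hx with rfl | rfl | rfl | rfl <;> rcases hy with rfl | rfl | rfl | rfl <;>
        simp [h8', mul_assoc, mul_comm, mul_left_comm, h8'']
    obtain ⟨r, hr⟩ := h6 p q
    obtain ⟨x, rfl⟩ := hψ r
    have h9 := h5 (e x)
    rw [e.symm_apply_apply] at h9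
    apply hr
    generalize ψ x = r at h9
    induction h9 using Subgroup.closure_induction with
    | mem x hx => rcases hx with rfl | rfl <;> simp
    | one => simp
    | mul x y _ _ hx hy => exact h7 p q x y hx hy
    | inv x _ hx => rwa [h8]

abbrev Vx (m : ℕ) := (Bool × Bool) ⊕ Fin m

def pr (m : ℕ) : Vx m → Bool ⊕ Fin m := Sum.map Prod.fst id

def Gr (m : ℕ) : SimpleGraph (Vx m) := (⊤ : SimpleGraph (Bool ⊕ Fin m)).comap (pr m)

theorem Gr_clique (m : ℕ) : (Gr m).cliqueNum = m + 2 := by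
  classical
  apply le_antisymm
  · obtain ⟨s, hs⟩ := (Gr m).exists_isNClique_cliqueNum
    rw [← hs.card_eq]
    have : s.card ≤ (Finset.univ : Finset (Bool ⊕ Fin m)).card :=
      Finset.card_le_card_of_injOn (pr m) (fun _ _ => by simp) (fun u hu v hv e => by
        by_contra hne
        exact hs.isClique hu hv hne e)
    simpa [add_comm] using this
  · let f : Bool ⊕ Fin m → Vx m := Sum.map (fun k => (k, false)) id
    have hf : ∀ x, pr m (f x) = x := by rintro (x | x) <;> rfl
    have hi : Function.Injective f := Function.LeftInverse.injective hf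
    have : (Gr m).IsClique (Finset.univ.image f : Finset (Vx m)) := by
      intro u hu v hv hne
      simp only [Finset.coe_image, Set.mem_image] at hu hv
      obtain ⟨x, -, rfl⟩ := hu
      obtain ⟨y, -, rfl⟩ := hv
      simp only [Gr, SimpleGraph.comap_adj, hf, SimpleGraph.top_adj]
      rintro rfl
      exact hne rfl
    have h := this.card_le_cliqueNum
    rw [Finset.card_image_of_injective _ hi] at h
    simpa [add_comm] using h

variable (m : ℕ)

def A (e : Bool) : RACG (Gr m) := o (Gr m) (Sum.inl (false, e))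
def B (e : Bool) : RACG (Gr m) := o (Gr m) (Sum.inl (true, e))

theorem AB (e f : Bool) : A m e * B m f = B m f * A m e := o_comm _ (by simp [Gr, pr])
theorem AA (e : Bool) : A m e * A m e = 1 := o_sq _ _
theorem BB (e : Bool) : B m e * B m e = 1 := o_sq _ _

theorem genrefl (e f : Bool) : IsGenRefl (Gr m) (A m e * B m f) := by
  refine ⟨[A m e, B m f], by simp, ?_, ?_, ?_, by simp⟩
  · have : A m e ≠ B m f := (o_ne _ (by simp)).1
    simp [this]
  · intro r hr
    simp only [List.mem_cons, List.not_mem_nil, or_false] at hr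
    rcases hr with rfl | rfl
    · exact ⟨1, Sum.inl (false, e), by simp [A]⟩
    · exact ⟨1, Sum.inl (true, f), by simp [B]⟩
  · have : Commute (A m e) (B m f) := AB m e f
    simpa using this

def S : Set (RACG (Gr m)) :=
  {A m false * B m false, A m true * B m false, A m false * B m true}

def x : RACG (Gr m) := A m false * B m false
def s : RACG (Gr m) := A m false * A m true
def t : RACG (Gr m) := B m false * B m true

theorem Ainv (e : Bool) : (A m e)⁻¹ = A m e := inv_eq_of_mul_eq_one_left (AA m e)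
theorem Binv (e : Bool) : (B m e)⁻¹ = B m e := inv_eq_of_mul_eq_one_left (BB m e)

theorem cAt (e : Bool) : Commute (A m e) (t m) := Commute.mul_right (AB m e _) (AB m e _)
theorem csB (e : Bool) : Commute (s m) (B m e) := Commute.mul_left (AB m _ e) (AB m _ e)
theorem cst : Commute (s m) (t m) := Commute.mul_left (cAt m _) (cAt m _)

theorem xx : x m * x m = 1 := by
  rw [x, mul_assoc, ← mul_assoc (B m _), ← AB, mul_assoc, BB, mul_one, AA]

theorem xs : x m * s m = (s m)⁻¹ * x m := by
  rw [x, mul_assoc, ← (csB m _).eq, ← mul_assoc, ← mul_assoc]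
  congr 1
  rw [s, mul_inv_rev, Ainv, Ainv, ← mul_assoc, AA, mul_assoc, AA, one_mul, mul_one]

theorem xt : x m * t m = (t m)⁻¹ * x m := by
  rw [x, AB, mul_assoc, (cAt m _).eq, ← mul_assoc, ← mul_assoc]
  congr 1
  rw [t, mul_inv_rev, Binv, Binv, ← mul_assoc, BB, mul_assoc, BB, one_mul, mul_one]

def T (i j : ℤ) : RACG (Gr m) := s m ^ i * t m ^ j

theorem T_add (i j k l : ℤ) : T m i j * T m k l = T m (i + k) (j + l) := by
  rw [T, T, T, zpow_add, zpow_add, mul_assoc, mul_assoc, ← mul_assoc (t m ^ j),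
    ← ((cst m).zpow_zpow k j).eq, mul_assoc]

theorem xT (i j : ℤ) : x m * T m i j = T m (-i) (-j) * x m := by
  have a : SemiconjBy (x m) (s m) (s m)⁻¹ := xs m
  have b : SemiconjBy (x m) (t m) (t m)⁻¹ := xt m
  have := (a.zpow_right i).mul_right (b.zpow_right j)
  simpa [T] using this.eq

theorem T_zero : T m 0 0 = 1 := by simp [T]

def rf (e : Bool) : Equiv.Perm ℤ := Equiv.subLeft (if e then 1 else 0)

def chi (k : Bool) : RACG (Gr m) →* Equiv.Perm ℤ :=
  lf _ (Sum.elim (fun p => if p.1 = k then rf p.2 else 1) (fun _ => 1))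
    (by
      rintro (⟨a, e⟩ | u)
      · simp only [Sum.elim_inl]
        split_ifs
        · ext z; simp [rf]
        · simp
      · simp)
    (by
      rintro (⟨a, e⟩ | u) (⟨b, f⟩ | v) h
      · have : a ≠ b := by simpa [Gr, pr] using h
        cases a <;> cases b <;> cases k <;> simp at this ⊢
      all_goals simp)

theorem T_inj {i j : ℤ} (h : T m i j = 1) : i = 0 ∧ j = 0 := by
  have e : rf false * rf true = Equiv.addLeft (-1) := by
    ext z; simp [rf]; ring
  have a := congrArg (fun g => chi m false g 0) h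
  have b := congrArg (fun g => chi m true g 0) h
  simp [T, s, t, A, B, chi, e] at a b
  exact ⟨a, b⟩

theorem nf (g : RACG (Gr m)) (hg : g ∈ Subgroup.closure (S m)) :
    ∃ i j, g = T m i j ∨ g = T m i j * x m := by
  induction hg using Subgroup.closure_induction with
  | mem g hg =>
    rcases hg with rfl | rfl | rfl
    · exact ⟨0, 0, Or.inr (by rw [T_zero, one_mul, x])⟩
    · refine ⟨-1, 0, Or.inr ?_⟩
      simp only [T, zpow_zero, mul_one, zpow_neg, zpow_one, s, x, mul_inv_rev, Ainv]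
      rw [mul_assoc, ← mul_assoc (A m false), AA, one_mul]
    · refine ⟨0, -1, Or.inr ?_⟩
      simp only [T, zpow_zero, one_mul, zpow_neg, zpow_one, t, x, mul_inv_rev, Binv, AB]
      rw [mul_assoc, ← mul_assoc (B m false), BB, one_mul]
  | one => exact ⟨0, 0, Or.inl (T_zero m).symm⟩
  | mul g h _ _ hg hh =>
    obtain ⟨i, j, rfl | rfl⟩ := hg <;> obtain ⟨k, l, rfl | rfl⟩ := hh
    · exact ⟨_, _, Or.inl (T_add m _ _ _ _)⟩
    · exact ⟨_, _, Or.inr (by rw [← mul_assoc, T_add])⟩
    · exact ⟨_, _, Or.inr (by rw [mul_assoc, xT, ← mul_assoc, T_add])⟩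
    · exact ⟨_, _, Or.inl (by
        rw [mul_assoc, ← mul_assoc (x m), xT, mul_assoc, xx, mul_one, T_add])⟩
  | inv g _ hg =>
    obtain ⟨i, j, rfl | rfl⟩ := hg
    · exact ⟨-i, -j, Or.inl (inv_eq_of_mul_eq_one_left (by rw [T_add]; simp [T_zero]))⟩
    · exact ⟨i, j, Or.inr (inv_eq_of_mul_eq_one_left (by
        rw [mul_assoc, ← mul_assoc (x m), xT, mul_assoc, xx, mul_one, T_add]; simp [T_zero]))⟩

theorem invol (u : Subgroup.closure (S m)) (h1 : u * u = 1) (h2 : u ≠ 1) :
    ∃ i j, u.1 = T m i j * x m := by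
  obtain ⟨i, j, h | h⟩ := nf m u.1 u.2
  · have := congrArg Subtype.val h1
    rw [Subgroup.coe_mul, h, T_add] at this
    obtain ⟨a, b⟩ := T_inj m this
    exfalso
    apply h2
    apply Subtype.ext
    rw [h, show i = 0 by omega, show j = 0 by omega, T_zero]
    rfl
  · exact ⟨i, j, h⟩

theorem two (i j k l : ℤ) : T m i j * x m * (T m k l * x m) = T m (i - k) (j - l) := by
  rw [mul_assoc, ← mul_assoc (x m), xT, mul_assoc, xx, mul_one, T_add]
  rfl

def psi : RACG (Gr m) →* Multiplicative (ZMod 2 × ZMod 2 × ZMod 2) :=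
  lf _ (Sum.elim (fun p => Multiplicative.ofAdd (if p.1 then (if p.2 then (0, 1, 0) else 0) else
      (if p.2 then (1, 0, 0) else (0, 0, 1)))) (fun _ => 1))
    (by
      rintro (p | u)
      · simp only [Sum.elim_inl]; revert p; decide
      · simp)
    (fun _ _ _ => mul_comm _ _)

theorem main {W : Type*} (Δ : SimpleGraph W) : IsEmpty (Subgroup.closure (S m) ≃* RACG Δ) := by
  refine not_racg ?_ ?_ ((psi m).comp (Subgroup.subtype _)) ?_ Δ
  · intro u v a1 a2 a3 a4 h
    obtain ⟨i, j, hu⟩ := invol m u a1 a3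
    obtain ⟨k, l, hv⟩ := invol m v a2 a4
    have := congrArg Subtype.val h
    rw [Subgroup.coe_mul, Subgroup.coe_mul, hu, hv, two, two] at this
    have e : T m (i - k + (i - k)) (j - l + (j - l)) = 1 := by
      rw [← T_add]
      nth_rewrite 1 [this]
      rw [T_add]
      simp [T_zero]
    obtain ⟨b1, b2⟩ := T_inj m e
    apply Subtype.ext
    rw [hu, hv, show i = k by omega, show j = l by omega]
  · intro u v w a1 a2 a3 a4 a5 a6
    obtain ⟨i, j, hu⟩ := invol m u a1 a4
    obtain ⟨k, l, hv⟩ := invol m v a2 a5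
    obtain ⟨p, q, hw⟩ := invol m w a3 a6
    apply Subtype.ext
    simp only [Subgroup.coe_mul, hu, hv, hw, two]
    rw [← mul_assoc (T m _ _) (T m _ _), T_add, two]
    simp [T_zero]
  · rw [← MonoidHom.range_eq_top, eq_top_iff]
    intro r _
    have m1 : Multiplicative.ofAdd (0, 0, 1) ∈ ((psi m).comp (Subgroup.subtype
        (Subgroup.closure (S m)))).range :=
      ⟨⟨_, Subgroup.subset_closure (Or.inl rfl)⟩, by simp [psi, A, B]⟩
    have m2 : Multiplicative.ofAdd (1, 0, 0) ∈ ((psi m).comp (Subgroup.subtype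
        (Subgroup.closure (S m)))).range :=
      ⟨⟨_, Subgroup.subset_closure (Or.inr (Or.inl rfl))⟩, by simp [psi, A, B]⟩
    have m3 : Multiplicative.ofAdd (0, 0, 1) * Multiplicative.ofAdd (0, 1, 0) ∈
        ((psi m).comp (Subgroup.subtype (Subgroup.closure (S m)))).range :=
      ⟨⟨_, Subgroup.subset_closure (Or.inr (Or.inr rfl))⟩, by simp [psi, A, B]⟩
    have h : ∀ r : Multiplicative (ZMod 2 × ZMod 2 × ZMod 2), ∃ a b c : Fin 2,
        r = Multiplicative.ofAdd (0, 0, 1) ^ a.1 * Multiplicative.ofAdd (1, 0, 0) ^ b.1 *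
          (Multiplicative.ofAdd (0, 0, 1) * Multiplicative.ofAdd (0, 1, 0)) ^ c.1 := by decide
    obtain ⟨a, b, c, rfl⟩ := h r
    exact mul_mem (mul_mem (pow_mem m1 _) (pow_mem m2 _)) (pow_mem m3 _)

end Pool.Agent.H69.Racg
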