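import Pool.Agent.H69.RamDefs

namespace Pool.Agent.H69.Va
open Filter Topology

theorem Bdd.comp {X Y : Type} {f : Y → ℝ} (h : Bdd f) (r : X → Y) : Bdd fun x => f (r x) :=
  let ⟨C, hC⟩ := h; ⟨C, fun _ => hC _⟩

theorem bdd_one {X : Type} : Bdd (1 : X → ℝ) := ⟨1, by simp⟩

theorem Bdd.add {X : Type} {f g : X → ℝ} (h : Bdd f) (k : Bdd g) : Bdd (f + g) :=
  let ⟨C, hC⟩ := h; let ⟨D, hD⟩ := k
  ⟨C + D, fun x => (abs_add_le _ _).trans (add_le_add (hC x) (hD x))⟩

theorem Bdd.smul {X : Type} {f : X → ℝ} (h : Bdd f) (c : ℝ) : Bdd (c • f) :=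
  let ⟨C, hC⟩ := h
  ⟨|c| * C, fun x => by
    rw [Pi.smul_apply, smul_eq_mul, abs_mul]; exact mul_le_mul_of_nonneg_left (hC x) (abs_nonneg _)⟩

theorem IsMean.bound {X : Type} {m : (X → ℝ) → ℝ} (h : IsMean m) {f : X → ℝ} {C : ℝ}
    (hf : ∀ x, |f x| ≤ C) : |m f| ≤ C := by
  have key : ∀ s : ℝ, (∀ x, 0 ≤ C + s * f x) → 0 ≤ C + s * m f := fun s hs => by
    have b : Bdd f := ⟨C, hf⟩
    have := h.2.2.1 (C • (1 : X → ℝ) + s • f) ((bdd_one.smul C).add (b.smul s))
      fun x => by simpa using hs x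
    rwa [h.1 _ _ (bdd_one.smul C) (b.smul s), h.2.1 _ _ bdd_one, h.2.1 _ _ b, h.2.2.2,
      mul_one] at this
  have a := key 1 fun x => by linarith [abs_le.1 (hf x)]
  have b := key (-1) fun x => by linarith [abs_le.1 (hf x)]
  exact abs_le.2 ⟨by linarith, by linarith⟩

theorem IsMean.push {X Y : Type} {m : (X → ℝ) → ℝ} (h : IsMean m) (r : X → Y) :
    IsMean fun f : Y → ℝ => m fun x => f (r x) :=
  ⟨fun _ _ hf hg => h.1 _ _ (hf.comp r) (hg.comp r), fun c _ hf => h.2.1 c _ (hf.comp r),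
    fun _ hf h0 => h.2.2.1 _ (hf.comp r) fun _ => h0 _, h.2.2.2⟩

theorem ulim {X ι : Type} (U : Ultrafilter ι) (m : ι → (X → ℝ) → ℝ) (h : ∀ i, IsMean (m i)) :
    ∃ μ, IsMean μ ∧ ∀ f, Bdd f → Tendsto (fun i => m i f) U (𝓝 (μ f)) := by
  have : ∀ f, ∃ x, Bdd f → Tendsto (fun i => m i f) U (𝓝 x) := by
    intro f
    by_cases hf : Bdd f
    · obtain ⟨C, hC⟩ := hf
      obtain ⟨x, -, hx⟩ := (isCompact_Icc (a := -C) (b := C)).ultrafilter_le_nhds
        (U.map fun i => m i f) (by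
          rw [Ultrafilter.coe_map, le_principal_iff, mem_map]
          exact univ_mem' fun i => abs_le.1 ((h i).bound hC))
      exact ⟨x, fun _ => hx⟩
    · exact ⟨0, fun h => absurd h hf⟩
  choose μ hμ using this
  refine ⟨μ, ⟨fun f g hf hg => tendsto_nhds_unique (hμ _ (hf.add hg)) ?_,
    fun c f hf => tendsto_nhds_unique (hμ _ (hf.smul c)) ?_,
    fun f hf h0 => ge_of_tendsto' (hμ f hf) fun i => (h i).2.2.1 f hf h0,
    tendsto_nhds_unique (hμ _ bdd_one) ?_⟩, hμ⟩
  · simp only [(h _).1 f g hf hg]; exact (hμ f hf).add (hμ g hg)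
  · simp only [(h _).2.1 c f hf]; exact (hμ f hf).const_mul c
  · simp only [(h _).2.2.2]; exact tendsto_const_nhds

theorem amen_dir {G : Type} [Group G] (h : ∀ T : Finset G, ∃ (H : Type) (_ : Group H)
    (j : H →* G), Amen H ∧ ∀ g ∈ T, g ∈ j.range) : Amen G := by
  classical
  have : ∀ T : Finset G, ∃ m : (G → ℝ) → ℝ, IsMean m ∧
      ∀ g ∈ T, ∀ f, Bdd f → m (fun x => f (g * x)) = m f := fun T => by
    obtain ⟨H, _, j, ⟨m, h1, h2⟩, h3⟩ := h T
    refine ⟨_, h1.push j, fun g hg f hf => ?_⟩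
    obtain ⟨a, rfl⟩ := h3 g hg
    simpa only [map_mul] using h2 a _ (hf.comp j)
  choose M h1 h3 using this
  obtain ⟨μ, hμ, hl⟩ := ulim (Ultrafilter.of (atTop : Filter (Finset G))) M h1
  refine ⟨μ, hμ, fun g f hf => tendsto_nhds_unique (hl _ (hf.comp _)) ((hl f hf).congr' ?_)⟩
  have : ∀ᶠ T : Finset G in atTop, M T f = M T fun x => f (g * x) := by
    filter_upwards [eventually_ge_atTop {g}] with T hT
    exact (h3 T g (hT (Finset.mem_singleton_self g)) f hf).symm
  exact this.filter_mono (Ultrafilter.of_le _)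

theorem Amen.of_inj {G H : Type} [Group G] [Group H] (h : Amen G) (φ : H →* G)
    (hφ : Function.Injective φ) : Amen H := by
  obtain ⟨m, h1, h2⟩ := h
  let s : G → G := fun x => (Quotient.mk (QuotientGroup.rightRel φ.range) x).out
  have hs : ∀ x, ∃ a, φ a = x * (s x)⁻¹ := fun x =>
    QuotientGroup.rightRel_apply.1 (Quotient.mk_out (s := QuotientGroup.rightRel φ.range) x)
  choose r hr using hs
  have e : ∀ a x, r (φ a * x) = a * r x := fun a x => hφ (by
    have : s (φ a * x) = s x := by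
      simp only [s]; congr 1
      exact Quotient.sound (QuotientGroup.rightRel_apply.2 ⟨a⁻¹, by simp⟩)
    rw [map_mul, hr, hr, this, mul_assoc])
  refine ⟨_, h1.push r, fun a f hf => ?_⟩
  simpa only [e] using h2 (φ a) _ (hf.comp r)

theorem amen_ext {G Q B : Type} [Group G] [Group Q] [Group B] (φ : G →* Q) (hQ : Amen Q)
    (ψ : φ.ker →* B) (hψ : Function.Injective ψ) (hB : Amen B) : Amen G := by
  obtain ⟨k, k1, k2⟩ := hB.of_inj ψ hψ
  obtain ⟨m, m1, m2⟩ := hQ.of_inj φ.range.subtype Subtype.val_injective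
  choose s hs using fun q : φ.range => q.2
  let F : (G → ℝ) → φ.range → ℝ := fun f q => k fun x => f (s q * x)
  have bF : ∀ f, Bdd f → Bdd (F f) := fun f ⟨C, hC⟩ => ⟨C, fun q => k1.bound fun _ => hC _⟩
  refine ⟨fun f => m (F f), ⟨fun f g hf hg => ?_, fun c f hf => ?_, fun f hf h0 => ?_, ?_⟩,
    fun g f hf => ?_⟩
  · rw [← m1.1 _ _ (bF f hf) (bF g hg)]
    exact congrArg m (funext fun q => k1.1 _ _ (hf.comp _) (hg.comp _))
  · rw [← m1.2.1 _ _ (bF f hf)]
    exact congrArg m (funext fun q => k1.2.1 _ _ (hf.comp _))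
  · exact m1.2.2.1 _ (bF f hf) fun q => k1.2.2.1 _ (hf.comp _) fun _ => h0 _
  · rw [← m1.2.2.2]
    exact congrArg m (funext fun q => k1.2.2.2)
  · dsimp only
    rw [← m2 ⟨φ g, g, rfl⟩ _ (bF f hf)]
    refine congrArg m (funext fun q => ?_)
    have := k2 ⟨(s (⟨φ g, g, rfl⟩ * q))⁻¹ * (g * s q), by simp [MonoidHom.mem_ker, hs]⟩ _
      (hf.comp fun x : φ.ker => s (⟨φ g, g, rfl⟩ * q) * x)
    simpa [F, mul_assoc] using this

theorem amen_fin (G : Type) [Group G] [Finite G] : Amen G := by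
  haveI := Fintype.ofFinite G
  have : (0 : ℝ) < Fintype.card G := by exact_mod_cast Fintype.card_pos
  refine ⟨fun f => (∑ x, f x) / Fintype.card G, ⟨fun f g _ _ => ?_, fun c f _ => ?_,
    fun f _ h => div_nonneg (Finset.sum_nonneg fun x _ => h x) this.le, by simp⟩, fun g f _ => ?_⟩
  · simp [Finset.sum_add_distrib, add_div]
  · simp [← Finset.mul_sum, mul_div_assoc]
  · dsimp only; rw [Equiv.sum_comp (Equiv.mulLeft g) f |>.symm]; rfl

theorem amen_int : Amen (Multiplicative ℤ) := by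
  let t := Multiplicative.ofAdd (1 : ℤ)
  let M : ℕ → (Multiplicative ℤ → ℝ) → ℝ := fun N f =>
    (∑ i ∈ Finset.range (N + 1), f (t ^ i)) / (N + 1)
  have hM : ∀ N, IsMean (M N) := fun N => by
    have hN : (0 : ℝ) < N + 1 := by positivity
    refine ⟨fun f g _ _ => ?_, fun c f _ => ?_,
      fun f _ h => div_nonneg (Finset.sum_nonneg fun x _ => h _) hN.le, by simp [M, hN.ne']⟩
    · simp only [M, Pi.add_apply, Finset.sum_add_distrib, add_div]
    · simp only [M, Pi.smul_apply, smul_eq_mul, ← Finset.mul_sum, mul_div_assoc]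
  obtain ⟨μ, hμ, hl⟩ := ulim (hyperfilter ℕ) M hM
  have h1 : ∀ f, Bdd f → μ (fun x => f (t * x)) = μ f := fun f hf => by
    obtain ⟨C, hC⟩ := id hf
    have h0 : Tendsto (fun N => M N (fun x => f (t * x)) - M N f) atTop (𝓝 0) := by
      have e : ∀ N : ℕ, M N (fun x => f (t * x)) - M N f = (f (t ^ (N + 1)) - f 1) / (N + 1) := by
        intro N
        simp only [M]
        rw [← sub_div, ← Finset.sum_sub_distrib, ← pow_zero t,
          ← Finset.sum_range_sub (fun i => f (t ^ i)) (N + 1)]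
        simp only [pow_succ']
      simp only [e]
      refine squeeze_zero_norm (fun N => ?_) (by
        simpa using tendsto_one_div_add_atTop_nhds_zero_nat.const_mul (C + C))
      have hN : (0 : ℝ) < N + 1 := by positivity
      rw [norm_div, Real.norm_of_nonneg hN.le, Real.norm_eq_abs, div_eq_mul_inv]
      exact mul_le_mul_of_nonneg_right ((abs_sub _ _).trans (add_le_add (hC _) (hC _)))
        (by positivity)
    exact sub_eq_zero.1 (tendsto_nhds_unique ((hl _ (hf.comp _)).sub (hl f hf))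
      (h0.mono_left Nat.hyperfilter_le_atTop))
  refine ⟨μ, hμ, fun g => ?_⟩
  obtain ⟨n, rfl⟩ : ∃ n : ℤ, g = t ^ n := ⟨g.toAdd, by simp [t, ← ofAdd_zsmul]⟩
  induction n using Int.induction_on with
  | zero => simp
  | succ n ih =>
    intro f hf
    rw [← ih f hf, ← h1 _ (hf.comp fun x => t ^ (n : ℤ) * x)]
    simp only [zpow_add_one, mul_assoc]
  | pred n ih =>
    intro f hf
    rw [← ih f hf, ← h1 _ (hf.comp fun x => t ^ (-(n : ℤ) - 1) * x)]
    simp only [zpow_sub_one, mul_assoc, inv_mul_cancel_left]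

theorem Amen.prod {A B : Type} [Group A] [Group B] (hA : Amen A) (hB : Amen B) : Amen (A × B) :=
  amen_ext (MonoidHom.fst A B) hA ((MonoidHom.snd A B).comp (Subgroup.subtype _))
    (fun x y h => Subtype.ext (Prod.ext ((x.2 : x.1.1 = 1).trans (y.2 : y.1.1 = 1).symm) h)) hB

theorem Amen.pi {A : Type} [Group A] (hA : Amen A) (X : Type) [Finite X] : Amen (X → A) := by
  induction X using Finite.induction_empty_option with
  | of_equiv e h =>
    exact h.of_inj (MulEquiv.arrowCongr e.symm (MulEquiv.refl A)).toMonoidHom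
      (MulEquiv.injective _)
  | h_empty => exact amen_fin _
  | h_option h =>
    refine (hA.prod h).of_inj (MonoidHom.mk' (fun f => (f none, fun x => f (some x)))
      fun _ _ => rfl) fun f g e => ?_
    funext x
    cases x
    · exact congrArg Prod.fst e
    · exact congrFun (congrArg Prod.snd e) _

theorem amen_comm (G : Type) [CommGroup G] : Amen G := by
  classical
  refine amen_dir fun T => ⟨T → Multiplicative ℤ, inferInstance,
    MonoidHom.mk' (fun x => ∏ t : T, t.1 ^ (x t).toAdd) fun x y => by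
      simp [zpow_add, Finset.prod_mul_distrib], amen_int.pi T, fun g hg =>
    ⟨Pi.mulSingle ⟨g, hg⟩ (Multiplicative.ofAdd 1), ?_⟩⟩
  change ∏ t : T, _ = g
  rw [Finset.prod_eq_single ⟨g, hg⟩ (fun b _ hb => by simp [Pi.mulSingle_eq_of_ne hb]) (by simp)]
  simp

@[ext] structure Wr (X A : Type) where
  p : Equiv.Perm X
  f : X → A

namespace Wr
variable {X A : Type} [Group A]
instance : Mul (Wr X A) := ⟨fun a b => ⟨a.p * b.p, fun x => a.f (b.p x) * b.f x⟩⟩
instance : One (Wr X A) := ⟨⟨1, 1⟩⟩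
instance : Inv (Wr X A) := ⟨fun a => ⟨a.p⁻¹, fun x => (a.f (a.p⁻¹ x))⁻¹⟩⟩
@[simp] theorem mul_p (a b : Wr X A) : (a * b).p = a.p * b.p := rfl
@[simp] theorem mul_f (a b : Wr X A) (x : X) : (a * b).f x = a.f (b.p x) * b.f x := rfl
@[simp] theorem one_p : (1 : Wr X A).p = 1 := rfl
@[simp] theorem one_f (x : X) : (1 : Wr X A).f x = 1 := rfl
@[simp] theorem inv_p (a : Wr X A) : a⁻¹.p = a.p⁻¹ := rfl
@[simp] theorem inv_f (a : Wr X A) (x : X) : a⁻¹.f x = (a.f (a.p⁻¹ x))⁻¹ := rfl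
instance : Group (Wr X A) := Group.ofLeftAxioms
  (fun a b c => by ext x <;> simp [mul_assoc]) (fun a => by ext x <;> simp)
  (fun a => by ext x <;> simp)

theorem amen_sub {E : Type} [Group E] (S : Subgroup (Wr X A × E)) (F : Subgroup (X → A))
    (h : ∀ s ∈ S, s.2 = 1 → s.1.p = 1 ∧ s.1.f ∈ F) (hF : Amen F) (hE : Amen E) : Amen S :=
  amen_ext ((MonoidHom.snd _ _).comp S.subtype) hE
    (MonoidHom.mk' (fun s => (⟨s.1.1.1.f, (h _ s.1.2 s.2).2⟩ : F)) fun a b => by
      ext x; simp [(h _ b.1.2 b.2).1])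
    (fun a b e => Subtype.ext (Subtype.ext (Prod.ext (Wr.ext
      ((h _ a.1.2 a.2).1.trans (h _ b.1.2 b.2).1.symm) (congrArg Subtype.val e))
      ((a.2 : a.1.1.2 = 1).trans (b.2 : b.1.1.2 = 1).symm)))) hF

theorem amen [Finite X] (hA : Amen A) : Amen (Wr X A) :=
  amen_ext (MonoidHom.mk' Wr.p mul_p) (amen_fin _)
    (MonoidHom.mk' (fun s => s.1.f) fun a b => by
      ext x; simp [show b.1.p = 1 from b.2])
    (fun a b e => Subtype.ext (Wr.ext ((a.2 : a.1.p = 1).trans (b.2 : b.1.p = 1).symm) e))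
    (hA.pi X)
end Wr

end Pool.Agent.H69.Va
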