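import Pool.Agent.H69.Va4

namespace Pool.Agent.H69.Va
open Monoid

def WV {G : Type} [Group G] (D : Subgroup G) : Prop :=
  Infinite D ∧ ∃ (R : Subgroup G) (ψ : G → ℤ), R.FiniteIndex ∧ IsCh R ψ ∧
    ∀ g ∈ D, g ∈ R → ψ g = 0 → g = 1

theorem wv_of {G0 G : Type} [Group G0] [Group G] (i : G0 →* G) (hi : Function.Injective i)
    [Infinite G0] (hc : VirtCyc G0) (h : VirtRetract i.range) : WV i.range := by
  obtain ⟨c, -, hc⟩ := cyc_core hc ⊤
  have inf : ¬IsOfFinOrder c := fun h => by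
    haveI : Finite (Subgroup.zpowers c) := h.finite_zpowers
    haveI : Finite G0 := (Subgroup.finite_iff_finite_and_finiteIndex (Subgroup.zpowers c)).2
      ⟨inferInstance, hc⟩
    exact not_finite G0
  obtain ⟨R, ψ, r1, r2, r3, r4⟩ := ret i hi h c inf
  refine ⟨Infinite.of_injective _ (MonoidHom.ofInjective hi).injective, R, ψ, r1, r2, ?_⟩
  rintro _ ⟨g, rfl⟩ hg h0
  obtain ⟨n, rfl⟩ := r4 hg
  rw [r3] at h0
  simp [h0]

theorem cyc {C G : Type} [Group C] [Group G] (j : C →* G) (hj : Function.Injective j)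
    [Infinite C] (N : Subgroup G) [N.FiniteIndex] (ψ : G → ℤ) (h1 : IsCh N ψ)
    (h : ∀ g, j g ∈ N → ψ (j g) = 0 → j g = 1) : ∃ u ≠ 1, N.comap j = Subgroup.zpowers u := by
  have h2 : IsCh (N.comap j) (fun g => ψ (j g)) := fun a ha b hb => by
    simp only [map_mul]; exact h1 _ ha _ hb
  haveI : IsCyclic (N.comap j) := isCyclic_of_injective (h2.hom _ le_rfl)
    ((injective_iff_map_eq_one _).2 fun a ha => Subtype.ext (hj ((h a a.2 ha).trans (map_one j).symm)))
  obtain ⟨u, hu⟩ := (Subgroup.isCyclic_iff_exists_zpowers_eq_top (N.comap j)).1 inferInstance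
  refine ⟨u, fun e => ?_, hu.symm⟩
  haveI := fi_comap N j
  rw [← hu, e, Subgroup.zpowers_one_eq_bot] at this
  haveI : Finite C := (Subgroup.finite_iff_finite_and_finiteIndex ⊥).2 ⟨inferInstance, this⟩
  exact not_finite C

theorem prep2 {G0 : Type} [Group G0] {G : Bool → Type} [∀ i, Group (G i)] (φ : ∀ i, G0 →* G i)
    (hφ : ∀ i, Function.Injective (φ i)) (hw : ∀ i, WV (φ i).range)
    (H : ∀ i, Subgroup (G i)) [∀ i, (H i).FiniteIndex] :
    ∃ (c : G0) (N : ∀ i, Subgroup (G i)), c ≠ 1 ∧ ∀ i, (N i).Normal ∧ (N i).FiniteIndex ∧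
      (N i).comap (φ i) = Subgroup.zpowers c ∧ N i ≤ H i ∧
      ∃ ψ, IsCh (N i) ψ ∧ ψ (φ i c) ≠ 0 := by
  choose r0 R ψ r1 r2 r3 using hw
  haveI : Infinite G0 := haveI := r0 true
    Infinite.of_injective _ (MonoidHom.ofInjective (hφ true)).symm.injective
  let L : ∀ i, Subgroup (G i) := fun i => (H i ⊓ R i).normalCore
  have l1 : ∀ i, L i ≤ H i := fun i => (Subgroup.normalCore_le _).trans inf_le_left
  have l2 : ∀ i, L i ≤ R i := fun i => (Subgroup.normalCore_le _).trans inf_le_right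
  have l3 : ∀ i, IsCh (L i) (ψ i) := fun i a ha b hb => r2 i a (l2 i ha) b (l2 i hb)
  have l4 : ∀ i g, g ≠ 1 → φ i g ∈ L i → ψ i (φ i g) ≠ 0 := fun i g h1 hg h0 =>
    h1 (hφ i ((r3 i _ ⟨g, rfl⟩ (l2 i hg) h0).trans (map_one _).symm))
  choose u u1 u2 using fun i => cyc (φ i) (hφ i) (L i) (ψ i) (l3 i)
    fun g hg => r3 i _ ⟨g, rfl⟩ (l2 i hg)
  let I := (L true).comap (φ true) ⊓ (L false).comap (φ false)
  have hI : ∀ i, I ≤ (L i).comap (φ i) := fun i => by cases i; exacts [inf_le_right, inf_le_left]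
  choose e he using fun i => (Subgroup.le_zpowers_iff (u i) I).1 ((hI i).trans (u2 i).le)
  haveI := fi_comap (L true) (φ true)
  haveI := fi_comap (L false) (φ false)
  have e1 : ∀ i, u i ^ e i ≠ 1 := fun i h => by
    have : I.FiniteIndex := inferInstance
    rw [he i, h, Subgroup.zpowers_one_eq_bot] at this
    haveI : Finite G0 := (Subgroup.finite_iff_finite_and_finiteIndex ⊥).2 ⟨inferInstance, this⟩
    exact not_finite G0
  choose N n1 n2 n3 n4 using fun i => mtch (φ i) (L i) (ψ i) (l3 i) _ (u2 i)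
    (l4 i _ (u1 i) ((u2 i).ge (Subgroup.mem_zpowers _))) (e i) (fun h => e1 i (by simp [h]))
  exact ⟨u true ^ e true, N, e1 true, fun i => ⟨n2 i, n3 i, by rw [n4, ← he, ← he],
    (n1 i).trans (l1 i), ψ i, fun a ha b hb => l3 i a (n1 i ha) b (n1 i hb),
    l4 i _ (e1 true) (hI i ((he true).ge (Subgroup.mem_zpowers _)))⟩⟩

theorem amal {G0 : Type} [Group G0] {G : Bool → Type} [∀ i, Group (G i)] (φ : ∀ i, G0 →* G i)
    (hφ : ∀ i, Function.Injective (φ i)) (hw : ∀ i, WV (φ i).range)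
    (hf : ∀ i, VirtFibered (G i)) (D : ∀ i, Subgroup (G i)) (hD : ∀ i, WV (D i)) :
    VirtFibered (PushoutI φ) ∧ ∀ i, WV ((D i).map (PushoutI.of (φ := φ) i)) := by
  classical
  choose H h1 h2 using hf
  choose r0 R ψ' r1 r2 r3 using hD
  obtain ⟨c, N, hc1, hN⟩ := prep2 φ hφ hw (fun i => H i ⊓ R i)
  choose n1 n2 n3 n0 ψ n5 n6 using hN
  have n4 : ∀ i, Fibered (N i) := fun i => fib_sub _ _ ((n0 i).trans inf_le_left) (h2 i)
  have n7 : ∀ i, N i ≤ R i := fun i => (n0 i).trans inf_le_right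
  have n8 : ∀ i, IsCh (N i) (ψ' i) := fun i a ha b hb => r2 i a (n7 i ha) b (n7 i hb)
  choose w w1 w2 using fun i => cyc (D i).subtype Subtype.val_injective (N i) (ψ' i) (n8 i)
    fun g hg => r3 i _ g.2 (n7 i hg)
  have w3 : ∀ i, (w i).1 ∈ N i := fun i => (w2 i).ge (Subgroup.mem_zpowers _)
  obtain ⟨K⟩ := core_ex φ N c n3
  haveI := K.fin
  have hcN : ∀ i, φ i c ∈ N i := fun i => (n3 i).ge (Subgroup.mem_zpowers c)
  have hu : ∀ i x, K.u i x ∈ N i := fun i x => (n1 i).conj_mem' _ (hcN i) _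
  choose χ c1 c2 c3 using fun i => avoid (n4 i)
    (insert ⟨_, (n1 i).conj_mem' _ (w3 i) (K.s i K.x0)⟩
      (Set.range fun x : K.X => (⟨K.u i x, hu i x⟩ : N i))) ((Set.finite_range _).insert _) (by
      rintro _ (rfl | ⟨x, rfl⟩)
      · refine ⟨((n8 i).hom (N i) le_rfl).comp (MulAut.conjNormal (K.s i K.x0)).toMonoidHom,
          fun e => w1 i (Subtype.ext (r3 i _ (w i).2 (n7 i (w3 i)) ?_))⟩
        have : ψ' i (K.s i K.x0 * ((K.s i K.x0)⁻¹ * (w i).1 * K.s i K.x0) * (K.s i K.x0)⁻¹) = 0 := e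
        simpa [mul_assoc] using this
      refine ⟨((n5 i).hom (N i) le_rfl).comp (MulAut.conjNormal (K.τ i x)).toMonoidHom,
        fun e => n6 i ?_⟩
      have : ψ i (K.τ i x * K.u i x * (K.τ i x)⁻¹) = 0 := e
      simpa [Core.u, mul_assoc] using this)
  let χ' : ∀ i, G i → ℤ := fun i g => if hg : g ∈ N i then (χ i ⟨g, hg⟩).toAdd else 0
  have d0 : ∀ i g (hg : g ∈ N i), χ' i g = (χ i ⟨g, hg⟩).toAdd := fun i g hg => dif_pos hg
  have d1 : ∀ i, IsCh (N i) (χ' i) := fun i a ha b hb => by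
    rw [d0 i _ (mul_mem ha hb), d0 i _ ha, d0 i _ hb, ← toAdd_mul, ← map_mul]; rfl
  have d2 : ∀ i x, χ' i (K.u i x) ≠ 0 := fun i x => by
    rw [d0 i _ (hu i x)]; exact c3 i _ (Or.inr ⟨x, rfl⟩)
  obtain ⟨Θ, P, t1, t2, t3⟩ := K.lift_ex (A := ℤ)
    (fun i x g => χ' i g * χ' (!i) (K.u (!i) x))
    (fun i x a ha b hb => by rw [d1 i a ha b hb]; ring)
    (fun i g x => by funext a; simp only [Core.u, K.cst]) hu
    (fun i x => by
      cases i
      · exact mul_comm _ _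
      · rfl)
  let δ : K.X → ℤ := fun x => χ' true (K.κ true (φ true c) x) * χ' false (K.u false x)
  have hδ : ∀ x, δ x ≠ 0 := fun x => mul_ne_zero (by
    rw [Core.κ, K.coc, show (K.τ true x)⁻¹ * φ true c * K.τ true x = K.u true x from rfl,
      (d1 true).zpow (hu _ _)]
    refine mul_ne_zero (fun h => hc1 (hφ true ?_)) (d2 _ _)
    have := K.coc true c x
    rw [h, zpow_zero, (K.fix _ _ _).2 (hcN true)] at this
    simpa [mul_assoc, inv_mul_eq_one] using this) (d2 _ _)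
  letI : MulAction (PushoutI φ) (K.X × ℤ) := MulAction.compHom _ Θ
  have sm : ∀ (p : PushoutI φ) (ω : K.X × ℤ), p • ω = Θ p ω := fun _ _ => rfl
  have tc : ∀ x a, Θ (PushoutI.base φ c) (x, a) = (x, a + δ x) := fun x a => by
    rw [← PushoutI.of_apply_eq_base φ true, t1, (K.fix _ _ _).2 (hcN true)]; rfl
  have tz : ∀ (n : ℤ) x a, Θ (PushoutI.base φ (c ^ n)) (x, a) = (x, a + n * δ x) := by
    intro n x
    induction n using Int.induction_on with
    | zero => simp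
    | succ n ih =>
      intro a
      rw [zpow_add_one, map_mul, map_mul, Equiv.Perm.mul_apply, tc, ih]; congr 1; ring
    | pred n ih =>
      intro a
      rw [zpow_sub_one, map_mul, map_mul, map_inv, map_inv, Equiv.Perm.mul_apply,
        show (Θ (PushoutI.base φ c))⁻¹ (x, a) = (x, a - δ x) by
          rw [Equiv.Perm.inv_eq_iff_eq, tc]; simp, ih]
      congr 1; ring
  have st := schreier2 (Ω := K.X × ℤ) (fun i => (PushoutI.of (φ := φ) i).range)
    (fun H hH => push_gen φ H fun i g => hH i ⟨g, rfl⟩)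
    (⋃ x, (fun a => (x, a)) '' Set.Icc 0 |δ x|)
    (Set.finite_iUnion fun x => (Set.finite_Icc _ _).image _)
    (fun ⟨x, a⟩ => ⟨PushoutI.base φ (c ^ (a / δ x)),
      fun i => ⟨_, PushoutI.of_apply_eq_base φ i _⟩, (x, a % δ x), Set.mem_iUnion.2
        ⟨x, _, ⟨Int.emod_nonneg _ (hδ x), (Int.emod_lt_abs _ (hδ x)).le⟩, rfl⟩, by
      rw [sm, tz, Int.emod_def]; congr 1; ring⟩)
    (fun i ⟨x, a⟩ => by
      have : (PushoutI.of (φ := φ) i).range ⊓ MulAction.stabilizer (PushoutI φ) (x, a) =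
          (χ i).ker.map ((PushoutI.of i).comp ((N i).subtype.comp
            (MulAut.conjNormal (K.s i x)).toMonoidHom)) := by
        apply le_antisymm
        · rintro _ ⟨⟨g, rfl⟩, hg⟩
          have hg : Θ (PushoutI.of i g) (x, a) = (x, a) := hg
          rw [t1, Prod.mk.injEq, add_eq_left, mul_eq_zero] at hg
          have hm : K.κ i g x ∈ N i := K.mem i g x
          refine ⟨⟨_, hm⟩, ?_, ?_⟩
          · have := hg.2.resolve_right (d2 _ _)
            rw [d0 i _ hm] at this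
            exact this
          · change PushoutI.of i (K.s i x * K.κ i g x * (K.s i x)⁻¹) = _
            rw [Core.κ, hg.1]; congr 1; group
        · rintro _ ⟨g, hg, rfl⟩
          refine ⟨⟨_, rfl⟩, ?_⟩
          change Θ (PushoutI.of i (K.s i x * g * (K.s i x)⁻¹)) (x, a) = (x, a)
          have hm := (K.fix i _ x).2 ((n1 i).conj_mem _ g.2 (K.s i x))
          rw [t1, Core.κ, hm, show (K.s i x)⁻¹ * (K.s i x * g * (K.s i x)⁻¹) * K.s i x = g by group,
            d0 i _ g.2, show χ i ⟨g, g.2⟩ = 1 from hg]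
          simp
      rw [this]
      obtain ⟨S, hS⟩ := c2 i
      rw [← hS, MonoidHom.map_closure]
      exact (Subgroup.fg_iff _).2 ⟨_, rfl, S.finite_toSet.image _⟩) (K.x0, 0)
  let U := (MulAction.stabilizer (Equiv.Perm K.X) K.x0).comap P
  haveI : P.ker.FiniteIndex := inferInstance
  have hU : ∀ p : U, Θ p (K.x0, 0) = (K.x0, (Θ p (K.x0, 0)).2) := fun p => by
    obtain ⟨f, hf⟩ := t3 p
    rw [hf]; congr 1; exact p.2
  let f : U →* Multiplicative ℤ := MonoidHom.mk'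
    (fun p => Multiplicative.ofAdd (Θ p (K.x0, 0)).2) fun p q => by
      obtain ⟨g, hg⟩ := t3 p
      rw [Subgroup.coe_mul, map_mul, Equiv.Perm.mul_apply, hU q, hg, hg, ← ofAdd_add]
      simp [add_comm]
  have fiU : U.FiniteIndex := Subgroup.finiteIndex_of_le (H := P.ker) fun p hp => by
    change P p K.x0 = K.x0
    rw [MonoidHom.mem_ker.1 hp]; rfl
  refine ⟨⟨U, fiU, f, fun e => hδ K.x0 ?_, ?_⟩, fun i => ⟨Infinite.of_injective _
    ((D i).equivMapOfInjective _ (PushoutI.of_injective hφ i)).injective, U,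
    fun p => (Θ p (K.x0, 0)).2, fiU, fun a ha b hb =>
      congrArg Multiplicative.toAdd (f.map_mul ⟨a, ha⟩ ⟨b, hb⟩), ?_⟩⟩
  · have := DFunLike.congr_fun e ⟨PushoutI.base φ c, by
      change P _ K.x0 = K.x0
      rw [← PushoutI.of_apply_eq_base φ true, t2]; exact (K.fix _ _ _).2 (hcN true)⟩
    change (Θ (PushoutI.base φ c) (K.x0, 0)).2 = 0 at this
    rwa [tc, zero_add] at this
  · haveI := (Group.fg_iff_subgroup_fg _).2 st
    rw [← Group.fg_iff_subgroup_fg]
    have hle : MulAction.stabilizer (PushoutI φ) (K.x0, (0 : ℤ)) ≤ U := fun p hp => by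
      obtain ⟨g, hg⟩ := t3 p
      have hp : Θ p (K.x0, 0) = (K.x0, 0) := hp
      rw [hg] at hp
      exact congrArg Prod.fst hp
    let j : MulAction.stabilizer (PushoutI φ) (K.x0, (0 : ℤ)) →* f.ker := MonoidHom.mk'
      (fun p => ⟨⟨p.1, hle p.2⟩, congrArg Prod.snd (show Θ p (K.x0, 0) = (K.x0, 0) from p.2)⟩)
      fun _ _ => rfl
    refine Group.fg_of_surjective (f := j) fun p => ⟨⟨p.1.1, ?_⟩, rfl⟩
    change Θ p.1 (K.x0, 0) = (K.x0, 0)
    rw [hU p.1]; congr 1; exact p.2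
  · rintro _ ⟨g, hg, rfl⟩ hU h0
    have hU : P (PushoutI.of i g) K.x0 = K.x0 := hU
    rw [t2] at hU
    obtain ⟨k, hk⟩ : (⟨g, hg⟩ : D i) ∈ Subgroup.zpowers (w i) := (w2 i).le ((K.fix _ _ _).1 hU)
    have hk : (w i).1 ^ k = g := by simpa using congrArg Subtype.val hk
    have hm := (n1 i).conj_mem' _ (w3 i) (K.s i K.x0)
    simp only [t1, zero_add] at h0
    rw [Core.κ, hU, ← hk, show (K.s i K.x0)⁻¹ * (w i).1 ^ k * K.s i K.x0 =
      ((K.s i K.x0)⁻¹ * (w i).1 * K.s i K.x0) ^ k by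
        simpa using (conj_zpow (a := (K.s i K.x0)⁻¹) (b := (w i).1) (i := k)).symm,
      (d1 i).zpow hm, d0 i _ hm] at h0
    have := (mul_eq_zero.1 ((mul_eq_zero.1 h0).resolve_right (d2 _ _))).resolve_right
      (c3 i _ (Or.inl rfl))
    rw [← hk, this]; simp

end Pool.Agent.H69.Va
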