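import Pool.Agent.H69.Ram1
import Pool.Agent.H69.Va5

namespace Pool.Agent.H69.Va
open Monoid

theorem root {A : Type} [Group A] (hA : Amen A) (a : A) (m : Multiplicative ℤ) (hm : m ≠ 1) :
    ∃ (B : Type) (_ : Group B) (j : A →* B) (l : Multiplicative ℤ →* B), Amen B ∧
      Function.Injective j ∧ l m = j a := by
  have hm : m.toAdd ≠ 0 := hm
  set d := m.toAdd with hd
  let X := Set.Ico 0 |d|
  let P : Multiplicative ℤ →* Equiv.Perm X := MonoidHom.toHomPerm
    { toFun := fun k v => ⟨(v.1 + k.toAdd) % d, Int.emod_nonneg _ hm, Int.emod_lt_abs _ hm⟩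
      map_one' := by
        funext v
        refine Subtype.ext ?_
        change (v.1 + 0) % d = v.1
        rw [add_zero]
        exact (Int.emod_abs _ _).symm.trans (Int.emod_eq_of_lt v.2.1 v.2.2)
      map_mul' := fun k l => by
        funext v
        refine Subtype.ext ?_
        change (v.1 + (k.toAdd + l.toAdd)) % d = ((v.1 + l.toAdd) % d + k.toAdd) % d
        rw [Int.emod_add_emod]; congr 1; ring }
  have hP : ∀ k v, (P k v).1 = (v.1 + k.toAdd) % d := fun _ _ => rfl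
  refine ⟨Wr X A, inferInstance, MonoidHom.mk' (fun a => ⟨1, fun _ => a⟩) fun _ _ => by ext <;> simp,
    MonoidHom.mk' (fun k => ⟨P k, fun v => a ^ ((v.1 + k.toAdd) / d)⟩) fun k l => ?_, Wr.amen hA,
    fun a b e => congrFun (congrArg Wr.f e) ⟨0, le_rfl, abs_pos.2 hm⟩, ?_⟩
  · refine Wr.ext (map_mul P k l) (funext fun v => ?_)
    simp only [Wr.mul_f, hP, toAdd_mul, ← zpow_add]
    rw [← Int.add_mul_ediv_right _ _ hm, Int.emod_def]; congr 2; ring
  · refine Wr.ext (Equiv.ext fun v => Subtype.ext ?_) (funext fun v => ?_)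
    · change (v.1 + d) % d = v.1
      rw [Int.add_emod_right]
      exact (Int.emod_abs _ _).symm.trans (Int.emod_eq_of_lt v.2.1 v.2.2)
    · change a ^ ((v.1 + d) / d) = a
      rw [show v.1 + d = v.1 + 1 * d by ring, Int.add_mul_ediv_right _ _ hm,
        Int.ediv_eq_zero_of_lt_abs v.2.1 v.2.2]; simp

def fs (B : Type) [Group B] : Subgroup (ℤ → B) where
  carrier := {f | ∃ N : ℕ, ∀ n : ℤ, (N : ℤ) ≤ |n| → f n = 1}
  one_mem' := ⟨0, fun _ _ => rfl⟩
  mul_mem' := by
    rintro a b ⟨N, h⟩ ⟨M, k⟩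
    exact ⟨N + M, fun n hn => by
      rw [Pi.mul_apply, h n (by push_cast at hn; omega), k n (by push_cast at hn; omega), one_mul]⟩
  inv_mem' := by
    rintro a ⟨N, h⟩
    exact ⟨N, fun n hn => by rw [Pi.inv_apply, h n hn, inv_one]⟩

theorem amen_fs {B : Type} [Group B] (h : Amen B) : Amen (fs B) := by
  classical
  refine amen_dir fun T => ?_
  choose N hN using fun f : fs B => f.2
  let M : ℤ := (T.sup N : ℕ)
  refine ⟨Set.Ioo (-M) M → B, inferInstance, MonoidHom.mk'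
    (fun g => ⟨fun n => if h : n ∈ Set.Ioo (-M) M then g ⟨n, h⟩ else 1, T.sup N,
      fun n hn => dif_neg fun h => absurd (abs_lt.2 h) (not_lt.2 hn)⟩) fun a b => ?_, h.pi _,
    fun f hf => ⟨fun n => f.1 n, Subtype.ext (funext fun n => ?_)⟩⟩
  · ext n
    simp only [Subgroup.coe_mul, Pi.mul_apply]
    split_ifs <;> simp
  · change (if h : _ then _ else _) = _
    split_ifs with h
    · rfl
    · refine (hN f n (le_trans ?_ (not_lt.1 fun k => h (abs_lt.1 k)))).symm
      simp only [M]; exact_mod_cast Finset.le_sup hf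

theorem conj1 {H : Type} [Group H] (hH : Amen H) (θ : H →* Multiplicative ℤ) (x y : H)
    (h1 : θ x = θ y) (h2 : θ x ≠ 1) : ∃ (E : Type) (_ : Group E) (ι : H →* E)
    (θ' : E →* Multiplicative ℤ), Amen E ∧ Function.Injective ι ∧ (∀ h, θ' (ι h) = θ h) ∧
      IsConj (ι x) (ι y) := by
  obtain ⟨B1, _, j1, l1, a1, a2, a3⟩ := root hH x _ h2
  obtain ⟨B, _, j2, η, b1, b2, b3⟩ := root a1 (j1 y) _ h2
  let ξ := j2.comp l1
  let S : Subgroup (Wr ℤ B × (Multiplicative ℤ × Multiplicative ℤ)) :=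
    { carrier := {z | (∀ n, z.1.p n = n + z.2.1.toAdd) ∧ ∃ N : ℕ, ∀ n : ℤ,
        ((N : ℤ) ≤ n → z.1.f n = ξ z.2.2) ∧ (n ≤ -N → z.1.f n = η z.2.2)}
      one_mem' := ⟨by simp, 0, by simp⟩
      mul_mem' := by
        rintro a b ⟨p, N, h⟩ ⟨q, M, k⟩
        refine ⟨fun n => by simp [p, q]; ring, N + M + b.2.1.toAdd.natAbs, fun n => ⟨fun hn => ?_,
          fun hn => ?_⟩⟩
        · rw [Prod.fst_mul, Wr.mul_f, (h _).1 (by rw [q]; omega), (k _).1 (by omega), ← map_mul]; rfl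
        · rw [Prod.fst_mul, Wr.mul_f, (h _).2 (by rw [q]; omega), (k _).2 (by omega), ← map_mul]; rfl
      inv_mem' := by
        rintro a ⟨p, N, h⟩
        have q : ∀ n, a.1.p⁻¹ n = n - a.2.1.toAdd := fun n => by
          rw [Equiv.Perm.inv_eq_iff_eq, p]; ring
        refine ⟨fun n => by simp [q, sub_eq_add_neg], N + a.2.1.toAdd.natAbs,
          fun n => ⟨fun hn => ?_, fun hn => ?_⟩⟩
        · rw [Prod.fst_inv, Wr.inv_f, (h _).1 (by rw [q]; omega), ← map_inv]; rfl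
        · rw [Prod.fst_inv, Wr.inv_f, (h _).2 (by rw [q]; omega), ← map_inv]; rfl }
  let ι : H →* S := MonoidHom.mk' (fun h => ⟨(⟨1, fun n => if n < 0 then η (θ h) else
      if n = 0 then j2 (j1 h) else ξ (θ h)⟩, (1, θ h)), by simp, 1, fun n => ⟨fun hn => by
        simp only; rw [if_neg (by omega), if_neg (by omega)], fun hn => by
        simp only; rw [if_pos (by omega)]⟩⟩) fun a b => by
    refine Subtype.ext (Prod.ext (Wr.ext (by simp) (funext fun n => ?_)) (by simp))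
    simp only [Subgroup.coe_mul, Prod.fst_mul, Wr.mul_f, Equiv.Perm.one_apply, map_mul]
    split_ifs <;> rfl
  refine ⟨S, inferInstance, ι, (MonoidHom.snd _ _).comp ((MonoidHom.snd _ _).comp S.subtype),
    Wr.amen_sub S (fs B) (fun s hs e => ?_) (amen_fs b1) (amen_comm _), fun a b e => a2 (b2 ?_),
    fun _ => rfl, ?_⟩
  · obtain ⟨p, N, h⟩ := hs
    refine ⟨Equiv.ext fun n => by simp [p, e], N, fun n hn => ?_⟩
    rcases le_abs.1 hn with hn | hn
    · rw [(h n).1 hn, e]; simp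
    · rw [(h n).2 (by omega), e]; simp
  · simpa [ι] using congrArg (fun s : S => s.1.1.f 0) e
  · refine isConj_iff.2 ⟨⟨(⟨Equiv.addRight 1, 1⟩, (Multiplicative.ofAdd 1, 1)), by simp, 0,
      by simp⟩, ?_⟩
    rw [mul_inv_eq_iff_eq_mul]
    refine Subtype.ext (Prod.ext (Wr.ext (by simp [ι]) (funext fun n => ?_)) (by simp [ι, h1]))
    simp only [ι, MonoidHom.mk'_apply, Subgroup.coe_mul, Prod.fst_mul, Wr.mul_f, Pi.one_apply,
      one_mul, mul_one, Equiv.coe_addRight, ← h1, b3, ξ, MonoidHom.comp_apply, a3]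
    split_ifs <;> first | rfl | omega

theorem conjAll {H : Type} [Group H] (hH : Amen H) (θ : H →* Multiplicative ℤ) (S : Set (H × H))
    (hS : S.Finite) (h : ∀ p ∈ S, p.1 = p.2 ∨ (θ p.1 = θ p.2 ∧ θ p.1 ≠ 1)) :
    ∃ (E : Type) (_ : Group E) (ι : H →* E) (θ' : E →* Multiplicative ℤ), Amen E ∧
      Function.Injective ι ∧ (∀ h, θ' (ι h) = θ h) ∧ ∀ p ∈ S, IsConj (ι p.1) (ι p.2) := by
  induction S, hS using Set.Finite.induction_on with
  | empty => exact ⟨H, inferInstance, MonoidHom.id _, θ, hH, fun _ _ h => h, fun _ => rfl, by simp⟩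
  | @insert p S _ _ ih =>
    obtain ⟨E, _, ι, θ', a1, a2, a3, a4⟩ := ih fun p hp => h p (Or.inr hp)
    rcases h p (Or.inl rfl) with e | ⟨e1, e2⟩
    · refine ⟨E, inferInstance, ι, θ', a1, a2, a3, ?_⟩
      rintro _ (rfl | hq)
      · rw [e]
      · exact a4 _ hq
    · obtain ⟨E', _, ι', θ'', b1, b2, b3, b4⟩ := conj1 a1 θ' (ι p.1) (ι p.2)
        (by rw [a3, a3, e1]) (by rwa [a3])
      refine ⟨E', inferInstance, ι'.comp ι, θ'', b1, b2.comp a2, fun h => (b3 _).trans (a3 _), ?_⟩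
      rintro _ (rfl | hq)
      · exact b4
      · exact ι'.map_isConj (a4 _ hq)

theorem Core.lift2 {G0 : Type} [Group G0] {G : Bool → Type} [∀ i, Group (G i)] {φ : ∀ i, G0 →* G i}
    {N : ∀ i, Subgroup (G i)} {c : G0} (K : Core φ N c) {E : Type} [Group E]
    (f : ∀ i, K.X → N i →* E) (h2 : ∀ i g x, f i (K.ρ i g x) = f i x) (hu : ∀ i x, K.u i x ∈ N i)
    (h3 : ∀ x, IsConj (f true x ⟨_, hu true x⟩) (f false x ⟨_, hu false x⟩)) :
    ∃ π : PushoutI φ →* Wr K.X E, ∀ i g, π (PushoutI.of i g) = 1 →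
      K.ρ i g = 1 ∧ ∀ x, f i x ⟨K.κ i g x, K.mem i g x⟩ = 1 := by
  have hB : ∀ a b : E, ∃ t : E, IsConj a b → t * a * t⁻¹ = b := fun a b => by
    by_cases h : IsConj a b
    · exact ⟨(isConj_iff.1 h).choose, fun _ => (isConj_iff.1 h).choose_spec⟩
    · exact ⟨1, fun k => absurd k h⟩
  choose B hB using hB
  let b : Bool → K.X → E := fun i x =>
    cond i (B (f true x ⟨_, hu true x⟩) (f false x ⟨_, hu false x⟩)) 1
  let ν : ∀ i, G i →* Wr K.X E := fun i => MonoidHom.mk'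
    (fun g => ⟨K.ρ i g, fun x => b i (K.ρ i g x) * f i x ⟨K.κ i g x, K.mem i g x⟩ * (b i x)⁻¹⟩)
    fun g h => Wr.ext (map_mul _ _ _) (funext fun x => by
      have : (⟨K.κ i (g * h) x, K.mem i _ x⟩ : N i) =
        ⟨K.κ i g (K.ρ i h x), K.mem i _ _⟩ * ⟨K.κ i h x, K.mem i _ _⟩ := Subtype.ext (K.κ_mul _ _ _ _)
      simp only [Wr.mul_f, this, map_mul, h2, Equiv.Perm.mul_apply]; group)
  have ag : ∀ i, (ν i).comp (φ i) = (ν false).comp (φ false) := by
    intro i
    cases i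
    · rfl
    ext h : 1
    refine Wr.ext (K.agree false h).symm (funext fun x => ?_)
    have e : ∀ i, (⟨K.κ i (φ i h) x, K.mem i _ x⟩ : N i) = ⟨_, hu i x⟩ ^ K.n h x := fun i =>
      Subtype.ext (K.coc i h x)
    have e1 : ∀ i, K.u i (K.ρ true (φ true h) x) = K.u i x := fun i => by
      have := K.cst (!i) (φ (!i) h) x
      rw [K.agree] at this
      cases i <;> exact congrArg (fun t => t⁻¹ * _ * t) this
    have e2 : f false (K.ρ true (φ true h) x) = f false x := by rw [← K.agree false, h2]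
    change b true _ * f true x ⟨K.κ true (φ true h) x, _⟩ * _ =
      1 * f false x ⟨K.κ false (φ false h) x, _⟩ * 1⁻¹
    rw [e, e, map_zpow, map_zpow, ← hB _ _ (h3 x), conj_zpow]
    simp only [b, cond_true, e1, e2, h2, one_mul, inv_one, mul_one]
  refine ⟨PushoutI.lift ν _ ag, fun i g hg => ?_⟩
  rw [PushoutI.lift_of] at hg
  have e : K.ρ i g = 1 := congrArg Wr.p hg
  refine ⟨e, fun x => ?_⟩
  have : b i (K.ρ i g x) * f i x ⟨K.κ i g x, K.mem i g x⟩ * (b i x)⁻¹ = 1 :=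
    congrFun (congrArg Wr.f hg) x
  generalize f i x ⟨K.κ i g x, K.mem i g x⟩ = z at this
  rw [e] at this
  simpa using this

theorem avoid2 {Γ : Type} [Group Γ] (V : Set Γ) (hV : V.Finite)
    (hψ : ∀ v ∈ V, ∃ ψ : Γ →* Multiplicative ℤ, ψ v ≠ 1) :
    ∃ χ : Γ →* Multiplicative ℤ, ∀ v ∈ V, χ v ≠ 1 := by
  induction V, hV using Set.Finite.induction_on with
  | empty => exact ⟨1, by simp⟩
  | @insert v V _ hV ih =>
    obtain ⟨χ, h3⟩ := ih fun v hv => hψ v (Or.inr hv)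
    obtain ⟨ψ, h4⟩ := hψ v (Or.inl rfl)
    obtain ⟨B, hB⟩ := ((hV.insert v).image fun w => (ψ w).toAdd.natAbs).bddAbove
    refine ⟨χ ^ (B + 1) * ψ, fun w hw e => ?_⟩
    have e' : ((B + 1 : ℕ) : ℤ) * (χ w).toAdd + (ψ w).toAdd = 0 := by
      simpa using congrArg Multiplicative.toAdd e
    have hb : (ψ w).toAdd.natAbs ≤ B := hB ⟨w, hw, rfl⟩
    have h0 : (χ w).toAdd = 0 := by
      by_contra h0
      have : (ψ w).toAdd.natAbs = (B + 1) * (χ w).toAdd.natAbs := by
        rw [← Int.natAbs_neg, ← eq_neg_of_add_eq_zero_left e', Int.natAbs_mul, Int.natAbs_natCast]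
      have h5 : 0 < (χ w).toAdd.natAbs := Int.natAbs_pos.2 h0
      nlinarith
    rcases hw with rfl | hw
    · rw [h0, mul_zero, zero_add] at e'
      exact h4 e'
    · exact h3 w hw h0

variable {G0 : Type} [Group G0] {G : Bool → Type} [∀ i, Group (G i)] (φ : ∀ i, G0 →* G i)

theorem prep3 (hφ : ∀ i, Function.Injective (φ i)) (hc : VirtCyc G0)
    (hr : ∀ i, VirtRetract (φ i).range) :
    ∃ (c : G0) (N : ∀ i, Subgroup (G i)), (∀ i, (N i).Normal ∧ (N i).FiniteIndex ∧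
      (N i).comap (φ i) = Subgroup.zpowers c) ∧
      (c = 1 ∨ ∀ i, ∃ ψ, IsCh (N i) ψ ∧ ψ (φ i c) ≠ 0) := by
  cases finite_or_infinite G0
  · choose K k1 k2 r k3 using hr
    haveI : ∀ i, Finite (φ i).range := fun i =>
      Finite.of_surjective _ (φ i).rangeRestrict_surjective
    haveI : ∀ i, ((r i).ker.map (K i).subtype).FiniteIndex := fun i => ⟨by
      rw [Subgroup.index_map_subtype]
      exact mul_ne_zero Subgroup.FiniteIndex.index_ne_zero (k1 i).index_ne_zero⟩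
    refine ⟨1, fun i => ((r i).ker.map (K i).subtype).normalCore, fun i => ⟨inferInstance,
      inferInstance, ?_⟩, Or.inl rfl⟩
    rw [Subgroup.zpowers_one_eq_bot, eq_bot_iff]
    intro g hg
    obtain ⟨a, ha, e⟩ := Subgroup.normalCore_le _ hg
    have e1 := k3 i ⟨φ i g, g, rfl⟩
    have : a = ⟨φ i g, k2 i ⟨g, rfl⟩⟩ := Subtype.ext e
    rw [← this, MonoidHom.mem_ker.1 ha] at e1
    exact hφ i ((congrArg Subtype.val e1).symm.trans (map_one _).symm)
  · obtain ⟨c, N, -, h⟩ := prep2 φ hφ (fun i => wv_of _ (hφ i) hc (hr i)) fun _ => ⊤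
    exact ⟨c, N, fun i => ⟨(h i).1, (h i).2.1, (h i).2.2.1⟩, Or.inr fun i => (h i).2.2.2.2⟩

theorem ram_key (hφ : ∀ i, Function.Injective (φ i)) (hc : VirtCyc G0)
    (hr : ∀ i, VirtRetract (φ i).range) {A : Type} [Group A] (hA : Amen A) (q : ∀ i, G i →* A) :
    ∃ (E : Type) (_ : Group E) (π : PushoutI φ →* E), Amen E ∧
      (∀ i a, π (PushoutI.of i a) = 1 → q i a = 1) ∧ ∀ h, π (PushoutI.base φ h) = 1 → h = 1 := by
  obtain ⟨c, N, hN, h0⟩ := prep3 φ hφ hc hr
  choose n1 n2 n3 using hN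
  obtain ⟨K⟩ := core_ex φ N c n3
  haveI := K.fin
  have hcN : ∀ i, φ i c ∈ N i := fun i => (n3 i).ge (Subgroup.mem_zpowers c)
  have hu : ∀ i x, K.u i x ∈ N i := fun i x => (n1 i).conj_mem' _ (hcN i) _
  obtain ⟨χ, hχ⟩ : ∃ χ : ∀ i, N i →* Multiplicative ℤ,
      c = 1 ∨ ∀ i x, (χ i ⟨_, hu i x⟩).toAdd ≠ 0 := by
    rcases h0 with h0 | h0
    · exact ⟨fun _ => 1, Or.inl h0⟩
    choose ψ n5 n6 using h0
    choose χ c3 using fun i => avoid2
      (Set.range fun x : K.X => (⟨K.u i x, hu i x⟩ : N i)) (Set.finite_range _) (by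
      rintro _ ⟨x, rfl⟩
      refine ⟨((n5 i).hom (N i) le_rfl).comp (MulAut.conjNormal (K.τ i x)).toMonoidHom,
        fun e => n6 i ?_⟩
      have : ψ i (K.τ i x * K.u i x * (K.τ i x)⁻¹) = 0 := e
      simpa [Core.u, mul_assoc] using this)
    exact ⟨χ, Or.inr fun i x => c3 i _ ⟨x, rfl⟩⟩
  let f : ∀ i, K.X → N i →* A × Multiplicative ℤ := fun i x =>
    ((q i).comp (N i).subtype).prod (χ i ^ (χ (!i) ⟨_, hu (!i) x⟩).toAdd)
  obtain ⟨E, _, ι, -, a1, a2, -, a4⟩ := conjAll (hA.prod amen_int) (MonoidHom.snd _ _)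
    (Set.range fun x => (f true x ⟨_, hu true x⟩, f false x ⟨_, hu false x⟩)) (Set.finite_range _)
    (by
      rintro _ ⟨x, rfl⟩
      rcases hχ with h | h
      · have : ∀ i, (⟨_, hu i x⟩ : N i) = 1 := fun i => Subtype.ext (by simp [Core.u, h])
        left; simp only [this, map_one]
      · refine Or.inr ⟨Multiplicative.toAdd.injective ?_, fun e => ?_⟩
        · simp [f]
          exact mul_comm _ _
        · have := congrArg Multiplicative.toAdd e
          simp [f] at this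
          exact this.elim (h false x) (h true x))
  obtain ⟨π, hπ⟩ := K.lift2 (fun i x => ι.comp (f i x))
    (fun i g x => by simp only [f, Core.u, K.cst]) hu fun x => a4 _ ⟨x, rfl⟩
  refine ⟨_, inferInstance, π, Wr.amen a1, fun i a ha => ?_, fun h hh => ?_⟩
  · obtain ⟨e1, e2⟩ := hπ i a ha
    have : q i (K.κ i a K.x0) = 1 := congrArg Prod.fst (a2 ((e2 K.x0).trans (map_one ι).symm))
    rw [Core.κ, e1] at this
    simpa [mul_assoc, inv_mul_eq_one] using this
  · rw [← PushoutI.of_apply_eq_base φ true] at hh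
    obtain ⟨e1, e2⟩ := hπ _ _ hh
    rcases hχ with h0 | h0
    · have : h ∈ Subgroup.zpowers c := (n3 true).le ((K.fix true _ K.x0).1 (by rw [e1]; rfl))
      simpa [h0] using this
    · have e : (⟨K.κ true (φ true h) K.x0, K.mem _ _ _⟩ : N true) = ⟨_, hu true K.x0⟩ ^ K.n h K.x0 :=
        Subtype.ext (K.coc true h K.x0)
      have := congrArg (fun z => z.2.toAdd) (a2 ((e2 K.x0).trans (map_one ι).symm))
      rw [e] at this
      have hn : K.n h K.x0 = 0 := by
        simp [f] at this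
        exact (this.resolve_left (h0 false _)).resolve_right (h0 true _)
      have := K.coc true h K.x0
      rw [hn, zpow_zero, e1] at this
      exact hφ true (by simpa [mul_assoc, inv_mul_eq_one] using this)

end Pool.Agent.H69.Va
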