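import Pool.Agent.H69.Ram2

namespace Pool.Agent.H69.Va
open Monoid

variable {G0 : Type} [Group G0] {G : Bool → Type} [∀ i, Group (G i)] (φ : ∀ i, G0 →* G i)

def Sep (p : PushoutI φ) : Prop := ∃ (E : Type) (_ : Group E) (π : PushoutI φ →* E), Amen E ∧
  ∀ h, π p ≠ π (PushoutI.base φ h)

theorem sep_all (S : Set (PushoutI φ)) (hS : S.Finite) (h : ∀ p ∈ S, Sep φ p) :
    ∃ (E : Type) (_ : Group E) (π : PushoutI φ →* E), Amen E ∧
      ∀ p ∈ S, ∀ h, π p ≠ π (PushoutI.base φ h) := by
  induction S, hS using Set.Finite.induction_on with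
  | empty => exact ⟨_, inferInstance, 1, amen_int, by simp⟩
  | @insert p S _ _ ih =>
    obtain ⟨E, _, π, a1, a2⟩ := ih fun p hp => h p (Or.inr hp)
    obtain ⟨E', _, π', b1, b2⟩ := h p (Or.inl rfl)
    refine ⟨_, inferInstance, π.prod π', a1.prod b1, ?_⟩
    rintro _ (rfl | hq) k e
    · exact b2 k (congrArg Prod.snd e)
    · exact a2 _ hq k (congrArg Prod.fst e)

def pr (l : List (Σ i, G i)) : PushoutI φ := (l.map fun a => PushoutI.of a.1 a.2).prod

theorem sep_word (h1 : ∀ i g, g ∉ (φ i).range → Sep φ (PushoutI.of i g)) (n : ℕ) :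
    ∀ l : List (Σ i, G i), l.length = n → l ≠ [] → l.IsChain (fun a b => a.1 ≠ b.1) →
      (∀ a ∈ l, a.2 ∉ (φ a.1).range) → Sep φ (pr φ l) := by
  classical
  induction n using Nat.strong_induction_on with
  | _ n ih =>
  intro l hn h0 hc hr
  match l, hn, h0, hc, hr with
  | [a], _, _, _, hr => simpa [pr] using h1 a.1 a.2 (hr a (by simp))
  | a :: b :: v, hn, _, hc, hr =>
  obtain ⟨E, _, π, a1, a2⟩ := sep_all φ (insert (PushoutI.of a.1 a.2)
    (pr φ '' {w | w ∈ (b :: v).inits ∧ w ≠ []}))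
    ((((List.finite_toSet _).subset fun w hw => hw.1).image _).insert _) (by
      rintro _ (rfl | ⟨w, ⟨w1, w2⟩, rfl⟩)
      · exact h1 _ _ (hr a (by simp))
      · rw [List.mem_inits] at w1
        exact ih _ (by have := w1.length_le; simp at hn this; omega) w rfl w2 (by
          obtain ⟨t, ht⟩ := w1
          have := hc.tail
          rw [List.tail_cons, ← ht] at this
          exact this.left_of_append)
          fun x hx => hr x (List.mem_cons_of_mem _ (w1.subset hx)))
  let Y := E ⧸ (π.comp (PushoutI.base φ)).range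
  let e0 : Y := ((1 : E) : E ⧸ (π.comp (PushoutI.base φ)).range)
  have hfix : ∀ g : E, g • e0 = e0 ↔ ∃ h, π (PushoutI.base φ h) = g := fun g => by
    change ((g * 1 : E) : E ⧸ (π.comp (PushoutI.base φ)).range) = _ ↔ _
    rw [eq_comm, QuotientGroup.eq]; simp
  let I : Y → Multiplicative ℤ := fun y => if y = e0 then Multiplicative.ofAdd 1 else 1
  let ν : Bool → PushoutI φ →* Wr Y (Multiplicative ℤ) := fun i => MonoidHom.mk'
    (fun g => ⟨MulAction.toPerm (π g), fun y => cond i 1 (I (π g • y) / I y)⟩) fun g h => by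
      refine Wr.ext (by ext; simp [mul_smul]) (funext fun y => ?_)
      cases i <;> simp [mul_smul]
  have ag : ∀ i, ((ν i).comp (PushoutI.of i)).comp (φ i) = (ν true).comp (PushoutI.base φ) := by
    intro i
    rw [MonoidHom.comp_assoc, PushoutI.of_comp_eq_base]
    cases i
    · ext h : 1
      refine Wr.ext rfl (funext fun y => ?_)
      change I (π (PushoutI.base φ h) • y) / I y = 1
      have : π (PushoutI.base φ h) • y = e0 ↔ y = e0 := by
        conv_lhs => rw [← (hfix _).2 ⟨h, rfl⟩]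
        exact smul_left_cancel_iff _
      simp [I, this]
    · rfl
  let Θ := PushoutI.lift _ _ ag
  have t1 : ∀ i g, Θ (PushoutI.of i g) = ν i (PushoutI.of i g) := fun i g =>
    PushoutI.lift_of _ _ _ _
  have t2 : ∀ p y, (Θ p).p y = π p • y := by
    intro p
    induction p using PushoutI.induction_on with
    | of i g => intro y; rw [t1]; rfl
    | base h => intro y; rw [← PushoutI.of_apply_eq_base φ true, t1]; rfl
    | mul p q hp hq => intro y; simp [hp, hq, mul_smul]
  have t3 : ∀ (a : Σ i, G i) w y, (Θ (pr φ (a :: w))).f y =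
      cond a.1 1 (I (π (pr φ (a :: w)) • y) / I (π (pr φ w) • y)) * (Θ (pr φ w)).f y := by
    intro a w y
    have : pr φ (a :: w) = PushoutI.of a.1 a.2 * pr φ w := by simp [pr]
    rw [this, map_mul, Wr.mul_f, t2, t1, map_mul, mul_smul]; rfl
  have Z : ∀ w y, (∀ k, π (pr φ (List.drop k w)) • y ≠ e0) → (Θ (pr φ w)).f y = 1 := by
    intro w y
    induction w with
    | nil => simp [pr]
    | cons a w ih =>
      intro h
      have e1 := h 0
      have e2 := h 1
      simp only [List.drop_zero, List.drop_succ_cons] at e1 e2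
      rw [t3, ih fun k => h (k + 1)]
      simp [I, e1, e2]
  refine ⟨(Θ.prod π).range, inferInstance, (Θ.prod π).rangeRestrict,
    Wr.amen_sub _ ⊤ ?_ ((amen_comm _).of_inj (Subgroup.subtype _) Subtype.val_injective) a1,
    fun h e => ?_⟩
  · rintro _ ⟨p, rfl⟩ e
    refine ⟨Equiv.ext fun y => ?_, trivial⟩
    have e : π p = 1 := e
    change (Θ p).p y = y
    rw [t2, e, one_smul]
  have e : (Θ (pr φ (a :: b :: v))).f ((π (pr φ (b :: v)))⁻¹ • e0) = 1 := by
    rw [show Θ (pr φ (a :: b :: v)) = Θ (PushoutI.base φ h) from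
      congrArg (fun z => z.1.1) e, ← PushoutI.of_apply_eq_base φ true, t1]; rfl
  have k1 : ∀ k, π (pr φ (List.drop k v)) • (π (pr φ (b :: v)))⁻¹ • e0 ≠ e0 := fun k e => by
    obtain ⟨h, hh⟩ := (hfix _).1 ((mul_smul _ _ _).trans e)
    refine a2 _ (Or.inr ⟨(b :: v).take (k + 1), ⟨(List.mem_inits _ _).2 ⟨_, List.take_append_drop _ _⟩,
      by simp⟩, rfl⟩) h⁻¹ ?_
    have : pr φ (b :: v) = pr φ ((b :: v).take (k + 1)) * pr φ (List.drop k v) := by
      conv_lhs => rw [← List.take_append_drop (k + 1) (b :: v)]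
      simp only [pr, List.map_append, List.prod_append, List.drop_succ_cons]
    rw [map_inv, map_inv, hh, this]; simp
  have k2 : π (pr φ (a :: b :: v)) • (π (pr φ (b :: v)))⁻¹ • e0 ≠ e0 := fun e => by
    obtain ⟨h, hh⟩ := (hfix _).1 ((mul_smul _ _ _).trans e)
    refine a2 _ (Or.inl rfl) h ?_
    rw [hh]; simp [pr, mul_assoc]
  have k3 := k1 0
  rw [List.drop_zero] at k3
  rw [t3, t3, Z v _ k1, smul_inv_smul] at e
  have hab : a.1 ≠ b.1 := (List.isChain_cons_cons.1 hc).1
  simp only [I, if_neg k2, if_neg k3, if_true] at e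
  revert e hab
  cases a.1 <;> cases b.1 <;> decide

theorem ram_main (hφ : ∀ i, Function.Injective (φ i)) (hc : VirtCyc G0)
    (hr : ∀ i, VirtRetract (φ i).range) (hG : ∀ i, ResAmen (G i)) : ResAmen (PushoutI φ) := by
  classical
  obtain ⟨E0, _, π0, a1, -, a2⟩ := ram_key φ hφ hc hr amen_int fun _ => 1
  have h1 : ∀ i g, g ∉ (φ i).range → Sep φ (PushoutI.of i g) := fun i g hg => by
    by_cases h : ∃ h, π0 (PushoutI.of i g) = π0 (PushoutI.base φ h)
    · obtain ⟨h, e⟩ := h
      obtain ⟨A, _, ψ, b1, b2⟩ := hG i ((φ i h)⁻¹ * g) fun e => hg ⟨h, inv_mul_eq_one.1 e⟩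
      obtain ⟨E, _, π, c1, c2, -⟩ := ram_key φ hφ hc hr b1 (Function.update (fun _ => 1) i ψ)
      refine ⟨_, inferInstance, π0.prod π, a1.prod c1, fun k ek => b2 ?_⟩
      have e1 : π0 (PushoutI.of i g) = π0 (PushoutI.base φ k) := congrArg Prod.fst ek
      have e2 : π (PushoutI.of i g) = π (PushoutI.base φ k) := congrArg Prod.snd ek
      have := a2 (h⁻¹ * k) (by rw [map_mul, map_mul, ← e1, map_inv, map_inv, ← e, inv_mul_cancel])
      obtain rfl := inv_mul_eq_one.1 this
      have := c2 i ((φ i h)⁻¹ * g) (by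
        rw [map_mul, map_mul, e2, map_inv, PushoutI.of_apply_eq_base, map_inv, inv_mul_cancel])
      rwa [Function.update_self] at this
    · exact ⟨E0, inferInstance, π0, a1, not_exists.1 h⟩
  intro p hp
  obtain ⟨d⟩ := PushoutI.NormalWord.transversal_nonempty φ hφ
  obtain ⟨w, rfl⟩ := (PushoutI.NormalWord.equiv (d := d)).symm.surjective p
  have e : PushoutI.NormalWord.equiv.symm w = PushoutI.base φ w.head * pr φ w.toList := by
    change w.prod = _
    simp [PushoutI.NormalWord.prod, CoprodI.Word.prod, pr, map_list_prod, Function.comp_def]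
  rw [e] at hp ⊢
  by_cases h0 : w.toList = []
  · refine ⟨E0, inferInstance, π0, a1, fun h => hp ?_⟩
    simp only [h0, pr, List.map_nil, List.prod_nil, mul_one] at h ⊢
    rw [a2 _ h, map_one]
  · obtain ⟨E, _, π, c1, c2⟩ := sep_word φ h1 _ _ rfl h0 w.chain_ne fun a ha hm => w.ne_one a ha (by
      have := (d.compl a.1).1 (a₁ := (⟨_, hm⟩, ⟨1, d.one_mem _⟩))
        (a₂ := (1, ⟨_, w.normalized a.1 a.2 ha⟩)) (by simp)
      exact congrArg (fun z => z.1.1) this)
    refine ⟨E, inferInstance, π, c1, fun h => c2 w.head⁻¹ ?_⟩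
    rw [map_mul] at h
    rw [map_inv, map_inv, eq_inv_of_mul_eq_one_right h]

end Pool.Agent.H69.Va
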