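import Pool.Agent.H69.VaDefs

namespace Pool.Agent.H69.Va

/-- bounded real function -/
def Bdd {X : Type} (f : X → ℝ) : Prop := ∃ C : ℝ, ∀ x, |f x| ≤ C

/-- a mean: a positive normalized linear functional on the bounded real functions (its values on
unbounded functions play no role) -/
def IsMean {X : Type} (m : (X → ℝ) → ℝ) : Prop :=
  (∀ f g, Bdd f → Bdd g → m (f + g) = m f + m g) ∧ (∀ (c : ℝ) f, Bdd f → m (c • f) = c * m f) ∧
    (∀ f, Bdd f → (∀ x, 0 ≤ f x) → 0 ≤ m f) ∧ m 1 = 1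

/-- a discrete group is amenable if it has a left-invariant mean -/
def Amen (G : Type) [Group G] : Prop :=
  ∃ m : (G → ℝ) → ℝ, IsMean m ∧ ∀ (g : G) (f : G → ℝ), Bdd f → m (fun x => f (g * x)) = m f

/-- residually amenable -/
def ResAmen (G : Type) [Group G] : Prop :=
  ∀ g : G, g ≠ 1 → ∃ (A : Type) (_ : Group A) (φ : G →* A), Amen A ∧ φ g ≠ 1

end Pool.Agent.H69.Va
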