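import Mathlib
import Pool.Agent.H69.FreeTree

namespace Pool.Agent.H69.RapidExp

open Pool.Agent.H69.FreeTree
open scoped Pointwise

abbrev G := FreeGroup Bool

def deg (g : G) : ℤ := (FreeGroup.lift (fun _ => Multiplicative.ofAdd (1 : ℤ)) g).toAdd

theorem deg_mul (g h : G) : deg (g * h) = deg g + deg h := by simp [deg]

theorem deg_inv (g : G) : deg g⁻¹ = - deg g := by simp [deg]

theorem deg_one : deg 1 = 0 := by simp [deg]

theorem deg_of (b : Bool) : deg (FreeGroup.of b) = 1 := by simp [deg]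

theorem deg_lt (u : Bool × Bool) : deg (lt u) ≤ 1 := by
  obtain ⟨a, b⟩ := u
  cases b <;> simp [deg, lt]

theorem deg_le (g : G) : deg g ≤ nm g := by
  induction hn : nm g generalizing g with
  | zero => rw [nm_eq_zero] at hn; simp [hn, deg_one]
  | succ n ih =>
    obtain ⟨u, hu⟩ := first (y := g) (by rintro rfl; simp at hn)
    have := ih ((lt u)⁻¹ * g) (by omega)
    rw [deg_mul, deg_inv] at this
    have := deg_lt u
    omega

noncomputable def cnt (g : G) (c : ℤ) : ℕ := {p | On p g ∧ deg p = c}.ncard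

theorem fin (g : G) (c : ℤ) : {p | On p g ∧ deg p = c}.Finite :=
  (on_finite g).subset (fun _ h => h.1)

noncomputable def N (g : G) : ℕ := ⨆ c, cnt g c

theorem cnt_le (g : G) (c : ℤ) : cnt g c ≤ N g :=
  le_ciSup (f := cnt g) ⟨{p | On p g}.ncard, by
    rintro _ ⟨c, rfl⟩
    exact Set.ncard_le_ncard (fun _ h => h.1) (on_finite g)⟩ c

theorem N_mul (g h : G) : N (g * h) ≤ N g + N h := by
  refine ciSup_le (fun c => ?_)
  refine le_trans ?_ (add_le_add (cnt_le g c) (cnt_le h (c - deg g)))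
  unfold cnt
  rw [← Set.ncard_image_of_injective {p | On p h ∧ deg p = c - deg g} (mul_right_injective g)]
  refine le_trans (Set.ncard_le_ncard ?_ ((fin _ _).union ((fin _ _).image _)))
    (Set.ncard_union_le _ _)
  rintro p ⟨h1, h2⟩
  rcases split g h1 with a | a
  · exact Or.inl ⟨a, h2⟩
  · refine Or.inr ⟨g⁻¹ * p, ⟨a, ?_⟩, by simp⟩
    rw [deg_mul, deg_inv]
    omega

theorem N_inv_le (g : G) : N g⁻¹ ≤ N g := by
  refine ciSup_le (fun c => ?_)
  refine le_trans ?_ (cnt_le g (c + deg g))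
  refine Set.ncard_le_ncard_of_injOn (fun p => g * p) ?_ (mul_right_injective g).injOn (fin _ _)
  rintro p ⟨h1, h2⟩
  refine ⟨by simpa using h1.rev, ?_⟩
  rw [deg_mul]
  omega

theorem N_inv (g : G) : N g⁻¹ = N g :=
  le_antisymm (N_inv_le g) (by simpa using N_inv_le g⁻¹)

theorem N_mono {p g : G} (h : On p g) : N p ≤ N g := by
  refine ciSup_le (fun c => le_trans ?_ (cnt_le g c))
  exact Set.ncard_le_ncard (fun q hq => ⟨hq.1.trans h, hq.2⟩) (fin _ _)

theorem N_pos {g : G} (h : deg g = nm g) : N g ≤ 1 := by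
  refine ciSup_le (fun c => ?_)
  have k : ∀ p, On p g → deg p = nm p := by
    intro p hp
    have e1 := deg_le p
    have e2 := deg_le (p⁻¹ * g)
    rw [deg_mul, deg_inv] at e2
    unfold On at hp
    omega
  unfold cnt
  rw [Set.ncard_le_one (fin _ _)]
  rintro p ⟨a1, a2⟩ q ⟨b1, b2⟩
  have := k p a1
  have := k q b1
  exact On.eq a1 b1 (by omega)

noncomputable def L0 (g : G) : ℝ := if g = 1 then 0 else (|deg g| : ℤ) + (N g : ℝ)

noncomputable def L (g : G) : ℝ := L0 g + Real.log (1 + nm g)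

theorem L0_nonneg (g : G) : 0 ≤ L0 g := by
  unfold L0
  split_ifs <;> positivity

theorem lg_nonneg (g : G) : 0 ≤ Real.log (1 + nm g) :=
  Real.log_nonneg (by simp)

theorem L_nonneg (g : G) : 0 ≤ L g := add_nonneg (L0_nonneg g) (lg_nonneg g)

theorem L_one : L 1 = 0 := by simp [L, L0]

theorem L_inv (g : G) : L g⁻¹ = L g := by simp [L, L0, N_inv, deg_inv]

theorem L0_mul (g h : G) : L0 (g * h) ≤ L0 g + L0 h := by
  by_cases h1 : g = 1
  · simp [h1, L0]
  by_cases h2 : h = 1
  · simp [h2, L0]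
  by_cases h3 : g * h = 1
  · have := add_nonneg (L0_nonneg g) (L0_nonneg h)
    simpa [h3, L0] using this
  simp only [L0, h1, h2, h3, if_false]
  have e1 : (N (g * h) : ℝ) ≤ N g + N h := by exact_mod_cast N_mul g h
  have e2 : ((|deg (g * h)| : ℤ) : ℝ) ≤ (|deg g| : ℤ) + (|deg h| : ℤ) := by
    rw [deg_mul]
    exact_mod_cast abs_add_le _ _
  linarith

theorem L_mul (g h : G) : L (g * h) ≤ L g + L h := by
  have e1 := L0_mul g h
  have e2 : Real.log (1 + nm (g * h)) ≤ Real.log (1 + nm g) + Real.log (1 + nm h) := by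
    rw [← Real.log_mul (by positivity) (by positivity)]
    apply Real.log_le_log (by positivity)
    have : (nm (g * h) : ℝ) ≤ nm g + nm h := by exact_mod_cast nm_mul_le g h
    have : (0 : ℝ) ≤ nm g * nm h := by positivity
    nlinarith
  unfold L
  linarith

theorem L_proper (r : ℝ) : {g | L g ≤ r}.Finite := by
  refine (ball_finite ⌊Real.exp r⌋₊).subset (fun g hg => ?_)
  simp only [Set.mem_ofPred_eq] at hg ⊢
  apply Nat.le_floor
  have e1 : Real.log (1 + nm g) ≤ r := by
    have := L0_nonneg g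
    unfold L at hg
    linarith
  rw [Real.log_le_iff_le_exp (by positivity)] at e1
  linarith

theorem small {g : G} {r : ℝ} (h : L g ≤ r) : N g ≤ ⌊r⌋₊ + 1 ∧ |deg g| ≤ ⌊r⌋₊ := by
  by_cases h1 : g = 1
  · subst h1
    have := N_pos (g := 1) (by simp [deg_one])
    simp [deg_one]
    omega
  have e0 := lg_nonneg g
  simp only [L, L0, h1, if_false] at h
  have e1 : (0 : ℝ) ≤ (|deg g| : ℤ) := by positivity
  have e2 : (0 : ℝ) ≤ N g := by positivity
  have e3 : N g ≤ ⌊r⌋₊ := Nat.le_floor (by linarith)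
  have e4 : (deg g).natAbs ≤ ⌊r⌋₊ := Nat.le_floor (by
    rw [Nat.cast_natAbs]
    linarith)
  rw [Int.abs_eq_natAbs]
  omega

theorem re_nat (R : ℕ) (S X : Finset G) (hS : ∀ s ∈ S, N s ≤ R + 1 ∧ |deg s| ≤ R) :
    S.card * X.card ≤ 2 * ((2 * R + 2) * (2 * R + 1) * (S * X).card) := by
  classical
  rcases S.eq_empty_or_nonempty with rfl | hne
  · simp
  obtain ⟨v, ⟨z0, hz0, hv⟩, hc⟩ := centroid S⁻¹ hne.inv
  have hNv : N v ≤ R + 1 := by
    refine (N_mono hv).trans ?_
    rw [← N_inv]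
    exact (hS _ (by simpa using hz0)).1
  let P := (S ×ˢ X).filter (fun p => On (p.1 * v) (p.1 * p.2))
  have h1 : S.card * X.card ≤ 2 * P.card := by
    have e : P.card = ∑ x ∈ X, (S.filter (fun s => On (s * v) (s * x))).card := by
      simp only [P, Finset.card_filter, Finset.sum_product_right]
    rw [e, Finset.mul_sum, mul_comm, ← smul_eq_mul, ← Finset.sum_const]
    refine Finset.sum_le_sum (fun x _ => ?_)
    obtain ⟨Y, a1, a2, a3⟩ := hc x
    rw [Finset.card_inv] at a2
    refine a2.trans (Nat.mul_le_mul_left 2 ?_)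
    refine Finset.card_le_card_of_injOn (fun z => z⁻¹) (fun z hz => ?_) inv_injective.injOn
    simp only [Finset.coe_filter, Set.mem_ofPred_eq]
    exact ⟨by simpa using a1 hz, a3 z hz⟩
  refine h1.trans (Nat.mul_le_mul_left 2 ?_)
  refine Finset.card_le_mul_card_image_of_maps_to (f := fun p => p.1 * p.2) (fun p hp => ?_) _
    (fun y _ => ?_)
  · have := Finset.mem_product.1 (Finset.mem_filter.1 hp).1
    exact Finset.mul_mem_mul this.1 this.2
  rcases (P.filter (fun p => p.1 * p.2 = y)).eq_empty_or_nonempty with h | h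
  · simp [h]
  obtain ⟨p1, hp1, hmax⟩ := Finset.exists_max_image _ (fun p : G × G => nm (p.1 * v)) h
  have info : ∀ p ∈ P.filter (fun p => p.1 * p.2 = y), p.1 ∈ S ∧ On (p.1 * v) y ∧
      p.1 * p.2 = y := by
    intro p hp
    simp only [P, Finset.mem_filter, Finset.mem_product] at hp
    exact ⟨hp.1.1.1, hp.2 ▸ hp.1.2, hp.2⟩
  have hN1 : N (p1.1 * v) ≤ 2 * R + 2 := by
    have := N_mul p1.1 v
    have := (hS _ (info p1 hp1).1).1
    omega
  have hI : (Finset.Icc (-(R : ℤ)) R).card = 2 * R + 1 := by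
    simp
    omega
  rw [← hI]
  refine Finset.card_le_mul_card_image_of_maps_to (f := fun p => deg p.1) (fun p hp => ?_) _
    (fun c _ => ?_)
  · have := (hS _ (info p hp).1).2
    rw [Finset.mem_Icc, ← abs_le]
    exact this
  refine le_trans ?_ ((cnt_le _ (c + deg v)).trans hN1)
  unfold cnt
  rw [← Set.ncard_coe_finset]
  refine Set.ncard_le_ncard_of_injOn (fun p => p.1 * v) (fun p hp => ?_) ?_ (fin _ _)
  · rw [Finset.mem_coe, Finset.mem_filter] at hp
    refine ⟨(info p hp.1).2.1.comp (info p1 hp1).2.1 (hmax p hp.1), ?_⟩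
    rw [deg_mul, hp.2]
  · intro p hp q hq e
    rw [Finset.mem_coe, Finset.mem_filter] at hp hq
    have e1 : p.1 = q.1 := mul_right_cancel e
    have e2 := (info p hp.1).2.2.trans (info q hq.1).2.2.symm
    rw [e1] at e2
    exact Prod.ext e1 (mul_left_cancel e2)

theorem re (r : ℝ) (hr : 0 ≤ r) (S X : Finset G) (hS : ∀ s ∈ S, L s ≤ r) :
    (S.card : ℝ) * (X.card : ℝ) ≤ 8 * (1 + r) ^ 2 * ((S * X).card : ℝ) := by
  have h1 := re_nat ⌊r⌋₊ S X (fun s hs => small (hS s hs))
  have h2 : (S.card : ℝ) * X.card ≤ 2 * ((2 * ⌊r⌋₊ + 2) * (2 * ⌊r⌋₊ + 1) * (S * X).card) := by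
    exact_mod_cast h1
  refine h2.trans ?_
  have h3 := Nat.floor_le hr
  have h4 : ((2 : ℝ) * ⌊r⌋₊ + 2) * (2 * ⌊r⌋₊ + 1) ≤ (2 * r + 2) * (2 * r + 2) := by
    gcongr
    norm_num
  have h5 := mul_le_mul_of_nonneg_right h4 (Nat.cast_nonneg (α := ℝ) (S * X).card)
  nlinarith

def P : ℕ → Finset G
  | 0 => {1}
  | n + 1 => (P n).image (FreeGroup.of true * ·) ∪ (P n).image (FreeGroup.of false * ·)

theorem P_deg : ∀ n, ∀ g ∈ P n, deg g = n ∧ nm g = n
  | 0, g, hg => by
    simp only [P, Finset.mem_singleton] at hg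
    simp [hg, deg_one]
  | n + 1, g, hg => by
    have : ∃ b, ∃ h ∈ P n, FreeGroup.of b * h = g := by
      simp only [P, Finset.mem_union, Finset.mem_image] at hg
      rcases hg with h | h
      · exact ⟨_, h⟩
      · exact ⟨_, h⟩
    obtain ⟨b, h, h1, rfl⟩ := this
    obtain ⟨a1, a2⟩ := P_deg n h h1
    have e1 := deg_le (FreeGroup.of b * h)
    have e2 := nm_mul_le (FreeGroup.of b) h
    have e3 : nm (FreeGroup.of b) = 1 := FreeGroup.norm_of b
    rw [deg_mul, deg_of] at *
    omega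

theorem sum_P {M : Type*} [AddCommMonoid M] (n : ℕ) (f : G → M) :
    ∑ g ∈ P (n + 1), f g =
      ∑ g ∈ P n, f (FreeGroup.of true * g) + ∑ g ∈ P n, f (FreeGroup.of false * g) := by
  rw [P, Finset.sum_union, Finset.sum_image (mul_right_injective _).injOn,
    Finset.sum_image (mul_right_injective _).injOn]
  rw [Finset.disjoint_left]
  intro y h1 h2
  have hy : y ∈ P (n + 1) := Finset.mem_union_left _ h1
  obtain ⟨g, a1, a2⟩ := Finset.mem_image.1 h1
  obtain ⟨h, b1, b2⟩ := Finset.mem_image.1 h2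
  have e0 := (P_deg _ _ hy).2
  have e1 := (P_deg _ _ a1).2
  have e2 := (P_deg _ _ b1).2
  have := uniq (u := (true, true)) (u' := (false, true)) (y := y)
    (by
      rw [show (lt (true, true))⁻¹ * y = g by rw [← a2]; exact inv_mul_cancel_left _ _]
      omega)
    (by
      rw [show (lt (false, true))⁻¹ * y = h by rw [← b2]; exact inv_mul_cancel_left _ _]
      omega)
  simp at this

theorem card_P (n : ℕ) : (P n).card = 2 ^ n := by
  induction n with
  | zero => simp [P]
  | succ n ih =>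
    rw [Finset.card_eq_sum_ones, sum_P, ← Finset.card_eq_sum_ones, ih]
    ring

def rr (n : ℕ) (x : G) : ℕ := ∑ a ∈ P n, ∑ b ∈ P n, if a⁻¹ * b = x then 1 else 0

theorem rr_succ (n : ℕ) (x : G) : 2 * rr n x ≤ rr (n + 1) x := by
  unfold rr
  rw [sum_P]
  simp only [sum_P, Finset.sum_add_distrib, mul_inv_rev, mul_assoc, inv_mul_cancel_left]
  omega

theorem rr_pos (n : ℕ) (a b : G) (ha : a ∈ P n) (hb : b ∈ P n) : 1 ≤ rr n (a⁻¹ * b) := by
  unfold rr
  refine le_trans ?_ (Finset.single_le_sum (fun _ _ => Nat.zero_le _) ha)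
  refine le_trans ?_ (Finset.single_le_sum (fun _ _ => Nat.zero_le _) hb)
  simp

def E (n : ℕ) : ℕ := ∑ a ∈ P n, ∑ b ∈ P n, rr n (a⁻¹ * b)

theorem mem_succ (n : ℕ) (c : Bool) (a : G) (ha : a ∈ P n) : FreeGroup.of c * a ∈ P (n + 1) := by
  cases c
  · exact Finset.mem_union_right _ (Finset.mem_image_of_mem _ ha)
  · exact Finset.mem_union_left _ (Finset.mem_image_of_mem _ ha)

theorem E_succ (n : ℕ) : 4 * E n + 2 * 4 ^ n ≤ E (n + 1) := by
  have same : ∀ c, 2 * E n ≤ ∑ a ∈ P n, ∑ b ∈ P n,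
      rr (n + 1) ((FreeGroup.of c * a)⁻¹ * (FreeGroup.of c * b)) := by
    intro c
    simp only [E, Finset.mul_sum, mul_inv_rev, mul_assoc, inv_mul_cancel_left]
    exact Finset.sum_le_sum (fun a _ => Finset.sum_le_sum (fun b _ => rr_succ _ _))
  have diff : ∀ c d, 4 ^ n ≤ ∑ a ∈ P n, ∑ b ∈ P n,
      rr (n + 1) ((FreeGroup.of c * a)⁻¹ * (FreeGroup.of d * b)) := by
    intro c d
    refine le_trans ?_ (Finset.sum_le_sum (fun a ha => Finset.sum_le_sum (fun b hb =>
      rr_pos _ _ _ (mem_succ n c a ha) (mem_succ n d b hb))))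
    simp [card_P, ← mul_pow]
  rw [E.eq_1 (n + 1), sum_P]
  simp only [sum_P, Finset.sum_add_distrib]
  have := same true
  have := same false
  have := diff true false
  have := diff false true
  omega

theorem E_ge (n : ℕ) : n * 4 ^ n ≤ 2 * E n := by
  induction n with
  | zero => simp
  | succ n ih =>
    have := E_succ n
    rw [pow_succ]
    nlinarith

theorem asym (C : ℝ) (d : ℕ) : ∃ n : ℕ, (C * (1 + (2 + Real.log (1 + 2 * n))) ^ d) ^ 2 < n / 2 := by
  have h := Real.tendsto_pow_log_div_mul_add_atTop (1 / 2) (-1 / 2) (2 * d) (by norm_num)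
  have h2 : Filter.Tendsto (fun n : ℕ => (1 + 2 * n : ℝ)) Filter.atTop Filter.atTop :=
    Filter.tendsto_atTop_add_const_left _ _
      (tendsto_natCast_atTop_atTop.const_mul_atTop (by norm_num))
  have h3 := (h.comp h2).eventually
    (gt_mem_nhds (show (0 : ℝ) < 1 / (2 * (C ^ 2 + 1) * 2 ^ (2 * d)) by positivity))
  have h4 := (Real.tendsto_log_atTop.comp h2).eventually_ge_atTop 3
  obtain ⟨n, ⟨a1, a2⟩, a3⟩ := ((h3.and h4).and (Filter.eventually_gt_atTop 0)).exists
  refine ⟨n, ?_⟩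
  simp only [Function.comp] at a1 a2
  have hn : (0 : ℝ) < n := by exact_mod_cast a3
  rw [show 1 / 2 * (1 + 2 * (n : ℝ)) + -1 / 2 = n by ring,
    div_lt_div_iff₀ hn (by positivity)] at a1
  set l := Real.log (1 + 2 * n)
  have e1 : (1 + (2 + l)) ^ (2 * d) ≤ (2 * l) ^ (2 * d) := by
    gcongr
    linarith
  rw [mul_pow 2 l] at e1
  rw [mul_pow, ← pow_mul, mul_comm d 2]
  have e2 : (0 : ℝ) ≤ (1 + (2 + l)) ^ (2 * d) := by positivity
  nlinarith [sq_nonneg C]

theorem not_rd [inst : DecidableEq G] : ¬ ∃ C : ℝ, 0 < C ∧ ∃ d : ℕ, ∀ r : ℝ, 0 ≤ r →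
    ∀ (A B : Finset G) (f g : G → ℂ), (∀ y ∈ A, L y ≤ r) →
      ∑ x ∈ A * B, ‖∑ p ∈ (A ×ˢ B).filter (fun p => p.1 * p.2 = x), f p.1 * g p.2‖ ^ 2
        ≤ (C * (1 + r) ^ d) ^ 2 * (∑ y ∈ A, ‖f y‖ ^ 2) * (∑ z ∈ B, ‖g z‖ ^ 2) := by
  rintro ⟨C, -, d, h⟩
  obtain ⟨n, hn⟩ := asym C d
  let w : G := FreeGroup.of true ^ n
  have hw : deg w = n ∧ nm w = n := by
    refine P_deg n _ ?_
    simp only [w]
    clear hn w
    induction n with
    | zero => simp [P]
    | succ n ih => rw [pow_succ']; exact mem_succ _ _ _ ih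
  have i1 : Function.Injective (fun a : G => a⁻¹ * w) := fun a b e => by simpa using e
  have i2 : Function.Injective (fun a : G => w⁻¹ * a) := fun a b e => by simpa using e
  let A := (P n).image (fun a => a⁻¹ * w)
  let B := (P n).image (fun a => w⁻¹ * a)
  have hl : 0 ≤ Real.log (1 + 2 * n) := Real.log_nonneg (by simp)
  have h1 := h (2 + Real.log (1 + 2 * n)) (by linarith) A B (fun _ => 1) (fun _ => 1) (by
    intro y hy
    obtain ⟨a, ha, rfl⟩ := Finset.mem_image.1 hy
    obtain ⟨b1, b2⟩ := P_deg n a ha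
    refine add_le_add ?_ ?_
    · unfold L0
      split_ifs
      · norm_num
      · have e1 := N_mul a⁻¹ w
        rw [N_inv] at e1
        have e2 := N_pos (g := a) (by omega)
        have e3 := N_pos (g := w) (by omega)
        have e4 : (N (a⁻¹ * w) : ℝ) ≤ 2 := by exact_mod_cast (by omega : N (a⁻¹ * w) ≤ 2)
        rw [deg_mul, deg_inv, b1, hw.1]
        simpa using e4
    · apply Real.log_le_log (by positivity)
      have e1 := nm_mul_le a⁻¹ w
      rw [nm_inv] at e1
      have : (nm (a⁻¹ * w) : ℝ) ≤ 2 * n := by exact_mod_cast (by omega : nm (a⁻¹ * w) ≤ 2 * n)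
      linarith)
  have cA : A.card = 2 ^ n := by rw [Finset.card_image_of_injective _ i1, card_P]
  have cB : B.card = 2 ^ n := by rw [Finset.card_image_of_injective _ i2, card_P]
  have hr : ∀ x, ((A ×ˢ B).filter (fun p => p.1 * p.2 = x)).card = rr n x := by
    intro x
    rw [Finset.card_filter, Finset.sum_product, Finset.sum_image i1.injOn]
    simp only [B, Finset.sum_image i2.injOn, mul_assoc, mul_inv_cancel_left, rr]
    congr!
  have hE : ∑ x ∈ A * B, rr n x ^ 2 = E n := by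
    have := Finset.sum_fiberwise_of_maps_to (s := A ×ˢ B) (t := A * B)
      (g := fun p => p.1 * p.2) (fun p hp =>
        Finset.mul_mem_mul (Finset.mem_product.1 hp).1 (Finset.mem_product.1 hp).2)
      (fun p => rr n (p.1 * p.2))
    rw [Finset.sum_product, Finset.sum_image i1.injOn] at this
    simp only [B, Finset.sum_image i2.injOn, mul_assoc, mul_inv_cancel_left] at this
    rw [E, ← this]
    refine Finset.sum_congr rfl (fun x _ => ?_)
    rw [Finset.sum_congr rfl (g := fun _ => rr n x) (fun p hp => by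
      rw [(Finset.mem_filter.1 hp).2]), Finset.sum_const, hr, smul_eq_mul, sq]
  simp only [mul_one, Finset.sum_const, hr, nsmul_eq_mul, Complex.norm_natCast, norm_one, one_pow,
    cA, cB] at h1
  have h2 : ((∑ x ∈ A * B, rr n x ^ 2 : ℕ) : ℝ) = E n := by rw [hE]
  push_cast at h1 h2
  rw [h2, mul_assoc, ← mul_pow] at h1
  have h3 : (n : ℝ) * 4 ^ n ≤ 2 * E n := by exact_mod_cast E_ge n
  have h4 : (0 : ℝ) < 4 ^ n := by positivity
  norm_num at h1
  nlinarith

end Pool.Agent.H69.RapidExp
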