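import Mathlib

set_option autoImplicit false

namespace Pool.Agent.H69.Rca

open Polynomial Filter

section alg
variable {R : Type} [CommRing R] [IsDomain R] {ι : Type} [Fintype ι] [DecidableEq ι]

noncomputable def D (M : Module.End R (ι → R)) {d : ℕ} (Ψ : (ι → R) →ₗ[R] (Fin d → R))
    (w : ι → R) : R := (Matrix.of fun i j : Fin d => Ψ ((M ^ (j : ℕ)) w) i).det

theorem exists_psi {d : ℕ} (c : Fin d → ι → R) (h : LinearIndependent R c) :
    ∃ Ψ : (ι → R) →ₗ[R] (Fin d → R), (Matrix.of fun i j : Fin d => Ψ (c j) i).det ≠ 0 := by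
  let K := FractionRing R
  have hinj : Function.Injective (algebraMap R K) := IsFractionRing.injective R K
  let c' : Fin d → ι → K := fun j i => algebraMap R K (c j i)
  have h1 : LinearIndependent R c' := by
    have := h.map' ((Algebra.linearMap R K).compLeft ι) (LinearMap.ker_eq_bot.2 fun x y hxy =>
      funext fun i => hinj (congrFun hxy i))
    exact this
  have h2 : LinearIndependent K c' := (LinearIndependent.iff_fractionRing R K).1 h1
  let C : Matrix ι (Fin d) K := Matrix.of fun i j => c' j i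
  have h3 : LinearMap.ker (Matrix.toLin' C) = ⊥ := by
    rw [LinearMap.ker_eq_bot']
    intro x hx
    refine funext (Fintype.linearIndependent_iff.1 h2 x ?_)
    funext i
    have := congrFun hx i
    simpa [C, Matrix.mulVec, dotProduct, mul_comm] using this
  obtain ⟨g, hg⟩ := LinearMap.exists_leftInverse_of_injective _ h3
  have h4 : LinearMap.toMatrix' g * C = 1 := by
    rw [← LinearMap.toMatrix'_toLin' C, ← LinearMap.toMatrix'_comp, hg, LinearMap.toMatrix'_id]
  obtain ⟨b, hb⟩ := IsLocalization.exist_integer_multiples_of_finite (nonZeroDivisors R)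
    (fun p : Fin d × ι => LinearMap.toMatrix' g p.1 p.2)
  choose P hP using hb
  refine ⟨Matrix.toLin' (Matrix.of fun i k => P (i, k)), ?_⟩
  have h5 : (Matrix.of fun i j : Fin d => Matrix.toLin' (Matrix.of fun i k => P (i, k)) (c j) i)
      = (b : R) • (1 : Matrix (Fin d) (Fin d) R) := by
    ext i j
    apply hinj
    have := congrFun (congrFun h4 i) j
    simp only [Matrix.mul_apply, C, Matrix.of_apply, c'] at this
    simp only [Matrix.of_apply, Matrix.toLin'_apply, Matrix.mulVec, dotProduct, map_sum, map_mul,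
      hP, Matrix.smul_apply, smul_eq_mul, Algebra.smul_def, mul_assoc, ← Finset.mul_sum, this]
    by_cases hij : i = j <;> simp [Matrix.one_apply, hij]
  rw [h5, Matrix.det_smul, Matrix.det_one, mul_one]
  exact pow_ne_zero _ (nonZeroDivisors.coe_ne_zero b)

theorem aeval_mem (M : Module.End R (ι → R)) (B : Submodule R (ι → R)) (hB : ∀ v ∈ B, M v ∈ B)
    (h : R[X]) : ∀ v ∈ B, aeval M h v ∈ B := by
  induction h using Polynomial.induction_on with
  | C a => intro v hv; simpa using B.smul_mem a hv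
  | add p q hp hq => intro v hv; simpa using B.add_mem (hp v hv) (hq v hv)
  | monomial n a ih =>
    intro v hv
    rw [pow_succ, ← mul_assoc, map_mul, aeval_X]
    exact ih _ (hB v hv)

theorem structure_lemma [UniqueFactorizationMonoid R] (M : Module.End R (ι → R))
    (hM : Function.Bijective M) (B : Submodule R (ι → R)) (hB : ∀ v ∈ B, M v ∈ B)
    (hne : ∃ v ∈ B, v ≠ 0) :
    ∃ (v : ι → R) (f : R[X]) (d : ℕ) (δ : R), v ∈ B ∧ v ≠ 0 ∧ aeval M f v = 0 ∧ 0 < d ∧
      IsUnit δ ∧ (∀ g, g ≠ 0 → aeval M f g = 0 → ∃ Ψ : (ι → R) →ₗ[R] (Fin d → R), D M Ψ g ≠ 0) ∧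
      ∀ (Ψ : (ι → R) →ₗ[R] (Fin d → R)) w, aeval M f w = 0 → D M Ψ (M w) = D M Ψ w * δ := by
  classical
  have hex : ∃ n, ∃ f : R[X], f.natDegree = n ∧ f.Monic ∧ f ∣ M.charpoly ∧
      ∃ v ∈ B, v ≠ 0 ∧ aeval M f v = 0 := by
    obtain ⟨v, h1, h2⟩ := hne
    exact ⟨_, M.charpoly, rfl, M.charpoly_monic, dvd_rfl, v, h1, h2, by
      rw [LinearMap.aeval_self_charpoly]; rfl⟩
  obtain ⟨f, hd, hm, hdvd, v, hv, hv0, hfv⟩ := Nat.find_spec hex
  have hmin : ∀ f' : R[X], f'.Monic → f' ∣ M.charpoly → (∃ v ∈ B, v ≠ 0 ∧ aeval M f' v = 0) →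
      f.natDegree ≤ f'.natDegree := fun f' h1 h2 h3 =>
    hd ▸ Nat.find_min' hex ⟨f', rfl, h1, h2, h3⟩
  have hf1 : f ≠ 1 := by
    rintro rfl
    exact hv0 (by simpa using hfv)
  have hirr : Irreducible f := by
    refine (Monic.irreducible_iff_natDegree hm).2 ⟨hf1, fun f1 f2 h1 h2 he => ?_⟩
    have hdeg := h1.natDegree_mul h2
    rw [he] at hdeg
    by_cases h3 : aeval M f2 v = 0
    · have := hmin f2 h2 ((Dvd.intro_left _ he).trans hdvd) ⟨v, hv, hv0, h3⟩
      omega
    · have := hmin f1 h1 ((Dvd.intro _ he).trans hdvd) ⟨_, aeval_mem M B hB f2 v hv, h3, by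
        rw [← Module.End.mul_apply, ← map_mul, he, hfv]⟩
      omega
  haveI : IsDomain (AdjoinRoot f) := AdjoinRoot.isDomain_of_prime hirr.prime
  let pb := AdjoinRoot.powerBasis' hm
  haveI : Module.Finite R (AdjoinRoot f) := pb.finite
  have hgen : pb.gen = AdjoinRoot.root f := rfl
  have hker : ∀ (h : R[X]) w, aeval M f w = 0 → AdjoinRoot.mk f h = 0 → aeval M h w = 0 := by
    intro h w hw h0
    obtain ⟨q, rfl⟩ := AdjoinRoot.mk_eq_zero.1 h0
    rw [mul_comm, map_mul, Module.End.mul_apply, hw, map_zero]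
  have hsum : ∀ r : Fin pb.dim → R, AdjoinRoot.mk f (∑ i, C (r i) * X ^ (i : ℕ))
      = ∑ i, r i • pb.basis i := by
    intro r
    simp only [map_sum, map_mul, map_pow, AdjoinRoot.mk_X, AdjoinRoot.mk_C, pb.basis_eq_pow, hgen,
      Algebra.smul_def]
    rfl
  have hsum2 : ∀ (r : Fin pb.dim → R) w, aeval M (∑ i, C (r i) * X ^ (i : ℕ)) w
      = ∑ i, r i • (M ^ (i : ℕ)) w := by
    intro r w
    simp [LinearMap.sum_apply]
  have hrep : ∀ (h : R[X]) w, aeval M f w = 0 → aeval M h w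
      = ∑ i, pb.basis.repr (AdjoinRoot.mk f h) i • (M ^ (i : ℕ)) w := by
    intro h w hw
    have := hker (h - ∑ i, C (pb.basis.repr (AdjoinRoot.mk f h) i) * X ^ (i : ℕ)) w hw (by
      rw [map_sub, hsum, pb.basis.sum_repr, sub_self])
    rw [map_sub, LinearMap.sub_apply, hsum2, sub_eq_zero] at this
    exact this
  have hunit : IsUnit (AdjoinRoot.root f) := by
    have h1 : IsUnit (M.charpoly.coeff 0) := by
      have h2 : IsUnit (LinearMap.det M) :=
        (LinearEquiv.ofBijective M hM).isUnit_det'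
      rw [LinearMap.det_eq_sign_charpoly_coeff] at h2
      exact isUnit_of_mul_isUnit_right h2
    have h2 : IsUnit (f.coeff 0) := by
      obtain ⟨q, hq⟩ := hdvd
      rw [hq, mul_coeff_zero] at h1
      exact isUnit_of_mul_isUnit_left h1
    have h3 := congrArg (AdjoinRoot.mk f) (X_mul_divX_add f)
    rw [AdjoinRoot.mk_self, map_add, map_mul, AdjoinRoot.mk_X, AdjoinRoot.mk_C] at h3
    have h4 := (h2.map (AdjoinRoot.of f)).neg
    rw [← eq_neg_of_add_eq_zero_left h3] at h4
    exact isUnit_of_mul_isUnit_left h4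
  refine ⟨v, f, pb.dim, (Algebra.leftMulMatrix pb.basis (AdjoinRoot.root f)).det, hv, hv0, hfv,
    ?_, ?_, ?_, ?_⟩
  · exact hm.natDegree_pos.2 hf1
  · exact (Matrix.isUnit_iff_isUnit_det _).1 (hunit.map _)
  · intro g hg hfg
    refine exists_psi (fun j : Fin pb.dim => (M ^ (j : ℕ)) g) ?_
    refine Fintype.linearIndependent_iff.2 fun r hr => ?_
    by_contra hr0
    have hσ : ∑ i, r i • pb.basis i ≠ 0 := fun h0 =>
      hr0 (Fintype.linearIndependent_iff.1 pb.basis.linearIndependent r h0)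
    obtain ⟨c, hc, τ, hτ⟩ := IsAlgebraic.exists_nonzero_dvd
      (Algebra.IsAlgebraic.isAlgebraic (R := R) (∑ i, r i • pb.basis i))
      (mem_nonZeroDivisors_of_ne_zero hσ)
    obtain ⟨q, rfl⟩ := AdjoinRoot.mk_surjective τ
    have h1 := hker (C c - q * ∑ i, C (r i) * X ^ (i : ℕ)) g hfg (by
      rw [map_sub, map_mul, hsum, mul_comm, ← hτ, AdjoinRoot.mk_C]
      exact sub_self _)
    rw [map_sub, map_mul, LinearMap.sub_apply, Module.End.mul_apply, hsum2, hr, map_zero,
      sub_zero, aeval_C, Module.algebraMap_end_apply] at h1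
    exact hg ((smul_eq_zero.1 h1).resolve_left hc)
  · intro Ψ w hw
    rw [D, D, ← Matrix.det_mul]
    congr 1
    ext i j
    have h1 := hrep (X * X ^ (j : ℕ)) w hw
    rw [map_mul, map_pow, aeval_X, ← pow_succ', pow_succ, Module.End.mul_apply] at h1
    simp only [Matrix.of_apply, h1, Matrix.mul_apply, Algebra.leftMulMatrix_eq_repr_mul, map_sum,
      map_smul, Finset.sum_apply, Pi.smul_apply, smul_eq_mul, map_mul, map_pow, AdjoinRoot.mk_X,
      pb.basis_eq_pow, hgen]
    exact Finset.sum_congr rfl fun k _ => mul_comm _ _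

end alg

section val
variable {R : Type} [CommRing R] (ν : AddValuation R (WithTop ℤ)) (U : Filter ℕ)

def Td (a : ℕ → R) (l : R) : Prop := ∀ n : ℤ, ∀ᶠ t in U, (n : WithTop ℤ) ≤ ν (a t - l)

variable {ν U}

theorem Td.const (l : R) : Td ν U (fun _ => l) l := fun n => by simp

theorem Td.add {a b : ℕ → R} {l l' : R} (h : Td ν U a l) (h' : Td ν U b l') :
    Td ν U (fun t => a t + b t) (l + l') := fun n => by
  filter_upwards [h n, h' n] with t h1 h2
  have : a t + b t - (l + l') = (a t - l) + (b t - l') := by ring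
  rw [this]
  exact ν.map_le_add h1 h2

theorem lb (x : WithTop ℤ) : ∃ c : ℤ, (c : WithTop ℤ) ≤ x := by
  induction x using WithTop.recTopCoe with
  | top => exact ⟨0, le_top⟩
  | coe c => exact ⟨c, le_rfl⟩

theorem Td.mul {a b : ℕ → R} {l l' : R} (h : Td ν U a l) (h' : Td ν U b l') :
    Td ν U (fun t => a t * b t) (l * l') := fun n => by
  obtain ⟨c, hc⟩ := lb (ν l)
  obtain ⟨c', hc'⟩ := lb (ν l')
  filter_upwards [h (n - c'), h n, h' 0, h' (n - c)] with t h1 h2 h3 h4
  have : a t * b t - l * l' = (a t - l) * (b t - l') + (a t - l) * l' + l * (b t - l') := by ring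
  rw [this]
  refine ν.map_le_add (ν.map_le_add ?_ ?_) ?_ <;> rw [ν.map_mul]
  · simpa using add_le_add h2 h3
  · have := add_le_add h1 hc'
    rwa [← WithTop.coe_add, sub_add_cancel] at this
  · have := add_le_add hc h4
    rwa [← WithTop.coe_add, add_sub_cancel] at this

theorem Td.sum {κ : Type} (s : Finset κ) {a : κ → ℕ → R} {l : κ → R}
    (h : ∀ k, Td ν U (a k) (l k)) : Td ν U (fun t => ∑ k ∈ s, a k t) (∑ k ∈ s, l k) := by
  classical
  induction s using Finset.induction_on with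
  | empty => simpa using Td.const 0
  | insert k s hk ih => simpa [Finset.sum_insert hk] using (h k).add ih

theorem Td.prod {κ : Type} (s : Finset κ) {a : κ → ℕ → R} {l : κ → R}
    (h : ∀ k, Td ν U (a k) (l k)) : Td ν U (fun t => ∏ k ∈ s, a k t) (∏ k ∈ s, l k) := by
  classical
  induction s using Finset.induction_on with
  | empty => simpa using Td.const 1
  | insert k s hk ih => simpa [Finset.prod_insert hk] using (h k).mul ih

theorem Td.det {d : ℕ} {a : ℕ → Matrix (Fin d) (Fin d) R} {l : Matrix (Fin d) (Fin d) R}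
    (h : ∀ i j, Td ν U (fun t => a t i j) (l i j)) : Td ν U (fun t => (a t).det) l.det := by
  simp only [Matrix.det_apply']
  exact Td.sum _ fun σ => (Td.const _).mul (Td.prod _ fun i => h _ _)

theorem Td.lin {ι : Type} [Fintype ι] [DecidableEq ι] (φ : (ι → R) →ₗ[R] R) {u : ℕ → ι → R}
    {g : ι → R} (h : ∀ i, Td ν U (fun t => u t i) (g i)) : Td ν U (fun t => φ (u t)) (φ g) := by
  have e : ∀ x : ι → R, φ x = ∑ i, x i * φ (fun j => if i = j then 1 else 0) := fun x => by
    rw [LinearMap.pi_apply_eq_sum_univ]; rfl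
  rw [e g, funext fun t => e (u t)]
  exact Td.sum _ fun i => (h i).mul (Td.const _)

theorem Td.zero [U.NeBot] (hν : ∀ a, ν a = ⊤ → a = 0) {l : R} (h : Td ν U (fun _ => 0) l) :
    l = 0 := by
  apply hν
  by_contra h1
  obtain ⟨c, hc⟩ := WithTop.ne_top_iff_exists.1 h1
  have := (h (c + 1)).exists.choose_spec
  rw [zero_sub, ν.map_neg, ← hc, WithTop.coe_le_coe] at this
  omega

theorem Td.val {a : ℕ → R} {l : R} (h : Td ν U a l) {c : ℤ} (hc : ν l = c) :
    ∀ᶠ t in U, ν (a t) = c := by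
  filter_upwards [h (c + 1)] with t ht
  have : a t = l + (a t - l) := by ring
  rw [this, ν.map_add_eq_of_lt_left, hc]
  rw [hc]
  exact lt_of_lt_of_le (WithTop.coe_lt_coe.2 (by omega)) ht

variable [IsDomain R] {ι : Type} [Fintype ι] [DecidableEq ι]

omit [IsDomain R] in
theorem speed [U.NeBot] (hν : ∀ a, ν a = ⊤ → a = 0) (M : Module.End R (ι → R)) {v : ι → R}
    {f : R[X]} {d : ℕ} {δ : R} (hfv : aeval M f v = 0) {e : ℤ} (he : ν δ = e)
    (h1 : ∀ g, g ≠ 0 → aeval M f g = 0 → ∃ Ψ : (ι → R) →ₗ[R] (Fin d → R), D M Ψ g ≠ 0)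
    (h2 : ∀ (Ψ : (ι → R) →ₗ[R] (Fin d → R)) w, aeval M f w = 0 → D M Ψ (M w) = D M Ψ w * δ)
    (N : ℕ → ℤ) (x : ℕ → R) (hx : ∀ t, ν (x t) = (-N t : ℤ)) (g : ι → R) (hg : g ≠ 0)
    (hlim : ∀ i, Td ν U (fun t => (x t • (M ^ t) v) i) (g i)) :
    ∃ C : ℤ, ∀ᶠ t in U, d * N t = t * e + C := by
  have hf : ∀ t, aeval M f ((M ^ t) v) = 0 := fun t => by
    have : aeval M f * M ^ t = M ^ t * aeval M f := by
      have : M ^ t = aeval M (X ^ t : R[X]) := by simp
      rw [this, ← map_mul, ← map_mul, mul_comm]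
    rw [← Module.End.mul_apply, this, Module.End.mul_apply, hfv, map_zero]
  have hfg : aeval M f g = 0 := by
    funext k
    have := Td.lin ((LinearMap.proj k).comp (aeval M f)) hlim
    simp only [LinearMap.comp_apply, map_smul, hf, map_zero, smul_zero] at this
    exact this.zero hν
  obtain ⟨Ψ, hΨ⟩ := h1 g hg hfg
  have h3 : Td ν U (fun t => D M Ψ (x t • (M ^ t) v)) (D M Ψ g) :=
    Td.det fun i j => Td.lin ((LinearMap.proj i).comp (Ψ.comp (M ^ (j : ℕ)))) hlim
  have h4 : ∀ t, D M Ψ ((M ^ t) v) = D M Ψ v * δ ^ t := by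
    intro t
    induction t with
    | zero => simp
    | succ t ih => rw [pow_succ', Module.End.mul_apply, h2 Ψ _ (hf t), ih]; ring
  have h5 : ∀ (a : R) w, D M Ψ (a • w) = a ^ d * D M Ψ w := by
    intro a w
    have : (Matrix.of fun i j : Fin d => Ψ ((M ^ (j : ℕ)) (a • w)) i)
        = a • Matrix.of fun i j : Fin d => Ψ ((M ^ (j : ℕ)) w) i := by
      ext i j; simp
    rw [D, this, Matrix.det_smul, Fintype.card_fin, D]
  obtain ⟨c, hc⟩ := WithTop.ne_top_iff_exists.1 (fun h => hΨ (hν _ h))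
  have h6 := h3.val hc.symm
  simp only [h5, h4, ν.map_mul, ν.map_pow, hx, he] at h6
  have h7 : ν (D M Ψ v) ≠ ⊤ := by
    intro h
    have := h6.exists.choose_spec
    simp [h] at this
  obtain ⟨c', hc'⟩ := WithTop.ne_top_iff_exists.1 h7
  refine ⟨c' - c, ?_⟩
  filter_upwards [h6] with t ht
  rw [← hc', ← WithTop.coe_nsmul, ← WithTop.coe_nsmul, ← WithTop.coe_add, ← WithTop.coe_add,
    WithTop.coe_inj] at ht
  simp only [nsmul_eq_mul] at ht
  linarith

end val

end Pool.Agent.H69.Rca
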