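import Mathlib
import Pool.Agent.H69.Rca1

set_option autoImplicit false

namespace Pool.Agent.H69.Rca

open Filter LaurentPolynomial Pointwise

variable {F : Type} [Field F]

def Ch (ε : ℤ) (ν : AddValuation (LaurentPolynomial F) (WithTop ℤ)) : Prop :=
  ∀ (a : LaurentPolynomial F) (n : ℤ), (n : WithTop ℤ) ≤ ν a ↔ ∀ k, ε * k < n → a.coeff k = 0

theorem exists_val (ε : ℤ) (hε : ε * ε = 1) :
    ∃ ν : AddValuation (LaurentPolynomial F) (WithTop ℤ), Ch ε ν := by
  let φ : Multiplicative ℤ →* HahnSeries ℤ F :=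
    { toFun := fun n => HahnSeries.single (ε * n.toAdd) 1
      map_one' := by simp
      map_mul' := fun a b => by simp [HahnSeries.single_mul_single, mul_add] }
  let j : LaurentPolynomial F →+* HahnSeries ℤ F :=
    AddMonoidAlgebra.liftNCRingHom HahnSeries.C φ fun _ _ => Commute.all _ _
  have hj : ∀ (a : LaurentPolynomial F) (k : ℤ), (j a).coeff (ε * k) = a.coeff k := by
    intro a k
    induction a using AddMonoidAlgebra.induction_linear with
    | zero => simp
    | add a b ha hb => simp [ha, hb]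
    | single n c =>
      have hε0 : ε ≠ 0 := by rintro rfl; simp at hε
      have e : j (AddMonoidAlgebra.single n c) = HahnSeries.single (ε * n) c := by
        have : j (AddMonoidAlgebra.single n c) = HahnSeries.C c * φ (Multiplicative.ofAdd n) :=
          AddMonoidAlgebra.liftNC_single _ _ _ _
        rw [this, HahnSeries.C_apply]
        simp [φ, HahnSeries.single_mul_single]
      simp only [e, HahnSeries.coeff_single, AddMonoidAlgebra.coeff_single,
        Finsupp.single_apply, mul_right_inj' hε0, smul_eq_mul]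
      by_cases h : n = k
      · simp [h]
      · simp [h, Ne.symm h]
  refine ⟨(HahnSeries.addVal ℤ F).comap j,
    fun a n => ?_⟩
  show (n : WithTop ℤ) ≤ (j a).orderTop ↔ _
  rw [HahnSeries.le_orderTop_iff_forall]
  constructor
  · intro h k hk
    rw [← hj]
    exact h _ (WithTop.coe_lt_coe.2 hk)
  · intro h k hk
    have : k = ε * (ε * k) := by rw [← mul_assoc, hε, one_mul]
    rw [this, hj]
    exact h _ (by rw [← this]; exact WithTop.coe_lt_coe.1 hk)

variable {ε : ℤ} {ν : AddValuation (LaurentPolynomial F) (WithTop ℤ)}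

theorem Ch.top (h : Ch ε ν) (a : LaurentPolynomial F) (ha : ν a = ⊤) : a = 0 := by
  ext k
  exact (h a (ε * k + 1)).1 (by rw [ha]; exact le_top) k (by omega)

theorem Ch.le (h : Ch ε ν) {a : LaurentPolynomial F} {k : ℤ} (hk : a.coeff k ≠ 0) :
    ν a ≤ (ε * k : ℤ) := by
  by_contra h1
  push Not at h1
  refine hk ((h a (ε * k + 1)).1 ?_ k (by omega))
  induction hh : ν a using WithTop.recTopCoe with
  | top => exact le_top
  | coe c => rw [hh, WithTop.coe_lt_coe] at h1; exact WithTop.coe_le_coe.2 (by omega)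

theorem Ch.T (h : Ch ε ν) (m : ℤ) : ν (T m) = (ε * m : ℤ) := by
  refine le_antisymm (h.le (by simp)) ((h _ _).2 fun k hk => ?_)
  rw [T_apply, if_neg]
  rintro rfl
  omega

theorem coeff_T_mul (m k : ℤ) (a : LaurentPolynomial F) : (T m * a).coeff k = a.coeff (k - m) := by
  rw [LaurentPolynomial.T, AddMonoidAlgebra.coeff_single_mul_apply, one_mul]
  congr 1
  ring

theorem unit_val {ν' : AddValuation (LaurentPolynomial F) (WithTop ℤ)} (h : Ch 1 ν)
    (h' : Ch (-1) ν') {δ : LaurentPolynomial F} (hδ : IsUnit δ) :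
    ∃ e : ℤ, ν δ = e ∧ ν' δ = (-e : ℤ) := by
  obtain ⟨δ', hd⟩ := hδ.exists_right_inv
  have aux : ∀ a : LaurentPolynomial F, a ≠ 0 → ∃ e e' : ℤ, ν a = e ∧ ν' a = e' ∧ e + e' ≤ 0 := by
    intro a ha
    obtain ⟨e, he⟩ := WithTop.ne_top_iff_exists.1 fun hh => ha (h.top a hh)
    obtain ⟨e', he'⟩ := WithTop.ne_top_iff_exists.1 fun hh => ha (h'.top a hh)
    obtain ⟨k, hk⟩ : ∃ k, a.coeff k ≠ 0 := by
      by_contra h1
      push Not at h1
      exact ha (LaurentPolynomial.ext h1)
    have h1 := h.le hk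
    have h2 := h'.le hk
    rw [← he, WithTop.coe_le_coe] at h1
    rw [← he', WithTop.coe_le_coe] at h2
    exact ⟨e, e', he.symm, he'.symm, by omega⟩
  obtain ⟨e, e', h1, h2, h3⟩ := aux δ (left_ne_zero_of_mul_eq_one hd)
  obtain ⟨f, f', k1, k2, k3⟩ := aux δ' (right_ne_zero_of_mul_eq_one hd)
  have a1 := ν.map_mul δ δ'
  have a2 := ν'.map_mul δ δ'
  rw [hd, ν.map_one, h1, k1, ← WithTop.coe_add, eq_comm, WithTop.coe_eq_zero] at a1
  rw [hd, ν'.map_one, h2, k2, ← WithTop.coe_add, eq_comm, WithTop.coe_eq_zero] at a2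
  exact ⟨e, h1, by rw [h2]; congr 1; omega⟩

variable {ι : Type} [Fintype ι] [DecidableEq ι]

def Bd (W : ℕ) (w : ι → LaurentPolynomial F) : Prop :=
  ∃ S : Finset ℤ, S.card ≤ W ∧ ∀ i k, k ∉ S → (w i).coeff k = 0

theorem coeff_mul_zero {a b : LaurentPolynomial F} {S S' : Finset ℤ}
    (ha : ∀ k, k ∉ S → a.coeff k = 0) (hb : ∀ k, k ∉ S' → b.coeff k = 0) {k : ℤ}
    (hk : k ∉ S + S') : (a * b).coeff k = 0 := by
  by_contra h
  have := AddMonoidAlgebra.support_coeff_mul_subset a b (Finsupp.mem_support_iff.2 h)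
  refine hk (Finset.add_subset_add (fun x hx => ?_) (fun x hx => ?_) this)
  · by_contra h1; exact Finsupp.mem_support_iff.1 hx (ha x h1)
  · by_contra h1; exact Finsupp.mem_support_iff.1 hx (hb x h1)

theorem Bd.map (M : Module.End (LaurentPolynomial F) (ι → LaurentPolynomial F)) :
    ∃ C : ℕ, ∀ W w, Bd W w → Bd (W * C) (M w) := by
  let S0 : Finset ℤ := Finset.univ.biUnion fun p : ι × ι =>
    (M (fun j => if p.1 = j then 1 else 0) p.2).coeff.support
  refine ⟨S0.card, fun W w ⟨S, h1, h2⟩ => ⟨S + S0,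
    Finset.card_add_le.trans (Nat.mul_le_mul_right _ h1), fun i k hk => ?_⟩⟩
  rw [LinearMap.pi_apply_eq_sum_univ, Finset.sum_apply, AddMonoidAlgebra.coeff_sum,
    Finsupp.finset_sum_apply]
  refine Finset.sum_eq_zero fun j _ => coeff_mul_zero (h2 j) (fun k hk => ?_) hk
  by_contra h3
  exact hk (Finset.mem_biUnion.2 ⟨(j, i), Finset.mem_univ _, Finsupp.mem_support_iff.2 h3⟩)

theorem extract [Finite F] (hε : ε * ε = 1) (h : Ch ε ν) (U : Ultrafilter ℕ)
    (w : ℕ → ι → LaurentPolynomial F) (hw : ∀ t, w t ≠ 0) {W : ℕ} (hW : ∀ᶠ t in U, Bd W (w t)) :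
    ∃ (N : ℕ → ℤ) (g : ι → LaurentPolynomial F), g ≠ 0 ∧
      (∀ t i k, ε * k < N t → (w t i).coeff k = 0) ∧
      ∀ i, Td ν U (fun t => ((T (-(ε * N t)) : LaurentPolynomial F) • w t) i) (g i) := by
  classical
  have h1 : ∀ t, ∃ N : ℤ, (∀ i k, ε * k < N → (w t i).coeff k = 0) ∧
      ∃ i, (w t i).coeff (ε * N) ≠ 0 := by
    intro t
    have hne : (Finset.univ.sigma fun i => (w t i).coeff.support).Nonempty := by
      obtain ⟨i, hi⟩ := Function.ne_iff.1 (hw t)
      obtain ⟨k, hk⟩ : ∃ k, (w t i).coeff k ≠ 0 := by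
        by_contra h1
        push Not at h1
        exact hi (LaurentPolynomial.ext h1)
      exact ⟨⟨i, k⟩, by simp [hk]⟩
    obtain ⟨⟨i, k⟩, h2, h3⟩ := Finset.exists_min_image _ (fun p => ε * p.2) hne
    refine ⟨ε * k, fun i' k' h4 => ?_, i, ?_⟩
    · by_contra h5
      exact absurd (h3 ⟨i', k'⟩ (by simp [h5])) (not_le.2 h4)
    · rw [← mul_assoc, hε, one_mul]
      simpa using h2
  choose N hN1 hN2 using h1
  have h2 : ∀ i k, ∃ c : F, ∀ᶠ t in U, (w t i).coeff (k + ε * N t) = c := fun i k =>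
    Ultrafilter.eventually_exists_iff.1 (Eventually.of_forall fun t => ⟨_, rfl⟩)
  choose c hc using h2
  have hfin : ∀ i, (Function.support (c i)).Finite := by
    intro i
    by_contra hinf
    obtain ⟨S, hS, hcard⟩ := Set.Infinite.exists_subset_card_eq hinf (W + 1)
    have h3 : ∀ᶠ t in U, ∀ k ∈ S, (w t i).coeff (k + ε * N t) = c i k :=
      (eventually_all_finset S).2 fun k _ => hc i k
    obtain ⟨t, ⟨S', h4, h5⟩, h6⟩ := (hW.and h3).exists
    have : S.card ≤ S'.card := by
      refine Finset.card_le_card_of_injOn (fun k => k + ε * N t) (fun k hk => ?_)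
        (fun a _ b _ hab => by simpa using hab)
      by_contra h7
      exact hS hk (by rw [← h6 k hk]; exact h5 i _ h7)
    omega
  have hlow : ∀ t i k, ε * k < 0 → (w t i).coeff (k + ε * N t) = 0 := fun t i k hk =>
    hN1 t i _ (by rw [mul_add, ← mul_assoc, hε]; omega)
  refine ⟨N, fun i => AddMonoidAlgebra.ofCoeff (Finsupp.ofSupportFinite (c i) (hfin i)), ?_, hN1,
    fun i n => ?_⟩
  · obtain ⟨i, hi⟩ := Ultrafilter.eventually_exists_iff.1 (Eventually.of_forall (f := (U : Filter ℕ)) hN2)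
    obtain ⟨t, h3, h4⟩ := (hi.and (hc i 0)).exists
    rw [zero_add] at h4
    intro h5
    have h6 : c i 0 = 0 := by
      have := congrArg (fun a : LaurentPolynomial F => a.coeff 0) (congrFun h5 i)
      simpa [Finsupp.ofSupportFinite_coe] using this
    exact h3 (h4.trans h6)
  · have h3 : ∀ᶠ t in U, ∀ k ∈ Finset.Icc (-|n|) |n|, (w t i).coeff (k + ε * N t) = c i k :=
      (eventually_all_finset _).2 fun k _ => hc i k
    filter_upwards [h3] with t ht
    refine (h _ _).2 fun k hk => ?_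
    simp only [Pi.smul_apply, smul_eq_mul, AddMonoidAlgebra.coeff_sub, Finsupp.coe_sub,
      Pi.sub_apply, coeff_T_mul, sub_neg_eq_add, Finsupp.ofSupportFinite_coe]
    by_cases h4 : ε * k < 0
    · obtain ⟨t', h5⟩ := (hc i k).exists
      rw [← h5, hlow t i k h4, hlow t' i k h4, sub_self]
    · rw [ht k, sub_self]
      have := le_abs_self n
      rcases Int.eq_one_or_neg_one_of_mul_eq_one hε with rfl | rfl <;>
        simp only [Finset.mem_Icc] <;> omega

theorem soliton [Finite F] (M : Module.End (LaurentPolynomial F) (ι → LaurentPolynomial F))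
    (hM : Function.Bijective M) (U : Ultrafilter ℕ) (hU : (U : Filter ℕ) ≤ atTop)
    (v0 : ι → LaurentPolynomial F) (hv0 : v0 ≠ 0) {W0 : ℕ} (hW0 : ∀ᶠ t in U, Bd W0 ((M ^ t) v0)) :
    ∃ (g : ι → LaurentPolynomial F) (s : ℕ) (k : ℤ), g ≠ 0 ∧ 0 < s ∧
      (M ^ s) g = (T k : LaurentPolynomial F) • g := by
  haveI : UniqueFactorizationMonoid (LaurentPolynomial F) :=
    UniqueFactorizationMonoid.of_isLocalization
      (Submonoid.powers (Polynomial.X : Polynomial F)) _
  let B : Submodule (LaurentPolynomial F) (ι → LaurentPolynomial F) :=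
    { carrier := {v | ∃ W, ∀ᶠ t in U, Bd W ((M ^ t) v)}
      zero_mem' := ⟨0, Eventually.of_forall fun t => ⟨∅, le_rfl, by simp⟩⟩
      add_mem' := by
        rintro a b ⟨W, h⟩ ⟨W', h'⟩
        refine ⟨W + W', ?_⟩
        filter_upwards [h, h'] with t ⟨S, h1, h2⟩ ⟨S', h1', h2'⟩
        refine ⟨S ∪ S', (Finset.card_union_le _ _).trans (add_le_add h1 h1'), fun i k hk => ?_⟩
        rw [Finset.mem_union, not_or] at hk
        simp [h2 i k hk.1, h2' i k hk.2]
      smul_mem' := by
        rintro a v ⟨W, h⟩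
        obtain ⟨C, hC⟩ := Bd.map (a • (1 : Module.End _ (ι → LaurentPolynomial F)))
        refine ⟨W * C, ?_⟩
        filter_upwards [h] with t ht
        simpa using hC _ _ ht }
  have hB : ∀ v ∈ B, M v ∈ B := by
    rintro v ⟨W, h⟩
    obtain ⟨C, hC⟩ := Bd.map M
    refine ⟨W * C, ?_⟩
    filter_upwards [h] with t ht
    rw [← Module.End.mul_apply, ← pow_succ, pow_succ', Module.End.mul_apply]
    exact hC _ _ ht
  obtain ⟨v, f, d, δ, ⟨W, hW⟩, hv, hfv, hd, hδ, h1, h2⟩ :=
    structure_lemma M hM B hB ⟨v0, ⟨W0, hW0⟩, hv0⟩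
  obtain ⟨ν, hν⟩ := exists_val (F := F) 1 (by norm_num)
  obtain ⟨ν', hν'⟩ := exists_val (F := F) (-1) (by norm_num)
  obtain ⟨e, he, he'⟩ := unit_val hν hν' hδ
  have hinj : ∀ t : ℕ, Function.Injective ⇑(M ^ t) := fun t => by
    rw [Module.End.coe_pow]; exact hM.1.iterate t
  have hw : ∀ t, (M ^ t) v ≠ 0 := fun t h0 => hv (hinj t (by rw [h0, map_zero]))
  obtain ⟨N, g, hg, a1, a2⟩ := extract (by norm_num) hν U _ hw hW
  obtain ⟨N', g', hg', b1, b2⟩ := extract (by norm_num) hν' U _ hw hW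
  obtain ⟨C, hC⟩ := speed hν.top M hfv he h1 h2 N _ (fun t => by rw [hν.T]; congr 1; ring) g hg a2
  obtain ⟨C', hC'⟩ := speed hν'.top M hfv he' h1 h2 N' _
    (fun t => by rw [hν'.T]; congr 1; ring) g' hg' b2
  obtain ⟨n, hn1, hn2⟩ : ∃ n : ℤ, |C + C'| < n ∧ ∀ i k, n ≤ k → (g i).coeff k = 0 := by
    obtain ⟨b, hb⟩ := (Finset.univ.biUnion fun i => (g i).coeff.support).bddAbove
    refine ⟨max (|C + C'| + 1) (b + 1), by omega, fun i k hk => ?_⟩
    by_contra h3
    have : k ≤ b := hb (by simpa using ⟨i, h3⟩)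
    omega
  have key : ∀ᶠ t in U, (M ^ t) v = (T (N t) : LaurentPolynomial F) • g := by
    filter_upwards [hC, hC', eventually_all.2 fun i => a2 i n] with t h3 h4 h5
    have h6 : (T (-(1 * N t)) : LaurentPolynomial F) • (M ^ t) v = g := by
      funext i
      ext k
      by_cases hk : k < n
      · have := (hν _ _).1 (h5 i) k (by omega)
        rw [AddMonoidAlgebra.coeff_sub, Finsupp.coe_sub, Pi.sub_apply, sub_eq_zero] at this
        exact this
      · rw [hn2 i k (by omega), Pi.smul_apply, smul_eq_mul, coeff_T_mul]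
        apply b1
        have h7 : (d : ℤ) * (N t + N' t) = C + C' := by linarith
        have h8 : -|C + C'| ≤ N t + N' t := by
          have hd' : (1 : ℤ) ≤ d := by exact_mod_cast hd
          have := neg_abs_le (C + C')
          have := abs_nonneg (C + C')
          by_contra h9
          nlinarith
        omega
    rw [← h6, smul_smul, ← T_add]
    simp
  obtain ⟨t, ht⟩ := key.exists
  obtain ⟨t', ht', h3⟩ := (key.and (hU (eventually_gt_atTop t))).exists
  obtain ⟨s, rfl⟩ : ∃ s, t' = s + t := ⟨t' - t, by omega⟩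
  refine ⟨g, s, N (s + t) - N t, hg, by omega, ?_⟩
  rw [pow_add, Module.End.mul_apply, ht, map_smul] at ht'
  have := congrArg (fun x => (T (-N t) : LaurentPolynomial F) • x) ht'
  simp only [smul_smul, ← T_add, neg_add_cancel, T_zero, one_smul] at this
  rw [this]
  congr 2
  ring

end Pool.Agent.H69.Rca
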