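import Mathlib

/-! Abelian cellular automata, harmonically mixing measures and randomization. -/

set_option autoImplicit false

namespace Pool.Agent.H69.Rca

open MeasureTheory Filter Topology

variable {A : Type} [AddCommGroup A] [Fintype A] [TopologicalSpace A] [MeasurableSpace A]

/-- The shift. -/
def shift (x : ℤ → A) : ℤ → A := fun i => x (i + 1)

/-- An abelian cellular automaton: continuous, shift-commuting and additive. -/
def IsACA (F : (ℤ → A) → (ℤ → A)) : Prop :=
  Continuous F ∧ (∀ x, F (shift x) = shift (F x)) ∧ ∀ x y, F (x + y) = F x + F y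

/-- The character `x ↦ ∏ₖ cₖ(xₖ)` given by finitely many nontrivial characters `cₖ` of `A`
(the zero of `AddChar A ℂ` is the trivial character); its rank is `c.support.card`. -/
noncomputable def ev (c : ℤ →₀ AddChar A ℂ) (x : ℤ → A) : ℂ := ∏ k ∈ c.support, c k (x k)

/-- Harmonically mixing measures. -/
def HM (μ : Measure (ℤ → A)) : Prop :=
  ∀ ε : ℝ, 0 < ε → ∃ R : ℕ, ∀ c : ℤ →₀ AddChar A ℂ, R < c.support.card → ‖∫ x, ev c x ∂μ‖ < ε

/-- The uniform Bernoulli measure. -/
noncomputable def haar (A : Type) [AddCommGroup A] [Fintype A] [MeasurableSpace A] :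
    Measure (ℤ → A) :=
  Measure.infinitePi fun _ : ℤ => (PMF.uniformOfFintype A).toMeasure

/-- `F^t μ` converges weak-* to the uniform Bernoulli measure along the filter `l` of times. -/
def Conv (F : (ℤ → A) → (ℤ → A)) (μ : Measure (ℤ → A)) (l : Filter ℕ) : Prop :=
  ∀ f : (ℤ → A) → ℝ, Continuous f →
    Tendsto (fun t => ∫ x, f x ∂(μ.map F^[t])) l (𝓝 (∫ x, f x ∂(haar A)))

/-- Strongly randomizing. -/
def Strong (F : (ℤ → A) → (ℤ → A)) : Prop :=
  ∀ μ : Measure (ℤ → A), IsProbabilityMeasure μ → HM μ → Conv F μ atTop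

open Classical in
/-- Lower density one. -/
def DensityOne (D : Set ℕ) : Prop :=
  liminf (fun n : ℕ => (((Finset.range (n + 1)).filter (· ∈ D)).card : ℝ) / n) atTop = 1

/-- Randomizing in density. -/
def InDensity (F : (ℤ → A) → (ℤ → A)) : Prop :=
  ∀ μ : Measure (ℤ → A), IsProbabilityMeasure μ → HM μ →
    ∃ D : Set ℕ, DensityOne D ∧ Conv F μ (atTop ⊓ 𝓟 D)

end Pool.Agent.H69.Rca
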