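import Mathlib
import Pool.Agent.H69.Rca2
import Pool.Agent.H69.RcaDefs

set_option autoImplicit false

namespace Pool.Agent.H69.Rca

open MeasureTheory Filter Topology Finset LaurentPolynomial

section chars
variable {A : Type} [AddCommGroup A]

abbrev Gam (A : Type) [AddCommGroup A] : Type := ℤ →₀ AddChar A ℂ

theorem ev_eq (c : Gam A) {S : Finset ℤ} (h : c.support ⊆ S) (x : ℤ → A) :
    ev c x = ∏ k ∈ S, c k (x k) :=
  prod_subset h fun k _ hk => by rw [Finsupp.notMem_support_iff.1 hk]; rfl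

theorem ev_add (c c' : Gam A) (x : ℤ → A) : ev (c + c') x = ev c x * ev c' x := by
  classical
  rw [ev_eq _ Finsupp.support_add, ev_eq c subset_union_left, ev_eq c' subset_union_right,
    ← prod_mul_distrib]
  rfl

theorem ev_zero (x : ℤ → A) : ev 0 x = 1 := by simp [ev]

theorem ev_map_add (c : Gam A) (x y : ℤ → A) : ev c (x + y) = ev c x * ev c y := by
  simp [ev, AddChar.map_add_eq_mul, prod_mul_distrib]

theorem ev_map_zero (c : Gam A) : ev c 0 = 1 := by simp [ev]

theorem ev_single (c : Gam A) (k : ℤ) (a : A) : ev c (Pi.single k a) = c k a := by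
  rw [ev_eq c (subset_insert k _), prod_eq_single_of_mem k (mem_insert_self _ _)]
  · simp
  · intro j _ hj
    simp [Pi.single_eq_of_ne hj]

theorem ev_inj {c c' : Gam A} (h : ∀ x, ev c x = ev c' x) : c = c' := by
  ext k a
  rw [← ev_single, h, ev_single]

theorem ev_single' (k : ℤ) (ψ : AddChar A ℂ) (x : ℤ → A) : ev (Finsupp.single k ψ) x = ψ (x k) := by
  rw [ev_eq _ Finsupp.support_single_subset]
  simp

def sh (m : ℤ) (x : ℤ → A) : ℤ → A := fun i => x (i + m)

noncomputable def tau {E : Type} [Zero E] (m : ℤ) (c : ℤ →₀ E) : ℤ →₀ E :=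
  Finsupp.equivMapDomain (Equiv.addRight m) c

theorem tau_apply {E : Type} [Zero E] (m : ℤ) (c : ℤ →₀ E) (k : ℤ) : tau m c k = c (k - m) := by
  simp [tau, sub_eq_add_neg]

theorem tau_card {E : Type} [Zero E] (m : ℤ) (c : ℤ →₀ E) :
    (tau m c).support.card = c.support.card := by
  simp [tau, Finsupp.equivMapDomain]

theorem ev_tau (m : ℤ) (c : Gam A) (x : ℤ → A) : ev (tau m c) x = ev c (sh m x) := by
  have : (tau m c).support = c.support.map (Equiv.addRight m).toEmbedding := rfl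
  rw [ev, this, prod_map]
  simp [tau_apply, ev, sh]

theorem comm_sh {F : (ℤ → A) → (ℤ → A)} (h : ∀ x, F (shift x) = shift (F x)) (m : ℤ) :
    ∀ x, F (sh m x) = sh m (F x) := by
  have e1 : ∀ (a : ℤ) (x : ℤ → A), sh (a + 1) x = shift (sh a x) := fun a x => by
    funext i; simp only [sh, shift]; congr 1; ring
  have e2 : Function.Injective (shift : (ℤ → A) → _) := fun x y hxy => by
    funext i; simpa [shift] using congrFun hxy (i - 1)
  induction m using Int.induction_on with
  | zero => intro x; have : ∀ y : ℤ → A, sh 0 y = y := fun y => by funext i; simp [sh]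
            rw [this, this]
  | succ m ih => intro x; rw [e1, e1, h, ih]
  | pred m ih =>
    intro x
    apply e2
    rw [← h, ← e1, ← e1, sub_add_cancel, ih]

variable [Fintype A] [TopologicalSpace A] [DiscreteTopology A]

omit [Fintype A] in
theorem ev_cont (c : Gam A) : Continuous (ev c) :=
  continuous_finset_prod _ fun k _ => continuous_of_discreteTopology.comp (continuous_apply k)

theorem exists_ev (ψ : (ℤ → A) → ℂ) (hc : Continuous ψ) (h0 : ψ 0 = 1)
    (hm : ∀ x y, ψ (x + y) = ψ x * ψ y) : ∃ c : Gam A, ∀ x, ev c x = ψ x := by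
  classical
  let Ψ : AddChar (ℤ → A) ℂ := ⟨ψ, h0, hm⟩
  have hpow : ∀ x, ψ x ^ Fintype.card A = 1 := fun x => by
    have : Fintype.card A • x = 0 := funext fun i => card_nsmul_eq_zero
    show Ψ x ^ _ = 1
    rw [← AddChar.map_nsmul_eq_pow, this, AddChar.map_zero_eq_one]
  have hfin : {z : ℂ | z ^ Fintype.card A = 1 ∧ z ≠ 1}.Finite :=
    (Polynomial.nthRootsFinset (Fintype.card A) (1 : ℂ)).finite_toSet.subset fun z hz =>
      (Polynomial.mem_nthRootsFinset Fintype.card_pos _).2 hz.1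
  have hn : ψ ⁻¹' {z : ℂ | z ^ Fintype.card A = 1 ∧ z ≠ 1}ᶜ ∈ 𝓝 (0 : ℤ → A) :=
    (hfin.isClosed.isOpen_compl.preimage hc).mem_nhds (by simp [h0])
  rw [nhds_pi, Filter.mem_pi'] at hn
  obtain ⟨S, t, ht, hS⟩ := hn
  have h1 : ∀ x : ℤ → A, (∀ i ∈ S, x i = 0) → ψ x = 1 := fun x hx => by
    have : x ∈ (S : Set ℤ).pi t := fun i hi => by rw [hx i hi]; exact mem_of_mem_nhds (ht i)
    by_contra h2
    exact hS this ⟨hpow x, h2⟩
  let χ : ℤ → AddChar A ℂ := fun k => Ψ.compAddMonoidHom (AddMonoidHom.single (fun _ => A) k)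
  have hχ : ∀ k a, χ k a = ψ (Pi.single k a) := fun _ _ => rfl
  refine ⟨Finsupp.onFinset S χ fun k hk => ?_, fun x => ?_⟩
  · by_contra h2
    refine hk (AddChar.ext _ _ fun a => ?_)
    rw [hχ, h1 _ fun i hi => Pi.single_eq_of_ne (ne_of_mem_of_not_mem hi h2) _]
    rfl
  · rw [ev_eq _ Finsupp.support_onFinset_subset]
    simp only [Finsupp.onFinset_apply, hχ]
    have h2 : ∀ S : Finset ℤ, ψ (∑ k ∈ S, Pi.single k (x k)) = ∏ k ∈ S, ψ (Pi.single k (x k)) := by
      intro S
      induction S using Finset.induction_on with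
      | empty => simpa using h0
      | insert k S hk ih => rw [sum_insert hk, prod_insert hk, hm, ih]
    rw [← h2]
    have h3 := hm (∑ k ∈ S, Pi.single k (x k)) (x - ∑ k ∈ S, Pi.single k (x k))
    rw [add_sub_cancel, h1 (x - _), mul_one] at h3
    · exact h3.symm
    · intro i hi
      simp [Finset.sum_apply, Pi.single_apply, hi]

theorem exists_dual {F : (ℤ → A) → (ℤ → A)} (hF : IsACA F) (hb : Function.Bijective F) :
    ∃ G : Gam A →+ Gam A, Function.Bijective G ∧ (∀ c x, ev (G c) x = ev c (F x)) ∧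
      ∀ m c, G (tau m c) = tau m (G c) := by
  obtain ⟨h1, h2, h3⟩ := hF
  have h0 : F 0 = 0 := by simpa using h3 0 0
  have := fun c : Gam A => exists_ev (fun x => ev c (F x)) ((ev_cont c).comp h1)
    (by rw [h0, ev_map_zero]) (fun x y => by rw [h3, ev_map_add])
  choose G hG using this
  refine ⟨AddMonoidHom.mk' G fun c c' => ev_inj fun x => by rw [hG, ev_add, ev_add, hG, hG],
    ⟨fun c c' h => ev_inj fun x => ?_, fun c => ?_⟩, hG, fun m c => ev_inj fun x => ?_⟩
  · obtain ⟨y, rfl⟩ := hb.2 x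
    have h : G c = G c' := h
    rw [← hG, ← hG, h]
  · let e := (Equiv.ofBijective F hb)
    have he : Continuous e.symm := (Continuous.homeoOfEquivCompactToT2 (f := e) h1).symm.continuous
    have hee : ∀ x, F (e.symm x) = x := fun x => e.apply_symm_apply x
    obtain ⟨c', hc'⟩ := exists_ev (fun x => ev c (e.symm x)) ((ev_cont c).comp he)
      (by rw [show e.symm 0 = 0 from hb.1 (by rw [hee, h0]), ev_map_zero])
      (fun x y => by
        rw [show e.symm (x + y) = e.symm x + e.symm y from hb.1 (by rw [h3, hee, hee, hee]),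
          ev_map_add])
    refine ⟨c', ev_inj fun x => ?_⟩
    show ev (G c') x = _
    rw [hG, hc']
    exact congrArg _ (e.symm_apply_apply x)
  · show ev (G _) x = ev (tau m (G c)) x
    rw [hG, ev_tau, ev_tau, hG, comm_sh h2]

end chars

theorem dual_aux {E : Type} [AddCommGroup E] (G : (ℤ →₀ E) →+ (ℤ →₀ E))
    (hb : Function.Bijective G) (ht : ∀ m c, G (tau m c) = tau m (G c)) (p : ℕ) [Fact p.Prime]
    (P : AddSubgroup E) (hP : ∀ x, x ∈ P ↔ p • x = 0) [Module (ZMod p) P] [Finite P]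
    (U : Ultrafilter ℕ) (hU1 : (U : Filter ℕ) ≤ atTop) (c1 : ℤ →₀ E) (hc1 : c1 ≠ 0)
    (hc2 : p • c1 = 0) (W : ℕ) (hU2 : ∀ᶠ t in U, (G^[t] c1).support.card ≤ W) :
    ∃ (c : (ℤ →₀ E)) (R : ℕ), c ≠ 0 ∧ ∀ t, (G^[t] c).support.card ≤ R := by
  classical
  haveI : Module.Finite (ZMod p) P := Module.Finite.of_finite
  obtain ⟨ι, _, _, ⟨b⟩⟩ : ∃ (ι : Type) (_ : Fintype ι) (_ : DecidableEq ι),
      Nonempty (Module.Basis ι (ZMod p) P) := ⟨_, inferInstance, inferInstance,
        ⟨Module.finBasis (ZMod p) P⟩⟩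
  let Φ0 : (ι → LaurentPolynomial (ZMod p)) → (ℤ →₀ E) := fun w =>
    Finsupp.onFinset (univ.biUnion fun i => (w i).coeff.support)
      (fun k => (b.equivFun.symm fun i => (w i).coeff k : P)) fun k hk => by
        by_contra h
        apply hk
        have : (fun i => (w i).coeff k) = 0 := funext fun i => by
          by_contra h1
          exact h (mem_biUnion.2 ⟨i, mem_univ _, Finsupp.mem_support_iff.2 h1⟩)
        rw [this, map_zero]; rfl
  have hΦ0 : ∀ w k, Φ0 w k = (b.equivFun.symm fun i => (w i).coeff k : P) := fun _ _ => rfl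
  let Φ : (ι → LaurentPolynomial (ZMod p)) →+ (ℤ →₀ E) := AddMonoidHom.mk' Φ0 fun w w' => by
    ext1 k
    rw [Finsupp.add_apply, hΦ0, hΦ0, hΦ0, ← AddSubgroup.coe_add, ← map_add]
    rfl
  have hΦ : ∀ w k, Φ w k = (b.equivFun.symm fun i => (w i).coeff k : P) := fun _ _ => rfl
  have hz : ∀ w k, Φ w k = 0 → ∀ i, (w i).coeff k = 0 := fun w k h i => by
    rw [hΦ, ZeroMemClass.coe_eq_zero, LinearEquiv.map_eq_zero_iff] at h
    exact congrFun h i
  have hinj : Function.Injective Φ := (injective_iff_map_eq_zero Φ).2 fun w h => by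
    funext i
    ext k
    exact hz w k (by rw [h]; rfl) i
  have htor : ∀ w, p • Φ w = 0 := fun w => by
    ext1 k
    rw [Finsupp.smul_apply, hΦ]
    exact (hP _).1 (b.equivFun.symm fun i => (w i).coeff k).2
  have hsur : ∀ c : (ℤ →₀ E), p • c = 0 → ∃ w, Φ w = c := fun c hc => by
    have h1 : ∀ k, c k ∈ P := fun k => (hP _).2 (DFunLike.congr_fun hc k)
    refine ⟨fun i => AddMonoidAlgebra.ofCoeff (Finsupp.onFinset c.support
      (fun k => b.equivFun ⟨c k, h1 k⟩ i) fun k hk => ?_), ?_⟩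
    · rw [Finsupp.mem_support_iff]
      intro h2
      apply hk
      have : (⟨c k, h1 k⟩ : P) = 0 := Subtype.ext h2
      rw [this, map_zero]; rfl
    · ext1 k
      rw [hΦ]
      exact congrArg Subtype.val (b.equivFun.symm_apply_apply ⟨c k, h1 k⟩)
  have hT : ∀ m w, Φ ((T m : LaurentPolynomial (ZMod p)) • w) = tau m (Φ w) := fun m w => by
    ext1 k
    rw [tau_apply, hΦ, hΦ]
    simp only [Pi.smul_apply, smul_eq_mul, coeff_T_mul]
  choose M0 hM0 using fun w => hsur (G (Φ w)) (by rw [← map_nsmul, htor, map_zero])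
  let M1 : (ι → LaurentPolynomial (ZMod p)) →+ (ι → LaurentPolynomial (ZMod p)) :=
    AddMonoidHom.mk' M0 fun w w' => hinj (by rw [hM0, map_add, map_add, map_add, hM0, hM0])
  have hM1 : ∀ w, Φ (M1 w) = G (Φ w) := hM0
  let M : Module.End (LaurentPolynomial (ZMod p)) (ι → LaurentPolynomial (ZMod p)) :=
    { M1 with
      map_smul' := fun a w => by
        show M1 (a • w) = a • M1 w
        induction a using LaurentPolynomial.induction_on' with
        | add a a' h1 h2 => rw [add_smul, map_add, h1, h2, add_smul]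
        | C_mul_T m a =>
          have e : (C a : LaurentPolynomial (ZMod p)) = (a.val : LaurentPolynomial (ZMod p)) := by
            rw [← map_natCast (C : ZMod p →+* LaurentPolynomial (ZMod p)), ZMod.natCast_zmod_val]
          rw [mul_smul, mul_smul, e, Nat.cast_smul_eq_nsmul, Nat.cast_smul_eq_nsmul, map_nsmul]
          congr 1
          exact hinj (by rw [hM1, hT, hT, ht, hM1]) }
  have hM : ∀ w, Φ (M w) = G (Φ w) := hM0
  have hMb : Function.Bijective M := by
    refine ⟨fun w w' h => hinj (hb.1 (by rw [← hM, ← hM, h])), fun w => ?_⟩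
    obtain ⟨c, hc⟩ := hb.2 (Φ w)
    obtain ⟨w', rfl⟩ := hsur c (hb.1 (by rw [map_nsmul, hc, htor, map_zero]))
    exact ⟨w', hinj (by rw [hM, hc])⟩
  have hMt : ∀ (t : ℕ) w, Φ ((M ^ t) w) = G^[t] (Φ w) := fun t w => by
    induction t with
    | zero => rfl
    | succ t ih => rw [pow_succ', Module.End.mul_apply, hM, ih, Function.iterate_succ_apply']
  obtain ⟨v, hv⟩ := hsur _ hc2
  obtain ⟨g, s, k, hg, hs, he⟩ := soliton M hMb U hU1 v (by rintro rfl; exact hc1 (by
    rw [← hv, map_zero])) (W0 := W) (by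
      filter_upwards [hU2] with t ht
      refine ⟨_, ht, fun i k hk => hz _ k ?_ i⟩
      rw [hMt, hv, Finsupp.notMem_support_iff.1 hk])
  have hGt : ∀ (t : ℕ) m c, G^[t] (tau m c) = tau m (G^[t] c) := fun t m c => by
    induction t with
    | zero => rfl
    | succ t ih => rw [Function.iterate_succ_apply', Function.iterate_succ_apply', ih, ht]
  have hper : Function.Periodic (fun t => (G^[t] (Φ g)).support.card) s := fun t => by
    simp only
    rw [Function.iterate_add_apply, ← hMt s, he, hT, hGt, tau_card]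
  refine ⟨Φ g, (range s).sup fun t => (G^[t] (Φ g)).support.card,
    fun h => hg (hinj (by rw [h, map_zero])), fun t => ?_⟩
  have := hper.map_mod_nat t
  rw [← this]
  exact le_sup (f := fun t => (G^[t] (Φ g)).support.card) (mem_range.2 (Nat.mod_lt _ hs))

theorem dual_soliton {E : Type} [AddCommGroup E] [Fintype E] (G : (ℤ →₀ E) →+ (ℤ →₀ E))
    (hb : Function.Bijective G)
    (ht : ∀ m c, G (tau m c) = tau m (G c)) (c0 : (ℤ →₀ E)) (hc0 : c0 ≠ 0) (W : ℕ)
    (hW : ∃ᶠ t in atTop, (G^[t] c0).support.card ≤ W) :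
    ∃ (c : (ℤ →₀ E)) (R : ℕ), c ≠ 0 ∧ ∀ t, (G^[t] c).support.card ≤ R := by
  classical
  haveI : (atTop ⊓ 𝓟 {t | (G^[t] c0).support.card ≤ W}).NeBot := frequently_iff_neBot.1 hW
  let U := Ultrafilter.of (atTop ⊓ 𝓟 {t | (G^[t] c0).support.card ≤ W})
  have hU1 : (U : Filter ℕ) ≤ atTop := (Ultrafilter.of_le _).trans inf_le_left
  have hU2 : ∀ᶠ t in U, (G^[t] c0).support.card ≤ W :=
    le_principal_iff.1 ((Ultrafilter.of_le _).trans inf_le_right)
  have hfo : IsOfFinAddOrder c0 := isOfFinAddOrder_iff_nsmul_eq_zero.2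
    ⟨Fintype.card E, Fintype.card_pos, by ext1 k; exact card_nsmul_eq_zero⟩
  have hn0 := hfo.addOrderOf_pos
  have hn1 : addOrderOf c0 ≠ 1 := fun h => hc0 (AddMonoid.addOrderOf_eq_one_iff.1 h)
  set n := addOrderOf c0 with hn
  obtain ⟨p, hp, q, hq⟩ := Nat.exists_prime_and_dvd hn1
  haveI : Fact p.Prime := ⟨hp⟩
  have hq0 : q ≠ 0 := by rintro rfl; omega
  have hc1 : q • c0 ≠ 0 := nsmul_ne_zero_of_lt_addOrderOf hq0 (by
    rw [← hn, hq]; nlinarith [hp.two_le, Nat.pos_of_ne_zero hq0])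
  have hc2 : p • q • c0 = 0 := by rw [smul_smul, ← hq, hn, addOrderOf_nsmul_eq_zero]
  refine @dual_aux E _ G hb ht p _ (nsmulAddMonoidHom p : E →+ E).ker (fun _ => Iff.rfl)
    (AddCommGroup.zmodModule fun x => Subtype.ext x.2) _ U hU1 _ hc1 hc2 W ?_
  filter_upwards [hU2] with t ht
  rw [iterate_map_nsmul]
  exact (card_le_card Finsupp.support_smul).trans ht

end Pool.Agent.H69.Rca
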