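import Mathlib
import Pool.Agent.H69.Rca3

set_option autoImplicit false
set_option linter.unusedSectionVars false

namespace Pool.Agent.H69.Rca

open MeasureTheory Filter Topology Finset

variable {A : Type} [AddCommGroup A] [Fintype A] [TopologicalSpace A] [DiscreteTopology A]

noncomputable def evC (c : Gam A) : C(ℤ → A, ℂ) := ⟨ev c, ev_cont c⟩

noncomputable def Sub (A : Type) [AddCommGroup A] [Fintype A] [TopologicalSpace A]
    [DiscreteTopology A] : StarSubalgebra ℂ C(ℤ → A, ℂ) where
  toSubalgebra := Algebra.adjoin ℂ (Set.range evC)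
  star_mem' := by
    change Algebra.adjoin ℂ (Set.range (evC (A := A))) ≤
      star (Algebra.adjoin ℂ (Set.range (evC (A := A))))
    refine Algebra.adjoin_le ?_
    rintro - ⟨c, rfl⟩
    refine Algebra.subset_adjoin ⟨-c, ContinuousMap.ext fun x => ?_⟩
    show ev (-c) x = starRingEnd ℂ (ev c x)
    rw [ev_eq (-c) (Finsupp.support_neg c).subset, ev, map_prod]
    exact prod_congr rfl fun k _ => AddChar.map_neg_eq_conj (c k) (x k)

theorem span_dense : (Submodule.span ℂ (Set.range (evC (A := A)))).topologicalClosure = ⊤ := by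
  have h1 : Subalgebra.toSubmodule (Sub A).toSubalgebra =
      Submodule.span ℂ (Set.range (evC (A := A))) := by
    apply Algebra.adjoin_eq_span_of_subset
    refine Set.Subset.trans ?_ Submodule.subset_span
    intro x hx
    refine Submonoid.closure_induction (fun _ => id) ⟨0, ?_⟩ ?_ hx
    · ext1 z; exact ev_zero z
    · rintro - - - - ⟨m, rfl⟩ ⟨n, rfl⟩
      refine ⟨m + n, ?_⟩
      ext1 z
      exact ev_add m n z
  have h2 : (Sub A).SeparatesPoints := by
    intro x y hxy
    obtain ⟨k, hk⟩ := Function.ne_iff.1 hxy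
    obtain ⟨ψ, hψ⟩ := AddChar.exists_apply_ne_zero.2 (sub_ne_zero.2 hk)
    refine ⟨_, ⟨evC (Finsupp.single k ψ), Algebra.subset_adjoin ⟨_, rfl⟩, rfl⟩, ?_⟩
    show ev _ x ≠ ev _ y
    rw [ev_single', ev_single']
    intro h
    apply hψ
    rw [AddChar.map_sub_eq_div, h, div_self]
    intro h0
    simpa [h0] using ψ.norm_apply (y k)
  rw [← h1]
  exact congr_arg (Subalgebra.toSubmodule <| StarSubalgebra.toSubalgebra ·)
    (ContinuousMap.starSubalgebra_topologicalClosure_eq_top_of_separatesPoints _ h2)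

variable [MeasurableSpace A] [DiscreteMeasurableSpace A]

theorem integ {E : Type} [NormedAddCommGroup E] [SecondCountableTopology E]
    [MeasurableSpace E] [BorelSpace E] {f : (ℤ → A) → E} (hf : Continuous f)
    (μ : Measure (ℤ → A)) [IsFiniteMeasure μ] : Integrable f μ :=
  (BoundedContinuousFunction.mkOfCompact ⟨f, hf⟩).integrable μ

theorem conv_of (μ : ℕ → Measure (ℤ → A)) [∀ t, IsProbabilityMeasure (μ t)]
    (ν : Measure (ℤ → A)) [IsProbabilityMeasure ν]
    (h : ∀ c : Gam A, Tendsto (fun t => ∫ x, ev c x ∂μ t) atTop (𝓝 (∫ x, ev c x ∂ν)))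
    (f : C(ℤ → A, ℂ)) : Tendsto (fun t => ∫ x, f x ∂μ t) atTop (𝓝 (∫ x, f x ∂ν)) := by
  have h1 : ∀ g ∈ Submodule.span ℂ (Set.range (evC (A := A))),
      Tendsto (fun t => ∫ x, g x ∂μ t) atTop (𝓝 (∫ x, g x ∂ν)) := by
    intro g hg
    induction hg using Submodule.span_induction with
    | mem g hg => obtain ⟨c, rfl⟩ := hg; exact h c
    | zero => simp
    | add g g' _ _ h1 h2 =>
      simp only [ContinuousMap.add_apply, integral_add (integ g.continuous _)
        (integ g'.continuous _)]
      exact h1.add h2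
    | smul a g _ h1 =>
      simp only [ContinuousMap.smul_apply, integral_smul]
      exact h1.const_smul a
  have h2 : ∀ (g : C(ℤ → A, ℂ)) (ρ : Measure (ℤ → A)) [IsProbabilityMeasure ρ],
      dist (∫ x, f x ∂ρ) (∫ x, g x ∂ρ) ≤ dist f g := fun g ρ _ => by
    rw [dist_eq_norm, ← integral_sub (integ f.continuous _) (integ g.continuous _)]
    have := norm_integral_le_of_norm_le_const (μ := ρ) (f := fun x => f x - g x) (C := dist f g)
      (Eventually.of_forall fun x => by
        rw [← dist_eq_norm]; exact ContinuousMap.dist_apply_le_dist x)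
    simpa using this
  rw [Metric.tendsto_nhds]
  intro ε hε
  have hf : f ∈ closure (Submodule.span ℂ (Set.range (evC (A := A))) : Set C(ℤ → A, ℂ)) := by
    rw [← Submodule.topologicalClosure_coe, span_dense]; trivial
  obtain ⟨g, hg, hd⟩ := Metric.mem_closure_iff.1 hf (ε / 3) (by positivity)
  filter_upwards [Metric.tendsto_nhds.1 (h1 g hg) (ε / 3) (by positivity)] with t ht
  have h3 := dist_triangle4 (∫ x, f x ∂μ t) (∫ x, g x ∂μ t) (∫ x, g x ∂ν) (∫ x, f x ∂ν)
  have h4 := h2 g (μ t)
  have h5 := h2 g ν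
  rw [dist_comm] at h5
  linarith

theorem int_pi (ν : Measure A) [IsProbabilityMeasure ν] (c : Gam A) :
    ∫ x, ev c x ∂(Measure.infinitePi fun _ : ℤ => ν) = ∏ k ∈ c.support, ∫ a, c k a ∂ν := by
  have := integral_restrict_infinitePi (fun _ : ℤ => ν) (s := c.support)
    (f := fun y => ∏ k : c.support, c k (y k))
    (measurable_of_finite _).aestronglyMeasurable
  rw [integral_fintype_prod_eq_prod (fun (k : c.support) (a : A) => c k a),
    prod_coe_sort c.support fun k => ∫ a, c k a ∂ν] at this
  rw [← this]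
  congr 1
  funext x
  exact (prod_coe_sort c.support fun k => c k (x k)).symm

theorem int_unif {ψ : AddChar A ℂ} (h : ψ ≠ 0) :
    ∫ a, ψ a ∂(PMF.uniformOfFintype A).toMeasure = 0 := by
  classical
  rw [PMF.integral_eq_sum]
  simp only [PMF.uniformOfFintype_apply]
  rw [← smul_sum, AddChar.sum_eq_ite, if_neg h, smul_zero]

theorem int_haar {c : Gam A} (h : c ≠ 0) : ∫ x, ev c x ∂haar A = 0 := by
  obtain ⟨k, hk⟩ := Finsupp.support_nonempty_iff.2 h
  rw [haar, int_pi]
  exact prod_eq_zero hk (int_unif (Finsupp.mem_support_iff.1 hk))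

theorem exists_half : ∃ μ : Measure (ℤ → A), IsProbabilityMeasure μ ∧
    ∀ c : Gam A, ∫ x, ev c x ∂μ = (1 / 2) ^ c.support.card := by
  let ν : Measure A := (1 / 2 : NNReal) • Measure.dirac 0 +
    (1 / 2 : NNReal) • (PMF.uniformOfFintype A).toMeasure
  haveI : IsProbabilityMeasure ν := ⟨by
    simp only [ν, Measure.add_apply, Measure.smul_apply, measure_univ]
    rw [← add_smul, add_halves, one_smul]⟩
  refine ⟨Measure.infinitePi fun _ : ℤ => ν, inferInstance, fun c => ?_⟩
  rw [int_pi, ← prod_const]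
  refine prod_congr rfl fun k hk => ?_
  rw [integral_add_measure .of_finite .of_finite, integral_smul_nnreal_measure,
    integral_smul_nnreal_measure, int_unif (Finsupp.mem_support_iff.1 hk), integral_dirac]
  simp [NNReal.smul_def]

theorem dens_freq {D : Set ℕ} (h : DensityOne D) : ∃ᶠ t in atTop, t ∈ D := by
  classical
  by_contra h1
  rw [not_frequently, eventually_atTop] at h1
  obtain ⟨N, hN⟩ := h1
  have : Tendsto (fun n : ℕ => (((range (n + 1)).filter (· ∈ D)).card : ℝ) / n) atTop (𝓝 0) := by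
    refine squeeze_zero (fun n => by positivity) (fun n => ?_)
      (tendsto_const_div_atTop_nhds_zero_nat (N : ℝ))
    gcongr
    rw [← card_range N]
    refine card_le_card fun t ht => mem_range.2 ?_
    by_contra h2
    exact hN t (not_lt.1 h2) (mem_filter.1 ht).2
  have h2 := this.liminf_eq
  unfold DensityOne at h
  exact zero_ne_one (h2.symm.trans (by convert h))

theorem main {F : (ℤ → A) → (ℤ → A)} (hF : IsACA F) (hb : Function.Bijective F)
    (hD : InDensity F) : Strong F := by
  obtain ⟨G, hG, hev, ht⟩ := exists_dual hF hb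
  have hm : ∀ t : ℕ, Measurable F^[t] := fun t => (hF.1.iterate t).measurable
  have hit : ∀ (t : ℕ) c x, ev (G^[t] c) x = ev c (F^[t] x) := fun t => by
    induction t with
    | zero => intro c x; rfl
    | succ t ih =>
      intro c x
      rw [Function.iterate_succ_apply', hev, ih, Function.iterate_succ_apply]
  have hint : ∀ (μ : Measure (ℤ → A)) (t : ℕ) (c : Gam A),
      ∫ x, ev c x ∂μ.map F^[t] = ∫ x, ev (G^[t] c) x ∂μ := fun μ t c => by
    rw [integral_map (hm t).aemeasurable (ev_cont c).aestronglyMeasurable]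
    simp only [hit]
  haveI : IsProbabilityMeasure (haar A) := by unfold haar; infer_instance
  intro μ hμ hH f hf
  haveI := fun t => Measure.isProbabilityMeasure_map (μ := μ) (hm t).aemeasurable
  have key : ∀ c : Gam A, Tendsto (fun t => ∫ x, ev c x ∂μ.map F^[t]) atTop
      (𝓝 (∫ x, ev c x ∂haar A)) := by
    intro c
    by_cases hc : c = 0
    · simp [hc, ev_zero]
    rw [int_haar hc, Metric.tendsto_nhds]
    intro ε hε
    obtain ⟨W, hW⟩ := hH ε hε
    by_contra h1
    obtain ⟨c', R, hc', hR⟩ := dual_soliton G hG ht c hc W ((not_eventually.1 h1).mono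
      fun t h2 => not_lt.1 fun h3 => h2 (by rw [hint, dist_zero_right]; exact hW _ h3))
    obtain ⟨ρ, hρ, h2⟩ := exists_half (A := A)
    obtain ⟨D, h3, h4⟩ := hD ρ hρ fun ε hε => by
      obtain ⟨n, hn⟩ := exists_pow_lt_of_lt_one hε (by norm_num : (1 / 2 : ℝ) < 1)
      refine ⟨n, fun c hc => lt_of_le_of_lt ?_ hn⟩
      rw [h2, norm_pow]
      simpa using pow_le_pow_of_le_one (by norm_num : (0 : ℝ) ≤ 1 / 2) (by norm_num) hc.le
    haveI := fun t => Measure.isProbabilityMeasure_map (μ := ρ) (hm t).aemeasurable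
    haveI : (atTop ⊓ 𝓟 D).NeBot := frequently_iff_neBot.1 (dens_freq h3)
    have h5 := h4 (fun x => (ev c' x).re) (Complex.continuous_re.comp (ev_cont c'))
    have e : ∀ (σ : Measure (ℤ → A)) [IsFiniteMeasure σ],
        ∫ x, (ev c' x).re ∂σ = (∫ x, ev c' x ∂σ).re := fun σ _ =>
      integral_re (integ (ev_cont c') σ)
    simp only [e, int_haar hc', hint, h2] at h5
    have h6 := ge_of_tendsto' (b := (1 / 2 : ℝ) ^ R) h5 fun t => by
      have : ((1 / 2 : ℂ) ^ (G^[t] c').support.card) = (((1 / 2 : ℝ) ^ (G^[t] c').support.card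
        : ℝ) : ℂ) := by push_cast; rfl
      rw [this, Complex.ofReal_re]
      exact pow_le_pow_of_le_one (by norm_num) (by norm_num) (hR t)
    have : (0 : ℝ) < (1 / 2) ^ R := by positivity
    simp only [Complex.zero_re] at h6
    linarith
  have h := conv_of (fun t => μ.map F^[t]) (haar A) key
    ⟨fun x => (f x : ℂ), Complex.continuous_ofReal.comp hf⟩
  simp only [ContinuousMap.coe_mk, integral_complex_ofReal] at h
  exact (Complex.continuous_re.tendsto _).comp h

end Pool.Agent.H69.Rca
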