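import Mathlib

namespace Pool.Agent.H69.Rd

open scoped Pointwise Classical

variable {G : Type*} [Group G]

/-- `L` is a length function on `G`. -/
def IsLength (L : G → ℝ) : Prop :=
  (∀ g, 0 ≤ L g) ∧ L 1 = 0 ∧ (∀ g, L g⁻¹ = L g) ∧ ∀ g h, L (g * h) ≤ L g + L h

/-- Convolution of a finitely supported function with an arbitrary function. -/
noncomputable def conv (φ : G →₀ ℂ) (ψ : G → ℂ) (g : G) : ℂ :=
  ∑ h ∈ φ.support, φ h * ψ (h⁻¹ * g)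

/-- Property RD. -/
def RD (L : G → ℝ) : Prop :=
  ∃ P : Polynomial ℝ, ∀ r : ℝ, 0 < r → ∀ φ : G →₀ ℂ, (∀ h ∈ φ.support, L h ≤ r) →
    ∀ ψ : G → ℂ, Summable (fun g => ‖ψ g‖ ^ 2) →
      Summable (fun g => ‖conv φ ψ g‖ ^ 2) ∧
      ∑' g, ‖conv φ ψ g‖ ^ 2 ≤ P.eval r * (∑ h ∈ φ.support, ‖φ h‖ ^ 2) * ∑' g, ‖ψ g‖ ^ 2

/-- The indicator condition. -/
def Indicator (L : G → ℝ) : Prop :=
  ∃ P : Polynomial ℝ, ∀ r : ℝ, 0 < r → ∀ S X : Finset G, (∀ s ∈ S, L s ≤ r) →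
    ∑ g ∈ S * X, ((((S ×ˢ X).filter (fun p => p.1 * p.2 = g)).card : ℝ)) ^ 2 ≤
      P.eval r * S.card * X.card

/-- Word length with respect to `A`: the least length of a list of elements of `A ∪ A⁻¹` with
product `g`. -/
noncomputable def wordLength (A : Set G) (g : G) : ℕ :=
  sInf {n | ∃ l : List G, l.length = n ∧ (∀ a ∈ l, a ∈ A ∨ a⁻¹ ∈ A) ∧ l.prod = g}

end Pool.Agent.H69.Rd
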