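import Mathlib
import Pool.Agent.H69.RdDefs

namespace Pool.Agent.H69.Rd

open scoped Pointwise Classical
open Finset

theorem lo {x : ℝ} (h : 0 < x) : (2 : ℝ) ^ (Int.log 2 x) ≤ x := by
  have := Int.zpow_log_le_self (R := ℝ) (b := 2) (by norm_num) h
  simpa using this

theorem hi' (x : ℝ) : x ≤ (2 : ℝ) ^ (Int.log 2 x + 1) := by
  have := Int.lt_zpow_succ_log_self (R := ℝ) (b := 2) (by norm_num) x
  simpa using this.le

theorem levels {ι : Type*} (I : Finset ι) (b : ι → ℝ) (hb : ∀ i, 0 ≤ b i) (D : ℕ)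
    (hD : (I.card : ℝ) ≤ 2 ^ D) (J : Finset ℤ) (hJ : ∀ i ∈ I, 0 < b i → Int.log 2 (b i) ∈ J) :
    (∑ i ∈ I, b i) ^ 2 ≤ 4 * (D + 1) *
      ∑ j ∈ J, ((2 : ℝ) ^ (j + 1) * (I.filter (fun i => 0 < b i ∧ Int.log 2 (b i) = j)).card) ^ 2 := by
  set t : ℤ → ℝ := fun j =>
    (2 : ℝ) ^ (j + 1) * (I.filter (fun i => 0 < b i ∧ Int.log 2 (b i) = j)).card with ht
  have t0 : ∀ j, 0 ≤ t j := fun j => by positivity
  rcases (I.filter (fun i => 0 < b i)).eq_empty_or_nonempty with h | h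
  · have : ∑ i ∈ I, b i = 0 := by
      refine sum_eq_zero (fun i hi => ?_)
      have := filter_eq_empty_iff.1 h hi
      exact le_antisymm (not_lt.1 this) (hb i)
    rw [this]
    have : 0 ≤ ∑ j ∈ J, t j ^ 2 := sum_nonneg (fun j _ => sq_nonneg _)
    rw [zero_pow two_ne_zero]
    exact mul_nonneg (by positivity) this
  obtain ⟨i0, hi0, hmax⟩ := exists_max_image _ (fun i => Int.log 2 (b i)) h
  set m := Int.log 2 (b i0) with hm
  rw [mem_filter] at hi0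
  set W := Icc (m - D) m with hW
  have e1 : ∑ i ∈ I.filter (fun i => 0 < b i ∧ m - D ≤ Int.log 2 (b i)), b i ≤ ∑ j ∈ W, t j := by
    rw [← sum_fiberwise_of_maps_to (g := fun i => Int.log 2 (b i)) (t := W)]
    · refine sum_le_sum (fun j hj => ?_)
      refine (sum_le_card_nsmul _ _ ((2 : ℝ) ^ (j + 1)) (fun i hi => ?_)).trans ?_
      · rw [← (mem_filter.1 hi).2]
        exact hi' _
      · rw [nsmul_eq_mul, mul_comm]
        refine mul_le_mul_of_nonneg_left ?_ (by positivity)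
        refine Nat.cast_le.2 (card_le_card (fun i hi => ?_))
        have h1 := mem_filter.1 hi
        have h2 := mem_filter.1 h1.1
        exact mem_filter.2 ⟨h2.1, h2.2.1, h1.2⟩
    · intro i hi
      rw [mem_filter] at hi
      exact mem_Icc.2 ⟨hi.2.2, hmax i (mem_filter.2 ⟨hi.1, hi.2.1⟩)⟩
  have e2 : ∑ i ∈ I.filter (fun i => ¬ (0 < b i ∧ m - D ≤ Int.log 2 (b i))), b i ≤ ∑ j ∈ W, t j := by
    have a1 : ∑ i ∈ I.filter (fun i => ¬ (0 < b i ∧ m - D ≤ Int.log 2 (b i))), b i ≤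
        2 ^ D * (2 : ℝ) ^ (m - D) := by
      refine (sum_le_card_nsmul _ _ ((2 : ℝ) ^ (m - D)) (fun i hi => ?_)).trans ?_
      · have := (mem_filter.1 hi).2
        by_cases h0 : 0 < b i
        · refine (hi' _).trans (zpow_le_zpow_right₀ (by norm_num) ?_)
          have := not_le.1 (fun h => this ⟨h0, h⟩)
          omega
        · exact (not_lt.1 h0).trans (by positivity)
      · rw [nsmul_eq_mul]
        refine mul_le_mul_of_nonneg_right (le_trans ?_ hD) (by positivity)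
        exact_mod_cast card_filter_le _ _
    have a2 : 2 ^ D * (2 : ℝ) ^ (m - D) ≤ t m := by
      rw [← zpow_natCast, ← zpow_add₀ (by norm_num)]
      have : 1 ≤ (I.filter (fun i => 0 < b i ∧ Int.log 2 (b i) = m)).card :=
        card_pos.2 ⟨i0, mem_filter.2 ⟨hi0.1, hi0.2, rfl⟩⟩
      have this : (1 : ℝ) ≤ (I.filter (fun i => 0 < b i ∧ Int.log 2 (b i) = m)).card := by
        exact_mod_cast this
      have a3 : (2 : ℝ) ^ (D + (m - D)) ≤ 2 ^ (m + 1) := zpow_le_zpow_right₀ (by norm_num) (by omega)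
      have a4 : (0 : ℝ) < 2 ^ (m + 1) := by positivity
      exact a3.trans (le_mul_of_one_le_right a4.le this)
    exact a1.trans (a2.trans (single_le_sum (fun j _ => t0 j) (mem_Icc.2 ⟨by omega, le_rfl⟩)))
  have e3 : ∑ i ∈ I, b i ≤ 2 * ∑ j ∈ W, t j := by
    rw [← sum_filter_add_sum_filter_not I (fun i => 0 < b i ∧ m - D ≤ Int.log 2 (b i))]
    linarith
  have e4 : (∑ j ∈ W, t j) ^ 2 ≤ (D + 1) * ∑ j ∈ W, t j ^ 2 := by
    refine (sq_sum_le_card_mul_sum_sq).trans ?_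
    have : W.card = D + 1 := by
      rw [hW, Int.card_Icc]
      omega
    rw [this]
    push_cast
    rfl
  have e5 : ∑ j ∈ W, t j ^ 2 ≤ ∑ j ∈ J, t j ^ 2 := by
    refine le_trans (le_of_eq (sum_subset (inter_subset_left (s₂ := J)) (fun j hw hj => ?_)).symm)
      (sum_le_sum_of_subset_of_nonneg inter_subset_right (fun j _ _ => sq_nonneg _))
    have hn : j ∉ J := fun h => hj (mem_inter.2 ⟨hw, h⟩)
    have : I.filter (fun i => 0 < b i ∧ Int.log 2 (b i) = j) = ∅ :=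
      filter_eq_empty_iff.2 (fun i hi h => hn (h.2 ▸ hJ i hi h.1))
    have e : t j = (2 : ℝ) ^ (j + 1) * (∅ : Finset ι).card := by rw [← this]
    rw [e, card_empty, Nat.cast_zero, mul_zero, zero_pow two_ne_zero]
  have e6 : 0 ≤ ∑ i ∈ I, b i := sum_nonneg (fun i _ => hb i)
  have e7 : (∑ i ∈ I, b i) ^ 2 ≤ (2 * ∑ j ∈ W, t j) ^ 2 := pow_le_pow_left₀ e6 e3 2
  have e8 : ((D : ℝ) + 1) * ∑ j ∈ W, t j ^ 2 ≤ (D + 1) * ∑ j ∈ J, t j ^ 2 :=
    mul_le_mul_of_nonneg_left e5 (by positivity)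
  show _ ≤ 4 * (D + 1) * ∑ j ∈ J, t j ^ 2
  calc _ ≤ _ := e7
    _ = 4 * (∑ j ∈ W, t j) ^ 2 := by ring
    _ ≤ 4 * ((D + 1) * ∑ j ∈ J, t j ^ 2) := by linarith
    _ = _ := by ring

variable {G : Type*} [Group G]

theorem ind_psi (T X F : Finset G) (ψ : G → ℝ) (hψ : ∀ g, 0 ≤ ψ g) (D : ℕ)
    (hD : (T.card : ℝ) ≤ 2 ^ D) (hX : ∀ s ∈ T, ∀ g ∈ F, s⁻¹ * g ∈ X) (p : ℝ) (hp : 0 ≤ p)
    (H : ∀ Y : Finset G, ∑ g ∈ T * Y, ((((T ×ˢ Y).filter (fun q => q.1 * q.2 = g)).card : ℝ)) ^ 2 ≤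
      p * T.card * Y.card) :
    ∑ g ∈ F, (∑ s ∈ T, ψ (s⁻¹ * g)) ^ 2 ≤ 16 * (D + 1) * p * T.card * ∑ x ∈ X, ψ x ^ 2 := by
  let J := X.image (fun x => Int.log 2 (ψ x))
  let Y : ℤ → Finset G := fun j => X.filter (fun x => 0 < ψ x ∧ Int.log 2 (ψ x) = j)
  have e1 : ∀ j, ∑ g ∈ F, (((T.filter (fun s => 0 < ψ (s⁻¹ * g) ∧
      Int.log 2 (ψ (s⁻¹ * g)) = j)).card : ℝ)) ^ 2 ≤ p * T.card * (Y j).card := by
    intro j
    refine le_trans ?_ (H (Y j))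
    have a1 : ∀ g ∈ F, (((T.filter (fun s => 0 < ψ (s⁻¹ * g) ∧
        Int.log 2 (ψ (s⁻¹ * g)) = j)).card : ℝ)) ^ 2 ≤
        ((((T ×ˢ Y j).filter (fun q => q.1 * q.2 = g)).card : ℝ)) ^ 2 := by
      intro g hg
      refine pow_le_pow_left₀ (Nat.cast_nonneg _) (Nat.cast_le.2 ?_) 2
      refine card_le_card_of_injOn (fun s => (s, s⁻¹ * g)) (fun s hs => ?_)
        (fun a _ b _ h => congrArg Prod.fst h)
      have h1 := mem_filter.1 (mem_coe.1 hs)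
      exact mem_coe.2 (mem_filter.2 ⟨mem_product.2 ⟨h1.1, mem_filter.2 ⟨hX s h1.1 g hg, h1.2⟩⟩,
        mul_inv_cancel_left _ _⟩)
    refine (sum_le_sum a1).trans ?_
    refine le_trans (le_of_eq (sum_subset (inter_subset_left (s₂ := T * Y j)) (fun g _ hj => ?_)).symm)
      (sum_le_sum_of_subset_of_nonneg inter_subset_right (fun j _ _ => sq_nonneg _))
    have : (T ×ˢ Y j).filter (fun q => q.1 * q.2 = g) = ∅ :=
      filter_eq_empty_iff.2 (fun q hq h => hj (mem_inter.2 ⟨‹_›, h ▸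
        mul_mem_mul (mem_product.1 hq).1 (mem_product.1 hq).2⟩))
    rw [this, card_empty, Nat.cast_zero, zero_pow two_ne_zero]
  have e2 : ∑ j ∈ J, ((2 : ℝ) ^ (j + 1)) ^ 2 * (Y j).card ≤ 4 * ∑ x ∈ X, ψ x ^ 2 := by
    rw [← sum_fiberwise_of_maps_to (g := fun x => Int.log 2 (ψ x)) (t := J)
      (fun x hx => mem_image_of_mem _ hx), mul_sum]
    refine sum_le_sum (fun j _ => ?_)
    have a1 : (Y j).card • ((2 : ℝ) ^ j) ^ 2 ≤ ∑ x ∈ Y j, ψ x ^ 2 := by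
      refine card_nsmul_le_sum _ _ _ (fun x hx => ?_)
      have h1 := mem_filter.1 hx
      refine pow_le_pow_left₀ (by positivity) ?_ 2
      rw [← h1.2.2]
      exact lo h1.2.1
    have a2 : ∑ x ∈ Y j, ψ x ^ 2 ≤ ∑ x ∈ X.filter (fun x => Int.log 2 (ψ x) = j), ψ x ^ 2 :=
      sum_le_sum_of_subset_of_nonneg (fun x hx => mem_filter.2 ⟨(mem_filter.1 hx).1,
        (mem_filter.1 hx).2.2⟩) (fun _ _ _ => sq_nonneg _)
    rw [nsmul_eq_mul] at a1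
    rw [zpow_add₀ (by norm_num), zpow_one]
    linarith
  calc _ ≤ ∑ g ∈ F, 4 * (D + 1) * ∑ j ∈ J, ((2 : ℝ) ^ (j + 1) * (T.filter (fun s =>
        0 < ψ (s⁻¹ * g) ∧ Int.log 2 (ψ (s⁻¹ * g)) = j)).card) ^ 2 :=
        sum_le_sum (fun g hg => levels T (fun s => ψ (s⁻¹ * g)) (fun _ => hψ _) D hD J
          (fun s hs _ => mem_image_of_mem _ (hX s hs g hg)))
    _ = 4 * (D + 1) * ∑ j ∈ J, ((2 : ℝ) ^ (j + 1)) ^ 2 * ∑ g ∈ F, (((T.filter (fun s =>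
        0 < ψ (s⁻¹ * g) ∧ Int.log 2 (ψ (s⁻¹ * g)) = j)).card : ℝ)) ^ 2 := by
        rw [← mul_sum, sum_comm]
        congr 1
        refine sum_congr rfl (fun j _ => ?_)
        rw [mul_sum]
        exact sum_congr rfl (fun g _ => mul_pow _ _ _)
    _ ≤ 4 * (D + 1) * ∑ j ∈ J, ((2 : ℝ) ^ (j + 1)) ^ 2 * (p * T.card * (Y j).card) :=
        mul_le_mul_of_nonneg_left (sum_le_sum (fun j _ =>
          mul_le_mul_of_nonneg_left (e1 j) (sq_nonneg _))) (by positivity)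
    _ = 4 * (D + 1) * (p * T.card) * ∑ j ∈ J, ((2 : ℝ) ^ (j + 1)) ^ 2 * (Y j).card := by
        rw [mul_assoc (4 * ((D : ℝ) + 1)), mul_sum J _ (p * T.card)]
        congr 1
        exact sum_congr rfl (fun j _ => by ring)
    _ ≤ 4 * (D + 1) * (p * T.card) * (4 * ∑ x ∈ X, ψ x ^ 2) :=
        mul_le_mul_of_nonneg_left e2 (by positivity)
    _ = _ := by ring

theorem phi_levels {ι : Type*} (S : Finset ι) (φ : ι → ℝ) (hφ : ∀ s ∈ S, 0 < φ s) (D : ℕ)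
    (hD : (S.card : ℝ) ≤ 2 ^ D) : ∃ (K : Finset ℤ) (k : ι → ℤ), K.card ≤ D + 1 ∧
      (∀ s ∈ S, k s ∈ K ∧ φ s ≤ (2 : ℝ) ^ (k s + 1)) ∧
      ∑ s ∈ S, ((2 : ℝ) ^ (k s + 1)) ^ 2 ≤ 8 * ∑ s ∈ S, φ s ^ 2 := by
  rcases S.eq_empty_or_nonempty with rfl | h
  · exact ⟨∅, fun _ => 0, by simp, by simp, by simp⟩
  obtain ⟨i0, hi0, hmax⟩ := exists_max_image _ (fun i => Int.log 2 (φ i)) h
  generalize hm : Int.log 2 (φ i0) = m at hmax
  refine ⟨Icc (m - D) m, fun s => max (Int.log 2 (φ s)) (m - D), ?_, fun s hs => ⟨?_, ?_⟩, ?_⟩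
  · rw [Int.card_Icc]
    omega
  · have := hmax s hs
    exact mem_Icc.2 ⟨le_max_right _ _, max_le this (by omega)⟩
  · exact (hi' _).trans (zpow_le_zpow_right₀ (by norm_num) (add_le_add_left (le_max_left _ _) _))
  have a1 : ∀ s ∈ S, ((2 : ℝ) ^ (max (Int.log 2 (φ s)) (m - D) + 1)) ^ 2 ≤
      4 * φ s ^ 2 + 4 * ((2 : ℝ) ^ (m - D)) ^ 2 := by
    intro s hs
    have b1 := pow_le_pow_left₀ (by positivity) (lo (hφ s hs)) 2
    have b2 := sq_nonneg (φ s)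
    have b3 := sq_nonneg ((2 : ℝ) ^ (m - D))
    rw [zpow_add₀ (by norm_num), zpow_one, mul_pow]
    rcases max_choice (Int.log 2 (φ s)) (m - D) with e | e <;> rw [e] <;> linarith
  refine (sum_le_sum a1).trans ?_
  rw [sum_add_distrib, ← mul_sum, sum_const, nsmul_eq_mul]
  have a2 : ((2 : ℝ) ^ m) ^ 2 ≤ ∑ s ∈ S, φ s ^ 2 := by
    refine le_trans ?_ (single_le_sum (f := fun s => φ s ^ 2) (fun _ _ => sq_nonneg _) hi0)
    rw [← hm]
    exact pow_le_pow_left₀ (by positivity) (lo (hφ _ hi0)) 2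
  have a3 : (2 : ℝ) ^ D * ((2 : ℝ) ^ (m - D)) ^ 2 ≤ ((2 : ℝ) ^ m) ^ 2 := by
    rw [← zpow_natCast, ← zpow_natCast, ← zpow_natCast, ← zpow_mul, ← zpow_mul,
      ← zpow_add₀ (by norm_num)]
    exact zpow_le_zpow_right₀ (by norm_num) (by push_cast; omega)
  have a4 := mul_le_mul_of_nonneg_right hD (sq_nonneg ((2 : ℝ) ^ (m - D)))
  linarith

theorem fin_bound (S X F : Finset G) (φ ψ : G → ℝ) (hφ : ∀ s ∈ S, 0 < φ s) (hψ : ∀ g, 0 ≤ ψ g)
    (D : ℕ) (hD : (S.card : ℝ) ≤ 2 ^ D) (hX : ∀ s ∈ S, ∀ g ∈ F, s⁻¹ * g ∈ X) (p : ℝ) (hp : 0 ≤ p)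
    (H : ∀ T ⊆ S, ∀ Y : Finset G, ∑ g ∈ T * Y,
      ((((T ×ˢ Y).filter (fun q => q.1 * q.2 = g)).card : ℝ)) ^ 2 ≤ p * T.card * Y.card) :
    ∑ g ∈ F, (∑ s ∈ S, φ s * ψ (s⁻¹ * g)) ^ 2 ≤
      128 * (D + 1) ^ 2 * p * (∑ s ∈ S, φ s ^ 2) * ∑ x ∈ X, ψ x ^ 2 := by
  obtain ⟨K, k, hK, hk, hs⟩ := phi_levels S φ hφ D hD
  let T : ℤ → Finset G := fun j => S.filter (fun s => k s = j)
  have hn : 0 ≤ ∑ x ∈ X, ψ x ^ 2 := sum_nonneg (fun _ _ => sq_nonneg _)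
  have e1 : ∀ g, (∑ s ∈ S, φ s * ψ (s⁻¹ * g)) ^ 2 ≤
      (D + 1) * ∑ j ∈ K, ((2 : ℝ) ^ (j + 1)) ^ 2 * (∑ s ∈ T j, ψ (s⁻¹ * g)) ^ 2 := by
    intro g
    have a1 : ∑ s ∈ S, φ s * ψ (s⁻¹ * g) ≤
        ∑ j ∈ K, (2 : ℝ) ^ (j + 1) * ∑ s ∈ T j, ψ (s⁻¹ * g) := by
      rw [← sum_fiberwise_of_maps_to (g := k) (t := K) (fun s hs => (hk s hs).1)]
      refine sum_le_sum (fun j _ => ?_)
      rw [mul_sum]
      refine sum_le_sum (fun s hs => mul_le_mul_of_nonneg_right ?_ (hψ _))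
      have h1 := mem_filter.1 hs
      rw [← h1.2]
      exact (hk s h1.1).2
    refine (pow_le_pow_left₀ (sum_nonneg (fun s hs => mul_nonneg (hφ s hs).le (hψ _))) a1 2).trans
      (sq_sum_le_card_mul_sum_sq.trans ?_)
    refine mul_le_mul (by exact_mod_cast hK) (le_of_eq (sum_congr rfl (fun j _ => mul_pow _ _ _)))
      (sum_nonneg (fun _ _ => sq_nonneg _)) (by positivity)
  have e2 : ∑ j ∈ K, ((2 : ℝ) ^ (j + 1)) ^ 2 * (T j).card ≤ 8 * ∑ s ∈ S, φ s ^ 2 := by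
    refine le_trans (le_of_eq ?_) hs
    rw [← sum_fiberwise_of_maps_to (g := k) (t := K) (fun s hs => (hk s hs).1)]
    refine sum_congr rfl (fun j _ => ?_)
    rw [mul_comm, ← nsmul_eq_mul, ← sum_const]
    exact sum_congr rfl (fun s hs => by rw [(mem_filter.1 hs).2])
  calc _ ≤ ∑ g ∈ F, (D + 1) * ∑ j ∈ K, ((2 : ℝ) ^ (j + 1)) ^ 2 * (∑ s ∈ T j, ψ (s⁻¹ * g)) ^ 2 :=
        sum_le_sum (fun g _ => e1 g)
    _ = (D + 1) * ∑ j ∈ K, ((2 : ℝ) ^ (j + 1)) ^ 2 * ∑ g ∈ F, (∑ s ∈ T j, ψ (s⁻¹ * g)) ^ 2 := by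
        rw [← mul_sum, sum_comm]
        congr 1
        exact sum_congr rfl (fun j _ => (mul_sum _ _ _).symm)
    _ ≤ (D + 1) * ∑ j ∈ K, ((2 : ℝ) ^ (j + 1)) ^ 2 *
          (16 * (D + 1) * p * (T j).card * ∑ x ∈ X, ψ x ^ 2) :=
        mul_le_mul_of_nonneg_left (sum_le_sum (fun j _ => mul_le_mul_of_nonneg_left
          (ind_psi (T j) X F ψ hψ D (le_trans (Nat.cast_le.2 (card_filter_le _ _)) hD)
            (fun s hs => hX s (mem_filter.1 hs).1) p hp (H _ (filter_subset _ _))) (sq_nonneg _)))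
          (by positivity)
    _ = (D + 1) * (16 * (D + 1) * p * ∑ x ∈ X, ψ x ^ 2) *
          ∑ j ∈ K, ((2 : ℝ) ^ (j + 1)) ^ 2 * (T j).card := by
        rw [mul_assoc ((D : ℝ) + 1), mul_sum K _ (16 * (D + 1) * p * ∑ x ∈ X, ψ x ^ 2)]
        congr 1
        exact sum_congr rfl (fun j _ => by ring)
    _ ≤ (D + 1) * (16 * (D + 1) * p * ∑ x ∈ X, ψ x ^ 2) * (8 * ∑ s ∈ S, φ s ^ 2) :=
        mul_le_mul_of_nonneg_left e2 (by positivity)
    _ = _ := by ring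

theorem main (L : G → ℝ) (h1 : L 1 = 0) (Q : Polynomial ℝ)
    (hQ : ∀ r : ℝ, 0 < r → ∀ S : Finset G, (∀ s ∈ S, L s ≤ r) → (S.card : ℝ) ≤ Real.exp (Q.eval r))
    (H : Indicator L) : RD L := by
  obtain ⟨P, hP⟩ := H
  refine ⟨128 * (2 * Q + 2) ^ 2 * P, fun r hr φ hφ ψ hψ => ?_⟩
  have hp : 0 ≤ P.eval r := by
    have := hP r hr {1} {1} (by simp [h1, hr.le])
    simp only [card_singleton, Nat.cast_one, mul_one] at this
    exact le_trans (sum_nonneg (fun _ _ => sq_nonneg _)) this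
  have hq : 0 ≤ Q.eval r := by
    have := hQ r hr {1} (by simp [h1, hr.le])
    simpa using this
  let D := ⌈2 * Q.eval r⌉₊
  have d1 : 2 * Q.eval r ≤ D := Nat.le_ceil _
  have d2 : (D : ℝ) < 2 * Q.eval r + 1 := Nat.ceil_lt_add_one (by positivity)
  have hD : (φ.support.card : ℝ) ≤ 2 ^ D := by
    refine (hQ r hr _ hφ).trans ?_
    have := Real.log_two_gt_d9
    have e : (2 : ℝ) ^ D = Real.exp (D * Real.log 2) := by
      rw [Real.exp_nat_mul, Real.exp_log (by norm_num)]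
    rw [e]
    refine Real.exp_le_exp.2 ?_
    have : (0 : ℝ) ≤ D := Nat.cast_nonneg _
    nlinarith
  have key : ∀ F : Finset G, ∑ g ∈ F, ‖conv φ ψ g‖ ^ 2 ≤ (128 * (2 * Q + 2) ^ 2 * P).eval r *
      (∑ h ∈ φ.support, ‖φ h‖ ^ 2) * ∑' g, ‖ψ g‖ ^ 2 := by
    intro F
    have a1 := fin_bound φ.support (φ.support⁻¹ * F) F (fun s => ‖φ s‖) (fun g => ‖ψ g‖)
      (fun s hs => norm_pos_iff.2 (Finsupp.mem_support_iff.1 hs)) (fun _ => norm_nonneg _) D hD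
      (fun s hs g hg => mul_mem_mul (inv_mem_inv hs) hg) _ hp
      (fun T hT Y => hP r hr T Y (fun s hs => hφ s (hT hs)))
    have a2 : ∑ g ∈ F, ‖conv φ ψ g‖ ^ 2 ≤ ∑ g ∈ F, (∑ s ∈ φ.support, ‖φ s‖ * ‖ψ (s⁻¹ * g)‖) ^ 2 := by
      refine sum_le_sum (fun g _ => pow_le_pow_left₀ (norm_nonneg _) ?_ 2)
      refine (norm_sum_le _ _).trans (le_of_eq (sum_congr rfl (fun s _ => norm_mul _ _)))
    have a3 : ∑ x ∈ φ.support⁻¹ * F, ‖ψ x‖ ^ 2 ≤ ∑' g, ‖ψ g‖ ^ 2 :=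
      hψ.sum_le_tsum _ (fun _ _ => sq_nonneg _)
    have a4 : 0 ≤ ∑ h ∈ φ.support, ‖φ h‖ ^ 2 := sum_nonneg (fun _ _ => sq_nonneg _)
    have a5 : 0 ≤ ∑ x ∈ φ.support⁻¹ * F, ‖ψ x‖ ^ 2 := sum_nonneg (fun _ _ => sq_nonneg _)
    refine a2.trans (a1.trans ?_)
    have e : (128 * (2 * Q + 2) ^ 2 * P).eval r = 128 * (2 * Q.eval r + 2) ^ 2 * P.eval r := by
      simp
    rw [e]
    have a6 : (D : ℝ) + 1 ≤ 2 * Q.eval r + 2 := by linarith
    gcongr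
  exact ⟨summable_of_sum_le (fun _ => sq_nonneg _) key,
    Real.tsum_le_of_sum_le (fun _ => sq_nonneg _) key⟩

theorem prod_mem (B : Finset G) (h1 : (1 : G) ∈ B) (l : List G) (hl : ∀ a ∈ l, a ∈ B) (n : ℕ)
    (hn : l.length ≤ n) : l.prod ∈ B ^ n := by
  refine pow_subset_pow_right h1 hn ?_
  clear hn
  induction l with
  | nil => simp
  | cons a l ih =>
    rw [List.prod_cons, List.length_cons, pow_succ']
    exact mul_mem_mul (hl a (by simp)) (ih (fun b hb => hl b (by simp [hb])))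

theorem word (A : Finset G) (hA : Subgroup.closure (A : Set G) = ⊤)
    (H : Indicator (fun g => (wordLength (A : Set G) g : ℝ))) :
    RD (fun g => (wordLength (A : Set G) g : ℝ)) := by
  let B := insert 1 (A ∪ A⁻¹)
  refine main _ ?_ (Polynomial.C (B.card : ℝ) * Polynomial.X) (fun r hr S hS => ?_) H
  · have : wordLength (A : Set G) 1 ≤ 0 := Nat.sInf_le ⟨[], rfl, by simp, rfl⟩
    simpa using this
  have e1 : S ⊆ B ^ ⌊r⌋₊ := by
    intro g hg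
    have hne : {n | ∃ l : List G, l.length = n ∧ (∀ a ∈ l, a ∈ (A : Set G) ∨ a⁻¹ ∈ (A : Set G)) ∧
        l.prod = g}.Nonempty := by
      have : g ∈ (Subgroup.closure (A : Set G)).toSubmonoid := by
        rw [hA]
        trivial
      rw [Subgroup.closure_toSubmonoid] at this
      obtain ⟨l, h1, h2⟩ := Submonoid.exists_list_of_mem_closure this
      exact ⟨_, l, rfl, fun a ha => by simpa using h1 a ha, h2⟩
    obtain ⟨l, h1, h2, rfl⟩ := Nat.sInf_mem hne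
    refine prod_mem B (mem_insert_self _ _) l (fun a ha => ?_) _ (Nat.le_floor ?_)
    · have := h2 a ha
      simp only [mem_coe] at this
      refine mem_insert_of_mem (mem_union.2 (this.imp id (fun h => ?_)))
      simpa using inv_mem_inv h
    · rw [h1]
      exact hS _ hg
  have e2 : (S.card : ℝ) ≤ (B.card : ℝ) ^ ⌊r⌋₊ := by
    exact_mod_cast (card_le_card e1).trans card_pow_le
  refine e2.trans ?_
  have e3 : (B.card : ℝ) ≤ Real.exp B.card := by linarith [Real.add_one_le_exp (B.card : ℝ)]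
  refine (pow_le_pow_left₀ (Nat.cast_nonneg _) e3 _).trans ?_
  rw [← Real.exp_nat_mul]
  refine Real.exp_le_exp.2 ?_
  simp only [Polynomial.eval_mul, Polynomial.eval_C, Polynomial.eval_X]
  rw [mul_comm]
  exact mul_le_mul_of_nonneg_left (Nat.floor_le hr.le) (Nat.cast_nonneg _)

end Pool.Agent.H69.Rd
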