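import Mathlib

namespace Pool.Agent.H69.Rig

open Finset

abbrev Z2 := ℤ_[2]

noncomputable def res (n : ℕ) (u : Z2) : ℕ := (PadicInt.toZModPow n u).val

theorem res_lt (n : ℕ) (u : Z2) : res n u < 2 ^ n := ZMod.val_lt _

theorem res_eq {n : ℕ} {u : Z2} {a : ℕ} (h : (2 : Z2) ^ n ∣ u - a) : res n u = a % 2 ^ n := by
  have : u - a ∈ RingHom.ker (PadicInt.toZModPow n) := by
    rw [PadicInt.ker_toZModPow, Ideal.mem_span_singleton]
    exact_mod_cast h
  rw [RingHom.mem_ker, map_sub, map_natCast, sub_eq_zero] at this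
  rw [res, this, ZMod.val_natCast]

theorem res_spec (n : ℕ) (u : Z2) : (2 : Z2) ^ n ∣ u - res n u := by
  have : u - res n u ∈ RingHom.ker (PadicInt.toZModPow n) := by
    rw [RingHom.mem_ker, map_sub, map_natCast, res, ZMod.natCast_zmod_val, sub_self]
  rw [PadicInt.ker_toZModPow, Ideal.mem_span_singleton] at this
  exact_mod_cast this

theorem res_congr {n : ℕ} {u w : Z2} (h : (2 : Z2) ^ n ∣ w - u) : res n w = res n u := by
  have := dvd_add h (res_spec n u)
  rw [sub_add_sub_cancel] at this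
  rw [res_eq this, Nat.mod_eq_of_lt (res_lt n u)]

theorem dvd_nat {n a : ℕ} : (2 : Z2) ^ n ∣ (a : Z2) ↔ 2 ^ n ∣ a := by
  have := PadicInt.pow_p_dvd_int_iff (p := 2) n a
  exact_mod_cast this

theorem dvd_iff_res {n : ℕ} {u : Z2} : (2 : Z2) ^ n ∣ u ↔ res n u = 0 :=
  ⟨fun h => by rw [res_eq (a := 0) (by simpa using h)]; simp,
    fun h => by simpa [h] using res_spec n u⟩

theorem res_add (n : ℕ) (u : Z2) (a : ℕ) : res n (u + a) = (res n u + a) % 2 ^ n :=
  res_eq (by simpa using res_spec n u)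

theorem res_mod {n m : ℕ} (h : m ≤ n) (u : Z2) : res n u % 2 ^ m = res m u :=
  (res_eq ((pow_dvd_pow _ h).trans (res_spec n u))).symm

def sv (v : ℕ) : ℕ := padicValNat 2 v

def La (v : ℕ) : ℕ := 2 * (v + 1) ^ 2

theorem sv_le (v : ℕ) : sv v ≤ v := by
  rcases Nat.eq_zero_or_pos v with rfl | h
  · simp [sv]
  · exact ((Nat.lt_two_pow_self).trans_le (Nat.le_of_dvd h pow_padicValNat_dvd)).le

theorem sv_eq (s k : ℕ) : sv (2 ^ s * (2 * k + 1)) = s := by
  rw [sv, padicValNat.mul (by positivity) (by omega), padicValNat.prime_pow,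
    padicValNat.eq_zero_of_not_dvd (by omega), add_zero]

theorem La_lt {v w : ℕ} (h : v < w) : La v + sv v ≤ La w := by
  have := sv_le v
  unfold La
  nlinarith

theorem La_ge (v : ℕ) : v + 1 + sv v ≤ La v := by
  have := sv_le v
  unfold La
  nlinarith

def Ex (v : ℕ) (u : Z2) : Prop := (2 : Z2) ^ v ∣ u ∧ ¬ (2 : Z2) ^ (v + 1) ∣ u

noncomputable def th (v : ℕ) (u : Z2) : ℕ := res (v + 1 + sv v) u / 2 ^ (v + 1)

noncomputable def et (v : ℕ) (u : Z2) : ℕ := res (La v + sv v) u / 2 ^ La v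

def b (u : Z2) : Prop := ∃ v, 0 < v ∧ Ex v u ∧ th v u < et v u

theorem Ex.uniq {v w : ℕ} {u : Z2} (h : Ex v u) (h' : Ex w u) : v = w := by
  by_contra hn
  rcases lt_or_gt_of_ne hn with l | l
  · exact h.2 ((pow_dvd_pow _ l).trans h'.1)
  · exact h'.2 ((pow_dvd_pow _ l).trans h.1)

theorem Ex.iff {v : ℕ} {u : Z2} (h : Ex v u) : b u ↔ 0 < v ∧ th v u < et v u :=
  ⟨fun ⟨_, a, c, d⟩ => (c.uniq h) ▸ ⟨a, d⟩, fun ⟨a, c⟩ => ⟨v, a, h, c⟩⟩

theorem ex_of {W : ℕ} {u : Z2} (h : ¬ (2 : Z2) ^ W ∣ u) : ∃ v < W, Ex v u := by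
  induction W with
  | zero => simp at h
  | succ n ih =>
    by_cases c : (2 : Z2) ^ n ∣ u
    · exact ⟨n, by omega, c, h⟩
    · obtain ⟨v, a, d⟩ := ih c
      exact ⟨v, by omega, d⟩

theorem Ex.congr {v : ℕ} {u w : Z2} (h : Ex v u) (hw : (2 : Z2) ^ (v + 1) ∣ w - u) : Ex v w :=
  ⟨by simpa using dvd_add ((pow_dvd_pow _ (by omega)).trans hw) h.1,
    fun c => h.2 (by simpa using dvd_sub c hw)⟩

theorem Ex.bcongr {v : ℕ} {u w : Z2} (h : Ex v u) (hw : (2 : Z2) ^ (La v + sv v) ∣ w - u) :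
    Ex v w ∧ (b w ↔ b u) := by
  have := La_ge v
  have e := h.congr ((pow_dvd_pow _ (by omega)).trans hw)
  refine ⟨e, ?_⟩
  rw [h.iff, e.iff, th, th, et, et, res_congr hw, res_congr ((pow_dvd_pow _ (by omega)).trans hw)]

theorem b_even {u : Z2} (h : b u) : (2 : Z2) ∣ u := by
  obtain ⟨v, a, c, -⟩ := h
  exact (dvd_pow_self _ a.ne').trans c.1

theorem not_both (u : Z2) : ¬ b u ∨ ¬ b (u + 1) := by
  by_contra hn
  push Not at hn
  have := dvd_sub (b_even hn.2) (b_even hn.1)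
  rw [add_sub_cancel_left, ← pow_one (2 : Z2), ← Nat.cast_one (R := Z2), dvd_nat] at this
  omega

theorem ex_ne {u : Z2} (h : u ≠ 0) : ∃ v, Ex v u := by
  have : ¬ (2 : Z2) ^ (u.valuation + 1) ∣ u := by
    have := PadicInt.mem_span_pow_iff_le_valuation u h (u.valuation + 1)
    rw [Ideal.mem_span_singleton] at this
    intro c
    have := this.1 (by exact_mod_cast c)
    omega
  obtain ⟨v, -, c⟩ := ex_of this
  exact ⟨v, c⟩

theorem loc {u : Z2} (h : u ≠ 0) :
    ∀ᶠ L in Filter.atTop, ∀ w, (2 : Z2) ^ L ∣ w - u → w ≠ 0 ∧ (b w ↔ b u) := by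
  obtain ⟨v, c⟩ := ex_ne h
  filter_upwards [Filter.eventually_ge_atTop (La v + sv v)] with L hL w hw
  obtain ⟨d, e⟩ := c.bcongr ((pow_dvd_pow _ hL).trans hw)
  exact ⟨fun z => d.2 (z ▸ dvd_zero _), e⟩

theorem ex_nat {v a : ℕ} {u : Z2} (h : (2 : Z2) ^ (v + 1) ∣ u - (2 ^ v + 2 ^ (v + 1) * a : ℕ)) :
    Ex v u := by
  refine Ex.congr ⟨dvd_nat.2 ⟨1 + 2 * a, by ring⟩, fun c => ?_⟩ h
  rw [dvd_nat, Nat.dvd_add_left (dvd_mul_right _ _), Nat.pow_dvd_pow_iff_le_right (by norm_num)] at c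
  omega

theorem both (L : ℕ) (β : Prop) : ∃ u : Z2, u ≠ 0 ∧ (2 : Z2) ^ L ∣ u ∧ (b u ↔ β) := by
  set v := 2 ^ 1 * (2 * L + 1)
  have hs : sv v = 1 := sv_eq 1 L
  have hl := La_ge v
  have hv : L < v := by omega
  have key : ∀ a, a < 2 → ∃ u : Z2, Ex v u ∧ th v u = 0 ∧ et v u = a := by
    intro a ha
    obtain ⟨d, hd⟩ := Nat.exists_eq_add_of_le hl
    have p1 : 2 ^ v < 2 ^ (v + 1) := Nat.pow_lt_pow_right (by norm_num) (by omega)
    have p2 : 2 ^ v < 2 ^ La v := Nat.pow_lt_pow_right (by norm_num) (by omega)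
    refine ⟨(2 ^ v + 2 ^ La v * a : ℕ), ex_nat (a := 2 ^ (sv v + d) * a) ?_, ?_, ?_⟩
    · rw [hd, show v + 1 + sv v + d = v + 1 + (sv v + d) by ring, pow_add 2 (v + 1), mul_assoc,
        sub_self]
      exact dvd_zero _
    · rw [th, res_eq (a := 2 ^ v + 2 ^ La v * a) (by simp), hd, pow_add 2 (v + 1 + sv v), mul_assoc,
        Nat.add_mul_mod_self_left]
      exact Nat.div_eq_of_lt ((Nat.mod_le _ _).trans_lt p1)
    · rw [et, res_eq (a := 2 ^ v + 2 ^ La v * a) (by simp), Nat.mod_eq_of_lt, Nat.add_mul_div_left _ _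
        (by positivity), Nat.div_eq_of_lt p2, zero_add]
      rw [hs, pow_succ]
      have : 2 ^ La v * a ≤ 2 ^ La v * 1 := Nat.mul_le_mul_left _ (by omega)
      omega
  by_cases hβ : β
  · obtain ⟨u, a, c, d⟩ := key 1 (by omega)
    exact ⟨u, fun z => a.2 (z ▸ dvd_zero _), (pow_dvd_pow _ hv.le).trans a.1, by
      rw [a.iff, c, d]; simp [hβ]; omega⟩
  · obtain ⟨u, a, c, d⟩ := key 0 (by omega)
    exact ⟨u, fun z => a.2 (z ▸ dvd_zero _), (pow_dvd_pow _ hv.le).trans a.1, by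
      rw [a.iff, c, d]; simp [hβ]⟩

/-- shifting the high block -/
theorem shift {v a : ℕ} {u : Z2} (ha : a < 2 ^ sv v) (h0 : res (La v + sv v) u < 2 ^ La v)
    (hW : ¬ (2 : Z2) ^ ((v + 1) ^ 2) ∣ u) :
    (Ex v u → (b (u + (2 ^ La v * a : ℕ)) ↔ 0 < v ∧ th v u < a)) ∧
      (¬ Ex v u → (b (u + (2 ^ La v * a : ℕ)) ↔ b u)) := by
  have hd : ∀ n, n ≤ La v → (2 : Z2) ^ n ∣ u + (2 ^ La v * a : ℕ) - u := fun n hn => by
    rw [add_sub_cancel_left, dvd_nat]
    exact (pow_dvd_pow _ hn).mul_right _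
  have bd : res (La v + sv v) u + 2 ^ La v * a < 2 ^ (La v + sv v) := by
    rw [pow_add]
    nlinarith
  have hl := La_ge v
  refine ⟨fun e => ?_, fun e => ?_⟩
  · rw [(e.congr (hd _ (by omega))).iff, th, th, res_congr (hd _ hl), et, res_add,
      Nat.mod_eq_of_lt bd, Nat.add_mul_div_left _ _ (by positivity), Nat.div_eq_of_lt h0, zero_add]
  obtain ⟨w, hw, c⟩ := ex_of hW
  have hw2 : w + 1 + sv w ≤ La v := by
    have := sv_le w
    unfold La
    omega
  rcases lt_trichotomy w v with l | rfl | l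
  · exact (c.bcongr (hd _ (La_lt l))).2
  · exact (e c).elim
  rw [(c.congr (hd _ (by omega))).iff, c.iff, th, th, res_congr (hd _ hw2), et, et, res_add]
  have l2 := La_lt l
  have key : ∀ n, La v + sv v ≤ n → (res (La w + sv w) u + 2 ^ La v * a) / 2 ^ n =
      res (La w + sv w) u / 2 ^ n := by
    intro n hn
    obtain ⟨d, rfl⟩ := Nat.exists_eq_add_of_le hn
    rw [pow_add 2 (La v + sv v), ← Nat.div_div_eq_div_mul, ← Nat.div_div_eq_div_mul]
    congr 1
    rw [← res_mod (n := La w + sv w) (by omega)] at bd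
    nth_rewrite 1 [← Nat.div_add_mod (res (La w + sv w) u) (2 ^ (La v + sv v))]
    rw [add_assoc, Nat.mul_add_div (by positivity), Nat.div_eq_of_lt bd, add_zero]
  rw [Nat.mod_eq_of_lt, key _ l2]
  rw [← Nat.div_eq_zero_iff_lt (by positivity), key _ (by omega),
    Nat.div_eq_zero_iff_lt (by positivity)]
  exact res_lt _ _

open Classical in
noncomputable def c (x : Z2) (i : ℕ) : ℕ := #((range i).filter fun l : ℕ => ¬ b (x + l))

open Classical in
noncomputable def sg (x : Z2) : Z2 := if b (x + 1) then x + 2 else x + 1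

theorem c_succ (x : Z2) (i : ℕ) :
    (b (x + i) ∧ c x (i + 1) = c x i) ∨ (¬ b (x + i) ∧ c x (i + 1) = c x i + 1) := by
  classical
  unfold c
  rw [range_add_one, filter_insert]
  by_cases h : b (x + i)
  · left; simp [h]
  · right; simp [h]

theorem c_two (x : Z2) (i k : ℕ) : c x i + k ≤ c x (i + 2 * k) := by
  induction k with
  | zero => simp
  | succ k ih =>
    have a := c_succ x (i + 2 * k)
    have d := c_succ x (i + 2 * k + 1)
    have e := not_both (x + (i + 2 * k : ℕ))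
    rw [add_assoc, ← Nat.cast_add_one] at e
    rw [show i + 2 * (k + 1) = i + 2 * k + 1 + 1 by ring]
    rcases a with a | a <;> rcases d with d | d <;> first | omega | tauto

theorem c_mono (x : Z2) : Monotone (c x) :=
  monotone_nat_of_le_succ fun i => by have := c_succ x i; omega

theorem c_le (x : Z2) (i : ℕ) : c x i ≤ i := by
  classical
  unfold c
  exact (card_filter_le _ _).trans (card_range i).le

theorem iter {x : Z2} (hx : ¬ b x) (n : ℕ) :
    ∃ j : ℕ, sg^[n] x = x + j ∧ c x j = n ∧ ¬ b (x + j) := by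
  induction n with
  | zero => exact ⟨0, by simp, by simp [c], by simpa using hx⟩
  | succ n ih =>
    obtain ⟨j, h1, h2, h3⟩ := ih
    rw [Function.iterate_succ_apply', h1, sg]
    have a := c_succ x j
    have d := c_succ x (j + 1)
    have e := not_both (x + j + 1)
    push_cast at d
    rw [← add_assoc] at d
    split_ifs with h
    · refine ⟨j + 1 + 1, by push_cast; ring, ?_, ?_⟩
      · rcases a with a | a <;> rcases d with d | d <;> first | omega | tauto
      push_cast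
      rw [← add_assoc, ← add_assoc]
      tauto
    · refine ⟨j + 1, by push_cast; ring, ?_, by push_cast; rwa [← add_assoc]⟩
      rcases a with a | a <;> first | omega | tauto

theorem cmp {v a a' i : ℕ} {x : Z2} (hv : 0 < v) (haa : a < a') (ha : a' < 2 ^ sv v)
    (h0 : res (La v + sv v) x + i < 2 ^ La v) (hW : ∀ l < i, ¬ (2 : Z2) ^ ((v + 1) ^ 2) ∣ x + l)
    (hi : 2 ^ (v + 1 + sv v) ≤ i) :
    c (x + (2 ^ La v * a' : ℕ)) i < c (x + (2 ^ La v * a : ℕ)) i ∧
      c (x + (2 ^ La v * a : ℕ)) i ≤ c (x + (2 ^ La v * a' : ℕ)) i + (i / 2 ^ v + 1) := by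
  classical
  have h1 : ∀ l < i, res (La v + sv v) (x + l) < 2 ^ La v := fun l hl => by
    rw [res_add]
    exact (Nat.mod_le _ _).trans_lt (by omega)
  have s1 := fun l hl => shift (haa.trans ha) (h1 l hl) (hW l hl)
  have s2 := fun l hl => shift ha (h1 l hl) (hW l hl)
  unfold c
  simp only [add_right_comm x]
  constructor
  · refine card_lt_card ⟨fun l hl => ?_, fun hs => ?_⟩
    · rw [mem_filter, mem_range] at hl ⊢
      refine ⟨hl.1, fun d => hl.2 ?_⟩
      by_cases e : Ex v (x + l)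
      · have := ((s1 l hl.1).1 e).1 d
        exact ((s2 l hl.1).1 e).2 ⟨hv, by omega⟩
      · exact ((s2 l hl.1).2 e).2 (((s1 l hl.1).2 e).1 d)
    · set l := res (v + 1 + sv v) ((2 ^ v + 2 ^ (v + 1) * a : ℕ) - x)
      have hl : l < i := (res_lt _ _).trans_le hi
      have d : (2 : Z2) ^ (v + 1 + sv v) ∣ x + l - (2 ^ v + 2 ^ (v + 1) * a : ℕ) := by
        have := (res_spec (v + 1 + sv v) ((2 ^ v + 2 ^ (v + 1) * a : ℕ) - x)).neg_right
        convert this using 1
        ring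
      have e : Ex v (x + l) := ex_nat ((pow_dvd_pow _ (by omega)).trans d)
      have p1 : 2 ^ v < 2 ^ (v + 1) := Nat.pow_lt_pow_right (by norm_num) (by omega)
      have t : th v (x + l) = a := by
        rw [th, res_eq d, Nat.mod_eq_of_lt, Nat.add_mul_div_left _ _ (by positivity),
          Nat.div_eq_of_lt p1, zero_add]
        rw [pow_add 2 (v + 1)]
        have : 2 ^ (v + 1) * (a + 1) ≤ 2 ^ (v + 1) * 2 ^ sv v := Nat.mul_le_mul_left _ (by omega)
        rw [mul_add] at this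
        omega
      have := hs (mem_filter.2 ⟨mem_range.2 hl, by rw [(s1 l hl).1 e]; omega⟩)
      rw [mem_filter, (s2 l hl).1 e] at this
      omega
  · have : #((range i).filter fun l : ℕ => Ex v (x + l)) ≤ i / 2 ^ v + 1 := by
      rw [← card_range (i / 2 ^ v + 1)]
      refine card_le_card_of_injOn (fun l => l / 2 ^ v) (fun l hl => ?_) (fun l hl k hk e => ?_)
      · simp only [coe_filter, mem_range, Set.mem_ofPred_eq, coe_range, Set.mem_Iio] at hl ⊢
        exact Nat.lt_succ_of_le (Nat.div_le_div_right hl.1.le)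
      · simp only [coe_filter, mem_range, Set.mem_ofPred_eq] at hl hk e
        have a1 := dvd_iff_res.1 hl.2.1
        have a2 := dvd_iff_res.1 hk.2.1
        rw [res_add] at a1 a2
        have : l % 2 ^ v = k % 2 ^ v := Nat.ModEq.add_left_cancel' (res v x) (a1.trans a2.symm)
        rw [← Nat.div_add_mod l (2 ^ v), ← Nat.div_add_mod k (2 ^ v), e, this]
    refine le_trans (card_le_card fun l hl => ?_) ((card_union_le _ _).trans
      (Nat.add_le_add_left this _))
    rw [mem_union, mem_filter, mem_filter]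
    rw [mem_filter] at hl
    by_cases e : Ex v (x + l)
    · exact Or.inr ⟨hl.1, e⟩
    · have l1 := mem_range.1 hl.1
      exact Or.inl ⟨hl.1, fun d => hl.2 (((s1 l l1).2 e).2 (((s2 l l1).2 e).1 d))⟩

def R (m n : ℕ) : Set Z2 := {x | ¬ b x ∧ res m (sg^[n] x) = res m x}

theorem once {v a a' n E : ℕ} {x : Z2} (hv : 0 < v) (haa : a < a') (ha : a' < 2 ^ sv v)
    (h0 : res (La v + sv v) x + 2 ^ (v + E) < 2 ^ La v)
    (hW : ∀ l : ℕ, l < 2 ^ (v + E) → ¬ (2 : Z2) ^ ((v + 1) ^ 2) ∣ x + l)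
    (h1 : 2 ^ (v + 1 + sv v) ≤ n) (h2 : 2 * n + 1 ≤ 2 ^ (v + E))
    (r1 : x + (2 ^ La v * a : ℕ) ∈ R (E + 2 + 1) n) (r2 : x + (2 ^ La v * a' : ℕ) ∈ R (E + 2 + 1) n) :
    False := by
  have aux : ∀ y ∈ R (E + 2 + 1) n, ∃ j, c y j = n ∧ n ≤ j ∧ j ≤ 2 * n + 1 ∧ 2 ^ (E + 2 + 1) ∣ j := by
    intro y hy
    obtain ⟨j, e1, e2, -⟩ := iter hy.1 n
    have l1 := c_le y j
    have l2 := c_two y 0 (j / 2)
    have l3 := c_mono y (show 0 + 2 * (j / 2) ≤ j by omega)
    refine ⟨j, e2, by omega, by omega, ?_⟩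
    have := hy.2
    rw [e1, res_add] at this
    nth_rewrite 2 [← Nat.mod_eq_of_lt (res_lt (E + 2 + 1) y)] at this
    exact (Nat.modEq_zero_iff_dvd).1 (Nat.ModEq.add_left_cancel' _ this)
  obtain ⟨j, a1, a2, a3, a4⟩ := aux _ r1
  obtain ⟨k, b1, b2, b3, b4⟩ := aux _ r2
  rcases le_or_gt k j with l | l
  · have := (cmp (i := k) hv haa ha (by omega) (fun l hl => hW l (by omega)) (by omega)).1
    have := c_mono (x + (2 ^ La v * a : ℕ)) l
    omega
  · have := (cmp (i := j) hv haa ha (by omega) (fun l hl => hW l (by omega)) (by omega)).2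
    have d1 : j / 2 ^ v ≤ 2 ^ E := Nat.div_le_of_le_mul (by rw [← pow_add]; omega)
    have d2 := Nat.le_of_dvd (by omega) (Nat.dvd_sub b4 a4)
    have d3 := c_two (x + (2 ^ La v * a' : ℕ)) j (2 ^ (E + 2))
    have d4 := c_mono (x + (2 ^ La v * a' : ℕ)) (show j + 2 * 2 ^ (E + 2) ≤ k by rw [pow_succ] at d2; omega)
    have d5 : 0 < 2 ^ E := by positivity
    have d6 : 2 ^ (E + 2) = 4 * 2 ^ E := by ring
    omega

end Pool.Agent.H69.Rig
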