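import Pool.Agent.H69.Rig1

namespace Pool.Agent.H69.Rig

open Finset MeasureTheory Filter Topology
open scoped ENNReal

noncomputable instance : MeasurableSpace Z2 := borel Z2
instance : BorelSpace Z2 := ⟨rfl⟩

noncomputable def m : Measure Z2 := Measure.addHaarMeasure ⊤

instance : m.IsAddHaarMeasure := by unfold m; infer_instance

instance : IsProbabilityMeasure m := ⟨by
  have := Measure.addHaarMeasure_self (G := Z2) (K₀ := ⊤)
  simpa [m] using this⟩

theorem dvd_norm (n : ℕ) (u : Z2) : (2 : Z2) ^ n ∣ u ↔ ‖u‖ ≤ (2 : ℝ) ^ (-n : ℤ) := by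
  have := PadicInt.norm_le_pow_iff_mem_span_pow (p := 2) u n
  rw [Ideal.mem_span_singleton] at this
  exact_mod_cast this.symm

theorem nb (L : ℕ) (u : Z2) : {w | (2 : Z2) ^ L ∣ w - u} ∈ 𝓝 u := by
  filter_upwards [Metric.closedBall_mem_nhds u (show 0 < (2 : ℝ) ^ (-L : ℤ) by positivity)] with w hw
  rwa [dvd_norm, ← dist_eq_norm]

theorem tend {y : ℕ → Z2} {x : Z2} (h : ∀ L, (2 : Z2) ^ L ∣ y L - x) : Tendsto y atTop (𝓝 x) := by
  rw [tendsto_iff_norm_sub_tendsto_zero]
  refine squeeze_zero (fun _ => norm_nonneg _) (fun L => (dvd_norm L _).1 (h L)) ?_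
  simp only [zpow_neg, zpow_natCast, ← inv_pow]
  exact tendsto_pow_atTop_nhds_zero_of_lt_one (by norm_num) (by norm_num)

theorem res_meas (n : ℕ) : Measurable (res n) := by
  refine Continuous.measurable (IsLocallyConstant.continuous ?_)
  rw [IsLocallyConstant.iff_eventually_eq]
  intro u
  filter_upwards [nb n u] with w hw using res_congr hw

theorem b_nb {u : Z2} (h : u ≠ 0) : ∀ᶠ w in 𝓝 u, w ≠ 0 ∧ (b w ↔ b u) := by
  obtain ⟨L, hL⟩ := (loc h).exists
  filter_upwards [nb L u] with w hw using hL w hw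

theorem b_meas : MeasurableSet {u | b u} := by
  refine IsOpen.measurableSet (isOpen_iff_mem_nhds.2 fun u hu => ?_)
  have : u ≠ 0 := by
    obtain ⟨v, -, e, -⟩ := hu
    exact fun z => e.2 (z ▸ dvd_zero _)
  filter_upwards [b_nb this] with w hw using hw.2.2 hu

theorem sg_meas : Measurable sg :=
  Measurable.ite ((measurable_add_const 1) b_meas) (measurable_add_const 2) (measurable_add_const 1)

theorem R_meas (k n : ℕ) : MeasurableSet (R k n) :=
  b_meas.compl.inter (measurableSet_eq_fun ((res_meas k).comp (sg_meas.iterate n)) (res_meas k))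

theorem cyl (n : ℕ) (t : Z2) : 2 ^ n * m {x | res n (x + t) = 0} ≤ 1 := by
  have h := sum_measure_preimage_singleton (μ := m) (range (2 ^ n)) (f := res n)
    fun y _ => res_meas n (measurableSet_singleton y)
  have e : ∀ ρ ∈ range (2 ^ n), m (res n ⁻¹' {ρ}) = m {x | res n (x + t) = 0} := by
    intro ρ hρ
    rw [← measure_preimage_add_right m (t + ρ)]
    congr 1
    ext x
    simp only [Set.mem_preimage, Set.mem_singleton_iff, Set.mem_setOf_eq, ← add_assoc, res_add]
    have a := res_lt n (x + t)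
    have d := mem_range.1 hρ
    refine ⟨fun h => ?_, fun h => by rw [h, zero_add, Nat.mod_eq_of_lt d]⟩
    by_contra z
    rcases lt_or_ge (res n (x + t) + ρ) (2 ^ n) with l | l
    · rw [Nat.mod_eq_of_lt l] at h; omega
    · rw [Nat.mod_eq_sub_mod l, Nat.mod_eq_of_lt (by omega)] at h; omega
  rw [sum_congr rfl e, sum_const, card_range, nsmul_eq_mul] at h
  push_cast at h
  rw [h]
  exact prob_le_one

theorem un (n J : ℕ) (t : ℕ → Z2) :
    2 ^ n * m (⋃ l ∈ range J, {x | res n (x + t l) = 0}) ≤ J := by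
  refine (mul_le_mul_right (measure_biUnion_finset_le _ _) _).trans ?_
  rw [mul_sum]
  refine (sum_le_sum fun l _ => cyl n (t l)).trans ?_
  simp

theorem est1 {s v n E : ℕ} (hv : 0 < v) (hs : sv v = s) (hE : E + s ≤ v)
    (h1 : 2 ^ (v + 1 + s) ≤ n) (h2 : 2 * n + 1 ≤ 2 ^ (v + E)) :
    2 ^ s * m (R (E + 2 + 1) n) ≤ 2 := by
  subst hs
  set G : Set Z2 := {x | res (La v + sv v) x + 2 ^ (v + E) < 2 ^ La v ∧
    ∀ l : ℕ, l < 2 ^ (v + E) → res ((v + 1) ^ 2) (x + l) ≠ 0} with hG
  have Gm : MeasurableSet G := by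
    have a := res_meas (La v + sv v)
    have d := res_meas ((v + 1) ^ 2)
    rw [hG]
    measurability
  set P : ℕ → Set Z2 := fun a => G ∩ (· + ((2 ^ La v * a : ℕ) : Z2)) ⁻¹' R (E + 2 + 1) n with hP
  have Pm : ∀ a, MeasurableSet (P a) := fun a => Gm.inter (measurable_add_const _ (R_meas _ _))
  have dj : Set.PairwiseDisjoint (range (2 ^ sv v) : Set ℕ) P := by
    have : ∀ a a', a < a' → a' < 2 ^ sv v → Disjoint (P a) (P a') := fun a a' l l' =>
      Set.disjoint_left.2 fun x p q => once hv l l' p.1.1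
        (fun l hl z => p.1.2 l hl (dvd_iff_res.1 z)) h1 h2 p.2 q.2
    intro a ha a' ha' ne
    rcases lt_or_gt_of_ne ne with l | l
    · exact this _ _ l (mem_range.1 ha')
    · exact (this _ _ l (mem_range.1 ha)).symm
  have hW : (v + 1) ^ 2 ≤ La v := by unfold La; omega
  have cov : R (E + 2 + 1) n ⊆ (⋃ l ∈ range (2 ^ (v + E) + 1), {x | res ((v + 1) ^ 2) (x + l) = 0}) ∪
      ⋃ a ∈ range (2 ^ sv v), (· + -((2 ^ La v * a : ℕ) : Z2)) ⁻¹' P a := by
    intro y hy
    rw [Set.mem_union, or_iff_not_imp_left]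
    intro nb
    simp only [Set.mem_iUnion, mem_range, Set.mem_setOf_eq, not_exists] at nb ⊢
    have e := Nat.div_add_mod (res (La v + sv v) y) (2 ^ La v)
    rw [res_mod (by omega)] at e
    have l := res_lt (La v) y
    refine ⟨et v y, Nat.div_lt_of_lt_mul (by rw [← pow_add]; exact res_lt _ _), ⟨?_, ?_⟩,
      by simpa using hy⟩
    · rw [res_eq (a := res (La v) y), Nat.mod_eq_of_lt (l.trans_le (Nat.pow_le_pow_right (by norm_num)
        (by omega)))]
      · by_contra z
        refine nb (2 ^ La v - res (La v) y) (by omega) (dvd_iff_res.1 ((pow_dvd_pow _ hW).trans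
          (dvd_iff_res.2 ?_)))
        rw [res_add, Nat.add_sub_cancel' l.le, Nat.mod_self]
      · convert res_spec (La v + sv v) y using 1
        rw [← e, et]
        push_cast
        ring
    · intro l hl z
      refine nb l (by omega) (dvd_iff_res.1 ?_)
      have := dvd_add (dvd_iff_res.2 z) (dvd_nat.2 ((pow_dvd_pow 2 hW).mul_right (et v y)))
      convert this using 1
      ring
  have b1 : 2 ^ sv v * m (⋃ l ∈ range (2 ^ (v + E) + 1),
      {x | res ((v + 1) ^ 2) (x + l) = 0}) ≤ 1 := by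
    have := un ((v + 1) ^ 2) (2 ^ (v + E) + 1) fun l => l
    obtain ⟨d, hd⟩ : ∃ d, (v + 1) ^ 2 = (v + E + 1 + d) + sv v := ⟨(v + 1) ^ 2 - (v + E + 1 + sv v), by
      have : v + E + 1 + sv v ≤ (v + 1) ^ 2 := by nlinarith
      omega⟩
    nth_rewrite 1 [hd] at this
    rw [pow_add, mul_assoc] at this
    have l : ((2 ^ (v + E) + 1 : ℕ) : ℝ≥0∞) ≤ 2 ^ (v + E + 1 + d) * 1 := by
      have : 2 ^ (v + E) + 1 ≤ 2 ^ (v + E + 1 + d) * 1 := by
        have : 2 ^ (v + E) < 2 ^ (v + E + 1 + d) := Nat.pow_lt_pow_right (by norm_num) (by omega)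
        omega
      exact_mod_cast this
    exact (ENNReal.mul_le_mul_iff_right (by positivity) (by simp)).1 (this.trans l)
  have b2 : 2 ^ sv v * m G ≤ 1 := by
    have := un (La v + sv v) (2 ^ La v) fun l => -l
    rw [pow_add, mul_assoc] at this
    push_cast at this
    rw [← ENNReal.mul_le_mul_iff_right (a := 2 ^ La v) (by positivity) (by simp), mul_one]
    refine le_trans (mul_le_mul_right (mul_le_mul_right (measure_mono fun x hx => ?_) _) _) this
    simp only [Set.mem_iUnion, mem_range, Set.mem_setOf_eq]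
    exact ⟨res (La v + sv v) x, by have := hx.1; omega,
      dvd_iff_res.1 (by simpa [sub_eq_add_neg] using res_spec _ x)⟩
  have b3 : m (⋃ a ∈ range (2 ^ sv v), (· + -((2 ^ La v * a : ℕ) : Z2)) ⁻¹' P a) ≤ m G := by
    refine (measure_biUnion_finset_le _ _).trans ?_
    simp only [measure_preimage_add_right]
    rw [← measure_biUnion_finset dj fun a _ => Pm a]
    exact measure_mono (Set.iUnion₂_subset fun a _ => Set.inter_subset_left)
  calc _ ≤ 2 ^ sv v * (_ + m G) :=
        mul_le_mul_right ((measure_mono cov).trans ((measure_union_le _ _).trans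
          (add_le_add_right b3 _))) _
    _ ≤ 1 + 1 := by rw [mul_add]; exact add_le_add b1 b2
    _ = 2 := one_add_one_eq_two

theorem est (s : ℕ) : ∃ k, ∀ᶠ n in atTop, 2 ^ s * m (R k n) ≤ 2 := by
  set P := 2 ^ s with hP
  refine ⟨s + 2 + 2 * P + 2 + 1, ?_⟩
  filter_upwards [eventually_ge_atTop (2 ^ (4 * s + 5 * P + 9))] with n hn
  have n0 : n ≠ 0 := by
    have : 0 < 2 ^ (4 * s + 5 * P + 9) := by positivity
    omega
  have a := Nat.le_log_of_pow_le (by norm_num) hn
  have d := Nat.pow_log_le_self 2 n0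
  have e := Nat.lt_pow_succ_log_self (b := 2) (by norm_num) n
  set K := Nat.log 2 n
  have p0 : 0 < P := by positivity
  have f := Nat.div_add_mod (K - 1 - s - P) (2 * P)
  have g := Nat.mod_lt (K - 1 - s - P) (show 0 < 2 * P by omega)
  set k := (K - 1 - s - P) / (2 * P)
  have h : P * (2 * k + 1) = 2 * P * k + P := by ring
  refine est1 (v := P * (2 * k + 1)) (by positivity) (sv_eq s k) (by omega)
    (le_trans (Nat.pow_le_pow_right (by norm_num) (by omega)) d) ?_
  have : 2 ^ (K + 1 + 1) ≤ 2 ^ (P * (2 * k + 1) + (s + 2 + 2 * P)) :=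
    Nat.pow_le_pow_right (by norm_num) (by omega)
  rw [pow_succ] at this
  simp only [Nat.succ_eq_add_one] at e
  omega

theorem nb_pos : m {x | ¬ b x} ≠ 0 := by
  intro z
  have a : m {x | b x} = 0 := by
    rw [← measure_preimage_add_right m 1] at z
    exact measure_mono_null (fun x hx => (not_both x).resolve_left (not_not.2 hx)) z
  have := measure_union_null a z
  rw [show {x | b x} ∪ {x | ¬ b x} = Set.univ from Set.union_compl_self _] at this
  simp at this

theorem core {δ : ℝ≥0∞} (hδ : 0 < δ) {n : ℕ → ℕ} (hn : StrictMono n)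
    (h : ∀ k ρ, δ * m {x | ¬ b x ∧ res k x = ρ} ≤
      liminf (fun i => m {x | (¬ b x ∧ res k x = ρ) ∧ res k (sg^[n i] x) = ρ}) atTop) : False := by
  wlog h1 : δ ≤ 1 generalizing δ
  · exact this one_pos (fun k ρ => le_trans (by gcongr; exact le_of_not_ge h1) (h k ρ)) le_rfl
  have t : δ ≠ ⊤ := ne_top_of_le_ne_top (by simp) h1
  have h2 : δ / 2 < δ := ENNReal.half_lt_self hδ.ne' t
  have h3 : δ / 2 * m {x | ¬ b x} ≠ 0 := mul_ne_zero (by simp [hδ.ne']) nb_pos
  obtain ⟨s, hs⟩ : ∃ s : ℕ, 2 < 2 ^ s * (δ / 2 * m {x | ¬ b x}) := by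
    have := ENNReal.Tendsto.mul_const (b := δ / 2 * m {x | ¬ b x})
      (ENNReal.tendsto_pow_atTop_nhds_top_iff.2 ENNReal.one_lt_two) (Or.inl (by simp))
    rw [ENNReal.top_mul h3] at this
    exact (this.eventually (lt_mem_nhds (show (2 : ℝ≥0∞) < ⊤ by simp))).exists
  obtain ⟨k, hk⟩ := est s
  have ev : ∀ᶠ i in atTop, ∀ ρ ∈ range (2 ^ k), δ / 2 * m {x | ¬ b x ∧ res k x = ρ} ≤
      m {x | (¬ b x ∧ res k x = ρ) ∧ res k (sg^[n i] x) = ρ} := by
    rw [eventually_all_finset]
    intro ρ _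
    by_cases z : m {x | ¬ b x ∧ res k x = ρ} = 0
    · simp [z]
    · refine (eventually_lt_of_lt_liminf (lt_of_lt_of_le ?_ (h k ρ))).mono fun _ => le_of_lt
      exact ENNReal.mul_lt_mul_left z (measure_ne_top _ _) h2
  obtain ⟨i, a, d⟩ := (ev.and (hn.tendsto_atTop.eventually hk)).exists
  have sm : ∀ S : Set Z2, ∑ ρ ∈ range (2 ^ k), m (res k ⁻¹' {ρ} ∩ S) = m S := by
    intro S
    have := sum_measure_preimage_singleton (μ := m.restrict S) (range (2 ^ k)) (f := res k)
      fun y _ => res_meas k (measurableSet_singleton y)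
    rw [show res k ⁻¹' (range (2 ^ k) : Set ℕ) = Set.univ from
      Set.eq_univ_of_forall fun x => mem_coe.2 (mem_range.2 (res_lt k x)),
      Measure.restrict_apply_univ] at this
    rw [← this]
    exact sum_congr rfl fun ρ _ =>
      (Measure.restrict_apply (res_meas k (measurableSet_singleton ρ))).symm
  refine absurd (le_trans ?_ d) (not_le.2 hs)
  gcongr
  rw [← sm, ← sm (R k (n i)), mul_sum]
  refine sum_le_sum fun ρ hρ => le_trans (le_of_eq ?_) ((a ρ hρ).trans (measure_mono ?_))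
  · congr 2
    ext x
    exact and_comm
  · exact fun x hx => ⟨hx.1.2, hx.1.1, hx.2.trans hx.1.2.symm⟩

end Pool.Agent.H69.Rig
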