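import Pool.Agent.H69.Rig2

namespace Pool.Agent.H69.Rig

open MeasureTheory Filter Topology
open scoped ENNReal symmDiff Classical

def XS : Set (Z2 × (ℤ → Bool)) := {p | ∀ i : ℤ, p.1 + i ≠ 0 → p.2 i = decide (b (p.1 + i))}

theorem XS_closed : IsClosed XS := by
  refine isClosed_of_closure_subset fun p hp i hi => ?_
  have c1 : Continuous fun q : Z2 × (ℤ → Bool) => q.1 + i := by fun_prop
  have c2 : Continuous fun q : Z2 × (ℤ → Bool) => q.2 i := by fun_prop
  have a := (c1.tendsto p).eventually (b_nb hi)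
  have d := (c2.tendsto p).eventually (p := fun z => z = p.2 i) (by simp)
  obtain ⟨q, ⟨e, f⟩, g⟩ := mem_closure_iff_nhds.1 hp _ (a.and d)
  rw [← f, g i e.1, e.2]

abbrev X : Type := XS

instance : CompactSpace X := isCompact_iff_compactSpace.1 XS_closed.isCompact

noncomputable def T : X ≃ₜ X where
  toFun p := ⟨(p.1.1 + 1, fun i => p.1.2 (i + 1)), fun i hi => by
    have e : p.1.1 + 1 + i = p.1.1 + (i + 1 : ℤ) := by push_cast; ring
    simp only [e] at hi ⊢
    exact p.2 _ hi⟩
  invFun p := ⟨(p.1.1 - 1, fun i => p.1.2 (i - 1)), fun i hi => by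
    have e : p.1.1 - 1 + i = p.1.1 + (i - 1 : ℤ) := by push_cast; ring
    simp only [e] at hi ⊢
    exact p.2 _ hi⟩
  left_inv p := by ext <;> simp
  right_inv p := by ext <;> simp
  continuous_toFun := by fun_prop
  continuous_invFun := by fun_prop

theorem T_iter (n : ℕ) (p : X) : (T^[n] p).1 = (p.1.1 + n, fun i => p.1.2 (i + n)) := by
  induction n with
  | zero => simp
  | succ n ih =>
    rw [Function.iterate_succ_apply']
    change ((T^[n] p).1.1 + 1, fun i => (T^[n] p).1.2 (i + 1)) = _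
    rw [ih]
    simp [add_assoc, add_comm (1 : ℤ)]

theorem appr (L : ℕ) (x y : Z2) : ∃ n : ℕ, 0 < n ∧ (2 : Z2) ^ L ∣ x + n - y := by
  refine ⟨res L (y - x) + 2 ^ L, by positivity, ?_⟩
  convert dvd_sub (dvd_refl ((2 : Z2) ^ L)) (res_spec L (y - x)) using 1
  push_cast
  ring

theorem dens (p q : X) : ∃ n : ℕ → ℕ, (∀ L, 0 < n L) ∧ Tendsto (fun L => T^[n L] p) atTop (𝓝 q) := by
  have key : ∀ L : ℕ, ∃ n : ℕ, 0 < n ∧ (2 : Z2) ^ L ∣ p.1.1 + n - q.1.1 ∧
      ∀ i : ℤ, q.1.1 + i = 0 → p.1.2 (i + n) = q.1.2 i := by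
    intro L
    by_cases h : ∃ i : ℤ, q.1.1 + i = 0
    · obtain ⟨i, hi⟩ := h
      obtain ⟨u, u0, u1, u2⟩ := both L (q.1.2 i = true)
      obtain ⟨M, hM, hL⟩ := ((loc u0).and (eventually_ge_atTop L)).exists
      obtain ⟨n, n0, hn⟩ := appr M p.1.1 (q.1.1 + u)
      refine ⟨n, n0, ?_, fun j hj => ?_⟩
      · convert dvd_add ((pow_dvd_pow _ hL).trans hn) u1 using 1
        ring
      · obtain rfl : j = i := by exact_mod_cast add_left_cancel (hj.trans hi.symm)
        obtain ⟨a, d⟩ := hM (p.1.1 + (j + n : ℤ)) (by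
          convert hn using 1
          push_cast
          linear_combination hi)
        rw [p.2 _ a, d, u2]
        simp
    · obtain ⟨n, n0, hn⟩ := appr L p.1.1 q.1.1
      exact ⟨n, n0, hn, fun i hi => (h ⟨i, hi⟩).elim⟩
  choose n n0 n1 n2 using key
  refine ⟨n, n0, tendsto_subtype_rng.2 ?_⟩
  simp only [T_iter]
  refine (tend n1).prodMk_nhds (tendsto_pi_nhds.2 fun i => tendsto_const_nhds.congr' ?_)
  by_cases h : q.1.1 + i = 0
  · exact Eventually.of_forall fun L => (n2 L i h).symm
  · filter_upwards [loc h] with L hL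
    obtain ⟨a, d⟩ := hL (p.1.1 + (i + n L : ℤ)) (by
      convert n1 L using 1
      push_cast
      ring)
    rw [p.2 _ a, d, q.2 i h]

theorem perfect (p : X) : (𝓝[≠] p).NeBot := by
  obtain ⟨n, n0, h⟩ := dens p p
  refine mem_closure_iff_nhdsWithin_neBot.1 (mem_closure_of_tendsto h (Eventually.of_forall
    fun L e => ?_))
  have := congrArg (fun z : X => z.1.1) (Set.mem_singleton_iff.1 e)
  simp only [T_iter, add_eq_left, Nat.cast_eq_zero] at this
  exact (n0 L).ne' this

theorem minimal (p : X) : Dense {y : X | ∃ n : ℕ, (⇑T)^[n] p = y ∨ (⇑T.symm)^[n] p = y} := fun q => by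
  obtain ⟨n, -, h⟩ := dens p q
  exact mem_closure_of_tendsto h (Eventually.of_forall fun L => ⟨n L, Or.inl rfl⟩)

noncomputable def s (x : Z2) : X := ⟨(x, fun i => decide (b (x + i))), fun _ _ => rfl⟩

theorem s_meas : Measurable s := by
  refine Measurable.subtype_mk (measurable_id.prodMk (measurable_pi_lambda _ fun i => ?_))
  refine measurable_to_bool ?_
  convert measurable_add_const (i : Z2) b_meas using 1
  ext x
  simp

theorem T_s (n : ℕ) (x : Z2) : T^[n] (s x) = s (x + n) := by
  apply Subtype.ext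
  rw [T_iter]
  simp only [s, Prod.mk.injEq, true_and]
  funext i
  congr 2
  push_cast
  ring

noncomputable def mu : Measure X := m.map s

instance : IsProbabilityMeasure mu := Measure.isProbabilityMeasure_map s_meas.aemeasurable

theorem mu_apply {B : Set X} (h : MeasurableSet B) : mu B = m (s ⁻¹' B) := Measure.map_apply s_meas h

theorem pres : MeasurePreserving T mu mu := by
  refine ⟨T.measurable, ?_⟩
  rw [mu, Measure.map_map T.measurable s_meas, show T ∘ s = s ∘ (· + 1) from
    funext fun x => by simpa using T_s 1 x, ← Measure.map_map s_meas (measurable_add_const 1),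
    map_add_right_eq_self]

theorem rigid (B : Set X) (h : MeasurableSet B) :
    Tendsto (fun k : ℕ => mu ((T^[2 ^ k] ⁻¹' B) ∆ B)) atTop (𝓝 0) := by
  let f : C(Z2, C(Z2, Z2)) := ContinuousMap.curry ⟨fun z : Z2 × Z2 => z.2 + z.1, by fun_prop⟩
  have t : Tendsto (fun k : ℕ => f (2 ^ k : ℕ)) atTop (𝓝 (f 0)) :=
    (f.continuous.tendsto 0).comp (tend fun L => by simp)
  have := tendsto_measure_symmDiff_preimage_nhds_zero (μ := m) (ν := m) t
    (Eventually.of_forall fun k => measurePreserving_add_right m _) (measurePreserving_add_right m _)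
    (s_meas h).nullMeasurableSet (measure_ne_top _ _)
  refine this.congr fun k => ?_
  rw [mu_apply ((T.measurable.iterate _ h).symmDiff h), Set.preimage_symmDiff]
  congr 2
  · ext x
    simp only [Set.mem_preimage, T_s]
    rfl
  · ext x
    simp [f]

def A : Set X := {p | p.1.2 0 = false}

theorem A_clopen : IsClopen A :=
  (isClopen_discrete {false}).preimage (f := fun p : X => p.1.2 0) (by fun_prop)

theorem s_A {x : Z2} : s x ∈ A ↔ ¬ b x := by simp [s, A]

theorem mu_A : mu A ≠ 0 := by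
  rw [mu_apply A_clopen.isOpen.measurableSet]
  convert nb_pos using 2
  exact Set.ext fun _ => s_A

noncomputable def S (p : X) : X := if T p ∈ A then T p else T (T p)

theorem S_meas : Measurable S :=
  Measurable.ite (T.measurable A_clopen.isOpen.measurableSet) T.measurable
    (T.measurable.comp T.measurable)

theorem S_s (x : Z2) : S (s x) = s (sg x) := by
  have a : T (s x) = s (x + 1) := by simpa using T_s 1 x
  have d : T (T (s x)) = s (x + 2) := by simpa using T_s 2 x
  rw [S, d, a, sg, s_A]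
  split_ifs <;> rfl

theorem S_iter (n : ℕ) (x : Z2) : S^[n] (s x) = s (sg^[n] x) :=
  (Function.Semiconj.iterate_right (f := s) (fun x => (S_s x).symm) n x).symm

theorem two (p : X) : T p ∈ A ∨ T (T p) ∈ A := by
  by_contra h
  push Not at h
  obtain ⟨n, -, t⟩ := dens (s 0) p
  have o := A_clopen.compl.isOpen
  obtain ⟨L, a, d⟩ := ((((T.continuous.tendsto p).comp t).eventually (o.mem_nhds h.1)).and
    ((((T.continuous.comp T.continuous).tendsto p).comp t).eventually (o.mem_nhds h.2))).exists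
  simp only [Function.comp, T_s] at a d
  rw [show T (s (0 + n L)) = s (0 + n L + 1) by simpa using T_s 1 _] at a d
  rw [show T (s (0 + n L + 1)) = s (0 + n L + 1 + 1) by simpa using T_s 1 _] at d
  exact (not_both _).elim (fun z => a (s_A.2 z)) fun z => d (s_A.2 z)

theorem S_ret (x : X) : ∃ r : ℕ, 0 < r ∧ S x = T^[r] x ∧ T^[r] x ∈ A ∧
    ∀ j : ℕ, 0 < j → j < r → T^[j] x ∉ A := by
  by_cases h : T x ∈ A
  · exact ⟨1, one_pos, if_pos h, h, fun j _ _ => by omega⟩
  · refine ⟨2, two_pos, if_neg h, (two x).resolve_left h, fun j _ _ => ?_⟩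
    obtain rfl : j = 1 := by omega
    exact h

theorem S_A (x : X) : S x ∈ A := by
  obtain ⟨r, -, a, d, -⟩ := S_ret x
  rwa [a]

theorem main {δ : ℝ≥0∞} (hδ : 0 < δ) {n : ℕ → ℕ} (hn : StrictMono n)
    (h : ∀ B, MeasurableSet B → B ⊆ A →
      δ * mu B ≤ liminf (fun i => mu (B ∩ S^[n i] ⁻¹' B)) atTop) : False := by
  refine core hδ hn fun k ρ => ?_
  have hB : MeasurableSet (A ∩ {p : X | res k p.1.1 = ρ}) := A_clopen.isOpen.measurableSet.inter
    ((res_meas k).comp measurable_subtype_coe.fst (measurableSet_singleton ρ))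
  have := h _ hB Set.inter_subset_left
  simp only [fun i => mu_apply (hB.inter (S_meas.iterate (n i) hB)), mu_apply hB] at this
  refine le_trans (le_of_eq ?_) (this.trans (liminf_le_liminf (Eventually.of_forall fun i =>
    measure_mono fun x hx => ⟨⟨s_A.1 hx.1.1, hx.1.2⟩, ?_⟩)))
  · congr 2
    ext x
    exact and_congr_left' s_A.symm
  · have := hx.2.2
    rwa [S_iter] at this

theorem lim_of {Y : Type} [MeasurableSpace Y] (ν : Measure Y) (B : Set Y) (C D : ℕ → Set Y)
    (h : Tendsto (fun k => ν (C k ∆ B)) atTop (𝓝 0)) (hD : ∀ k, C k ⊆ D k) :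
    1 * ν B ≤ liminf (fun k => ν (B ∩ D k)) atTop := by
  rw [one_mul, ← ENNReal.liminf_add_of_right_tendsto_zero h]
  refine le_liminf_of_le (h := Eventually.of_forall fun k => ?_)
  refine (measure_mono fun x hx => ?_).trans (measure_union_le _ _)
  by_cases c : x ∈ C k
  · exact Or.inl ⟨hx, hD k c⟩
  · exact Or.inr (Or.inr ⟨hx, c⟩)

end Pool.Agent.H69.Rig
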