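import Mathlib

/-! The algebra of uniformly continuous holomorphic functions on the unit ball, its spectrum,
fibers and strong boundary points. -/

set_option autoImplicit false

namespace Pool.Agent.H69.Sb

open Metric Filter Topology BoundedContinuousFunction

variable (E : Type) [NormedAddCommGroup E] [NormedSpace ℂ E]

/-- `A_u(B_E)`: the uniformly continuous holomorphic functions on the open unit ball, inside the
bounded continuous functions on the ball (sup norm). -/
def Au : Subalgebra ℂ (ball (0 : E) 1 →ᵇ ℂ) where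
  carrier := {f | UniformContinuous f ∧
    ∃ F : E → ℂ, DifferentiableOn ℂ F (ball 0 1) ∧ ∀ x : ball (0 : E) 1, f x = F x}
  mul_mem' := by
    rintro f g ⟨h1, F, h2, h3⟩ ⟨h4, G, h5, h6⟩
    refine ⟨?_, F * G, h2.mul h5, fun x => by simp [h3, h6]⟩
    have := (((isCompact_closedBall (0 : ℂ) ‖f‖).prod (isCompact_closedBall (0 : ℂ) ‖g‖)
      ).uniformContinuousOn_of_continuous continuous_mul.continuousOn).comp
      (uniformContinuousOn_univ.2 (h1.prodMk h4)) fun x _ =>
        ⟨mem_closedBall_zero_iff.2 (f.norm_coe_le_norm x),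
          mem_closedBall_zero_iff.2 (g.norm_coe_le_norm x)⟩
    exact uniformContinuousOn_univ.1 this
  add_mem' := by
    rintro f g ⟨h1, F, h2, h3⟩ ⟨h4, G, h5, h6⟩
    exact ⟨h1.add h4, F + G, h2.add h5, fun x => by simp [h3, h6]⟩
  algebraMap_mem' c := ⟨uniformContinuous_const, fun _ => c, differentiableOn_const c,
    fun _ => by simp⟩

/-- The spectrum, with the weak-star topology. -/
abbrev Spec : Type := WeakDual.characterSpace ℂ (Au E)

variable {E}

/-- The fiber over a point `z` of `E` (seen in the bidual): the characters whose restriction to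
the dual space is evaluation at `z`. -/
def fiber (z : E) : Set (Spec E) :=
  {φ | ∀ (l : E →L[ℂ] ℂ) (f : Au E), (∀ x : ball (0 : E) 1, f.1 x = l x) → φ f = l z}

/-- Strong boundary points. -/
def StrongBdry (φ : Spec E) : Prop :=
  ∀ U ∈ 𝓝 φ, ∀ ε : ℝ, 0 < ε → ∃ f : Au E, ‖f‖ = 1 ∧ φ f = 1 ∧ ∀ ψ : Spec E, ψ ∉ U → ‖ψ f‖ < ε

end Pool.Agent.H69.Sb
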