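import Mathlib
import Pool.Agent.H69.SbDefs

set_option autoImplicit false

namespace Pool.Agent.H69.Sb

open Metric Filter Topology BoundedContinuousFunction Finset

variable {E : Type} [NormedAddCommGroup E] [NormedSpace ℂ E]

theorem closed : IsClosed (Au E : Set (ball (0 : E) 1 →ᵇ ℂ)) := by
  classical
  refine isClosed_of_closure_subset fun f hf => ?_
  obtain ⟨u, hu, hl⟩ := mem_closure_iff_seq_limit.1 hf
  choose h1 F h2 h3 using hu
  have hU : TendstoUniformly (fun n => (u n : _ → ℂ)) f atTop :=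
    BoundedContinuousFunction.tendsto_iff_tendstoUniformly.1 hl
  refine ⟨hU.uniformContinuous (Frequently.of_forall h1),
    fun x => if h : x ∈ ball (0 : E) 1 then f ⟨x, h⟩ else 0, fun x hx => ?_, fun x => by simp⟩
  obtain ⟨r, hr, hs⟩ := Metric.isOpen_iff.1 isOpen_ball x hx
  have hs1 : ball x (r / 2) ⊆ ball 0 1 := (ball_subset_ball (by linarith)).trans hs
  have hc : UniformCauchySeqOn (fun n => fderiv ℂ (F n)) atTop (ball x (r / 2)) := by
    rw [Metric.uniformCauchySeqOn_iff]
    intro ε hε
    obtain ⟨N, hN⟩ := Metric.cauchySeq_iff.1 hl.cauchySeq (ε * r / 8) (by positivity)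
    refine ⟨N, fun a ha b hb y hy => ?_⟩
    have hy1 : ball y (r / 2) ⊆ ball 0 1 := (ball_subset_ball' (by
      have := mem_ball.1 hy; linarith)).trans hs
    have hy2 : ball (0 : E) 1 ∈ 𝓝 y := isOpen_ball.mem_nhds (hs1 hy)
    have hb' : ∀ w ∈ ball (0 : E) 1, ‖(F a - F b) w‖ ≤ ε * r / 8 := fun w hw => by
      have := (dist_coe_le_dist (f := u a) (g := u b) ⟨w, hw⟩).trans (hN a ha b hb).le
      rwa [h3, h3, dist_eq_norm] at this
    have := Complex.norm_fderiv_le_div_of_mapsTo_ball (R₂ := ε * r / 4)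
      (((h2 a).sub (h2 b)).mono hy1) (fun w hw => by
        rw [mem_closedBall, dist_eq_norm]
        exact (norm_sub_le _ _).trans (by linarith [hb' w (hy1 hw), hb' y (hs1 hy)]))
      (half_pos hr)
    rw [fderiv_sub ((h2 a).differentiableAt hy2) ((h2 b).differentiableAt hy2)] at this
    rw [dist_eq_norm]
    refine this.trans_lt ?_
    rw [div_lt_iff₀ (half_pos hr)]
    nlinarith [mul_pos hε hr]
  have := hasFDerivAt_of_tendstoUniformlyOn (f := F) isOpen_ball
    (hc.tendstoUniformlyOn_of_tendsto (f := fun y => limUnder atTop fun n => fderiv ℂ (F n) y)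
      fun y hy => (hc.cauchySeq hy).tendsto_limUnder)
    (g := fun x => if h : x ∈ ball (0 : E) 1 then f ⟨x, h⟩ else 0)
    (fun n y hy => ((h2 n).differentiableAt (isOpen_ball.mem_nhds (hs1 hy))).hasFDerivAt)
    (fun y hy => by
      rw [dif_pos (hs1 hy)]
      simpa only [h3] using hU.tendsto_at ⟨y, hs1 hy⟩) (mem_ball_self (half_pos hr))
  exact this.differentiableAt.differentiableWithinAt

instance : CompleteSpace (Au E) := closed.completeSpace_coe

theorem exists_mk (F : E → ℂ) (hF : Differentiable ℂ F) (C : ℝ)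
    (hC : ∀ x ∈ ball (0 : E) 3, ‖F x‖ ≤ C) : ∃ f : Au E, ∀ x, f.1 x = F x := by
  have h1 : ∀ x : ball (0 : E) 1, ‖F x‖ ≤ C := fun x => hC _ (ball_subset_ball (by norm_num) x.2)
  have hL : LipschitzWith C.toNNReal fun x : ball (0 : E) 1 => F x := by
    refine LipschitzWith.of_dist_le' fun x y => ?_
    have hx := mem_ball_zero_iff.1 x.2
    have hy := mem_ball_zero_iff.1 y.2
    have := Complex.dist_le_div_mul_dist_of_mapsTo_ball (f := F) (c := y) (z := x) (R₁ := 2)
      (R₂ := 2 * C) hF.differentiableOn (fun w hw => by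
        rw [mem_closedBall, dist_eq_norm]
        have h2 := hC w (ball_subset_ball' (by rw [dist_zero_right]; linarith) hw)
        exact (norm_sub_le _ _).trans (by linarith [h1 y])) (by
        rw [mem_ball, dist_eq_norm]
        exact (norm_sub_le _ _).trans_lt (by linarith))
    rwa [mul_div_cancel_left₀ _ two_ne_zero] at this
  exact ⟨⟨ofNormedAddCommGroup _ hL.continuous C h1, hL.uniformContinuous, F,
    hF.differentiableOn, fun _ => rfl⟩, fun _ => rfl⟩

noncomputable def delta (x : ball (0 : E) 1) : Spec E :=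
  WeakDual.CharacterSpace.equivAlgHom.symm
    { toFun := fun f => f.1 x
      map_one' := rfl
      map_mul' := fun _ _ => rfl
      map_zero' := rfl
      map_add' := fun _ _ => rfl
      commutes' := fun _ => by simp }

theorem delta_apply (x : ball (0 : E) 1) (f : Au E) : delta x f = f.1 x := rfl

theorem norm_le' {f : Au E} {C : ℝ} (h : ∀ x, ‖f.1 x‖ ≤ C) : ‖f‖ ≤ C :=
  (BoundedContinuousFunction.norm_le ((norm_nonneg _).trans (h ⟨0, by simp⟩))).2 h

end Pool.Agent.H69.Sb
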