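import Mathlib

set_option autoImplicit false

namespace Pool.Agent.H69.Sb

open Metric Filter Topology Finset

variable {p : ℝ}

noncomputable def D1 (p : ℝ) (b : ℂ) : ℝ := (p - 1) / p + ‖b‖ ^ p / p - b.re

theorem re_lt {w : ℂ} {t : ℝ} (h : ‖w‖ = t) (h1 : w ≠ t) : w.re < t := by
  refine lt_of_le_of_ne (h ▸ Complex.re_le_norm w) fun h2 => h1 ?_
  have h3 : w.im = 0 := by
    have := Complex.sq_norm w
    rw [Complex.normSq_apply, h, h2] at this
    exact mul_self_eq_zero.1 (by linarith)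
  exact Complex.ext (by simpa using h2) (by simpa using h3)

theorem bern (hp : 1 < p) {u : ℝ} (hu : 0 ≤ u) : u ≤ 1 + (u ^ p - 1) / p := by
  have := one_add_mul_self_le_rpow_one_add (s := u - 1) (by linarith) hp.le
  rw [add_sub_cancel] at this
  have h : u - 1 ≤ (u ^ p - 1) / p := by rw [le_div_iff₀ (by linarith)]; linarith
  linarith

theorem D1_pos (hp : 1 < p) {b : ℂ} (hb : b ≠ 1) : 0 < D1 p b := by
  have e : D1 p b = 1 + (‖b‖ ^ p - 1) / p - b.re := by unfold D1; field_simp; ring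
  rw [e]
  by_cases h : ‖b‖ = 1
  · have := re_lt h (by simpa using hb)
    simp [h, this]
  · have := one_add_mul_self_lt_rpow_one_add (s := ‖b‖ - 1) (by linarith [norm_nonneg b])
      (sub_ne_zero.2 h) hp
    rw [add_sub_cancel] at this
    have h : ‖b‖ - 1 < (‖b‖ ^ p - 1) / p := by rw [lt_div_iff₀ (by linarith)]; linarith
    linarith [Complex.re_le_norm b]

theorem D1_nonneg (hp : 1 < p) (b : ℂ) : 0 ≤ D1 p b := by
  by_cases h : b = 1
  · have : D1 p 1 = 0 := by unfold D1; simp; field_simp; ring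
    rw [h, this]
  · exact (D1_pos hp h).le

theorem D1_bound (hp : 1 < p) {ε : ℝ} (hε : 0 < ε) :
    ∃ C : ℝ, p ≤ C ∧ ∀ b : ℂ, ‖b - 1‖ ^ p ≤ C * D1 p b + ε := by
  have p0 : 0 < p := by linarith
  obtain ⟨R, h1, h2⟩ := (((tendsto_rpow_atTop (show 0 < p - 1 by linarith)).eventually_ge_atTop
    (2 * p)).and (eventually_ge_atTop 1)).exists
  have hc : Continuous fun b : ℂ => ‖b - 1‖ ^ p :=
    (continuous_id.sub continuous_const).norm.rpow_const fun _ => Or.inr p0.le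
  obtain ⟨c, c0, hc⟩ := ((isCompact_closedBall (0 : ℂ) R).inter_right
    (isClosed_le continuous_const hc : IsClosed {b : ℂ | ε ≤ ‖b - 1‖ ^ p})).exists_forall_le'
    (f := D1 p) (a := 0) (Continuous.continuousOn (by
      unfold D1
      exact (continuous_const.add ((continuous_norm.rpow_const fun _ => Or.inr p0.le).div_const
        p)).sub Complex.continuous_re)) fun b hb => D1_pos hp (by
      rintro rfl
      have : ε ≤ ‖(1 : ℂ) - 1‖ ^ p := hb.2
      rw [sub_self, norm_zero, Real.zero_rpow p0.ne'] at this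
      linarith)
  refine ⟨p + (R + 1) ^ p / c + 2 ^ p * (2 * p), by
    have : 0 ≤ (R + 1) ^ p / c + 2 ^ p * (2 * p) := by positivity
    linarith, fun b => ?_⟩
  have h3 := D1_nonneg hp b
  have i1 := mul_nonneg p0.le h3
  have i2 : 0 ≤ (R + 1) ^ p / c * D1 p b := by positivity
  have i3 : 0 ≤ 2 ^ p * (2 * p) * D1 p b := by positivity
  have h4 : ‖b - 1‖ ≤ ‖b‖ + 1 := by simpa using norm_sub_le b 1
  by_cases h5 : ‖b‖ ≤ R
  · by_cases h6 : ε ≤ ‖b - 1‖ ^ p
    · have h7 := hc b ⟨mem_closedBall_zero_iff.2 h5, h6⟩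
      have h8 : ‖b - 1‖ ^ p ≤ (R + 1) ^ p := by gcongr; linarith
      have h9 : (R + 1) ^ p ≤ (R + 1) ^ p / c * D1 p b := by
        rw [div_mul_eq_mul_div, le_div_iff₀ c0]; gcongr
      linarith
    · linarith
  · have h6 : 2 * p * ‖b‖ ≤ ‖b‖ ^ p := by
      have : ‖b‖ ^ p = ‖b‖ ^ (p - 1) * ‖b‖ := by
        rw [Real.rpow_sub_one (by linarith), div_mul_cancel₀ _ (by linarith)]
      rw [this]
      gcongr
      exact h1.trans (by gcongr; linarith)
    have h7 : ‖b - 1‖ ^ p ≤ 2 ^ p * ‖b‖ ^ p := by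
      rw [← Real.mul_rpow (by norm_num) (norm_nonneg _)]; gcongr; linarith
    have h8 : ‖b‖ ^ p ≤ 2 * p * D1 p b := by
      have : 2 * p * D1 p b = 2 * (p - 1) + 2 * ‖b‖ ^ p - 2 * p * b.re := by
        unfold D1; field_simp
      have := mul_le_mul_of_nonneg_left (Complex.re_le_norm b) (show 0 ≤ 2 * p by linarith)
      linarith
    have := mul_le_mul_of_nonneg_left h8 (show (0 : ℝ) ≤ 2 ^ p by positivity)
    linarith

noncomputable def cf (p : ℝ) (a : ℂ) : ℂ := (‖a‖ ^ p : ℝ) / a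

noncomputable def Df (p : ℝ) (a b : ℂ) : ℝ :=
  ‖a‖ ^ p * ((p - 1) / p) + ‖b‖ ^ p / p - (cf p a * b).re

theorem Df_eq {a : ℂ} (ha : a ≠ 0) (b : ℂ) : Df p a (a * b) = ‖a‖ ^ p * D1 p b := by
  have : cf p a * (a * b) = (‖a‖ ^ p : ℝ) * b := by unfold cf; field_simp
  rw [Df, this, Complex.re_ofReal_mul, norm_mul, Real.mul_rpow (norm_nonneg _) (norm_nonneg _), D1]
  ring

theorem Df_bound (hp : 1 < p) {ε : ℝ} (hε : 0 < ε) : ∃ C : ℝ, p ≤ C ∧ ∀ a b : ℂ,
    0 ≤ Df p a b ∧ ‖b - a‖ ^ p ≤ C * Df p a b + ε * ‖a‖ ^ p := by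
  have p0 : 0 < p := by linarith
  obtain ⟨C, h1, h2⟩ := D1_bound hp hε
  refine ⟨C, h1, fun a b => ?_⟩
  by_cases ha : a = 0
  · have : Df p 0 b = ‖b‖ ^ p / p := by simp [Df, cf, p0.ne']
    rw [ha, this, sub_zero, norm_zero, Real.zero_rpow p0.ne', mul_zero, add_zero, ← mul_div_assoc]
    refine ⟨by positivity, ?_⟩
    rw [le_div_iff₀ p0, mul_comm]
    gcongr
  · obtain ⟨b, rfl⟩ : ∃ c, b = a * c := ⟨b / a, by field_simp⟩
    rw [Df_eq ha, ← mul_sub_one, norm_mul, Real.mul_rpow (norm_nonneg _) (norm_nonneg _)]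
    have := mul_le_mul_of_nonneg_left (h2 b) (show 0 ≤ ‖a‖ ^ p by positivity)
    exact ⟨mul_nonneg (by positivity) (D1_nonneg hp b), by linarith⟩

noncomputable def G (p t : ℝ) (k : ℕ) (w : ℂ) (τ : ℝ) : ℝ :=
  ‖w‖ ^ (k - p) * (‖w‖ ^ p * ‖t + w‖ + (τ ^ p - ‖w‖ ^ p) * (t + ‖w‖)) *
    Real.exp (-((k + 1 / 2) / t ^ p * τ ^ p / p))

noncomputable def Gs (p t : ℝ) (k : ℕ) : ℝ := 2 * t ^ (k + 1) * Real.exp (-((k + 1 / 2) / p))

variable {t : ℝ} {k : ℕ}

theorem H_lt (hp : 1 < p) (ht : 0 < t) {τ : ℝ} (h0 : 0 ≤ τ) (h : τ ≠ t) :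
    τ ^ k * (t + τ) * Real.exp (-((k + 1 / 2) / t ^ p * τ ^ p / p)) < Gs p t k := by
  obtain ⟨u, rfl⟩ : ∃ u, τ = t * u := ⟨τ / t, by field_simp⟩
  have hu : 0 ≤ u := nonneg_of_mul_nonneg_right h0 ht |> fun h => by
    by_contra h1; nlinarith
  have p0 : 0 < p := by linarith
  have h1 := bern hp hu
  set s := (u ^ p - 1) / p with hs
  have h2 : s / 2 ≠ 0 := fun h3 => h (by
    have : u ^ p = 1 ^ p := by
      rw [Real.one_rpow]
      have : s = 0 := by linarith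
      rw [hs, div_eq_zero_iff] at this
      rcases this with h | h <;> linarith
    rw [(Real.rpow_left_inj hu zero_le_one p0.ne').1 this, mul_one])
  have h3 := Real.add_one_lt_exp h2
  have h4 : u ^ k ≤ Real.exp s ^ k := pow_le_pow_left₀ hu (by linarith [Real.add_one_le_exp s]) k
  have h5 : u ^ k * (1 + u) < Real.exp s ^ k * (2 * Real.exp (s / 2)) :=
    mul_lt_mul' h4 (by linarith) (by linarith) (by positivity)
  have h6 : Real.exp (-((k + 1 / 2) / p)) = Real.exp s ^ k * Real.exp (s / 2) *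
      Real.exp (-((k + 1 / 2) / t ^ p * (t * u) ^ p / p)) := by
    rw [← Real.exp_nat_mul, ← Real.exp_add, ← Real.exp_add, Real.mul_rpow ht.le hu, hs]
    congr 1
    have : t ^ p ≠ 0 := by positivity
    field_simp
    ring
  rw [Gs, h6]
  have := mul_lt_mul_of_pos_right h5 (show 0 < t ^ (k + 1) *
    Real.exp (-((k + 1 / 2) / t ^ p * (t * u) ^ p / p)) by positivity)
  rw [mul_pow, pow_succ t] at *
  linarith

theorem G_lt (hp : 1 < p) (ht : 0 < t) (hk : p < k) {w : ℂ} {τ : ℝ} (h1 : ‖w‖ ≤ τ)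
    (h : τ ≠ t ∨ w ≠ t) : G p t k w τ < Gs p t k := by
  have h0 : 0 ≤ τ := (norm_nonneg w).trans h1
  have h2 : ‖(t : ℂ) + w‖ ≤ t + ‖w‖ := by simpa [abs_of_pos ht] using norm_add_le (t : ℂ) w
  have h3 : ‖w‖ ^ p * ‖t + w‖ + (τ ^ p - ‖w‖ ^ p) * (t + ‖w‖) ≤ τ ^ p * (t + τ) := by
    have := mul_le_mul_of_nonneg_left h2 (show 0 ≤ ‖w‖ ^ p by positivity)
    have := mul_le_mul_of_nonneg_left h1 (show 0 ≤ τ ^ p by positivity)
    linarith
  have e : τ ^ k * (t + τ) = τ ^ (k - p) * (τ ^ p * (t + τ)) := by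
    rw [← mul_assoc, ← Real.rpow_add' h0 (by linarith), sub_add_cancel, Real.rpow_natCast]
  have h4 : ‖w‖ ^ (k - p) ≤ τ ^ (k - p) := by gcongr
  by_cases h5 : τ = t
  · have e2 : Gs p t k = τ ^ k * (t + τ) * Real.exp (-((k + 1 / 2) / t ^ p * τ ^ p / p)) := by
      have : t ^ p ≠ 0 := by positivity
      rw [h5, div_mul_cancel₀ _ this, Gs]; ring
    have h6 := h.resolve_left (not_not.2 h5)
    rw [e2, e, G]
    refine mul_lt_mul_of_pos_right ?_ (Real.exp_pos _)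
    subst h5
    rcases h1.lt_or_eq with h7 | h7
    · exact (mul_le_mul_of_nonneg_left h3 (by positivity)).trans_lt (mul_lt_mul_of_pos_right
        (Real.rpow_lt_rpow (norm_nonneg _) h7 (by linarith)) (by positivity))
    · have h8 := re_lt h7 h6
      have h9 : ‖(τ : ℂ) + w‖ < τ + τ := by
        refine lt_of_pow_lt_pow_left₀ 2 (by linarith) ?_
        have := Complex.sq_norm w
        rw [Complex.normSq_apply, h7] at this
        rw [Complex.sq_norm, Complex.normSq_apply]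
        simp only [Complex.add_re, Complex.add_im, Complex.ofReal_re, Complex.ofReal_im]
        nlinarith
      rw [h7, sub_self, zero_mul, add_zero]
      gcongr
  · refine lt_of_le_of_lt ?_ (H_lt hp ht h0 h5)
    rw [e, G]
    refine mul_le_mul_of_nonneg_right ((mul_le_mul_of_nonneg_left h3 (by positivity)).trans
      (mul_le_mul_of_nonneg_right h4 (by positivity))) (Real.exp_pos _).le

theorem G_le (hp : 1 < p) (ht : 0 < t) (hk : p < k) {w : ℂ} {τ : ℝ} (h1 : ‖w‖ ≤ τ) :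
    G p t k w τ ≤ Gs p t k := by
  by_cases h : τ ≠ t ∨ w ≠ t
  · exact (G_lt hp ht hk h1 h).le
  · push Not at h
    have : t ^ p ≠ 0 := by positivity
    have e : ‖(t : ℂ) + t‖ = 2 * t := by
      rw [← Complex.ofReal_add, Complex.norm_real, Real.norm_of_nonneg (by linarith)]; ring
    rw [h.1, h.2, G, Gs, e, Complex.norm_real, Real.norm_of_nonneg ht.le, sub_self, zero_mul,
      add_zero, div_mul_cancel₀ _ this, ← mul_assoc, ← Real.rpow_add ht, sub_add_cancel,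
      Real.rpow_natCast]
    exact le_of_eq (by ring)

theorem G_near (hp : 1 < p) (ht : 0 < t) (hk : p < k) {ε : ℝ} (hε : 0 < ε) :
    ∃ θ : ℝ, θ < 1 ∧ ∀ (w : ℂ) (τ : ℝ), ‖w‖ ≤ τ → τ ≤ 1 → θ * Gs p t k < G p t k w τ →
      ‖w - t‖ ^ p + 2 ^ p * (τ ^ p - ‖w‖ ^ p) < ε := by
  have p0 : 0 < p := by linarith
  have c1 : ∀ q : ℝ, 0 ≤ q → Continuous fun x : ℝ => x ^ q := fun q hq =>
    continuous_id.rpow_const fun _ => Or.inr hq
  have c2 := c1 p p0.le
  have c3 := c1 (k - p) (by linarith)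
  obtain ⟨c, c0, hc⟩ := (((isCompact_closedBall (0 : ℂ) 1).prod (isCompact_Icc (a := (0 : ℝ))
    (b := 1))).inter_right (show IsClosed {x : ℂ × ℝ | ‖x.1‖ ≤ x.2 ∧
      ε ≤ ‖x.1 - t‖ ^ p + 2 ^ p * (x.2 ^ p - ‖x.1‖ ^ p)} from
      (isClosed_le (f := fun x : ℂ × ℝ => ‖x.1‖) (g := fun x => x.2) (by fun_prop)
        (by fun_prop)).inter (isClosed_le (f := fun x : ℂ × ℝ => ε) (g := fun x =>
        ‖x.1 - t‖ ^ p + 2 ^ p * (x.2 ^ p - ‖x.1‖ ^ p)) (by fun_prop) (by
          fun_prop (disch := intro; exact Or.inr p0.le))))).exists_forall_le'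
    (f := fun x => Gs p t k - G p t k x.1 x.2) (a := 0) (Continuous.continuousOn (by
      unfold G
      fun_prop)) fun x hx => sub_pos.2 (G_lt hp ht hk hx.2.1 (by
      by_contra h
      push Not at h
      have := hx.2.2
      rw [h.1, h.2, sub_self, norm_zero, Real.zero_rpow p0.ne', Complex.norm_real,
        Real.norm_of_nonneg ht.le] at this
      linarith))
  have g0 : 0 < Gs p t k := by unfold Gs; positivity
  refine ⟨1 - c / Gs p t k, by linarith [div_pos c0 g0], fun w τ h1 h2 h3 => ?_⟩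
  by_contra h4
  have := hc (w, τ) ⟨⟨mem_closedBall_zero_iff.2 (h1.trans h2), (norm_nonneg w).trans h1, h2⟩,
    h1, not_lt.1 h4⟩
  rw [sub_mul, div_mul_cancel₀ _ g0.ne'] at h3
  simp only at this
  linarith

end Pool.Agent.H69.Sb
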