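import Mathlib
import Pool.Agent.H69.Sb3

set_option autoImplicit false

namespace Pool.Agent.H69.Sb

open Metric Filter Topology Finset
open scoped ENNReal

abbrev X (P : ℝ≥0∞) : Type := lp (fun _ : ℕ => ℂ) P

variable {P : ℝ≥0∞} [Fact (1 ≤ P)]

theorem coord_le (x : X P) (n : ℕ) : ‖x n‖ ≤ ‖x‖ :=
  lp.norm_apply_le_norm (zero_lt_one.trans_le Fact.out).ne' x n

theorem weak_null (hp : 1 < P.toReal) (l : X P →L[ℂ] ℂ) :
    Tendsto (fun n => l (lp.single P n 1)) atTop (𝓝 0) := by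
  classical
  have p0 : 0 < P.toReal := by linarith
  rw [← Nat.cofinite_eq_atTop, Metric.tendsto_nhds]
  intro ε hε
  rw [eventually_cofinite]
  by_contra hI
  have h1 : ∀ n, ‖l (lp.single P n 1)‖ ≤ ‖l‖ := fun n => by
    simpa [lp.norm_single (zero_lt_one.trans_le (Fact.out : 1 ≤ P))] using
      l.le_opNorm (lp.single P n 1)
  obtain ⟨r, h2, h3⟩ := ((((tendsto_rpow_atTop (show 0 < 1 - P.toReal⁻¹ by
    linarith [inv_lt_one_of_one_lt₀ hp])).comp tendsto_natCast_atTop_atTop).eventually_gt_atTop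
      (‖l‖ * ‖l‖ / ε ^ 2)).and (eventually_gt_atTop 0)).exists
  obtain ⟨s, hs, rfl⟩ := Set.Infinite.exists_subset_card_eq hI r
  set x : X P := ∑ i ∈ s, lp.single P i (starRingEnd ℂ (l (lp.single P i 1))) with hx
  have h4 : ‖x‖ ≤ (s.card : ℝ) ^ P.toReal⁻¹ * ‖l‖ := by
    rw [← Real.rpow_le_rpow_iff (norm_nonneg _) (by positivity) p0, hx, lp.norm_sum_single p0,
      Real.mul_rpow (by positivity) (norm_nonneg _), Real.rpow_inv_rpow (by positivity) p0.ne',
      ← nsmul_eq_mul]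
    refine sum_le_card_nsmul _ _ _ fun i _ => ?_
    rw [Complex.norm_conj]
    gcongr
    exact h1 i
  have h5 : l x = (∑ i ∈ s, ‖l (lp.single P i 1)‖ ^ 2 : ℝ) := by
    rw [hx, map_sum]
    push_cast
    refine sum_congr rfl fun i _ => ?_
    rw [← Complex.conj_mul', ← smul_eq_mul, ← map_smul, ← lp.single_smul, smul_eq_mul, mul_one]
  have h6 : s.card * ε ^ 2 ≤ ‖l x‖ := by
    rw [h5, Complex.norm_real, ← nsmul_eq_mul]
    refine (card_nsmul_le_sum _ _ _ fun i hi => ?_).trans (Real.le_norm_self _)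
    have : ¬ dist (l (lp.single P i 1)) 0 < ε := hs hi
    rw [dist_zero_right, not_lt] at this
    gcongr
  have h7 := (h6.trans (l.le_opNorm x)).trans (mul_le_mul_of_nonneg_left h4 (norm_nonneg _))
  have c0 : (0 : ℝ) < s.card := by exact_mod_cast h3
  rw [Function.comp_apply, Real.rpow_sub c0, Real.rpow_one,
    div_lt_div_iff₀ (by positivity) (by positivity)] at h2
  linarith

theorem pw {p a c : ℝ} {j : ℕ} (hp : 0 < p) (hj : p ≤ j) (ha : 0 ≤ a) (h : a ≤ c) :
    a ^ j ≤ c ^ (j - p) * a ^ p := by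
  have : a ^ j = a ^ (j - p) * a ^ p := by
    rw [← Real.rpow_add' ha (by linarith), sub_add_cancel, Real.rpow_natCast]
  rw [this]
  gcongr

theorem exists_P (hp : 1 < P.toReal) {j : ℕ} (hj : P.toReal ≤ j) (w : ℕ → ℂ)
    (hw : ∀ n, ‖w n‖ ≤ 1) : ∃ (F : X P → ℂ) (C : ℝ), Differentiable ℂ F ∧
      (∀ x ∈ ball (0 : X P) 3, ‖F x‖ ≤ C) ∧ ∀ x : X P, HasSum (fun n => w n * x n ^ j) (F x) := by
  classical
  have p0 : 0 < P.toReal := by linarith
  have j0 : 0 < j := by exact_mod_cast p0.trans_le hj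
  haveI : Nonempty (Fin j) := ⟨⟨0, j0⟩⟩
  let m : ℕ → MultilinearMap ℂ (fun _ : Fin j => X P) ℂ := fun n =>
    w n • (MultilinearMap.mkPiAlgebra ℂ (Fin j) ℂ).compLinearMap fun _ => lp.evalₗ _ P n
  have hm : ∀ n x, m n x = w n * ∏ i, x i n := fun n x => rfl
  have h1 : ∀ (x : Fin j → X P) n, ‖m n x‖ ≤ ∑ i, ‖x i‖ ^ (j - P.toReal) * ‖x i n‖ ^ P.toReal := by
    intro x n
    obtain ⟨i, hi⟩ := Finite.exists_max fun i => ‖x i n‖
    rw [hm, norm_mul, norm_prod]
    refine (mul_le_of_le_one_left (by positivity) (hw n)).trans ?_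
    refine (prod_le_prod (fun _ _ => norm_nonneg _) fun a _ => hi a).trans ?_
    rw [prod_const, card_univ, Fintype.card_fin]
    exact (pw p0 hj (norm_nonneg _) (coord_le _ n)).trans (single_le_sum
      (f := fun i => ‖x i‖ ^ (j - P.toReal) * ‖x i n‖ ^ P.toReal) (fun _ _ => by positivity)
      (mem_univ i))
  have h2 : ∀ x : Fin j → X P, HasSum (fun n => ∑ i, ‖x i‖ ^ (j - P.toReal) * ‖x i n‖ ^ P.toReal)
      (∑ i, ‖x i‖ ^ (j - P.toReal) * ‖x i‖ ^ P.toReal) := fun x =>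
    hasSum_sum fun i _ => (lp.hasSum_norm p0 (x i)).mul_left _
  have h3 : ∀ x, Summable fun n => m n x := fun x => .of_norm_bounded (h2 x).summable (h1 x)
  let M : MultilinearMap ℂ (fun _ : Fin j => X P) ℂ :=
    { toFun := fun x => ∑' n, m n x
      map_update_add' := fun x i a b => by
        rw [← (h3 _).tsum_add (h3 _)]
        simp only [MultilinearMap.map_update_add]
      map_update_smul' := fun x i c a => by
        simp only [MultilinearMap.map_update_smul, smul_eq_mul, tsum_mul_left] }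
  have h4 : ∀ x, ‖M x‖ ≤ (j * 2 ^ j) * ∏ i, ‖x i‖ := by
    refine M.bound_of_shell (ε := fun _ => 1) (c := fun _ => 2) (fun _ => one_pos)
      (fun _ => by simp) fun x h5 h6 => ?_
    have h7 : ‖M x‖ ≤ j := by
      refine ((h3 x).hasSum.norm_le_of_bounded (h2 x) (h1 x)).trans ?_
      refine (sum_le_card_nsmul _ _ 1 fun i _ => ?_).trans (by simp)
      exact mul_le_one₀ (Real.rpow_le_one (norm_nonneg _) (h6 i).le (by linarith)) (by positivity)
        (Real.rpow_le_one (norm_nonneg _) (h6 i).le p0.le)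
    have h8 : (1 / 2 : ℝ) ^ j ≤ ∏ i, ‖x i‖ := by
      have := prod_le_prod (s := univ) (f := fun _ : Fin j => (1 / 2 : ℝ)) (g := fun i => ‖x i‖)
        (fun _ _ => by norm_num) fun i _ => by simpa using h5 i
      simpa using this
    refine h7.trans (le_trans (le_of_eq ?_) (mul_le_mul_of_nonneg_left h8 (by positivity)))
    rw [mul_assoc, ← mul_pow]
    simp
  refine ⟨fun x => M.mkContinuous _ h4 fun _ => x, (j * 2 ^ j) * 3 ^ j,
    ((M.mkContinuous _ h4).contDiff (n := 1)).differentiable one_ne_zero |>.comp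
      (differentiable_pi.2 fun _ => differentiable_id), fun x hx => (h4 _).trans ?_, fun x => ?_⟩
  · rw [prod_const, card_univ, Fintype.card_fin]
    gcongr
    exact (mem_ball_zero_iff.1 hx).le
  · have e : (fun n => w n * x n ^ j) = fun n => m n fun _ => x := by funext n; simp [hm]
    rw [e]
    exact (h3 fun _ => x).hasSum

theorem hs_lt (f : ℕ → ℝ) (m : ℕ) :
    HasSum (fun n => if n < m then f n else 0) (∑ n ∈ range m, f n) := by
  have := hasSum_sum_of_ne_finset_zero (f := fun n => if n < m then f n else 0) (s := range m)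
    (L := SummationFilter.unconditional _) fun n hn => if_neg fun h => hn (mem_range.2 h)
  rwa [sum_congr rfl fun n hn => if_pos (mem_range.1 hn)] at this

theorem exists_max (hp : 0 < P.toReal) (x : X P) {A : Set ℕ} (hA : A.Nonempty) :
    ∃ n ∈ A, ∀ j ∈ A, ‖x j‖ ≤ ‖x n‖ := by
  by_cases h : ∃ n ∈ A, x n ≠ 0
  · obtain ⟨n, h1, h2⟩ := h
    have h3 := (lp.hasSum_norm hp x).summable.tendsto_cofinite_zero.eventually
      (gt_mem_nhds (Real.rpow_pos_of_pos (norm_pos_iff.2 h2) P.toReal))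
    obtain ⟨a, h4, h5⟩ := Set.exists_max_image {j | j ∈ A ∧ ‖x n‖ ≤ ‖x j‖} (fun j => ‖x j‖)
      ((eventually_cofinite.1 h3).subset fun j hj => not_lt.2 (by gcongr; exact hj.2))
      ⟨n, h1, le_rfl⟩
    refine ⟨a, h4.1, fun j hj => ?_⟩
    by_cases h6 : ‖x n‖ ≤ ‖x j‖
    · exact h5 j ⟨hj, h6⟩
    · exact (not_le.1 h6).le.trans h4.2
  · push Not at h
    obtain ⟨n, hn⟩ := hA
    exact ⟨n, hn, fun j hj => by rw [h j hj, h n hn]⟩

end Pool.Agent.H69.Sb
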