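import Mathlib
import Pool.Agent.H69.Sb4

set_option autoImplicit false

namespace Pool.Agent.H69.Sb

open Metric Filter Topology Finset
open scoped ENNReal

theorem gold {E : Type} [NormedAddCommGroup E] [NormedSpace ℂ E] (z : (E →L[ℂ] ℂ) →L[ℂ] ℂ)
    (F : Finset (E →L[ℂ] ℂ)) {δ : ℝ} (hδ : 0 < δ) :
    ∃ y : E, ‖y‖ ≤ ‖z‖ ∧ ∀ l ∈ F, ‖l y - z l‖ < δ := by
  classical
  let T : E →L[ℂ] (F → ℂ) := ContinuousLinearMap.pi fun i => i.1
  have : (fun i : F => z i.1) ∈ closure (T '' closedBall 0 ‖z‖) := by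
    by_contra h
    obtain ⟨f, u, h1, h2⟩ := RCLike.geometric_hahn_banach_point_closed (𝕜 := ℂ)
      (((convex_closedBall (0 : E) ‖z‖).linear_image (T.restrictScalars ℝ).toLinearMap).closure)
      isClosed_closure h
    have e : ∀ w : F → ℂ, f w = ∑ i, f (Pi.single i 1) * w i := fun w => by
      conv_lhs => rw [← Finset.univ_sum_single w]
      rw [map_sum]
      refine sum_congr rfl fun i _ => ?_
      rw [mul_comm, ← smul_eq_mul, ← map_smul, ← Pi.single_smul, smul_eq_mul, mul_one]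
    have e1 : f.comp T = ∑ i : F, f (Pi.single i 1) • i.1 := by
      ext y
      rw [ContinuousLinearMap.comp_apply, e, ContinuousLinearMap.sum_apply]
      rfl
    have e2 : z (f.comp T) = f fun i => z i.1 := by rw [e1, e, map_sum]; simp
    have h3 : ∀ y, ‖y‖ ≤ ‖z‖ → u < (f.comp T y).re := fun y hy =>
      h2 _ (subset_closure ⟨y, mem_closedBall_zero_iff.2 hy, rfl⟩)
    have h4 : (z (f.comp T)).re < u := e2 ▸ h1
    have h5 := (abs_le.1 ((Complex.abs_re_le_norm _).trans (z.le_opNorm (f.comp T)))).1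
    have h6 : u < 0 := by simpa using h3 0 (by rw [norm_zero]; exact norm_nonneg z)
    have h7 : 0 < ‖z‖ := (norm_nonneg z).lt_of_ne' fun h => by rw [h] at h5; linarith
    obtain ⟨y, h8, h9⟩ := (f.comp T).exists_lt_apply_of_lt_opNorm (r := -u / ‖z‖)
      (by rw [div_lt_iff₀ h7]; linarith)
    obtain ⟨ω, w1, w2⟩ := Complex.exists_norm_eq_mul_self (f.comp T y)
    have := h3 ((-(‖z‖ : ℂ) * ω) • y) (by
      rw [norm_smul, norm_mul, norm_neg, w1, Complex.norm_real, Real.norm_of_nonneg h7.le]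
      nlinarith)
    rw [map_smul, smul_eq_mul, mul_assoc, ← w2, ← Complex.ofReal_neg, ← Complex.ofReal_mul,
      Complex.ofReal_re] at this
    rw [div_lt_iff₀ h7] at h9
    linarith
  obtain ⟨_, ⟨y, h1, rfl⟩, h2⟩ := Metric.mem_closure_iff.1 this δ hδ
  refine ⟨y, mem_closedBall_zero_iff.1 h1, fun l hl => ?_⟩
  rw [← dist_eq_norm, dist_comm]
  exact (dist_le_pi_dist _ _ (⟨l, hl⟩ : F)).trans_lt h2

theorem hs1 (x : X 1) : HasSum (fun n => ‖x n‖) ‖x‖ := by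
  simpa using lp.hasSum_norm (p := 1) (by simp) x

theorem rep (l : X 1 →L[ℂ] ℂ) (x : X 1) :
    HasSum (fun n => l (lp.single 1 n 1) * x n) (l x) := by
  refine (congrArg (HasSum · (l x)) (funext fun n => ?_)).mp
    (l.hasSum (lp.hasSum_single ENNReal.one_ne_top x))
  rw [mul_comm, ← smul_eq_mul, ← map_smul, ← lp.single_smul, smul_eq_mul, mul_one]

theorem e_le (l : X 1 →L[ℂ] ℂ) (n : ℕ) : ‖l (lp.single 1 n 1)‖ ≤ ‖l‖ := by
  simpa [lp.norm_single (p := 1) one_pos] using l.le_opNorm (lp.single 1 n 1)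

def Bd1 (g : ℕ → ℂ) : Prop := ∀ n, ‖g n‖ ≤ 1

theorem Bd1.ind {g : ℕ → ℂ} (h : Bd1 g) (B : Set ℕ) : Bd1 (B.indicator g) := fun n =>
  (norm_indicator_le_norm_self _ _).trans (h n)

theorem exists_fn (g : ℕ → ℂ) : ∃ l : X 1 →L[ℂ] ℂ, ‖l‖ ≤ 1 ∧
    (Bd1 g → ∀ x : X 1, HasSum (fun n => g n * x n) (l x)) := by
  by_cases h : Bd1 g
  · have h1 : ∀ (x : X 1) n, ‖g n * x n‖ ≤ ‖x n‖ := fun x n => by
      rw [norm_mul]; exact mul_le_of_le_one_left (norm_nonneg _) (h n)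
    have h2 : ∀ x : X 1, Summable fun n => g n * x n := fun x =>
      .of_norm_bounded (hs1 x).summable (h1 x)
    let L : X 1 →ₗ[ℂ] ℂ :=
      { toFun := fun x => ∑' n, g n * x n
        map_add' := fun x y => by
          rw [← (h2 x).tsum_add (h2 y)]
          simp [mul_add]
        map_smul' := fun c x => by
          simp [← tsum_mul_left, mul_left_comm] }
    have h3 : ∀ x, ‖L x‖ ≤ 1 * ‖x‖ := fun x =>
      ((h2 x).hasSum.norm_le_of_bounded (hs1 x) (h1 x)).trans_eq (one_mul _).symm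
    exact ⟨L.mkContinuous 1 h3, L.mkContinuous_norm_le zero_le_one h3, fun _ x => (h2 x).hasSum⟩
  · exact ⟨0, by simp, fun h1 => absurd h1 h⟩

noncomputable def fn (g : ℕ → ℂ) : X 1 →L[ℂ] ℂ := (exists_fn g).choose

theorem fn_le (g : ℕ → ℂ) : ‖fn g‖ ≤ 1 := (exists_fn g).choose_spec.1

theorem fn_hs {g : ℕ → ℂ} (h : Bd1 g) (x : X 1) : HasSum (fun n => g n * x n) (fn g x) :=
  (exists_fn g).choose_spec.2 h x

theorem fn_e {g : ℕ → ℂ} (h : Bd1 g) (n : ℕ) : fn g (lp.single 1 n 1) = g n := by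
  refine (fn_hs h _).unique ?_
  simpa using hasSum_single (f := fun j => g j * lp.single (E := fun _ => ℂ) 1 n 1 j) n
    fun j hj => by simp [hj]

theorem ext1 {l l' : X 1 →L[ℂ] ℂ} (h : ∀ n, l (lp.single 1 n 1) = l' (lp.single 1 n 1)) :
    l = l' := ContinuousLinearMap.ext fun x => (rep l x).unique (by simpa only [h] using rep l' x)

def Sm (z : (X 1 →L[ℂ] ℂ) →L[ℂ] ℂ) (B : Set ℕ) (ε : ℝ) : Prop :=
  ∀ g, Bd1 g → ‖z (fn (B.indicator g))‖ ≤ ε

variable {z : (X 1 →L[ℂ] ℂ) →L[ℂ] ℂ} {B B1 B2 : Set ℕ} {ε : ℝ}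

theorem Sm.mono (h : Sm z B ε) (h1 : B1 ⊆ B) : Sm z B1 ε := fun g hg => by
  have := h _ (hg.ind B1)
  rwa [Set.indicator_indicator, Set.inter_eq_right.2 h1] at this

theorem Sm.half (h : Sm z B ε) (h1 : B1 ⊆ B) (h2 : B2 ⊆ B) (h3 : Disjoint B1 B2) :
    Sm z B1 (ε / 2) ∨ Sm z B2 (ε / 2) := by
  by_contra h4
  simp only [Sm, not_or, not_forall, not_le] at h4
  obtain ⟨⟨g, i1, i2⟩, g', i3, i4⟩ := h4
  obtain ⟨ω, w1, w2⟩ := Complex.exists_norm_eq_mul_self (z (fn (B1.indicator g)))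
  obtain ⟨ω', w3, w4⟩ := Complex.exists_norm_eq_mul_self (z (fn (B2.indicator g')))
  have i5 : Bd1 fun n => ω * B1.indicator g n + ω' * B2.indicator g' n := fun n => by
    by_cases a : n ∈ B1
    · simpa [a, Set.disjoint_left.1 h3 a, w1] using i1 n
    · simpa [a, w3] using i3.ind B2 n
  have := h _ i5
  rw [show fn (B.indicator fun n => ω * B1.indicator g n + ω' * B2.indicator g' n) =
      ω • fn (B1.indicator g) + ω' • fn (B2.indicator g') from ext1 fun n => by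
    simp only [ContinuousLinearMap.add_apply, ContinuousLinearMap.smul_apply, smul_eq_mul,
      fn_e (i5.ind B), fn_e (i1.ind B1), fn_e (i3.ind B2)]
    by_cases a : n ∈ B
    · simp [a]
    · simp [a, mt (@h1 n) a, mt (@h2 n) a], map_add, map_smul, map_smul, smul_eq_mul, smul_eq_mul,
    ← w2, ← w4, ← Complex.ofReal_add, Complex.norm_real] at this
  linarith [Real.le_norm_self (‖z (fn (B1.indicator g))‖ + ‖z (fn (B2.indicator g'))‖)]

theorem exists_seq (hz : ‖z‖ ≤ 1) : ∃ n : ℕ → ℕ, (∀ j, j < n j) ∧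
    ∀ m, Sm z (n '' Set.Ici m) ((1 / 2) ^ m) := by
  have step : ∀ (j : ℕ) (a : {a : ℕ // Sm z {n | n ≡ a [MOD 2 ^ j]} ((1 / 2) ^ j)}),
      ∃ b : {a : ℕ // Sm z {n | n ≡ a [MOD 2 ^ (j + 1)]} ((1 / 2) ^ (j + 1))},
        b.1 ≡ a.1 [MOD 2 ^ j] := by
    rintro j ⟨a, ha⟩
    have d : 2 ^ j ∣ 2 ^ (j + 1) := pow_dvd_pow 2 (Nat.le_succ j)
    have e : a + 2 ^ j ≡ a [MOD 2 ^ j] := by simp [Nat.ModEq]
    rcases ha.half (B1 := {n | n ≡ a [MOD 2 ^ (j + 1)]})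
      (B2 := {n | n ≡ a + 2 ^ j [MOD 2 ^ (j + 1)]}) (fun n h => Nat.ModEq.of_dvd d h)
      (fun n h => (Nat.ModEq.of_dvd d h).trans e) (Set.disjoint_left.2 fun n h1 h2 => by
        have := (Nat.modEq_iff_dvd' (Nat.le_add_right a _)).1 (h1.symm.trans h2)
        rw [Nat.add_sub_cancel_left] at this
        have := Nat.le_of_dvd (by positivity) this
        rw [pow_succ] at this
        have : 0 < 2 ^ j := by positivity
        omega) with h | h
    · exact ⟨⟨a, by rwa [pow_succ (1 / 2 : ℝ), mul_one_div]⟩, rfl⟩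
    · exact ⟨⟨a + 2 ^ j, by rwa [pow_succ (1 / 2 : ℝ), mul_one_div]⟩, e⟩
  choose f hf using step
  let a : (j : ℕ) → {a : ℕ // Sm z {n | n ≡ a [MOD 2 ^ j]} ((1 / 2) ^ j)} := fun j =>
    Nat.rec ⟨0, fun g _ => (z.le_opNorm _).trans
      (by simpa using mul_le_one₀ hz (norm_nonneg _) (fn_le _))⟩ f j
  have h1 : ∀ m j, m ≤ j → (a j).1 ≡ (a m).1 [MOD 2 ^ m] := fun m j h => by
    induction h with
    | refl => rfl
    | step h ih => exact (Nat.ModEq.of_dvd (pow_dvd_pow 2 h) (hf _ _)).trans ih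
  refine ⟨fun j => (a j).1 + 2 ^ j, fun j => Nat.lt_add_left _ Nat.lt_two_pow_self,
    fun m => (a m).2.mono ?_⟩
  rintro _ ⟨j, hj, rfl⟩
  exact (Nat.ModEq.of_dvd (pow_dvd_pow 2 hj) (by simp [Nat.ModEq])).trans (h1 m j hj)

theorem uni {w : ℂ} (h : ‖w‖ ≤ 1) : ∃ u v : ℂ, ‖u‖ = 1 ∧ ‖v‖ = 1 ∧ u + v = 2 * w := by
  obtain ⟨ω, w1, w2⟩ := Complex.exists_norm_mul_eq_self w
  have h1 : √(1 - ‖w‖ ^ 2) ^ 2 = 1 - ‖w‖ ^ 2 := Real.sq_sqrt (by nlinarith [norm_nonneg w])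
  refine ⟨ω * ⟨‖w‖, √(1 - ‖w‖ ^ 2)⟩, ω * ⟨‖w‖, -√(1 - ‖w‖ ^ 2)⟩, ?_, ?_, ?_⟩
  · rw [norm_mul, w1, one_mul, Complex.norm_eq_sqrt_sq_add_sq]; simp [h1]
  · rw [norm_mul, w1, one_mul, Complex.norm_eq_sqrt_sq_add_sq]; simp [h1]
  · rw [← mul_add]
    conv_rhs => rw [← w2, mul_left_comm]
    congr 1
    apply Complex.ext <;> simp
    ring

theorem exists_h (z : (X 1 →L[ℂ] ℂ) →L[ℂ] ℂ) (hε : 0 < ε) :
    ∃ h : ℕ → ℂ, (∀ n, ‖h n‖ = 1) ∧ ‖z‖ - ε ≤ (z (fn h)).re := by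
  obtain ⟨l, h1, h2⟩ := z.exists_lt_apply_of_lt_opNorm (r := ‖z‖ - ε) (by linarith)
  obtain ⟨ω, w1, w2⟩ := Complex.exists_norm_eq_mul_self (z l)
  choose u v h3 h4 h5 using fun n => uni (w := ω * l (lp.single 1 n 1))
    (by rw [norm_mul, w1, one_mul]; exact (e_le l n).trans h1.le)
  have e : fn u + fn v = (2 * ω) • l := ext1 fun n => by
    simp only [ContinuousLinearMap.add_apply, ContinuousLinearMap.smul_apply, smul_eq_mul,
      fn_e fun n => (h3 n).le, fn_e fun n => (h4 n).le, h5, mul_assoc]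
  have e2 := congrArg (fun l => (z l).re) e
  simp only [map_add, map_smul, smul_eq_mul, mul_assoc, ← w2, Complex.add_re] at e2
  have e3 : (2 * (‖z l‖ : ℂ)).re = 2 * ‖z l‖ := by simp
  rcases le_total (z (fn u)).re (z (fn v)).re with h | h
  · exact ⟨v, h4, by linarith⟩
  · exact ⟨u, h3, by linarith⟩

end Pool.Agent.H69.Sb
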