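import Mathlib
import Pool.Agent.H69.Sb3

set_option autoImplicit false

namespace Pool.Agent.H69.Sb

open Metric Filter Topology Finset

theorem im_sq {ι : Type} {q : ι → ℂ} {c : ι → ℝ} {σ : ℝ} {Q V : ℂ} (hc : ∀ i, |c i| ≤ 1)
    (h1 : HasSum (fun i => ‖q i‖) σ) (h2 : HasSum q Q) (h3 : HasSum (fun i => c i * q i) V) :
    V.im ^ 2 ≤ 2 * σ * (σ - Q.re) := by
  have h4 : ∀ i, ‖(c i * q i).im‖ ≤ |(q i).im| := fun i => by
    rw [Complex.im_ofReal_mul, Real.norm_eq_abs, abs_mul]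
    exact mul_le_of_le_one_left (abs_nonneg _) (hc i)
  have h5 := Complex.hasSum_im h3
  have h6 := Complex.hasSum_re h2
  have h7 : |V.im| ≤ σ := h5.norm_le_of_bounded h1 fun i => (h4 i).trans (Complex.abs_im_le_norm _)
  have h8 : Q.re ≤ σ := hasSum_le (fun i => Complex.re_le_norm _) h6 h1
  rcases (abs_nonneg V.im).eq_or_lt with h | h
  · rw [← sq_abs, ← h]
    nlinarith [mul_nonneg (h ▸ h7) (sub_nonneg.2 h8)]
  have s0 : 0 < σ := h.trans_le h7
  set γ := |V.im| / (2 * σ) with hγ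
  have γ0 : 0 < γ := by positivity
  have h9 : |V.im| ≤ γ * σ + (σ - Q.re) / (2 * γ) :=
    h5.norm_le_of_bounded ((h1.mul_left γ).add ((h1.sub h6).div_const (2 * γ))) fun i => by
      refine (h4 i).trans (abs_le_of_sq_le_sq' ?_ ?_ |> fun h => abs_le.2 h)
      · have i1 := Complex.sq_norm (q i)
        rw [Complex.normSq_apply] at i1
        have i2 := Complex.re_le_norm (q i)
        have i3 : 4 * (γ * ‖q i‖) * ((‖q i‖ - (q i).re) / (2 * γ)) =
            2 * ‖q i‖ * (‖q i‖ - (q i).re) := by field_simp; ring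
        nlinarith [sq_nonneg (γ * ‖q i‖ - (‖q i‖ - (q i).re) / (2 * γ)),
          sq_nonneg (‖q i‖ - (q i).re)]
      · have := sub_nonneg.2 (Complex.re_le_norm (q i))
        positivity
  have e1 : γ * σ = |V.im| / 2 := by rw [hγ]; field_simp
  have e2 : (σ - Q.re) / (2 * γ) = σ * (σ - Q.re) / |V.im| := by rw [hγ]; field_simp
  rw [e1, e2, ← sub_le_iff_le_add', le_div_iff₀ h] at h9
  rw [← sq_abs]
  linarith

theorem g1 {f : ℕ → ℂ} {a : ℂ} (h : HasSum f a) (h' : Summable fun n => ‖f n‖) :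
    HasSum (fun p : ℕ × ℕ => f p.1 * f p.2) (a * a) := by
  have := summable_mul_of_summable_norm h' h'
  exact HasSum.mul h h this

theorem g2 {f : ℕ → ℝ} {a : ℝ} (h : HasSum f a) (h' : ∀ n, 0 ≤ f n) :
    HasSum (fun p : ℕ × ℕ => f p.1 * f p.2) (a * a) := by
  have := Summable.mul_of_nonneg h.summable h.summable h' h'
  exact HasSum.mul h h this

theorem quad {y : ℕ → ℂ} {b : ℕ → ℝ} {s : ℝ} {u v S : ℂ} (hb : ∀ n, |b n| ≤ 1)
    (h1 : HasSum (fun n => ‖y n‖) s) (h2 : HasSum y u) (h3 : HasSum (fun n => b n * y n) v)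
    (h4 : HasSum (fun n => y n ^ 2) S) : ‖v‖ ≤ s ∧ ‖S - u ^ 2 / 2‖ ≤ s ^ 2 / 2 ∧
      ‖(S - u ^ 2 / 2) ^ 2 - v ^ 4 / 32‖ ≤ s ^ 4 / 4 - ‖v‖ ^ 4 / 64 := by
  have h5 : ∀ n, ‖b n * y n‖ ≤ ‖y n‖ := fun n => by
    rw [norm_mul, Complex.norm_real]
    exact mul_le_of_le_one_left (norm_nonneg _) (hb n)
  have hv := h3.norm_le_of_bounded h1 h5
  obtain ⟨ω, w1, w2⟩ := Complex.exists_norm_eq_mul_self (S - u ^ 2 / 2)
  set P := S - u ^ 2 / 2 with hP
  have i1 := g2 h1 fun _ => norm_nonneg _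
  have i2 := g1 h2 h1.summable
  have i3 := g1 h3 (Summable.of_nonneg_of_le (fun _ => norm_nonneg _) h5 h1.summable)
  have i4 : HasSum (fun p : ℕ × ℕ => if p.1 = p.2 then y p.1 * y p.2 else 0) S := by
    rw [← Function.Injective.hasSum_iff (g := fun n : ℕ => (n, n))
      (fun a b h => (Prod.ext_iff.1 h).1) fun p hp => if_neg fun h => hp ⟨p.1, Prod.ext rfl h⟩]
    simpa [Function.comp_def, sq] using h4
  have j1 : HasSum (fun p : ℕ × ℕ => ‖ω * (2 * (if p.1 = p.2 then y p.1 * y p.2 else 0) -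
      y p.1 * y p.2)‖) (s * s) := by
    refine (congrArg (HasSum · (s * s)) (funext fun p => ?_)).mp i1
    rw [norm_mul, w1, one_mul, ← norm_mul]
    split_ifs
    · congr 1; ring
    · simp
  have j2 := ((i4.mul_left 2).sub i2).mul_left ω
  have e : ω * (2 * S - u * u) = (2 * ‖P‖ : ℝ) := by push_cast; rw [w2, hP]; ring
  rw [e] at j2
  have j3 := im_sq (c := fun p : ℕ × ℕ => (if p.1 = p.2 then 1 else -1) * (b p.1 * b p.2))
    (V := ω * (v * v)) (fun p => by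
      have : |b p.1 * b p.2| ≤ 1 := by
        rw [abs_mul]; exact mul_le_one₀ (hb _) (abs_nonneg _) (hb _)
      split_ifs <;> simpa using this) j1 j2 (by
      refine (congrArg (HasSum · (ω * (v * v))) (funext fun p => ?_)).mp (i3.mul_left ω)
      split_ifs <;> push_cast <;> ring)
  have j4 := j2.norm_le_of_bounded j1 fun _ => le_rfl
  rw [Complex.norm_real, Real.norm_of_nonneg (by positivity)] at j4
  rw [Complex.ofReal_re] at j3
  refine ⟨hv, by linarith, ?_⟩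
  set W := ω * (v * v) with hW
  have k1 : ‖P ^ 2 - v ^ 4 / 32‖ = ‖((‖P‖ ^ 2 - W.re ^ 2 / 32 : ℝ) : ℂ) + (W.im ^ 2 / 32 : ℝ) -
      (W.re * W.im / 16 : ℝ) * Complex.I‖ := by
    rw [← one_mul ‖P ^ 2 - _‖, ← one_pow 2, ← w1, ← norm_pow, ← norm_mul]
    congr 1
    have : ω ^ 2 * (P ^ 2 - v ^ 4 / 32) = (ω * P) ^ 2 - W ^ 2 / 32 := by rw [hW]; ring
    rw [this, ← w2]
    conv_lhs => rw [← Complex.re_add_im W]
    push_cast
    linear_combination (-(W.im : ℂ) ^ 2 / 32) * Complex.I_sq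
  have k2 : ‖v‖ ^ 4 = W.re ^ 2 + W.im ^ 2 := by
    have := Complex.sq_norm W
    rw [Complex.normSq_apply] at this
    rw [sq, sq, ← this, hW, norm_mul, w1, norm_mul]; ring
  have k3 : ‖v‖ ^ 4 ≤ s ^ 4 := by gcongr
  have k4 := (norm_sub_le (((‖P‖ ^ 2 - W.re ^ 2 / 32 : ℝ) : ℂ) + (W.im ^ 2 / 32 : ℝ))
    ((W.re * W.im / 16 : ℝ) * Complex.I)).trans (add_le_add_left (norm_add_le _ _) _)
  rw [norm_mul, Complex.norm_I, mul_one, Complex.norm_real, Complex.norm_real, Complex.norm_real,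
    Real.norm_of_nonneg (by positivity : 0 ≤ W.im ^ 2 / 32), Real.norm_eq_abs,
    Real.norm_eq_abs] at k4
  have k5 : |W.re * W.im / 16| ≤ W.re ^ 2 / 64 + W.im ^ 2 / 16 := by
    rw [abs_le]
    constructor <;> nlinarith [sq_nonneg (W.re - 2 * W.im), sq_nonneg (W.re + 2 * W.im)]
  have k6 : ‖P‖ ^ 2 + s * s * (s * s - 2 * ‖P‖) / 4 ≤ s ^ 4 / 4 := by nlinarith [norm_nonneg P]
  have k7 : 0 ≤ s * s * (s * s - 2 * ‖P‖) := mul_nonneg (mul_self_nonneg s) (by linarith)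
  rw [k1, k2]
  refine k4.trans ?_
  rcases abs_cases (‖P‖ ^ 2 - W.re ^ 2 / 32) with h | h <;> rw [h.1] <;>
    nlinarith [sq_nonneg W.re, sq_nonneg W.im, sq_nonneg ‖P‖]

end Pool.Agent.H69.Sb
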