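import Mathlib
import Pool.Agent.H69.Sb3

set_option autoImplicit false

namespace Pool.Agent.H69.Sb

open Metric Filter Topology Finset

noncomputable def Wf (e : ℕ) (t : ℝ) (P v : ℂ) : ℂ := ((P ^ 2 - v ^ 4 / 32) * (P + t ^ 2 / 2)) ^ e

theorem H2_lt {t s : ℝ} (ht : 0 < t) (h0 : 0 ≤ s) (h : s ≠ t) :
    s ^ 4 / 4 * ((s ^ 2 + t ^ 2) / 2) * Real.exp (-(5 / t * s)) <
      t ^ 6 / 4 * Real.exp (-(5 / t * t)) := by
  obtain ⟨u, rfl⟩ : ∃ u, s = t * u := ⟨s / t, by field_simp⟩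
  have hu : 0 ≤ u := by by_contra h1; nlinarith
  have h1 : (u - 1) / 2 ≠ 0 := fun h2 => h (by rw [show u = 1 by linarith, mul_one])
  have h2 := pow_lt_pow_left₀ (Real.add_one_lt_exp h1) (by linarith) (show 10 ≠ 0 by norm_num)
  have h3 : u ^ 3 ≤ (((u - 1) / 2 + 1) ^ 2) ^ 3 :=
    pow_le_pow_left₀ hu (by nlinarith [sq_nonneg (u - 1)]) 3
  have h4 : u * (1 + u ^ 2) / 2 ≤ ((u - 1) / 2 + 1) ^ 4 := by nlinarith [sq_nonneg ((u - 1) ^ 2)]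
  have h5 := mul_le_mul h3 h4 (by positivity) (by positivity)
  have h6 : Real.exp (-(5 / t * t)) = (Real.exp ((u - 1) / 2)) ^ 10 *
      Real.exp (-(5 / t * (t * u))) := by
    rw [← Real.exp_nat_mul, ← Real.exp_add]; congr 1; field_simp; push_cast; ring
  rw [h6, ← mul_assoc (t ^ 6 / 4)]
  refine mul_lt_mul_of_pos_right ?_ (Real.exp_pos _)
  have : u ^ 3 * (u * (1 + u ^ 2) / 2) < Real.exp ((u - 1) / 2) ^ 10 :=
    h5.trans_lt (lt_of_eq_of_lt (by ring) h2)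
  have := mul_lt_mul_of_pos_left this (show 0 < t ^ 6 / 4 by positivity)
  exact lt_of_eq_of_lt (by ring) this

theorem peak0 {t : ℝ} (ht : 0 ≤ t) : ∃ (e : ℕ) (l : ℝ), 0 < l ∧ Wf e t (t ^ 2 / 2) 0 ≠ 0 ∧
    ∀ (s : ℝ) (P v : ℂ), ‖v‖ ≤ s → ‖P‖ ≤ s ^ 2 / 2 →
      ‖P ^ 2 - v ^ 4 / 32‖ ≤ s ^ 4 / 4 - ‖v‖ ^ 4 / 64 → (s ≠ t ∨ v ≠ 0 ∨ P ≠ t ^ 2 / 2) →
      ‖Wf e t P v‖ * Real.exp (-(l * s)) < ‖Wf e t (t ^ 2 / 2) 0‖ * Real.exp (-(l * t)) := by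
  rcases ht.eq_or_lt with rfl | ht
  · refine ⟨0, 1, one_pos, by simp [Wf], fun s P v h1 h2 _ h4 => ?_⟩
    have h5 : s ≠ 0 := by
      rintro rfl
      simp_all
    simpa [Wf] using lt_of_le_of_ne ((norm_nonneg v).trans h1) h5.symm
  have e : ‖Wf 1 t (t ^ 2 / 2) 0‖ = t ^ 6 / 4 := by
    have : Wf 1 t (t ^ 2 / 2) 0 = (t ^ 6 / 4 : ℝ) := by unfold Wf; push_cast; ring
    rw [this, Complex.norm_real, Real.norm_of_nonneg (by positivity)]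
  refine ⟨1, 5 / t, by positivity, norm_pos_iff.1 (by rw [e]; positivity),
    fun s P v h1 h2 h3 h4 => ?_⟩
  have e2 : (t : ℂ) ^ 2 / 2 = (t ^ 2 / 2 : ℝ) := by push_cast; rfl
  have h5 : ‖P + t ^ 2 / 2‖ ≤ ‖P‖ + t ^ 2 / 2 := by
    refine (norm_add_le _ _).trans_eq ?_
    rw [e2, Complex.norm_real, Real.norm_of_nonneg (by positivity)]
  have h6 : 0 ≤ ‖v‖ ^ 4 := by positivity
  rw [e, Wf, pow_one, norm_mul]
  by_cases h7 : s = t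
  · subst h7
    refine mul_lt_mul_of_pos_right ?_ (Real.exp_pos _)
    rw [show s ^ 6 / 4 = s ^ 4 / 4 * s ^ 2 by ring]
    by_cases h8 : v = 0
    · have h9 : P ≠ (s ^ 2 / 2 : ℝ) := by rw [← e2]; tauto
      refine mul_lt_mul' (by linarith) ?_ (norm_nonneg _) (by positivity)
      rcases h2.lt_or_eq with h10 | h10
      · linarith
      · have h11 := re_lt h10 h9
        refine lt_of_pow_lt_pow_left₀ 2 (by positivity) ?_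
        have := Complex.sq_norm P
        rw [Complex.normSq_apply, h10] at this
        rw [e2, Complex.sq_norm, Complex.normSq_apply]
        simp only [Complex.add_re, Complex.add_im, Complex.ofReal_re, Complex.ofReal_im]
        nlinarith [mul_lt_mul_of_pos_left h11 (show 0 < s ^ 2 by positivity)]
    · have : 0 < ‖v‖ ^ 4 := by positivity
      exact mul_lt_mul (by linarith) (by linarith) |> fun h => (mul_le_mul_of_nonneg_left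
        (show ‖P + s ^ 2 / 2‖ ≤ s ^ 2 by linarith) (norm_nonneg _)).trans_lt
        (h (by positivity) (by positivity))
  · refine lt_of_le_of_lt ?_ (H2_lt ht ((norm_nonneg v).trans h1) h7)
    gcongr <;> linarith

theorem peak {t : ℝ} (ht : 0 ≤ t) {δ : ℝ} (hδ : 0 < δ) : ∃ (e : ℕ) (l θ : ℝ), 0 < l ∧ θ < 1 ∧
    Wf e t (t ^ 2 / 2) 0 ≠ 0 ∧ ∀ (s : ℝ) (P v : ℂ), s ≤ 1 → ‖v‖ ≤ s → ‖P‖ ≤ s ^ 2 / 2 →
      ‖P ^ 2 - v ^ 4 / 32‖ ≤ s ^ 4 / 4 - ‖v‖ ^ 4 / 64 →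
      ‖Wf e t P v‖ * Real.exp (-(l * s)) ≤ ‖Wf e t (t ^ 2 / 2) 0‖ * Real.exp (-(l * t)) ∧
      (θ * (‖Wf e t (t ^ 2 / 2) 0‖ * Real.exp (-(l * t))) < ‖Wf e t P v‖ * Real.exp (-(l * s)) →
        ‖v‖ + ‖P - t ^ 2 / 2‖ ≤ δ) := by
  obtain ⟨e, l, l0, h0, h1⟩ := peak0 ht
  let K : Set (ℝ × ℂ × ℂ) := {x | ‖x.2.2‖ ≤ x.1} ∩ ({x | ‖x.2.1‖ ≤ x.1 ^ 2 / 2} ∩
      ({x | ‖x.2.1 ^ 2 - x.2.2 ^ 4 / 32‖ ≤ x.1 ^ 4 / 4 - ‖x.2.2‖ ^ 4 / 64} ∩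
      {x | δ ≤ ‖x.2.2‖ + ‖x.2.1 - t ^ 2 / 2‖}))
  have hK : IsClosed K := by
    refine IsClosed.inter ?_ (IsClosed.inter ?_ (IsClosed.inter ?_ ?_)) <;>
      exact isClosed_le (by fun_prop) (by fun_prop)
  have hK2 : IsCompact ((Set.Icc (0 : ℝ) 1 ×ˢ closedBall (0 : ℂ) 1 ×ˢ closedBall (0 : ℂ) 1) ∩ K) :=
    (isCompact_Icc.prod ((isCompact_closedBall _ _).prod (isCompact_closedBall _ _))).inter_right hK
  have hW : Continuous fun x : ℝ × ℂ × ℂ => Wf e t x.2.1 x.2.2 := by unfold Wf; fun_prop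
  have hF : Continuous fun x : ℝ × ℂ × ℂ => ‖Wf e t (t ^ 2 / 2) 0‖ * Real.exp (-(l * t)) -
      ‖Wf e t x.2.1 x.2.2‖ * Real.exp (-(l * x.1)) :=
    continuous_const.sub (hW.norm.mul (by fun_prop))
  obtain ⟨c, c0, hc⟩ := hK2.exists_forall_le' hF.continuousOn (a := 0) (by
    rintro ⟨s, P, v⟩ ⟨-, i1, i2, i3, i4⟩
    refine sub_pos.2 (h1 s P v i1 i2 i3 ?_)
    by_contra h
    push Not at h
    have : δ ≤ ‖v‖ + ‖P - t ^ 2 / 2‖ := i4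
    rw [h.2.1, h.2.2, norm_zero, sub_self, norm_zero] at this
    linarith)
  have g0 : 0 < ‖Wf e t (t ^ 2 / 2) 0‖ * Real.exp (-(l * t)) := by positivity
  refine ⟨e, l, 1 - c / (‖Wf e t (t ^ 2 / 2) 0‖ * Real.exp (-(l * t))), l0,
    by linarith [div_pos c0 g0], h0, fun s P v h2 h3 h4 h5 => ⟨?_, fun h6 => ?_⟩⟩
  · by_cases h : s ≠ t ∨ v ≠ 0 ∨ P ≠ t ^ 2 / 2
    · exact (h1 s P v h3 h4 h5 h).le
    · push Not at h
      rw [h.1, h.2.1, h.2.2]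
  · by_contra h7
    have s0 := (norm_nonneg v).trans h3
    have := hc (s, P, v) ⟨⟨⟨s0, h2⟩, mem_closedBall_zero_iff.2 (by nlinarith),
      mem_closedBall_zero_iff.2 (h3.trans h2)⟩, h3, h4, h5, (not_le.1 h7).le⟩
    rw [sub_mul, div_mul_cancel₀ _ g0.ne'] at h6
    simp only at this
    linarith

end Pool.Agent.H69.Sb
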