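import Mathlib
import Pool.Agent.H69.Sb8
import Pool.Agent.H69.Sb9
import Pool.Agent.H69.Sb10

set_option autoImplicit false

namespace Pool.Agent.H69.Sb

open Metric Filter Topology Finset
open scoped ENNReal

theorem exists_P0 {P : ℝ≥0∞} [Fact (1 ≤ P)] (p0 : 0 < P.toReal) {j : ℕ} (hj : P.toReal ≤ j) (w : ℕ → ℂ)
    (hw : ∀ n, ‖w n‖ ≤ 1) : ∃ (F : X P → ℂ) (C : ℝ), Differentiable ℂ F ∧
      (∀ x ∈ ball (0 : X P) 3, ‖F x‖ ≤ C) ∧ ∀ x : X P, HasSum (fun n => w n * x n ^ j) (F x) := by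
  classical
  have j0 : 0 < j := by exact_mod_cast p0.trans_le hj
  haveI : Nonempty (Fin j) := ⟨⟨0, j0⟩⟩
  let m : ℕ → MultilinearMap ℂ (fun _ : Fin j => X P) ℂ := fun n =>
    w n • (MultilinearMap.mkPiAlgebra ℂ (Fin j) ℂ).compLinearMap fun _ => lp.evalₗ _ P n
  have hm : ∀ n x, m n x = w n * ∏ i, x i n := fun n x => rfl
  have h1 : ∀ (x : Fin j → X P) n, ‖m n x‖ ≤ ∑ i, ‖x i‖ ^ (j - P.toReal) * ‖x i n‖ ^ P.toReal := by
    intro x n
    obtain ⟨i, hi⟩ := Finite.exists_max fun i => ‖x i n‖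
    rw [hm, norm_mul, norm_prod]
    refine (mul_le_of_le_one_left (by positivity) (hw n)).trans ?_
    refine (prod_le_prod (fun _ _ => norm_nonneg _) fun a _ => hi a).trans ?_
    rw [prod_const, card_univ, Fintype.card_fin]
    exact (pw p0 hj (norm_nonneg _) (coord_le _ n)).trans (single_le_sum
      (f := fun i => ‖x i‖ ^ (j - P.toReal) * ‖x i n‖ ^ P.toReal) (fun _ _ => by positivity)
      (mem_univ i))
  have h2 : ∀ x : Fin j → X P, HasSum (fun n => ∑ i, ‖x i‖ ^ (j - P.toReal) * ‖x i n‖ ^ P.toReal)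
      (∑ i, ‖x i‖ ^ (j - P.toReal) * ‖x i‖ ^ P.toReal) := fun x =>
    hasSum_sum fun i _ => (lp.hasSum_norm p0 (x i)).mul_left _
  have h3 : ∀ x, Summable fun n => m n x := fun x => .of_norm_bounded (h2 x).summable (h1 x)
  let M : MultilinearMap ℂ (fun _ : Fin j => X P) ℂ :=
    { toFun := fun x => ∑' n, m n x
      map_update_add' := fun x i a b => by
        rw [← (h3 _).tsum_add (h3 _)]
        simp only [MultilinearMap.map_update_add]
      map_update_smul' := fun x i c a => by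
        simp only [MultilinearMap.map_update_smul, smul_eq_mul, tsum_mul_left] }
  have h4 : ∀ x, ‖M x‖ ≤ (j * 2 ^ j) * ∏ i, ‖x i‖ := by
    refine M.bound_of_shell (ε := fun _ => 1) (c := fun _ => 2) (fun _ => one_pos)
      (fun _ => by simp) fun x h5 h6 => ?_
    have h7 : ‖M x‖ ≤ j := by
      refine ((h3 x).hasSum.norm_le_of_bounded (h2 x) (h1 x)).trans ?_
      refine (sum_le_card_nsmul _ _ 1 fun i _ => ?_).trans (by simp)
      exact mul_le_one₀ (Real.rpow_le_one (norm_nonneg _) (h6 i).le (by linarith)) (by positivity)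
        (Real.rpow_le_one (norm_nonneg _) (h6 i).le p0.le)
    have h8 : (1 / 2 : ℝ) ^ j ≤ ∏ i, ‖x i‖ := by
      have := prod_le_prod (s := univ) (f := fun _ : Fin j => (1 / 2 : ℝ)) (g := fun i => ‖x i‖)
        (fun _ _ => by norm_num) fun i _ => by simpa using h5 i
      simpa using this
    refine h7.trans (le_trans (le_of_eq ?_) (mul_le_mul_of_nonneg_left h8 (by positivity)))
    rw [mul_assoc, ← mul_pow]
    simp
  refine ⟨fun x => M.mkContinuous _ h4 fun _ => x, (j * 2 ^ j) * 3 ^ j,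
    ((M.mkContinuous _ h4).contDiff (n := 1)).differentiable one_ne_zero |>.comp
      (differentiable_pi.2 fun _ => differentiable_id), fun x hx => (h4 _).trans ?_, fun x => ?_⟩
  · rw [prod_const, card_univ, Fintype.card_fin]
    gcongr
    exact (mem_ball_zero_iff.1 hx).le
  · have e : (fun n => w n * x n ^ j) = fun n => m n fun _ => x := by funext n; simp [hm]
    rw [e]
    exact (h3 fun _ => x).hasSum

theorem bd_one : Bd1 1 := fun n => by simp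

theorem hs_ind (x : X 1) (B : Set ℕ) : ∃ s ρ : ℝ, s + ρ = ‖x‖ ∧
    HasSum (fun n => ‖B.indicator x n‖) s ∧ HasSum (fun n => ‖Bᶜ.indicator x n‖) ρ := by
  have h : ∀ B : Set ℕ, Summable fun n => ‖B.indicator x n‖ := fun B =>
    .of_nonneg_of_le (fun _ => norm_nonneg _) (fun n => norm_indicator_le_norm_self _ _)
      (hs1 x).summable
  refine ⟨_, _, ((h B).hasSum.add (h Bᶜ).hasSum).unique ?_, (h B).hasSum, (h Bᶜ).hasSum⟩
  refine (congrArg (HasSum · ‖x‖) (funext fun n => ?_)).mp (hs1 x)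
  by_cases a : n ∈ B <;> simp [a]

theorem fn_ind {g : ℕ → ℂ} (hg : Bd1 g) (B : Set ℕ) (x : X 1) :
    HasSum (fun n => g n * B.indicator x n) (fn (B.indicator g) x) := by
  refine (congrArg (HasSum · (fn (B.indicator g) x)) (funext fun n => ?_)).mp (fn_hs (hg.ind B) x)
  by_cases a : n ∈ B <;> simp [a]

theorem Bd1.le {g : ℕ → ℂ} (hg : Bd1 g) (n : ℕ) (w : ℂ) : ‖g n * w‖ ≤ ‖w‖ := by
  rw [norm_mul]; exact mul_le_of_le_one_left (norm_nonneg _) (hg n)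

theorem pt {y : X 1} (hy : ‖y‖ ≤ 1) {B : Set ℕ} {a b : ℕ} (hab : a ≠ b) (ha : a ∈ B) (hb : b ∈ B)
    {t r : ℝ} (t0 : 0 ≤ t) (t1 : t ≤ 1) (r0 : 0 ≤ r) (r1 : r ≤ 1) {h : ℕ → ℂ} (hh : Bd1 h)
    {x : X 1} (hx : x = (r : ℂ) • (y + (t / 2 : ℂ) • (lp.single 1 a 1 - lp.single 1 b 1)))
    {S : ℂ} (hS : HasSum (fun n => B.indicator 1 n * x n ^ 2) S) :
    ‖S - fn (B.indicator 1) x ^ 2 / 2 - r ^ 2 * (t ^ 2 / 2)‖ ≤
      3 * (‖y‖ - (fn (Bᶜ.indicator h) y).re) := by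
  classical
  obtain ⟨s, ρ, h1, h2, h3⟩ := hs_ind y B
  have h4 := (Complex.re_le_norm _).trans
    ((fn_ind hh Bᶜ y).norm_le_of_bounded h3 fun n => hh.le n _)
  have h5 := (fn_ind bd_one B y).norm_le_of_bounded h2 fun n => bd_one.le n _
  have h6 : fn (B.indicator 1) x = r * fn (B.indicator 1) y := by
    rw [hx, map_smul, map_add, map_smul, map_sub, fn_e (bd_one.ind B), fn_e (bd_one.ind B)]
    simp [ha, hb]
  have ρ0 : 0 ≤ ρ := h3.nonneg fun _ => norm_nonneg _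
  have s0 : 0 ≤ s := h2.nonneg fun _ => norm_nonneg _
  have hr : ‖(r : ℂ)‖ ≤ 1 := by rwa [Complex.norm_real, Real.norm_of_nonneg r0]
  have h7 : ‖fn (B.indicator 1) x ^ 2 / 2‖ ≤ s := by
    have : ‖fn (B.indicator 1) x‖ ≤ s := by
      rw [h6, norm_mul]; exact (mul_le_of_le_one_left (norm_nonneg _) hr).trans h5
    rw [norm_div, norm_pow, Complex.norm_two]
    nlinarith [norm_nonneg (fn (B.indicator 1) x)]
  have key : ∀ w c : ℂ, ‖w‖ ≤ 1 → ‖c‖ ≤ 1 / 2 → ‖(r * (w + c)) ^ 2 - r ^ 2 * c ^ 2‖ ≤ 2 * ‖w‖ := by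
    intro w c i1 i2
    rw [show (r * (w + c)) ^ 2 - r ^ 2 * c ^ 2 = (r : ℂ) ^ 2 * ((w + 2 * c) * w) by ring, norm_mul,
      norm_pow, norm_mul]
    refine (mul_le_of_le_one_left (by positivity) (pow_le_one₀ (norm_nonneg _) hr)).trans ?_
    gcongr
    refine (norm_add_le _ _).trans ?_
    rw [norm_mul, Complex.norm_two]
    linarith
  have ht : ‖(t / 2 : ℂ)‖ ≤ 1 / 2 := by
    rw [norm_div, Complex.norm_two, Complex.norm_real, Real.norm_of_nonneg t0]; linarith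
  have hxn : ∀ n, x n = r * (y n + t / 2 * ((if n = a then 1 else 0) - if n = b then 1 else 0)) :=
    fun n => by
      rw [hx]
      simp only [lp.coeFn_smul, lp.coeFn_add, lp.coeFn_sub, Pi.smul_apply, Pi.add_apply,
        Pi.sub_apply, lp.single_apply, Pi.single_apply, smul_eq_mul]
  have h8 := (hS.sub ((hasSum_ite_eq a ((r : ℂ) ^ 2 * (t / 2) ^ 2)).add
    (hasSum_ite_eq b ((r : ℂ) ^ 2 * (t / 2) ^ 2)))).norm_le_of_bounded (h2.mul_left 2) fun n => by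
      have i1 := (coord_le y n).trans hy
      by_cases i2 : n = a
      · simpa [hxn, i2, ha, hab] using key (y a) (t / 2) (i2 ▸ i1) ht
      by_cases i3 : n = b
      · simpa [hxn, i3, hb, hab.symm] using key (y b) (-(t / 2)) (i3 ▸ i1) (by rwa [norm_neg])
      by_cases i4 : n ∈ B
      · simpa [hxn, i2, i3, i4] using key (y n) 0 i1 (by simp)
      · simp [i2, i3, i4]
  rw [show S - fn (B.indicator 1) x ^ 2 / 2 - r ^ 2 * (t ^ 2 / 2) = S - ((r : ℂ) ^ 2 * (t / 2) ^ 2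
    + (r : ℂ) ^ 2 * (t / 2) ^ 2) - fn (B.indicator 1) x ^ 2 / 2 by ring]
  linarith [norm_sub_le (S - ((r : ℂ) ^ 2 * (t / 2) ^ 2 + (r : ℂ) ^ 2 * (t / 2) ^ 2))
    (fn (B.indicator 1) x ^ 2 / 2)]

theorem bd_re {a : ℕ → ℝ} (ha : ∀ n, |a n| ≤ 1) : Bd1 fun n => a n := fun n => by
  simpa using ha n

theorem bd_mul {a : ℕ → ℝ} (ha : ∀ n, |a n| ≤ 1) {h : ℕ → ℂ} (hh : Bd1 h) :
    Bd1 fun n => a n * h n := fun n => ((bd_re ha).le n _).trans (hh n)

theorem core1 {t : ℝ} (ht : 0 ≤ t) {δ : ℝ} (hδ : 0 < δ) : ∃ (e : ℕ) (l θ : ℝ), 0 < l ∧ 0 ≤ θ ∧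
    θ < 1 ∧ Wf e t (t ^ 2 / 2) 0 ≠ 0 ∧ ∀ (x : X 1) (B : Set ℕ) (h : ℕ → ℂ) (a b : ℕ → ℝ) (α : ℝ)
      (S P v H Q : ℂ), ‖x‖ ≤ 1 → (∀ n, ‖h n‖ = 1) → (∀ n, |a n| ≤ 1) → (∀ n, |b n| ≤ 1) →
      HasSum (fun n => B.indicator 1 n * x n ^ 2) S → P = S - fn (B.indicator 1) x ^ 2 / 2 →
      v = fn (B.indicator fun n => b n) x → H = fn (Bᶜ.indicator h) x →
      Q = fn (Bᶜ.indicator fun n => a n * h n) x - α →
      ‖P‖ ≤ 1 / 2 ∧ ‖Wf e t P v * Complex.exp (l * H - l / 4 * Q ^ 2)‖ ≤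
        ‖Wf e t (t ^ 2 / 2) 0‖ * Real.exp (l * (1 - t)) ∧
      (θ * (‖Wf e t (t ^ 2 / 2) 0‖ * Real.exp (l * (1 - t))) <
        ‖Wf e t P v * Complex.exp (l * H - l / 4 * Q ^ 2)‖ →
        ‖v‖ ≤ δ ∧ ‖P - t ^ 2 / 2‖ ≤ δ ∧ ‖Q‖ ≤ δ) := by
  obtain ⟨e, l, θ, l0, h1, h2, h3⟩ := peak ht hδ
  refine ⟨e, l, max θ (Real.exp (-(l / 4 * δ ^ 2))), l0, le_max_of_le_right (Real.exp_pos _).le,
    max_lt h1 (Real.exp_lt_one_iff.2 (by
      have : 0 < l / 4 * δ ^ 2 := by positivity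
      linarith)), h2, ?_⟩
  intro x B h a b α S P v H Q hx hh ha hb hS hP hv hH hQ
  have hh' : Bd1 h := fun n => (hh n).le
  obtain ⟨s, ρ, i1, i2, i3⟩ := hs_ind x B
  have ρ0 : 0 ≤ ρ := i3.nonneg fun _ => norm_nonneg _
  have s0 : 0 ≤ s := i2.nonneg fun _ => norm_nonneg _
  obtain ⟨j1, j2, j3⟩ := quad hb i2 (by simpa using fn_ind bd_one B x) (fn_ind (bd_re hb) B x)
    (S := S) ((congrArg (HasSum · S) (funext fun n => by
      by_cases a : n ∈ B <;> simp [a])).mp hS)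
  rw [← hP, ← hv] at *
  obtain ⟨k1, k2⟩ := h3 s P v (by linarith) j1 j2 j3
  have k3 := im_sq ha (σ := ρ) (by simpa only [norm_mul, hh, one_mul] using i3) (fn_ind hh' Bᶜ x)
    (by simpa only [mul_assoc] using fn_ind (bd_mul ha hh') Bᶜ x)
  have k4 := (Complex.re_le_norm _).trans
    ((fn_ind hh' Bᶜ x).norm_le_of_bounded i3 fun n => hh'.le n _)
  rw [← hH] at k3 k4
  have k5 : (fn (Bᶜ.indicator fun n => a n * h n) x).im = Q.im := by simp [hQ]
  rw [k5] at k3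
  have k6 : (l * H - l / 4 * Q ^ 2).re ≤ l - l * s - l / 4 * ‖Q‖ ^ 2 := by
    have e1 : (l * H - l / 4 * Q ^ 2).re = l * (H.re - (Q.re ^ 2 - Q.im ^ 2) / 4) := by
      simp [sq]; ring
    have e2 : Q.im ^ 2 ≤ 2 * (ρ - H.re) := k3.trans (by nlinarith)
    rw [e1, Complex.sq_norm, Complex.normSq_apply]
    refine (mul_le_mul_of_nonneg_left (show _ ≤ 1 - s - (Q.re * Q.re + Q.im * Q.im) / 4 by
      linarith) l0.le).trans_eq (by ring)
  set W := ‖Wf e t P v‖ * Real.exp (-(l * s)) with hW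
  set W0 := ‖Wf e t (t ^ 2 / 2) 0‖ * Real.exp (-(l * t)) with hW0
  have W00 : 0 < W0 := by positivity
  have e3 : ‖Wf e t (t ^ 2 / 2) 0‖ * Real.exp (l * (1 - t)) = W0 * Real.exp l := by
    rw [hW0, mul_assoc, ← Real.exp_add]; congr 2; ring
  have k7 : ‖Wf e t P v * Complex.exp (l * H - l / 4 * Q ^ 2)‖ ≤
      W * Real.exp l * Real.exp (-(l / 4 * ‖Q‖ ^ 2)) := by
    rw [norm_mul, Complex.norm_exp, hW, mul_assoc, mul_assoc, ← Real.exp_add, ← Real.exp_add]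
    gcongr
    linarith
  have k8 : Real.exp (-(l / 4 * ‖Q‖ ^ 2)) ≤ 1 := Real.exp_le_one_iff.2 (neg_nonpos.2 (by positivity))
  have k9 := k7.trans (mul_le_of_le_one_right (by positivity) k8)
  rw [e3]
  refine ⟨by nlinarith, k9.trans (by gcongr), fun m => ?_⟩
  have m1 := k2 (lt_of_mul_lt_mul_right (a := Real.exp l) (by
    refine lt_of_le_of_lt ?_ (m.trans_le k9)
    rw [mul_assoc]
    gcongr
    exact le_max_left _ _) (Real.exp_pos _).le)
  refine ⟨by linarith [norm_nonneg (P - t ^ 2 / 2)], by linarith [norm_nonneg v], ?_⟩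
  have : Real.exp (-(l / 4 * δ ^ 2)) * (W0 * Real.exp l) <
      Real.exp (-(l / 4 * ‖Q‖ ^ 2)) * (W0 * Real.exp l) := by
    refine lt_of_le_of_lt ?_ (m.trans_le (k7.trans ?_))
    · gcongr; exact le_max_right _ _
    · rw [mul_comm]; gcongr
  have := Real.exp_lt_exp.1 (lt_of_mul_lt_mul_right this (by positivity))
  exact (lt_of_pow_lt_pow_left₀ 2 hδ.le
    (lt_of_mul_lt_mul_left (a := l / 4) (by linarith) (by positivity))).le

end Pool.Agent.H69.Sb
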