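import Mathlib

set_option autoImplicit false

namespace Pool.Agent.H69.Sb

open Metric Filter Topology Finset WeakDual

variable {A : Type} [NormedCommRing A] [NormedAlgebra ℂ A] [CompleteSpace A] {X : Type}
  {d : X → characterSpace ℂ A}

def Nm (d : X → characterSpace ℂ A) : Prop := ∀ (f : A) (C : ℝ), (∀ x, ‖d x f‖ ≤ C) → ‖f‖ ≤ C

theorem char_le (hd : Nm d) (ψ : characterSpace ℂ A) (f : A) : ‖ψ f‖ ≤ ‖f‖ := by
  have h1 := spectrum.norm_le_norm_mul_of_mem (WeakDual.CharacterSpace.apply_mem_spectrum ψ f)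
  have h2 : ‖(1 : A)‖ ≤ 1 := hd _ _ fun x => by simp
  nlinarith [norm_nonneg f]

theorem cont_ev (f : A) : Continuous fun ψ : characterSpace ℂ A => ψ f :=
  (WeakDual.gelfandTransform ℂ A f).continuous

def AP (φ : characterSpace ℂ A) (U : Set (characterSpace ℂ A)) : Prop :=
  ∀ η : ℝ, 0 < η → ∃ f : A, φ f = 1 ∧ ‖f‖ ≤ 1 + η ∧ ∀ ψ : characterSpace ℂ A, ψ ∉ U → ‖ψ f‖ ≤ η

theorem bishop (hd : Nm d) (φ : characterSpace ℂ A) (h : ∀ U ∈ 𝓝 φ, AP φ U) :
    ∀ U ∈ 𝓝 φ, ∀ ε : ℝ, 0 < ε → ∃ f : A, ‖f‖ = 1 ∧ φ f = 1 ∧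
      ∀ ψ : characterSpace ℂ A, ψ ∉ U → ‖ψ f‖ < ε := by
  intro U hU ε hε
  set η := min (ε / 2) (1 / 3) with hη
  have h0 : 0 < η := by positivity
  have h1 : η ≤ 1 / 3 := min_le_right _ _
  have h2 : η < ε := (min_le_left _ _).trans_lt (half_lt_self hε)
  have step : ∀ (n : ℕ) (s : {g : A // φ g = 1 - (1 / 2) ^ n}), ∃ f : A, φ f = 1 ∧
      ‖f‖ ≤ 1 + η ∧ ∀ ψ : characterSpace ℂ A, ψ ∉ U ∩ {ψ | ‖ψ s.1‖ < 1 - (5 / 6) * (1 / 2) ^ n} →
        ‖ψ f‖ ≤ η := fun n s => h _ (inter_mem hU ((isOpen_lt (cont_ev s.1).norm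
      continuous_const).mem_nhds (by
        have e : (1 - (1 / 2) ^ n : ℂ) = ((1 - (1 / 2) ^ n : ℝ) : ℂ) := by push_cast; rfl
        have : (1 / 2 : ℝ) ^ n ≤ 1 := pow_le_one₀ (by norm_num) (by norm_num)
        have : (0 : ℝ) < (1 / 2 : ℝ) ^ n := by positivity
        show ‖φ s.1‖ < _
        rw [s.2, e, Complex.norm_real, Real.norm_of_nonneg (by linarith)]
        linarith))) η h0
  choose f hf1 hf2 hf3 using step
  let s : (n : ℕ) → {g : A // φ g = 1 - (1 / 2) ^ n} := fun n => Nat.rec ⟨0, by simp⟩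
    (fun n s => ⟨s.1 + (1 / 2 : ℂ) ^ (n + 1) • f n s, by
      rw [map_add, map_smul, s.2, hf1, smul_eq_mul, Nat.succ_eq_add_one]; ring⟩) n
  have hs : ∀ n, (s (n + 1)).1 = (s n).1 + (1 / 2 : ℂ) ^ (n + 1) • f n (s n) := fun _ => rfl
  have hst : ∀ (ψ : characterSpace ℂ A) n, ‖ψ (s (n + 1)).1‖ ≤
      ‖ψ (s n).1‖ + (1 / 2) ^ n / 2 * ‖ψ (f n (s n))‖ := fun ψ n => by
    rw [hs, map_add, map_smul]
    refine (norm_add_le _ _).trans_eq ?_
    rw [norm_smul, norm_pow, pow_succ]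
    simp [div_eq_mul_inv]
  have hcau : CauchySeq fun n => (s n).1 := by
    refine cauchySeq_of_le_geometric (1 / 2) 1 (by norm_num) fun n => ?_
    rw [hs, dist_self_add_right, norm_smul, norm_pow, pow_succ]
    have : (0 : ℝ) < (1 / 2 : ℝ) ^ n := by positivity
    have e : ‖(1 / 2 : ℂ)‖ = 1 / 2 := by simp
    rw [e]
    have := mul_le_mul_of_nonneg_left ((hf2 n (s n)).trans (show 1 + η ≤ 2 by linarith)) this.le
    linarith
  obtain ⟨F, hF⟩ := cauchySeq_tendsto_of_complete hcau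
  have hψ : ∀ ψ : characterSpace ℂ A, Tendsto (fun n => ψ (s n).1) atTop (𝓝 (ψ F)) := fun ψ =>
    ((map_continuous ψ).tendsto F).comp hF
  have hφ : φ F = 1 := by
    refine tendsto_nhds_unique (hψ φ) ?_
    simp only [fun n => (s n).2]
    simpa using (tendsto_pow_atTop_nhds_zero_of_norm_lt_one (x := (1 / 2 : ℂ))
      (by norm_num)).const_sub 1
  have hb : ∀ (ψ : characterSpace ℂ A) n, ‖ψ (s n).1‖ ≤ 1 - (1 / 3) * (1 / 2) ^ n := fun ψ n => by
    induction n with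
    | zero => show ‖ψ 0‖ ≤ _; rw [map_zero]; norm_num
    | succ n ih =>
      have h3 := hst ψ n
      have : (0 : ℝ) < (1 / 2 : ℝ) ^ n := by positivity
      rw [pow_succ (1 / 2 : ℝ)]
      by_cases h4 : ‖ψ (s n).1‖ < 1 - (5 / 6) * (1 / 2) ^ n
      · have := mul_le_mul_of_nonneg_left (((char_le hd ψ _).trans (hf2 n (s n))).trans
          (show 1 + η ≤ 4 / 3 by linarith)) this.le
        linarith
      · have := mul_le_mul_of_nonneg_left ((hf3 n (s n) ψ fun h5 => h4 h5.2).trans h1) this.le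
        linarith
  refine ⟨F, le_antisymm (hd _ _ fun x => ?_) (by simpa [hφ] using char_le hd φ F), hφ,
    fun ψ hψU => lt_of_le_of_lt ?_ h2⟩
  · refine le_of_tendsto' (hψ (d x)).norm fun n => (hb _ n).trans ?_
    have : (0 : ℝ) < (1 / 2 : ℝ) ^ n := by positivity
    linarith
  · have : ∀ n, ‖ψ (s n).1‖ ≤ η * (1 - (1 / 2) ^ n) := fun n => by
      induction n with
      | zero => show ‖ψ 0‖ ≤ _; rw [map_zero]; norm_num
      | succ n ih =>
        have h3 := hst ψ n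
        have : (0 : ℝ) < (1 / 2 : ℝ) ^ n := by positivity
        rw [pow_succ (1 / 2 : ℝ)]
        have := mul_le_mul_of_nonneg_left (hf3 n (s n) ψ fun h5 => hψU h5.1) this.le
        linarith
    refine le_of_tendsto' (hψ ψ).norm fun n => (this n).trans ?_
    have : (0 : ℝ) < (1 / 2 : ℝ) ^ n := by positivity
    nlinarith

theorem strong_of (hd : Nm d) (φ : characterSpace ℂ A) (H : ∀ (g : A) (δ : ℝ), 0 < δ → ∃ θ : ℝ, 0 ≤ θ ∧ θ < 1 ∧
    ∀ κ : ℝ, 1 < κ → ∃ f : A, φ f = 1 ∧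
      ∀ x, ‖d x f‖ ≤ κ ∧ (θ * κ < ‖d x f‖ → ‖d x g - φ g‖ ≤ δ)) :
    ∀ U ∈ 𝓝 φ, ∀ ε : ℝ, 0 < ε → ∃ f : A, ‖f‖ = 1 ∧ φ f = 1 ∧
      ∀ ψ : characterSpace ℂ A, ψ ∉ U → ‖ψ f‖ < ε := by
  let G : Filter (characterSpace ℂ A) :=
    { sets := {U | AP φ U}
      univ_sets := fun η hη => ⟨1, map_one φ, hd _ _ fun x => by simpa using hη.le, by simp⟩
      sets_of_superset := fun h1 h2 η hη => by
        obtain ⟨f, h3, h4, h5⟩ := h1 η hη
        exact ⟨f, h3, h4, fun ψ h => h5 ψ fun h6 => h (h2 h6)⟩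
      inter_sets := fun {U V} h1 h2 η hη => by
        set a := min (η / 3) 1 with ha
        have a0 : 0 < a := by positivity
        have a1 : a ≤ η / 3 := min_le_left _ _
        have a2 : a ≤ 1 := min_le_right _ _
        obtain ⟨f, h3, h4, h5⟩ := h1 a a0
        obtain ⟨g, h6, h7, h8⟩ := h2 a a0
        refine ⟨f * g, by rw [map_mul, h3, h6, one_mul], (norm_mul_le _ _).trans ((mul_le_mul h4 h7
          (norm_nonneg _) (by positivity)).trans (by nlinarith)), fun ψ h => ?_⟩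
        rw [map_mul, norm_mul]
        by_cases h9 : ψ ∈ U
        · exact (mul_le_mul ((char_le hd ψ f).trans h4) (h8 ψ fun h => ‹ψ ∉ U ∩ V› ⟨h9, h⟩)
            (norm_nonneg _) (by positivity)).trans (by nlinarith)
        · exact (mul_le_mul (h5 ψ h9) ((char_le hd ψ g).trans h7)
            (norm_nonneg _) (by positivity)).trans (by nlinarith) }
  have key : Tendsto id G (𝓝 φ) := by
    rw [tendsto_subtype_rng, tendsto_iff_forall_eval_tendsto_topDualPairing]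
    intro g
    rw [Metric.tendsto_nhds]
    intro δ hδ η hη
    obtain ⟨θ, h0, h1, h2⟩ := H g (η * δ / (1 + η)) (by positivity)
    obtain ⟨N, hN⟩ := exists_pow_lt_of_lt_one
      (show 0 < η * δ / ((1 + η) * (2 * ‖g‖ + 1)) by positivity) h1
    obtain ⟨κ, h3, h4⟩ : ∃ κ : ℝ, κ ^ N < 1 + η ∧ 1 < κ := by
      have : ∀ᶠ κ in 𝓝[>] (1 : ℝ), κ ^ N < 1 + η := nhdsWithin_le_nhds
        (((continuous_pow N).tendsto 1).eventually (gt_mem_nhds (by simpa using hη)))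
      exact (this.and self_mem_nhdsWithin).exists
    obtain ⟨f, h5, h6⟩ := h2 κ h4
    have h7 : ∀ x, ‖d x (f ^ N)‖ ≤ 1 + η := fun x => by
      rw [map_pow, norm_pow]
      exact (pow_le_pow_left₀ (norm_nonneg _) (h6 x).1 N).trans h3.le
    refine ⟨f ^ N, by rw [map_pow, h5, one_pow], hd _ _ h7, fun ψ hψ => ?_⟩
    have h8 : δ ≤ ‖ψ g - φ g‖ := by
      rw [← dist_eq_norm]; exact not_lt.1 hψ
    have e : ∀ ψ : characterSpace ℂ A, ψ (f ^ N * (g - algebraMap ℂ _ (φ g))) = ψ (f ^ N) * (ψ g - φ g) :=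
      fun ψ => by rw [map_mul, map_sub, AlgHomClass.commutes]; rfl
    have h9 : ‖f ^ N * (g - algebraMap ℂ _ (φ g))‖ ≤ η * δ := hd _ _ fun x => by
      rw [e, norm_mul]
      by_cases h : θ * κ < ‖d x f‖
      · refine (mul_le_mul (h7 x) ((h6 x).2 h) (norm_nonneg _) (by positivity)).trans_eq ?_
        field_simp
      · have i1 : ‖d x g - φ g‖ ≤ 2 * ‖g‖ + 1 := (norm_sub_le _ _).trans (by
          linarith [char_le hd (d x) g, char_le hd φ g])
        have i2 : ‖d x (f ^ N)‖ ≤ θ ^ N * (1 + η) := by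
          rw [map_pow, norm_pow]
          refine (pow_le_pow_left₀ (norm_nonneg _) (not_lt.1 h) N).trans ?_
          rw [mul_pow]
          gcongr
        refine (mul_le_mul i2 i1 (norm_nonneg _) (by positivity)).trans ?_
        rw [lt_div_iff₀ (by positivity)] at hN
        linarith
    have h10 := (char_le hd ψ _).trans h9
    rw [e, norm_mul] at h10
    exact le_of_mul_le_mul_right ((mul_le_mul_of_nonneg_left h8 (norm_nonneg _)).trans h10) hδ
  exact bishop hd φ fun U hU => key hU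

end Pool.Agent.H69.Sb
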