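import Mathlib
import Pool.Agent.H69.Sb2

set_option autoImplicit false

namespace Pool.Agent.H69.Sb

open Metric Filter Topology Finset WeakDual

variable {A : Type} [NormedCommRing A] [NormedAlgebra ℂ A] [CompleteSpace A] {X : Type}
  {d : X → characterSpace ℂ A}

def AQ (E U : Set (characterSpace ℂ A)) (η : ℝ) : Prop :=
  ∃ f : A, (∀ ψ ∈ E, ψ f = 1) ∧ ‖f‖ ≤ 1 + η ∧ ∀ ψ : characterSpace ℂ A, ψ ∉ U → ‖ψ f‖ ≤ η

variable {E U V : Set (characterSpace ℂ A)} {η : ℝ}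

omit [CompleteSpace A] in
theorem AQ.mono (h : AQ E U η) (h1 : U ⊆ V) {η' : ℝ} (h2 : η ≤ η') : AQ E V η' := by
  obtain ⟨f, h3, h4, h5⟩ := h
  exact ⟨f, h3, by linarith, fun ψ h => (h5 ψ fun h6 => h (h1 h6)).trans h2⟩

theorem AQ.inter (hd : Nm d) (h1 : AQ E U η) (h2 : AQ E V η) (a0 : 0 < η) (a2 : η ≤ 1) :
    AQ E (U ∩ V) (3 * η) := by
  obtain ⟨f, h3, h4, h5⟩ := h1
  obtain ⟨g, h6, h7, h8⟩ := h2
  refine ⟨f * g, fun ψ h => by rw [map_mul, h3 ψ h, h6 ψ h, one_mul], (norm_mul_le _ _).trans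
    ((mul_le_mul h4 h7 (norm_nonneg _) (by positivity)).trans (by nlinarith)), fun ψ h => ?_⟩
  rw [map_mul, norm_mul]
  by_cases h9 : ψ ∈ U
  · exact (mul_le_mul ((char_le hd ψ f).trans h4) (h8 ψ fun h => ‹ψ ∉ U ∩ V› ⟨h9, h⟩)
      (norm_nonneg _) (by positivity)).trans (by nlinarith)
  · exact (mul_le_mul (h5 ψ h9) ((char_le hd ψ g).trans h7)
      (norm_nonneg _) (by positivity)).trans (by nlinarith)

omit [CompleteSpace A] in
theorem AQ.sub (h : AQ E U η) (h1 : η < 1) : E ⊆ U := fun ψ hψ => by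
  obtain ⟨f, h3, -, h5⟩ := h
  by_contra h6
  have := h5 ψ h6
  rw [h3 ψ hψ, norm_one] at this
  linarith

def fil (hd : Nm d) (E : Set (characterSpace ℂ A)) : Filter (characterSpace ℂ A) where
  sets := {U | ∀ η, 0 < η → AQ E U η}
  univ_sets := fun η hη => ⟨1, fun ψ _ => map_one ψ, hd _ _ fun x => by simpa using hη.le, by simp⟩
  sets_of_superset := fun h1 h2 η hη => (h1 η hη).mono h2 le_rfl
  inter_sets := fun h1 h2 η hη => ((h1 (min (η / 3) 1) (by positivity)).inter hd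
    (h2 _ (by positivity)) (by positivity) (min_le_right _ _)).mono subset_rfl
      (by linarith [min_le_left (η / 3) 1])

theorem aq_of (hd : Nm d) (E : Set (characterSpace ℂ A)) {δ η C θ : ℝ} (hδ : 0 < δ) (hη : 0 < η)
    (hC : 0 < C) (h0 : 0 ≤ θ) (h1 : θ < 1) : ∃ κ : ℝ, 1 < κ ∧ ∀ (ι : Type) (f : A) (g : ι → A),
      (∀ ψ ∈ E, ψ f = 1) → (∀ x, ‖d x f‖ ≤ κ ∧ ∀ i, ‖d x (g i)‖ ≤ C ∧
        (θ * κ < ‖d x f‖ → ‖d x (g i)‖ ≤ η * δ / (1 + η))) →
      AQ E {ψ | ∀ i, ‖ψ (g i)‖ < δ} η := by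
  obtain ⟨N, hN⟩ := exists_pow_lt_of_lt_one (show 0 < η * δ / ((1 + η) * C) by positivity) h1
  obtain ⟨κ, h3, h4⟩ : ∃ κ : ℝ, κ ^ N < 1 + η ∧ 1 < κ := by
    have : ∀ᶠ κ in 𝓝[>] (1 : ℝ), κ ^ N < 1 + η := nhdsWithin_le_nhds
      (((continuous_pow N).tendsto 1).eventually (gt_mem_nhds (by simpa using hη)))
    exact (this.and self_mem_nhdsWithin).exists
  refine ⟨κ, h4, fun ι f g h5 h6 => ?_⟩
  have h7 : ∀ x, ‖d x (f ^ N)‖ ≤ 1 + η := fun x => by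
    rw [map_pow, norm_pow]
    exact (pow_le_pow_left₀ (norm_nonneg _) (h6 x).1 N).trans h3.le
  refine ⟨f ^ N, fun ψ h => by rw [map_pow, h5 ψ h, one_pow], hd _ _ h7, fun ψ hψ => ?_⟩
  obtain ⟨i, hi⟩ := not_forall.1 hψ
  have h9 : ‖f ^ N * g i‖ ≤ η * δ := hd _ _ fun x => by
    rw [map_mul, norm_mul]
    by_cases h : θ * κ < ‖d x f‖
    · refine (mul_le_mul (h7 x) (((h6 x).2 i).2 h) (norm_nonneg _) (by positivity)).trans_eq ?_
      field_simp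
    · have i2 : ‖d x (f ^ N)‖ ≤ θ ^ N * (1 + η) := by
        rw [map_pow, norm_pow]
        refine (pow_le_pow_left₀ (norm_nonneg _) (not_lt.1 h) N).trans ?_
        rw [mul_pow]
        gcongr
      refine (mul_le_mul i2 ((h6 x).2 i).1 (norm_nonneg _) (by positivity)).trans ?_
      rw [lt_div_iff₀ (by positivity)] at hN
      linarith
  have h10 := (char_le hd ψ _).trans h9
  rw [map_mul, norm_mul] at h10
  exact le_of_mul_le_mul_right ((mul_le_mul_of_nonneg_left (not_lt.1 hi)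
    (norm_nonneg _)).trans h10) hδ

def QS (E : Set (characterSpace ℂ A)) : Prop :=
  E.Nonempty ∧ IsClosed E ∧ ∀ U, IsOpen U → E ⊆ U → ∀ η, 0 < η → AQ E U η

theorem qs_gen (hd : Nm d) (φ : characterSpace ℂ A) (S : Set A)
    (h : ∀ g ∈ S, Tendsto (fun ψ : characterSpace ℂ A => ψ g) (fil hd {ψ | ∀ g ∈ S, ψ g = φ g})
      (𝓝 (φ g))) : QS {ψ | ∀ g ∈ S, ψ g = φ g} := by
  refine ⟨⟨φ, fun _ _ => rfl⟩, ?_, fun U hU h1 => ?_⟩
  · simp only [Set.setOf_forall]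
    exact isClosed_iInter fun g => isClosed_iInter fun _ => isClosed_eq (cont_ev g) continuous_const
  · show U ∈ fil hd _
    refine isCompact_univ.adherence_nhdset (by simp) hU fun ψ _ h2 => h1 fun g hg => ?_
    exact eq_of_nhds_neBot ((h2.map (cont_ev g).continuousAt (h g hg)).neBot)

theorem qs_step (hd : Nm d) (hE : QS E) (g : A) (h1 : ∀ ψ ∈ E, ‖ψ g‖ ≤ 1) (h2 : ∃ ψ ∈ E, ψ g = 1) :
    QS (E ∩ {ψ | ψ g = 1}) := by
  refine ⟨h2, hE.2.1.inter (isClosed_eq (cont_ev g) continuous_const), fun U hU h3 η hη => ?_⟩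
  set g1 : A := (1 / 2 : ℂ) • (1 + g) with hg1
  have e1 : ∀ ψ : characterSpace ℂ A, ψ g1 = (1 + ψ g) / 2 := fun ψ => by
    rw [hg1, map_smul, map_add, map_one, smul_eq_mul]; ring
  have e2 : ∀ ψ ∈ E, ‖ψ g1‖ ≤ 1 := fun ψ h => by
    rw [e1, norm_div, Complex.norm_two]
    linarith [norm_add_le 1 (ψ g), h1 ψ h, norm_one (α := ℂ)]
  obtain ⟨c, c0, hc⟩ := ((hE.2.1.inter hU.isClosed_compl).isCompact).exists_forall_le'
    (f := fun ψ => 1 - ‖ψ g1‖) (a := 0) (continuous_const.sub (cont_ev g1).norm).continuousOn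
    fun ψ h => sub_pos.2 (by
      have i1 : ψ g ≠ 1 := fun h4 => h.2 (h3 ⟨h.1, h4⟩)
      have := norm_add_lt_of_not_sameRay (x := (1 : ℂ)) (y := ψ g)
      rw [e1, norm_div, Complex.norm_two, div_lt_one two_pos]
      rcases (h1 ψ h.1).lt_or_eq with h5 | h5
      · linarith [norm_add_le 1 (ψ g), norm_one (α := ℂ)]
      · have := this fun h6 => i1 (h6.eq_of_norm_eq (by rw [h5, norm_one])).symm
        rw [h5, norm_one] at this
        linarith)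
  set a := min (η / 3) 1 with ha
  have a0 : 0 < a := by positivity
  have a1 : a ≤ η / 3 := min_le_left _ _
  have a2 : a ≤ 1 := min_le_right _ _
  obtain ⟨N, hN⟩ := exists_pow_lt_of_lt_one a0 (show max (1 - c) 0 < 1 by simp [c0])
  have b0 : 0 < a / (‖g1 ^ N‖ + 1) := by positivity
  have b1 : a / (‖g1 ^ N‖ + 1) ≤ a := div_le_self a0.le (by simp)
  obtain ⟨f, h4, h5, h6⟩ := hE.2.2 ({ψ | ‖ψ (g1 ^ N)‖ < 1 + a} ∩ (U ∪ {ψ | ‖ψ (g1 ^ N)‖ < a}))
    ((isOpen_lt (cont_ev _).norm continuous_const).inter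
      (hU.union (isOpen_lt (cont_ev _).norm continuous_const))) (fun ψ h => ⟨by
      show ‖ψ (g1 ^ N)‖ < 1 + a
      rw [map_pow, norm_pow]
      linarith [pow_le_one₀ (n := N) (norm_nonneg _) (e2 ψ h)], by
      by_cases h7 : ψ ∈ U
      · exact Or.inl h7
      · refine Or.inr (lt_of_le_of_lt ?_ hN)
        rw [map_pow, norm_pow]
        exact pow_le_pow_left₀ (norm_nonneg _) (le_max_of_le_left (by
          linarith [hc ψ ⟨h, h7⟩])) N⟩) _ b0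
  have h7 : ∀ ψ : characterSpace ℂ A, ψ ∉ ({ψ | ‖ψ (g1 ^ N)‖ < 1 + a} ∩
      (U ∪ {ψ | ‖ψ (g1 ^ N)‖ < a})) → ‖ψ f‖ * ‖ψ (g1 ^ N)‖ ≤ a := fun ψ h =>
    (mul_le_mul (h6 ψ h) ((char_le hd ψ _).trans (le_add_of_nonneg_right zero_le_one))
      (norm_nonneg _) b0.le).trans_eq (div_mul_cancel₀ _ (by positivity))
  have h8 : ∀ ψ : characterSpace ℂ A, ‖ψ f‖ ≤ 1 + a := fun ψ => by linarith [char_le hd ψ f]
  refine ⟨f * g1 ^ N, fun ψ h => ?_, hd _ _ fun x => ?_, fun ψ h => ?_⟩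
  · rw [map_mul, map_pow, h4 ψ h.1, e1, show ψ g = 1 from h.2]; norm_num
  · rw [map_mul, norm_mul]
    by_cases h : ‖d x (g1 ^ N)‖ < 1 + a
    · exact (mul_le_mul (h8 _) h.le (norm_nonneg _) (by positivity)).trans (by nlinarith)
    · linarith [h7 (d x) fun h9 => h h9.1]
  · rw [map_mul, norm_mul]
    by_cases h9 : ‖ψ (g1 ^ N)‖ < a
    · exact (mul_le_mul (h8 _) h9.le (norm_nonneg _) (by positivity)).trans (by nlinarith)
    · linarith [h7 ψ fun h10 => h10.2.elim h h9]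

theorem qs_point (hd : Nm d) (hE : QS E) : ∃ φ ∈ E,
    ∀ U ∈ 𝓝 φ, ∀ ε : ℝ, 0 < ε → ∃ f : A, ‖f‖ = 1 ∧ φ f = 1 ∧
      ∀ ψ : characterSpace ℂ A, ψ ∉ U → ‖ψ f‖ < ε := by
  obtain ⟨M, h1, h2⟩ := zorn_superset_nonempty {E : Set (characterSpace ℂ A) | QS E}
    (fun c hc h1 h2 => by
      haveI := h2.to_subtype
      have hdir : DirectedOn (· ⊇ ·) c := fun a ha b hb => by
        rcases h1.total ha hb with h | h
        exacts [⟨a, ha, subset_rfl, h⟩, ⟨b, hb, h, subset_rfl⟩]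
      refine ⟨⋂₀ c, ⟨IsCompact.nonempty_sInter_of_directed_nonempty_isCompact_isClosed hdir
        (fun s h => (hc h).1) (fun s h => (hc h).2.1.isCompact) fun s h => (hc h).2.1,
        isClosed_sInter fun s h => (hc h).2.1, fun U hU h3 η hη => ?_⟩,
        fun s h => Set.sInter_subset_of_mem h⟩
      obtain ⟨s, hs⟩ := exists_subset_nhds_of_compactSpace (V := fun s : c => s.1)
        (directedOn_iff_directed.1 hdir) (fun s => (hc s.2).2.1) (U := U) fun x hx =>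
          hU.mem_nhds (h3 (by rwa [Set.sInter_eq_iInter]))
      obtain ⟨f, h4, h5⟩ := (hc s.2).2.2 U hU hs η hη
      exact ⟨f, fun ψ h => h4 ψ (h s s.2), h5⟩) E hE
  have hM : QS M := h2.prop
  obtain ⟨φ, hφ⟩ := hM.1
  have h3 : ∀ ψ ∈ M, ψ = φ := fun ψ hψ => CharacterSpace.ext fun g => by
    by_contra h4
    obtain ⟨χ, h5, h6⟩ := hM.2.1.isCompact.exists_isMaxOn hM.1
      (f := fun ψ => ‖ψ g - φ g‖) ((cont_ev g).sub continuous_const).norm.continuousOn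
    have h7 : χ g - φ g ≠ 0 := norm_pos_iff.1 ((norm_pos_iff.2 (sub_ne_zero.2 h4)).trans_le (h6 hψ))
    have e : ∀ ψ : characterSpace ℂ A, ψ ((χ g - φ g)⁻¹ • (g - algebraMap ℂ A (φ g))) =
        (χ g - φ g)⁻¹ * (ψ g - φ g) := fun ψ => by
      rw [map_smul, map_sub, AlgHomClass.commutes]; rfl
    have h8 := qs_step hd hM ((χ g - φ g)⁻¹ • (g - algebraMap ℂ A (φ g))) (fun ψ h => by
      rw [e, norm_mul, norm_inv, inv_mul_le_one₀ (norm_pos_iff.2 h7)]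
      exact h6 h) ⟨χ, h5, by rw [e, inv_mul_cancel₀ h7]⟩
    have := (h2.le_of_le h8 Set.inter_subset_left hφ).2
    rw [Set.mem_setOf_eq, e] at this
    simp at this
  refine ⟨φ, h1 hφ, bishop hd φ fun U hU η hη => ?_⟩
  obtain ⟨f, h4, h5, h6⟩ := hM.2.2 (interior U) isOpen_interior
    (fun ψ h => h3 ψ h ▸ mem_interior_iff_mem_nhds.2 hU) η hη
  exact ⟨f, h4 φ hφ, h5, fun ψ h => h6 ψ fun h7 => h (interior_subset h7)⟩

end Pool.Agent.H69.Sb
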