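import Mathlib
import Pool.Agent.H69.Sb7
import Pool.Agent.H69.Sb11

set_option autoImplicit false

namespace Pool.Agent.H69.Sb

open Metric Filter Topology Finset WeakDual
open scoped ENNReal

variable {A : Type} [NormedCommRing A] [NormedAlgebra ℂ A] [CompleteSpace A]
  {d : ball (0 : X 1) 1 → characterSpace ℂ A} {lin : (X 1 →L[ℂ] ℂ) → A} {sq : Set ℕ → A}

theorem ch_exp (ψ : characterSpace ℂ A) (g : A) : ψ (NormedSpace.exp g) = Complex.exp (ψ g) := by
  rw [Complex.exp_eq_exp_ℂ]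
  exact NormedSpace.map_exp_of_mem_ball (𝕂 := ℂ) ψ (map_continuous ψ) g
    ((NormedSpace.expSeries_radius_eq_top ℂ A).symm ▸ edist_lt_top _ _)

theorem Nm.ext {Y : Type} {d : Y → characterSpace ℂ A} (hd : Nm d) {f g : A}
    (h : ∀ x, d x f = d x g) : f = g :=
  sub_eq_zero.1 (norm_le_zero_iff.1 (hd _ _ fun x => by rw [map_sub, h, sub_self, norm_zero]))

theorem exists_phi (hl : ∀ l x, d x (lin l) = l x.1)
    (hs : ∀ (B : Set ℕ) x, HasSum (fun n => B.indicator 1 n * x.1 n ^ 2) (d x (sq B)))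
    (z : (X 1 →L[ℂ] ℂ) →L[ℂ] ℂ) (hz : ‖z‖ ≤ 1) (U : Ultrafilter ℕ) (hU : (U : Filter ℕ) ≤ cofinite) :
    ∃ φ : characterSpace ℂ A, (∀ l, φ (lin l) = z l) ∧ ∀ B ∈ U, ∀ h, Bd1 h →
      ‖φ (sq B) - φ (lin (fn (B.indicator 1))) ^ 2 / 2 - (1 - ‖z‖ : ℝ) ^ 2 / 2‖ ≤
        3 * (‖z‖ - (z (fn (Bᶜ.indicator h))).re) := by
  classical
  set t := 1 - ‖z‖ with ht
  have t0 : 0 ≤ t := by linarith
  have t1 : t ≤ 1 := by linarith [norm_nonneg z]
  choose y hy1 hy2 using fun i : Finset (X 1 →L[ℂ] ℂ) × ℕ =>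
    gold z i.1 (Nat.one_div_pos_of_nat (α := ℝ) (n := i.2))
  have h0 := tendsto_one_div_add_atTop_nhds_zero_nat (𝕜 := ℝ)
  have hsnd : Tendsto (Prod.snd : Finset (X 1 →L[ℂ] ℂ) × ℕ → ℕ) atTop atTop := by
    rw [← prod_atTop_atTop_eq]; exact tendsto_snd
  have hy : ∀ l : X 1 →L[ℂ] ℂ, Tendsto (fun i => l (y i)) atTop (𝓝 (z l)) := fun l => by
    rw [tendsto_iff_norm_sub_tendsto_zero]
    refine squeeze_zero' (Eventually.of_forall fun _ => norm_nonneg _) ?_ (h0.comp hsnd)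
    filter_upwards [eventually_ge_atTop (({l}, 0) : Finset (X 1 →L[ℂ] ℂ) × ℕ)] with i hi
    exact (hy2 i l (hi.1 (mem_singleton_self l))).le
  obtain ⟨r, r0, r1, hr⟩ : ∃ r : ℕ → ℝ, (∀ n, 0 ≤ r n) ∧ (∀ n, r n < 1) ∧
      Tendsto r atTop (𝓝 1) := by
    refine ⟨fun n => 1 - 1 / ((n : ℝ) + 1), fun n => sub_nonneg.2 ?_,
      fun n => sub_lt_self _ (by positivity), by simpa using h0.const_sub 1⟩
    rw [div_le_one (by positivity)]; simp
  let x : (Finset (X 1 →L[ℂ] ℂ) × ℕ) × ℕ × ℕ → ball (0 : X 1) 1 := fun i =>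
    ⟨(r i.1.2 : ℂ) • (y i.1 + (t / 2 : ℂ) • (lp.single 1 i.2.1 1 - lp.single 1 i.2.2 1)), by
      rw [mem_ball_zero_iff, norm_smul, Complex.norm_real, Real.norm_of_nonneg (r0 _)]
      refine (mul_le_of_le_one_right (r0 _) ((norm_add_le _ _).trans ?_)).trans_lt (r1 _)
      have := norm_sub_le (lp.single 1 i.2.1 1 : X 1) (lp.single 1 i.2.2 1)
      rw [lp.norm_single one_pos, lp.norm_single one_pos, norm_one] at this
      rw [norm_smul, norm_div, Complex.norm_two, Complex.norm_real, Real.norm_of_nonneg t0]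
      nlinarith [hy1 i.1]⟩
  haveI : (U.toFilter.curry U.toFilter).NeBot := by
    rw [← frequently_true_iff_neBot, frequently_curry_iff]; simp [U.neBot]
  let L := (atTop : Filter (Finset (X 1 →L[ℂ] ℂ) × ℕ)) ×ˢ (U.toFilter.curry U.toFilter)
  obtain ⟨φ, -, hφ⟩ := isCompact_univ.ultrafilter_le_nhds
    ((Ultrafilter.of L).map fun i => d (x i)) (by simp)
  have hL := Ultrafilter.of_le L
  have hev : ∀ f : A, Tendsto (fun i => d (x i) f) (Ultrafilter.of L) (𝓝 (φ f)) := fun f =>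
    ((cont_ev f).tendsto φ).comp hφ
  have hr' : Tendsto (fun i : (Finset (X 1 →L[ℂ] ℂ) × ℕ) × ℕ × ℕ => (r i.1.2 : ℂ)) L (𝓝 1) :=
    (Complex.continuous_ofReal.tendsto 1).comp (hr.comp (hsnd.comp tendsto_fst))
  refine ⟨φ, fun l => tendsto_nhds_unique (hev _) (Tendsto.mono_left ?_ hL), fun B hB h hh => ?_⟩
  · obtain ⟨c, -, hc⟩ := (isCompact_closedBall (0 : ℂ) ‖l‖).ultrafilter_le_nhds
      (U.map fun n => l (lp.single 1 n 1)) (le_principal_iff.2 (mem_map.2
        (Eventually.of_forall fun n => mem_closedBall_zero_iff.2 (e_le l n))))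
    have h1 : Tendsto (fun n => l (lp.single 1 n 1)) U (𝓝 c) := hc
    have h2 := ((h1.comp tendsto_fst).sub (h1.comp tendsto_snd)).mono_left curry_le_prod
    simp only [hl, x, map_smul, map_add, map_sub, smul_eq_mul]
    simpa using hr'.mul (((hy l).comp tendsto_fst).add ((h2.comp tendsto_snd).const_mul (t / 2 : ℂ)))
  · have h1 := (((hev (sq B)).sub (((hev (lin (fn (B.indicator 1)))).pow 2).div_const 2)).sub
      (((hr'.mono_left hL).pow 2).mul_const ((t : ℂ) ^ 2 / 2))).norm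
    have h2 := ((((Complex.continuous_re.tendsto _).comp ((hy (fn (Bᶜ.indicator h))).comp
      (tendsto_fst (g := U.toFilter.curry U.toFilter)))).const_sub ‖z‖).const_mul 3).mono_left hL
    rw [one_pow, one_mul] at h1
    refine le_of_tendsto_of_tendsto h1 h2 (Eventually.filter_mono hL ?_)
    have h3 : ∀ᶠ p in U.toFilter.curry U.toFilter, p.1 ≠ p.2 ∧ p.1 ∈ B ∧ p.2 ∈ B := by
      rw [eventually_curry_iff]
      filter_upwards [hB] with a ha
      filter_upwards [hB, hU (eventually_cofinite_ne a)] with b hb hab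
      exact ⟨Ne.symm hab, ha, hb⟩
    filter_upwards [tendsto_snd.eventually h3] with i hi
    have := pt ((hy1 i.1).trans hz) hi.1 hi.2.1 hi.2.2 t0 t1 (r0 i.1.2) (r1 _).le hh rfl
      (hs B (x i))
    simp only [hl, Function.comp_apply]
    exact this.trans (by linarith [hy1 i.1])

end Pool.Agent.H69.Sb
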