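import Mathlib
import Pool.Agent.H69.Sb12

set_option autoImplicit false

namespace Pool.Agent.H69.Sb

open Metric Filter Topology Finset WeakDual
open scoped ENNReal

variable {A : Type} [NormedCommRing A] [NormedAlgebra ℂ A] [CompleteSpace A]
  {d : ball (0 : X 1) 1 → characterSpace ℂ A} {lin : (X 1 →L[ℂ] ℂ) → A} {sq : Set ℕ → A}

theorem key1 (hd : Nm d) (hl : ∀ l x, d x (lin l) = l x.1)
    (hs : ∀ (B : Set ℕ) x, HasSum (fun n => B.indicator 1 n * x.1 n ^ 2) (d x (sq B)))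
    {z : (X 1 →L[ℂ] ℂ) →L[ℂ] ℂ} (hz : ‖z‖ ≤ 1) {B : ℕ → Set ℕ} {h : ℕ → ℕ → ℂ}
    (hh : ∀ m n, ‖h m n‖ = 1) (hB : ∀ m, Sm z (B m) ((1 / 2) ^ m))
    (hH : ∀ m, ‖z‖ - 2 * (1 / 2) ^ m ≤ (z (fn ((B m)ᶜ.indicator (h m)))).re)
    {E : Set (characterSpace ℂ A)} (c : ℕ → ℂ) (h1 : ∀ ψ ∈ E, ∀ g, ψ (lin (fn g)) = z (fn g))
    (h2 : ∀ ψ ∈ E, ∀ m, ψ (sq (B m)) = c m)
    (h3 : ∀ m, ‖c m - z (fn ((B m).indicator 1)) ^ 2 / 2 - (1 - ‖z‖ : ℝ) ^ 2 / 2‖ ≤ 6 * (1 / 2) ^ m)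
    {δ η : ℝ} (hδ : 0 < δ) (hη : 0 < η) : ∃ m, ∀ a b : ℕ → ℝ, (∀ n, |a n| ≤ 1) → (∀ n, |b n| ≤ 1) →
      ∃ α : ℝ, AQ E {ψ | ‖ψ (lin (fn ((B m).indicator fun n => b n)))‖ < δ ∧
        ‖ψ (sq (B m)) - ψ (lin (fn ((B m).indicator 1))) ^ 2 / 2 - (1 - ‖z‖ : ℝ) ^ 2 / 2‖ < δ ∧
        ‖ψ (lin (fn ((B m)ᶜ.indicator fun n => a n * h m n))) - α‖ < δ} η := by
  set t := 1 - ‖z‖ with ht
  have t0 : 0 ≤ t := by linarith
  have t1 : t ≤ 1 := by linarith [norm_nonneg z]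
  obtain ⟨e, l, θ, l0, i0, i1, i2, i3⟩ := core1 t0 (show 0 < η * δ / (1 + η) by positivity)
  obtain ⟨κ, k1, k2⟩ := aq_of hd E hδ hη two_pos i0 i1
  set M := ‖Wf e t (t ^ 2 / 2) 0‖ * Real.exp (l * (1 - t)) with hM
  have M0 : 0 < M := by positivity
  have hc : Continuous fun p : ℂ × ℂ × ℝ =>
      κ * (‖Wf e t p.1 p.2.1‖ * Real.exp (l * (1 - t - p.2.2))) := by unfold Wf; fun_prop
  obtain ⟨ρ, ρ0, hρ⟩ := Metric.eventually_nhds_iff.1 ((hc.tendsto (t ^ 2 / 2, 0, 0)).eventually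
    (lt_mem_nhds (show M < _ by rw [sub_zero]; exact lt_mul_of_one_lt_left M0 k1)))
  obtain ⟨m, hm⟩ := exists_pow_lt_of_lt_one (show 0 < ρ / 6 by positivity)
    (show (1 / 2 : ℝ) < 1 by norm_num)
  have m0 : (0 : ℝ) < (1 / 2) ^ m := by positivity
  refine ⟨m, fun a b ha hb => ?_⟩
  set u := fn ((B m).indicator 1) with hu
  set v := fn ((B m).indicator fun n => b n) with hv
  set H := fn ((B m)ᶜ.indicator (h m)) with hH'
  set Q := fn ((B m)ᶜ.indicator fun n => a n * h m n) with hQ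
  set gP : A := sq (B m) - (1 / 2 : ℂ) • lin u ^ 2 with hgP
  set gQ : A := lin Q - algebraMap ℂ A (z Q).re with hgQ
  set f : A := ((gP ^ 2 - (1 / 32 : ℂ) • lin v ^ 4) * (gP + algebraMap ℂ A (t ^ 2 / 2))) ^ e *
    NormedSpace.exp ((l : ℂ) • lin H - (l / 4 : ℂ) • gQ ^ 2) with hf
  have e1 : ∀ ψ : characterSpace ℂ A, ψ gP = ψ (sq (B m)) - ψ (lin u) ^ 2 / 2 := fun ψ => by
    rw [hgP, map_sub, map_smul, map_pow, smul_eq_mul]; ring
  have e2 : ∀ ψ : characterSpace ℂ A, ψ gQ = ψ (lin Q) - (z Q).re := fun ψ => by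
    rw [hgQ, map_sub, AlgHomClass.commutes]; rfl
  have e3 : ∀ ψ : characterSpace ℂ A, ψ f = Wf e t (ψ gP) (ψ (lin v)) *
      Complex.exp (l * ψ (lin H) - l / 4 * ψ gQ ^ 2) := fun ψ => by
    simp only [hf, map_mul, map_pow, ch_exp, map_sub, map_add, map_smul, AlgHomClass.commutes,
      smul_eq_mul, Wf, Algebra.algebraMap_self, RingHom.id_apply]
    congr 3
    ring
  set w := Wf e t (c m - z u ^ 2 / 2) (z v) * Complex.exp (l * z H - l / 4 * (z Q - (z Q).re) ^ 2)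
    with hw
  have e4 : ∀ ψ ∈ E, ψ f = w := fun ψ hψ => by
    rw [e3, e1, e2, h2 ψ hψ, h1 ψ hψ, h1 ψ hψ, h1 ψ hψ, h1 ψ hψ]
  have h4 : M < κ * ‖w‖ := by
    refine (hρ (y := (c m - z u ^ 2 / 2, z v, 2 * (1 / 2) ^ m)) ?_).trans_le ?_
    · rw [Prod.dist_eq, Prod.dist_eq, max_lt_iff, max_lt_iff]
      simp only [dist_eq_norm, sub_zero]
      refine ⟨(h3 m).trans_lt (by linarith), (hB m _ (bd_re hb)).trans_lt (by linarith), ?_⟩
      rw [Real.norm_of_nonneg (by positivity)]; linarith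
    · rw [hw, norm_mul, Complex.norm_exp]
      have e5 : (l * z H - l / 4 * (z Q - (z Q).re) ^ 2).re = l * ((z H).re + (z Q).im ^ 2 / 4) := by
        simp [_root_.sq]; ring
      rw [e5]
      gcongr
      nlinarith [hH m, sq_nonneg (z Q).im]
  have w0 : 0 < ‖w‖ := (mul_pos_iff_of_pos_left (by linarith)).1 (M0.trans h4)
  have e6 : ∀ ψ : characterSpace ℂ A, ψ (gP - algebraMap ℂ A (t ^ 2 / 2)) = ψ gP - t ^ 2 / 2 :=
    fun ψ => by rw [map_sub, AlgHomClass.commutes]; rfl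
  refine ⟨(z Q).re, (k2 (Fin 3) (w⁻¹ • f) ![lin v, gP - algebraMap ℂ A (t ^ 2 / 2), gQ]
    (fun ψ hψ => by rw [map_smul, e4 ψ hψ, smul_eq_mul, inv_mul_cancel₀ (norm_pos_iff.1 w0)])
    fun x => ?_).mono (fun ψ hψ => And.intro (hψ 0) (And.intro ?_ ?_)) le_rfl⟩
  · have hx := (mem_ball_zero_iff.1 x.2).le
    obtain ⟨j1, j2, j3⟩ := i3 x.1 (B m) (h m) a b (z Q).re _ (d x gP) (d x (lin v)) (d x (lin H))
      (d x gQ) hx (hh m) ha hb (hs _ x) (by rw [e1, hl]) (hl _ _) (hl _ _) (by rw [e2, hl])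
    rw [← e3] at j2 j3
    have j4 : ∀ g, ‖fn g x.1‖ ≤ 1 := fun g => ((fn g).le_opNorm _).trans
      (mul_le_one₀ (fn_le g) (norm_nonneg _) hx)
    rw [map_smul, norm_smul, norm_inv, inv_mul_le_iff₀ w0, lt_inv_mul_iff₀ w0]
    have j5 := fun h : ‖w‖ * (θ * κ) < ‖d x f‖ => j3 (lt_of_le_of_lt (by
      linarith [mul_le_mul_of_nonneg_left h4.le i0]) h)
    refine ⟨by linarith, Fin.forall_fin_succ.2 ⟨⟨?_, fun h => (j5 h).1⟩, Fin.forall_fin_two.2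
      ⟨⟨?_, fun h => (e6 _).symm ▸ (j5 h).2.1⟩, ?_, fun h => (j5 h).2.2⟩⟩⟩
    · exact (congrArg norm (hl v x)).trans_le ((j4 _).trans one_le_two)
    · refine (congrArg norm (e6 _)).trans_le ((norm_sub_le _ _).trans ?_)
      rw [norm_div, norm_pow, Complex.norm_two, Complex.norm_real, Real.norm_of_nonneg t0]
      nlinarith
    · refine (congrArg norm (e2 _)).trans_le ((norm_sub_le _ _).trans ?_)
      have := (Complex.abs_re_le_norm (z Q)).trans ((z.le_opNorm Q).trans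
        (mul_le_one₀ hz (norm_nonneg _) (fn_le _)))
      rw [hl, Complex.norm_real, Real.norm_eq_abs]
      linarith [j4 ((B m)ᶜ.indicator fun n => a n * h m n)]
  · rw [← e1, ← e6]; exact hψ 1
  · rw [← e2]; exact hψ 2

end Pool.Agent.H69.Sb
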