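import Mathlib
import Pool.Agent.H69.Sb13

set_option autoImplicit false

namespace Pool.Agent.H69.Sb

open Metric Filter Topology Finset WeakDual
open scoped ENNReal

variable {A : Type} [NormedCommRing A] [NormedAlgebra ℂ A] [CompleteSpace A]
  {d : ball (0 : X 1) 1 → characterSpace ℂ A} {lin : (X 1 →L[ℂ] ℂ) → A} {sq : Set ℕ → A}

theorem main1 (hd : Nm d) (hl : ∀ l x, d x (lin l) = l x.1)
    (hs : ∀ (B : Set ℕ) x, HasSum (fun n => B.indicator 1 n * x.1 n ^ 2) (d x (sq B)))
    (z : (X 1 →L[ℂ] ℂ) →L[ℂ] ℂ) (hz : ‖z‖ ≤ 1) : ∃ φ : characterSpace ℂ A,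
    (∀ l, φ (lin l) = z l) ∧ ∀ U ∈ 𝓝 φ, ∀ ε : ℝ, 0 < ε → ∃ f : A, ‖f‖ = 1 ∧ φ f = 1 ∧
      ∀ ψ : characterSpace ℂ A, ψ ∉ U → ‖ψ f‖ < ε := by
  classical
  obtain ⟨n, hn, hSm⟩ := exists_seq hz
  have hU : (((hyperfilter ℕ).map n : Ultrafilter ℕ) : Filter ℕ) ≤ cofinite := by
    rw [Nat.cofinite_eq_atTop]
    exact (tendsto_atTop_mono (fun j => (hn j).le) tendsto_id).mono_left Nat.hyperfilter_le_atTop
  set B : ℕ → Set ℕ := fun m => Set.range n \ ((range m).image n : Finset ℕ) with hBd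
  have hB : ∀ m, B m ∈ (hyperfilter ℕ).map n := fun m =>
    inter_mem (range_mem_map : Set.range n ∈ map n (hyperfilter ℕ : Filter ℕ))
      (hU (Finset.finite_toSet _).compl_mem_cofinite)
  have hSB : ∀ m, Sm z (B m) ((1 / 2) ^ m) := fun m => (hSm m).mono (by
    rintro _ ⟨⟨j, rfl⟩, h⟩
    exact ⟨j, not_lt.1 fun h1 => h (mem_coe.2 (mem_image_of_mem n (mem_range.2 h1))), rfl⟩)
  obtain ⟨φ, p1, p2⟩ := exists_phi hl hs z hz _ hU
  choose h hh1 hh2 using fun m : ℕ => exists_h z (show (0 : ℝ) < (1 / 2) ^ m by positivity)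
  have hh : ∀ m, Bd1 (h m) := fun m k => (hh1 m k).le
  have hH : ∀ m, ‖z‖ - 2 * (1 / 2) ^ m ≤ (z (fn ((B m)ᶜ.indicator (h m)))).re := fun m => by
    have e : fn (h m) = fn ((B m)ᶜ.indicator (h m)) + fn ((B m).indicator (h m)) := ext1 fun k => by
      rw [ContinuousLinearMap.add_apply, fn_e (hh m), fn_e ((hh m).ind _), fn_e ((hh m).ind _)]
      exact (congrFun (Set.indicator_compl_add_self _ _) k).symm
    have := hh2 m
    rw [e, map_add, Complex.add_re] at this
    linarith [(Complex.re_le_norm _).trans (hSB m _ (hh m))]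
  set S : Set A := {g | g = sq (Set.range n) ∨ ∃ l, ‖l‖ ≤ 1 ∧ g = lin l} with hS
  set E := {ψ : characterSpace ℂ A | ∀ g ∈ S, ψ g = φ g} with hE
  have q0 : ∀ ψ ∈ E, ∀ l, ‖l‖ ≤ 1 → ψ (lin l) = z l := fun ψ hψ l h =>
    (hψ _ (Or.inr ⟨l, h, rfl⟩)).trans (p1 l)
  have q1 : ∀ ψ ∈ E, ∀ g, ψ (lin (fn g)) = z (fn g) := fun ψ hψ g => q0 ψ hψ _ (fn_le g)
  have b1 : ∀ j : ℕ, Bd1 (Pi.single j 1) := fun j k => by
    by_cases h : k = j <;> simp [h]
  have q2 : ∀ (ψ : characterSpace ℂ A) m, ψ (sq (Set.range n)) = ψ (sq (B m)) +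
      ∑ j ∈ (range m).image n, ψ (lin (fn (Pi.single j 1))) ^ 2 := fun ψ m => by
    have : sq (Set.range n) = sq (B m) + ∑ j ∈ (range m).image n, lin (fn (Pi.single j 1)) ^ 2 :=
      hd.ext fun x => by
        have i1 : ∀ j, fn (Pi.single j 1) x.1 = x.1 j := fun j => (fn_hs (b1 j) x.1).unique (by
          simpa using hasSum_single (f := fun k => (Pi.single j 1 : ℕ → ℂ) k * x.1 k) j
            fun k hk => by simp [hk])
        simp only [map_add, map_sum, map_pow, hl, i1]
        have i2 := hasSum_sum_of_ne_finset_zero (L := SummationFilter.unconditional _)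
          (f := fun k => if k ∈ (range m).image n then x.1 k ^ 2 else 0) (s := (range m).image n)
          fun k hk => if_neg hk
        rw [sum_congr rfl fun k hk => if_pos hk] at i2
        refine (hs _ x).unique ((congrArg (HasSum · _) (funext fun k => ?_)).mp
          ((hs (B m) x).add i2))
        by_cases a : k ∈ (range m).image n
        · obtain ⟨j, -, rfl⟩ := mem_image.1 a
          rw [if_pos a, Set.indicator_of_notMem (fun h => h.2 a), Set.indicator_of_mem (Set.mem_range_self j)]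
          simp
        · rw [if_neg a, add_zero]
          by_cases a' : k ∈ Set.range n
          · rw [Set.indicator_of_mem a', Set.indicator_of_mem (show k ∈ B m from ⟨a', a⟩)]
          · rw [Set.indicator_of_notMem a', Set.indicator_of_notMem fun h => a' h.1]
    rw [this, map_add, map_sum]
    simp only [map_pow]
  have hφ : φ ∈ E := fun _ _ => rfl
  have key := fun δ η => key1 hd hl hs hz hh1 hSB hH (fun m => φ (sq (B m))) q1
    (fun ψ hψ m => by
      have i1 := q2 ψ m
      have i2 := q2 φ m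
      simp only [q1 ψ hψ, hψ _ (Or.inl rfl)] at i1
      simp only [q1 φ hφ] at i2
      exact add_right_cancel (i1.symm.trans i2))
    (fun m => by
      rw [← p1]
      exact (p2 _ (hB m) _ (hh m)).trans (by linarith [hH m])) (δ := δ) (η := η)
  have small : ∀ η : ℝ, 0 < η → ∃ η' : ℝ, 0 < η' ∧ η' < 1 ∧ 3 * η' ≤ η := fun η hη =>
    ⟨min (η / 3) (1 / 2), by positivity, (min_le_right _ _).trans_lt (by norm_num),
      by linarith [min_le_left (η / 3) (1 / 2)]⟩
  have t1 : ∀ l : X 1 →L[ℂ] ℂ, ‖l‖ ≤ 1 →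
      Tendsto (fun ψ : characterSpace ℂ A => ψ (lin l)) (fil hd E) (𝓝 (φ (lin l))) := by
    intro l hl1
    rw [Metric.tendsto_nhds]
    intro ε hε η hη
    obtain ⟨η', a0, a1, a2⟩ := small η hη
    obtain ⟨m, hm⟩ := key (ε / 8) η' (by positivity) a0
    set g : ℕ → ℂ := fun k => l (lp.single 1 k 1) with hg
    have g1 : ∀ k, ‖g k‖ ≤ 1 := fun k => (e_le l k).trans hl1
    have g2 : ∀ k, ‖g k / h m k‖ ≤ 1 := fun k => by rw [norm_div, hh1, div_one]; exact g1 k
    have c1 := fun k => (Complex.abs_re_le_norm _).trans (g1 k)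
    have c2 := fun k => (Complex.abs_im_le_norm _).trans (g1 k)
    have c3 := fun k => (Complex.abs_re_le_norm _).trans (g2 k)
    have c4 := fun k => (Complex.abs_im_le_norm _).trans (g2 k)
    obtain ⟨α, i1⟩ := hm _ _ c3 c1
    obtain ⟨β, i2⟩ := hm _ _ c4 c2
    have i3 := i1.inter hd i2 a0 a1.le
    have e : l = fn ((B m).indicator fun k => (g k).re) +
        Complex.I • fn ((B m).indicator fun k => (g k).im) +
        fn ((B m)ᶜ.indicator fun k => (g k / h m k).re * h m k) +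
        Complex.I • fn ((B m)ᶜ.indicator fun k => (g k / h m k).im * h m k) := ext1 fun k => by
      simp only [ContinuousLinearMap.add_apply, ContinuousLinearMap.smul_apply, smul_eq_mul,
        fn_e ((bd_re c1).ind _), fn_e ((bd_re c2).ind _), fn_e ((bd_mul c3 (hh m)).ind _),
        fn_e ((bd_mul c4 (hh m)).ind _)]
      have h0 : h m k ≠ 0 := norm_pos_iff.1 (by rw [hh1]; exact one_pos)
      by_cases a : k ∈ B m
      · rw [Set.indicator_of_mem a, Set.indicator_of_mem a, Set.indicator_of_notMem (not_not.2 a),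
          Set.indicator_of_notMem (not_not.2 a)]
        linear_combination -Complex.re_add_im (g k)
      · rw [Set.indicator_of_notMem a, Set.indicator_of_notMem a, Set.indicator_of_mem a,
          Set.indicator_of_mem a]
        linear_combination -h m k * Complex.re_add_im (g k / h m k) - div_mul_cancel₀ (g k) h0
    have e2 : lin l = lin (fn ((B m).indicator fun k => (g k).re)) +
        Complex.I • lin (fn ((B m).indicator fun k => (g k).im)) +
        lin (fn ((B m)ᶜ.indicator fun k => (g k / h m k).re * h m k)) +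
        Complex.I • lin (fn ((B m)ᶜ.indicator fun k => (g k / h m k).im * h m k)) :=
      hd.ext fun x => by
        simp only [map_add, map_smul, hl]
        exact congrArg (fun l : X 1 →L[ℂ] ℂ => l x.1) e
    have tri : ∀ a b c e : ℂ, ‖a‖ < ε / 8 → ‖b‖ < ε / 8 → ‖c - α‖ < ε / 8 → ‖e - β‖ < ε / 8 →
        ‖a + Complex.I * b + c + Complex.I * e - (α + Complex.I * β)‖ < ε / 2 := by
      intro a b c e j1 j2 j3 j4
      rw [show a + Complex.I * b + c + Complex.I * e - (α + Complex.I * β) =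
        a + Complex.I * b + (c - α) + Complex.I * (e - β) by ring]
      refine norm_add₄_le.trans_lt ?_
      rw [norm_mul, norm_mul, Complex.norm_I]
      linarith
    refine i3.mono (fun ψ hψ => ?_) a2
    have j1 := tri _ _ _ _ hψ.1.1 hψ.2.1 hψ.1.2.2 hψ.2.2.2
    have j2 := tri _ _ _ _ (i1.sub a1 hφ).1 (i2.sub a1 hφ).1 (i1.sub a1 hφ).2.2 (i2.sub a1 hφ).2.2
    show dist (ψ (lin l)) (φ (lin l)) < ε
    rw [e2]
    simp only [map_add, map_smul, smul_eq_mul]
    rw [← dist_eq_norm] at j1 j2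
    linarith [dist_triangle_right _ _ (α + Complex.I * β) |>.trans_lt (add_lt_add j1 j2)]
  have t2 : Tendsto (fun ψ : characterSpace ℂ A => ψ (sq (Set.range n))) (fil hd E)
      (𝓝 (φ (sq (Set.range n)))) := by
    rw [Metric.tendsto_nhds]
    intro ε hε η hη
    obtain ⟨η', a0, a1, a2⟩ := small η hη
    obtain ⟨m, hm⟩ := key (ε / 4) η' (by positivity) a0
    obtain ⟨α, i1⟩ := hm 0 0 (by simp) (by simp)
    have i2 := Metric.tendsto_nhds.1 ((tendsto_finset_sum ((range m).image n) fun j _ =>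
      (t1 _ (fn_le (Pi.single j 1))).pow 2).add
        (((t1 _ (fn_le ((B m).indicator 1))).pow 2).div_const 2)) (ε / 2) (half_pos hε) η' a0
    refine (i1.inter hd i2 a0 a1.le).mono (fun ψ hψ => ?_) a2
    have j1 := hψ.1.2.1
    have j2 := (i1.sub a1 hφ).2.1
    have j3 := hψ.2
    show dist (ψ (sq (Set.range n))) (φ (sq (Set.range n))) < ε
    rw [← dist_eq_norm] at j1 j2
    have j4 := (dist_triangle_right _ _ _).trans_lt (add_lt_add j1 j2)
    have j5 := (dist_add_add_le _ _ _ _).trans_lt (add_lt_add j4 j3)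
    rw [q2 ψ m, q2 φ m]
    refine lt_of_eq_of_lt ?_ (j5.trans_eq (by ring))
    congr 1 <;> ring
  obtain ⟨ψ, hψ, hst⟩ := qs_point hd (qs_gen hd φ S fun g hg => by
    rcases hg with rfl | ⟨l, h1, rfl⟩
    exacts [t2, t1 l h1])
  refine ⟨ψ, fun l => ?_, hst⟩
  have c0 : ((‖l‖ + 1 : ℝ) : ℂ) ≠ 0 := Complex.ofReal_ne_zero.2 (by positivity)
  have e : lin l = ((‖l‖ + 1 : ℝ) : ℂ) • lin (((‖l‖ + 1 : ℝ) : ℂ)⁻¹ • l) := hd.ext fun x => by
    rw [map_smul, hl, hl, ContinuousLinearMap.smul_apply, smul_inv_smul₀ c0]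
  rw [e, map_smul, q0 ψ hψ, map_smul, smul_inv_smul₀ c0]
  rw [norm_smul, norm_inv, Complex.norm_real, Real.norm_of_nonneg (by positivity),
    inv_mul_le_one₀ (by positivity)]
  linarith

end Pool.Agent.H69.Sb
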