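import Mathlib
import Pool.Agent.H69.Sb4

set_option autoImplicit false

namespace Pool.Agent.H69.Sb

open Metric Filter Topology Finset
open scoped ENNReal

variable {P : ℝ≥0∞} [Fact (1 ≤ P)]

theorem sub_rpow {p : ℝ} (hp : 0 < p) (a b : ℂ) : ‖a - b‖ ^ p ≤ 2 ^ p * (‖a‖ ^ p + ‖b‖ ^ p) := by
  have h1 := norm_sub_le a b
  have h2 : 0 ≤ ‖a‖ ^ p := by positivity
  have h3 : 0 ≤ ‖b‖ ^ p := by positivity
  rcases le_total ‖a‖ ‖b‖ with h | h
  · calc _ ≤ (2 * ‖b‖) ^ p := by gcongr; linarith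
      _ ≤ _ := by rw [Real.mul_rpow (by norm_num) (norm_nonneg _)]; gcongr; linarith
  · calc _ ≤ (2 * ‖a‖) ^ p := by gcongr; linarith
      _ ≤ _ := by rw [Real.mul_rpow (by norm_num) (norm_nonneg _)]; gcongr; linarith

noncomputable def yy (z : X P) (t : ℝ) (n : ℕ) : X P := z + lp.single P n (t - z n)

theorem yy_self (z : X P) (t : ℝ) (n : ℕ) : yy z t n n = t := by
  simp [yy]

theorem yy_ne (z : X P) (t : ℝ) {n j : ℕ} (h : j ≠ n) : yy z t n j = z j := by
  simp [yy, h]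

theorem core {p : ℝ} (hP : P.toReal = p) (hp : 1 < p) (z : X P) (hz : ‖z‖ ≤ 1) {t : ℝ} (ht : 0 < t)
    {k : ℕ} (hk : p < k) {ε : ℝ} (hε : 0 < ε) : ∃ θ : ℝ, 0 ≤ θ ∧ θ < 1 ∧
    ∀ (m : ℕ) (A : Set ℕ), (∀ n ∈ A, m ≤ n) → A.Nonempty → ∀ x : X P, ‖x‖ ≤ 1 → ∀ v : ℂ,
      HasSum (fun n => A.indicator 1 n * (x n ^ k * (t + x n))) v → ∀ Φ M : ℝ,
      Φ = ‖v‖ * Real.exp ((k + 1 / 2) / t ^ p * (∑ n ∈ range m, cf p (z n) * x n).re) →
      M = Gs p t k * Real.exp ((k + 1 / 2) / t ^ p *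
        ((∑ n ∈ range m, ‖z n‖ ^ p) * ((p - 1) / p) + 1 / p)) →
      Φ ≤ M ∧ (θ * M < Φ → ∃ n ∈ A,
        ‖x - yy z t n‖ ^ p ≤ ε + 2 ^ p * (‖z‖ ^ p - ∑ n ∈ range m, ‖z n‖ ^ p)) := by
  classical
  subst hP
  set p := P.toReal with hP
  have p0 : 0 < p := by linarith
  obtain ⟨C, hC, hD⟩ := Df_bound hp (show 0 < ε / 3 by positivity)
  obtain ⟨θ, hθ, hG⟩ := G_near hp ht hk (show 0 < ε / 3 by positivity)
  set l := (k + 1 / 2) / t ^ p with hl
  have l0 : 0 < l := by positivity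
  have C0 : 0 < C + 2 ^ p * p := by have : 0 < 2 ^ p * p := by positivity
                                    linarith
  set γ := ε / 3 / (C + 2 ^ p * p) with hγ
  have γ0 : 0 < γ := by positivity
  refine ⟨max θ (Real.exp (-(l * γ))), le_max_of_le_right (Real.exp_pos _).le,
    max_lt hθ (Real.exp_lt_one_iff.2 (by linarith [mul_pos l0 γ0])), ?_⟩
  intro m A hA hne x hx v hv Φ M hΦ hM
  obtain ⟨n, hn, hmax⟩ := exists_max p0 x hne
  have hX := lp.hasSum_norm p0 x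
  have hZ := lp.hasSum_norm p0 z
  rw [← hP] at hX hZ
  have hx1 : ‖x‖ ^ p ≤ 1 := Real.rpow_le_one (norm_nonneg _) hx p0.le
  have hz1 : ‖z‖ ^ p ≤ 1 := Real.rpow_le_one (norm_nonneg _) hz p0.le
  obtain ⟨σ, hσ⟩ : Summable fun j => if j ∈ A then ‖x j‖ ^ p else 0 :=
    .of_nonneg_of_le (fun j => by positivity) (fun j => by split_ifs <;> [rfl; positivity])
      hX.summable
  set s0 := ∑ j ∈ range m, ‖x j‖ ^ p with hs0
  set S := ∑ j ∈ range m, ‖z j‖ ^ p with hS
  have h1 : s0 + σ ≤ ‖x‖ ^ p := hasSum_le (fun j => by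
    by_cases h : j ∈ A
    · rw [if_neg (not_lt.2 (hA j h)), if_pos h, zero_add]
    · rw [if_neg h, add_zero]; split_ifs <;> [rfl; positivity]) ((hs_lt _ m).add hσ) hX
  have h2 : ‖x n‖ ^ p ≤ σ := by
    simpa [hn] using le_hasSum hσ n fun j _ => by positivity
  have s00 : 0 ≤ s0 := by positivity
  have σ0 : 0 ≤ σ := le_trans (by positivity) h2
  set τ := σ ^ p⁻¹ with hτ
  have hτp : τ ^ p = σ := Real.rpow_inv_rpow σ0 p0.ne'
  have h3 : ‖x n‖ ≤ τ := by
    rwa [← Real.rpow_le_rpow_iff (norm_nonneg _) (by positivity) p0, hτp]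
  have h4 : τ ≤ 1 := Real.rpow_le_one σ0 (by linarith) (by positivity)
  have h5 : ‖v‖ ≤ ‖x n‖ ^ (k - p) *
      (‖x n‖ ^ p * ‖t + x n‖ + (τ ^ p - ‖x n‖ ^ p) * (t + ‖x n‖)) := by
    have := hv.norm_le_of_bounded (((hσ.mul_right (t + ‖x n‖)).update n
      (‖x n‖ ^ p * ‖t + x n‖)).mul_left (‖x n‖ ^ (k - p))) fun j => by
        by_cases h : j ∈ A
        · have h6 := pw p0 hk.le (norm_nonneg _) (hmax j h)
          rw [Set.indicator_of_mem h, Pi.one_apply, one_mul, norm_mul, norm_pow]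
          by_cases h7 : j = n
          · rw [h7, Function.update_self, ← mul_assoc]
            rw [h7] at h6
            gcongr
          · rw [Function.update_of_ne h7, if_pos h, ← mul_assoc]
            gcongr
            have := norm_add_le (t : ℂ) (x j)
            rw [Complex.norm_real, Real.norm_of_nonneg ht.le] at this
            linarith [hmax j h]
        · rw [Set.indicator_of_notMem h, Function.update_of_ne (ne_of_mem_of_not_mem hn h).symm,
            if_neg h]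
          simp
    rw [if_pos hn] at this
    rw [hτp]
    exact this.trans_eq (by ring)
  set Δ := ∑ j ∈ range m, Df p (z j) (x j) with hΔ
  have Δ0 : 0 ≤ Δ := sum_nonneg fun j _ => (hD _ _).1
  have h6 : (∑ n ∈ range m, cf p (z n) * x n).re = S * ((p - 1) / p) + s0 / p - Δ := by
    simp only [hΔ, Df, sum_sub_distrib, sum_add_distrib, Complex.re_sum, ← sum_mul, ← sum_div,
      ← hS, ← hs0]
    ring
  set E := Real.exp (l * (S * ((p - 1) / p) + 1 / p)) with hE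
  have E0 : 0 < E := Real.exp_pos _
  set δ := (1 - s0 - σ) / p + Δ with hδ
  have ρ0 : 0 ≤ (1 - s0 - σ) / p := div_nonneg (by linarith) p0.le
  have h7 : Φ ≤ G p t k (x n) τ * E * Real.exp (-(l * δ)) := by
    rw [hΦ, G, hE, mul_assoc, mul_assoc, ← Real.exp_add, ← Real.exp_add, h6, ← hl]
    refine mul_le_mul h5 (le_of_eq ?_) (Real.exp_pos _).le ((norm_nonneg _).trans h5)
    rw [hτp, hδ]
    congr 1
    ring
  have h8 := G_le hp ht hk h3
  have G0 : 0 ≤ G p t k (x n) τ := mul_nonneg ((norm_nonneg _).trans h5) (Real.exp_pos _).le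
  have h9 : Real.exp (-(l * δ)) ≤ 1 := Real.exp_le_one_iff.2 (by
    linarith [mul_nonneg l0.le (add_nonneg ρ0 Δ0)])
  have h10 : Φ ≤ G p t k (x n) τ * E := h7.trans (mul_le_of_le_one_right (by positivity) h9)
  have M0 : 0 < Gs p t k := by unfold Gs; positivity
  refine ⟨h10.trans (by rw [hM]; gcongr), fun h => ⟨n, hn, ?_⟩⟩
  have h11 := hG (x n) τ h3 h4 (lt_of_mul_lt_mul_right (a := E) (by
    refine lt_of_le_of_lt ?_ (h.trans_le h10)
    rw [hM, mul_assoc]
    gcongr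
    exact le_max_left _ _) E0.le)
  have h12 : δ < γ := by
    have : Real.exp (-(l * γ)) * M < Real.exp (-(l * δ)) * M := by
      refine lt_of_le_of_lt ?_ (h.trans_le (h7.trans ?_))
      · rw [hM]; gcongr; exact le_max_right _ _
      · rw [hM, mul_comm]; gcongr
    have := Real.exp_lt_exp.1 (lt_of_mul_lt_mul_right this (by rw [hM]; positivity))
    exact lt_of_mul_lt_mul_left (by linarith) l0.le
  have hY := lp.hasSum_norm p0 (x - yy z t n)
  rw [← hP] at hY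
  have h13 := hasSum_le (fun j => ?_) hY ((((hasSum_ite_eq n (‖x n - t‖ ^ p)).add
    (hs_lt (fun j => C * Df p (z j) (x j) + ε / 3 * ‖z j‖ ^ p) m)).add
    (((hX.sub (hs_lt (fun j => ‖x j‖ ^ p) m)).sub (hasSum_ite_eq n (‖x n‖ ^ p))).mul_left
      (2 ^ p))).add ((hZ.sub (hs_lt (fun j => ‖z j‖ ^ p) m)).mul_left (2 ^ p)))
  · rw [sum_add_distrib, ← mul_sum, ← mul_sum, ← hΔ, ← hS, ← hs0] at h13
    have i1 : S ≤ ‖z‖ ^ p := lp.sum_rpow_le_norm_rpow p0 z _
    have i2 : ε / 3 * S ≤ ε / 3 := mul_le_of_le_one_right (by positivity) (by linarith)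
    have i3 : (C + 2 ^ p * p) * δ ≤ ε / 3 := by
      rw [mul_comm, ← le_div_iff₀ C0]; exact h12.le
    have i4 : (C + 2 ^ p * p) * δ = C * Δ + 2 ^ p * (1 - s0 - σ) +
        (C * ((1 - s0 - σ) / p) + 2 ^ p * p * Δ) := by rw [hδ]; field_simp; ring
    have i5 : 0 ≤ C * ((1 - s0 - σ) / p) := mul_nonneg (by linarith) ρ0
    have i6 : 0 ≤ 2 ^ p * p * Δ := by positivity
    have i7 := mul_le_mul_of_nonneg_left hx1 (show (0 : ℝ) ≤ 2 ^ p by positivity)
    rw [hτp] at h11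
    linarith
  · rw [lp.coeFn_sub, Pi.sub_apply]
    have i1 : 0 ≤ 2 ^ p * ‖z j‖ ^ p := by positivity
    by_cases h14 : j = n
    · subst h14
      simp only [yy_self, if_true, if_neg (not_lt.2 (hA j hn))]
      linarith
    · rw [yy_ne z t h14]
      by_cases h15 : j < m
      · simp only [if_pos h15, if_neg h14]
        linarith [(hD (z j) (x j)).2]
      · simp only [if_neg h15, if_neg h14]
        linarith [sub_rpow p0 (x j) (z j)]

end Pool.Agent.H69.Sb
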