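import Mathlib
import Pool.Agent.H69.Sb1
import Pool.Agent.H69.Sb2
import Pool.Agent.H69.Sb5

set_option autoImplicit false

namespace Pool.Agent.H69.Sb

open Metric Filter Topology Finset
open scoped ENNReal

variable {P : ℝ≥0∞} [Fact (1 ≤ P)]

theorem cf_mul {p : ℝ} (hp : 0 < p) (a : ℂ) : cf p a * a = (‖a‖ ^ p : ℝ) := by
  by_cases h : a = 0
  · simp [h, hp.ne']
  · unfold cf; field_simp

theorem yy_norm (hp : 1 < P.toReal) (z : X P) {t : ℝ} (ht : 0 < t)
    (h : t ^ P.toReal = 1 - ‖z‖ ^ P.toReal) (n : ℕ) : ‖yy z t n‖ ≤ 1 := by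
  classical
  have p0 : 0 < P.toReal := by linarith
  rw [← Real.rpow_le_rpow_iff (norm_nonneg _) zero_le_one p0, Real.one_rpow]
  refine (hasSum_le (fun j => ?_) (lp.hasSum_norm p0 _)
    ((lp.hasSum_norm p0 z).add (hasSum_ite_eq n (t ^ P.toReal)))).trans_eq (by linarith)
  by_cases h1 : j = n
  · rw [h1, yy_self, if_pos rfl, Complex.norm_real, Real.norm_of_nonneg ht.le]
    exact le_add_of_nonneg_left (by positivity)
  · rw [yy_ne z t h1, if_neg h1, add_zero]

theorem lower (hp : 1 < P.toReal) (z : X P) (hz : ‖z‖ ≤ 1) {t : ℝ} (ht : 0 < t) (ht1 : t ≤ 1)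
    {k : ℕ} (hk : P.toReal < k) {m n : ℕ} {A : Set ℕ} (hA : ∀ n ∈ A, m ≤ n) (hn : n ∈ A)
    {r : ℝ} (r0 : 0 ≤ r) (r1 : r ≤ 1) {v : ℂ} (hv : HasSum (fun j => A.indicator 1 j *
      (((r : ℂ) • yy z t n) j ^ k * (t + ((r : ℂ) • yy z t n) j))) v) :
    (r * t) ^ k * (t + r * t) - 2 * (‖z‖ ^ P.toReal - ∑ j ∈ range m, ‖z j‖ ^ P.toReal) ≤ ‖v‖ ∧
    (∑ j ∈ range m, cf P.toReal (z j) * ((r : ℂ) • yy z t n) j).re =
      r * ∑ j ∈ range m, ‖z j‖ ^ P.toReal := by
  classical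
  have p0 : 0 < P.toReal := by linarith
  simp only [lp.coeFn_smul, Pi.smul_apply, smul_eq_mul] at hv ⊢
  constructor
  · have := (hv.update n 0).norm_le_of_bounded (((lp.hasSum_norm p0 z).sub
      (hs_lt (fun j => ‖z j‖ ^ P.toReal) m)).mul_left 2) fun j => by
        have h0 : 0 ≤ ‖z j‖ ^ P.toReal - if j < m then ‖z j‖ ^ P.toReal else 0 := by
          split_ifs
          · simp
          · rw [sub_zero]; positivity
        by_cases h1 : j = n
        · rw [h1, Function.update_self, norm_zero, ← h1]; linarith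
        rw [Function.update_of_ne h1]
        by_cases h : j ∈ A
        · have h2 : ‖(r : ℂ) * z j‖ ≤ ‖z j‖ := by
            rw [norm_mul, Complex.norm_real, Real.norm_of_nonneg r0]
            exact mul_le_of_le_one_left (norm_nonneg _) r1
          have h3 := (coord_le z j).trans hz
          have h4 := pw p0 hk.le (norm_nonneg _) h3
          have h5 := norm_add_le (t : ℂ) (r * z j)
          rw [Complex.norm_real, Real.norm_of_nonneg ht.le] at h5
          rw [Real.one_rpow, one_mul] at h4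
          rw [Set.indicator_of_mem h, Pi.one_apply, one_mul, norm_mul, norm_pow, yy_ne z t h1,
            if_neg (not_lt.2 (hA j h)), sub_zero, mul_comm]
          exact mul_le_mul (by linarith) ((pow_le_pow_left₀ (norm_nonneg _) h2 k).trans h4)
            (by positivity) (by norm_num)
        · rw [Set.indicator_of_notMem h, zero_mul, norm_zero]; linarith
    rw [Set.indicator_of_mem hn, Pi.one_apply, one_mul, yy_self, zero_sub, neg_add_eq_sub] at this
    have h1 := norm_sub_norm_le (((r : ℂ) * t) ^ k * (t + r * t)) v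
    have e : ((r : ℂ) * t) ^ k * (t + r * t) = ((r * t) ^ k * (t + r * t) : ℝ) := by push_cast; rfl
    rw [norm_sub_rev] at h1
    rw [e] at h1 this
    rw [Complex.norm_real, Real.norm_of_nonneg (by positivity)] at h1
    linarith
  · rw [Complex.re_sum, mul_sum]
    refine sum_congr rfl fun j hj => ?_
    rw [yy_ne z t (ne_of_lt ((mem_range.1 hj).trans_le (hA n hn))), mul_left_comm, cf_mul p0,
      ← Complex.ofReal_mul, Complex.ofReal_re]

theorem exists_f (hp : 1 < P.toReal) (z : X P) (t l : ℝ) {k : ℕ} (hk : P.toReal < k) (m : ℕ)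
    (A : Set ℕ) : ∃ f : Au (X P), ∀ x : ball (0 : X P) 1, ∃ v : ℂ,
      HasSum (fun n => A.indicator 1 n * (x.1 n ^ k * (t + x.1 n))) v ∧
      ‖f.1 x‖ = ‖v‖ * Real.exp (l * (∑ n ∈ range m, cf P.toReal (z n) * x.1 n).re) := by
  have hw : ∀ n, ‖A.indicator (1 : ℕ → ℂ) n‖ ≤ 1 := fun n => by
    by_cases h : n ∈ A <;> simp [h]
  obtain ⟨F, C, h1, h2, h3⟩ := exists_P hp hk.le _ hw
  obtain ⟨F', C', h4, h5, h6⟩ := exists_P (j := k + 1) hp (by push_cast; linarith) _ hw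
  let L : X P →L[ℂ] ℂ := (l : ℂ) • ∑ n ∈ range m, cf P.toReal (z n) • lp.evalCLM ℂ _ P n
  have hL : ∀ x, (L x).re = l * (∑ n ∈ range m, cf P.toReal (z n) * x n).re := fun x => by
    rw [← Complex.re_ofReal_mul]
    simp only [L, ContinuousLinearMap.smul_apply, ContinuousLinearMap.sum_apply, smul_eq_mul]
    rfl
  obtain ⟨f, hf⟩ := exists_mk (fun x => (t * F x + F' x) * Complex.exp (L x))
    (((h1.const_mul _).add h4).mul L.differentiable.cexp)
    ((‖(t : ℂ)‖ * C + C') * Real.exp (‖L‖ * 3)) fun x hx => by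
      have i1 : ‖t * F x + F' x‖ ≤ ‖(t : ℂ)‖ * C + C' := (norm_add_le _ _).trans (by
        rw [norm_mul]; gcongr; exacts [h2 x hx, h5 x hx])
      rw [norm_mul, Complex.norm_exp]
      refine mul_le_mul i1 (Real.exp_le_exp.2 ((Complex.re_le_norm _).trans
        ((L.le_opNorm x).trans ?_))) (Real.exp_pos _).le ((norm_nonneg _).trans i1)
      gcongr
      exact (mem_ball_zero_iff.1 hx).le
  refine ⟨f, fun x => ⟨t * F x + F' x, ?_, by rw [hf, norm_mul, Complex.norm_exp, hL]⟩⟩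
  have e : (fun n => A.indicator 1 n * (x.1 n ^ k * (t + x.1 n))) = fun n =>
      (t : ℂ) * (A.indicator 1 n * x.1 n ^ k) + A.indicator 1 n * x.1 n ^ (k + 1) := by
    funext n; ring
  rw [e]
  exact ((h3 x).mul_left (t : ℂ)).add (h6 x)

theorem main (hp : 1 < P.toReal) (z : X P) (hz : ‖z‖ < 1) :
    ∃ φ ∈ fiber z, StrongBdry φ := by
  have p0 : 0 < P.toReal := by linarith
  have hS : ‖z‖ ^ P.toReal < 1 := Real.rpow_lt_one (norm_nonneg _) hz p0
  have hS0 : 0 ≤ ‖z‖ ^ P.toReal := by positivity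
  obtain ⟨t, ht, ht1, htp⟩ : ∃ t : ℝ, 0 < t ∧ t ≤ 1 ∧ t ^ P.toReal = 1 - ‖z‖ ^ P.toReal :=
    ⟨(1 - ‖z‖ ^ P.toReal) ^ P.toReal⁻¹, Real.rpow_pos_of_pos (by linarith) _,
      Real.rpow_le_one (by linarith) (by linarith) (by positivity),
      Real.rpow_inv_rpow (by linarith) p0.ne'⟩
  obtain ⟨k, hk⟩ := exists_nat_gt P.toReal
  obtain ⟨r, r0, r1, hr⟩ : ∃ r : ℕ → ℝ, (∀ n, 0 ≤ r n) ∧ (∀ n, r n < 1) ∧
      Tendsto r atTop (𝓝 1) := by
    refine ⟨fun n => 1 - 1 / ((n : ℝ) + 1), fun n => sub_nonneg.2 ?_,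
      fun n => sub_lt_self _ (by positivity), ?_⟩
    · rw [div_le_one (by positivity)]; simp
    · simpa using (tendsto_one_div_add_atTop_nhds_zero_nat (𝕜 := ℝ)).const_sub 1
  have hy := yy_norm hp z ht htp
  let x : ℕ → ball (0 : X P) 1 := fun n => ⟨(r n : ℂ) • yy z t n, by
    rw [mem_ball_zero_iff, norm_smul, Complex.norm_real, Real.norm_of_nonneg (r0 n)]
    exact (mul_le_of_le_one_right (r0 n) (hy n)).trans_lt (r1 n)⟩
  obtain ⟨φ, -, hφ⟩ := isCompact_univ.ultrafilter_le_nhds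
    ((hyperfilter ℕ).map fun n => delta (x n)) (by simp)
  have hU := Nat.hyperfilter_le_atTop
  have hev : ∀ f : Au (X P), Tendsto (fun n => f.1 (x n)) (hyperfilter ℕ) (𝓝 (φ f)) := fun f =>
    ((cont_ev f).tendsto φ).comp hφ
  refine ⟨φ, fun l f hf => tendsto_nhds_unique (hev f) (Tendsto.mono_left ?_ hU),
    strong_of (d := delta) (fun f C h => norm_le' h) φ fun g δ hδ => ?_⟩
  · have e : ∀ n, f.1 (x n) = r n * (l z + (t - z n) * l (lp.single P n 1)) := fun n => by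
      rw [hf, ← smul_eq_mul, ← smul_eq_mul, ← map_smul, ← map_add, ← map_smul, ← lp.single_smul,
        smul_eq_mul, mul_one]
      rfl
    simp only [e]
    have h1 : Tendsto (fun n => (t - z n) * l (lp.single P n 1)) atTop (𝓝 0) := by
      refine squeeze_zero_norm (a := fun n => (‖(t : ℂ)‖ + ‖z‖) * ‖l (lp.single P n 1)‖)
        (fun n => ?_) (by simpa using (weak_null hp l).norm.const_mul (‖(t : ℂ)‖ + ‖z‖))
      rw [norm_mul]
      gcongr
      exact (norm_sub_le _ _).trans (by linarith [coord_le z n])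
    simpa using ((Complex.continuous_ofReal.tendsto 1).comp hr).mul (h1.const_add (l z))
  obtain ⟨ρ, ρ0, hρ⟩ := Metric.uniformContinuous_iff.1 g.2.1 (δ / 2) (half_pos hδ)
  have q0 : 0 < (ρ / 2) ^ P.toReal / 2 := by positivity
  obtain ⟨θ, h0, h1, h2⟩ := core rfl hp z hz.le ht hk q0
  refine ⟨θ, h0, h1, fun κ hκ => ?_⟩
  set l := (k + 1 / 2) / t ^ P.toReal with hl
  set S : ℕ → ℝ := fun m => ∑ n ∈ range m, ‖z n‖ ^ P.toReal with hS'
  have hS1 : Tendsto S atTop (𝓝 (‖z‖ ^ P.toReal)) := (lp.hasSum_norm p0 z).tendsto_sum_nat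
  set Lm : ℝ → ℝ := fun s => ((1 * t) ^ k * (t + 1 * t) - 2 * (‖z‖ ^ P.toReal - s)) *
    Real.exp (l * (1 * s)) with hLm
  set Mm : ℝ → ℝ := fun s => Gs P.toReal t k *
    Real.exp (l * (s * ((P.toReal - 1) / P.toReal) + 1 / P.toReal)) with hMm
  have M0 : ∀ s, 0 < Mm s := fun s => by simp only [hMm, Gs]; positivity
  have h3 : Mm (‖z‖ ^ P.toReal) = Lm (‖z‖ ^ P.toReal) := by
    have : t ^ P.toReal ≠ 0 := by positivity
    have e : (k + 1 / 2 : ℝ) = l * (1 - ‖z‖ ^ P.toReal) := by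
      rw [hl, ← htp, div_mul_cancel₀ _ this]
    simp only [hMm, hLm, Gs]
    rw [mul_assoc, ← Real.exp_add, e]
    congr 1
    · ring
    · congr 1; field_simp; ring
  have h4 : ∀ᶠ m in atTop, Mm (S m) < κ * Lm (S m) :=
    (((show Continuous Mm by fun_prop).tendsto _).comp hS1).eventually_lt
      ((((show Continuous Lm by fun_prop).tendsto _).comp hS1).const_mul κ)
      (by rw [← h3]; exact lt_mul_of_one_lt_left (M0 _) hκ)
  have h5 : ∀ᶠ m in atTop, 2 ^ P.toReal * (‖z‖ ^ P.toReal - S m) < (ρ / 2) ^ P.toReal / 2 :=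
    ((hS1.const_sub _).const_mul _).eventually (gt_mem_nhds (by simpa using q0))
  have h6 : ∀ᶠ n in atTop, 1 - ρ / 2 < r n := hr.eventually (lt_mem_nhds (by linarith))
  obtain ⟨m, h4, h5⟩ := (h4.and h5).exists
  set A := {n | m ≤ n ∧ 1 - ρ / 2 < r n ∧ dist (g.1 (x n)) (φ g) < δ / 2} with hA
  have hAU : ∀ᶠ n in hyperfilter ℕ, n ∈ A := ((eventually_ge_atTop m).filter_mono hU).and
    ((h6.filter_mono hU).and (Metric.tendsto_nhds.1 (hev g) _ (half_pos hδ)))
  obtain ⟨f, hf⟩ := exists_f hp z t l hk m A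
  have h7 : Lm (S m) ≤ ‖φ f‖ := by
    refine le_of_tendsto_of_tendsto (f := fun n => ((r n * t) ^ k * (t + r n * t) -
      2 * (‖z‖ ^ P.toReal - S m)) * Real.exp (l * (r n * S m))) (Tendsto.mono_left ?_ hU)
      (hev f).norm (hAU.mono fun n hn => ?_)
    · exact ((show Continuous fun r : ℝ => ((r * t) ^ k * (t + r * t) -
        2 * (‖z‖ ^ P.toReal - S m)) * Real.exp (l * (r * S m)) by fun_prop).tendsto 1).comp hr
    · obtain ⟨v, h8, h9⟩ := hf (x n)
      obtain ⟨i1, i2⟩ := lower hp z hz.le ht ht1 hk (fun n hn => hn.1) hn (r0 n) (r1 n).le h8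
      show _ ≤ ‖f.1 (x n)‖
      rw [h9, i2]
      exact mul_le_mul_of_nonneg_right i1 (Real.exp_pos _).le
  have h8 : Mm (S m) < κ * ‖φ f‖ := h4.trans_le (by gcongr)
  have h9 : 0 < ‖φ f‖ := (mul_pos_iff_of_pos_left (by linarith)).1 ((M0 _).trans h8)
  refine ⟨(φ f)⁻¹ • f, by rw [map_smul, smul_eq_mul, inv_mul_cancel₀ (norm_pos_iff.1 h9)],
    fun y => ?_⟩
  obtain ⟨v, i1, i2⟩ := hf y
  obtain ⟨i3, i4⟩ := h2 m A (fun n hn => hn.1) hAU.exists y.1 (mem_ball_zero_iff.1 y.2).le v i1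
    _ (Mm (S m)) i2 rfl
  rw [map_smul, norm_smul, norm_inv, delta_apply, delta_apply, inv_mul_le_iff₀ h9,
    lt_inv_mul_iff₀ h9]
  refine ⟨by linarith, fun h => ?_⟩
  obtain ⟨n, hn, i5⟩ := i4 (lt_of_le_of_lt (by
    linarith [mul_le_mul_of_nonneg_left h8.le h0]) h)
  have i6 : ‖y.1 - yy z t n‖ < ρ / 2 := by
    rw [← Real.rpow_lt_rpow_iff (norm_nonneg _) (by positivity) p0]
    exact i5.trans_lt (by linarith)
  have i7 : ‖yy z t n - (x n).1‖ ≤ ρ / 2 := by
    have e : yy z t n - (x n).1 = ((1 - r n : ℝ) : ℂ) • yy z t n := by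
      simp only [x]; push_cast; rw [sub_smul, one_smul]
    rw [e, norm_smul, Complex.norm_real, Real.norm_of_nonneg (by linarith [r1 n])]
    exact (mul_le_of_le_one_right (by linarith [r1 n]) (hy n)).trans (by linarith [hn.2.1])
  have i8 := hρ (a := y) (b := x n) (by
    rw [Subtype.dist_eq]
    refine (dist_triangle _ (yy z t n) _).trans_lt ?_
    rw [dist_eq_norm, dist_eq_norm]
    linarith)
  rw [← dist_eq_norm]
  linarith [dist_triangle (g.1 y) (g.1 (x n)) (φ g), hn.2.2]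

end Pool.Agent.H69.Sb
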