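import Mathlib
import Pool.Agent.H69.Sb6
import Pool.Agent.H69.Sb14

set_option autoImplicit false

namespace Pool.Agent.H69.Sb

open Metric Filter Topology Finset
open scoped ENNReal

theorem exists_lin {E : Type} [NormedAddCommGroup E] [NormedSpace ℂ E] (l : E →L[ℂ] ℂ) :
    ∃ f : Au E, ∀ x, f.1 x = l x :=
  exists_mk l l.differentiable (‖l‖ * 3) fun x hx => (l.le_opNorm x).trans (by
    gcongr; exact (mem_ball_zero_iff.1 hx).le)

theorem main_one (z : (X 1 →L[ℂ] ℂ) →L[ℂ] ℂ) (hz : ‖z‖ ≤ 1) : ∃ φ : Spec (X 1),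
    (∀ (l : X 1 →L[ℂ] ℂ) (f : Au (X 1)), (∀ x : ball (0 : X 1) 1, f.1 x = l x) → φ f = z l) ∧
      StrongBdry φ := by
  choose lin hl using exists_lin (E := X 1)
  have : ∀ B : Set ℕ, ∃ f : Au (X 1), ∀ x : ball (0 : X 1) 1,
      HasSum (fun n => B.indicator 1 n * x.1 n ^ 2) (f.1 x) := fun B => by
    obtain ⟨F, C, h1, h2, h3⟩ := exists_P0 (P := 1) (j := 2) (by simp) (by simp) _ (bd_one.ind B)
    obtain ⟨f, hf⟩ := exists_mk F h1 C h2
    exact ⟨f, fun x => by rw [hf]; exact h3 x⟩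
  choose sq hs using this
  have hd : Nm (delta (E := X 1)) := fun f C h => norm_le' h
  obtain ⟨φ, h1, h2⟩ := main1 (lin := lin) (sq := sq) hd hl hs z hz
  refine ⟨φ, fun l f hf => ?_, h2⟩
  rw [← h1 l, hd.ext (f := f) (g := lin l) fun x => (hf x).trans (hl l x).symm]

variable {P : ℝ≥0∞} [Fact (1 ≤ P)]

theorem core0 (hp : 1 < P.toReal) (z : X P) (hz : ‖z‖ ≤ 1) {ε : ℝ} (hε : 0 < ε) :
    ∃ γ : ℝ, 0 < γ ∧ ∀ (m : ℕ) (x : X P), ‖x‖ ≤ 1 → ∀ Φ M : ℝ,
      Φ = (∑ n ∈ range m, cf P.toReal (z n) * x n).re →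
      M = (∑ n ∈ range m, ‖z n‖ ^ P.toReal) * ((P.toReal - 1) / P.toReal) + 1 / P.toReal →
      Φ ≤ M ∧ (M - γ < Φ → ‖x - z‖ ^ P.toReal ≤
        ε + 2 ^ P.toReal * (‖z‖ ^ P.toReal - ∑ n ∈ range m, ‖z n‖ ^ P.toReal)) := by
  set p := P.toReal with hP
  have p0 : 0 < p := by linarith
  obtain ⟨C, hC, hD⟩ := Df_bound hp (half_pos hε)
  have C0 : 0 < C + 2 ^ p * p := by have : 0 < 2 ^ p * p := by positivity
                                    linarith
  refine ⟨ε / 2 / (C + 2 ^ p * p), by positivity, fun m x hx Φ M hΦ hM => ?_⟩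
  have hX := lp.hasSum_norm p0 x
  have hZ := lp.hasSum_norm p0 z
  have hY := lp.hasSum_norm p0 (x - z)
  rw [← hP] at hX hZ hY
  have hx1 : ‖x‖ ^ p ≤ 1 := Real.rpow_le_one (norm_nonneg _) hx p0.le
  have hz1 : ‖z‖ ^ p ≤ 1 := Real.rpow_le_one (norm_nonneg _) hz p0.le
  set s0 := ∑ j ∈ range m, ‖x j‖ ^ p with hs0
  set S := ∑ j ∈ range m, ‖z j‖ ^ p with hS
  have h1 : s0 ≤ ‖x‖ ^ p := lp.sum_rpow_le_norm_rpow p0 x _
  set Δ := ∑ j ∈ range m, Df p (z j) (x j) with hΔ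
  have Δ0 : 0 ≤ Δ := sum_nonneg fun j _ => (hD _ _).1
  have h6 : Φ = M - ((1 - s0) / p + Δ) := by
    simp only [hΦ, hM, hΔ, Df, sum_sub_distrib, sum_add_distrib, Complex.re_sum, ← sum_mul,
      ← sum_div, ← hS, ← hs0]
    ring
  have ρ0 : 0 ≤ (1 - s0) / p := div_nonneg (by linarith) p0.le
  refine ⟨by linarith, fun h => ?_⟩
  have h13 := hasSum_le (fun j => ?_) hY
    (((hs_lt (fun j => C * Df p (z j) (x j) + ε / 2 * ‖z j‖ ^ p) m).add
    ((hX.sub (hs_lt (fun j => ‖x j‖ ^ p) m)).mul_left (2 ^ p))).add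
      ((hZ.sub (hs_lt (fun j => ‖z j‖ ^ p) m)).mul_left (2 ^ p)))
  · rw [sum_add_distrib, ← mul_sum, ← mul_sum, ← hΔ, ← hS, ← hs0] at h13
    have i1 : S ≤ ‖z‖ ^ p := lp.sum_rpow_le_norm_rpow p0 z _
    have i2 : ε / 2 * S ≤ ε / 2 := mul_le_of_le_one_right (by positivity) (by linarith)
    have i3 : (C + 2 ^ p * p) * ((1 - s0) / p + Δ) ≤ ε / 2 := by
      rw [mul_comm, ← le_div_iff₀ C0]; linarith
    have i4 : (C + 2 ^ p * p) * ((1 - s0) / p + Δ) = C * Δ + 2 ^ p * (1 - s0) +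
        (C * ((1 - s0) / p) + 2 ^ p * p * Δ) := by field_simp; ring
    have i5 : 0 ≤ C * ((1 - s0) / p) := mul_nonneg (by linarith) ρ0
    have i6 : 0 ≤ 2 ^ p * p * Δ := by positivity
    have i7 := mul_le_mul_of_nonneg_left hx1 (show (0 : ℝ) ≤ 2 ^ p by positivity)
    linarith
  · rw [lp.coeFn_sub, Pi.sub_apply]
    by_cases h15 : j < m
    · simp only [if_pos h15]
      linarith [(hD (z j) (x j)).2]
    · simp only [if_neg h15]
      linarith [sub_rpow p0 (x j) (z j)]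

theorem main0 (hp : 1 < P.toReal) (z : X P) (hz : ‖z‖ = 1) :
    ∃ φ ∈ fiber z, StrongBdry φ := by
  have p0 : 0 < P.toReal := by linarith
  obtain ⟨r, r0, r1, hr⟩ : ∃ r : ℕ → ℝ, (∀ n, 0 ≤ r n) ∧ (∀ n, r n < 1) ∧
      Tendsto r atTop (𝓝 1) := by
    refine ⟨fun n => 1 - 1 / ((n : ℝ) + 1), fun n => sub_nonneg.2 ?_,
      fun n => sub_lt_self _ (by positivity), ?_⟩
    · rw [div_le_one (by positivity)]; simp
    · simpa using (tendsto_one_div_add_atTop_nhds_zero_nat (𝕜 := ℝ)).const_sub 1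
  let x : ℕ → ball (0 : X P) 1 := fun n => ⟨(r n : ℂ) • z, by
    rw [mem_ball_zero_iff, norm_smul, Complex.norm_real, Real.norm_of_nonneg (r0 n), hz, mul_one]
    exact r1 n⟩
  obtain ⟨φ, -, hφ⟩ := isCompact_univ.ultrafilter_le_nhds
    ((hyperfilter ℕ).map fun n => delta (x n)) (by simp)
  have hU := Nat.hyperfilter_le_atTop
  have hev : ∀ f : Au (X P), Tendsto (fun n => f.1 (x n)) (hyperfilter ℕ) (𝓝 (φ f)) := fun f =>
    ((cont_ev f).tendsto φ).comp hφ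
  have hfib : φ ∈ fiber z := fun l f hf => tendsto_nhds_unique (hev f) (Tendsto.mono_left (by
    simp only [hf, x, map_smul, smul_eq_mul]
    simpa using ((Complex.continuous_ofReal.tendsto 1).comp hr).mul_const (l z)) hU)
  refine ⟨φ, hfib, strong_of (d := delta) (fun f C h => norm_le' h) φ fun g δ hδ => ?_⟩
  obtain ⟨ρ, ρ0, hρ⟩ := Metric.uniformContinuous_iff.1 g.2.1 (δ / 2) (half_pos hδ)
  have q0 : 0 < (ρ / 2) ^ P.toReal / 2 := by positivity
  obtain ⟨γ, h0, h2⟩ := core0 hp z hz.le q0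
  refine ⟨Real.exp (-γ), (Real.exp_pos _).le, Real.exp_lt_one_iff.2 (by linarith),
    fun κ hκ => ?_⟩
  set S : ℕ → ℝ := fun m => ∑ n ∈ range m, ‖z n‖ ^ P.toReal with hS'
  have hS1 : Tendsto S atTop (𝓝 (‖z‖ ^ P.toReal)) := (lp.hasSum_norm p0 z).tendsto_sum_nat
  have h4 : ∀ᶠ m in atTop, S m * ((P.toReal - 1) / P.toReal) + 1 / P.toReal - S m < Real.log κ :=
    (((hS1.mul_const _).add_const _).sub hS1).eventually (gt_mem_nhds (by
      rw [hz, Real.one_rpow]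
      refine lt_of_eq_of_lt ?_ (Real.log_pos hκ)
      field_simp
      ring))
  have h5 : ∀ᶠ m in atTop, 2 ^ P.toReal * (‖z‖ ^ P.toReal - S m) < (ρ / 2) ^ P.toReal / 2 :=
    ((hS1.const_sub _).const_mul _).eventually (gt_mem_nhds (by simpa using q0))
  obtain ⟨m, h4, h5⟩ := (h4.and h5).exists
  obtain ⟨n, n1, n2⟩ := (((hr.eventually (lt_mem_nhds (show 1 - ρ / 2 < 1 by linarith))).filter_mono
    hU).and (Metric.tendsto_nhds.1 (hev g) _ (half_pos hδ))).exists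
  let L : X P →L[ℂ] ℂ := ∑ n ∈ range m, cf P.toReal (z n) • lp.evalCLM ℂ _ P n
  have hL : ∀ x, L x = ∑ n ∈ range m, cf P.toReal (z n) * x n := fun x => by
    simp only [L, ContinuousLinearMap.smul_apply, ContinuousLinearMap.sum_apply, smul_eq_mul]
    rfl
  obtain ⟨f, hf⟩ := exists_lin L
  have h6 : φ f = S m := by
    rw [hfib L f hf, hL, hS']
    simp only [cf_mul p0]
    push_cast
    rfl
  have e : ∀ ψ : Spec (X P), ψ (NormedSpace.exp (f - algebraMap ℂ _ (S m))) =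
      Complex.exp (ψ f - S m) := fun ψ => by
    rw [ch_exp, map_sub, AlgHomClass.commutes]; rfl
  refine ⟨NormedSpace.exp (f - algebraMap ℂ _ (S m)), by rw [e, h6, sub_self, Complex.exp_zero],
    fun y => ?_⟩
  obtain ⟨i3, i4⟩ := h2 m y.1 (mem_ball_zero_iff.1 y.2).le _ _ rfl rfl
  rw [e, Complex.norm_exp, delta_apply, delta_apply, hf, hL, Complex.sub_re, Complex.ofReal_re,
    ← Real.exp_log (show 0 < κ by linarith), ← Real.exp_add, Real.exp_le_exp, Real.exp_lt_exp]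
  refine ⟨by linarith, fun h => ?_⟩
  have i5 := i4 (by linarith)
  have i6 : ‖y.1 - z‖ < ρ / 2 := by
    rw [← Real.rpow_lt_rpow_iff (norm_nonneg _) (by positivity) p0]
    exact i5.trans_lt (by linarith)
  have i7 : ‖z - (x n).1‖ ≤ ρ / 2 := by
    have e : z - (x n).1 = ((1 - r n : ℝ) : ℂ) • z := by
      simp only [x]; push_cast; rw [sub_smul, one_smul]
    rw [e, norm_smul, Complex.norm_real, Real.norm_of_nonneg (by linarith [r1 n]), hz]
    linarith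
  have i8 := hρ (a := y) (b := x n) (by
    rw [Subtype.dist_eq]
    refine (dist_triangle _ z _).trans_lt ?_
    rw [dist_eq_norm, dist_eq_norm]
    linarith)
  rw [← dist_eq_norm]
  linarith [dist_triangle (g.1 y) (g.1 (x n)) (φ g)]

end Pool.Agent.H69.Sb
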