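import Mathlib

/-! The algebra of uniformly continuous holomorphic functions on the unit ball, its spectrum,
fibers and strong boundary points. -/

set_option autoImplicit false

namespace Pool.Agent.H69.Sc

open Metric Filter Topology BoundedContinuousFunction

variable (E : Type) [NormedAddCommGroup E] [NormedSpace ℂ E]

/-- The open unit ball. -/
def Bl : Type := ball (0 : E) 1

noncomputable instance instBl : MetricSpace (Bl E) := Subtype.metricSpace

/-- Bounded continuous functions on the ball, with the sup norm. -/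
def BC : Type := Bl E →ᵇ ℂ

noncomputable instance instBC : NormedCommRing (BC E) :=
  BoundedContinuousFunction.instNormedCommRing

noncomputable instance instBCa : NormedAlgebra ℂ (BC E) :=
  BoundedContinuousFunction.instNormedAlgebra

variable {E} in
/-- The value of a function at a point of the ball. -/
noncomputable def BC.ap (f : BC E) (x : Bl E) : ℂ := BoundedContinuousFunction.toContinuousMap f x

variable {E} in
/-- Uniformly continuous and holomorphic on the ball. -/
def Hol (f : BC E) : Prop := UniformContinuous f.ap ∧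
  ∃ F : E → ℂ, DifferentiableOn ℂ F (ball 0 1) ∧ ∀ x : Bl E, f.ap x = F x.1

/-- The subalgebra of uniformly continuous holomorphic functions. -/
def AuS : Subalgebra ℂ (BC E) where
  carrier := {f | Hol f}
  mul_mem' := by
    rintro f g ⟨h1, F, h2, h3⟩ ⟨h4, G, h5, h6⟩
    refine ⟨?_, F * G, h2.mul h5, fun x => congrArg₂ (· * ·) (h3 x) (h6 x)⟩
    have := (((isCompact_closedBall (0 : ℂ) ‖f‖).prod (isCompact_closedBall (0 : ℂ) ‖g‖)
      ).uniformContinuousOn_of_continuous continuous_mul.continuousOn).comp
      (uniformContinuousOn_univ.2 (h1.prodMk h4)) fun x _ =>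
        ⟨mem_closedBall_zero_iff.2 (f.norm_coe_le_norm x),
          mem_closedBall_zero_iff.2 (g.norm_coe_le_norm x)⟩
    exact uniformContinuousOn_univ.1 this
  add_mem' := by
    rintro f g ⟨h1, F, h2, h3⟩ ⟨h4, G, h5, h6⟩
    exact ⟨h1.add h4, F + G, h2.add h5, fun x => congrArg₂ (· + ·) (h3 x) (h6 x)⟩
  algebraMap_mem' c := ⟨uniformContinuous_const, fun _ => c, differentiableOn_const c,
    fun x => by
      show algebraMap ℂ (Bl E →ᵇ ℂ) c x = c
      simp⟩

/-- `A_u(B_E)`. -/
def Au : Type := AuS E

noncomputable instance instAu : NormedCommRing (Au E) := Subalgebra.normedCommRing (AuS E)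

noncomputable instance instAua : NormedAlgebra ℂ (Au E) := Subalgebra.toNormedAlgebra (AuS E)

/-- The spectrum. -/
def Spec : Type := WeakDual.characterSpace ℂ (Au E)

/-- The weak-star topology. -/
noncomputable instance instSpec : TopologicalSpace (Spec E) := instTopologicalSpaceSubtype

variable {E}

/-- The value of a character. -/
noncomputable def Spec.ap (φ : Spec E) (f : Au E) : ℂ := WeakDual.CharacterSpace.toCLM φ f

/-- The fiber over a point `z` of the bidual: the characters whose restriction to the dual space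
is `z`. -/
def fiber (z : (E →L[ℂ] ℂ) → ℂ) : Set (Spec E) :=
  {φ | ∀ (l : E →L[ℂ] ℂ) (f : Au E), (∀ x : Bl E, f.1.ap x = l x.1) → φ.ap f = z l}

/-- Strong boundary points. -/
def StrongBdry (φ : Spec E) : Prop :=
  ∀ U ∈ 𝓝 φ, ∀ ε : ℝ, 0 < ε →
    ∃ f : Au E, ‖f‖ = 1 ∧ φ.ap f = 1 ∧ ∀ ψ : Spec E, ψ ∉ U → ‖ψ.ap f‖ < ε

variable (E) in
/-- Every fiber over the closed unit ball of the bidual contains a strong boundary point. -/
def AllFibers : Prop :=
  ∀ z : (E →L[ℂ] ℂ) →L[ℂ] ℂ, ‖z‖ ≤ 1 → ∃ φ ∈ fiber (fun l => z l), StrongBdry φ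

/-- The complex sequence space `ℓ_p`. -/
def Lp (p : ENNReal) : Type := lp (fun _ : ℕ => ℂ) p

noncomputable instance instLp (p : ENNReal) [Fact (1 ≤ p)] : NormedAddCommGroup (Lp p) :=
  lp.normedAddCommGroup

noncomputable instance instLps (p : ENNReal) [Fact (1 ≤ p)] : NormedSpace ℂ (Lp p) :=
  lp.instNormedSpace

end Pool.Agent.H69.Sc
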