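import Pool.Agent.H69.SchDefs

set_option autoImplicit false

namespace Pool.Agent.H69.Sch

open SimpleGraph

section gen
variable {X : Type}

theorem pre_zero (ξ : ℕ → X) : pre ξ 0 = [] := by simp [pre]

theorem pre_succ (ξ : ℕ → X) (n : ℕ) : pre ξ (n + 1) = ξ 0 :: pre (fun k => ξ (k + 1)) n := by
  simp [pre, List.ofFn_succ]

theorem pre_succ' (ξ : ℕ → X) (n : ℕ) : pre ξ (n + 1) = pre ξ n ++ [ξ n] := by
  simp [pre, List.ofFn_succ', List.concat_eq_append, -List.ofFn_succ]

theorem pre_inj {ξ η : ℕ → X} (h : ∀ n, pre ξ n = pre η n) : ξ = η := by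
  funext n
  have := h (n + 1)
  rw [pre_succ', pre_succ', h n] at this
  simpa using this

theorem Maps.uniq {g : Equiv.Perm (List X)} {ξ η η' : ℕ → X} (h : Maps g ξ η) (h' : Maps g ξ η') :
    η = η' := pre_inj (fun n => (h n).symm.trans (h' n))

theorem Maps.inv {g : Equiv.Perm (List X)} {ξ η : ℕ → X} (h : Maps g ξ η) : Maps g⁻¹ η ξ :=
  fun n => by rw [← h n]; simp

theorem IsTreeAut.ex {g : Equiv.Perm (List X)} (h : IsTreeAut g) (ξ : ℕ → X) :
    ∃ η, Maps g ξ η := by
  choose y hy using h.2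
  refine ⟨fun n => y (pre ξ n) (ξ n), fun n => ?_⟩
  induction n with
  | zero => rw [pre_zero, pre_zero, h.1]
  | succ n ih => rw [pre_succ', hy, ih, pre_succ']

variable (S : Set (Equiv.Perm (List X))) (ξ : ℕ → X)

theorem self_mem (n : ℕ) : ξ ∈ ball S ξ n := by simp [ball]

theorem ball_step {n : ℕ} {u v : ℕ → X} (hu : u ∈ ball S ξ n) (h : (schreier S).Adj u v) :
    v ∈ ball S ξ (n + 1) := by
  have h1 := (schreier S).edist_triangle (u := ξ) (v := u) (w := v)
  rw [edist_eq_one_iff_adj.2 h] at h1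
  refine h1.trans ?_
  push_cast
  exact add_le_add_left hu 1

theorem ball_mono {n m : ℕ} (h : n ≤ m) : ball S ξ n ⊆ ball S ξ m :=
  fun v (hv : (schreier S).edist ξ v ≤ n) =>
    show (schreier S).edist ξ v ≤ m from le_trans hv (Nat.cast_le.2 h)

theorem ball_zero {v : ℕ → X} (h : v ∈ ball S ξ 0) : v = ξ := by
  have : (schreier S).edist ξ v ≤ 0 := h
  exact (edist_eq_zero_iff.1 (le_zero_iff.1 this)).symm

theorem ball_succ {n : ℕ} {v : ℕ → X} (h : v ∈ ball S ξ (n + 1)) :
    v = ξ ∨ ∃ u ∈ ball S ξ n, (schreier S).Adj u v := by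
  obtain ⟨p, hp⟩ := exists_walk_of_edist_ne_top (G := schreier S) (u := v) (v := ξ) (by
    rw [edist_comm]; exact ne_top_of_le_ne_top (ENat.coe_ne_top _) h)
  cases p with
  | nil => exact Or.inl rfl
  | cons h1 q =>
    refine Or.inr ⟨_, ?_, h1.symm⟩
    have h2 := edist_le q
    have h3 : (schreier S).edist ξ v ≤ (n + 1 : ℕ) := h
    rw [edist_comm, ← hp] at h3
    simp only [Walk.length_cons, Nat.cast_le, add_le_add_iff_right] at h3
    show (schreier S).edist ξ _ ≤ n
    rw [edist_comm]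
    exact h2.trans (by exact_mod_cast h3)

theorem ball_fin (hS : S.Finite) (n : ℕ) : (ball S ξ n).Finite := by
  have nb : ∀ u, {v | (schreier S).Adj u v}.Finite := by
    intro u
    have h1 : ∀ s : Equiv.Perm (List X), {v | Maps s u v}.Finite := fun s =>
      Set.Subsingleton.finite (fun _ h _ h' => Maps.uniq h h')
    refine (hS.biUnion (fun s _ => (h1 s).union (h1 s⁻¹))).subset (fun v hv => ?_)
    simp only [Set.mem_iUnion]
    have hv' : (schreier S).Adj u v := hv
    obtain ⟨-, ⟨s, h2, h3⟩ | ⟨s, h2, h3⟩⟩ := (fromRel_adj _ u v).1 hv'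
    · exact ⟨s, h2, Or.inl h3⟩
    · exact ⟨s, h2, Or.inr h3.inv⟩
  induction n with
  | zero => exact (Set.finite_singleton ξ).subset (fun v hv => ball_zero S ξ hv)
  | succ n ih =>
    refine ((ih.biUnion (fun u _ => nb u)).insert ξ).subset (fun v hv => ?_)
    rcases ball_succ S ξ hv with h | ⟨u, h1, h2⟩
    · exact Or.inl h
    · right
      simp only [Set.mem_iUnion]
      exact ⟨u, h1, h2⟩

theorem reach_of (hT : ∀ g ∈ Subgroup.closure S, IsTreeAut g) (g : Equiv.Perm (List X))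
    (hg : g ∈ Subgroup.closure S) : ∀ ξ η, Maps g ξ η → (schreier S).Reachable ξ η := by
  induction hg using Subgroup.closure_induction with
  | mem s hs =>
    intro ξ η h
    by_cases he : ξ = η
    · rw [he]
    · exact Adj.reachable ((fromRel_adj _ _ _).2 ⟨he, Or.inl ⟨s, hs, h⟩⟩)
  | one => intro ξ η h; rw [pre_inj h]
  | mul x y _ hy ihx ihy =>
    intro ξ η h
    obtain ⟨ζ, h1⟩ := (hT y hy).ex ξ
    exact (ihy _ _ h1).trans (ihx _ _ (fun n => by rw [← h1 n]; exact h n))
  | inv x _ ih => intro ξ η h; exact (ih _ _ (by simpa using h.inv)).symm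

theorem ball_grow (hS : S.Finite) (hi : {η | (schreier S).Reachable ξ η}.Infinite) (n : ℕ) :
    n + 1 ≤ (ball S ξ n).ncard := by
  induction n with
  | zero => exact (Set.ncard_pos (ball_fin S ξ hS 0)).2 ⟨ξ, self_mem S ξ 0⟩
  | succ n ih =>
    refine Nat.succ_le_of_lt (lt_of_le_of_lt ih (Set.ncard_lt_ncard
      ⟨ball_mono S ξ (Nat.le_succ n), fun hsub => hi ((ball_fin S ξ hS n).subset ?_)⟩
      (ball_fin S ξ hS _)))
    intro η hη
    rw [Set.mem_ofPred_eq, reachable_iff_reflTransGen] at hη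
    induction hη with
    | refl => exact self_mem S ξ n
    | tail _ h ih => exact hsub (ball_step S ξ ih h)

theorem one_le {α : ℝ} (h : α ∈ degrees) : 1 ≤ α := by
  obtain ⟨-, X, _, -, L, S, ξ, h1, rfl, h3, h4⟩ := h
  refine ge_of_tendsto h4 ?_
  filter_upwards [Filter.eventually_ge_atTop 2] with n hn
  have h5 := ball_grow _ ξ S.finite_toSet
    (h3.mono (fun η hη => by obtain ⟨g, a1, a2⟩ := hη; exact reach_of _ h1.1 g a1 _ _ a2)) n
  have h6 : (1 : ℝ) < n := by exact_mod_cast hn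
  rw [le_div_iff₀ (Real.log_pos h6), one_mul]
  refine Real.log_le_log (by linarith) ?_
  exact_mod_cast (Nat.le_succ n).trans h5

theorem orb_of (hT : ∀ g ∈ Subgroup.closure S, IsTreeAut g) (n : ℕ) :
    ball S ξ n ⊆ {η | ∃ g ∈ Subgroup.closure S, Maps g ξ η} := by
  induction n with
  | zero => intro v hv; rw [ball_zero S ξ hv]; exact ⟨1, one_mem _, fun _ => rfl⟩
  | succ n ih =>
    intro v hv
    rcases ball_succ S ξ hv with rfl | ⟨u, h1, h2⟩
    · exact ⟨1, one_mem _, fun _ => rfl⟩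
    · obtain ⟨g, a1, a2⟩ := ih h1
      obtain ⟨-, ⟨s, h2, h3⟩ | ⟨s, h2, h3⟩⟩ := (fromRel_adj _ _ _).1 h2
      · exact ⟨s * g, mul_mem (Subgroup.subset_closure h2) a1, fun k => by
          rw [Equiv.Perm.mul_apply, a2, h3]⟩
      · exact ⟨s⁻¹ * g, mul_mem (inv_mem (Subgroup.subset_closure h2)) a1, fun k => by
          rw [Equiv.Perm.mul_apply, a2, h3.inv]⟩

end gen

theorem lim (u : ℕ → ℝ) (α C : ℝ) (h : ∀ᶠ n : ℕ in Filter.atTop, |u n - α * Real.log n| ≤ C) :
    Filter.Tendsto (fun n : ℕ => u n / Real.log n) Filter.atTop (nhds α) := by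
  have h1 : Filter.Tendsto (fun n : ℕ => Real.log n) Filter.atTop Filter.atTop :=
    Real.tendsto_log_atTop.comp tendsto_natCast_atTop_atTop
  have h2 : Filter.Tendsto (fun n : ℕ => C / Real.log n) Filter.atTop (nhds 0) :=
    h1.const_div_atTop C
  have h3 : Filter.Tendsto (fun n : ℕ => u n / Real.log n - α) Filter.atTop (nhds 0) := by
    refine squeeze_zero_norm' ?_ h2
    filter_upwards [h, h1.eventually_gt_atTop 0] with n a1 a2
    rw [show u n / Real.log n - α = (u n - α * Real.log n) / Real.log n by field_simp,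
      Real.norm_eq_abs, abs_div, abs_of_pos a2]
    exact div_le_div_of_nonneg_right a1 a2.le
  simpa using h3.add_const α

end Pool.Agent.H69.Sch
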