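import Pool.Agent.H69.Sch1

set_option autoImplicit false

namespace Pool.Agent.H69.Sch

open SimpleGraph

section con
variable {Y : Type} [Ring Y] [DecidableEq Y]

def A (c : Bool) : Equiv.Perm Y := if c then Equiv.addRight 1 else Equiv.swap 0 1

def af (B : Bool → Equiv.Perm Y) : List (Bool × Y) → List (Bool × Y)
  | [] => []
  | x :: w => (x.1, B x.1 x.2) :: w

def bf (u : List (Bool × Y) → List (Bool × Y)) : List (Bool × Y) → List (Bool × Y)
  | [] => []
  | x :: w => x :: (if x.2 = 0 then u w else if x.2 = 1 then bf u w else w)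

def ga : Equiv.Perm (List (Bool × Y)) where
  toFun := af A
  invFun := af (fun c => (A c)⁻¹)
  left_inv w := by cases w <;> simp [af]
  right_inv w := by cases w <;> simp [af]

theorem bf_bf (u v : List (Bool × Y) → List (Bool × Y)) (h : ∀ w, u (v w) = w) :
    ∀ w, bf u (bf v w) = w
  | [] => rfl
  | x :: w => by
    simp only [bf]
    split_ifs
    · rw [h]
    · rw [bf_bf u v h w]
    · rfl

def gb : Equiv.Perm (List (Bool × Y)) where
  toFun := bf ga
  invFun := bf ga.symm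
  left_inv := bf_bf _ _ ga.left_inv
  right_inv := bf_bf _ _ ga.right_inv

def SS : Set (Equiv.Perm (List (Bool × Y))) := {ga, gb}

theorem ss0 (g : Equiv.Perm (List (Bool × Y))) (hg : g ∈ Subgroup.closure (SS (Y := Y))) :
    g [] = [] ∧ ∀ x, ∃ h ∈ Subgroup.closure (SS (Y := Y)), ∃ y, ∀ w, g (x :: w) = y :: h w := by
  have ha : ga ∈ Subgroup.closure (SS (Y := Y)) := Subgroup.subset_closure (Or.inl rfl)
  have hb : gb ∈ Subgroup.closure (SS (Y := Y)) := Subgroup.subset_closure (Or.inr rfl)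
  induction hg using Subgroup.closure_induction'' with
  | mem s hs =>
    rcases hs with rfl | rfl
    · exact ⟨rfl, fun x => ⟨1, one_mem _, _, fun w => rfl⟩⟩
    · refine ⟨rfl, fun x => ⟨if x.2 = 0 then ga else if x.2 = 1 then gb else 1, ?_, x, fun w => ?_⟩⟩
      · split_ifs
        exacts [ha, hb, one_mem _]
      · show bf ga (x :: w) = _
        simp only [bf]; split_ifs <;> rfl
  | inv_mem s hs =>
    rcases hs with rfl | rfl
    · exact ⟨rfl, fun x => ⟨1, one_mem _, _, fun w => rfl⟩⟩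
    · refine ⟨rfl, fun x => ⟨if x.2 = 0 then ga⁻¹ else if x.2 = 1 then gb⁻¹ else 1, ?_, x,
        fun w => ?_⟩⟩
      · split_ifs
        exacts [inv_mem ha, inv_mem hb, one_mem _]
      · show bf ga.symm (x :: w) = _
        simp only [bf]; split_ifs <;> rfl
  | one => exact ⟨rfl, fun x => ⟨1, one_mem _, x, fun w => rfl⟩⟩
  | mul g g' _ _ ih ih' =>
    refine ⟨by rw [Equiv.Perm.mul_apply, ih'.1, ih.1], fun x => ?_⟩
    obtain ⟨h', a1, y, a2⟩ := ih'.2 x
    obtain ⟨h, a3, z, a4⟩ := ih.2 y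
    exact ⟨h * h', mul_mem a3 a1, z, fun w => by rw [Equiv.Perm.mul_apply, a2, a4]; rfl⟩

theorem selfsim : SelfSimilar (Subgroup.closure (SS (Y := Y))) := by
  refine ⟨fun g hg => ⟨(ss0 g hg).1, fun w x => ?_⟩, fun g hg => (ss0 g hg).2⟩
  induction w generalizing g with
  | nil =>
    obtain ⟨h, a1, y, a2⟩ := (ss0 g hg).2 x
    exact ⟨y, by rw [List.nil_append, a2, (ss0 g hg).1, (ss0 h a1).1]; rfl⟩
  | cons z w ih =>
    obtain ⟨h, a1, y, a2⟩ := (ss0 g hg).2 z
    obtain ⟨y', a3⟩ := ih h a1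
    exact ⟨y', by rw [List.cons_append, a2, a2, a3]; rfl⟩

def U (j : ℕ) (ξ : ℕ → Bool × Y) : ℕ → Bool × Y :=
  Function.update ξ j ((ξ j).1, A (ξ j).1 (ξ j).2)

def Pt (i : ℕ) (ξ : ℕ → Bool × Y) : Prop := (∀ k < i, (ξ k).2 = 1) ∧ (ξ i).2 = 0

def Act (j : ℕ) (ξ : ℕ → Bool × Y) : Prop := j = 0 ∨ ∃ i, j = i + 1 ∧ Pt i ξ

theorem mapsA (ξ : ℕ → Bool × Y) : Maps ga ξ (U 0 ξ) := by
  intro n
  cases n with
  | zero => rfl
  | succ n => rw [pre_succ, pre_succ]; simp [U, ga, af]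

theorem mapsB (h01 : (1 : Y) ≠ 0) (i : ℕ) : ∀ ξ : ℕ → Bool × Y, Pt i ξ →
    Maps gb ξ (U (i + 1) ξ) := by
  induction i with
  | zero =>
    intro ξ h n
    cases n with
    | zero => rfl
    | succ n =>
      rw [pre_succ, pre_succ]
      show bf ga _ = _
      simp only [bf, h.2, if_true]
      rw [mapsA _ n]
      congr 2
      funext k
      simp [U, Function.update_apply]
  | succ i ih =>
    intro ξ h n
    cases n with
    | zero => rfl
    | succ n =>
      rw [pre_succ, pre_succ]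
      show bf ga _ = _
      simp only [bf, h.1 0 (Nat.succ_pos _), h01, if_true, if_false]
      have := ih (fun k => ξ (k + 1)) ⟨fun k hk => h.1 _ (Nat.succ_lt_succ hk), h.2⟩ n
      rw [show bf ga _ = _ from this]
      congr 2
      funext k
      simp [U, Function.update_apply]

theorem mapsB' (n : ℕ) : ∀ ξ : ℕ → Bool × Y, (∀ i, ¬ Pt i ξ) → gb (pre ξ n) = pre ξ n := by
  induction n with
  | zero => intro _ _; rfl
  | succ n ih =>
    intro ξ h
    rw [pre_succ]
    show bf ga _ = _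
    simp only [bf]
    rw [if_neg (fun h0 => h 0 ⟨fun k hk => absurd hk (Nat.not_lt_zero _), h0⟩)]
    split_ifs with h1
    · refine congrArg _ (ih _ (fun i hi => h (i + 1) ⟨fun k hk => ?_, hi.2⟩))
      cases k with
      | zero => exact h1
      | succ k => exact hi.1 k (Nat.lt_of_succ_lt_succ hk)
    · rfl

theorem maps_cases (h01 : (1 : Y) ≠ 0) {s : Equiv.Perm (List (Bool × Y))} (hs : s ∈ SS (Y := Y))
    {ξ η : ℕ → Bool × Y} (h : Maps s ξ η) (hne : ξ ≠ η) : ∃ j, Act j ξ ∧ η = U j ξ := by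
  rcases hs with rfl | rfl
  · exact ⟨0, Or.inl rfl, h.uniq (mapsA ξ)⟩
  · by_cases hi : ∃ i, Pt i ξ
    · obtain ⟨i, hi⟩ := hi
      exact ⟨i + 1, Or.inr ⟨i, rfl, hi⟩, h.uniq (mapsB h01 i ξ hi)⟩
    · exact (hne (Maps.uniq (fun n => mapsB' n ξ (fun i h => hi ⟨i, h⟩)) h)).elim

theorem adj_cases (h01 : (1 : Y) ≠ 0) {ξ η : ℕ → Bool × Y} (h : (schreier SS).Adj ξ η) :
    ∃ j, (Act j ξ ∧ η = U j ξ) ∨ (Act j η ∧ ξ = U j η) := by
  obtain ⟨hne, ⟨s, h2, h3⟩ | ⟨s, h2, h3⟩⟩ := (fromRel_adj _ _ _).1 h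
  · obtain ⟨j, hj⟩ := maps_cases h01 h2 h3 hne
    exact ⟨j, Or.inl hj⟩
  · obtain ⟨j, hj⟩ := maps_cases h01 h2 h3 hne.symm
    exact ⟨j, Or.inr hj⟩

theorem edist_U (h01 : (1 : Y) ≠ 0) {j : ℕ} {ξ : ℕ → Bool × Y} (h : Act j ξ) :
    (schreier SS).edist ξ (U j ξ) ≤ 1 := by
  rw [edist_le_one_iff_adj_or_eq, or_iff_not_imp_right]
  intro hne
  refine (fromRel_adj _ _ _).2 ⟨hne, Or.inl ?_⟩
  rcases h with rfl | ⟨i, rfl, hi⟩
  · exact ⟨ga, Or.inl rfl, mapsA ξ⟩
  · exact ⟨gb, Or.inr rfl, mapsB h01 i ξ hi⟩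

theorem Act.congr {j : ℕ} {ξ η : ℕ → Bool × Y} (h : Act j ξ) (he : ∀ k < j, η k = ξ k) :
    Act j η := by
  rcases h with rfl | ⟨i, rfl, hi⟩
  · exact Or.inl rfl
  · exact Or.inr ⟨i, rfl, fun k hk => by rw [he k (by omega)]; exact hi.1 k hk,
      by rw [he i (by omega)]; exact hi.2⟩

theorem edist_pow (h01 : (1 : Y) ≠ 0) {j : ℕ} {ξ : ℕ → Bool × Y} (h : Act j ξ) (e : ℕ) :
    (schreier SS).edist ξ (Function.update ξ j ((ξ j).1, (A (ξ j).1 ^ e) (ξ j).2)) ≤ e := by
  induction e with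
  | zero => simp
  | succ e ih =>
    have h1 := edist_U h01 (h.congr (η := Function.update ξ j ((ξ j).1, (A (ξ j).1 ^ e) (ξ j).2))
      (fun k hk => Function.update_of_ne hk.ne _ _))
    simp only [U, Function.update_self, Function.update_idem] at h1
    rw [pow_succ', Equiv.Perm.mul_apply]
    push_cast
    exact ((schreier SS).edist_triangle).trans (add_le_add ih h1)

def hh : ℕ → (ℕ → Bool × Y) → ℤ
  | 0, _ => 0
  | m + 1, ξ => if (ξ m).2 = 0 then 2 ^ m - 1 - hh m ξ else 2 ^ m + hh m ξ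

theorem hh_one (h01 : (1 : Y) ≠ 0) (ξ : ℕ → Bool × Y) (m : ℕ) (h : ∀ k < m, (ξ k).2 = 1) :
    hh m ξ = 2 ^ m - 1 := by
  induction m with
  | zero => simp [hh]
  | succ m ih =>
    simp only [hh, h m (Nat.lt_succ_self m), h01, if_false, ih (fun k hk => h k (by omega))]
    ring

theorem hh_act0 (h01 : (1 : Y) ≠ 0) {ξ : ℕ → Bool × Y} {m : ℕ} (h : Act m ξ) : hh m ξ = 0 := by
  rcases h with rfl | ⟨i, rfl, hi⟩
  · rfl
  · simp [hh, hi.2, hh_one h01 ξ i hi.1]

theorem hh_act (h01 : (1 : Y) ≠ 0) {ξ : ℕ → Bool × Y} {j m : ℕ} (h : Act j ξ) (hm : m ≤ j) :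
    hh m ξ = 0 ∨ hh m ξ = 2 ^ m - 1 := by
  rcases hm.lt_or_eq with hm | rfl
  · rcases h with rfl | ⟨i, rfl, hi⟩
    · omega
    · exact Or.inr (hh_one h01 ξ m (fun k hk => hi.1 k (by omega)))
  · exact Or.inl (hh_act0 h01 h)

theorem hh_lip (h01 : (1 : Y) ≠ 0) {ξ η : ℕ → Bool × Y} {j : ℕ} (h : Act j ξ)
    (he : ∀ k, k ≠ j → η k = ξ k) (m : ℕ) : |hh m ξ - hh m η| ≤ 1 := by
  induction m with
  | zero => simp [hh]
  | succ m ih =>
    rw [abs_le] at ih ⊢
    by_cases hm : m = j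
    · subst hm
      simp only [hh, hh_act0 h01 h, hh_act0 h01 (h.congr (fun k hk => he k hk.ne))]
      split_ifs <;> omega
    · simp only [hh, he m hm]
      split_ifs <;> omega

variable (ω : ℕ → Bool)

def W : Set (ℕ → Bool × Y) := {η | ∀ k, (η k).1 = ω k ∧ (ω k = false → (η k).2 = 0 ∨ (η k).2 = 1)}

def x0 : ℕ → Bool × Y := fun k => (ω k, 0)

def Blk (m : ℕ) : Set (ℕ → Bool × Y) := {η | η ∈ W ω ∧ ∀ k ≥ m, η k = x0 ω k}

theorem hh_x0 (m : ℕ) : 2 ^ m - 2 ≤ 3 * hh m (x0 (Y := Y) ω) ∧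
    3 * hh m (x0 (Y := Y) ω) ≤ 2 ^ m - 1 := by
  induction m with
  | zero => simp [hh]
  | succ m ih =>
    simp only [hh, x0, if_true, pow_succ] at ih ⊢
    omega

theorem W_U {j : ℕ} {ξ : ℕ → Bool × Y} : U j ξ ∈ W ω ↔ ξ ∈ W ω := by
  refine forall_congr' (fun k => ?_)
  by_cases hk : k = j
  · subst hk
    simp only [U, Function.update_self]
    refine and_congr_right (fun h => imp_congr_right (fun h' => ?_))
    rw [h, h']
    simp only [A, Bool.false_eq_true, if_false, Equiv.swap_apply_def]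
    split_ifs <;> simp_all
  · simp only [U, Function.update_of_ne hk]

theorem ball_sub (h01 : (1 : Y) ≠ 0) (m r : ℕ) (h1 : (r : ℤ) ≤ hh m (x0 (Y := Y) ω))
    (h2 : (r : ℤ) ≤ 2 ^ m - 1 - hh m (x0 (Y := Y) ω)) :
    ∀ η ∈ ball SS (x0 ω) r, η ∈ Blk (Y := Y) ω m ∧ |hh m η - hh m (x0 (Y := Y) ω)| ≤ r := by
  have h0 : x0 ω ∈ Blk (Y := Y) ω m := ⟨fun k => ⟨rfl, fun _ => Or.inl rfl⟩, fun _ _ => rfl⟩
  induction r with
  | zero => intro η hη; rw [ball_zero _ _ hη]; exact ⟨h0, by simp⟩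
  | succ r ih =>
    intro η hη
    rcases ball_succ _ _ hη with rfl | ⟨u, a1, a2⟩
    · exact ⟨h0, by simp; omega⟩
    obtain ⟨b1, b2⟩ := ih (by omega) (by omega) u a1
    have key : ∃ j, Act j u ∧ (∀ k, k ≠ j → η k = u k) ∧ η ∈ W ω := by
      obtain ⟨j, ⟨c1, rfl⟩ | ⟨c1, rfl⟩⟩ := adj_cases h01 a2
      · exact ⟨j, c1, fun k hk => Function.update_of_ne hk _ _, (W_U ω).2 b1.1⟩
      · exact ⟨j, c1.congr (fun k hk => Function.update_of_ne hk.ne _ _),
          fun k hk => (Function.update_of_ne hk _ _).symm, (W_U ω).1 b1.1⟩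
    obtain ⟨j, c1, c2, c3⟩ := key
    have c4 := hh_lip h01 c1 c2 m
    rw [abs_le] at b2 c4 ⊢
    have c5 : j < m := by
      by_contra c5
      rcases hh_act h01 c1 (not_lt.1 c5) with c6 | c6 <;> omega
    exact ⟨⟨c3, fun k hk => (c2 k (by omega)).trans (b1.2 k hk)⟩, by omega⟩

theorem conn (h01 : (1 : Y) ≠ 0) (d : ℕ) (hd : 1 ≤ d)
    (hY : ∀ y : Y, ∃ e ≤ d, (e : Y) = y) (m : ℕ) :
    ∀ η ∈ W (Y := Y) ω, ∀ η' ∈ W (Y := Y) ω, (∀ k ≥ m, η k = η' k) →
      (schreier SS).edist η η' ≤ (d * (2 ^ m - 1) : ℕ) := by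
  induction m with
  | zero =>
    intro η _ η' _ h
    rw [show η = η' from funext (fun k => h k (Nat.zero_le _))]; simp
  | succ m ih =>
    let P : (ℕ → Bool × Y) → ℕ → Bool × Y := fun η k =>
      if k < m then (ω k, if k + 1 = m then 0 else 1) else η k
    have p1 : ∀ η ∈ W ω, P η ∈ W ω := by
      intro η hη k
      simp only [P]
      split_ifs
      · simp
      · simp
      · exact hη k
    have p2 : ∀ η, ∀ k ≥ m, η k = P η k := fun η k hk => (if_neg (not_lt.2 hk)).symm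
    have p3 : ∀ η, Act m (P η) := by
      intro η
      cases m with
      | zero => exact Or.inl rfl
      | succ i =>
        refine Or.inr ⟨i, rfl, fun k hk => ?_, by simp [P]⟩
        simp only [P]
        rw [if_pos (by omega), if_neg (by omega)]
    intro η hη η' hη' h
    obtain ⟨e, e1, e2⟩ : ∃ e ≤ d, (A (η m).1 ^ e) (η m).2 = (η' m).2 := by
      rw [(hη m).1]
      cases hω : ω m
      · rcases (hη m).2 hω with a | a <;> rcases (hη' m).2 hω with b | b <;> rw [a, b]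
        · exact ⟨0, by omega, rfl⟩
        · exact ⟨1, hd, by simp [A]⟩
        · exact ⟨1, hd, by simp [A]⟩
        · exact ⟨0, by omega, rfl⟩
      · obtain ⟨e, e1, e2⟩ := hY ((η' m).2 - (η m).2)
        exact ⟨e, e1, by simp [A, e2]⟩
    have q1 := edist_pow h01 (p3 η) e
    have q2 : Function.update (P η) m ((P η m).1, (A (P η m).1 ^ e) (P η m).2) = P η' := by
      funext k
      by_cases hk : k = m
      · subst hk
        rw [Function.update_self, ← p2 η k le_rfl, ← p2 η' k le_rfl, e2]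
        exact Prod.ext ((hη k).1.trans (hη' k).1.symm) rfl
      · rw [Function.update_of_ne hk]
        simp only [P]
        split_ifs
        · rfl
        · rfl
        · exact h k (by omega)
    rw [q2] at q1
    have q3 := ih η hη _ (p1 η hη) (p2 η)
    have q4 := ih η' hη' _ (p1 η' hη') (p2 η')
    rw [edist_comm] at q4
    refine ((schreier SS).edist_triangle.trans (add_le_add q3
      ((schreier SS).edist_triangle.trans (add_le_add q1 q4)))).trans ?_
    norm_cast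
    obtain ⟨c, hc⟩ := Nat.exists_eq_add_of_le' (Nat.one_le_two_pow (n := m))
    rw [pow_succ, hc]
    have : (c + 1) * 2 - 1 = c + 1 + c := by omega
    rw [this, Nat.add_sub_cancel]
    nlinarith

theorem Blk_card [Fintype Y] (h01 : (1 : Y) ≠ 0) (m : ℕ) : (Blk (Y := Y) ω m).Finite ∧
    (Blk (Y := Y) ω m).ncard = ∏ k ∈ Finset.range m, if ω k then Fintype.card Y else 2 := by
  let T : ℕ → Finset Y := fun k => if ω k then Finset.univ else {0, 1}
  let f : (Fin m → Y) → ℕ → Bool × Y := fun v k => (ω k, if h : k < m then v ⟨k, h⟩ else 0)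
  have hf : Function.Injective f := by
    intro v v' h
    funext k
    simpa [f] using congrFun h k
  have e : Blk ω m = f '' (Fintype.piFinset (fun k : Fin m => T k)) := by
    ext η
    constructor
    · rintro ⟨h1, h2⟩
      refine ⟨fun k => (η k).2, ?_, funext (fun k => ?_)⟩
      · simp only [Finset.mem_coe, Fintype.mem_piFinset, T]
        intro k
        split_ifs with h
        · simp
        · simpa using (h1 k).2 (by simpa using h)
      · simp only [f]
        split_ifs with h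
        · exact Prod.ext (h1 k).1.symm rfl
        · exact (h2 k (not_lt.1 h)).symm
    · rintro ⟨v, h1, rfl⟩
      simp only [Finset.mem_coe, Fintype.mem_piFinset, T] at h1
      refine ⟨fun k => ⟨rfl, fun h => ?_⟩, fun k hk => ?_⟩
      · simp only [f]
        split_ifs with h'
        · simpa [h] using h1 ⟨k, h'⟩
        · exact Or.inl rfl
      · simp only [f, x0]
        rw [dif_neg (not_lt.2 hk)]
  rw [e, Set.ncard_image_of_injective _ hf, Set.ncard_coe_finset, Fintype.card_piFinset]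
  refine ⟨(Finset.finite_toSet _).image _, ?_⟩
  rw [Fin.prod_univ_eq_prod_range (fun k => (T k).card) m]
  refine Finset.prod_congr rfl (fun k _ => ?_)
  simp only [T]
  split_ifs
  · rfl
  · exact Finset.card_pair h01.symm

end con

theorem mem_degrees {α : ℝ} (hα : 1 ≤ α) : α ∈ degrees := by
  classical
  obtain ⟨K, hK⟩ := exists_nat_gt α
  have hK0 : (0 : ℝ) < K := by linarith
  set θ := (α - 1) / K with hθ
  have t0 : 0 ≤ θ := div_nonneg (by linarith) hK0.le
  have t1 : θ ≤ 1 := by rw [hθ, div_le_one hK0]; linarith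
  have t2 : K * θ = α - 1 := by rw [hθ]; field_simp
  haveI : Fact (1 < 2 ^ (K + 1)) := ⟨Nat.one_lt_two_pow (by omega)⟩
  let Y := ZMod (2 ^ (K + 1))
  have h01 : (1 : Y) ≠ 0 := one_ne_zero
  let ω : ℕ → Bool := fun k => decide (⌊((k + 1 : ℕ) : ℝ) * θ⌋₊ = ⌊(k : ℝ) * θ⌋₊ + 1)
  let g : ℕ → ℕ := fun m => m + K * ⌊(m : ℝ) * θ⌋₊
  have hg : ∀ m, (Blk (Y := Y) ω m).ncard = 2 ^ g m := by
    intro m
    rw [(Blk_card ω h01 m).2]
    induction m with
    | zero => simp [g]
    | succ m ih =>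
      rw [Finset.prod_range_succ, ih, ZMod.card]
      simp only [ω, g, decide_eq_true_eq]
      split_ifs with h
      · rw [h, ← pow_add]; congr 1; ring
      · have a1 : ⌊(m : ℝ) * θ⌋₊ ≤ ⌊((m + 1 : ℕ) : ℝ) * θ⌋₊ :=
          Nat.floor_mono (by push_cast; nlinarith)
        have a2 : ⌊((m + 1 : ℕ) : ℝ) * θ⌋₊ ≤ ⌊(m : ℝ) * θ⌋₊ + 1 := by
          rw [← Nat.floor_add_one (by positivity)]
          exact Nat.floor_mono (by push_cast; nlinarith)
        rw [show ⌊((m + 1 : ℕ) : ℝ) * θ⌋₊ = ⌊(m : ℝ) * θ⌋₊ by omega, ← pow_succ]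
        congr 1; ring
  have g1 : ∀ m : ℕ, (g m : ℝ) ≤ m * α := by
    intro m
    have := Nat.floor_le (a := (m : ℝ) * θ) (by positivity)
    simp only [g]; push_cast
    have h2 : (K : ℝ) * ⌊(m : ℝ) * θ⌋₊ ≤ K * (m * θ) := by gcongr
    have h3 : (K : ℝ) * (m * θ) = m * (α - 1) := by rw [← t2]; ring
    linarith
  have g2 : ∀ m : ℕ, m * α - K ≤ (g m : ℝ) := by
    intro m
    have := (Nat.lt_floor_add_one ((m : ℝ) * θ)).le
    simp only [g]; push_cast
    have h2 : K * (m * θ) ≤ (K : ℝ) * (⌊(m : ℝ) * θ⌋₊ + 1) := by gcongr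
    have h3 : (K : ℝ) * (m * θ) = m * (α - 1) := by rw [← t2]; ring
    linarith
  have hS : (SS (Y := Y)).Finite := (Set.finite_singleton _).insert _
  have low : ∀ m n, 2 ^ (K + 1) * 2 ^ m ≤ n → Blk (Y := Y) ω m ⊆ ball SS (x0 ω) n := by
    intro m n h η hη
    refine (conn ω h01 (2 ^ (K + 1)) Nat.one_le_two_pow
      (fun y => ⟨y.val, y.val_lt.le, ZMod.natCast_zmod_val y⟩) m _
      (fun k => ⟨rfl, fun _ => Or.inl rfl⟩) η hη.1 (fun k hk => (hη.2 k hk).symm)).trans ?_
    exact Nat.cast_le.2 ((Nat.mul_le_mul_left _ (Nat.sub_le _ _)).trans h)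
  refine ⟨by linarith, Bool × Y, inferInstance, ?_, Subgroup.closure SS, hS.toFinset, x0 ω,
    selfsim, by simp, ?_, ?_⟩
  · rw [Fintype.card_prod, ZMod.card, Fintype.card_bool]
    have := Nat.one_le_two_pow (n := K + 1)
    omega
  · intro hf
    have a1 := Set.ncard_le_ncard ((low hf.toFinset.card _ le_rfl).trans
      (orb_of _ _ selfsim.1 _)) hf
    rw [hg, Set.ncard_eq_toFinset_card _ hf] at a1
    have a2 := Nat.lt_two_pow_self (n := g hf.toFinset.card)
    have a3 : hf.toFinset.card ≤ g hf.toFinset.card := Nat.le_add_right _ _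
    omega
  · rw [hS.coe_toFinset]
    refine lim _ α ((K + 2) * α + K + 4 * α) ?_
    filter_upwards [Filter.eventually_ge_atTop (2 ^ (K + 1))] with n hn
    have hn0 : n ≠ 0 := by have := Nat.one_le_two_pow (n := K + 1); omega
    have b1 := Nat.pow_log_le_self 2 hn0
    have b2 := Nat.lt_pow_succ_log_self (b := 2) (by norm_num) n
    have b3 : K + 1 ≤ Nat.log 2 n := Nat.le_log_of_pow_le (by norm_num) hn
    obtain ⟨m, hm⟩ := Nat.exists_eq_add_of_le b3
    set M := Nat.log 2 n with hM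
    have c1 := Set.ncard_le_ncard (low m n (by rw [← pow_add, ← hm]; exact b1))
      (ball_fin _ _ hS n)
    have c2 : (ball SS (x0 (Y := Y) ω) n).ncard ≤ (Blk (Y := Y) ω (M + 4)).ncard := by
      have d1 := hh_x0 (Y := Y) ω (M + 4)
      have d2 : (n : ℤ) < 2 ^ (M + 1) := by exact_mod_cast b2
      have d3 : (1 : ℤ) ≤ 2 ^ M := one_le_pow₀ (by norm_num)
      rw [pow_add] at d1 d2
      exact Set.ncard_le_ncard (fun η hη => (ball_sub ω h01 (M + 4) n (by omega)
        (by rw [pow_add]; omega) η hη).1) (Blk_card ω h01 _).1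
    rw [hg] at c1 c2
    have l2 : 0 < Real.log 2 := Real.log_pos (by norm_num)
    have l3 : Real.log 2 ≤ 1 := by have := Real.log_le_sub_one_of_pos (x := 2) (by norm_num); linarith
    have e1 : (g m : ℝ) * Real.log 2 ≤ Real.log (ball SS (x0 (Y := Y) ω) n).ncard := by
      rw [← Real.log_pow]
      exact Real.log_le_log (by positivity) (by exact_mod_cast c1)
    have e2 : Real.log (ball SS (x0 (Y := Y) ω) n).ncard ≤ (g (M + 4) : ℝ) * Real.log 2 := by
      rw [← Real.log_pow]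
      refine Real.log_le_log ?_ (by exact_mod_cast c2)
      exact_mod_cast lt_of_lt_of_le (by positivity) c1
    have e3 : (M : ℝ) * Real.log 2 ≤ Real.log n := by
      rw [← Real.log_pow]
      exact Real.log_le_log (by positivity) (by exact_mod_cast b1)
    have e4 : Real.log n ≤ ((M + 1 : ℕ) : ℝ) * Real.log 2 := by
      rw [← Real.log_pow]
      exact Real.log_le_log (by positivity) (by exact_mod_cast b2.le)
    have f1 := mul_le_mul_of_nonneg_right (g1 (M + 4)) l2.le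
    have f2 := mul_le_mul_of_nonneg_right (g2 m) l2.le
    have f3 := mul_le_mul_of_nonneg_left e3 (by linarith : 0 ≤ α)
    have f4 := mul_le_mul_of_nonneg_left e4 (by linarith : 0 ≤ α)
    have f5 : (M : ℝ) = K + 1 + m := by exact_mod_cast hm
    have f6 : α * Real.log 2 ≤ α := by nlinarith
    have f7 : K * Real.log 2 ≤ K := by nlinarith
    have f8 : K * (α * Real.log 2) ≤ K * α := by gcongr
    have f9 : 0 ≤ K * α := by positivity
    push_cast at f1 f4
    rw [f5] at f1 f3 f4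
    rw [abs_le]
    constructor <;> nlinarith

end Pool.Agent.H69.Sch
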