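import Mathlib

set_option autoImplicit false

namespace Pool.Agent.H69.Sch

/-- The first `n` letters of an infinite word. -/
def pre {X : Type} (ξ : ℕ → X) (n : ℕ) : List X := List.ofFn (fun i : Fin n => ξ i)

/-- A permutation of the finite words that fixes the root and sends children to children. -/
def IsTreeAut {X : Type} (g : Equiv.Perm (List X)) : Prop :=
  g [] = [] ∧ ∀ w x, ∃ y, g (w ++ [x]) = g w ++ [y]

/-- A self-similar group of automorphisms of the rooted tree of words over `X`. -/
def SelfSimilar {X : Type} (L : Subgroup (Equiv.Perm (List X))) : Prop :=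
  (∀ g ∈ L, IsTreeAut g) ∧ ∀ g ∈ L, ∀ x, ∃ h ∈ L, ∃ y, ∀ w, g (x :: w) = y :: h w

/-- `g` sends the boundary point `ξ` to the boundary point `η`. -/
def Maps {X : Type} (g : Equiv.Perm (List X)) (ξ η : ℕ → X) : Prop :=
  ∀ n, g (pre ξ n) = pre η n

/-- The Schreier graph of the action on the boundary. -/
def schreier {X : Type} (S : Set (Equiv.Perm (List X))) : SimpleGraph (ℕ → X) :=
  SimpleGraph.fromRel (fun ξ η => ∃ s ∈ S, Maps s ξ η)

/-- The ball of radius `n` about `ξ` in the Schreier graph. -/
def ball {X : Type} (S : Set (Equiv.Perm (List X))) (ξ : ℕ → X) (n : ℕ) : Set (ℕ → X) :=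
  {η | (schreier S).edist ξ η ≤ n}

/-- The set of degrees of polynomial growth of orbital Schreier graphs. -/
def degrees : Set ℝ :=
  {α | 0 ≤ α ∧ ∃ (X : Type) (_ : Fintype X), 2 ≤ Fintype.card X ∧
    ∃ (L : Subgroup (Equiv.Perm (List X))) (S : Finset (Equiv.Perm (List X))) (ξ : ℕ → X),
      SelfSimilar L ∧ Subgroup.closure (S : Set (Equiv.Perm (List X))) = L ∧
      {η | ∃ g ∈ L, Maps g ξ η}.Infinite ∧
      Filter.Tendsto (fun n : ℕ => Real.log (ball (S : Set (Equiv.Perm (List X))) ξ n).ncard /
        Real.log n) Filter.atTop (nhds α)}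

end Pool.Agent.H69.Sch
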