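import Pool.Agent.H69.Pq1

namespace Pool.Agent.H69.Sl

open scoped RegularWreathProduct Classical
open Finset

theorem free_triv {C Y : Type} [Group C] [MulAction C Y] (h : ∀ (g : C) (y : Y), g • y = y → g = 1) :
    ∃ κ : Y → C, ∀ g y, κ (g • y) = g * κ y := by
  have : ∀ y : Y, ∃ g : C, g • (Quotient.mk (MulAction.orbitRel C Y) y).out = y := fun y =>
    MulAction.orbitRel_apply.1 ((MulAction.orbitRel C Y).symm (Quotient.mk_out y))
  choose κ hκ using this
  refine ⟨κ, fun g y => ?_⟩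
  have e : Quotient.mk (MulAction.orbitRel C Y) (g • y) = Quotient.mk _ y :=
    Quotient.sound (MulAction.orbitRel_apply.2 ⟨g, rfl⟩)
  have a := hκ (g • y)
  rw [e] at a
  rw [← inv_mul_eq_one]
  refine h _ (Quotient.mk (MulAction.orbitRel C Y) y).out ?_
  rw [mul_smul, mul_smul, hκ, inv_smul_eq_iff, a]

theorem sum_zero {C Q R : Type} [Group C] [Group Q] [Fintype C] [Fintype Q] [AddCommMonoid R]
    {θ : C →* Q} (hθ : Function.Injective θ) {f : Q → R} (hf : ∀ y, ∑ g, f (θ g * y) = 0) :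
    ∑ y, f y = 0 := by
  letI := MulAction.compHom Q θ
  obtain ⟨κ, hκ⟩ := free_triv (C := C) (Y := Q) fun g y e =>
    (injective_iff_map_eq_one θ).1 hθ g (mul_eq_right.1 e)
  have hκ' : ∀ g y, κ (θ g * y) = g * κ y := hκ
  rw [← sum_eq_zero (s := univ.filter fun y => κ y = 1) fun y _ => hf y, ← sum_product']
  refine (sum_bij' (fun z _ => θ z.2 * z.1) (fun y _ => (θ (κ y)⁻¹ * y, κ y)) (by simp) ?_ ?_ ?_
    (by simp)).symm
  · intro y _
    simp only [mem_product, mem_filter, mem_univ, true_and, and_true, hκ', inv_mul_cancel]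
  · rintro ⟨y, g⟩ hz
    have : κ y = 1 := by simpa using hz
    simp [hκ', this]
  · simp

structure Lv (G : Type) [Group G] where
  Q : Type
  [g : Group Q]
  [f : Finite Q]
  i : G →* Q
  inj : Function.Injective i

attribute [instance] Lv.g Lv.f

variable {G : Type} [Group G]

abbrev Lv.V (L : Lv G) := L.Q ⧸ L.i.range

noncomputable instance (L : Lv G) : Fintype L.Q := Fintype.ofFinite _

noncomputable def P {L : Lv G} {m : ℕ} (c : L.Q → L.Q → ZMod m) (φ : L.V → ZMod m) : ZMod m :=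
  ∑ y, ∑ x, c y x * (φ (y * x : L.Q) - φ y)

theorem P_shift {L : Lv G} {m : ℕ} (c : L.Q → L.Q → ZMod m) (φ : L.V → ZMod m) (q : L.Q) :
    P (fun y => c (q⁻¹ * y)) φ = P c fun v => φ (q • v) := by
  rw [P, ← Equiv.sum_comp (Equiv.mulLeft q)]
  simp [P, mul_assoc]

abbrev Lv.W (L : Lv G) (N : ℕ) := Multiplicative (L.Q → ∀ r : Fin N, ZMod (r + 1)) ≀ᵣ L.Q

def co {L : Lv G} {N : ℕ} (w : L.W N) (r : Fin N) (y x : L.Q) : ZMod (r + 1) := (w.left y).toAdd x r

theorem co_mul {L : Lv G} {N : ℕ} (v w : L.W N) (r : Fin N) (y x : L.Q) :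
    co (v * w) r y x = co v r y x + co w r (v.right⁻¹ * y) x := rfl

def Lv.E (L : Lv G) (N : ℕ) : Subgroup (L.W N) where
  carrier := {w | ∀ r φ, P (co w r) φ = φ w.right - φ (1 : L.Q)}
  one_mem' := fun r φ => by simp [P, co]
  mul_mem' := fun {v w} hv hw r φ => by
    have a := P_shift (co w r) φ v.right
    rw [hw] at a
    have b := hv r φ
    simp only [P, co_mul, add_mul, sum_add_distrib] at a b ⊢
    rw [a, b]
    simp
  inv_mem' := fun {w} hw r φ => by
    have a := P_shift (co w r) φ w.right⁻¹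
    rw [hw] at a
    have b : ∀ y x, co w⁻¹ r y x = -co w r (w.right⁻¹⁻¹ * y) x := fun y x => by simp [co]
    simp only [P, b, neg_mul, sum_neg_distrib] at a ⊢
    rw [a]
    simp

def Lv.π (L : Lv G) (N : ℕ) : L.E N →* L.Q := RegularWreathProduct.rightHom.comp (L.E N).subtype

abbrev Lv.next (L : Lv G) (N : ℕ) : Lv G where
  Q := L.E N
  i := (RegularWreathProduct.inl.comp L.i).codRestrict _ fun g r φ => by
    have : ((L.i g : L.Q) : L.V) = (1 : L.Q) := QuotientGroup.eq.2 ⟨g⁻¹, by simp⟩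
    simp [P, co, this]
  inj := fun a b h => L.inj (congrArg (L.π N) h)

theorem π_i (L : Lv G) (N : ℕ) (g : G) : L.π N ((L.next N).i g) = L.i g := rfl

theorem π_surj (L : Lv G) (N : ℕ) : Function.Surjective (L.π N) := fun q =>
  ⟨⟨⟨fun y => .ofAdd fun x r => if y = 1 then if x = q then 1 else 0 else 0, q⟩, fun r φ => by
    simp [P, co]⟩, rfl⟩

theorem π_comm (L : Lv G) (N : ℕ) (a b : (L.π N).ker) : a * b = b * a := by
  have h1 : a.1.1.right = 1 := a.2
  have h2 : b.1.1.right = 1 := b.2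
  refine Subtype.ext (Subtype.ext (RegularWreathProduct.ext ?_ ?_)) <;> simp [h1, h2, mul_comm]

def Lv.p (L : Lv G) (N : ℕ) : (L.next N).V → L.V :=
  Quotient.map' (L.π N) fun a b h => by
    obtain ⟨g, hg⟩ := QuotientGroup.leftRel_apply.1 h
    refine QuotientGroup.leftRel_apply.2 ⟨g, ?_⟩
    rw [← π_i L N, hg, map_mul, map_inv]

theorem p_smul (L : Lv G) (N : ℕ) (e : L.E N) (v : (L.next N).V) :
    L.p N (((e : (L.next N).Q)) • v) = L.π N e • L.p N v := by
  induction v using Quotient.inductionOn' with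
  | h a => exact congrArg (QuotientGroup.mk (s := L.i.range)) (map_mul (L.π N) e a)

theorem claimA (L : Lv G) {N : ℕ} {C : Type} [Group C] [Finite C] (hp : (Nat.card C).Prime)
    (hN : Nat.card C ≤ N) (τ : C →* L.E N) (hθ : Function.Injective ((L.π N).comp τ)) :
    ∃ v : L.V, ∀ g, L.π N (τ g) • v = v := by
  by_contra! hv
  letI := MulAction.compHom L.V ((L.π N).comp τ)
  letI := Fintype.ofFinite C
  haveI := Fact.mk hp
  haveI := isCyclic_of_prime_card (p := Nat.card C) rfl
  obtain ⟨κ, hκ⟩ := free_triv (C := C) (Y := L.V) fun g v e => by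
    obtain ⟨h, hh⟩ := hv v
    by_contra hg
    have : h ∈ MulAction.stabilizer C v := (Subgroup.zpowers_le.2 e)
      (zpowers_eq_top_of_prime_card rfl hg ▸ Subgroup.mem_top h)
    exact hh this
  obtain ⟨r, hr⟩ : ∃ r : Fin N, Nat.card C = r + 1 :=
    ⟨⟨Nat.card C - 1, by have := hp.pos; omega⟩, by have := hp.pos; simp only; omega⟩
  obtain ⟨l, hl⟩ : ∃ l : C →* Multiplicative (ZMod (r + 1)), Function.Injective l :=
    hr ▸ ⟨(zmodCyclicMulEquiv (G := C) inferInstance).symm,
      (zmodCyclicMulEquiv (G := C) inferInstance).symm.injective⟩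
  obtain ⟨g, hg⟩ := hv (1 : L.Q)
  let φ : L.V → ZMod (r + 1) := fun v => (l (κ v)).toAdd
  have hφ : ∀ h v, φ (L.π N (τ h) • v) = (l h).toAdd + φ v := fun h v => by
    rw [← toAdd_mul, ← map_mul, ← hκ]
    rfl
  have a := (τ g).2 r φ
  have b := hφ g (1 : L.Q)
  rw [MulAction.Quotient.smul_mk, smul_eq_mul, mul_one] at b
  have z : P (co (τ g).1 r) φ = 0 := sum_zero hθ fun y => by
    have c : ∀ h x, co (τ g).1 r (L.π N (τ h) * y) x =
        co (τ (h⁻¹ * g)).1 r y x - co (τ h⁻¹).1 r y x := fun h x => by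
      rw [map_mul, Subgroup.coe_mul, co_mul, add_sub_cancel_left, map_inv]
      exact congrArg (co _ r · x) (congrArg (· * y) (inv_inv _).symm)
    have d : ∀ h x, φ (L.π N (τ h) * y * x : L.Q) - φ (L.π N (τ h) * y : L.Q) =
        φ (y * x : L.Q) - φ y := fun h x => by
      have := hφ h (y * x : L.Q)
      have := hφ h y
      simp only [MulAction.Quotient.smul_mk, smul_eq_mul] at *
      simp [mul_assoc, *]
    simp only [MonoidHom.comp_apply, c, d]
    rw [sum_comm]
    refine sum_eq_zero fun x _ => ?_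
    rw [← sum_mul, sum_sub_distrib, sub_eq_zero.2, zero_mul]
    exact (Equiv.sum_comp ((Equiv.inv C).trans (Equiv.mulRight g)) fun h => co (τ h).1 r y x).trans
      (Equiv.sum_comp (Equiv.inv C) fun h => co (τ h).1 r y x).symm
  rw [z] at a
  change 0 = φ (L.π N (τ g)) - _ at a
  rw [b, add_sub_cancel_right] at a
  have : g = 1 := (injective_iff_map_eq_one l).1 hl g a.symm
  simp [this] at hg

theorem claimB (L : Lv G) {N : ℕ} {C : Type} [Group C] [Finite C]
    (hN : Nat.card C ≤ N) [Nontrivial C] (τ : C →* L.E N)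
    (hθ : Function.Injective ((L.π N).comp τ)) (v w : (L.next N).V)
    (hv : ∀ g, (τ g : (L.next N).Q) • v = v) (hw : ∀ g, (τ g : (L.next N).Q) • w = w) :
    L.p N v = L.p N w := by
  letI := Fintype.ofFinite C
  have h2 : 1 < Nat.card C := Finite.one_lt_card
  obtain ⟨r, hr⟩ : ∃ r : Fin N, Nat.card C = r + 1 :=
    ⟨⟨Nat.card C - 1, by omega⟩, by simp only; omega⟩
  haveI : Fact (1 < (r : ℕ) + 1) := ⟨hr ▸ h2⟩
  induction v using Quotient.inductionOn' with | h e =>
  induction w using Quotient.inductionOn' with | h f =>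
  by_contra hne
  have k : ∀ e : L.E N, (∀ g, (τ g : (L.next N).Q) • (QuotientGroup.mk e : (L.next N).V) =
      QuotientGroup.mk e) → ∀ g y x, co e.1 r (L.π N (τ g) * y) x =
        co e.1 r y x + co (τ g).1 r (L.π N (τ g) * y) x := fun e he g y x => by
    obtain ⟨c, hc⟩ := QuotientGroup.eq.1 (he g).symm
    have : e * (L.next N).i c = τ g * e := by rw [hc]; simp
    have := congrArg (fun z : L.E N => co z.1 r (L.π N (τ g) * y) x) this
    simp only [Subgroup.coe_mul, co_mul] at this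
    rw [show (τ g).1.right⁻¹ * (L.π N (τ g) * y) = y from inv_mul_cancel_left _ _] at this
    exact Eq.trans (add_zero _).symm (this.trans (add_comm _ _))
  let u : L.V := L.π N e
  let φ : L.V → ZMod (r + 1) := fun v => if v = u then 1 else 0
  have hφ : ∀ g v, φ (L.π N (τ g) • v) = φ v := fun g v => by
    have : L.π N (τ g) • u = u := (p_smul L N (τ g) _).symm.trans (congrArg (L.p N) (hv g))
    exact if_congr (by rw [← this, smul_left_cancel_iff, this]) rfl rfl
  have z : P (co e.1 r - co f.1 r) φ = 0 := sum_zero hθ fun y => by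
    have d : ∀ h x, φ (L.π N (τ h) * y * x : L.Q) - φ (L.π N (τ h) * y : L.Q) =
        φ (y * x : L.Q) - φ y := fun h x => by
      have := hφ h (y * x : L.Q)
      have := hφ h y
      simp only [MulAction.Quotient.smul_mk, smul_eq_mul] at *
      simp [mul_assoc, *]
    simp only [MonoidHom.comp_apply, Pi.sub_apply, d, k e hv, k f hw, add_sub_add_right_eq_sub]
    rw [sum_const, card_univ, ← Nat.card_eq_fintype_card, hr, nsmul_eq_mul, ZMod.natCast_self,
      zero_mul]
  have a := e.2 r φ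
  have b := f.2 r φ
  simp only [P, Pi.sub_apply, sub_mul, sum_sub_distrib] at a b z
  rw [a, b, sub_sub_sub_cancel_right] at z
  have c : φ e.1.right = 1 := if_pos rfl
  have d : φ f.1.right = 0 := if_neg fun h => hne h.symm
  simp [c, d] at z

end Pool.Agent.H69.Sl
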