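import Pool.Agent.H69.Sl1

namespace Pool.Agent.H69.Sl

open scoped Classical
open Finset

theorem burn {T Y : Type} [Group T] [Finite T] [Finite Y] [MulAction T Y] (y : Y)
    (hY : Nat.card Y < Nat.card T) (h : ∀ s : T, s ≠ 1 → ∃! y : Y, s • y = y) (t : T) :
    t • y = y := by
  letI := Fintype.ofFinite T
  letI := Fintype.ofFinite Y
  have a := MulAction.sum_card_fixedBy_eq_card_orbits_mul_card_group T Y
  rw [← add_sum_erase _ _ (mem_univ 1), sum_congr rfl (g := fun _ => 1) fun s hs => by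
    obtain ⟨z, h1, h2⟩ := h s (ne_of_mem_erase hs)
    exact Fintype.card_eq_one_iff.2 ⟨⟨z, h1⟩, fun w => Subtype.ext (h2 _ w.2)⟩] at a
  simp only [MulAction.fixedBy_one_eq_univ, sum_const, card_erase_of_mem (mem_univ (1 : T)),
    card_univ, smul_eq_mul, mul_one, Fintype.card_setUniv] at a
  rw [Nat.card_eq_fintype_card, Nat.card_eq_fintype_card] at hY
  have b : 0 < Fintype.card Y := Fintype.card_pos_iff.2 ⟨y⟩
  obtain ⟨n, a⟩ : ∃ n, Fintype.card Y + (Fintype.card T - 1) = n * Fintype.card T := ⟨_, a⟩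
  have : Fintype.card Y ≤ 1 := by
    rcases n with _ | _ | n
    · omega
    · omega
    · rw [add_assoc, add_mul] at a
      omega
  exact Fintype.card_le_one_iff.1 this _ _

theorem comb {T : Type} [Group T] [Finite T] [Nontrivial T] (V : ℕ → Type)
    [∀ k, MulAction T (V k)] (p : ∀ k, V (k + 1) → V k) (L : ℕ) (hL : Nat.card T + 3 ≤ L)
    (hp : ∀ k < L, ∀ (t : T) v, p k (t • v) = t • p k v)
    (A : ∀ k < L, ∀ s : T, (orderOf s).Prime → ∃ v : V k, s • v = v)
    (B : ∀ k < L, ∀ s : T, (orderOf s).Prime → ∀ v w : V (k + 1), s • v = v → s • w = w →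
      p k v = p k w) : ∃ k < L, ∃ v : V k, ∀ t : T, t • v = v := by
  have pw : ∀ s : T, s ≠ 1 → ∃ n : ℕ, (orderOf (s ^ n)).Prime := fun s hs => by
    have h1 : orderOf s ≠ 1 := mt orderOf_eq_one_iff.1 hs
    refine ⟨orderOf s / (orderOf s).minFac, ?_⟩
    rw [orderOf_pow_orderOf_div (orderOf_pos s).ne' (Nat.minFac_dvd _)]
    exact Nat.minFac_prime h1
  have B' : ∀ k < L, ∀ s : T, s ≠ 1 → ∀ v w : V (k + 1), s • v = v → s • w = w →
      p k v = p k w := fun k hk s hs v w hv hw => by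
    obtain ⟨n, hn⟩ := pw s hs
    exact B k hk _ hn v w (pow_mem (show s ∈ MulAction.stabilizer T v from hv) n)
      (pow_mem (show s ∈ MulAction.stabilizer T w from hw) n)
  have A' : ∀ k, k + 1 < L → ∀ s : T, s ≠ 1 → ∃ v : V k, s • v = v := fun k hk s hs => by
    obtain ⟨n, hn⟩ := pw s hs
    obtain ⟨v, hv⟩ := A _ hk _ hn
    refine ⟨p k v, ?_⟩
    rw [← hp k (by omega)]
    refine B k (by omega) _ hn _ _ ?_ hv
    rw [← mul_smul, ← pow_succ, pow_succ', mul_smul, hv]
  let Y : ∀ k, Set (V k) := fun k => {y | ∃ s : T, s ≠ 1 ∧ ∃ v, s • v = v ∧ p k v = y}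
  have sub : ∀ k, k + 2 < L → ∃ x : T → V k, Y k = x '' {1}ᶜ := fun k hk => by
    obtain ⟨s0, h0⟩ := exists_ne (1 : T)
    haveI : Nonempty (V (k + 1)) := ⟨(A' _ hk s0 h0).choose⟩
    choose! x hx using A' _ hk
    refine ⟨fun s => p k (x s), Set.ext fun y => ⟨?_, ?_⟩⟩
    · rintro ⟨s, hs, v, hv, rfl⟩
      exact ⟨s, hs, B' k (by omega) s hs _ _ (hx s hs) hv⟩
    · rintro ⟨s, hs, rfl⟩
      exact ⟨s, hs, _, hx s hs, rfl⟩
  have fin : ∀ k, k + 2 < L → (Y k).Finite ∧ (Y k).ncard < Nat.card T := fun k hk => by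
    obtain ⟨x, hx⟩ := sub k hk
    rw [hx]
    refine ⟨(Set.toFinite _).image _, (Set.ncard_image_le (Set.toFinite _)).trans_lt ?_⟩
    exact Set.ncard_lt_card (by simp)
  have im : ∀ k, k + 3 < L → Y k ⊆ p k '' Y (k + 1) := fun k hk => by
    rintro _ ⟨s, hs, v, hv, rfl⟩
    obtain ⟨w, hw⟩ := A' (k + 2) hk s hs
    refine ⟨p _ w, ⟨s, hs, w, hw, rfl⟩, B' k (by omega) s hs _ _ ?_ hv⟩
    rw [← hp _ (by omega), hw]
  obtain ⟨k, hk, hi⟩ : ∃ k, k + 3 < L ∧ Set.InjOn (p k) (Y (k + 1)) := by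
    by_contra! h
    have : ∀ k, k + 2 < L → k < (Y k).ncard := fun k => by
      induction k with
      | zero =>
        intro hk
        obtain ⟨x, hx⟩ := sub 0 hk
        obtain ⟨s, hs⟩ := exists_ne (1 : T)
        exact (Set.ncard_pos (fin 0 hk).1).2 ⟨x s, hx ▸ ⟨s, hs, rfl⟩⟩
      | succ k ih =>
        intro hk
        have f := (fin _ hk).1
        have a := Set.ncard_le_ncard (im k hk) (f.image _)
        have b := Set.ncard_image_le (f := p k) f
        have c := mt (Set.ncard_image_iff f).1 (h k hk)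
        have := ih (by omega)
        omega
    have a := this (Nat.card T) (by omega)
    have := (fin (Nat.card T) (by omega)).2
    omega
  let Z : SubMulAction T (V (k + 1)) := ⟨Y (k + 1), fun t => by
    rintro _ ⟨s, hs, v, hv, rfl⟩
    refine ⟨t * s * t⁻¹, by simpa using hs, t • v, ?_, hp _ (by omega) _ _⟩
    rw [mul_smul, inv_smul_smul, mul_smul, hv]⟩
  haveI : Finite Z := (fin _ hk).1
  have ex : ∀ s : T, s ≠ 1 → ∃ y : Z, s • y = y := fun s hs => by
    obtain ⟨w, hw⟩ := A' (k + 2) hk s hs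
    refine ⟨⟨p _ w, s, hs, w, hw, rfl⟩, Subtype.ext ?_⟩
    change s • p _ w = p _ w
    rw [← hp _ (by omega), hw]
  obtain ⟨s0, h0⟩ := exists_ne (1 : T)
  obtain ⟨y, -⟩ := ex s0 h0
  refine ⟨k + 1, by omega, y, fun t => congrArg Subtype.val (burn y (fin _ hk).2 (fun s hs => ?_) t)⟩
  obtain ⟨z, hz⟩ := ex s hs
  exact ⟨z, hz, fun w hw => Subtype.ext (hi w.2 z.2 (B' k (by omega) s hs _ _
    (congrArg Subtype.val hw) (congrArg Subtype.val hz)))⟩

variable {G : Type} [Group G]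

def NS (G : Type) [Group G] : Prop :=
  ∀ (T : Type) [Group T] [IsSimpleGroup T] (τ : T →* G), Function.Injective τ →
    ∀ a b : T, a * b = b * a

noncomputable def tw (L : Lv G) (N : ℕ) : ℕ → Lv G
  | 0 => L
  | k + 1 => (tw L N k).next N

theorem down (L : Lv G) (N : ℕ) {T : Type} [Group T] [IsSimpleGroup T]
    (hT : ¬∀ a b : T, a * b = b * a) (n : ℕ) (τ : T →* (tw L N n).Q) (hτ : Function.Injective τ) :
    ∃ σ : ∀ k, T →* (tw L N k).Q, σ n = τ ∧ (∀ k ≤ n, Function.Injective (σ k)) ∧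
      ∀ k < n, ((tw L N k).π N).comp (σ (k + 1)) = σ k := by
  induction n with
  | zero =>
    refine ⟨Function.update 1 0 τ, by simp, fun k hk => ?_, by simp⟩
    obtain rfl : k = 0 := by omega
    simpa
  | succ n ih =>
    obtain ⟨σ, h1, h2, h3⟩ := ih (((tw L N n).π N).comp τ) (by
      rcases IsSimpleGroup.eq_bot_or_eq_top_of_normal (((tw L N n).π N).comp τ).ker inferInstance
        with h | h
      · exact (MonoidHom.ker_eq_bot_iff _).1 h
      have m : ∀ a, τ a ∈ ((tw L N n).π N).ker := fun a =>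
        show a ∈ (((tw L N n).π N).comp τ).ker from h ▸ Subgroup.mem_top a
      refine (hT fun a b => hτ ?_).elim
      rw [map_mul, map_mul]
      exact congrArg Subtype.val (π_comm _ N ⟨_, m a⟩ ⟨_, m b⟩))
    refine ⟨Function.update σ (n + 1) τ, by simp, fun k hk => ?_, fun k hk => ?_⟩
    · rcases hk.eq_or_lt with rfl | hk
      · simpa
      · rw [Function.update_of_ne hk.ne]
        exact h2 k (by omega)
    · rw [Function.update_of_ne hk.ne]
      rcases (Nat.lt_succ_iff.1 hk).eq_or_lt with rfl | hk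
      · rw [Function.update_self, h1]
      · rw [Function.update_of_ne (by omega), h3 k hk]

theorem tw_ns (L : Lv G) (h : NS G) {N : ℕ} (hL : Nat.card L.Q ≤ N) : NS (tw L N (N + 3)).Q := by
  intro T _ _ τ hτ
  by_contra hT
  obtain ⟨σ, -, h2, h3⟩ := down L _ hT _ τ hτ
  haveI : Finite T := Finite.of_injective _ hτ
  have hN : Nat.card T ≤ N := (Nat.card_le_card_of_injective _ (h2 0 (by omega))).trans hL
  letI := fun k => MulAction.compHom (tw L N k).V (σ k)
  have hs : ∀ k < N + 3, ∀ t, (tw L N k).π N (σ (k + 1) t) = σ k t := fun k hk t =>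
    DFunLike.congr_fun (h3 k hk) t
  have hc : ∀ s : T, Nat.card (Subgroup.zpowers s) ≤ N := fun s =>
    (Subgroup.card_le_card_group _).trans hN
  have hi : ∀ k < N + 3, ∀ s : T, Function.Injective (((tw L N k).π N).comp
      ((σ (k + 1)).comp (Subgroup.zpowers s).subtype)) := fun k hk s a b e =>
    Subtype.ext (h2 k hk.le ((hs k hk _).symm.trans (e.trans (hs k hk _))))
  obtain ⟨k, hk, v, hv⟩ := comb (T := T) (fun k => (tw L N k).V) (fun k => (tw L N k).p N) (N + 3)
    (by omega) (fun k hk t v => (p_smul _ N _ v).trans (by rw [hs k hk]; rfl))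
    (fun k hk s h => by
      obtain ⟨v, hv⟩ := claimA (tw L N k) (Nat.card_zpowers s ▸ h) (hc s) _ (hi k hk s)
      exact ⟨v, (congrArg (· • v) (hs k hk s)).symm.trans (hv ⟨s, Subgroup.mem_zpowers s⟩)⟩)
    fun k hk s h v w hv hw => by
      haveI : Nontrivial (Subgroup.zpowers s) :=
        Finite.one_lt_card_iff_nontrivial.1 (Nat.card_zpowers s ▸ h.one_lt)
      exact claimB (tw L N k) (hc s) _ (hi k hk s) v w
        (fun g => Subgroup.zpowers_le.2 (show s ∈ MulAction.stabilizer T v from hv) g.2)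
        fun g => Subgroup.zpowers_le.2 (show s ∈ MulAction.stabilizer T w from hw) g.2
  induction v using Quotient.inductionOn' with | h q =>
  let c := ((MulAut.conj q⁻¹).toMonoidHom.comp (σ k)).codRestrict (tw L N k).i.range fun t => by
    simpa [mul_assoc] using QuotientGroup.eq.1 (hv t).symm
  refine hT (h T ((MonoidHom.ofInjective (tw L N k).inj).symm.toMonoidHom.comp c) ?_)
  have : Function.Injective c := fun a b e =>
    h2 k hk.le ((MulAut.conj q⁻¹).injective (congrArg Subtype.val e))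
  exact (MonoidHom.ofInjective (tw L N k).inj).symm.injective.comp this

theorem tw_rho (L : Lv G) (N n : ℕ) : ∃ ρ : (tw L N n).Q →* L.Q, Function.Surjective ρ ∧
    Group.IsSolvable ρ.ker ∧ ∀ g, ρ ((tw L N n).i g) = L.i g := by
  induction n with
  | zero => exact ⟨MonoidHom.id _, Function.surjective_id,
      Group.isSolvable_of_comm fun a b => Subtype.ext ((a * b).2.trans (b * a).2.symm), fun _ => rfl⟩
  | succ n ih =>
    obtain ⟨ρ, h1, h2, h3⟩ := ih
    refine ⟨ρ.comp ((tw L N n).π N), h1.comp (π_surj _ N), ?_, h3⟩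
    haveI := Group.isSolvable_of_comm (π_comm (tw L N n) N)
    exact Group.isSolvable_of_ker_le_range (G' := ((tw L N n).π N).ker) (G'' := ρ.ker)
      (Subgroup.inclusion fun x hx => (congrArg ρ hx).trans (map_one ρ))
      ((((tw L N n).π N).comp (Subgroup.subtype _)).codRestrict _ fun x => x.2)
      fun x hx => ⟨⟨x.1, congrArg Subtype.val hx⟩, rfl⟩

theorem alt (G : Type) [Group G] [Finite G] : ∃ L : Lv G, IsSimpleGroup L.Q ∧ Group.IsPerfect L.Q := by
  letI := Fintype.ofFinite G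
  let a := MulAction.toPermHom G G
  have c : 5 ≤ Nat.card ((G ⊕ G) ⊕ Fin 5) := by simp
  have s := alternatingGroup.isSimpleGroup c
  refine ⟨⟨alternatingGroup ((G ⊕ G) ⊕ Fin 5), ((Equiv.Perm.sumCongrHom _ _).comp
    (((Equiv.Perm.sumCongrHom _ _).comp (a.prod a)).prod 1)).codRestrict _ fun g => ?_,
    fun g h e => ?_⟩, s, ⟨commutator_alternatingGroup_eq_top (by simp)⟩⟩
  · simp [Equiv.Perm.sign_sumCongr]
  · simpa [a] using congrArg (fun z : alternatingGroup ((G ⊕ G) ⊕ Fin 5) => z.1 (.inl (.inl 1))) e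

theorem step (G : Type) [Group G] [Finite G] (hp : Group.IsPerfect G) (ns : NS G) :
    ∃ (H : Type) (_ : Group H) (_ : Finite H) (j : G →* H), Function.Injective j ∧
      Group.IsPerfect H ∧ NS H ∧ Nontrivial H ∧
      ∀ M : Subgroup H, M.Normal → (∃ g ≠ 1, j g ∈ M) → M = ⊤ := by
  obtain ⟨L, s1, s2⟩ := alt G
  obtain ⟨K, ρ, h0, h1, h2, h3⟩ : ∃ (K : Lv G) (ρ : K.Q →* L.Q), NS K.Q ∧ Function.Surjective ρ ∧
      Group.IsSolvable ρ.ker ∧ ∀ g, ρ (K.i g) = L.i g := by
    obtain ⟨ρ, h⟩ := tw_rho L (Nat.card L.Q) (Nat.card L.Q + 3)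
    exact ⟨_, ρ, tw_ns L ns le_rfl, h⟩
  obtain ⟨n, hn⟩ := (WellFoundedLT.antitone_chain_condition (derivedSeries_antitone K.Q))
  let H := derivedSeries K.Q n
  have pH : Group.IsPerfect H := Subgroup.isPerfect_iff.2 (hn (n + 1) n.le_succ).symm
  have sj : Function.Surjective (ρ.comp H.subtype) := fun x => by
    obtain ⟨y, hy, e⟩ : x ∈ H.map ρ := by simp [H, map_derivedSeries_eq h1]
    exact ⟨⟨y, hy⟩, e⟩
  refine ⟨H, inferInstance, inferInstance, K.i.codRestrict H fun g =>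
    map_derivedSeries_le_derivedSeries K.i n ⟨g, by simp, rfl⟩,
    fun a b e => K.inj (congrArg Subtype.val e), pH,
    fun T _ _ τ hτ => h0 T (H.subtype.comp τ) (Subtype.val_injective.comp hτ), sj.nontrivial, ?_⟩
  rintro M hM ⟨g, hg, hgM⟩
  have top : M.map (ρ.comp H.subtype) = ⊤ :=
    (IsSimpleGroup.eq_bot_or_eq_top_of_normal _ (hM.map _ sj)).resolve_left fun e => by
      have : L.i g ∈ M.map (ρ.comp H.subtype) := ⟨_, hgM, h3 g⟩
      rw [e] at this
      exact hg ((injective_iff_map_eq_one _).1 L.inj g this)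
  haveI : Group.IsSolvable (ρ.comp H.subtype).ker := Group.isSolvable_of_isSolvable_injective
    (f := (H.subtype.comp (Subgroup.subtype _)).codRestrict ρ.ker fun x => x.2)
    fun a b e => Subtype.ext (Subtype.ext (congrArg (fun z : ρ.ker => z.1) e))
  have sv : Group.IsSolvable (H ⧸ M) := Group.isSolvable_of_surjective
    (f := (QuotientGroup.mk' M).comp (ρ.comp H.subtype).ker.subtype) fun x => by
      induction x using Quotient.inductionOn' with | h x =>
      obtain ⟨m, hm, e⟩ : ρ.comp H.subtype x ∈ M.map (ρ.comp H.subtype) := top ▸ Subgroup.mem_top _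
      refine ⟨⟨x * m⁻¹, by rw [MonoidHom.mem_ker, map_mul, map_inv, e, mul_inv_cancel]⟩, ?_⟩
      exact QuotientGroup.eq.2 (by simpa)
  exact QuotientGroup.subsingleton_iff.1 (not_nontrivial_iff_subsingleton.1 fun _ =>
    Group.IsPerfect.not_isSolvable _ sv)

structure Gp where
  G : Type
  [g : Group G]
  [f : Finite G]
  p : Group.IsPerfect G
  n : NS G

attribute [instance] Gp.g Gp.f

theorem main : ∃ (Γ : Type) (_ : Group Γ), Infinite Γ ∧ IsSimpleGroup Γ ∧
    (∀ s : Set Γ, s.Finite → Finite (Subgroup.closure s)) ∧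
    ∀ H : Subgroup Γ, Finite H → IsSimpleGroup H → ∀ a b : H, a * b = b * a := by
  have st : ∀ A : Gp, ∃ (B : Gp) (j : A.G →* B.G), Function.Injective j ∧ Nontrivial B.G ∧
      ∀ M : Subgroup B.G, M.Normal → (∃ g ≠ 1, j g ∈ M) → M = ⊤ := fun A => by
    obtain ⟨H, _, _, j, a, b, c, d⟩ := step A.G A.p A.n
    exact ⟨⟨H, b, c⟩, j, a, d⟩
  obtain ⟨T, j, h⟩ : ∃ (T : ℕ → Gp) (j : ∀ n, (T n).G →* (T (n + 1)).G), ∀ n,
      Function.Injective (j n) ∧ Nontrivial (T (n + 1)).G ∧
      ∀ M : Subgroup (T (n + 1)).G, M.Normal → (∃ g ≠ 1, j n g ∈ M) → M = ⊤ := by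
    choose B j h using st
    exact ⟨fun n => Nat.rec ⟨Unit, inferInstance, fun _ _ _ _ h _ _ => h rfl⟩ (fun _ => B) n,
      fun n => j _, fun n => h _⟩
  choose h1 h2 h3 using h
  obtain ⟨Γ, _, φ, i1, i2, i3⟩ := Pq.chain_lim (fun n => (T n).G) j h1
  have mono : Monotone fun n => (φ n).range := monotone_nat_of_le_succ fun n => by
    rintro _ ⟨x, rfl⟩
    exact ⟨_, i2 n x⟩
  have bd : ∀ s : Set Γ, s.Finite → ∃ n, s ⊆ (φ n).range := fun s hs => by
    choose n x hx using i3
    exact ⟨hs.toFinset.sup n, fun g hg => mono (le_sup (hs.mem_toFinset.2 hg)) ⟨x g, hx g⟩⟩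
  have ns : ∀ H : Subgroup Γ, Finite H → IsSimpleGroup H → ∀ a b : H, a * b = b * a :=
    fun H f _ => by
      obtain ⟨n, hn⟩ := bd H f
      exact (T n).n H ((MonoidHom.ofInjective (i1 n)).symm.toMonoidHom.comp (Subgroup.inclusion hn))
        ((MonoidHom.ofInjective (i1 n)).symm.injective.comp (Subgroup.inclusion_injective hn))
  haveI : Nontrivial (T 1).G := h2 0
  haveI : Nontrivial Γ := (i1 1).nontrivial
  have si : IsSimpleGroup Γ := ⟨fun M hM => or_iff_not_imp_left.2 fun h => by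
    obtain ⟨⟨a, ha⟩, h⟩ := Subgroup.ne_bot_iff_exists_ne_one.1 h
    refine eq_top_iff.2 fun b _ => ?_
    obtain ⟨n, hn⟩ := bd {a, b} (Set.toFinite _)
    obtain ⟨x, rfl⟩ := hn (Set.mem_insert a _)
    obtain ⟨y, rfl⟩ := hn (Set.mem_insert_of_mem _ rfl)
    have := h3 n (M.comap (φ (n + 1))) (hM.comap _)
      ⟨x, fun e => h (Subtype.ext (by simp [e])), by rwa [Subgroup.mem_comap, i2]⟩
    rw [← i2]
    exact show j n y ∈ M.comap (φ (n + 1)) from this ▸ Subgroup.mem_top _⟩
  refine ⟨Γ, inferInstance, not_finite_iff_infinite.1 fun _ => ?_, si, fun s hs => ?_, ns⟩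
  · haveI := (T 1).p
    have := ns ⊤ inferInstance Subgroup.topEquiv.isSimpleGroup
    refine Group.IsPerfect.not_isSolvable (T 1).G (Group.isSolvable_of_comm fun a b => i1 1 ?_)
    rw [map_mul, map_mul]
    exact congrArg Subtype.val (this ⟨_, trivial⟩ ⟨_, trivial⟩)
  · obtain ⟨n, hn⟩ := bd s hs
    haveI := Finite.of_surjective _ (φ n).rangeRestrict_surjective
    exact Finite.of_injective _ (Subgroup.inclusion_injective ((Subgroup.closure_le _).2 hn))

end Pool.Agent.H69.Sl
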