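import Mathlib

namespace Pool.Agent.H69.Sofic

open Polynomial Matrix

abbrev R := Polynomial (ZMod 2)
abbrev SL := Matrix.SpecialLinearGroup (Fin 2) R

noncomputable def M (c : Bool) : SL :=
  ⟨!![X + (if c then 1 else 0), -1; 1, 0], by simp [Matrix.det_fin_two]⟩

def Small (n : ℕ) (g : SL) : Prop := ∀ i j, (g.1 i j).natDegree ≤ n

theorem small_one : Small 0 1 := by
  intro i j
  fin_cases i <;> fin_cases j <;> simp

theorem small_mul {n m : ℕ} {g h : SL} (hg : Small n g) (hh : Small m h) :
    Small (n + m) (g * h) := by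
  intro i j
  rw [Matrix.SpecialLinearGroup.coe_mul, Matrix.mul_apply, Fin.sum_univ_two]
  refine (natDegree_add_le _ _).trans (max_le ?_ ?_)
  · exact natDegree_mul_le.trans (add_le_add (hg _ _) (hh _ _))
  · exact natDegree_mul_le.trans (add_le_add (hg _ _) (hh _ _))

theorem small_inv {n : ℕ} {g : SL} (hg : Small n g) : Small n g⁻¹ := by
  intro i j
  rw [Matrix.SpecialLinearGroup.SL2_inv_expl]
  fin_cases i <;> fin_cases j <;> simp [hg _ _]

theorem degXc (c : Bool) : (X + (if c then 1 else 0) : R).natDegree = 1 := by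
  cases c
  · simp
  · simpa using natDegree_X_add_C (1 : ZMod 2)

theorem small_M (c : Bool) : Small 1 (M c) := by
  intro i j
  fin_cases i <;> fin_cases j <;> simp [M, degXc]

theorem small_prod (l : List SL) (hl : ∀ x ∈ l, Small 1 x) : Small l.length l.prod := by
  induction l with
  | nil => exact small_one
  | cons a l ih =>
    rw [List.prod_cons, List.length_cons, add_comm]
    exact small_mul (hl a (by simp)) (ih (fun x hx => hl x (by simp [hx])))

noncomputable def W (l : List Bool) : SL := (l.map M).prod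

theorem W_cons (c : Bool) (l : List Bool) : W (c :: l) = M c * W l := by simp [W]

theorem W0 (c : Bool) (l : List Bool) :
    (W (c :: l)).1 0 0 = (X + (if c then 1 else 0)) * (W l).1 0 0 - (W l).1 1 0 := by
  rw [W_cons, Matrix.SpecialLinearGroup.coe_mul, Matrix.mul_apply, Fin.sum_univ_two]
  simp [M, sub_eq_add_neg]

theorem W1 (c : Bool) (l : List Bool) : (W (c :: l)).1 1 0 = (W l).1 0 0 := by
  rw [W_cons, Matrix.SpecialLinearGroup.coe_mul, Matrix.mul_apply, Fin.sum_univ_two]
  simp [M]

theorem W_deg (l : List Bool) : ((W l).1 1 0).degree < ((W l).1 0 0).degree := by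
  induction l with
  | nil => simp [W]
  | cons c l ih =>
    rw [W0, W1]
    have h0 : (W l).1 0 0 ≠ 0 := ne_zero_of_degree_gt ih
    have h1 : (X + (if c then 1 else 0) : R).degree = 1 := by
      have := degXc c
      rw [degree_eq_natDegree (by intro h; rw [h] at this; simp at this), this]
      rfl
    have h2 : ((W l).1 0 0).degree < ((X + (if c then 1 else 0)) * (W l).1 0 0).degree := by
      rw [degree_mul, h1, degree_eq_natDegree h0]
      norm_cast
      omega
    rw [degree_sub_eq_left_of_degree_lt (ih.trans h2)]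
    exact h2

theorem W_inj : ∀ (l l' : List Bool), l.length = l'.length → W l = W l' → l = l'
  | [], [], _, _ => rfl
  | [], _ :: _, h, _ => by simp at h
  | _ :: _, [], h, _ => by simp at h
  | c :: l, c' :: l', h, e => by
    have e1 : (W l).1 0 0 = (W l').1 0 0 := by rw [← W1 c, ← W1 c', e]
    have e0 := W0 c l
    rw [e, W0, ← e1] at e0
    have d1 := W_deg l
    have d2 := W_deg l'
    rw [← e1] at d2
    have hc : c = c' := by
      by_contra hne
      have k1 := (degree_sub_le ((W l).1 1 0) ((W l').1 1 0)).trans_lt (max_lt d1 d2)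
      have k2 := (degree_sub_le ((W l').1 1 0) ((W l).1 1 0)).trans_lt (max_lt d2 d1)
      cases c <;> cases c'
      · exact hne rfl
      · have : (W l').1 1 0 - (W l).1 1 0 = (W l).1 0 0 := by
          simp only [Bool.false_eq_true, if_false, if_true] at e0
          linear_combination -e0
        rw [this] at k2
        exact lt_irrefl _ k2
      · have : (W l).1 1 0 - (W l').1 1 0 = (W l).1 0 0 := by
          simp only [Bool.false_eq_true, if_false, if_true] at e0
          linear_combination e0
        rw [this] at k1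
        exact lt_irrefl _ k1
      · exact hne rfl
    subst hc
    rw [W_cons, W_cons, mul_left_cancel_iff] at e
    rw [W_inj l l' (by simpa using h) e]

section act

variable (F : Type) [Field F] [Algebra (ZMod 2) F]

noncomputable def ev (τ : F) : R →+* F := (Polynomial.aeval τ).toRingHom

@[reducible] noncomputable def act : MulAction SL (F × (Fin 2 → F)) where
  smul g p := (p.1, (g.1.map (ev F p.1)).mulVec p.2)
  one_smul p := by
    change (p.1, ((1 : SL).1.map (ev F p.1)).mulVec p.2) = p
    simp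
  mul_smul g h p := by
    change (p.1, ((g * h : SL).1.map (ev F p.1)).mulVec p.2) =
      (p.1, (g.1.map (ev F p.1)).mulVec ((h.1.map (ev F p.1)).mulVec p.2))
    rw [Matrix.SpecialLinearGroup.coe_mul, Matrix.map_mul, Matrix.mulVec_mulVec]

noncomputable def rho : SL →* Equiv.Perm (F × (Fin 2 → F)) :=
  @MulAction.toPermHom _ _ _ (act F)

theorem rho_apply (g : SL) (p : F × (Fin 2 → F)) :
    rho F g p = (p.1, (g.1.map (ev F p.1)).mulVec p.2) := rfl

theorem fix_count [Fintype F] [DecidableEq F] (N : ℕ) (g : SL) (hg : Small N g) (h1 : g ≠ 1) :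
    (Finset.univ.filter (fun p => rho F g p = p)).card ≤ (N + 1) * Fintype.card F ^ 2 := by
  obtain ⟨i, j, hij⟩ : ∃ i j, g.1 i j ≠ (1 : SL).1 i j := by
    by_contra hc
    push Not at hc
    exact h1 (Subtype.ext (Matrix.ext hc))
  set P : R := g.1 i j - (1 : SL).1 i j with hP
  have hP0 : P ≠ 0 := sub_ne_zero.2 hij
  have hPd : P.natDegree ≤ N :=
    (natDegree_sub_le _ _).trans (max_le (hg i j) ((small_one i j).trans (Nat.zero_le _)))
  let bad : Finset F := (P.aroots F).toFinset
  have hbad : bad.card ≤ N := by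
    refine (Multiset.toFinset_card_le _).trans ((Polynomial.card_roots' _).trans ?_)
    exact natDegree_map_le.trans hPd
  have hsub : Finset.univ.filter (fun p => rho F g p = p) ⊆ (bad ×ˢ Finset.univ) ∪
      Finset.univ.filter (fun p => rho F g p = p ∧ ev F p.1 P ≠ 0) := by
    intro p hp
    simp only [Finset.mem_filter, Finset.mem_univ, true_and] at hp
    by_cases h : ev F p.1 P = 0
    · apply Finset.mem_union_left
      simp only [Finset.mem_product, Finset.mem_univ, and_true, bad, Multiset.mem_toFinset]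
      rw [Polynomial.mem_aroots]
      exact ⟨hP0, h⟩
    · apply Finset.mem_union_right
      simp [hp, h]
  have hgood : (Finset.univ.filter (fun p : F × (Fin 2 → F) =>
      rho F g p = p ∧ ev F p.1 P ≠ 0)).card ≤ (Finset.univ : Finset (F × F)).card := by
    refine Finset.card_le_card_of_injOn (fun p => (p.1, p.2 (j + 1))) (fun _ _ => by simp) ?_
    rintro ⟨τ, v⟩ hp ⟨τ', v'⟩ hq e
    simp only [Finset.coe_filter, Finset.mem_univ, true_and, Set.mem_ofPred_eq, rho_apply,
      Prod.mk.injEq] at hp hq e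
    obtain ⟨rfl, e⟩ := e
    obtain ⟨a1, a2⟩ := hp
    obtain ⟨b1, -⟩ := hq
    have c1 := congrFun a1 i
    have c2 := congrFun b1 i
    simp only [Matrix.mulVec, dotProduct, Fin.sum_univ_two, Matrix.map_apply] at c1 c2
    rw [hP, map_sub] at a2
    congr 1
    funext k
    fin_cases i <;> fin_cases j <;> fin_cases k <;> simp at * <;>
      first
      | exact e
      | (apply mul_left_cancel₀ a2; rw [e] at c1; linear_combination c1 - c2)
  refine (Finset.card_le_card hsub).trans ((Finset.card_union_le _ _).trans ?_)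
  rw [Finset.card_product]
  simp only [Finset.card_univ, Fintype.card_prod, Fintype.card_pi, Finset.prod_const,
    Fintype.card_fin] at hgood ⊢
  nlinarith [Nat.mul_le_mul_right (Fintype.card F ^ 2) hbad]

end act

theorem approx (N : ℕ) : ∃ d : ℕ, 0 < d ∧ d ≤ 8 * (N + 1) ^ 6 ∧ ∃ φ : SL →* Equiv.Perm (Fin d),
    ∀ g : SL, Small N g → g ≠ 1 → 0 < N →
      1 - 1 / (N : ℝ) ≤
        ((Finset.univ.filter (fun i : Fin d => φ g i ≠ i)).card : ℝ) / (d : ℝ) := by
  classical
  let m := Nat.log 2 ((N + 1) ^ 2) + 1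
  have h1 : (N + 1) ^ 2 < 2 ^ m := Nat.lt_pow_succ_log_self (by norm_num) _
  have h2 : 2 ^ m ≤ 2 * (N + 1) ^ 2 := by
    rw [pow_succ, mul_comm]
    exact Nat.mul_le_mul_left 2 (Nat.pow_log_le_self 2 (by positivity))
  let F := GaloisField 2 m
  letI : Fintype F := Fintype.ofFinite F
  have hF : Fintype.card F = 2 ^ m := by
    rw [← Nat.card_eq_fintype_card]
    exact GaloisField.card 2 m (by omega)
  set q := 2 ^ m with hq
  have hΩ : Fintype.card (F × (Fin 2 → F)) = q ^ 3 := by
    simp [hF]
    ring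
  let e : (F × (Fin 2 → F)) ≃ Fin (q ^ 3) := Fintype.equivFinOfCardEq hΩ
  refine ⟨q ^ 3, by positivity, ?_, e.permCongrHom.toMonoidHom.comp (rho F), ?_⟩
  · calc q ^ 3 ≤ (2 * (N + 1) ^ 2) ^ 3 := Nat.pow_le_pow_left h2 3
      _ = _ := by ring
  · intro g hg hg1 hN
    have c1 := fix_count F N g hg hg1
    rw [hF] at c1
    have c2 : (Finset.univ.filter (fun i : Fin (q ^ 3) =>
        (e.permCongrHom.toMonoidHom.comp (rho F)) g i = i)).card =
        (Finset.univ.filter (fun p => rho F g p = p)).card := by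
      refine Finset.card_equiv e.symm (fun i => ?_)
      simp [Equiv.permCongrHom, Equiv.apply_eq_iff_eq_symm_apply]
    have c3 := Finset.card_filter_add_card_filter_not (s := (Finset.univ : Finset (Fin (q ^ 3))))
      (fun i => (e.permCongrHom.toMonoidHom.comp (rho F)) g i = i)
    rw [c2, Finset.card_univ, Fintype.card_fin] at c3
    have hq0 : (0 : ℝ) < q := by positivity
    have hN0 : (0 : ℝ) < N := by exact_mod_cast hN
    rw [le_div_iff₀ (by positivity)]
    have c4 : (((Finset.univ.filter (fun p => rho F g p = p)).card : ℕ) : ℝ) ≤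
        (N + 1) * (q : ℝ) ^ 2 := by exact_mod_cast c1
    have c5 : (((Finset.univ.filter (fun p => rho F g p = p)).card : ℕ) : ℝ) +
      ((Finset.univ.filter (fun i : Fin (q ^ 3) =>
        (e.permCongrHom.toMonoidHom.comp (rho F)) g i ≠ i)).card : ℝ) = (q : ℝ) ^ 3 := by
      exact_mod_cast c3
    have c6 : ((N : ℝ) + 1) ^ 2 ≤ q := by exact_mod_cast h1.le
    have c7 : (N + 1) * (q : ℝ) ^ 2 ≤ 1 / (N : ℝ) * (q : ℝ) ^ 3 := by
      rw [one_div, inv_mul_eq_div, le_div_iff₀ hN0]
      have : (N + 1) * (N : ℝ) ≤ q := by nlinarith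
      nlinarith [mul_le_mul_of_nonneg_right this (sq_nonneg (q : ℝ))]
    push_cast
    linarith

theorem grow (C : ℕ) : ∃ n : ℕ, 0 < n ∧ C * (8 * (C * n + 1) ^ 6) < 2 ^ n := by
  have h := tendsto_pow_const_div_const_pow_of_one_lt 6 (r := (2 : ℝ)) (by norm_num)
  have hK : (0 : ℝ) < 1 / (8 * (C + 1) ^ 7) := by positivity
  obtain ⟨n, hn1, hn2⟩ := ((h.eventually (gt_mem_nhds hK)).and
    (Filter.eventually_gt_atTop 0)).exists
  refine ⟨n, hn2, ?_⟩
  rw [div_lt_div_iff₀ (by positivity) (by positivity), one_mul] at hn1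
  have h3 : n ^ 6 * (8 * (C + 1) ^ 7) < 2 ^ n := by exact_mod_cast hn1
  refine lt_of_le_of_lt ?_ h3
  have h4 : C * n + 1 ≤ (C + 1) * n := by nlinarith
  calc C * (8 * (C * n + 1) ^ 6) ≤ (C + 1) * (8 * ((C + 1) * n) ^ 6) := by gcongr; omega
    _ = _ := by ring

end Pool.Agent.H69.Sofic
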