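import Pool.Agent.H69.SplDefs

namespace Pool.Agent.H69.Spl

open HNNExtension Subgroup Filter
open scoped RegularWreathProduct

variable {G K : Type} [Group G] [Group K]

theorem IsAmalgam.ext {A B C : Subgroup G} (h : IsAmalgam A B C) {X : Type} [Group X] (α : A →* X)
    (hα : ∀ a : A, a.1 ∈ C → α a = 1) : ∃ Φ : G →* X, ∀ a : A, Φ a = α a := by
  obtain ⟨h, hb⟩ := h
  let f : ∀ i : Bool, ↥(cond i A B) →* X := fun i => match i with
    | true => α
    | false => 1
  have hf : ∀ i, (f i).comp (Subgroup.inclusion (h i)) = 1 := fun i => by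
    ext c
    cases i
    · rfl
    · exact hα _ c.2
  have e1 := fun a => Monoid.PushoutI.lift_of (G := fun i : Bool => ↥(cond i A B)) f 1 hf (i := true) a
  have e2 := fun a => Monoid.PushoutI.lift_of (G := fun i : Bool => ↥(cond i A B))
    (φ := fun i => Subgroup.inclusion (h i)) (fun i => (cond i A B).subtype) C.subtype
    (fun _ => rfl) (i := true) a
  refine ⟨(Monoid.PushoutI.lift f 1 hf).comp (MulEquiv.ofBijective _ hb).symm.toMonoidHom, fun a => ?_⟩
  exact (congrArg (Monoid.PushoutI.lift f 1 hf) (((MulEquiv.ofBijective _ hb).symm_apply_eq).2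
    (e2 a).symm)).trans (e1 a)

theorem amal_of {A B C : Subgroup G} (h1 : C ≤ A) (h2 : C ≤ B) (h3 : A ⊔ B = ⊤)
    (h4 : ∀ (X : Type) [Group X] (l : A →* X) (r : B →* X),
      (∀ c (hc : c ∈ C), l ⟨c, h1 hc⟩ = r ⟨c, h2 hc⟩) →
        ∃ ψ : G →* X, (∀ a : A, ψ a = l a) ∧ ∀ b : B, ψ b = r b) : IsAmalgam A B C := by
  have h : ∀ i : Bool, C ≤ cond i A B := fun i => by cases i <;> assumption
  have e := fun i a => Monoid.PushoutI.lift_of (G := fun i : Bool => ↥(cond i A B))
    (φ := fun i => Subgroup.inclusion (h i)) (fun i => (cond i A B).subtype) C.subtype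
    (fun _ => rfl) (i := i) a
  have o := Monoid.PushoutI.of_apply_eq_base (G := fun i : Bool => ↥(cond i A B))
    fun i => Subgroup.inclusion (h i)
  obtain ⟨ψ, a, b⟩ := h4 _ (Monoid.PushoutI.of (G := fun i : Bool => ↥(cond i A B))
    (φ := fun i => Subgroup.inclusion (h i)) true) (Monoid.PushoutI.of
    (G := fun i : Bool => ↥(cond i A B)) (φ := fun i => Subgroup.inclusion (h i)) false)
    fun c hc => (o true ⟨c, hc⟩).trans (o false ⟨c, hc⟩).symm
  refine ⟨h, Function.LeftInverse.injective (g := ψ) fun x => DFunLike.congr_fun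
    (Monoid.PushoutI.hom_ext_nonempty (f := ψ.comp _) (g := MonoidHom.id _) fun i =>
      MonoidHom.ext fun y => (congrArg ψ (e i y)).trans ?_) x, ?_⟩
  · cases i
    · exact b y
    · exact a y
  · rw [← MonoidHom.range_eq_top, eq_top_iff, ← h3, sup_le_iff]
    exact ⟨fun x hx => ⟨_, e true ⟨x, hx⟩⟩, fun x hx => ⟨_, e false ⟨x, hx⟩⟩⟩

theorem gen {A1 A2 : Subgroup K} (φ : A1 ≃* A2) :
    (of : K →* HNNExtension K A1 A2 φ).range ⊔ zpowers t = ⊤ := by
  refine eq_top_iff.2 fun x _ => ?_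
  induction x using HNNExtension.induction_on with
  | of g => exact mem_sup_left ⟨g, rfl⟩
  | t => exact mem_sup_right (mem_zpowers _)
  | mul x y p q => exact mul_mem (p trivial) (q trivial)
  | inv x p => exact inv_mem (p trivial)

theorem amal {A1 A2 : Subgroup K} (φ : A1 ≃* A2) (C : Subgroup K) (a b : K)
    (h1 : ∀ x ∈ A1, a⁻¹ * x * a ∈ C) (h2 : ∀ x ∈ A2, b⁻¹ * x * b ∈ C) :
    ∃ B : Subgroup (HNNExtension K A1 A2 φ), IsAmalgam of.range B (C.map of) ∧ C.map of ≠ B := by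
  let u : HNNExtension K A1 A2 φ := of b⁻¹ * t * of a
  let B := closure (insert u (of '' C))
  have hu : u ∈ B := subset_closure (Set.mem_insert _ _)
  have h : C.map of ≤ B := fun x hx => subset_closure (Set.mem_insert_of_mem _ hx)
  refine ⟨B, amal_of (map_le_range _ _) h (eq_top_iff.2 ((gen φ).ge.trans (sup_le le_sup_left
    (zpowers_le.2 ?_)))) fun X _ l' r lr => ?_, fun e => ?_⟩
  · rw [show t = of b * u * of a⁻¹ by simp [u, mul_assoc]]
    exact mul_mem (mul_mem (mem_sup_left ⟨_, rfl⟩) (mem_sup_right hu)) (mem_sup_left ⟨_, rfl⟩)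
  · let l := l'.comp of.rangeRestrict
    replace lr : ∀ x (hx : x ∈ C), l x = r ⟨of x, h ⟨x, hx, rfl⟩⟩ := fun x hx => lr _ ⟨x, hx, rfl⟩
    let ψ := lift (φ := φ) l (l b * r ⟨u, hu⟩ * l a⁻¹) fun x => by
      have : r ⟨u, hu⟩ * l (a⁻¹ * x * a) = l (b⁻¹ * φ x * b) * r ⟨u, hu⟩ := by
        rw [lr _ (h1 _ x.2), lr _ (h2 _ (φ x).2), ← map_mul, ← map_mul]
        refine congrArg r (Subtype.ext ?_)
        simp [u, mul_assoc, ← mul_assoc t, t_mul_of]
      simp only [map_mul, map_inv] at this ⊢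
      rw [mul_assoc, mul_assoc, ← mul_inv_cancel_right ((l a)⁻¹ * _) (l a), ← mul_assoc (r _), this]
      simp [mul_assoc]
    refine ⟨ψ, by rintro ⟨_, y, rfl⟩; exact lift_of _ _ _ y, fun ⟨g, hg⟩ => ?_⟩
    induction hg using closure_induction with
    | mem x hx =>
      rcases hx with rfl | ⟨x, hx, rfl⟩
      · simp [ψ, u, mul_assoc]
      · simp [ψ, lr x hx]
    | one => exact (map_one ψ).trans (map_one r).symm
    | mul x y _ _ p q => exact (map_mul ψ _ _).trans ((congrArg₂ _ p q).trans (map_mul r _ _).symm)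
    | inv x _ p => exact (map_inv ψ _).trans ((congrArg _ p).trans (map_inv r _).symm)
  · obtain ⟨x, -, hx⟩ : u ∈ C.map of := e ▸ hu
    have := congrArg (lift (φ := φ) (1 : K →* Multiplicative ℤ) (.ofAdd 1) (by simp)) hx
    simp only [u, map_mul, lift_of, lift_t, MonoidHom.one_apply] at this
    exact absurd this (by decide)

def UP (H C : Subgroup G) (u : G) : Prop :=
  ∃ (h1 : ∀ c ∈ C, c ∈ H) (h2 : ∀ c ∈ C, u * c * u⁻¹ ∈ H), H ⊔ zpowers u = ⊤ ∧
    ∀ (X : Type) [Group X] (f : H →* X) (x : X),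
      (∀ c (hc : c ∈ C), x * f ⟨c, h1 c hc⟩ = f ⟨_, h2 c hc⟩ * x) →
        ∃ ψ : G →* X, (∀ h : H, ψ h = f h) ∧ ψ u = x

theorem UP.hnn {H C : Subgroup G} {u : G} (h : UP H C u) : IsHNN C := by
  obtain ⟨h1, h2, h3, h4⟩ := h
  let j : C.subgroupOf H →* H := ((MulAut.conj u).toMonoidHom.comp
    (H.subtype.comp (Subgroup.subtype _))).codRestrict H fun c => h2 _ c.2
  have hj : Function.Injective j := fun a b e =>
    Subtype.ext (Subtype.ext ((MulAut.conj u).injective (congrArg Subtype.val e)))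
  have rel : ∀ c : C.subgroupOf H, u * H.subtype c = H.subtype (MonoidHom.ofInjective hj c) * u :=
    fun c => (inv_mul_cancel_right _ u).symm
  refine ⟨H, C.subgroupOf H, j.range, MonoidHom.ofInjective hj, u, rel,
    by simpa using show C ≤ H from h1, ?_, ?_⟩
  · obtain ⟨ψ, a, b⟩ := h4 (HNNExtension H _ _ (MonoidHom.ofInjective hj)) of t fun c hc =>
      t_mul_of (⟨⟨c, h1 c hc⟩, hc⟩ : C.subgroupOf H)
    refine Function.LeftInverse.injective (g := ψ) fun x => DFunLike.congr_fun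
      (hom_ext (f := ψ.comp _) (g := MonoidHom.id _) (MonoidHom.ext fun y => ?_) ?_) x
    · simpa using a y
    · simpa using b
  · rw [← MonoidHom.range_eq_top, eq_top_iff, ← h3, sup_le_iff, zpowers_le]
    exact ⟨fun x hx => ⟨of ⟨x, hx⟩, by simp⟩, t, by simp⟩

theorem fold {A1 A2 : Subgroup K} (φ : A1 ≃* A2) (C : Subgroup K) (h : A1 ≤ C) :
    ∃ H : Subgroup (HNNExtension K A1 A2 φ), UP H (C.map of) t := by
  let H : Subgroup (HNNExtension K A1 A2 φ) :=
    closure (Set.range of ∪ (fun c => t * of c * t⁻¹) '' C)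
  have m1 : ∀ k, of k ∈ H := fun k => subset_closure (.inl ⟨k, rfl⟩)
  have m2 : ∀ k ∈ C, t * of k * t⁻¹ ∈ H := fun k hk => subset_closure (.inr ⟨k, hk, rfl⟩)
  refine ⟨H, by rintro _ ⟨k, -, rfl⟩; exact m1 k, by rintro _ ⟨k, hk, rfl⟩; exact m2 k hk,
    eq_top_iff.2 ((gen φ).ge.trans (sup_le_sup_right (by rintro _ ⟨k, rfl⟩; exact m1 k) _)),
    fun X _ f x hx => ?_⟩
  let ψ := lift (φ := φ) (f.comp (of.codRestrict H m1)) x fun a => by
    refine (hx _ ⟨a, h a.2, rfl⟩).trans (congrArg (fun z => f z * x) (Subtype.ext ?_))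
    exact (equiv_eq_conj a).symm
  refine ⟨ψ, fun ⟨g, hg⟩ => ?_, by simp [ψ]⟩
  induction hg using closure_induction with
  | mem y hy =>
    rcases hy with ⟨k, rfl⟩ | ⟨k, hk, rfl⟩
    · exact lift_of _ _ _ k
    · simp only [map_mul, map_inv, ψ, lift_of, lift_t]
      exact mul_inv_eq_of_eq_mul (hx _ ⟨k, hk, rfl⟩)
  | one => exact (map_one ψ).trans (map_one f).symm
  | mul x y _ _ p q => exact (map_mul ψ _ _).trans ((congrArg₂ _ p q).trans (map_mul f _ _).symm)
  | inv x _ p => exact (map_inv ψ _).trans ((congrArg _ p).trans (map_inv f _).symm)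

theorem UP.map {H C : Subgroup G} {u : G} (h : UP H C u) (e : G ≃* G) :
    UP (H.map e) (C.map e) (e u) := by
  obtain ⟨h1, h2, h3, h4⟩ := h
  refine ⟨by rintro _ ⟨c, hc, rfl⟩; exact ⟨c, h1 c hc, rfl⟩,
    by rintro _ ⟨c, hc, rfl⟩; exact ⟨_, h2 c hc, by simp⟩, ?_, fun X _ f x hx => ?_⟩
  · have := congrArg (Subgroup.map (e : G →* G)) h3
    rwa [Subgroup.map_sup, MonoidHom.map_zpowers, map_top_of_surjective _ e.surjective] at this
  obtain ⟨ψ, a, b⟩ := h4 X (f.comp (e.subgroupMap H)) x fun c hc =>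
    (hx _ ⟨c, hc, rfl⟩).trans (congrArg (fun z => f z * x) (Subtype.ext (by simp)))
  refine ⟨ψ.comp e.symm, ?_, by simpa using b⟩
  rintro ⟨_, g, hg, rfl⟩
  exact (congrArg ψ (e.symm_apply_apply g)).trans (a ⟨g, hg⟩)

theorem free1 {H : Subgroup G} {u a : G} (h3 : H ⊔ zpowers u = ⊤)
    (h4 : ∀ (X : Type) [Group X] (f : H →* X) (x : X), ∃ ψ : G →* X, (∀ h : H, ψ h = f h) ∧ ψ u = x)
    (hd : ∀ φ : G →* Multiplicative ℤ, φ a = 1) {p : ℕ} (hp : (u * a * u⁻¹) ^ p = a) : a = 1 := by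
  let c : G → Multiplicative ℤ → G := fun g j => if 0 ≤ j.toAdd then g else 1
  obtain ⟨Φ, h1, h2⟩ := h4 (G ≀ᵣ Multiplicative ℤ) (MonoidHom.mk' (fun h => ⟨c h, 1⟩) fun x y => by
    ext j
    · by_cases hj : 0 ≤ j.toAdd <;> simp [c, hj]
    · simp) ⟨c u, .ofAdd 1⟩
  let S : Subgroup G :=
    { carrier := {g | (∀ᶠ j : ℤ in atTop, (Φ g).left (.ofAdd j) = g) ∧
        ∀ᶠ j : ℤ in atBot, (Φ g).left (.ofAdd j) = 1}
      one_mem' := by simp
      mul_mem' := fun {x y} hx hy => ⟨by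
        filter_upwards [hx.1, (tendsto_atTop_add_const_left _ (Φ x).right⁻¹.toAdd
          tendsto_id).eventually hy.1] with j p q
        rw [map_mul]
        exact congrArg₂ _ p q, by
        filter_upwards [hx.2, (tendsto_atBot_add_const_left _ (Φ x).right⁻¹.toAdd
          tendsto_id).eventually hy.2] with j p q
        rw [map_mul]
        exact (congrArg₂ _ p q).trans (mul_one _)⟩
      inv_mem' := fun {x} hx => ⟨by
        filter_upwards [(tendsto_atTop_add_const_left _ (Φ x).right.toAdd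
          tendsto_id).eventually hx.1] with j p
        rw [map_inv]
        exact congrArg _ p, by
        filter_upwards [(tendsto_atBot_add_const_left _ (Φ x).right.toAdd
          tendsto_id).eventually hx.2] with j p
        rw [map_inv]
        exact (congrArg _ p).trans inv_one⟩ }
  have k : ∀ g, (Φ g).left = c g → g ∈ S := fun g e => ⟨by
    filter_upwards [eventually_ge_atTop 0] with j hj
    simp [e, c, hj], by
    filter_upwards [eventually_lt_atBot 0] with j hj
    simp [e, c, hj]⟩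
  have : a ∈ S := (h3.ge.trans (sup_le (fun g hg => k g (by rw [h1 ⟨g, hg⟩]; rfl))
    (zpowers_le.2 (k u (by rw [h2]))))) trivial
  obtain ⟨m, hm⟩ := eventually_atBot.1 this.2
  obtain ⟨n, hn⟩ := eventually_atTop.1 this.1
  have r : (Φ a).right = 1 := hd (RegularWreathProduct.rightHom.comp Φ)
  have pw : ∀ (w : G ≀ᵣ Multiplicative ℤ) j, w.right = 1 → w.left j = 1 → ∀ q : ℕ,
      (w ^ q).left j = 1 := fun w j e1 e2 q => by
    induction q with
    | zero => rfl
    | succ q ih => simp [pow_succ', e1, e2, ih]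
  have all : ∀ j ≥ m, (Φ a).left (.ofAdd j) = 1 := fun j hj => by
    induction j, hj using Int.le_induction with
    | base => exact hm m le_rfl
    | succ j _ ih =>
      rw [← hp, map_pow]
      refine pw _ _ (by simp [r]) ?_ p
      simp [h2, r, ← ofAdd_neg, ← ofAdd_add, ih, add_comm]
  rw [← hn (max m n) (le_max_right _ _), all _ (le_max_left _ _)]

theorem free2 (h : IsHNN (⊥ : Subgroup G)) {a : G} (hd : ∀ φ : G →* Multiplicative ℤ, φ a = 1)
    (hp : ∀ u, ∃ p : ℕ, (u * a * u⁻¹) ^ p = a ∨ (u⁻¹ * a * u) ^ p = a) : a = 1 := by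
  obtain ⟨H, C, D, φ, u, h, hC, hb⟩ := h
  obtain rfl : C = ⊥ := (map_eq_bot_iff_of_injective _ H.subtype_injective).1 hC
  have h3 : H ⊔ zpowers u = ⊤ := by
    have := congrArg (Subgroup.map (lift H.subtype u h)) (gen φ)
    rwa [Subgroup.map_sup, MonoidHom.map_zpowers, map_top_of_surjective _ hb.2, lift_t,
      MonoidHom.map_range, show (lift H.subtype u h).comp of = H.subtype from
        MonoidHom.ext (lift_of H.subtype u h), range_subtype] at this
  have h4 : ∀ (X : Type) [Group X] (f : H →* X) (x : X),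
      ∃ ψ : G →* X, (∀ h : H, ψ h = f h) ∧ ψ u = x := fun X _ f x => by
    let e := MulEquiv.ofBijective _ hb
    let L := lift (φ := φ) f x fun a => by simp [Subsingleton.elim a 1]
    refine ⟨L.comp e.symm.toMonoidHom, fun g => ?_, ?_⟩
    · exact (congrArg L (e.symm_apply_eq.2 (lift_of H.subtype u h g).symm)).trans (lift_of _ _ _ g)
    · exact (congrArg L (e.symm_apply_eq.2 (lift_t H.subtype u h).symm)).trans (lift_t _ _ _)
  obtain ⟨p, hp | hp⟩ := hp u
  · exact free1 h3 h4 hd hp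
  · refine free1 (u := u⁻¹) (by rwa [zpowers_inv]) (fun X _ f x => ?_) hd (by rwa [inv_inv])
    obtain ⟨ψ, a, b⟩ := h4 X f x⁻¹
    exact ⟨ψ, a, by simp [b]⟩

theorem fg_map {L : Type} [Group L] {H : Subgroup K} (h : H.FG) (f : K →* L) : (H.map f).FG := by
  obtain ⟨s, rfl, hs⟩ := (Subgroup.fg_iff _).1 h
  exact (Subgroup.fg_iff _).2 ⟨_, (MonoidHom.map_closure f s).symm, hs.image _⟩

theorem fg_hnn {A1 A2 : Subgroup K} (φ : A1 ≃* A2) (h : Group.FG K) :
    Group.FG (HNNExtension K A1 A2 φ) := by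
  rw [Group.fg_def, ← gen φ, MonoidHom.range_eq_map]
  exact (fg_map (Group.fg_def.1 h) _).sup ⟨{t}, by simp [zpowers_eq_closure]⟩

theorem sl_zpowers (a : K) : Slender (zpowers a) := fun H h => by
  obtain ⟨n, rfl⟩ := (Subgroup.le_zpowers_iff _ _).1 h
  exact ⟨{a ^ n}, by simp [zpowers_eq_closure]⟩

theorem Slender.map {L : Type} [Group L] {C : Subgroup K} (h : Slender C) (f : K →* L) :
    Slender (C.map f) := fun H hH => by
  have : (H.comap f ⊓ C).map f = H := le_antisymm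
    ((Subgroup.map_mono inf_le_left).trans (Subgroup.map_comap_le _ _))
    fun x hx => by
      obtain ⟨y, hy, rfl⟩ := hH hx
      exact ⟨y, ⟨hx, hy⟩, rfl⟩
  exact this ▸ fg_map (h _ inf_le_right) f

theorem sl_ext {L : Type} [Group L] {C : Subgroup K} (f : K →* L) (h1 : Slender (C.map f))
    (h2 : Slender f.ker) : Slender C := fun H hH => by
  obtain ⟨s, hs, fs⟩ := (Subgroup.fg_iff _).1 (h1 _ (Subgroup.map_mono hH))
  obtain ⟨s', a, b, c⟩ := Set.Finite.exists_subset_finite_image_eq (f := f) (s := H) fs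
    (fun x hx => show x ∈ H.map f from hs ▸ subset_closure hx)
  have e : closure s' ⊔ H ⊓ f.ker = H := le_antisymm (sup_le ((closure_le _).2 a) inf_le_left)
    fun x hx => by
      obtain ⟨y, hy, e⟩ : f x ∈ (closure s').map f := by
        rw [MonoidHom.map_closure, c, hs]
        exact ⟨x, hx, rfl⟩
      rw [← mul_inv_cancel_left y x]
      exact mul_mem (mem_sup_left hy) (mem_sup_right ⟨H.mul_mem (H.inv_mem ((closure_le _).2 a hy)) hx,
        by simp [e]⟩)
  exact e ▸ ((Subgroup.fg_iff _).2 ⟨s', rfl, b⟩).sup (h2 _ inf_le_right)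

end Pool.Agent.H69.Spl
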