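import Pool.Agent.H69.Spl1

namespace Pool.Agent.H69.Spl

open HNNExtension Subgroup

theorem Slender.mono {G : Type} [Group G] {C D : Subgroup G} (h : Slender D) (e : C ≤ D) :
    Slender C := fun H hH => h H (hH.trans e)

theorem sl_int : Slender (⊤ : Subgroup (Multiplicative ℤ)) :=
  (sl_zpowers (.ofAdd 1)).mono fun x _ => ⟨x.toAdd, by simp [← ofAdd_zsmul]⟩

theorem zero_of_dvd {p i : ℤ} (hp : 1 < p) (h : ∀ n : ℕ, p ^ n ∣ i) : i = 0 := by
  obtain ⟨n, hn⟩ := pow_unbounded_of_one_lt |i| hp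
  exact Int.eq_zero_of_abs_lt_dvd (h n) hn

@[ext] structure Kb where
  i : ℤ
  j : ℤ

def ε (j : ℤ) : ℤ := Int.negOnePow j

theorem ε_add (j k : ℤ) : ε (j + k) = ε j * ε k := by simp [ε, Int.negOnePow_add]

theorem ε_neg (j : ℤ) : ε (-j) = ε j := by simp [ε]

theorem ε_sq (j : ℤ) : ε j * ε j = 1 := by simp [ε, ← Units.val_mul]

theorem ε_even {j : ℤ} (h : Even j) : ε j = 1 := by simp [ε, Int.negOnePow_even j h]

theorem ε_odd {j : ℤ} (h : Odd j) : ε j = -1 := by simp [ε, Int.negOnePow_odd j h]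

instance : Group Kb where
  mul x y := ⟨x.i + ε x.j * y.i, x.j + y.j⟩
  one := ⟨0, 0⟩
  inv x := ⟨-(ε x.j * x.i), -x.j⟩
  mul_assoc x y z := Kb.ext (show x.i + ε x.j * y.i + ε (x.j + y.j) * z.i =
    x.i + ε x.j * (y.i + ε y.j * z.i) by rw [ε_add]; ring) (add_assoc _ _ _)
  one_mul x := Kb.ext (show 0 + ε 0 * x.i = x.i by simp [ε]) (zero_add _)
  mul_one x := Kb.ext (show x.i + ε x.j * 0 = x.i by simp) (add_zero _)
  inv_mul_cancel x := Kb.ext (show -(ε x.j * x.i) + ε (-x.j) * x.i = 0 by simp [ε_neg])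
    (neg_add_cancel _)

theorem mi (x y : Kb) : (x * y).i = x.i + ε x.j * y.i := rfl
theorem mj (x y : Kb) : (x * y).j = x.j + y.j := rfl
theorem ii (x : Kb) : x⁻¹.i = -(ε x.j * x.i) := rfl
theorem ij (x : Kb) : x⁻¹.j = -x.j := rfl

def pj : Kb →* Multiplicative ℤ := MonoidHom.mk' (fun x => .ofAdd x.j) fun _ _ => rfl

def γ : Multiplicative ℤ →* Kb := MonoidHom.mk' (fun x => ⟨x.toAdd, 0⟩) fun x y =>
  Kb.ext (by simp [mi, ε]) rfl

theorem sl_kb : Slender (⊤ : Subgroup Kb) := sl_ext pj (sl_int.mono le_top)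
  ((sl_int.map γ).mono fun x hx => ⟨.ofAdd x.i, trivial, Kb.ext rfl (Eq.symm hx)⟩)

theorem zinj (k : ℤ) : Function.Injective (zpowersHom Kb ⟨k, 1⟩) :=
  Function.LeftInverse.injective (g := pj) fun x => by
    rw [zpowersHom_apply, map_zpow]
    simp [pj, ← ofAdd_zsmul]

def Cn (n : ℕ) : Subgroup Kb where
  carrier := {x | 3 ^ n ∣ x.i}
  one_mem' := dvd_zero _
  mul_mem' := fun a b => dvd_add a (b.mul_left _)
  inv_mem' := fun a => (a.mul_left _).neg_right

theorem desc1 : ∃ (G : Type) (_ : Group G) (A : Subgroup G) (B C : ℕ → Subgroup G), Group.FG G ∧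
    (∀ n, IsAmalgam A (B n) (C n) ∧ C n ≠ A ∧ C n ≠ B n ∧ Slender (C n)) ∧ StrictAnti C ∧
    ¬∃ B' C' : Subgroup G, IsAmalgam A B' C' ∧ ∀ n, ∃ a ∈ A, ∀ c ∈ C', a * c * a⁻¹ ∈ C n := by
  let φ := (MonoidHom.ofInjective (zinj 0)).symm.trans (MonoidHom.ofInjective (zinj 1))
  have sa : StrictAnti fun n => (Cn n).map (of (φ := φ)) := strictAnti_nat_of_succ_lt fun n => by
    refine (map_lt_map_iff_of_injective (of_injective φ)).2 (lt_of_le_not_ge
      (fun x hx => (pow_dvd_pow 3 n.le_succ).trans hx) fun h => ?_)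
    have := Int.le_of_dvd (by positivity) (h (show ⟨3 ^ n, 0⟩ ∈ Cn n from dvd_rfl))
    have : (0 : ℤ) < 3 ^ n := by positivity
    simp only [pow_succ] at *
    omega
  have am : ∀ n, ∃ B, IsAmalgam (of (φ := φ)).range B ((Cn n).map of) ∧ (Cn n).map of ≠ B := by
    intro n
    obtain ⟨m, hm⟩ : Odd ((3 : ℤ) ^ n) := Odd.pow (by decide)
    exact amal φ (Cn n) 1 ⟨-m, 0⟩ (by
      rintro _ ⟨k, rfl⟩
      simpa using zpow_mem (show ⟨0, 1⟩ ∈ Cn n from dvd_zero _) _) (by
      rintro _ ⟨k, rfl⟩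
      rw [zpowersHom_apply, ← inv_inv (Kb.mk (-m) 0), inv_inv (Kb.mk (-m) 0)⁻¹, ← conj_zpow]
      refine zpow_mem (show 3 ^ n ∣ Kb.i _ from ⟨1, ?_⟩) _
      simp [mi, mj, ii, ij, ε, hm]
      ring)
  choose B h1 h2 using am
  refine ⟨_, inferInstance, (of (φ := φ)).range, fun n => B (n + 1), fun n => (Cn (n + 1)).map of,
    fg_hnn φ (Group.fg_def.2 (sl_kb _ le_rfl)), fun n => ⟨h1 _,
      ((sa n.lt_succ_self).trans_le (map_le_range _ _)).ne, h2 _, (sl_kb.mono le_top).map _⟩,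
    fun a b h => sa (Nat.succ_lt_succ h), ?_⟩
  rintro ⟨B', C', h, hc⟩
  have ev : ∀ c : Kb, of c ∈ C' → Even c.j → c.i = 0 := fun c hc' e => zero_of_dvd (p := 3) (by decide)
    fun n => by
      obtain ⟨_, ⟨a, rfl⟩, ha⟩ := hc n
      obtain ⟨x, hx, e'⟩ := ha _ hc'
      rw [← map_inv, ← map_mul, ← map_mul] at e'
      obtain rfl := of_injective φ e'
      have : (a * c * a⁻¹).i * ε a.j = c.i := by
        simp only [mi, mj, ii, ε_add, ε_even e]
        linear_combination (c.i - ε a.j * a.i) * ε_sq a.j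
      exact this ▸ ((pow_dvd_pow 3 n.le_succ).trans hx).mul_right _
  obtain ⟨k, hk⟩ : ∃ k, ∀ c : Kb, of c ∈ C' → Odd c.j → c.i = k := by
    by_cases h : ∃ c : Kb, of c ∈ C' ∧ Odd c.j
    · obtain ⟨d, h1, h2⟩ := h
      refine ⟨d.i, fun c p q => ?_⟩
      have := ev (c * d⁻¹) (by simpa using mul_mem p (inv_mem h1)) (q.add_odd h2.neg)
      simp only [mi, ii, ε_odd q, ε_odd h2] at this
      omega
    · exact ⟨0, fun c p q => (h ⟨c, p, q⟩).elim⟩
  let α : Kb →* Multiplicative (ZMod 2) :=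
    MonoidHom.mk' (fun x => .ofAdd ((x.i + k * x.j : ℤ) : ZMod 2)) fun x y => by
      rw [← ofAdd_add, ← Int.cast_add]
      refine congrArg _ ((ZMod.intCast_eq_intCast_iff_dvd_sub _ _ _).2 ?_)
      rcases Int.even_or_odd x.j with e | e
      · exact ⟨0, by simp only [mi, mj, ε_even e]; ring⟩
      · exact ⟨y.i, by simp only [mi, mj, ε_odd e]; push_cast; ring⟩
  obtain ⟨Φ, hΦ⟩ := h.ext (α.comp (MonoidHom.ofInjective (of_injective φ)).symm.toMonoidHom) (by
    rintro ⟨_, c, rfl⟩ p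
    refine (congrArg α ((MonoidHom.ofInjective (of_injective φ)).symm_apply_apply c)).trans
      (congrArg Multiplicative.ofAdd ((ZMod.intCast_zmod_eq_zero_iff_dvd _ _).2 (Even.two_dvd ?_)))
    rcases Int.even_or_odd c.j with e | e
    · simpa [ev c p e] using e.mul_left k
    · rw [hk c p e, ← mul_one_add]
      exact (odd_one.add_odd e).mul_left k)
  have v : ∀ x, Φ (of x) = α x := fun x => (hΦ ⟨_, x, rfl⟩).trans
    (congrArg α ((MonoidHom.ofInjective (of_injective φ)).symm_apply_apply x))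
  have := congrArg Φ (t_mul_of (φ := φ) (MonoidHom.ofInjective (zinj 0) (.ofAdd 1)))
  rw [map_mul, map_mul, mul_comm, mul_left_inj, v, v] at this
  simp [φ, α, MonoidHom.ofInjective_apply] at this

def dbl : Multiplicative ℤ →* Multiplicative ℤ := powMonoidHom 2

noncomputable def φ2 : (⊤ : Subgroup (Multiplicative ℤ)) ≃* dbl.range :=
  topEquiv.trans (MonoidHom.ofInjective (pow_left_injective two_ne_zero))

abbrev BS := HNNExtension _ _ _ φ2

noncomputable def x (i : ℤ) : BS := t ^ i * of (.ofAdd 1) * (t ^ i)⁻¹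

theorem x_succ (i : ℤ) : x (i + 1) = x i ^ 2 := by
  have : t * of (.ofAdd 1) * t⁻¹ = (of (.ofAdd 1) : BS) ^ 2 :=
    (equiv_eq_conj (φ := φ2) ⟨.ofAdd 1, trivial⟩).symm.trans (map_pow _ _ _)
  rw [x, x, conj_pow, ← this, zpow_add_one]
  simp [mul_assoc]

theorem x_add (i : ℤ) (n : ℕ) : x (i + n) = x i ^ 2 ^ n := by
  induction n with
  | zero => simp
  | succ n ih => rw [Nat.cast_succ, ← add_assoc, x_succ, ih, ← pow_mul, pow_succ]

theorem x_inj (i : ℤ) {a b : ℤ} (h : x i ^ a = x i ^ b) : a = b := by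
  rw [x, conj_zpow, conj_zpow, mul_left_inj, mul_right_inj, ← map_zpow of, ← map_zpow of] at h
  simpa [← ofAdd_zsmul] using of_injective φ2 h

theorem x_lt (i : ℤ) : zpowers (x (i + 1)) < zpowers (x i) := by
  rw [x_succ]
  refine lt_of_le_not_ge (zpowers_le.2 (pow_mem (mem_zpowers _) _)) fun h => ?_
  obtain ⟨k, hk⟩ := h (mem_zpowers _)
  have := x_inj i (a := 2 * k) (b := 1) (by simpa [zpow_mul] using hk)
  omega

theorem x_ne (i : ℤ) : x i ≠ 1 := fun h => by simpa using x_inj i (a := 1) (b := 0) (by simpa)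

theorem x_conj (u : BS) : ∃ m, ∀ i, u * x i * u⁻¹ = x (i + m) := by
  induction u using HNNExtension.induction_on with
  | of g =>
    refine ⟨0, fun i => ?_⟩
    have : Commute (x 0) (x i) := by
      rcases le_total 0 i with h | h
      · rw [← Int.natAbs_of_nonneg h, ← zero_add (i.natAbs : ℤ), x_add]
        exact Commute.self_pow _ _
      · rw [show 0 = i + i.natAbs by omega, x_add]
        exact Commute.pow_self _ _
    rw [show of g = x 0 ^ g.toAdd by simp [x, ← map_zpow, ← ofAdd_zsmul], (this.zpow_left _).eq]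
    simp
  | t => exact ⟨1, fun i => by simp [x, add_comm i, zpow_one_add, mul_assoc]⟩
  | mul a b p q =>
    obtain ⟨m, hm⟩ := p
    obtain ⟨n, hn⟩ := q
    exact ⟨n + m, fun i => by rw [← add_assoc, ← hm, ← hn]; simp [mul_assoc]⟩
  | inv a p =>
    obtain ⟨m, hm⟩ := p
    refine ⟨-m, fun i => ?_⟩
    conv_lhs => rw [← neg_add_cancel_right i m, ← hm]
    simp [mul_assoc]

theorem bs_fg : Group.FG BS := fg_hnn _ (Group.fg_def.2 (sl_int _ le_rfl))

theorem desc2 : ∃ (G : Type) (_ : Group G) (C : ℕ → Subgroup G), Group.FG G ∧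
    (∀ n, IsHNN (C n) ∧ Slender (C n)) ∧ StrictAnti C ∧
    ¬∃ C' : Subgroup G, IsHNN C' ∧ ∀ n, C' ≤ C n := by
  refine ⟨BS, inferInstance, fun n => zpowers (x n), bs_fg, fun n => ⟨?_, sl_zpowers _⟩,
    strictAnti_nat_of_succ_lt fun n => x_lt n, ?_⟩
  · obtain ⟨H, h⟩ := fold φ2 (zpowers (.ofAdd 1)) fun x _ => ⟨x.toAdd, by simp [← ofAdd_zsmul]⟩
    have := (h.map (MulAut.conj (t ^ (n : ℤ)))).hnn
    rwa [MonoidHom.map_zpowers, MonoidHom.map_zpowers] at this
  rintro ⟨C, h, hC⟩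
  obtain rfl : C = ⊥ := eq_bot_iff.2 fun c hc => by
    obtain ⟨k, rfl⟩ := hC 0 hc
    obtain rfl : k = 0 := zero_of_dvd (p := 2) (by decide) fun n => by
      obtain ⟨l, hl⟩ := hC n hc
      refine ⟨l, x_inj 0 ?_⟩
      have := x_add 0 n
      rw [zero_add] at this
      simpa [this, zpow_mul, ← zpow_natCast] using hl.symm
    simp
  refine x_ne 0 (free2 h (fun φ => ?_) fun u => ?_)
  · have := congrArg φ (x_succ 0)
    simpa [x, mul_comm, sq] using this
  · obtain ⟨m, hm⟩ := x_conj u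
    refine ⟨2 ^ m.natAbs, (le_total m 0).imp (fun h => ?_) fun h => ?_⟩
    · rw [hm, ← x_add]
      congr 1
      omega
    · have := hm (-m)
      rw [neg_add_cancel] at this
      rw [← this, show u⁻¹ * (u * x (-m) * u⁻¹) * u = x (-m) by simp [mul_assoc], ← x_add, this]
      congr 1
      omega

abbrev Z3 := Multiplicative (ZMod 3)

theorem asc : ∃ (G : Type) (_ : Group G) (A : Subgroup G) (B C : ℕ → Subgroup G), Group.FG G ∧
    (∀ n, (IsAmalgam A (B n) (C n) ∧ C n ≠ A ∧ C n ≠ B n) ∧ IsHNN (C n) ∧ Slender (C n)) ∧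
    StrictMono C ∧ ∀ C' < C 0, ¬IsHNN C' ∧ ∀ B', ¬IsAmalgam A B' C' := by
  let θ : Z3 × BS ≃* Z3 × BS := (MulEquiv.inv _).prodCongr (MulEquiv.refl _)
  let φ := θ.subgroupMap (MonoidHom.inl Z3 BS).range
  let D : ℕ → Subgroup BS := fun n => Nat.casesOn n ⊥ fun n => zpowers (x (-n))
  let C : ℕ → Subgroup (Z3 × BS) := fun n => (D n).comap (MonoidHom.snd _ _)
  have sm : StrictMono fun n => (C n).map (of (φ := φ)) := strictMono_nat_of_lt_succ fun n => by
    refine (map_lt_map_iff_of_injective (of_injective φ)).2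
      ((comap_lt_comap_of_surjective Prod.snd_surjective).2 ?_)
    cases n with
    | zero => exact bot_lt_iff_ne_bot.2 (zpowers_ne_bot.2 (x_ne _))
    | succ n => simpa [D] using x_lt (-(n + 1))
  have a1 : ∀ n, (MonoidHom.inl Z3 BS).range ≤ C n := fun n => by
    rintro _ ⟨k, rfl⟩
    exact one_mem (D n)
  have am := fun n => amal φ (C n) 1 1 (fun x hx => by simpa using a1 n hx) (by
    rintro _ ⟨_, ⟨k, rfl⟩, rfl⟩
    rw [inv_one, one_mul, mul_one]
    exact a1 n ⟨k⁻¹, rfl⟩)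
  choose B h1 h2 using am
  have fg := bs_fg
  refine ⟨_, inferInstance, (of (φ := φ)).range, B, fun n => (C n).map of,
    fg_hnn φ inferInstance, fun n => ⟨⟨h1 n, ((sm n.lt_succ_self).trans_le (map_le_range _ _)).ne,
      h2 n⟩, (fold φ _ (a1 n)).choose_spec.hnn, Slender.map (C := C n) (sl_ext (MonoidHom.snd Z3 BS)
      (Slender.mono (D := D n) ?_ (map_comap_le _ _)) fun H hH => ?_) _⟩, sm, fun C' hC => ?_⟩
  · cases n with
    | zero => exact (sl_zpowers 1).mono bot_le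
    | succ n => exact sl_zpowers _
  · haveI : Finite H := Finite.of_injective (fun h : H => h.1.1) fun a b e =>
      Subtype.ext (Prod.ext e (Eq.trans (hH a.2) (Eq.symm (hH b.2))))
    exact (Group.fg_iff_subgroup_fg H).1 inferInstance
  obtain rfl : C' = ⊥ := eq_bot_iff.2 fun c hc => by
    obtain ⟨⟨a, _⟩, rfl, rfl⟩ := hC.le hc
    by_contra h
    refine hC.not_ge ?_
    rintro _ ⟨⟨b, _⟩, rfl, rfl⟩
    rcases (by decide : ∀ a b : Z3, a = 1 ∨ b = 1 ∨ b = a ∨ b = a * a) a b with e | e | e | e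
    · exact (h (e ▸ map_one _)).elim
    · exact e ▸ (show of (1 : Z3 × BS) ∈ C' by simp)
    · exact e ▸ hc
    · simpa [e, ← map_mul] using mul_mem hc hc
  let s : Z3 × BS := (.ofAdd 1, 1)
  have ts : t * of s = of s⁻¹ * t := t_mul_of (φ := φ) ⟨s, _, rfl⟩
  have s3 : (of s : HNNExtension _ _ _ φ) ^ 3 = 1 := by
    rw [← map_pow, ← map_one of]
    exact congrArg _ (Prod.ext (by decide) (one_pow _))
  refine ⟨fun h => ?_, fun B' h => ?_⟩
  · have := free2 h (a := of s) (fun ψ => by simpa using congrArg ψ s3) fun u => by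
      have : u * of s * u⁻¹ = of s ∨ u * of s * u⁻¹ = (of s)⁻¹ := by
        induction u using HNNExtension.induction_on with
        | of g =>
          left
          rw [← map_inv, ← map_mul, ← map_mul]
          exact congrArg _ (Prod.ext (by simp) (by simp [s]))
        | t => exact .inr (by simp [ts])
        | mul a b p q =>
          rw [show a * b * of s * (a * b)⁻¹ = a * (b * of s * b⁻¹) * a⁻¹ by simp [mul_assoc]]
          rcases q with q | q
          · rwa [q]
          · rw [q, ← conj_inv]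
            rcases p with p | p <;> simp [p]
        | inv a p =>
          refine p.imp (fun p => ?_) fun p => ?_
          · conv_lhs => rw [← p]
            simp [mul_assoc]
          · conv_lhs => rw [← inv_inv (of s), ← p]
            simp [mul_assoc]
      rcases this with e | e
      · exact ⟨1, .inl (by simpa using e)⟩
      · refine ⟨2, .inl ?_⟩
        rw [e, inv_pow, inv_eq_iff_mul_eq_one, ← pow_succ, s3]
    exact absurd (congrArg Prod.fst (of_injective φ (this.trans (map_one _).symm))) (by decide)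
  obtain ⟨Φ, hΦ⟩ := h.ext ((MonoidHom.fst _ _).comp
    (MonoidHom.ofInjective (of_injective φ)).symm.toMonoidHom) fun a p => by
      rw [show a = 1 from Subtype.ext p, map_one]
  have v : ∀ x, Φ (of x) = x.1 := fun x => (hΦ ⟨_, x, rfl⟩).trans
    (congrArg Prod.fst ((MonoidHom.ofInjective (of_injective φ)).symm_apply_apply x))
  have := congrArg Φ ts
  rw [map_mul, map_mul, mul_comm, mul_left_inj, v, v] at this
  exact absurd this (by decide)

end Pool.Agent.H69.Spl
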