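import Mathlib

namespace Pool.Agent.H69.Spl

variable {G : Type} [Group G]

/-- Every subgroup of `C` is finitely generated. -/
def Slender (C : Subgroup G) : Prop := ∀ H : Subgroup G, H ≤ C → H.FG

/-- `G = A *_C B`: `C ≤ A ⊓ B` and the homomorphism from the amalgamated free product of `A` and `B`
over `C` to `G` induced by the inclusions is bijective. -/
def IsAmalgam (A B C : Subgroup G) : Prop :=
  ∃ h : ∀ i : Bool, C ≤ cond i A B, Function.Bijective
    (Monoid.PushoutI.lift (G := fun i : Bool => ↥(cond i A B)) (φ := fun i => Subgroup.inclusion (h i))
      (fun i => (cond i A B).subtype) C.subtype fun _ => rfl)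

/-- `G` splits as an HNN extension over `C`: there are a subgroup `H` of `G` containing `C`, an
isomorphism `φ` from `C` onto a subgroup `D` of `H` and an element `u` of `G` conjugating `C` onto `D`
by `φ`, such that the homomorphism from the HNN extension of `H` along `φ` to `G` (inclusion on `H`,
stable letter sent to `u`) is bijective. -/
def IsHNN (C : Subgroup G) : Prop :=
  ∃ (H : Subgroup G) (C' D : Subgroup H) (φ : C' ≃* D) (u : G)
    (h : ∀ c : C', u * H.subtype c = H.subtype (φ c) * u),
    C'.map H.subtype = C ∧ Function.Bijective (HNNExtension.lift H.subtype u h)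

end Pool.Agent.H69.Spl
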