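import Mathlib

/-! Definitions for the algebraic entropy of endomorphisms of locally compact groups. -/

set_option autoImplicit false

namespace Pool.Agent.H69.Tqh

open MeasureTheory Filter Topology Pointwise

/-- Topologically quasihamiltonian: `closure (XY) = closure (YX)` for closed subgroups. -/
def TQH (G : Type) [Group G] [TopologicalSpace G] : Prop :=
  ∀ X Y : Subgroup G, IsClosed (X : Set G) → IsClosed (Y : Set G) →
    closure ((X : Set G) * (Y : Set G)) = closure ((Y : Set G) * (X : Set G))

/-- Strongly compactly covered: each element lies in a compact open normal subgroup. -/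
def SCC (G : Type) [Group G] [TopologicalSpace G] : Prop :=
  ∀ g : G, ∃ K : Subgroup G, K.Normal ∧ IsCompact (K : Set G) ∧ IsOpen (K : Set G) ∧ g ∈ K

/-- `T φ U n = U φ(U) ⋯ φ^(n-1)(U)` (the empty product `{1}` for `n = 0`). -/
def T {G : Type} [Group G] (φ : G →* G) (U : Set G) : ℕ → Set G
  | 0 => {1}
  | n + 1 => T φ U n * (φ^[n] '' U)

/-- A right Haar measure: right invariant, finite on compact sets, positive on open sets. -/
def RightHaar {G : Type} [Group G] [TopologicalSpace G] [MeasurableSpace G] (μ : Measure G) :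
    Prop :=
  μ.IsMulRightInvariant ∧ IsFiniteMeasureOnCompacts μ ∧ μ.IsOpenPosMeasure

/-- `H_alg(φ, U) = limsup log μ(T_n(φ,U)) / n`. -/
noncomputable def Halg {G : Type} [Group G] [MeasurableSpace G] (μ : Measure G) (φ : G →* G)
    (U : Set G) : EReal :=
  limsup (fun n : ℕ => ((Real.log (μ.real (T φ U n)) / n : ℝ) : EReal)) atTop

/-- `h_alg(φ)`: the supremum of `H_alg(φ, U)` over compact neighbourhoods `U` of the identity. -/
noncomputable def halg {G : Type} [Group G] [TopologicalSpace G] [MeasurableSpace G]
    (μ : Measure G) (φ : G →* G) : EReal :=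
  ⨆ (U : Set G) (_ : IsCompact U ∧ U ∈ 𝓝 (1 : G)), Halg μ φ U

end Pool.Agent.H69.Tqh
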