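import Mathlib
import Pool.Agent.H69.TqhDefs

set_option autoImplicit false

namespace Pool.Agent.H69.Tqh

open MeasureTheory Filter Topology Pointwise

section alg
variable {G : Type} [Group G]

theorem idx_mul (X Z Y : Subgroup G) (hZ : Z ≤ Y) (h : ∀ y ∈ Y, ∃ z ∈ Z, z⁻¹ * y ∈ X) :
    X.relIndex Y = X.relIndex Z := by
  symm
  refine Nat.card_congr (Equiv.ofBijective (Subgroup.quotientSubgroupOfEmbeddingOfLE X hZ)
    ⟨(Subgroup.quotientSubgroupOfEmbeddingOfLE X hZ).injective, fun q => ?_⟩)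
  induction q using QuotientGroup.induction_on with
  | H y =>
    obtain ⟨z, hz, h1⟩ := h y y.2
    refine ⟨QuotientGroup.mk ⟨z, hz⟩, ?_⟩
    rw [Subgroup.quotientSubgroupOfEmbeddingOfLE_apply_mk, QuotientGroup.eq]
    exact h1

theorem idx_split (H : Subgroup G) [H.Normal] (S S' : Subgroup G) (h : S ≤ S') :
    S.relIndex S' = (S.map (QuotientGroup.mk' H)).relIndex (S'.map (QuotientGroup.mk' H)) *
      (S.subgroupOf H).relIndex (S'.subgroupOf H) := by
  have h1 : (S.map (QuotientGroup.mk' H)).relIndex (S'.map (QuotientGroup.mk' H))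
      = ((S ⊔ H) ⊓ S').relIndex S' := by
    rw [← Subgroup.relIndex_comap, Subgroup.comap_map_eq, QuotientGroup.ker_mk',
      Subgroup.inf_relIndex_right]
  have h2 : (S.subgroupOf H).relIndex (S'.subgroupOf H) = S.relIndex ((S ⊔ H) ⊓ S') := by
    rw [Subgroup.subgroupOf, Subgroup.relIndex_comap, Subgroup.subgroupOf_map_subtype]
    symm
    apply idx_mul
    · exact le_inf (inf_le_right.trans le_sup_right) inf_le_left
    · intro y hy
      have h3 : y ∈ ((H ⊔ S : Subgroup G) : Set G) := by rw [sup_comm]; exact hy.1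
      rw [Subgroup.normal_mul] at h3
      obtain ⟨a, ha, b, hb, rfl⟩ := h3
      refine ⟨a, ⟨?_, ha⟩, by simpa using hb⟩
      have := S'.mul_mem hy.2 (S'.inv_mem (h hb))
      simpa using this
  rw [h1, h2, mul_comm, Subgroup.relIndex_mul_relIndex _ _ _ (le_inf le_sup_left h) inf_le_right]

/-- a chain of subgroups with `S (n+1) = φ (S n) S n` -/
structure Ch (φ : G →* G) (S : ℕ → Subgroup G) : Prop where
  mono : ∀ n, S n ≤ S (n + 1)
  map : ∀ n, ∀ x ∈ S n, φ x ∈ S (n + 1)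
  gen : ∀ n, ∀ y ∈ S (n + 1), ∃ x ∈ S n, (φ x)⁻¹ * y ∈ S n
  fin : ∀ n, (S n).relIndex (S (n + 1)) ≠ 0

theorem Ch.stab {φ : G →* G} {S : ℕ → Subgroup G} (h : Ch φ S) :
    ∃ m α, ∀ n, m ≤ n → (S n).relIndex (S (n + 1)) = α ∧
      ∀ x ∈ S (n + 1), φ x ∈ S (n + 1) → x ∈ S n := by
  set t : ℕ → ℕ := fun n => (S n).relIndex (S (n + 1)) with ht
  have key : ∀ n, (S n).relIndex ((S (n + 1)).comap φ ⊓ S (n + 1)) * t (n + 1) = t n := by
    intro n
    have h1 : t (n + 1) = ((S (n + 1)).comap φ ⊓ S (n + 1)).relIndex (S (n + 1)) := by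
      rw [Subgroup.inf_relIndex_right, Subgroup.relIndex_comap]
      apply idx_mul
      · rintro _ ⟨x, hx, rfl⟩
        exact h.map _ x hx
      · intro y hy
        obtain ⟨x, hx, h2⟩ := h.gen _ y hy
        exact ⟨φ x, ⟨x, hx, rfl⟩, h2⟩
    rw [h1]
    exact Subgroup.relIndex_mul_relIndex _ _ _
      (le_inf (fun x hx => h.map n x hx) (h.mono n)) inf_le_right
  have anti : Antitone t := antitone_nat_of_succ_le fun n =>
    Nat.le_of_dvd (Nat.pos_of_ne_zero (h.fin n)) ⟨_, by rw [← key n, mul_comm]⟩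
  obtain ⟨m, hm⟩ := WellFoundedLT.antitone_chain_condition anti
  refine ⟨m, t m, fun n hn => ⟨(hm n hn).symm, fun x hx h1 => ?_⟩⟩
  have h2 := key n
  rw [← hm (n + 1) (by omega), ← hm n hn] at h2
  have h3 : (S n).relIndex ((S (n + 1)).comap φ ⊓ S (n + 1)) = 1 := by
    have : t m ≠ 0 := h.fin m
    exact Nat.eq_of_mul_eq_mul_right (Nat.pos_of_ne_zero this) (by rw [h2, one_mul])
  exact Subgroup.relIndex_eq_one.1 h3 ⟨h1, hx⟩

theorem T_succ' (φ : G →* G) (U : Set G) (n : ℕ) : T φ U (n + 1) = U * φ '' T φ U n := by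
  induction n with
  | zero => simp [T]
  | succ n ih =>
    rw [T, ih]
    conv_rhs => rw [← ih, T, Set.image_mul, Set.image_image]
    rw [mul_assoc]
    simp only [Function.iterate_succ_apply']

theorem T_mono (φ : G →* G) {U V : Set G} (h : U ⊆ V) (n : ℕ) : T φ U n ⊆ T φ V n := by
  induction n with
  | zero => exact subset_rfl
  | succ n ih => exact Set.mul_subset_mul ih (Set.image_mono h)

theorem T_image {G' : Type} [Group G'] (φ : G →* G) (ψ : G' →* G') (f : G →* G')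
    (h : ∀ x, f (φ x) = ψ (f x)) (U : Set G) (n : ℕ) : T ψ (f '' U) n = f '' T φ U n := by
  induction n with
  | zero => simp [T]
  | succ n ih =>
    rw [T_succ', T_succ', ih, Set.image_mul, Set.image_image, Set.image_image]
    simp only [h]

theorem one_mem_T (φ : G →* G) {U : Set G} (h : (1 : G) ∈ U) (n : ℕ) : (1 : G) ∈ T φ U n := by
  induction n with
  | zero => simp [T]
  | succ n ih => rw [T_succ']; exact ⟨1, h, 1, ⟨1, ih, map_one φ⟩, mul_one 1⟩

theorem sub_T (φ : G →* G) {U : Set G} (h : (1 : G) ∈ U) (n : ℕ) : U ⊆ T φ U (n + 1) := by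
  rw [T_succ']
  exact fun x hx => ⟨x, hx, 1, ⟨1, one_mem_T φ h n, map_one φ⟩, mul_one x⟩

theorem sub_T_chain (φ : G →* G) (A : ℕ → Subgroup G) (mono : ∀ n, A n ≤ A (n + 1)) (m : ℕ)
    (gen : ∀ n, m ≤ n → ∀ y ∈ A (n + 1), ∃ x ∈ A n, (φ x)⁻¹ * y ∈ A n) (j : ℕ) :
    (A (m + j) : Set G) ⊆ T φ (A m) (j + 1) := by
  have gen' : ∀ n, m ≤ n → ∀ y ∈ A (n + 1), ∃ x ∈ A n, y * (φ x)⁻¹ ∈ A n := by
    intro n hn y hy
    obtain ⟨x, hx, h1⟩ := gen n hn y⁻¹ ((A _).inv_mem hy)
    exact ⟨x⁻¹, (A _).inv_mem hx, by simpa using (A _).inv_mem h1⟩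
  have P : ∀ j, ∀ y ∈ A (m + j + 1), ∃ x ∈ A (m + j), y * (φ x)⁻¹ ∈ A m := by
    intro j
    induction j with
    | zero => exact gen' m le_rfl
    | succ j ih =>
      intro y hy
      obtain ⟨x, hx, h1⟩ := gen' (m + j + 1) (by omega) y hy
      obtain ⟨x', hx', h2⟩ := ih _ h1
      refine ⟨x' * x, (A _).mul_mem (mono _ hx') hx, ?_⟩
      simpa [mul_assoc] using h2
  induction j with
  | zero => exact sub_T φ (A m).one_mem 0
  | succ j ih =>
    intro y hy
    obtain ⟨x, hx, h1⟩ := P j y hy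
    rw [T_succ']
    exact ⟨_, h1, φ x, ⟨x, ih hx, rfl⟩, by simp⟩

end alg

theorem lim_of_step (u : ℕ → ℝ) (c : ℝ) (m : ℕ) (h : ∀ n, m ≤ n → u (n + 1) = u n + c) (k : ℕ) :
    Tendsto (fun j : ℕ => u (k + j) / ((j + 1 : ℕ) : ℝ)) atTop (𝓝 c) := by
  have h1 : ∀ j, u (m + j) = u m + j * c := by
    intro j
    induction j with
    | zero => simp
    | succ j ih => rw [← add_assoc, h _ (by omega), ih]; push_cast; ring
  have h2 : Tendsto (fun j : ℕ => (u m + (k - m - 1) * c) / ((j + 1 : ℕ) : ℝ) + c) atTop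
      (𝓝 (0 + c)) :=
    ((tendsto_const_div_atTop_nhds_zero_nat _).comp (tendsto_add_atTop_nat 1)).add_const c
  rw [zero_add] at h2
  refine h2.congr' ?_
  filter_upwards [eventually_ge_atTop m] with j hj
  obtain ⟨i, hi⟩ : ∃ i, k + j = m + i := ⟨k + j - m, by omega⟩
  have h3 : (i : ℝ) = k + j - m := by
    have : (k : ℝ) + j = m + i := by exact_mod_cast hi
    linarith
  rw [hi, h1, h3]
  push_cast
  field_simp
  ring

section top
variable {G : Type} [Group G] [TopologicalSpace G] [IsTopologicalGroup G]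

theorem idx_ne (A B : Subgroup G) (hA : IsOpen (A : Set G)) (hB : IsCompact (B : Set G)) :
    Finite (B ⧸ A.subgroupOf B) := by
  haveI : CompactSpace B := isCompact_iff_compactSpace.1 hB
  exact Subgroup.quotient_finite_of_isOpen _ (hA.preimage continuous_subtype_val)

theorem idx_ne' (A B : Subgroup G) (hA : IsOpen (A : Set G)) (hB : IsCompact (B : Set G)) :
    A.relIndex B ≠ 0 := by
  haveI := idx_ne A B hA hB
  exact Subgroup.index_ne_zero_of_finite

theorem T_compact (φ : G →* G) (hφ : Continuous φ) {U : Set G} (hU : IsCompact U) (n : ℕ) :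
    IsCompact (T φ U n) := by
  induction n with
  | zero => exact isCompact_singleton
  | succ n ih => rw [T_succ']; exact hU.mul (ih.image hφ)

variable [MeasurableSpace G] [BorelSpace G] {μ : Measure G}

theorem meas_idx (hμ : RightHaar μ) (A B : Subgroup G) (h : A ≤ B) (hA : IsOpen (A : Set G))
    (hB : IsCompact (B : Set G)) : μ.real (B : Set G) = A.relIndex B * μ.real (A : Set G) := by
  obtain ⟨h1, h2, h3⟩ := hμ
  haveI := idx_ne A B hA hB
  haveI := Fintype.ofFinite (B ⧸ A.subgroupOf B)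
  have e : (B : Set G) = ⋃ q : B ⧸ A.subgroupOf B, (fun x => x * (q.out : G)) ⁻¹' A := by
    ext x
    simp only [Set.mem_iUnion, Set.mem_preimage, SetLike.mem_coe]
    constructor
    · intro hx
      refine ⟨QuotientGroup.mk ⟨x⁻¹, B.inv_mem hx⟩, ?_⟩
      have := QuotientGroup.eq.1 (QuotientGroup.out_eq'
        (QuotientGroup.mk ⟨x⁻¹, B.inv_mem hx⟩ : B ⧸ A.subgroupOf B)).symm
      simpa [Subgroup.mem_subgroupOf] using this
    · rintro ⟨q, hq⟩
      have := B.mul_mem (h hq) (B.inv_mem q.out.2)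
      simpa using this
  have e2 : μ (B : Set G) = A.relIndex B * μ (A : Set G) := by
    rw [e, measure_iUnion]
    · simp only [measure_preimage_mul_right, tsum_fintype, Finset.sum_const, Finset.card_univ,
        nsmul_eq_mul]
      rw [← Nat.card_eq_fintype_card]
      rfl
    · intro q q' hne
      refine Set.disjoint_left.2 fun x hx hx' => hne ?_
      rw [← QuotientGroup.out_eq' q, ← QuotientGroup.out_eq' q', QuotientGroup.eq]
      have := A.mul_mem (A.inv_mem hx) hx'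
      simpa [Subgroup.mem_subgroupOf, mul_assoc] using this
    · exact fun q => (hA.preimage (continuous_mul_const _)).measurableSet
  rw [Measure.real, e2, ENNReal.toReal_mul]
  rfl

omit [IsTopologicalGroup G] [BorelSpace G] in
theorem real_pos (hμ : RightHaar μ) {U : Set G} (hU : U ∈ 𝓝 (1 : G)) (hc : IsCompact U) :
    0 < μ.real U := by
  obtain ⟨h1, h2, h3⟩ := hμ
  exact ENNReal.toReal_pos (Measure.measure_pos_of_mem_nhds μ hU).ne' hc.measure_lt_top.ne

theorem log_idx (hμ : RightHaar μ) (A B : Subgroup G) (h : A ≤ B) (hA : IsOpen (A : Set G))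
    (hA' : IsCompact (A : Set G)) (hB : IsCompact (B : Set G)) :
    Real.log (μ.real (B : Set G)) = Real.log (μ.real (A : Set G)) + Real.log (A.relIndex B) := by
  rw [meas_idx hμ A B h hA hB, Real.log_mul, add_comm]
  · exact_mod_cast idx_ne' A B hA hB
  · exact (real_pos hμ (hA.mem_nhds A.one_mem) hA').ne'

omit [IsTopologicalGroup G] [BorelSpace G] in
theorem log_mono (hμ : RightHaar μ) {U V : Set G} (hU : U ∈ 𝓝 (1 : G)) (h : U ⊆ V)
    (hc : IsCompact V) : Real.log (μ.real U) ≤ Real.log (μ.real V) := by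
  obtain ⟨h1, h2, h3⟩ := hμ
  have := hc.measure_lt_top (μ := μ)
  exact Real.log_le_log (ENNReal.toReal_pos (Measure.measure_pos_of_mem_nhds μ hU).ne'
    ((measure_mono h).trans_lt this).ne) (measureReal_mono h this.ne)

omit [TopologicalSpace G] [IsTopologicalGroup G] [BorelSpace G] in
theorem Halg_le (φ : G →* G) (U : Set G) (u : ℕ → ℝ) (c : ℝ)
    (hu : Tendsto (fun j : ℕ => u j / ((j + 1 : ℕ) : ℝ)) atTop (𝓝 c))
    (h : ∀ j, Real.log (μ.real (T φ U (j + 1))) ≤ u j) : Halg μ φ U ≤ c := by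
  unfold Halg
  rw [← limsup_nat_add _ 1, ← (EReal.tendsto_coe.2 hu).limsup_eq]
  refine limsup_le_limsup (Eventually.of_forall fun j => ?_)
  exact EReal.coe_le_coe_iff.2 (div_le_div_of_nonneg_right (h j) (Nat.cast_nonneg _))

omit [TopologicalSpace G] [IsTopologicalGroup G] [BorelSpace G] in
theorem le_Halg (φ : G →* G) (U : Set G) (u : ℕ → ℝ) (c : ℝ)
    (hu : Tendsto (fun j : ℕ => u j / ((j + 1 : ℕ) : ℝ)) atTop (𝓝 c))
    (h : ∀ j, u j ≤ Real.log (μ.real (T φ U (j + 1)))) : (c : EReal) ≤ Halg μ φ U := by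
  unfold Halg
  rw [← limsup_nat_add _ 1, ← (EReal.tendsto_coe.2 hu).limsup_eq]
  refine limsup_le_limsup (Eventually.of_forall fun j => ?_)
  exact EReal.coe_le_coe_iff.2 (div_le_div_of_nonneg_right (h j) (Nat.cast_nonneg _))

omit [MeasurableSpace G] [BorelSpace G] in
theorem cover (hs : SCC G) {K : Set G} (hK : IsCompact K) :
    ∃ U : Subgroup G, U.Normal ∧ IsCompact (U : Set G) ∧ IsOpen (U : Set G) ∧ K ⊆ U := by
  refine hK.induction_on (p := fun K => ∃ U : Subgroup G, U.Normal ∧ IsCompact (U : Set G) ∧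
    IsOpen (U : Set G) ∧ K ⊆ U) ?_ ?_ ?_ ?_
  · obtain ⟨U, h1, h2, h3, _⟩ := hs 1
    exact ⟨U, h1, h2, h3, Set.empty_subset _⟩
  · rintro s t hst ⟨U, h1, h2, h3, h4⟩
    exact ⟨U, h1, h2, h3, hst.trans h4⟩
  · rintro s t ⟨U, h1, h2, h3, h4⟩ ⟨V, k1, k2, k3, k4⟩
    refine ⟨U ⊔ V, inferInstance, ?_, Subgroup.isOpen_mono le_sup_left h3,
      Set.union_subset (h4.trans (SetLike.coe_subset_coe.2 le_sup_left))
        (k4.trans (SetLike.coe_subset_coe.2 le_sup_right))⟩
    rw [Subgroup.normal_mul]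
    exact h2.mul k2
  · intro x _
    obtain ⟨U, h1, h2, h3, h4⟩ := hs x
    exact ⟨U, mem_nhdsWithin_of_mem_nhds (h3.mem_nhds h4), U, h1, h2, h3, subset_rfl⟩

omit [MeasurableSpace G] [BorelSpace G] in
theorem perm [T2Space G] (hq : TQH G) (X Y : Subgroup G) (hX : IsCompact (X : Set G))
    (hY : IsCompact (Y : Set G)) : ∃ Z : Subgroup G, (Z : Set G) = (X : Set G) * (Y : Set G) := by
  have h := hq X Y hX.isClosed hY.isClosed
  rw [(hX.mul hY).isClosed.closure_eq, (hY.mul hX).isClosed.closure_eq] at h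
  refine ⟨⟨⟨⟨(X : Set G) * (Y : Set G), ?_⟩, ⟨1, X.one_mem, 1, Y.one_mem, mul_one 1⟩⟩, ?_⟩, rfl⟩
  · rintro _ _ ⟨a, ha, b, hb, rfl⟩ ⟨c, hc, d, hd, rfl⟩
    have : b * c ∈ (X : Set G) * (Y : Set G) := by rw [h]; exact ⟨b, hb, c, hc, rfl⟩
    obtain ⟨c', hc', b', hb', e⟩ := this
    refine ⟨a * c', X.mul_mem ha hc', b' * d, Y.mul_mem hb' hd, ?_⟩
    simp only at e ⊢
    rw [mul_assoc, mul_assoc, ← mul_assoc c', e, mul_assoc]
  · rintro _ ⟨a, ha, b, hb, rfl⟩
    show _ ∈ (X : Set G) * (Y : Set G)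
    rw [h]
    exact ⟨b⁻¹, Y.inv_mem hb, a⁻¹, X.inv_mem ha, by simp⟩

omit [MeasurableSpace G] [BorelSpace G] in
theorem chain [T2Space G] (hq : TQH G) (φ : G →* G) (hφ : Continuous φ) (U : Subgroup G)
    (hU : IsCompact (U : Set G)) (hU' : IsOpen (U : Set G)) :
    ∃ S : ℕ → Subgroup G, (∀ n, (S n : Set G) = T φ U (n + 1)) ∧ Ch φ S := by
  have h1 : ∀ n, ∃ S : Subgroup G, (S : Set G) = T φ U n := by
    intro n
    induction n with
    | zero => exact ⟨⊥, by simp [T]⟩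
    | succ n ih =>
      obtain ⟨S, hS⟩ := ih
      obtain ⟨Z, hZ⟩ := perm hq U (S.map φ) hU
        (by rw [Subgroup.coe_map, hS]; exact (T_compact φ hφ hU n).image hφ)
      exact ⟨Z, by rw [hZ, T_succ', Subgroup.coe_map, hS]⟩
  choose S hS using h1
  have hm : ∀ n, T φ U n ⊆ T φ U (n + 1) := fun n x hx =>
    ⟨x, hx, 1, ⟨1, U.one_mem, Function.iterate_fixed (map_one φ) n⟩, mul_one x⟩
  have hUS : ∀ n, U ≤ S (n + 1) := fun n => by
    rw [← SetLike.coe_subset_coe, hS]; exact sub_T φ U.one_mem n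
  refine ⟨fun n => S (n + 1), fun n => hS _, ⟨fun n => ?_, fun n x hx => ?_, fun n y hy => ?_,
    fun n => ?_⟩⟩
  · rw [← SetLike.coe_subset_coe, hS, hS]; exact hm _
  · rw [← SetLike.mem_coe, hS] at hx ⊢
    rw [T_succ']
    exact ⟨1, U.one_mem, φ x, ⟨x, hx, rfl⟩, one_mul _⟩
  · have h2 := (S _).inv_mem hy
    rw [← SetLike.mem_coe, hS, T_succ', ← hS] at h2
    obtain ⟨a, ha, _, ⟨x, hx, rfl⟩, e⟩ := h2
    refine ⟨x⁻¹, (S _).inv_mem hx, ?_⟩
    have : y = (φ x)⁻¹ * a⁻¹ := by rw [← mul_inv_rev]; simp only at e; rw [e, inv_inv]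
    rw [this]
    simpa using hUS n ha
  · exact idx_ne' _ _ (Subgroup.isOpen_mono (hUS n) hU')
      (by rw [hS]; exact T_compact φ hφ hU _)

end top

end Pool.Agent.H69.Tqh
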