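import Mathlib
import Pool.Agent.H69.Tqh1

set_option autoImplicit false

namespace Pool.Agent.H69.Tqh

open MeasureTheory Filter Topology Pointwise

theorem Halg_mono {G : Type} [Group G] [TopologicalSpace G] [IsTopologicalGroup G]
    [MeasurableSpace G] {μ : Measure G} (hμ : RightHaar μ) (φ : G →* G) (hφ : Continuous φ)
    {U V : Set G} (hU : U ∈ 𝓝 (1 : G)) (h : U ⊆ V) (hV : IsCompact V) :
    Halg μ φ U ≤ Halg μ φ V := by
  unfold Halg
  rw [← limsup_nat_add _ 1, ← limsup_nat_add (fun n : ℕ =>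
    ((Real.log (μ.real (T φ V n)) / n : ℝ) : EReal)) 1]
  refine limsup_le_limsup (Eventually.of_forall fun j => ?_)
  refine EReal.coe_le_coe_iff.2 (div_le_div_of_nonneg_right ?_ (Nat.cast_nonneg _))
  exact log_mono hμ (mem_of_superset hU (sub_T φ (mem_of_mem_nhds hU) j)) (T_mono φ h _)
    (T_compact φ hφ hV _)

variable {G : Type} [Group G] [TopologicalSpace G] [IsTopologicalGroup G] [T2Space G]
  (H : Subgroup G) [H.Normal]
  [MeasurableSpace G] [BorelSpace G] [MeasurableSpace (G ⧸ H)] [BorelSpace (G ⧸ H)]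

theorem core (hq : TQH G) (φ : G →* G) (hφ : Continuous φ) (hH : IsClosed (H : Set G))
    (φq : G ⧸ H →* G ⧸ H) (hφq : ∀ x, QuotientGroup.mk' H (φ x) = φq (QuotientGroup.mk' H x))
    (φH : H →* H) (hφH : ∀ x : H, H.subtype (φH x) = φ (H.subtype x)) (hφH' : Continuous φH)
    {μ : Measure G} {ν : Measure (G ⧸ H)} {l : Measure H}
    (hμ : RightHaar μ) (hν : RightHaar ν) (hl : RightHaar l)
    (U : Subgroup G) (hU : IsCompact (U : Set G)) (hU' : IsOpen (U : Set G)) :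
    ∃ b c : ℝ, Halg μ φ U = ((b + c : ℝ) : EReal) ∧
      Halg ν φq (QuotientGroup.mk' H '' U) = b ∧
      Halg l φH (U.subgroupOf H) ≤ c ∧
      ∃ V : Set H, IsCompact V ∧ V ∈ 𝓝 (1 : H) ∧ (c : EReal) ≤ Halg l φH V := by
  obtain ⟨S, hS, hc⟩ := chain hq φ hφ U hU hU'
  set π := QuotientGroup.mk' H with hπ
  have hπc : Continuous π := QuotientGroup.continuous_mk
  have hπo : IsOpenMap π := QuotientGroup.isOpenMap_coe
  have Sc : ∀ n, IsCompact (S n : Set G) := fun n => by rw [hS]; exact T_compact φ hφ hU _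
  have US : ∀ n, U ≤ S n := fun n => by
    rw [← SetLike.coe_subset_coe, hS]; exact sub_T φ U.one_mem n
  have So : ∀ n, IsOpen (S n : Set G) := fun n => Subgroup.isOpen_mono (US n) hU'
  let Q : ℕ → Subgroup (G ⧸ H) := fun n => (S n).map π
  have Qc : ∀ n, IsCompact (Q n : Set (G ⧸ H)) := fun n => (Sc n).image hπc
  have Qo : ∀ n, IsOpen (Q n : Set (G ⧸ H)) := fun n => hπo _ (So n)
  have hQ : ∀ n, (Q n : Set (G ⧸ H)) = T φq (π '' U) (n + 1) := fun n => by
    rw [T_image φ φq π hφq, ← hS]; rfl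
  have cQ : Ch φq Q := by
    refine ⟨fun n => Subgroup.map_mono (hc.mono n), ?_, ?_, fun n => idx_ne' _ _ (Qo n) (Qc _)⟩
    · rintro n _ ⟨x, hx, rfl⟩
      exact ⟨φ x, hc.map n x hx, hφq x⟩
    · rintro n _ ⟨y, hy, rfl⟩
      obtain ⟨x, hx, h1⟩ := hc.gen n y hy
      exact ⟨π x, ⟨x, hx, rfl⟩, _, h1, by rw [map_mul, map_inv, hφq]⟩
  let A : ℕ → Subgroup H := fun n => (S n).subgroupOf H
  have Ac : ∀ n, IsCompact (A n : Set H) := fun n =>
    hH.isClosedEmbedding_subtypeVal.isCompact_preimage (Sc n)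
  have Ao : ∀ n, IsOpen (A n : Set H) := fun n => (So n).preimage continuous_subtype_val
  have Am : ∀ n, A n ≤ A (n + 1) := fun n => Subgroup.comap_mono (hc.mono n)
  obtain ⟨m1, α, h1⟩ := hc.stab
  obtain ⟨m2, β, h2⟩ := cQ.stab
  have x1 : ∀ n, m1 + m2 ≤ n → Real.log (μ.real (S (n + 1) : Set G))
      = Real.log (μ.real (S n : Set G)) + Real.log α := fun n hn => by
    rw [log_idx hμ _ _ (hc.mono n) (So n) (Sc n) (Sc _), (h1 n (by omega)).1]
  have x2 : ∀ n, m1 + m2 ≤ n → Real.log (ν.real (Q (n + 1) : Set (G ⧸ H)))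
      = Real.log (ν.real (Q n : Set (G ⧸ H))) + Real.log β := fun n hn => by
    rw [log_idx hν _ _ (cQ.mono n) (Qo n) (Qc n) (Qc _), (h2 n (by omega)).1]
  have x3 : ∀ n, m1 + m2 ≤ n → Real.log (l.real (A (n + 1) : Set H))
      = Real.log (l.real (A n : Set H)) + (Real.log α - Real.log β) := fun n hn => by
    rw [log_idx hl _ _ (Am n) (Ao n) (Ac n) (Ac _)]
    have e1 := idx_split H (S n) (S (n + 1)) (hc.mono n)
    have e2 : (Q n).relIndex (Q (n + 1)) = β := (h2 n (by omega)).1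
    rw [(h1 n (by omega)).1] at e1
    have e3 : α = β * (A n).relIndex (A (n + 1)) := by rw [← e2]; exact e1
    have e4 : β ≠ 0 := e2 ▸ cQ.fin n
    have e5 := idx_ne' _ _ (Ao n) (Ac (n + 1))
    rw [e3, Nat.cast_mul, Real.log_mul (by exact_mod_cast e4) (by exact_mod_cast e5)]
    ring
  have l1 := lim_of_step (fun n => Real.log (μ.real (S n : Set G))) _ _ x1 0
  have l2 := lim_of_step (fun n => Real.log (ν.real (Q n : Set (G ⧸ H)))) _ _ x2 0
  have l3 := lim_of_step (fun n => Real.log (l.real (A n : Set H))) _ _ x3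
  simp only [zero_add] at l1 l2
  refine ⟨Real.log β, Real.log α - Real.log β, ?_, ?_, ?_, A (m2 + 1), Ac _,
    (Ao _).mem_nhds (A _).one_mem, ?_⟩
  · rw [add_sub_cancel]
    exact le_antisymm (Halg_le φ U _ _ l1 fun j => by rw [hS]) (le_Halg φ U _ _ l1 fun j => by rw [hS])
  · exact le_antisymm (Halg_le φq _ _ _ l2 fun j => by rw [hQ])
      (le_Halg φq _ _ _ l2 fun j => by rw [hQ])
  · refine Halg_le φH _ _ _ (l3 0) fun j => ?_
    have hn : ((U.subgroupOf H : Subgroup H) : Set H) ∈ 𝓝 (1 : H) :=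
      (hU'.preimage continuous_subtype_val).mem_nhds U.one_mem
    refine log_mono hl (mem_of_superset hn (sub_T φH (mem_of_mem_nhds hn) j)) ?_ (Ac _)
    intro x hx
    have h3 : H.subtype x ∈ T φ (H.subtype '' (U.subgroupOf H : Subgroup H)) (j + 1) := by
      rw [T_image φH φ H.subtype hφH]
      exact ⟨x, hx, rfl⟩
    have h4 := T_mono φ (show H.subtype '' (U.subgroupOf H : Subgroup H) ⊆ U by
      rintro _ ⟨y, hy, rfl⟩; exact hy) _ h3
    rw [← hS] at h4
    rw [zero_add]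
    exact h4
  · refine le_Halg φH _ _ _ (l3 (m2 + 1)) fun j => ?_
    refine log_mono hl ((Ao _).mem_nhds (A _).one_mem) (sub_T_chain φH A Am (m2 + 1) ?_ j)
      (T_compact φH hφH' (Ac _) _)
    intro n hn y hy
    obtain ⟨k, rfl⟩ : ∃ k, n = k + 1 := ⟨n - 1, by omega⟩
    obtain ⟨x, hx, h3⟩ := hc.gen (k + 1) y hy
    have h4 : φq (π x) ∈ Q (k + 1) := by
      have h5 : π ((φ x)⁻¹ * y) ∈ Q (k + 1) := ⟨_, h3, rfl⟩
      have h6 : π (y : G) = 1 := (QuotientGroup.eq_one_iff _).2 y.2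
      rw [map_mul, map_inv, h6, mul_one, hφq] at h5
      exact (Q _).inv_mem_iff.1 h5
    obtain ⟨x', hx', h5⟩ := (h2 k (by omega)).2 (π x) ⟨x, hx, rfl⟩ h4
    have h6 : x * x'⁻¹ ∈ H := by
      rw [← QuotientGroup.eq_one_iff]
      show π (x * x'⁻¹) = 1
      rw [map_mul, map_inv, h5, mul_inv_cancel]
    refine ⟨⟨x * x'⁻¹, h6⟩, (S _).mul_mem hx ((S _).inv_mem (hc.mono k hx')), ?_⟩
    show (((φH ⟨x * x'⁻¹, h6⟩)⁻¹ * y : H) : G) ∈ S (k + 1)
    have h7 : ((φH ⟨x * x'⁻¹, h6⟩ : H) : G) = φ (x * x'⁻¹) := hφH _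
    rw [Subgroup.coe_mul, Subgroup.coe_inv, h7, map_mul, map_inv, mul_inv_rev, inv_inv, mul_assoc]
    exact (S _).mul_mem (hc.map k x' hx') h3

theorem addition (hs : SCC G) (hq : TQH G) (φ : G →* G) (hφ : Continuous φ)
    (hH : IsClosed (H : Set G))
    (φq : G ⧸ H →* G ⧸ H) (hφq : ∀ x, QuotientGroup.mk' H (φ x) = φq (QuotientGroup.mk' H x))
    (φH : H →* H) (hφH : ∀ x : H, H.subtype (φH x) = φ (H.subtype x))
    {μ : Measure G} {ν : Measure (G ⧸ H)} {l : Measure H}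
    (hμ : RightHaar μ) (hν : RightHaar ν) (hl : RightHaar l) :
    halg μ φ = halg ν φq + halg l φH := by
  have hφH' : Continuous φH := by
    refine continuous_induced_rng.2 ?_
    have : Subtype.val ∘ φH = φ ∘ Subtype.val := funext hφH
    rw [this]
    exact hφ.comp continuous_subtype_val
  have hπc : Continuous (QuotientGroup.mk' H) := QuotientGroup.continuous_mk
  have hπo : IsOpenMap (QuotientGroup.mk' H) := QuotientGroup.isOpenMap_coe
  have hφq' : Continuous φq := by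
    refine (QuotientGroup.isQuotientMap_mk H).continuous_iff.2 ?_
    have : φq ∘ QuotientGroup.mk = QuotientGroup.mk' H ∘ φ := funext fun x => (hφq x).symm
    rw [this]
    exact hπc.comp hφ
  apply le_antisymm
  · refine iSup₂_le fun K hK => ?_
    obtain ⟨U, _, h1, h2, h3⟩ := cover hs hK.1
    obtain ⟨b, c, e1, e2, _, V, v1, v2, e4⟩ := core H hq φ hφ hH φq hφq φH hφH hφH' hμ hν hl U h1 h2
    refine (Halg_mono hμ φ hφ hK.2 h3 h1).trans ?_
    rw [e1, EReal.coe_add, ← e2]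
    refine add_le_add (le_iSup₂_of_le _ ⟨h1.image hπc, (hπo _ h2).mem_nhds
      ⟨1, U.one_mem, map_one _⟩⟩ le_rfl) (e4.trans (le_iSup₂_of_le V ⟨v1, v2⟩ le_rfl))
  · refine EReal.add_le_of_forall_lt fun a ha a' ha' => ?_
    obtain ⟨W, hW⟩ := lt_iSup_iff.1 ha
    obtain ⟨⟨w1, w2⟩, hW⟩ := lt_iSup_iff.1 hW
    obtain ⟨V, hV⟩ := lt_iSup_iff.1 ha'
    obtain ⟨⟨v1, v2⟩, hV⟩ := lt_iSup_iff.1 hV
    have hsq : ∃ K : Set G, IsCompact K ∧ W ⊆ QuotientGroup.mk' H '' K := by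
      refine w1.induction_on (p := fun W => ∃ K : Set G, IsCompact K ∧
        W ⊆ QuotientGroup.mk' H '' K) ⟨∅, isCompact_empty, Set.empty_subset _⟩ ?_ ?_ ?_
      · rintro s t hst ⟨K, k1, k2⟩
        exact ⟨K, k1, hst.trans k2⟩
      · rintro s t ⟨K, k1, k2⟩ ⟨K', k1', k2'⟩
        exact ⟨K ∪ K', k1.union k1', by rw [Set.image_union]; exact Set.union_subset_union k2 k2'⟩
      · intro x _
        obtain ⟨g, rfl⟩ := QuotientGroup.mk'_surjective H x
        obtain ⟨U, _, u1, u2, u3⟩ := hs g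
        exact ⟨_, mem_nhdsWithin_of_mem_nhds ((hπo _ u2).mem_nhds ⟨g, u3, rfl⟩), U, u1, subset_rfl⟩
    obtain ⟨K, k1, k2⟩ := hsq
    obtain ⟨U, _, h1, h2, h3⟩ := cover hs (k1.union (v1.image continuous_subtype_val))
    obtain ⟨b, c, e1, e2, e3, _⟩ := core H hq φ hφ hH φq hφq φH hφH hφH' hμ hν hl U h1 h2
    have a1 : Halg ν φq W ≤ b := by
      rw [← e2]
      exact Halg_mono hν φq hφq' w2
        (k2.trans (Set.image_mono (Set.subset_union_left.trans h3))) (h1.image hπc)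
    have a2 : Halg l φH V ≤ c := by
      refine le_trans (Halg_mono hl φH hφH' v2 (fun x hx => ?_)
        (hH.isClosedEmbedding_subtypeVal.isCompact_preimage h1)) e3
      exact h3 (Or.inr ⟨x, hx, rfl⟩)
    refine (add_le_add (hW.le.trans a1) (hV.le.trans a2)).trans ?_
    rw [← EReal.coe_add, ← e1]
    exact le_iSup₂_of_le _ ⟨h1, h2.mem_nhds U.one_mem⟩ le_rfl

end Pool.Agent.H69.Tqh
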