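import Pool.Agent.H69.VaDefs

namespace Pool.Agent.H69.Va
open Monoid

theorem fi_comap {G H : Type} [Group G] [Group H] (N : Subgroup H) [N.FiniteIndex] (f : G →* H) :
    (N.comap f).FiniteIndex := ⟨by
  rw [Subgroup.index_comap]; exact (Subgroup.instFiniteIndex_subgroupOf N f.range).index_ne_zero⟩

theorem pack {G0 G : Type} [Group G0] [Group G] (i : G0 →* G) (N : Subgroup G) [N.Normal]
    [N.FiniteIndex] (C : Subgroup G0) (hC : N.comap i = C) :
    ∃ (T : Type) (_ : Finite T) (_ : Nonempty T) (ρ : G →* Equiv.Perm ((G0 ⧸ C) × T)) (τ : T → G),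
      (∀ g p, (i (ρ g p).1.out * τ (ρ g p).2)⁻¹ * g * (i p.1.out * τ p.2) ∈ N) ∧
      (∀ h q t, ρ (i h) (q, t) = (h • q, t)) ∧ (∀ g p, ρ g p = p ↔ g ∈ N) := by
  let H : Subgroup (G ⧸ N) := ((QuotientGroup.mk' N).comp i).range
  let T := Quotient (QuotientGroup.rightRel H)
  let τ : T → G := fun t => (Quotient.out t).out
  let e : (G0 ⧸ C) × T → G ⧸ N := fun p => QuotientGroup.mk (i p.1.out * τ p.2)
  have he : ∀ p, e p = QuotientGroup.mk (i p.1.out) * Quotient.out p.2 := by
    intro p; simp [e, τ]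
  have hq : ∀ a b : G0, (QuotientGroup.mk (i a) : G ⧸ N) = QuotientGroup.mk (i b) ↔
      (QuotientGroup.mk a : G0 ⧸ C) = QuotientGroup.mk b := by
    intro a b
    rw [QuotientGroup.eq, QuotientGroup.eq, ← hC, Subgroup.mem_comap, map_mul, map_inv]
  have hb : Function.Bijective e := by
    constructor
    · rintro ⟨q, t⟩ ⟨q', t'⟩ h
      rw [he, he] at h
      dsimp only at h
      have : t = t' := by
        rw [← Quotient.out_eq t, ← Quotient.out_eq t']
        apply Quotient.sound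
        refine QuotientGroup.rightRel_apply.2 ⟨q'.out⁻¹ * q.out, ?_⟩
        simp only [MonoidHom.comp_apply, QuotientGroup.mk'_apply, map_mul, map_inv,
          QuotientGroup.mk_mul, QuotientGroup.mk_inv]
        rw [eq_mul_inv_iff_mul_eq, mul_assoc, h]; simp
      subst this
      have := (hq _ _).1 (mul_right_cancel h)
      simp only [QuotientGroup.out_eq'] at this
      rw [this]
    · intro y
      obtain ⟨a, ha⟩ := QuotientGroup.rightRel_apply.1
        (Quotient.exact (Quotient.out_eq (Quotient.mk (QuotientGroup.rightRel H) y)))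
      refine ⟨(QuotientGroup.mk a, Quotient.mk _ y), ?_⟩
      rw [he]
      dsimp only
      rw [(hq _ a).2 (QuotientGroup.out_eq' _)]
      exact eq_mul_inv_iff_mul_eq.1 ha
  let E := Equiv.ofBijective e hb
  let ρ : G →* Equiv.Perm ((G0 ⧸ C) × T) :=
    E.symm.permCongrHom.toMonoidHom.comp (MulAction.toPermHom G (G ⧸ N))
  have hρ : ∀ g p, e (ρ g p) = QuotientGroup.mk g * e p := by
    intro g p
    change E (E.symm (g • E p)) = _
    rw [Equiv.apply_symm_apply]
    change g • (QuotientGroup.mk _ : G ⧸ N) = _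
    rfl
  refine ⟨T, inferInstance, ⟨Quotient.mk _ 1⟩, ρ, τ, fun g p => ?_, fun h q t => ?_, fun g p => ?_⟩
  · rw [mul_assoc, ← QuotientGroup.eq]
    exact hρ g p
  · apply hb.1
    rw [hρ, he, he]
    dsimp only
    rw [← mul_assoc, ← QuotientGroup.mk_mul, ← map_mul, (hq _ (h • q).out).2]
    rw [QuotientGroup.out_eq']
    conv_rhs => rw [← QuotientGroup.out_eq' q]
    rfl
  · rw [← hb.1.eq_iff, hρ, mul_eq_right, QuotientGroup.eq_one_iff]

structure Core {G0 : Type} [Group G0] {G : Bool → Type} [∀ i, Group (G i)] (φ : ∀ i, G0 →* G i)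
    (N : ∀ i, Subgroup (G i)) (c : G0) where
  X : Type
  fin : Finite X
  x0 : X
  ρ : ∀ i, G i →* Equiv.Perm X
  s : ∀ i, X → G i
  τ : ∀ i, X → G i
  n : G0 → X → ℤ
  mem : ∀ i g x, (s i (ρ i g x))⁻¹ * g * s i x ∈ N i
  agree : ∀ i h, ρ i (φ i h) = ρ true (φ true h)
  coc : ∀ i h x, (s i (ρ i (φ i h) x))⁻¹ * φ i h * s i x = ((τ i x)⁻¹ * φ i c * τ i x) ^ n h x
  cst : ∀ i g x, τ (!i) (ρ i g x) = τ (!i) x
  fix : ∀ i g x, ρ i g x = x ↔ g ∈ N i

theorem core_ex {G0 : Type} [Group G0] {G : Bool → Type} [∀ i, Group (G i)] (φ : ∀ i, G0 →* G i)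
    (N : ∀ i, Subgroup (G i)) [∀ i, (N i).Normal] [∀ i, (N i).FiniteIndex] (c : G0)
    (hC : ∀ i, (N i).comap (φ i) = Subgroup.zpowers c) : Nonempty (Core φ N c) := by
  choose T hT hT' ρ τ h1 h2 h3 using fun i => pack (φ i) (N i) _ (hC i)
  haveI : (Subgroup.zpowers c).FiniteIndex := by rw [← hC true]; exact fi_comap _ _
  have hn : ∀ (h : G0) (q : G0 ⧸ Subgroup.zpowers c), ∃ n : ℤ, c ^ n = (h • q).out⁻¹ * (h * q.out) := by
    intro h q
    apply Subgroup.mem_zpowers_iff.1
    rw [← QuotientGroup.eq, QuotientGroup.out_eq']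
    conv_lhs => rw [← QuotientGroup.out_eq' q]
    rfl
  choose n hn using hn
  let R : ∀ i, G i →* Equiv.Perm ((G0 ⧸ Subgroup.zpowers c) × ∀ j, T j) := fun i =>
    MonoidHom.toHomPerm
      { toFun := fun g x => ((ρ i g (x.1, x.2 i)).1, Function.update x.2 i (ρ i g (x.1, x.2 i)).2)
        map_one' := by funext x; simp; rfl
        map_mul' := fun g h => by funext x; simp [Function.End.mul_def] }
  have hR : ∀ i g x, R i g x =
    ((ρ i g (x.1, x.2 i)).1, Function.update x.2 i (ρ i g (x.1, x.2 i)).2) := fun _ _ _ => rfl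
  refine ⟨⟨(G0 ⧸ Subgroup.zpowers c) × ∀ j, T j, inferInstance,
    (QuotientGroup.mk 1, fun j => Classical.arbitrary _), R,
    fun i x => φ i x.1.out * τ i (x.2 i), fun i x => τ i (x.2 i), fun h x => n h x.1,
    fun i g x => ?_, fun i h => ?_, fun i h x => ?_, fun i g x => ?_, fun i g x => ?_⟩⟩
  · simpa only [hR, Function.update_self] using h1 i g (x.1, x.2 i)
  · ext x : 1; simp [hR, h2]
  · simp only [hR, h2, Function.update_self, conj_zpow]
    rw [show (τ i (x.2 i))⁻¹ * φ i c * τ i (x.2 i) = (τ i (x.2 i))⁻¹ * φ i c * (τ i (x.2 i))⁻¹⁻¹ by simp,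
      conj_zpow, ← map_zpow, hn]
    simp [mul_assoc]
  · simp only [hR]
    rw [Function.update_of_ne (by cases i <;> simp)]
  · rw [← h3 i g (x.1, x.2 i), hR]
    constructor
    · intro h
      have a := congrArg Prod.fst h
      have b := congrFun (congrArg Prod.snd h) i
      simp only [Function.update_self] at a b
      exact Prod.ext a b
    · intro h; rw [h]; simp

namespace Core
variable {G0 : Type} [Group G0] {G : Bool → Type} [∀ i, Group (G i)] {φ : ∀ i, G0 →* G i}
  {N : ∀ i, Subgroup (G i)} {c : G0} (K : Core φ N c)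

def κ (i : Bool) (g : G i) (x : K.X) : G i := (K.s i (K.ρ i g x))⁻¹ * g * K.s i x
def u (i : Bool) (x : K.X) : G i := (K.τ i x)⁻¹ * φ i c * K.τ i x

theorem κ_mul (i : Bool) (g h : G i) (x : K.X) :
    K.κ i (g * h) x = K.κ i g (K.ρ i h x) * K.κ i h x := by
  simp [κ, mul_assoc]

theorem lift_ex {A : Type} [AddCommGroup A] (L : ∀ i, K.X → G i → A)
    (h1 : ∀ i x, ∀ a ∈ N i, ∀ b ∈ N i, L i x (a * b) = L i x a + L i x b)
    (h2 : ∀ i g x, L i (K.ρ i g x) = L i x)
    (hu : ∀ i x, K.u i x ∈ N i)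
    (h3 : ∀ i x, L i x (K.u i x) = L true x (K.u true x)) :
    ∃ (Θ : PushoutI φ →* Equiv.Perm (K.X × A)) (P : PushoutI φ →* Equiv.Perm K.X),
      (∀ i g x a, Θ (PushoutI.of i g) (x, a) = (K.ρ i g x, a + L i x (K.κ i g x))) ∧
      (∀ i g, P (PushoutI.of i g) = K.ρ i g) ∧
      ∀ p, ∃ f : K.X → A, ∀ x a, Θ p (x, a) = (P p x, a + f x) := by
  have h0 : ∀ i x, L i x 1 = 0 := fun i x => by
    simpa using h1 i x 1 (one_mem _) 1 (one_mem _)
  have hz : ∀ i x, ∀ a ∈ N i, ∀ n : ℤ, L i x (a ^ n) = n • L i x a := by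
    intro i x a ha n
    induction n using Int.induction_on with
    | zero => simp [h0]
    | succ n ih => rw [zpow_add_one, h1 i x _ (zpow_mem ha _) _ ha, ih, add_smul, one_smul]
    | pred n ih =>
      have := h1 i x _ (zpow_mem ha (-n - 1)) _ ha
      rw [← zpow_add_one, sub_add_cancel, ih] at this
      rw [sub_smul, one_smul, this]; abel
  let ν : ∀ i, G i →* Equiv.Perm (K.X × A) := fun i => MonoidHom.toHomPerm
    { toFun := fun g p => (K.ρ i g p.1, p.2 + L i p.1 (K.κ i g p.1))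
      map_one' := by funext p; simp [κ, h0]; rfl
      map_mul' := fun g h => by
        funext p
        simp only [Function.End.mul_def, Function.comp_apply, map_mul, Equiv.Perm.mul_apply, κ_mul,
          h2]
        rw [h1 i _ (K.κ i g _) (K.mem _ _ _) (K.κ i h _) (K.mem _ _ _)]
        congr 1; abel }
  have hν : ∀ i g x a, ν i g (x, a) = (K.ρ i g x, a + L i x (K.κ i g x)) := fun _ _ _ _ => rfl
  have ag : ∀ i, (ν i).comp (φ i) = (ν true).comp (φ true) := by
    intro i
    ext h ⟨x, a⟩ : 2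
    have e : ∀ i, L i x (K.κ i (φ i h) x) = K.n h x • L true x (K.u true x) := by
      intro i
      rw [κ, K.coc, ← h3 i]; exact hz i x _ (hu i x) _
    simp only [MonoidHom.comp_apply, hν, e, K.agree i]
  have ag' : ∀ i, (K.ρ i).comp (φ i) = (K.ρ true).comp (φ true) := fun i =>
    MonoidHom.ext fun h => K.agree i h
  refine ⟨PushoutI.lift ν _ ag, PushoutI.lift K.ρ _ ag', fun i g x a => by
    rw [PushoutI.lift_of, hν], fun i g => PushoutI.lift_of _ _ _ _, fun p => ?_⟩
  induction p using PushoutI.induction_on with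
  | of i g => exact ⟨_, fun x a => by rw [PushoutI.lift_of, PushoutI.lift_of, hν]⟩
  | base h => exact ⟨_, fun x a => by
      rw [PushoutI.lift_base, PushoutI.lift_base, MonoidHom.comp_apply, hν]; rfl⟩
  | mul p q hp hq =>
    obtain ⟨f, hf⟩ := hp
    obtain ⟨g, hg⟩ := hq
    exact ⟨fun x => g x + f (PushoutI.lift K.ρ _ ag' q x), fun x a => by
      rw [map_mul, map_mul, Equiv.Perm.mul_apply, Equiv.Perm.mul_apply, hg, hf, add_assoc]⟩
end Core

theorem push_gen {G0 : Type} [Group G0] {G : Bool → Type} [∀ i, Group (G i)] (φ : ∀ i, G0 →* G i)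
    (H : Subgroup (PushoutI φ)) (h : ∀ i g, PushoutI.of i g ∈ H) : H = ⊤ := by
  rw [eq_top_iff]
  intro p _
  induction p using PushoutI.induction_on with
  | of i g => exact h i g
  | base g => rw [← PushoutI.of_apply_eq_base φ true]; exact h _ _
  | mul p q hp hq => exact mul_mem (hp trivial) (hq trivial)

def IsCh {G : Type} [Group G] (N : Subgroup G) (χ : G → ℤ) : Prop :=
  ∀ a ∈ N, ∀ b ∈ N, χ (a * b) = χ a + χ b

def IsCh.hom {G : Type} [Group G] {N : Subgroup G} {χ : G → ℤ} (h : IsCh N χ) (S : Subgroup G)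
    (hS : S ≤ N) : S →* Multiplicative ℤ :=
  MonoidHom.mk' (fun a => Multiplicative.ofAdd (χ a)) fun a b => by
    rw [Subgroup.coe_mul, h _ (hS a.2) _ (hS b.2)]; rfl

theorem IsCh.zpow {G : Type} [Group G] {N : Subgroup G} {χ : G → ℤ} (h : IsCh N χ) {a : G}
    (ha : a ∈ N) (n : ℤ) : χ (a ^ n) = n * χ a := by
  have := congrArg Multiplicative.toAdd (map_zpow (h.hom N le_rfl) ⟨a, ha⟩ n)
  simpa [IsCh.hom] using this

theorem IsCh.one {G : Type} [Group G] {N : Subgroup G} {χ : G → ℤ} (h : IsCh N χ) : χ 1 = 0 := by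
  simpa using h.zpow (one_mem N) 0

end Pool.Agent.H69.Va
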