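import Pool.Agent.H69.Va1

namespace Pool.Agent.H69.Va
open Monoid

section ab
variable {G : Type} [Group G]

def Com (B : Subgroup G) : Prop := ∀ a ∈ B, ∀ b ∈ B, a * b = b * a

@[reducible] def Com.cg {B : Subgroup G} (h : Com B) : CommGroup B :=
  { (inferInstance : Group B) with mul_comm := fun a b => Subtype.ext (h _ a.2 _ b.2) }

def pw (B : Subgroup G) (h : Com B) (d : ℤ) : Subgroup G where
  carrier := {x | ∃ b ∈ B, b ^ d = x}
  one_mem' := ⟨1, one_mem _, one_zpow _⟩
  mul_mem' := by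
    rintro _ _ ⟨a, ha, rfl⟩ ⟨b, hb, rfl⟩
    exact ⟨a * b, mul_mem ha hb, Commute.mul_zpow (h a ha b hb) d⟩
  inv_mem' := by
    rintro _ ⟨a, ha, rfl⟩
    exact ⟨a⁻¹, inv_mem ha, inv_zpow a d⟩

theorem pw_le (B : Subgroup G) (h : Com B) (d : ℤ) : pw B h d ≤ B := by
  rintro _ ⟨a, ha, rfl⟩; exact zpow_mem ha d

theorem pw_normal (B : Subgroup G) [hB : B.Normal] (h : Com B) (d : ℤ) : (pw B h d).Normal :=
  ⟨by rintro _ ⟨a, ha, rfl⟩ g; exact ⟨g * a * g⁻¹, hB.conj_mem a ha g, conj_zpow⟩⟩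

theorem pw_fi [Group.FG G] (B : Subgroup G) [B.FiniteIndex] (h : Com B) {d : ℤ} (hd : d ≠ 0) :
    (pw B h d).FiniteIndex := by
  letI := h.cg
  haveI : Finite (B ⧸ (pw B h d).subgroupOf B) := by
    refine CommGroup.finite_of_fg_torsion _ fun y => ?_
    obtain ⟨y, rfl⟩ := QuotientGroup.mk_surjective y
    refine isOfFinOrder_iff_zpow_eq_one.2 ⟨d, hd, ?_⟩
    rw [← QuotientGroup.mk_zpow, QuotientGroup.eq_one_iff]
    exact ⟨y, y.2, rfl⟩
  refine ⟨?_⟩
  rw [← Subgroup.relIndex_mul_index (pw_le B h d)]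
  exact mul_ne_zero Subgroup.index_ne_zero_of_finite Subgroup.FiniteIndex.index_ne_zero

def TF (B : Subgroup G) : Prop := ∀ a ∈ B, ∀ n : ℤ, n ≠ 0 → a ^ n = 1 → a = 1

theorem ex_tf [Group.FG G] (h : VirtAb G) :
    ∃ B : Subgroup G, B.Normal ∧ B.FiniteIndex ∧ Com B ∧ TF B := by
  obtain ⟨A, hA, h⟩ := h
  have hc : Com A.normalCore := fun a ha b hb => h a (A.normalCore_le ha) b (A.normalCore_le hb)
  letI := hc.cg
  haveI : Finite (CommGroup.torsion A.normalCore) := by
    haveI : Module.Finite ℤ (Additive A.normalCore) := Module.Finite.iff_addGroup_fg.2 inferInstance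
    haveI : Group.FG (CommGroup.torsion A.normalCore) := by
      rw [Group.fg_iff_subgroup_fg, Subgroup.fg_iff_add_fg]
      exact Submodule.fg_toAddSubgroup (IsNoetherian.noetherian
        (AddSubgroup.toIntSubmodule (CommGroup.torsion A.normalCore).toAddSubgroup))
    exact CommGroup.finite_of_fg_torsion _ CommMonoid.torsion.isTorsion
  have hm : ((Nat.card (CommGroup.torsion A.normalCore) : ℕ) : ℤ) ≠ 0 := by
    exact_mod_cast Nat.card_pos.ne'
  refine ⟨pw _ hc _, pw_normal _ hc _, pw_fi _ hc hm,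
    fun a ha b hb => hc a (pw_le _ _ _ ha) b (pw_le _ _ _ hb), ?_⟩
  rintro _ ⟨a, ha, rfl⟩ n hn e
  have : (⟨a, ha⟩ : A.normalCore) ∈ CommGroup.torsion A.normalCore :=
    isOfFinOrder_iff_zpow_eq_one.2 ⟨_, mul_ne_zero hm hn, Subtype.ext (by simpa [zpow_mul] using e)⟩
  have := congrArg (fun x : CommGroup.torsion A.normalCore => (x.1 : G))
    (pow_card_eq_one' (x := (⟨⟨a, ha⟩, this⟩ : CommGroup.torsion A.normalCore)))
  rw [zpow_natCast]
  exact this

theorem sep [Group.FG G] (B : Subgroup G) [B.FiniteIndex] (h : Com B) (ht : TF B) {x : G}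
    (hx : x ∈ B) (h1 : x ≠ 1) : ∃ χ, IsCh B χ ∧ χ x ≠ 0 := by
  classical
  letI := h.cg
  haveI : Module.Finite ℤ (Additive B) := Module.Finite.iff_addGroup_fg.2 inferInstance
  haveI : IsMulTorsionFree B := ⟨fun n hn a b e => by
    have : (a * b⁻¹) ^ n = 1 := by rw [mul_pow, inv_pow]; exact mul_inv_eq_one.2 e
    exact mul_inv_eq_one.1 (Subtype.ext (ht _ (a * b⁻¹).2 n (by exact_mod_cast hn)
      (by simpa using congrArg Subtype.val this)))⟩
  by_contra hc
  push Not at hc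
  have := (Module.forall_dual_apply_eq_zero_iff ℤ (Additive.ofMul (⟨x, hx⟩ : B))).1 fun f => by
    have := hc (fun g => if hg : g ∈ B then f (Additive.ofMul ⟨g, hg⟩) else 0) (fun a ha b hb => by
      simp only [dif_pos ha, dif_pos hb, dif_pos (mul_mem ha hb), ← map_add]; rfl)
    simpa only [dif_pos hx] using this
  exact h1 (congrArg Subtype.val (show (⟨x, hx⟩ : B) = 1 from this))

theorem isol [Group.FG G] (B : Subgroup G) [B.FiniteIndex] (h : Com B) (ht : TF B) {u : G}
    (hu : u ∈ B) (S : Subgroup G) (hS : S ≤ B)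
    (h1 : ∀ a ∈ S, ∃ m n : ℤ, m ≠ 0 ∧ a ^ m = u ^ n) : IsCyclic S := by
  by_cases h0 : u = 1
  · haveI : Subsingleton S := ⟨fun a b => by
      have : ∀ a : S, a.1 = 1 := fun a => by
        obtain ⟨m, n, hm, e⟩ := h1 a a.2
        exact ht _ (hS a.2) m hm (by rw [e, h0, one_zpow])
      exact Subtype.ext ((this a).trans (this b).symm)⟩
    infer_instance
  obtain ⟨χ, h2, h3⟩ := sep B h ht hu h0
  refine isCyclic_of_injective (h2.hom S hS) ((injective_iff_map_eq_one _).2 fun a ha => ?_)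
  have ha' : χ a = 0 := ha
  obtain ⟨m, n, hm, e⟩ := h1 a a.2
  have := congrArg χ e
  rw [h2.zpow (hS a.2), h2.zpow hu, ha', mul_zero, eq_comm, mul_eq_zero] at this
  rw [this.resolve_right h3, zpow_zero] at e
  exact Subtype.ext (ht _ (hS a.2) m hm e)
end ab

theorem cyc_core {G0 : Type} [Group G0] (h : VirtCyc G0) (D : Subgroup G0) [D.FiniteIndex] :
    ∃ c ∈ D, (Subgroup.zpowers c).FiniteIndex := by
  obtain ⟨C, hC, h⟩ := h
  haveI : IsCyclic (C ⊓ D : Subgroup G0) := Subgroup.isCyclic_of_le inf_le_left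
  obtain ⟨c, hc⟩ := (Subgroup.isCyclic_iff_exists_zpowers_eq_top (C ⊓ D)).1 inferInstance
  refine ⟨c, (hc.le (Subgroup.mem_zpowers c)).2, by rw [hc]; infer_instance⟩

theorem adjust {G0 G : Type} [Group G0] [Group G] [Group.FG G] (i : G0 →* G)
    (hi : Function.Injective i) (B : Subgroup G) [B.Normal] [B.FiniteIndex] (h : Com B) (ht : TF B)
    (c : G0) (hc : i c ∈ B) [hf : (Subgroup.zpowers c).FiniteIndex] :
    ∃ N : Subgroup G, N.Normal ∧ N.FiniteIndex ∧ Com N ∧ TF N ∧ N.comap i = Subgroup.zpowers c := by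
  have key : ∀ g : G0, ∃ m n : ℤ, m ≠ 0 ∧ g ^ m = c ^ n := by
    intro g
    obtain ⟨m, hm, -, n, e⟩ := Subgroup.exists_pow_mem_of_index_ne_zero hf.index_ne_zero g
    exact ⟨m, n, by exact_mod_cast hm.ne', by simpa using e.symm⟩
  by_cases h0 : c = 1
  · refine ⟨B, inferInstance, inferInstance, h, ht, ?_⟩
    rw [h0, Subgroup.zpowers_one_eq_bot, eq_bot_iff]
    intro g hg
    obtain ⟨m, n, hm, e⟩ := key g
    exact hi ((ht _ hg m hm (by rw [← map_zpow, e, h0]; simp)).trans (map_one i).symm)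
  let S : Subgroup G :=
    { carrier := {a | a ∈ B ∧ ∃ m n : ℤ, m ≠ 0 ∧ a ^ m = i c ^ n}
      one_mem' := ⟨one_mem _, 1, 0, one_ne_zero, by simp⟩
      mul_mem' := by
        rintro a b ⟨ha, m, n, hm, e⟩ ⟨hb, m', n', hm', e'⟩
        refine ⟨mul_mem ha hb, m * m', n * m' + n' * m, mul_ne_zero hm hm', ?_⟩
        rw [Commute.mul_zpow (h a ha b hb), zpow_add, zpow_mul a, e, mul_comm m m', zpow_mul b, e',
          zpow_mul, zpow_mul]
      inv_mem' := by
        rintro a ⟨ha, m, n, hm, e⟩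
        exact ⟨inv_mem ha, m, -n, hm, by rw [inv_zpow, e, zpow_neg]⟩ }
  obtain ⟨e, he⟩ := (Subgroup.isCyclic_iff_exists_zpowers_eq_top S).1
    (isol B h ht hc S (fun a ha => ha.1) fun a ha => ha.2)
  obtain ⟨d, hd⟩ : i c ∈ Subgroup.zpowers e := by
    rw [he]; exact ⟨hc, 1, 1, one_ne_zero, rfl⟩
  dsimp only at hd
  have hd0 : d ≠ 0 := by
    rintro rfl
    exact h0 (hi (by simpa using hd.symm))
  refine ⟨pw B h d, pw_normal B h d, pw_fi B h hd0,
    fun a ha b hb => h a (pw_le _ _ _ ha) b (pw_le _ _ _ hb), fun a ha => ht a (pw_le _ _ _ ha),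
    le_antisymm ?_ ?_⟩
  · rintro g ⟨x, hx, e1⟩
    obtain ⟨m, n, hm, e2⟩ := key g
    obtain ⟨j, hj⟩ : x ∈ Subgroup.zpowers e := by
      rw [he]
      exact ⟨hx, d * m, n, mul_ne_zero hd0 hm, by rw [zpow_mul, e1, ← map_zpow, e2, map_zpow]⟩
    refine ⟨j, hi ?_⟩
    dsimp only at hj ⊢
    rw [map_zpow, ← hd, ← e1, ← hj, ← zpow_mul, ← zpow_mul, mul_comm]
  · rw [Subgroup.zpowers_le]
    exact ⟨e, (he.le (Subgroup.mem_zpowers e)).1, hd⟩

theorem va_main {G0 : Type} [Group G0] {G : Bool → Type} [∀ i, Group (G i)] (φ : ∀ i, G0 →* G i)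
    (hφ : ∀ i, Function.Injective (φ i)) (hfg : ∀ i, Group.FG (G i)) (hab : ∀ i, VirtAb (G i))
    (hc : VirtCyc G0) : ∃ (E : Type) (_ : Group E), Group.FG E ∧ VirtAb E ∧
      ∃ ν : PushoutI φ →* E, (∀ i, Function.Injective (ν.comp (PushoutI.of i))) ∧
        VirtCyc ((ν.comp (PushoutI.of true)).range ⊓ (ν.comp (PushoutI.of false)).range :
          Subgroup E) := by
  classical
  choose B b1 b2 b3 b4 using fun i => ex_tf (hab i)
  haveI := fi_comap (B true) (φ true)
  haveI := fi_comap (B false) (φ false)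
  obtain ⟨c, hc1, hc2⟩ := cyc_core hc ((B true).comap (φ true) ⊓ (B false).comap (φ false))
  choose N n1 n2 n3 n4 n5 using fun i => adjust (φ i) (hφ i) (B i) (b3 i) (b4 i) c
    (by cases i; exacts [hc1.2, hc1.1])
  obtain ⟨K⟩ := core_ex φ N c n5
  haveI := K.fin
  have hu : ∀ i x, K.u i x ∈ N i := fun i x => (n1 i).conj_mem' _ (by
    rw [← Subgroup.mem_comap, n5]; exact Subgroup.mem_zpowers c) _
  let Y : Bool → Type := fun i => {χ : G i → ℤ // IsCh (N i) χ}
  let w : ∀ i, K.X → Y i → ℤ := fun i x y => if c = 1 then 1 else y.1 (K.u i x)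
  have hw : ∀ i x, ∃ y, w i x y ≠ 0 := by
    intro i x
    by_cases h0 : c = 1
    · exact ⟨⟨0, fun _ _ _ _ => rfl⟩, by simp [w, h0]⟩
    · obtain ⟨χ, h1, h2⟩ := sep (N i) (n3 i) (n4 i) (hu i x) (fun e => h0 (hφ i (by
        simpa [Core.u, mul_assoc, inv_mul_eq_one] using e)))
      exact ⟨⟨χ, h1⟩, by simpa [w, h0] using h2⟩
  obtain ⟨Θ, P, t1, t2, t3⟩ := K.lift_ex (A := (∀ i, Y i) → ℤ)
    (fun i x g y => (y i).1 g * w (!i) x (y (!i)))
    (fun i x a ha b hb => by funext y; simp only [(y i).2 a ha b hb, Pi.add_apply]; ring)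
    (fun i g x => by funext a y; simp only [w, Core.u, K.cst]) hu
    (fun i x => by
      funext y
      cases i
      · by_cases h0 : c = 1
        · simp [Core.u, h0, (y true).2.one, (y false).2.one]
        · simp only [w, if_neg h0]; exact mul_comm _ _
      · rfl)
  have inj : ∀ i g, Θ (PushoutI.of i g) = 1 → g = 1 := by
    intro i g hg
    have := t1 i g K.x0 0
    rw [hg, Equiv.Perm.one_apply, Prod.mk.injEq, zero_add] at this
    have hκ : K.κ i g K.x0 = 1 := by
      by_contra hne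
      obtain ⟨χ, h1, h2⟩ := sep (N i) (n3 i) (n4 i) (K.mem i g K.x0) hne
      obtain ⟨y, hy⟩ := hw (!i) K.x0
      have e := congrFun this.2 (Function.update (Function.update
        (fun j => ⟨0, fun _ _ _ _ => rfl⟩) i ⟨χ, h1⟩) (!i) y)
      rw [Function.update_self, Function.update_of_ne (by cases i <;> simp),
        Function.update_self] at e
      exact mul_ne_zero h2 hy e.symm
    rw [Core.κ, ← this.1] at hκ
    simpa [mul_assoc, inv_mul_eq_one] using hκ
  haveI : P.ker.FiniteIndex := inferInstance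
  have fiB : (P.ker.map Θ.rangeRestrict).FiniteIndex := ⟨ne_zero_of_dvd_ne_zero
    Subgroup.FiniteIndex.index_ne_zero (Subgroup.index_map_dvd _ Θ.rangeRestrict_surjective)⟩
  refine ⟨Θ.range, inferInstance, ?_, ⟨_, fiB, ?_⟩, Θ.rangeRestrict, fun i => ?_, ?_⟩
  · haveI : Group.FG (PushoutI φ) := by
      choose S hS using fun i => (hfg i).out
      refine ⟨⟨(S true).image (PushoutI.of true) ∪ (S false).image (PushoutI.of false),
        push_gen φ _ fun i g => ?_⟩⟩
      have : g ∈ Subgroup.closure (S i : Set (G i)) := by rw [hS]; trivial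
      refine Subgroup.closure_mono ?_ ((MonoidHom.map_closure (PushoutI.of (φ := φ) i) _).le
        ⟨g, this, rfl⟩)
      cases i <;> simp
    infer_instance
  · rintro _ ⟨p, hp, rfl⟩ _ ⟨q, hq, rfl⟩
    obtain ⟨f, hf⟩ := t3 p
    obtain ⟨g, hg⟩ := t3 q
    rw [MonoidHom.mem_ker.1 hp] at hf
    rw [MonoidHom.mem_ker.1 hq] at hg
    apply Subtype.ext
    ext ⟨x, a⟩ : 1
    change Θ p (Θ q (x, a)) = Θ q (Θ p (x, a))
    simp only [hf, hg, Equiv.Perm.one_apply, add_right_comm]
  · exact (injective_iff_map_eq_one _).2 fun g hg => inj i g (congrArg Subtype.val hg)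
  · set I := (Θ.rangeRestrict.comp (PushoutI.of true)).range ⊓
      (Θ.rangeRestrict.comp (PushoutI.of false)).range
    refine ⟨(P.ker.map Θ.rangeRestrict).subgroupOf I, inferInstance, ?_⟩
    let S : Subgroup (G true) := N true ⊓ I.comap (Θ.rangeRestrict.comp (PushoutI.of true))
    have hS : IsCyclic S := by
      refine isol (N true) (n3 true) (n4 true)
        (u := K.s true K.x0 * K.u true K.x0 * (K.s true K.x0)⁻¹)
        ((n1 true).conj_mem _ (hu _ _) _) S inf_le_left fun a ha => ?_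
      obtain ⟨b, hb⟩ := ha.2.2
      have e : Θ (PushoutI.of false b) = Θ (PushoutI.of true a) := congrArg Subtype.val hb
      have e1 := t1 true a K.x0 0
      rw [← e, t1, Prod.mk.injEq, zero_add, zero_add] at e1
      have hk : K.κ true a K.x0 = (K.s true K.x0)⁻¹ * a * K.s true K.x0 := by
        rw [Core.κ, (K.fix true a K.x0).2 ha.1]
      obtain ⟨y, hy⟩ := hw false K.x0
      have e2 : ∀ χ : Y true, y.1 (K.κ false b K.x0) * w true K.x0 χ =
          χ.1 (K.κ true a K.x0) * w false K.x0 y := fun χ =>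
        congrFun e1.2 (fun j => match j with | true => χ | false => y)
      have hm : K.κ true a K.x0 ∈ N true := K.mem true a K.x0
      by_cases h0 : c = 1
      · refine ⟨1, 0, one_ne_zero, ?_⟩
        by_contra hne
        obtain ⟨χ, h1, h2⟩ := sep (N true) (n3 _) (n4 _) hm (fun e => hne (by
          rw [hk] at e
          simpa [mul_assoc, inv_mul_eq_one] using e))
        have a1 := e2 ⟨χ, h1⟩
        have a2 := e2 ⟨0, fun _ _ _ _ => rfl⟩
        simp only [w, if_pos h0, mul_one, Pi.zero_apply] at a1 a2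
        exact h2 (a1.symm.trans a2)
      · refine ⟨_, y.1 (K.κ false b K.x0), hy, ?_⟩
        have : K.κ true a K.x0 ^ w false K.x0 y = K.u true K.x0 ^ y.1 (K.κ false b K.x0) := by
          rw [← mul_inv_eq_one]
          by_contra hne
          obtain ⟨χ, h1, h2⟩ := sep (N true) (n3 _) (n4 _)
            (mul_mem (zpow_mem hm _) (inv_mem (zpow_mem (hu true K.x0) _))) hne
          rw [h1 _ (zpow_mem hm _) _ (inv_mem (zpow_mem (hu true K.x0) _)), ← zpow_neg,
            h1.zpow hm, h1.zpow (hu _ _)] at h2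
          have a1 := e2 ⟨χ, h1⟩
          simp only [w, if_neg h0] at a1 h2
          exact h2 (by linarith)
        rw [conj_zpow, ← this, hk, ← conj_zpow]; group
    let f : S →* (P.ker.map Θ.rangeRestrict).subgroupOf I := MonoidHom.mk'
      (fun a => ⟨⟨Θ.rangeRestrict (PushoutI.of true a.1), a.2.2⟩, PushoutI.of true a.1, by
        change P _ = 1
        rw [t2]; ext x; exact (K.fix true _ x).2 a.2.1, rfl⟩)
      (fun a b => by apply Subtype.ext; apply Subtype.ext; simp)
    refine isCyclic_of_surjective f ?_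
    rintro ⟨⟨z, hz⟩, p, hp, e⟩
    obtain ⟨a, rfl⟩ := hz.1
    have ha : a ∈ N true := by
      obtain ⟨g, hg⟩ := t3 p
      have e1 : Θ p = Θ (PushoutI.of true a) := congrArg Subtype.val e
      have := hg K.x0 0
      rw [e1, t1, MonoidHom.mem_ker.1 hp] at this
      exact (K.fix true a K.x0).1 (congrArg Prod.fst this)
    exact ⟨⟨a, ha, hz⟩, rfl⟩

end Pool.Agent.H69.Va
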