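import Pool.Agent.H69.Va2

namespace Pool.Agent.H69.Va
open Monoid

theorem schreier2 {Γ Ω : Type} [Group Γ] [MulAction Γ Ω] (A : Bool → Subgroup Γ)
    (hgen : ∀ H : Subgroup Γ, (∀ i, A i ≤ H) → H = ⊤) (D : Set Ω) (hD : D.Finite)
    (hcov : ∀ ω : Ω, ∃ h : Γ, (∀ i, h ∈ A i) ∧ ∃ d ∈ D, h • d = ω)
    (hst : ∀ i (ω : Ω), (A i ⊓ MulAction.stabilizer Γ ω).FG) (ω0 : Ω) :
    (MulAction.stabilizer Γ ω0).FG := by
  classical
  choose h hA d hd he using hcov
  have hp : ∀ e : Ω, ∃ p : Γ, (∃ g : Γ, g • ω0 = e) → p • ω0 = e := fun e => by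
    by_cases h0 : ∃ g : Γ, g • ω0 = e
    · exact ⟨h0.choose, fun _ => h0.choose_spec⟩
    · exact ⟨1, fun h => absurd h h0⟩
  choose p hp using hp
  have hj : ∀ i (e e' : Ω), ∃ j : Γ, (∃ g ∈ A i, g • e = e') → j ∈ A i ∧ j • e = e' :=
    fun i e e' => by
    by_cases h0 : ∃ g ∈ A i, g • e = e'
    · exact ⟨h0.choose, fun _ => h0.choose_spec⟩
    · exact ⟨1, fun h => absurd h h0⟩
  choose j hj using hj
  choose S hS using hst
  let T : Set Γ := ({h ω0 * p (d ω0)} ∪ (⋃ i, ⋃ e ∈ D, ⋃ e' ∈ D, {(p e')⁻¹ * j i e e' * p e}) ∪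
    ⋃ i, ⋃ e ∈ D, (fun s => (p e)⁻¹ * s * p e) '' (S i e : Set Γ)) ∩ MulAction.stabilizer Γ ω0
  have hT : T.Finite := Set.Finite.inter_of_left (((Set.finite_singleton _).union
    (Set.finite_iUnion fun i => hD.biUnion fun _ _ => hD.biUnion fun _ _ =>
      Set.finite_singleton _)).union (Set.finite_iUnion fun i => hD.biUnion fun e _ =>
      (S i e).finite_toSet.image _)) _
  let F := Subgroup.closure T
  let W : Γ → Prop := fun x => (h (x • ω0) * p (d (x • ω0)))⁻¹ * x ∈ F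
  have hpd : ∀ x : Γ, p (d (x • ω0)) • ω0 = d (x • ω0) := fun x =>
    hp _ ⟨(h (x • ω0))⁻¹ * x, by rw [mul_smul, inv_smul_eq_iff, he]⟩
  have step : ∀ i, ∀ g ∈ A i, ∀ x, W x → W (g * x) := by
    intro i g hg x hx
    have e1 := hpd x
    have e2 := hpd (g * x)
    have a1 := he (x • ω0)
    have a2 := he ((g * x) • ω0)
    have d1 := hd (x • ω0)
    have d2 := hd ((g * x) • ω0)
    have m1 := hA (x • ω0) i
    have m2 := hA ((g * x) • ω0) i
    change _ ∈ F at hx ⊢
    generalize h (x • ω0) = a at *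
    generalize h ((g * x) • ω0) = a' at *
    generalize d (x • ω0) = e at *
    generalize d ((g * x) • ω0) = e' at *
    have k1 : a'⁻¹ * g * a ∈ A i := mul_mem (mul_mem (inv_mem m2) hg) m1
    have k2 : (a'⁻¹ * g * a) • e = e' := by
      rw [mul_smul, mul_smul, a1, inv_smul_eq_iff, a2, mul_smul]
    obtain ⟨j1, j2⟩ := hj i e e' ⟨_, k1, k2⟩
    have f1 : (p e')⁻¹ * j i e e' * p e ∈ F := Subgroup.subset_closure ⟨Or.inl (Or.inr (by
      simp only [Set.mem_iUnion]; exact ⟨i, e, d1, e', d2, rfl⟩)), by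
      change _ • ω0 = ω0
      rw [mul_smul, mul_smul, e1, j2, inv_smul_eq_iff, e2]⟩
    have f2 : ∀ y ∈ Subgroup.closure (S i e : Set Γ), (p e)⁻¹ * y * p e ∈ F := by
      intro y hy
      induction hy using Subgroup.closure_induction with
      | mem s hs =>
        refine Subgroup.subset_closure ⟨Or.inr (by
          simp only [Set.mem_iUnion]; exact ⟨i, e, d1, s, hs, rfl⟩), ?_⟩
        have : s • e = e := ((hS i e).le (Subgroup.subset_closure hs)).2
        change _ • ω0 = ω0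
        rw [mul_smul, mul_smul, e1, this, inv_smul_eq_iff, e1]
      | one => simp
      | mul y z _ _ hy hz => convert mul_mem hy hz using 1; group
      | inv y _ hy => convert inv_mem hy using 1; group
    have f3 := f2 ((j i e e')⁻¹ * (a'⁻¹ * g * a)) (by
      rw [hS]
      refine Subgroup.mem_inf.2 ⟨mul_mem (inv_mem j1) k1, ?_⟩
      change _ • e = e
      rw [mul_smul, k2, inv_smul_eq_iff, j2])
    convert mul_mem (mul_mem f1 f3) hx using 1; group
  let H : Subgroup Γ :=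
    { carrier := {g | ∀ x, W x ↔ W (g * x)}
      one_mem' := fun x => by rw [one_mul]
      mul_mem' := fun {a b} ha hb x => by rw [mul_assoc, ← ha, ← hb]
      inv_mem' := fun {a} ha x => by rw [ha (a⁻¹ * x), mul_inv_cancel_left] }
  have hH : H = ⊤ := hgen H fun i g hg x => ⟨step i g hg x, fun hx => by
    simpa using step i g⁻¹ (inv_mem hg) _ hx⟩
  have h0 : h ω0 * p (d ω0) ∈ F := Subgroup.subset_closure ⟨Or.inl (Or.inl rfl), by
    change _ • ω0 = ω0
    have := hpd 1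
    rw [one_smul] at this
    rw [mul_smul, this, he]⟩
  refine (Subgroup.fg_iff _).2 ⟨T, le_antisymm ((Subgroup.closure_le _).2 fun _ h => h.2)
    fun x hx => ?_, hT⟩
  have w1 : W 1 := by simpa [W] using inv_mem h0
  have : W x := by simpa using ((hH.ge (Subgroup.mem_top x) : x ∈ H) 1).1 w1
  have hx' : x • ω0 = ω0 := hx
  simp only [W, hx'] at this
  have e := mul_mem h0 this
  rwa [mul_inv_cancel_left] at e

theorem bns_open {Γ : Type} [Group Γ] (χ ψ : Γ →* Multiplicative ℤ) (h1 : χ ≠ 1)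
    (h2 : χ.ker.FG) : ∃ M0 : ℕ, ∀ M ≥ M0, (χ ^ M * ψ).ker.FG := by
  classical
  obtain ⟨S, hS⟩ := h2
  obtain ⟨t, ht, hgen⟩ : ∃ t : Γ, 0 < (χ t).toAdd ∧ ∀ g : Γ, ∃ n : ℤ, g * t ^ n ∈ χ.ker := by
    obtain ⟨_, ⟨t, rfl⟩, hz⟩ : ∃ z ∈ χ.range, Subgroup.zpowers z = χ.range := by
      obtain ⟨z, hz⟩ := (Subgroup.isCyclic_iff_exists_zpowers_eq_top χ.range).1 inferInstance
      exact ⟨z, hz.le (Subgroup.mem_zpowers z), hz⟩
    have key : ∀ g : Γ, ∃ n : ℤ, χ t ^ n = χ g := fun g => hz.ge ⟨g, rfl⟩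
    have h0 : (χ t).toAdd ≠ 0 := fun e => h1 (by
      ext g
      obtain ⟨n, hn⟩ := key g
      rw [← hn]; simp [e])
    rcases lt_or_gt_of_ne h0 with h | h
    · refine ⟨t⁻¹, by simpa using h, fun g => ?_⟩
      obtain ⟨n, hn⟩ := key g
      exact ⟨n, by simp [MonoidHom.mem_ker, ← hn]⟩
    · refine ⟨t, h, fun g => ?_⟩
      obtain ⟨n, hn⟩ := key g
      exact ⟨-n, by simp [MonoidHom.mem_ker, ← hn]⟩
  let S' : Set Γ := (S : Set Γ) ∪ (S : Set Γ)⁻¹
  have hS' : S'.Finite := S.finite_toSet.union S.finite_toSet.inv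
  have hker : ∀ g, g ∈ χ.ker ↔ g ∈ Submonoid.closure S' := fun g => by
    rw [← hS, ← Subgroup.closure_toSubmonoid]; rfl
  have bd : ∀ g ∈ χ.ker, ∃ B : ℕ, ∀ (η : Γ → ℤ) (W : Γ → Prop),
      (∀ y ∈ χ.ker, ∀ x, η (y * x) = (ψ y).toAdd + η x) → ∀ x, W x →
      (∀ z, W z → |η z - η x| ≤ B → ∀ s ∈ S', W (s * z)) → W (g * x) := by
    intro g hg
    rw [hker] at hg
    induction hg using Submonoid.closure_induction_left with
    | one => exact ⟨0, fun η W _ x hx _ => by simpa using hx⟩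
    | mul_left s hs y hy ih =>
      obtain ⟨B, hB⟩ := ih
      refine ⟨B + (ψ y).toAdd.natAbs, fun η W hη x hx H => ?_⟩
      rw [mul_assoc]
      refine H _ (hB η W hη x hx fun z hz hb => H z hz (hb.trans (by push_cast; simp))) ?_ s hs
      rw [hη y ((hker y).2 hy)]; push_cast; simp
  have bd2 : ∀ s : Γ, ∃ B : ℕ, s ∈ S' → ∀ g, (g = t * s * t⁻¹ ∨ g = t⁻¹ * s * t) →
      ∀ (η : Γ → ℤ) (W : Γ → Prop),
      (∀ y ∈ χ.ker, ∀ x, η (y * x) = (ψ y).toAdd + η x) → ∀ x, W x →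
      (∀ z, W z → |η z - η x| ≤ B → ∀ s ∈ S', W (s * z)) → W (g * x) := by
    intro s
    by_cases hs : s ∈ S'
    · have hs' := (hker s).2 (Submonoid.subset_closure hs)
      obtain ⟨B1, b1⟩ := bd _ (χ.normal_ker.conj_mem s hs' t)
      obtain ⟨B2, b2⟩ := bd _ (χ.normal_ker.conj_mem' s hs' t)
      refine ⟨B1 + B2, fun _ g hg η W hη x hx H => ?_⟩
      rcases hg with rfl | rfl
      · exact b1 η W hη x hx fun z hz hb => H z hz (hb.trans (by push_cast; simp))
      · exact b2 η W hη x hx fun z hz hb => H z hz (hb.trans (by push_cast; simp))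
    · exact ⟨0, fun h => absurd h hs⟩
  choose B hB using bd2
  obtain ⟨B0, hB0⟩ := (hS'.image B).bddAbove
  refine ⟨B0 + 1 + (ψ t).toAdd.natAbs, fun M hM => ?_⟩
  let η : Γ → ℤ := fun g => ((χ ^ M * ψ) g).toAdd
  have η1 : ∀ a b, η (a * b) = η a + η b := fun a b => by simp only [η, map_mul, toAdd_mul]
  have η2 : ∀ y ∈ χ.ker, η y = (ψ y).toAdd := fun y hy => by
    simp [η, MonoidHom.mem_ker.1 hy]
  have ηz : ∀ a (n : ℤ), η (a ^ n) = n * η a := fun a n => by
    simp only [η, map_zpow, toAdd_zpow, smul_eq_mul]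
  have ηi : ∀ a, η a⁻¹ = - η a := fun a => by simp only [η, map_inv, toAdd_inv]
  have hm : (B0 : ℤ) < η t := by
    have e : η t = M * (χ t).toAdd + (ψ t).toAdd := by simp [η]
    have : (B0 : ℤ) + 1 + |(ψ t).toAdd| ≤ M := by
      have := Int.ofNat_le.2 hM
      push_cast at this
      exact this
    have := neg_abs_le (ψ t).toAdd
    nlinarith [abs_nonneg (ψ t).toAdd]
  set m := η t with hmd
  have hp : ∀ r : ℤ, ∃ p : Γ, (∃ g, η g = r) → η p = r := fun r => by
    by_cases h0 : ∃ g, η g = r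
    · exact ⟨h0.choose, fun _ => h0.choose_spec⟩
    · exact ⟨1, fun h => absurd h h0⟩
  choose p hp using hp
  let q : ℤ → Γ := fun a => t ^ (a / m) * p (a % m)
  have hq : ∀ x, η (q (η x)) = η x := fun x => by
    simp only [q]
    rw [η1, ηz, hp _ ⟨t ^ (-(η x / m)) * x, by rw [η1, ηz, Int.emod_def]; ring⟩, Int.emod_def]
    ring
  have hm0 : 0 < m := by omega
  have hq2 : ∀ a n : ℤ, q (n * m + a) = t ^ n * q a := fun a n => by
    simp only [q]
    rw [add_comm (n * m), Int.add_mul_ediv_right _ _ hm0.ne', Int.add_mul_emod_self_right,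
      add_comm, zpow_add, mul_assoc]
  let T : Set Γ := ({q 0} ∪ ⋃ a ∈ Set.Icc (-m) m, ⋃ s ∈ S', {(q (η s + a))⁻¹ * s * q a}) ∩
    (χ ^ M * ψ).ker
  have hT : T.Finite := Set.Finite.inter_of_left ((Set.finite_singleton _).union
    ((Set.finite_Icc _ _).biUnion fun _ _ => hS'.biUnion fun _ _ => Set.finite_singleton _)) _
  let F := Subgroup.closure T
  let W : Γ → Prop := fun x => (q (η x))⁻¹ * x ∈ F
  have mk : ∀ g, η g = 0 → g ∈ (χ ^ M * ψ).ker := fun g hg => hg
  have wt : ∀ (n : ℤ) x, W x → W (t ^ n * x) := fun n x hx => by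
    simp only [W] at hx ⊢
    rw [η1, ηz, hq2]
    convert hx using 1; group
  have main : ∀ n : ℕ, ∀ x, W x → (η x).natAbs = n → ∀ s ∈ S', W (s * x) := by
    intro n
    induction n using Nat.strong_induction_on with
    | _ n ih =>
    intro x hx hn s hs
    have hb : B s ≤ B0 := hB0 ⟨s, hs, rfl⟩
    by_cases h0 : η x ∈ Set.Icc (-m) m
    · have : (q (η s + η x))⁻¹ * s * q (η x) ∈ F := Subgroup.subset_closure ⟨Or.inr (by
        simp only [Set.mem_iUnion]; exact ⟨η x, h0, s, hs, rfl⟩), mk _ (by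
          rw [η1, η1, ηi, ← η1, hq, hq, η1]; ring)⟩
      simp only [W] at hx ⊢
      rw [η1]
      convert mul_mem this hx using 1; group
    rw [Set.mem_Icc, not_and_or] at h0
    rcases h0 with h0 | h0
    · have := hB s hs _ (Or.inl rfl) η W (fun y hy x => by rw [η1, η2 y hy]) (t ^ (1 : ℤ) * x)
        (wt 1 x hx) fun z hz hb' => ih _ (by
          rw [η1, ηz, abs_le] at hb'; omega) z hz rfl
      convert wt (-1) _ this using 1; group
    · have := hB s hs _ (Or.inr rfl) η W (fun y hy x => by rw [η1, η2 y hy]) (t ^ (-1 : ℤ) * x)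
        (wt (-1) x hx) fun z hz hb' => ih _ (by
          rw [η1, ηz, abs_le] at hb'; omega) z hz rfl
      convert wt 1 _ this using 1; group
  have η0 : η 1 = 0 := by simp [η]
  have h0 : q 0 ∈ F := Subgroup.subset_closure ⟨Or.inl rfl, mk _ (by simpa [η0] using hq 1)⟩
  have all : ∀ g, W g := by
    intro g
    obtain ⟨n, hn⟩ := hgen g
    have : ∀ y ∈ Submonoid.closure S', ∀ x, W x → W (y * x) := by
      intro y hy x hx
      induction hy using Submonoid.closure_induction_left with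
      | one => simpa using hx
      | mul_left s hs y hy ih => rw [mul_assoc]; exact main _ _ ih rfl s hs
    have w1 : W 1 := by simpa [W, η0] using h0
    simpa using this _ ((hker _).1 hn) _ (wt (-n) 1 w1)
  refine (Subgroup.fg_iff _).2 ⟨T, le_antisymm ((Subgroup.closure_le _).2 fun _ h => h.2)
    fun x hx => ?_, hT⟩
  have := all x
  have hx' : η x = 0 := hx
  simp only [W, hx'] at this
  simpa using mul_mem h0 this

end Pool.Agent.H69.Va
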