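import Pool.Agent.H69.Va3

namespace Pool.Agent.H69.Va
open Monoid

theorem fib_sub {G : Type} [Group G] (H N : Subgroup G) [N.FiniteIndex] (hN : N ≤ H)
    (h : Fibered H) : Fibered N := by
  obtain ⟨f, h1, h2⟩ := h
  refine ⟨f.comp (Subgroup.inclusion hN), fun e => h1 ?_, ?_⟩
  · ext a
    obtain ⟨m, hm, -, ha⟩ := Subgroup.exists_pow_mem_of_index_ne_zero
      (Subgroup.FiniteIndex.index_ne_zero (H := N)) a.1
    have := DFunLike.congr_fun e ⟨_, ha⟩
    change f (a ^ m) = 1 at this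
    rw [map_pow] at this
    have := congrArg Multiplicative.toAdd this
    simpa [hm.ne'] using this
  · haveI := (Group.fg_iff_subgroup_fg _).2 h2
    rw [← Group.fg_iff_subgroup_fg]
    let j : (N.subgroupOf H).subgroupOf f.ker →* (f.comp (Subgroup.inclusion hN)).ker :=
      MonoidHom.mk' (fun x => ⟨⟨x.1.1.1, x.2⟩, x.1.2⟩) fun _ _ => rfl
    exact Group.fg_of_surjective (f := j) fun x => ⟨⟨⟨⟨x.1.1, hN x.1.2⟩, x.2⟩, x.1.2⟩, rfl⟩

theorem avoid {Γ : Type} [Group Γ] (h : Fibered Γ) (V : Set Γ) (hV : V.Finite)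
    (hψ : ∀ v ∈ V, ∃ ψ : Γ →* Multiplicative ℤ, ψ v ≠ 1) :
    ∃ χ : Γ →* Multiplicative ℤ, χ ≠ 1 ∧ χ.ker.FG ∧ ∀ v ∈ V, χ v ≠ 1 := by
  induction V, hV using Set.Finite.induction_on with
  | empty => obtain ⟨f, h1, h2⟩ := h; exact ⟨f, h1, h2, by simp⟩
  | @insert v V _ hV ih =>
    obtain ⟨χ, h1, h2, h3⟩ := ih fun v hv => hψ v (Or.inr hv)
    obtain ⟨ψ, h4⟩ := hψ v (Or.inl rfl)
    obtain ⟨M0, hM⟩ := bns_open χ ψ h1 h2
    obtain ⟨B, hB⟩ := ((hV.insert v).image fun w => (ψ w).toAdd.natAbs).bddAbove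
    have key : ∀ w ∈ insert v V, (χ ^ (M0 + B + 1) * ψ) w ≠ 1 := by
      intro w hw e
      have e' : ((M0 + B + 1 : ℕ) : ℤ) * (χ w).toAdd + (ψ w).toAdd = 0 := by
        simpa using congrArg Multiplicative.toAdd e
      have hb : (ψ w).toAdd.natAbs ≤ B := hB ⟨w, hw, rfl⟩
      have h0 : (χ w).toAdd = 0 := by
        by_contra h0
        have : (ψ w).toAdd.natAbs = (M0 + B + 1) * (χ w).toAdd.natAbs := by
          rw [← Int.natAbs_neg, ← eq_neg_of_add_eq_zero_left e', Int.natAbs_mul, Int.natAbs_natCast]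
        have h5 : 0 < (χ w).toAdd.natAbs := Int.natAbs_pos.2 h0
        nlinarith
      rcases hw with rfl | hw
      · rw [h0, mul_zero, zero_add] at e'
        exact h4 e'
      · exact h3 w hw h0
    exact ⟨_, fun e => key v (Or.inl rfl) (by rw [e]; rfl), hM _ (by omega), key⟩

theorem ret {G0 G : Type} [Group G0] [Group G] (i : G0 →* G) (hi : Function.Injective i)
    (h : VirtRetract i.range) (c : G0) (hc : ¬IsOfFinOrder c)
    [(Subgroup.zpowers c).FiniteIndex] : ∃ (R : Subgroup G) (ψ : G → ℤ), R.FiniteIndex ∧ IsCh R ψ ∧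
      (∀ n : ℤ, ψ (i (c ^ n)) = n) ∧ R.comap i ≤ Subgroup.zpowers c := by
  classical
  obtain ⟨K, hK, hle, r, hr⟩ := h
  let r' : K →* G0 := (MonoidHom.ofInjective hi).symm.toMonoidHom.comp r
  have hr' : ∀ g, r' ⟨i g, hle ⟨g, rfl⟩⟩ = g := fun g => by
    change (MonoidHom.ofInjective hi).symm (r ⟨(⟨i g, g, rfl⟩ : i.range).1, _⟩) = g
    rw [hr, MulEquiv.symm_apply_eq]; rfl
  have inj := injective_zpow_iff_not_isOfFinOrder.2 hc
  have hl : ∀ g : G0, ∃ n : ℤ, g ∈ Subgroup.zpowers c → c ^ n = g := fun g => by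
    by_cases h0 : g ∈ Subgroup.zpowers c
    · exact ⟨h0.choose, fun _ => h0.choose_spec⟩
    · exact ⟨0, fun h => absurd h h0⟩
  choose l hl using hl
  haveI := fi_comap (Subgroup.zpowers c) r'
  refine ⟨((Subgroup.zpowers c).comap r').map K.subtype,
    fun g => if hg : g ∈ K then l (r' ⟨g, hg⟩) else 0, ⟨?_⟩, ?_, fun n => ?_, ?_⟩
  · rw [Subgroup.index_map_subtype]
    exact mul_ne_zero Subgroup.FiniteIndex.index_ne_zero Subgroup.FiniteIndex.index_ne_zero
  · rintro _ ⟨a, ha, rfl⟩ _ ⟨b, hb, rfl⟩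
    simp only [Subgroup.coe_subtype, dif_pos a.2, dif_pos b.2, dif_pos (mul_mem a.2 b.2)]
    apply inj
    change c ^ l (r' (a * b)) = c ^ (l (r' a) + l (r' b))
    rw [zpow_add, hl _ ha, hl _ hb, hl _ (mul_mem ha hb : a * b ∈ (Subgroup.zpowers c).comap r'),
      map_mul]
  · simp only [dif_pos (hle ⟨c ^ n, rfl⟩), hr']
    exact inj (hl _ ⟨n, rfl⟩)
  · rintro g ⟨a, ha, e⟩
    have : a = ⟨i g, hle ⟨g, rfl⟩⟩ := Subtype.ext e
    rw [← hr' g, ← this]; exact ha

theorem mtch {G0 G : Type} [Group G0] [Group G] (i : G0 →* G) (L : Subgroup G) [hL : L.Normal]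
    [L.FiniteIndex] (ψ : G → ℤ) (hψ : IsCh L ψ) (u : G0) (hu : L.comap i = Subgroup.zpowers u)
    (h0 : ψ (i u) ≠ 0) (e : ℕ) (he : e ≠ 0) : ∃ N : Subgroup G, N ≤ L ∧ N.Normal ∧ N.FiniteIndex ∧
      N.comap i = Subgroup.zpowers (u ^ e) := by
  have huL : i u ∈ L := hu.ge (Subgroup.mem_zpowers u)
  let I : Ideal ℤ := Ideal.span (Set.range fun b : G => ψ (b * i u * b⁻¹))
  obtain ⟨γ, hγ⟩ : ∃ γ, I = Ideal.span {γ} := ⟨_, (Ideal.span_singleton_generator I).symm⟩
  have h1 : ∀ b : G, γ ∣ ψ (b * i u * b⁻¹) := fun b => by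
    rw [← Ideal.mem_span_singleton, ← hγ]; exact Ideal.subset_span ⟨b, rfl⟩
  have hγ0 : γ ≠ 0 := by
    rintro rfl
    exact h0 (by simpa using h1 1)
  have h2 : ∀ j : ℤ, (∀ b : G, e * γ ∣ j * ψ (b * i u * b⁻¹)) → (e : ℤ) ∣ j := by
    intro j hj
    have : ∀ y ∈ I, e * γ ∣ j * y := by
      intro y hy
      induction hy using Submodule.span_induction with
      | mem y hy => obtain ⟨b, rfl⟩ := hy; exact hj b
      | zero => simp
      | add a b _ _ ha hb => rw [mul_add]; exact dvd_add ha hb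
      | smul a b _ hb => rw [smul_eq_mul, mul_left_comm]; exact hb.mul_left a
    exact (mul_dvd_mul_iff_right hγ0).1 (this γ (by rw [hγ]; exact Ideal.mem_span_singleton_self γ))
  let Z : Subgroup (Multiplicative ℤ) := AddSubgroup.toSubgroup (AddSubgroup.zmultiples (e * γ))
  haveI : Z.FiniteIndex := ⟨by
    rw [AddSubgroup.index_toSubgroup, Int.index_zmultiples]
    exact Int.natAbs_ne_zero.2 (mul_ne_zero (by exact_mod_cast he) hγ0)⟩
  haveI := fi_comap Z (hψ.hom L le_rfl)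
  let A := (Z.comap (hψ.hom L le_rfl)).map L.subtype
  haveI : A.FiniteIndex := ⟨by
    rw [Subgroup.index_map_subtype]
    exact mul_ne_zero Subgroup.FiniteIndex.index_ne_zero Subgroup.FiniteIndex.index_ne_zero⟩
  have hA : ∀ g ∈ L, g ∈ A ↔ e * γ ∣ ψ g := fun g hg => by
    rw [← Int.mem_zmultiples_iff]
    exact ⟨by rintro ⟨a, ha, rfl⟩; exact ha, fun h => ⟨⟨g, hg⟩, h, rfl⟩⟩
  have hz : ∀ (b : G) (j : ℤ), b * i (u ^ j) * b⁻¹ ∈ A ↔ e * γ ∣ j * ψ (b * i u * b⁻¹) := by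
    intro b j
    rw [map_zpow, ← conj_zpow, hA _ (zpow_mem (hL.conj_mem _ huL b) j),
      hψ.zpow (hL.conj_mem _ huL b)]
  refine ⟨A.normalCore, A.normalCore_le.trans (Subgroup.map_subtype_le _), inferInstance,
    inferInstance, le_antisymm (fun g hg => ?_) ?_⟩
  · obtain ⟨j, rfl⟩ : g ∈ Subgroup.zpowers u :=
      hu.le (show i g ∈ L from Subgroup.map_subtype_le _ (A.normalCore_le hg))
    obtain ⟨k, rfl⟩ := h2 j fun b => (hz b j).1 (hg b)
    exact ⟨k, by simp [zpow_mul]⟩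
  · rw [Subgroup.zpowers_le]
    intro b
    rw [← zpow_natCast]
    exact (hz b e).2 (mul_dvd_mul_left _ (h1 b))

theorem prep {G0 : Type} [Group G0] {G : Bool → Type} [∀ i, Group (G i)] (φ : ∀ i, G0 →* G i)
    (hφ : ∀ i, Function.Injective (φ i)) [Infinite G0] (hc : VirtCyc G0)
    (hf : ∀ i, VirtFibered (G i)) (hr : ∀ i, VirtRetract (φ i).range) :
    ∃ (c : G0) (N : ∀ i, Subgroup (G i)), c ≠ 1 ∧ ∀ i, (N i).Normal ∧ (N i).FiniteIndex ∧
      (N i).comap (φ i) = Subgroup.zpowers c ∧ Fibered (N i) ∧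
      ∃ ψ, IsCh (N i) ψ ∧ ψ (φ i c) ≠ 0 := by
  obtain ⟨c, -, hc⟩ := cyc_core hc ⊤
  have inf : ∀ u : G0, (Subgroup.zpowers u).FiniteIndex → ¬IsOfFinOrder u := fun u hu h => by
    haveI : Finite (Subgroup.zpowers u) := h.finite_zpowers
    haveI : Finite G0 := (Subgroup.finite_iff_finite_and_finiteIndex (Subgroup.zpowers u)).2
      ⟨inferInstance, hu⟩
    exact not_finite G0
  choose R ψ r1 r2 r3 r4 using fun i => ret (φ i) (hφ i) (hr i) c (inf c hc)
  choose H h1 h2 using hf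
  let L : ∀ i, Subgroup (G i) := fun i => (H i ⊓ R i).normalCore
  have l1 : ∀ i, L i ≤ H i := fun i => (Subgroup.normalCore_le _).trans inf_le_left
  have l2 : ∀ i, L i ≤ R i := fun i => (Subgroup.normalCore_le _).trans inf_le_right
  choose e he using fun i => (Subgroup.le_zpowers_iff c ((L i).comap (φ i))).1
    ((Subgroup.comap_mono (l2 i)).trans (r4 i))
  have e0 : ∀ i, e i ≠ 0 := fun i h => inf (c ^ e i) (by rw [← he]; exact fi_comap _ _)
    (by rw [h, pow_zero]; exact IsOfFinOrder.one)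
  have r5 : ∀ i (n : ℕ), n ≠ 0 → ψ i (φ i (c ^ n)) ≠ 0 := fun i n hn => by
    rw [← zpow_natCast, r3]; exact_mod_cast hn
  choose N n1 n2 n3 n4 using fun i => mtch (φ i) (L i) (ψ i)
    (fun a ha b hb => r2 i a (l2 i ha) b (l2 i hb)) _ (he i) (r5 i _ (e0 i)) _ (e0 (!i))
  have hne := mul_ne_zero (e0 true) (e0 false)
  refine ⟨c ^ (e true * e false), N, fun h => r5 true _ hne (by
    rw [h, map_one]; exact (r2 true).one), fun i => ⟨n2 i, n3 i, ?_,
    fib_sub (H i) (N i) ((n1 i).trans (l1 i)) (h2 i), ψ i,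
    fun a ha b hb => r2 i a (l2 i (n1 i ha)) b (l2 i (n1 i hb)), r5 i _ hne⟩⟩
  rw [n4, ← pow_mul]
  cases i
  · rw [mul_comm]; rfl
  · rfl

theorem vf_main {G0 : Type} [Group G0] {G : Bool → Type} [∀ i, Group (G i)] (φ : ∀ i, G0 →* G i)
    (hφ : ∀ i, Function.Injective (φ i)) [Infinite G0] (hc : VirtCyc G0)
    (hf : ∀ i, VirtFibered (G i)) (hr : ∀ i, VirtRetract (φ i).range) :
    VirtFibered (PushoutI φ) := by
  classical
  obtain ⟨c, N, hc1, hN⟩ := prep φ hφ hc hf hr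
  choose n1 n2 n3 n4 ψ n5 n6 using hN
  obtain ⟨K⟩ := core_ex φ N c n3
  haveI := K.fin
  have hcN : ∀ i, φ i c ∈ N i := fun i => (n3 i).ge (Subgroup.mem_zpowers c)
  have hu : ∀ i x, K.u i x ∈ N i := fun i x => (n1 i).conj_mem' _ (hcN i) _
  choose χ c1 c2 c3 using fun i => avoid (n4 i)
    (Set.range fun x : K.X => (⟨K.u i x, hu i x⟩ : N i)) (Set.finite_range _) (by
      rintro _ ⟨x, rfl⟩
      refine ⟨((n5 i).hom (N i) le_rfl).comp (MulAut.conjNormal (K.τ i x)).toMonoidHom,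
        fun e => n6 i ?_⟩
      have : ψ i (K.τ i x * K.u i x * (K.τ i x)⁻¹) = 0 := e
      simpa [Core.u, mul_assoc] using this)
  let χ' : ∀ i, G i → ℤ := fun i g => if hg : g ∈ N i then (χ i ⟨g, hg⟩).toAdd else 0
  have d0 : ∀ i g (hg : g ∈ N i), χ' i g = (χ i ⟨g, hg⟩).toAdd := fun i g hg => dif_pos hg
  have d1 : ∀ i, IsCh (N i) (χ' i) := fun i a ha b hb => by
    rw [d0 i _ (mul_mem ha hb), d0 i _ ha, d0 i _ hb, ← toAdd_mul, ← map_mul]; rfl
  have d2 : ∀ i x, χ' i (K.u i x) ≠ 0 := fun i x => by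
    rw [d0 i _ (hu i x)]; exact c3 i _ ⟨x, rfl⟩
  obtain ⟨Θ, P, t1, t2, t3⟩ := K.lift_ex (A := ℤ)
    (fun i x g => χ' i g * χ' (!i) (K.u (!i) x))
    (fun i x a ha b hb => by rw [d1 i a ha b hb]; ring)
    (fun i g x => by funext a; simp only [Core.u, K.cst]) hu
    (fun i x => by
      cases i
      · exact mul_comm _ _
      · rfl)
  let δ : K.X → ℤ := fun x => χ' true (K.κ true (φ true c) x) * χ' false (K.u false x)
  have hδ : ∀ x, δ x ≠ 0 := fun x => mul_ne_zero (by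
    rw [Core.κ, K.coc, show (K.τ true x)⁻¹ * φ true c * K.τ true x = K.u true x from rfl,
      (d1 true).zpow (hu _ _)]
    refine mul_ne_zero (fun h => hc1 (hφ true ?_)) (d2 _ _)
    have := K.coc true c x
    rw [h, zpow_zero, (K.fix _ _ _).2 (hcN true)] at this
    simpa [mul_assoc, inv_mul_eq_one] using this) (d2 _ _)
  letI : MulAction (PushoutI φ) (K.X × ℤ) := MulAction.compHom _ Θ
  have sm : ∀ (p : PushoutI φ) (ω : K.X × ℤ), p • ω = Θ p ω := fun _ _ => rfl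
  have tc : ∀ x a, Θ (PushoutI.base φ c) (x, a) = (x, a + δ x) := fun x a => by
    rw [← PushoutI.of_apply_eq_base φ true, t1, (K.fix _ _ _).2 (hcN true)]; rfl
  have tz : ∀ (n : ℤ) x a, Θ (PushoutI.base φ (c ^ n)) (x, a) = (x, a + n * δ x) := by
    intro n x
    induction n using Int.induction_on with
    | zero => simp
    | succ n ih =>
      intro a
      rw [zpow_add_one, map_mul, map_mul, Equiv.Perm.mul_apply, tc, ih]; congr 1; ring
    | pred n ih =>
      intro a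
      rw [zpow_sub_one, map_mul, map_mul, map_inv, map_inv, Equiv.Perm.mul_apply,
        show (Θ (PushoutI.base φ c))⁻¹ (x, a) = (x, a - δ x) by
          rw [Equiv.Perm.inv_eq_iff_eq, tc]; simp, ih]
      congr 1; ring
  have st := schreier2 (Ω := K.X × ℤ) (fun i => (PushoutI.of (φ := φ) i).range)
    (fun H hH => push_gen φ H fun i g => hH i ⟨g, rfl⟩)
    (⋃ x, (fun a => (x, a)) '' Set.Icc 0 |δ x|)
    (Set.finite_iUnion fun x => (Set.finite_Icc _ _).image _)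
    (fun ⟨x, a⟩ => ⟨PushoutI.base φ (c ^ (a / δ x)),
      fun i => ⟨_, PushoutI.of_apply_eq_base φ i _⟩, (x, a % δ x), Set.mem_iUnion.2
        ⟨x, _, ⟨Int.emod_nonneg _ (hδ x), (Int.emod_lt_abs _ (hδ x)).le⟩, rfl⟩, by
      rw [sm, tz, Int.emod_def]; congr 1; ring⟩)
    (fun i ⟨x, a⟩ => by
      have : (PushoutI.of (φ := φ) i).range ⊓ MulAction.stabilizer (PushoutI φ) (x, a) =
          (χ i).ker.map ((PushoutI.of i).comp ((N i).subtype.comp
            (MulAut.conjNormal (K.s i x)).toMonoidHom)) := by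
        apply le_antisymm
        · rintro _ ⟨⟨g, rfl⟩, hg⟩
          have hg : Θ (PushoutI.of i g) (x, a) = (x, a) := hg
          rw [t1, Prod.mk.injEq, add_eq_left, mul_eq_zero] at hg
          have hm : K.κ i g x ∈ N i := K.mem i g x
          refine ⟨⟨_, hm⟩, ?_, ?_⟩
          · have := hg.2.resolve_right (d2 _ _)
            rw [d0 i _ hm] at this
            exact this
          · change PushoutI.of i (K.s i x * K.κ i g x * (K.s i x)⁻¹) = _
            rw [Core.κ, hg.1]; congr 1; group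
        · rintro _ ⟨g, hg, rfl⟩
          refine ⟨⟨_, rfl⟩, ?_⟩
          change Θ (PushoutI.of i (K.s i x * g * (K.s i x)⁻¹)) (x, a) = (x, a)
          have hm := (K.fix i _ x).2 ((n1 i).conj_mem _ g.2 (K.s i x))
          rw [t1, Core.κ, hm, show (K.s i x)⁻¹ * (K.s i x * g * (K.s i x)⁻¹) * K.s i x = g by group,
            d0 i _ g.2, show χ i ⟨g, g.2⟩ = 1 from hg]
          simp
      rw [this]
      obtain ⟨S, hS⟩ := c2 i
      rw [← hS, MonoidHom.map_closure]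
      exact (Subgroup.fg_iff _).2 ⟨_, rfl, S.finite_toSet.image _⟩) (K.x0, 0)
  let U := (MulAction.stabilizer (Equiv.Perm K.X) K.x0).comap P
  haveI : P.ker.FiniteIndex := inferInstance
  have hU : ∀ p : U, Θ p (K.x0, 0) = (K.x0, (Θ p (K.x0, 0)).2) := fun p => by
    obtain ⟨f, hf⟩ := t3 p
    rw [hf]; congr 1; exact p.2
  let f : U →* Multiplicative ℤ := MonoidHom.mk'
    (fun p => Multiplicative.ofAdd (Θ p (K.x0, 0)).2) fun p q => by
      obtain ⟨g, hg⟩ := t3 p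
      rw [Subgroup.coe_mul, map_mul, Equiv.Perm.mul_apply, hU q, hg, hg, ← ofAdd_add]
      simp [add_comm]
  refine ⟨U, Subgroup.finiteIndex_of_le (H := P.ker) fun p hp => ?_, f, fun e => hδ K.x0 ?_, ?_⟩
  · change P p K.x0 = K.x0
    rw [MonoidHom.mem_ker.1 hp]; rfl
  · have := DFunLike.congr_fun e ⟨PushoutI.base φ c, by
      change P _ K.x0 = K.x0
      rw [← PushoutI.of_apply_eq_base φ true, t2]; exact (K.fix _ _ _).2 (hcN true)⟩
    change (Θ (PushoutI.base φ c) (K.x0, 0)).2 = 0 at this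
    rwa [tc, zero_add] at this
  · haveI := (Group.fg_iff_subgroup_fg _).2 st
    rw [← Group.fg_iff_subgroup_fg]
    have hle : MulAction.stabilizer (PushoutI φ) (K.x0, (0 : ℤ)) ≤ U := fun p hp => by
      obtain ⟨g, hg⟩ := t3 p
      have hp : Θ p (K.x0, 0) = (K.x0, 0) := hp
      rw [hg] at hp
      exact congrArg Prod.fst hp
    let j : MulAction.stabilizer (PushoutI φ) (K.x0, (0 : ℤ)) →* f.ker := MonoidHom.mk'
      (fun p => ⟨⟨p.1, hle p.2⟩, congrArg Prod.snd (show Θ p (K.x0, 0) = (K.x0, 0) from p.2)⟩)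
      fun _ _ => rfl
    refine Group.fg_of_surjective (f := j) fun p => ⟨⟨p.1.1, ?_⟩, rfl⟩
    change Θ p.1 (K.x0, 0) = (K.x0, 0)
    rw [hU p.1]; congr 1; exact p.2

end Pool.Agent.H69.Va
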