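import Pool.Agent.H69.VaDefs

namespace Pool.Agent.H69.Va
open Monoid

/-- a surjective homomorphism onto `ℤ` with finitely generated kernel -/
def FiberedS (H : Type) [Group H] : Prop :=
  ∃ f : H →* Multiplicative ℤ, Function.Surjective f ∧ f.ker.FG

/-- The graph with vertex set `V`, geometric edges `E` and endpoint maps `o`, `t` is a tree: no
loops, no multiple edges, and the resulting simple graph is a tree. -/
def IsTreeGraph {V E : Type} (o t : E → V) : Prop :=
  (∀ e, o e ≠ t e) ∧ Function.Injective (fun e => s(o e, t e)) ∧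
    (SimpleGraph.fromEdgeSet (Set.range fun e => s(o e, t e))).IsTree

/-- the edge relators `α_e(g) ω_e(g)⁻¹` in the free product of the vertex groups -/
def edgeRel {V E : Type} (o t : E → V) (G : V → Type) [∀ v, Group (G v)] (C : E → Type)
    [∀ e, Group (C e)] (α : ∀ e, C e →* G (o e)) (ω : ∀ e, C e →* G (t e)) : Set (CoprodI G) :=
  {x | ∃ e g, x = CoprodI.of (α e g) * (CoprodI.of (ω e g))⁻¹}

/-- fundamental group of a tree of groups: the free product of the vertex groups modulo the edge
relators -/
abbrev TreePi1 {V E : Type} (o t : E → V) (G : V → Type) [∀ v, Group (G v)] (C : E → Type)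
    [∀ e, Group (C e)] (α : ∀ e, C e →* G (o e)) (ω : ∀ e, C e →* G (t e)) : Type :=
  CoprodI G ⧸ Subgroup.normalClosure (edgeRel o t G C α ω)

end Pool.Agent.H69.Va
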