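import Pool.Agent.H69.Va5
import Pool.Agent.H69.VaTreeDefs

namespace Pool.Agent.H69.Va
open Monoid

theorem fibS {H : Type} [Group H] (h : Fibered H) : FiberedS H := by
  obtain ⟨f, h1, h2⟩ := h
  obtain ⟨z, hz⟩ := (Subgroup.isCyclic_iff_exists_zpowers_eq_top f.range).1 inferInstance
  obtain ⟨t, rfl⟩ : z ∈ f.range := hz.le (Subgroup.mem_zpowers z)
  have key : ∀ g, ∃ n : ℤ, (f g).toAdd = (f t).toAdd * n := fun g => by
    obtain ⟨n, hn⟩ : f g ∈ Subgroup.zpowers (f t) := hz.ge ⟨g, rfl⟩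
    exact ⟨n, by rw [← hn]; simp [mul_comm]⟩
  have h0 : (f t).toAdd ≠ 0 := fun e => h1 (by
    ext g
    obtain ⟨n, hn⟩ := key g
    simpa [e] using hn)
  let f' : H →* Multiplicative ℤ := MonoidHom.mk'
    (fun g => Multiplicative.ofAdd ((f g).toAdd / (f t).toAdd)) fun a b => by
      rw [map_mul, toAdd_mul, Int.add_ediv_of_dvd_left (key a), ofAdd_add]
  refine ⟨f', fun n => ⟨t ^ n.toAdd, ?_⟩, ?_⟩
  · change Multiplicative.ofAdd (_ / _) = _
    simp [Int.mul_ediv_cancel _ h0]
  · convert h2 using 1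
    ext g
    obtain ⟨n, hn⟩ := key g
    change (f g).toAdd / (f t).toAdd = 0 ↔ (f g).toAdd = 0
    rw [hn, Int.mul_ediv_cancel_left _ h0]; simp [h0]

theorem vf_equiv {A B : Type} [Group A] [Group B] (e : A ≃* B) (h : VirtFibered A) :
    VirtFibered B := by
  obtain ⟨K, hK, f, h1, h2⟩ := h
  let j : (K.comap e.symm.toMonoidHom) ≃* K :=
    { toFun := fun x => ⟨e.symm x, x.2⟩
      invFun := fun x => ⟨e x, by simpa using x.2⟩
      left_inv := fun x => by simp
      right_inv := fun x => by simp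
      map_mul' := fun x y => Subtype.ext (map_mul e.symm x.1 y.1) }
  refine ⟨K.comap e.symm.toMonoidHom, fi_comap _ _, f.comp j.toMonoidHom, fun h => h1 ?_, ?_⟩
  · ext x
    have : f (j (j.symm x)) = 1 := DFunLike.congr_fun h (j.symm x)
    rwa [j.apply_symm_apply] at this
  · haveI := (Group.fg_iff_subgroup_fg _).2 h2
    rw [← Group.fg_iff_subgroup_fg]
    let k : f.ker →* (f.comp j.toMonoidHom).ker := MonoidHom.mk'
      (fun x => ⟨j.symm x, show f (j (j.symm x)) = 1 by rw [j.apply_symm_apply]; exact x.2⟩)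
      fun x y => Subtype.ext (map_mul j.symm x.1 y.1)
    exact Group.fg_of_surjective (f := k) fun x => ⟨⟨j x, x.2⟩, Subtype.ext (j.symm_apply_apply _)⟩

section
variable {V : Type} {G : V → Type} [∀ v, Group (G v)]

def Col (Q : ∀ (Λ : Type) [Group Λ], (∀ v, G v →* Λ) → Prop) {Γ : Type} [Group Γ]
    (ι : ∀ v, G v →* Γ) : Prop :=
  (∀ H : Subgroup Γ, (∀ v g, ι v g ∈ H) → H = ⊤) ∧ Q Γ ι ∧
    ∀ (Λ : Type) [Group Λ] (κ : ∀ v, G v →* Λ), Q Λ κ → ∃ Φ : Γ →* Λ, ∀ v, Φ.comp (ι v) = κ v

theorem Col.equiv {Q : ∀ (Λ : Type) [Group Λ], (∀ v, G v →* Λ) → Prop} {Γ Γ' : Type} [Group Γ]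
    [Group Γ'] {ι : ∀ v, G v →* Γ} {ι' : ∀ v, G v →* Γ'} (h : Col Q ι) (h' : Col Q ι') :
    Nonempty (Γ ≃* Γ') := by
  obtain ⟨Φ, hΦ⟩ := h.2.2 _ ι' h'.2.1
  obtain ⟨Ψ, hΨ⟩ := h'.2.2 _ ι h.2.1
  have a : ∀ v g, Φ (ι v g) = ι' v g := fun v g => DFunLike.congr_fun (hΦ v) g
  have b : ∀ v g, Ψ (ι' v g) = ι v g := fun v g => DFunLike.congr_fun (hΨ v) g
  refine ⟨MonoidHom.toMulEquiv Φ Ψ ?_ ?_⟩
  · exact MonoidHom.eq_of_eqOn_top fun x _ => (h.1 ((Ψ.comp Φ).eqLocus (MonoidHom.id _))
      (fun v g => by change Ψ (Φ _) = _; rw [a, b]; rfl)).ge (Subgroup.mem_top x)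
  · exact MonoidHom.eq_of_eqOn_top fun x _ => (h'.1 ((Φ.comp Ψ).eqLocus (MonoidHom.id _))
      (fun v g => by change Φ (Ψ _) = _; rw [b, a]; rfl)).ge (Subgroup.mem_top x)

variable {E : Type} (o t : E → V) (C : E → Type) [∀ e, Group (C e)] (α : ∀ e, C e →* G (o e))
  (ω : ∀ e, C e →* G (t e))

def Kill (S : Set V) (F : Set E) (Λ : Type) [Group Λ] (κ : ∀ v, G v →* Λ) : Prop :=
  (∀ v ∉ S, κ v = 1) ∧ ∀ e ∈ F, (κ (o e)).comp (α e) = (κ (t e)).comp (ω e)

def Inv (S : Set V) (F : Set E) : Prop :=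
  ∃ (Γ : Type) (_ : Group Γ) (ι : ∀ v, G v →* Γ), Col (Kill o t C α ω S F) ι ∧ VirtFibered Γ ∧
    ∀ v ∈ S, Function.Injective (ι v) ∧ ∀ D : Subgroup (G v), WV D → WV (D.map (ι v))

theorem inv_base (v : V) (h : VirtFibered (G v)) : Inv o t C α ω {v} ∅ := by
  classical
  refine ⟨G v, inferInstance, Function.update (fun _ => 1) v (MonoidHom.id _), ⟨fun H hH => ?_,
    ⟨fun u hu => Function.update_of_ne hu _ _, by simp⟩, fun Λ _ κ hκ => ⟨κ v, fun u => ?_⟩⟩, h, ?_⟩
  · rw [eq_top_iff]; intro g _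
    simpa using hH v g
  · by_cases hu : u = v
    · subst hu; simp
    · rw [Function.update_of_ne hu, hκ.1 u hu]; simp
  · rintro u rfl
    rw [Function.update_self]
    exact ⟨fun _ _ h => h, fun D hD => by simpa using hD⟩

theorem inv_step (S : Set V) (F F' : Set E) (hF : ∀ e ∈ F, o e ∈ S ∧ t e ∈ S) (w v : V)
    (hw : w ∈ S) (hv : v ∉ S) (B : Type) [Group B] (a : B →* G w) (b : B →* G v)
    (ha : Function.Injective a) (hb : Function.Injective b) (wa : WV a.range) (wb : WV b.range)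
    (hf : VirtFibered (G v))
    (hQ : ∀ (Λ : Type) [Group Λ] (κ : ∀ v, G v →* Λ),
      (∀ e ∈ F', (κ (o e)).comp (α e) = (κ (t e)).comp (ω e)) ↔
      ((κ w).comp a = (κ v).comp b ∧ ∀ e ∈ F, (κ (o e)).comp (α e) = (κ (t e)).comp (ω e)))
    (h : Inv o t C α ω S F) : Inv o t C α ω (insert v S) F' := by
  classical
  obtain ⟨Γ, _, ι, ⟨c1, c2, c3⟩, vf, hι⟩ := h
  let G' : Bool → Type := fun i => match i with | true => Γ | false => G v
  letI : ∀ i, Group (G' i) := fun i => match i with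
    | true => inferInstanceAs (Group Γ) | false => inferInstanceAs (Group (G v))
  let φ : ∀ i, B →* G' i := fun i => match i with | true => (ι w).comp a | false => b
  have hφ : ∀ i, Function.Injective (φ i) := fun i => match i with
    | true => (hι w hw).1.comp ha | false => hb
  have wφ : ∀ i, WV (φ i).range := fun i => match i with
    | true => by
      have := (hι w hw).2 _ wa
      rwa [← MonoidHom.range_comp] at this
    | false => wb
  have vG : ∀ i, VirtFibered (G' i) := fun i => match i with | true => vf | false => hf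
  let T : Γ →* PushoutI φ := PushoutI.of (φ := φ) true
  let U : G v →* PushoutI φ := PushoutI.of (φ := φ) false
  let ι' : ∀ u, G u →* PushoutI φ := Function.update (fun u => T.comp (ι u)) v U
  have i1 : ι' v = U := Function.update_self _ _ _
  have i2 : ∀ u, u ≠ v → ι' u = T.comp (ι u) := fun u hu => Function.update_of_ne hu _ _
  have ne : ∀ u ∈ S, u ≠ v := fun u hu e => hv (e ▸ hu)
  refine ⟨PushoutI φ, inferInstance, ι', ⟨fun H hH => push_gen φ H fun i g => ?_,
    ⟨fun u hu => ?_, (hQ _ _).2 ⟨?_, fun e he => ?_⟩⟩, fun Λ _ κ hκ => ?_⟩,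
    (amal φ hφ wφ vG _ wφ).1, fun u hu => ?_⟩
  · cases i
    · have := hH v g
      rwa [i1] at this
    · refine (c1 (H.comap T) fun u g => ?_).ge (Subgroup.mem_top g)
      by_cases hu : u = v
      · rw [c2.1 u (hu ▸ hv)]; exact one_mem _
      · have := hH u g
        rwa [i2 u hu] at this
  · rw [Set.mem_insert_iff, not_or] at hu
    rw [i2 u hu.1, c2.1 u hu.2]; simp
  · rw [i1, i2 w (ne w hw)]
    exact (PushoutI.of_comp_eq_base (φ := φ) true).trans
      (PushoutI.of_comp_eq_base (φ := φ) false).symm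
  · rw [i2 _ (ne _ (hF e he).1), i2 _ (ne _ (hF e he).2), MonoidHom.comp_assoc,
      MonoidHom.comp_assoc, c2.2 e he]
  · obtain ⟨k1, k2⟩ := (hQ _ _).1 hκ.2
    obtain ⟨Φ, hΦ⟩ := c3 Λ (Function.update κ v 1) ⟨fun u hu => by
      by_cases h : u = v
      · subst h; simp
      · rw [Function.update_of_ne h]; exact hκ.1 u (by simp [h, hu]), fun e he => by
      rw [Function.update_of_ne (ne _ (hF e he).1), Function.update_of_ne (ne _ (hF e he).2),
        k2 e he]⟩
    let f : ∀ i, G' i →* Λ := fun i => match i with | true => Φ | false => κ v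
    have hf : ∀ i, (f i).comp (φ i) = (κ v).comp b := fun i => match i with
      | true => by
        change (Φ.comp (ι w)).comp a = _
        rw [hΦ, Function.update_of_ne (ne w hw), k1]
      | false => rfl
    refine ⟨PushoutI.lift f _ hf, fun u => ?_⟩
    by_cases h : u = v
    · subst h
      rw [i1]; ext g
      exact PushoutI.lift_of f _ hf (i := false) g
    · rw [i2 u h]; ext g
      refine (PushoutI.lift_of f _ hf (i := true) _).trans ?_
      have := DFunLike.congr_fun (hΦ u) g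
      rwa [Function.update_of_ne h] at this
  · by_cases h : u = v
    · subst h
      rw [i1]
      exact ⟨PushoutI.of_injective hφ false, fun D hD => (amal φ hφ wφ vG
        (fun i => match i with | true => (φ true).range | false => D)
        (fun i => match i with | true => wφ true | false => hD)).2 false⟩
    · have hu := hu.resolve_left h
      rw [i2 u h]
      refine ⟨(PushoutI.of_injective hφ true).comp (hι u hu).1, fun D hD => ?_⟩
      rw [← Subgroup.map_map]
      exact (amal φ hφ wφ vG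
        (fun i => match i with | true => D.map (ι u) | false => (φ false).range)
        (fun i => match i with | true => (hι u hu).2 D hD | false => wφ false)).2 true

theorem tree_main [Finite V] [Finite E] (hT : IsTreeGraph o t) (hf : ∀ v, VirtFibered (G v))
    (ha : ∀ e, Function.Injective (α e)) (hb : ∀ e, Function.Injective (ω e))
    (wa : ∀ e, WV (α e).range) (wb : ∀ e, WV (ω e).range) :
    VirtFibered (TreePi1 o t G C α ω) := by
  classical
  obtain ⟨h1, h2, h3⟩ := hT
  obtain ⟨hc, hn⟩ := SimpleGraph.isTree_iff_connected_and_card.1 h3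
  have hE : Nat.card E + 1 = Nat.card V := by
    rw [← hn, SimpleGraph.edgeSet_fromEdgeSet, ← Nat.card_range_of_injective h2]
    congr 3
    refine (sdiff_eq_left.2 (Set.disjoint_left.2 ?_)).symm
    rintro _ ⟨e, rfl⟩ h
    exact h1 e (by simpa using h)
  obtain ⟨v0⟩ := hc.nonempty
  have key : ∀ n, n ≤ Nat.card E → ∃ (S : Set V) (F : Set E), F.ncard = n ∧ S.ncard = n + 1 ∧
      (∀ e ∈ F, o e ∈ S ∧ t e ∈ S) ∧ Inv o t C α ω S F := by
    intro n
    induction n with
    | zero => exact fun _ => ⟨{v0}, ∅, by simp, by simp, by simp, inv_base o t C α ω v0 (hf v0)⟩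
    | succ n ih =>
      intro hn
      obtain ⟨S, F, k1, k2, k3, k4⟩ := ih (by omega)
      obtain ⟨x, hx⟩ : S.Nonempty := Set.nonempty_of_ncard_ne_zero (by omega)
      obtain ⟨y, hy⟩ : ∃ y, y ∉ S := by
        by_contra h
        push Not at h
        rw [Set.eq_univ_of_forall h, Set.ncard_univ] at k2
        omega
      obtain ⟨p⟩ := hc.preconnected x y
      obtain ⟨d, -, d1, d2⟩ := p.exists_boundary_dart S hx hy
      obtain ⟨⟨e, he⟩, -⟩ := (SimpleGraph.fromEdgeSet_adj _).1 d.adj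
      have hv : ∀ v ∉ S, (insert v S).ncard = n + 1 + 1 := fun v hv => by
        rw [Set.ncard_insert_of_notMem hv, k2]
      rcases Sym2.eq_iff.1 he with ⟨e1, e2⟩ | ⟨e1, e2⟩
      · rw [← e1] at d1; rw [← e2] at d2
        refine ⟨insert (t e) S, insert e F, ?_, hv _ d2, ?_, inv_step o t C α ω S F _ k3 _ _ d1 d2
          _ (α e) (ω e) (ha e) (hb e) (wa e) (wb e) (hf _) (fun _ _ _ => by simp) k4⟩
        · rw [Set.ncard_insert_of_notMem (fun h => d2 (k3 e h).2), k1]
        · rintro e' (rfl | h)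
          · exact ⟨Or.inr d1, Or.inl rfl⟩
          · exact ⟨Or.inr (k3 e' h).1, Or.inr (k3 e' h).2⟩
      · rw [← e2] at d1; rw [← e1] at d2
        refine ⟨insert (o e) S, insert e F, ?_, hv _ d2, ?_, inv_step o t C α ω S F _ k3 _ _ d1 d2
          _ (ω e) (α e) (hb e) (ha e) (wb e) (wa e) (hf _) (fun _ _ _ => by
            rw [Set.forall_mem_insert, eq_comm]) k4⟩
        · rw [Set.ncard_insert_of_notMem (fun h => d2 (k3 e h).1), k1]
        · rintro e' (rfl | h)
          · exact ⟨Or.inl rfl, Or.inr d1⟩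
          · exact ⟨Or.inr (k3 e' h).1, Or.inr (k3 e' h).2⟩
  obtain ⟨S, F, k1, k2, -, Γ, _, ι, c, vf, -⟩ := key _ le_rfl
  rw [(Set.eq_univ_iff_ncard F).2 k1, (Set.eq_univ_iff_ncard S).2 (k2.trans hE)] at c
  have c' : Col (Kill o t C α ω Set.univ Set.univ) (Γ := TreePi1 o t G C α ω)
      fun v => (QuotientGroup.mk' _).comp CoprodI.of := by
    refine ⟨fun H hH => ?_, ⟨by simp, fun e _ => ?_⟩, fun Λ _ κ hκ => ?_⟩
    · rw [eq_top_iff]
      rintro x -
      obtain ⟨x, rfl⟩ := QuotientGroup.mk'_surjective _ x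
      induction x using CoprodI.induction_on with
      | one => simp
      | of i m => exact hH i m
      | mul x y hx hy => rw [map_mul]; exact mul_mem hx hy
    · ext g
      simp only [MonoidHom.comp_apply]
      rw [← mul_inv_eq_one, ← map_inv, ← map_mul]
      exact (QuotientGroup.eq_one_iff _).2 (Subgroup.subset_normalClosure ⟨e, g, rfl⟩)
    · refine ⟨QuotientGroup.lift _ (CoprodI.lift κ) (Subgroup.normalClosure_le_normal ?_),
        fun v => by ext g; simp⟩
      rintro _ ⟨e, g, rfl⟩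
      have := DFunLike.congr_fun (hκ.2 e trivial) g
      simpa [mul_inv_eq_one] using this
  obtain ⟨j⟩ := c.equiv c'
  exact vf_equiv j vf
end

end Pool.Agent.H69.Va
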