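import Mathlib

namespace Pool.Agent.H69.Va

/-- has an abelian subgroup of finite index -/
def VirtAb (G : Type) [Group G] : Prop :=
  ∃ A : Subgroup G, A.FiniteIndex ∧ ∀ a ∈ A, ∀ b ∈ A, a * b = b * a

/-- has a cyclic subgroup of finite index -/
def VirtCyc (G : Type) [Group G] : Prop := ∃ C : Subgroup G, C.FiniteIndex ∧ IsCyclic C

/-- a nontrivial homomorphism to `ℤ` with finitely generated kernel -/
def Fibered (H : Type) [Group H] : Prop :=
  ∃ f : H →* Multiplicative ℤ, f ≠ 1 ∧ f.ker.FG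

/-- has a fibered subgroup of finite index -/
def VirtFibered (G : Type) [Group G] : Prop := ∃ K : Subgroup G, K.FiniteIndex ∧ Fibered K

/-- `H` is a retract of a finite-index subgroup `K ≥ H` -/
def VirtRetract {G : Type} [Group G] (H : Subgroup G) : Prop :=
  ∃ K : Subgroup G, K.FiniteIndex ∧ ∃ (h : H ≤ K) (r : K →* H), ∀ x : H, r ⟨x.1, h x.2⟩ = x

end Pool.Agent.H69.Va
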