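import Mathlib

namespace Pool.Agent.H69.Wr

open Equiv

variable {X S G : Type} [Group G]

/-- The permutational wreath product `Sym(X) ⋉ G ^ X`. -/
abbrev Wreath (X G : Type) [Group G] := (X → G) ⋊[mulAutArrow] Perm X

/-- The element `π (g_x)_x` of the wreath product. -/
def mk (π : Perm X) (g : X → G) : Wreath X G :=
  SemidirectProduct.inr π * SemidirectProduct.inl g

/-- The coordinate `g_x` of `ω = π (g_x)_x`. -/
def comp (ω : Wreath X G) (x : X) : G := ω.left (ω.right x)

/-- The wreath recursion on the free group given by permutations `π s` and words `w s x`. -/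
def Phi (π : S → Perm X) (w : S → X → List (S × Bool)) :
    FreeGroup S →* Wreath X (FreeGroup S) :=
  FreeGroup.lift fun s => mk (π s) fun x => FreeGroup.mk (w s x)

/-- The section `g|_v`. -/
def sec (Φ : G →* Wreath X G) : G → List X → G
  | g, [] => g
  | g, x :: v => sec Φ (comp (Φ g) x) v

/-- The action of `g` on finite words. -/
def act (Φ : G →* Wreath X G) : G → List X → List X
  | _, [] => []
  | g, x :: v => (Φ g).right x :: act Φ (comp (Φ g) x) v

/-- The group `G / K_Φ` defined by `Φ` is contracting; two elements of `G` have the same image in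
`G / K_Φ` exactly when they act in the same way on all words. -/
def Contracting (Φ : G →* Wreath X G) : Prop :=
  ∃ N : Set G, N.Finite ∧ ∀ h : G, ∃ n : ℕ, ∀ v : List X, n ≤ v.length →
    ∃ u ∈ N, ∀ w : List X, act Φ (sec Φ h v) w = act Φ u w

end Pool.Agent.H69.Wr
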