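import Mathlib
import Pool.Agent.H69.WrDefs

namespace Pool.Agent.H69.Wr

open Equiv

variable {X S G : Type} [Group G]

@[simp] theorem mk_right (π : Perm X) (g : X → G) : (mk π g).right = π := by simp [mk]

theorem comp_mul (ω ω' : Wreath X G) (x : X) :
    comp (ω * ω') x = comp ω (ω'.right x) * comp ω' x := by
  simp only [comp, SemidirectProduct.mul_left, SemidirectProduct.mul_right, Pi.mul_apply,
    Perm.mul_apply]
  congr 1
  show ω'.left (ω.right⁻¹ • _) = _
  simp [Perm.smul_def]

@[simp] theorem comp_mk (π : Perm X) (g : X → G) (x : X) : comp (mk π g) x = g x := by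
  rw [mk, comp_mul]
  simp [comp]

@[simp] theorem comp_one (x : X) : comp (1 : Wreath X G) x = 1 := rfl

theorem right_mul (ω ω' : Wreath X G) (x : X) : (ω * ω').right x = ω.right (ω'.right x) := rfl

theorem comp_inv (ω : Wreath X G) (x : X) : comp ω⁻¹ (ω.right x) = (comp ω x)⁻¹ := by
  have := comp_mul ω⁻¹ ω x
  rw [inv_mul_cancel, comp_one] at this
  exact eq_inv_of_mul_eq_one_left this.symm

theorem inv_right (ω : Wreath X G) (x : X) : ω⁻¹.right (ω.right x) = x := by
  rw [← right_mul, inv_mul_cancel]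
  rfl

theorem wext {ω ω' : Wreath X G} (h1 : ∀ x, ω.right x = ω'.right x)
    (h2 : ∀ x, comp ω x = comp ω' x) : ω = ω' := by
  refine SemidirectProduct.ext (funext fun y => ?_) (Equiv.ext h1)
  obtain ⟨x, rfl⟩ := ω.right.surjective y
  have := h2 x
  rwa [comp, comp, ← h1] at this

variable (Φ : G →* Wreath X G)

theorem act_one (v : List X) : act Φ 1 v = v := by
  induction v with
  | nil => rfl
  | cons x v ih => simp [act, ih]

theorem act_mul (g h : G) (v : List X) : act Φ (g * h) v = act Φ g (act Φ h v) := by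
  induction v generalizing g h with
  | nil => rfl
  | cons x v ih => simp only [act, map_mul, comp_mul, ih, right_mul]

theorem sec_mul (g h : G) (v : List X) : sec Φ (g * h) v = sec Φ g (act Φ h v) * sec Φ h v := by
  induction v generalizing g h with
  | nil => rfl
  | cons x v ih => simp only [act, sec, map_mul, comp_mul, ih]

theorem sec_snoc (g : G) (v : List X) (x : X) :
    sec Φ g (v ++ [x]) = comp (Φ (sec Φ g v)) x := by
  induction v generalizing g with
  | nil => rfl
  | cons y v ih => simp only [List.cons_append, sec, ih]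

theorem sec_append (g : G) (v w : List X) : sec Φ g (v ++ w) = sec Φ (sec Φ g v) w := by
  induction v generalizing g with
  | nil => rfl
  | cons y v ih => simp only [List.cons_append, sec, ih]

/-- The kernel of the action. -/
def K : Subgroup G where
  carrier := {g | ∀ v, act Φ g v = v}
  one_mem' := act_one Φ
  mul_mem' := fun {a b} ha hb v => by rw [act_mul, hb, ha]
  inv_mem' := fun {a} ha v => by
    conv_lhs => rw [← ha v, ← act_mul, inv_mul_cancel, act_one]

instance : (K Φ).Normal where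
  conj_mem := fun n hn g v => by
    rw [act_mul, act_mul, hn, ← act_mul, mul_inv_cancel, act_one]

/-- `ω` fixes `x` with trivially acting coordinate. -/
def Tr (ω : Wreath X G) (x : X) : Prop := ω.right x = x ∧ comp ω x ∈ K Φ

theorem mem_K {g : G} : g ∈ K Φ ↔ ∀ x, Tr Φ (Φ g) x := by
  constructor
  · intro h x
    have := fun v => h (x :: v)
    simp only [act, List.cons.injEq] at this
    exact ⟨(this []).1, fun v => (this v).2⟩
  · intro h v
    cases v with
    | nil => rfl
    | cons x v => rw [act, (h x).1, (h x).2 v]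

theorem sec_K {g : G} (h : g ∈ K Φ) (v : List X) : sec Φ g v ∈ K Φ := by
  induction v generalizing g with
  | nil => exact h
  | cons x v ih => exact ih ((mem_K Φ).1 h x).2

variable {Φ}

theorem Tr.mul {ω ω' : Wreath X G} {x : X} (h : Tr Φ ω x) (h' : Tr Φ ω' x) : Tr Φ (ω * ω') x :=
  ⟨by rw [right_mul, h'.1, h.1], by rw [comp_mul, h'.1]; exact mul_mem h.2 h'.2⟩

theorem Tr.pow {ω : Wreath X G} {x : X} (h : Tr Φ ω x) (n : ℕ) : Tr Φ (ω ^ n) x := by
  induction n with
  | zero => exact ⟨rfl, one_mem _⟩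
  | succ n ih => rw [pow_succ]; exact ih.mul h

theorem Tr.inv {ω : Wreath X G} {x : X} (h : Tr Φ ω x) : Tr Φ ω⁻¹ x := by
  have e1 := inv_right ω x
  have e2 := comp_inv ω x
  rw [h.1] at e1 e2
  exact ⟨e1, e2 ▸ inv_mem h.2⟩

theorem Tr.conj {ω : Wreath X G} {x : X} (h : Tr Φ ω x) (γ : Wreath X G) :
    Tr Φ (γ * ω * γ⁻¹) (γ.right x) := by
  refine ⟨by rw [right_mul, right_mul, inv_right, h.1], ?_⟩
  rw [comp_mul, comp_mul, inv_right, h.1, comp_inv]
  exact (inferInstance : (K Φ).Normal).conj_mem _ h.2 _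

theorem fix_pow {ω : Wreath X G} {x : X} (h : ω.right x = x) (n : ℕ) :
    (ω ^ n).right x = x ∧ comp (ω ^ n) x = comp ω x ^ n := by
  induction n with
  | zero => exact ⟨rfl, by simp⟩
  | succ n ih => rw [pow_succ, right_mul, comp_mul, h, ih.1, ih.2, pow_succ]; exact ⟨rfl, rfl⟩

theorem sq_left {ω ω' : Wreath X G} {y : X} (h : ω * ω = 1) (h1 : Tr Φ ω' y)
    (h2 : Tr Φ ω' (ω.right y)) : Tr Φ ((ω * ω') ^ 2) y := by
  have e : ω⁻¹ = ω := inv_eq_of_mul_eq_one_right h
  have a := h2.conj ω
  rw [← right_mul, h, e] at a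
  have : (ω * ω') ^ 2 = ω * ω' * ω * ω' := by rw [sq, mul_assoc (ω * ω')]
  rw [this]
  exact a.mul h1

theorem sq_right {ω ω' : Wreath X G} {y : X} (h : ω' * ω' = 1) (h1 : Tr Φ ω y)
    (h2 : Tr Φ ω (ω'.right y)) : Tr Φ ((ω * ω') ^ 2) y := by
  have e : ω'⁻¹ = ω' := inv_eq_of_mul_eq_one_right h
  have a := h2.conj ω'
  rw [← right_mul, h, e] at a
  have : (ω * ω') ^ 2 = ω * (ω' * ω * ω') := by simp only [sq, mul_assoc]
  rw [this]
  exact h1.mul a

theorem transport {X' G' : Type} [Group G'] {Φ' : G' →* Wreath X' G'} (e : X ≃ X') (ι : G ≃* G')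
    (h : ∀ g x, (Φ' (ι g)).right (e x) = e ((Φ g).right x) ∧
      comp (Φ' (ι g)) (e x) = ι (comp (Φ g) x)) : Contracting Φ ↔ Contracting Φ' := by
  have h1 : ∀ v g, sec Φ' (ι g) (v.map e) = ι (sec Φ g v) := by
    intro v
    induction v with
    | nil => exact fun _ => rfl
    | cons x v ih => intro g; simp only [List.map_cons, sec, (h g x).2, ih]
  have h2 : ∀ v g, act Φ' (ι g) (v.map e) = (act Φ g v).map e := by
    intro v
    induction v with
    | nil => exact fun _ => rfl
    | cons x v ih => intro g; simp only [List.map_cons, act, (h g x).1, (h g x).2, ih]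
  have h3 : Function.Surjective (List.map e) := fun v => ⟨v.map e.symm, by simp⟩
  constructor
  · rintro ⟨N, hN, H⟩
    refine ⟨ι '' N, hN.image _, fun g => ?_⟩
    obtain ⟨g, rfl⟩ := ι.surjective g
    obtain ⟨n, hn⟩ := H g
    refine ⟨n, fun v hv => ?_⟩
    obtain ⟨v, rfl⟩ := h3 v
    obtain ⟨u, hu, hw⟩ := hn v (by simpa using hv)
    refine ⟨_, ⟨u, hu, rfl⟩, fun w => ?_⟩
    obtain ⟨w, rfl⟩ := h3 w
    rw [h1, h2, h2, hw]
  · rintro ⟨N, hN, H⟩
    refine ⟨ι.symm '' N, hN.image _, fun g => ?_⟩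
    obtain ⟨n, hn⟩ := H (ι g)
    refine ⟨n, fun v hv => ?_⟩
    obtain ⟨u, hu, hw⟩ := hn (v.map e) (by simpa using hv)
    refine ⟨_, ⟨u, hu, rfl⟩, fun w => List.map_injective_iff.2 e.injective ?_⟩
    rw [← h2, ← h2, ← h1, hw, ι.apply_symm_apply]

theorem transport_free {X' S' : Type} (e : X ≃ X') (f : S ≃ S') (π : S → Perm X)
    (w : S → X → List (S × Bool)) : Contracting (Phi π w) ↔
    Contracting (Phi (fun s => e.permCongr (π (f.symm s)))
      fun s x => (w (f.symm s) (e.symm x)).map fun p => (f p.1, p.2)) := by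
  refine transport e (FreeGroup.freeGroupCongr f) (fun g => ?_)
  induction g using FreeGroup.induction_on with
  | C1 => intro x; simp
  | of s => intro x; simp [Phi]
  | inv_of s ih =>
    intro x
    obtain ⟨x, rfl⟩ := (Phi π w (FreeGroup.of s)).right.surjective x
    simp only [map_inv]
    rw [← (ih x).1, inv_right, inv_right, comp_inv, comp_inv, (ih x).2, map_inv]
    exact ⟨rfl, rfl⟩
  | mul a b iha ihb =>
    intro x
    simp only [map_mul, right_mul, comp_mul, (ihb x).1, (ihb x).2, (iha _).1, (iha _).2, and_self]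

end Pool.Agent.H69.Wr
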