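import Mathlib
import Pool.Agent.H69.Wr1

namespace Pool.Agent.H69.Wr

open Equiv
open scoped Classical

section mu

variable {D : ℕ} [hD : Fact (1 < D)]

def mu (i : ZMod D) (n : ℤ) : ℤ := (i.val + n) / D

theorem val_add (i : ZMod D) (n : ℤ) : ((i + (n : ZMod D)).val : ℤ) = (i.val + n) % D := by
  have := hD.out
  have : NeZero D := ⟨by omega⟩
  rw [← ZMod.val_intCast]
  simp

theorem mu_add (i : ZMod D) (n m : ℤ) : mu i (n + m) = mu (i + (m : ZMod D)) n + mu i m := by
  have := hD.out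
  unfold mu
  rw [val_add, ← Int.add_mul_ediv_left _ _ (by omega : (D : ℤ) ≠ 0)]
  congr 1
  have := Int.emod_add_mul_ediv (i.val + m) D
  linarith

theorem mu_spec (i : ZMod D) (n : ℤ) : ∃ v : ℤ, 0 ≤ v ∧ v < D ∧ v = i.val ∧
    D * mu i n ≤ v + n ∧ v + n < D * mu i n + D := by
  have := hD.out
  have : NeZero D := ⟨by omega⟩
  have h0 : (0 : ℤ) < D := by omega
  refine ⟨i.val, by positivity, by exact_mod_cast ZMod.val_lt i, rfl, ?_, ?_⟩
  · exact Int.mul_ediv_self_le h0.ne'
  · exact Int.lt_mul_ediv_self_add h0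

theorem mu_zero (i : ZMod D) : mu i 0 = 0 := by
  have := mu_add i 0 0
  simpa using this

theorem mu_bound (i : ZMod D) (n : ℤ) : 2 * |mu i n| ≤ |n| + 2 := by
  have := hD.out
  have h2 : (2 : ℤ) ≤ D := by omega
  obtain ⟨v, h1, h2, -, h3, h4⟩ := mu_spec i n
  have := le_abs_self n
  have := neg_abs_le n
  rcases lt_trichotomy (mu i n) 0 with h | h | h
  · rw [abs_of_neg h]
    nlinarith
  · rw [h]
    simp
    linarith [abs_nonneg n]
  · rw [abs_of_pos h]
    nlinarith

theorem mu_one (i : ZMod D) : mu i 1 = 0 ∨ mu i 1 = 1 := by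
  have := hD.out
  have h2 : (2 : ℤ) ≤ D := by omega
  obtain ⟨v, h1, h2, -, h3, h4⟩ := mu_spec i 1
  have a : 0 ≤ mu i 1 := by nlinarith
  have b : mu i 1 ≤ 1 := by nlinarith
  omega

theorem mu_refl (i : ZMod D) (n : ℤ) : mu (-1 - i) n = - mu i (-n) := by
  have := hD.out
  have h0 : (0 : ℤ) < D := by omega
  obtain ⟨v, h1, h2, hv, h3, h4⟩ := mu_spec i (-n)
  have e : ((-1 - i).val : ℤ) = D - 1 - v := by
    have : NeZero D := ⟨by omega⟩
    have e1 : -1 - i = ((D - 1 - v : ℤ) : ZMod D) := by simp [hv]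
    rw [e1, ZMod.val_intCast, Int.emod_eq_of_lt (by omega) (by omega)]
  unfold mu at *
  rw [e]
  generalize ((i.val : ℤ) + -n) / D = q at *
  refine Int.ediv_eq_iff_of_pos h0 |>.2 ⟨?_, ?_⟩ <;> nlinarith

end mu

structure Data (Q : Type) (D C : ℕ) where
  nxt : Q × ZMod D → Option Q
  wt : Q × ZMod D → ZMod C → Prop
  st : Q × ZMod D → ZMod C → ZMod D
  w0 : ∀ κ, ¬ wt κ 0
  w1 : ∀ κ, ¬ wt κ 1
  wn : ∀ κ j, nxt κ = none → ¬ wt κ j

abbrev Y (Q : Type) (D C : ℕ) := (Q × ZMod D) × ZMod C × Bool × ZMod D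
abbrev Xl (Q : Type) (D C : ℕ) := Option (Y Q D C)
abbrev F (Q : Type) := FreeGroup (Option (Option Q))

variable {Q : Type} {D C : ℕ} [hD : Fact (1 < D)] [hC : Fact (1 < C)] (M : Data Q D C)

def ga : F Q := FreeGroup.of (some none)
def gz : F Q := FreeGroup.of none
def gs (q : Q) : F Q := FreeGroup.of (some (some q))

noncomputable def Data.ep (κ : Q × ZMod D) (j : ZMod C) (b : Bool) : ℤ :=
  if M.wt κ j then (if b then 1 else -1) else 0

omit hD hC in
theorem ep_not (κ : Q × ZMod D) (j : ZMod C) (b : Bool) : M.ep κ j (!b) = - M.ep κ j b := by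
  unfold Data.ep
  split_ifs <;> simp_all

def shift (n : ℤ) : Perm (Xl Q D C) :=
  Equiv.optionCongr ((Equiv.refl _).prodCongr ((Equiv.refl _).prodCongr
    ((Equiv.refl _).prodCongr (Equiv.addRight (n : ZMod D)))))

noncomputable def Data.ex (n : ℤ) : Xl Q D C → ℤ
  | none => 0
  | some (κ, j, b, i) => M.ep κ j b * mu i n

noncomputable def Data.B (n : ℤ) : Wreath (Xl Q D C) (F Q) := Wr.mk (shift n) fun x => ga ^ M.ex n x

omit hD hC in
theorem B_none (n : ℤ) : (M.B n).right none = none ∧ comp (M.B n) none = 1 := by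
  simp [Data.B, shift, Data.ex]

omit hD hC in
theorem B_some (n : ℤ) (κ j b) (i : ZMod D) : (M.B n).right (some (κ, j, b, i)) = some (κ, j, b, i + n) ∧
    comp (M.B n) (some (κ, j, b, i)) = ga ^ (M.ep κ j b * mu i n) := by
  simp [Data.B, shift, Data.ex]

omit hC in
theorem B_add (n m : ℤ) : M.B (n + m) = M.B n * M.B m := by
  refine wext (fun x => ?_) (fun x => ?_)
  · rcases x with _ | ⟨κ, j, b, i⟩
    · simp only [right_mul, B_none]
    · simp only [right_mul, B_some]
      push_cast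
      rw [add_assoc, add_comm (m : ZMod D)]
  · rcases x with _ | ⟨κ, j, b, i⟩
    · simp only [comp_mul, B_none, mul_one]
    · simp only [comp_mul, B_some, mu_add, mul_add, zpow_add]

omit hC in
theorem B_zpow (n : ℤ) : M.B 1 ^ n = M.B n := by
  have := map_zpow (MonoidHom.mk' (fun n : Multiplicative ℤ => M.B n.toAdd)
    (fun a b => B_add M _ _)) (Multiplicative.ofAdd 1) n
  simpa using this.symm

def rfl0 : Xl Q D C → Xl Q D C
  | none => none
  | some (κ, j, b, i) => some (κ, j, !b, -1 - i)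

omit hD hC in
theorem rfl0_inv : Function.Involutive (rfl0 : Xl Q D C → Xl Q D C) := by
  rintro (_ | ⟨κ, j, b, i⟩) <;> simp [rfl0]

def R : Wreath (Xl Q D C) (F Q) := mk rfl0_inv.toPerm fun _ => 1

omit hD hC in
theorem R_right (x : Xl Q D C) : (R : Wreath (Xl Q D C) (F Q)).right x = rfl0 x := by simp [R]

omit hD hC in
theorem R_comp (x : Xl Q D C) : comp (R : Wreath (Xl Q D C) (F Q)) x = 1 := by simp [R]

noncomputable def Data.rho (n : ℤ) : Wreath (Xl Q D C) (F Q) := R * M.B n

omit hD hC in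
theorem rho_none (n : ℤ) : (M.rho n).right none = none ∧ comp (M.rho n) none = 1 := by
  simp [Data.rho, right_mul, comp_mul, B_none, R_right, R_comp, rfl0]

omit hD hC in
theorem rho_some (n : ℤ) (κ j b) (i : ZMod D) :
    (M.rho n).right (some (κ, j, b, i)) = some (κ, j, !b, -1 - (i + n)) ∧
    comp (M.rho n) (some (κ, j, b, i)) = ga ^ (M.ep κ j b * mu i n) := by
  simp only [Data.rho, right_mul, comp_mul, B_some, R_right, R_comp, rfl0, one_mul, and_self]

omit hC in
theorem rho_sq (n : ℤ) : M.rho n * M.rho n = 1 := by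
  refine wext (fun x => ?_) (fun x => ?_)
  · rcases x with _ | ⟨κ, j, b, i⟩
    · simp only [right_mul, rho_none]
      rfl
    · simp only [right_mul, rho_some]
      simp
      ring
  · rcases x with _ | ⟨κ, j, b, i⟩
    · simp only [comp_mul, rho_none, mul_one, comp_one]
    · simp only [comp_mul, rho_some, ep_not, mu_refl, comp_one, ← zpow_add]
      have := mu_add i (-n) n
      rw [neg_add_cancel, mu_zero] at this
      rw [neg_mul_neg, ← mul_add, ← this, mul_zero, zpow_zero]

def Data.P (κ : Q × ZMod D) (j : ZMod C) : Xl Q D C := some (κ, j, true, M.st κ j)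
def Data.P' (κ : Q × ZMod D) (j : ZMod C) : Xl Q D C := some (κ, j, false, -1 - (M.st κ j + κ.2))

def Data.Port (q : Q) (x : Xl Q D C) : Prop := ∃ r j, x = M.P (q, r) j ∨ x = M.P' (q, r) j

noncomputable def Data.th (q : Q) : Xl Q D C → Xl Q D C
  | none => none
  | some (κ, j, b, i) => if M.Port q (some (κ, j, b, i)) then
      (if b then M.P' κ (j - 1) else M.P κ (j + 1)) else some (κ, j, b, i)

def Data.sw (κ : Q × ZMod D) : F Q := (M.nxt κ).elim 1 gs

noncomputable def Data.tau (q : Q) : Xl Q D C → F Q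
  | none => 1
  | some (κ, j, b, i) => if M.Port q (some (κ, j, b, i)) then
      (if b then (if j = 1 then (M.sw κ)⁻¹ else 1) else (if j = 0 then M.sw κ else 1)) else 1

omit hD hC in
theorem th_P (q r j) : M.th q (M.P (q, r) j) = M.P' (q, r) (j - 1) ∧
    M.tau q (M.P (q, r) j) = if j = 1 then (M.sw (q, r))⁻¹ else 1 := by
  have : M.Port q (some ((q, r), j, true, M.st (q, r) j)) := ⟨r, j, Or.inl rfl⟩
  simp only [Data.P, Data.th, Data.tau, this, if_true, and_self]

omit hD hC in
theorem th_P' (q r j) : M.th q (M.P' (q, r) j) = M.P (q, r) (j + 1) ∧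
    M.tau q (M.P' (q, r) j) = if j = 0 then M.sw (q, r) else 1 := by
  have : M.Port q (some ((q, r), j, false, -1 - (M.st (q, r) j + r))) := ⟨r, j, Or.inr rfl⟩
  simp only [Data.P', Data.th, Data.tau, this, if_true, Bool.false_eq_true, if_false, and_self]

omit hD hC in
theorem th_not {q x} (h : ¬ M.Port q x) : M.th q x = x ∧ M.tau q x = 1 := by
  rcases x with _ | ⟨κ, j, b, i⟩
  · exact ⟨rfl, rfl⟩
  · simp only [Data.th, Data.tau, h, if_false, and_self]

omit hD hC in
theorem th_inv (q : Q) : Function.Involutive (M.th q) := by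
  intro x
  by_cases h : M.Port q x
  · obtain ⟨r, j, rfl | rfl⟩ := h <;> simp [th_P, th_P']
  · rw [(th_not M h).1, (th_not M h).1]

noncomputable def Data.T (q : Q) : Wreath (Xl Q D C) (F Q) := Wr.mk (th_inv M q).toPerm (M.tau q)

omit hD hC in
theorem T_right (q x) : (M.T q).right x = M.th q x := by simp [Data.T]

omit hD hC in
theorem T_comp (q x) : comp (M.T q) x = M.tau q x := by simp [Data.T]

omit hD hC in
theorem T_sq (q : Q) : M.T q * M.T q = 1 := by
  refine wext (fun x => ?_) (fun x => ?_)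
  · rw [right_mul, T_right, T_right, th_inv]
    rfl
  · rw [comp_mul, T_right, T_comp, T_comp, comp_one]
    by_cases h : M.Port q x
    · obtain ⟨r, j, rfl | rfl⟩ := h
      · simp only [th_P, th_P', sub_eq_zero]
        split_ifs <;> simp
      · simp only [th_P, th_P', add_eq_right]
        split_ifs <;> simp
    · rw [(th_not M h).1, (th_not M h).2, mul_one]

noncomputable def Data.gen (g0 : F Q) : Option (Option Q) → Wreath (Xl Q D C) (F Q)
  | none => Wr.mk 1 fun x => x.elim gz fun _ => g0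
  | some none => M.B 1
  | some (some q) => M.T q * R

noncomputable def Data.Ph (g0 : F Q) : F Q →* Wreath (Xl Q D C) (F Q) := FreeGroup.lift (M.gen g0)

variable (g0 : F Q)

omit hC in
theorem Ph_a (n : ℤ) : M.Ph g0 (ga ^ n) = M.B n := by
  rw [map_zpow, ← B_zpow M n]
  simp [Data.Ph, ga, Data.gen]

omit hD hC in
theorem Ph_s (q : Q) : M.Ph g0 (gs q) = M.T q * R := by simp [Data.Ph, gs, Data.gen]

omit hD hC in
theorem Ph_z : M.Ph g0 gz = mk 1 fun x => x.elim gz fun _ => g0 := by simp [Data.Ph, gz, Data.gen]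

def gg (q : Q) (N : ℤ) : F Q := gs q * ga ^ N

omit hC in
theorem Ph_gg (q : Q) (N : ℤ) : M.Ph g0 (gg q N) = M.T q * M.rho N := by
  rw [gg, map_mul, Ph_a, Ph_s, Data.rho, mul_assoc]

end Pool.Agent.H69.Wr
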