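import Mathlib
import Pool.Agent.H69.Wr2

namespace Pool.Agent.H69.Wr

open Equiv

variable {Q : Type} {D C : ℕ} [hD : Fact (1 < D)] [hC : Fact (1 < C)] (M : Data Q D C) (g0 : F Q)

noncomputable def Data.nN (q : Q) (N : ℤ) (t : ℕ) : ℤ :=
  ∑ u ∈ Finset.range t, M.ep (q, N) (1 + (u : ZMod C)) true * mu (M.st (q, N) (1 + (u : ZMod C))) N

omit hD hC in
theorem g_P (q : Q) (N : ℤ) (j : ZMod C) :
    (M.T q * M.rho N).right (M.P (q, N) j) = M.P (q, N) (j + 1) ∧
    comp (M.T q * M.rho N) (M.P (q, N) j) = (if j = 0 then M.sw (q, N) else 1) *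
      ga ^ (M.ep (q, N) j true * mu (M.st (q, N) j) N) := by
  have e : (M.rho N).right (M.P (q, N) j) = M.P' (q, N) j := (rho_some M N _ _ _ _).1
  rw [right_mul, comp_mul, e, T_right, T_comp, (th_P' M q N j).1, (th_P' M q N j).2]
  exact ⟨rfl, congrArg _ (rho_some M N _ _ _ _).2⟩

omit hD hC in
theorem g_pow (q : Q) (N : ℤ) (t : ℕ) :
    ((M.T q * M.rho N) ^ t).right (M.P (q, N) 1) = M.P (q, N) (1 + t) := by
  induction t with
  | zero => simp
  | succ t ih => rw [pow_succ', right_mul, ih, (g_P M q N _).1, Nat.cast_succ, add_assoc]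

omit hD in
theorem g_cyc (q : Q) (N : ℤ) : ((M.T q * M.rho N) ^ C).right (M.P (q, N) 1) = M.P (q, N) 1 ∧
    comp ((M.T q * M.rho N) ^ C) (M.P (q, N) 1) = M.sw (q, N) * ga ^ M.nN q N (C - 1) := by
  refine ⟨by rw [g_pow]; simp, ?_⟩
  have := hC.out
  have key : ∀ t, t < C → comp ((M.T q * M.rho N) ^ t) (M.P (q, N) 1) = ga ^ M.nN q N t := by
    intro t
    induction t with
    | zero => simp [Data.nN]
    | succ t ih =>
      intro ht
      have : (1 + t : ZMod C) ≠ 0 := by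
        intro h
        have : ((1 + t : ℕ) : ZMod C) = 0 := by simpa using h
        rw [ZMod.natCast_eq_zero_iff] at this
        have := Nat.le_of_dvd (by omega) this
        omega
      rw [pow_succ', comp_mul, g_pow, (g_P M q N _).2, ih (by omega), if_neg this, one_mul,
        ← zpow_add, Data.nN, Data.nN, Finset.sum_range_succ, add_comm]
  have e : (1 + ((C - 1 : ℕ) : ZMod C)) = 0 := by
    rw [Nat.cast_sub (by omega)]
    simp
  conv_lhs => rw [show (M.T q * M.rho N) ^ C = (M.T q * M.rho N) ^ (C - 1 + 1) by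
    rw [Nat.sub_add_cancel (by omega)]]
  rw [pow_succ', comp_mul, g_pow, (g_P M q N _).2, key _ (by omega), e, if_pos rfl]
  simp [Data.ep, M.w0]

inductive Data.H : Q → ℤ → Prop
  | stop {q : Q} {N : ℤ} : M.nxt (q, N) = none → Data.H q N
  | step {q q' : Q} {N : ℤ} : M.nxt (q, N) = some q' → Data.H q' (M.nN q N (C - 1)) → Data.H q N

theorem inf_order : ∀ k, 0 < k → ∀ q N, gg q N ^ k ∈ K (M.Ph g0) → M.H q N := by
  intro k
  induction k using Nat.strong_induction_on with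
  | _ k ih =>
    intro hk q N h
    have h1 := (mem_K _).1 h (M.P (q, N) 1)
    rw [map_pow, Ph_gg] at h1
    have h2 := h1.1
    rw [g_pow] at h2
    have h3 : (k : ZMod C) = 0 := by
      simp only [Data.P, Option.some.injEq, Prod.mk.injEq] at h2
      simpa using h2.2.1
    rw [ZMod.natCast_eq_zero_iff] at h3
    obtain ⟨k, rfl⟩ := h3
    have h4 := h1.2
    rw [pow_mul, (fix_pow (g_cyc M q N).1 k).2, (g_cyc M q N).2] at h4
    have := hC.out
    have h5 : 0 < k := Nat.pos_of_mul_pos_left hk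
    rcases e : M.nxt (q, N) with _ | q'
    · exact .stop e
    · refine .step e (ih k (by nlinarith) h5 _ _ ?_)
      simpa [Data.sw, e, gg] using h4

theorem fin_step {q : Q} {N : ℤ} {k : ℕ}
    (h : (M.sw (q, N) * ga ^ M.nN q N (C - 1)) ^ k ∈ K (M.Ph g0)) :
    gg q N ^ (C * k * 4) ∈ K (M.Ph g0) := by
  have := hC.out
  have : NeZero C := ⟨by omega⟩
  refine (mem_K _).2 (fun x => ?_)
  rw [map_pow, Ph_gg]
  have tr : ∀ y, ¬ M.Port q y → Tr (M.Ph g0) (M.T q) y := fun y hy =>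
    ⟨by rw [T_right, (th_not M hy).1], by rw [T_comp, (th_not M hy).2]; exact one_mem _⟩
  have hinv : (M.rho N)⁻¹ = M.rho N := inv_eq_of_mul_eq_one_right (rho_sq M N)
  have rr : ∀ y, (M.rho N).right ((M.rho N).right y) = y := fun y => by
    rw [← right_mul, rho_sq]
    rfl
  have tr' : ∀ y, ¬ M.Port q ((M.rho N).right y) →
      Tr (M.Ph g0) (M.rho N * M.T q * M.rho N) y := fun y hy => by
    have := (tr _ hy).conj (M.rho N)
    rwa [hinv, rr] at this
  have e4 : (M.T q * M.rho N) ^ (C * k * 4) =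
      ((M.T q * (M.rho N * M.T q * M.rho N)) ^ 2) ^ (C * k) := by
    rw [mul_comm (C * k), pow_mul]
    congr 1
    simp only [pow_succ, pow_zero, one_mul, mul_assoc]
  have m1 : ∀ j, Tr (M.Ph g0) ((M.T q * M.rho N) ^ (C * k)) (M.P (q, N) j) := by
    intro j
    have a : Tr (M.Ph g0) ((M.T q * M.rho N) ^ (C * k)) (M.P (q, N) 1) := by
      rw [pow_mul]
      refine ⟨(fix_pow (g_cyc M q N).1 k).1, ?_⟩
      rwa [(fix_pow (g_cyc M q N).1 k).2, (g_cyc M q N).2]
    have b := a.conj ((M.T q * M.rho N) ^ (j - 1).val)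
    rw [g_pow, ← pow_add, add_comm, pow_add, mul_inv_cancel_right] at b
    simpa using b
  have m2 : ∀ j, Tr (M.Ph g0) ((M.T q * M.rho N) ^ (C * k)) (M.P' (q, N) j) := by
    intro j
    have a := ((m1 j).conj (M.rho N)).inv
    have e : (M.rho N).right (M.P (q, N) j) = M.P' (q, N) j := (rho_some M N _ _ _ _).1
    rw [e, ← conj_pow, ← inv_pow] at a
    convert a using 2
    have : (M.T q)⁻¹ = M.T q := inv_eq_of_mul_eq_one_right (T_sq M q)
    rw [mul_assoc, mul_inv_cancel_right, mul_inv_rev, this, hinv]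
  have sw : ∀ r y, r ≠ (N : ZMod D) → (∃ j, y = M.P (q, r) j ∨ y = M.P' (q, r) j) →
      ¬ M.Port q ((M.rho N).right y) := by
    rintro r y hr ⟨j, rfl | rfl⟩ ⟨r', j', h | h⟩ <;>
      simp only [Data.P, Data.P', rho_some, Option.some.injEq, Prod.mk.injEq] at h
    · simp at h
    · obtain ⟨⟨-, rfl⟩, rfl, -, h⟩ := h
      exact hr (by linear_combination h)
    · obtain ⟨⟨-, rfl⟩, rfl, -, h⟩ := h
      exact hr (by linear_combination h)
    · simp at h
  have cl : ∀ r y, (∃ j, y = M.P (q, r) j ∨ y = M.P' (q, r) j) →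
      ∃ j, (M.T q).right y = M.P (q, r) j ∨ (M.T q).right y = M.P' (q, r) j := by
    rintro r y ⟨j, rfl | rfl⟩ <;> rw [T_right]
    · exact ⟨_, Or.inr (th_P M q r j).1⟩
    · exact ⟨_, Or.inl (th_P' M q r j).1⟩
  by_cases h1 : M.Port q x
  · obtain ⟨r, h1⟩ := h1
    by_cases hr : r = (N : ZMod D)
    · subst hr
      rw [pow_mul]
      obtain ⟨j, rfl | rfl⟩ := h1
      exacts [(m1 j).pow 4, (m2 j).pow 4]
    · rw [e4]
      exact (sq_left (T_sq M q) (tr' _ (sw r _ hr h1)) (tr' _ (sw r _ hr (cl r _ h1)))).pow _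
  by_cases h2 : M.Port q ((M.rho N).right x)
  · obtain ⟨r, h2⟩ := h2
    by_cases hr : r = (N : ZMod D)
    · subst hr
      refine (h1 ?_).elim
      rw [← rr x]
      obtain ⟨j, h2 | h2⟩ := h2 <;> rw [h2]
      · exact ⟨N, j, Or.inr (rho_some M N _ _ _ _).1⟩
      · refine ⟨N, j, Or.inl ((rho_some M N _ _ _ _).1.trans ?_)⟩
        simp [Data.P]
        ring
    · rw [e4]
      refine (sq_right ?_ (tr _ h1) (tr _ (sw r ((M.T q).right ((M.rho N).right x)) hr (cl r _ h2)))).pow _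
      calc _ = M.rho N * M.T q * (M.rho N * M.rho N) * M.T q * M.rho N := by simp only [mul_assoc]
        _ = 1 := by rw [rho_sq, mul_one, mul_assoc (M.rho N), T_sq, mul_one, rho_sq]
  · rw [show C * k * 4 = 2 * (C * k * 2) by ring, pow_mul]
    exact (sq_right (rho_sq M N) (tr _ h1) (tr _ h2)).pow _

theorem fin_order {q : Q} {N : ℤ} (h : M.H q N) : ∃ k, 0 < k ∧ gg q N ^ k ∈ K (M.Ph g0) := by
  have := hC.out
  induction h with
  | @stop q N e =>
    refine ⟨C * 1 * 4, by omega, fin_step M g0 ?_⟩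
    simp [Data.sw, e, Data.nN, Data.ep, M.wn _ _ e]
  | @step q q' N e _ ih =>
    obtain ⟨k, hk, h⟩ := ih
    refine ⟨C * k * 4, by positivity, fin_step M g0 ?_⟩
    simpa [Data.sw, e, gg] using h

end Pool.Agent.H69.Wr
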