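import Mathlib
import Pool.Agent.H69.Wr3

namespace Pool.Agent.H69.Wr

open Equiv
open scoped Classical

variable {Q : Type} {D C : ℕ} [hD : Fact (1 < D)] [hC : Fact (1 < C)] (M : Data Q D C) (g0 : F Q)

def Sg (t : F Q) : Prop := t = 1 ∨ ∃ q, t = gs q ∨ t = (gs q)⁻¹

theorem Sg.inv {t : F Q} (h : Sg t) : Sg t⁻¹ := by
  rcases h with rfl | ⟨q, rfl | rfl⟩
  · exact Or.inl inv_one
  · exact Or.inr ⟨q, Or.inr rfl⟩
  · exact Or.inr ⟨q, Or.inl (inv_inv _)⟩

omit hD hC in
theorem sg_sw (κ : Q × ZMod D) : Sg (M.sw κ) := by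
  unfold Data.sw
  cases M.nxt κ with
  | none => exact Or.inl rfl
  | some q => exact Or.inr ⟨q, Or.inl rfl⟩

def U (B : ℤ) (g : F Q) : Prop := ∃ m m' t, Sg t ∧ |m| + |m'| ≤ B ∧ g = ga ^ m * t * ga ^ m'

noncomputable def Data.lam : Xl Q D C → F Q
  | none => 1
  | some (κ, j, _, _) => if j = 0 then (M.sw κ)⁻¹ else M.sw κ

def Data.zc : Xl Q D C → Prop
  | none => True
  | some (κ, j, _, _) => ¬ M.wt κ j

omit hD hC in
theorem sg_lam (x : Xl Q D C) : Sg (M.lam x) := by
  rcases x with _ | ⟨κ, j, b, i⟩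
  · exact Or.inl rfl
  · unfold Data.lam
    dsimp only
    split_ifs
    exacts [(sg_sw M κ).inv, sg_sw M κ]

def Data.Surv (ω : Wreath (Xl Q D C) (F Q)) : Prop := ∀ y, comp ω y = 1 ∨
  (M.zc y ∧ M.zc (ω.right y) ∧ comp ω y = M.lam (ω.right y) ∧ comp ω y = (M.lam y)⁻¹)

omit hD in
theorem surv {t : F Q} (h : Sg t) : M.Surv (M.Ph g0 t) := by
  have h1 : ∀ q, M.Surv (M.Ph g0 (gs q)) := by
    intro q y
    obtain ⟨y, rfl⟩ := rfl0_inv.surjective y
    rw [Ph_s, comp_mul, right_mul, R_right, R_comp, T_right, T_comp, rfl0_inv, mul_one]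
    by_cases h : M.Port q y
    · obtain ⟨r, j, rfl | rfl⟩ := h
      · rw [(th_P M q r j).1, (th_P M q r j).2]
        by_cases hj : j = 1
        · subst hj
          simp [Data.P, Data.P', rfl0, Data.zc, Data.lam, M.w0, M.w1]
        · exact Or.inl (if_neg hj)
      · rw [(th_P' M q r j).1, (th_P' M q r j).2]
        by_cases hj : j = 0
        · subst hj
          simp [Data.P, Data.P', rfl0, Data.zc, Data.lam, M.w0, M.w1]
        · exact Or.inl (if_neg hj)
    · exact Or.inl (th_not M h).2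
  rcases h with rfl | ⟨q, rfl | rfl⟩
  · exact fun y => Or.inl (by simp)
  · exact h1 q
  · intro y
    obtain ⟨y, rfl⟩ := (M.Ph g0 (gs q)).right.surjective y
    rw [map_inv, comp_inv, inv_right]
    rcases h1 q y with h | ⟨a, b, c, d⟩
    · exact Or.inl (by rw [h, inv_one])
    · exact Or.inr ⟨b, a, by rw [d, inv_inv], by rw [c]⟩

omit hC in
theorem B_facts (n : ℤ) (x : Xl Q D C) : M.lam ((M.B n).right x) = M.lam x ∧
    ∃ m : ℤ, comp (M.B n) x = ga ^ m ∧ 2 * |m| ≤ |n| + 2 ∧ (M.zc x → m = 0) := by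
  have := abs_nonneg n
  rcases x with _ | ⟨κ, j, b, i⟩
  · exact ⟨by rw [(B_none M n).1], 0, (B_none M n).2, by simp; omega, fun _ => rfl⟩
  · refine ⟨by rw [(B_some M n κ j b i).1]; rfl, _, (B_some M n κ j b i).2, ?_, fun h => ?_⟩
    · have := mu_bound i n
      unfold Data.ep
      split_ifs <;> simp <;> omega
    · have h : ¬ M.wt κ j := h
      simp [Data.ep, h]

omit hD in
theorem sg_comp {t : F Q} (h : Sg t) (y : Xl Q D C) : Sg (comp (M.Ph g0 t) y) := by
  rcases surv M g0 h y with h | ⟨-, -, h, -⟩ <;> rw [h]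
  exacts [Or.inl rfl, sg_lam M _]

theorem V_step {m0 m1 m2 B : ℤ} {t1 t2 : F Q} (h1 : Sg t1) (h2 : Sg t2)
    (hB : |m0| + |m1| + |m2| ≤ B) (x : Xl Q D C) :
    U (B / 2 + 3) (comp (M.Ph g0 (ga ^ m0 * t1 * ga ^ m1 * t2 * ga ^ m2)) x) := by
  simp only [map_mul, Ph_a, comp_mul]
  obtain ⟨-, n2, e2, b2, -⟩ := B_facts M m2 x
  generalize (M.B m2).right x = y at *
  obtain ⟨l1, n1, e1, b1, z1⟩ := B_facts M m1 ((M.Ph g0 t2).right y)
  obtain ⟨-, n0, e0, b0, -⟩ := B_facts M m0 ((M.Ph g0 t1).right ((M.B m1).right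
    ((M.Ph g0 t2).right y)))
  rw [e0, e1, e2]
  have a1 := abs_add_le n0 n1
  have a2 := abs_add_le n1 n2
  have a3 := abs_nonneg n1
  rcases surv M g0 h1 ((M.B m1).right ((M.Ph g0 t2).right y)) with s1 | ⟨-, -, -, s1⟩
  · exact ⟨n0 + n1, n2, _, sg_comp M g0 h2 y, by omega, by rw [s1, mul_one, zpow_add]⟩
  rcases surv M g0 h2 y with s2 | ⟨-, z, s2, -⟩
  · exact ⟨n0, n1 + n2, _, sg_comp M g0 h1 _, by omega, by rw [s2, mul_one, zpow_add, mul_assoc]⟩
  · refine ⟨n0, n2, 1, Or.inl rfl, by omega, ?_⟩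
    rw [s1, s2, l1, z1 z]
    simp

theorem U_step {B : ℤ} {g : F Q} (h : U B g) (x : Xl Q D C) :
    U (B / 2 + 3) (comp (M.Ph g0 g) x) := by
  obtain ⟨m, m', t, ht, hB, rfl⟩ := h
  have := V_step M g0 (m0 := 0) (Or.inl rfl) ht (by simpa using hB) x
  simpa using this

def G1 (t : F Q) : Prop := Sg t ∨ ∃ m : ℤ, |m| ≤ 1 ∧ t = ga ^ m

theorem G1_sec (v : List (Xl Q D C)) : ∀ t : F Q, G1 t → G1 (sec (M.Ph g0) t v) := by
  induction v with
  | nil => exact fun _ h => h
  | cons x v ih =>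
    intro t h
    refine ih _ ?_
    rcases h with h | ⟨m, h, rfl⟩
    · exact Or.inl (sg_comp M g0 h x)
    · obtain ⟨-, n, e, b, -⟩ := B_facts M m x
      exact Or.inr ⟨n, by omega, by rw [Ph_a, e]⟩

def H0 : Subgroup (F Q) := Subgroup.closure (insert ga (Set.range gs))

theorem good {g : F Q} (h : g ∈ (H0 : Subgroup (F Q))) :
    ∃ n, ∀ v : List (Xl Q D C), n ≤ v.length → U 6 (sec (M.Ph g0) g v) := by
  have step : ∀ t g, G1 t → (∃ B n, ∀ v : List (Xl Q D C), v.length = n →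
      U B (sec (M.Ph g0) g v)) → ∃ B n, ∀ v : List (Xl Q D C), v.length = n →
      U B (sec (M.Ph g0) (t * g) v) := by
    rintro t g ht ⟨B, n, H⟩
    refine ⟨(B + 1) / 2 + 3, n + 1, fun v hv => ?_⟩
    obtain ⟨v, x, rfl⟩ := (List.eq_nil_or_concat' v).resolve_left (by rintro rfl; simp at hv)
    obtain ⟨m, m', s, hs, hB, e⟩ := H v (by simpa using hv)
    rw [sec_snoc, sec_mul, e]
    rcases G1_sec M g0 (act (M.Ph g0) g v) t ht with h | ⟨k, h, e'⟩
    · have := V_step M g0 (m0 := 0) (B := B + 1) (m1 := m) (m2 := m') h hs (by simp; omega) x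
      simpa [mul_assoc] using this
    · have := V_step M g0 (m0 := k) (B := B + 1) (m1 := m) (m2 := m') (Or.inl rfl) hs
        (by omega) x
      rw [e']
      simpa [mul_assoc] using this
  have g1 : ∀ t ∈ insert ga (Set.range (gs (Q := Q))), G1 t ∧ G1 t⁻¹ := by
    rintro t (rfl | ⟨q, rfl⟩)
    · exact ⟨Or.inr ⟨1, by simp, by simp⟩, Or.inr ⟨-1, by simp, by simp⟩⟩
    · exact ⟨Or.inl (Or.inr ⟨q, Or.inl rfl⟩), Or.inl (Or.inr ⟨q, Or.inr rfl⟩)⟩
  have key : ∃ B n, ∀ v : List (Xl Q D C), v.length = n → U B (sec (M.Ph g0) g v) := by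
    induction h using Subgroup.closure_induction_left with
    | one => exact ⟨0, 0, fun v hv => ⟨0, 0, 1, Or.inl rfl, by simp, by
        rw [List.length_eq_zero_iff.1 hv]; simp [sec]⟩⟩
    | mul_left t ht g _ ih => exact step t g (g1 t ht).1 ih
    | inv_mul_cancel t ht g _ ih => exact step _ g (g1 t ht).2 ih
  obtain ⟨B, n, H⟩ := key
  have k2 : ∀ k : ℕ, ∀ v : List (Xl Q D C), v.length = n + k →
      U (max 6 (B - k)) (sec (M.Ph g0) g v) := by
    intro k
    induction k with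
    | zero =>
      intro v hv
      obtain ⟨m, m', s, hs, hB, e⟩ := H v hv
      exact ⟨m, m', s, hs, by omega, e⟩
    | succ k ih =>
      intro v hv
      obtain ⟨v, x, rfl⟩ := (List.eq_nil_or_concat' v).resolve_left (by rintro rfl; simp at hv)
      obtain ⟨m, m', s, hs, hB, e⟩ := U_step M g0 (ih v (by simp at hv; omega)) x
      exact ⟨m, m', s, hs, by omega, by rw [sec_snoc, e]⟩
  refine ⟨n + B.toNat, fun v hv => ?_⟩
  obtain ⟨m, m', s, hs, hB, e⟩ := k2 (v.length - n) v (by omega)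
  exact ⟨m, m', s, hs, by omega, e⟩

omit hD hC in
theorem U_finite [Finite Q] : {g : F Q | U 6 g}.Finite := by
  have h1 : {t : F Q | Sg t}.Finite := by
    refine (((Set.finite_range gs).union (Set.finite_range fun q => (gs q)⁻¹)).insert 1).subset ?_
    rintro t (rfl | ⟨q, rfl | rfl⟩) <;> simp
  refine ((((Set.finite_Icc (-6 : ℤ) 6).prod h1).prod (Set.finite_Icc (-6 : ℤ) 6)).image
    fun p => ga ^ p.1.1 * p.1.2 * ga ^ p.2).subset ?_
  rintro g ⟨m, m', t, ht, hB, rfl⟩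
  have := abs_nonneg m
  have := abs_nonneg m'
  exact ⟨((m, t), m'), ⟨⟨abs_le.1 (by omega : |m| ≤ 6), ht⟩, abs_le.1 (by omega : |m'| ≤ 6)⟩, rfl⟩

def St (ω : Wreath (Xl Q D C) (F Q)) : Prop :=
  ω.right none = none ∧ (∃ e : ℤ, comp ω none = gz ^ e) ∧ ∀ y, comp ω (some y) ∈ H0

theorem st (h0 : g0 ∈ (H0 : Subgroup (F Q))) (h : F Q) : St (M.Ph g0 h) := by
  have ha : ∀ m : ℤ, ga ^ m ∈ (H0 : Subgroup (F Q)) := fun m =>
    zpow_mem (Subgroup.subset_closure (Set.mem_insert _ _) : ga ∈ (H0 : Subgroup (F Q))) m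
  have hs : ∀ q, gs q ∈ (H0 : Subgroup (F Q)) := fun q =>
    Subgroup.subset_closure (Or.inr ⟨q, rfl⟩)
  have h1 : ∀ s, St (M.Ph g0 (FreeGroup.of s)) := by
    rintro (_ | _ | q)
    · have := Ph_z M g0
      unfold gz at this
      rw [this]
      exact ⟨by simp, ⟨1, by simp [gz]⟩, fun y => by simpa using h0⟩
    · have := Ph_a M g0 1
      rw [zpow_one] at this
      unfold ga at this
      rw [this]
      refine ⟨(B_none M 1).1, ⟨0, (B_none M 1).2⟩, fun y => ?_⟩
      obtain ⟨-, m, e, -⟩ := B_facts M 1 (some y)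
      exact e ▸ ha m
    · refine ⟨?_, ⟨0, ?_⟩, fun y => ?_⟩
      · exact (congrArg (fun ω => ω.right none) (Ph_s M g0 q)).trans (by
          simp only [right_mul, R_right, T_right]; rfl)
      · exact (congrArg (fun ω => comp ω none) (Ph_s M g0 q)).trans (by
          simp only [comp_mul, R_right, T_comp, R_comp, mul_one]; rfl)
      · rcases sg_comp M g0 (Or.inr ⟨q, Or.inl rfl⟩) (some y) with e | ⟨q', e | e⟩ <;>
          refine Eq.subst (motive := fun t => t ∈ H0) e.symm ?_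
        exacts [one_mem _, hs _, inv_mem (hs _)]
  induction h using FreeGroup.induction_on with
  | C1 => exact ⟨by simp, ⟨0, by simp⟩, fun y => by simp⟩
  | of s => exact h1 s
  | inv_of s _ =>
    obtain ⟨a, ⟨e, b⟩, c⟩ := h1 s
    rw [map_inv]
    have i1 := inv_right (M.Ph g0 (FreeGroup.of s)) none
    have i2 := comp_inv (M.Ph g0 (FreeGroup.of s)) none
    rw [a] at i1 i2
    refine ⟨i1, ⟨-e, by rw [i2, b, zpow_neg]⟩, fun y => ?_⟩
    obtain ⟨_ | x, hx⟩ := (M.Ph g0 (FreeGroup.of s)).right.surjective (some y)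
    · rw [a] at hx
      cases hx
    · rw [← hx, comp_inv]
      exact inv_mem (c x)
  | mul a b iha ihb =>
    obtain ⟨a1, ⟨e, a2⟩, a3⟩ := iha
    obtain ⟨b1, ⟨e', b2⟩, b3⟩ := ihb
    rw [map_mul]
    refine ⟨by rw [right_mul, b1, a1], ⟨e + e', by rw [comp_mul, b1, a2, b2, zpow_add]⟩,
      fun y => ?_⟩
    rw [comp_mul]
    refine mul_mem ?_ (b3 y)
    rcases hx : (M.Ph g0 b).right (some y) with _ | x
    · cases (M.Ph g0 b).right.injective (hx.trans b1.symm)
    · exact a3 x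

omit hD hC in
theorem z_pow (e : ℕ) (x : Xl Q D C) : (M.Ph g0 (gz ^ e)).right x = x ∧
    comp (M.Ph g0 (gz ^ e)) x = x.elim gz (fun _ => g0) ^ e := by
  rw [map_pow, Ph_z]
  have := fix_pow (ω := mk 1 fun x : Xl Q D C => x.elim gz fun _ => g0) (x := x) (by simp) e
  simpa using this

theorem contracting_iff [Finite Q] [Nonempty Q] (h0 : g0 ∈ (H0 : Subgroup (F Q))) :
    Contracting (M.Ph g0) ↔ ∃ k, 0 < k ∧ g0 ^ k ∈ K (M.Ph g0) := by
  have := hC.out
  have := hD.out
  have : NeZero C := ⟨by omega⟩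
  have : NeZero D := ⟨by omega⟩
  constructor
  · rintro ⟨N, hN, H⟩
    have h1 : ∀ e : ℕ, ∃ u ∈ N, ∀ w, act (M.Ph g0) (gz ^ e) w = act (M.Ph g0) u w := by
      intro e
      obtain ⟨n, hn⟩ := H (gz ^ e)
      have : ∀ n, sec (M.Ph g0) (gz ^ e) (List.replicate n none) = gz ^ e := by
        intro n
        induction n with
        | zero => rfl
        | succ n ih => rw [List.replicate_succ, sec, (z_pow M g0 e none).2]; exact ih
      simpa [this] using hn (List.replicate n none) (by simp)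
    choose u hu hw using h1
    obtain ⟨a, -, b, -, hab, e⟩ :=
      Set.infinite_univ.exists_lt_map_eq_of_mapsTo (f := u) (fun a _ => hu a) hN
    have : gz ^ (b - a) ∈ K (M.Ph g0) := by
      intro v
      have := hw b v
      rw [← e, ← hw a, ← Nat.add_sub_cancel' hab.le, pow_add, act_mul] at this
      have := congrArg (act (M.Ph g0) (gz ^ a)⁻¹) this
      simpa only [← act_mul, inv_mul_cancel_left, inv_mul_cancel, act_one] using this
    have := ((mem_K _).1 this (some (Classical.arbitrary _))).2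
    rw [(z_pow M g0 _ _).2] at this
    exact ⟨b - a, by omega, this⟩
  · rintro ⟨o, ho, hk⟩
    have hz : gz ^ o ∈ K (M.Ph g0) := by
      intro v
      induction v with
      | nil => rfl
      | cons x v ih =>
        rw [act, (z_pow M g0 o x).1, (z_pow M g0 o x).2]
        cases x with
        | none => exact congrArg _ ih
        | some y => exact congrArg _ (hk v)
    have h1 : ∀ h : F Q, ∃ n, ∀ y, ∀ v : List (Xl Q D C), n ≤ v.length →
        U 6 (sec (M.Ph g0) h (some y :: v)) := by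
      intro h
      choose n hn using fun y => good M g0 ((st M g0 h0 h).2.2 y)
      obtain ⟨m, hm⟩ := (Set.finite_range n).bddAbove
      exact ⟨m, fun y v hv => hn y v ((hm ⟨y, rfl⟩).trans hv)⟩
    choose n hn using h1
    obtain ⟨m, hm⟩ := (Set.finite_range fun e : Fin o => n (gz ^ e.1)).bddAbove
    let N : Set (F Q) := {g | U 6 g} ∪ (fun p : Fin o × List (Xl Q D C) =>
      sec (M.Ph g0) (gz ^ p.1.1) p.2) '' (Set.univ ×ˢ {v | v.length ≤ m})
    have h2 : ∀ e : Fin o, ∀ v, sec (M.Ph g0) (gz ^ e.1) v ∈ N := by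
      intro e v
      induction v with
      | nil => exact Or.inr ⟨(e, []), ⟨trivial, Nat.zero_le _⟩, rfl⟩
      | cons x v ih =>
        cases x with
        | none => rw [sec, (z_pow M g0 e none).2]; exact ih
        | some y =>
          by_cases hv : m ≤ v.length
          · exact Or.inl (hn _ y v ((hm ⟨e, rfl⟩).trans hv))
          · exact Or.inr ⟨(e, some y :: v), ⟨trivial, by simp at hv ⊢; omega⟩, rfl⟩
    refine ⟨N, U_finite.union ((Set.finite_univ.prod (List.finite_length_le _ m)).image _),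
      fun h => ⟨n h + 1, fun v hv => ?_⟩⟩
    rcases v with _ | ⟨_ | y, v⟩
    · simp at hv
    · obtain ⟨e, he⟩ := (st M g0 h0 h).2.1
      have a1 := Int.emod_nonneg e (by omega : (o : ℤ) ≠ 0)
      have a2 := Int.emod_lt_of_pos e (by omega : (0 : ℤ) < o)
      refine ⟨_, h2 ⟨(e % o).toNat, by omega⟩ v, fun w => ?_⟩
      have e1 : (gz : F Q) ^ e = gz ^ (e % o).toNat * (gz ^ o) ^ (e / o) := by
        rw [← zpow_natCast, ← zpow_natCast, ← zpow_mul, ← zpow_add, Int.toNat_of_nonneg a1,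
          Int.emod_add_mul_ediv]
      have e2 := zpow_mem hz (e / o)
      rw [sec, he, e1, sec_mul, act_mul, e2 v, sec_K _ e2 v w]
    · exact ⟨_, Or.inl (hn h y v (by simp at hv; omega)), fun _ => rfl⟩

end Pool.Agent.H69.Wr
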