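import Mathlib
import Pool.Agent.H69.Wr4
import Pool.Agent.H30.MulM

namespace Pool.Agent.H69.Wr

open Equiv Pool.Agent.H30.MulM
open scoped Classical

def Det {Q : Type} (ins : Q → Bool → Option Q × ℕ × ℕ) : Prop :=
  ∀ s, (ins s false).2.2 = (ins s true).2.2 ∧ (((ins s true).2.1 = 0 ∧ ins s false = ins s true) ∨
    ((ins s true).2.1 = 1 ∧ (ins s false).2.1 = 2))

theorem det_ins : ∀ w, Det (ins w)
  | .inc _, _ => ⟨rfl, Or.inl ⟨rfl, rfl⟩⟩
  | .skip, _ => ⟨rfl, Or.inl ⟨rfl, rfl⟩⟩
  | .seq a _, .inl s => ⟨(det_ins a s).1, (det_ins a s).2.imp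
      (fun h => ⟨h.1, by simp only [ins, h.2]⟩) id⟩
  | .seq _ b, .inr s => ⟨(det_ins b s).1, (det_ins b s).2.imp
      (fun h => ⟨h.1, by simp only [ins, h.2]⟩) id⟩
  | .loop _ _, none => ⟨rfl, Or.inr ⟨rfl, rfl⟩⟩
  | .loop _ b, some s => ⟨(det_ins b s).1, (det_ins b s).2.imp
      (fun h => ⟨h.1, by simp only [ins, h.2]⟩) id⟩

theorem sum_aux {e c n : ℕ} (h1 : e ≤ c) (h2 : c < n) (A B : ℤ) :
    ∑ u ∈ Finset.range n, (if 2 ≤ 1 + u ∧ 1 + u < c + 2 then (1 : ℤ) else 0) *
      (if 1 + u < e + 2 then A else B) = e * A + (c - e) * B := by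
  have : ∀ u ∈ Finset.range n, (if 2 ≤ 1 + u ∧ 1 + u < c + 2 then (1 : ℤ) else 0) *
      (if 1 + u < e + 2 then A else B) = (if u ∈ Finset.Ico 1 (e + 1) then A else 0) +
        (if u ∈ Finset.Ico (e + 1) (c + 1) then B else 0) := by
    intro u _
    simp only [Finset.mem_Ico]
    split_ifs <;> omega
  rw [Finset.sum_congr rfl this, Finset.sum_add_distrib, Finset.sum_ite_mem, Finset.sum_ite_mem,
    Finset.inter_eq_right.2, Finset.inter_eq_right.2]
  · simp [Nat.cast_sub h1]
  all_goals
    intro u hu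
    simp only [Finset.mem_Ico, Finset.mem_range] at hu ⊢
    omega

theorem exists_data {Q : Type} [Finite Q] (ins : Q → Bool → Option Q × ℕ × ℕ) (hd : Det ins) :
    ∃ (D C : ℕ) (_ : Fact (1 < D)) (_ : Fact (1 < C)) (M : Data Q D C),
      ∀ q (N : ℕ), M.H q N ↔ Halt ins (some q) N := by
  have := Fintype.ofFinite Q
  obtain ⟨D, hD, hp⟩ : ∃ D : ℕ, 1 < D ∧ ∀ s, (ins s true).2.2 + 1 ∣ D := by
    refine ⟨2 * ∏ s, ((ins s true).2.2 + 1), ?_, fun s =>
      (Finset.dvd_prod_of_mem _ (Finset.mem_univ s)).mul_left _⟩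
    have : 0 < ∏ s, ((ins s true).2.2 + 1) := Finset.prod_pos (fun _ _ => Nat.succ_pos _)
    omega
  have fD : Fact (1 < D) := ⟨hD⟩
  have fC : Fact (1 < D * D + 2) := ⟨by omega⟩
  have : NeZero D := ⟨by omega⟩
  obtain ⟨bb, c, e, H⟩ : ∃ (bb : Q → ℕ → Bool) (c e : Q → ℕ → ℕ), ∀ s r, r < D →
      e s r ≤ c s r ∧ c s r ≤ D * D ∧ (r = 0 → e s r = 0) ∧ ∀ k,
        ok (ins s (bb s r)).2.1 ((ins s (bb s r)).2.2 + 1) (D * k + r) (c s r * k + e s r) ∧
        ∀ b N', ok (ins s b).2.1 ((ins s b).2.2 + 1) (D * k + r) N' →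
          (ins s b).1 = (ins s (bb s r)).1 ∧ N' = c s r * k + e s r := by
    have : ∀ s r, ∃ (bb : Bool) (c e : ℕ), r < D → e ≤ c ∧ c ≤ D * D ∧ (r = 0 → e = 0) ∧ ∀ k,
        ok (ins s bb).2.1 ((ins s bb).2.2 + 1) (D * k + r) (c * k + e) ∧
        ∀ b N', ok (ins s b).2.1 ((ins s b).2.2 + 1) (D * k + r) N' →
          (ins s b).1 = (ins s bb).1 ∧ N' = c * k + e := by
      intro s r
      obtain ⟨h1, h2⟩ := hd s
      have h3 := hp s
      have h0 : 0 < (ins s true).2.2 + 1 := Nat.succ_pos _
      have h4 := Nat.le_of_dvd (by omega) h3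
      rcases h2 with ⟨h2, h5⟩ | ⟨h2, h5⟩
      · refine ⟨true, ((ins s true).2.2 + 1) * D, ((ins s true).2.2 + 1) * r, fun hr =>
          ⟨Nat.mul_le_mul_left _ hr.le, Nat.mul_le_mul_right _ h4, fun h => by simp [h],
            fun k => ⟨?_, fun b N' h => ?_⟩⟩⟩
        · simp only [ok, h2, if_true]
          ring
        · have : ins s b = ins s true := by cases b <;> simp [h5]
          simp only [this, ok, h2, if_true] at h
          exact ⟨by rw [this], by rw [h]; ring⟩
      · generalize hq : (ins s true).2.2 + 1 = p at *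
        have hq' : (ins s false).2.2 + 1 = p := by rw [h1, hq]
        obtain ⟨d, rfl⟩ := h3
        by_cases h6 : p ∣ r
        · obtain ⟨t, rfl⟩ := h6
          refine ⟨true, d, t, fun hr => ⟨(Nat.lt_of_mul_lt_mul_left hr).le, by nlinarith,
            fun h => by simpa [h0.ne'] using h, fun k => ⟨?_, fun b N' h => ?_⟩⟩⟩
          · simp only [ok, h2, hq]
            simp
            ring
          · cases b
            · simp only [ok, h5, hq'] at h
              simp at h
              exact (h.2 ⟨d * k + t, by ring⟩).elim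
            · simp only [ok, h2, hq] at h
              simp at h
              exact ⟨rfl, Nat.eq_of_mul_eq_mul_left h0 (by rw [← h]; ring)⟩
        · have h7 : ∀ k, ¬ p ∣ p * d * k + r := fun k h =>
            h6 ((Nat.dvd_add_right ⟨d * k, by ring⟩).1 h)
          refine ⟨false, p * d, r, fun hr => ⟨hr.le, by nlinarith, id,
            fun k => ⟨?_, fun b N' h => ?_⟩⟩⟩
          · simp only [ok, h5, hq']
            simpa using h7 k
          · cases b
            · simp only [ok, h5, hq'] at h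
              simp at h
              exact ⟨rfl, h.1⟩
            · simp only [ok, h2, hq] at h
              simp at h
              exact (h7 k ⟨_, h⟩).elim
    choose bb c e h using this
    exact ⟨bb, c, e, h⟩
  let M : Data Q D (D * D + 2) :=
    { nxt := fun κ => (ins κ.1 (bb κ.1 κ.2.val)).1
      wt := fun κ j => (ins κ.1 (bb κ.1 κ.2.val)).1 ≠ none ∧ 2 ≤ j.val ∧ j.val < c κ.1 κ.2.val + 2
      st := fun κ j => if j.val < e κ.1 κ.2.val + 2 then -1 else 0
      w0 := fun κ h => by simp at h
      w1 := fun κ h => by simp [ZMod.val_one] at h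
      wn := fun κ j h h' => h'.1 h }
  have hv : ∀ N : ℕ, (((N : ℤ) : ZMod D)).val = N % D := fun N => by simp [ZMod.val_natCast]
  have hn : ∀ q (N : ℕ), M.nxt (q, (N : ℤ)) = (ins q (bb q (N % D))).1 := fun q N => by
    simp only [M, hv]
  have hN : ∀ q (N : ℕ), M.nxt (q, (N : ℤ)) ≠ none →
      M.nN q N (D * D + 2 - 1) = (c q (N % D) * (N / D) + e q (N % D) : ℕ) := by
    intro q N h
    obtain ⟨a1, a2, a3, -⟩ := H q (N % D) (Nat.mod_lt _ (by omega))
    have := sum_aux a1 (by omega : c q (N % D) < D * D + 2 - 1) (mu (-1 : ZMod D) N)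
      (mu (0 : ZMod D) N)
    have e1 : mu (0 : ZMod D) N = (N / D : ℕ) := by simp [mu]
    have e2 : (e q (N % D) : ℤ) * mu (-1 : ZMod D) N = e q (N % D) * ((N / D : ℕ) + 1) := by
      by_cases h0 : N % D = 0
      · simp [a3 h0]
      congr 1
      have b1 := mu_refl (0 : ZMod D) N
      rw [sub_zero] at b1
      rw [b1, mu]
      have b2 := Nat.div_add_mod N D
      have b3 := Nat.mod_lt N (by omega : 0 < D)
      generalize N / D = k at *
      generalize N % D = r at *
      subst b2
      rw [neg_eq_iff_eq_neg]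
      refine (Int.ediv_eq_iff_of_pos (by omega)).2 ⟨?_, ?_⟩ <;> simp <;> nlinarith [Nat.pos_of_ne_zero h0]
    rw [e1, e2] at this
    refine Eq.trans (Finset.sum_congr rfl (fun u hu => ?_)) (this.trans (by push_cast; ring))
    have hu : (1 + (u : ZMod (D * D + 2))).val = 1 + u := by
      rw [← Nat.cast_one, ← Nat.cast_add, ZMod.val_natCast, Nat.mod_eq_of_lt]
      simp at hu
      omega
    rw [hn] at h
    simp only [Data.ep, M, hv, hu, h, ne_eq, not_false_eq_true, true_and, if_true, apply_ite mu,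
      ite_apply, e1]
  have hk : ∀ q (N : ℕ), _ := fun q N => (H q (N % D) (Nat.mod_lt _ (by omega))).2.2.2 (N / D)
  simp only [Nat.div_add_mod] at hk
  refine ⟨D, D * D + 2, fD, fC, M, fun q N => ⟨fun h => ?_, fun h => ?_⟩⟩
  · generalize hz : (N : ℤ) = z at h
    induction h generalizing N with
    | @stop q z e =>
      subst hz
      exact Halt.step _ (hk q N).1 (by rw [← hn, e]; exact Halt.stop _)
    | @step q q' z e _ ih =>
      subst hz
      exact Halt.step _ (hk q N).1 (by rw [← hn, e]; exact ih _ (hN q N (by rw [e]; simp)).symm)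
  · generalize ho : some q = o at h
    induction h generalizing q with
    | stop N => cases ho
    | @step s N N' b h1 _ ih =>
      cases ho
      obtain ⟨a1, rfl⟩ := (hk s N).2 b N' h1
      rcases e : M.nxt (s, (N : ℤ)) with _ | q'
      · exact .stop e
      · refine .step e ?_
        rw [hN s N (by rw [e]; simp)]
        exact ih q' (by rw [a1, ← hn, e])

theorem mk_eta {X G : Type} [Group G] (ω : Wreath X G) : mk ω.right (comp ω) = ω :=
  wext (by simp) (by simp)

theorem undec : ∃ (d m : ℕ) (π : Fin m → Perm (Fin d)), 2 ≤ d ∧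
    ¬ ComputablePred fun w : Fin m → Fin d → List (Fin m × Bool) => Contracting (Phi π w) := by
  obtain ⟨P, hP⟩ := Pool.Agent.H38.CM.exists_undec
  have := H30.MulM.St.finite P
  have : Nonempty (H30.MulM.St P) := ⟨entry P⟩
  obtain ⟨D, C, fD, fC, M, H⟩ := exists_data (ins P) (det_ins P)
  have := fC.out
  have := fD.out
  have : NeZero C := ⟨by omega⟩
  have : NeZero D := ⟨by omega⟩
  obtain ⟨d, ⟨e⟩⟩ := Finite.exists_equiv_fin (Xl (H30.MulM.St P) D C)
  obtain ⟨m, ⟨f⟩⟩ := Finite.exists_equiv_fin (Option (Option (H30.MulM.St P)))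
  let π : Option (Option (H30.MulM.St P)) → Perm (Xl (H30.MulM.St P) D C) := fun s => (M.gen 1 s).right
  let w : ℕ → Option (Option (H30.MulM.St P)) → Xl (H30.MulM.St P) D C → List (Option (Option (H30.MulM.St P)) × Bool) :=
    fun n s x => if s = none ∧ x ≠ none then
      (some (some (entry P)), true) :: List.replicate (2 ^ n) (some none, true)
    else (comp (M.gen 1 s) x).toWord
  have h1 : ∀ n, Phi π (w n) = M.Ph (gg (entry P) ((2 ^ n : ℕ) : ℤ)) := by
    intro n
    refine FreeGroup.ext_hom _ _ (fun s => ?_)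
    simp only [Phi, Data.Ph, FreeGroup.lift_apply_of]
    rcases s with _ | _ | q
    · simp only [π, Data.gen, mk_right]
      congr 1
      funext x
      cases x with
      | none => simp [w, Data.gen, FreeGroup.mk_toWord]
      | some y =>
        simp only [w, ne_eq, reduceCtorEq, not_false_eq_true, and_self, if_true, Option.elim, gg,
          zpow_natCast]
        rw [← List.singleton_append, ← FreeGroup.mul_mk]
        congr 1
        generalize 2 ^ n = k
        induction k with
        | zero => rfl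
        | succ k ih => rw [List.replicate_succ, ← List.singleton_append, ← FreeGroup.mul_mk, ih,
            pow_succ']; rfl
    · simp only [w, reduceCtorEq, false_and, if_false, FreeGroup.mk_toWord]
      exact mk_eta _
    · simp only [w, reduceCtorEq, false_and, if_false, FreeGroup.mk_toWord]
      exact mk_eta _
  have h2 : ∀ n, Contracting (Phi π (w n)) ↔ Halt (ins P) (some (entry P)) (2 ^ n) := by
    intro n
    rw [h1, contracting_iff, ← H]
    · exact ⟨fun ⟨k, hk, h⟩ => inf_order M _ k hk _ _ h, fun h => fin_order M _ h⟩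
    · exact mul_mem (Subgroup.subset_closure (Or.inr ⟨_, rfl⟩)) (zpow_mem
        (Subgroup.subset_closure (Set.mem_insert _ _) : ga ∈ (H0 : Subgroup (F (H30.MulM.St P)))) _)
  refine ⟨d, m, fun s => e.permCongr (π (f.symm s)), ?_, fun h => hP ?_⟩
  · have : Nontrivial (Fin d) := e.symm.nontrivial
    exact Fin.nontrivial_iff_two_le.1 this
  have h3 : Computable fun n (s : Fin m) (x : Fin d) =>
      (w n (f.symm s) (e.symm x)).map fun p => (f p.1, p.2) := by
    refine Primrec.to_comp (Primrec.fin_curry.2 (Primrec₂.swap (Primrec.fin_curry₁.2 fun s =>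
      Primrec.fin_curry.2 (Primrec₂.swap (Primrec.fin_curry₁.2 fun x => ?_)))))
    by_cases hc : f.symm s = none ∧ e.symm x ≠ none
    · simp only [w, if_pos hc, List.map_cons, List.map_replicate]
      refine Primrec.list_cons.comp (Primrec.const _) ((Primrec.list_map (Primrec.list_range.comp
        ((Primrec₂.unpaired'.1 Nat.Primrec.pow).comp (Primrec.const 2) Primrec.id))
        (Primrec.const (f (some none), true)).to₂).of_eq fun n => ?_)
      simp
    · simp only [w, if_neg hc]
      exact Primrec.const _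
  obtain ⟨dec, h⟩ := h
  refine ComputablePred.of_eq ⟨fun n => dec _, h.comp h3⟩ (fun n => ?_)
  exact (transport_free e f π (w n)).symm.trans ((h2 n).trans (halt_iff P n))

end Pool.Agent.H69.Wr
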