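import Mathlib

/-! The shift and the XOR automaton on `{0,1}^ℤ`. -/

set_option autoImplicit false

namespace Pool.Agent.H69.Xor

open MeasureTheory Filter Topology

/-- The configuration space `{0,1}^ℤ`. -/
abbrev X : Type := ℤ → ZMod 2

/-- The left shift. -/
def shift (x : X) : X := fun i => x (i + 1)

/-- The two-neighbour XOR automaton. -/
def F (x : X) : X := fun i => x i + x (i + 1)

/-- Weak mixing of a measure for the shift. -/
def WeakMixing (μ : Measure X) : Prop :=
  ∀ A B : Set X, MeasurableSet A → MeasurableSet B →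
    Tendsto (fun N : ℕ => (1 / (N : ℝ)) * ∑ n ∈ Finset.range N,
      |μ.real (A ∩ shift^[n] ⁻¹' B) - μ.real A * μ.real B|) atTop (𝓝 0)

end Pool.Agent.H69.Xor
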