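import Mathlib
import Pool.Agent.H69.XorDefs

set_option autoImplicit false

namespace Pool.Agent.H69.Xor

open Finset Filter Topology

noncomputable def eps (j : ℕ) : ℝ := 1 / (2 * j + 4)

theorem eps_pos (j : ℕ) : 0 < eps j := by unfold eps; positivity
theorem eps_le (j : ℕ) : eps j ≤ 1 / 4 := by
  unfold eps
  have : (0 : ℝ) ≤ j := Nat.cast_nonneg j
  gcongr
  linarith
theorem eps_anti (j : ℕ) : eps (j + 1) ≤ eps j := by
  unfold eps
  push_cast
  gcongr
  linarith

def lf (b : Bool) (r : ℤ) (y : X) : X :=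
  fun i => if b = true ∧ (i + r) % 2 = 1 then 0 else y ((i + r) / 2)

noncomputable def m : ℕ → ℕ → (X → ℝ) → ℝ
  | 0, _, Φ => Φ (fun _ => 1)
  | L + 1, s, Φ => eps s * (m L (s + 1) (Φ ∘ lf true 0) + m L (s + 1) (Φ ∘ lf true 1)) +
      (1 - eps s) / 2 * (m L (s + 1) (Φ ∘ lf false 0) + m L (s + 1) (Φ ∘ lf false 1))

theorem m_mono (L : ℕ) : ∀ (s : ℕ) {Φ Ψ : X → ℝ}, (∀ x, Φ x ≤ Ψ x) → m L s Φ ≤ m L s Ψ := by
  induction L with
  | zero => intro s Φ Ψ h; exact h _
  | succ L ih =>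
    intro s Φ Ψ h
    have h1 := eps_pos s
    have h2 : 0 ≤ (1 - eps s) / 2 := by linarith [eps_le s]
    simp only [m]
    gcongr <;> exact ih _ fun x => h _

theorem m_lin (L : ℕ) : ∀ (s : ℕ) (a b : ℝ) (Φ Ψ : X → ℝ),
    m L s (fun x => a * Φ x + b * Ψ x) = a * m L s Φ + b * m L s Ψ := by
  induction L with
  | zero => intro s a b Φ Ψ; rfl
  | succ L ih =>
    intro s a b Φ Ψ
    have h : ∀ f : X → X, m L (s + 1) ((fun x => a * Φ x + b * Ψ x) ∘ f)
        = a * m L (s + 1) (Φ ∘ f) + b * m L (s + 1) (Ψ ∘ f) := fun f => ih _ a b (Φ ∘ f) (Ψ ∘ f)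
    simp only [m, h]
    ring

theorem m_zero (L s : ℕ) : m L s (fun _ => 0) = 0 := by
  simpa using m_lin L s 0 0 (fun _ => 0) (fun _ => 0)

theorem m_nonneg (L s : ℕ) {Φ : X → ℝ} (h : ∀ x, 0 ≤ Φ x) : 0 ≤ m L s Φ := by
  rw [← m_zero L s]; exact m_mono L s h

theorem m_add (L s : ℕ) (Φ Ψ : X → ℝ) : m L s (fun x => Φ x + Ψ x) = m L s Φ + m L s Ψ := by
  simpa using m_lin L s 1 1 Φ Ψ

theorem m_smul (L s : ℕ) (a : ℝ) (Φ : X → ℝ) : m L s (fun x => a * Φ x) = a * m L s Φ := by
  simpa using m_lin L s a 0 Φ Φ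

theorem m_sum {ι : Type} (L s : ℕ) (S : Finset ι) (Φ : ι → X → ℝ) :
    m L s (fun x => ∑ i ∈ S, Φ i x) = ∑ i ∈ S, m L s (Φ i) := by
  classical
  induction S using Finset.induction_on with
  | empty => simpa using m_zero L s
  | insert i S hi ih => simp only [sum_insert hi]; rw [m_add, ih]

def sh (k : ℤ) (x : X) : X := fun i => x (i + k)

theorem m_sh1 (L : ℕ) : ∀ (s : ℕ) (Φ : X → ℝ), m L s (Φ ∘ sh 1) = m L s Φ := by
  induction L with
  | zero => intro s Φ; rfl
  | succ L ih =>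
    intro s Φ
    have h1 : ∀ b, (Φ ∘ sh 1) ∘ lf b 0 = Φ ∘ lf b 1 := fun b => by
      funext y
      simp only [Function.comp]
      congr 1
      funext i
      simp [sh, lf]
    have h2 : ∀ b, (Φ ∘ sh 1) ∘ lf b 1 = (Φ ∘ lf b 0) ∘ sh 1 := fun b => by
      funext y
      simp only [Function.comp]
      congr 1
      funext i
      have e1 : (i + 1 + 1) % 2 = (i + 0) % 2 := by omega
      have e2 : (i + 1 + 1) / 2 = (i + 0) / 2 + 1 := by omega
      simp only [sh, lf, e1, e2]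
    simp only [m, h1, h2, ih]
    ring

theorem m_sh (L s : ℕ) (k : ℤ) : ∀ Φ : X → ℝ, m L s (Φ ∘ sh k) = m L s Φ := by
  have hc : ∀ (Φ : X → ℝ) (a : ℤ), Φ ∘ sh (a + 1) = (Φ ∘ sh a) ∘ sh 1 := fun Φ a => by
    funext y
    simp only [Function.comp]
    congr 1
    funext i
    simp [sh, add_assoc]
  induction k using Int.induction_on with
  | zero => intro Φ; congr 1; funext y; simp only [Function.comp]; congr 1; funext i; simp [sh]
  | succ k ih => intro Φ; rw [hc, m_sh1, ih]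
  | pred k ih =>
    intro Φ
    rw [← m_sh1, ← hc, sub_add_cancel, ih]

open Classical in
noncomputable def ind (P : X → Prop) : X → ℝ := fun x => if P x then 1 else 0

theorem ind_nonneg (P : X → Prop) (x : X) : 0 ≤ ind P x := by unfold ind; split_ifs <;> norm_num

theorem ind_le {P Q : X → Prop} {x y : X} (h : P x → Q y) : ind P x ≤ ind Q y := by
  unfold ind
  split_ifs with h1 h2
  · exact le_rfl
  · exact absurd (h h1) h2
  · norm_num
  · exact le_rfl

theorem ind_congr {P Q : X → Prop} (h : ∀ x, P x ↔ Q x) : ind P = ind Q := by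
  have : P = Q := funext fun x => propext (h x)
  rw [this]

theorem ind_false : ind (fun _ => False) = fun _ => 0 := by funext x; simp [ind]

theorem ind_comp (P : X → Prop) (f : X → X) : ind P ∘ f = ind (fun x => P (f x)) := rfl

theorem m_one0 (L : ℕ) : ∀ s, m L s (ind fun x => x 0 ≠ 0) = 1 := by
  induction L with
  | zero => intro s; simp [m, ind]
  | succ L ih =>
    intro s
    have h1 : (ind fun x => x 0 ≠ 0) ∘ lf true 1 = fun _ => 0 := by
      rw [ind_comp, ← ind_false]; exact ind_congr fun x => by simp [lf]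
    have h2 : (ind fun x => x 0 ≠ 0) ∘ lf true 0 = ind fun x => x 0 ≠ 0 := by
      rw [ind_comp]; exact ind_congr fun x => by simp [lf]
    have h3 : (ind fun x => x 0 ≠ 0) ∘ lf false 0 = ind fun x => x 0 ≠ 0 := by
      rw [ind_comp]; exact ind_congr fun x => by simp [lf]
    have h4 : (ind fun x => x 0 ≠ 0) ∘ lf false 1 = ind fun x => x 0 ≠ 0 := by
      rw [ind_comp]; exact ind_congr fun x => by simp [lf]
    simp only [m, h1, h2, h3, h4, ih, m_zero]
    ring

theorem m_one (L s : ℕ) (i : ℤ) : m L s (ind fun x => x i ≠ 0) = 1 := by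
  rw [← m_one0 L s, ← m_sh L s i (ind fun x => x 0 ≠ 0), ind_comp]
  simp [sh]

theorem m_D (L : ℕ) : ∀ s, m L s (ind fun x => x 0 ≠ x 1) ≤ 4 * eps s := by
  induction L with
  | zero => intro s; simp [m, ind]; linarith [eps_pos s]
  | succ L ih =>
    intro s
    have h1 : m L (s + 1) ((ind fun x => x 0 ≠ x 1) ∘ lf true 0) ≤ 1 := by
      rw [← m_one L (s + 1) 0]
      exact m_mono _ _ fun x => ind_le (by simp [lf])
    have h2 : m L (s + 1) ((ind fun x => x 0 ≠ x 1) ∘ lf true 1) ≤ 1 := by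
      rw [← m_one L (s + 1) 1]
      exact m_mono _ _ fun x => ind_le (by simp [lf, eq_comm])
    have h3 : (ind fun x => x 0 ≠ x 1) ∘ lf false 0 = fun _ => 0 := by
      rw [ind_comp, ← ind_false]; exact ind_congr fun x => by simp [lf]
    have h4 : (ind fun x => x 0 ≠ x 1) ∘ lf false 1 = ind fun x => x 0 ≠ x 1 := by
      rw [ind_comp]; exact ind_congr fun x => by simp [lf]
    simp only [m, h3, h4, m_zero]
    have a1 := ih (s + 1)
    have a2 := eps_anti s
    have a3 := eps_pos s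
    have a4 := eps_le s
    have a5 := m_nonneg L (s + 1) (ind_nonneg fun x => x 0 ≠ x 1)
    nlinarith

def Bk (k : ℕ) (x : X) : Prop := ∃ i : ℤ, 0 ≤ i ∧ i ≤ 2 ^ k ∧ x i ≠ x (i + 2 ^ k)

theorem m_B (k : ℕ) : ∀ L s, m L s (ind (Bk k))
    ≤ (∏ j ∈ range k, (1 + eps (s + j))) * (8 * eps (s + k)) := by
  induction k with
  | zero =>
    intro L s
    have h1 : m L s (ind (Bk 0)) ≤ m L s (fun x => ind (fun x => x 0 ≠ x 1) x +
        ((ind fun x => x 0 ≠ x 1) ∘ sh 1) x) := by
      refine m_mono _ _ fun x => ?_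
      by_cases h : Bk 0 x
      · obtain ⟨i, h0, h1, h2⟩ := h
        have : i = 0 ∨ i = 1 := by omega
        rcases this with rfl | rfl
        · exact le_add_of_le_of_nonneg (ind_le fun _ => by simpa using h2) (ind_nonneg _ _)
        · exact le_add_of_nonneg_of_le (ind_nonneg _ _) (ind_le fun _ => by simpa [sh] using h2)
      · have : ind (Bk 0) x = 0 := by simp [ind, h]
        rw [this]
        exact add_nonneg (ind_nonneg _ _) (ind_nonneg _ _)
    rw [m_add, m_sh] at h1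
    have := m_D L s
    simp
    linarith
  | succ k ih =>
    intro L s
    cases L with
    | zero =>
      have : m 0 s (ind (Bk (k + 1))) = 0 := by simp [m, ind, Bk]
      rw [this]
      have := eps_pos (s + (k + 1))
      exact mul_nonneg (prod_nonneg fun j _ => by linarith [eps_pos (s + j)]) (by linarith)
    | succ L =>
      have h : ∀ (b : Bool) (r : ℤ), r = 0 ∨ r = 1 → m L (s + 1) (ind (Bk (k + 1)) ∘ lf b r)
          ≤ (∏ j ∈ range k, (1 + eps (s + 1 + j))) * (8 * eps (s + 1 + k)) := by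
        intro b r hr
        refine le_trans (m_mono _ _ fun y => ind_le ?_) (ih L (s + 1))
        rintro ⟨i, h0, h1, h2⟩
        rw [pow_succ] at h1 h2
        refine ⟨(i + r) / 2, by omega, by omega, fun h3 => h2 ?_⟩
        have e1 : (i + 2 ^ k * 2 + r) % 2 = (i + r) % 2 := by omega
        have e2 : (i + 2 ^ k * 2 + r) / 2 = (i + r) / 2 + 2 ^ k := by omega
        simp only [lf, e1, e2, h3]
      simp only [m]
      have a3 := eps_pos s
      have a4 : 0 ≤ (1 - eps s) / 2 := by linarith [eps_le s]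
      rw [prod_range_succ']
      have e : ∀ j, s + (j + 1) = s + 1 + j := fun j => by omega
      rw [prod_congr rfl fun j _ => by rw [e j], e k, add_zero]
      set C := (∏ j ∈ range k, (1 + eps (s + 1 + j))) * (8 * eps (s + 1 + k)) with hC
      calc _ ≤ eps s * (C + C) + (1 - eps s) / 2 * (C + C) := by
            gcongr <;> apply h <;> simp
        _ = _ := by rw [hC]; ring

theorem prod_up (k : ℕ) : (∏ j ∈ range k, (1 + eps j)) ^ 2 ≤ k + 1 := by
  induction k with
  | zero => simp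
  | succ k ih =>
    rw [prod_range_succ, mul_pow]
    have hk : (0 : ℝ) ≤ k := Nat.cast_nonneg k
    have h : (1 + eps k) ^ 2 * (k + 1) ≤ k + 2 := by
      unfold eps
      rw [← le_div_iff₀ (by positivity)]
      have : (1 + 1 / (2 * (k : ℝ) + 4)) = (2 * k + 5) / (2 * k + 4) := by field_simp; ring
      rw [this, div_pow, div_le_div_iff₀ (by positivity) (by positivity)]
      nlinarith [mul_nonneg hk hk, mul_nonneg hk (mul_nonneg hk hk)]
    push_cast
    nlinarith [mul_le_mul_of_nonneg_right ih (sq_nonneg (1 + eps k))]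

theorem tend_B : Tendsto (fun k => (∏ j ∈ range k, (1 + eps j)) * (8 * eps k)) atTop (𝓝 0) := by
  have h1 : Tendsto (fun k : ℕ => √(16 * (1 / ((k : ℝ) + 1)))) atTop (𝓝 (√(16 * 0))) :=
    (tendsto_one_div_add_atTop_nhds_zero_nat.const_mul 16).sqrt
  simp only [mul_zero, Real.sqrt_zero] at h1
  refine squeeze_zero (fun k => mul_nonneg (prod_nonneg fun j _ => by linarith [eps_pos j])
    (by linarith [eps_pos k])) (fun k => Real.le_sqrt_of_sq_le ?_) h1
  rw [mul_pow]
  have hk : (0 : ℝ) ≤ k := Nat.cast_nonneg k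
  have h2 : (8 * eps k) ^ 2 ≤ 16 * (1 / ((k : ℝ) + 1)) ^ 2 := by
    have : eps k ≤ 1 / 2 * (1 / ((k : ℝ) + 1)) := by
      unfold eps
      rw [div_mul_div_comm, one_mul]
      gcongr
      linarith
    have h3 := eps_pos k
    nlinarith
  calc _ ≤ ((k : ℝ) + 1) * (16 * (1 / ((k : ℝ) + 1)) ^ 2) :=
        mul_le_mul (prod_up k) h2 (sq_nonneg _) (by positivity)
    _ = _ := by field_simp

noncomputable def rho (L s : ℕ) (d : ℤ) : ℝ := m L s (ind fun x => x 0 ≠ 0 ∧ x d ≠ 0)

theorem rho_nonneg (L s : ℕ) (d : ℤ) : 0 ≤ rho L s d := m_nonneg _ _ (ind_nonneg _)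

theorem rho_le (L s : ℕ) (d : ℤ) : rho L s d ≤ 1 := by
  rw [← m_one L s 0]
  exact m_mono _ _ fun x => ind_le fun h => h.1

theorem rho_succ (L s : ℕ) (d : ℤ) : rho (L + 1) s d =
    eps s * (if d % 2 = 1 then 0 else rho L (s + 1) (d / 2)) +
      (1 - eps s) / 2 * (rho L (s + 1) (d / 2) + rho L (s + 1) ((d + 1) / 2)) := by
  have h1 : (ind fun x => x 0 ≠ 0 ∧ x d ≠ 0) ∘ lf true 1 = fun _ => 0 := by
    rw [ind_comp, ← ind_false]; exact ind_congr fun x => by simp [lf]
  have h2 : m L (s + 1) ((ind fun x => x 0 ≠ 0 ∧ x d ≠ 0) ∘ lf true 0)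
      = if d % 2 = 1 then 0 else rho L (s + 1) (d / 2) := by
    split_ifs with h
    · rw [ind_comp, ← m_zero L (s + 1), ← ind_false]
      congr 1
      exact ind_congr fun x => by simp [lf, h]
    · rw [ind_comp, rho]
      congr 1
      exact ind_congr fun x => by simp [lf, h]
  have h3 : (ind fun x => x 0 ≠ 0 ∧ x d ≠ 0) ∘ lf false 0 = ind fun x => x 0 ≠ 0 ∧ x (d / 2) ≠ 0 := by
    rw [ind_comp]; exact ind_congr fun x => by simp [lf]
  have h4 : (ind fun x => x 0 ≠ 0 ∧ x d ≠ 0) ∘ lf false 1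
      = ind fun x => x 0 ≠ 0 ∧ x ((d + 1) / 2) ≠ 0 := by
    rw [ind_comp]; exact ind_congr fun x => by simp [lf]
  rw [rho]
  simp only [m, h1, h2, h3, h4, m_zero, add_zero]
  rfl

theorem sum_two (f : ℕ → ℝ) (N : ℕ) :
    ∑ n ∈ range (2 * N), f n = ∑ n ∈ range N, (f (2 * n) + f (2 * n + 1)) := by
  induction N with
  | zero => simp
  | succ N ih => rw [mul_add, mul_one, sum_range_succ, sum_range_succ, ih, sum_range_succ]; ring

theorem rho_win (k : ℕ) : ∀ (L s : ℕ) (u : ℤ), k ≤ L →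
    ∑ n ∈ range (2 ^ k), rho L s (u + n) ≤ ∏ j ∈ range k, (2 - eps (s + j)) := by
  induction k with
  | zero => intro L s u _; simpa using rho_le L s u
  | succ k ih =>
    intro L s u hL
    obtain ⟨L, rfl⟩ : ∃ L', L = L' + 1 := ⟨L - 1, by omega⟩
    rw [pow_succ', sum_two]
    have key : ∀ n : ℕ, rho (L + 1) s (u + (2 * n : ℕ)) + rho (L + 1) s (u + (2 * n + 1 : ℕ))
        = eps s * rho L (s + 1) ((u + 1) / 2 + n) + (1 - eps s) / 2 *
          (rho L (s + 1) (u / 2 + n) + 2 * rho L (s + 1) ((u + 1) / 2 + n)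
            + rho L (s + 1) (u / 2 + 1 + n)) := by
      intro n
      rw [rho_succ, rho_succ]
      push_cast
      have e1 : (u + 2 * (n : ℤ)) / 2 = u / 2 + n := by omega
      have e2 : (u + 2 * (n : ℤ) + 1) / 2 = (u + 1) / 2 + n := by omega
      have e3 : (u + (2 * (n : ℤ) + 1)) / 2 = (u + 1) / 2 + n := by omega
      have e4 : (u + (2 * (n : ℤ) + 1) + 1) / 2 = u / 2 + 1 + n := by omega
      rw [e1, e2, e3, e4]
      by_cases hu : u % 2 = 1
      · rw [if_pos (by omega), if_neg (by omega)]; ring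
      · have e5 : u / 2 = (u + 1) / 2 := by omega
        rw [if_neg (by omega), if_pos (by omega), e5]; ring
    simp only [key]
    rw [sum_add_distrib, ← mul_sum, ← mul_sum, sum_add_distrib, sum_add_distrib, ← mul_sum,
      prod_range_succ']
    have e : ∀ j, s + (j + 1) = s + 1 + j := fun j => by omega
    rw [prod_congr rfl fun j _ => by rw [e j], add_zero]
    have a3 := eps_pos s
    have a4 : 0 ≤ (1 - eps s) / 2 := by linarith [eps_le s]
    set C := ∏ j ∈ range k, (2 - eps (s + 1 + j))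
    calc _ ≤ eps s * C + (1 - eps s) / 2 * (C + 2 * C + C) := by
          gcongr <;> exact ih L (s + 1) _ (by omega)
      _ = _ := by ring

noncomputable def Pk (k : ℕ) : ℝ := ∏ j ∈ range k, (1 - eps j / 2)

theorem Pk_nonneg (k : ℕ) : 0 ≤ Pk k := prod_nonneg fun j _ => by linarith [eps_le j]

theorem rho_sum (k L : ℕ) (hL : k ≤ L) (u : ℤ) (N : ℕ) :
    ∑ n ∈ range N, rho L 0 (u + n) ≤ (N + 2 ^ k) * Pk k := by
  have h0 : ∀ u : ℤ, ∑ n ∈ range (2 ^ k), rho L 0 (u + n) ≤ 2 ^ k * Pk k := fun u => by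
    refine (rho_win k L 0 u hL).trans (le_of_eq ?_)
    rw [Pk, ← card_range k, ← prod_const, card_range, ← prod_mul_distrib]
    exact prod_congr rfl fun j _ => by rw [zero_add]; ring
  have h1 : ∀ q : ℕ, ∑ n ∈ range (q * 2 ^ k), rho L 0 (u + n) ≤ q * (2 ^ k * Pk k) := by
    intro q
    induction q with
    | zero => simp
    | succ q ih =>
      rw [add_mul, one_mul, sum_range_add]
      have := h0 (u + (q * 2 ^ k : ℕ))
      simp only [Nat.cast_add, ← add_assoc]
      push_cast at this ih ⊢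
      linarith
  have h2 : N ≤ (N / 2 ^ k + 1) * 2 ^ k := by
    rw [mul_comm]; exact (Nat.lt_mul_div_succ N (by positivity)).le
  have h3 : (N / 2 ^ k) * 2 ^ k ≤ N := Nat.div_mul_le_self _ _
  have h4 : ((N / 2 ^ k : ℕ) : ℝ) * 2 ^ k ≤ N := by exact_mod_cast h3
  refine (sum_le_sum_of_subset_of_nonneg (range_subset_range.2 h2)
    fun _ _ _ => rho_nonneg _ _ _).trans ((h1 _).trans ?_)
  rw [← mul_assoc]
  refine mul_le_mul_of_nonneg_right ?_ (Pk_nonneg k)
  rw [Nat.cast_add, Nat.cast_one]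
  linarith

theorem tend_P : Tendsto Pk atTop (𝓝 0) := by
  have h0 : ∀ k, Pk k ^ 4 * (k + 2) ≤ 2 := by
    intro k
    induction k with
    | zero => simp [Pk]
    | succ k ih =>
      have hk : (0 : ℝ) ≤ k := Nat.cast_nonneg k
      have h : (1 - eps k / 2) ^ 4 * (k + 3) ≤ k + 2 := by
        unfold eps
        have : (1 - 1 / (2 * (k : ℝ) + 4) / 2) = (4 * k + 7) / (4 * k + 8) := by field_simp; ring
        rw [this, div_pow, div_mul_eq_mul_div, div_le_iff₀ (by positivity)]
        have := mul_nonneg hk hk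
        have := mul_nonneg hk this
        nlinarith
      rw [Pk, prod_range_succ, mul_pow, ← Pk]
      push_cast
      have h4 : 0 ≤ Pk k ^ 4 := by positivity
      nlinarith [mul_le_mul_of_nonneg_left h h4]
  have h1 : Tendsto (fun k : ℕ => √(√(2 * (1 / ((k : ℝ) + 1))))) atTop (𝓝 (√(√(2 * 0)))) :=
    (tendsto_one_div_add_atTop_nhds_zero_nat.const_mul 2).sqrt.sqrt
  simp only [mul_zero, Real.sqrt_zero] at h1
  refine squeeze_zero Pk_nonneg (fun k => Real.le_sqrt_of_sq_le (Real.le_sqrt_of_sq_le ?_)) h1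
  have hk : (0 : ℝ) ≤ k := Nat.cast_nonneg k
  rw [mul_one_div, le_div_iff₀ (by positivity)]
  have h4 : 0 ≤ Pk k ^ 4 := by positivity
  have := h0 k
  nlinarith

theorem F_pow (k : ℕ) : ∀ (x : X) (i : ℤ), F^[2 ^ k] x i = x i + x (i + 2 ^ k) := by
  induction k with
  | zero => intro x i; simp [F]
  | succ k ih =>
    intro x i
    rw [pow_succ, mul_two, Function.iterate_add_apply, ih, ih, ih]
    have e : i + 2 ^ k + 2 ^ k = i + 2 ^ (k + 1) := by ring
    rw [e, add_assoc, ← add_assoc (x (i + 2 ^ k)), CharTwo.add_self_eq_zero, zero_add]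

theorem F_loc (n : ℕ) : ∀ (y : X) (i : ℤ), (∀ j, i ≤ j → j ≤ i + n → y j = 0) → F^[n] y i = 0 := by
  induction n with
  | zero => intro y i h; exact h i le_rfl (by simp)
  | succ n ih =>
    intro y i h
    rw [Function.iterate_succ_apply]
    refine ih _ i fun j h1 h2 => ?_
    push_cast at h
    rw [F, h j h1 (by omega), h (j + 1) (by omega) (by omega), add_zero]

theorem F_B (n : ℕ) (hn : n ≠ 0) (x : X) (h : F^[n] x 0 ≠ 0) : Bk (Nat.log 2 n) x := by
  by_contra h1
  apply h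
  have h2 : 2 ^ Nat.log 2 n ≤ n := Nat.pow_log_le_self 2 hn
  have h3 : n < 2 ^ (Nat.log 2 n + 1) := Nat.lt_pow_succ_log_self (by norm_num) n
  set k := Nat.log 2 n
  obtain ⟨r, hr⟩ : ∃ r, n = r + 2 ^ k := ⟨n - 2 ^ k, by omega⟩
  rw [hr, Function.iterate_add_apply]
  refine F_loc r _ 0 fun j h4 h5 => ?_
  have h6 : r ≤ 2 ^ k := by rw [pow_succ] at h3; omega
  have h7 : (r : ℤ) ≤ 2 ^ k := by exact_mod_cast h6
  rw [F_pow]
  have : x j = x (j + 2 ^ k) := by
    by_contra h8
    exact h1 ⟨j, h4, by omega, h8⟩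
  rw [← this, CharTwo.add_self_eq_zero]

end Pool.Agent.H69.Xor
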