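import Mathlib
import Pool.Agent.H69.Xor1

set_option autoImplicit false

namespace Pool.Agent.H69.Xor

open Finset Filter Topology MeasureTheory

structure Chr (c : X → ℝ) : Prop where
  mul : ∀ x y, c (x + y) = c x * c y
  val : ∀ x, c x = 1 ∨ c x = -1
  cont : Continuous c

theorem Chr.zero {c : X → ℝ} (h : Chr c) : c 0 = 1 := by
  have := h.mul 0 0
  rw [add_zero] at this
  rcases h.val 0 with h1 | h1
  · exact h1
  · rw [h1] at this; norm_num at this

theorem Chr.times {c c' : X → ℝ} (h : Chr c) (h' : Chr c') : Chr (fun x => c x * c' x) := by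
  refine ⟨fun x y => by rw [h.mul, h'.mul]; ring, fun x => ?_, h.cont.mul h'.cont⟩
  rcases h.val x with h1 | h1 <;> rcases h'.val x with h2 | h2 <;> simp [h1, h2]

theorem Chr.comp {c : X → ℝ} (h : Chr c) {f : X → X} (hf : Continuous f)
    (ha : ∀ x y, f (x + y) = f x + f y) : Chr (c ∘ f) :=
  ⟨fun x y => by simp [ha, h.mul], fun x => h.val _, h.cont.comp hf⟩

theorem integ {f : X → ℝ} (hf : Continuous f) (μ : Measure X) [IsFiniteMeasure μ] :
    Integrable f μ :=
  (BoundedContinuousFunction.mkOfCompact ⟨f, hf⟩).integrable μ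

def CP (M : (X → ℝ) → ℝ) : Prop :=
  ∃ ν : Measure X, IsProbabilityMeasure ν ∧
    ∀ c, Chr c → ∫ x, c x ∂ν = Real.exp (-M fun x => 1 - c x)

theorem CP.add {M M' : (X → ℝ) → ℝ} (h : CP M) (h' : CP M') : CP fun Φ => M Φ + M' Φ := by
  obtain ⟨ν, h1, h2⟩ := h
  obtain ⟨ν', h1', h2'⟩ := h'
  have hm : Measurable fun p : X × X => p.1 + p.2 := measurable_fst.add measurable_snd
  refine ⟨(ν.prod ν').map fun p => p.1 + p.2, Measure.isProbabilityMeasure_map hm.aemeasurable,
    fun c hc => ?_⟩
  rw [integral_map hm.aemeasurable hc.cont.aestronglyMeasurable]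
  simp only [hc.mul]
  rw [integral_prod_mul, h2 c hc, h2' c hc, ← Real.exp_add]
  congr 1
  ring

theorem CP.map {M : (X → ℝ) → ℝ} (h : CP M) {f : X → X} (hf : Continuous f)
    (ha : ∀ x y, f (x + y) = f x + f y) : CP fun Φ => M (Φ ∘ f) := by
  obtain ⟨ν, h1, h2⟩ := h
  refine ⟨ν.map f, Measure.isProbabilityMeasure_map hf.measurable.aemeasurable, fun c hc => ?_⟩
  rw [integral_map hf.measurable.aemeasurable hc.cont.aestronglyMeasurable]
  exact h2 _ (hc.comp hf ha)

theorem CP_atom (t : ℝ) (ht : 0 ≤ t) (y : X) : CP fun Φ => t * Φ y := by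
  set p := (1 - Real.exp (-(2 * t))) / 2 with hp
  have h0 : Real.exp (-(2 * t)) ≤ 1 := Real.exp_le_one_iff.2 (by linarith)
  have h1 := Real.exp_pos (-(2 * t))
  have hp0 : 0 ≤ p := by linarith
  have hp1 : 0 ≤ 1 - p := by linarith
  refine ⟨ENNReal.ofReal (1 - p) • Measure.dirac 0 + ENNReal.ofReal p • Measure.dirac y, ⟨?_⟩,
    fun c hc => ?_⟩
  · simp only [Measure.coe_add, Measure.coe_smul, Pi.add_apply, Pi.smul_apply, measure_univ,
      smul_eq_mul, mul_one]
    rw [← ENNReal.ofReal_add hp1 hp0]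
    simp
  · rw [integral_add_measure ((integ hc.cont _).smul_measure ENNReal.ofReal_ne_top)
      ((integ hc.cont _).smul_measure ENNReal.ofReal_ne_top), integral_smul_measure,
      integral_smul_measure, integral_dirac, integral_dirac, ENNReal.toReal_ofReal hp1,
      ENNReal.toReal_ofReal hp0, hc.zero]
    beta_reduce
    rcases hc.val y with h2 | h2 <;> rw [h2]
    · simp
    · have : t * (1 - -1) = 2 * t := by ring
      rw [this]
      simp only [smul_eq_mul]
      linarith

theorem lf_cont (b : Bool) (r : ℤ) : Continuous (lf b r) := by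
  refine continuous_pi fun i => ?_
  unfold lf
  split_ifs
  · exact continuous_const
  · exact continuous_apply _

theorem lf_add (b : Bool) (r : ℤ) (x y : X) : lf b r (x + y) = lf b r x + lf b r y := by
  funext i
  simp only [lf, Pi.add_apply]
  split_ifs <;> simp

theorem CP_m (L : ℕ) : ∀ (s : ℕ) (t : ℝ), 0 ≤ t → CP fun Φ => t * m L s Φ := by
  induction L with
  | zero => intro s t ht; exact CP_atom t ht _
  | succ L ih =>
    intro s t ht
    have a1 : 0 ≤ t * eps s := mul_nonneg ht (eps_pos s).le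
    have a2 : 0 ≤ t * ((1 - eps s) / 2) := mul_nonneg ht (by linarith [eps_le s])
    have := (((ih (s + 1) _ a1).map (lf_cont true 0) (lf_add true 0)).add
      ((ih (s + 1) _ a1).map (lf_cont true 1) (lf_add true 1))).add
      (((ih (s + 1) _ a2).map (lf_cont false 0) (lf_add false 0)).add
      ((ih (s + 1) _ a2).map (lf_cont false 1) (lf_add false 1)))
    convert this using 2
    simp only [m]
    ring

theorem exists_mu : ∃ (μ : Measure X) (U : Filter ℕ), IsProbabilityMeasure μ ∧ U.NeBot ∧
    U ≤ atTop ∧ ∀ c, Chr c →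
      Tendsto (fun L => Real.exp (-m L 0 fun x => 1 - c x)) U (𝓝 (∫ x, c x ∂μ)) := by
  choose ν h1 h2 using fun L => CP_m L 0 1 zero_le_one
  let ν' : ℕ → ProbabilityMeasure X := fun L => ⟨ν L, h1 L⟩
  obtain ⟨μ, -, hμ⟩ := isCompact_univ.ultrafilter_le_nhds ((hyperfilter ℕ).map ν') (by simp)
  refine ⟨μ, hyperfilter ℕ, μ.2, inferInstance,
    hyperfilter_le_cofinite.trans Nat.cofinite_eq_atTop.le, fun c hc => ?_⟩
  have h3 := ProbabilityMeasure.tendsto_iff_forall_integral_tendsto.1
    (show Tendsto ν' (hyperfilter ℕ) (𝓝 μ) from hμ)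
    (BoundedContinuousFunction.mkOfCompact ⟨c, hc.cont⟩)
  refine h3.congr fun L => ?_
  have := h2 L c hc
  simp only [one_mul] at this
  exact this

noncomputable def chi (i : ℤ) (x : X) : ℝ := if x i = 0 then 1 else -1

theorem chi_chr (i : ℤ) : Chr (chi i) := by
  refine ⟨fun x y => ?_, fun x => ?_, ?_⟩
  · have : ∀ a b : ZMod 2, (a + b = 0 ↔ (a = 0 ↔ b = 0)) := by decide
    by_cases ha : x i = 0 <;> by_cases hb : y i = 0 <;> simp [chi, this, ha, hb]
  · unfold chi; split_ifs <;> simp
  · exact (continuous_of_discreteTopology (f := fun a : ZMod 2 => if a = 0 then (1 : ℝ) else -1)).comp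
      (continuous_apply i)

def Loc (c : X → ℝ) (S : Finset ℤ) : Prop := ∀ x : X, (∀ i ∈ S, x i = 0) → c x = 1

def V : Submodule ℝ (X → ℝ) := Submodule.span ℝ {c | Chr c ∧ ∃ S, Loc c S}

theorem V_cont {f : X → ℝ} (hf : f ∈ V) : Continuous f := by
  induction hf using Submodule.span_induction with
  | mem c hc => exact hc.1.cont
  | zero => exact continuous_const
  | add f g _ _ h1 h2 => exact h1.add h2
  | smul a f _ h => exact h.const_smul a

theorem V_chi (i : ℤ) {f : X → ℝ} (hf : f ∈ V) : chi i * f ∈ V := by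
  induction hf using Submodule.span_induction with
  | mem c hc =>
    obtain ⟨h1, S, h2⟩ := hc
    refine Submodule.subset_span ⟨(chi_chr i).times h1, insert i S, fun x hx => ?_⟩
    simp [chi, hx i (mem_insert_self _ _), h2 x fun j hj => hx j (mem_insert_of_mem hj)]
  | zero => simp
  | add f g _ _ h1 h2 => rw [mul_add]; exact V.add_mem h1 h2
  | smul a f _ h => rw [mul_smul_comm]; exact V.smul_mem a h

theorem mem_V (S : Finset ℤ) : ∀ f : X → ℝ, (∀ x y : X, (∀ i ∈ S, x i = y i) → f x = f y) →
    f ∈ V := by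
  induction S using Finset.induction_on with
  | empty =>
    intro f hf
    have : f = f 0 • fun _ => (1 : ℝ) := by funext x; simp [hf x 0]
    rw [this]
    exact V.smul_mem _ (Submodule.subset_span ⟨⟨by simp, by simp, continuous_const⟩, ∅,
      fun _ _ => rfl⟩)
  | insert i S hi ih =>
    intro f hf
    have h : ∀ a : ZMod 2, (fun x => f (Function.update x i a)) ∈ V := fun a => by
      refine ih _ fun x y hxy => hf _ _ fun j hj => ?_
      by_cases h1 : j = i
      · subst h1; simp
      · rw [Function.update_of_ne h1, Function.update_of_ne h1]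
        exact hxy j ((mem_insert.1 hj).resolve_left h1)
    have e : f = (1 / 2 : ℝ) • ((fun x => f (Function.update x i 0)) +
        chi i * (fun x => f (Function.update x i 0))) +
        (1 / 2 : ℝ) • ((fun x => f (Function.update x i 1)) -
        chi i * (fun x => f (Function.update x i 1))) := by
      funext x
      have : ∀ a : ZMod 2, a = 0 ∨ a = 1 := by decide
      rcases this (x i) with h1 | h1
      · have h2 : Function.update x i 0 = x := by rw [← h1]; simp
        simp [chi, h1, h2]; ring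
      · have h2 : Function.update x i 1 = x := by rw [← h1]; simp
        simp [chi, h1, h2]; ring
    rw [e]
    exact V.add_mem (V.smul_mem _ (V.add_mem (h 0) (V_chi i (h 0))))
      (V.smul_mem _ (V.sub_mem (h 1) (V_chi i (h 1))))

theorem cyl_V {A : Set X} (hA : A ∈ measurableCylinders fun _ : ℤ => ZMod 2) :
    A.indicator (1 : X → ℝ) ∈ V := by
  obtain ⟨S, T, _, rfl⟩ := (mem_measurableCylinders _).1 hA
  refine mem_V S _ fun x y h => ?_
  have : S.restrict x = S.restrict y := funext fun i => h i i.2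
  by_cases hx : x ∈ cylinder S T
  · have hy : y ∈ cylinder S T := by rwa [mem_cylinder, ← this]
    simp [hx, hy]
  · have hy : y ∉ cylinder S T := by rwa [mem_cylinder, ← this]
    simp [hx, hy]

theorem sh_cont (k : ℤ) : Continuous (sh k) := continuous_pi fun _ => continuous_apply _

theorem iter_shift (n : ℕ) : shift^[n] = sh n := by
  induction n with
  | zero => funext x i; simp [sh]
  | succ n ih =>
    funext x i
    rw [Function.iterate_succ_apply', ih]
    simp only [shift, sh]
    congr 1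
    push_cast
    ring

theorem F_cont : Continuous F :=
  continuous_pi fun _ => (continuous_apply _).add (continuous_apply _)

theorem F_add (n : ℕ) : ∀ x y : X, F^[n] (x + y) = F^[n] x + F^[n] y := by
  induction n with
  | zero => intro x y; rfl
  | succ n ih =>
    intro x y
    have : F (x + y) = F x + F y := by funext i; simp only [F, Pi.add_apply]; ring
    rw [Function.iterate_succ_apply, this, ih]; rfl

theorem F_sh (n : ℕ) (k : ℤ) : ∀ x : X, F^[n] (sh k x) = sh k (F^[n] x) := by
  induction n with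
  | zero => intro x; rfl
  | succ n ih =>
    intro x
    have : F (sh k x) = sh k (F x) := by funext i; simp only [F, sh]; congr 2; ring
    rw [Function.iterate_succ_apply, this, ih]; rfl

theorem exp_diff {a b : ℝ} (ha : 0 ≤ a) (hab : a ≤ b) :
    |Real.exp (-a) - Real.exp (-b)| ≤ b - a := by
  have h1 : Real.exp (-b) ≤ Real.exp (-a) := Real.exp_le_exp.2 (by linarith)
  rw [abs_of_nonneg (by linarith)]
  have h2 : Real.exp (-b) = Real.exp (-a) * Real.exp (a - b) := by
    rw [← Real.exp_add]; congr 1; ring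
  have h3 := Real.add_one_le_exp (a - b)
  have h4 : Real.exp (-a) ≤ 1 := Real.exp_le_one_iff.2 (by linarith)
  have h5 := Real.exp_pos (-a)
  nlinarith

theorem corr_le {c c' : X → ℝ} (h : Chr c) (h' : Chr c') {S T : Finset ℤ} (hS : Loc c S)
    (hT : Loc c' T) (L : ℕ) (n : ℤ) :
    |Real.exp (-m L 0 fun x => 1 - c x * c' (sh n x)) -
      Real.exp (-m L 0 fun x => 1 - c x) * Real.exp (-m L 0 fun x => 1 - c' x)|
      ≤ 4 * ∑ i ∈ S, ∑ j ∈ T, rho L 0 (j - i + n) := by
  have e1 : (m L 0 fun x => 1 - c x) + (m L 0 fun x => 1 - c' x) =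
      (m L 0 fun x => 1 - c x * c' (sh n x)) + m L 0 fun x => (1 - c x) * (1 - c' (sh n x)) := by
    rw [← m_sh L 0 n fun x => 1 - c' x, ← m_add, ← m_add]
    congr 1
    funext x
    simp only [Function.comp]
    ring
  have e2 : (m L 0 fun x => (1 - c x) * (1 - c' (sh n x)))
      ≤ 4 * ∑ i ∈ S, ∑ j ∈ T, rho L 0 (j - i + n) := by
    have : ∀ i j : ℤ, rho L 0 (j - i + n) = m L 0 (ind fun x => x i ≠ 0 ∧ x (j + n) ≠ 0) := by
      intro i j
      rw [rho, ← m_sh L 0 i, ind_comp]
      simp only [sh, zero_add]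
      have : j - i + n + i = j + n := by ring
      rw [this]
    simp only [this]
    simp only [← m_sum]
    rw [← m_smul]
    refine m_mono _ _ fun x => ?_
    have h0 : ∀ i, 0 ≤ ∑ j ∈ T, ind (fun x => x i ≠ 0 ∧ x (j + n) ≠ 0) x := fun i =>
      sum_nonneg fun j _ => ind_nonneg _ _
    rcases h.val x with h1 | h1
    · rw [h1]; simpa using sum_nonneg fun i _ => h0 i
    rcases h'.val (sh n x) with h2 | h2
    · rw [h2]; simpa using sum_nonneg fun i _ => h0 i
    obtain ⟨i, hi, h3⟩ : ∃ i ∈ S, x i ≠ 0 := by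
      by_contra h4
      push Not at h4
      rw [hS x h4] at h1; norm_num at h1
    obtain ⟨j, hj, h4⟩ : ∃ j ∈ T, sh n x j ≠ 0 := by
      by_contra h4
      push Not at h4
      rw [hT _ h4] at h2; norm_num at h2
    have h5 := single_le_sum (fun i (_ : i ∈ S) => h0 i) hi
    have h6 := single_le_sum (fun j (_ : j ∈ T) =>
      ind_nonneg (fun x => x i ≠ 0 ∧ x (j + n) ≠ 0) x) hj
    have h7 : ind (fun x => x i ≠ 0 ∧ x (j + n) ≠ 0) x = 1 := if_pos ⟨h3, h4⟩
    rw [h1, h2]
    linarith
  have e3 : 0 ≤ m L 0 fun x => (1 - c x) * (1 - c' (sh n x)) := m_nonneg _ _ fun x => by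
    rcases h.val x with h1 | h1 <;> rcases h'.val (sh n x) with h2 | h2 <;> rw [h1, h2] <;> norm_num
  have e4 : 0 ≤ m L 0 fun x => 1 - c x * c' (sh n x) := m_nonneg _ _ fun x => by
    rcases h.val x with h1 | h1 <;> rcases h'.val (sh n x) with h2 | h2 <;> rw [h1, h2] <;> norm_num
  rw [← Real.exp_add, ← neg_add, e1]
  refine (exp_diff e4 (by linarith)).trans ?_
  linarith

end Pool.Agent.H69.Xor
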