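import Mathlib
import Pool.Agent.H69.Xor2

set_option autoImplicit false

namespace Pool.Agent.H69.Xor

open Finset Filter Topology MeasureTheory
open scoped symmDiff

structure Good (μ : Measure X) (U : Filter ℕ) : Prop where
  ne : U.NeBot
  le : U ≤ atTop
  lim : ∀ c, Chr c → Tendsto (fun L => Real.exp (-m L 0 fun x => 1 - c x)) U (𝓝 (∫ x, c x ∂μ))

variable {μ : Measure X} [IsProbabilityMeasure μ] {U : Filter ℕ}

theorem sh_add (k : ℤ) (x y : X) : sh k (x + y) = sh k x + sh k y := rfl

theorem inv_V (h : Good μ U) (k : ℤ) {f : X → ℝ} (hf : f ∈ V) :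
    ∫ x, f (sh k x) ∂μ = ∫ x, f x ∂μ := by
  induction hf using Submodule.span_induction with
  | mem c hc =>
    haveI := h.ne
    refine tendsto_nhds_unique (h.lim _ (hc.1.comp (sh_cont k) (sh_add k))) ?_
    refine (h.lim c hc.1).congr fun L => ?_
    rw [← m_sh L 0 k]
    rfl
  | zero => simp
  | add f g hf hg h1 h2 =>
    simp only [Pi.add_apply]
    rw [integral_add (f := fun x => f (sh k x)) (g := fun x => g (sh k x))
      (integ ((V_cont hf).comp (sh_cont k)) μ)
      (integ ((V_cont hg).comp (sh_cont k)) μ), integral_add (integ (V_cont hf) μ)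
      (integ (V_cont hg) μ), h1, h2]
  | smul a f _ h1 =>
    simp only [Pi.smul_apply, smul_eq_mul]
    rw [integral_const_mul, integral_const_mul, h1]

theorem map_sh (h : Good μ U) (k : ℤ) : μ.map (sh k) = μ := by
  have hm := (sh_cont k).measurable
  haveI : IsProbabilityMeasure (μ.map (sh k)) := Measure.isProbabilityMeasure_map hm.aemeasurable
  refine ext_of_generate_finite _ generateFrom_measurableCylinders.symm
    isPiSystem_measurableCylinders (fun A hA => ?_) (by simp)
  have hA' := MeasurableSet.of_mem_measurableCylinders hA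
  have h1 := inv_V h k (cyl_V hA)
  rw [← integral_map hm.aemeasurable (V_cont (cyl_V hA)).aestronglyMeasurable,
    integral_indicator_one hA', integral_indicator_one hA'] at h1
  exact (ENNReal.toReal_eq_toReal_iff' (measure_ne_top _ _) (measure_ne_top _ _)).1 h1

theorem pre_sh (h : Good μ U) (k : ℤ) {A : Set X} (hA : MeasurableSet A) :
    μ.real (sh k ⁻¹' A) = μ.real A := by
  rw [← map_measureReal_apply (sh_cont k).measurable hA, map_sh h]

def Ces (u : ℕ → ℝ) : Prop :=
  Tendsto (fun N : ℕ => (1 / (N : ℝ)) * ∑ n ∈ range N, |u n|) atTop (𝓝 0)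

theorem Ces.of_le {u v w : ℕ → ℝ} (a : ℝ) (hv : Ces v) (hw : Ces w)
    (h : ∀ n, |u n| ≤ a * |v n| + |w n|) : Ces u := by
  have := (hv.const_mul a).add hw
  simp only [mul_zero, add_zero] at this
  refine squeeze_zero (fun N => mul_nonneg (by positivity) (sum_nonneg fun _ _ => abs_nonneg _))
    (fun N => ?_) this
  rw [mul_left_comm, ← mul_add, mul_sum _ _ a, ← sum_add_distrib]
  exact mul_le_mul_of_nonneg_left (sum_le_sum fun n _ => h n) (by positivity)

theorem Ces.zero : Ces fun _ => 0 := by simp [Ces]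

theorem Ces.of_eps {u : ℕ → ℝ} (h : ∀ ε > 0, ∃ (C : ℝ),
    ∀ N : ℕ, ∑ n ∈ range N, |u n| ≤ ε * N + C) : Ces u := by
  rw [Ces, Metric.tendsto_atTop]
  intro ε hε
  obtain ⟨C, hC⟩ := h (ε / 2) (by linarith)
  have h1 := Metric.tendsto_atTop.1 (tendsto_const_div_atTop_nhds_zero_nat C) (ε / 2) (by linarith)
  obtain ⟨N0, h1⟩ := h1
  refine ⟨N0 + 1, fun N hN => ?_⟩
  have h2 := h1 N (by omega)
  have hN0 : (0 : ℝ) < N := by exact_mod_cast (show 0 < N by omega)
  rw [Real.dist_eq, sub_zero] at h2 ⊢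
  rw [abs_of_nonneg (mul_nonneg (by positivity) (sum_nonneg fun _ _ => abs_nonneg _))]
  have h3 := (abs_lt.1 h2).2
  calc _ ≤ 1 / (N : ℝ) * (ε / 2 * N + C) := mul_le_mul_of_nonneg_left (hC N) (by positivity)
    _ = ε / 2 + C / N := by field_simp
    _ < ε := by linarith

theorem Ces.approx {u : ℕ → ℝ} (h : ∀ ε > 0, ∃ v, Ces v ∧ ∀ n, |u n| ≤ |v n| + ε) : Ces u := by
  rw [Ces, Metric.tendsto_atTop]
  intro ε hε
  obtain ⟨v, hv, h1⟩ := h (ε / 2) (by linarith)
  obtain ⟨N0, h2⟩ := Metric.tendsto_atTop.1 hv (ε / 2) (by linarith)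
  refine ⟨N0 + 1, fun N hN => ?_⟩
  have h2 := h2 N (by omega)
  have hN0 : (0 : ℝ) < N := by exact_mod_cast (show 0 < N by omega)
  rw [Real.dist_eq, sub_zero] at h2 ⊢
  rw [abs_of_nonneg (mul_nonneg (by positivity) (sum_nonneg fun _ _ => abs_nonneg _))]
  have h3 := (abs_lt.1 h2).2
  calc _ ≤ 1 / (N : ℝ) * ∑ n ∈ range N, (|v n| + ε / 2) :=
        mul_le_mul_of_nonneg_left (sum_le_sum fun n _ => h1 n) (by positivity)
    _ = 1 / (N : ℝ) * ∑ n ∈ range N, |v n| + ε / 2 := by
        rw [sum_add_distrib, sum_const, card_range, nsmul_eq_mul]; field_simp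
    _ < ε := by linarith

noncomputable def cor (μ : Measure X) (f g : X → ℝ) (n : ℕ) : ℝ :=
  ∫ x, f x * g (sh n x) ∂μ - (∫ x, f x ∂μ) * ∫ x, g x ∂μ

theorem wm_chr (h : Good μ U) {c c' : X → ℝ} (hc : Chr c) (hc' : Chr c') {S T : Finset ℤ}
    (hS : Loc c S) (hT : Loc c' T) : Ces (cor μ c c') := by
  haveI := h.ne
  refine Ces.of_eps fun ε hε => ?_
  set K : ℝ := 4 * S.card * T.card with hK
  have hK0 : 0 ≤ K := by positivity
  obtain ⟨k, hk⟩ : ∃ k, K * Pk k ≤ ε := by
    have := (tend_P.const_mul K).eventually (ge_mem_nhds (show K * 0 < ε by simpa using hε))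
    exact this.exists
  refine ⟨K * (2 ^ k * Pk k), fun N => ?_⟩
  have h1 : Tendsto (fun L => ∑ n ∈ range N,
      |Real.exp (-m L 0 fun x => 1 - c x * c' (sh n x)) -
      Real.exp (-m L 0 fun x => 1 - c x) * Real.exp (-m L 0 fun x => 1 - c' x)|) U
      (𝓝 (∑ n ∈ range N, |cor μ c c' n|)) :=
    tendsto_finset_sum _ fun n _ => ((h.lim _ (hc.times (hc'.comp (sh_cont n) (sh_add n)))).sub
      ((h.lim c hc).mul (h.lim c' hc'))).abs
  refine le_of_tendsto h1 ?_
  filter_upwards [h.le (eventually_ge_atTop k)] with L hL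
  refine (sum_le_sum fun (n : ℕ) _ => corr_le hc hc' hS hT L n).trans ?_
  rw [← mul_sum, sum_comm]
  have h2 : ∑ i ∈ S, ∑ n ∈ range N, ∑ j ∈ T, rho L 0 (j - i + n)
      ≤ ∑ _i ∈ S, ∑ _j ∈ T, (N + 2 ^ k) * Pk k := sum_le_sum fun i _ => by
    rw [sum_comm]
    exact sum_le_sum fun j _ => rho_sum k L hL _ N
  simp only [sum_const, nsmul_eq_mul] at h2
  have h3 : K * Pk k * N ≤ ε * N := mul_le_mul_of_nonneg_right hk (Nat.cast_nonneg _)
  have h4 : 4 * (S.card * (T.card * ((N + 2 ^ k) * Pk k))) = K * Pk k * N + K * (2 ^ k * Pk k) := by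
    rw [hK]; ring
  linarith

theorem wm_V (h : Good μ U) {f g : X → ℝ} (hf : f ∈ V) (hg : g ∈ V) : Ces (cor μ f g) := by
  induction hf using Submodule.span_induction with
  | mem c hc =>
    induction hg using Submodule.span_induction with
    | mem c' hc' =>
      obtain ⟨h1, S, hS⟩ := hc
      obtain ⟨h2, T, hT⟩ := hc'
      exact wm_chr h h1 h2 hS hT
    | zero => convert Ces.zero using 2; simp [cor]
    | add g g' hg hg' h1 h2 =>
      refine Ces.of_le 1 h1 h2 fun n => ?_
      have : cor μ c (g + g') n = cor μ c g n + cor μ c g' n := by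
        simp only [cor, Pi.add_apply, mul_add]
        rw [integral_add (f := fun x => c x * g (sh n x)) (g := fun x => c x * g' (sh n x))
          (integ (hc.1.cont.mul ((V_cont hg).comp (sh_cont n))) μ)
          (integ (hc.1.cont.mul ((V_cont hg').comp (sh_cont n))) μ),
          integral_add (integ (V_cont hg) μ) (integ (V_cont hg') μ)]
        ring
      rw [this, one_mul]
      exact abs_add_le _ _
    | smul a g _ h1 =>
      refine Ces.of_le |a| h1 Ces.zero fun n => ?_
      have : cor μ c (a • g) n = a * cor μ c g n := by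
        simp only [cor, Pi.smul_apply, smul_eq_mul, mul_left_comm _ a, integral_const_mul]
        ring
      rw [this, abs_mul]
      simp
  | zero => convert Ces.zero using 2; simp [cor]
  | add f f' hf hf' h1 h2 =>
    refine Ces.of_le 1 h1 h2 fun n => ?_
    have : cor μ (f + f') g n = cor μ f g n + cor μ f' g n := by
      simp only [cor, Pi.add_apply, add_mul]
      rw [integral_add (f := fun x => f x * g (sh n x)) (g := fun x => f' x * g (sh n x))
        (integ ((V_cont hf).mul ((V_cont hg).comp (sh_cont n))) μ)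
        (integ ((V_cont hf').mul ((V_cont hg).comp (sh_cont n))) μ),
        integral_add (integ (V_cont hf) μ) (integ (V_cont hf') μ)]
      ring
    rw [this, one_mul]
    exact abs_add_le _ _
  | smul a f _ h1 =>
    refine Ces.of_le |a| h1 Ces.zero fun n => ?_
    have : cor μ (a • f) g n = a * cor μ f g n := by
      simp only [cor, Pi.smul_apply, smul_eq_mul, mul_assoc, integral_const_mul]
      ring
    rw [this, abs_mul]
    simp

theorem wm (h : Good μ U) : WeakMixing μ := by
  intro A B hA hB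
  simp only [iter_shift]
  have hd := Measure.MeasureDense.of_generateFrom_isSetAlgebra_finite μ
    (isSetAlgebra_measurableCylinders (α := fun _ : ℤ => ZMod 2))
    generateFrom_measurableCylinders.symm
  refine Ces.approx (u := fun n => μ.real (A ∩ sh n ⁻¹' B) - μ.real A * μ.real B) fun ε hε => ?_
  obtain ⟨A', a1, a2⟩ := hd.approx A hA (measure_ne_top _ _) (ε / 4) (by linarith)
  obtain ⟨B', b1, b2⟩ := hd.approx B hB (measure_ne_top _ _) (ε / 4) (by linarith)
  have a3 := MeasurableSet.of_mem_measurableCylinders a1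
  have b3 := MeasurableSet.of_mem_measurableCylinders b1
  have a4 : μ.real (A ∆ A') ≤ ε / 4 := ENNReal.toReal_le_of_le_ofReal (by linarith) a2.le
  have b4 : μ.real (B ∆ B') ≤ ε / 4 := ENNReal.toReal_le_of_le_ofReal (by linarith) b2.le
  refine ⟨_, wm_V h (cyl_V a1) (cyl_V b1), fun n => ?_⟩
  have hm := (sh_cont n).measurable
  have e : cor μ (A'.indicator 1) (B'.indicator 1) n
      = μ.real (A' ∩ sh n ⁻¹' B') - μ.real A' * μ.real B' := by
    rw [cor, integral_indicator_one a3, integral_indicator_one b3,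
      ← integral_indicator_one (a3.inter (hm b3))]
    congr 2
    funext x
    by_cases h1 : x ∈ A' <;> by_cases h2 : sh n x ∈ B' <;> simp [h1, h2]
  rw [e]
  have c1 : |μ.real (A ∩ sh n ⁻¹' B) - μ.real (A' ∩ sh n ⁻¹' B')| ≤ ε / 4 + ε / 4 := by
    refine (abs_measureReal_sub_le_measureReal_symmDiff (hA.inter (hm hB)).nullMeasurableSet
      (a3.inter (hm b3)).nullMeasurableSet).trans ?_
    refine le_trans (measureReal_mono (s₂ := A ∆ A' ∪ sh n ⁻¹' (B ∆ B')) ?_ (measure_ne_top _ _))
      ((measureReal_union_le _ _).trans ?_)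
    · intro x
      simp only [Set.mem_symmDiff, Set.mem_inter_iff, Set.mem_preimage, Set.mem_union]
      tauto
    · rw [pre_sh h n (hB.symmDiff b3)]
      linarith
  have c2 := (abs_measureReal_sub_le_measureReal_symmDiff (μ := μ) hA.nullMeasurableSet
    a3.nullMeasurableSet).trans a4
  have c3 := (abs_measureReal_sub_le_measureReal_symmDiff (μ := μ) hB.nullMeasurableSet
    b3.nullMeasurableSet).trans b4
  have c4 : |μ.real A * μ.real B - μ.real A' * μ.real B'| ≤ ε / 4 + ε / 4 := by
    have : μ.real A * μ.real B - μ.real A' * μ.real B'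
        = (μ.real A - μ.real A') * μ.real B + μ.real A' * (μ.real B - μ.real B') := by ring
    rw [this]
    refine (abs_add_le _ _).trans (add_le_add ?_ ?_)
    · rw [abs_mul, abs_of_nonneg (measureReal_nonneg (s := B))]
      exact (mul_le_of_le_one_right (abs_nonneg _) measureReal_le_one).trans c2
    · rw [abs_mul, abs_of_nonneg (measureReal_nonneg (s := A'))]
      exact (mul_le_of_le_one_left (abs_nonneg _) measureReal_le_one).trans c3
  have c5 := abs_le.1 c1
  have c6 := abs_le.1 c4
  have c7 := le_abs_self (μ.real (A' ∩ sh n ⁻¹' B') - μ.real A' * μ.real B')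
  have c8 := neg_abs_le (μ.real (A' ∩ sh n ⁻¹' B') - μ.real A' * μ.real B')
  rw [abs_le]
  constructor <;> linarith [c5.1, c5.2, c6.1, c6.2]

theorem one_sub_chi (i : ℤ) (x : X) : 1 - chi i x = 2 * ind (fun x => x i ≠ 0) x := by
  by_cases h : x i = 0 <;> simp [chi, ind, h]
  norm_num

theorem ne_dirac (h : Good μ U) : μ ≠ Measure.dirac 0 := by
  haveI := h.ne
  intro h1
  have h2 := h.lim _ (chi_chr 0)
  simp only [one_sub_chi, m_smul, m_one] at h2
  have h3 := tendsto_nhds_unique h2 tendsto_const_nhds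
  rw [h1, integral_dirac] at h3
  have h4 : Real.exp (-(2 * 1)) < 1 := Real.exp_lt_one_iff.2 (by norm_num)
  simp only [chi, Pi.zero_apply, if_true] at h3
  linarith

theorem F_small (h : Good μ U) (i : ℤ) :
    Tendsto (fun n => μ.real {x | F^[n] x i ≠ 0}) atTop (𝓝 0) := by
  haveI := h.ne
  have hlog : Tendsto (Nat.log 2) atTop atTop := by
    refine tendsto_atTop_atTop.2 fun b => ⟨2 ^ b, fun n hn => ?_⟩
    exact Nat.le_log_of_pow_le (by norm_num) hn
  refine squeeze_zero' (Eventually.of_forall fun _ => measureReal_nonneg) ?_ (tend_B.comp hlog)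
  filter_upwards [eventually_ne_atTop 0] with n hn
  have hc : Continuous F^[n] := F_cont.iterate n
  have hs : MeasurableSet {x : X | F^[n] x 0 ≠ 0} :=
    ((continuous_apply 0).comp hc).measurable (t := {a | a ≠ 0}) trivial
  have e : {x | F^[n] x i ≠ 0} = sh i ⁻¹' {x | F^[n] x 0 ≠ 0} := by
    ext x
    simp [F_sh, sh]
  rw [e, pre_sh h i hs]
  have hch := (chi_chr 0).comp hc (F_add n)
  have h1 : 1 - 2 * ((∏ j ∈ range (Nat.log 2 n), (1 + eps j)) * (8 * eps (Nat.log 2 n)))
      ≤ ∫ x, (chi 0 ∘ F^[n]) x ∂μ := by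
    refine ge_of_tendsto' (h.lim _ hch) fun L => ?_
    refine le_trans ?_ (Real.add_one_le_exp _)
    simp only [Function.comp, one_sub_chi, m_smul]
    have h2 := m_B (Nat.log 2 n) L 0
    simp only [zero_add] at h2
    have h3 : (m L 0 fun x => ind (fun x => x 0 ≠ 0) (F^[n] x)) ≤ m L 0 (ind (Bk (Nat.log 2 n))) :=
      m_mono _ _ fun x => ind_le (F_B n hn x)
    linarith
  have h2 : ∫ x, (chi 0 ∘ F^[n]) x ∂μ = 1 - 2 * μ.real {x : X | F^[n] x 0 ≠ 0} := by
    have : (chi 0 ∘ F^[n]) = fun x => 1 - 2 * {x : X | F^[n] x 0 ≠ 0}.indicator 1 x := by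
      funext x
      by_cases h3 : F^[n] x 0 = 0 <;> simp [chi, h3]
      norm_num
    have hi : Integrable ({x : X | F^[n] x 0 ≠ 0}.indicator (1 : X → ℝ)) μ :=
      (integrable_const (1 : ℝ)).indicator hs
    rw [this]
    beta_reduce
    rw [integral_sub (integrable_const _) (hi.const_mul 2), integral_const_mul, integral_indicator_one hs]
    simp
  simp only [Function.comp]
  simp only [Function.comp] at h1 h2
  linarith

theorem F_lim (h : Good μ U) (f : X → ℝ) (hf : Continuous f) :
    Tendsto (fun n => ∫ x, f x ∂(μ.map F^[n])) atTop (𝓝 (f 0)) := by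
  rw [Metric.tendsto_nhds]
  intro ε hε
  have h1 : {x | dist (f x) (f 0) < ε / 2} ∈ 𝓝 (0 : X) :=
    hf.continuousAt (Metric.ball_mem_nhds _ (by linarith))
  rw [nhds_pi, mem_pi'] at h1
  obtain ⟨S, t, ht, hS⟩ := h1
  obtain ⟨C, hC⟩ := (isCompact_range (hf.sub (continuous_const (y := f 0))).abs).bddAbove
  have hC' : ∀ x, |f x - f 0| ≤ C := fun x => hC ⟨x, rfl⟩
  have h2 : Tendsto (fun n => C * ∑ i ∈ S, μ.real {x | F^[n] x i ≠ 0}) atTop
      (𝓝 (C * ∑ i ∈ S, 0)) := (tendsto_finset_sum _ fun i _ => F_small h i).const_mul C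
  simp only [sum_const_zero, mul_zero] at h2
  filter_upwards [h2.eventually (gt_mem_nhds (show 0 < ε / 2 by linarith))] with n hn
  have hc : Continuous F^[n] := F_cont.iterate n
  have hs : ∀ i, MeasurableSet {x : X | F^[n] x i ≠ 0} := fun i =>
    ((continuous_apply i).comp hc).measurable (t := {a | a ≠ 0}) trivial
  rw [integral_map hc.measurable.aemeasurable hf.aestronglyMeasurable, Real.dist_eq]
  have e : ∫ x, f (F^[n] x) ∂μ - f 0 = ∫ x, (f (F^[n] x) - f 0) ∂μ := by
    rw [integral_sub (f := fun x => f (F^[n] x)) (integ (hf.comp hc) μ) (integrable_const _)]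
    simp
  have hi : ∀ i, Integrable ({x : X | F^[n] x i ≠ 0}.indicator (1 : X → ℝ)) μ := fun i =>
    (integrable_const (1 : ℝ)).indicator (hs i)
  have h3 : ∫ x, |f (F^[n] x) - f 0| ∂μ ≤
      ∫ x, (ε / 2 + C * ∑ i ∈ S, {x : X | F^[n] x i ≠ 0}.indicator (1 : X → ℝ) x) ∂μ := by
    refine integral_mono (integ ((hf.comp hc).sub continuous_const).abs μ)
      ((integrable_const _).add ((integrable_finset_sum _ fun i _ => hi i).const_mul C)) fun x => ?_
    have h0 : ∀ i, 0 ≤ {x : X | F^[n] x i ≠ 0}.indicator (1 : X → ℝ) x := fun i =>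
      Set.indicator_nonneg (fun _ _ => zero_le_one) _
    have hC0 : 0 ≤ C := (abs_nonneg _).trans (hC' 0)
    by_cases h4 : ∀ i ∈ S, F^[n] x i = 0
    · have h5 : F^[n] x ∈ (S : Set ℤ).pi t := fun i hi => by
        rw [h4 i hi]; exact mem_of_mem_nhds (ht i)
      have h6 : dist (f (F^[n] x)) (f 0) < ε / 2 := hS h5
      rw [Real.dist_eq] at h6
      have := mul_nonneg hC0 (sum_nonneg fun i (_ : i ∈ S) => h0 i)
      simp only
      linarith
    · push Not at h4
      obtain ⟨i, hi, h4⟩ := h4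
      have h5 := single_le_sum (fun i (_ : i ∈ S) => h0 i) hi
      rw [Set.indicator_of_mem (show x ∈ {x : X | F^[n] x i ≠ 0} from h4), Pi.one_apply] at h5
      have := hC' (F^[n] x)
      simp only
      nlinarith
  rw [integral_add (integrable_const _) ((integrable_finset_sum _ fun i _ => hi i).const_mul C),
    integral_const_mul, integral_finset_sum _ fun i _ => hi i] at h3
  simp only [integral_indicator_one (hs _), integral_const, probReal_univ, smul_eq_mul,
    one_mul] at h3
  rw [e]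
  exact (abs_integral_le_integral_abs.trans h3).trans_lt (by linarith)

end Pool.Agent.H69.Xor
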